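import Pool.Agent.Lib.SqIns.Moves

/-!
# The abstract induction step with arbitrary moves and hybrid letters

The squares number `(r, l)` may be changed by a permutation `π l` of the letters (`hπ`: the total sum
is the same).  The three moves of a splice may be in different rows and layers.
-/

open Finset Equiv

namespace SqIns

/-- the change made by a move: `o`, `n` and `w`, `y` get joined -/
def T4 {U : Type*} [DecidableEq U] (o n w y : U) : Sym2 U → ℤ :=
  - pr o w - pr n y + pr o n + pr w y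

section T4

variable {U : Type*} [DecidableEq U]

theorem T4_comm (o n w y : U) : T4 o n w y = T4 n o y w := by
  unfold T4
  rw [pr_comm o n, pr_comm w y]
  abel

/-- first pairing -/
theorem Place.Γ_eq1 (P : Place U) : P.Γ =
    T4 P.q P.u P.x₁ P.x₀ + T4 P.p P.u P.x₁ P.x₃ + T4 P.q P.v P.x₂ P.x₀ := by
  unfold Place.Γ T4
  rw [pr_comm P.x₀ P.u, pr_comm P.x₁ P.q, pr_comm P.x₀ P.x₁, pr_comm P.u P.q, pr_comm P.x₃ P.u,
    pr_comm P.x₁ P.p, pr_comm P.x₃ P.x₁, pr_comm P.u P.p, pr_comm P.x₀ P.v, pr_comm P.x₂ P.q,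
    pr_comm P.x₀ P.x₂, pr_comm P.v P.q]
  abel

/-- second pairing -/
theorem Place.Γ_eq2 (P : Place U) : P.Γ =
    T4 P.q P.u P.x₁ P.x₃ + T4 P.p P.u P.x₁ P.x₀ + T4 P.q P.v P.x₂ P.x₀ := by
  rw [P.Γ_eq1]
  unfold T4
  abel

/-- third pairing -/
theorem Place.Γ_eq3 (P : Place U) : P.Γ =
    T4 P.q P.u P.x₂ P.x₀ + T4 P.p P.u P.x₁ P.x₃ + T4 P.q P.v P.x₁ P.x₀ := by
  rw [P.Γ_eq1]
  unfold T4
  abel

end T4

namespace Row

section Pts

variable {X R I W : Type*} [Fintype X] [CommRing R] (ρ : Row X R I) (σ : W → I) (κ : W → R)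
  (Φ : X → Perm R) (π : Perm W)

/-- the outer point of a move -/
def gO (m : GMv R W) : (X × R) ⊕ W :=
  .inl (fib Φ (ρ.at' (σ m.w) (κ m.w) m.l (ρ.gout m.dir (σ m.w))))

/-- the inner point of a move -/
def gN (m : GMv R W) : (X × R) ⊕ W :=
  .inl (fib Φ (ρ.at' (σ m.w) (κ m.w) m.l (ρ.ginn m.dir (σ m.w))))

theorem gmove_map_Δ [DecidableEq X] [DecidableEq R] [DecidableEq W] [Fintype R] [Fintype W]
    (m : GMv R W) :
    ((ρ.gmove σ κ m).map (mvp Φ π)).Δ =
      T4 (ρ.gO σ κ Φ m) (ρ.gN σ κ Φ m) (.inr (π m.w)) (mvp Φ π (ρ.gy σ κ m)) := by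
  rw [Move.Δ_map, gmove_Δ]
  unfold T4
  simp only [push_add, push_sub', push_neg', push_pr (mvp Φ π).injective]
  rfl

end Pts

variable {V R I W ι T Z : Type*} [Fintype V] [DecidableEq V] [CommRing R] [Fintype R]
  [DecidableEq R] [Fintype W] [DecidableEq W] [Fintype ι] [DecidableEq ι] [Fintype T]
  [DecidableEq T] [Fintype Z] [DecidableEq Z]

/-! ### The moves of `Main1` as general moves -/

/-- the move `n` of the splice `S` -/
noncomputable def sgm (ρ : Row (Option V) R I) (iA ia : I) (S : Spl ι T R W) (n : Fin 3) :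
    GMv R W := ⟨S.fam, S.zt, ρ.slift iA ia S n, S.ltX n, S.ltY n⟩

omit [Fintype ι] [DecidableEq ι] [DecidableEq V] [Fintype R] [Fintype W] [DecidableEq R]
  [DecidableEq W] [Fintype T] [DecidableEq T] in
theorem smove_eq_gmove (ρ : Row (Option V) R I) (σ : W → I) (κ : W → R) (iA ia : I)
    (S : Spl ι T R W) (n : Fin 3) :
    ρ.smove σ κ iA ia S n = ρ.gmove σ κ (ρ.sgm iA ia S n) := by
  unfold smove gmove sgm
  cases S.fam <;> cases S.zt <;> rfl

omit [Fintype ι] [DecidableEq ι] [DecidableEq V] [Fintype R] [Fintype W] [DecidableEq R]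
  [DecidableEq W] [Fintype T] [DecidableEq T] in
theorem SFits.gok {ρ : Row (Option V) R I} {σ : W → I} {κ : W → R} {iA ib ia iB : I}
    {S : Spl ι T R W} (h : ρ.SFits σ κ iA ib ia iB S) (n : Fin 3) :
    ρ.GOK σ κ (ρ.sgm iA ia S n) where
  pass := by
    intro hz
    have h1 := h.pass hz n
    unfold Pass at h1
    show κ (S.ltY n) - ρ.cs (σ (S.ltY n)) * _ = κ (S.ltX n) - ρ.cs (σ (S.ltX n)) * _
    cases hf : S.fam
    · rw [hf] at h1
      first | exact h1 | exact h1.symm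
    · rw [hf] at h1
      first | exact h1 | exact h1.symm
  adjL := by
    intro hf hz
    show ρ.s (ρ.s (ρ.B (σ (S.ltX n)))) = ρ.B (σ (S.ltY n))
    rw [h.σX n, h.σY hz n]
    have hf' : S.fam = true := hf
    rw [hf']
    exact h.adjL hf hz
  adjR := by
    intro hf hz
    show ρ.s (ρ.s (ρ.B (σ (S.ltY n)))) = ρ.B (σ (S.ltX n))
    rw [h.σX n, h.σY hz n]
    have hf' : S.fam = false := hf
    rw [hf']
    exact h.adjR hf hz
  gapL := by
    intro hf hz
    show ∀ j, ρ.B j ≠ ρ.s (ρ.s (ρ.B (σ (S.ltX n))))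
    rw [h.σX n]
    have hf' : S.fam = true := hf
    rw [hf']
    exact h.gapL hf hz
  seamL := by
    intro hf hz
    show ρ.τ (ρ.s (ρ.s (ρ.B (σ (S.ltX n))))) = 0
    rw [h.σX n]
    have hf' : S.fam = true := hf
    rw [hf']
    exact h.seamL hf hz
  gapR := by
    intro hf hz
    show ∀ j, ρ.B j ≠ ρ.tL (σ (S.ltX n))
    rw [h.σX n]
    have hf' : S.fam = false := hf
    rw [hf']
    exact h.gapR hf hz
  seamR := by
    intro hf hz
    show ρ.τ (ρ.tL (σ (S.ltX n))) = 0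
    rw [h.σX n]
    have hf' : S.fam = false := hf
    rw [hf']
    exact h.seamR hf hz

omit [Fintype ι] [DecidableEq ι] [DecidableEq V] [Fintype R] [Fintype W] in
/-- moves in different passes, or far from each other, are apart -/
theorem apart_of_or (ρ : Row (Option V) R I) (σ : W → I) (κ : W → R) {m m' : GMv R W}
    (h : ρ.GOK σ κ m) (h' : ρ.GOK σ κ m') (hl : m.l = m'.l)
    (hor : ρ.pc σ κ m.l m.w ≠ ρ.pc σ κ m'.l m'.w ∨ ρ.GFar σ m m') :
    (ρ.gmove σ κ m).Apart (ρ.gmove σ κ m') := by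
  rcases hor with h1 | h1
  · exact h.apart_pass h' hl h1
  · exact h1.apart

/-- two letters with the same window points (over all rows) -/
theorem sum_tie_congr (ρ : ι → Row (Option V) R I) (σ : W → I) (κ : ι → W → R)
    (Φ : ι → Option V → Perm R) (win : ι → I → Fin 4 → V)
    (hwin : ∀ r i n, (ρ r).wn i n = some (win r i n))
    (hbij : ∀ i, Function.Bijective fun p : ι × Fin 4 => win p.1 i p.2) {l : R} {w w' : W}
    (h : ∀ r k r' k' x, win r (σ w) k = x → win r' (σ w') k' = x →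
      Φ r (some x) (κ r w + ((ρ r).col (some x) - (ρ r).cs (σ w)) * l) =
        Φ r' (some x) (κ r' w' + ((ρ r').col (some x) - (ρ r').cs (σ w')) * l)) (u : W) :
    ∑ r, (ρ r).tie σ (κ r) (Φ r) l w u = ∑ r, (ρ r).tie σ (κ r) (Φ r) l w' u := by
  classical
  have e : ∀ w : W, ∑ r, (ρ r).tie σ (κ r) (Φ r) l w u = ∑ p : ι × Fin 4,
      pr (.inl (fib (Φ p.1) ((ρ p.1).at' (σ w) (κ p.1 w) l (some (win p.1 (σ w) p.2)))))
        (.inr u) := by
    intro w
    rw [Fintype.sum_prod_type]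
    refine sum_congr rfl fun r _ => ?_
    unfold tie
    exact sum_congr rfl fun k _ => by rw [hwin]
  rw [e, e]
  let a := Equiv.ofBijective _ (hbij (σ w))
  let b := Equiv.ofBijective _ (hbij (σ w'))
  rw [← (a.trans b.symm).sum_comp (fun p : ι × Fin 4 =>
    pr (Sum.inl (fib (Φ p.1) ((ρ p.1).at' (σ w') (κ p.1 w') l (some (win p.1 (σ w') p.2)))))
      (Sum.inr u : (Option V × R) ⊕ W))]
  refine sum_congr rfl fun p _ => ?_
  have h1 : win ((a.trans b.symm) p).1 (σ w') ((a.trans b.symm) p).2 = win p.1 (σ w) p.2 := by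
    have h2 : b ((a.trans b.symm) p) = a p := by simp
    exact h2
  rw [h1]
  have h3 := h p.1 p.2 _ _ _ rfl h1
  show pr (Sum.inl (some (win p.1 (σ w) p.2), Φ p.1 (some (win p.1 (σ w) p.2))
      (κ p.1 w + ((ρ p.1).col (some (win p.1 (σ w) p.2)) - (ρ p.1).cs (σ w)) * l))) (Sum.inr u) =
    pr (Sum.inl (some (win p.1 (σ w) p.2), Φ ((a.trans b.symm) p).1 (some (win p.1 (σ w) p.2))
      (κ ((a.trans b.symm) p).1 w' + ((ρ ((a.trans b.symm) p).1).col
        (some (win p.1 (σ w) p.2)) - (ρ ((a.trans b.symm) p).1).cs (σ w')) * l))) (Sum.inr u)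
  rw [h3]

/-- **The abstract induction step with arbitrary moves.** -/
theorem main_moves (hc : 5 < Fintype.card ((Option V × R) ⊕ W))
    (ρ : ι → Row (Option V) R I) (σ : W → I) (κ : ι → W → R)
    (hσ : ∀ r, Function.Injective fun w => (σ w, κ r w)) (Φ : ι → Option V → Perm R)
    (π : R → Perm W)
    (hπ : ∀ l w u, ∑ r, (ρ r).tie σ (κ r) (Φ r) l w u = ∑ r, (ρ r).tie σ (κ r) (Φ r) l (π l w) u)
    (hbase : ∑ r, E (ρ r).s = allPairs (Option V)) (win : ι → I → Fin 4 → V)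
    (hwin : ∀ r i n, (ρ r).wn i n = some (win r i n))
    (hbij : ∀ i, Function.Bijective fun p : ι × Fin 4 => win p.1 i p.2)
    (O : T → Perm (V × R)) (S : T → Perm (R ⊕ W)) (free : Sym2 (V × R) → ℤ)
    (hfree : push (emV V R) free = ∑ r, push (fib (Φ r))
      (∑ w, ((ρ r).mac (σ w) (κ r w) + (ρ r).mbd (σ w) (κ r w))))
    (hO : ∑ j, E (O j) = vertAll V R + free) (hS : ∑ j, E (S j) = allPairs (R ⊕ W))
    (row : Z × Fin 3 → ι) (mv : Z × Fin 3 → GMv R W)
    (hok : ∀ z, (ρ (row z)).GOK σ (κ (row z)) (mv z))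
    (hapm : ∀ z z', z ≠ z' → row z = row z' → (mv z).l = (mv z').l →
      ((ρ (row z)).gmove σ (κ (row z)) (mv z)).Apart ((ρ (row z)).gmove σ (κ (row z)) (mv z')))
    (sq : Z → T) (P : Z → Place ((Option V × R) ⊕ W))
    (hΔ : ∀ z, (((ρ (row (z, 0))).gmove σ (κ (row (z, 0))) (mv (z, 0))).map
        (mvp (Φ (row (z, 0))) (π (mv (z, 0)).l))).Δ +
      (((ρ (row (z, 1))).gmove σ (κ (row (z, 1))) (mv (z, 1))).map
        (mvp (Φ (row (z, 1))) (π (mv (z, 1)).l))).Δ +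
      (((ρ (row (z, 2))).gmove σ (κ (row (z, 2))) (mv (z, 2))).map
        (mvp (Φ (row (z, 2))) (π (mv (z, 2)).l))).Δ = (P z).Γ)
    (comp : T → (Option V × R) ⊕ W → Option Z)
    (hcomp : ∀ j, Comps (two (O j) (S j)) (comp j))
    (hsq : ∀ j x z, comp j x = some z → sq z = j)
    (hq : ∀ z, comp (sq z) (P z).q = some z) (hx : ∀ z, comp (sq z) (P z).x₀ = none)
    (hin : ∀ z, (P z).In (two (O (sq z)) (S (sq z))))
    (hqu : ∀ z, (P z).q ≠ (P z).u) (hxx : ∀ z, (P z).x₀ ≠ (P z).x₁)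
    (hap : ∀ z z', sq z = sq z' → z ≠ z' →
      (P z').x₀ ≠ (P z).x₃ ∧ (P z').x₀ ≠ (P z).x₀ ∧ (P z').x₀ ≠ (P z).x₁) :
    ∃ s : (ι × R) ⊕ T → Perm ((Option V × R) ⊕ W), Dec s ∧
      (∀ r l x y x' y', (∀ z, row z = r → x ≠ (ρ r).ginn (mv z).dir (σ (mv z).w)) →
        (∀ z, row z = r → x' ≠ (ρ r).ginn (mv z).dir (σ (mv z).w)) →
        (ρ r).fullπ (hσ r) (Φ r) (π l) l (.inl (x, y)) = .inl (x', y') →
        s (.inl (r, l)) (.inl (x, y)) = .inl (x', y')) ∧
      (∀ j x, (∀ z, sq z = j → x ≠ (P z).q ∧ x ≠ (P z).x₀) →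
        s (.inr j) x = two (O j) (S j) x) := by
  classical
  have hsum0 := total ρ σ κ hσ Φ hbase win hwin hbij O S free hfree hO hS
  have hsum : ∑ p : ι × R, E ((ρ p.1).fullπ (hσ p.1) (Φ p.1) (π p.2) p.2) +
      ∑ j, E (two (O j) (S j)) = allPairs ((Option V × R) ⊕ W) := by
    rw [← hsum0]
    congr 1
    rw [Fintype.sum_prod_type_right, Fintype.sum_prod_type_right]
    exact sum_congr rfl fun l _ => sum_fullπ ρ σ κ hσ Φ (π l) l (hπ l)
  let g : Z × Fin 3 → ι × R := fun z => (row z, (mv z).l)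
  let m : Z × Fin 3 → Move ((Option V × R) ⊕ W) := fun z =>
    ((ρ (row z)).gmove σ (κ (row z)) (mv z)).map (mvp (Φ (row z)) (π (mv z).l))
  have hin' : ∀ z, (m z).In ((ρ (g z).1).fullπ (hσ (g z).1) (Φ (g z).1) (π (g z).2) (g z).2) :=
    fun z => ((hok z).In (hσ _)).permCongr _
  have hap' : ∀ z z', z ≠ z' → g z = g z' → (m z).Apart (m z') := by
    intro z z' hne hg
    have hr : row z = row z' := (Prod.ext_iff.1 hg).1
    have hl : (mv z).l = (mv z').l := (Prod.ext_iff.1 hg).2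
    show Move.Apart (((ρ (row z)).gmove σ (κ (row z)) (mv z)).map _)
      (((ρ (row z')).gmove σ (κ (row z')) (mv z')).map _)
    rw [← hr, ← hl]
    exact (hapm z z' hne hr hl).map _
  obtain ⟨s, hs, hs1, hs2⟩ := splice_theorem4 hc
    (fun p : ι × R => (ρ p.1).fullπ (hσ p.1) (Φ p.1) (π p.2) p.2)
    (fun p => (ρ p.1).closed_fullπ (hσ p.1) (Φ p.1) (π p.2) p.2) (fun j => two (O j) (S j)) hsum
    sq P comp hcomp hsq hq hx hin hqu hxx hap g m hin' hap' hΔ
  refine ⟨s, hs, ?_, hs2⟩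
  intro r l x y x' y' h1 h2 h3
  have key : ∀ (c : Option V) (t : R), (∀ z, row z = r → c ≠ (ρ r).ginn (mv z).dir (σ (mv z).w)) →
      ∀ z, g z = (r, l) → (Sum.inl (c, t) : (Option V × R) ⊕ W) ≠ (m z).b ∧
        (Sum.inl (c, t) : (Option V × R) ⊕ W) ≠ (m z).w := by
    intro c t hc z hz
    have hr : row z = r := (Prod.ext_iff.1 hz).1
    obtain ⟨k1, k2⟩ := gmove_sets (ρ := ρ (row z)) (σ := σ) (κ := κ (row z)) (mv z)
    have key2 : ∀ u : (Option V × R) ⊕ W,
        InSet σ {(ρ (row z)).ginn (mv z).dir (σ (mv z).w)} {σ (mv z).w} u →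
        (Sum.inl (c, t) : (Option V × R) ⊕ W) ≠ mvp (Φ (row z)) (π (mv z).l) u := by
      rintro (p | w) hu h0
      · have h4 : c = p.1 := (Prod.ext_iff.1 (Sum.inl_injective h0)).1
        refine hc z hr ?_
        rw [h4, ← hr]
        exact hu
      · exact Sum.inl_ne_inr h0
    exact ⟨key2 _ k1, key2 _ k2⟩
  have h4 := hs1 (r, l) (.inl (x, y)) (key x y h1) (by
    show ∀ z, g z = (r, l) → (ρ r).fullπ (hσ r) (Φ r) (π l) l (.inl (x, y)) ≠ (m z).b ∧
      (ρ r).fullπ (hσ r) (Φ r) (π l) l (.inl (x, y)) ≠ (m z).w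
    rw [h3]
    exact key x' y' h2)
  rw [h4]
  exact h3

end Row

end SqIns
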