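import Pool.Agent.Lib.SqIns.Starter
import Pool.Agent.Lib.SqIns.Main3

/-!
# Base data

A half-turn starter word with odd `k`.  The row number `r : ZMod k` is the translate by `2 r`.
-/

open Finset Equiv

namespace SqIns

/-- a half-turn starter word with odd `k` -/
structure HT where
  k : ℕ
  N : ℕ
  odd : k % 2 = 1
  ok : chk k N = true

namespace HT

variable (b : HT)

theorem k_pos : 0 < b.k := by
  have := b.odd
  omega

instance : NeZero b.k := ⟨b.k_pos.ne'⟩
instance : NeZero (2 * b.k) := ⟨by have := b.k_pos; omega⟩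
instance : NeZero (4 * b.k + 1) := ⟨by omega⟩

/-- the finite points -/
abbrev V : Type := Bool × ZMod (2 * b.k)

/-- the points of the base square in cyclic order, `0` is infinity -/
noncomputable def e : ZMod (4 * b.k + 1) ≃ Option b.V := (dec_of_chk_equiv b.ok).choose

theorem e_nat {i : ℕ} (hi : i < 4 * b.k + 1) : b.e (i : ZMod (4 * b.k + 1)) = blk b.k b.N i :=
  (dec_of_chk_equiv b.ok).choose_spec.1 i hi

theorem dec_e : Dec (fun m : Fin b.k => rot (b.e.trans (trP (m.val : ZMod (2 * b.k))))) :=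
  (dec_of_chk_equiv b.ok).choose_spec.2

theorem e_zero : b.e 0 = none := by
  have := b.e_nat (i := 0) (by omega)
  rw [Nat.cast_zero] at this
  rw [this, blk_zero]

theorem two_k : ((b.k : ℕ) : ZMod (2 * b.k)) + b.k = 0 := by
  have h2 : ((2 * b.k : ℕ) : ZMod (2 * b.k)) = 0 := ZMod.natCast_self _
  push_cast at h2
  linear_combination h2

/-- every index is `0`, `j + 1` or `- (j + 1)` with `j < 2 k` -/
theorem cases_idx (i : ZMod (4 * b.k + 1)) :
    i = 0 ∨ ∃ j < 2 * b.k, i = ((j + 1 : ℕ) : ZMod (4 * b.k + 1)) ∨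
      i = ((4 * b.k - j : ℕ) : ZMod (4 * b.k + 1)) := by
  have h := ZMod.val_lt i
  have hi : i = ((i.val : ℕ) : ZMod (4 * b.k + 1)) := (ZMod.natCast_zmod_val i).symm
  by_cases h0 : i.val = 0
  · left
    rw [hi, h0, Nat.cast_zero]
  · right
    by_cases h1 : i.val ≤ 2 * b.k
    · exact ⟨i.val - 1, by omega, Or.inl (by rw [Nat.sub_add_cancel (by omega)]; exact hi)⟩
    · refine ⟨4 * b.k - i.val, by omega, Or.inr ?_⟩
      rw [show 4 * b.k - (4 * b.k - i.val) = i.val by omega]
      exact hi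

theorem neg_cast {j : ℕ} (hj : j < 2 * b.k) : -((j + 1 : ℕ) : ZMod (4 * b.k + 1)) =
    ((4 * b.k - j : ℕ) : ZMod (4 * b.k + 1)) := by
  have hself : ((4 * b.k + 1 : ℕ) : ZMod (4 * b.k + 1)) = 0 := ZMod.natCast_self _
  rw [Nat.cast_sub (by omega)]
  push_cast at hself ⊢
  linear_combination -hself

theorem trP_k_e (i : ZMod (4 * b.k + 1)) : trP (b.k : ZMod (2 * b.k)) (b.e i) = b.e (-i) := by
  rcases b.cases_idx i with rfl | ⟨j, hj, rfl | rfl⟩
  · rw [neg_zero, b.e_zero, trP_none]
  · rw [b.neg_cast hj, b.e_nat (by omega), b.e_nat (by omega), blk_lo hj, blk_hi hj, trP_some,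
      dcd_ht b.k_pos (yw_lt b.k_pos _ _)]
  · rw [← b.neg_cast hj, neg_neg, b.neg_cast hj, b.e_nat (by omega), b.e_nat (by omega), blk_lo hj,
      blk_hi hj, trP_some, dcd_ht b.k_pos (yw_lt b.k_pos _ _), tr_k_k]

theorem trP_add (c d : ZMod (2 * b.k)) (x : SPt b.k) : trP (c + d) x = trP c (trP d x) := by
  rcases x with _ | x
  · rfl
  · rw [trP_some, trP_some, trP_some]
    congr 1
    refine Prod.ext rfl ?_
    show x.2 + (c + d) = x.2 + d + c
    ring

theorem rot_half (c : ZMod (2 * b.k)) : rot (b.e.trans (trP (c + b.k))) =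
    (rot (b.e.trans (trP c)))⁻¹ := by
  rw [eq_inv_iff_mul_eq_one]
  ext1 x
  obtain ⟨i, rfl⟩ := (b.e.trans (trP c)).surjective x
  rw [Perm.mul_apply, rot_apply, Perm.one_apply]
  have h : ∀ i, (b.e.trans (trP c)) i = (b.e.trans (trP (c + b.k))) (-i) := by
    intro i
    rw [Equiv.trans_apply, Equiv.trans_apply, b.trP_add, b.trP_k_e, neg_neg]
  rw [h (i + 1), rot_apply, h i]
  congr 1
  ring

theorem E_half (c : ZMod (2 * b.k)) : E (rot (b.e.trans (trP (c + b.k)))) =
    E (rot (b.e.trans (trP c))) := by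
  rw [b.rot_half, E_inv]

/-! ### Rows -/

/-- the translation of the row `r` -/
def e2 (r : ZMod b.k) : ZMod (2 * b.k) := ((2 * r.val : ℕ) : ZMod (2 * b.k))

theorem e2_add (r s : ZMod b.k) : b.e2 (r + s) = b.e2 r + b.e2 s := by
  unfold e2
  rw [← Nat.cast_add, ZMod.natCast_eq_natCast_iff]
  rw [ZMod.val_add]
  show 2 * ((r.val + s.val) % b.k) ≡ 2 * r.val + 2 * s.val [MOD 2 * b.k]
  rw [← mul_add]
  exact Nat.ModEq.mul_left' 2 (Nat.mod_modEq _ _)

theorem e2_zero : b.e2 0 = 0 := by
  unfold e2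
  rw [ZMod.val_zero]
  simp

/-- the points of the row `r` in cyclic order -/
noncomputable def pt (r : ZMod b.k) : ZMod (4 * b.k + 1) ≃ Option b.V := b.e.trans (trP (b.e2 r))

/-- the base square number `r` -/
noncomputable def sq (r : ZMod b.k) : Perm (Option b.V) := rot (b.pt r)

@[simp] theorem sq_pt (r : ZMod b.k) (i : ZMod (4 * b.k + 1)) :
    b.sq r (b.pt r i) = b.pt r (i + 1) := rot_apply _ _

theorem sq_inv_pt (r : ZMod b.k) (i : ZMod (4 * b.k + 1)) :
    (b.sq r)⁻¹ (b.pt r i) = b.pt r (i - 1) := by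
  rw [Perm.inv_eq_iff_eq, sq_pt, sub_add_cancel]

theorem closed_sq (r : ZMod b.k) : Closed (b.sq r) := closed_rot _

theorem pt_zero (r : ZMod b.k) : b.pt r 0 = none := by
  unfold pt
  rw [Equiv.trans_apply, b.e_zero, trP_none]

theorem pt_ne (r : ZMod b.k) {i : ZMod (4 * b.k + 1)} (hi : i ≠ 0) : b.pt r i ≠ none := by
  intro h
  rw [← b.pt_zero r] at h
  exact hi ((b.pt r).injective h)

/-- translation of the finite points -/
def tV (c : ZMod (2 * b.k)) (v : b.V) : b.V := tr v c

theorem pt_add (r s : ZMod b.k) (i : ZMod (4 * b.k + 1)) :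
    b.pt (r + s) i = trP (b.e2 s) (b.pt r i) := by
  unfold pt
  rw [Equiv.trans_apply, Equiv.trans_apply, b.e2_add, add_comm, b.trP_add]

theorem sum_sq : ∑ r, E (b.sq r) = allPairs (Option b.V) := by
  have hE := b.dec_e.2
  rw [← hE]
  -- the class of the translation modulo `k`
  let f : ZMod b.k → Fin b.k := fun r => ⟨2 * r.val % b.k, Nat.mod_lt _ b.k_pos⟩
  have hf : Function.Injective f := by
    intro r s h
    have h1 : 2 * r.val % b.k = 2 * s.val % b.k := congrArg Fin.val h
    have h2 : 2 * r.val ≡ 2 * s.val [MOD b.k] := h1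
    have hc : Nat.Coprime b.k 2 := by
      rw [Nat.coprime_comm, Nat.coprime_two_left]
      exact Nat.odd_iff.2 b.odd
    have h3 : r.val ≡ s.val [MOD b.k] := Nat.ModEq.cancel_left_of_coprime hc h2
    have h4 : r.val = s.val := by
      have := ZMod.val_lt r
      have := ZMod.val_lt s
      unfold Nat.ModEq at h3
      rwa [Nat.mod_eq_of_lt, Nat.mod_eq_of_lt] at h3 <;> assumption
    exact ZMod.val_injective _ h4
  have hbij : Function.Bijective f := by
    rw [Fintype.bijective_iff_injective_and_card]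
    exact ⟨hf, by rw [ZMod.card, Fintype.card_fin]⟩
  rw [← hbij.sum_comp (fun m : Fin b.k => E (rot (b.e.trans (trP (m.val : ZMod (2 * b.k))))))]
  refine sum_congr rfl fun r _ => ?_
  show E (rot (b.e.trans (trP (((2 * r.val : ℕ) : ZMod (2 * b.k)))))) =
    E (rot (b.e.trans (trP (((2 * r.val % b.k : ℕ) : ZMod (2 * b.k))))))
  have hr := ZMod.val_lt r
  by_cases h : 2 * r.val < b.k
  · rw [Nat.mod_eq_of_lt h]
  · have h1 : 2 * r.val % b.k = 2 * r.val - b.k := by
      rw [Nat.mod_eq_sub_mod (by omega), Nat.mod_eq_of_lt (by omega)]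
    have h2 := b.E_half ((2 * r.val - b.k : ℕ) : ZMod (2 * b.k))
    rw [h1, ← h2]
    congr 4
    rw [Nat.cast_sub (by omega)]
    ring

end HT

/-! ### Units -/

/-- absolute difference -/
def adf (a b : ℕ) : ℕ := (a - b) + (b - a)

/-- numbers whose prime factors are 2 and 3 -/
def smo (n : ℕ) : Bool := Nat.beq (1296 % n) 0

theorem smo_unit {R : Type*} [CommRing R] (h2 : IsUnit (2 : R)) (h3 : IsUnit (3 : R)) {n : ℕ}
    (h : smo n = true) : IsUnit ((n : ℕ) : R) := by
  unfold smo at h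
  have h1 : 1296 % n = 0 := Nat.eq_of_beq_eq_true h
  have h4 : n ∣ 1296 := Nat.dvd_of_mod_eq_zero h1
  have h5 : ((n : ℕ) : R) ∣ ((1296 : ℕ) : R) := Nat.cast_dvd_cast h4
  have h6 : ((1296 : ℕ) : R) = (2 * 3) ^ 4 := by
    push_cast
    norm_num
  rw [h6] at h5
  exact isUnit_of_dvd_unit h5 ((h2.mul h3).pow 4)

theorem adf_unit {R : Type*} [CommRing R] (h2 : IsUnit (2 : R)) (h3 : IsUnit (3 : R)) {a b : ℕ}
    (h : smo (adf a b) = true) : IsUnit ((a : R) - (b : R)) := by
  have h1 := smo_unit h2 h3 h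
  unfold adf at h1
  rcases le_total a b with hab | hab
  · rw [Nat.sub_eq_zero_of_le hab, zero_add, Nat.cast_sub hab] at h1
    rw [← IsUnit.neg_iff, neg_sub]
    exact h1
  · rw [Nat.sub_eq_zero_of_le hab, add_zero, Nat.cast_sub hab] at h1
    exact h1

/-! ### Windows and colours -/

/-- the systems: `(false, i)` is a window of the family `F`, `(true, i)` of the family `F'` -/
abbrev WSys := Bool × Fin 4

/-- base data: starter word, positions of the windows of `F` (the columns are the points number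
`pos i + 1, …, pos i + 4`), colours `c` of the points, colours `cs` of the systems, seam `sp` -/
structure BD extends HT where
  pos : Fin 4 → ℕ
  c : ℕ → ℕ
  cs : WSys → ℕ
  sp : ℕ

namespace BD

variable (b : BD)

/-- number of the first point of a window -/
def st (i : WSys) : ℕ := if i.1 then 4 * b.k - 3 - b.pos i.2 else b.pos i.2 + 1

/-- the checks for the windows and colours -/
structure Ok : Prop where
  posle : ∀ i, b.pos i + 4 ≤ 4 * b.k
  binj : ∀ i j, b.st i = b.st j → i = j
  far : ∀ i j, b.st i + 1 ≠ b.st j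
  u1 : ∀ i < 4 * b.k, smo (adf (b.c (i + 1)) (b.c i)) = true
  u1' : smo (adf (b.c 0) (b.c (4 * b.k))) = true
  u2 : ∀ i < 4 * b.k - 1, smo (adf (b.c (i + 2)) (b.c i)) = true
  u2' : smo (adf (b.c 0) (b.c (4 * b.k - 1))) = true
  u2'' : smo (adf (b.c 1) (b.c (4 * b.k))) = true
  uc : ∀ i : WSys, ∀ n < 4, smo (adf (b.c (b.st i + n)) (b.cs i)) = true
  sple : b.sp < 4 * b.k + 1
  spw : ∀ i : WSys, ∀ n < 3, b.st i + n ≠ b.sp

variable {b}

theorem Ok.st_lt (h : b.Ok) (i : WSys) : b.st i + 4 ≤ 4 * b.k + 1 := by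
  have := h.posle i.2
  unfold st
  split_ifs <;> omega

theorem Ok.one_le (h : b.Ok) (i : WSys) : 1 ≤ b.st i := by
  have := h.posle i.2
  unfold st
  split_ifs <;> omega

variable (b)

/-- index of a point in the row `r` -/
noncomputable def ix (r : ZMod b.k) (x : Option b.V) : ℕ := ((b.pt r).symm x).val

theorem ix_pt (r : ZMod b.k) (i : ZMod (4 * b.k + 1)) : b.ix r (b.pt r i) = i.val := by
  unfold ix
  rw [Equiv.symm_apply_apply]

theorem ix_pt_nat (r : ZMod b.k) {i : ℕ} (hi : i < 4 * b.k + 1) :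
    b.ix r (b.pt r (i : ZMod (4 * b.k + 1))) = i := by
  rw [b.ix_pt, ZMod.val_natCast, Nat.mod_eq_of_lt hi]

theorem ix_lt (r : ZMod b.k) (x : Option b.V) : b.ix r x < 4 * b.k + 1 := ZMod.val_lt _

theorem pt_ix (r : ZMod b.k) (x : Option b.V) :
    b.pt r ((b.ix r x : ℕ) : ZMod (4 * b.k + 1)) = x := by
  unfold ix
  rw [ZMod.natCast_zmod_val, Equiv.apply_symm_apply]

/-- point number `n` of the row `r` -/
noncomputable def pn (r : ZMod b.k) (n : ℕ) : Option b.V := b.pt r (n : ZMod (4 * b.k + 1))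

theorem sq_pn (r : ZMod b.k) (n : ℕ) : b.sq r (b.pn r n) = b.pn r (n + 1) := by
  unfold pn
  rw [HT.sq_pt]
  push_cast
  rfl

theorem sq_inv_pn (r : ZMod b.k) (n : ℕ) : (b.sq r)⁻¹ (b.pn r (n + 1)) = b.pn r n := by
  rw [Perm.inv_eq_iff_eq, sq_pn]

theorem ix_pn (r : ZMod b.k) {n : ℕ} (hn : n < 4 * b.k + 1) : b.ix r (b.pn r n) = n :=
  b.ix_pt_nat r hn

theorem pn_ix (r : ZMod b.k) (x : Option b.V) : b.pn r (b.ix r x) = x := b.pt_ix r x

theorem pn_inj (r : ZMod b.k) {m n : ℕ} (hm : m < 4 * b.k + 1) (hn : n < 4 * b.k + 1)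
    (h : b.pn r m = b.pn r n) : m = n := by
  rw [← b.ix_pn r hm, h, b.ix_pn r hn]

theorem pn_top (r : ZMod b.k) (n : ℕ) : b.pn r (4 * b.k + 1 + n) = b.pn r n := by
  unfold pn
  congr 1
  have hself : ((4 * b.k + 1 : ℕ) : ZMod (4 * b.k + 1)) = 0 := ZMod.natCast_self _
  rw [Nat.cast_add, hself, zero_add]

theorem pn_zero (r : ZMod b.k) : b.pn r 0 = none := by
  unfold pn
  rw [Nat.cast_zero, HT.pt_zero]

variable {R : Type*} [CommRing R]

/-- the slope of a column -/
noncomputable def slope (R : Type*) [CommRing R] (r : ZMod b.k) (x : Option b.V) : R :=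
  (b.c (b.ix r x) : R)

theorem slope_pn (r : ZMod b.k) {n : ℕ} (hn : n < 4 * b.k + 1) :
    b.slope R r (b.pn r n) = (b.c n : R) := by
  unfold slope
  rw [b.ix_pn r hn]

/-- the row number `r` -/
noncomputable def row (hok : b.Ok) (h2 : IsUnit (2 : R)) (h3 : IsUnit (3 : R))
    (hg : ∀ y : R, ∃ j : ℕ, j • (1 : R) = y) (r : ZMod b.k) : Row (Option b.V) R WSys where
  s := b.sq r
  closed := b.closed_sq r
  card := by
    have h := b.k_pos
    have h' := hok.posle 0
    have h'' := hok.far (false, 0) (true, 0)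
    have hb := hok.binj (false, 0) (true, 0)
    rw [Fintype.card_option, Fintype.card_prod, Fintype.card_bool, ZMod.card]
    by_contra hc
    have hk : b.k ≤ 1 := by omega
    have hk1 : b.k = 1 := by omega
    have h0 : b.st (false, 0) = b.st (true, 0) := by
      unfold st
      simp only [Bool.false_eq_true, if_false, if_true]
      omega
    exact absurd (hb h0) (by decide)
  col := b.slope R r
  unit1 := by
    intro x
    have hx := b.ix_lt r x
    rw [← b.pn_ix r x, b.sq_pn, b.slope_pn r hx]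
    by_cases h : b.ix r x < 4 * b.k
    · rw [b.slope_pn r (by omega)]
      exact adf_unit h2 h3 (hok.u1 _ h)
    · have h4 : b.ix r x = 4 * b.k := by omega
      rw [h4, show 4 * b.k + 1 = 4 * b.k + 1 + 0 from rfl, b.pn_top, b.slope_pn r (by omega)]
      exact adf_unit h2 h3 hok.u1'
  unit2 := by
    intro x
    have hx := b.ix_lt r x
    have hk := b.k_pos
    rw [← b.pn_ix r x, b.sq_pn, b.sq_pn, b.slope_pn r hx]
    by_cases h : b.ix r x < 4 * b.k - 1
    · rw [b.slope_pn r (by omega)]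
      exact adf_unit h2 h3 (hok.u2 _ h)
    · by_cases h5 : b.ix r x = 4 * b.k
      · rw [h5, show 4 * b.k + 1 + 1 = 4 * b.k + 1 + 1 from rfl, b.pn_top, b.slope_pn r (by omega)]
        exact adf_unit h2 h3 hok.u2''
      · have h4 : b.ix r x = 4 * b.k - 1 := by omega
        rw [h4, show 4 * b.k - 1 + 1 + 1 = 4 * b.k + 1 + 0 by omega, b.pn_top,
          b.slope_pn r (by omega)]
        exact adf_unit h2 h3 hok.u2'
  τ x := if b.ix r x = b.sp then 1 else 0
  gen := by
    intro y
    have h1 : ∑ x, (if b.ix r x = b.sp then (1 : R) else 0) = 1 := by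
      rw [Finset.sum_eq_single (b.pn r b.sp)]
      · rw [if_pos (b.ix_pn r hok.sple)]
      · intro x _ hx
        rw [if_neg]
        intro h
        apply hx
        rw [← h, b.pn_ix]
      · intro h
        exact absurd (mem_univ _) h
    rw [h1]
    exact hg y
  B i := b.pn r (b.st i + 1)
  cs i := (b.cs i : R)
  binj := by
    intro i j h
    have h1 := hok.st_lt i
    have h2 := hok.st_lt j
    have := b.pn_inj r (by omega) (by omega) h
    exact hok.binj i j (by omega)
  far := by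
    intro i j h
    have h1 := hok.st_lt i
    have h2 := hok.st_lt j
    rw [b.sq_pn] at h
    have := b.pn_inj r (by omega) (by omega) h
    exact hok.far i j (by omega)
  ua := by
    intro i
    have h1 := hok.st_lt i
    rw [b.sq_inv_pn, b.slope_pn r (by omega)]
    exact adf_unit h2 h3 (hok.uc i 0 (by norm_num))
  ub := by
    intro i
    have h1 := hok.st_lt i
    rw [b.slope_pn r (by omega)]
    exact adf_unit h2 h3 (hok.uc i 1 (by norm_num))
  uc := by
    intro i
    have h1 := hok.st_lt i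
    rw [b.sq_pn, b.slope_pn r (by omega)]
    exact adf_unit h2 h3 (hok.uc i 2 (by norm_num))
  ud := by
    intro i
    have h1 := hok.st_lt i
    rw [b.sq_pn, b.sq_pn, b.slope_pn r (by omega)]
    exact adf_unit h2 h3 (hok.uc i 3 (by norm_num))
  τa := by
    intro i
    have h1 := hok.st_lt i
    have h2 : b.st i ≠ b.sp := hok.spw i 0 (by norm_num)
    rw [b.sq_inv_pn, b.ix_pn r (by omega), if_neg h2]
  τb := by
    intro i
    have h1 := hok.st_lt i
    rw [b.ix_pn r (by omega), if_neg (hok.spw i 1 (by norm_num))]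
  τc := by
    intro i
    have h1 := hok.st_lt i
    rw [b.sq_pn, b.ix_pn r (by omega), if_neg (hok.spw i 2 (by norm_num))]

end BD

end SqIns
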