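import Pool.Agent.Lib.SqIns.Greedy

/-!
# Labels of the letters with prescribed values
-/

open Finset Equiv

namespace SqIns

/-- Labels for one system with prescribed values. -/
theorem exists_labels_system {W R : Type*} [Zero R] [DecidableEq W] [DecidableEq R]
    (P : Finset W) (K : Finset R) (hc : #P = #K) {γ : Type*} (x : γ → W) (y : γ → R)
    (hx : ∀ c, x c ∈ P) (hy : ∀ c, y c ∈ K) (h : ∀ c c', x c = x c' ↔ y c = y c') :
    ∃ κ : W → R, (∀ w ∈ P, κ w ∈ K) ∧ Set.InjOn κ P ∧ (∀ k ∈ K, ∃ w ∈ P, κ w = k) ∧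
      ∀ c, κ (x c) = y c := by
  classical
  obtain ⟨e, he⟩ := exists_perm_of_partial (α := P) (β := K) (by simpa using hc)
    (fun c => ⟨x c, hx c⟩) (fun c => ⟨y c, hy c⟩) (fun c c' => by simpa using h c c')
  refine ⟨fun w => if hw : w ∈ P then (e ⟨w, hw⟩ : R) else 0, ?_, ?_, ?_, ?_⟩
  · intro w hw
    simp only [hw, dif_pos]
    exact (e ⟨w, hw⟩).2
  · intro w hw w' hw' hww
    have hw1 : w ∈ P := hw
    have hw2 : w' ∈ P := hw'
    simp only [hw1, hw2, dif_pos] at hww
    have := e.injective (Subtype.ext hww)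
    exact congrArg Subtype.val this
  · intro k hk
    refine ⟨(e.symm ⟨k, hk⟩ : P), (e.symm ⟨k, hk⟩).2, ?_⟩
    simp
  · intro c
    simp only [hx c, dif_pos]
    have := he c
    rw [this]

/-- Labels for all systems with prescribed values. -/
theorem exists_labels {W R I : Type*} [Zero R] [Fintype W] [DecidableEq W] [DecidableEq R]
    [DecidableEq I] (σ : W → I) (K : I → Finset R)
    (hc : ∀ i, #(univ.filter fun w => σ w = i) = #(K i)) {γ : Type*} (x : γ → W) (y : γ → R)
    (hx : Function.Injective x) (hy : Function.Injective fun c => (σ (x c), y c))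
    (hK : ∀ c, y c ∈ K (σ (x c))) :
    ∃ κ : W → R, (Function.Injective fun w => (σ w, κ w)) ∧ (∀ w, κ w ∈ K (σ w)) ∧
      (∀ i, ∀ k ∈ K i, ∃ w, σ w = i ∧ κ w = k) ∧ ∀ c, κ (x c) = y c := by
  classical
  have key : ∀ i : I, ∃ κ : W → R, (∀ w ∈ univ.filter (fun w => σ w = i), κ w ∈ K i) ∧
      Set.InjOn κ (univ.filter (fun w => σ w = i) : Finset W) ∧
      (∀ k ∈ K i, ∃ w ∈ univ.filter (fun w => σ w = i), κ w = k) ∧
      ∀ c : {c : γ // σ (x c) = i}, κ (x c) = y c := by
    intro i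
    refine exists_labels_system _ _ (hc i) (fun c : {c : γ // σ (x c) = i} => x c)
      (fun c => y c) (fun c => by simp [c.2]) (fun c => by have := hK c; rwa [c.2] at this) ?_
    intro c c'
    constructor
    · intro h
      rw [hx h]
    · intro h
      have : (c : γ) = c' := hy (by
        show (σ (x c), y c) = (σ (x c'), y c')
        rw [h, c.2, c'.2])
      rw [this]
  choose κ h1 h2 h3 h4 using key
  refine ⟨fun w => κ (σ w) w, ?_, ?_, ?_, ?_⟩
  · intro w w' h
    simp only [Prod.mk.injEq] at h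
    obtain ⟨ha, hb⟩ := h
    rw [← ha] at hb
    exact h2 (σ w) (by simp) (by simp [ha]) hb
  · intro w
    exact h1 (σ w) w (by simp)
  · intro i k hk
    obtain ⟨w, hw, hw'⟩ := h3 i k hk
    rw [mem_filter] at hw
    refine ⟨w, hw.2, ?_⟩
    show κ (σ w) w = k
    rw [hw.2]; exact hw'
  · intro c
    exact h4 (σ (x c)) ⟨c, rfl⟩

end SqIns
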