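import Pool.Agent.Lib.SqIns.PWords
import Pool.Agent.Lib.SqIns.Labels
import Pool.Agent.Lib.SqIns.Base

/-!
# The letters

From the words of a decomposition of the complete graph on `4T+1` points: `M` points become the
points over infinity, the others are the letters of the systems.
-/

open Finset Equiv

namespace SqIns

/-- a partial assignment extends to an assignment with given fibre sizes -/
theorem exists_extend_sigma {W I : Type*} [Fintype W] [DecidableEq W] [Fintype I] [DecidableEq I]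
    (P : Finset W) (σ0 : W → I) (sz : I → ℕ)
    (h : ∀ i, (P.filter fun w => σ0 w = i).card ≤ sz i) (hs : ∑ i, sz i = Fintype.card W) :
    ∃ σ : W → I, (∀ w ∈ P, σ w = σ0 w) ∧
      ∀ i, (univ.filter fun w => σ w = i).card = sz i := by
  classical
  let c : I → ℕ := fun i => (P.filter fun w => σ0 w = i).card
  have hP : P.card = ∑ i, c i := by
    rw [card_eq_sum_card_fiberwise (f := σ0) (t := univ) fun w _ => mem_coe.2 (mem_univ _)]
  have hc : Fintype.card {w // w ∉ P} = Fintype.card (Σ i, Fin (sz i - c i)) := by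
    rw [Fintype.card_sigma]
    simp only [Fintype.card_fin]
    have h1 : Fintype.card {w // w ∉ P} = Fintype.card W - P.card := by
      rw [Fintype.card_subtype_compl, Fintype.card_coe]
    have h2 : ∑ i, (sz i - c i) + ∑ i, c i = ∑ i, sz i := by
      rw [← sum_add_distrib]
      exact sum_congr rfl fun i _ => Nat.sub_add_cancel (h i)
    omega
  let e : {w // w ∉ P} ≃ Σ i, Fin (sz i - c i) := Fintype.equivOfCardEq hc
  let σ : W → I := fun w => if hw : w ∈ P then σ0 w else (e ⟨w, hw⟩).1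
  have hσ1 : ∀ w ∈ P, σ w = σ0 w := fun w hw => dif_pos hw
  have hσ2 : ∀ w (hw : w ∉ P), σ w = (e ⟨w, hw⟩).1 := fun w hw => dif_neg hw
  refine ⟨σ, hσ1, ?_⟩
  intro i
  have h3 : (univ.filter fun w => σ w = i) = (P.filter fun w => σ0 w = i) ∪
      (univ.filter fun w : {w // w ∉ P} => (e w).1 = i).map ⟨Subtype.val, Subtype.val_injective⟩ := by
    ext w
    rw [mem_filter, mem_union, mem_filter, mem_map]
    constructor
    · rintro ⟨-, hw⟩
      by_cases hP : w ∈ P
      · exact Or.inl ⟨hP, by rw [← hσ1 w hP]; exact hw⟩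
      · exact Or.inr ⟨⟨w, hP⟩, by rw [mem_filter, ← hσ2 w hP]; exact ⟨mem_univ _, hw⟩, rfl⟩
    · rintro (⟨hP, hw⟩ | ⟨x, hx, rfl⟩)
      · exact ⟨mem_univ _, by rw [hσ1 w hP]; exact hw⟩
      · rw [mem_filter] at hx
        exact ⟨mem_univ _, by
          show σ x.val = i
          rw [hσ2 x.val x.2]
          exact hx.2⟩
  have h4 : (univ.filter fun w : {w // w ∉ P} => (e w).1 = i).card = sz i - c i := by
    have h5 : (univ.filter fun w : {w // w ∉ P} => (e w).1 = i).card =
        (univ.filter fun y : Σ i, Fin (sz i - c i) => y.1 = i).card := by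
      refine card_bij (fun w _ => e w) ?_ ?_ ?_
      · intro w hw
        rw [mem_filter] at hw ⊢
        exact ⟨mem_univ _, hw.2⟩
      · intro w _ w' _ h
        exact e.injective h
      · intro y hy
        rw [mem_filter] at hy
        exact ⟨e.symm y, by rw [mem_filter, e.apply_symm_apply]; exact ⟨mem_univ _, hy.2⟩,
          e.apply_symm_apply y⟩
    rw [h5]
    have h6 : (univ.filter fun y : Σ i, Fin (sz i - c i) => y.1 = i) =
        (univ : Finset (Fin (sz i - c i))).map ⟨fun a => (⟨i, a⟩ : Σ i, Fin (sz i - c i)),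
          fun a a' h => by simpa using h⟩ := by
      ext ⟨i', a⟩
      rw [mem_filter, mem_map]
      constructor
      · rintro ⟨-, hi⟩
        simp only at hi
        subst hi
        exact ⟨a, mem_univ _, rfl⟩
      · rintro ⟨a', -, ha⟩
        refine ⟨mem_univ _, ?_⟩
        exact (congrArg Sigma.fst ha).symm
    rw [h6, card_map, card_univ, Fintype.card_fin]
  rw [h3, card_union_of_disjoint, card_map, h4]
  · exact Nat.add_sub_cancel' (h i)
  · rw [disjoint_left]
    intro w hw hw'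
    obtain ⟨x, -, rfl⟩ := mem_map.1 hw'
    exact x.2 (mem_filter.1 hw).1

/-- the squares and letters over the points over infinity `R` and the letters `W` -/
structure LD (R W : Type) [Fintype R] [DecidableEq R] [Fintype W] [DecidableEq W] (nF s : ℕ)
    (A2 : Finset R) (yv : R → R) (sz : WSys → ℕ) (iD iC ia ib id : WSys) where
  σ : W → WSys
  S : Fin nF ⊕ {x // x ∈ A2} → Perm (R ⊕ W)
  dec : Dec S
  cσ : ∀ i, (univ.filter fun w => σ w = i).card = sz i
  C : Finset R
  cC : C.card ≤ s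
  a : Fin nF → R
  c : Fin nF → R
  u : Fin nF → W
  v : Fin nF → W
  hc : ∀ j, c j ∈ C
  ac : ∀ j, S (.inl j) (.inl (a j)) = .inl (c j)
  cu : ∀ j, S (.inl j) (.inl (c j)) = .inr (u j)
  uv : ∀ j, S (.inl j) (.inr (u j)) = .inr (v j)
  σu : ∀ j, σ (u j) = iD
  σv : ∀ j, σ (v j) = iD
  lp : R → W
  lq : R → W
  lu : R → W
  le : R → W
  pq : ∀ x : {x // x ∈ A2}, S (.inr x) (.inr (lp x)) = .inr (lq x)
  qu : ∀ x : {x // x ∈ A2}, S (.inr x) (.inr (lq x)) = .inr (lu x)
  uy : ∀ x : {x // x ∈ A2}, S (.inr x) (.inr (lu x)) = .inl (yv x)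
  σp : ∀ x ∈ A2, σ (lp x) = ia
  σq : ∀ x ∈ A2, σ (lq x) = id
  σl : ∀ x ∈ A2, σ (lu x) = ib
  σe : ∀ x ∈ A2, σ (le x) = iC
  ip : ∀ x ∈ A2, ∀ x' ∈ A2, lp x = lp x' → x = x'
  iq : ∀ x ∈ A2, ∀ x' ∈ A2, lq x = lq x' → x = x'
  iu : ∀ x ∈ A2, ∀ x' ∈ A2, lu x = lu x' → x = x'
  ie : ∀ x ∈ A2, ∀ x' ∈ A2, le x = le x' → x = x'

/-- **The letters.** -/
theorem exists_letters {T nF M s : ℕ} (h : PW T nF M M s) {R : Type} [Fintype R] [DecidableEq R]
    (hR : Fintype.card R = M) (A2 : Finset R) (hA2 : nF + A2.card = T) (yv : R → R)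
    (hyv : Function.Injective yv) (sz : WSys → ℕ) {iD iC ia ib id : WSys} (hDC : iD ≠ iC)
    (hD : iD ≠ ia ∧ iD ≠ ib ∧ iD ≠ id) (hC : iC ≠ ia ∧ iC ≠ ib ∧ iC ≠ id)
    (hab : ia ≠ ib ∧ ia ≠ id ∧ ib ≠ id) (sD : sz iD = M) (sC : sz iC = M)
    (sa : sz ia = A2.card) (sb : sz ib = A2.card) (sd : sz id = A2.card)
    (hsz : M + ∑ i, sz i = 4 * T + 1) :
    Nonempty (LD R (Fin (4 * T + 1 - M)) nF s A2 yv sz iD iC ia ib id) := by
  classical
  obtain ⟨sq, hsq, J, hJ, I, A, C, hIA, hCI, hI, hA, hCc, w, hw, hF, hG, hGi⟩ := h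
  -- labels of the squares outside of `J`
  have hJc : Fintype.card {j : Fin T // j ∉ J} = Fintype.card {x // x ∈ A2} := by
    rw [Fintype.card_subtype_compl, Fintype.card_coe, Fintype.card_coe, Fintype.card_fin]
    omega
  let eG : {j : Fin T // j ∉ J} ≃ {x // x ∈ A2} := Fintype.equivOfCardEq hJc
  have hJc' : Fintype.card {j : Fin T // j ∈ J} = Fintype.card (Fin nF) := by
    rw [Fintype.card_coe, Fintype.card_fin, hJ]
  let eF : {j : Fin T // j ∈ J} ≃ Fin nF := Fintype.equivOfCardEq hJc'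
  -- private letters
  let P : Finset (Fin (4 * T + 1)) :=
    (univ : Finset ({j : Fin T // j ∉ J} × Fin 3)).image fun p => w p.1 p.2.castSucc
  have hPc : P.card ≤ 3 * A2.card := by
    refine card_image_le.trans (le_of_eq ?_)
    rw [card_univ, Fintype.card_prod, hJc, Fintype.card_coe, Fintype.card_fin, mul_comm]
  have hcs : ∀ i : Fin 3, i.castSucc ≠ (3 : Fin 4) := by decide
  have hPI : Disjoint P I := by
    rw [disjoint_left]
    intro x hx hx'
    obtain ⟨⟨j, i⟩, -, rfl⟩ := mem_image.1 hx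
    exact ((hG j.val j.2).2 i.castSucc (hcs i)).1 hx'
  have hPA : Disjoint P A := by
    rw [disjoint_left]
    intro x hx hx'
    obtain ⟨⟨j, i⟩, -, rfl⟩ := mem_image.1 hx
    exact ((hG j.val j.2).2 i.castSucc (hcs i)).2 hx'
  -- the sizes
  have hfive : sz iD + (sz iC + (sz ia + (sz ib + sz id))) ≤ ∑ i, sz i := by
    have h1 : ∑ i ∈ ({iD, iC, ia, ib, id} : Finset WSys), sz i ≤ ∑ i, sz i :=
      sum_le_sum_of_subset (subset_univ _)
    rw [sum_insert, sum_insert, sum_insert, sum_insert, sum_singleton] at h1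
    · exact h1
    · simp only [mem_singleton]; exact hab.2.2
    · simp only [mem_insert, mem_singleton, not_or]; exact ⟨hab.1, hab.2.1⟩
    · simp only [mem_insert, mem_singleton, not_or]; exact hC
    · simp only [mem_insert, mem_singleton, not_or]; exact ⟨hDC, hD⟩
  rw [sD, sC, sa, sb, sd] at hfive
  -- the points over infinity
  obtain ⟨Z, hZ1, hZ2, hZc⟩ : ∃ Z : Finset (Fin (4 * T + 1)), I ⊆ Z ∧ Z ⊆ univ \ (A ∪ P) ∧
      Z.card = M := by
    refine exists_subsuperset_card_eq ?_ hI ?_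
    · intro x hx
      rw [mem_sdiff, mem_union, not_or]
      exact ⟨mem_univ _, disjoint_left.1 hIA hx, disjoint_right.1 hPI hx⟩
    · rw [card_sdiff_of_subset (subset_univ _), card_univ, Fintype.card_fin]
      have := card_union_le A P
      omega
  have hZA : ∀ x ∈ A, x ∉ Z := by
    intro x hx hz
    have := (mem_sdiff.1 (hZ2 hz)).2
    exact this (mem_union_left _ hx)
  have hZP : ∀ x ∈ P, x ∉ Z := by
    intro x hx hz
    have := (mem_sdiff.1 (hZ2 hz)).2
    exact this (mem_union_right _ hx)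
  -- the bijection of the points over infinity
  obtain ⟨e1, he1⟩ := exists_perm_of_partial (α := {x // x ∈ Z}) (β := R)
    (by rw [Fintype.card_coe, hZc, hR])
    (fun j : {j : Fin T // j ∉ J} => (⟨w j 3, hZ1 (hG j.val j.2).1⟩ : {x // x ∈ Z}))
    (fun j => yv (eG j)) (by
      intro j j'
      constructor
      · intro hjj
        have h1 : w j 3 = w j' 3 := congrArg Subtype.val hjj
        have h2 := (hGi j.val j.2 j'.val j'.2 3 3 h1).1
        rw [Subtype.ext h2]
      · intro hjj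
        have h1 := eG.injective (Subtype.ext (hyv hjj))
        rw [h1])
  have hW : Fintype.card {x : Fin (4 * T + 1) // x ∉ Z} = Fintype.card (Fin (4 * T + 1 - M)) := by
    rw [Fintype.card_subtype_compl, Fintype.card_coe, Fintype.card_fin, Fintype.card_fin, hZc]
  let e2 : {x : Fin (4 * T + 1) // x ∉ Z} ≃ Fin (4 * T + 1 - M) := Fintype.equivOfCardEq hW
  let f : Fin (4 * T + 1) ≃ R ⊕ Fin (4 * T + 1 - M) :=
    (Equiv.sumCompl (fun x => x ∈ Z)).symm.trans (Equiv.sumCongr e1 e2)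
  have hfZ : ∀ x (hx : x ∈ Z), f x = .inl (e1 ⟨x, hx⟩) := by
    intro x hx
    show (Equiv.sumCongr e1 e2) ((Equiv.sumCompl (fun x => x ∈ Z)).symm x) = _
    rw [Equiv.sumCompl_symm_apply_of_pos (p := fun x => x ∈ Z) hx]
    rfl
  have hfW : ∀ x (hx : x ∉ Z), f x = .inr (e2 ⟨x, hx⟩) := by
    intro x hx
    show (Equiv.sumCongr e1 e2) ((Equiv.sumCompl (fun x => x ∈ Z)).symm x) = _
    rw [Equiv.sumCompl_symm_apply_of_neg (p := fun x => x ∈ Z) hx]
    rfl
  -- the systems
  let kind : Fin (4 * T + 1) → WSys := fun x => if x ∈ A then iD else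
    if ∃ j : {j : Fin T // j ∉ J}, w j 0 = x then ia else
    if ∃ j : {j : Fin T // j ∉ J}, w j 1 = x then id else ib
  have kA : ∀ x ∈ A, kind x = iD := fun x hx => if_pos hx
  have hwP : ∀ (j : {j : Fin T // j ∉ J}) (i : Fin 4), i ≠ 3 → w j.val i ∈ P := by
    intro j i hi
    fin_cases i
    · exact mem_image.2 ⟨(j, 0), mem_univ _, rfl⟩
    · exact mem_image.2 ⟨(j, 1), mem_univ _, rfl⟩
    · exact mem_image.2 ⟨(j, 2), mem_univ _, rfl⟩
    · exact absurd rfl hi
  have hnA : ∀ (j : {j : Fin T // j ∉ J}) (i : Fin 4), i ≠ 3 → w j.val i ∉ A := fun j i hi =>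
    disjoint_left.1 hPA (hwP j i hi)
  have k0 : ∀ j : {j : Fin T // j ∉ J}, kind (w j 0) = ia := by
    intro j
    show (if _ then _ else _) = _
    rw [if_neg (hnA j 0 (by decide)), if_pos ⟨j, rfl⟩]
  have k1 : ∀ j : {j : Fin T // j ∉ J}, kind (w j 1) = id := by
    intro j
    show (if _ then _ else _) = _
    rw [if_neg (hnA j 1 (by decide)), if_neg, if_pos ⟨j, rfl⟩]
    rintro ⟨j', h⟩
    exact absurd (hGi j'.val j'.2 j.val j.2 0 1 h).2 (by decide)
  have k2 : ∀ j : {j : Fin T // j ∉ J}, kind (w j 2) = ib := by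
    intro j
    show (if _ then _ else _) = _
    rw [if_neg (hnA j 2 (by decide)), if_neg, if_neg]
    · rintro ⟨j', h⟩
      exact absurd (hGi j'.val j'.2 j.val j.2 1 2 h).2 (by decide)
    · rintro ⟨j', h⟩
      exact absurd (hGi j'.val j'.2 j.val j.2 0 2 h).2 (by decide)
  let Q : Finset (Fin (4 * T + 1 - M)) :=
    univ.filter fun y => (e2.symm y).val ∈ A ∪ P
  obtain ⟨σ, hσQ, hσc⟩ := exists_extend_sigma Q (fun y => kind (e2.symm y).val) sz (by
    intro i
    -- the fibres of the partial assignment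
    have hsub : ∀ (B : Finset (Fin (4 * T + 1))),
        (∀ y ∈ Q, kind (e2.symm y).val = i → (e2.symm y).val ∈ B) →
        (Q.filter fun y => kind (e2.symm y).val = i).card ≤ B.card := by
      intro B hB
      refine card_le_card_of_injOn (fun y => (e2.symm y).val) ?_ ?_
      · intro y hy
        rw [mem_coe, mem_filter] at hy
        exact mem_coe.2 (hB y hy.1 hy.2)
      · intro y _ y' _ hyy
        exact e2.symm.injective (Subtype.ext hyy)
    have hQ : ∀ y ∈ Q, (e2.symm y).val ∈ A ∨ ∃ (j : {j : Fin T // j ∉ J}) (k : Fin 3),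
        w j k.castSucc = (e2.symm y).val := by
      intro y hy
      rcases mem_union.1 (mem_filter.1 hy).2 with h1 | h1
      · exact Or.inl h1
      · obtain ⟨⟨j, k⟩, -, h2⟩ := mem_image.1 h1
        exact Or.inr ⟨j, k, h2⟩
    have hJu : (univ : Finset {j : Fin T // j ∉ J}).card = A2.card := by
      rw [card_univ, hJc, Fintype.card_coe]
    have himg : ∀ k : Fin 4, ((univ : Finset {j : Fin T // j ∉ J}).image
        (fun j : {j : Fin T // j ∉ J} => w j.val k)).card ≤
        A2.card := fun k => card_image_le.trans (le_of_eq hJu)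
    by_cases i1 : i = iD
    · subst i1
      rw [sD]
      refine (hsub A ?_).trans hA
      intro y hy hk
      rcases hQ y hy with h1 | ⟨j, k, h1⟩
      · exact h1
      · exfalso
        rw [← h1] at hk
        fin_cases k
        · exact hD.1 (hk.symm.trans (k0 j))
        · exact hD.2.2 (hk.symm.trans (k1 j))
        · exact hD.2.1 (hk.symm.trans (k2 j))
    · by_cases i2 : i = ia
      · subst i2
        rw [sa]
        refine (hsub _ ?_).trans (himg 0)
        intro y hy hk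
        rcases hQ y hy with h1 | ⟨j, k, h1⟩
        · exact absurd (hk.symm.trans (kA _ h1)) i1
        · rw [← h1] at hk ⊢
          fin_cases k
          · exact mem_image.2 ⟨j, mem_univ _, rfl⟩
          · exact absurd (hk.symm.trans (k1 j)) hab.2.1
          · exact absurd (hk.symm.trans (k2 j)) hab.1
      · by_cases i3 : i = id
        · subst i3
          rw [sd]
          refine (hsub _ ?_).trans (himg 1)
          intro y hy hk
          rcases hQ y hy with h1 | ⟨j, k, h1⟩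
          · exact absurd (hk.symm.trans (kA _ h1)) i1
          · rw [← h1] at hk ⊢
            fin_cases k
            · exact absurd (hk.symm.trans (k0 j)) hab.2.1.symm
            · exact mem_image.2 ⟨j, mem_univ _, rfl⟩
            · exact absurd (hk.symm.trans (k2 j)) hab.2.2.symm
        · by_cases i4 : i = ib
          · subst i4
            rw [sb]
            refine (hsub _ ?_).trans (himg 2)
            intro y hy hk
            rcases hQ y hy with h1 | ⟨j, k, h1⟩
            · exact absurd (hk.symm.trans (kA _ h1)) i1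
            · rw [← h1] at hk ⊢
              fin_cases k
              · exact absurd (hk.symm.trans (k0 j)) hab.1.symm
              · exact absurd (hk.symm.trans (k1 j)) hab.2.2
              · exact mem_image.2 ⟨j, mem_univ _, rfl⟩
          · refine (Nat.le_of_eq ?_).trans (Nat.zero_le _)
            rw [card_eq_zero, filter_eq_empty_iff]
            intro y hy hk
            rcases hQ y hy with h1 | ⟨j, k, h1⟩
            · exact i1 (hk.symm.trans (kA _ h1))
            · rw [← h1] at hk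
              fin_cases k
              · exact i2 (hk.symm.trans (k0 j))
              · exact i3 (hk.symm.trans (k1 j))
              · exact i4 (hk.symm.trans (k2 j))) (by
    rw [Fintype.card_fin]
    omega)
  have hσx : ∀ x (hx : x ∉ Z), x ∈ A ∪ P → σ (e2 ⟨x, hx⟩) = kind x := by
    intro x hx hx'
    have h1 := hσQ (e2 ⟨x, hx⟩) (by
      rw [mem_filter, Equiv.symm_apply_apply]
      exact ⟨mem_univ _, hx'⟩)
    rw [h1]
    simp only [Equiv.symm_apply_apply]
  -- the squares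
  let S : Fin nF ⊕ {x // x ∈ A2} → Perm (R ⊕ Fin (4 * T + 1 - M)) := fun j =>
    f.permCongr (sq (Sum.elim (fun j => (eF.symm j).val) (fun x => (eG.symm x).val) j))
  let idx : Fin nF ⊕ {x // x ∈ A2} ≃ Fin T :=
    ((Equiv.sumCongr eF.symm eG.symm).trans (Equiv.sumCompl (fun j => j ∈ J)))
  have hidx : ∀ j, S j = f.permCongr (sq (idx j)) := by
    rintro (j | x) <;> rfl
  have hdec : Dec S := by
    have h1 := hsq.transport f idx
    have h2 : (fun i => f.permCongr (sq (idx i))) = S := by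
      funext j
      rw [hidx]
    rw [← h2]
    exact h1
  have hS : ∀ j x y, sq (Sum.elim (fun j => (eF.symm j).val) (fun x => (eG.symm x).val) j) x = y →
      S j (f x) = f y := by
    intro j x y hxy
    show f.permCongr _ (f x) = f y
    rw [Equiv.permCongr_apply, Equiv.symm_apply_apply, hxy]
  -- extra letters
  obtain ⟨le, hle1, hle2⟩ : ∃ le : R → Fin (4 * T + 1 - M), (∀ x ∈ A2, σ (le x) = iC) ∧
      ∀ x ∈ A2, ∀ x' ∈ A2, le x = le x' → x = x' := by
    obtain ⟨B, hBσ, hB⟩ : ∃ B : Finset (Fin (4 * T + 1 - M)), (∀ y ∈ B, σ y = iC) ∧ B.card = M :=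
      ⟨univ.filter fun y => σ y = iC, fun y hy => (mem_filter.1 hy).2, by rw [hσc iC, sC]⟩
    have h1 : Fintype.card {x // x ∈ A2} ≤ Fintype.card {y // y ∈ B} := by
      rw [Fintype.card_coe, Fintype.card_coe, hB, ← hR]
      exact card_le_univ _
    obtain ⟨g⟩ := Function.Embedding.nonempty_of_card_le h1
    by_cases hne : Nonempty (Fin (4 * T + 1 - M))
    · obtain ⟨y0⟩ := hne
      refine ⟨fun x => if hx : x ∈ A2 then (g ⟨x, hx⟩).val else y0, ?_, ?_⟩
      · intro x hx
        simp only [hx, dif_pos]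
        exact hBσ _ (g ⟨x, hx⟩).2
      · intro x hx x' hx' h
        simp only [hx, hx', dif_pos] at h
        exact congrArg Subtype.val (g.injective (Subtype.ext h))
    · have hA2e : A2 = ∅ := by
        by_contra hne2
        obtain ⟨x, hx⟩ := Finset.nonempty_iff_ne_empty.2 hne2
        exact hne ⟨(g ⟨x, hx⟩).val⟩
      by_cases hRe : Nonempty R
      · exfalso
        obtain ⟨x⟩ := hRe
        have hM : 0 < M := by rw [← hR]; exact Fintype.card_pos_iff.2 ⟨x⟩
        have hpos : 0 < B.card := by rw [hB]; exact hM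
        obtain ⟨y, -⟩ := card_pos.1 hpos
        exact hne ⟨y⟩
      · refine ⟨fun x => absurd ⟨x⟩ hRe, fun x => absurd ⟨x⟩ hRe, fun x => absurd ⟨x⟩ hRe⟩
  have hZI : ∀ x ∈ I, x ∈ Z := fun x hx => hZ1 hx
  have hFj : ∀ j : Fin nF, (eF.symm j).val ∈ J := fun j => (eF.symm j).2
  have ha : ∀ j : Fin nF, w (eF.symm j).val 0 ∈ Z := fun j => hZI _ (hF _ (hFj j)).1
  have hcZ : ∀ j : Fin nF, w (eF.symm j).val 1 ∈ Z := fun j => hZI _ (hCI (hF _ (hFj j)).2.1)
  have hu : ∀ j : Fin nF, w (eF.symm j).val 2 ∉ Z := fun j => hZA _ (hF _ (hFj j)).2.2.1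
  have hv : ∀ j : Fin nF, w (eF.symm j).val 3 ∉ Z := fun j => hZA _ (hF _ (hFj j)).2.2.2
  have hGZ : ∀ (j : {j : Fin T // j ∉ J}) (i : Fin 4), i ≠ 3 → w j.val i ∉ Z := fun j i hi =>
    hZP _ (hwP j i hi)
  let C' : Finset R := (univ : Finset {x // x ∈ Z}).filter (fun x => x.val ∈ C) |>.image e1
  let lf : (i : Fin 4) → i ≠ 3 → R → Fin (4 * T + 1 - M) := fun i hi x =>
    if hx : x ∈ A2 then e2 ⟨w (eG.symm ⟨x, hx⟩).val i, hGZ _ i hi⟩ else le x
  have hlf : ∀ i hi x (hx : x ∈ A2), lf i hi x = e2 ⟨w (eG.symm ⟨x, hx⟩).val i, hGZ _ i hi⟩ :=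
    fun i hi x hx => dif_pos hx
  have hlfi : ∀ i hi, ∀ x ∈ A2, ∀ x' ∈ A2, lf i hi x = lf i hi x' → x = x' := by
    intro i hi x hx x' hx' h
    rw [hlf i hi x hx, hlf i hi x' hx'] at h
    have h1 := congrArg Subtype.val (e2.injective h)
    simp only at h1
    have h2 := (hGi _ (eG.symm ⟨x, hx⟩).2 _ (eG.symm ⟨x', hx'⟩).2 _ _ h1).1
    have h3 := eG.symm.injective (Subtype.ext h2)
    exact congrArg Subtype.val h3
  have hlfσ : ∀ i hi x (hx : x ∈ A2), σ (lf i hi x) = kind (w (eG.symm ⟨x, hx⟩).val i) := by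
    intro i hi x hx
    rw [hlf i hi x hx]
    exact hσx _ _ (mem_union_right _ (hwP _ i hi))
  have n0 : (0 : Fin 4) ≠ 3 := by decide
  have n1 : (1 : Fin 4) ≠ 3 := by decide
  have n2 : (2 : Fin 4) ≠ 3 := by decide
  refine ⟨⟨σ, S, hdec, hσc, C', ?_, fun j => e1 ⟨_, ha j⟩, fun j => e1 ⟨_, hcZ j⟩,
    fun j => e2 ⟨_, hu j⟩, fun j => e2 ⟨_, hv j⟩, ?_, ?_, ?_, ?_, ?_, ?_, lf 0 n0, lf 1 n1, lf 2 n2, le,
    ?_, ?_, ?_, ?_, ?_, ?_, hle1, hlfi 0 n0, hlfi 1 n1, hlfi 2 n2, hle2⟩⟩
  · refine card_image_le.trans (le_trans ?_ hCc)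
    refine card_le_card_of_injOn Subtype.val ?_ ?_
    · intro x hx
      rw [mem_coe, mem_filter] at hx
      exact mem_coe.2 hx.2
    · intro x _ x' _ h
      exact Subtype.ext h
  · intro j
    exact mem_image.2 ⟨⟨_, hcZ j⟩, mem_filter.2 ⟨mem_univ _, (hF _ (hFj j)).2.1⟩, rfl⟩
  · intro j
    have h1 := hS (.inl j) _ _ (hw (eF.symm j).val).1
    rw [hfZ _ (ha j), hfZ _ (hcZ j)] at h1
    exact h1
  · intro j
    have h1 := hS (.inl j) _ _ (hw (eF.symm j).val).2.1
    rw [hfZ _ (hcZ j), hfW _ (hu j)] at h1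
    exact h1
  · intro j
    have h1 := hS (.inl j) _ _ (hw (eF.symm j).val).2.2
    rw [hfW _ (hu j), hfW _ (hv j)] at h1
    exact h1
  · intro j
    rw [hσx _ (hu j) (mem_union_left _ (hF _ (hFj j)).2.2.1)]
    exact kA _ (hF _ (hFj j)).2.2.1
  · intro j
    rw [hσx _ (hv j) (mem_union_left _ (hF _ (hFj j)).2.2.2)]
    exact kA _ (hF _ (hFj j)).2.2.2
  · rintro ⟨x, hx⟩
    have h1 := hS (.inr ⟨x, hx⟩) _ _ (hw (eG.symm ⟨x, hx⟩).val).1
    rw [hfW _ (hGZ (eG.symm ⟨x, hx⟩) 0 n0), hfW _ (hGZ (eG.symm ⟨x, hx⟩) 1 n1)] at h1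
    rw [hlf 0 n0 x hx, hlf 1 n1 x hx]
    exact h1
  · rintro ⟨x, hx⟩
    have h1 := hS (.inr ⟨x, hx⟩) _ _ (hw (eG.symm ⟨x, hx⟩).val).2.1
    rw [hfW _ (hGZ (eG.symm ⟨x, hx⟩) 1 n1), hfW _ (hGZ (eG.symm ⟨x, hx⟩) 2 n2)] at h1
    rw [hlf 1 n1 x hx, hlf 2 n2 x hx]
    exact h1
  · rintro ⟨x, hx⟩
    have h1 := hS (.inr ⟨x, hx⟩) _ _ (hw (eG.symm ⟨x, hx⟩).val).2.2
    have h2 := he1 (eG.symm ⟨x, hx⟩)
    rw [hfW _ (hGZ (eG.symm ⟨x, hx⟩) 2 n2), hfZ _ (hZ1 (hG _ (eG.symm ⟨x, hx⟩).2).1), h2,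
      Equiv.apply_symm_apply] at h1
    rw [hlf 2 n2 x hx]
    exact h1
  · intro x hx
    rw [hlfσ 0 n0 x hx]
    exact k0 _
  · intro x hx
    rw [hlfσ 1 n1 x hx]
    exact k1 _
  · intro x hx
    rw [hlfσ 2 n2 x hx]
    exact k2 _

end SqIns
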