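import Mathlib

/-!
# North-west corner assignment

Two families of the same size, the first with groups `g`, the second with special points `x`:
there is a bijection such that the sum `g + x` determines both.  (Row of a gadget := `g + x`.)
-/

namespace SqIns

theorem exists_staircase {O S : Type*} [Fintype O] [Fintype S]
    (hcard : Fintype.card O = Fintype.card S) (g : O → ℕ) (x : S → ℕ) :
    ∃ e : O ≃ S, ∀ o o', g o + x (e o) = g o' + x (e o') → g o = g o' ∧ x (e o) = x (e o') := by
  classical
  let eO : O ≃ Fin (Fintype.card O) := Fintype.equivFin O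
  let eS : S ≃ Fin (Fintype.card O) := (Fintype.equivFin S).trans (finCongr hcard.symm)
  let g' : Fin (Fintype.card O) → ℕ := fun i => g (eO.symm i)
  let x' : Fin (Fintype.card O) → ℕ := fun i => x (eS.symm i)
  have hg : Monotone (g' ∘ Tuple.sort g') := Tuple.monotone_sort g'
  have hx : Monotone (x' ∘ Tuple.sort x') := Tuple.monotone_sort x'
  refine ⟨(eO.trans (Tuple.sort g').symm).trans ((Tuple.sort x').trans eS.symm), ?_⟩
  intro o o' h
  have h1 : ∀ o, g o = g' (Tuple.sort g' ((Tuple.sort g').symm (eO o))) := fun o => by
    rw [Equiv.apply_symm_apply]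
    show g o = g (eO.symm (eO o))
    rw [Equiv.symm_apply_apply]
  have h2 : ∀ o, x (((eO.trans (Tuple.sort g').symm).trans
      ((Tuple.sort x').trans eS.symm)) o) = x' (Tuple.sort x' ((Tuple.sort g').symm (eO o))) :=
    fun o => rfl
  rw [h1 o, h1 o', h2 o, h2 o'] at h ⊢
  rcases le_total ((Tuple.sort g').symm (eO o)) ((Tuple.sort g').symm (eO o')) with hle | hle
  · have a := hg hle
    have b := hx hle
    simp only [Function.comp] at a b
    omega
  · have a := hg hle
    have b := hx hle
    simp only [Function.comp] at a b
    omega

end SqIns
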