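import Pool.Agent.Lib.SqIns.FSpl
import Pool.Agent.Lib.SqIns.Letters
import Pool.Agent.Lib.SqIns.NWCorner

/-!
# The permutations over the columns of the window `D`

All squares spliced in a row have the same point `q` over the outer column; the raw levels are
`0` for `q` and `2 ξ α / α'`, `ξ`, `-ξ` for `p`, `u`, `v`.
-/

open Finset Equiv

namespace SqIns

section Half

variable {R : Type*} [CommRing R] [Fintype R] [DecidableEq R]

/-- a set without opposite elements -/
theorem exists_half (h2 : IsUnit (2 : R)) : ∀ n : ℕ, 2 * n ≤ Fintype.card R →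
    ∃ X : Finset R, X.card = n ∧ (0 : R) ∉ X ∧ ∀ x ∈ X, -x ∉ X := by
  intro n
  induction n with
  | zero =>
    intro _
    exact ⟨∅, rfl, notMem_empty _, fun x hx => absurd hx (notMem_empty _)⟩
  | succ n ih =>
    intro h
    obtain ⟨X, h1, h3, h4⟩ := ih (by omega)
    have hc : (insert 0 (X ∪ X.image fun x => -x)).card < (univ : Finset R).card := by
      have e1 := card_insert_le (0 : R) (X ∪ X.image fun x => -x)
      have e2 := card_union_le X (X.image fun x => -x)
      have e3 : (X.image fun x => -x).card ≤ X.card := card_image_le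
      rw [card_univ]
      omega
    obtain ⟨y, -, hy⟩ := exists_mem_notMem_of_card_lt_card hc
    rw [mem_insert, not_or, mem_union, not_or] at hy
    obtain ⟨y0, y1, y2⟩ := hy
    have y3 : ∀ x ∈ X, -x ≠ y := fun x hx h => y2 (mem_image.2 ⟨x, hx, h⟩)
    refine ⟨insert y X, ?_, ?_, ?_⟩
    · rw [card_insert_of_notMem y1, h1]
    · rw [mem_insert, not_or]
      exact ⟨Ne.symm y0, h3⟩
    · intro x hx
      rw [mem_insert] at hx
      rw [mem_insert, not_or]
      rcases hx with rfl | hx
      · refine ⟨?_, ?_⟩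
        · intro h5
          apply y0
          have h6 : (2 : R) * x = 2 * 0 := by linear_combination -h5
          exact h2.mul_left_cancel h6
        · intro h5
          exact y3 _ h5 (neg_neg x)
      · exact ⟨y3 x hx, h4 x hx⟩

/-- **The permutations over the two columns.** -/
theorem exists_col_perms (h2 : IsUnit (2 : R)) {αo αi : R} (ho : IsUnit αo) (hi : IsUnit αi)
    {H : Type*} [Fintype H] (q : R) (p u v : H → R) (hpq : ∀ j, p j ≠ q)
    (hp : Function.Injective p) (hu : Function.Injective u) (hv : Function.Injective v)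
    (huv : ∀ j j', u j ≠ v j') :
    ∃ Φo Φi : Perm R, ∀ j, αi * Φo⁻¹ (p j) - αo * Φi⁻¹ (u j) =
      αi * Φo⁻¹ q - αo * Φi⁻¹ (v j) := by
  classical
  have hH : 2 * Fintype.card H ≤ Fintype.card R := by
    have h1 : Function.Injective (Sum.elim u v) := by
      rintro (j | j) (j' | j') h
      · rw [hu h]
      · exact absurd h (huv j j')
      · exact absurd h.symm (huv j' j)
      · rw [hv h]
    have h3 := Fintype.card_le_of_injective _ h1
    rw [Fintype.card_sum] at h3
    omega
  obtain ⟨X, hX1, hX2, hX3⟩ := exists_half h2 _ hH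
  have e : H ≃ {x // x ∈ X} := Fintype.equivOfCardEq (by rw [Fintype.card_coe, hX1])
  let ξ : H → R := fun j => (e j).val
  have hξ0 : ∀ j, ξ j ≠ 0 := fun j h => hX2 (h ▸ (e j).2)
  have hξi : Function.Injective ξ := fun j j' h => e.injective (Subtype.ext h)
  have hξn : ∀ j j', ξ j ≠ -ξ j' := by
    intro j j' h
    refine hX3 _ (e j').2 ?_
    have h1 : -(e j').val = (e j).val := h.symm
    rw [h1]
    exact (e j).2
  obtain ⟨ui, rfl⟩ := hi
  -- the outer column
  obtain ⟨Φo, hΦo⟩ := exists_perm_of_partial (α := R) (β := R) rfl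
    (γ := Option H) (fun z => z.elim 0 fun j => 2 * (ξ j * αo * ↑(ui⁻¹)))
    (fun z => z.elim q p) (by
      have hne : ∀ j, (2 : R) * (ξ j * αo * ↑(ui⁻¹)) ≠ 0 := by
        intro j h
        have h1 : (2 : R) * (ξ j * αo * ↑(ui⁻¹)) = 2 * 0 := by rw [h, mul_zero]
        have h3 := h2.mul_left_cancel h1
        have h4 : ξ j * αo = 0 := by
          have := congrArg (fun z => z * (ui : R)) h3
          simp only [mul_assoc, Units.inv_mul, mul_one, zero_mul] at this
          exact this
        have h5 : ξ j * αo = 0 * αo := by rw [h4, zero_mul]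
        exact hξ0 j (ho.mul_right_cancel h5)
      rintro (_ | j) (_ | j')
      · simp
      · simp only [Option.elim]
        exact ⟨fun h => absurd h.symm (hne j'), fun h => absurd h.symm (hpq j')⟩
      · simp only [Option.elim]
        exact ⟨fun h => absurd h (hne j), fun h => absurd h (hpq j)⟩
      · simp only [Option.elim]
        constructor
        · intro h
          have h3 := h2.mul_left_cancel h
          have h4 : ξ j * αo = ξ j' * αo := by
            have := congrArg (fun z => z * (ui : R)) h3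
            simp only [mul_assoc, Units.inv_mul, mul_one] at this
            exact this
          rw [hξi (ho.mul_right_cancel h4)]
        · intro h
          rw [hp h])
  obtain ⟨Φi, hΦi⟩ := exists_perm_of_partial (α := R) (β := R) rfl
    (γ := H × Bool) (fun z => if z.2 then ξ z.1 else -ξ z.1)
    (fun z => if z.2 then u z.1 else v z.1) (by
      rintro ⟨j, a⟩ ⟨j', a'⟩
      cases a <;> cases a'
      · simp only [Bool.false_eq_true, if_false]
        exact ⟨fun h => by rw [hξi (neg_injective h)], fun h => by rw [hv h]⟩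
      · simp only [Bool.false_eq_true, if_false, if_true]
        exact ⟨fun h => absurd h.symm (hξn j' j), fun h => absurd h.symm (huv j' j)⟩
      · simp only [Bool.false_eq_true, if_false, if_true]
        exact ⟨fun h => absurd h (hξn j j'), fun h => absurd h (huv j j')⟩
      · simp only [if_true]
        exact ⟨fun h => by rw [hξi h], fun h => by rw [hu h]⟩)
  refine ⟨Φo, Φi, fun j => ?_⟩
  have e1 : Φo⁻¹ q = 0 := by
    rw [Perm.inv_eq_iff_eq]
    exact (hΦo none).symm
  have e2 : Φo⁻¹ (p j) = 2 * (ξ j * αo * ↑(ui⁻¹)) := by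
    rw [Perm.inv_eq_iff_eq]
    exact (hΦo (some j)).symm
  have e3 : Φi⁻¹ (u j) = ξ j := by
    rw [Perm.inv_eq_iff_eq]
    exact (hΦi (j, true)).symm
  have e4 : Φi⁻¹ (v j) = -ξ j := by
    rw [Perm.inv_eq_iff_eq]
    exact (hΦi (j, false)).symm
  rw [e1, e2, e3, e4]
  have h5 : (ui : R) * ↑(ui⁻¹) = 1 := Units.mul_inv ui
  linear_combination (2 * ξ j * αo) * h5

end Half

namespace RD

namespace C1

variable {b : RD} {R : Type*} [CommRing R] (hok : b.Ok) (h2 : IsUnit (2 : R))
  (h3 : IsUnit (3 : R)) (hg : ∀ y : R, ∃ j : ℕ, j • (1 : R) = y)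

/-- slope of the outer column of `D` -/
def αo (t : C1 b) (R : Type*) [CommRing R] : R :=
  (b.c (b.st (false, t.id) + (wo !t.f).val) : R) - (b.cs (false, t.id) : R)

/-- slope of the inner column of `D` -/
def αi (t : C1 b) (R : Type*) [CommRing R] : R :=
  (b.c (b.st (false, t.id) + (wi !t.f).val) : R) - (b.cs (false, t.id) : R)

include hok h2 h3 in
theorem unit_αo (t : C1 b) : IsUnit (t.αo R) :=
  adf_unit h2 h3 (hok.uc (false, t.id) _ (wo !t.f).isLt)

include hok h2 h3 in
theorem unit_αi (t : C1 b) : IsUnit (t.αi R) :=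
  adf_unit h2 h3 (hok.uc (false, t.id) _ (wi !t.f).isLt)

/-- equal labels -/
theorem lbD_eq (t : C1 b) (r : ZMod b.k) {y z y' z' : R}
    (h : t.αi R * y - t.αo R * z = t.αi R * y' - t.αo R * z') :
    t.lbD hok h2 h3 hg r y z = t.lbD hok h2 h3 hg r y' z' := by
  have hlt := hok.st_lt (false, t.id)
  unfold lbD
  unfold αo αi at h
  cases hf : t.f
  · rw [hf] at h
    simp only [Bool.not_false, if_true, wo, wi] at h ⊢
    have ha : (b.row hok h2 h3 hg r).col ((b.row hok h2 h3 hg r).s⁻¹
        ((b.row hok h2 h3 hg r).B (false, t.id))) = (b.c (b.st (false, t.id)) : R) := by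
      show b.slope R r ((b.sq r)⁻¹ (b.pn r (b.st (false, t.id) + 1))) = _
      rw [b.sq_inv_pn, b.slope_pn r (by omega)]
    have hc : (b.row hok h2 h3 hg r).col ((b.row hok h2 h3 hg r).s
        ((b.row hok h2 h3 hg r).B (false, t.id))) = (b.c (b.st (false, t.id) + 2) : R) := by
      show b.slope R r (b.sq r (b.pn r (b.st (false, t.id) + 1))) = _
      rw [b.sq_pn, b.slope_pn r (by omega)]
    have hu : IsUnit ((b.row hok h2 h3 hg r).col ((b.row hok h2 h3 hg r).s
        ((b.row hok h2 h3 hg r).B (false, t.id))) - (b.row hok h2 h3 hg r).col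
          ((b.row hok h2 h3 hg r).s⁻¹ ((b.row hok h2 h3 hg r).B (false, t.id)))) := by
      have := (b.row hok h2 h3 hg r).unit2 ((b.row hok h2 h3 hg r).s⁻¹
        ((b.row hok h2 h3 hg r).B (false, t.id)))
      rwa [show ∀ x, (b.row hok h2 h3 hg r).s ((b.row hok h2 h3 hg r).s⁻¹ x) = x from
        fun x => by simp] at this
    have e1 := (b.row hok h2 h3 hg r).lf_mul (false, t.id) y z
    have e2 := (b.row hok h2 h3 hg r).lf_mul (false, t.id) y' z'
    refine hu.mul_left_cancel ?_
    unfold Row.lb
    have hcs : (b.row hok h2 h3 hg r).cs (false, t.id) = (b.cs (false, t.id) : R) := rfl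
    rw [ha, hc] at e1 e2 ⊢
    rw [hcs]
    have h0 : ((0 : Fin 4) : ℕ) = 0 := rfl
    have h22 : ((2 : Fin 4) : ℕ) = 2 := rfl
    rw [h0, h22, add_zero] at h
    linear_combination h - ((b.c (b.st (false, t.id)) : R) - (b.cs (false, t.id) : R)) * e1 +
      ((b.c (b.st (false, t.id)) : R) - (b.cs (false, t.id) : R)) * e2
  · rw [hf] at h
    simp only [Bool.not_true, Bool.false_eq_true, if_false, wo, wi] at h ⊢
    have ha : (b.row hok h2 h3 hg r).col ((b.row hok h2 h3 hg r).s ((b.row hok h2 h3 hg r).s
        ((b.row hok h2 h3 hg r).B (false, t.id)))) = (b.c (b.st (false, t.id) + 3) : R) := by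
      show b.slope R r (b.sq r (b.sq r (b.pn r (b.st (false, t.id) + 1)))) = _
      rw [b.sq_pn, b.sq_pn, b.slope_pn r (by omega)]
    have hc : (b.row hok h2 h3 hg r).col ((b.row hok h2 h3 hg r).B (false, t.id)) =
        (b.c (b.st (false, t.id) + 1) : R) := by
      show b.slope R r (b.pn r (b.st (false, t.id) + 1)) = _
      rw [b.slope_pn r (by omega)]
    have hu : IsUnit ((b.row hok h2 h3 hg r).col ((b.row hok h2 h3 hg r).B (false, t.id)) -
        (b.row hok h2 h3 hg r).col ((b.row hok h2 h3 hg r).s ((b.row hok h2 h3 hg r).s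
        ((b.row hok h2 h3 hg r).B (false, t.id))))) := by
      have := ((b.row hok h2 h3 hg r).unit2 ((b.row hok h2 h3 hg r).B (false, t.id))).neg
      rwa [neg_sub] at this
    have e1 := (b.row hok h2 h3 hg r).lf'_mul (false, t.id) y z
    have e2 := (b.row hok h2 h3 hg r).lf'_mul (false, t.id) y' z'
    refine hu.mul_left_cancel ?_
    unfold Row.lb'
    have hcs : (b.row hok h2 h3 hg r).cs (false, t.id) = (b.cs (false, t.id) : R) := rfl
    rw [ha, hc] at e1 e2 ⊢
    rw [hcs]
    have h0 : ((3 : Fin 4) : ℕ) = 3 := rfl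
    have h22 : ((1 : Fin 4) : ℕ) = 1 := rfl
    rw [h0, h22] at h
    linear_combination h - ((b.c (b.st (false, t.id) + 3) : R) - (b.cs (false, t.id) : R)) * e1 +
      ((b.c (b.st (false, t.id) + 3) : R) - (b.cs (false, t.id) : R)) * e2

end C1

end RD

end SqIns
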