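import Pool.Agent.Lib.SqIns.BaseT

/-!
# Base with 15 rows
-/

namespace SqIns

open RD

/-- base 15 -/
def b15 : BX where
  k := 15
  N := 194128763141247857193544705840464389369915697922918575
  odd := rfl
  ok := by decide +kernel
  pos i := 9663726643 / 1024 ^ i.val % 1024
  c n := 6378118612845053359278913520650375961217347203802749778506387808331514105587182889084363813 / 32 ^ n % 32
  cs i := 17941236560453 / 64 ^ (4 * i.1.toNat + i.2.val) % 64
  sp := 5
  x n := 58020879360 / 1024 ^ n % 1024
  g' := 1
  gi := 1
  J i n := 19994032294669855456336449447359086277852974100 / 1024 ^ (4 * i.val + n.val) % 1024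
  L i e := 16537536510910900782100 / 1024 ^ (2 * i.val + e.toNat) % 1024
  d i e := 21930 / 4 ^ (2 * i.val + e.toNat) % 4
  ia := 0
  ib := 1
  id := 2
  iC := 3
  e := false
  f := true
  Jn := 18
  qu := 13
  pu := 0
  qv := 7
  mu := tb1 [(0, 2), (1, -2), (2, 1), (3, -1)]
  eta := tb1 [(0, 4), (1, 4), (2, -1), (3, 4)]
  bq := tb1 [(50, -1), (51, 4), (52, -3), (53, 2), (54, -6), (55, -1)]
  del := tb2 [(0, 7, -1), (3, 51, 1), (7, 6, 1), (7, 8, 1)]
  off := tb2 [(3, 51, 8), (3, 53, 8), (3, 55, 8)]
  kap i := tb1 [(0, -3), (1, -2), (2, 1), (3, 1)] i.val

set_option maxRecDepth 100000 in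
theorem b15_chk : b15.Chk where
  ok := by constructor <;> decide +kernel
  rok := by constructor <;> decide +kernel
  pu_o := by decide +kernel
  pu_i := by decide +kernel
  qv_o := by decide +kernel
  qv_i := by decide +kernel
  qu_o := by decide +kernel
  qu_i := by decide +kernel
  adjL := by decide +kernel
  adjC := by decide +kernel
  inf := by decide +kernel
  spd := by decide +kernel
  sp0 := by decide +kernel
  csab := by decide +kernel
  quk := by decide +kernel
  puk := by decide +kernel
  qvk := by decide +kernel
  rne := by decide +kernel
  CD := by decide +kernel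
  spD := by decide +kernel
  dA := by decide +kernel
  hcol := by decide +kernel
  sepG := by decide +kernel
  sepC := by decide +kernel
  dl := by decide +kernel
  d1 := by decide +kernel
  d2 := by decide +kernel
  d3 := by decide +kernel
  d4 := by decide +kernel
  d5 := by decide +kernel
  nat := by decide +kernel
  muu := by decide +kernel
  etau := by decide +kernel
  ty := by decide +kernel
  ty2 := by decide +kernel
  tD := by decide +kernel
  tC := by decide +kernel
  bqu := by decide +kernel
  al := by decide +kernel
  of := by decide +kernel
  kp := by decide +kernel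
  kpu := by decide +kernel
  sepF := by decide +kernel
  sepF' := by decide +kernel
  con1 := by decide +kernel
  con2 := by decide +kernel
  conG := by decide +kernel
  conC := by decide +kernel

theorem b15_fn : b15.fn.Ok b15.id where
  AB := by decide +kernel
  chG := by decide +kernel
  chB := by decide +kernel
  bAB := by decide +kernel
  bη := by decide +kernel
  ηu := by decide +kernel
  wA := by constructor <;> decide +kernel
  wB := by constructor <;> decide +kernel
  d1 := by decide +kernel
  sepA := by decide +kernel
  sepB := by decide +kernel
  sepG := by decide +kernel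

end SqIns
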