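import Pool.Agent.Lib.SqIns.BaseT

/-!
# Base with 19 rows
-/

namespace SqIns

open RD

/-- base 19 -/
def b19 : BX where
  k := 19
  N := 87301675411466690195078572163450499257312053116404239238866061244350138
  odd := rfl
  ok := by decide +kernel
  pos i := 42949703708 / 1024 ^ i.val % 1024
  c n := 7695801008711351403312437778767539230513223529882311842917793918947667665311950801556319254096214981063477034198053 / 32 ^ n % 32
  cs i := 26533353501381 / 64 ^ (4 * i.1.toNat + i.2.val) % 64
  sp := 5
  x n := 26271793 / 1024 ^ n % 1024
  g' := 2
  gi := 10
  J i n := 17231524848656404892937305893799891768026630165 / 1024 ^ (4 * i.val + n.val) % 1024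
  L i e := 14252432573560658100245 / 1024 ^ (2 * i.val + e.toNat) % 1024
  d i e := 21930 / 4 ^ (2 * i.val + e.toNat) % 4
  ia := 0
  ib := 1
  id := 2
  iC := 3
  e := true
  f := true
  Jn := 30
  qu := 8
  pu := 0
  qv := 4
  mu := tb1 [(0, -1), (1, 1), (2, -2), (3, 2)]
  eta := tb1 [(0, 8), (1, 8), (2, 8), (3, 8)]
  bq := tb1 [(29, -3), (30, -3), (31, 6), (32, 6), (33, 8), (34, 8)]
  del := tb2 [(0, 47, -1), (4, 46, 1), (4, 48, 1), (10, 35, -1)]
  off := tb2 []
  kap i := tb1 [(0, -9), (1, -2), (2, 1), (3, 1)] i.val

set_option maxRecDepth 100000 in
theorem b19_chk : b19.Chk where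
  ok := by constructor <;> decide +kernel
  rok := by constructor <;> decide +kernel
  pu_o := by decide +kernel
  pu_i := by decide +kernel
  qv_o := by decide +kernel
  qv_i := by decide +kernel
  qu_o := by decide +kernel
  qu_i := by decide +kernel
  adjL := by decide +kernel
  adjC := by decide +kernel
  inf := by decide +kernel
  spd := by decide +kernel
  sp0 := by decide +kernel
  csab := by decide +kernel
  quk := by decide +kernel
  puk := by decide +kernel
  qvk := by decide +kernel
  rne := by decide +kernel
  CD := by decide +kernel
  spD := by decide +kernel
  dA := by decide +kernel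
  hcol := by decide +kernel
  sepG := by decide +kernel
  sepC := by decide +kernel
  dl := by decide +kernel
  d1 := by decide +kernel
  d2 := by decide +kernel
  d3 := by decide +kernel
  d4 := by decide +kernel
  d5 := by decide +kernel
  nat := by decide +kernel
  muu := by decide +kernel
  etau := by decide +kernel
  ty := by decide +kernel
  ty2 := by decide +kernel
  tD := by decide +kernel
  tC := by decide +kernel
  bqu := by decide +kernel
  al := by decide +kernel
  of := by decide +kernel
  kp := by decide +kernel
  kpu := by decide +kernel
  sepF := by decide +kernel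
  sepF' := by decide +kernel
  con1 := by decide +kernel
  con2 := by decide +kernel
  conG := by decide +kernel
  conC := by decide +kernel

theorem b19_fn : b19.fn.Ok b19.id where
  AB := by decide +kernel
  chG := by decide +kernel
  chB := by decide +kernel
  bAB := by decide +kernel
  bη := by decide +kernel
  ηu := by decide +kernel
  wA := by constructor <;> decide +kernel
  wB := by constructor <;> decide +kernel
  d1 := by decide +kernel
  sepA := by decide +kernel
  sepB := by decide +kernel
  sepG := by decide +kernel

end SqIns
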