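import Pool.Agent.Lib.SqIns.BaseT

/-!
# Base with 21 rows
-/

namespace SqIns

open RD

/-- base 21 -/
def b21 : BX where
  k := 21
  N := 559019631180970684193305407669480889752908881547048930500695600126120835008514809
  odd := rfl
  ok := by decide +kernel
  pos i := 81604384776 / 1024 ^ i.val % 1024
  c n := 11365474038809374908765247525515878412191157021268014215749246694642440491290745580603078548856932401571113405748469015827914986 / 32 ^ n % 32
  cs i := 22544353628620 / 64 ^ (4 * i.1.toNat + i.2.val) % 64
  sp := 12
  x n := 61289270272 / 1024 ^ n % 1024
  g' := 19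
  gi := 10
  J i n := 105712603399028076670473430229789460790249528400 / 1024 ^ (4 * i.val + n.val) % 1024
  L i e := 87442195511395693368400 / 1024 ^ (2 * i.val + e.toNat) % 1024
  d i e := 21930 / 4 ^ (2 * i.val + e.toNat) % 4
  ia := 0
  ib := 1
  id := 2
  iC := 3
  e := false
  f := true
  Jn := 78
  qu := 10
  pu := 0
  qv := 6
  mu := tb1 [(0, -1), (1, -4), (2, 2), (3, -2)]
  eta := tb1 [(0, 2), (1, -3), (2, 2), (3, 2)]
  bq := tb1 [(7, 2), (8, -3), (9, 8), (10, 3), (11, 6), (12, 1)]
  del := tb2 [(0, 74, -1), (6, 73, 1), (6, 75, 1), (15, 8, 1)]
  off := tb2 [(15, 8, 3), (15, 10, 3), (15, 12, 3)]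
  kap i := tb1 [(0, -2), (1, 6), (2, 1), (3, 1)] i.val

set_option maxRecDepth 100000 in
theorem b21_chk : b21.Chk where
  ok := by constructor <;> decide +kernel
  rok := by constructor <;> decide +kernel
  pu_o := by decide +kernel
  pu_i := by decide +kernel
  qv_o := by decide +kernel
  qv_i := by decide +kernel
  qu_o := by decide +kernel
  qu_i := by decide +kernel
  adjL := by decide +kernel
  adjC := by decide +kernel
  inf := by decide +kernel
  spd := by decide +kernel
  sp0 := by decide +kernel
  csab := by decide +kernel
  quk := by decide +kernel
  puk := by decide +kernel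
  qvk := by decide +kernel
  rne := by decide +kernel
  CD := by decide +kernel
  spD := by decide +kernel
  dA := by decide +kernel
  hcol := by decide +kernel
  sepG := by decide +kernel
  sepC := by decide +kernel
  dl := by decide +kernel
  d1 := by decide +kernel
  d2 := by decide +kernel
  d3 := by decide +kernel
  d4 := by decide +kernel
  d5 := by decide +kernel
  nat := by decide +kernel
  muu := by decide +kernel
  etau := by decide +kernel
  ty := by decide +kernel
  ty2 := by decide +kernel
  tD := by decide +kernel
  tC := by decide +kernel
  bqu := by decide +kernel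
  al := by decide +kernel
  of := by decide +kernel
  kp := by decide +kernel
  kpu := by decide +kernel
  sepF := by decide +kernel
  sepF' := by decide +kernel
  con1 := by decide +kernel
  con2 := by decide +kernel
  conG := by decide +kernel
  conC := by decide +kernel

theorem b21_fn : b21.fn.Ok b21.id where
  AB := by decide +kernel
  chG := by decide +kernel
  chB := by decide +kernel
  bAB := by decide +kernel
  bη := by decide +kernel
  ηu := by decide +kernel
  wA := by constructor <;> decide +kernel
  wB := by constructor <;> decide +kernel
  d1 := by decide +kernel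
  sepA := by decide +kernel
  sepB := by decide +kernel
  sepG := by decide +kernel

end SqIns
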