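import Pool.Agent.Lib.SqIns.BaseT

/-!
# Base with 25 rows
-/

namespace SqIns

open RD

/-- base 25 -/
def b25 : BX where
  k := 25
  N := 5052020051234490849720825496926203884356245535646108664183363960309931681378371721290795220915699826
  odd := rfl
  ok := by decide +kernel
  pos i := 83852541966 / 1024 ^ i.val % 1024
  c n := 20075119225996317991537228318621556384543024048883878759377366276327748044632775072062601649442560004997310462196961549409750731099439829471383037122688 / 32 ^ n % 32
  cs i := 18146304467207 / 64 ^ (4 * i.1.toNat + i.2.val) % 64
  sp := 5
  x n := 80531781632 / 1024 ^ n % 1024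
  g' := 21
  gi := 6
  J i n := 32921505135898549458597492237720174577524471897 / 1024 ^ (4 * i.val + n.val) % 1024
  L i e := 26051415530920012214361 / 1024 ^ (2 * i.val + e.toNat) % 1024
  d i e := 21930 / 4 ^ (2 * i.val + e.toNat) % 4
  ia := 0
  ib := 1
  id := 2
  iC := 3
  e := true
  f := false
  Jn := 58
  qu := 20
  pu := 0
  qv := 7
  mu := tb1 [(0, 2), (1, -1), (2, -4), (3, -2)]
  eta := tb1 [(0, 2), (1, 2), (2, -3), (3, 2)]
  bq := tb1 [(15, 1), (16, -4), (17, -1), (18, -6), (19, 2), (20, -3)]
  del := tb2 [(0, 85, -1), (7, 84, 1), (7, 86, 1), (8, 22, -1)]
  off := tb2 []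
  kap i := tb1 [(0, 2), (1, -3), (2, 1), (3, 1)] i.val

set_option maxRecDepth 100000 in
theorem b25_chk : b25.Chk where
  ok := by constructor <;> decide +kernel
  rok := by constructor <;> decide +kernel
  pu_o := by decide +kernel
  pu_i := by decide +kernel
  qv_o := by decide +kernel
  qv_i := by decide +kernel
  qu_o := by decide +kernel
  qu_i := by decide +kernel
  adjL := by decide +kernel
  adjC := by decide +kernel
  inf := by decide +kernel
  spd := by decide +kernel
  sp0 := by decide +kernel
  csab := by decide +kernel
  quk := by decide +kernel
  puk := by decide +kernel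
  qvk := by decide +kernel
  rne := by decide +kernel
  CD := by decide +kernel
  spD := by decide +kernel
  dA := by decide +kernel
  hcol := by decide +kernel
  sepG := by decide +kernel
  sepC := by decide +kernel
  dl := by decide +kernel
  d1 := by decide +kernel
  d2 := by decide +kernel
  d3 := by decide +kernel
  d4 := by decide +kernel
  d5 := by decide +kernel
  nat := by decide +kernel
  muu := by decide +kernel
  etau := by decide +kernel
  ty := by decide +kernel
  ty2 := by decide +kernel
  tD := by decide +kernel
  tC := by decide +kernel
  bqu := by decide +kernel
  al := by decide +kernel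
  of := by decide +kernel
  kp := by decide +kernel
  kpu := by decide +kernel
  sepF := by decide +kernel
  sepF' := by decide +kernel
  con1 := by decide +kernel
  con2 := by decide +kernel
  conG := by decide +kernel
  conC := by decide +kernel

theorem b25_fn : b25.fn.Ok b25.id where
  AB := by decide +kernel
  chG := by decide +kernel
  chB := by decide +kernel
  bAB := by decide +kernel
  bη := by decide +kernel
  ηu := by decide +kernel
  wA := by constructor <;> decide +kernel
  wB := by constructor <;> decide +kernel
  d1 := by decide +kernel
  sepA := by decide +kernel
  sepB := by decide +kernel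
  sepG := by decide +kernel

end SqIns
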