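import Pool.Agent.Lib.SqIns.BaseT

/-!
# Base with 29 rows
-/

namespace SqIns

open RD

/-- base 29 -/
def b29 : BX where
  k := 29
  N := 414417963324654041625897706742262302240267666521011385012228427626147936407407573669254122000972145770882277841528312837
  odd := rfl
  ok := by decide +kernel
  pos i := 104152970251 / 1024 ^ i.val % 1024
  c n := 32416352852093578684711834109793971347374185921273999573668804146493135214736009186679115108580620422669767054359447139557400468811441289697675203524830839518524348295494705476 / 32 ^ n % 32
  cs i := 31270636626122 / 64 ^ (4 * i.1.toNat + i.2.val) % 64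
  sp := 5
  x n := 89196069888 / 1024 ^ n % 1024
  g' := 1
  gi := 1
  J i n := 28655092470945934740666529994130867615119226953 / 1024 ^ (4 * i.val + n.val) % 1024
  L i e := 23701768174151595503689 / 1024 ^ (2 * i.val + e.toNat) % 1024
  d i e := 21930 / 4 ^ (2 * i.val + e.toNat) % 4
  ia := 0
  ib := 1
  id := 2
  iC := 3
  e := true
  f := true
  Jn := 42
  qu := 9
  pu := 0
  qv := 21
  mu := tb1 [(0, -2), (1, 1), (2, -3), (3, -1)]
  eta := tb1 [(0, 4), (1, 4), (2, 4), (3, 4)]
  bq := tb1 [(12, 1), (13, 1), (14, 2), (15, 2), (16, 4), (17, 4)]
  del := tb2 [(0, 104, -1), (6, 18, -1), (21, 103, 1), (21, 105, 1)]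
  off := tb2 []
  kap i := tb1 [(0, -1), (1, -2), (2, 1), (3, 1)] i.val

set_option maxRecDepth 100000 in
theorem b29_chk : b29.Chk where
  ok := by constructor <;> decide +kernel
  rok := by constructor <;> decide +kernel
  pu_o := by decide +kernel
  pu_i := by decide +kernel
  qv_o := by decide +kernel
  qv_i := by decide +kernel
  qu_o := by decide +kernel
  qu_i := by decide +kernel
  adjL := by decide +kernel
  adjC := by decide +kernel
  inf := by decide +kernel
  spd := by decide +kernel
  sp0 := by decide +kernel
  csab := by decide +kernel
  quk := by decide +kernel
  puk := by decide +kernel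
  qvk := by decide +kernel
  rne := by decide +kernel
  CD := by decide +kernel
  spD := by decide +kernel
  dA := by decide +kernel
  hcol := by decide +kernel
  sepG := by decide +kernel
  sepC := by decide +kernel
  dl := by decide +kernel
  d1 := by decide +kernel
  d2 := by decide +kernel
  d3 := by decide +kernel
  d4 := by decide +kernel
  d5 := by decide +kernel
  nat := by decide +kernel
  muu := by decide +kernel
  etau := by decide +kernel
  ty := by decide +kernel
  ty2 := by decide +kernel
  tD := by decide +kernel
  tC := by decide +kernel
  bqu := by decide +kernel
  al := by decide +kernel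
  of := by decide +kernel
  kp := by decide +kernel
  kpu := by decide +kernel
  sepF := by decide +kernel
  sepF' := by decide +kernel
  con1 := by decide +kernel
  con2 := by decide +kernel
  conG := by decide +kernel
  conC := by decide +kernel

theorem b29_fn : b29.fn.Ok b29.id where
  AB := by decide +kernel
  chG := by decide +kernel
  chB := by decide +kernel
  bAB := by decide +kernel
  bη := by decide +kernel
  ηu := by decide +kernel
  wA := by constructor <;> decide +kernel
  wB := by constructor <;> decide +kernel
  d1 := by decide +kernel
  sepA := by decide +kernel
  sepB := by decide +kernel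
  sepG := by decide +kernel

end SqIns
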