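import Pool.Agent.Lib.SqIns.BaseT

/-!
# Base with 31 rows
-/

namespace SqIns

open RD

/-- base 31 -/
def b31 : BX where
  k := 31
  N := 3136527896524363409578588577684709035652104239768522751582067241908655760604141522553937749226321850981291118779528272654736478601
  odd := rfl
  ok := by decide +kernel
  pos i := 105226719250 / 1024 ^ i.val % 1024
  c n := 14027491722071987957437578983783425346386457217694413082054432586342801375382870044637987578786784503989325025653370061384166276610971524877050552196955135006478655627077133484301305915622 / 32 ^ n % 32
  cs i := 49146422657418 / 64 ^ (4 * i.1.toNat + i.2.val) % 64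
  sp := 5
  x n := 124626424832 / 1024 ^ n % 1024
  g' := 8
  gi := 4
  J i n := 85767355390886442762124829029583864494547900429 / 1024 ^ (4 * i.val + n.val) % 1024
  L i e := 70943929383334748196877 / 1024 ^ (2 * i.val + e.toNat) % 1024
  d i e := 21930 / 4 ^ (2 * i.val + e.toNat) % 4
  ia := 0
  ib := 1
  id := 2
  iC := 3
  e := true
  f := true
  Jn := 98
  qu := 3
  pu := 0
  qv := 13
  mu := tb1 [(0, -2), (1, -8), (2, -6), (3, -4)]
  eta := tb1 [(0, 1), (1, 1), (2, -4), (3, 1)]
  bq := tb1 [(19, 1), (20, -4), (21, 3), (22, -2), (23, 1), (24, -4)]
  del := tb2 [(0, 105, -1), (13, 104, 1), (13, 106, 1), (18, 25, -1)]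
  off := tb2 []
  kap i := tb1 [(0, -2), (1, 2), (2, 1), (3, 1)] i.val

set_option maxRecDepth 100000 in
theorem b31_chk : b31.Chk where
  ok := by constructor <;> decide +kernel
  rok := by constructor <;> decide +kernel
  pu_o := by decide +kernel
  pu_i := by decide +kernel
  qv_o := by decide +kernel
  qv_i := by decide +kernel
  qu_o := by decide +kernel
  qu_i := by decide +kernel
  adjL := by decide +kernel
  adjC := by decide +kernel
  inf := by decide +kernel
  spd := by decide +kernel
  sp0 := by decide +kernel
  csab := by decide +kernel
  quk := by decide +kernel
  puk := by decide +kernel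
  qvk := by decide +kernel
  rne := by decide +kernel
  CD := by decide +kernel
  spD := by decide +kernel
  dA := by decide +kernel
  hcol := by decide +kernel
  sepG := by decide +kernel
  sepC := by decide +kernel
  dl := by decide +kernel
  d1 := by decide +kernel
  d2 := by decide +kernel
  d3 := by decide +kernel
  d4 := by decide +kernel
  d5 := by decide +kernel
  nat := by decide +kernel
  muu := by decide +kernel
  etau := by decide +kernel
  ty := by decide +kernel
  ty2 := by decide +kernel
  tD := by decide +kernel
  tC := by decide +kernel
  bqu := by decide +kernel
  al := by decide +kernel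
  of := by decide +kernel
  kp := by decide +kernel
  kpu := by decide +kernel
  sepF := by decide +kernel
  sepF' := by decide +kernel
  con1 := by decide +kernel
  con2 := by decide +kernel
  conG := by decide +kernel
  conC := by decide +kernel

theorem b31_fn : b31.fn.Ok b31.id where
  AB := by decide +kernel
  chG := by decide +kernel
  chB := by decide +kernel
  bAB := by decide +kernel
  bη := by decide +kernel
  ηu := by decide +kernel
  wA := by constructor <;> decide +kernel
  wB := by constructor <;> decide +kernel
  d1 := by decide +kernel
  sepA := by decide +kernel
  sepB := by decide +kernel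
  sepG := by decide +kernel

end SqIns
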