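import Pool.Agent.Lib.SqIns.BaseT

/-!
# Base with 33 rows
-/

namespace SqIns

open RD

/-- base 33 -/
def b33 : BX where
  k := 33
  N := 68593805231919501943769706676321088522425757257103188596483728056487033540406208198975263666962471502370278002841629528842920546860153196406
  odd := rfl
  ok := by decide +kernel
  pos i := 137457942642 / 1024 ^ i.val % 1024
  c n := 10792774104912509088065376285196562808564180796417096446598850310196317549268450137460789254285106058457181128962279085135257181979382120520049095391986244999100354154663306757137133805814091228446756 / 32 ^ n % 32
  cs i := 13544280035403 / 64 ^ (4 * i.1.toNat + i.2.val) % 64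
  sp := 5
  x n := 106409505792 / 1024 ^ n % 1024
  g' := 28
  gi := 13
  J i n := 121341256578520746746988265524019269950615181335 / 1024 ^ (4 * i.val + n.val) % 1024
  L i e := 99190479251014495096855 / 1024 ^ (2 * i.val + e.toNat) % 1024
  d i e := 21930 / 4 ^ (2 * i.val + e.toNat) % 4
  ia := 0
  ib := 1
  id := 3
  iC := 2
  e := false
  f := false
  Jn := 21
  qu := 28
  pu := 0
  qv := 21
  mu := tb1 [(0, -1), (1, -2), (2, -3), (3, 1)]
  eta := tb1 [(0, 2), (1, 2), (2, 2), (3, 2)]
  bq := tb1 [(113, 2), (114, 2), (115, 1), (116, 1), (117, 2), (118, 2)]
  del := tb2 [(0, 16, -1), (5, 113, -1), (21, 15, 1), (21, 17, 1)]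
  off := tb2 [(5, 113, 2), (5, 115, 2), (5, 117, 2)]
  kap i := tb1 [(0, -1), (1, 1), (2, 1), (3, 1)] i.val

set_option maxRecDepth 100000 in
theorem b33_chk : b33.Chk where
  ok := by constructor <;> decide +kernel
  rok := by constructor <;> decide +kernel
  pu_o := by decide +kernel
  pu_i := by decide +kernel
  qv_o := by decide +kernel
  qv_i := by decide +kernel
  qu_o := by decide +kernel
  qu_i := by decide +kernel
  adjL := by decide +kernel
  adjC := by decide +kernel
  inf := by decide +kernel
  spd := by decide +kernel
  sp0 := by decide +kernel
  csab := by decide +kernel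
  quk := by decide +kernel
  puk := by decide +kernel
  qvk := by decide +kernel
  rne := by decide +kernel
  CD := by decide +kernel
  spD := by decide +kernel
  dA := by decide +kernel
  hcol := by decide +kernel
  sepG := by decide +kernel
  sepC := by decide +kernel
  dl := by decide +kernel
  d1 := by decide +kernel
  d2 := by decide +kernel
  d3 := by decide +kernel
  d4 := by decide +kernel
  d5 := by decide +kernel
  nat := by decide +kernel
  muu := by decide +kernel
  etau := by decide +kernel
  ty := by decide +kernel
  ty2 := by decide +kernel
  tD := by decide +kernel
  tC := by decide +kernel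
  bqu := by decide +kernel
  al := by decide +kernel
  of := by decide +kernel
  kp := by decide +kernel
  kpu := by decide +kernel
  sepF := by decide +kernel
  sepF' := by decide +kernel
  con1 := by decide +kernel
  con2 := by decide +kernel
  conG := by decide +kernel
  conC := by decide +kernel

theorem b33_fn : b33.fn.Ok b33.id where
  AB := by decide +kernel
  chG := by decide +kernel
  chB := by decide +kernel
  bAB := by decide +kernel
  bη := by decide +kernel
  ηu := by decide +kernel
  wA := by constructor <;> decide +kernel
  wB := by constructor <;> decide +kernel
  d1 := by decide +kernel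
  sepA := by decide +kernel
  sepB := by decide +kernel
  sepG := by decide +kernel

end SqIns
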