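import Pool.Agent.Lib.SqIns.BaseT

/-!
# Base with 35 rows
-/

namespace SqIns

open RD

/-- base 35 -/
def b35 : BX where
  k := 35
  N := 853342156387868011062638493701619999182245518844172070248028340812999214587679839513728637272694311072646859897138109951689224175446543901240050699756
  odd := rfl
  ok := by decide +kernel
  pos i := 5511447679 / 1024 ^ i.val % 1024
  c n := 21221141537283002220355939451335176732843441214092015397972173114299958800895034803931307335778020087931518827628824287544798171958093258509326345831961225088894387437958951430906335216746650002933295202869450981 / 32 ^ n % 32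
  cs i := 18213933949123 / 64 ^ (4 * i.1.toNat + i.2.val) % 64
  sp := 5
  x n := 95688879104 / 1024 ^ n % 1024
  g' := 2
  gi := 18
  J i n := 91504227564301785887353503348426464942034643013 / 1024 ^ (4 * i.val + n.val) % 1024
  L i e := 75689347538719599616069 / 1024 ^ (2 * i.val + e.toNat) % 1024
  d i e := 21930 / 4 ^ (2 * i.val + e.toNat) % 4
  ia := 0
  ib := 1
  id := 2
  iC := 3
  e := true
  f := false
  Jn := 118
  qu := 16
  pu := 0
  qv := 24
  mu := tb1 [(0, 1), (1, -2), (2, -1), (3, -3)]
  eta := tb1 [(0, 3), (1, 2), (2, 3), (3, 3)]
  bq := tb1 [(128, -4), (129, -3), (130, -2), (131, -1), (132, 2), (133, 3)]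
  del := tb2 [(0, 12, -1), (24, 11, 1), (24, 13, 1), (28, 134, -1)]
  off := tb2 []
  kap i := tb1 [(0, -2), (1, -4), (2, 1), (3, 1)] i.val

set_option maxRecDepth 100000 in
theorem b35_chk : b35.Chk where
  ok := by constructor <;> decide +kernel
  rok := by constructor <;> decide +kernel
  pu_o := by decide +kernel
  pu_i := by decide +kernel
  qv_o := by decide +kernel
  qv_i := by decide +kernel
  qu_o := by decide +kernel
  qu_i := by decide +kernel
  adjL := by decide +kernel
  adjC := by decide +kernel
  inf := by decide +kernel
  spd := by decide +kernel
  sp0 := by decide +kernel
  csab := by decide +kernel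
  quk := by decide +kernel
  puk := by decide +kernel
  qvk := by decide +kernel
  rne := by decide +kernel
  CD := by decide +kernel
  spD := by decide +kernel
  dA := by decide +kernel
  hcol := by decide +kernel
  sepG := by decide +kernel
  sepC := by decide +kernel
  dl := by decide +kernel
  d1 := by decide +kernel
  d2 := by decide +kernel
  d3 := by decide +kernel
  d4 := by decide +kernel
  d5 := by decide +kernel
  nat := by decide +kernel
  muu := by decide +kernel
  etau := by decide +kernel
  ty := by decide +kernel
  ty2 := by decide +kernel
  tD := by decide +kernel
  tC := by decide +kernel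
  bqu := by decide +kernel
  al := by decide +kernel
  of := by decide +kernel
  kp := by decide +kernel
  kpu := by decide +kernel
  sepF := by decide +kernel
  sepF' := by decide +kernel
  con1 := by decide +kernel
  con2 := by decide +kernel
  conG := by decide +kernel
  conC := by decide +kernel

theorem b35_fn : b35.fn.Ok b35.id where
  AB := by decide +kernel
  chG := by decide +kernel
  chB := by decide +kernel
  bAB := by decide +kernel
  bη := by decide +kernel
  ηu := by decide +kernel
  wA := by constructor <;> decide +kernel
  wB := by constructor <;> decide +kernel
  d1 := by decide +kernel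
  sepA := by decide +kernel
  sepB := by decide +kernel
  sepG := by decide +kernel

end SqIns
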