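import Pool.Agent.Lib.SqIns.BaseT

/-!
# Base with 37 rows
-/

namespace SqIns

open RD

/-- base 37 -/
def b37 : BX where
  k := 37
  N := 30019650070111304235659683982662627856407939223288482503154574568446617549029452459459758647216583520233181512002710680352853936443165822310440550959963987351690
  odd := rfl
  ok := by decide +kernel
  pos i := 147253634059 / 1024 ^ i.val % 1024
  c n := 24264304409159519415929074760977902395715385057369927487243097569087925680008417171230235600238480662813908617238157894412811551061684733085802964944476197943230200961841244043500854128630327368877369282780705275971639447586 / 32 ^ n % 32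
  cs i := 26603162738757 / 64 ^ (4 * i.1.toNat + i.2.val) % 64
  sp := 5
  x n := 79567057920 / 1024 ^ n % 1024
  g' := 3
  gi := 25
  J i n := 162763539211250119501346595312362665627407637624 / 1024 ^ (4 * i.val + n.val) % 1024
  L i e := 134633684401158921147512 / 1024 ^ (2 * i.val + e.toNat) % 1024
  d i e := 21930 / 4 ^ (2 * i.val + e.toNat) % 4
  ia := 0
  ib := 1
  id := 2
  iC := 3
  e := false
  f := false
  Jn := 118
  qu := 14
  pu := 0
  qv := 35
  mu := tb1 [(0, -1), (1, -2), (2, -3), (3, 1)]
  eta := tb1 [(0, 4), (1, 4), (2, -1), (3, 4)]
  bq := tb1 [(10, -1), (11, 4), (12, -3), (13, 2), (14, 3), (15, 8)]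
  del := tb2 [(0, 135, -1), (23, 11, 1), (35, 134, 1), (35, 136, 1)]
  off := tb2 [(23, 11, -4), (23, 13, -4), (23, 15, -4)]
  kap i := tb1 [(0, 6), (1, -2), (2, 1), (3, 1)] i.val

set_option maxRecDepth 100000 in
theorem b37_chk : b37.Chk where
  ok := by constructor <;> decide +kernel
  rok := by constructor <;> decide +kernel
  pu_o := by decide +kernel
  pu_i := by decide +kernel
  qv_o := by decide +kernel
  qv_i := by decide +kernel
  qu_o := by decide +kernel
  qu_i := by decide +kernel
  adjL := by decide +kernel
  adjC := by decide +kernel
  inf := by decide +kernel
  spd := by decide +kernel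
  sp0 := by decide +kernel
  csab := by decide +kernel
  quk := by decide +kernel
  puk := by decide +kernel
  qvk := by decide +kernel
  rne := by decide +kernel
  CD := by decide +kernel
  spD := by decide +kernel
  dA := by decide +kernel
  hcol := by decide +kernel
  sepG := by decide +kernel
  sepC := by decide +kernel
  dl := by decide +kernel
  d1 := by decide +kernel
  d2 := by decide +kernel
  d3 := by decide +kernel
  d4 := by decide +kernel
  d5 := by decide +kernel
  nat := by decide +kernel
  muu := by decide +kernel
  etau := by decide +kernel
  ty := by decide +kernel
  ty2 := by decide +kernel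
  tD := by decide +kernel
  tC := by decide +kernel
  bqu := by decide +kernel
  al := by decide +kernel
  of := by decide +kernel
  kp := by decide +kernel
  kpu := by decide +kernel
  sepF := by decide +kernel
  sepF' := by decide +kernel
  con1 := by decide +kernel
  con2 := by decide +kernel
  conG := by decide +kernel
  conC := by decide +kernel

theorem b37_fn : b37.fn.Ok b37.id where
  AB := by decide +kernel
  chG := by decide +kernel
  chB := by decide +kernel
  bAB := by decide +kernel
  bη := by decide +kernel
  ηu := by decide +kernel
  wA := by constructor <;> decide +kernel
  wB := by constructor <;> decide +kernel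
  d1 := by decide +kernel
  sepA := by decide +kernel
  sepB := by decide +kernel
  sepG := by decide +kernel

end SqIns
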