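import Pool.Agent.Lib.SqIns.BaseT

/-!
# Base with 39 rows
-/

namespace SqIns

open RD

/-- base 39 -/
def b39 : BX where
  k := 39
  N := 582820964340005198371424649660967973919443129401434050274861401270607890705387112653448665937366485301927379802344056991184415534091750688113137082665753813640896937655881
  odd := rfl
  ok := by decide +kernel
  pos i := 23622455430 / 1024 ^ i.val % 1024
  c n := 13936999316057787448027109824072743080220779710581467237417994219980785729638921157062413142072193694627322688374738173259643491704038575144860899459790042353358849584712000028718310086243096301846090069646289422695502125294770639346890 / 32 ^ n % 32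
  cs i := 17939055809101 / 64 ^ (4 * i.1.toNat + i.2.val) % 64
  sp := 5
  x n := 135422612480 / 1024 ^ n % 1024
  g' := 20
  gi := 2
  J i n := 65827682574397557628370495413197757777738468404 / 1024 ^ (4 * i.val + n.val) % 1024
  L i e := 54450306343144706278452 / 1024 ^ (2 * i.val + e.toNat) % 1024
  d i e := 21930 / 4 ^ (2 * i.val + e.toNat) % 4
  ia := 0
  ib := 1
  id := 2
  iC := 3
  e := false
  f := true
  Jn := 50
  qu := 31
  pu := 0
  qv := 6
  mu := tb1 [(0, 3), (1, -3), (2, -1), (3, 1)]
  eta := tb1 [(0, 6), (1, 1), (2, 6), (3, 6)]
  bq := tb1 [(133, 6), (134, 1), (135, 3), (136, -2), (137, 4), (138, -1)]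
  del := tb2 [(0, 20, -1), (6, 19, 1), (6, 21, 1), (30, 134, 1)]
  off := tb2 [(30, 134, 3), (30, 136, 3), (30, 138, 3)]
  kap i := tb1 [(0, 1), (1, -3), (2, 1), (3, 1)] i.val

set_option maxRecDepth 100000 in
theorem b39_chk : b39.Chk where
  ok := by constructor <;> decide +kernel
  rok := by constructor <;> decide +kernel
  pu_o := by decide +kernel
  pu_i := by decide +kernel
  qv_o := by decide +kernel
  qv_i := by decide +kernel
  qu_o := by decide +kernel
  qu_i := by decide +kernel
  adjL := by decide +kernel
  adjC := by decide +kernel
  inf := by decide +kernel
  spd := by decide +kernel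
  sp0 := by decide +kernel
  csab := by decide +kernel
  quk := by decide +kernel
  puk := by decide +kernel
  qvk := by decide +kernel
  rne := by decide +kernel
  CD := by decide +kernel
  spD := by decide +kernel
  dA := by decide +kernel
  hcol := by decide +kernel
  sepG := by decide +kernel
  sepC := by decide +kernel
  dl := by decide +kernel
  d1 := by decide +kernel
  d2 := by decide +kernel
  d3 := by decide +kernel
  d4 := by decide +kernel
  d5 := by decide +kernel
  nat := by decide +kernel
  muu := by decide +kernel
  etau := by decide +kernel
  ty := by decide +kernel
  ty2 := by decide +kernel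
  tD := by decide +kernel
  tC := by decide +kernel
  bqu := by decide +kernel
  al := by decide +kernel
  of := by decide +kernel
  kp := by decide +kernel
  kpu := by decide +kernel
  sepF := by decide +kernel
  sepF' := by decide +kernel
  con1 := by decide +kernel
  con2 := by decide +kernel
  conG := by decide +kernel
  conC := by decide +kernel

theorem b39_fn : b39.fn.Ok b39.id where
  AB := by decide +kernel
  chG := by decide +kernel
  chB := by decide +kernel
  bAB := by decide +kernel
  bη := by decide +kernel
  ηu := by decide +kernel
  wA := by constructor <;> decide +kernel
  wB := by constructor <;> decide +kernel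
  d1 := by decide +kernel
  sepA := by decide +kernel
  sepB := by decide +kernel
  sepG := by decide +kernel

end SqIns
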