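import Pool.Agent.Lib.SqIns.BaseT

/-!
# Base with 41 rows
-/

namespace SqIns

open RD

/-- base 41 -/
def b41 : BX where
  k := 41
  N := 31193333914208981693763084687886127348319862083358303964503430871348199427079508047673041111218553217820725782895159873931235976718205291252268706846515814054227701753014923310864462
  odd := rfl
  ok := by decide +kernel
  pos i := 34359873666 / 1024 ^ i.val % 1024
  c n := 29730623265878040822928063276671350179841690356679218483657548359019576711248641749230517971626836704536887073636702170561168358164946856481087048470545928827865165660206563386190997279707607924108474353310293793956331914596900252621790072147148834 / 32 ^ n % 32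
  cs i := 44680747954308 / 64 ^ (4 * i.1.toNat + i.2.val) % 64
  sp := 5
  x n := 76674172 / 1024 ^ n % 1024
  g' := 9
  gi := 32
  J i n := 22973972213772704320932442633892348518190824528 / 1024 ^ (4 * i.val + n.val) % 1024
  L i e := 19002534503302427587664 / 1024 ^ (2 * i.val + e.toNat) % 1024
  d i e := 21930 / 4 ^ (2 * i.val + e.toNat) % 4
  ia := 1
  ib := 0
  id := 2
  iC := 3
  e := false
  f := true
  Jn := 80
  qu := 18
  pu := 0
  qv := 30
  mu := tb1 [(0, -8), (1, -2), (2, -4), (3, -6)]
  eta := tb1 [(0, 1), (1, 1), (2, 1), (3, 4)]
  bq := tb1 [(131, 1), (132, 4), (133, -1), (134, 2), (135, 1), (136, 4)]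
  del := tb2 [(0, 30, -1), (5, 132, 1), (30, 29, 1), (30, 31, 1)]
  off := tb2 [(5, 132, -16), (5, 134, -16), (5, 136, -16)]
  kap i := tb1 [(0, -2), (1, 2), (2, 1), (3, 1)] i.val

set_option maxRecDepth 100000 in
theorem b41_chk : b41.Chk where
  ok := by constructor <;> decide +kernel
  rok := by constructor <;> decide +kernel
  pu_o := by decide +kernel
  pu_i := by decide +kernel
  qv_o := by decide +kernel
  qv_i := by decide +kernel
  qu_o := by decide +kernel
  qu_i := by decide +kernel
  adjL := by decide +kernel
  adjC := by decide +kernel
  inf := by decide +kernel
  spd := by decide +kernel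
  sp0 := by decide +kernel
  csab := by decide +kernel
  quk := by decide +kernel
  puk := by decide +kernel
  qvk := by decide +kernel
  rne := by decide +kernel
  CD := by decide +kernel
  spD := by decide +kernel
  dA := by decide +kernel
  hcol := by decide +kernel
  sepG := by decide +kernel
  sepC := by decide +kernel
  dl := by decide +kernel
  d1 := by decide +kernel
  d2 := by decide +kernel
  d3 := by decide +kernel
  d4 := by decide +kernel
  d5 := by decide +kernel
  nat := by decide +kernel
  muu := by decide +kernel
  etau := by decide +kernel
  ty := by decide +kernel
  ty2 := by decide +kernel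
  tD := by decide +kernel
  tC := by decide +kernel
  bqu := by decide +kernel
  al := by decide +kernel
  of := by decide +kernel
  kp := by decide +kernel
  kpu := by decide +kernel
  sepF := by decide +kernel
  sepF' := by decide +kernel
  con1 := by decide +kernel
  con2 := by decide +kernel
  conG := by decide +kernel
  conC := by decide +kernel

theorem b41_fn : b41.fn.Ok b41.id where
  AB := by decide +kernel
  chG := by decide +kernel
  chB := by decide +kernel
  bAB := by decide +kernel
  bη := by decide +kernel
  ηu := by decide +kernel
  wA := by constructor <;> decide +kernel
  wB := by constructor <;> decide +kernel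
  d1 := by decide +kernel
  sepA := by decide +kernel
  sepB := by decide +kernel
  sepG := by decide +kernel

end SqIns
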