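import Pool.Agent.Lib.SqIns.BaseT

/-!
# Base with 43 rows
-/

namespace SqIns

open RD

/-- base 43 -/
def b43 : BX where
  k := 43
  N := 908350241398985157453019358924039444068758233022074613786517641482105900668992650508831669195619348758152933374089166261842871617629085770778898436750712069662967766695359706051890049130662196
  odd := rfl
  ok := by decide +kernel
  pos i := 23622473876 / 1024 ^ i.val % 1024
  c n := 32717788182836698775761482147291944630240914121465904089925603542389506121834071188004634445410636838924610517363788334242800850904489986022209773925817392327083519468929504482778181807070537195422023139229998526817247423438868562837929388871651422729082571813 / 32 ^ n % 32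
  cs i := 8936804335942 / 64 ^ (4 * i.1.toNat + i.2.val) % 64
  sp := 5
  x n := 149282775040 / 1024 ^ n % 1024
  g' := 39
  gi := 32
  J i n := 61394008721747769220694694589054967835609173124 / 1024 ^ (4 * i.val + n.val) % 1024
  L i e := 49603431117533810427012 / 1024 ^ (2 * i.val + e.toNat) % 1024
  d i e := 21930 / 4 ^ (2 * i.val + e.toNat) % 4
  ia := 1
  ib := 0
  id := 2
  iC := 3
  e := false
  f := true
  Jn := 132
  qu := 31
  pu := 0
  qv := 28
  mu := tb1 [(0, 2), (1, 6), (2, -2), (3, 4)]
  eta := tb1 [(0, 8), (1, 8), (2, 8), (3, -2)]
  bq := tb1 [(149, 8), (150, -2), (151, 12), (152, 2), (153, 9), (154, -1)]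
  del := tb2 [(0, 20, -1), (28, 19, 1), (28, 21, 1), (37, 149, 1)]
  off := tb2 [(37, 149, -16), (37, 151, -16), (37, 153, -16)]
  kap i := tb1 [(0, 4), (1, -3), (2, 1), (3, 1)] i.val

set_option maxRecDepth 100000 in
theorem b43_chk : b43.Chk where
  ok := by constructor <;> decide +kernel
  rok := by constructor <;> decide +kernel
  pu_o := by decide +kernel
  pu_i := by decide +kernel
  qv_o := by decide +kernel
  qv_i := by decide +kernel
  qu_o := by decide +kernel
  qu_i := by decide +kernel
  adjL := by decide +kernel
  adjC := by decide +kernel
  inf := by decide +kernel
  spd := by decide +kernel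
  sp0 := by decide +kernel
  csab := by decide +kernel
  quk := by decide +kernel
  puk := by decide +kernel
  qvk := by decide +kernel
  rne := by decide +kernel
  CD := by decide +kernel
  spD := by decide +kernel
  dA := by decide +kernel
  hcol := by decide +kernel
  sepG := by decide +kernel
  sepC := by decide +kernel
  dl := by decide +kernel
  d1 := by decide +kernel
  d2 := by decide +kernel
  d3 := by decide +kernel
  d4 := by decide +kernel
  d5 := by decide +kernel
  nat := by decide +kernel
  muu := by decide +kernel
  etau := by decide +kernel
  ty := by decide +kernel
  ty2 := by decide +kernel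
  tD := by decide +kernel
  tC := by decide +kernel
  bqu := by decide +kernel
  al := by decide +kernel
  of := by decide +kernel
  kp := by decide +kernel
  kpu := by decide +kernel
  sepF := by decide +kernel
  sepF' := by decide +kernel
  con1 := by decide +kernel
  con2 := by decide +kernel
  conG := by decide +kernel
  conC := by decide +kernel

theorem b43_fn : b43.fn.Ok b43.id where
  AB := by decide +kernel
  chG := by decide +kernel
  chB := by decide +kernel
  bAB := by decide +kernel
  bη := by decide +kernel
  ηu := by decide +kernel
  wA := by constructor <;> decide +kernel
  wB := by constructor <;> decide +kernel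
  d1 := by decide +kernel
  sepA := by decide +kernel
  sepB := by decide +kernel
  sepG := by decide +kernel

end SqIns
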