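import Pool.Agent.Lib.SqIns.BaseT

/-!
# Base with 45 rows
-/

namespace SqIns

open RD

/-- base 45 -/
def b45 : BX where
  k := 45
  N := 47550281360576354953465439001839536486842529915724794134134346138194676819573097419744974150533793128165977406889997565344099230471258882697826207970074373431743150917265868327727061081121110061758380041
  odd := rfl
  ok := by decide +kernel
  pos i := 29513880 / 1024 ^ i.val % 1024
  c n := 69001800572511224630669515462918334957264271067922543488131131273960464392813195756853456613299440881835428995347741936349169886837415348380368443472510872375875372458971615617433422702555523654800010421009933214408251303023018452635790847029005406371971996013941697554502 / 32 ^ n % 32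
  cs i := 18004503954176 / 64 ^ (4 * i.1.toNat + i.2.val) % 64
  sp := 5
  x n := 43168940 / 1024 ^ n % 1024
  g' := 1
  gi := 1
  J i n := 18697797521752520087765150590752403513593094313 / 1024 ^ (4 * i.val + n.val) % 1024
  L i e := 14284892278898115532969 / 1024 ^ (2 * i.val + e.toNat) % 1024
  d i e := 21930 / 4 ^ (2 * i.val + e.toNat) % 4
  ia := 0
  ib := 1
  id := 3
  iC := 2
  e := false
  f := true
  Jn := 167
  qu := 39
  pu := 0
  qv := 28
  mu := tb1 [(0, 1), (1, 2), (2, 4), (3, 3)]
  eta := tb1 [(0, 2), (1, 2), (2, 2), (3, 2)]
  bq := tb1 [(151, 2), (152, 2), (153, 1), (154, 1), (155, 2), (156, 2)]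
  del := tb2 [(0, 26, -1), (28, 25, 1), (28, 27, 1), (44, 151, -1)]
  off := tb2 [(44, 151, -8), (44, 153, -8), (44, 155, -8)]
  kap i := tb1 [(0, -1), (1, 1), (2, 1), (3, 1)] i.val

set_option maxRecDepth 100000 in
theorem b45_chk : b45.Chk where
  ok := by constructor <;> decide +kernel
  rok := by constructor <;> decide +kernel
  pu_o := by decide +kernel
  pu_i := by decide +kernel
  qv_o := by decide +kernel
  qv_i := by decide +kernel
  qu_o := by decide +kernel
  qu_i := by decide +kernel
  adjL := by decide +kernel
  adjC := by decide +kernel
  inf := by decide +kernel
  spd := by decide +kernel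
  sp0 := by decide +kernel
  csab := by decide +kernel
  quk := by decide +kernel
  puk := by decide +kernel
  qvk := by decide +kernel
  rne := by decide +kernel
  CD := by decide +kernel
  spD := by decide +kernel
  dA := by decide +kernel
  hcol := by decide +kernel
  sepG := by decide +kernel
  sepC := by decide +kernel
  dl := by decide +kernel
  d1 := by decide +kernel
  d2 := by decide +kernel
  d3 := by decide +kernel
  d4 := by decide +kernel
  d5 := by decide +kernel
  nat := by decide +kernel
  muu := by decide +kernel
  etau := by decide +kernel
  ty := by decide +kernel
  ty2 := by decide +kernel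
  tD := by decide +kernel
  tC := by decide +kernel
  bqu := by decide +kernel
  al := by decide +kernel
  of := by decide +kernel
  kp := by decide +kernel
  kpu := by decide +kernel
  sepF := by decide +kernel
  sepF' := by decide +kernel
  con1 := by decide +kernel
  con2 := by decide +kernel
  conG := by decide +kernel
  conC := by decide +kernel

theorem b45_fn : b45.fn.Ok b45.id where
  AB := by decide +kernel
  chG := by decide +kernel
  chB := by decide +kernel
  bAB := by decide +kernel
  bη := by decide +kernel
  ηu := by decide +kernel
  wA := by constructor <;> decide +kernel
  wB := by constructor <;> decide +kernel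
  d1 := by decide +kernel
  sepA := by decide +kernel
  sepB := by decide +kernel
  sepG := by decide +kernel

end SqIns
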