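import Pool.Agent.Lib.SqIns.BaseT

/-!
# Base with 47 rows
-/

namespace SqIns

open RD

/-- base 47 -/
def b47 : BX where
  k := 47
  N := 2965972236573136499786948711139628805325332886533667126031527924978067400289339306896377960409710497234912699385654660409210898901574304193099325888601689910826804324350718743126381963591839168902276167058975230968
  odd := rfl
  ok := by decide +kernel
  pos i := 32212416668 / 1024 ^ i.val % 1024
  c n := 39518777297827611631731926105953061568767769025851896519883067873253531307097493419326070497000495863682793382002129402287532296178962470228858438308993892216825370066640117787518508925691629827298905426432616580506311862328819341370376272671123777194891694963243725101021669565268002 / 32 ^ n % 32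
  cs i := 53473568895492 / 64 ^ (4 * i.1.toNat + i.2.val) % 64
  sp := 5
  x n := 93485213 / 1024 ^ n % 1024
  g' := 24
  gi := 2
  J i n := 257048392234451216548042901806756442875979975864 / 1024 ^ (4 * i.val + n.val) % 1024
  L i e := 212624216957075008341176 / 1024 ^ (2 * i.val + e.toNat) % 1024
  d i e := 21930 / 4 ^ (2 * i.val + e.toNat) % 4
  ia := 1
  ib := 0
  id := 2
  iC := 3
  e := false
  f := true
  Jn := 184
  qu := 9
  pu := 0
  qv := 13
  mu := tb1 [(0, -8), (1, -2), (2, -4), (3, -6)]
  eta := tb1 [(0, 1), (1, 1), (2, 1), (3, 1)]
  bq := tb1 [(157, 1), (158, 1), (159, 2), (160, 2), (161, -2), (162, -2)]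
  del := tb2 [(0, 28, -1), (13, 27, 1), (13, 29, 1), (34, 158, 1)]
  off := tb2 [(34, 158, -4), (34, 160, -4), (34, 162, -4)]
  kap i := tb1 [(0, 1), (1, -4), (2, 1), (3, 1)] i.val

set_option maxRecDepth 100000 in
theorem b47_chk : b47.Chk where
  ok := by constructor <;> decide +kernel
  rok := by constructor <;> decide +kernel
  pu_o := by decide +kernel
  pu_i := by decide +kernel
  qv_o := by decide +kernel
  qv_i := by decide +kernel
  qu_o := by decide +kernel
  qu_i := by decide +kernel
  adjL := by decide +kernel
  adjC := by decide +kernel
  inf := by decide +kernel
  spd := by decide +kernel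
  sp0 := by decide +kernel
  csab := by decide +kernel
  quk := by decide +kernel
  puk := by decide +kernel
  qvk := by decide +kernel
  rne := by decide +kernel
  CD := by decide +kernel
  spD := by decide +kernel
  dA := by decide +kernel
  hcol := by decide +kernel
  sepG := by decide +kernel
  sepC := by decide +kernel
  dl := by decide +kernel
  d1 := by decide +kernel
  d2 := by decide +kernel
  d3 := by decide +kernel
  d4 := by decide +kernel
  d5 := by decide +kernel
  nat := by decide +kernel
  muu := by decide +kernel
  etau := by decide +kernel
  ty := by decide +kernel
  ty2 := by decide +kernel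
  tD := by decide +kernel
  tC := by decide +kernel
  bqu := by decide +kernel
  al := by decide +kernel
  of := by decide +kernel
  kp := by decide +kernel
  kpu := by decide +kernel
  sepF := by decide +kernel
  sepF' := by decide +kernel
  con1 := by decide +kernel
  con2 := by decide +kernel
  conG := by decide +kernel
  conC := by decide +kernel

theorem b47_fn : b47.fn.Ok b47.id where
  AB := by decide +kernel
  chG := by decide +kernel
  chB := by decide +kernel
  bAB := by decide +kernel
  bη := by decide +kernel
  ηu := by decide +kernel
  wA := by constructor <;> decide +kernel
  wB := by constructor <;> decide +kernel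
  d1 := by decide +kernel
  sepA := by decide +kernel
  sepB := by decide +kernel
  sepG := by decide +kernel

end SqIns
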