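import Pool.Agent.Lib.SqIns.Base

/-!
# The ring order of the families

The finite points are `v 0, …, v (4k-1)` with `v (j + 4) = v j + g`; the windows of the family free
every edge `v j v (j+1)`, `v j v (j+2)` exactly once.
-/

open Finset Equiv

namespace SqIns

/-- code of a translated point -/
def shc (k a c : ℕ) : ℕ := a / (2 * k) * (2 * k) + (a + c) % (2 * k)

theorem shc_lt {k : ℕ} (hk : 0 < k) {a : ℕ} (ha : a < 4 * k) (c : ℕ) : shc k a c < 4 * k := by
  unfold shc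
  rw [div_two hk ha]
  have := Nat.mod_lt (a + c) (by omega : 0 < 2 * k)
  rcases (decide (2 * k ≤ a)) with _ | _
  · simp only [Bool.toNat_false]; omega
  · simp only [Bool.toNat_true]; omega

theorem dcd_shc {k : ℕ} (hk : 0 < k) {a : ℕ} (ha : a < 4 * k) (c : ℕ) :
    dcd k (shc k a c) = tr (dcd k a) (c : ZMod (2 * k)) := by
  have h1 := Nat.mod_lt (a + c) (by omega : 0 < 2 * k)
  unfold tr dcd
  refine Prod.ext ?_ ?_
  · show decide (2 * k ≤ shc k a c) = decide (2 * k ≤ a)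
    unfold shc
    rw [div_two hk ha]
    by_cases h : 2 * k ≤ a
    · simp [h]
    · simp [h]
      omega
  · show ((shc k a c : ℕ) : ZMod (2 * k)) = (a : ZMod (2 * k)) + c
    unfold shc
    push_cast
    have h2 : ((2 * k : ℕ) : ZMod (2 * k)) = 0 := ZMod.natCast_self _
    push_cast at h2
    rw [h2, mul_zero, zero_add]
    have h3 : (((a + c) % (2 * k) : ℕ) : ZMod (2 * k)) = ((a + c : ℕ) : ZMod (2 * k)) :=
      ZMod.natCast_mod _ _
    rw [h3]
    push_cast
    ring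

/-- the code of the point number `m`, `1 ≤ m ≤ 4k` -/
def hcode (k N m : ℕ) : ℕ := if m ≤ 2 * k then yw k N (m - 1) else ht k (yw k N (4 * k - m))

theorem hcode_lt {k : ℕ} (hk : 0 < k) (N m : ℕ) : hcode k N m < 4 * k := by
  unfold hcode
  split_ifs
  · exact yw_lt hk _ _
  · exact ht_lt hk (yw_lt hk _ _)

theorem blk_hcode {k : ℕ} (N : ℕ) {m : ℕ} (hm : m ≠ 0) :
    blk k N m = some (dcd k (hcode k N m)) := by
  unfold blk hcode
  rw [if_neg hm]
  split_ifs <;> rfl

theorem tr_tr {k : ℕ} (a : Bool × ZMod (2 * k)) (c d : ZMod (2 * k)) :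
    tr (tr a c) d = tr a (c + d) := by
  refine Prod.ext rfl ?_
  show a.2 + c + d = a.2 + (c + d)
  ring

theorem tr_zero {k : ℕ} (a : Bool × ZMod (2 * k)) : tr a 0 = a := by
  refine Prod.ext rfl ?_
  show a.2 + 0 = a.2
  ring

/-- base data with a ring order: `x` codes of the first four points, `g = 2 g'` the period, `gi` the
inverse of `g'` modulo `k`, `J` the ring indices of the window columns in the row `0`, `L`, `d` the
lower ends and the lengths of the freed edges -/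
structure RD extends BD where
  x : ℕ → ℕ
  g' : ℕ
  gi : ℕ
  J : Fin 4 → Fin 4 → ℕ
  L : Fin 4 → Bool → ℕ
  d : Fin 4 → Bool → ℕ

namespace RD

variable (b : RD)

/-- code of the ring point number `j` -/
def rcode (j : ℕ) : ℕ := shc b.k (b.x (j % 4)) (2 * b.g' * (j / 4))

/-- lower and upper columns of the two edges -/
def lo (e : Bool) : Fin 4 := if e then 1 else 0

/-- lower and upper columns of the two edges -/
def hi (e : Bool) : Fin 4 := if e then 3 else 2

/-- number of the orbit of a freed edge -/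
def orb (p : Fin 4 × Bool) : ℕ := b.L p.1 p.2 % 4 + 4 * b.d p.1 p.2

/-- the checks for the ring order -/
structure ROk : Prop where
  xlt : ∀ t < 4, b.x t < 4 * b.k
  gg : b.g' * b.gi % b.k = 1 % b.k
  rmask : SqIns.mk b.rcode (4 * b.k) = 2 ^ (4 * b.k) - 1
  win : ∀ i n : Fin 4, hcode b.k b.N (b.pos i + 1 + n) = b.rcode (b.J i n)
  Jlt : ∀ i n : Fin 4, b.J i n < 4 * b.k
  cls : ∀ i m n : Fin 4, b.J i m % 4 = b.J i n % 4 → m = n
  dd : ∀ i e, b.d i e = 1 ∨ b.d i e = 2
  edge : ∀ i e, (b.J i (lo e) = b.L i e ∧ b.J i (hi e) = (b.L i e + b.d i e) % (4 * b.k)) ∨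
    (b.J i (hi e) = b.L i e ∧ b.J i (lo e) = (b.L i e + b.d i e) % (4 * b.k))
  orbi : ∀ p q : Fin 4 × Bool, b.orb p = b.orb q → p = q

instance : NeZero (4 * b.k) := ⟨by have := b.k_pos; omega⟩

/-- the ring point number `j` -/
def rgf (j : ZMod (4 * b.k)) : b.V := dcd b.k (b.rcode j.val)

variable {b}

theorem ROk.rcode_lt (h : b.ROk) (j : ℕ) : b.rcode j < 4 * b.k :=
  shc_lt b.k_pos (h.xlt _ (Nat.mod_lt _ (by norm_num))) _

theorem dcd_inj {k : ℕ} (hk : 0 < k) {a c : ℕ} (ha : a < 4 * k) (hc : c < 4 * k)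
    (h : dcd k a = dcd k c) : a = c := by
  have : NeZero (2 * k) := ⟨by omega⟩
  unfold dcd at h
  obtain ⟨h1, h2⟩ := Prod.ext_iff.1 h
  simp only at h1 h2
  rw [ZMod.natCast_eq_natCast_iff] at h2
  have h3 : a % (2 * k) = c % (2 * k) := h2
  by_cases h4 : 2 * k ≤ a
  · have h5 : 2 * k ≤ c := by
      by_contra h6
      rw [decide_eq_true h4, decide_eq_false h6] at h1
      exact absurd h1 (by decide)
    have e1 : a % (2 * k) = a - 2 * k := by
      rw [Nat.mod_eq_sub_mod h4, Nat.mod_eq_of_lt (by omega)]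
    have e2 : c % (2 * k) = c - 2 * k := by
      rw [Nat.mod_eq_sub_mod h5, Nat.mod_eq_of_lt (by omega)]
    omega
  · have h5 : ¬ 2 * k ≤ c := by
      intro h6
      rw [decide_eq_false h4, decide_eq_true h6] at h1
      exact absurd h1 (by decide)
    rw [Nat.mod_eq_of_lt (by omega), Nat.mod_eq_of_lt (by omega)] at h3
    exact h3

theorem ROk.bij (h : b.ROk) : Function.Bijective b.rgf := by
  have hsurj : ∀ c < 4 * b.k, ∃ j < 4 * b.k, b.rcode j = c := by
    intro c hc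
    refine exists_of_testBit_mk _ _ _ ?_
    rw [h.rmask, Nat.testBit_two_pow_sub_one, decide_eq_true_eq]
    exact hc
  rw [Fintype.bijective_iff_surjective_and_card]
  refine ⟨?_, ?_⟩
  · rintro ⟨t, y⟩
    have hy := ZMod.val_lt y
    have hc : y.val + 2 * b.k * t.toNat < 4 * b.k := by
      rcases t with _ | _
      · simp only [Bool.toNat_false]; omega
      · simp only [Bool.toNat_true]; omega
    obtain ⟨j, hj, hjc⟩ := hsurj _ hc
    refine ⟨(j : ZMod (4 * b.k)), ?_⟩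
    unfold rgf
    rw [ZMod.val_natCast, Nat.mod_eq_of_lt hj, hjc]
    unfold dcd
    refine Prod.ext ?_ ?_
    · rcases t with _ | _
      · simp only [Bool.toNat_false, mul_zero, add_zero]
        exact decide_eq_false (by omega)
      · simp only [Bool.toNat_true, mul_one]
        exact decide_eq_true (by omega)
    · show ((y.val + 2 * b.k * t.toNat : ℕ) : ZMod (2 * b.k)) = y
      rw [Nat.cast_add, Nat.cast_mul, ZMod.natCast_self, zero_mul, add_zero,
        ZMod.natCast_zmod_val]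
  · rw [ZMod.card, Fintype.card_prod, Fintype.card_bool, ZMod.card]
    ring

/-- the ring order -/
noncomputable def rg (h : b.ROk) : ZMod (4 * b.k) ≃ b.V := Equiv.ofBijective _ h.bij

variable (b)

/-- four times a residue -/
def e4 (c : ZMod b.k) : ZMod (4 * b.k) := ((4 * c.val : ℕ) : ZMod (4 * b.k))

theorem e4_add (c c' : ZMod b.k) : b.e4 (c + c') = b.e4 c + b.e4 c' := by
  unfold e4
  rw [← Nat.cast_add, ZMod.natCast_eq_natCast_iff, ZMod.val_add]
  show 4 * ((c.val + c'.val) % b.k) ≡ 4 * c.val + 4 * c'.val [MOD 4 * b.k]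
  rw [← mul_add]
  exact Nat.ModEq.mul_left' 4 (Nat.mod_modEq _ _)

theorem e4_zero : b.e4 0 = 0 := by
  unfold e4
  rw [ZMod.val_zero]
  simp

theorem e4_cast (n : ℕ) : b.e4 (n : ZMod b.k) = ((4 * n : ℕ) : ZMod (4 * b.k)) := by
  unfold e4
  rw [ZMod.natCast_eq_natCast_iff, ZMod.val_natCast]
  exact Nat.ModEq.mul_left' 4 (Nat.mod_modEq _ _)

theorem e2_cast (n : ℕ) : b.e2 (n : ZMod b.k) = ((2 * n : ℕ) : ZMod (2 * b.k)) := by
  unfold HT.e2
  rw [ZMod.natCast_eq_natCast_iff, ZMod.val_natCast]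
  exact Nat.ModEq.mul_left' 2 (Nat.mod_modEq _ _)

variable {b}

/-- value of the ring function at a natural number -/
theorem ROk.rgf_nat (h : b.ROk) (j : ℕ) : b.rgf (j : ZMod (4 * b.k)) = dcd b.k (b.rcode j) := by
  unfold rgf
  rw [ZMod.val_natCast]
  unfold rcode
  have hx := h.xlt _ (Nat.mod_lt j (by norm_num : 0 < 4))
  have h1 : j % (4 * b.k) % 4 = j % 4 := Nat.mod_mul_right_mod j 4 b.k
  have h2 : j % (4 * b.k) / 4 = j / 4 % b.k := Nat.mod_mul_right_div_self j 4 b.k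
  rw [h1, h2, dcd_shc b.k_pos hx, dcd_shc b.k_pos hx]
  congr 1
  rw [ZMod.natCast_eq_natCast_iff]
  show 2 * b.g' * (j / 4 % b.k) ≡ 2 * b.g' * (j / 4) [MOD 2 * b.k]
  rw [mul_assoc, mul_assoc]
  exact Nat.ModEq.mul_left' 2 (Nat.ModEq.mul_left _ (Nat.mod_modEq _ _))

theorem ROk.rgf_add4 (h : b.ROk) (j n : ℕ) : b.rgf ((j + 4 * n : ℕ) : ZMod (4 * b.k)) =
    tr (b.rgf (j : ZMod (4 * b.k))) ((2 * b.g' * n : ℕ) : ZMod (2 * b.k)) := by
  rw [h.rgf_nat, h.rgf_nat]
  unfold rcode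
  have hx := h.xlt _ (Nat.mod_lt j (by norm_num : 0 < 4))
  rw [Nat.add_mul_mod_self_left, Nat.add_mul_div_left _ _ (by norm_num), dcd_shc b.k_pos hx,
    dcd_shc b.k_pos hx, tr_tr]
  congr 1
  push_cast
  ring

/-- translation by `2 r` is translation of the ring index -/
theorem ROk.rgf_row (h : b.ROk) (j : ZMod (4 * b.k)) (r : ZMod b.k) :
    b.rgf (j + b.e4 (b.gi * r)) = tr (b.rgf j) (b.e2 r) := by
  have hj : j = ((j.val : ℕ) : ZMod (4 * b.k)) := (ZMod.natCast_zmod_val j).symm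
  have hr : r = ((r.val : ℕ) : ZMod b.k) := (ZMod.natCast_zmod_val r).symm
  have h1 : b.e4 (b.gi * r) = ((4 * (b.gi * r.val) : ℕ) : ZMod (4 * b.k)) := by
    rw [← b.e4_cast]
    congr 1
    rw [Nat.cast_mul, ← hr]
  rw [h1, hj, ← Nat.cast_add, h.rgf_add4, ← hj]
  congr 1
  rw [show b.e2 r = ((2 * r.val : ℕ) : ZMod (2 * b.k)) from rfl, ZMod.natCast_eq_natCast_iff]
  show 2 * b.g' * (b.gi * r.val) ≡ 2 * r.val [MOD 2 * b.k]
  rw [mul_assoc]
  refine Nat.ModEq.mul_left' 2 ?_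
  rw [← mul_assoc]
  have h2 : b.g' * b.gi ≡ 1 [MOD b.k] := h.gg
  calc b.g' * b.gi * r.val ≡ 1 * r.val [MOD b.k] := Nat.ModEq.mul_right _ h2
    _ = r.val := one_mul _

/-! ### Windows -/

theorem hcode_neg {k : ℕ} (hk : 0 < k) (N : ℕ) {m : ℕ} (h1 : 1 ≤ m) (h2 : m ≤ 4 * k) :
    dcd k (hcode k N (4 * k + 1 - m)) = tr (dcd k (hcode k N m)) (k : ZMod (2 * k)) := by
  unfold hcode
  by_cases h : m ≤ 2 * k
  · rw [if_pos h, if_neg (by omega), show 4 * k - (4 * k + 1 - m) = m - 1 by omega,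
      dcd_ht hk (yw_lt hk _ _)]
  · rw [if_neg h, if_pos (by omega), show 4 * k + 1 - m - 1 = 4 * k - m by omega,
      dcd_ht hk (yw_lt hk _ _), tr_k_k]

variable (b)

/-- the columns of the windows -/
def win (r : ZMod b.k) (i : WSys) (n : Fin 4) : b.V :=
  tr (dcd b.k (hcode b.k b.N (b.st i + n.val))) (b.e2 r)

/-- the ring order of the families -/
def rgF (fam : Bool) (j : ZMod (4 * b.k)) : b.V :=
  if fam then tr (b.rgf j) (b.k : ZMod (2 * b.k)) else b.rgf j

/-- the ring indices of the window columns in the row `0` -/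
def Jf (i : WSys) (n : Fin 4) : ℕ := if i.1 then b.J i.2 n.rev else b.J i.2 n

variable {b}

theorem pn_win (hok : b.Ok) (r : ZMod b.k) (i : WSys) (n : Fin 4) :
    b.pn r (b.st i + n.val) = some (b.win r i n) := by
  have h1 := hok.st_lt i
  have h2 := hok.one_le i
  have h3 := n.isLt
  unfold BD.pn HT.pt win
  rw [Equiv.trans_apply, b.e_nat (by omega), blk_hcode _ (by omega), trP_some]

theorem tr_comm {k : ℕ} (a : Bool × ZMod (2 * k)) (c d : ZMod (2 * k)) :
    tr (tr a c) d = tr (tr a d) c := by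
  rw [tr_tr, tr_tr, add_comm]

theorem ROk.rgF_row (h : b.ROk) (fam : Bool) (j : ZMod (4 * b.k)) (r : ZMod b.k) :
    b.rgF fam (j + b.e4 (b.gi * r)) = tr (b.rgF fam j) (b.e2 r) := by
  unfold rgF
  rw [h.rgf_row]
  cases fam
  · rfl
  · simp only [if_true]
    rw [tr_comm]

theorem ROk.win_eq (h : b.ROk) (hok : b.Ok) (r : ZMod b.k) (i : WSys) (n : Fin 4) :
    b.win r i n = b.rgF i.1 ((b.Jf i n : ZMod (4 * b.k)) + b.e4 (b.gi * r)) := by
  rw [h.rgF_row]
  unfold RD.win rgF Jf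
  obtain ⟨fam, i⟩ := i
  have hp := hok.posle i
  have hn := n.isLt
  cases fam
  · simp only [Bool.false_eq_true, if_false]
    rw [h.rgf_nat, ← h.win]
    rfl
  · simp only [if_true]
    rw [h.rgf_nat, ← h.win, ← hcode_neg b.k_pos _ (by omega) (by have := n.rev.isLt; omega)]
    congr 3
    show (if true = true then 4 * b.k - 3 - b.pos i else b.pos i + 1) + n.val = _
    rw [if_pos rfl, Fin.val_rev]
    omega

theorem ROk.rgF_inj (h : b.ROk) (fam : Bool) : Function.Injective (b.rgF fam) := by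
  intro i j hij
  unfold rgF at hij
  cases fam
  · exact h.bij.1 hij
  · simp only [if_true] at hij
    apply h.bij.1
    have h1 : tr (tr (b.rgf i) (b.k : ZMod (2 * b.k))) (b.k : ZMod (2 * b.k)) =
        tr (tr (b.rgf j) (b.k : ZMod (2 * b.k))) (b.k : ZMod (2 * b.k)) :=
      congrArg (fun a => tr a (b.k : ZMod (2 * b.k))) hij
    rwa [tr_k_k, tr_k_k] at h1

variable (b)

/-- reduction modulo 4 -/
def m4 : ZMod (4 * b.k) →+* ZMod 4 := ZMod.castHom (Dvd.intro _ rfl) (ZMod 4)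

theorem m4_e4 (c : ZMod b.k) : b.m4 (b.e4 c) = 0 := by
  unfold e4
  rw [map_natCast, Nat.cast_mul]
  have : ((4 : ℕ) : ZMod 4) = 0 := by decide
  rw [this, zero_mul]

theorem e4_inj : Function.Injective b.e4 := by
  intro c d h
  unfold e4 at h
  rw [ZMod.natCast_eq_natCast_iff] at h
  have h1 : c.val ≡ d.val [MOD b.k] := Nat.ModEq.mul_left_cancel' (by norm_num) h
  have h2 := ZMod.val_lt c
  have h3 := ZMod.val_lt d
  unfold Nat.ModEq at h1
  rw [Nat.mod_eq_of_lt h2, Nat.mod_eq_of_lt h3] at h1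
  exact ZMod.val_injective _ h1

theorem add_e4_inj {m n : ℕ} {c d : ZMod b.k}
    (h : (m : ZMod (4 * b.k)) + b.e4 c = (n : ZMod (4 * b.k)) + b.e4 d) : m % 4 = n % 4 := by
  have h1 := congrArg b.m4 h
  rw [map_add, map_add, b.m4_e4, b.m4_e4, add_zero, add_zero, map_natCast, map_natCast,
    ZMod.natCast_eq_natCast_iff] at h1
  exact h1

variable {b}

theorem ROk.gi_inj (h : b.ROk) : Function.Injective fun r : ZMod b.k => (b.gi : ZMod b.k) * r := by
  intro r s hrs
  have h1 : ((b.g' * b.gi : ℕ) : ZMod b.k) = ((1 : ℕ) : ZMod b.k) := by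
    rw [ZMod.natCast_eq_natCast_iff]
    exact h.gg
  push_cast at h1
  have h2 := congrArg (fun x => (b.g' : ZMod b.k) * x) hrs
  simp only at h2
  rw [← mul_assoc, ← mul_assoc, h1, one_mul, one_mul] at h2
  exact h2

/-- the columns of a window over all rows -/
theorem ROk.win_bij (h : b.ROk) (hok : b.Ok) (i : WSys) :
    Function.Bijective fun p : ZMod b.k × Fin 4 => b.win p.1 i p.2 := by
  rw [Fintype.bijective_iff_injective_and_card]
  refine ⟨?_, ?_⟩
  · rintro ⟨r, n⟩ ⟨r', n'⟩ hrn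
    simp only [h.win_eq hok] at hrn
    have h1 := h.rgF_inj _ hrn
    have h2 := b.add_e4_inj h1
    have h3 : n = n' := by
      unfold Jf at h2
      obtain ⟨fam, i⟩ := i
      cases fam
      · exact h.cls _ _ _ h2
      · exact Fin.rev_injective (h.cls _ _ _ h2)
    subst h3
    have h4 := b.e4_inj (add_left_cancel h1)
    rw [h.gi_inj h4]
  · rw [Fintype.card_prod, ZMod.card, Fintype.card_fin, Fintype.card_prod, Fintype.card_bool,
      ZMod.card]
    ring

/-- indices `t + 4 c` -/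
theorem ring_bij : Function.Bijective fun p : Fin 4 × ZMod b.k =>
    ((p.1.val : ℕ) : ZMod (4 * b.k)) + b.e4 p.2 := by
  rw [Fintype.bijective_iff_injective_and_card]
  refine ⟨?_, ?_⟩
  · rintro ⟨t, c⟩ ⟨t', c'⟩ h
    simp only at h
    have h2 := b.add_e4_inj h
    have h3 : t = t' := by
      apply Fin.ext
      rwa [Nat.mod_eq_of_lt t.isLt, Nat.mod_eq_of_lt t'.isLt] at h2
    subst h3
    rw [b.e4_inj (add_left_cancel h)]
  · rw [Fintype.card_prod, ZMod.card, Fintype.card_fin, ZMod.card]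

section Sum

variable {A : Type*} [AddCommMonoid A]

/-- shift of the sum over a class of indices -/
theorem sum_class (F : ZMod (4 * b.k) → A) (m : ℕ) :
    ∑ c : ZMod b.k, F ((m : ZMod (4 * b.k)) + b.e4 c) =
      ∑ c : ZMod b.k, F (((m % 4 : ℕ) : ZMod (4 * b.k)) + b.e4 c) := by
  rw [← Equiv.sum_comp (Equiv.addLeft ((m / 4 : ℕ) : ZMod b.k))
    (fun c => F (((m % 4 : ℕ) : ZMod (4 * b.k)) + b.e4 c))]
  refine sum_congr rfl fun c _ => ?_
  show _ = F (_ + b.e4 (((m / 4 : ℕ) : ZMod b.k) + c))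
  rw [b.e4_add, b.e4_cast, ← add_assoc, ← Nat.cast_add, Nat.mod_add_div]

theorem ROk.edges_sum (h : b.ROk) (hok : b.Ok) (f : b.V → b.V → A) (hf : ∀ x y, f x y = f y x)
    (fam : Bool) : ∑ r : ZMod b.k, ∑ i : Fin 4,
      (f (b.win r (fam, i) 0) (b.win r (fam, i) 2) +
        f (b.win r (fam, i) 1) (b.win r (fam, i) 3)) =
    ∑ j : ZMod (4 * b.k), (f (b.rgF fam j) (b.rgF fam (j + 1)) +
      f (b.rgF fam j) (b.rgF fam (j + 2))) := by
  let F : ℕ → ZMod (4 * b.k) → A := fun d j => f (b.rgF fam j) (b.rgF fam (j + d))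
  -- one edge
  have h1 : ∀ (r : ZMod b.k) (i : Fin 4) (e : Bool),
      f (b.rgF fam ((b.J i (lo e) : ZMod (4 * b.k)) + b.e4 (b.gi * r)))
        (b.rgF fam ((b.J i (hi e) : ZMod (4 * b.k)) + b.e4 (b.gi * r))) =
      F (b.d i e) ((b.L i e : ZMod (4 * b.k)) + b.e4 (b.gi * r)) := by
    intro r i e
    have hm : (((b.L i e + b.d i e) % (4 * b.k) : ℕ) : ZMod (4 * b.k)) =
        (b.L i e : ZMod (4 * b.k)) + b.d i e := by
      rw [ZMod.natCast_mod, Nat.cast_add]
    rcases h.edge i e with ⟨e1, e2⟩ | ⟨e1, e2⟩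
    · rw [e1, e2, hm]
      show _ = f _ (b.rgF fam (_ + _))
      rw [add_right_comm]
    · rw [e1, e2, hm, hf]
      show _ = f _ (b.rgF fam (_ + _))
      rw [add_right_comm]
  have h2 : ∀ (r : ZMod b.k) (i : Fin 4),
      f (b.win r (fam, i) 0) (b.win r (fam, i) 2) + f (b.win r (fam, i) 1) (b.win r (fam, i) 3) =
      ∑ e : Bool, F (b.d i e) ((b.L i e : ZMod (4 * b.k)) + b.e4 (b.gi * r)) := by
    intro r i
    rw [Fintype.sum_bool, ← h1, ← h1]
    simp only [h.win_eq hok]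
    cases fam
    · rw [add_comm]
      rfl
    · rw [hf (b.rgF _ _) (b.rgF _ _)]
      nth_rw 2 [hf (b.rgF _ _) (b.rgF _ _)]
      rfl
  have h3 : ∑ r : ZMod b.k, ∑ i : Fin 4,
      (f (b.win r (fam, i) 0) (b.win r (fam, i) 2) +
        f (b.win r (fam, i) 1) (b.win r (fam, i) 3)) =
      ∑ p : Fin 4 × Bool, ∑ c : ZMod b.k,
        F (b.d p.1 p.2) (((b.L p.1 p.2 % 4 : ℕ) : ZMod (4 * b.k)) + b.e4 c) := by
    rw [sum_congr rfl fun r _ => sum_congr rfl fun i _ => h2 r i]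
    rw [sum_congr rfl fun (r : ZMod b.k) _ => (Fintype.sum_prod_type' (fun (i : Fin 4) (e : Bool) =>
      F (b.d i e) ((b.L i e : ZMod (4 * b.k)) + b.e4 (b.gi * r)))).symm]
    rw [sum_comm]
    refine sum_congr rfl fun p _ => ?_
    rw [← sum_class]
    exact (Finite.injective_iff_bijective.1 h.gi_inj).sum_comp
      (fun c => F (b.d p.1 p.2) ((b.L p.1 p.2 : ZMod (4 * b.k)) + b.e4 c))
  rw [h3]
  -- the orbits
  let o : Fin 4 × Bool → Fin 4 × Bool := fun p =>
    (⟨b.L p.1 p.2 % 4, Nat.mod_lt _ (by norm_num)⟩, decide (b.d p.1 p.2 = 2))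
  have ho : Function.Injective o := by
    intro p q hpq
    have e1 : b.L p.1 p.2 % 4 = b.L q.1 q.2 % 4 := congrArg (fun t => t.1.val) hpq
    have e2 : decide (b.d p.1 p.2 = 2) = decide (b.d q.1 q.2 = 2) := congrArg Prod.snd hpq
    apply h.orbi
    unfold orb
    have e3 : b.d p.1 p.2 = b.d q.1 q.2 := by
      rw [decide_eq_decide] at e2
      rcases h.dd p.1 p.2 with d1 | d1 <;> rcases h.dd q.1 q.2 with d2 | d2 <;> omega
    rw [e1, e3]
  have hd : ∀ p : Fin 4 × Bool, b.d p.1 p.2 = if (o p).2 then 2 else 1 := by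
    intro p
    show _ = if decide (b.d p.1 p.2 = 2) = true then 2 else 1
    rcases h.dd p.1 p.2 with d1 | d1 <;> rw [d1] <;> simp
  have h4 : ∑ p : Fin 4 × Bool, ∑ c : ZMod b.k,
      F (b.d p.1 p.2) (((b.L p.1 p.2 % 4 : ℕ) : ZMod (4 * b.k)) + b.e4 c) =
      ∑ q : Fin 4 × Bool, ∑ c : ZMod b.k,
        F (if q.2 then 2 else 1) (((q.1.val : ℕ) : ZMod (4 * b.k)) + b.e4 c) := by
    rw [← (Finite.injective_iff_bijective.1 ho).sum_comp (fun q : Fin 4 × Bool =>
      ∑ c : ZMod b.k, F (if q.2 then 2 else 1) (((q.1.val : ℕ) : ZMod (4 * b.k)) + b.e4 c))]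
    refine sum_congr rfl fun p _ => ?_
    rw [hd p]
  rw [h4, Fintype.sum_prod_type_right, Fintype.sum_bool, sum_add_distrib, add_comm]
  congr 1
  · rw [← Fintype.sum_prod_type' (fun (t : Fin 4) (c : ZMod b.k) =>
      F (if false = true then 2 else 1) (((t.val : ℕ) : ZMod (4 * b.k)) + b.e4 c))]
    rw [ring_bij.sum_comp (fun j => F (if false = true then 2 else 1) j)]
    refine sum_congr rfl fun j _ => ?_
    show f _ (b.rgF fam (j + ((1 : ℕ) : ZMod (4 * b.k)))) = _
    rw [Nat.cast_one]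
  · rw [← Fintype.sum_prod_type' (fun (t : Fin 4) (c : ZMod b.k) =>
      F (if true = true then 2 else 1) (((t.val : ℕ) : ZMod (4 * b.k)) + b.e4 c))]
    rw [ring_bij.sum_comp (fun j => F (if true = true then 2 else 1) j)]
    refine sum_congr rfl fun j _ => ?_
    show f _ (b.rgF fam (j + ((2 : ℕ) : ZMod (4 * b.k)))) = _
    rw [Nat.cast_ofNat]

end Sum

end RD

end SqIns
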