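import Pool.Agent.Lib.SqIns.FNat

/-!
# The classes of a table by tracks
-/

open Finset Equiv

namespace SqIns

open Tw

/-- classes of the strip by track -/
def clC (m p : ℕ) (ε : ℤ) (C2 : List (List ℕ)) (c : ℕ) : Finset (ZMod m) :=
  (C2.getD (c % p) []).toFinset.image fun k : ℕ => (ε : ZMod m) ^ c * (k : ZMod m)

/-- the classes of the tracks `c`, `c'` are negatives of each other up to the translation `t` -/
def chkN (m p : ℕ) (ε : ℤ) (C2 : List (List ℕ)) (c c' t : ℕ) : Bool :=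
  decide ((C2.getD (c' % p) []).length ≤ (C2.getD (c % p) []).length) &&
  (C2.getD (c % p) []).all fun k =>
    (C2.getD (c' % p) []).contains ((ε ^ c' * ((t : ℤ) - ε ^ c * (k : ℤ))) % (m : ℤ)).toNat

section Cls

variable {m p : ℕ} [NeZero m] [NeZero p] {ε : ℤ}

theorem eps_unit (hε : ε * ε = 1) (c : ℕ) : (ε : ZMod m) ^ c * (ε : ZMod m) ^ c = 1 := by
  have h : (ε : ZMod m) * (ε : ZMod m) = 1 := by
    exact_mod_cast congrArg (Int.cast : ℤ → ZMod m) hε
  rw [← mul_pow, h, one_pow]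

theorem card_clC (hε : ε * ε = 1) {W : TWord} {C2 : List (List ℕ)}
    (h : chkT m p ε W C2 = true) (c : ℕ) :
    (clC m p ε C2 c).card = (C2.getD (c % p) []).length := by
  have hp : 0 < p := Nat.pos_of_ne_zero (NeZero.ne p)
  have hnd := chkT_nodup h (Nat.mod_lt c hp)
  have hlt := fun k => chkT_lt h (Nat.mod_lt c hp) (k := k)
  unfold clC
  rw [card_image_of_injOn, List.toFinset_card_of_nodup hnd]
  intro k hk k' hk' hkk
  have hk := List.mem_toFinset.1 hk
  have hk' := List.mem_toFinset.1 hk'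
  have h1 := congrArg ((ε : ZMod m) ^ c * ·) hkk
  simp only [← mul_assoc, eps_unit hε, one_mul] at h1
  rw [ZMod.natCast_eq_natCast_iff] at h1
  have h4 := hlt k hk
  have h5 := hlt k' hk'
  unfold Nat.ModEq at h1
  rwa [Nat.mod_eq_of_lt h4, Nat.mod_eq_of_lt h5] at h1

theorem clC_neg (hε : ε * ε = 1) {W : TWord} {C2 : List (List ℕ)}
    (h : chkT m p ε W C2 = true) {c c' t : ℕ} (hn : chkN m p ε C2 c c' t = true) :
    clC m p ε C2 c' = (clC m p ε C2 c).image fun z => (t : ZMod m) - z := by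
  simp only [chkN, Bool.and_eq_true, decide_eq_true_eq, List.all_eq_true] at hn
  symm
  refine eq_of_subset_of_card_le ?_ ?_
  · intro z hz
    obtain ⟨y, hy, rfl⟩ := mem_image.1 hz
    unfold clC at hy
    obtain ⟨k, hk, rfl⟩ := mem_image.1 hy
    have h1 := hn.2 k (List.mem_toFinset.1 hk)
    rw [List.contains_iff_mem] at h1
    unfold clC
    refine mem_image.2 ⟨_, List.mem_toFinset.2 h1, ?_⟩
    have hm : 0 < (m : ℤ) := by
      have := Nat.pos_of_ne_zero (NeZero.ne m)
      exact_mod_cast this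
    have e1 : ((((ε ^ c' * ((t : ℤ) - ε ^ c * (k : ℤ))) % (m : ℤ)).toNat : ℕ) : ZMod m) =
        (ε : ZMod m) ^ c' * ((t : ZMod m) - (ε : ZMod m) ^ c * (k : ZMod m)) := by
      have e2 : ((((ε ^ c' * ((t : ℤ) - ε ^ c * (k : ℤ))) % (m : ℤ)).toNat : ℕ) : ZMod m) =
          ((((ε ^ c' * ((t : ℤ) - ε ^ c * (k : ℤ))) % (m : ℤ)).toNat : ℤ) : ZMod m) := by
        push_cast
        rfl
      rw [e2, Int.toNat_of_nonneg (Int.emod_nonneg _ hm.ne')]
      have e3 := ZMod.intCast_mod (ε ^ c' * ((t : ℤ) - ε ^ c * (k : ℤ))) m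
      rw [e3]
      push_cast
      rfl
    rw [e1, ← mul_assoc, eps_unit hε, one_mul]
  · rw [card_image_of_injective _ fun x y hxy => sub_right_injective hxy, card_clC hε h,
      card_clC hε h]
    exact hn.1

variable {b : RD}

theorem clF_eq (hp : p ∣ 4) (hε : ε * ε = 1) (C2 : List (List ℕ)) (j : ZMod (4 * b.k)) :
    RD.clF b m p ε C2 j = clC m p ε C2 (b.trk j) := by
  unfold RD.clF clC
  have e1 : j.val % p = b.trk j % p := by
    unfold RD.trk
    rw [Nat.mod_mod_of_dvd _ hp]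
  have e2 : (sg m ε j : ZMod m) = (ε : ZMod m) ^ b.trk j := by
    unfold sg RD.trk
    have h4 : (ε : ZMod m) ^ 4 = 1 := by
      have := eps_unit (m := m) hε 2
      rw [← pow_add] at this
      exact this
    conv_lhs => rw [← Nat.div_add_mod j.val 4, pow_add, pow_mul, h4, one_pow, one_mul]
  rw [e1, e2]

variable {S : Type*} [CommRing S] [Fintype S] [DecidableEq S]

theorem prod_neg {A B : Finset (ZMod m)} {t : ZMod m} (h : B = A.image fun z => t - z) :
    B ×ˢ (univ : Finset S) = (A ×ˢ (univ : Finset S)).image fun z => ((t, 0) : ZMod m × S) - z := by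
  ext ⟨x, y⟩
  rw [mem_product, h, mem_image, mem_image]
  constructor
  · rintro ⟨⟨z, hz, rfl⟩, -⟩
    refine ⟨(z, -y), mem_product.2 ⟨hz, mem_univ _⟩, ?_⟩
    refine Prod.ext rfl ?_
    show (0 : S) - -y = y
    ring
  · rintro ⟨⟨z, w⟩, hz, hzw⟩
    have h1 := (Prod.ext_iff.1 hzw).1
    exact ⟨⟨z, (mem_product.1 hz).1, h1⟩, mem_univ _⟩

end Cls

end SqIns
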