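import Pool.Agent.Lib.SqIns.BaseK2
import Pool.Agent.Lib.SqIns.FCls

/-!
# Bases with colours and general classes

The step for a checked base with arbitrary classes of the strip, through `free_nat`.
-/

open Finset Equiv

namespace SqIns

namespace BX

open RD

/-- the chain of the windows of type 2 -/
def fn (b : BX) : FN b.toRD where
  iA := b.ia
  iB := b.ib
  ic := b.iC
  dir := !b.e
  η := b.eta
  bA n := b.bq (b.st (false, b.ia) + n.val)
  bB n := b.bq (b.st (false, b.ib) + n.val)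

/-- labels of the windows of `F` -/
def Kn {R : Type*} [CommRing R] [Fintype R] [DecidableEq R] (b : BX) (clc : ℕ → Finset R)
    (i : Fin 4) : Finset R :=
  if i = b.ia then Kw b.toRD b.ia b.fn.bA clc else
    if i = b.ib then Kw b.toRD b.ib b.fn.bB clc else univ

variable {b : BX} {R : Type*} [CommRing R] [Fintype R] [DecidableEq R] {W : Type*} [Fintype W]
  [DecidableEq W] (h : b.Chk) (hf : b.fn.Ok b.id)
  (h2 : IsUnit (2 : R)) (h3 : IsUnit (3 : R)) (hg : ∀ y : R, ∃ j : ℕ, j • (1 : R) = y)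

include h hf in
theorem id_ne : b.id ≠ b.ia ∧ b.id ≠ b.ib := by
  have h1 := h.tD
  constructor
  · intro h2
    have h3 := hf.wA.d2 false
    rw [show b.fn.iA = b.ia from rfl, ← h2, h1] at h3
    exact absurd h3 (by norm_num)
  · intro h2
    have h3 := hf.wB.d2 false
    rw [show b.fn.iB = b.ib from rfl, ← h2, h1] at h3
    exact absurd h3 (by norm_num)

include h hf in
theorem iC_ne : b.iC ≠ b.ia ∧ b.iC ≠ b.ib := by
  have h1 := h.tC
  constructor
  · intro h2
    have h3 := hf.wA.d2 false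
    rw [show b.fn.iA = b.ia from rfl, ← h2, h1] at h3
    exact absurd h3 (by norm_num)
  · intro h2
    have h3 := hf.wB.d2 false
    rw [show b.fn.iB = b.ib from rfl, ← h2, h1] at h3
    exact absurd h3 (by norm_num)

/-- **The step for a checked base, general classes.** -/
theorem step5 [Nontrivial R] (cl : ZMod (4 * b.k) → Finset R) (clc : ℕ → Finset R)
    (hcl : ∀ j, cl j = clc (b.trk j)) (τA τB : R)
    (hnA : clc (b.L b.ia true % 4) = (clc (b.L b.ia false % 4)).image fun z => τA - z)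
    (hnB : clc (b.L b.ib true % 4) = (clc (b.L b.ib false % 4)).image fun z => τB - z)
    (hc : 5 < Fintype.card ((Option b.V × R) ⊕ W))
    {TF : Type*} [Fintype TF] [DecidableEq TF] (A2 : Finset R) (σ : W → WSys)
    (hcD : #(univ.filter fun w => σ w = (false, b.id)) = Fintype.card R)
    (hcC : #(univ.filter fun w => σ w = (false, b.iC)) = Fintype.card R)
    (hcA : #(univ.filter fun w => σ w = (false, b.ia)) = #(clc (b.L b.ia false % 4)))
    (hcB : #(univ.filter fun w => σ w = (false, b.ib)) = #(clc (b.L b.ib false % 4)))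
    (hcG : ∀ i, #(univ.filter fun w => σ w = (true, i)) = #A2)
    (lt : Fin 4 → R → W) (hσl : ∀ n, ∀ s ∈ A2, σ (lt n s) = b.t.sy n)
    (hil : ∀ n, ∀ s ∈ A2, ∀ s' ∈ A2, lt n s = lt n s' → s = s')
    (OF : TF → Perm (b.V × R)) (hOFc : ∀ j, Closed (OF j))
    (hOF : ∑ j, E (OF j) = vertAll b.V R +
      push (fib (thF h2 h3 h.rok b.fn.η hf.ηu)) (stripE false cl))
    (S : TF ⊕ {s // s ∈ A2} → Perm (R ⊕ W)) (hSc : ∀ j, Closed (S j))
    (hS : ∑ j, E (S j) = allPairs (R ⊕ W)) (yv : R → R)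
    (hyv : ∀ s ∈ A2, ∀ s' ∈ A2, yv s = yv s' → s = s')
    (hword : ∀ s : {s // s ∈ A2}, S (.inr s) (.inr (lt 0 s)) = .inr (lt 1 s) ∧
      S (.inr s) (.inr (lt 1 s)) = .inr (lt 2 s) ∧ S (.inr s) (.inr (lt 2 s)) = .inl (yv s))
    (F : C1.FS b.toRD R W TF) (hF : C1.FOk0 b.t F σ OF (fun j => S (.inl j))) :
    ∃ (Φ : ZMod b.k → Option b.V → Perm R) (κ : ZMod b.k → W → R)
      (hσ : ∀ r, Function.Injective fun w => (σ w, κ r w)) (π : R → Perm W)
      (s : (ZMod b.k × R) ⊕ (TF ⊕ {s // s ∈ A2}) → Perm ((Option b.V × R) ⊕ W)), Dec s ∧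
      (∀ r l x y x' y', C1.Quiet1 b.t r x → C1.Quiet1 b.t r x' →
        (b.row h.ok h2 h3 hg r).fullπ (hσ r) (Φ r) (π l) l (.inl (x, y)) = .inl (x', y') →
        s (.inl (r, l)) (.inl (x, y)) = .inl (x', y')) ∧
      (∀ j x, x ≠ (C1.fplace b.t F j).q → x ≠ (C1.fplace b.t F j).x₀ →
        s (.inr (.inl j)) x = two (OF j) (S (.inl j)) x) ∧
      (∀ (j : {s // s ∈ A2}) x,
        x ≠ (b.t.place (b.μ R) (lt 0) (lt 1) (lt 2) yv j.val).q →
        x ≠ (b.t.place (b.μ R) (lt 0) (lt 1) (lt 2) yv j.val).x₀ →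
        s (.inr (.inr j)) x = two (stO h.rok true (b.μ R) (h.hμ h2 h3) b.t.w j.val)
          (S (.inr j)) x) := by
  classical
  obtain ⟨Φ', hΦ1, hΦ2⟩ := free_nat h.ok h2 h3 hg h.rok b.fn b.id hf cl clc hcl τA τB hnA hnB
    (Φ₀ h R) (fun r n => b.μ R (b.Jf (true, b.iC) n % 4) * b.δ R r b.iC n)
    (fun r n y => Φ₀_G h h2 h3 r b.iC n y)
  have hid := id_ne h hf
  have hiC := iC_ne h hf
  have hab : b.ia ≠ b.ib := hf.AB
  have hd1 : ∀ i, i ≠ b.ia → i ≠ b.ib → i = b.id ∨ i = b.iC := by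
    intro i h4 h5
    have h6 := hid.1
    have h7 := hid.2
    have h8 := hiC.1
    have h9 := hiC.2
    have h10 := h.CD
    revert h4 h5 h6 h7 h8 h9 h10 hab
    generalize b.ia = x1
    generalize b.ib = x2
    generalize b.id = x3
    generalize b.iC = x4
    revert i x1 x2 x3 x4
    decide
  refine C1.step3 h.ok h2 h3 hg h.rok h.ok4 hc A2 σ (fun _ i => b.Kn clc i) ?_ ?_ ?_ hcG
    Φ' (b.μ R) (h.hμ h2 h3) (b.δ R) h.dOk h.hnat ?_ ?_ lt hσl hil OF hOFc
    (push (fib (thF h2 h3 h.rok b.fn.η hf.ηu)) (stripE false cl)) hOF ?_ S hSc hS yv hyv hword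
    F hF
  · intro r
    show b.Kn clc b.id = univ
    unfold Kn
    rw [if_neg hid.1, if_neg hid.2]
  · intro r
    show b.Kn clc b.iC = univ
    unfold Kn
    rw [if_neg hiC.1, if_neg hiC.2]
  · intro r i
    show _ = #(b.Kn clc i)
    unfold Kn
    by_cases h4 : i = b.ia
    · subst h4
      rw [if_pos rfl, hcA]
      exact (card_Kw _ _ _ hf.wA.sl h2 h3).symm
    · rw [if_neg h4]
      by_cases h5 : i = b.ib
      · subst h5
        rw [if_pos rfl, hcB]
        exact (card_Kw _ _ _ hf.wB.sl h2 h3).symm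
      · rw [if_neg h5]
        rcases hd1 i h4 h5 with rfl | rfl
        · rw [hcD]
          rfl
        · rw [hcC]
          rfl
  · intro r i n y
    rw [hΦ1 r _ fun m => C1.win_ne_of h.ok r (Ne.symm (hf.sepG i m n))]
    exact Φ₀_G h h2 h3 r i n y
  · intro r n y
    have h4 := hf.wA.d2 false
    show Φ' r (b.win r (false, b.iC) n) y = y
    rw [hΦ1 r _ fun m => C1.win_ne_of h.ok r (h.sepF' _ n m h4)]
    exact Φ₀_C h r n y
  · intro Φ hΦ
    exact hΦ2 Φ hΦ

end BX

end SqIns
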