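import Pool.Agent.Lib.SqIns.StripTw2

/-!
# Dense strips: verticals and full classes
-/

open Finset Equiv

namespace SqIns

namespace Tw

section Vert

variable {m : ℕ} [NeZero m]

theorem sum_range_zmod {A : Type*} [AddCommMonoid A] (f : ZMod m → A) :
    ∑ k ∈ range m, f (k : ZMod m) = ∑ d : ZMod m, f d := by
  rw [← sum_val fun k => f (k : ZMod m)]
  refine sum_congr rfl fun d _ => ?_
  rw [ZMod.natCast_zmod_val]

/-- a sum over the nonzero residues, in pairs `± d` -/
theorem sum_pairs {A : Type*} [AddCommMonoid A] (hm : m % 2 = 1) (f : ZMod m → A) :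
    ∑ d : ZMod m, f d = f 0 +
      ∑ d ∈ range ((m - 1) / 2), (f ((d + 1 : ℕ) : ZMod m) + f (-((d + 1 : ℕ) : ZMod m))) := by
  obtain ⟨h, rfl⟩ : ∃ h, m = 2 * h + 1 := ⟨m / 2, by omega⟩
  have e0 : (2 * h + 1 - 1) / 2 = h := by omega
  rw [e0, ← sum_range_zmod, sum_range_succ', add_comm]
  have e1 : ∑ k ∈ range (2 * h), f ((k + 1 : ℕ) : ZMod (2 * h + 1)) =
      ∑ d ∈ range h, (f ((d + 1 : ℕ) : ZMod (2 * h + 1)) +
        f (-((d + 1 : ℕ) : ZMod (2 * h + 1)))) := by
    have e2 : range (2 * h) = range (h + h) := by rw [two_mul]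
    rw [e2, sum_range_add, sum_add_distrib]
    congr 1
    rw [← sum_range_reflect]
    refine sum_congr rfl fun i hi => ?_
    have hi' := mem_range.1 hi
    congr 1
    have h1 : h + (h - 1 - i) + 1 + (i + 1) = 2 * h + 1 := by omega
    have h2 : ((h + (h - 1 - i) + 1 : ℕ) : ZMod (2 * h + 1)) + ((i + 1 : ℕ) : ZMod (2 * h + 1)) =
        0 := by
      rw [← Nat.cast_add, h1, ZMod.natCast_self]
    exact eq_neg_of_add_eq_zero_left h2
  rw [e1, Nat.cast_zero]

variable {X : Type*} [DecidableEq X]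

theorem clsE_zero (c : X) : Row.clsE c c (0 : ZMod m) = 0 := by
  unfold Row.clsE
  refine sum_eq_zero fun y _ => ?_
  rw [add_zero, pr_self]

theorem two_vert (hm : m % 2 = 1) (c : X) {u : ZMod m} (hu : IsUnit u) :
    (2 : ℤ) • ∑ d ∈ range ((m - 1) / 2), Row.clsE c c (u * ((d + 1 : ℕ) : ZMod m)) =
      ∑ d : ZMod m, Row.clsE c c d := by
  have hb : Function.Bijective fun d : ZMod m => u * d :=
    Finite.injective_iff_bijective.1 fun a b h => hu.mul_left_cancel h
  rw [← hb.sum_comp fun d => Row.clsE c c d, sum_pairs hm, mul_zero, clsE_zero, zero_add, smul_sum]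
  refine sum_congr rfl fun d _ => ?_
  rw [two_smul]
  congr 1
  rw [mul_neg, clsE_symm]

omit [DecidableEq X] in
theorem two_vertAll (X' : Type*) [DecidableEq X'] [Fintype X'] :
    (2 : ℤ) • vertAll X' (ZMod m) = ∑ c : X', ∑ d : ZMod m, Row.clsE c c d := by
  funext e
  induction e with
  | _ a b =>
    obtain ⟨a, y⟩ := a
    obtain ⟨b, z⟩ := b
    simp only [Pi.smul_apply, Finset.sum_apply, Row.clsE, vertAll, Sym2.map_mk,
      Sym2.mk_isDiag_iff, Prod.mk.injEq, smul_eq_mul]
    have key : ∀ (c : X') (y' : ZMod m) (d : ZMod m),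
        pr (c, y') (c, y' + d) s((a, y), (b, z)) =
          (if (c = a ∧ a = b ∧ y ≠ z) ∧ (y' = y ∧ d = z - y) then 1 else 0) +
          (if (c = a ∧ a = b ∧ y ≠ z) ∧ (y' = z ∧ d = y - z) then 1 else 0) := by
      intro c y' d
      rw [pr_apply]
      by_cases hab : c = a ∧ a = b ∧ y ≠ z
      · obtain ⟨rfl, rfl, hyz⟩ := hab
        by_cases h1 : y' = y ∧ d = z - y
        · obtain ⟨rfl, rfl⟩ := h1
          have h2 : ¬ (y' = z ∧ z - y' = y' - z) := fun h => hyz h.1
          rw [if_pos (by simp; exact fun h => hyz h),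
            if_pos (by simp [hyz]), if_neg (by simp [hyz]), add_zero]
        · by_cases h2 : y' = z ∧ d = y - z
          · obtain ⟨rfl, rfl⟩ := h2
            rw [if_pos, if_neg (by rintro ⟨_, h3, _⟩; exact hyz h3.symm),
              if_pos ⟨⟨rfl, rfl, hyz⟩, rfl, rfl⟩, zero_add]
            refine ⟨?_, ?_⟩
            · simp only [ne_eq, Prod.mk.injEq, true_and]
              intro h
              have : y - y' = 0 := by linear_combination -h
              exact hyz (sub_eq_zero.1 this)
            · rw [Sym2.eq_swap, Sym2.eq_iff]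
              left
              refine ⟨rfl, ?_⟩
              rw [add_sub_cancel]
          · rw [if_neg, if_neg (fun h => h1 h.2), if_neg (fun h => h2 h.2), add_zero]
            rintro ⟨_, h3⟩
            rw [Sym2.eq_iff] at h3
            simp only [Prod.mk.injEq, true_and] at h3
            rcases h3 with ⟨h4, h5⟩ | ⟨h4, h5⟩
            · exact h1 ⟨h4.symm, by rw [h5, h4]; ring⟩
            · exact h2 ⟨h5.symm, by rw [h4, h5]; ring⟩
      · rw [if_neg, if_neg (fun h => hab h.1), if_neg (fun h => hab h.1), add_zero]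
        rintro ⟨h2, h3⟩
        apply hab
        rw [Sym2.eq_iff] at h3
        simp only [Prod.mk.injEq] at h3
        rcases h3 with ⟨⟨h4, h5⟩, h6, h7⟩ | ⟨⟨h4, h5⟩, h6, h7⟩
        · refine ⟨h4.symm, by rw [h4, h6], fun h => h2 ?_⟩
          rw [← h7, ← h5, h]
        · refine ⟨h4.symm, by rw [h4, h6], fun h => h2 ?_⟩
          rw [← h5, ← h7, h]
    simp only [key, sum_add_distrib]
    by_cases hab : a = b ∧ y ≠ z
    · obtain ⟨rfl, hyz⟩ := hab
      rw [if_pos ⟨rfl, by simp [hyz]⟩]
      rw [sum_eq_single a, sum_eq_single (z - y), sum_eq_single y, if_pos ⟨⟨rfl, rfl, hyz⟩, rfl, rfl⟩]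
      · rw [sum_eq_single a, sum_eq_single (y - z), sum_eq_single z,
          if_pos ⟨⟨rfl, rfl, hyz⟩, rfl, rfl⟩]
        · norm_num
        · intro y' _ hy'
          rw [if_neg (fun h => hy' h.2.1)]
        · simp
        · intro d _ hd
          exact sum_eq_zero fun y' _ => by rw [if_neg (fun h => hd h.2.2)]
        · simp
        · intro c _ hc
          exact sum_eq_zero fun d _ => sum_eq_zero fun y' _ => by rw [if_neg (fun h => hc h.1.1)]
        · simp
      · intro y' _ hy'
        rw [if_neg (fun h => hy' h.2.1)]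
      · simp
      · intro d _ hd
        exact sum_eq_zero fun y' _ => by rw [if_neg (fun h => hd h.2.2)]
      · simp
      · intro c _ hc
        exact sum_eq_zero fun d _ => sum_eq_zero fun y' _ => by rw [if_neg (fun h => hc h.1.1)]
      · simp
    · rw [if_neg (by
        rintro ⟨h1, h2⟩
        exact hab ⟨h1, fun h => h2 ⟨h1, h⟩⟩)]
      rw [mul_zero, sum_eq_zero, sum_eq_zero, add_zero]
      · intro c _
        exact sum_eq_zero fun d _ => sum_eq_zero fun y' _ => by
          rw [if_neg (fun h => hab ⟨h.1.2.1, h.1.2.2⟩)]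
      · intro c _
        exact sum_eq_zero fun d _ => sum_eq_zero fun y' _ => by
          rw [if_neg (fun h => hab ⟨h.1.2.1, h.1.2.2⟩)]

end Vert

section Total

variable {m p B : ℕ} [NeZero m] [NeZero p] [NeZero B] {ε : ℤ}

theorem vert_sum (hm : m % 2 = 1) (hε : ε * ε = 1) :
    ∑ c : ZMod (p * B), ∑ d ∈ range ((m - 1) / 2), Gc ε 0 ((d + 1 : ℕ) : ZMod m) c =
      vertAll (ZMod (p * B)) (ZMod m) := by
  have h1 := two_vertAll (m := m) (ZMod (p * B))
  have h2 : (2 : ℤ) • ∑ c : ZMod (p * B), ∑ d ∈ range ((m - 1) / 2),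
      Gc ε 0 ((d + 1 : ℕ) : ZMod m) c = (2 : ℤ) • vertAll (ZMod (p * B)) (ZMod m) := by
    rw [h1, smul_sum]
    refine sum_congr rfl fun c _ => ?_
    rw [← two_vert hm c (sg_unit hε c)]
    congr 1
    refine sum_congr rfl fun d _ => ?_
    unfold Gc
    rw [Int.cast_zero, add_zero]
  funext e
  have h3 := congrFun h2 e
  simp only [Pi.smul_apply, smul_eq_mul] at h3
  omega

theorem full_sum (hε : ε * ε = 1) (Δ : ℤ) (c : ZMod (p * B)) :
    ∑ k ∈ range m, Gc ε Δ (k : ZMod m) c =
      ∑ δ : ZMod m, Row.clsE c (c + (Δ : ZMod (p * B))) δ := by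
  have hb : Function.Bijective fun d : ZMod m => sg m ε c * d :=
    Finite.injective_iff_bijective.1 fun a b h => (sg_unit hε c).mul_left_cancel h
  rw [← hb.sum_comp fun δ => Row.clsE c (c + (Δ : ZMod (p * B))) δ]
  exact sum_range_zmod fun d => Row.clsE c (c + (Δ : ZMod (p * B))) (sg m ε c * d)

/-- **The edges of a dense strip**: all verticals, everything at distance one, the classes `± C2` at
distance two. -/
theorem sum_E_dense (hm : m % 2 = 1) (hε : ε * ε = 1) (hN : ε ^ (p * B) = 1) {W : TWord}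
    {C2 : List (List ℕ)} (h : chkT m p ε W C2 = true) (hok : okT m p W = true) :
    ∑ x : ZMod m, E (tsq (B := B) hε hok x) = vertAll (ZMod (p * B)) (ZMod m) +
      ∑ c : ZMod (p * B), ((∑ δ : ZMod m, Row.clsE c (c + 1) δ) +
          ((C2.getD (c.val % p) []).map fun k : ℕ => Gc ε 2 (k : ZMod m) c).sum) := by
  rw [sum_E_strip hε hN h hok, sum_add_distrib, vert_sum hm hε]
  congr 1
  refine sum_congr rfl fun c _ => ?_
  rw [full_sum hε]
  push_cast
  rfl

end Total

end Tw

end SqIns
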