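import Pool.Agent.Lib.SqIns.StraightG
import Pool.Agent.Lib.SqIns.StripTw3

/-!
# The freed edges of a dense family

The windows of the family `F` free all edges between neighbouring columns of the ring (type 1, all
labels) and the classes `cl j` between the columns `j` and `j + 2` (type 2, some labels).
-/

open Finset Equiv

namespace SqIns

section All

variable {X R : Type*} [CommRing R] [Fintype R] [DecidableEq X] [DecidableEq R]

/-- all pairs between two columns -/
def allE (R : Type*) [Fintype R] [DecidableEq R] (x x' : X) : Sym2 (X × R) → ℤ :=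
  ∑ y : R, ∑ z : R, pr (x, y) (x', z)

omit [CommRing R] in
theorem allE_symm (x x' : X) : allE R x x' = allE R x' x := by
  unfold allE
  rw [sum_comm]
  exact sum_congr rfl fun y _ => sum_congr rfl fun z _ => pr_comm _ _

theorem allE_eq_clsE (x x' : X) : allE R x x' = ∑ δ : R, Row.clsE x x' δ := by
  unfold allE Row.clsE
  rw [sum_comm (s := univ) (t := univ) (f := fun δ y => pr (x, y) (x', y + δ))]
  refine sum_congr rfl fun y _ => ?_
  exact (Equiv.sum_comp (Equiv.addLeft y) fun z => pr (x, y) (x', z)).symm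

theorem sum_lines {α α' : R} (h : IsUnit (α' - α)) (x x' : X) :
    ∑ κ : R, ∑ l : R, pr (x, κ + α * l) (x', κ + α' * l) = allE R x x' := by
  unfold allE
  rw [← Fintype.sum_prod_type', ← Fintype.sum_prod_type']
  have hb : Function.Bijective fun p : R × R => (p.1 + α * p.2, p.1 + α' * p.2) := by
    refine Finite.injective_iff_bijective.1 fun p p' hp => ?_
    have h1 := (Prod.ext_iff.1 hp).1
    have h2 := (Prod.ext_iff.1 hp).2
    simp only at h1 h2
    have h3 : (α' - α) * p.2 = (α' - α) * p'.2 := by linear_combination h2 - h1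
    have h4 := h.mul_left_cancel h3
    rw [h4] at h1
    exact Prod.ext (add_right_cancel h1) h4
  exact hb.sum_comp fun p => pr (x, p.1) (x', p.2)

omit [CommRing R] in
theorem push_allE [Fintype X] (Φ : X → Perm R) (x x' : X) :
    push (fib Φ) (allE R x x') = allE R x x' := by
  unfold allE
  rw [push_sum, ← Equiv.sum_comp (Φ x) (fun y => ∑ z : R, pr (x, y) (x', z))]
  refine sum_congr rfl fun y _ => ?_
  rw [push_sum, ← Equiv.sum_comp (Φ x') (fun z => pr (x, Φ x y) (x', z))]
  refine sum_congr rfl fun z _ => ?_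
  rw [push_pr (fib Φ).injective]
  rfl

end All

namespace Row

variable {X R I : Type*} [Fintype X] [CommRing R] (ρ : Row X R I) [DecidableEq X] [DecidableEq R]
  [Fintype R]

theorem sum_mac_full (i : I) :
    ∑ κ : R, ρ.mac i κ = allE R (ρ.s⁻¹ (ρ.B i)) (ρ.s (ρ.B i)) := by
  unfold mac at'
  refine sum_lines ?_ _ _
  have := ρ.unit2 (ρ.s⁻¹ (ρ.B i))
  have e : ρ.s (ρ.s⁻¹ (ρ.B i)) = ρ.B i := by simp
  rw [e] at this
  have e2 : ρ.col (ρ.s (ρ.B i)) - ρ.cs i - (ρ.col (ρ.s⁻¹ (ρ.B i)) - ρ.cs i) =
      ρ.col (ρ.s (ρ.B i)) - ρ.col (ρ.s⁻¹ (ρ.B i)) := by ring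
  rw [e2]
  exact this

theorem sum_mbd_full (i : I) :
    ∑ κ : R, ρ.mbd i κ = allE R (ρ.B i) (ρ.s (ρ.s (ρ.B i))) := by
  unfold mbd at'
  refine sum_lines ?_ _ _
  have e2 : ρ.col (ρ.s (ρ.s (ρ.B i))) - ρ.cs i - (ρ.col (ρ.B i) - ρ.cs i) =
      ρ.col (ρ.s (ρ.s (ρ.B i))) - ρ.col (ρ.B i) := by ring
  rw [e2]
  exact ρ.unit2 _

end Row

namespace RD

variable {b : RD} {R : Type*} [CommRing R] [Fintype R] [DecidableEq R]

/-! ### Edges over a pair of columns -/

/-- the edges of the strip over a pair of columns: everything at distance one, the classes `cl` at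
distance two -/
noncomputable def gE (h : b.ROk) (fam : Bool) (cl : ZMod (4 * b.k) → Finset R) (x y : b.V) :
    Sym2 (b.V × R) → ℤ :=
  if (re h fam).symm y = (re h fam).symm x + 1 ∨ (re h fam).symm x = (re h fam).symm y + 1 then
    allE R x y
  else if (re h fam).symm y = (re h fam).symm x + 2 then
    ∑ δ ∈ cl ((re h fam).symm x), Row.clsE x y δ
  else if (re h fam).symm x = (re h fam).symm y + 2 then
    ∑ δ ∈ cl ((re h fam).symm y), Row.clsE y x δ
  else 0

theorem two_ne (hk : 3 ≤ b.k) (i : ZMod (4 * b.k)) {j : ZMod (4 * b.k)} (h : j = i + 2) :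
    ¬ (i = j + 2) := by
  intro h'
  have h1 := b.small_ne hk (n := 4) (by norm_num) (by norm_num)
  apply h1
  push_cast
  linear_combination -h - h'

theorem gE_symm (h : b.ROk) (hk : 3 ≤ b.k) (fam : Bool) (cl : ZMod (4 * b.k) → Finset R)
    (x y : b.V) : gE h fam cl x y = gE h fam cl y x := by
  unfold gE
  generalize (re h fam).symm x = i
  generalize (re h fam).symm y = j
  by_cases h1 : j = i + 1 ∨ i = j + 1
  · rw [if_pos h1, if_pos h1.symm, allE_symm]
  · have h1' : ¬ (i = j + 1 ∨ j = i + 1) := fun h' => h1 h'.symm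
    rw [if_neg h1, if_neg h1']
    by_cases h2 : j = i + 2
    · rw [if_pos h2, if_neg (two_ne hk i h2), if_pos h2]
    · rw [if_neg h2]
      by_cases h3 : i = j + 2
      · rw [if_pos h3, if_pos h3]
      · rw [if_neg h3, if_neg h3, if_neg h2]

theorem gE_one (h : b.ROk) (fam : Bool) (cl : ZMod (4 * b.k) → Finset R) (i : ZMod (4 * b.k)) :
    gE h fam cl (b.rgF fam i) (b.rgF fam (i + 1)) =
      allE R (b.rgF fam i) (b.rgF fam (i + 1)) := by
  unfold gE
  rw [re_symm, re_symm, if_pos (Or.inl rfl)]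

theorem gE_two (h : b.ROk) (hk : 3 ≤ b.k) (fam : Bool) (cl : ZMod (4 * b.k) → Finset R)
    (i : ZMod (4 * b.k)) : gE h fam cl (b.rgF fam i) (b.rgF fam (i + 2)) =
      ∑ δ ∈ cl i, Row.clsE (b.rgF fam i) (b.rgF fam (i + 2)) δ := by
  unfold gE
  rw [re_symm, re_symm, if_neg, if_pos rfl]
  rintro (h1 | h1)
  · have := b.small_ne hk (n := 1) (by norm_num) (by norm_num)
    apply this
    push_cast
    linear_combination h1
  · have := b.small_ne hk (n := 3) (by norm_num) (by norm_num)
    apply this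
    push_cast
    linear_combination -h1

/-- the freed edges of the strip -/
noncomputable def stripE (fam : Bool) (cl : ZMod (4 * b.k) → Finset R) : Sym2 (b.V × R) → ℤ :=
  ∑ j : ZMod (4 * b.k), (allE R (b.rgF fam j) (b.rgF fam (j + 1)) +
    ∑ δ ∈ cl j, Row.clsE (b.rgF fam j) (b.rgF fam (j + 2)) δ)

variable (hok : b.Ok) (h2 : IsUnit (2 : R)) (h3 : IsUnit (3 : R))
  (hg : ∀ y : R, ∃ j : ℕ, j • (1 : R) = y)

/-- the freed matchings of a window, `e = false` first and third, `e = true` second and fourth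
column -/
noncomputable def mt (r : ZMod b.k) (i : WSys) (e : Bool) (κ : R) : Sym2 (Option b.V × R) → ℤ :=
  if e then (b.row hok h2 h3 hg r).mbd i κ else (b.row hok h2 h3 hg r).mac i κ

theorem sum_mt_full (r : ZMod b.k) (i : WSys) (e : Bool) :
    ∑ κ : R, mt hok h2 h3 hg r i e κ =
      allE R (some (b.win r i (lo e))) (some (b.win r i (hi e))) := by
  have w0 : (b.row hok h2 h3 hg r).s⁻¹ ((b.row hok h2 h3 hg r).B i) = some (b.win r i 0) :=
    row_wn hok h2 h3 hg r i 0
  have w1 : (b.row hok h2 h3 hg r).B i = some (b.win r i 1) := row_wn hok h2 h3 hg r i 1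
  have w2 : (b.row hok h2 h3 hg r).s ((b.row hok h2 h3 hg r).B i) = some (b.win r i 2) :=
    row_wn hok h2 h3 hg r i 2
  have w3 : (b.row hok h2 h3 hg r).s ((b.row hok h2 h3 hg r).s ((b.row hok h2 h3 hg r).B i)) =
      some (b.win r i 3) := row_wn hok h2 h3 hg r i 3
  cases e
  · show ∑ κ : R, (b.row hok h2 h3 hg r).mac i κ = _
    rw [Row.sum_mac_full, w0, w2]
    rfl
  · show ∑ κ : R, (b.row hok h2 h3 hg r).mbd i κ = _
    rw [Row.sum_mbd_full, w3, w1]
    rfl

theorem push_emV_allE (x y : b.V) : push (emV b.V R) (allE R x y) = allE R (some x) (some y) := by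
  unfold allE
  rw [push_sum]
  refine sum_congr rfl fun u _ => ?_
  rw [push_sum]
  refine sum_congr rfl fun v _ => ?_
  rw [push_comp_emV]
  rfl

/-- **The freed edges of the family**: `g r i e` says that the labels `K r i` free exactly the
edges of the strip over the two columns of the window. -/
theorem free_family (h : b.ROk) (fam : Bool) (cl : ZMod (4 * b.k) → Finset R)
    (Φ : ZMod b.k → Option b.V → Perm R) (θ : b.V → Perm R) (K : ZMod b.k → Fin 4 → Finset R)
    (hK : ∀ r i e, push (fib (Φ r)) (∑ κ ∈ K r i, mt hok h2 h3 hg r (fam, i) e κ) =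
      push (emV b.V R) (push (fib θ) (gE h fam cl (b.win r (fam, i) (lo e))
        (b.win r (fam, i) (hi e))))) :
    push (emV b.V R) (push (fib θ) (stripE fam cl)) =
      ∑ r, push (fib (Φ r)) (∑ i : Fin 4, ∑ κ ∈ K r i,
        ((b.row hok h2 h3 hg r).mac (fam, i) κ + (b.row hok h2 h3 hg r).mbd (fam, i) κ)) := by
  have hk := b.one_lt_k hok
  have e1 := h.edges_sum hok (fun x y => push (emV b.V R) (push (fib θ) (gE h fam cl x y)))
    (fun x y => by rw [gE_symm h hk]) fam
  have e2 : push (emV b.V R) (push (fib θ) (stripE fam cl)) = ∑ j : ZMod (4 * b.k),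
      (push (emV b.V R) (push (fib θ) (gE h fam cl (b.rgF fam j) (b.rgF fam (j + 1)))) +
        push (emV b.V R) (push (fib θ) (gE h fam cl (b.rgF fam j) (b.rgF fam (j + 2))))) := by
    unfold stripE
    rw [push_sum, push_sum]
    refine sum_congr rfl fun j _ => ?_
    rw [push_add, push_add, gE_one, gE_two h hk]
  rw [e2, ← e1]
  refine sum_congr rfl fun r _ => ?_
  rw [push_sum]
  refine sum_congr rfl fun i _ => ?_
  rw [sum_add_distrib, push_add]
  have e3 := hK r i false
  have e4 := hK r i true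
  exact congrArg₂ (· + ·) e3.symm e4.symm

/-- the condition for a type 1 window: all labels -/
theorem hK_one (h : b.ROk) (fam : Bool) (cl : ZMod (4 * b.k) → Finset R)
    (Φ : ZMod b.k → Option b.V → Perm R) (θ : b.V → Perm R) (r : ZMod b.k) (i : Fin 4) (e : Bool)
    (hd : b.d i (if fam then !e else e) = 1) :
    push (fib (Φ r)) (∑ κ : R, mt hok h2 h3 hg r (fam, i) e κ) =
      push (emV b.V R) (push (fib θ) (gE h fam cl (b.win r (fam, i) (lo e))
        (b.win r (fam, i) (hi e)))) := by
  rw [sum_mt_full, push_allE]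
  have key : gE h fam cl (b.win r (fam, i) (lo e)) (b.win r (fam, i) (hi e)) =
      allE R (b.win r (fam, i) (lo e)) (b.win r (fam, i) (hi e)) := by
    unfold gE
    rw [if_pos]
    rw [h.win_eq hok, h.win_eq hok, re_symm, re_symm]
    have hJ : ∀ n, b.Jf (fam, i) n = if fam then b.J i n.rev else b.J i n := fun n => rfl
    have hm : ∀ e', (((b.L i e' + b.d i e') % (4 * b.k) : ℕ) : ZMod (4 * b.k)) =
        (b.L i e' : ZMod (4 * b.k)) + b.d i e' := by
      intro e'
      rw [ZMod.natCast_mod, Nat.cast_add]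
    have r1 : ∀ e' : Bool, (lo e').rev = hi (!e') := by
      intro e'
      cases e' <;> rfl
    have r2 : ∀ e' : Bool, (hi e').rev = lo (!e') := by
      intro e'
      cases e' <;> rfl
    cases fam
    · simp only [Bool.false_eq_true, if_false] at hd hJ
      rw [hJ, hJ]
      rcases h.edge i e with ⟨a1, a2⟩ | ⟨a1, a2⟩
      · left
        rw [a1, a2, hm, hd]
        push_cast
        ring
      · right
        rw [a1, a2, hm, hd]
        push_cast
        ring
    · simp only [if_true] at hd hJ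
      rw [hJ, hJ, r1, r2]
      rcases h.edge i (!e) with ⟨a1, a2⟩ | ⟨a1, a2⟩
      · right
        rw [a1, a2, hm, hd]
        push_cast
        ring
      · left
        rw [a1, a2, hm, hd]
        push_cast
        ring
  rw [key, push_allE, push_emV_allE]

theorem mt_eq (r : ZMod b.k) (i : WSys) (e : Bool) (κ : R) : mt hok h2 h3 hg r i e κ =
    ∑ l : R, pr (some (b.win r i (lo e)),
        κ + ((b.c (b.st i + (lo e).val) : R) - (b.cs i : R)) * l)
      (some (b.win r i (hi e)), κ + ((b.c (b.st i + (hi e).val) : R) - (b.cs i : R)) * l) := by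
  have w0 : (b.row hok h2 h3 hg r).s⁻¹ ((b.row hok h2 h3 hg r).B i) = some (b.win r i 0) :=
    row_wn hok h2 h3 hg r i 0
  have w1 : (b.row hok h2 h3 hg r).B i = some (b.win r i 1) := row_wn hok h2 h3 hg r i 1
  have w2 : (b.row hok h2 h3 hg r).s ((b.row hok h2 h3 hg r).B i) = some (b.win r i 2) :=
    row_wn hok h2 h3 hg r i 2
  have w3 : (b.row hok h2 h3 hg r).s ((b.row hok h2 h3 hg r).s ((b.row hok h2 h3 hg r).B i)) =
      some (b.win r i 3) := row_wn hok h2 h3 hg r i 3
  cases e
  · show (b.row hok h2 h3 hg r).mac i κ = _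
    unfold Row.mac Row.at'
    rw [w0, w2, row_col, row_col]
    rfl
  · show (b.row hok h2 h3 hg r).mbd i κ = _
    unfold Row.mbd Row.at'
    rw [w3, w1, row_col, row_col]
    rfl

/-- one freed matching of a type 2 window is a class of the strip -/
theorem push_mt (Φ : Option b.V → Perm R) (θ : b.V → Perm R) (r : ZMod b.k) (i : WSys) (e : Bool)
    (κ : R) {β β' μ μ' : R} (hβ : IsUnit β)
    (hx : ∀ y, Φ (some (b.win r i (lo e))) y = θ (b.win r i (lo e)) (β * y + μ))
    (hy : ∀ y, Φ (some (b.win r i (hi e))) y = θ (b.win r i (hi e)) (β' * y + μ'))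
    (hα : β * ((b.c (b.st i + (lo e).val) : R) - (b.cs i : R)) =
      β' * ((b.c (b.st i + (hi e).val) : R) - (b.cs i : R))) :
    push (fib Φ) (mt hok h2 h3 hg r i e κ) = push (emV b.V R) (push (fib θ)
      (Row.clsE (b.win r i (lo e)) (b.win r i (hi e)) ((β' - β) * κ + (μ' - μ)))) := by
  rw [mt_eq, push_sum]
  unfold Row.clsE
  rw [push_sum, push_sum]
  have hu : IsUnit ((b.c (b.st i + (lo e).val) : R) - (b.cs i : R)) :=
    adf_unit h2 h3 (hok.uc i _ (lo e).isLt)
  have hb : Function.Bijective fun l : R =>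
      β * ((b.c (b.st i + (lo e).val) : R) - (b.cs i : R)) * l + (β * κ + μ) := by
    refine Finite.injective_iff_bijective.1 fun l l' hl => ?_
    exact (hβ.mul hu).mul_left_cancel (add_right_cancel hl)
  rw [← hb.sum_comp fun y => push (emV b.V R) (push (fib θ) (pr (b.win r i (lo e), y)
    (b.win r i (hi e), y + ((β' - β) * κ + (μ' - μ)))))]
  refine sum_congr rfl fun l _ => ?_
  rw [push_pr (fib Φ).injective, push_pr (fib θ).injective, push_comp_emV]
  show pr (some (b.win r i (lo e)), Φ (some (b.win r i (lo e))) _)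
    (some (b.win r i (hi e)), Φ (some (b.win r i (hi e))) _) =
    pr (some (b.win r i (lo e)), θ (b.win r i (lo e)) _)
      (some (b.win r i (hi e)), θ (b.win r i (hi e)) _)
  have e1 : β * (κ + ((b.c (b.st i + (lo e).val) : R) - (b.cs i : R)) * l) + μ =
      β * ((b.c (b.st i + (lo e).val) : R) - (b.cs i : R)) * l + (β * κ + μ) := by ring
  have e2 : β' * (κ + ((b.c (b.st i + (hi e).val) : R) - (b.cs i : R)) * l) + μ' =
      β * ((b.c (b.st i + (lo e).val) : R) - (b.cs i : R)) * l + (β * κ + μ) +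
        ((β' - β) * κ + (μ' - μ)) := by linear_combination (-l) * hα
  rw [hx, hy, e1, e2]

/-- the condition for a type 2 window of the family `false` -/
theorem hK_two (h : b.ROk) (cl : ZMod (4 * b.k) → Finset R)
    (Φ : ZMod b.k → Option b.V → Perm R) (θ : b.V → Perm R) (r : ZMod b.k) (i : Fin 4) (e : Bool)
    (K : Finset R) {β β' μ μ' : R} (hβ : IsUnit β)
    (hx : ∀ y, Φ r (some (b.win r (false, i) (lo e))) y =
      θ (b.win r (false, i) (lo e)) (β * y + μ))
    (hy : ∀ y, Φ r (some (b.win r (false, i) (hi e))) y =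
      θ (b.win r (false, i) (hi e)) (β' * y + μ'))
    (hα : β * ((b.c (b.st (false, i) + (lo e).val) : R) - (b.cs (false, i) : R)) =
      β' * ((b.c (b.st (false, i) + (hi e).val) : R) - (b.cs (false, i) : R)))
    (hd : b.d i e = 2) (hu : IsUnit (β' - β))
    (hcl : K.image (fun κ => (if b.J i (lo e) = b.L i e then 1 else -1) *
      ((β' - β) * κ + (μ' - μ))) = cl ((b.L i e : ZMod (4 * b.k)) + b.e4 (b.gi * r))) :
    push (fib (Φ r)) (∑ κ ∈ K, mt hok h2 h3 hg r (false, i) e κ) =
      push (emV b.V R) (push (fib θ) (gE h false cl (b.win r (false, i) (lo e))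
        (b.win r (false, i) (hi e)))) := by
  have hk := b.one_lt_k hok
  have hm : (((b.L i e + b.d i e) % (4 * b.k) : ℕ) : ZMod (4 * b.k)) =
      (b.L i e : ZMod (4 * b.k)) + 2 := by
    rw [ZMod.natCast_mod, Nat.cast_add, hd]
    push_cast
    rfl
  have hwin : ∀ n, b.win r (false, i) n =
      b.rgF false ((b.J i n : ZMod (4 * b.k)) + b.e4 (b.gi * r)) := fun n =>
    h.win_eq hok r (false, i) n
  rw [push_sum, sum_congr rfl fun κ _ => push_mt hok h2 h3 hg (Φ r) θ r (false, i) e κ hβ hx hy hα,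
    ← push_sum, ← push_sum]
  congr 2
  have hJ := h.edge i e
  by_cases hL : b.J i (lo e) = b.L i e
  · have hH : b.J i (hi e) = (b.L i e + b.d i e) % (4 * b.k) := by
      rcases hJ with hJ | hJ
      · exact hJ.2
      · exfalso
        have h4 := h.cls i (lo e) (hi e) (by rw [hL, hJ.1])
        cases e <;> exact absurd h4 (by decide)
    rw [hwin (lo e), hwin (hi e), hL, hH, hm, add_right_comm, gE_two h hk, ← hcl, if_pos hL,
      sum_image]
    · refine sum_congr rfl fun κ _ => ?_
      rw [one_mul]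
    · intro κ _ κ' _ hκ
      simp only [one_mul] at hκ
      exact hu.mul_left_cancel (add_right_cancel hκ)
  · have hH : b.J i (hi e) = b.L i e ∧ b.J i (lo e) = (b.L i e + b.d i e) % (4 * b.k) := by
      rcases hJ with hJ | hJ
      · exact absurd hJ.1 hL
      · exact hJ
    rw [gE_symm h hk, hwin (lo e), hwin (hi e), hH.1, hH.2, hm, add_right_comm, gE_two h hk,
      ← hcl, if_neg hL, sum_image]
    · refine sum_congr rfl fun κ _ => ?_
      rw [Tw.clsE_symm]
      congr 1
      ring
    · intro κ _ κ' _ hκ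
      simp only [neg_mul, one_mul, neg_inj] at hκ
      exact hu.mul_left_cancel (add_right_cancel hκ)

end RD

end SqIns
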