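import Pool.Agent.Lib.SqIns.FSpl2
import Pool.Agent.Lib.SqIns.FreeF

/-!
# Bases with colours

The literals of a base and their checks (natural numbers and integers only); all data of the step
over an arbitrary ring.
-/

open Finset Equiv

namespace SqIns

/-- the affine permutation `y ↦ u * y + m` -/
def affU {R : Type*} [CommRing R] (u : Rˣ) (m : R) : Perm R where
  toFun y := u * y + m
  invFun y := (u⁻¹ : Rˣ) * (y - m)
  left_inv y := by simp
  right_inv y := by simp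

open Classical in
/-- the affine permutation `y ↦ u * y + m` -/
noncomputable def aff {R : Type*} [CommRing R] (u m : R) : Perm R :=
  if h : IsUnit u then affU h.unit m else 1

theorem aff_apply {R : Type*} [CommRing R] {u : R} (h : IsUnit u) (m y : R) :
    aff u m y = u * y + m := by
  unfold aff
  rw [dif_pos h]
  rfl

theorem smo_intUnit {R : Type*} [CommRing R] (h2 : IsUnit (2 : R)) (h3 : IsUnit (3 : R)) {z : ℤ}
    (h : smo z.natAbs = true) : IsUnit (z : R) := by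
  have h1 := smo_unit h2 h3 h
  rcases Int.natAbs_eq z with hz | hz
  · rw [hz, Int.cast_natCast]
    exact h1
  · rw [hz, Int.cast_neg, Int.cast_natCast]
    exact h1.neg

/-- the twist between two ring indices, computed -/
def dvz (k Jn a c : ℕ) : ℤ :=
  let w : ℕ → ℤ := fun a => if a % (4 * k) = (Jn + 2) % (4 * k) then -1 else 0
  if c % (4 * k) = (a + 1) % (4 * k) then w a else
    if c % (4 * k) = (a + 2) % (4 * k) then w a + w (a + 1) else
      if a % (4 * k) = (c + 1) % (4 * k) then - w c else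
        if a % (4 * k) = (c + 2) % (4 * k) then - (w c + w (c + 1)) else 0

/-- a base with colours: windows and rows of the scheme; `mu`, `eta` factors of the classes of the
rings, `bq` factors of the positions of the windows of type 2, `del` translations, `off` offsets,
`kap` slopes of the windows of type 2 -/
structure BX extends RD where
  ia : Fin 4
  ib : Fin 4
  id : Fin 4
  iC : Fin 4
  e : Bool
  f : Bool
  Jn : ℕ
  qu : ℕ
  pu : ℕ
  qv : ℕ
  mu : ℕ → ℤ
  eta : ℕ → ℤ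
  bq : ℕ → ℤ
  del : ℕ → ℕ → ℤ
  off : ℕ → ℕ → ℤ
  kap : Fin 4 → ℤ

namespace BX

open RD

variable (b : BX)

/-- the scheme -/
def t : C1 b.toRD := ⟨b.ia, b.ib, b.id, b.iC, b.e, b.f, (b.Jn : ZMod (4 * b.k)),
  (b.qu : ZMod b.k), (b.pu : ZMod b.k), (b.qv : ZMod b.k)⟩

/-- the checks -/
structure Chk : Prop where
  ok : b.toBD.Ok
  rok : b.toRD.ROk
  pu_o : (b.Jf (true, b.ib) (wo b.e) + 4 * (b.gi * b.pu)) % (4 * b.k) = b.Jn % (4 * b.k)
  pu_i : (b.Jf (true, b.ib) (wi b.e) + 4 * (b.gi * b.pu)) % (4 * b.k) = (b.Jn + 2) % (4 * b.k)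
  qv_o : (b.Jf (true, b.ib) (wo !b.e) + 4 * (b.gi * b.qv)) % (4 * b.k) = (b.Jn + 1) % (4 * b.k)
  qv_i : (b.Jf (true, b.ib) (wi !b.e) + 4 * (b.gi * b.qv)) % (4 * b.k) = (b.Jn + 3) % (4 * b.k)
  qu_o : (b.Jf (true, b.id) (wo b.f) + 4 * (b.gi * b.qu)) % (4 * b.k) = (b.Jn + 2) % (4 * b.k)
  qu_i : (b.Jf (true, b.id) (wi b.f) + 4 * (b.gi * b.qu)) % (4 * b.k) = (b.Jn + 1) % (4 * b.k)
  adjL : if b.e then b.st (true, b.ia) = b.st (true, b.ib) + 2 else
    b.st (true, b.ia) + 2 = b.st (true, b.ib)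
  adjC : if b.e then b.st (false, b.iC) + 2 = b.st (true, b.ib) else
    b.st (false, b.iC) = b.st (true, b.ib) + 2
  inf : if b.f then b.st (true, b.id) + 3 = 4 * b.k else b.st (true, b.id) = 1
  spd : b.st (true, b.id) + 3 ≠ b.sp
  sp0 : b.sp ≠ 0
  csab : b.cs (true, b.ia) = b.cs (true, b.ib)
  quk : b.qu < b.k
  puk : b.pu < b.k
  qvk : b.qv < b.k
  rne : b.qu ≠ b.pu
  CD : b.iC ≠ b.id
  spD : b.st (false, b.id) + 3 ≠ b.sp
  dA : b.id ≠ b.ia
  hcol : b.c 0 = b.c (b.st (false, b.id) + (wo !b.f).val)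
  sepG : ∀ i m n : Fin 4, b.st (false, b.id) + m.val ≠ b.st (true, i) + n.val
  sepC : ∀ m n : Fin 4, b.st (false, b.id) + m.val ≠ b.st (false, b.iC) + n.val
  -- translations
  dl : ∀ r < b.k, ∀ (i : Fin 4) (e : Bool), b.del r (b.st (true, i) + (hi e).val) -
    b.del r (b.st (true, i) + (lo e).val) = dvz b.k b.Jn (b.Jf (true, i) (lo e) +
      4 * (b.gi * r)) (b.Jf (true, i) (hi e) + 4 * (b.gi * r))
  d1 : b.del b.pu (b.st (true, b.ib) + (wo b.e).val) = 0
  d2 : b.del b.pu (b.st (true, b.ib) + (wi b.e).val) = 0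
  d3 : b.del b.qv (b.st (true, b.ib) + (wo !b.e).val) = 1
  d4 : b.del b.qv (b.st (true, b.ib) + (wi !b.e).val) = 0
  d5 : ∀ r < b.k, ∀ n : Fin 4, b.del r (b.st (true, b.id) + n.val) = 0
  -- colours
  nat : ∀ i n : Fin 4, (b.c (b.st (true, i) + n.val) : ℤ) - (b.cs (true, i) : ℤ) =
    b.mu (b.Jf (true, i) n % 4)
  muu : ∀ c < 4, smo (b.mu c).natAbs = true
  etau : ∀ c < 4, smo (b.eta c).natAbs = true
  -- windows of `F`
  ty : ∀ (i : Fin 4) (e : Bool), b.d i e = b.d i false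
  ty2 : ∀ i : Fin 4, b.d i false = 1 ∨ b.d i false = 2
  tD : b.d b.id false = 1
  tC : b.d b.iC false = 1
  bqu : ∀ i n : Fin 4, b.d i false = 2 → smo (b.bq (b.st (false, i) + n.val)).natAbs = true
  al : ∀ (i : Fin 4) (e : Bool), b.d i false = 2 →
    b.bq (b.st (false, i) + (lo e).val) *
      ((b.c (b.st (false, i) + (lo e).val) : ℤ) - (b.cs (false, i) : ℤ)) =
    b.bq (b.st (false, i) + (hi e).val) *
      ((b.c (b.st (false, i) + (hi e).val) : ℤ) - (b.cs (false, i) : ℤ))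
  of : ∀ r < b.k, ∀ (i : Fin 4) (e : Bool), b.d i false = 2 →
    b.off r (b.st (false, i) + (lo e).val) = b.off r (b.st (false, i) + (hi e).val)
  kp : ∀ (i : Fin 4) (e : Bool), b.d i false = 2 →
    (if b.J i (lo e) = b.L i e then 1 else -1) *
      (b.bq (b.st (false, i) + (hi e).val) - b.bq (b.st (false, i) + (lo e).val)) =
      (if b.L i e % 2 = 0 then 1 else -1) * b.kap i
  kpu : ∀ i : Fin 4, b.d i false = 2 → smo (b.kap i).natAbs = true
  sepF : ∀ i m n : Fin 4, b.d i false = 2 →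
    b.st (false, b.id) + m.val ≠ b.st (false, i) + n.val
  sepF' : ∀ i m n : Fin 4, b.d i false = 2 →
    b.st (false, b.iC) + m.val ≠ b.st (false, i) + n.val
  con1 : ∀ i m i' n : Fin 4, b.d i' false = 2 →
    b.st (true, i) + m.val = b.st (false, i') + n.val →
    b.bq (b.st (true, i) + m.val) = b.eta (b.J i' n % 4)
  con2 : ∀ r < b.k, ∀ i m i' n : Fin 4, b.d i' false = 2 →
    b.st (true, i) + m.val = b.st (false, i') + n.val →
    b.off r (b.st (true, i) + m.val) = b.eta (b.J i' n % 4) *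
      (b.mu (b.Jf (true, i) m % 4) * b.del r (b.st (true, i) + m.val))
  conG : ∀ i m i' n : Fin 4, b.st (true, i) + m.val = b.st (true, i') + n.val →
    b.mu (b.Jf (true, i) m % 4) = b.mu (b.Jf (true, i') n % 4)
  conC : ∀ r < b.k, ∀ m i n : Fin 4, b.st (false, b.iC) + m.val = b.st (true, i) + n.val →
    b.del r (b.st (true, i) + n.val) = 0

variable {b}

/-! ### The scheme -/

theorem gi_cast (b : RD) (n : ℕ) : b.e4 ((b.gi : ZMod b.k) * (n : ZMod b.k)) =
    ((4 * (b.gi * n) : ℕ) : ZMod (4 * b.k)) := by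
  rw [← b.e4_cast]
  congr 1
  push_cast
  rfl

theorem gi_cast' (b : RD) (r : ZMod b.k) : b.e4 ((b.gi : ZMod b.k) * r) =
    ((4 * (b.gi * r.val) : ℕ) : ZMod (4 * b.k)) := by
  rw [← gi_cast, ZMod.natCast_zmod_val]

theorem nat_eq {n a c : ℕ} (h : a % n = c % n) : (a : ZMod n) = (c : ZMod n) :=
  (ZMod.natCast_eq_natCast_iff' a c n).2 h

theorem Chk.ok4 (h : b.Chk) : b.t.Ok4 where
  pu_o := by
    have h1 := nat_eq h.pu_o
    push_cast at h1
    show (b.Jf (true, b.ib) (wo b.e) : ZMod (4 * b.k)) +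
      b.e4 ((b.gi : ZMod b.k) * (b.pu : ZMod b.k)) = (b.Jn : ZMod (4 * b.k))
    rw [gi_cast]
    push_cast
    exact h1
  pu_i := by
    have h1 := nat_eq h.pu_i
    push_cast at h1
    show (b.Jf (true, b.ib) (wi b.e) : ZMod (4 * b.k)) +
      b.e4 ((b.gi : ZMod b.k) * (b.pu : ZMod b.k)) = (b.Jn : ZMod (4 * b.k)) + 2
    rw [gi_cast]
    push_cast
    exact h1
  qv_o := by
    have h1 := nat_eq h.qv_o
    push_cast at h1
    show (b.Jf (true, b.ib) (wo !b.e) : ZMod (4 * b.k)) +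
      b.e4 ((b.gi : ZMod b.k) * (b.qv : ZMod b.k)) = (b.Jn : ZMod (4 * b.k)) + 1
    rw [gi_cast]
    push_cast
    exact h1
  qv_i := by
    have h1 := nat_eq h.qv_i
    push_cast at h1
    show (b.Jf (true, b.ib) (wi !b.e) : ZMod (4 * b.k)) +
      b.e4 ((b.gi : ZMod b.k) * (b.qv : ZMod b.k)) = (b.Jn : ZMod (4 * b.k)) + 3
    rw [gi_cast]
    push_cast
    exact h1
  qu_o := by
    have h1 := nat_eq h.qu_o
    push_cast at h1
    show (b.Jf (true, b.id) (wo b.f) : ZMod (4 * b.k)) +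
      b.e4 ((b.gi : ZMod b.k) * (b.qu : ZMod b.k)) = (b.Jn : ZMod (4 * b.k)) + 2
    rw [gi_cast]
    push_cast
    exact h1
  qu_i := by
    have h1 := nat_eq h.qu_i
    push_cast at h1
    show (b.Jf (true, b.id) (wi b.f) : ZMod (4 * b.k)) +
      b.e4 ((b.gi : ZMod b.k) * (b.qu : ZMod b.k)) = (b.Jn : ZMod (4 * b.k)) + 1
    rw [gi_cast]
    push_cast
    exact h1
  adjL := h.adjL
  adjC := h.adjC
  inf := h.inf
  spd := h.spd
  sp0 := h.sp0
  csab := h.csab
  rne := by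
    intro h1
    have h2 : (b.qu : ZMod b.k) = (b.pu : ZMod b.k) := h1
    rw [ZMod.natCast_eq_natCast_iff', Nat.mod_eq_of_lt h.quk, Nat.mod_eq_of_lt h.puk] at h2
    exact h.rne h2
  sepD := fun m n => h.sepG _ m n
  CD := h.CD
  spD := h.spD
  dA := h.dA
  hcol := h.hcol
  sepG := h.sepG
  sepC := h.sepC

/-! ### Translations -/

variable {R : Type*} [CommRing R]

theorem w_cast (b : BX) (a : ℕ) : b.t.w (a : ZMod (4 * b.k)) =
    (((if a % (4 * b.k) = (b.Jn + 2) % (4 * b.k) then -1 else 0 : ℤ)) : R) := by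
  have h : (a : ZMod (4 * b.k)) = b.t.J + 2 ↔ a % (4 * b.k) = (b.Jn + 2) % (4 * b.k) := by
    rw [← ZMod.natCast_eq_natCast_iff']
    push_cast
    rfl
  unfold C1.w
  by_cases h1 : a % (4 * b.k) = (b.Jn + 2) % (4 * b.k)
  · rw [if_pos (h.2 h1), if_pos h1]
    push_cast
    rfl
  · rw [if_neg (fun h2 => h1 (h.1 h2)), if_neg h1]
    push_cast
    rfl

theorem dvz_cast (b : BX) (a c : ℕ) : ((dvz b.k b.Jn a c : ℤ) : R) =
    b.toRD.dv b.t.w (a : ZMod (4 * b.k)) (c : ZMod (4 * b.k)) := by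
  have e1 : ∀ a c n : ℕ, (c : ZMod (4 * b.k)) = (a : ZMod (4 * b.k)) + (n : ℕ) ↔
      c % (4 * b.k) = (a + n) % (4 * b.k) := by
    intro a c n
    rw [← ZMod.natCast_eq_natCast_iff']
    push_cast
    rfl
  have e2 : ∀ a c : ℕ, (c : ZMod (4 * b.k)) = (a : ZMod (4 * b.k)) + 1 ↔
      c % (4 * b.k) = (a + 1) % (4 * b.k) := by
    intro a c
    have := e1 a c 1
    rwa [Nat.cast_one] at this
  have e3 : ∀ a c : ℕ, (c : ZMod (4 * b.k)) = (a : ZMod (4 * b.k)) + 2 ↔
      c % (4 * b.k) = (a + 2) % (4 * b.k) := by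
    intro a c
    have := e1 a c 2
    rwa [Nat.cast_ofNat] at this
  have e4 : ∀ a : ℕ, b.t.w ((a : ZMod (4 * b.k)) + 1) =
      (((if (a + 1) % (4 * b.k) = (b.Jn + 2) % (4 * b.k) then -1 else 0 : ℤ)) : R) := by
    intro a
    rw [← w_cast b (a + 1)]
    push_cast
    rfl
  unfold dvz RD.dv
  simp only [e2, e3, e4, w_cast]
  split_ifs <;> push_cast <;> ring

/-- the translations -/
noncomputable def δ (b : BX) (R : Type*) [CommRing R] (r : ZMod b.k) (i n : Fin 4) : R :=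
  ((b.del r.val (b.st (true, i) + n.val) : ℤ) : R)

theorem Chk.dOk (h : b.Chk) : C1.DOk b.t (b.δ R) where
  hδ := by
    intro r i e
    have h1 := h.dl r.val (ZMod.val_lt r) i e
    unfold δ
    rw [← Int.cast_sub, h1, dvz_cast]
    have e1 : ∀ n : Fin 4, (((b.Jf (true, i) n + 4 * (b.gi * r.val) : ℕ)) : ZMod (4 * b.k)) =
        (b.Jf (true, i) n : ZMod (4 * b.k)) + b.e4 ((b.gi : ZMod b.k) * r) := by
      intro n
      rw [gi_cast']
      push_cast
      rfl
    rw [e1, e1]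
  pu_o := by
    show ((b.del (b.pu : ZMod b.k).val _ : ℤ) : R) = 0
    rw [ZMod.val_natCast, Nat.mod_eq_of_lt h.puk]
    rw [show b.del b.pu (b.st (true, b.t.ib) + (wo b.t.e).val) = 0 from h.d1]
    push_cast
    rfl
  pu_i := by
    show ((b.del (b.pu : ZMod b.k).val _ : ℤ) : R) = 0
    rw [ZMod.val_natCast, Nat.mod_eq_of_lt h.puk]
    rw [show b.del b.pu (b.st (true, b.t.ib) + (wi b.t.e).val) = 0 from h.d2]
    push_cast
    rfl
  qv_o := by
    show ((b.del (b.qv : ZMod b.k).val _ : ℤ) : R) = 1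
    rw [ZMod.val_natCast, Nat.mod_eq_of_lt h.qvk]
    rw [show b.del b.qv (b.st (true, b.t.ib) + (wo !b.t.e).val) = 1 from h.d3]
    push_cast
    rfl
  qv_i := by
    show ((b.del (b.qv : ZMod b.k).val _ : ℤ) : R) = 0
    rw [ZMod.val_natCast, Nat.mod_eq_of_lt h.qvk]
    rw [show b.del b.qv (b.st (true, b.t.ib) + (wi !b.t.e).val) = 0 from h.d4]
    push_cast
    rfl
  d0 := by
    intro r n
    show ((b.del r.val _ : ℤ) : R) = 0
    rw [show b.del r.val (b.st (true, b.t.id) + n.val) = 0 from h.d5 _ (ZMod.val_lt r) n]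
    push_cast
    rfl

/-- factors of `F'` -/
def μ (b : BX) (R : Type*) [CommRing R] (c : ℕ) : R := ((b.mu c : ℤ) : R)

theorem Chk.hμ (h : b.Chk) (h2 : IsUnit (2 : R)) (h3 : IsUnit (3 : R)) :
    ∀ c < 4, IsUnit (b.μ R c) := fun c hc => smo_intUnit h2 h3 (h.muu c hc)

theorem Chk.hnat (h : b.Chk) (i n : Fin 4) :
    (b.c (b.st (true, i) + n.val) : R) - (b.cs (true, i) : R) = b.μ R (b.Jf (true, i) n % 4) := by
  have h1 := h.nat i n
  unfold μ
  rw [← h1]
  push_cast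
  rfl

end BX

end SqIns
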