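import Pool.Agent.Lib.SqIns.BaseK

/-!
# Bases with colours: the fibrewise permutations and the freed edges of `F`
-/

open Finset Equiv

namespace SqIns

namespace BX

open RD

variable (b : BX)

/-- position in a window of type 2 of `F` -/
def F2 (p : ℕ) : Prop := ∃ z : Fin 4 × Fin 4, b.d z.1 false = 2 ∧ p = b.st (false, z.1) + z.2.val

/-- position in a window of `F'` -/
def G2 (p : ℕ) : Prop := ∃ z : Fin 4 × Fin 4, p = b.st (true, z.1) + z.2.val

/-- from the label in the strip to the level -/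
noncomputable def θ {b : BX} (h : b.Chk) (R : Type*) [CommRing R] (v : b.V) : Perm R :=
  (aff ((b.eta (b.trk ((re h.rok false).symm v)) : ℤ) : R) 0)⁻¹

open Classical in
/-- the fibrewise permutations -/
noncomputable def Φ₀ {b : BX} (h : b.Chk) (R : Type*) [CommRing R] (r : ZMod b.k) (v : b.V) :
    Perm R :=
  if b.F2 (b.ix r (some v)) then
    θ h R v * aff ((b.bq (b.ix r (some v)) : ℤ) : R) ((b.off r.val (b.ix r (some v)) : ℤ) : R)
  else if hz : b.G2 (b.ix r (some v)) then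
    aff 1 ((b.mu (b.Jf (true, hz.choose.1) hz.choose.2 % 4) *
      b.del r.val (b.ix r (some v)) : ℤ) : R)
  else 1

variable {b} {R : Type*} [CommRing R] (h : b.Chk)

include h in
theorem ix_win (r : ZMod b.k) (i : WSys) (n : Fin 4) :
    b.ix r (some (b.win r i n)) = b.st i + n.val := by
  have h1 := h.ok.st_lt i
  have h2 := n.isLt
  rw [← pn_win h.ok, b.ix_pn r (by omega)]

include h in
theorem win_eq_of (r : ZMod b.k) {i i' : WSys} {n n' : Fin 4}
    (hp : b.st i + n.val = b.st i' + n'.val) : b.win r i n = b.win r i' n' := by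
  have h1 := pn_win h.ok r i n
  rw [hp, pn_win h.ok] at h1
  exact (Option.some_injective _ h1).symm

theorem trk_win (r : ZMod b.k) (i n : Fin 4) :
    b.trk ((re h.rok false).symm (b.win r (false, i) n)) = b.J i n % 4 := by
  rw [h.rok.win_eq h.ok]
  show b.trk ((re h.rok false).symm (b.rgF false _)) = _
  rw [re_symm, b.trk_e4]
  rfl

section Units

variable (h2 : IsUnit (2 : R)) (h3 : IsUnit (3 : R))

include h2 h3 in
theorem θ_apply (r : ZMod b.k) (i n : Fin 4) (y : R) :
    θ h R (b.win r (false, i) n) (((b.eta (b.J i n % 4) : ℤ) : R) * y) = y := by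
  unfold θ
  rw [trk_win h, Perm.inv_eq_iff_eq, aff_apply (smo_intUnit h2 h3
    (h.etau _ (Nat.mod_lt _ (by norm_num)))), add_zero]

theorem Φ₀_F (h2 : IsUnit (2 : R)) (h3 : IsUnit (3 : R)) (r : ZMod b.k) (i n : Fin 4)
    (hd : b.d i false = 2) (y : R) : Φ₀ h R r (b.win r (false, i) n) y =
      θ h R (b.win r (false, i) n) (((b.bq (b.st (false, i) + n.val) : ℤ) : R) * y +
        ((b.off r.val (b.st (false, i) + n.val) : ℤ) : R)) := by
  unfold Φ₀
  rw [ix_win h, if_pos ⟨(i, n), hd, rfl⟩, Perm.mul_apply,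
    aff_apply (smo_intUnit h2 h3 (h.bqu i n hd))]

theorem Φ₀_G (h2 : IsUnit (2 : R)) (h3 : IsUnit (3 : R)) (r : ZMod b.k) (i n : Fin 4) (y : R) :
    Φ₀ h R r (b.win r (true, i) n) y = y + b.μ R (b.Jf (true, i) n % 4) * b.δ R r i n := by
  unfold Φ₀
  rw [ix_win h]
  by_cases hF : b.F2 (b.st (true, i) + n.val)
  · rw [if_pos hF]
    obtain ⟨⟨i', n'⟩, hd, hp⟩ := hF
    have hp' : b.st (true, i) + n.val = b.st (false, i') + n'.val := hp
    have e1 := h.con1 i n i' n' hd hp'
    have e2 := h.con2 r.val (ZMod.val_lt r) i n i' n' hd hp'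
    rw [e1, e2, Perm.mul_apply,
      aff_apply (smo_intUnit h2 h3 (h.etau _ (Nat.mod_lt _ (by norm_num))))]
    have e3 : ((b.eta (b.J i' n' % 4) : ℤ) : R) * y + ((b.eta (b.J i' n' % 4) *
        (b.mu (b.Jf (true, i) n % 4) * b.del r.val (b.st (true, i) + n.val)) : ℤ) : R) =
        ((b.eta (b.J i' n' % 4) : ℤ) : R) *
          (y + b.μ R (b.Jf (true, i) n % 4) * b.δ R r i n) := by
      unfold BX.μ BX.δ
      push_cast
      ring
    rw [e3, win_eq_of h r hp']
    exact θ_apply h h2 h3 r i' n' _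
  · rw [if_neg hF]
    have hG : b.G2 (b.st (true, i) + n.val) := ⟨(i, n), rfl⟩
    rw [dif_pos hG]
    have e1 : b.st (true, i) + n.val = b.st (true, hG.choose.1) + hG.choose.2.val :=
      hG.choose_spec
    rw [← h.conG i n _ _ e1, aff_apply isUnit_one, one_mul]
    unfold BX.μ BX.δ
    push_cast
    rfl

theorem Φ₀_C (r : ZMod b.k) (n : Fin 4) (y : R) :
    Φ₀ h R r (b.win r (false, b.t.iC) n) y = y := by
  unfold Φ₀
  rw [ix_win h]
  have hF : ¬ b.F2 (b.st (false, b.t.iC) + n.val) := by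
    rintro ⟨⟨i', n'⟩, hd, hp⟩
    exact h.sepF' i' n n' hd hp
  rw [if_neg hF]
  by_cases hG : b.G2 (b.st (false, b.t.iC) + n.val)
  · rw [dif_pos hG]
    have e1 : b.st (false, b.t.iC) + n.val = b.st (true, hG.choose.1) + hG.choose.2.val :=
      hG.choose_spec
    have e2 := h.conC r.val (ZMod.val_lt r) n _ _ e1
    rw [← e1] at e2
    rw [e2, aff_apply isUnit_one]
    push_cast
    ring
  · rw [dif_neg hG]
    rfl

end Units

/-! ### Labels -/

section K

variable [Fintype R] [DecidableEq R]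

/-- labels of the windows of `F` -/
noncomputable def Ks (b : BX) (C : Finset R) (i : Fin 4) : Finset R :=
  if b.d i false = 1 then univ else C.image fun y => Ring.inverse ((b.kap i : ℤ) : R) * y

/-- the classes of the strip -/
def clC (b : BX) (C : Finset R) (j : ZMod (4 * b.k)) : Finset R :=
  C.image fun y => (if j.val % 2 = 0 then 1 else -1) * y

theorem card_Ks (h : b.Chk) (h2 : IsUnit (2 : R)) (h3 : IsUnit (3 : R)) (C : Finset R) (i : Fin 4)
    (hd : b.d i false = 2) : #(b.Ks C i) = #C := by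
  unfold Ks
  rw [if_neg (by rw [hd]; norm_num)]
  refine card_image_of_injective _ fun y y' hy => ?_
  have hu : IsUnit (Ring.inverse ((b.kap i : ℤ) : R)) :=
    (smo_intUnit h2 h3 (h.kpu i hd)).ringInverse
  exact hu.mul_left_cancel hy

theorem par_val (b : RD) (n : ℕ) (c : ZMod b.k) :
    ((n : ZMod (4 * b.k)) + b.e4 c).val % 2 = n % 2 := by
  have h1 := b.trk_e4 n c
  unfold RD.trk at h1
  omega

variable (h2 : IsUnit (2 : R)) (h3 : IsUnit (3 : R))
  (hg : ∀ y : R, ∃ j : ℕ, j • (1 : R) = y)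

/-- **The freed edges of `F`.** -/
theorem hfreeF (C : Finset R) (Φ : ZMod b.k → Option b.V → Perm R)
    (hΦ : ∀ r v, (∀ n, v ≠ b.win r (false, b.t.id) n) → Φ r (some v) = Φ₀ h R r v) :
    push (emV b.V R) (push (fib (θ h R)) (stripE false (b.clC C))) =
      ∑ r, push (fib (Φ r)) (∑ i : Fin 4, ∑ s ∈ b.Ks C i,
        ((b.row h.ok h2 h3 hg r).mac (false, i) s + (b.row h.ok h2 h3 hg r).mbd (false, i) s)) := by
  refine free_family h.ok h2 h3 hg h.rok false (b.clC C) Φ (θ h R) (fun _ i => b.Ks C i) ?_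
  intro r i e
  rcases h.ty2 i with hd | hd
  · have hK : b.Ks C i = univ := if_pos hd
    rw [hK]
    exact hK_one h.ok h2 h3 hg h.rok false (b.clC C) Φ (θ h R) r i e (by
      rw [if_neg (by decide)]
      exact (h.ty i e).trans hd)
  · have hcol : ∀ n, Φ r (some (b.win r (false, i) n)) = Φ₀ h R r (b.win r (false, i) n) :=
      fun n => hΦ r _ fun m => C1.win_ne_of h.ok r (Ne.symm (h.sepF i m n hd))
    have hβ : IsUnit ((b.bq (b.st (false, i) + (lo e).val) : ℤ) : R) :=
      smo_intUnit h2 h3 (h.bqu i _ hd)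
    have hkap : IsUnit ((b.kap i : ℤ) : R) := smo_intUnit h2 h3 (h.kpu i hd)
    have hkp := h.kp i e hd
    have hkp' : (if b.J i (lo e) = b.L i e then 1 else -1 : R) *
        (((b.bq (b.st (false, i) + (hi e).val) : ℤ) : R) -
          ((b.bq (b.st (false, i) + (lo e).val) : ℤ) : R)) =
        (if b.L i e % 2 = 0 then 1 else -1) * ((b.kap i : ℤ) : R) := by
      have h1 := congrArg (Int.cast : ℤ → R) hkp
      push_cast at h1
      convert h1 using 2 <;> split_ifs <;> simp
    have hoff : ((b.off r.val (b.st (false, i) + (hi e).val) : ℤ) : R) -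
        ((b.off r.val (b.st (false, i) + (lo e).val) : ℤ) : R) = 0 := by
      rw [h.of r.val (ZMod.val_lt r) i e hd, sub_self]
    refine hK_two h.ok h2 h3 hg h.rok (b.clC C) Φ (θ h R) r i e (b.Ks C i) hβ
      (β' := ((b.bq (b.st (false, i) + (hi e).val) : ℤ) : R))
      (μ := ((b.off r.val (b.st (false, i) + (lo e).val) : ℤ) : R))
      (μ' := ((b.off r.val (b.st (false, i) + (hi e).val) : ℤ) : R)) ?_ ?_ ?_
      ((h.ty i e).trans hd) ?_ ?_
    · intro y
      rw [hcol, Φ₀_F h h2 h3 r i _ hd]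
    · intro y
      rw [hcol, Φ₀_F h h2 h3 r i _ hd]
    · have h1 := congrArg (Int.cast : ℤ → R) (h.al i e hd)
      push_cast at h1
      exact h1
    · have h1 : IsUnit ((if b.L i e % 2 = 0 then 1 else -1) * ((b.kap i : ℤ) : R)) := by
        split_ifs
        · rwa [one_mul]
        · rw [neg_mul, one_mul]
          exact hkap.neg
      rw [← hkp'] at h1
      split_ifs at h1
      · rwa [one_mul] at h1
      · rw [neg_mul, one_mul] at h1
        exact (IsUnit.neg_iff _).1 h1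
    · have hK : b.Ks C i = C.image fun y => Ring.inverse ((b.kap i : ℤ) : R) * y :=
        if_neg (by rw [hd]; norm_num)
      rw [hK]
      unfold clC
      rw [image_image, par_val]
      refine image_congr fun y _ => ?_
      show (if b.J i (lo e) = b.L i e then 1 else -1 : R) * ((((b.bq (b.st (false, i) +
        (hi e).val) : ℤ) : R) - ((b.bq (b.st (false, i) + (lo e).val) : ℤ) : R)) *
          (Ring.inverse ((b.kap i : ℤ) : R) * y) + _) = _
      rw [hoff, add_zero, ← mul_assoc, hkp']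
      have h5 : ((b.kap i : ℤ) : R) * Ring.inverse ((b.kap i : ℤ) : R) = 1 :=
        Ring.mul_inverse_cancel _ hkap
      linear_combination ((if b.L i e % 2 = 0 then 1 else -1) * y) * h5

end K

/-! ### The step -/

section Step

variable [Fintype R] [DecidableEq R] {W : Type*} [Fintype W] [DecidableEq W]
  (h2 : IsUnit (2 : R)) (h3 : IsUnit (3 : R)) (hg : ∀ y : R, ∃ j : ℕ, j • (1 : R) = y)

/-- **The step for a checked base.** -/
theorem step4 [Nontrivial R] (C : Finset R)
    (hc : 5 < Fintype.card ((Option b.V × R) ⊕ W))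
    {TF : Type*} [Fintype TF] [DecidableEq TF] (A2 : Finset R) (σ : W → WSys)
    (hcF1 : ∀ i, b.d i false = 1 → #(univ.filter fun w => σ w = (false, i)) = Fintype.card R)
    (hcF2 : ∀ i, b.d i false = 2 → #(univ.filter fun w => σ w = (false, i)) = #C)
    (hcG : ∀ i, #(univ.filter fun w => σ w = (true, i)) = #A2)
    (lt : Fin 4 → R → W) (hσl : ∀ n, ∀ s ∈ A2, σ (lt n s) = b.t.sy n)
    (hil : ∀ n, ∀ s ∈ A2, ∀ s' ∈ A2, lt n s = lt n s' → s = s')
    (OF : TF → Perm (b.V × R)) (hOFc : ∀ j, Closed (OF j))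
    (hOF : ∑ j, E (OF j) = vertAll b.V R + push (fib (θ h R)) (stripE false (b.clC C)))
    (S : TF ⊕ {s // s ∈ A2} → Perm (R ⊕ W)) (hSc : ∀ j, Closed (S j))
    (hS : ∑ j, E (S j) = allPairs (R ⊕ W)) (yv : R → R)
    (hyv : ∀ s ∈ A2, ∀ s' ∈ A2, yv s = yv s' → s = s')
    (hword : ∀ s : {s // s ∈ A2}, S (.inr s) (.inr (lt 0 s)) = .inr (lt 1 s) ∧
      S (.inr s) (.inr (lt 1 s)) = .inr (lt 2 s) ∧ S (.inr s) (.inr (lt 2 s)) = .inl (yv s))
    (F : C1.FS b.toRD R W TF) (hF : C1.FOk0 b.t F σ OF (fun j => S (.inl j))) :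
    ∃ (Φ : ZMod b.k → Option b.V → Perm R) (κ : ZMod b.k → W → R)
      (hσ : ∀ r, Function.Injective fun w => (σ w, κ r w)) (π : R → Perm W)
      (s : (ZMod b.k × R) ⊕ (TF ⊕ {s // s ∈ A2}) → Perm ((Option b.V × R) ⊕ W)), Dec s ∧
      (∀ r l x y x' y', C1.Quiet1 b.t r x → C1.Quiet1 b.t r x' →
        (b.row h.ok h2 h3 hg r).fullπ (hσ r) (Φ r) (π l) l (.inl (x, y)) = .inl (x', y') →
        s (.inl (r, l)) (.inl (x, y)) = .inl (x', y')) ∧
      (∀ j x, x ≠ (C1.fplace b.t F j).q → x ≠ (C1.fplace b.t F j).x₀ →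
        s (.inr (.inl j)) x = two (OF j) (S (.inl j)) x) ∧
      (∀ (j : {s // s ∈ A2}) x,
        x ≠ (b.t.place (b.μ R) (lt 0) (lt 1) (lt 2) yv j.val).q →
        x ≠ (b.t.place (b.μ R) (lt 0) (lt 1) (lt 2) yv j.val).x₀ →
        s (.inr (.inr j)) x = two (stO h.rok true (b.μ R) (h.hμ h2 h3) b.t.w j.val)
          (S (.inr j)) x) := by
  refine C1.step3 h.ok h2 h3 hg h.rok h.ok4 hc A2 σ (fun _ i => b.Ks C i) ?_ ?_ ?_ hcG
    (Φ₀ h R) (b.μ R) (h.hμ h2 h3) (b.δ R) h.dOk h.hnat ?_ ?_ lt hσl hil OF hOFc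
    (push (fib (θ h R)) (stripE false (b.clC C))) hOF ?_ S hSc hS yv hyv hword F hF
  · intro r
    exact if_pos h.tD
  · intro r
    exact if_pos h.tC
  · intro r i
    rcases h.ty2 i with hd | hd
    · rw [hcF1 i hd]
      have hK : b.Ks C i = univ := if_pos hd
      rw [hK]
      rfl
    · rw [hcF2 i hd, card_Ks h h2 h3 C i hd]
  · intro r i n y
    exact Φ₀_G h h2 h3 r i n y
  · intro r n y
    exact Φ₀_C h r n y
  · intro Φ hΦ
    exact hfreeF h h2 h3 hg C Φ hΦ

end Step

end BX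

end SqIns
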