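import Pool.Agent.Lib.SqIns.BaseF

/-!
# Tables for the bases
-/

namespace SqIns

/-- a finite table -/
def tb1 : List (ℕ × ℤ) → ℕ → ℤ
  | [], _ => 0
  | (n, v) :: l, m => bif Nat.beq n m then v else tb1 l m

/-- a finite table with two arguments -/
def tb2 : List (ℕ × ℕ × ℤ) → ℕ → ℕ → ℤ
  | [], _, _ => 0
  | (r, p, v) :: l, r', p' => bif (Nat.beq r r' && Nat.beq p p') then v else tb2 l r' p'

end SqIns
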