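import Mathlib

/-!
# Squares of Hamilton cycles as permutations

A closed square on a finite set `V` is a permutation `s` of `V` which is a single cycle; its edges
are the pairs `{v, s v}` and `{v, s (s v)}`.  `E s` counts them (off the diagonal).
-/

open Finset Equiv

namespace SqIns

section
variable {V : Type*} [DecidableEq V]

/-- the pair `{u, v}` as a function, zero if `u = v` -/
def pr (u v : V) : Sym2 V → ℤ := if u = v then 0 else Pi.single s(u, v) 1

theorem pr_comm (u v : V) : pr u v = pr v u := by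
  unfold pr
  rw [Sym2.eq_swap]
  simp only [eq_comm]

@[simp] theorem pr_self (u : V) : pr u u = 0 := by simp [pr]

theorem pr_apply (u v : V) (e : Sym2 V) : pr u v e = if u ≠ v ∧ e = s(u, v) then 1 else 0 := by
  unfold pr
  by_cases h : u = v
  · simp [h]
  · by_cases h' : e = s(u, v)
    · subst h'; simp [h]
    · simp [h, h', Pi.single_apply]

theorem pr_nonneg (u v : V) (e : Sym2 V) : 0 ≤ pr u v e := by
  rw [pr_apply]; split_ifs <;> simp

/-- a single cycle through all points -/
def Closed (s : Perm V) : Prop := ∀ x y : V, s.SameCycle x y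

theorem Closed.inv {s : Perm V} (h : Closed s) : Closed s⁻¹ := fun x y => (h x y).inv

variable [Fintype V]

/-- edges of the square of a permutation -/
def E (s : Perm V) : Sym2 V → ℤ := ∑ v, (pr v (s v) + pr v (s (s v)))

theorem E_inv (s : Perm V) : E s⁻¹ = E s := by
  unfold E
  rw [sum_add_distrib, sum_add_distrib]
  congr 1
  · rw [← Equiv.sum_comp s]
    refine sum_congr rfl fun v _ => ?_
    rw [pr_comm]; simp
  · rw [← Equiv.sum_comp (s * s)]
    refine sum_congr rfl fun v _ => ?_
    rw [pr_comm]; simp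

theorem E_nonneg (s : Perm V) (e : Sym2 V) : 0 ≤ E s e := by
  unfold E
  rw [Finset.sum_apply]
  exact sum_nonneg fun v _ => add_nonneg (pr_nonneg _ _ _) (pr_nonneg _ _ _)

/-- all pairs of distinct points -/
def allPairs (V : Type*) [DecidableEq V] : Sym2 V → ℤ := fun e => if e.IsDiag then 0 else 1

/-- a decomposition into closed squares -/
structure Dec {ι : Type*} [Fintype ι] (s : ι → Perm V) : Prop where
  closed : ∀ i, Closed (s i)
  cover : ∑ i, E (s i) = allPairs V

/-- adjacency in the square of a permutation -/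
def Adj (s : Perm V) (u v : V) : Prop := s u = v ∨ s v = u ∨ s (s u) = v ∨ s (s v) = u

theorem E_pos_iff (s : Perm V) {u v : V} (h : u ≠ v) : 0 < E s s(u, v) ↔ Adj s u v := by
  unfold E Adj
  rw [Finset.sum_apply]
  constructor
  · intro hp
    by_contra hn
    push Not at hn
    have : ∀ w ∈ (univ : Finset V), (pr w (s w) + pr w (s (s w))) s(u, v) = 0 := by
      intro w _
      rw [Pi.add_apply, pr_apply, pr_apply, if_neg, if_neg, add_zero]
      · rintro ⟨_, h2⟩
        rw [Sym2.eq_iff] at h2
        rcases h2 with ⟨h2, h3⟩ | ⟨h2, h3⟩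
        · subst h2; exact hn.2.2.1 h3.symm
        · subst h3; exact hn.2.2.2 h2.symm
      · rintro ⟨_, h2⟩
        rw [Sym2.eq_iff] at h2
        rcases h2 with ⟨h2, h3⟩ | ⟨h2, h3⟩
        · subst h2; exact hn.1 h3.symm
        · subst h3; exact hn.2.1 h2.symm
    rw [sum_congr rfl this] at hp
    simp at hp
  · intro ha
    have key : ∀ w : V, 0 < (pr w (s w) + pr w (s (s w))) s(u, v) →
        0 < ∑ c, (pr c (s c) + pr c (s (s c))) s(u, v) := fun w hw =>
      lt_of_lt_of_le hw (single_le_sum (f := fun c => (pr c (s c) + pr c (s (s c))) s(u, v))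
        (fun c _ => add_nonneg (pr_nonneg _ _ _) (pr_nonneg _ _ _)) (mem_univ w))
    rcases ha with ha | ha | ha | ha
    · refine key u ?_
      rw [Pi.add_apply, pr_apply u (s u), if_pos ⟨by rw [ha]; exact h, by rw [ha]⟩]
      have := pr_nonneg u (s (s u)) s(u, v)
      omega
    · refine key v ?_
      rw [Pi.add_apply, pr_apply v (s v), if_pos ⟨by rw [ha]; exact h.symm, by rw [ha, Sym2.eq_swap]⟩]
      have := pr_nonneg v (s (s v)) s(u, v)
      omega
    · refine key u ?_
      rw [Pi.add_apply, pr_apply u (s (s u)), if_pos ⟨by rw [ha]; exact h, by rw [ha]⟩]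
      have := pr_nonneg u (s u) s(u, v)
      omega
    · refine key v ?_
      rw [Pi.add_apply, pr_apply v (s (s v)),
        if_pos ⟨by rw [ha]; exact h.symm, by rw [ha, Sym2.eq_swap]⟩]
      have := pr_nonneg v (s v) s(u, v)
      omega

theorem Dec.existsUnique {ι : Type*} [Fintype ι] {s : ι → Perm V} (h : Dec s) {u v : V}
    (huv : u ≠ v) : ∃! i, Adj (s i) u v := by
  classical
  have h1 : ∑ i, E (s i) s(u, v) = 1 := by
    have := congrFun h.cover s(u, v)
    rw [Finset.sum_apply] at this
    rw [this]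
    simp [allPairs, huv]
  have hex : ∃ i, 0 < E (s i) s(u, v) := by
    by_contra hn
    push Not at hn
    have : ∑ i, E (s i) s(u, v) ≤ 0 := sum_nonpos fun i _ => hn i
    omega
  obtain ⟨i, hi⟩ := hex
  refine ⟨i, (E_pos_iff _ huv).1 hi, fun j hj => ?_⟩
  by_contra hji
  have hj' := (E_pos_iff _ huv).2 hj
  have h2 : ∑ c ∈ ({i, j} : Finset ι), E (s c) s(u, v) ≤ ∑ c, E (s c) s(u, v) :=
    sum_le_sum_of_subset_of_nonneg (subset_univ _) fun c _ _ => E_nonneg _ _
  rw [Finset.sum_pair (Ne.symm hji)] at h2
  omega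

end

end SqIns
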