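import Pool.Agent.Lib.SqIns.Lift
import Pool.Agent.Lib.SqCyc.Dec3

/-!
# From closed squares to the graph statement and back
-/

open Finset Equiv

namespace SqIns

section Param

variable {V : Type*} [Fintype V]

theorem Closed.pow_mod {s : Perm V} (h : Closed s) (x : V) (m : ℕ) :
    (s ^ (m % Fintype.card V)) x = (s ^ m) x := by
  have := Function.iterate_mod_minimalPeriod_eq (f := s) (x := x) (n := m)
  rw [Perm.iterate_eq_pow, Perm.iterate_eq_pow, h.minimalPeriod_eq] at this
  exact this

/-- the points of a closed square in cyclic order -/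
theorem Closed.exists_equiv {s : Perm V} (h : Closed s) {n : ℕ} [NeZero n]
    (hn : Fintype.card V = n) : ∃ e : ZMod n ≃ V, ∀ i, s (e i) = e (i + 1) := by
  classical
  have hpos : 0 < Fintype.card V := by rw [hn]; exact Nat.pos_of_ne_zero (NeZero.ne n)
  obtain ⟨x₀⟩ := Fintype.card_pos_iff.1 hpos
  have hsurj : Function.Surjective (fun i : ZMod n => (s ^ i.val) x₀) := by
    intro y
    obtain ⟨m, hm⟩ := (h x₀ y).exists_nat_pow_eq
    refine ⟨(m : ZMod n), ?_⟩
    show (s ^ (m : ZMod n).val) x₀ = y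
    rw [ZMod.val_natCast, ← hn, h.pow_mod, hm]
  have hbij : Function.Bijective (fun i : ZMod n => (s ^ i.val) x₀) := by
    rw [Fintype.bijective_iff_surjective_and_card]
    exact ⟨hsurj, by rw [ZMod.card, hn]⟩
  refine ⟨Equiv.ofBijective _ hbij, fun i => ?_⟩
  show s ((s ^ i.val) x₀) = (s ^ (i + 1).val) x₀
  have h1 : (i + 1).val = (i.val + 1) % n := by
    rw [ZMod.val_add, ZMod.val_one_eq_one_mod, Nat.add_mod_mod]
  have h2 := h.pow_mod x₀ (i.val + 1)
  rw [hn] at h2
  rw [h1, h2, pow_succ', Perm.mul_apply]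

/-- the closed square with the points in the given cyclic order -/
def rot {n : ℕ} (e : ZMod n ≃ V) : Perm V := e.permCongr (Equiv.addRight 1)

omit [Fintype V] in
@[simp] theorem rot_apply {n : ℕ} (e : ZMod n ≃ V) (i : ZMod n) : rot e (e i) = e (i + 1) := by
  simp [rot, Equiv.permCongr_apply]

omit [Fintype V] in
theorem closed_rot {n : ℕ} [NeZero n] (e : ZMod n ≃ V) : Closed (rot e) := by
  have hp : ∀ (m : ℕ) (i : ZMod n), ((rot e) ^ m) (e i) = e (i + (m : ZMod n)) := by
    intro m
    induction m with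
    | zero => intro i; simp
    | succ m ih =>
      intro i
      rw [pow_succ', Perm.mul_apply, ih, rot_apply]
      congr 1
      push_cast
      ring
  intro x y
  refine ⟨((e.symm y - e.symm x).val : ℤ), ?_⟩
  rw [zpow_natCast]
  have := hp (e.symm y - e.symm x).val (e.symm x)
  rw [Equiv.apply_symm_apply] at this
  rw [this, ZMod.natCast_zmod_val, add_sub_cancel, Equiv.apply_symm_apply]

omit [Fintype V] in
theorem adj_iff_of_equiv {n : ℕ} {s : Perm V} (e : ZMod n ≃ V) (he : ∀ i, s (e i) = e (i + 1))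
    (i j : ZMod n) : Adj s (e i) (e j) ↔ (j - i = 1 ∨ j - i = 2) ∨ (i - j = 1 ∨ i - j = 2) := by
  unfold Adj
  rw [he, he, he, he, e.apply_eq_iff_eq, e.apply_eq_iff_eq, e.apply_eq_iff_eq,
    e.apply_eq_iff_eq]
  have h1 : (i + 1 = j) ↔ j - i = 1 := by
    rw [sub_eq_iff_eq_add, add_comm 1 i]; exact eq_comm
  have h2 : (j + 1 = i) ↔ i - j = 1 := by
    rw [sub_eq_iff_eq_add, add_comm 1 j]; exact eq_comm
  have h3 : (i + 1 + 1 = j) ↔ j - i = 2 := by
    rw [sub_eq_iff_eq_add, add_assoc, one_add_one_eq_two, add_comm 2 i]; exact eq_comm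
  have h4 : (j + 1 + 1 = i) ↔ i - j = 2 := by
    rw [sub_eq_iff_eq_add, add_assoc, one_add_one_eq_two, add_comm 2 j]; exact eq_comm
  rw [h1, h2, h3, h4]
  tauto

end Param

section Count

variable {V : Type*} [DecidableEq V] [Fintype V]

theorem E_diag (s : Perm V) (e : Sym2 V) (he : e.IsDiag) : E s e = 0 := by
  unfold E
  rw [Finset.sum_apply]
  refine sum_eq_zero fun w _ => ?_
  have h0 : ∀ x y : V, pr x y e = 0 := by
    intro x y
    rw [pr_apply, if_neg]
    rintro ⟨h1, rfl⟩
    exact h1 (by simpa using he)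
  rw [Pi.add_apply, h0, h0, add_zero]

theorem sum_pr_apply (s : Perm V) {u v : V} (huv : u ≠ v) :
    ∑ w, pr w (s w) s(u, v) = (if s u = v then 1 else 0) + (if s v = u then 1 else 0) := by
  have h1 : ∀ w, pr w (s w) s(u, v) =
      (if w = u then (if s u = v then 1 else 0) else 0) +
      (if w = v then (if s v = u then 1 else 0) else 0) := by
    intro w
    rw [pr_apply]
    by_cases hu : w = u
    · subst hu
      rw [if_pos rfl, if_neg huv, add_zero]
      by_cases hs : s w = v
      · rw [if_pos hs, if_pos]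
        exact ⟨by rw [hs]; exact huv, by rw [hs]⟩
      · rw [if_neg hs, if_neg]
        rintro ⟨_, h⟩
        rw [Sym2.eq_iff] at h
        rcases h with ⟨_, h⟩ | ⟨_, h⟩
        · exact hs h.symm
        · exact huv h.symm
    · rw [if_neg hu, zero_add]
      by_cases hv : w = v
      · subst hv
        rw [if_pos rfl]
        by_cases hs : s w = u
        · rw [if_pos hs, if_pos]
          exact ⟨by rw [hs]; exact huv.symm, by rw [hs, Sym2.eq_swap]⟩
        · rw [if_neg hs, if_neg]
          rintro ⟨_, h⟩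
          rw [Sym2.eq_iff] at h
          rcases h with ⟨h, _⟩ | ⟨h, _⟩
          · exact huv h
          · exact hs h.symm
      · rw [if_neg hv, if_neg]
        rintro ⟨_, h⟩
        rw [Sym2.eq_iff] at h
        rcases h with ⟨h, _⟩ | ⟨_, h⟩
        · exact hu h.symm
        · exact hv h.symm
  rw [sum_congr rfl fun w _ => h1 w, sum_add_distrib, sum_ite_eq' univ u, sum_ite_eq' univ v]
  simp

theorem E_apply (s : Perm V) {u v : V} (huv : u ≠ v) :
    E s s(u, v) = ((if s u = v then 1 else 0) + (if s v = u then 1 else 0)) +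
      ((if s (s u) = v then 1 else 0) + (if s (s v) = u then 1 else 0)) := by
  unfold E
  rw [Finset.sum_apply]
  simp only [Pi.add_apply]
  rw [sum_add_distrib, sum_pr_apply s huv]
  congr 1
  exact sum_pr_apply (s * s) huv

instance (s : Perm V) (u v : V) : Decidable (Adj s u v) :=
  inferInstanceAs (Decidable (s u = v ∨ s v = u ∨ s (s u) = v ∨ s (s v) = u))

theorem Closed.E_eq_one {s : Perm V} (h : Closed s) (hn : 5 ≤ Fintype.card V) {u v : V}
    (huv : u ≠ v) : E s s(u, v) = if Adj s u v then 1 else 0 := by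
  have h1 := fun x => h.ne1 (by omega) x
  have h2 := fun x => h.ne2 (by omega) x
  have h3 := fun x => h.ne3 (by omega) x
  have h4 : ∀ x, s (s (s (s x))) ≠ x := by
    intro x
    have := h.pow_ne x (n := 4) (by norm_num) (by omega)
    rwa [show (4 : ℕ) = 1 + 1 + 1 + 1 by norm_num, pow_succ, pow_succ, pow_succ, pow_one] at this
  rw [E_apply s huv]
  unfold Adj
  by_cases a1 : s u = v
  · have b2 : ¬ s v = u := fun hh => h2 u (by rw [a1, hh])
    have b3 : ¬ s (s u) = v := fun hh => h1 v (by rw [a1] at hh; exact hh)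
    have b4 : ¬ s (s v) = u := fun hh => h3 u (by rw [a1, hh])
    simp [a1, b2, b4]
    exact fun hh => b3 (by rw [a1]; exact hh)
  · by_cases a2 : s v = u
    · have b3 : ¬ s (s u) = v := fun hh => h3 v (by rw [a2, hh])
      have b4 : ¬ s (s v) = u := fun hh => h1 u (by rw [a2] at hh; exact hh)
      simp [a1, a2, b3]
      exact fun hh => b4 (by rw [a2]; exact hh)
    · by_cases a3 : s (s u) = v
      · have b4 : ¬ s (s v) = u := fun hh => h4 u (by rw [a3, hh])
        simp [a1, a2, a3, b4]
      · simp [a1, a2, a3]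

theorem sum_pr (u v : V) (huv : u ≠ v) : ∑ e : Sym2 V, pr u v e = 1 := by
  rw [sum_eq_single s(u, v)]
  · rw [pr_apply, if_pos ⟨huv, rfl⟩]
  · intro e _ he
    rw [pr_apply, if_neg]
    exact fun h => he h.2
  · simp

theorem Closed.sum_E {s : Perm V} (h : Closed s) (hn : 3 ≤ Fintype.card V) :
    ∑ e : Sym2 V, E s e = 2 * (Fintype.card V : ℤ) := by
  have h1 := fun x => h.ne1 (by omega) x
  have h2 := fun x => h.ne2 (by omega) x
  unfold E
  simp only [Finset.sum_apply]
  rw [sum_comm]
  have : ∀ v : V, ∑ e : Sym2 V, (pr v (s v) + pr v (s (s v))) e = 2 := by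
    intro v
    simp only [Pi.add_apply]
    rw [sum_add_distrib, sum_pr _ _ (h1 v).symm, sum_pr _ _ (h2 v).symm]
    norm_num
  rw [sum_congr rfl fun v _ => this v, sum_const, card_univ, nsmul_eq_mul, mul_comm]

theorem two_mul_sum_allPairs : 2 * ∑ e : Sym2 V, allPairs V e =
    (Fintype.card V : ℤ) * ((Fintype.card V : ℤ) - 1) := by
  unfold allPairs
  have h1 : ∑ e : Sym2 V, (if e.IsDiag then (0 : ℤ) else 1) =
      ((univ.filter fun e : Sym2 V => ¬ e.IsDiag).card : ℤ) := by
    rw [card_filter]
    push_cast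
    refine sum_congr rfl fun e _ => ?_
    by_cases he : e.IsDiag <;> simp [he]
  rw [h1]
  have h2 : (univ.filter fun e : Sym2 V => ¬ e.IsDiag).card = (Fintype.card V).choose 2 := by
    rw [← Sym2.card_subtype_not_diag, Fintype.card_subtype]
  rw [h2]
  have h3 := Nat.choose_two_right (Fintype.card V)
  have h4 : 2 ∣ Fintype.card V * (Fintype.card V - 1) := by
    rcases Nat.even_or_odd (Fintype.card V) with h | h
    · exact Dvd.dvd.mul_right h.two_dvd _
    · refine Dvd.dvd.mul_left ?_ _
      obtain ⟨m, hm⟩ := h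
      exact ⟨m, by omega⟩
  have h5 : 2 * (Fintype.card V).choose 2 = Fintype.card V * (Fintype.card V - 1) := by
    rw [h3, Nat.mul_div_cancel' h4]
  rcases Nat.eq_zero_or_pos (Fintype.card V) with h0 | h0
  · rw [h0]; simp
  · have : ((Fintype.card V - 1 : ℕ) : ℤ) = (Fintype.card V : ℤ) - 1 := by
      push_cast [Nat.cast_sub h0]; ring
    rw [← this]
    exact_mod_cast h5

/-- the number of squares -/
theorem Dec.card {ι : Type*} [Fintype ι] {s : ι → Perm V} (h : Dec s)
    (hn : 3 ≤ Fintype.card V) : 4 * Fintype.card ι + 1 = Fintype.card V := by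
  have h1 : ∑ e : Sym2 V, (∑ i, E (s i)) e = ∑ e : Sym2 V, allPairs V e := by rw [h.cover]
  simp only [Finset.sum_apply] at h1
  rw [sum_comm, sum_congr rfl fun i _ => (h.closed i).sum_E hn, sum_const, card_univ,
    nsmul_eq_mul] at h1
  have h2 := two_mul_sum_allPairs (V := V)
  rw [← h1] at h2
  have hc : (0 : ℤ) < Fintype.card V := by exact_mod_cast (by omega : 0 < Fintype.card V)
  have h3 : (Fintype.card V : ℤ) * (4 * (Fintype.card ι : ℤ)) =
      (Fintype.card V : ℤ) * ((Fintype.card V : ℤ) - 1) := by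
    rw [← h2]; ring
  have h4 := mul_left_cancel₀ hc.ne' h3
  omega

/-- covering every pair at least once with the right number of closed squares is enough -/
theorem dec_of_cover {ι : Type*} [Fintype ι] {s : ι → Perm V} (h : ∀ i, Closed (s i))
    (hn : 3 ≤ Fintype.card V) (hc : 4 * Fintype.card ι + 1 ≤ Fintype.card V)
    (hcov : ∀ u v : V, u ≠ v → ∃ i, Adj (s i) u v) : Dec s where
  closed := h
  cover := by
    have h1 : ∀ e : Sym2 V, allPairs V e ≤ (∑ i, E (s i)) e := by
      intro e
      rw [Finset.sum_apply]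
      induction e with
      | _ u v =>
        by_cases huv : u = v
        · have : allPairs V s(u, v) = 0 := by simp [allPairs, huv]
          rw [this]
          exact sum_nonneg fun i _ => E_nonneg _ _
        · have : allPairs V s(u, v) = 1 := by simp [allPairs, huv]
          rw [this]
          obtain ⟨i, hi⟩ := hcov u v huv
          have h2 := (E_pos_iff (s i) huv).2 hi
          have h3 : E (s i) s(u, v) ≤ ∑ j, E (s j) s(u, v) :=
            single_le_sum (f := fun j => E (s j) s(u, v)) (fun j _ => E_nonneg _ _) (mem_univ i)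
          omega
    have h2 : ∑ e : Sym2 V, (∑ i, E (s i)) e ≤ ∑ e : Sym2 V, allPairs V e := by
      simp only [Finset.sum_apply]
      rw [sum_comm, sum_congr rfl fun i _ => (h i).sum_E hn, sum_const, card_univ, nsmul_eq_mul]
      have h3 := two_mul_sum_allPairs (V := V)
      have h4 : (4 * (Fintype.card ι : ℤ)) ≤ (Fintype.card V : ℤ) - 1 := by
        have : (4 * Fintype.card ι + 1 : ℤ) ≤ (Fintype.card V : ℤ) := by exact_mod_cast hc
        omega
      have h5 : (0 : ℤ) ≤ Fintype.card V := by positivity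
      nlinarith [mul_le_mul_of_nonneg_left h4 h5]
    have h3 : ∑ e : Sym2 V, allPairs V e = ∑ e : Sym2 V, (∑ i, E (s i)) e :=
      le_antisymm (sum_le_sum fun e _ => h1 e) h2
    have h4 := (sum_eq_sum_iff_of_le (s := univ) fun e _ => h1 e).1 h3
    funext e
    exact (h4 e (mem_univ e)).symm

end Count

section Graph

variable {V : Type*}

/-- the graph of a closed square -/
def graph (s : Perm V) : SimpleGraph V := SimpleGraph.fromRel (fun u v => s u = v ∨ s (s u) = v)

theorem graph_adj (s : Perm V) (u v : V) : (graph s).Adj u v ↔ u ≠ v ∧ Adj s u v := by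
  unfold graph Adj
  rw [SimpleGraph.fromRel_adj]
  tauto

variable [Fintype V]

theorem Closed.graph_iso {s : Perm V} (h : Closed s) {n : ℕ} [NeZero n]
    (hn : Fintype.card V = n) : Nonempty (graph s ≃g SqCyc.sqCycle n) := by
  obtain ⟨e, he⟩ := h.exists_equiv hn
  refine ⟨⟨e.symm, ?_⟩⟩
  intro a b
  obtain ⟨i, rfl⟩ := e.surjective a
  obtain ⟨j, rfl⟩ := e.surjective b
  rw [Equiv.symm_apply_apply, Equiv.symm_apply_apply, graph_adj, adj_iff_of_equiv e he]
  unfold SqCyc.sqCycle
  rw [SimpleGraph.fromRel_adj, e.injective.ne_iff]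

/-- a decomposition into closed squares is a decomposition of the complete graph -/
theorem Dec.decomposes [DecidableEq V] {ι : Type*} [Fintype ι] {s : ι → Perm V} (h : Dec s)
    {k : ℕ} (hι : Fintype.card ι = k) (hV : Fintype.card V = 4 * k + 1) :
    SqCyc.Decomposes (4 * k + 1) := by
  have e : V ≃ Fin (4 * k + 1) := Fintype.equivFinOfCardEq hV
  have g : Fin ((4 * k + 1 - 1) / 4) ≃ ι :=
    (finCongr (by omega : (4 * k + 1 - 1) / 4 = k)).trans (Fintype.equivFinOfCardEq hι).symm
  have h' := h.transport e g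
  refine ⟨fun b => graph (e.permCongr (s (g b))), fun b => ?_, fun u v huv => ?_⟩
  · exact (h'.closed b).graph_iso (by simp)
  · obtain ⟨i, hi, hu⟩ := h'.existsUnique huv
    refine ⟨i, (graph_adj _ _ _).2 ⟨huv, hi⟩, fun j hj => hu j ((graph_adj _ _ _).1 hj).2⟩

/-- the converse -/
theorem exists_dec [DecidableEq V] {ι : Type*} [Fintype ι] {k : ℕ} (hι : Fintype.card ι = k)
    (hV : Fintype.card V = 4 * k + 1) (h : SqCyc.Decomposes (4 * k + 1)) :
    ∃ s : ι → Perm V, Dec s := by
  have e : V ≃ Fin (4 * k + 1) := Fintype.equivFinOfCardEq hV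
  have g : Fin ((4 * k + 1 - 1) / 4) ≃ ι :=
    (finCongr (by omega : (4 * k + 1 - 1) / 4 = k)).trans (Fintype.equivFinOfCardEq hι).symm
  obtain ⟨B, hB, hcov⟩ := h
  have φ := fun b => (hB b).some
  have hD : Dec (fun b => rot ((φ b).toEquiv.symm)) := by
    rcases Nat.eq_zero_or_pos k with rfl | hk
    · refine ⟨fun b => closed_rot _, ?_⟩
      funext e
      rw [Finset.sum_apply]
      have he : e.IsDiag := by
        induction e with
        | _ u v =>
          rw [Sym2.mk_isDiag_iff]
          exact Fin.ext (by have := u.isLt; have := v.isLt; omega)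
      rw [sum_eq_zero fun b _ => E_diag _ _ he]
      simp [allPairs, he]
    · refine dec_of_cover (fun b => closed_rot _) ?_ ?_ ?_
      · rw [Fintype.card_fin]; omega
      · rw [Fintype.card_fin, Fintype.card_fin]; omega
      · intro u v huv
        obtain ⟨b, hb, -⟩ := hcov u v huv
        refine ⟨b, ?_⟩
        have h1 : (SqCyc.sqCycle (4 * k + 1)).Adj (φ b u) (φ b v) := (φ b).map_adj_iff.2 hb
        unfold SqCyc.sqCycle at h1
        rw [SimpleGraph.fromRel_adj] at h1
        have h2 := adj_iff_of_equiv (φ b).toEquiv.symm (rot_apply _) (φ b u) (φ b v)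
        have h3 : ∀ x, (φ b).toEquiv.symm (φ b x) = x := fun x => (φ b).toEquiv.symm_apply_apply x
        rw [h3, h3] at h2
        exact h2.2 h1.2
  exact ⟨_, hD.transport e.symm g.symm⟩

theorem decomposes_iff (k : ℕ) : SqCyc.Decomposes (4 * k + 1) ↔
    ∃ s : Fin k → Perm (Fin (4 * k + 1)), Dec s :=
  ⟨fun h => exists_dec (Fintype.card_fin k) (Fintype.card_fin _) h,
    fun ⟨_, h⟩ => h.decomposes (Fintype.card_fin k) (Fintype.card_fin _)⟩

end Graph

end SqIns
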