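import Pool.Agent.Lib.SqIns.Ops

/-!
# Words for the next level

`PWG ι U nF nI nA c`: there is a decomposition of the complete graph on `U` into closed squares
(numbered by `ι`), every square contains a word (four consecutive points); `nF` squares have a word
`(I, C, A, A)`, where `C ⊆ I` is a set of at most `c` centres, and the words of the other squares are
`(x, x, x, I)`: all letters of these words are pairwise different, the first three letters are not in
`I` or `A` (private), the last one is in `I`.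
-/

open Finset Equiv

namespace SqIns

/-- four consecutive points -/
def Fwd {U : Type*} (s : Perm U) (w : Fin 4 → U) : Prop :=
  s (w 0) = w 1 ∧ s (w 1) = w 2 ∧ s (w 2) = w 3

/-- words for the next level -/
def PWG (ι U : Type*) [Fintype ι] [DecidableEq ι] [Fintype U] [DecidableEq U] (nF nI nA c : ℕ) :
    Prop :=
  ∃ sq : ι → Perm U, Dec sq ∧ ∃ J : Finset ι, J.card = nF ∧ ∃ I A C : Finset U,
    Disjoint I A ∧ C ⊆ I ∧ I.card ≤ nI ∧ A.card ≤ nA ∧ C.card ≤ c ∧
    ∃ w : ι → Fin 4 → U, (∀ j, Fwd (sq j) (w j)) ∧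
      (∀ j ∈ J, w j 0 ∈ I ∧ w j 1 ∈ C ∧ w j 2 ∈ A ∧ w j 3 ∈ A) ∧
      (∀ j ∉ J, w j 3 ∈ I ∧ ∀ i, i ≠ 3 → w j i ∉ I ∧ w j i ∉ A) ∧
      (∀ j ∉ J, ∀ j' ∉ J, ∀ i i', w j i = w j' i' → j = j' ∧ i = i')

/-- words for the next level, in a decomposition of the complete graph on `4T+1` points -/
def PW (T nF nI nA c : ℕ) : Prop := PWG (Fin T) (Fin (4 * T + 1)) nF nI nA c

section

variable {ι U : Type*} [Fintype ι] [DecidableEq ι] [Fintype U] [DecidableEq U]

theorem PWG.mono {nF nI nA c nI' nA' c' : ℕ} (h : PWG ι U nF nI nA c) (hI : nI ≤ nI')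
    (hA : nA ≤ nA') (hc : c ≤ c') : PWG ι U nF nI' nA' c' := by
  obtain ⟨sq, h1, J, h2, I, A, C, h3, h4, h5, h6, h7, h8⟩ := h
  exact ⟨sq, h1, J, h2, I, A, C, h3, h4, h5.trans hI, h6.trans hA, h7.trans hc, h8⟩

theorem PW.mono {T nF nI nA c nI' nA' c' : ℕ} (h : PW T nF nI nA c) (hI : nI ≤ nI')
    (hA : nA ≤ nA') (hc : c ≤ c') : PW T nF nI' nA' c' :=
  PWG.mono h hI hA hc

/-- the direction of every square can be chosen -/
theorem PWG.of_or {s : ι → Perm U} (hs : Dec s) {J : Finset ι} {I A C : Finset U}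
    (hIA : Disjoint I A) (hCI : C ⊆ I) {w : ι → Fin 4 → U}
    (hw : ∀ j, Fwd (s j) (w j) ∨ Fwd (s j)⁻¹ (w j))
    (hF : ∀ j ∈ J, w j 0 ∈ I ∧ w j 1 ∈ C ∧ w j 2 ∈ A ∧ w j 3 ∈ A)
    (hG : ∀ j ∉ J, w j 3 ∈ I ∧ ∀ i, i ≠ 3 → w j i ∉ I ∧ w j i ∉ A)
    (hGi : ∀ j ∉ J, ∀ j' ∉ J, ∀ i i', w j i = w j' i' → j = j' ∧ i = i') :
    PWG ι U J.card I.card A.card C.card := by
  classical
  refine ⟨fun j => if Fwd (s j) (w j) then s j else (s j)⁻¹, ⟨?_, ?_⟩, J, rfl, I, A, C, hIA, hCI,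
    le_rfl, le_rfl, le_rfl, w, ?_, hF, hG, hGi⟩
  · intro j
    by_cases h : Fwd (s j) (w j)
    · simp only [h, if_true]
      exact hs.closed j
    · simp only [h, if_false]
      exact (hs.closed j).inv
  · rw [← hs.cover]
    refine sum_congr rfl fun j _ => ?_
    by_cases h : Fwd (s j) (w j)
    · simp only [h, if_true]
    · simp only [h, if_false]
      exact E_inv _
  · intro j
    by_cases h : Fwd (s j) (w j)
    · simp only [h, if_true]
    · simp only [h, if_false]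
      exact (hw j).resolve_left h

theorem PWG.transport {ι' U' : Type*} [Fintype ι'] [DecidableEq ι'] [Fintype U'] [DecidableEq U']
    {nF nI nA c : ℕ} (h : PWG ι U nF nI nA c) (e : ι ≃ ι') (f : U ≃ U') :
    PWG ι' U' nF nI nA c := by
  classical
  obtain ⟨sq, h1, J, h2, I, A, C, h3, h4, h5, h6, h7, w, hw, hF, hG, hGi⟩ := h
  refine ⟨fun j => f.permCongr (sq (e.symm j)), h1.transport f e.symm, J.map e.toEmbedding, ?_,
    I.map f.toEmbedding, A.map f.toEmbedding, C.map f.toEmbedding, ?_, ?_, ?_, ?_, ?_,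
    fun j i => f (w (e.symm j) i), ?_, ?_, ?_, ?_⟩
  · rw [card_map, h2]
  · exact (disjoint_map f.toEmbedding).2 h3
  · exact map_subset_map.2 h4
  · rw [card_map]; exact h5
  · rw [card_map]; exact h6
  · rw [card_map]; exact h7
  · intro j
    obtain ⟨a1, a2, a3⟩ := hw (e.symm j)
    refine ⟨?_, ?_, ?_⟩ <;>
      simp only [Equiv.permCongr_apply, Equiv.symm_apply_apply, a1, a2, a3]
  · intro j hj
    rw [mem_map_equiv] at hj
    obtain ⟨a1, a2, a3, a4⟩ := hF _ hj
    refine ⟨?_, ?_, ?_, ?_⟩ <;> exact mem_map_of_mem _ (by assumption)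
  · intro j hj
    rw [mem_map_equiv] at hj
    obtain ⟨a1, a2⟩ := hG _ hj
    refine ⟨mem_map_of_mem _ a1, fun i hi => ?_⟩
    rw [mem_map_equiv, mem_map_equiv, Equiv.symm_apply_apply]
    exact a2 i hi
  · intro j hj j' hj' i i' h
    rw [mem_map_equiv] at hj hj'
    obtain ⟨a1, a2⟩ := hGi _ hj _ hj' i i' (f.injective h)
    exact ⟨e.symm.injective a1, a2⟩

theorem PWG.toPW {T nF nI nA c : ℕ} (h : PWG ι U nF nI nA c) (h1 : Fintype.card ι = T)
    (h2 : Fintype.card U = 4 * T + 1) : PW T nF nI nA c :=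
  h.transport (Fintype.equivFinOfCardEq h1) (Fintype.equivFinOfCardEq h2)

end

section Step

variable {V R W ι T : Type*} [Fintype V] [DecidableEq V] [Fintype R] [DecidableEq R] [Fintype W]
  [DecidableEq W] [Fintype ι] [DecidableEq ι] [Fintype T] [DecidableEq T]

/-- a point over a finite column -/
def emU (V R W : Type*) : V × R → (Option V × R) ⊕ W := fun p => .inl (some p.1, p.2)

omit [Fintype V] [DecidableEq V] [Fintype R] [DecidableEq R] [Fintype W] [DecidableEq W] in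
theorem emU_injective : Function.Injective (emU V R W) := by
  rintro ⟨v, y⟩ ⟨v', y'⟩ h
  have h1 := Sum.inl_injective h
  rw [Prod.ext_iff] at h1
  exact Prod.ext (Option.some_injective _ h1.1) h1.2

/-- **The words of the next level.**  `cI`, `cA`: the columns of `I` and of `A`; `Y`: the other
letters of `I`; `cen`: the centres; `F`: the lifted squares with a word `(I, C, A, A)`.  All merged
squares have such a word. -/
theorem pwg_step {s : (ι × R) ⊕ T → Perm ((Option V × R) ⊕ W)} (hs : Dec s)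
    (cI cA : Finset V) (hIA : Disjoint cI cA) (Y : Finset (V × R)) (hYA : ∀ p ∈ Y, p.1 ∉ cA)
    (cen : Finset (V × R)) (hcI : ∀ p ∈ cen, p.1 ∈ cI ∨ p ∈ Y)
    (F : Finset (ι × R)) (w : (ι × R) ⊕ T → Fin 4 → V × R)
    (hw : ∀ j, Fwd (s j) (fun i => emU V R W (w j i)) ∨ Fwd (s j)⁻¹ fun i => emU V R W (w j i))
    (hF : ∀ p ∈ F, (w (.inl p) 0).1 ∈ cI ∧ w (.inl p) 1 ∈ cen ∧ (w (.inl p) 2).1 ∈ cA ∧
      (w (.inl p) 3).1 ∈ cA)
    (hT : ∀ j, (w (.inr j) 0).1 ∈ cI ∧ w (.inr j) 1 ∈ cen ∧ (w (.inr j) 2).1 ∈ cA ∧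
      (w (.inr j) 3).1 ∈ cA)
    (hG : ∀ p ∉ F, ((w (.inl p) 3).1 ∈ cI ∨ w (.inl p) 3 ∈ Y) ∧ ∀ i, i ≠ 3 →
      (w (.inl p) i).1 ∉ cI ∧ (w (.inl p) i).1 ∉ cA ∧ w (.inl p) i ∉ Y)
    (hGi : ∀ p ∉ F, ∀ p' ∉ F, ∀ i i', w (.inl p) i = w (.inl p') i' → p = p' ∧ i = i')
    {nI nA c : ℕ}
    (hnI : cI.card * Fintype.card R + Y.card ≤ nI)
    (hnA : cA.card * Fintype.card R ≤ nA) (hc : cen.card ≤ c) :
    PWG ((ι × R) ⊕ T) ((Option V × R) ⊕ W) (F.card + Fintype.card T) nI nA c := by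
  classical
  let em : V × R ↪ (Option V × R) ⊕ W := ⟨emU V R W, emU_injective⟩
  let I : Finset (V × R) := cI ×ˢ univ ∪ Y
  let A : Finset (V × R) := cA ×ˢ univ
  have memI : ∀ p : V × R, p ∈ I ↔ p.1 ∈ cI ∨ p ∈ Y := by
    intro p
    simp only [I, mem_union, mem_product, mem_univ, and_true]
  have memA : ∀ p : V × R, p ∈ A ↔ p.1 ∈ cA := by
    intro p
    simp only [A, mem_product, mem_univ, and_true]
  have hIA' : Disjoint I A := by
    rw [disjoint_left]
    intro p hp hp'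
    rw [memA] at hp'
    rcases (memI p).1 hp with h | h
    · exact (disjoint_left.1 hIA) h hp'
    · exact hYA p h hp'
  have hCI : cen ⊆ I := fun p hp => (memI p).2 (hcI p hp)
  have hIc : I.card ≤ nI := by
    refine le_trans (card_union_le _ _) (le_trans ?_ hnI)
    rw [card_product, card_univ]
  have hAc : A.card ≤ nA := by
    refine le_trans ?_ hnA
    rw [card_product, card_univ]
  have key := PWG.of_or hs (J := F.disjSum univ) (I := I.map em) (A := A.map em) (C := cen.map em)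
    ((disjoint_map em).2 hIA') (map_subset_map.2 hCI) (w := fun j i => em (w j i)) hw ?_ ?_ ?_
  · rw [card_map, card_map, card_map, card_disjSum, card_univ] at key
    exact key.mono hIc hAc hc
  · rintro (p | j) hj
    · rw [inl_mem_disjSum] at hj
      obtain ⟨a1, a2, a3, a4⟩ := hF p hj
      exact ⟨mem_map_of_mem _ ((memI _).2 (Or.inl a1)), mem_map_of_mem _ a2,
        mem_map_of_mem _ ((memA _).2 a3), mem_map_of_mem _ ((memA _).2 a4)⟩
    · obtain ⟨a1, a2, a3, a4⟩ := hT j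
      exact ⟨mem_map_of_mem _ ((memI _).2 (Or.inl a1)), mem_map_of_mem _ a2,
        mem_map_of_mem _ ((memA _).2 a3), mem_map_of_mem _ ((memA _).2 a4)⟩
  · rintro (p | j) hj
    · rw [inl_mem_disjSum] at hj
      obtain ⟨b1, b2⟩ := hG p hj
      refine ⟨mem_map_of_mem _ ((memI _).2 b1), fun i hi => ?_⟩
      obtain ⟨a1, a2, a3⟩ := b2 i hi
      rw [mem_map' em, mem_map' em, memI, memA]
      exact ⟨fun h => h.elim a1 a3, a2⟩
    · exact absurd (inr_mem_disjSum.2 (mem_univ j)) hj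
  · rintro (p | j) hj (p' | j') hj' i i' h
    · rw [inl_mem_disjSum] at hj hj'
      obtain ⟨a1, a2⟩ := hGi p hj p' hj' i i' (em.injective h)
      exact ⟨congrArg Sum.inl a1, a2⟩
    · exact absurd (inr_mem_disjSum.2 (mem_univ j')) hj'
    · exact absurd (inr_mem_disjSum.2 (mem_univ j)) hj
    · exact absurd (inr_mem_disjSum.2 (mem_univ j)) hj

end Step

end SqIns
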