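import Pool.Agent.Lib.SqIns.Moves
import Pool.Agent.Lib.SqIns.PWords

/-!
# Words in the lifts of a base square

Four consecutive columns of a base square without a gap between them give, in every lift, words with
a prescribed level over one of the columns (centre), or words which are disjoint for different lifts
(private words).
-/

open Finset Equiv

namespace SqIns

theorem Fwd.rev {U : Type*} {s : Perm U} {w : Fin 4 → U} (h : Fwd s fun i => w i.rev) :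
    Fwd s⁻¹ w := by
  obtain ⟨h1, h2, h3⟩ := h
  refine ⟨?_, ?_, ?_⟩
  · rw [Perm.inv_eq_iff_eq]; exact h3.symm
  · rw [Perm.inv_eq_iff_eq]; exact h2.symm
  · rw [Perm.inv_eq_iff_eq]; exact h1.symm

namespace Row

variable {X R I W : Type*} [Fintype X] [CommRing R] (ρ : Row X R I)

/-- no letters are inserted after this column -/
def Free (x : X) : Prop := ∀ i, ρ.B i ≠ x

/-- four consecutive columns without a gap between them -/
structure Cons (c : Fin 4 → X) : Prop where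
  h0 : ρ.s (c 0) = c 1
  h1 : ρ.s (c 1) = c 2
  h2 : ρ.s (c 2) = c 3
  f0 : ρ.Free (c 0)
  f1 : ρ.Free (c 1)
  f2 : ρ.Free (c 2)

/-- the sum of the seam before the column number `i` -/
def seam (c : Fin 4 → X) : Fin 4 → R
  | 0 => 0
  | 1 => ρ.τ (c 0)
  | 2 => ρ.τ (c 0) + ρ.τ (c 1)
  | 3 => ρ.τ (c 0) + ρ.τ (c 1) + ρ.τ (c 2)

/-- the levels of a pass over four consecutive columns -/
def lvl (c : Fin 4 → X) (l a : R) (i : Fin 4) : R :=
  a + (ρ.col (c i) - ρ.col (c 0)) * l + ρ.seam c i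

variable [DecidableEq X] [DecidableEq R] [DecidableEq W] {σ : W → I} {κ : W → R}
  (hσ : Function.Injective fun w => (σ w, κ w)) (Φ : X → Perm R) (π : Perm W)

theorem full_inl_of (l : R) {x : X} (hx : ρ.Free x) (y : R) :
    ρ.full hσ l (.inl (x, y)) =
      .inl (ρ.s x, y + ((ρ.col (ρ.s x) - ρ.col x) * l + ρ.τ x)) := by
  rw [full, ins_inl_of _ _ (fun w h => hx (σ w) (Prod.ext_iff.1 h).1), sq_apply]

theorem fullπ_inl_of (l : R) {x : X} (hx : ρ.Free x) (y : R) :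
    ρ.fullπ hσ Φ π l (.inl (x, Φ x y)) =
      .inl (ρ.s x, Φ (ρ.s x) (y + ((ρ.col (ρ.s x) - ρ.col x) * l + ρ.τ x))) := by
  have h : (Sum.inl (x, Φ x y) : (X × R) ⊕ W) = mvp Φ π (.inl (x, y)) := rfl
  rw [h]
  unfold fullπ
  rw [Equiv.permCongr_apply, Equiv.symm_apply_apply, ρ.full_inl_of hσ l hx]
  rfl

variable {ρ}

/-- the words over four consecutive columns in one lift -/
theorem Cons.fwd {c : Fin 4 → X} (hc : ρ.Cons c) (l a : R) {Q : X → Prop} (hQ : ∀ i, Q (c i))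
    {s : Perm ((X × R) ⊕ W)}
    (hk : ∀ x y x' y', Q x → Q x' → ρ.fullπ hσ Φ π l (.inl (x, y)) = .inl (x', y') →
      s (.inl (x, y)) = .inl (x', y')) :
    Fwd s fun i => .inl (c i, Φ (c i) (ρ.lvl c l a i)) := by
  have step : ∀ (i j : Fin 4), ρ.s (c i) = c j → ρ.Free (c i) →
      ρ.lvl c l a j = ρ.lvl c l a i + ((ρ.col (c j) - ρ.col (c i)) * l + ρ.τ (c i)) →
      s (.inl (c i, Φ (c i) (ρ.lvl c l a i))) = .inl (c j, Φ (c j) (ρ.lvl c l a j)) := by
    intro i j h1 h2 h3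
    refine hk _ _ _ _ (hQ i) (hQ j) ?_
    rw [ρ.fullπ_inl_of hσ Φ π l h2, h1, h3]
  refine ⟨step 0 1 hc.h0 hc.f0 ?_, step 1 2 hc.h1 hc.f1 ?_, step 2 3 hc.h2 hc.f2 ?_⟩
  · unfold lvl seam
    ring
  · unfold lvl seam
    ring
  · unfold lvl seam
    ring

/-- the level over the column number `k` can be prescribed -/
theorem Cons.exists_centre {c : Fin 4 → X} (hc : ρ.Cons c) (l : R) {Q : X → Prop}
    (hQ : ∀ i, Q (c i)) {s : Perm ((X × R) ⊕ W)}
    (hk : ∀ x y x' y', Q x → Q x' → ρ.fullπ hσ Φ π l (.inl (x, y)) = .inl (x', y') →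
      s (.inl (x, y)) = .inl (x', y')) (k : Fin 4) (y₀ : R) :
    ∃ f : Fin 4 → R, f k = y₀ ∧ Fwd s fun i => .inl (c i, f i) := by
  let a : R := (Φ (c k)).symm y₀ - (ρ.col (c k) - ρ.col (c 0)) * l - ρ.seam c k
  refine ⟨fun i => Φ (c i) (ρ.lvl c l a i), ?_, hc.fwd hσ Φ π l a hQ hk⟩
  have h : ρ.lvl c l a k = (Φ (c k)).symm y₀ := by
    unfold lvl
    simp only [a]
    ring
  show Φ (c k) (ρ.lvl c l a k) = y₀
  rw [h, Equiv.apply_symm_apply]

/-- private words: disjoint for different lifts -/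
theorem Cons.exists_private {c : Fin 4 → X} (hc : ρ.Cons c) {Q : X → Prop} (hQ : ∀ i, Q (c i))
    (π : R → Perm W) {s : R → Perm ((X × R) ⊕ W)}
    (hk : ∀ l x y x' y', Q x → Q x' → ρ.fullπ hσ Φ (π l) l (.inl (x, y)) = .inl (x', y') →
      s l (.inl (x, y)) = .inl (x', y')) (γ : R) (hγ : ∀ i, IsUnit (γ + ρ.col (c i))) :
    ∃ f : R → Fin 4 → R, (∀ l, Fwd (s l) fun i => .inl (c i, f l i)) ∧
      ∀ i, Function.Injective fun l => f l i := by
  refine ⟨fun l i => Φ (c i) (ρ.lvl c l ((γ + ρ.col (c 0)) * l) i),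
    fun l => hc.fwd hσ Φ (π l) l _ hQ (hk l), ?_⟩
  intro i l l' h
  have h1 := (Φ (c i)).injective h
  have h2 : (γ + ρ.col (c i)) * l = (γ + ρ.col (c i)) * l' := by
    unfold lvl at h1
    linear_combination h1
  exact (hγ i).mul_left_cancel h2

end Row

namespace Row

variable {V R I W ι T : Type*} [Fintype V] [DecidableEq V] [CommRing R] [Fintype R]
  [DecidableEq R] [Fintype W] [DecidableEq W] [Fintype ι] [DecidableEq ι] [Fintype T]
  [DecidableEq T]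

/-- four columns of a base square, in the direction `d`, none of them disturbed -/
structure ConsD (ρ : Row (Option V) R I) (Q : Option V → Prop) (d : Bool) (c : Fin 4 → V) :
    Prop where
  cons : ρ.Cons fun i => some (c (if d then i else i.rev))
  quiet : ∀ i, Q (some (c i))

theorem ConsD.exists_centre {ρ : Row (Option V) R I} {Q : Option V → Prop} {d : Bool}
    {c : Fin 4 → V} (h : ρ.ConsD Q d c) {σ : W → I} {κ : W → R}
    (hσ : Function.Injective fun w => (σ w, κ w)) (Φ : Option V → Perm R) (π : Perm W) (l : R)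
    {s : Perm ((Option V × R) ⊕ W)}
    (hk : ∀ x y x' y', Q x → Q x' → ρ.fullπ hσ Φ π l (.inl (x, y)) = .inl (x', y') →
      s (.inl (x, y)) = .inl (x', y')) (y₀ : R) :
    ∃ w : Fin 4 → V × R, (∀ i, (w i).1 = c i) ∧ w 1 = (c 1, y₀) ∧
      (Fwd s (fun i => emU V R W (w i)) ∨ Fwd s⁻¹ fun i => emU V R W (w i)) := by
  cases d
  · obtain ⟨f, h1, h2⟩ := h.cons.exists_centre hσ Φ π l (fun i => h.quiet _) hk 2 y₀
    refine ⟨fun i => (c i, f i.rev), fun _ => rfl, ?_, Or.inr (Fwd.rev ?_)⟩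
    · show (c 1, f 2) = (c 1, y₀)
      rw [h1]
    · obtain ⟨a1, a2, a3⟩ := h2
      exact ⟨a1, a2, a3⟩
  · obtain ⟨f, h1, h2⟩ := h.cons.exists_centre hσ Φ π l (fun i => h.quiet _) hk 1 y₀
    refine ⟨fun i => (c i, f i), fun _ => rfl, ?_, Or.inl ?_⟩
    · show (c 1, f 1) = (c 1, y₀)
      rw [h1]
    · obtain ⟨a1, a2, a3⟩ := h2
      exact ⟨a1, a2, a3⟩

theorem ConsD.exists_private {ρ : Row (Option V) R I} {Q : Option V → Prop} {d : Bool}
    {c : Fin 4 → V} (h : ρ.ConsD Q d c) {σ : W → I} {κ : W → R}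
    (hσ : Function.Injective fun w => (σ w, κ w)) (Φ : Option V → Perm R) (π : R → Perm W)
    {s : R → Perm ((Option V × R) ⊕ W)}
    (hk : ∀ l x y x' y', Q x → Q x' → ρ.fullπ hσ Φ (π l) l (.inl (x, y)) = .inl (x', y') →
      s l (.inl (x, y)) = .inl (x', y')) (γ : R) (hγ : ∀ i, IsUnit (γ + ρ.col (some (c i)))) :
    ∃ w : R → Fin 4 → V × R, (∀ l i, (w l i).1 = c i) ∧
      (∀ l l' i, w l i = w l' i → l = l') ∧
      ∀ l, Fwd (s l) (fun i => emU V R W (w l i)) ∨ Fwd (s l)⁻¹ fun i => emU V R W (w l i) := by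
  cases d
  · obtain ⟨f, h1, h2⟩ := h.cons.exists_private hσ Φ (fun i => h.quiet _) π hk γ (fun i => hγ _)
    refine ⟨fun l i => (c i, f l i.rev), fun _ _ => rfl, ?_, fun l => Or.inr (Fwd.rev ?_)⟩
    · intro l l' i hl
      exact h2 i.rev (Prod.ext_iff.1 hl).2
    · obtain ⟨a1, a2, a3⟩ := h1 l
      exact ⟨a1, a2, a3⟩
  · obtain ⟨f, h1, h2⟩ := h.cons.exists_private hσ Φ (fun i => h.quiet _) π hk γ (fun i => hγ _)
    refine ⟨fun l i => (c i, f l i), fun _ _ => rfl, ?_, fun l => Or.inl ?_⟩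
    · intro l l' i hl
      exact h2 i (Prod.ext_iff.1 hl).2
    · obtain ⟨a1, a2, a3⟩ := h1 l
      exact ⟨a1, a2, a3⟩

/-- **The words of the next level from words in the base squares.**  `(r, l) ∈ F`: the lift `l` of
the row `r` has a word `(I, C, A, A)` over the columns `cF r`, centre `(cF r 1, yF r)`; the other
lifts have words `(x, x, x, I)` over the columns `cG r`; `out`: the rows in which the last column is
not a column of `I`. -/
theorem pwg_rows (ρ : ι → Row (Option V) R I) (σ : W → I) (κ : ι → W → R)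
    (hσ : ∀ r, Function.Injective fun w => (σ w, κ r w)) (Φ : ι → Option V → Perm R)
    (π : R → Perm W) {s : (ι × R) ⊕ T → Perm ((Option V × R) ⊕ W)} (hs : Dec s)
    (Q : ι → Option V → Prop)
    (hk : ∀ r l x y x' y', Q r x → Q r x' →
      (ρ r).fullπ (hσ r) (Φ r) (π l) l (.inl (x, y)) = .inl (x', y') →
      s (.inl (r, l)) (.inl (x, y)) = .inl (x', y'))
    (cI cA : Finset V) (hIA : Disjoint cI cA) (cen : Finset (V × R)) (hcA : ∀ p ∈ cen, p.1 ∉ cA)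
    (F : Finset (ι × R)) (cF : ι → Fin 4 → V) (dF : ι → Bool) (yF : ι → R)
    (hF : ∀ r, (∃ l, (r, l) ∈ F) → (ρ r).ConsD (Q r) (dF r) (cF r) ∧ cF r 0 ∈ cI ∧
      (cF r 1, yF r) ∈ cen ∧ cF r 2 ∈ cA ∧ cF r 3 ∈ cA)
    (out : Finset ι) (cG : ι → Fin 4 → V) (dG : ι → Bool) (γ : ι → R)
    (hG : ∀ r, (∃ l, (r, l) ∉ F) → (ρ r).ConsD (Q r) (dG r) (cG r) ∧
      (∀ i, IsUnit (γ r + (ρ r).col (some (cG r i)))) ∧
      cG r 3 ∉ cA ∧ (cG r 3 ∈ cI ∨ r ∈ out) ∧
      ∀ i, i ≠ 3 → cG r i ∉ cI ∧ cG r i ∉ cA ∧ ∀ y, (cG r i, y) ∉ cen)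
    (hGi : ∀ r r', (∃ l, (r, l) ∉ F) → (∃ l, (r', l) ∉ F) → ∀ i i', cG r i = cG r' i' →
      r = r' ∧ i = i')
    (wT : T → Fin 4 → V × R)
    (hwT : ∀ j, Fwd (s (.inr j)) (fun i => emU V R W (wT j i)) ∨
      Fwd (s (.inr j))⁻¹ fun i => emU V R W (wT j i))
    (hT : ∀ j, (wT j 0).1 ∈ cI ∧ wT j 1 ∈ cen ∧ (wT j 2).1 ∈ cA ∧ (wT j 3).1 ∈ cA)
    {nI nA c : ℕ}
    (hnI : cI.card * Fintype.card R + ((cen.filter fun p => p.1 ∉ cI).card +
      ((out ×ˢ (univ : Finset R)).filter fun p => p ∉ F).card) ≤ nI)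
    (hnA : cA.card * Fintype.card R ≤ nA) (hc : cen.card ≤ c) :
    PWG ((ι × R) ⊕ T) ((Option V × R) ⊕ W) (F.card + Fintype.card T) nI nA c := by
  classical
  -- words of the lifts in `F`
  have hF' : ∀ p : ι × R, ∃ w : Fin 4 → V × R, p ∈ F → (∀ i, (w i).1 = cF p.1 i) ∧
      w 1 = (cF p.1 1, yF p.1) ∧ (Fwd (s (.inl p)) (fun i => emU V R W (w i)) ∨
        Fwd (s (.inl p))⁻¹ fun i => emU V R W (w i)) := by
    rintro ⟨r, l⟩
    by_cases hp : (r, l) ∈ F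
    · obtain ⟨w, hw⟩ := (hF r ⟨l, hp⟩).1.exists_centre (hσ r) (Φ r) (π l) l
        (fun x y x' y' => hk r l x y x' y') (yF r)
      exact ⟨w, fun _ => hw⟩
    · exact ⟨fun i => (cF r i, yF r), fun h => absurd h hp⟩
  choose wF hwF using hF'
  have hG' : ∀ r : ι, ∃ w : R → Fin 4 → V × R, (∃ l, (r, l) ∉ F) →
      (∀ l i, (w l i).1 = cG r i) ∧ (∀ l l' i, w l i = w l' i → l = l') ∧
      ∀ l, Fwd (s (.inl (r, l))) (fun i => emU V R W (w l i)) ∨
        Fwd (s (.inl (r, l)))⁻¹ fun i => emU V R W (w l i) := by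
    intro r
    by_cases hr : ∃ l, (r, l) ∉ F
    · obtain ⟨w, hw⟩ := (hG r hr).1.exists_private (hσ r) (Φ r) π
        (fun l x y x' y' => hk r l x y x' y') (γ r) (hG r hr).2.1
      exact ⟨w, fun _ => hw⟩
    · exact ⟨fun l i => (cF r i, l), fun h => absurd h hr⟩
  choose wG hwG using hG'
  let X : Finset (V × R) :=
    ((out ×ˢ (univ : Finset R)).filter fun p => p ∉ F).image fun p => wG p.1 p.2 3
  have memX : ∀ q ∈ X, ∃ r l, (r, l) ∉ F ∧ wG r l 3 = q := by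
    intro q hq
    obtain ⟨⟨r, l⟩, h1, h2⟩ := mem_image.1 hq
    exact ⟨r, l, (mem_filter.1 h1).2, h2⟩
  have hXc : X.card ≤ ((out ×ˢ (univ : Finset R)).filter fun p => p ∉ F).card := card_image_le
  refine pwg_step hs cI cA hIA ((cen.filter fun p => p.1 ∉ cI) ∪ X) ?_ cen ?_ F
    (fun j => match j with
      | .inl p => if p ∈ F then wF p else wG p.1 p.2
      | .inr j => wT j) ?_ ?_ ?_ ?_ ?_ ?_ hnA hc
  · intro p hp
    rcases mem_union.1 hp with h | h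
    · exact hcA p (mem_filter.1 h).1
    · obtain ⟨r, l, h1, h2⟩ := memX p h
      rw [← h2, (hwG r ⟨l, h1⟩).1 l 3]
      exact (hG r ⟨l, h1⟩).2.2.1
  · intro p hp
    by_cases h : p.1 ∈ cI
    · exact Or.inl h
    · exact Or.inr (mem_union_left _ (mem_filter.2 ⟨hp, h⟩))
  · rintro (p | j)
    · by_cases hp : p ∈ F
      · simp only [hp, if_true]
        exact (hwF p hp).2.2
      · simp only [hp, if_false]
        exact (hwG p.1 ⟨p.2, hp⟩).2.2 p.2
    · exact hwT j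
  · intro p hp
    simp only [hp, if_true]
    obtain ⟨a1, a2, a3, a4, a5⟩ := hF p.1 ⟨p.2, hp⟩
    obtain ⟨b1, b2, -⟩ := hwF p hp
    rw [b1, b1, b1, b2]
    exact ⟨a2, a3, a4, a5⟩
  · exact hT
  · intro p hp
    simp only [hp, if_false]
    obtain ⟨a1, a2, a3, a4, a5⟩ := hG p.1 ⟨p.2, hp⟩
    obtain ⟨b1, -, -⟩ := hwG p.1 ⟨p.2, hp⟩
    refine ⟨?_, fun i hi => ?_⟩
    · rcases a4 with h | h
      · exact Or.inl (by rw [b1]; exact h)
      · refine Or.inr (mem_union_right _ (mem_image.2 ⟨p, ?_, rfl⟩))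
        exact mem_filter.2 ⟨mem_product.2 ⟨h, mem_univ _⟩, hp⟩
    · obtain ⟨c1, c2, c3⟩ := a5 i hi
      refine ⟨by rw [b1]; exact c1, by rw [b1]; exact c2, fun h => ?_⟩
      rcases mem_union.1 h with h | h
      · refine c3 (wG p.1 p.2 i).2 ?_
        rw [← b1 p.2 i]
        exact (mem_filter.1 h).1
      · obtain ⟨r, l, h1, h2⟩ := memX _ h
        have h3 : cG r 3 = cG p.1 i := by
          rw [← (hwG r ⟨l, h1⟩).1 l 3, ← b1 p.2 i, h2]
        exact hi (hGi r p.1 ⟨l, h1⟩ ⟨p.2, hp⟩ 3 i h3).2.symm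
  · intro p hp p' hp' i i' h
    simp only [hp, hp', if_false] at h
    obtain ⟨b1, b2, -⟩ := hwG p.1 ⟨p.2, hp⟩
    obtain ⟨b1', -, -⟩ := hwG p'.1 ⟨p'.2, hp'⟩
    have h1 : cG p.1 i = cG p'.1 i' := by rw [← b1 p.2 i, ← b1' p'.2 i', h]
    obtain ⟨h2, h3⟩ := hGi p.1 p'.1 ⟨p.2, hp⟩ ⟨p'.2, hp'⟩ i i' h1
    obtain ⟨r, l⟩ := p
    obtain ⟨r', l'⟩ := p'
    simp only at h2 h3 h b2
    subst h2
    subst h3
    exact ⟨by rw [b2 _ _ _ h], rfl⟩
  · refine le_trans ?_ hnI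
    exact Nat.add_le_add_left (le_trans (card_union_le _ _) (Nat.add_le_add_left hXc _)) _

end Row

end SqIns
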