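import Pool.Agent.Lib.SqIns.Base2
import Pool.Agent.Lib.SqIns.RowWords

/-!
# Tables of words

A table gives for every row of a base an F-word and a private word; the conditions are checked with
bit masks.
-/

open Finset Equiv

namespace SqIns

/-! ### Codes -/

/-- code of a finite point -/
def cd (k : ℕ) (v : Bool × ZMod (2 * k)) : ℕ := v.2.val + 2 * k * v.1.toNat

theorem cd_dcd {k : ℕ} {a : ℕ} (ha : a < 4 * k) : cd k (dcd k a) = a := by
  unfold cd dcd
  simp only
  rw [ZMod.val_natCast]
  by_cases h : 2 * k ≤ a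
  · rw [decide_eq_true h, Bool.toNat_true, Nat.mod_eq_sub_mod h, Nat.mod_eq_of_lt (by omega)]
    omega
  · rw [decide_eq_false h, Bool.toNat_false, Nat.mod_eq_of_lt (by omega)]
    omega

theorem cd_lt {k : ℕ} (hk : 0 < k) (v : Bool × ZMod (2 * k)) : cd k v < 4 * k := by
  have : NeZero (2 * k) := ⟨by omega⟩
  unfold cd
  have := ZMod.val_lt v.2
  rcases v.1 with _ | _
  · simp only [Bool.toNat_false]; omega
  · simp only [Bool.toNat_true]; omega

theorem dcd_cd {k : ℕ} (hk : 0 < k) (v : Bool × ZMod (2 * k)) : dcd k (cd k v) = v := by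
  have : NeZero (2 * k) := ⟨by omega⟩
  obtain ⟨t, y⟩ := v
  have hy := ZMod.val_lt y
  unfold dcd cd
  simp only
  refine Prod.ext ?_ ?_
  · cases t
    · simp only [Bool.toNat_false, mul_zero, add_zero]
      exact decide_eq_false (by omega)
    · simp only [Bool.toNat_true, mul_one]
      exact decide_eq_true (by omega)
  · show ((y.val + 2 * k * t.toNat : ℕ) : ZMod (2 * k)) = y
    rw [Nat.cast_add, Nat.cast_mul, ZMod.natCast_self, zero_mul, add_zero, ZMod.natCast_zmod_val]

theorem length_filter_range (p : ℕ → Bool) (n : ℕ) :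
    ((List.range n).filter fun c => p c).length = ((range n).filter fun c => p c = true).card := by
  show _ = Multiset.card (Multiset.filter (fun c => p c = true) (Multiset.range n))
  rw [← Multiset.coe_range, Multiset.filter_coe, Multiset.coe_card]
  congr 2
  funext c
  simp

/-- number of points with a code in the mask -/
theorem card_mask {k : ℕ} (hk : 0 < k) [NeZero (2 * k)] (m : ℕ) :
    (univ.filter fun v : Bool × ZMod (2 * k) => m.testBit (cd k v) = true).card =
      ((List.range (4 * k)).filter fun c => m.testBit c).length := by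
  have h1 := length_filter_range (fun c => m.testBit c) (4 * k)
  rw [h1]
  refine card_bij (fun v _ => cd k v) ?_ ?_ ?_
  · intro v hv
    rw [mem_filter] at hv
    rw [mem_filter, mem_range]
    exact ⟨cd_lt hk v, hv.2⟩
  · intro v _ v' _ h
    rw [← dcd_cd hk v, ← dcd_cd hk v', h]
  · intro c hc
    rw [mem_filter, mem_range] at hc
    exact ⟨dcd k c, by rw [mem_filter, cd_dcd hc.1]; exact ⟨mem_univ _, hc.2⟩, cd_dcd hc.1⟩

theorem card_rows {k : ℕ} [NeZero k] (p : ℕ → Bool) :
    (univ.filter fun r : ZMod k => p r.val = true).card =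
      ((List.range k).filter fun c => p c).length := by
  have h1 := length_filter_range p k
  rw [h1]
  refine card_bij (fun v _ => v.val) ?_ ?_ ?_
  · intro v hv
    rw [mem_filter] at hv
    rw [mem_filter, mem_range]
    exact ⟨ZMod.val_lt v, hv.2⟩
  · intro v _ v' _ h
    exact ZMod.val_injective _ h
  · intro c hc
    rw [mem_filter, mem_range] at hc
    have h2 : ((c : ℕ) : ZMod k).val = c := by rw [ZMod.val_natCast, Nat.mod_eq_of_lt hc.1]
    exact ⟨(c : ZMod k), by rw [mem_filter, h2]; exact ⟨mem_univ _, hc.2⟩, h2⟩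

/-! ### Injectivity check -/

theorem testBit_mk_self (f : ℕ → ℕ) {n i : ℕ} (hi : i < n) : (mk f n).testBit (f i) = true := by
  induction n with
  | zero => omega
  | succ n ih =>
    rw [mk, Nat.testBit_or, Bool.or_eq_true, Nat.testBit_two_pow, decide_eq_true_eq]
    by_cases h : i = n
    · right; rw [h]
    · left; exact ih (by omega)

/-- the mask of the first `n` values if they are different -/
def ndm (f : ℕ → ℕ) : ℕ → Option ℕ
  | 0 => some 0
  | n + 1 => match ndm f n with
    | none => none
    | some m => if m.testBit (f n) then none else some (m ||| 2 ^ f n)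

theorem ndm_some (f : ℕ → ℕ) : ∀ (n m : ℕ), ndm f n = some m → m = mk f n ∧
    ∀ i < n, ∀ j < n, f i = f j → i = j := by
  intro n
  induction n with
  | zero =>
    intro m h
    exact ⟨(Option.some_injective _ h).symm, fun i hi => absurd hi (Nat.not_lt_zero _)⟩
  | succ n ih =>
    intro m h
    rw [ndm] at h
    cases h1 : ndm f n with
    | none =>
      rw [h1] at h
      exact absurd h (by simp)
    | some m' =>
      rw [h1] at h
      simp only at h
      obtain ⟨h2, h3⟩ := ih m' h1
      by_cases h4 : m'.testBit (f n) = true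
      · rw [if_pos h4] at h
        exact absurd h (by simp)
      · rw [if_neg h4] at h
        refine ⟨by rw [mk, ← h2]; exact (Option.some_injective _ h).symm, ?_⟩
        have h5 : ∀ i < n, f i ≠ f n := by
          intro i hi h6
          apply h4
          rw [h2, ← h6]
          exact testBit_mk_self f hi
        intro i hi j hj hij
        rcases Nat.lt_succ_iff_lt_or_eq.1 hi with h6 | h6
        · rcases Nat.lt_succ_iff_lt_or_eq.1 hj with h7 | h7
          · exact h3 i h6 j h7 hij
          · subst h7
            exact absurd hij (h5 i h6)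
        · rcases Nat.lt_succ_iff_lt_or_eq.1 hj with h7 | h7
          · subst h6
            exact absurd hij.symm (h5 j h7)
          · rw [h6, h7]

/-! ### Tables -/

/-- words of a row; `s`: 0 = all lifts have F-words, 1 = mixed, 2 = no F-words; `jF`, `dF`: first
point and direction of the F-word; `jG`, `dG`: the other word; `o`: its last column is not in `I`;
`g`: slope for the other words -/
structure CRow where
  s : ℕ
  jF : ℕ
  dF : Bool
  jG : ℕ
  dG : Bool
  o : Bool
  g : ℕ

/-- a table: masks of the columns of `I`, `A` and of the centres, mask of the gaps, mixed row,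
numbers of columns and of rows, the rows, mask of the excluded points of a row -/
structure Chi where
  mI : ℕ
  mA : ℕ
  mC : ℕ
  gm : ℕ
  r1 : ℕ
  nI : ℕ
  nA : ℕ
  nC : ℕ
  f : ℕ
  nO : ℕ
  row : ℕ → CRow

/-- number of the `i`-th point of a word -/
def wpos (j : ℕ) (d : Bool) (i : ℕ) : ℕ := if d then j + i else j + (3 - i)

namespace Chi

variable (b : BD) (t : Chi) (ex : ℕ → ℕ)

/-- code of the point number `n` of the row `r` -/
def cpt (b : HT) (r n : ℕ) : ℕ := shc b.k (hcode b.k b.N n) (2 * r)

/-- no gap and no excluded point -/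
def pok (r j : ℕ) : Bool :=
  Nat.ble 1 j && (Nat.ble (j + 3) (4 * b.k) && (!t.gm.testBit j && (!t.gm.testBit (j + 1) &&
    (!t.gm.testBit (j + 2) && (!(ex r).testBit j && (!(ex r).testBit (j + 1) &&
    (!(ex r).testBit (j + 2) && !(ex r).testBit (j + 3))))))))

/-- column number `i` of the F-word -/
def cF (r i : ℕ) : ℕ := cpt b.toHT r (wpos (t.row r).jF (t.row r).dF i)

/-- column number `i` of the other word -/
def cG (r i : ℕ) : ℕ := cpt b.toHT r (wpos (t.row r).jG (t.row r).dG i)

/-- the check of the F-word -/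
def okF (r : ℕ) : Bool :=
  t.pok b ex r (t.row r).jF && (t.mI.testBit (t.cF b r 0) && (t.mC.testBit (t.cF b r 1) &&
    (t.mA.testBit (t.cF b r 2) && t.mA.testBit (t.cF b r 3))))

/-- a private column -/
def priv (r i : ℕ) : Bool :=
  !t.mI.testBit (t.cG b r i) && (!t.mA.testBit (t.cG b r i) && !t.mC.testBit (t.cG b r i))

/-- slope check -/
def uok (r i : ℕ) : Bool :=
  smo (adf (b.c (wpos (t.row r).jG (t.row r).dG i)) (t.row r).g)

/-- the check of the other word -/
def okG (r : ℕ) : Bool :=
  t.pok b ex r (t.row r).jG && (t.priv b r 0 && (t.priv b r 1 && (t.priv b r 2 &&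
    ((!t.mA.testBit (t.cG b r 3) && (t.mI.testBit (t.cG b r 3) || (t.row r).o)) &&
    (t.uok b r 0 && (t.uok b r 1 && (t.uok b r 2 && t.uok b r 3)))))))

/-- columns of the other words, for the injectivity check -/
def colG (n : ℕ) : ℕ := if Nat.ble 1 (t.row (n / 4)).s then t.cG b (n / 4) (n % 4) else 4 * b.k + n

/-- all checks -/
def chk : Bool :=
  ((List.range b.k).all fun r =>
    ((Nat.beq (t.row r).s 1 == Nat.beq r t.r1) && Nat.ble (t.row r).s 2) &&
    ((!Nat.ble (t.row r).s 1 || t.okF b ex r) && (!Nat.ble 1 (t.row r).s || t.okG b ex r))) &&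
  ((ndm (t.colG b) (4 * b.k)).isSome &&
  ((decide (∀ i : WSys, t.gm.testBit (b.st i + 1) = true)) &&
  (Nat.beq (t.mA &&& (t.mI ||| t.mC)) 0 &&
  (Nat.ble t.r1 (b.k - 1) &&
  (Nat.beq ((List.range (4 * b.k)).filter fun c => t.mI.testBit c).length t.nI &&
  (Nat.beq ((List.range (4 * b.k)).filter fun c => t.mA.testBit c).length t.nA &&
  (Nat.beq ((List.range (4 * b.k)).filter fun c => t.mC.testBit c).length t.nC &&
  (Nat.beq ((List.range b.k).filter fun r => Nat.beq (t.row r).s 0).length t.f &&
  Nat.beq ((List.range b.k).filter fun r => Nat.beq (t.row r).s 2 && (t.row r).o).length t.nO))))))))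

/-- the conditions -/
structure Ok : Prop where
  one : ∀ r < b.k, ((t.row r).s = 1 ↔ r = t.r1)
  two : ∀ r < b.k, (t.row r).s ≤ 2
  f : ∀ r < b.k, (t.row r).s ≤ 1 → t.okF b ex r = true
  g : ∀ r < b.k, 1 ≤ (t.row r).s → t.okG b ex r = true
  inj : ∀ r < b.k, ∀ r' < b.k, 1 ≤ (t.row r).s → 1 ≤ (t.row r').s → ∀ i < 4, ∀ i' < 4,
    t.cG b r i = t.cG b r' i' → r = r' ∧ i = i'
  gap : ∀ i : WSys, t.gm.testBit (b.st i + 1) = true
  dis : ∀ c, t.mA.testBit c = true → t.mI.testBit c = false ∧ t.mC.testBit c = false
  r1 : t.r1 < b.k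
  nI : ((List.range (4 * b.k)).filter fun c => t.mI.testBit c).length = t.nI
  nA : ((List.range (4 * b.k)).filter fun c => t.mA.testBit c).length = t.nA
  nC : ((List.range (4 * b.k)).filter fun c => t.mC.testBit c).length = t.nC
  nF : ((List.range b.k).filter fun r => Nat.beq (t.row r).s 0).length = t.f
  nO : ((List.range b.k).filter fun r => Nat.beq (t.row r).s 2 && (t.row r).o).length = t.nO

variable {b t ex}

theorem ok_of_chk (h : t.chk b ex = true) : t.Ok b ex := by
  unfold chk at h
  simp only [Bool.and_eq_true, List.all_eq_true, List.mem_range, decide_eq_true_eq] at h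
  obtain ⟨h1, h2, h3, h4, h5, h6, h7, h8, h9, h10⟩ := h
  have hk := b.k_pos
  obtain ⟨m, hm⟩ := Option.isSome_iff_exists.1 h2
  have hinj := (ndm_some _ _ _ hm).2
  refine ⟨?_, ?_, ?_, ?_, ?_, h3, ?_, ?_, ?_, ?_, ?_, ?_, ?_⟩
  · intro r hr
    have := (h1 r hr).1.1
    rw [beq_iff_eq] at this
    constructor
    · intro h
      rw [h] at this
      exact Nat.eq_of_beq_eq_true this.symm
    · intro h
      apply Nat.eq_of_beq_eq_true
      rw [this, h]
      exact Nat.beq_refl _
  · intro r hr
    exact Nat.le_of_ble_eq_true (h1 r hr).1.2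
  · intro r hr hs
    have := (h1 r hr).2.1
    rw [Bool.or_eq_true] at this
    rcases this with h | h
    · rw [Nat.ble_eq_true_of_le hs] at h
      exact absurd h (by decide)
    · exact h
  · intro r hr hs
    have := (h1 r hr).2.2
    rw [Bool.or_eq_true] at this
    rcases this with h | h
    · rw [Nat.ble_eq_true_of_le hs] at h
      exact absurd h (by decide)
    · exact h
  · intro r hr r' hr' hs hs' i hi i' hi' h
    have key : ∀ r, 1 ≤ (t.row r).s → ∀ i < 4, t.colG b (4 * r + i) = t.cG b r i := by
      intro r hs i hi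
      unfold colG
      rw [show (4 * r + i) / 4 = r by omega, show (4 * r + i) % 4 = i by omega,
        Nat.ble_eq_true_of_le hs, if_pos rfl]
    have := hinj (4 * r + i) (by omega) (4 * r' + i') (by omega)
      (by rw [key r hs i hi, key r' hs' i' hi', h])
    omega
  · intro c hc
    have h11 : (t.mA &&& (t.mI ||| t.mC)).testBit c = false := by
      rw [Nat.eq_of_beq_eq_true h4, Nat.zero_testBit]
    rw [Nat.testBit_and, hc, Bool.true_and, Nat.testBit_or, Bool.or_eq_false_iff] at h11
    exact h11
  · have := Nat.le_of_ble_eq_true h5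
    omega
  · exact Nat.eq_of_beq_eq_true h6
  · exact Nat.eq_of_beq_eq_true h7
  · exact Nat.eq_of_beq_eq_true h8
  · exact Nat.eq_of_beq_eq_true h9
  · exact Nat.eq_of_beq_eq_true h10

end Chi

end SqIns
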