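import Pool.Agent.Lib.SqIns.Chi

/-!
# The words of the next level from a table
-/

open Finset Equiv

namespace SqIns

namespace BD

variable (b : BD)

theorem pn_cpt (r : ZMod b.k) {n : ℕ} (h1 : 1 ≤ n) (h2 : n ≤ 4 * b.k) :
    b.pn r n = some (dcd b.k (Chi.cpt b.toHT r.val n)) := by
  unfold BD.pn HT.pt Chi.cpt
  rw [Equiv.trans_apply, b.e_nat (by omega), blk_hcode _ (by omega), trP_some,
    dcd_shc b.k_pos (hcode_lt b.k_pos _ _)]
  rfl

theorem pn_zero_ne (r : ZMod b.k) {n : ℕ} (h1 : 1 ≤ n) (h2 : n ≤ 4 * b.k) : b.pn r 0 ≠ b.pn r n := by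
  intro h
  have := b.pn_inj r (by omega) (by omega) h
  omega

end BD

namespace Chi

variable {b : BD} {t : Chi} {ex : ℕ → ℕ}

theorem cpt_lt (b : HT) (r n : ℕ) : cpt b r n < 4 * b.k := shc_lt b.k_pos (hcode_lt b.k_pos _ _) _

theorem wpos_rev (j : ℕ) (d : Bool) (i : Fin 4) :
    wpos j d ((if d then i else i.rev) : Fin 4).val = j + i.val := by
  unfold wpos
  cases d
  · simp only [Bool.false_eq_true, if_false]
    rw [Fin.val_rev]
    omega
  · simp only [if_true]

theorem wpos_bd (j : ℕ) (d : Bool) (i : Fin 4) : j ≤ wpos j d i.val ∧ wpos j d i.val ≤ j + 3 := by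
  unfold wpos
  have := i.isLt
  split_ifs <;> omega

/-- the column number `i` of a word -/
def colV (b : BD) (r : ZMod b.k) (j : ℕ) (d : Bool) (i : Fin 4) : b.V :=
  dcd b.k (cpt b.toHT r.val (wpos j d i.val))

theorem cd_colV (b : BD) (r : ZMod b.k) (j : ℕ) (d : Bool) (i : Fin 4) :
    cd b.k (colV b r j d i) = cpt b.toHT r.val (wpos j d i.val) := cd_dcd (cpt_lt _ _ _)

theorem some_colV (b : BD) (r : ZMod b.k) {j : ℕ} (h1 : 1 ≤ j) (h2 : j + 3 ≤ 4 * b.k) (d : Bool)
    (i : Fin 4) : some (colV b r j d i) = b.pn r (wpos j d i.val) := by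
  have h := wpos_bd j d i
  rw [b.pn_cpt r (by omega) (by omega)]
  rfl

section

variable {R : Type*} [CommRing R]

/-- not excluded -/
def Qx (b : BD) (ex : ℕ → ℕ) (r : ZMod b.k) (x : Option b.V) : Prop :=
  ∀ n, (ex r.val).testBit n = true → x ≠ b.pn r n

theorem pok_spec (hok : b.Ok) (h2 : IsUnit (2 : R)) (h3 : IsUnit (3 : R))
    (hg : ∀ y : R, ∃ j : ℕ, j • (1 : R) = y) (hex : ∀ r < b.k, ∀ n, (ex r).testBit n = true →
    n < 4 * b.k + 1) (ht : t.Ok b ex) (r : ZMod b.k) (j : ℕ) (d : Bool)
    (h : t.pok b ex r.val j = true) :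
    (b.row hok h2 h3 hg r).ConsD (Qx b ex r) d (colV b r j d) := by
  unfold pok at h
  simp only [Bool.and_eq_true, Bool.not_eq_true'] at h
  obtain ⟨p1, p2, g0, g1, g2, e0, e1, e2, e3⟩ := h
  have p1 := Nat.le_of_ble_eq_true p1
  have p2 := Nat.le_of_ble_eq_true p2
  have hr := ZMod.val_lt r
  have hcol : ∀ i : Fin 4, some (colV b r j d (if d then i else i.rev)) = b.pn r (j + i.val) := by
    intro i
    rw [some_colV b r p1 p2, wpos_rev]
  have hfree : ∀ n, 1 ≤ n → n ≤ 4 * b.k → t.gm.testBit n = false →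
      (b.row hok h2 h3 hg r).Free (b.pn r n) := by
    intro n hn1 hn2 hn i hi
    have h4 : b.pn r (b.st i + 1) = b.pn r n := hi
    have h5 := hok.st_lt i
    have h6 := b.pn_inj r (by omega) (by omega) h4
    have h7 := ht.gap i
    rw [h6, hn] at h7
    exact absurd h7 (by decide)
  have hs : ∀ n, (b.row hok h2 h3 hg r).s (b.pn r n) = b.pn r (n + 1) := fun n => b.sq_pn r n
  refine ⟨⟨?_, ?_, ?_, ?_, ?_, ?_⟩, ?_⟩
  · simp only [hcol]
    exact hs _
  · simp only [hcol]
    exact hs _
  · simp only [hcol]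
    exact hs _
  · simp only [hcol]
    exact hfree _ (by omega) (by omega) g0
  · simp only [hcol]
    exact hfree _ (by omega) (by omega) g1
  · simp only [hcol]
    exact hfree _ (by omega) (by omega) g2
  · intro i
    rw [some_colV b r p1 p2]
    intro n hn h5
    have hb := wpos_bd j d i
    have h6 := b.pn_inj r (by omega) (hex _ hr n hn) h5
    have h7 : n = j ∨ n = j + 1 ∨ n = j + 2 ∨ n = j + 3 := by omega
    rcases h7 with h7 | h7 | h7 | h7
    · rw [h7, e0] at hn; exact absurd hn (by decide)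
    · rw [h7, e1] at hn; exact absurd hn (by decide)
    · rw [h7, e2] at hn; exact absurd hn (by decide)
    · rw [h7, e3] at hn; exact absurd hn (by decide)

end

section Main

variable {R W T : Type*} [CommRing R] [Fintype R] [DecidableEq R] [Fintype W] [DecidableEq W]
  [Fintype T] [DecidableEq T]

/-- the rows with an F-word -/
def rF (b : BD) (t : Chi) (i : ℕ) : Finset (ZMod b.k) :=
  univ.filter fun r => Nat.beq (t.row r.val).s i = true

/-- the lifts with an F-word -/
def lF (b : BD) (t : Chi) (L : Finset R) : Finset (ZMod b.k × R) := rF b t 0 ×ˢ univ ∪ rF b t 1 ×ˢ L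

omit [CommRing R] in
theorem mem_lF (L : Finset R) (p : ZMod b.k × R) : p ∈ lF b t L ↔
    (t.row p.1.val).s = 0 ∨ (t.row p.1.val).s = 1 ∧ p.2 ∈ L := by
  have h : ∀ m n : ℕ, Nat.beq m n = true ↔ m = n :=
    fun m n => ⟨Nat.eq_of_beq_eq_true, fun h => by rw [h]; exact Nat.beq_refl _⟩
  unfold lF rF
  rw [mem_union, mem_product, mem_product, mem_filter, mem_filter, h, h]
  simp only [mem_univ, true_and, and_true]

theorem card_rF0 (ht : t.Ok b ex) : (rF b t 0).card = t.f := by
  rw [← ht.nF]
  exact card_rows fun r => Nat.beq (t.row r).s 0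

theorem card_rF1 (ht : t.Ok b ex) : (rF b t 1).card = 1 := by
  have h1 : rF b t 1 = {((t.r1 : ℕ) : ZMod b.k)} := by
    ext r
    unfold rF
    rw [mem_filter, mem_singleton]
    have hr := ZMod.val_lt r
    have h3 : Nat.beq (t.row r.val).s 1 = true ↔ (t.row r.val).s = 1 :=
      ⟨Nat.eq_of_beq_eq_true, fun h => by rw [h]; exact Nat.beq_refl _⟩
    rw [h3, ht.one _ hr]
    constructor
    · rintro ⟨-, h⟩
      rw [← h, ZMod.natCast_zmod_val]
    · intro h
      refine ⟨mem_univ _, ?_⟩
      rw [h, ZMod.val_natCast, Nat.mod_eq_of_lt ht.r1]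
  rw [h1, card_singleton]

omit [CommRing R] in
theorem card_lF (ht : t.Ok b ex) (L : Finset R) :
    (lF b t L).card = t.f * Fintype.card R + L.card := by
  unfold lF
  rw [card_union_of_disjoint, card_product, card_product, card_rF0 ht, card_rF1 ht, card_univ,
    one_mul]
  rw [disjoint_left]
  rintro ⟨r, l⟩ h1 h2
  rw [mem_product] at h1 h2
  have h3 := (mem_filter.1 h1.1).2
  have h4 := (mem_filter.1 h2.1).2
  have h5 := Nat.eq_of_beq_eq_true h3
  have h6 := Nat.eq_of_beq_eq_true h4
  simp only at h5 h6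
  omega

/-- the rows with a word outside of `I` -/
def outR (b : BD) (t : Chi) : Finset (ZMod b.k) :=
  univ.filter fun r => 1 ≤ (t.row r.val).s ∧ (t.row r.val).o = true

/-- is the mixed row one of them -/
def o1 (t : Chi) : ℕ := (t.row t.r1).o.toNat

omit [CommRing R] in
theorem card_out (ht : t.Ok b ex) (L : Finset R) :
    ((outR b t ×ˢ (univ : Finset R)).filter fun p => p ∉ lF b t L).card ≤
      t.nO * Fintype.card R + t.o1 * (Fintype.card R - L.card) := by
  have h0 : ((outR b t ×ˢ (univ : Finset R)).filter fun p => p ∉ lF b t L) ⊆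
      ((univ.filter fun r : ZMod b.k => (Nat.beq (t.row r.val).s 2 && (t.row r.val).o) = true) ×ˢ
        (univ : Finset R)) ∪ ((univ.filter fun r : ZMod b.k => r.val = t.r1 ∧
          (t.row r.val).o = true) ×ˢ (univ \ L)) := by
    rintro ⟨r, l⟩ h
    rw [mem_filter, mem_product, mem_lF] at h
    obtain ⟨⟨h1, -⟩, h2⟩ := h
    have h3 := (mem_filter.1 h1).2
    obtain ⟨h4, h5⟩ := h3
    simp only at h2
    have hr := ZMod.val_lt r
    have h6 := ht.two _ hr
    have h7 : (t.row r.val).s = 1 ∨ (t.row r.val).s = 2 := by omega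
    rw [mem_union, mem_product, mem_product, mem_filter, mem_filter, mem_sdiff]
    rcases h7 with h7 | h7
    · right
      refine ⟨⟨mem_univ _, (ht.one _ hr).1 h7, h5⟩, mem_univ _, ?_⟩
      intro hl
      exact h2 (Or.inr ⟨h7, hl⟩)
    · left
      refine ⟨⟨mem_univ _, ?_⟩, mem_univ _⟩
      show (Nat.beq (t.row r.val).s 2 && (t.row r.val).o) = true
      rw [h5, h7]
      rfl
  refine (card_le_card h0).trans ((card_union_le _ _).trans (Nat.add_le_add ?_ ?_))
  · rw [card_product, card_univ]
    refine Nat.mul_le_mul_right _ (le_of_eq ?_)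
    rw [← ht.nO]
    exact card_rows fun r => Nat.beq (t.row r).s 2 && (t.row r).o
  · rw [card_product, card_sdiff_of_subset (subset_univ _), card_univ]
    refine Nat.mul_le_mul_right _ ?_
    unfold o1
    have hr1 : ((t.r1 : ℕ) : ZMod b.k).val = t.r1 := by
      rw [ZMod.val_natCast, Nat.mod_eq_of_lt ht.r1]
    cases ho : (t.row t.r1).o
    · rw [Bool.toNat_false, Nat.le_zero, card_eq_zero, filter_eq_empty_iff]
      rintro r - ⟨h1, h2⟩
      rw [h1, ho] at h2
      exact absurd h2 (by decide)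
    · rw [Bool.toNat_true]
      refine le_trans (card_le_card (t := {((t.r1 : ℕ) : ZMod b.k)}) ?_) (by rw [card_singleton])
      intro r hr
      rw [mem_filter] at hr
      rw [mem_singleton, ← hr.2.1, ZMod.natCast_zmod_val]

/-- columns with a code in the mask -/
def inM (b : BD) (m : ℕ) : Finset b.V := univ.filter fun v => m.testBit (cd b.k v) = true

theorem mem_inM (m : ℕ) (v : b.V) : v ∈ inM b m ↔ m.testBit (cd b.k v) = true := by
  unfold inM
  rw [mem_filter]
  simp only [mem_univ, true_and]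

/-- **The words of the next level from a table.** -/
theorem pwg (hok : b.Ok) (h2 : IsUnit (2 : R)) (h3 : IsUnit (3 : R))
    (hg : ∀ y : R, ∃ j : ℕ, j • (1 : R) = y) (hex : ∀ r < b.k, ∀ n, (ex r).testBit n = true →
    n < 4 * b.k + 1) (ht : t.Ok b ex) (σ : W → WSys) (κ : ZMod b.k → W → R)
    (hσ : ∀ r, Function.Injective fun w => (σ w, κ r w)) (Φ : ZMod b.k → Option b.V → Perm R)
    (π : R → Perm W) {s : (ZMod b.k × R) ⊕ T → Perm ((Option b.V × R) ⊕ W)} (hs : Dec s)
    (hk : ∀ r l x y x' y', Qx b ex r x → Qx b ex r x' →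
      (b.row hok h2 h3 hg r).fullπ (hσ r) (Φ r) (π l) l (.inl (x, y)) = .inl (x', y') →
      s (.inl (r, l)) (.inl (x, y)) = .inl (x', y'))
    (L : Finset R) (yc : b.V → R) (cen : Finset (b.V × R))
    (hc1 : ∀ v, t.mC.testBit (cd b.k v) = true → (v, yc v) ∈ cen)
    (hc2 : ∀ p ∈ cen, t.mI.testBit (cd b.k p.1) = true ∨ t.mC.testBit (cd b.k p.1) = true)
    (wT : T → Fin 4 → b.V × R)
    (hwT : ∀ j, Fwd (s (.inr j)) (fun i => emU b.V R W (wT j i)) ∨
      Fwd (s (.inr j))⁻¹ fun i => emU b.V R W (wT j i))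
    (hT : ∀ j, t.mI.testBit (cd b.k (wT j 0).1) = true ∧ wT j 1 ∈ cen ∧
      t.mA.testBit (cd b.k (wT j 2).1) = true ∧ t.mA.testBit (cd b.k (wT j 3).1) = true)
    {nI nA c : ℕ}
    (hnI : t.nI * Fintype.card R + ((cen.filter fun p => t.mI.testBit (cd b.k p.1) = false).card +
      (t.nO * Fintype.card R + t.o1 * (Fintype.card R - L.card))) ≤ nI)
    (hnA : t.nA * Fintype.card R ≤ nA) (hc : cen.card ≤ c) :
    PWG ((ZMod b.k × R) ⊕ T) ((Option b.V × R) ⊕ W)
      (t.f * Fintype.card R + L.card + Fintype.card T) nI nA c := by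
  have hk0 := b.k_pos
  have hcI : (inM b t.mI).card = t.nI := by rw [← ht.nI]; exact card_mask hk0 _
  have hcA : (inM b t.mA).card = t.nA := by rw [← ht.nA]; exact card_mask hk0 _
  rw [← card_lF ht L]
  have hAn : ∀ v : b.V, t.mA.testBit (cd b.k v) = true → t.mI.testBit (cd b.k v) = false ∧
      t.mC.testBit (cd b.k v) = false := fun v hv => ht.dis _ hv
  refine Row.pwg_rows (fun r => b.row hok h2 h3 hg r) σ κ hσ Φ π hs (fun r => Qx b ex r) hk
    (inM b t.mI) (inM b t.mA) ?_ cen ?_ (lF b t L)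
    (fun r => colV b r (t.row r.val).jF (t.row r.val).dF) (fun r => (t.row r.val).dF)
    (fun r => yc (colV b r (t.row r.val).jF (t.row r.val).dF 1)) ?_ (outR b t)
    (fun r => colV b r (t.row r.val).jG (t.row r.val).dG) (fun r => (t.row r.val).dG)
    (fun r => -((t.row r.val).g : R)) ?_ ?_ wT hwT ?_ ?_ ?_ hc
  · rw [disjoint_left]
    intro v hv hv'
    rw [mem_inM] at hv hv'
    rw [(hAn v hv').1] at hv
    exact absurd hv (by decide)
  · intro p hp hA
    rw [mem_inM] at hA
    rcases hc2 p hp with h | h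
    · rw [(hAn _ hA).1] at h
      exact absurd h (by decide)
    · rw [(hAn _ hA).2] at h
      exact absurd h (by decide)
  · rintro r ⟨l, hl⟩
    have hs1 : (t.row r.val).s ≤ 1 := by
      rcases (mem_lF L (r, l)).1 hl with h | h
      · simp only at h; omega
      · have := h.1
        simp only at this; omega
    have hF := ht.f _ (ZMod.val_lt r) hs1
    unfold okF at hF
    simp only [Bool.and_eq_true] at hF
    obtain ⟨q0, q1, q2, q3, q4⟩ := hF
    refine ⟨pok_spec hok h2 h3 hg hex ht r _ _ q0, ?_, ?_, ?_, ?_⟩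
    · rw [mem_inM, cd_colV]; exact q1
    · exact hc1 _ (by rw [cd_colV]; exact q2)
    · rw [mem_inM, cd_colV]; exact q3
    · rw [mem_inM, cd_colV]; exact q4
  · rintro r ⟨l, hl⟩
    have hr := ZMod.val_lt r
    have hs1 : 1 ≤ (t.row r.val).s := by
      rw [mem_lF] at hl
      by_contra h
      exact hl (Or.inl (by show (t.row r.val).s = 0; omega))
    have hG := ht.g _ hr hs1
    unfold okG at hG
    simp only [Bool.and_eq_true, Bool.or_eq_true, Bool.not_eq_true'] at hG
    obtain ⟨q0, q1, q2, q3, ⟨q4, q5⟩, u0, u1, u2, u3⟩ := hG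
    have hpos := q0
    unfold pok at hpos
    simp only [Bool.and_eq_true, Bool.not_eq_true'] at hpos
    obtain ⟨p1, p2, -⟩ := hpos
    have p1 := Nat.le_of_ble_eq_true p1
    have p2 := Nat.le_of_ble_eq_true p2
    refine ⟨pok_spec hok h2 h3 hg hex ht r _ _ q0, ?_, ?_, ?_, ?_⟩
    · intro i
      have hu : ∀ i : Fin 4, t.uok b r.val i.val = true := by
        intro i
        fin_cases i
        · exact u0
        · exact u1
        · exact u2
        · exact u3
      have hb := wpos_bd (t.row r.val).jG (t.row r.val).dG i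
      show IsUnit (-((t.row r.val).g : R) +
        b.slope R r (some (colV b r (t.row r.val).jG (t.row r.val).dG i)))
      rw [some_colV b r p1 p2, b.slope_pn r (by omega), neg_add_eq_sub]
      exact adf_unit h2 h3 (hu i)
    · rw [mem_inM, cd_colV]
      show ¬ t.mA.testBit (t.cG b r.val 3) = true
      rw [q4]
      decide
    · rcases q5 with h | h
      · left
        rw [mem_inM, cd_colV]
        exact h
      · right
        exact mem_filter.2 ⟨mem_univ _, hs1, h⟩
    · intro i hi
      have hp : t.priv b r.val i.val = true := by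
        fin_cases i
        · exact q1
        · exact q2
        · exact q3
        · exact absurd rfl hi
      unfold priv at hp
      simp only [Bool.and_eq_true, Bool.not_eq_true'] at hp
      obtain ⟨z1, z2, z3⟩ := hp
      refine ⟨?_, ?_, ?_⟩
      · rw [mem_inM, cd_colV]
        show ¬ t.mI.testBit (t.cG b r.val i.val) = true
        rw [z1]
        decide
      · rw [mem_inM, cd_colV]
        show ¬ t.mA.testBit (t.cG b r.val i.val) = true
        rw [z2]
        decide
      · intro y hy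
        have h4 := hc2 _ hy
        simp only [cd_colV] at h4
        rcases h4 with h4 | h4
        · have : t.mI.testBit (t.cG b r.val i.val) = true := h4
          rw [z1] at this
          exact absurd this (by decide)
        · have : t.mC.testBit (t.cG b r.val i.val) = true := h4
          rw [z3] at this
          exact absurd this (by decide)
  · rintro r r' ⟨l, hl⟩ ⟨l', hl'⟩ i i' h
    have hr := ZMod.val_lt r
    have hr' := ZMod.val_lt r'
    have hs1 : 1 ≤ (t.row r.val).s := by
      rw [mem_lF] at hl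
      by_contra h
      exact hl (Or.inl (by show (t.row r.val).s = 0; omega))
    have hs1' : 1 ≤ (t.row r'.val).s := by
      rw [mem_lF] at hl'
      by_contra h
      exact hl' (Or.inl (by show (t.row r'.val).s = 0; omega))
    have h4 := congrArg (cd b.k) h
    simp only [cd_colV] at h4
    obtain ⟨h5, h6⟩ := ht.inj _ hr _ hr' hs1 hs1' i.val i.isLt i'.val i'.isLt h4
    exact ⟨ZMod.val_injective _ h5, Fin.ext h6⟩
  · intro j
    obtain ⟨a1, a2, a3, a4⟩ := hT j
    exact ⟨(mem_inM _ _).2 a1, a2, (mem_inM _ _).2 a3, (mem_inM _ _).2 a4⟩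
  · rw [hcI]
    have h1 : (cen.filter fun p => p.1 ∉ inM b t.mI) =
        cen.filter fun p => t.mI.testBit (cd b.k p.1) = false := by
      refine filter_congr fun p _ => ?_
      rw [mem_inM, Bool.not_eq_true]
    rw [h1]
    exact le_trans (Nat.add_le_add_left (Nat.add_le_add_left (card_out ht L) _) _) hnI
  · rw [hcA]
    exact hnA

end Main

end Chi

end SqIns
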