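import Pool.Agent.Lib.SqIns.Class1

/-!
# The step for class 1 bases

The family `F` is dense (all vertical edges and the freed edges of its windows), the family `F'`
carries the straight squares with the labels `A2`.
-/

open Finset Equiv

namespace SqIns

/-! ### Components of a pair of cycles -/

section Comps

variable {V R W : Type*}

/-- the point is over a finite column -/
def isFin : (Option V × R) ⊕ W → Bool
  | .inl (some _, _) => true
  | .inl (none, _) => false
  | .inr _ => false

theorem sameCycle_sumCongr {A B : Type*} (O : Perm A) (S : Perm B) (hO : Closed O)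
    (hS : Closed S) (x y : A ⊕ B) :
    Perm.SameCycle (Equiv.sumCongr O S : Perm (A ⊕ B)) x y ↔ x.isLeft = y.isLeft := by
  have hp : ∀ (n : ℤ) (a : A), ((Equiv.sumCongr O S : Perm (A ⊕ B)) ^ n) (.inl a) =
      .inl ((O ^ n) a) := by
    intro n a
    have h := (map_zpow (Perm.sumCongrHom A B) (O, S) n).symm
    have h' : ((Equiv.sumCongr O S : Perm (A ⊕ B)) ^ n) = Equiv.sumCongr (O ^ n) (S ^ n) := h
    rw [h']
    rfl
  have hq : ∀ (n : ℤ) (a : B), ((Equiv.sumCongr O S : Perm (A ⊕ B)) ^ n) (.inr a) =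
      .inr ((S ^ n) a) := by
    intro n a
    have h := (map_zpow (Perm.sumCongrHom A B) (O, S) n).symm
    have h' : ((Equiv.sumCongr O S : Perm (A ⊕ B)) ^ n) = Equiv.sumCongr (O ^ n) (S ^ n) := h
    rw [h']
    rfl
  constructor
  · rintro ⟨n, hn⟩
    rcases x with a | a
    · rw [hp] at hn
      rw [← hn]
      rfl
    · rw [hq] at hn
      rw [← hn]
      rfl
  · intro h
    rcases x with a | a <;> rcases y with c | c
    · obtain ⟨n, hn⟩ := hO a c
      exact ⟨n, by rw [hp, hn]⟩
    · exact absurd h (by simp)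
    · exact absurd h (by simp)
    · obtain ⟨n, hn⟩ := hS a c
      exact ⟨n, by rw [hq, hn]⟩

theorem comps_two {Z : Type*} (O : Perm (V × R)) (S : Perm (R ⊕ W)) (hO : Closed O)
    (hS : Closed S) (z : Z) :
    Comps (two O S) (fun x => if isFin x = true then some z else none) := by
  intro x y
  have h1 : (two O S).SameCycle x y ↔ ((join V R W).symm x).isLeft =
      ((join V R W).symm y).isLeft := by
    rw [← sameCycle_sumCongr O S hO hS]
    unfold two
    constructor
    · rintro ⟨n, hn⟩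
      refine ⟨n, ?_⟩
      have h := (map_zpow ((join V R W).permCongrHom.toMonoidHom)
        (Equiv.sumCongr O S : Perm _) n).symm
      have h' : ((join V R W).permCongr (Equiv.sumCongr O S : Perm _)) ^ n =
          (join V R W).permCongr ((Equiv.sumCongr O S : Perm _) ^ n) := h
      rw [Equiv.eq_symm_apply, ← hn, h', Equiv.permCongr_apply]
    · rintro ⟨n, hn⟩
      refine ⟨n, ?_⟩
      have h := (map_zpow ((join V R W).permCongrHom.toMonoidHom)
        (Equiv.sumCongr O S : Perm _) n).symm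
      have h' : ((join V R W).permCongr (Equiv.sumCongr O S : Perm _)) ^ n =
          (join V R W).permCongr ((Equiv.sumCongr O S : Perm _) ^ n) := h
      rw [h', Equiv.permCongr_apply, hn, Equiv.apply_symm_apply]
  have h2 : ∀ x : (Option V × R) ⊕ W, ((join V R W).symm x).isLeft = isFin x := by
    rintro (⟨_ | v, y⟩ | w) <;> rfl
  rw [h1, h2, h2]
  show _ ↔ (if isFin x = true then some z else none) = (if isFin y = true then some z else none)
  cases isFin x <;> cases isFin y <;> simp

end Comps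

namespace RD

variable {b : RD} {R : Type*} [CommRing R] [Fintype R] [DecidableEq R] {W : Type*} [Fintype W]
  [DecidableEq W]

namespace C1

/-- further conditions: the window `D` of `F` next to infinity is `(false, t.id)` -/
structure Ok2 (t : C1 b) : Prop extends t.Ok where
  rne : t.rqu ≠ t.rpu
  sepD : ∀ m n : Fin 4, b.st (false, t.id) + m.val ≠ b.st (true, t.ib) + n.val
  CD : t.iC ≠ t.id

variable {t : C1 b} (hok : b.Ok) (h2 : IsUnit (2 : R)) (h3 : IsUnit (3 : R))
  (hg : ∀ y : R, ∃ j : ℕ, j • (1 : R) = y)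

/-! ### Exchange of the hybrid letters -/

theorem hpi (h : b.ROk) (σ : W → WSys) (κ : ZMod b.k → W → R) (Φ : ZMod b.k → Option b.V → Perm R)
    (A2 : Finset R) {lq le : R → W}
    (hσq : ∀ s ∈ A2, σ (lq s) = (true, t.id)) (hκq : ∀ s ∈ A2, ∀ r, κ r (lq s) = s)
    (hσe : ∀ s ∈ A2, σ (le s) = (false, t.iC)) (hκe : ∀ s ∈ A2, ∀ r, κ r (le s) = s)
    (hΦd : ∀ r n y, Φ r (some (b.win r (true, t.id) n)) y = y)
    (hΦC : ∀ r n y, Φ r (some (b.win r (false, t.iC) n)) y = y)
    (π : R → Perm W) (hπq : ∀ s ∈ A2, π 0 (lq s) = le s) (hπe : ∀ s ∈ A2, π 0 (le s) = lq s)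
    (hπo : ∀ w, (∀ s ∈ A2, w ≠ lq s) → (∀ s ∈ A2, w ≠ le s) → π 0 w = w)
    (hπ1 : ∀ l, l ≠ 0 → π l = 1) (l : R) (w u : W) :
    ∑ r, (b.row hok h2 h3 hg r).tie σ (κ r) (Φ r) l w u =
      ∑ r, (b.row hok h2 h3 hg r).tie σ (κ r) (Φ r) l (π l w) u := by
  by_cases hl : l = 0
  · subst hl
    by_cases c1 : ∃ s ∈ A2, w = lq s
    · obtain ⟨s, hs, rfl⟩ := c1
      rw [hπq s hs]
      refine Row.sum_tie_congr (fun r => b.row hok h2 h3 hg r) σ κ Φ (fun r i n => b.win r i n)
        (fun r i n => row_wn hok h2 h3 hg r i n) (fun i => h.win_bij hok i) ?_ u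
      intro r k r' k' x hx hx'
      rw [hσq s hs] at hx
      rw [hσe s hs] at hx'
      rw [hκq s hs, hκe s hs, mul_zero, mul_zero, add_zero]
      have e1 := hΦd r k s
      rw [hx] at e1
      have e2 := hΦC r' k' s
      rw [hx'] at e2
      rw [e1, e2]
    · by_cases c2 : ∃ s ∈ A2, w = le s
      · obtain ⟨s, hs, rfl⟩ := c2
        rw [hπe s hs]
        refine Row.sum_tie_congr (fun r => b.row hok h2 h3 hg r) σ κ Φ (fun r i n => b.win r i n)
          (fun r i n => row_wn hok h2 h3 hg r i n) (fun i => h.win_bij hok i) ?_ u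
        intro r k r' k' x hx hx'
        rw [hσe s hs] at hx
        rw [hσq s hs] at hx'
        rw [hκq s hs, hκe s hs, mul_zero, mul_zero, add_zero]
        have e1 := hΦC r k s
        rw [hx] at e1
        have e2 := hΦd r' k' s
        rw [hx'] at e2
        rw [e1, e2]
      · rw [hπo w (fun s hs hw => c1 ⟨s, hs, hw⟩) (fun s hs hw => c2 ⟨s, hs, hw⟩)]
  · rw [hπ1 l hl]
    rfl

/-! ### Moves of the straight squares are apart -/

variable {lp lq lu le : R → W}

omit [Fintype R] [DecidableEq R] [Fintype W] [DecidableEq W] in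
theorem apart_GG [Nontrivial R] (ht : t.Ok2) {σ : W → WSys} {κ : ZMod b.k → W → R}
    (hσ : ∀ r, Function.Injective fun w => (σ w, κ r w)) {s s' : R}
    (hl : t.LOk lp lq lu le σ κ s) (hl' : t.LOk lp lq lu le σ κ s') (n n' : Fin 3)
    (hne : ¬ (s = s' ∧ n = n')) (hr : t.row n = t.row n')
    (hll : (t.mv lp lq lu le s n).l = (t.mv lp lq lu le s' n').l) :
    ((b.row hok h2 h3 hg (t.row n)).gmove σ (κ (t.row n)) (t.mv lp lq lu le s n)).Apart
      ((b.row hok h2 h3 hg (t.row n)).gmove σ (κ (t.row n)) (t.mv lp lq lu le s' n')) := by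
  have ok1 := gok hok h2 h3 hg ht.toOk hl n
  have ok2 := gok hok h2 h3 hg ht.toOk hl' n'
  rw [← hr] at ok2
  refine ok1.apart_pass ok2 hll ?_
  have hsame : ∀ (w w' : W), σ w = σ w' → κ (t.row n) w = s → κ (t.row n) w' = s' → s ≠ s' →
      ∀ l, (b.row hok h2 h3 hg (t.row n)).pc σ (κ (t.row n)) l w ≠
        (b.row hok h2 h3 hg (t.row n)).pc σ (κ (t.row n)) l w' := by
    intro w w' h1 h2' h3' h4 l
    refine Row.pc_ne h1 (hσ _) ?_
    rintro rfl
    exact h4 (h2'.symm.trans h3')
  fin_cases n <;> fin_cases n'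
  · have hs : s ≠ s' := fun h => hne ⟨h, rfl⟩
    exact hsame _ _ (hl.σq.trans hl'.σq.symm) (hl.κq _) (hl'.κq _) hs _
  · exact absurd hr ht.rne
  · exact absurd hll one_ne_zero
  · exact absurd hr.symm ht.rne
  · have hs : s ≠ s' := fun h => hne ⟨h, rfl⟩
    exact hsame _ _ (hl.σu.trans hl'.σu.symm) hl.κu hl'.κu hs _
  · exact absurd hll one_ne_zero
  · exact absurd hll zero_ne_one
  · exact absurd hll zero_ne_one
  · have hs : s ≠ s' := fun h => hne ⟨h, rfl⟩
    exact hsame _ _ (hl.σu.trans hl'.σu.symm) hl.κu' hl'.κu' hs _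

/-- a move at the window `D` -/
structure DMv (t : C1 b) (σ : W → WSys) (m : GMv R W) : Prop where
  dir : m.dir = !t.f
  zt : m.zt = true
  σw : σ m.w = (false, t.id)

omit [Fintype R] [DecidableEq R] [Fintype W] [DecidableEq W] [CommRing R] in
include hok in
theorem win_ne (ht : t.Ok2) (r : ZMod b.k) (m n : Fin 4) :
    (some (b.win r (false, t.id) m) : Option b.V) ≠ some (b.win r (true, t.ib) n) := by
  rw [← pn_win hok, ← pn_win hok]
  intro h
  have h1 := hok.st_lt (false, t.id)
  have h2 := hok.st_lt (true, t.ib)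
  have h3 := m.isLt
  have h4 := n.isLt
  exact ht.sepD m n (b.pn_inj r (by omega) (by omega) h)

omit [Fintype R] [DecidableEq R] [Fintype W] [DecidableEq W] in
theorem gt_D (ht : t.Ok2) (r : ZMod b.k) :
    (b.row hok h2 h3 hg r).gt (!t.f) (false, t.id) = none := by
  have hinf := ht.inf
  have hp := hok.posle t.id
  have hk := b.k_pos
  unfold BD.st at hinf
  unfold Row.gt
  cases hf : t.f
  · rw [hf] at hinf
    simp only [Bool.false_eq_true, if_false, if_true] at hinf
    simp only [Bool.not_false, if_true]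
    show b.sq r (b.sq r (b.sq r (b.pn r (b.st (false, t.id) + 1)))) = _
    rw [b.sq_pn, b.sq_pn, b.sq_pn]
    have e1 : b.st (false, t.id) + 1 + 1 + 1 + 1 = 4 * b.k + 1 + 0 := by
      unfold BD.st
      simp only [Bool.false_eq_true, if_false]
      omega
    rw [e1, b.pn_top, b.pn_zero]
  · rw [hf] at hinf
    simp only [if_true] at hinf
    simp only [Bool.not_true, Bool.false_eq_true, if_false]
    show (b.sq r)⁻¹ ((b.sq r)⁻¹ (b.pn r (b.st (false, t.id) + 1))) = _
    have e1 : b.st (false, t.id) = 1 := by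
      unfold BD.st
      simp only [Bool.false_eq_true, if_false]
      omega
    rw [b.sq_inv_pn, e1, b.sq_inv_pn, b.pn_zero]

theorem apart_FG (ht : t.Ok2) {σ : W → WSys} {κ : ZMod b.k → W → R} {s : R}
    (hl : t.LOk lp lq lu le σ κ s) (n : Fin 3) (hn : n ≠ 0) {m : GMv R W} (hm : DMv t σ m) :
    ((b.row hok h2 h3 hg (t.row n)).gmove σ (κ (t.row n)) m).Apart
      ((b.row hok h2 h3 hg (t.row n)).gmove σ (κ (t.row n)) (t.mv lp lq lu le s n)) ∧
    ((b.row hok h2 h3 hg (t.row n)).gmove σ (κ (t.row n)) (t.mv lp lq lu le s n)).Apart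
      ((b.row hok h2 h3 hg (t.row n)).gmove σ (κ (t.row n)) m) := by
  have hw : σ (t.mv lp lq lu le s n).w = (true, t.ib) := by
    fin_cases n
    · exact absurd rfl hn
    · exact hl.σu
    · exact hl.σu
  have hz : (t.mv lp lq lu le s n).zt = false := by
    fin_cases n
    · exact absurd rfl hn
    · rfl
    · rfl
  have hw' : σ (t.mv lp lq lu le s n).w' ≠ (false, t.id) := by
    fin_cases n
    · exact absurd rfl hn
    · show σ (lp s) ≠ _
      rw [hl.σp]
      intro h
      exact Bool.noConfusion (Prod.ext_iff.1 h).1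
    · show σ (le s) ≠ _
      rw [hl.σe]
      intro h
      exact ht.CD (Prod.ext_iff.1 h).2
  constructor
  · refine Row.GFar.apart ⟨?_, ?_, ?_, ?_⟩
    · intro k
      rw [hm.σw, hw, row_ginn, row_wn]
      exact win_ne hok ht _ _ _
    · intro h
      rw [hz] at h
      exact Bool.noConfusion h
    · rw [hm.σw, hw]
      intro h
      exact Bool.noConfusion (Prod.ext_iff.1 h).1
    · intro _ h
      rw [hm.σw] at h
      exact hw' h.symm
  · refine Row.GFar.apart ⟨?_, ?_, ?_, ?_⟩
    · intro k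
      rw [hm.σw, hw, row_ginn, row_wn]
      exact (win_ne hok ht _ _ _).symm
    · intro _
      rw [hm.σw, hm.dir, hw, row_ginn, gt_D hok h2 h3 hg ht]
      exact Option.some_ne_none _
    · rw [hm.σw, hw]
      intro h
      exact Bool.noConfusion (Prod.ext_iff.1 h).1
    · intro h
      rw [hm.zt] at h
      exact Bool.noConfusion h

/-! ### The step -/

theorem sum_letters (σ : W → WSys) (κ : W → R) (hσ : Function.Injective fun w => (σ w, κ w))
    (A2 : Finset R) (hlab : ∀ i s, s ∈ A2 ↔ ∃ w, σ w = (true, i) ∧ κ w = s)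
    {A : Type*} [AddCommMonoid A] (g : WSys → R → A) :
    ∑ w, g (σ w) (κ w) = ∑ w ∈ univ.filter (fun w => (σ w).1 = false), g (σ w) (κ w) +
      ∑ i : Fin 4, ∑ s ∈ A2, g (true, i) s := by
  classical
  rw [← sum_filter_add_sum_filter_not univ (fun w => (σ w).1 = false)]
  congr 1
  rw [← sum_product']
  refine sum_nbij (fun w => ((σ w).2, κ w)) ?_ ?_ ?_ ?_
  · intro w hw
    rw [mem_filter] at hw
    rw [mem_product]
    refine ⟨mem_univ _, (hlab (σ w).2 (κ w)).2 ⟨w, ?_, rfl⟩⟩
    have : (σ w).1 = true := by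
      cases h : (σ w).1
      · exact absurd h hw.2
      · rfl
    exact Prod.ext this rfl
  · intro w hw w' hw' h
    rw [mem_coe, mem_filter] at hw hw'
    have e1 : (σ w).1 = true := by
      cases h : (σ w).1
      · exact absurd h hw.2
      · rfl
    have e2 : (σ w').1 = true := by
      cases h : (σ w').1
      · exact absurd h hw'.2
      · rfl
    have e3 : (σ w).2 = (σ w').2 := congrArg Prod.fst h
    have e4 : κ w = κ w' := congrArg Prod.snd h
    exact hσ (Prod.ext (Prod.ext (e1.trans e2.symm) e3) e4)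
  · rintro ⟨i, s⟩ his
    rw [mem_coe, mem_product] at his
    obtain ⟨w, hw1, hw2⟩ := (hlab i s).1 his.2
    refine ⟨w, ?_, ?_⟩
    · rw [mem_coe, mem_filter]
      refine ⟨mem_univ _, ?_⟩
      rw [hw1]
      exact Bool.noConfusion
    · show ((σ w).2, κ w) = _
      rw [hw1, hw2]
  · intro w hw
    rw [mem_filter] at hw
    have e1 : (σ w).1 = true := by
      cases h : (σ w).1
      · exact absurd h hw.2
      · rfl
    show g (σ w) (κ w) = g (true, (σ w).2) (κ w)
    rw [← e1]

/-- the column is not exchanged in the row `r` -/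
structure Quiet1 (t : C1 b) (r : ZMod b.k) (x : Option b.V) : Prop where
  qu : r = t.rqu → x ≠ some (b.win r (true, t.id) (wi t.f))
  pu : r = t.rpu → x ≠ some (b.win r (true, t.ib) (wi t.e))
  qv : r = t.rqv → x ≠ some (b.win r (true, t.ib) (wi !t.e))
  D : x ≠ some (b.win r (false, t.id) (wi !t.f))

/-- **The step for class 1 bases.** -/
theorem step1 [Nontrivial R] (hr : b.ROk) (ht : t.Ok2)
    (hc : 5 < Fintype.card ((Option b.V × R) ⊕ W))
    {TF : Type*} [Fintype TF] [DecidableEq TF] (A2 : Finset R)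
    (σ : W → WSys) (κ : ZMod b.k → W → R) (hσ : ∀ r, Function.Injective fun w => (σ w, κ r w))
    (Φ : ZMod b.k → Option b.V → Perm R) (μ : ℕ → R) (hμ : ∀ c < 4, IsUnit (μ c))
    (δ : ZMod b.k → Fin 4 → Fin 4 → R) (hD : DOk t δ)
    (hnat : ∀ i n : Fin 4, (b.c (b.st (true, i) + n.val) : R) - (b.cs (true, i) : R) =
      μ (b.Jf (true, i) n % 4))
    (hΦ : ∀ (r : ZMod b.k) (i n : Fin 4) (y : R), Φ r (some (b.win r (true, i) n)) y =
      y + μ (b.Jf (true, i) n % 4) * δ r i n)
    (hΦC : ∀ r n y, Φ r (some (b.win r (false, t.iC) n)) y = y)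
    (hl : ∀ s ∈ A2, t.LOk lp lq lu le σ κ s)
    (hlab : ∀ r i s, s ∈ A2 ↔ ∃ w, σ w = (true, i) ∧ κ r w = s)
    (OF : TF → Perm (b.V × R)) (hOFc : ∀ j, Closed (OF j)) (freeF : Sym2 (b.V × R) → ℤ)
    (hOF : ∑ j, E (OF j) = vertAll b.V R + freeF)
    (hfreeF : push (emV b.V R) freeF = ∑ r, push (fib (Φ r))
      (∑ w ∈ univ.filter (fun w => (σ w).1 = false),
        ((b.row hok h2 h3 hg r).mac (σ w) (κ r w) + (b.row hok h2 h3 hg r).mbd (σ w) (κ r w))))
    (S : TF ⊕ {s // s ∈ A2} → Perm (R ⊕ W)) (hSc : ∀ j, Closed (S j))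
    (hS : ∑ j, E (S j) = allPairs (R ⊕ W)) (yv : R → R)
    (hyv : ∀ s ∈ A2, Φ t.rqu none (s + ((b.c 0 : R) - (b.cs (true, t.id) : R))) = yv s)
    (hword : ∀ s : {s // s ∈ A2}, S (.inr s) (.inr (lp s)) = .inr (lq s) ∧
      S (.inr s) (.inr (lq s)) = .inr (lu s) ∧ S (.inr s) (.inr (lu s)) = .inl (yv s))
    (rF : TF × Fin 3 → ZMod b.k) (mF : TF × Fin 3 → GMv R W) (hrF : ∀ z, rF z ≠ t.rqu)
    (hokF : ∀ z, (b.row hok h2 h3 hg (rF z)).GOK σ (κ (rF z)) (mF z))
    (hdF : ∀ z, DMv t σ (mF z))
    (hapF : ∀ z z', z ≠ z' → rF z = rF z' → (mF z).l = (mF z').l →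
      ((b.row hok h2 h3 hg (rF z)).gmove σ (κ (rF z)) (mF z)).Apart
        ((b.row hok h2 h3 hg (rF z)).gmove σ (κ (rF z)) (mF z')))
    (PF : TF → Place ((Option b.V × R) ⊕ W))
    (hΔF : ∀ j, (((b.row hok h2 h3 hg (rF (j, 0))).gmove σ (κ (rF (j, 0))) (mF (j, 0))).map
        (Row.mvp (Φ (rF (j, 0))) 1)).Δ +
      (((b.row hok h2 h3 hg (rF (j, 1))).gmove σ (κ (rF (j, 1))) (mF (j, 1))).map
        (Row.mvp (Φ (rF (j, 1))) 1)).Δ +
      (((b.row hok h2 h3 hg (rF (j, 2))).gmove σ (κ (rF (j, 2))) (mF (j, 2))).map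
        (Row.mvp (Φ (rF (j, 2))) 1)).Δ = (PF j).Γ)
    (hqF : ∀ j, isFin (PF j).q = true) (hxF : ∀ j, isFin (PF j).x₀ = false)
    (hinF : ∀ j, (PF j).In (two (OF j) (S (.inl j))))
    (hquF : ∀ j, (PF j).q ≠ (PF j).u) (hxxF : ∀ j, (PF j).x₀ ≠ (PF j).x₁) :
    ∃ (π : R → Perm W)
      (s : (ZMod b.k × R) ⊕ (TF ⊕ {s // s ∈ A2}) → Perm ((Option b.V × R) ⊕ W)), Dec s ∧
      (∀ r l x y x' y', Quiet1 t r x → Quiet1 t r x' →
        (b.row hok h2 h3 hg r).fullπ (hσ r) (Φ r) (π l) l (.inl (x, y)) = .inl (x', y') →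
        s (.inl (r, l)) (.inl (x, y)) = .inl (x', y')) ∧
      (∀ j x, x ≠ (PF j).q → x ≠ (PF j).x₀ → s (.inr (.inl j)) x = two (OF j) (S (.inl j)) x) ∧
      (∀ (j : {s // s ∈ A2}) x, x ≠ (t.place μ lp lq lu yv j.val).q →
        x ≠ (t.place μ lp lq lu yv j.val).x₀ →
        s (.inr (.inr j)) x = two (stO hr true μ hμ t.w j.val) (S (.inr j)) x) := by
  classical
  have hk := b.one_lt_k hok
  -- the exchange of the hybrid letters
  have inj_q : Function.Injective fun s : {s // s ∈ A2} => lq s.val := by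
    intro s s' hss
    have e1 := (hl s.val s.2).κq 0
    have e2 := (hl s'.val s'.2).κq 0
    have e3 : lq s.val = lq s'.val := hss
    rw [e3, e2] at e1
    exact Subtype.ext e1.symm
  have inj_e : Function.Injective fun s : {s // s ∈ A2} => le s.val := by
    intro s s' hss
    have e1 := (hl s.val s.2).κe 0
    have e2 := (hl s'.val s'.2).κe 0
    have e3 : le s.val = le s'.val := hss
    rw [e3, e2] at e1
    exact Subtype.ext e1.symm
  have dis_qe : ∀ s s' : {s // s ∈ A2}, lq s.val ≠ le s'.val := by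
    intro s s' hss
    have e1 := (hl s.val s.2).σq
    rw [hss, (hl s'.val s'.2).σe] at e1
    exact Bool.noConfusion (Prod.ext_iff.1 e1).1
  obtain ⟨π0, hπq, hπe, hπo⟩ := exists_swap_perm _ _ inj_q inj_e dis_qe
  let π : R → Perm W := fun l => if l = 0 then π0 else 1
  have hπ0 : π 0 = π0 := if_pos rfl
  have hπ1 : ∀ l, l ≠ 0 → π l = 1 := fun l hl' => if_neg hl'
  have hpi' := hpi hok h2 h3 hg hr σ κ Φ A2 (fun s hs => (hl s hs).σq) (fun s hs => (hl s hs).κq)
    (fun s hs => (hl s hs).σe) (fun s hs => (hl s hs).κe)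
    (fun r n y => by rw [hΦ, hD.d0, mul_zero, add_zero]) hΦC π
    (fun s hs => by rw [hπ0]; exact hπq ⟨s, hs⟩) (fun s hs => by rw [hπ0]; exact hπe ⟨s, hs⟩)
    (fun w hw hw' => by
      rw [hπ0]
      exact hπo w (fun s => hw s.val s.2) (fun s => hw' s.val s.2)) hπ1
  -- the squares on the finite columns
  let O : TF ⊕ {s // s ∈ A2} → Perm (b.V × R) :=
    Sum.elim OF fun s => stO hr true μ hμ t.w s.val
  have hOc : ∀ j, Closed (O j) := by
    rintro (j | s)
    · exact hOFc j
    · exact closed_stO hr true μ hμ t.w s.val (t.gen_w hg)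
  let free : Sym2 (b.V × R) → ℤ := freeF + ∑ s : {s // s ∈ A2}, E (stO hr true μ hμ t.w s.val)
  have hO : ∑ j, E (O j) = vertAll b.V R + free := by
    rw [Fintype.sum_sum_type]
    show ∑ j, E (OF j) + ∑ s : {s // s ∈ A2}, E (stO hr true μ hμ t.w s.val) = _
    rw [hOF, add_assoc]
  have hfree : push (emV b.V R) free = ∑ r, push (fib (Φ r))
      (∑ w, ((b.row hok h2 h3 hg r).mac (σ w) (κ r w) +
        (b.row hok h2 h3 hg r).mbd (σ w) (κ r w))) := by
    have e1 : ∑ s : {s // s ∈ A2}, push (emV b.V R) (E (stO hr true μ hμ t.w s.val)) =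
        ∑ s ∈ A2, push (emV b.V R) (E (stO hr true μ hμ t.w s)) :=
      Finset.sum_coe_sort A2 (fun s => push (emV b.V R) (E (stO hr true μ hμ t.w s)))
    show push (emV b.V R) (freeF + ∑ s : {s // s ∈ A2}, E (stO hr true μ hμ t.w s.val)) = _
    rw [push_add, push_sum, e1, hfreeF,
      sum_congr rfl fun s _ => straight_sum hok h2 h3 hg hr true μ hμ t.w Φ δ hnat hΦ hD.hδ s,
      sum_comm, ← sum_add_distrib]
    refine sum_congr rfl fun r _ => ?_
    rw [← push_sum, ← push_add]
    congr 1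
    rw [sum_letters σ (κ r) (hσ r) A2 (hlab r) (fun i s => (b.row hok h2 h3 hg r).mac i s +
      (b.row hok h2 h3 hg r).mbd i s)]
    congr 1
    rw [sum_comm]
  -- the moves
  let row' : (TF ⊕ {s // s ∈ A2}) × Fin 3 → ZMod b.k := fun z =>
    Sum.elim (fun j => rF (j, z.2)) (fun _ => t.row z.2) z.1
  let mv' : (TF ⊕ {s // s ∈ A2}) × Fin 3 → GMv R W := fun z =>
    Sum.elim (fun j => mF (j, z.2)) (fun s => t.mv lp lq lu le s.val z.2) z.1
  have hok' : ∀ z, (b.row hok h2 h3 hg (row' z)).GOK σ (κ (row' z)) (mv' z) := by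
    rintro ⟨j | s, n⟩
    · exact hokF (j, n)
    · exact gok hok h2 h3 hg ht.toOk (hl s.val s.2) n
  have hap' : ∀ z z', z ≠ z' → row' z = row' z' → (mv' z).l = (mv' z').l →
      ((b.row hok h2 h3 hg (row' z)).gmove σ (κ (row' z)) (mv' z)).Apart
        ((b.row hok h2 h3 hg (row' z)).gmove σ (κ (row' z)) (mv' z')) := by
    rintro ⟨j | s, n⟩ ⟨j' | s', n'⟩ hne hrr hll
    · exact hapF (j, n) (j', n') (fun h => hne (by
        obtain ⟨e1, e2⟩ := Prod.ext_iff.1 h
        simp only at e1 e2
        rw [e1, e2])) hrr hll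
    · have hrr' : rF (j, n) = t.row n' := hrr
      have hn : n' ≠ 0 := by
        rintro rfl
        exact hrF _ hrr'
      show ((b.row hok h2 h3 hg (rF (j, n))).gmove σ (κ (rF (j, n))) (mF (j, n))).Apart
        ((b.row hok h2 h3 hg (rF (j, n))).gmove σ (κ (rF (j, n))) (t.mv lp lq lu le s'.val n'))
      rw [hrr']
      exact (apart_FG hok h2 h3 hg ht (hl s'.val s'.2) n' hn (hdF (j, n))).1
    · have hrr' : t.row n = rF (j', n') := hrr
      have hn : n ≠ 0 := by
        rintro rfl
        exact hrF _ hrr'.symm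
      exact (apart_FG hok h2 h3 hg ht (hl s.val s.2) n hn (hdF (j', n'))).2
    · refine apart_GG hok h2 h3 hg ht hσ (hl s.val s.2) (hl s'.val s'.2) n n' ?_ hrr hll
      rintro ⟨e1, e2⟩
      exact hne (by rw [Subtype.ext e1, e2])
  let P : TF ⊕ {s // s ∈ A2} → Place ((Option b.V × R) ⊕ W) :=
    Sum.elim PF fun s => t.place μ lp lq lu yv s.val
  have hπF : ∀ z : TF × Fin 3,
      (((b.row hok h2 h3 hg (rF z)).gmove σ (κ (rF z)) (mF z)).map
        (Row.mvp (Φ (rF z)) (π (mF z).l))).Δ =
      (((b.row hok h2 h3 hg (rF z)).gmove σ (κ (rF z)) (mF z)).map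
        (Row.mvp (Φ (rF z)) 1)).Δ := by
    intro z
    have hw : π (mF z).l (mF z).w = (mF z).w := by
      by_cases h0 : (mF z).l = 0
      · rw [h0, hπ0]
        refine hπo _ (fun s hs => ?_) (fun s hs => ?_)
        · have e1 := (hdF z).σw
          rw [hs, (hl s.val s.2).σq] at e1
          exact Bool.noConfusion (Prod.ext_iff.1 e1).1
        · have e1 := (hdF z).σw
          rw [hs, (hl s.val s.2).σe] at e1
          exact ht.CD (Prod.ext_iff.1 e1).2
      · rw [hπ1 _ h0]
        rfl
    rw [Row.gmove_map_Δ, Row.gmove_map_Δ, hw]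
    congr 1
    unfold Row.gy
    rw [(hdF z).zt]
    rfl
  have hΔ' : ∀ z, (((b.row hok h2 h3 hg (row' (z, 0))).gmove σ (κ (row' (z, 0))) (mv' (z, 0))).map
        (Row.mvp (Φ (row' (z, 0))) (π (mv' (z, 0)).l))).Δ +
      (((b.row hok h2 h3 hg (row' (z, 1))).gmove σ (κ (row' (z, 1))) (mv' (z, 1))).map
        (Row.mvp (Φ (row' (z, 1))) (π (mv' (z, 1)).l))).Δ +
      (((b.row hok h2 h3 hg (row' (z, 2))).gmove σ (κ (row' (z, 2))) (mv' (z, 2))).map
        (Row.mvp (Φ (row' (z, 2))) (π (mv' (z, 2)).l))).Δ = (P z).Γ := by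
    rintro (j | s)
    · have e0 := hπF (j, 0)
      have e1 := hπF (j, 1)
      have e2 := hπF (j, 2)
      have e3 := hΔF j
      rw [← e0, ← e1, ← e2] at e3
      exact e3
    · refine sum_Δ hok h2 h3 hg hr ht.toOk μ Φ δ hD hnat hΦ (hl s.val s.2) π ?_ ?_ ?_ yv
        (hyv s.val s.2)
      · rw [hπ0]
        refine hπo _ (fun s' hs => ?_) (fun s' hs => ?_)
        · have e1 := (hl s.val s.2).σu
          rw [hs, (hl s'.val s'.2).σq] at e1
          have e2 : t.id = t.ib := (Prod.ext_iff.1 e1).2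
          have e3 := hok.binj (true, t.ib) (true, t.id) (by rw [e2])
          have e4 := ht.qu_o
          have e5 := ht.qv_o
          -- `d` and `b` are different windows
          have hadj := ht.inf
          have hadjL := ht.adjL
          have hadjC := ht.adjC
          have s1 := hok.st_lt (true, t.ia)
          have s2 := hok.st_lt (false, t.iC)
          have s3 := hok.one_le (true, t.ia)
          have s4 := hok.one_le (false, t.iC)
          rw [e2] at hadj
          split_ifs at hadj hadjL hadjC <;> omega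
        · have e1 := (hl s.val s.2).σu
          rw [hs, (hl s'.val s'.2).σe] at e1
          exact Bool.noConfusion (Prod.ext_iff.1 e1).1
      · rw [hπ0]
        exact hπe s
      · exact hπ1 1 one_ne_zero
  obtain ⟨s, hs, hs1, hs2⟩ := Row.main_moves hc (fun r => b.row hok h2 h3 hg r) σ κ hσ Φ π hpi'
    b.sum_sq (fun r i n => b.win r i n) (fun r i n => row_wn hok h2 h3 hg r i n)
    (fun i => hr.win_bij hok i) O S free hfree hO hS row' mv' hok' hap' (fun z => z) P hΔ'
    (fun j x => if isFin x = true then some j else none)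
    (fun j => comps_two (O j) (S j) (hOc j) (hSc j) j)
    (fun j x z hz => by
      by_cases hx : isFin x = true
      · rw [if_pos hx] at hz
        exact (Option.some_injective _ hz).symm
      · rw [if_neg hx] at hz
        exact absurd hz (by simp))
    (fun z => by
      show (if isFin (P z).q = true then some z else none) = some z
      have : isFin (P z).q = true := by
        rcases z with j | s
        · exact hqF j
        · rfl
      rw [if_pos this])
    (fun z => by
      show (if isFin (P z).x₀ = true then some z else none) = none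
      have : isFin (P z).x₀ = false := by
        rcases z with j | s
        · exact hxF j
        · rfl
      rw [this]
      rfl)
    (fun z => by
      rcases z with j | s
      · exact hinF j
      · exact place_in hr hk μ hμ yv s.val _ (hword s).1 (hword s).2.1 (hword s).2.2)
    (fun z => by
      rcases z with j | s
      · exact hquF j
      · show (Sum.inl (emV b.V R (sp' b true μ s.val (t.J + 1) 1)) : (Option b.V × R) ⊕ W) ≠
          .inl (emV b.V R (sp' b true μ s.val (t.J + 2) 1))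
        intro h
        have e0 : b.rgF true (t.J + 1) = b.rgF true (t.J + 2) :=
          congrArg Prod.fst (emV_injective (Sum.inl_injective h))
        have e1 := hr.rgF_inj _ e0
        have e2 := b.small_ne hk (n := 1) (by norm_num) (by norm_num)
        apply e2
        push_cast
        linear_combination -e1)
    (fun z => by
      rcases z with j | s
      · exact hxxF j
      · show (Sum.inr (lq s.val) : (Option b.V × R) ⊕ W) ≠ .inr (lu s.val)
        intro h
        have e0 : lq s.val = lu s.val := Sum.inr_injective h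
        have e1 := (hl s.val s.2).σu
        rw [← e0, (hl s.val s.2).σq] at e1
        have e2 : t.id = t.ib := (Prod.ext_iff.1 e1).2
        have hadj := ht.inf
        have hadjL := ht.adjL
        have hadjC := ht.adjC
        have s1 := hok.st_lt (true, t.ia)
        have s2 := hok.st_lt (false, t.iC)
        have s3 := hok.one_le (true, t.ia)
        have s4 := hok.one_le (false, t.iC)
        rw [e2] at hadj
        split_ifs at hadj hadjL hadjC <;> omega)
    (fun z z' hzz hne => absurd hzz hne)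
  refine ⟨π, s, hs, ?_, ?_, ?_⟩
  · intro r l x y x' y' hx hx' hxy
    have key : ∀ c : Option b.V, Quiet1 t r c → ∀ z, row' z = r →
        c ≠ (b.row hok h2 h3 hg r).ginn (mv' z).dir (σ (mv' z).w) := by
      rintro c hc ⟨j | s, n⟩ hz
      · show c ≠ (b.row hok h2 h3 hg r).ginn (mF (j, n)).dir (σ (mF (j, n)).w)
        rw [(hdF (j, n)).dir, (hdF (j, n)).σw, row_ginn]
        exact hc.D
      · have hz' : t.row n = r := hz
        fin_cases n
        · show c ≠ (b.row hok h2 h3 hg r).ginn t.f (σ (lq s.val))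
          rw [(hl s.val s.2).σq, row_ginn]
          exact hc.qu hz'.symm
        · show c ≠ (b.row hok h2 h3 hg r).ginn t.e (σ (lu s.val))
          rw [(hl s.val s.2).σu, row_ginn]
          exact hc.pu hz'.symm
        · show c ≠ (b.row hok h2 h3 hg r).ginn (!t.e) (σ (lu s.val))
          rw [(hl s.val s.2).σu, row_ginn]
          exact hc.qv hz'.symm
    exact hs1 r l x y x' y' (key x hx) (key x' hx') hxy
  · intro j x h1' h2'
    refine hs2 (.inl j) x ?_
    rintro z hz
    have hz' : z = .inl j := hz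
    subst hz'
    exact ⟨h1', h2'⟩
  · intro j x h1' h2'
    refine hs2 (.inr j) x ?_
    rintro z hz
    have hz' : z = .inr j := hz
    subst hz'
    exact ⟨h1', h2'⟩

end C1

end RD

end SqIns
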