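import Pool.Agent.Lib.SqIns.Chi2
import Pool.Agent.Lib.SqIns.Step1

/-!
# The words of the next level after the step for class 1 bases
-/

open Finset Equiv

namespace SqIns

/-! ### Words of the merged squares -/

theorem two_emU {V R W : Type*} (O : Perm (V × R)) (S : Perm (R ⊕ W)) (p : V × R) :
    two O S (emU V R W p) = emU V R W (O p) := RD.C1.two_inl O S p

theorem emU_isFin {V R W : Type*} (p : V × R) : isFin (emU V R W p) = true := rfl

/-- a word of the square on the finite columns is a word of the merged square -/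
theorem word_keep {V R W : Type*} (O : Perm (V × R)) (S : Perm (R ⊕ W))
    (s : Perm ((Option V × R) ⊕ W)) (q x₀ : (Option V × R) ⊕ W) (hx : isFin x₀ = false)
    (hs : ∀ x, x ≠ q → x ≠ x₀ → s x = two O S x) (w : Fin 4 → V × R)
    (hw : Fwd O w ∨ Fwd O⁻¹ w) (hq : ∀ i, emU V R W (w i) ≠ q) :
    Fwd s (fun i => emU V R W (w i)) ∨ Fwd s⁻¹ fun i => emU V R W (w i) := by
  have key : ∀ i p, O (w i) = p → s (emU V R W (w i)) = emU V R W p := by
    intro i p h
    rw [hs _ (hq i), two_emU, h]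
    intro h0
    rw [← h0, emU_isFin] at hx
    exact absurd hx (by decide)
  rcases hw with ⟨h1, h2, h3⟩ | ⟨h1, h2, h3⟩
  · exact Or.inl ⟨key 0 _ h1, key 1 _ h2, key 2 _ h3⟩
  · right
    rw [Perm.inv_eq_iff_eq] at h1 h2 h3
    refine ⟨?_, ?_, ?_⟩
    · rw [Perm.inv_eq_iff_eq]; exact (key 1 _ h1.symm).symm
    · rw [Perm.inv_eq_iff_eq]; exact (key 2 _ h2.symm).symm
    · rw [Perm.inv_eq_iff_eq]; exact (key 3 _ h3.symm).symm

/-- ring index of the `i`-th point of a word of a straight square -/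
def rpos (j : ℕ) (d : Bool) (i : ℕ) : ℕ := if d then j + i else j + (3 - i)

namespace RD

variable {b : RD} {R : Type*} [CommRing R] [Fintype R] [DecidableEq R]

/-- a word of a straight square with prescribed second point -/
theorem exists_straight_word (h : b.ROk) (μ : ℕ → R) (hμ : ∀ c < 4, IsUnit (μ c))
    (w : ZMod (4 * b.k) → R) (s : R) (j : ℕ) (d : Bool) (y₀ : R) :
    ∃ v : Fin 4 → b.V × R, (∀ i : Fin 4, (v i).1 = b.rgF true (rpos j d i.val : ZMod (4 * b.k))) ∧
      v 1 = (b.rgF true (rpos j d 1 : ZMod (4 * b.k)), y₀) ∧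
      (Fwd (stO h true μ hμ w s) v ∨ Fwd (stO h true μ hμ w s)⁻¹ v) := by
  have step : ∀ (n : ℕ) (l : R), stO h true μ hμ w s (sp' b true μ s (n : ZMod (4 * b.k)) l) =
      sp' b true μ s ((n + 1 : ℕ) : ZMod (4 * b.k)) (l + w (n : ZMod (4 * b.k))) := by
    intro n l
    rw [stO_apply, Nat.cast_add, Nat.cast_one]
  cases d
  · -- backwards, the centre is the point number 2
    obtain ⟨u, hu⟩ := hμ (b.trk ((j + 2 : ℕ) : ZMod (4 * b.k))) (Nat.mod_lt _ (by norm_num))
    let l2 : R := ↑(u⁻¹) * (y₀ - s)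
    let l1 : R := l2 - w ((j + 1 : ℕ) : ZMod (4 * b.k))
    let l0 : R := l1 - w ((j : ℕ) : ZMod (4 * b.k))
    let l3 : R := l2 + w ((j + 2 : ℕ) : ZMod (4 * b.k))
    have e2 : sp' b true μ s ((j + 2 : ℕ) : ZMod (4 * b.k)) l2 =
        (b.rgF true ((j + 2 : ℕ) : ZMod (4 * b.k)), y₀) := by
      refine Prod.ext rfl ?_
      show s + μ _ * (↑(u⁻¹) * (y₀ - s)) = y₀
      rw [← hu, ← mul_assoc, Units.mul_inv, one_mul]
      ring
    refine ⟨![sp' b true μ s ((j + 3 : ℕ) : ZMod (4 * b.k)) l3,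
      sp' b true μ s ((j + 2 : ℕ) : ZMod (4 * b.k)) l2,
      sp' b true μ s ((j + 1 : ℕ) : ZMod (4 * b.k)) l1,
      sp' b true μ s ((j : ℕ) : ZMod (4 * b.k)) l0], ?_, e2, Or.inr ⟨?_, ?_, ?_⟩⟩
    · intro i
      fin_cases i <;> rfl
    · rw [Perm.inv_eq_iff_eq]
      exact (step (j + 2) l2).symm
    · rw [Perm.inv_eq_iff_eq]
      show _ = stO h true μ hμ w s (sp' b true μ s ((j + 1 : ℕ) : ZMod (4 * b.k)) l1)
      rw [step (j + 1) l1]
      show sp' b true μ s _ l2 = sp' b true μ s _ (l2 - w _ + w _)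
      rw [sub_add_cancel]
    · rw [Perm.inv_eq_iff_eq]
      show _ = stO h true μ hμ w s (sp' b true μ s ((j : ℕ) : ZMod (4 * b.k)) l0)
      rw [step j l0]
      show sp' b true μ s _ l1 = sp' b true μ s _ (l1 - w _ + w _)
      rw [sub_add_cancel]
  · obtain ⟨u, hu⟩ := hμ (b.trk ((j + 1 : ℕ) : ZMod (4 * b.k))) (Nat.mod_lt _ (by norm_num))
    let l1 : R := ↑(u⁻¹) * (y₀ - s)
    let l0 : R := l1 - w ((j : ℕ) : ZMod (4 * b.k))
    let l2 : R := l1 + w ((j + 1 : ℕ) : ZMod (4 * b.k))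
    let l3 : R := l2 + w ((j + 2 : ℕ) : ZMod (4 * b.k))
    have e1 : sp' b true μ s ((j + 1 : ℕ) : ZMod (4 * b.k)) l1 =
        (b.rgF true ((j + 1 : ℕ) : ZMod (4 * b.k)), y₀) := by
      refine Prod.ext rfl ?_
      show s + μ _ * (↑(u⁻¹) * (y₀ - s)) = y₀
      rw [← hu, ← mul_assoc, Units.mul_inv, one_mul]
      ring
    refine ⟨![sp' b true μ s ((j : ℕ) : ZMod (4 * b.k)) l0,
      sp' b true μ s ((j + 1 : ℕ) : ZMod (4 * b.k)) l1,
      sp' b true μ s ((j + 2 : ℕ) : ZMod (4 * b.k)) l2,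
      sp' b true μ s ((j + 3 : ℕ) : ZMod (4 * b.k)) l3], ?_, e1, Or.inl ⟨?_, ?_, ?_⟩⟩
    · intro i
      fin_cases i <;> rfl
    · show stO h true μ hμ w s (sp' b true μ s ((j : ℕ) : ZMod (4 * b.k)) l0) =
        sp' b true μ s ((j + 1 : ℕ) : ZMod (4 * b.k)) l1
      rw [step j l0]
      show sp' b true μ s _ (l1 - w _ + w _) = _
      rw [sub_add_cancel]
    · exact step (j + 1) l1
    · exact step (j + 2) l2

/-- code of a column of the family `F'` -/
def rcT (b : RD) (n : ℕ) : ℕ := ht b.k (b.rcode n)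

theorem cd_rgF (h : b.ROk) (n : ℕ) : cd b.k (b.rgF true (n : ZMod (4 * b.k))) = b.rcT n := by
  unfold rgF rcT
  rw [if_pos rfl, h.rgf_nat, ← dcd_ht b.k_pos (h.rcode_lt _)]
  exact cd_dcd (ht_lt b.k_pos (h.rcode_lt _))

namespace C1

/-- translation of the place and of the rows -/
def shift (t : C1 b) (c : ZMod b.k) : C1 b :=
  { t with J := t.J + b.e4 (b.gi * c), rqu := t.rqu + c, rpu := t.rpu + c, rqv := t.rqv + c }

theorem Ok.shift {t : C1 b} (h : t.Ok) (c : ZMod b.k) : (t.shift c).Ok := by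
  have e : ∀ (x : ZMod (4 * b.k)) (r : ZMod b.k), x + b.e4 (b.gi * (r + c)) =
      x + b.e4 (b.gi * r) + b.e4 (b.gi * c) := by
    intro x r
    rw [mul_add, b.e4_add, add_assoc]
  refine ⟨?_, ?_, ?_, ?_, ?_, ?_, h.adjL, h.adjC, h.inf, h.spd, h.sp0, h.csab⟩
  · show (b.Jf (true, t.ib) (wo t.e) : ZMod (4 * b.k)) + b.e4 (b.gi * (t.rpu + c)) =
      t.J + b.e4 (b.gi * c)
    rw [e, h.pu_o]
  · show (b.Jf (true, t.ib) (wi t.e) : ZMod (4 * b.k)) + b.e4 (b.gi * (t.rpu + c)) =
      t.J + b.e4 (b.gi * c) + 2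
    rw [e, h.pu_i, add_right_comm]
  · show (b.Jf (true, t.ib) (wo !t.e) : ZMod (4 * b.k)) + b.e4 (b.gi * (t.rqv + c)) =
      t.J + b.e4 (b.gi * c) + 1
    rw [e, h.qv_o, add_right_comm]
  · show (b.Jf (true, t.ib) (wi !t.e) : ZMod (4 * b.k)) + b.e4 (b.gi * (t.rqv + c)) =
      t.J + b.e4 (b.gi * c) + 3
    rw [e, h.qv_i, add_right_comm]
  · show (b.Jf (true, t.id) (wo t.f) : ZMod (4 * b.k)) + b.e4 (b.gi * (t.rqu + c)) =
      t.J + b.e4 (b.gi * c) + 2
    rw [e, h.qu_o, add_right_comm]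
  · show (b.Jf (true, t.id) (wi t.f) : ZMod (4 * b.k)) + b.e4 (b.gi * (t.rqu + c)) =
      t.J + b.e4 (b.gi * c) + 1
    rw [e, h.qu_i, add_right_comm]

theorem Ok2.shift {t : C1 b} (h : t.Ok2) (c : ZMod b.k) : (t.shift c).Ok2 :=
  ⟨h.toOk.shift c, fun hc => h.rne (add_right_cancel hc), h.sepD, h.CD⟩

/-- the excluded points of a row -/
def exf (t : C1 b) (r : ℕ) : ℕ :=
  2 ^ (b.st (false, t.id) + (wi !t.f).val) |||
  ((if r = t.rqu.val then 2 ^ (b.st (true, t.id) + (wi t.f).val) else 0) |||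
  ((if r = t.rpu.val then 2 ^ (b.st (true, t.ib) + (wi t.e).val) else 0) |||
   (if r = t.rqv.val then 2 ^ (b.st (true, t.ib) + (wi !t.e).val) else 0)))

theorem exf_lt (hok : b.Ok) (t : C1 b) (r n : ℕ) (h : (t.exf r).testBit n = true) :
    n < 4 * b.k + 1 := by
  have k1 := hok.st_lt (false, t.id)
  have k2 := hok.st_lt (true, t.id)
  have k3 := hok.st_lt (true, t.ib)
  have l1 := (wi !t.f).isLt
  have l2 := (wi t.f).isLt
  have l3 := (wi t.e).isLt
  have l4 := (wi !t.e).isLt
  unfold exf at h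
  simp only [Nat.testBit_or, Bool.or_eq_true] at h
  have aux : ∀ (P : Prop) [Decidable P] (m : ℕ), (if P then 2 ^ m else 0).testBit n = true →
      n = m := by
    intro P _ m hm
    split_ifs at hm
    · rw [Nat.testBit_two_pow, decide_eq_true_eq] at hm
      exact hm.symm
    · rw [Nat.zero_testBit] at hm
      exact absurd hm (by decide)
  rcases h with h | h | h | h
  · rw [Nat.testBit_two_pow, decide_eq_true_eq] at h
    omega
  · have := aux _ _ h
    omega
  · have := aux _ _ h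
    omega
  · have := aux _ _ h
    omega

theorem quiet_of_Qx (hok : b.Ok) (t : C1 b) (r : ZMod b.k) (x : Option b.V)
    (h : Chi.Qx b.toBD t.exf r x) : Quiet1 t r x := by
  have hp : ∀ m : ℕ, (2 ^ m).testBit m = true := by
    intro m
    rw [Nat.testBit_two_pow, decide_eq_true_eq]
  refine ⟨?_, ?_, ?_, ?_⟩
  · intro hr
    rw [← pn_win hok]
    refine h _ ?_
    unfold exf
    rw [if_pos (by rw [hr])]
    simp only [Nat.testBit_or, hp, Bool.true_or, Bool.or_true]
  · intro hr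
    rw [← pn_win hok]
    refine h _ ?_
    unfold exf
    rw [if_pos (c := r.val = t.rpu.val) (by rw [hr])]
    simp only [Nat.testBit_or, hp, Bool.true_or, Bool.or_true]
  · intro hr
    rw [← pn_win hok]
    refine h _ ?_
    unfold exf
    rw [if_pos (c := r.val = t.rqv.val) (by rw [hr])]
    simp only [Nat.testBit_or, hp, Bool.or_true]
  · rw [← pn_win hok]
    refine h _ ?_
    unfold exf
    simp only [Nat.testBit_or, hp, Bool.true_or]

end C1

end RD

/-! ### The step -/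

namespace Chi

open RD RD.C1

/-- check for the words of the merged squares: straight squares over the ring indices
`jT, …, jT + 3` of `F'` (direction `dT`), dense squares over the two columns of `D` in the row
`rqu` (`dM`: the outer column is the column of `I`) -/
def mchk (b : RD) (c : C1 b) (t : Chi) (jT : ℕ) (dT dM : Bool) : Bool :=
  (t.mI.testBit (b.rcT (rpos jT dT 0)) && (t.mC.testBit (b.rcT (rpos jT dT 1)) &&
    (t.mA.testBit (b.rcT (rpos jT dT 2)) && t.mA.testBit (b.rcT (rpos jT dT 3))))) &&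
  ((List.range 4).all fun i => !Nat.beq ((jT + i) % (4 * b.k)) (c.J + 1).val) &&
  (t.mI.testBit (cpt b.toHT c.rqu.val (b.st (false, c.id) + (if dM then wo !c.f else wi !c.f).val)) &&
  (t.mC.testBit (cpt b.toHT c.rqu.val (b.st (false, c.id) + (if dM then wo !c.f else wi !c.f).val)) &&
  t.mA.testBit (cpt b.toHT c.rqu.val (b.st (false, c.id) + (if dM then wi !c.f else wo !c.f).val))))

variable {b : RD} {R W TF : Type*} [CommRing R] [Fintype R] [DecidableEq R] [Fintype W]
  [DecidableEq W] [Fintype TF] [DecidableEq TF]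

theorem rpos_rev (j : ℕ) (d : Bool) (i : Fin 4) : ∃ i' : Fin 4, rpos j d i.val = j + i'.val := by
  unfold rpos
  cases d
  · exact ⟨i.rev, by rw [Fin.val_rev]; simp only [Bool.false_eq_true, if_false]; omega⟩
  · exact ⟨i, by simp only [if_true]⟩

/-- **The words of the next level after the step.** -/
theorem pwg_step1 [Nontrivial R] (hok : b.Ok) (hr : b.ROk) (h2 : IsUnit (2 : R))
    (h3 : IsUnit (3 : R)) (hg : ∀ y : R, ∃ j : ℕ, j • (1 : R) = y) (c : C1 b) (t : Chi)
    (ht : t.Ok b.toBD c.exf) (jT : ℕ) (dT dM : Bool) (hm : mchk b c t jT dT dM = true)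
    (A2 : Finset R) (σ : W → WSys) (κ : ZMod b.k → W → R)
    (hσ : ∀ r, Function.Injective fun w => (σ w, κ r w)) (Φ : ZMod b.k → Option b.V → Perm R)
    (μ : ℕ → R) (hμ : ∀ c < 4, IsUnit (μ c)) (lp lq lu : R → W) (yv : R → R)
    (OF : TF → Perm (b.V × R)) (S : TF ⊕ {s // s ∈ A2} → Perm (R ⊕ W))
    (PF : TF → Place ((Option b.V × R) ⊕ W)) (hxF : ∀ j, isFin (PF j).x₀ = false)
    (cenW : Finset (b.V × R)) (hcW : ∀ p ∈ cenW, p.1 = b.win c.rqu (false, c.id)
      (if dM then wo !c.f else wi !c.f))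
    (hwF : ∀ j, ∃ w : Fin 4 → b.V × R,
      (w 0).1 = b.win c.rqu (false, c.id) (if dM then wo !c.f else wi !c.f) ∧ w 1 ∈ cenW ∧
      (w 2).1 = b.win c.rqu (false, c.id) (if dM then wi !c.f else wo !c.f) ∧
      (w 3).1 = b.win c.rqu (false, c.id) (if dM then wi !c.f else wo !c.f) ∧
      (Fwd (OF j) w ∨ Fwd (OF j)⁻¹ w) ∧ ∀ i, emU b.V R W (w i) ≠ (PF j).q)
    (hcne : cenW.Nonempty)
    (π : R → Perm W) {s : (ZMod b.k × R) ⊕ (TF ⊕ {s // s ∈ A2}) → Perm ((Option b.V × R) ⊕ W)}
    (hs : Dec s)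
    (hk : ∀ r l x y x' y', Quiet1 c r x → Quiet1 c r x' →
      (b.row hok h2 h3 hg r).fullπ (hσ r) (Φ r) (π l) l (.inl (x, y)) = .inl (x', y') →
      s (.inl (r, l)) (.inl (x, y)) = .inl (x', y'))
    (hsF : ∀ j x, x ≠ (PF j).q → x ≠ (PF j).x₀ → s (.inr (.inl j)) x = two (OF j) (S (.inl j)) x)
    (hsG : ∀ (j : {s // s ∈ A2}) x, x ≠ (c.place μ lp lq lu yv j.val).q →
        x ≠ (c.place μ lp lq lu yv j.val).x₀ →
        s (.inr (.inr j)) x = two (stO hr true μ hμ c.w j.val) (S (.inr j)) x)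
    (L : Finset R) {nI nA nc : ℕ}
    (hnI : t.nI * Fintype.card R +
      (((List.range (4 * b.k)).filter fun i => t.mC.testBit i && !t.mI.testBit i).length +
      (t.nO * Fintype.card R + t.o1 * (Fintype.card R - L.card))) ≤ nI)
    (hnA : t.nA * Fintype.card R ≤ nA) (hnc : t.nC + cenW.card ≤ nc + 1) :
    PWG ((ZMod b.k × R) ⊕ (TF ⊕ {s // s ∈ A2})) ((Option b.V × R) ⊕ W)
      (t.f * Fintype.card R + L.card + (Fintype.card TF + A2.card)) nI nA nc := by
  classical
  have hk0 := b.k_pos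
  unfold mchk at hm
  simp only [Bool.and_eq_true, List.all_eq_true, List.mem_range, Bool.not_eq_true'] at hm
  obtain ⟨⟨⟨m0, m1, m2, m3⟩, mJ⟩, n0, n1, n2⟩ := hm
  -- codes of the columns of `D`
  have hcD : ∀ n : Fin 4, cd b.k (b.win c.rqu (false, c.id) n) =
      cpt b.toHT c.rqu.val (b.st (false, c.id) + n.val) := by
    intro n
    have e1 := hok.st_lt (false, c.id)
    have e2 := hok.one_le (false, c.id)
    have e3 := n.isLt
    have e4 := pn_win hok c.rqu (false, c.id) n
    rw [b.pn_cpt c.rqu (by omega) (by omega)] at e4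
    rw [← Option.some_injective _ e4, cd_dcd (cpt_lt _ _ _)]
  obtain ⟨⟨ca, ya⟩, hya⟩ := hcne
  have hca : ca = b.win c.rqu (false, c.id) (if dM then wo !c.f else wi !c.f) := hcW _ hya
  -- levels of the centres
  let yc : b.V → R := fun v => if v = ca then ya else 0
  have hyc : (ca, yc ca) ∈ cenW := by
    show (ca, if ca = ca then ya else 0) ∈ cenW
    rw [if_pos rfl]
    exact hya
  let cC : Finset b.V := inM b.toBD t.mC
  have hcC : cC.card = t.nC := by rw [← ht.nC]; exact card_mask hk0 _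
  let cen : Finset (b.V × R) := (cC.erase ca).image (fun v => (v, yc v)) ∪ cenW
  have hcaC : ca ∈ cC := by
    rw [mem_inM, hca, hcD]
    exact n1
  have hcen : cen.card + 1 ≤ t.nC + cenW.card := by
    have e1 : cen.card ≤ (cC.erase ca).card + cenW.card :=
      (card_union_le _ _).trans (Nat.add_le_add_right card_image_le _)
    have e2 := card_erase_of_mem hcaC
    have e3 := card_pos.2 ⟨ca, hcaC⟩
    omega
  -- the straight squares
  have hwG : ∀ j : {s // s ∈ A2}, ∃ v : Fin 4 → b.V × R,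
      (∀ i : Fin 4, (v i).1 = b.rgF true (rpos jT dT i.val : ZMod (4 * b.k))) ∧
      v 1 = (b.rgF true (rpos jT dT 1 : ZMod (4 * b.k)),
        yc (b.rgF true (rpos jT dT 1 : ZMod (4 * b.k)))) ∧
      (Fwd (s (.inr (.inr j))) (fun i => emU b.V R W (v i)) ∨
        Fwd (s (.inr (.inr j)))⁻¹ fun i => emU b.V R W (v i)) := by
    intro j
    obtain ⟨v, v1, v2, v3⟩ := exists_straight_word hr μ hμ c.w j.val jT dT
      (yc (b.rgF true (rpos jT dT 1 : ZMod (4 * b.k))))
    refine ⟨v, v1, v2, ?_⟩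
    refine word_keep (stO hr true μ hμ c.w j.val) (S (.inr j)) _ _ _ rfl (hsG j) v v3 ?_
    intro i hi
    have e1 : v i = sp' b true μ j.val (c.J + 1) 1 := emU_injective hi
    have e2 : b.rgF true (rpos jT dT i.val : ZMod (4 * b.k)) = b.rgF true (c.J + 1) := by
      rw [← v1 i, e1]
      rfl
    have e3 := hr.rgF_inj _ e2
    obtain ⟨i', hi'⟩ := rpos_rev jT dT i
    have e4 := mJ i'.val i'.isLt
    rw [hi'] at e3
    have e5 : (jT + i'.val) % (4 * b.k) = (c.J + 1).val := by
      rw [← e3, ZMod.val_natCast]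
    rw [e5, Nat.beq_refl] at e4
    exact absurd e4 (by decide)
  choose wG hwG1 hwG2 hwG3 using hwG
  choose wF hwF0 hwF1 hwF2 hwF3 hwF4 hwF5 using hwF
  have key := Chi.pwg (t := t) hok h2 h3 hg (fun r _ n hn => exf_lt hok c r n hn) ht σ κ hσ Φ π hs
    (fun r l x y x' y' hx hx' => hk r l x y x' y' (quiet_of_Qx hok c r x hx)
      (quiet_of_Qx hok c r x' hx')) L yc cen ?_ ?_
    (fun j => match j with
      | .inl j => wF j
      | .inr j => wG j) ?_ ?_ (nI := nI) (nA := nA) (c := nc) ?_ hnA (by omega)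
  · rw [Fintype.card_sum, Fintype.card_coe] at key
    exact key
  · intro v hv
    by_cases h : v = ca
    · rw [h]
      exact mem_union_right _ hyc
    · exact mem_union_left _ (mem_image.2 ⟨v, mem_erase.2 ⟨h, (mem_inM _ _).2 hv⟩, rfl⟩)
  · intro p hp
    rcases mem_union.1 hp with h | h
    · obtain ⟨v, h4, h5⟩ := mem_image.1 h
      right
      rw [← h5]
      exact (mem_inM _ _).1 (mem_erase.1 h4).2
    · left
      rw [hcW p h, hcD]
      exact n0
  · rintro (j | j)
    · exact word_keep (OF j) (S (.inl j)) _ _ _ (hxF j) (hsF j) (wF j) (hwF4 j) (hwF5 j)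
    · exact hwG3 j
  · rintro (j | j)
    · refine ⟨?_, ?_, ?_, ?_⟩
      · show t.mI.testBit (cd b.k (wF j 0).1) = true
        rw [hwF0, hcD]
        exact n0
      · exact mem_union_right _ (hwF1 j)
      · show t.mA.testBit (cd b.k (wF j 2).1) = true
        rw [hwF2, hcD]
        exact n2
      · show t.mA.testBit (cd b.k (wF j 3).1) = true
        rw [hwF3, hcD]
        exact n2
    · refine ⟨?_, ?_, ?_, ?_⟩
      · show t.mI.testBit (cd b.k (wG j 0).1) = true
        rw [hwG1, cd_rgF hr]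
        exact m0
      · show wG j 1 ∈ cen
        rw [hwG2]
        by_cases h : b.rgF true (rpos jT dT 1 : ZMod (4 * b.k)) = ca
        · rw [h]
          exact mem_union_right _ hyc
        · refine mem_union_left _ (mem_image.2 ⟨_, mem_erase.2 ⟨h, (mem_inM _ _).2 ?_⟩, rfl⟩)
          rw [cd_rgF hr]
          exact m1
      · show t.mA.testBit (cd b.k (wG j 2).1) = true
        rw [hwG1, cd_rgF hr]
        exact m2
      · show t.mA.testBit (cd b.k (wG j 3).1) = true
        rw [hwG1, cd_rgF hr]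
        exact m3
  · refine le_trans (Nat.add_le_add_left (Nat.add_le_add_right ?_ _) _) hnI
    -- centres outside of `I`
    have e0 : (cen.filter fun p => t.mI.testBit (cd b.k p.1) = false).card ≤
        (univ.filter fun v : b.V => (t.mC.testBit (cd b.k v) && !t.mI.testBit (cd b.k v)) =
          true).card := by
      refine le_trans (card_le_card (t := (univ.filter fun v : b.V =>
        (t.mC.testBit (cd b.k v) && !t.mI.testBit (cd b.k v)) = true).image
          (fun v => (v, yc v))) ?_) card_image_le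
      intro p hp
      rw [mem_filter] at hp
      obtain ⟨hp1, hp2⟩ := hp
      rcases mem_union.1 hp1 with h | h
      · obtain ⟨v, h4, h5⟩ := mem_image.1 h
        have h6 := (mem_inM _ _).1 (mem_erase.1 h4).2
        refine mem_image.2 ⟨v, ?_, h5⟩
        rw [← h5] at hp2
        rw [mem_filter]
        refine ⟨mem_univ _, ?_⟩
        rw [h6, hp2]
        rfl
      · rw [hcW p h, hcD, n0] at hp2
        exact absurd hp2 (by decide)
    refine e0.trans (le_of_eq ?_)
    have e1 := length_filter_range (fun i => t.mC.testBit i && !t.mI.testBit i) (4 * b.k)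
    rw [e1]
    refine card_bij (fun v _ => cd b.k v) ?_ ?_ ?_
    · intro v hv
      rw [mem_filter] at hv
      rw [mem_filter, mem_range]
      exact ⟨cd_lt hk0 v, hv.2⟩
    · intro v _ v' _ h
      rw [← dcd_cd hk0 v, ← dcd_cd hk0 v', h]
    · intro i hi
      rw [mem_filter, mem_range] at hi
      exact ⟨dcd b.k i, by rw [mem_filter, cd_dcd hi.1]; exact ⟨mem_univ _, hi.2⟩, cd_dcd hi.1⟩

end Chi

end SqIns
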