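import Pool.Agent.Lib.SqIns.Chi3

/-!
# The words of the next level after the step, general words of the dense squares
-/

open Finset Equiv

namespace SqIns

namespace Chi

open RD RD.C1

/-- check for the words of the straight squares over the ring indices `jT, …, jT + 3` of `F'`
(direction `dT`) -/
def mchkS (b : RD) (c : C1 b) (t : Chi) (jT : ℕ) (dT : Bool) : Bool :=
  (t.mI.testBit (b.rcT (rpos jT dT 0)) && (t.mC.testBit (b.rcT (rpos jT dT 1)) &&
    (t.mA.testBit (b.rcT (rpos jT dT 2)) && t.mA.testBit (b.rcT (rpos jT dT 3))))) &&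
  ((List.range 4).all fun i => !Nat.beq ((jT + i) % (4 * b.k)) (c.J + 1).val)

/-- check for the words of the dense squares: the centre over the ring index `i0` of `F`, all the
ring neighbours in the columns of `A` -/
def mchkD (b : RD) (t : Chi) (i0 : ℕ) : Bool :=
  (t.mI.testBit (b.rcode (i0 % (4 * b.k))) && t.mC.testBit (b.rcode (i0 % (4 * b.k)))) &&
  (t.mA.testBit (b.rcode ((i0 + 1) % (4 * b.k))) &&
  (t.mA.testBit (b.rcode ((i0 + 2) % (4 * b.k))) &&
  (t.mA.testBit (b.rcode ((i0 + 4 * b.k - 1) % (4 * b.k))) &&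
  t.mA.testBit (b.rcode ((i0 + 4 * b.k - 2) % (4 * b.k))))))

variable {b : RD} {R W TF : Type*} [CommRing R] [Fintype R] [DecidableEq R] [Fintype W]
  [DecidableEq W] [Fintype TF] [DecidableEq TF]

/-- **The words of the next level after the step**, general words of the dense squares. -/
theorem pwg_step2 [Nontrivial R] (hok : b.Ok) (hr : b.ROk) (h2 : IsUnit (2 : R))
    (h3 : IsUnit (3 : R)) (hg : ∀ y : R, ∃ j : ℕ, j • (1 : R) = y) (c : C1 b) (t : Chi)
    (ht : t.Ok b.toBD c.exf) (jT : ℕ) (dT : Bool) (hm : mchkS b c t jT dT = true)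
    (A2 : Finset R) (σ : W → WSys) (κ : ZMod b.k → W → R)
    (hσ : ∀ r, Function.Injective fun w => (σ w, κ r w)) (Φ : ZMod b.k → Option b.V → Perm R)
    (μ : ℕ → R) (hμ : ∀ c < 4, IsUnit (μ c)) (lp lq lu : R → W) (yv : R → R)
    (OF : TF → Perm (b.V × R)) (S : TF ⊕ {s // s ∈ A2} → Perm (R ⊕ W))
    (PF : TF → Place ((Option b.V × R) ⊕ W)) (hxF : ∀ j, isFin (PF j).x₀ = false)
    (ca : b.V) (n0 : t.mI.testBit (cd b.k ca) = true) (n1 : t.mC.testBit (cd b.k ca) = true)
    (cenW : Finset (b.V × R)) (hcW : ∀ p ∈ cenW, p.1 = ca)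
    (hwF : ∀ j, ∃ w : Fin 4 → b.V × R, t.mI.testBit (cd b.k (w 0).1) = true ∧ w 1 ∈ cenW ∧
      t.mA.testBit (cd b.k (w 2).1) = true ∧ t.mA.testBit (cd b.k (w 3).1) = true ∧
      (Fwd (OF j) w ∨ Fwd (OF j)⁻¹ w) ∧ ∀ i, emU b.V R W (w i) ≠ (PF j).q)
    (hcne : cenW.Nonempty)
    (π : R → Perm W) {s : (ZMod b.k × R) ⊕ (TF ⊕ {s // s ∈ A2}) → Perm ((Option b.V × R) ⊕ W)}
    (hs : Dec s)
    (hk : ∀ r l x y x' y', Quiet1 c r x → Quiet1 c r x' →
      (b.row hok h2 h3 hg r).fullπ (hσ r) (Φ r) (π l) l (.inl (x, y)) = .inl (x', y') →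
      s (.inl (r, l)) (.inl (x, y)) = .inl (x', y'))
    (hsF : ∀ j x, x ≠ (PF j).q → x ≠ (PF j).x₀ → s (.inr (.inl j)) x = two (OF j) (S (.inl j)) x)
    (hsG : ∀ (j : {s // s ∈ A2}) x, x ≠ (c.place μ lp lq lu yv j.val).q →
        x ≠ (c.place μ lp lq lu yv j.val).x₀ →
        s (.inr (.inr j)) x = two (stO hr true μ hμ c.w j.val) (S (.inr j)) x)
    (L : Finset R) {nI nA nc : ℕ}
    (hnI : t.nI * Fintype.card R +
      (((List.range (4 * b.k)).filter fun i => t.mC.testBit i && !t.mI.testBit i).length +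
      (t.nO * Fintype.card R + t.o1 * (Fintype.card R - L.card))) ≤ nI)
    (hnA : t.nA * Fintype.card R ≤ nA) (hnc : t.nC + cenW.card ≤ nc + 1) :
    PWG ((ZMod b.k × R) ⊕ (TF ⊕ {s // s ∈ A2})) ((Option b.V × R) ⊕ W)
      (t.f * Fintype.card R + L.card + (Fintype.card TF + A2.card)) nI nA nc := by
  classical
  have hk0 := b.k_pos
  unfold mchkS at hm
  simp only [Bool.and_eq_true, List.all_eq_true, List.mem_range, Bool.not_eq_true'] at hm
  obtain ⟨⟨m0, m1, m2, m3⟩, mJ⟩ := hm
  obtain ⟨ya, hya⟩ : ∃ ya, (ca, ya) ∈ cenW := by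
    obtain ⟨⟨ca', ya⟩, hya⟩ := hcne
    have hca : ca' = ca := hcW _ hya
    rw [hca] at hya
    exact ⟨ya, hya⟩
  -- levels of the centres
  let yc : b.V → R := fun v => if v = ca then ya else 0
  have hyc : (ca, yc ca) ∈ cenW := by
    show (ca, if ca = ca then ya else 0) ∈ cenW
    rw [if_pos rfl]
    exact hya
  let cC : Finset b.V := inM b.toBD t.mC
  have hcC : cC.card = t.nC := by rw [← ht.nC]; exact card_mask hk0 _
  let cen : Finset (b.V × R) := (cC.erase ca).image (fun v => (v, yc v)) ∪ cenW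
  have hcaC : ca ∈ cC := by
    rw [mem_inM]
    exact n1
  have hcen : cen.card + 1 ≤ t.nC + cenW.card := by
    have e1 : cen.card ≤ (cC.erase ca).card + cenW.card :=
      (card_union_le _ _).trans (Nat.add_le_add_right card_image_le _)
    have e2 := card_erase_of_mem hcaC
    have e3 := card_pos.2 ⟨ca, hcaC⟩
    omega
  -- the straight squares
  have hwG : ∀ j : {s // s ∈ A2}, ∃ v : Fin 4 → b.V × R,
      (∀ i : Fin 4, (v i).1 = b.rgF true (rpos jT dT i.val : ZMod (4 * b.k))) ∧
      v 1 = (b.rgF true (rpos jT dT 1 : ZMod (4 * b.k)),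
        yc (b.rgF true (rpos jT dT 1 : ZMod (4 * b.k)))) ∧
      (Fwd (s (.inr (.inr j))) (fun i => emU b.V R W (v i)) ∨
        Fwd (s (.inr (.inr j)))⁻¹ fun i => emU b.V R W (v i)) := by
    intro j
    obtain ⟨v, v1, v2, v3⟩ := exists_straight_word hr μ hμ c.w j.val jT dT
      (yc (b.rgF true (rpos jT dT 1 : ZMod (4 * b.k))))
    refine ⟨v, v1, v2, ?_⟩
    refine word_keep (stO hr true μ hμ c.w j.val) (S (.inr j)) _ _ _ rfl (hsG j) v v3 ?_
    intro i hi
    have e1 : v i = sp' b true μ j.val (c.J + 1) 1 := emU_injective hi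
    have e2 : b.rgF true (rpos jT dT i.val : ZMod (4 * b.k)) = b.rgF true (c.J + 1) := by
      rw [← v1 i, e1]
      rfl
    have e3 := hr.rgF_inj _ e2
    obtain ⟨i', hi'⟩ := rpos_rev jT dT i
    have e4 := mJ i'.val i'.isLt
    rw [hi'] at e3
    have e5 : (jT + i'.val) % (4 * b.k) = (c.J + 1).val := by
      rw [← e3, ZMod.val_natCast]
    rw [e5, Nat.beq_refl] at e4
    exact absurd e4 (by decide)
  choose wG hwG1 hwG2 hwG3 using hwG
  choose wF hwF0 hwF1 hwF2 hwF3 hwF4 hwF5 using hwF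
  have key := Chi.pwg (t := t) hok h2 h3 hg (fun r _ n hn => exf_lt hok c r n hn) ht σ κ hσ Φ π hs
    (fun r l x y x' y' hx hx' => hk r l x y x' y' (quiet_of_Qx hok c r x hx)
      (quiet_of_Qx hok c r x' hx')) L yc cen ?_ ?_
    (fun j => match j with
      | .inl j => wF j
      | .inr j => wG j) ?_ ?_ (nI := nI) (nA := nA) (c := nc) ?_ hnA (by omega)
  · rw [Fintype.card_sum, Fintype.card_coe] at key
    exact key
  · intro v hv
    by_cases h : v = ca
    · rw [h]
      exact mem_union_right _ hyc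
    · exact mem_union_left _ (mem_image.2 ⟨v, mem_erase.2 ⟨h, (mem_inM _ _).2 hv⟩, rfl⟩)
  · intro p hp
    rcases mem_union.1 hp with h | h
    · obtain ⟨v, h4, h5⟩ := mem_image.1 h
      right
      rw [← h5]
      exact (mem_inM _ _).1 (mem_erase.1 h4).2
    · left
      rw [hcW p h]
      exact n0
  · rintro (j | j)
    · exact word_keep (OF j) (S (.inl j)) _ _ _ (hxF j) (hsF j) (wF j) (hwF4 j) (hwF5 j)
    · exact hwG3 j
  · rintro (j | j)
    · refine ⟨?_, ?_, ?_, ?_⟩
      · show t.mI.testBit (cd b.k (wF j 0).1) = true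
        exact hwF0 j
      · exact mem_union_right _ (hwF1 j)
      · show t.mA.testBit (cd b.k (wF j 2).1) = true
        exact hwF2 j
      · show t.mA.testBit (cd b.k (wF j 3).1) = true
        exact hwF3 j
    · refine ⟨?_, ?_, ?_, ?_⟩
      · show t.mI.testBit (cd b.k (wG j 0).1) = true
        rw [hwG1, cd_rgF hr]
        exact m0
      · show wG j 1 ∈ cen
        rw [hwG2]
        by_cases h : b.rgF true (rpos jT dT 1 : ZMod (4 * b.k)) = ca
        · rw [h]
          exact mem_union_right _ hyc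
        · refine mem_union_left _ (mem_image.2 ⟨_, mem_erase.2 ⟨h, (mem_inM _ _).2 ?_⟩, rfl⟩)
          rw [cd_rgF hr]
          exact m1
      · show t.mA.testBit (cd b.k (wG j 2).1) = true
        rw [hwG1, cd_rgF hr]
        exact m2
      · show t.mA.testBit (cd b.k (wG j 3).1) = true
        rw [hwG1, cd_rgF hr]
        exact m3
  · refine le_trans (Nat.add_le_add_left (Nat.add_le_add_right ?_ _) _) hnI
    -- centres outside of `I`
    have e0 : (cen.filter fun p => t.mI.testBit (cd b.k p.1) = false).card ≤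
        (univ.filter fun v : b.V => (t.mC.testBit (cd b.k v) && !t.mI.testBit (cd b.k v)) =
          true).card := by
      refine le_trans (card_le_card (t := (univ.filter fun v : b.V =>
        (t.mC.testBit (cd b.k v) && !t.mI.testBit (cd b.k v)) = true).image
          (fun v => (v, yc v))) ?_) card_image_le
      intro p hp
      rw [mem_filter] at hp
      obtain ⟨hp1, hp2⟩ := hp
      rcases mem_union.1 hp1 with h | h
      · obtain ⟨v, h4, h5⟩ := mem_image.1 h
        have h6 := (mem_inM _ _).1 (mem_erase.1 h4).2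
        refine mem_image.2 ⟨v, ?_, h5⟩
        rw [← h5] at hp2
        rw [mem_filter]
        refine ⟨mem_univ _, ?_⟩
        rw [h6, hp2]
        rfl
      · rw [hcW p h, n0] at hp2
        exact absurd hp2 (by decide)
    refine e0.trans (le_of_eq ?_)
    have e1 := length_filter_range (fun i => t.mC.testBit i && !t.mI.testBit i) (4 * b.k)
    rw [e1]
    refine card_bij (fun v _ => cd b.k v) ?_ ?_ ?_
    · intro v hv
      rw [mem_filter] at hv
      rw [mem_filter, mem_range]
      exact ⟨cd_lt hk0 v, hv.2⟩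
    · intro v _ v' _ h
      rw [← dcd_cd hk0 v, ← dcd_cd hk0 v', h]
    · intro i hi
      rw [mem_filter, mem_range] at hi
      exact ⟨dcd b.k i, by rw [mem_filter, cd_dcd hi.1]; exact ⟨mem_univ _, hi.2⟩, cd_dcd hi.1⟩

end Chi

end SqIns
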