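import Mathlib

/-!
# The covering by one digit `m` and the fine moduli `17 ^ a * 25 ^ b`

With a base of size `K`, a digit `m` and `Q = 17 ^ a * 25 ^ b` prime to `m`, the step reaches
`k = K m Q + T` for `TFn m Q ≤ T ≤ TFn m Q + m Q`, which means
`Q * (4 m (K + 1) + 1) ≤ 4 k + 1 ≤ Q * (4 m (K + 2) + 1)`.
-/

namespace SqIns

/-- number of squares of the dense family -/
def TFn (m Q : ℕ) : ℕ := m * Q + (Q - 1) / 4

/-- fine modulus -/
def fQ (a b : ℕ) : ℕ := 17 ^ a * 25 ^ b

theorem fQ_mod (a b : ℕ) : fQ a b % 4 = 1 := by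
  unfold fQ
  rw [Nat.mul_mod, Nat.pow_mod, Nat.pow_mod 25]
  norm_num

theorem fQ_pos (a b : ℕ) : 0 < fQ a b := by
  have := fQ_mod a b
  omega

theorem four_TFn (m a b : ℕ) : 4 * TFn m (fQ a b) + 1 = fQ a b * (4 * m + 1) := by
  have h := fQ_mod a b
  unfold TFn
  have h1 : 4 * ((fQ a b - 1) / 4) = fQ a b - 1 := by omega
  have h2 := fQ_pos a b
  calc 4 * (m * fQ a b + (fQ a b - 1) / 4) + 1
      = 4 * (m * fQ a b) + (4 * ((fQ a b - 1) / 4)) + 1 := by ring
    _ = 4 * (m * fQ a b) + fQ a b := by rw [h1]; omega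
    _ = fQ a b * (4 * m + 1) := by ring

/-- which triples are allowed -/
structure CPar where
  /-- base sizes -/
  Ks : List ℕ
  /-- digits -/
  ms : List ℕ
  /-- row condition for all words -/
  okT : ℕ → ℕ → Bool
  /-- row condition without fine digits -/
  ok0 : ℕ → ℕ → Bool
  /-- row condition for direct `T` -/
  okD : ℕ → ℕ → Bool
  /-- direct cases -/
  dir : List ℕ

/-- `k` is reached by the step from `T` -/
def CPar.Reach (P : CPar) (k : ℕ) : Prop :=
  ∃ K m a b T, K ∈ P.Ks ∧ m ∈ P.ms ∧ Nat.Coprime m (fQ a b) ∧ k = K * (m * fQ a b) + T ∧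
    TFn m (fQ a b) ≤ T ∧ T ≤ TFn m (fQ a b) + m * fQ a b ∧
    (P.okT K m = true ∨ (a = 0 ∧ b = 0 ∧ P.ok0 K m = true) ∨ (T ∈ P.dir ∧ P.okD K m = true))

variable {P : CPar}

/-- left end of an interval -/
def lE (a b m K : ℕ) : ℕ := fQ a b * (4 * m * (K + 1) + 1)

/-- right end of an interval -/
def rE (a b m K : ℕ) : ℕ := fQ a b * (4 * m * (K + 2) + 1)

theorem rE_pos (a b m K : ℕ) : 0 < rE a b m K :=
  Nat.mul_pos (fQ_pos a b) (Nat.succ_pos _)

theorem reach_of_interval {K m a b k : ℕ} (h1 : lE a b m K ≤ 4 * k + 1)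
    (h2 : 4 * k + 1 ≤ rE a b m K) :
    ∃ T, k = K * (m * fQ a b) + T ∧ TFn m (fQ a b) ≤ T ∧ T ≤ TFn m (fQ a b) + m * fQ a b := by
  have h3 := four_TFn m a b
  have h4 : lE a b m K = 4 * (K * (m * fQ a b)) + (4 * TFn m (fQ a b) + 1) := by
    rw [h3]
    unfold lE
    ring
  have h5 : rE a b m K = 4 * (K * (m * fQ a b)) + (4 * TFn m (fQ a b) + 1) +
      4 * (m * fQ a b) := by
    rw [h3]
    unfold rE
    ring
  refine ⟨k - K * (m * fQ a b), ?_, ?_, ?_⟩ <;> omega

/-- coprimality check -/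
def cop (m a b : ℕ) : Bool :=
  (decide (a = 0) || decide (m % 17 ≠ 0)) && (decide (b = 0) || decide (m % 5 ≠ 0))

theorem coprime_of_cop {m a b : ℕ} (h : cop m a b = true) : Nat.Coprime m (fQ a b) := by
  unfold cop at h
  rw [Bool.and_eq_true, Bool.or_eq_true, Bool.or_eq_true, decide_eq_true_eq, decide_eq_true_eq,
    decide_eq_true_eq, decide_eq_true_eq] at h
  unfold fQ
  apply Nat.Coprime.mul_right
  · rcases h.1 with h1 | h1
    · rw [h1, pow_zero]
      exact Nat.coprime_one_right m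
    · apply Nat.Coprime.pow_right
      rw [Nat.coprime_comm, Nat.Prime.coprime_iff_not_dvd (by norm_num)]
      intro h2
      exact h1 (Nat.mod_eq_zero_of_dvd h2)
  · rcases h.2 with h1 | h1
    · rw [h1, pow_zero]
      exact Nat.coprime_one_right m
    · apply Nat.Coprime.pow_right
      have h3 : Nat.Coprime m 5 := by
        rw [Nat.coprime_comm, Nat.Prime.coprime_iff_not_dvd (by norm_num)]
        intro h2
        exact h1 (Nat.mod_eq_zero_of_dvd h2)
      have h4 : (25 : ℕ) = 5 * 5 := by norm_num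
      rw [h4]
      exact Nat.Coprime.mul_right h3 h3

/-! ### The chain for all large `k` -/

/-- the intervals `(a, b, m, K)` cover the stretch from `cur` to `goal` -/
def chain3 (P : CPar) : ℕ → List (ℕ × ℕ × ℕ × ℕ) → ℕ → Bool
  | cur, [], goal => decide (goal ≤ cur)
  | cur, (a, b, m, K) :: l, goal => decide (lE a b m K ≤ cur) && (decide (K ∈ P.Ks) &&
      (decide (m ∈ P.ms) && (decide (m % 17 ≠ 0) && (cop m a b && (P.okT K m &&
        chain3 P (rE a b m K) l goal)))))

theorem exists_of_chain3 : ∀ (l : List (ℕ × ℕ × ℕ × ℕ)) (cur goal c y : ℕ),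
    chain3 P cur l goal = true → c * cur ≤ y → y < c * goal →
    ∃ a b m K, K ∈ P.Ks ∧ m ∈ P.ms ∧ m % 17 ≠ 0 ∧ cop m a b = true ∧ P.okT K m = true ∧
      c * lE a b m K ≤ y ∧ y ≤ c * rE a b m K := by
  intro l
  induction l with
  | nil =>
    intro cur goal c y h h1 h2
    have h3 : goal ≤ cur := by simpa [chain3] using h
    exact absurd (Nat.mul_le_mul_left c h3) (by omega)
  | cons x l ih =>
    obtain ⟨a, b, m, K⟩ := x
    intro cur goal c y h h1 h2
    unfold chain3 at h
    rw [Bool.and_eq_true, Bool.and_eq_true, Bool.and_eq_true, Bool.and_eq_true, Bool.and_eq_true,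
      Bool.and_eq_true, decide_eq_true_eq, decide_eq_true_eq, decide_eq_true_eq,
      decide_eq_true_eq] at h
    obtain ⟨g1, g2, g3, g4, g5, g6, g7⟩ := h
    by_cases h4 : y ≤ c * rE a b m K
    · exact ⟨a, b, m, K, g2, g3, g4, g5, g6, (Nat.mul_le_mul_left c g1).trans h1, h4⟩
    · exact ih _ goal c y g7 (by omega) h2

theorem exists_scale17 (L y : ℕ) (hL : 0 < L) (h : L ≤ y) :
    ∃ n, 17 ^ n * L ≤ y ∧ y < 17 ^ n * (17 * L) := by
  refine ⟨Nat.log 17 (y / L), ?_, ?_⟩
  · have h1 : 17 ^ Nat.log 17 (y / L) ≤ y / L :=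
      Nat.pow_log_le_self 17 (Nat.div_pos h hL).ne'
    calc 17 ^ Nat.log 17 (y / L) * L ≤ y / L * L := Nat.mul_le_mul_right L h1
      _ ≤ y := Nat.div_mul_le_self y L
  · have h1 : y / L < 17 ^ (Nat.log 17 (y / L) + 1) := Nat.lt_pow_succ_log_self (by norm_num) _
    have h2 : y < 17 ^ (Nat.log 17 (y / L) + 1) * L := by
      rwa [Nat.div_lt_iff_lt_mul hL] at h1
    calc y < 17 ^ (Nat.log 17 (y / L) + 1) * L := h2
      _ = 17 ^ Nat.log 17 (y / L) * (17 * L) := by ring

/-- everything from the beginning of a chain on is reached -/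
theorem reach_of_chain3 {l : List (ℕ × ℕ × ℕ × ℕ)} {L : ℕ} (hL : 0 < L)
    (hc : chain3 P L l (17 * L) = true) {k : ℕ} (hk : L ≤ 4 * k + 1) : P.Reach k := by
  obtain ⟨n, h1, h2⟩ := exists_scale17 L (4 * k + 1) hL hk
  obtain ⟨a, b, m, K, g1, g2, g3, g4, g5, g6, g7⟩ :=
    exists_of_chain3 l L (17 * L) (17 ^ n) (4 * k + 1) hc h1 h2
  have e1 : 17 ^ n * lE a b m K = lE (n + a) b m K := by
    unfold lE fQ
    rw [pow_add]
    ring
  have e2 : 17 ^ n * rE a b m K = rE (n + a) b m K := by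
    unfold rE fQ
    rw [pow_add]
    ring
  rw [e1] at g6
  rw [e2] at g7
  have hcop : cop m (n + a) b = true := by
    unfold cop at g4 ⊢
    rw [Bool.and_eq_true, Bool.or_eq_true, Bool.or_eq_true, decide_eq_true_eq, decide_eq_true_eq,
      decide_eq_true_eq, decide_eq_true_eq] at g4 ⊢
    exact ⟨Or.inr g3, g4.2⟩
  obtain ⟨T, t1, t2, t3⟩ := reach_of_interval g6 g7
  exact ⟨K, m, n + a, b, T, g1, g2, coprime_of_cop hcop, t1, t2, t3, Or.inl g5⟩

/-! ### The finite part -/

/-- pieces of the finite part: intervals for all words, intervals without fine digits, one `k` with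
direct `T`, a direct `k` -/
inductive Seg
  | tow (a b m K : ℕ)
  | own (m K : ℕ)
  | spd (a b m K : ℕ)
  | dir

/-- the pieces of the list cover `cur, …, goal - 1` -/
def seg3 (P : CPar) : ℕ → List Seg → ℕ → Bool
  | cur, [], goal => decide (goal ≤ cur)
  | cur, .tow a b m K :: l, goal => decide (lE a b m K ≤ 4 * cur + 1) && (decide (K ∈ P.Ks) &&
      (decide (m ∈ P.ms) && (cop m a b && (P.okT K m && seg3 P ((rE a b m K - 1) / 4 + 1) l goal))))
  | cur, .own m K :: l, goal => decide (lE 0 0 m K ≤ 4 * cur + 1) && (decide (K ∈ P.Ks) &&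
      (decide (m ∈ P.ms) && (P.ok0 K m && seg3 P ((rE 0 0 m K - 1) / 4 + 1) l goal)))
  | cur, .spd a b m K :: l, goal => decide (lE a b m K ≤ 4 * cur + 1) &&
      (decide (4 * cur + 1 ≤ rE a b m K) && (decide (K ∈ P.Ks) && (decide (m ∈ P.ms) &&
        (cop m a b && (decide (cur - K * (m * fQ a b) ∈ P.dir) && (P.okD K m &&
          seg3 P (cur + 1) l goal))))))
  | cur, .dir :: l, goal => decide (cur ∈ P.dir) && seg3 P (cur + 1) l goal

theorem reach_of_seg3 : ∀ (l : List Seg) (cur goal k : ℕ),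
    seg3 P cur l goal = true → cur ≤ k → k < goal → k ∈ P.dir ∨ P.Reach k := by
  intro l
  induction l with
  | nil =>
    intro cur goal k h h1 h2
    have h3 : goal ≤ cur := by simpa [seg3] using h
    omega
  | cons x l ih =>
    intro cur goal k h h1 h2
    rcases x with ⟨a, b, m, K⟩ | ⟨m, K⟩ | ⟨a, b, m, K⟩ | _
    · simp only [seg3, Bool.and_eq_true, decide_eq_true_eq] at h
      obtain ⟨g1, g2, g3, g4, g5, g6⟩ := h
      by_cases h4 : 4 * k + 1 ≤ rE a b m K
      · right
        obtain ⟨T, t1, t2, t3⟩ := reach_of_interval (a := a) (b := b) (m := m) (K := K) (k := k)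
          (by omega) h4
        exact ⟨K, m, a, b, T, g2, g3, coprime_of_cop g4, t1, t2, t3, Or.inl g5⟩
      · have := rE_pos a b m K
        exact ih _ goal k g6 (by omega) h2
    · simp only [seg3, Bool.and_eq_true, decide_eq_true_eq] at h
      obtain ⟨g1, g2, g3, g5, g6⟩ := h
      by_cases h4 : 4 * k + 1 ≤ rE 0 0 m K
      · right
        have hc : Nat.Coprime m (fQ 0 0) := coprime_of_cop (by simp [cop])
        obtain ⟨T, t1, t2, t3⟩ := reach_of_interval (a := 0) (b := 0) (m := m) (K := K) (k := k)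
          (by omega) h4
        exact ⟨K, m, 0, 0, T, g2, g3, hc, t1, t2, t3, Or.inr (Or.inl ⟨rfl, rfl, g5⟩)⟩
      · have := rE_pos 0 0 m K
        exact ih _ goal k g6 (by omega) h2
    · simp only [seg3, Bool.and_eq_true, decide_eq_true_eq] at h
      obtain ⟨g1, g2, g3, g4, g5, g6, g7, g8⟩ := h
      by_cases h4 : k = cur
      · right
        subst h4
        obtain ⟨T, t1, t2, t3⟩ := reach_of_interval g1 g2
        have hT : k - K * (m * fQ a b) = T := by omega
        rw [hT] at g6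
        exact ⟨K, m, a, b, T, g3, g4, coprime_of_cop g5, t1, t2, t3, Or.inr (Or.inr ⟨g6, g7⟩)⟩
      · exact ih _ goal k g8 (by omega) h2
    · simp only [seg3, Bool.and_eq_true, decide_eq_true_eq] at h
      by_cases h4 : k = cur
      · left
        rw [h4]
        exact h.1
      · exact ih _ goal k h.2 (by omega) h2

/-- **The covering.** -/
theorem reach_all {l : List (ℕ × ℕ × ℕ × ℕ)} {l' : List Seg} {s L N : ℕ}
    (hL : 0 < L) (hN : L ≤ 4 * N + 1) (hc : chain3 P L l (17 * L) = true)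
    (hs : seg3 P s l' N = true) {k : ℕ} (hk : s ≤ k) : k ∈ P.dir ∨ P.Reach k := by
  by_cases h : k < N
  · exact reach_of_seg3 l' s N k hs hk h
  · right
    exact reach_of_chain3 hL hc (by omega)

end SqIns
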