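import Pool.Agent.Lib.SqIns.FineT

/-!
# The fine tower for the digits 17 and 25

More general places of a word: the point before `q` may lie in the column of `q` or one column
before it, the next two points one or two columns after it.
-/

open Finset Equiv

namespace SqIns

namespace Fine

open Tw

/-- the condition on the three other columns -/
def okP (c0 c1 c2 c3 : ℤ) : Bool :=
  (decide (c0 - c1 = 0) || decide (c0 - c1 = -1)) &&
    ((decide (c2 - c1 = 1) || decide (c2 - c1 = 2)) &&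
      (decide (c3 - c1 = 1) || decide (c3 - c1 = 2)))

/-- the labels of the general places of a word -/
def PLg (q : ℕ) (W : TWord) : List (ℤ × ℕ) :=
  ((List.range q).filter fun n => okP (colN q 1 W n) (colN q 1 W (n + 1)) (colN q 1 W (n + 2))
      (colN q 1 W (n + 3))).map (fun n => ((1 : ℤ), labN q W (n + 1))) ++
    ((List.range q).filter fun n => okP (colN q 1 W (n + 3)) (colN q 1 W (n + 2))
      (colN q 1 W (n + 1)) (colN q 1 W n)).map fun n => ((1 : ℤ), labN q W (n + 2))

theorem okP_spec {X : Type*} (s : Perm X) {c0 c1 c2 c3 : ℤ} (h : okP c0 c1 c2 c3 = true) (x : X) :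
    ((s ^ c0) ((s ^ (-c1)) x) = x ∨ (s ^ c0) ((s ^ (-c1)) x) = s⁻¹ x) ∧
    ((s ^ c2) ((s ^ (-c1)) x) = s x ∨ (s ^ c2) ((s ^ (-c1)) x) = s (s x)) ∧
    ((s ^ c3) ((s ^ (-c1)) x) = s x ∨ (s ^ c3) ((s ^ (-c1)) x) = s (s x)) := by
  simp only [okP, Bool.and_eq_true, Bool.or_eq_true, decide_eq_true_eq] at h
  refine ⟨?_, zpow_step s x h.2.1, zpow_step s x h.2.2⟩
  have e : (s ^ c0) ((s ^ (-c1)) x) = (s ^ (c0 - c1)) x := by
    rw [← Perm.mul_apply, ← zpow_add, sub_eq_add_neg]
  rw [e]
  rcases h.1 with h | h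
  · left
    rw [h, zpow_zero, Perm.one_apply]
  · right
    rw [h, zpow_neg_one]

theorem oneLv_of_chkG {q r : ℕ} [NeZero q] {W : TWord} {C1 C2 cy b0 b1 : List ℕ}
    (hc : Fine1.chk1 q (r + 1) W C1 C2 cy b0 b1 = true) : OneLv q r (PLg q W) := by
  intro X _ _ s hs h4 h8
  have hne : Nonempty X := Fintype.card_pos_iff.1 (by omega)
  obtain ⟨tr, h, h1, h2, _, _, h5, h6⟩ := Fine1.fine hc hs h4
  let e : Fin (r + 1) ≃ ZMod (r + 1) := Fintype.equivOfCardEq (by rw [ZMod.card, Fintype.card_fin])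
  refine ⟨tr, fun i x => Fine1.cyf q (r + 1) cy (e i + h x), h1, fun i => h2 (e i), ?_, ?_⟩
  · rw [← h5]
    congr 1
    exact Equiv.sum_comp e fun i => E (lift s fun x => Fine1.cyf q (r + 1) cy (i + h x))
  · intro b w hw _
    simp only [PLg, List.mem_append, List.mem_map, List.mem_filter, List.mem_range] at hw
    obtain ⟨n, ⟨_, c1⟩, hw⟩ | ⟨n, ⟨_, c1⟩, hw⟩ := hw
    · subst hw
      refine ⟨true, fun x => ?_⟩
      simp only [if_true]
      let x' := (s ^ (-(colN q 1 W (n + 1)))) x
      have hx' : (s ^ colN q 1 W (n + 1)) x' = x := by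
        rw [← Perm.mul_apply, ← zpow_add, add_neg_cancel, zpow_zero, Perm.one_apply]
      have g0 := h6 b x' n
      have g1 := h6 b x' (n + 1)
      have g2 := h6 b x' (n + 2)
      rw [hx'] at g0 g1
      obtain ⟨p0, p2, p3⟩ := okP_spec s c1 x
      refine ⟨?_, ?_, ?_⟩
      · have : (tr b)⁻¹ (x, (labN q W (n + 1) : ZMod q) + b) =
            ((s ^ colN q 1 W n) x', (labN q W n : ZMod q) + b) := by
          rw [Perm.inv_eq_iff_eq, g0]
        rw [this]
        exact p0
      · show (tr b (x, (labN q W (n + 1) : ZMod q) + b)).1 = s x ∨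
          (tr b (x, (labN q W (n + 1) : ZMod q) + b)).1 = s (s x)
        rw [g1]
        exact p2
      · show (tr b (tr b (x, (labN q W (n + 1) : ZMod q) + b))).1 = s x ∨
          (tr b (tr b (x, (labN q W (n + 1) : ZMod q) + b))).1 = s (s x)
        rw [g1, g2]
        exact p3
    · subst hw
      refine ⟨false, fun x => ?_⟩
      simp only [Bool.false_eq_true, if_false, inv_inv]
      let x' := (s ^ (-(colN q 1 W (n + 2)))) x
      have hx' : (s ^ colN q 1 W (n + 2)) x' = x := by
        rw [← Perm.mul_apply, ← zpow_add, add_neg_cancel, zpow_zero, Perm.one_apply]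
      have g0 := h6 b x' n
      have g1 := h6 b x' (n + 1)
      have g2 := h6 b x' (n + 2)
      rw [hx'] at g1 g2
      obtain ⟨p0, p2, p3⟩ := okP_spec s c1 x
      have i1 : (tr b)⁻¹ (x, (labN q W (n + 2) : ZMod q) + b) =
          ((s ^ colN q 1 W (n + 1)) x', (labN q W (n + 1) : ZMod q) + b) := by
        rw [Perm.inv_eq_iff_eq, g1]
      have i2 : (tr b)⁻¹ ((s ^ colN q 1 W (n + 1)) x', (labN q W (n + 1) : ZMod q) + b) =
          ((s ^ colN q 1 W n) x', (labN q W n : ZMod q) + b) := by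
        rw [Perm.inv_eq_iff_eq, g0]
      refine ⟨?_, ?_, ?_⟩
      · show (tr b (x, (labN q W (n + 2) : ZMod q) + b)).1 = x ∨
          (tr b (x, (labN q W (n + 2) : ZMod q) + b)).1 = s⁻¹ x
        rw [g2]
        exact p0
      · show ((tr b)⁻¹ (x, (labN q W (n + 2) : ZMod q) + b)).1 = s x ∨
          ((tr b)⁻¹ (x, (labN q W (n + 2) : ZMod q) + b)).1 = s (s x)
        rw [i1]
        exact p2
      · show ((tr b)⁻¹ ((tr b)⁻¹ (x, (labN q W (n + 2) : ZMod q) + b))).1 = s x ∨
          ((tr b)⁻¹ ((tr b)⁻¹ (x, (labN q W (n + 2) : ZMod q) + b))).1 = s (s x)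
        rw [i1, i2]
        exact p3

/-! ### 25 -/

/-- a word of the fine digit 25 with eleven places (helper77) -/
def W25c : TWord := [(0,0),(0,19),(-2,16),(-2,23),(0,17),(0,4),(-2,13),(-2,21),(-4,1),(-4,6),(-3,12),
  (-3,3),(-1,14),(-1,10),(1,2),(1,24),(2,18),(2,20),(3,5),(3,15),(2,7),(2,8),(3,11),(3,22),(2,9)]

/-- the missing classes at distance one, in cyclic order -/
def cy25c : List ℕ := [0,24,1,17,18,5]

/-- the classes of the word at distance one -/
def C25c : List ℕ := [2,3,4,6,7,8,9,10,11,12,13,14,15,16,19,20,21,22,23]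

/-- the classes of the word at distance two -/
def D25c : List ℕ := [1,2,3,4,6,7,8,9,11,12,13,14,15,16,17,19,20,21,22]

theorem chk25c : Fine1.chk1 25 6 W25c C25c D25c cy25c [0,1,0,5] [0,1,0,1] = true := by
  decide +kernel

/-- the three groups of the digit 25 -/
def dg25 : Fin 3 → ℕ := ![0, 4, 17]

theorem digOk25 : DigOk 25 3 (PLg 25 W25c) dg25 := by
  unfold DigOk
  decide +kernel

/-- **The tower for `17 ^ a * 25 ^ b`.** -/
theorem tower1725 (a b : ℕ) [NeZero (17 ^ a * 25 ^ b)] : TowerOk 3 (17 ^ a * 25 ^ b) := by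
  have n1 : NeZero (25 ^ b * 1) := ⟨by positivity⟩
  have n2 : NeZero (25 ^ b) := ⟨by positivity⟩
  have h1 : TowerOk 3 (25 ^ b) := towerOk_congr (mul_one _) (towerOk_pow (by norm_num)
    (by norm_num) (oneLv_of_chkG chk25c) digOk25 (by norm_num) (by norm_num) (Q := 1)
    (by norm_num) (by norm_num) (towerOk_one (by norm_num)) b)
  exact towerOk_pow (by norm_num) (by norm_num) (oneLv_of_chk Fine1.chk17b) digOk17
    (by norm_num) (by norm_num) (Nat.Coprime.pow_right b (by norm_num))
    (Nat.Coprime.pow_right b (by norm_num)) h1 a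

end Fine

end SqIns
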