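import Pool.Agent.Lib.SqIns.Comb2
import Pool.Agent.Lib.SqIns.FineG
import Pool.Agent.Lib.SqIns.Cover3

/-!
# The general step for all pairs of the next level

For a base with one table for every `e` the step gives the word statement for all admissible pairs
`(m', Q')` of the next level.
-/

namespace SqIns

open Fine

/-! ### Arithmetic -/

/-- check of a size: `N` full columns, `c0` points, `o` columns of the row with both parts; `g`
lower bound for the quotient of the moduli -/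
def szN (K g e N c0 o : ℕ) : Bool :=
  (Nat.ble (21 * (N + o)) (20 * e) && Nat.ble (21 * c0) ((20 * e - 21 * (N + o)) * 5 + 5)) ||
  ((Nat.ble (N + e) K && (Nat.ble o 1 && Nat.ble c0 (5 * (K - (N + e))))) ||
  (Nat.ble (N + o) g && Nat.ble c0 (5 * (g - (N + o)))))

theorem szN_ok {K g f N c0 o M l M' nF' T : ℕ} (hM : 5 ≤ M) (hTM : M ≤ T) (hl : l ≤ M)
    (h4 : nF' = f * M + l + T) (h20 : 20 * nF' + 5 ≤ 21 * M') (h5 : K * M + T ≤ nF' + M')
    (hg : g * M ≤ M') (h : szN K g (f + 1) N c0 o = true) : N * M + (c0 + o * (M - l)) ≤ M' := by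
  unfold szN at h
  simp only [Bool.or_eq_true, Bool.and_eq_true, Nat.ble_eq] at h
  rcases h with ⟨h1, h2⟩ | ⟨h1, h2, h3⟩ | ⟨h1, h2⟩
  · obtain ⟨D, hD⟩ : ∃ D, 20 * (f + 1) = 21 * (N + o) + D := ⟨_, (Nat.add_sub_of_le h1).symm⟩
    have hD' : 20 * (f + 1) - 21 * (N + o) = D := by omega
    rw [hD'] at h2
    have e1 : 20 * (f + 1) * M = 21 * ((N + o) * M) + D * M := by rw [hD]; ring
    have e2 : D * 5 ≤ D * M := Nat.mul_le_mul_left _ hM
    have e3 : o * (M - l) ≤ o * M := Nat.mul_le_mul_left _ (Nat.sub_le _ _)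
    have e4 : (N + o) * M = N * M + o * M := by ring
    have e5 : 20 * (f + 1) * M = 20 * (f * M) + 20 * M := by ring
    omega
  · obtain ⟨d, hd⟩ : ∃ d, K = N + (f + 1) + d := ⟨_, (Nat.add_sub_of_le h1).symm⟩
    have hd' : K - (N + (f + 1)) = d := by omega
    rw [hd'] at h3
    have e1 : K * M = N * M + f * M + M + d * M := by rw [hd]; ring
    have e2 : 5 * d ≤ d * M := by
      rw [mul_comm 5 d]
      exact Nat.mul_le_mul_left _ hM
    have e3 : o * (M - l) ≤ M - l := by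
      calc o * (M - l) ≤ 1 * (M - l) := Nat.mul_le_mul_right _ h2
        _ = M - l := one_mul _
    omega
  · obtain ⟨d, hd⟩ : ∃ d, g = N + o + d := ⟨_, (Nat.add_sub_of_le h1).symm⟩
    have hd' : g - (N + o) = d := by omega
    rw [hd'] at h2
    have e1 : g * M = N * M + o * M + d * M := by rw [hd]; ring
    have e2 : 5 * d ≤ d * M := by
      rw [mul_comm 5 d]
      exact Nat.mul_le_mul_left _ hM
    have e3 : o * (M - l) ≤ o * M := Nat.mul_le_mul_left _ (Nat.sub_le _ _)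
    omega

/-- the index of the table -/
theorem exists_index {K M T nF' M' Q' : ℕ} (hK : 3 ≤ K) (hM : 5 ≤ M) (hT : 20 * T ≤ 41 * M)
    (h1 : 4 * nF' + 1 = 4 * M' + Q') (hQ : 0 < Q')
    (h2 : nF' ≤ K * M + T) (h3 : K * M + T ≤ nF' + M') :
    ∃ f l, l ≤ M ∧ nF' = f * M + l + T ∧ f + 1 ≤ K ∧ (K - 1) / 2 ≤ f + 1 := by
  have hM' : M' ≤ nF' := by omega
  have hKM : 3 * M ≤ K * M := Nat.mul_le_mul_right _ hK
  obtain ⟨x, hx⟩ : ∃ x, nF' = x + T := ⟨nF' - T, by omega⟩
  have hx2 : K * M ≤ 2 * x + T := by omega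
  by_cases hxK : K * M ≤ x
  · refine ⟨K - 1, M, le_rfl, ?_, by omega, by omega⟩
    have e1 : (K - 1) * M + M = K * M := by
      obtain ⟨j, rfl⟩ : ∃ j, K = j + 1 := ⟨K - 1, by omega⟩
      rw [Nat.add_sub_cancel]
      ring
    omega
  · have h4 := Nat.div_add_mod x M
    have h5 := Nat.mod_lt x (show 0 < M by omega)
    have e2 : x / M * M = M * (x / M) := mul_comm _ _
    have h6 : x / M < K := by
      rw [Nat.div_lt_iff_lt_mul (by omega)]
      omega
    refine ⟨x / M, x % M, h5.le, by omega, h6, ?_⟩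
    by_contra h7
    have h8 : 2 * (x / M) + 5 ≤ K := by omega
    have e3 : (2 * (x / M) + 5) * M ≤ K * M := Nat.mul_le_mul_right _ h8
    have e4 : (2 * (x / M) + 5) * M = 2 * (M * (x / M)) + 5 * M := by ring
    omega

/-! ### Tables -/

/-- a table for the words of the next level: words of the straight squares at `jT`, `dT`, centres of
the words of the dense squares at the ring index `i0` -/
structure TE where
  t : Chi
  jT : ℕ
  dT : Bool
  i0 : ℕ

/-- number of centres outside of `I` -/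
def nCI (K : ℕ) (t : Chi) : ℕ :=
  ((List.range (4 * K)).filter fun i => t.mC.testBit i && !t.mI.testBit i).length

namespace TE

/-- the lower bound for the quotient of the moduli which is used for small bases -/
def gK (K : ℕ) : ℕ := bif Nat.ble K 19 then (K + 1) / 2 else 0

/-- the sizes of a table for the index `e` -/
def sz (K e : ℕ) (t : Chi) : Bool :=
  (Nat.beq (t.f + 1) e && Nat.ble t.nC 6) &&
    (szN K (gK K) e (t.nI + t.nO) (nCI K t) t.o1 && szN K (gK K) e t.nA 0 0)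

/-- the checks of a table for the words around a ring index -/
structure Ok (b : BX) (e : ℕ) (x : TE) : Prop where
  ok : x.t.Ok b.toBD b.t.exf
  S : Chi.mchkS b.toRD b.t x.t x.jT x.dT = true
  D : Chi.mchkD b.toRD x.t x.i0 = true
  av : BX.avD b x.i0 = true
  i4 : x.i0 % (4 * b.k) % 4 = b.L b.id b.f % 4
  z : sz b.k e x.t = true

/-- the checks of a table for the words in the columns of `D` -/
structure OkA (b : BX) (e : ℕ) (x : TE) : Prop where
  ok : x.t.Ok b.toBD b.t.exf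
  M : Chi.mchk b.toRD b.t x.t x.jT x.dT true = true
  z : sz b.k e x.t = true

end TE

/-! ### The step -/

/-- the word statement for all pairs of the list -/
def NL (ms : List ℕ) (B s k : ℕ) : Prop :=
  ∀ m ∈ ms, ∀ a c, c ≤ B → Nat.Coprime m (fQ a c) → TFn m (fQ a c) ≤ k →
    k ≤ TFn m (fQ a c) + m * fQ a c →
    PW k (TFn m (fQ a c)) (m * fQ a c) (m * fQ a c) s

theorem NL.mono {ms : List ℕ} {B s s' k : ℕ} (h : NL ms B s k) (hs : s ≤ s') : NL ms B s' k :=
  fun m hm a c hB h1 h2 h3 => (h m hm a c hB h1 h2 h3).mono le_rfl le_rfl hs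

theorem PW.decomposes {T nF nI nA c : ℕ} (h : PW T nF nI nA c) : SqCyc.Decomposes (4 * T + 1) := by
  obtain ⟨sq, hs, _⟩ := h
  exact hs.decomposes (Fintype.card_fin _) (Fintype.card_fin _)

theorem fQ_coprime (a c : ℕ) : Nat.Coprime 6 (fQ a c) := by
  unfold fQ
  exact Nat.Coprime.mul_right (Nat.Coprime.pow_right _ (by norm_num))
    (Nat.Coprime.pow_right _ (by norm_num))

/-- the step uses fine digits -/
def twF (a c : ℕ) : Bool := !(Nat.beq a 0 && Nat.beq c 0)

theorem fQ_tower (a c : ℕ) [NeZero (fQ a c)] :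
    TowerOk (if twF a c then 3 else 1) (fQ a c) := by
  cases h : twF a c
  · unfold twF at h
    simp only [Bool.not_eq_false', Bool.and_eq_true, Nat.beq_eq] at h
    obtain ⟨rfl, rfl⟩ := h
    have e : (1 : ℕ) = fQ 0 0 := by norm_num [fQ]
    exact towerOk_congr e (towerOk_one (by norm_num))
  · exact tower1725 a c

/-- **The statement of the step** for the base size `K`, digits `m`: `n tw` numbers of rows of the
dense squares, `s' tw` numbers of centres for the next level, fine exponents with `P` -/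
def StepP (ms : List ℕ) (B K m : ℕ) (P : ℕ → ℕ → Prop) (n s' : Bool → ℕ) : Prop :=
  ∀ a c, P a c → c ≤ B → Nat.Coprime m (fQ a c) → ∀ T s, TFn m (fQ a c) ≤ T →
    T ≤ TFn m (fQ a c) + m * fQ a c → PW T (TFn m (fQ a c)) (m * fQ a c) (m * fQ a c) s →
    (n (twF a c) + s ≤ K ∨ TFn m (fQ a c) + 1 ≤ K) →
    NL ms B (s' (twF a c)) (K * (m * fQ a c) + T) ∧
      SqCyc.Decomposes (4 * (K * (m * fQ a c) + T) + 1)

/-- the lower bound `g` for the quotient of the moduli -/
def GapOk (ms : List ℕ) (B K m g : ℕ) (P : ℕ → ℕ → Prop) : Prop :=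
  ∀ a c, P a c → c ≤ B → Nat.Coprime m (fQ a c) → ∀ m' ∈ ms, ∀ a' c', c' ≤ B →
    Nat.Coprime m' (fQ a' c') →
    (4 * m * (K + 1) + 1) * fQ a c ≤ (8 * m' + 1) * fQ a' c' → g * (m * fQ a c) ≤ m' * fQ a' c'

theorem gapOk_zero (ms : List ℕ) (B K m : ℕ) (P : ℕ → ℕ → Prop) : GapOk ms B K m 0 P := by
  intro a c _ _ _ m' _ a' c' _ _ _
  rw [zero_mul]
  exact Nat.zero_le _

section Step

variable {b : BX} {w : MW} {n1 n3 q1 q3 : ℕ} {ms : List ℕ} {B : ℕ} {P : ℕ → ℕ → Prop}

/-- the common part of the two forms of the step -/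
theorem step_aux {K m : ℕ} (hK : 3 ≤ K) (hm5 : 5 ≤ m) (hms : ∀ m ∈ ms, 5 ≤ m)
    (hg : GapOk ms B K m (TE.gK K) P) {tab : ℕ → TE}
    (ht : ∀ e, (K - 1) / 2 ≤ e → e ≤ K → TE.sz K e (tab e).t = true) {n s' : Bool → ℕ}
    (hst : ∀ e, (K - 1) / 2 ≤ e → e ≤ K → ∀ a c, c ≤ B → Nat.Coprime m (fQ a c) → ∀ T s,
      TFn m (fQ a c) ≤ T →
      T ≤ TFn m (fQ a c) + m * fQ a c → PW T (TFn m (fQ a c)) (m * fQ a c) (m * fQ a c) s →
      (n (twF a c) + s ≤ K ∨ TFn m (fQ a c) + 1 ≤ K) → ∀ l nI nA, l ≤ m * fQ a c →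
      (tab e).t.nC ≤ 6 →
      (tab e).t.nI * (m * fQ a c) + (nCI K (tab e).t +
        ((tab e).t.nO * (m * fQ a c) + (tab e).t.o1 * (m * fQ a c - l))) ≤ nI →
      (tab e).t.nA * (m * fQ a c) ≤ nA →
      PW (K * (m * fQ a c) + T) ((tab e).t.f * (m * fQ a c) + l + T) nI nA (s' (twF a c))) :
    StepP ms B K m P n s' := by
  intro a c hPa hcB hmQ T s hT1 hT2 hPW hGs
  have hQ := fQ_mod a c
  have hQ0 := fQ_pos a c
  have hT0 := four_TFn m a c
  have e1 : fQ a c * (4 * m + 1) = 4 * (m * fQ a c) + fQ a c := by ring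
  rw [e1] at hT0
  have e2 : 5 * fQ a c ≤ m * fQ a c := Nat.mul_le_mul_right _ hm5
  refine ⟨?_, ?_⟩
  · intro m' hm' a' c' hcB' hc' h1 h2
    have hQ' := fQ_mod a' c'
    have hQ0' := fQ_pos a' c'
    have hT0' := four_TFn m' a' c'
    have e1' : fQ a' c' * (4 * m' + 1) = 4 * (m' * fQ a' c') + fQ a' c' := by ring
    rw [e1'] at hT0'
    have e2' : 5 * fQ a' c' ≤ m' * fQ a' c' := Nat.mul_le_mul_right _ (hms m' hm')
    obtain ⟨f, l, hl, hf1, hf2, hf3⟩ := exists_index hK (show 5 ≤ m * fQ a c by omega)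
      (show 20 * T ≤ 41 * (m * fQ a c) by omega) hT0' hQ0' h1 h2
    have hz := ht (f + 1) hf3 hf2
    unfold TE.sz at hz
    simp only [Bool.and_eq_true, Nat.beq_eq, Nat.ble_eq] at hz
    obtain ⟨⟨z1, z2⟩, z3, z4⟩ := hz
    have z1' : (tab (f + 1)).t.f = f := by omega
    have hgM : TE.gK K * (m * fQ a c) ≤ m' * fQ a' c' := by
      refine hg a c hPa hcB hmQ m' hm' a' c' hcB' hc' ?_
      have e3 : (4 * m * (K + 1) + 1) * fQ a c = 4 * (K * (m * fQ a c)) + 4 * (m * fQ a c) +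
        fQ a c := by ring
      have e4 : (8 * m' + 1) * fQ a' c' = 8 * (m' * fQ a' c') + fQ a' c' := by ring
      omega
    have s1 := szN_ok (show 5 ≤ m * fQ a c by omega) (show m * fQ a c ≤ T by omega) hl hf1
      (show 20 * TFn m' (fQ a' c') + 5 ≤ 21 * (m' * fQ a' c') by omega) h2 hgM z3
    have s2 := szN_ok (show 5 ≤ m * fQ a c by omega) (show m * fQ a c ≤ T by omega) hl hf1
      (show 20 * TFn m' (fQ a' c') + 5 ≤ 21 * (m' * fQ a' c') by omega) h2 hgM z4
    have key := hst (f + 1) hf3 hf2 a c hcB hmQ T s hT1 hT2 hPW hGs l (m' * fQ a' c')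
      (m' * fQ a' c') hl z2
      (by
        refine le_trans (le_of_eq ?_) s1
        ring)
      (by
        refine le_trans (le_of_eq ?_) s2
        ring)
    rw [z1', ← hf1] at key
    exact key
  · have hz := ht K (by omega) le_rfl
    unfold TE.sz at hz
    simp only [Bool.and_eq_true, Nat.beq_eq, Nat.ble_eq] at hz
    exact (hst K (by omega) le_rfl a c hcB hmQ T s hT1 hT2 hPW hGs 0 _ _ (Nat.zero_le _) hz.1.2
      le_rfl le_rfl).decomposes

/-- **The step for all pairs of the next level**, words around a ring index. -/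
theorem stepB (h : b.Chk) (hf : b.fn.Ok b.id) {tab : ℕ → TE}
    (ht : ∀ e, (b.k - 1) / 2 ≤ e → e ≤ b.k → (tab e).Ok b e) (hw : w.Chk n1 n3 q1 q3)
    (hm6 : Nat.Coprime 6 w.m) (hm5 : 5 ≤ w.m)
    (hs : w.sup (b.upw b.id b.f) (b.L b.id b.f % 4) = true)
    (hsw : ∀ tw, w.supw (w.d0 tw (b.upw b.id b.f) (b.L b.id b.f % 4)) (b.L b.id b.f % 4) = true)
    (hms : ∀ m ∈ ms, 5 ≤ m) (hg : GapOk ms B b.k w.m (TE.gK b.k) P) :
    StepP ms B b.k w.m P (fun tw => if tw then n3 else n1) (fun tw => 5 + if tw then q3 else q1) := by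
  refine step_aux (b.one_lt_k h.ok) hm5 hms hg (fun e h1 h2 => (ht e h1 h2).z) ?_
  intro e h1 h2 a c hcB hmQ T s hT1 hT2 hPW hGs l nI nA hl hC hI hA
  have : NeZero (fQ a c) := ⟨(fQ_pos a c).ne'⟩
  have hT0 := four_TFn w.m a c
  have e1 : fQ a c * (4 * w.m + 1) = 4 * (w.m * fQ a c) + fQ a c := by ring
  rw [e1] at hT0
  have hx := ht e h1 h2
  exact BX.combB (s := s) hw hm6 (by omega) h hf hs (tab e).i0 (twF a c)
    (by rw [hx.i4]; exact hsw _) (fQ_coprime a c) hmQ (fQ_tower a c) hT0 hT1 hT2 hPW hGs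
    (tab e).t hx.ok (tab e).jT (tab e).dT hx.S hx.D hx.av hl hI hA
    (by
      show (tab e).t.nC + _ ≤ 5 + _ + 1
      omega)

/-- **The step for all pairs of the next level**, words in the columns of `D`. -/
theorem stepA (h : b.Chk) (hf : b.fn.Ok b.id) {tab : ℕ → TE}
    (ht : ∀ e, (b.k - 1) / 2 ≤ e → e ≤ b.k → (tab e).OkA b e) (hw : w.Chk n1 n3 q1 q3)
    (hm6 : Nat.Coprime 6 w.m) (hm5 : 5 ≤ w.m)
    (hs : w.sup (b.upw b.id b.f) (b.L b.id b.f % 4) = true)
    (hms : ∀ m ∈ ms, 5 ≤ m) (hg : GapOk ms B b.k w.m (TE.gK b.k) P) :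
    StepP ms B b.k w.m P (fun tw => if tw then n3 else n1) (fun tw => 5 + if tw then n3 else n1) := by
  refine step_aux (b.one_lt_k h.ok) hm5 hms hg (fun e h1 h2 => (ht e h1 h2).z) ?_
  intro e h1 h2 a c hcB hmQ T s hT1 hT2 hPW hGs l nI nA hl hC hI hA
  have : NeZero (fQ a c) := ⟨(fQ_pos a c).ne'⟩
  have hT0 := four_TFn w.m a c
  have e1 : fQ a c * (4 * w.m + 1) = 4 * (w.m * fQ a c) + fQ a c := by ring
  rw [e1] at hT0
  have hx := ht e h1 h2
  exact BX.comb (s := s) hw hm6 (by omega) h hf hs (twF a c)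
    (fQ_coprime a c) hmQ (fQ_tower a c) hT0 hT1 hT2 hPW hGs
    (tab e).t hx.ok (tab e).jT (tab e).dT hx.M hl hI hA
    (by
      show (tab e).t.nC + _ ≤ 5 + _ + 1
      omega)

end Step

/-! ### The check of the lower bound -/

/-- the check of one pair: `u`, `v` the fine moduli -/
def gapP (K m g m' u v : ℕ) : Bool :=
  !(Nat.ble ((4 * m * (K + 1) + 1) * u) ((8 * m' + 1) * v)) || Nat.ble (g * (m * u)) (m' * v)

/-- the check of the lower bound `g`; `D` bound for the difference of the exponents of `17` -/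
def gapChk (ms : List ℕ) (B K m g D : ℕ) : Bool :=
  ms.all fun m' =>
    (Nat.blt ((8 * m' + 1) * 25 ^ B) ((4 * m * (K + 1) + 1) * 17 ^ D) &&
    Nat.ble (g * (m * 25 ^ B)) (m' * 17 ^ D)) &&
    ((List.range (B + 1)).all fun c => (List.range (B + 1)).all fun c' =>
      (!(Nat.beq c 0) && Nat.beq (m % 5) 0) || ((!(Nat.beq c' 0) && Nat.beq (m' % 5) 0) ||
      ((List.range D).all fun d =>
        ((!(Nat.beq d 0) && Nat.beq (m % 17) 0) || gapP K m g m' (17 ^ d * 25 ^ c) (25 ^ c')) &&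
        ((!(Nat.beq d 0) && Nat.beq (m' % 17) 0) || gapP K m g m' (25 ^ c) (17 ^ d * 25 ^ c')))))

theorem gapOk_of_chk {ms : List ℕ} {B K m g D : ℕ} (h : gapChk ms B K m g D = true)
    (P : ℕ → ℕ → Prop) : GapOk ms B K m g P := by
  intro a c _ hcB hmQ m' hm' a' c' hcB' hmQ' hle
  unfold gapChk at h
  rw [List.all_eq_true] at h
  have h1 := h m' hm'
  simp only [Bool.and_eq_true, Bool.or_eq_true, List.all_eq_true, List.mem_range, Nat.ble_eq,
    Nat.beq_eq, Bool.not_eq_true', Nat.blt] at h1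
  obtain ⟨⟨h2, h3⟩, h4⟩ := h1
  have h5 := h4 c (by omega) c' (by omega)
  have n5 : ∀ {m a c : ℕ}, Nat.Coprime m (fQ a c) → ¬ (Nat.beq c 0 = false ∧ m % 5 = 0) := by
    rintro m a c h ⟨h1, h2⟩
    have hc : c ≠ 0 := by
      rintro rfl
      exact absurd h1 (by decide)
    have d1 : 5 ∣ m := Nat.dvd_of_mod_eq_zero h2
    have d2 : 5 ∣ fQ a c := by
      unfold fQ
      exact Dvd.dvd.mul_left (dvd_trans (by norm_num : 5 ∣ 25) (dvd_pow_self _ hc)) _
    have := Nat.Coprime.eq_one_of_dvd (Nat.Coprime.coprime_dvd_left d1 h) d2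
    omega
  have n17 : ∀ {m a c : ℕ}, Nat.Coprime m (fQ a c) → a ≠ 0 → ¬ (m % 17 = 0) := by
    intro m a c h h1 h2
    have d1 : 17 ∣ m := Nat.dvd_of_mod_eq_zero h2
    have d2 : 17 ∣ fQ a c := by
      unfold fQ
      exact Dvd.dvd.mul_right (dvd_pow_self _ h1) _
    have := Nat.Coprime.eq_one_of_dvd (Nat.Coprime.coprime_dvd_left d1 h) d2
    omega
  rcases h5 with h5 | h5 | h5
  · exact absurd h5 (n5 hmQ)
  · exact absurd h5 (n5 hmQ')
  have p25 : ∀ x ≤ B, 25 ^ x ≤ 25 ^ B := fun x hx => Nat.pow_le_pow_right (by norm_num) hx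
  have q25 : ∀ x, 1 ≤ 25 ^ x := fun x => Nat.one_le_pow _ _ (by norm_num)
  have h17 : ∀ d, 0 < 17 ^ d := fun d => by positivity
  rcases Nat.le_total a' a with hle' | hle'
  · -- the fine modulus of the step is larger
    obtain ⟨d, rfl⟩ := Nat.exists_eq_add_of_le hle'
    have eQ : fQ (a' + d) c = 17 ^ a' * (17 ^ d * 25 ^ c) := by
      unfold fQ
      rw [pow_add]
      ring
    have eQ' : fQ a' c' = 17 ^ a' * 25 ^ c' := rfl
    rw [eQ, eQ'] at hle ⊢
    have hle2 : (4 * m * (K + 1) + 1) * (17 ^ d * 25 ^ c) ≤ (8 * m' + 1) * 25 ^ c' := by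
      refine Nat.le_of_mul_le_mul_left ?_ (h17 a')
      calc 17 ^ a' * ((4 * m * (K + 1) + 1) * (17 ^ d * 25 ^ c))
          = (4 * m * (K + 1) + 1) * (17 ^ a' * (17 ^ d * 25 ^ c)) := by ring
        _ ≤ (8 * m' + 1) * (17 ^ a' * 25 ^ c') := hle
        _ = 17 ^ a' * ((8 * m' + 1) * 25 ^ c') := by ring
    by_cases hd : d < D
    · have h6 := (h5 d hd).1
      rcases h6 with ⟨h6, h7⟩ | h6
      · refine absurd h7 (n17 hmQ ?_)
        intro h0
        have : d = 0 := by omega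
        rw [this] at h6
        exact absurd h6 (by decide)
      · unfold gapP at h6
        simp only [Bool.or_eq_true, Bool.not_eq_true', Nat.ble_eq] at h6
        rcases h6 with h6 | h6
        · rw [← Bool.not_eq_true, Nat.ble_eq] at h6
          exact absurd hle2 h6
        · calc g * (m * (17 ^ a' * (17 ^ d * 25 ^ c)))
              = 17 ^ a' * (g * (m * (17 ^ d * 25 ^ c))) := by ring
            _ ≤ 17 ^ a' * (m' * 25 ^ c') := Nat.mul_le_mul_left _ h6
            _ = m' * (17 ^ a' * 25 ^ c') := by ring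
    · exfalso
      have e3 : 17 ^ D ≤ 17 ^ d := Nat.pow_le_pow_right (by norm_num) (by omega)
      have e4 : (4 * m * (K + 1) + 1) * 17 ^ D ≤ (4 * m * (K + 1) + 1) * (17 ^ d * 25 ^ c) := by
        refine Nat.mul_le_mul_left _ ?_
        calc 17 ^ D = 17 ^ D * 1 := (mul_one _).symm
          _ ≤ 17 ^ d * 25 ^ c := Nat.mul_le_mul e3 (q25 c)
      have e5 : (8 * m' + 1) * 25 ^ c' ≤ (8 * m' + 1) * 25 ^ B :=
        Nat.mul_le_mul_left _ (p25 c' hcB')
      omega
  · obtain ⟨d, rfl⟩ := Nat.exists_eq_add_of_le hle'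
    have eQ : fQ (a + d) c' = 17 ^ a * (17 ^ d * 25 ^ c') := by
      unfold fQ
      rw [pow_add]
      ring
    have eQ' : fQ a c = 17 ^ a * 25 ^ c := rfl
    rw [eQ, eQ'] at hle ⊢
    have hle2 : (4 * m * (K + 1) + 1) * 25 ^ c ≤ (8 * m' + 1) * (17 ^ d * 25 ^ c') := by
      refine Nat.le_of_mul_le_mul_left ?_ (h17 a)
      calc 17 ^ a * ((4 * m * (K + 1) + 1) * 25 ^ c)
          = (4 * m * (K + 1) + 1) * (17 ^ a * 25 ^ c) := by ring
        _ ≤ (8 * m' + 1) * (17 ^ a * (17 ^ d * 25 ^ c')) := hle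
        _ = 17 ^ a * ((8 * m' + 1) * (17 ^ d * 25 ^ c')) := by ring
    have goal : g * (m * 25 ^ c) ≤ m' * (17 ^ d * 25 ^ c') := by
      by_cases hd : d < D
      · have h6 := (h5 d hd).2
        rcases h6 with ⟨h6, h7⟩ | h6
        · refine absurd h7 (n17 hmQ' ?_)
          intro h0
          have : d = 0 := by omega
          rw [this] at h6
          exact absurd h6 (by decide)
        · unfold gapP at h6
          simp only [Bool.or_eq_true, Bool.not_eq_true', Nat.ble_eq] at h6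
          rcases h6 with h6 | h6
          · rw [← Bool.not_eq_true, Nat.ble_eq] at h6
            exact absurd hle2 h6
          · exact h6
      · have e3 : 17 ^ D ≤ 17 ^ d := Nat.pow_le_pow_right (by norm_num) (by omega)
        calc g * (m * 25 ^ c) ≤ g * (m * 25 ^ B) :=
              Nat.mul_le_mul_left _ (Nat.mul_le_mul_left _ (p25 c hcB))
          _ ≤ m' * 17 ^ D := h3
          _ = m' * (17 ^ D * 1) := by ring
          _ ≤ m' * (17 ^ d * 25 ^ c') :=
              Nat.mul_le_mul_left _ (Nat.mul_le_mul e3 (q25 c'))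
    calc g * (m * (17 ^ a * 25 ^ c)) = 17 ^ a * (g * (m * 25 ^ c)) := by ring
      _ ≤ 17 ^ a * (m' * (17 ^ d * 25 ^ c')) := Nat.mul_le_mul_left _ goal
      _ = m' * (17 ^ a * (17 ^ d * 25 ^ c')) := by ring

/-- the check of the lower bound without fine digits -/
def gapChk1 (ms : List ℕ) (B K m g D : ℕ) : Bool :=
  ms.all fun m' => Nat.ble (g * m) (m' * 17 ^ D) &&
    ((List.range (B + 1)).all fun c' => (!(Nat.beq c' 0) && Nat.beq (m' % 5) 0) ||
      ((List.range D).all fun d =>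
        (!(Nat.beq d 0) && Nat.beq (m' % 17) 0) || gapP K m g m' 1 (17 ^ d * 25 ^ c')))

theorem gapOk_of_chk1 {ms : List ℕ} {B K m g D : ℕ} (h : gapChk1 ms B K m g D = true)
    {P : ℕ → ℕ → Prop} (hP : ∀ a c, P a c → a = 0 ∧ c = 0) : GapOk ms B K m g P := by
  intro a c hac hcB hmQ m' hm' d c' hcB' hmQ' hle
  obtain ⟨rfl, rfl⟩ := hP a c hac
  unfold gapChk1 at h
  rw [List.all_eq_true] at h
  have h1 := h m' hm'
  simp only [Bool.and_eq_true, Bool.or_eq_true, List.all_eq_true, List.mem_range, Nat.ble_eq,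
    Nat.beq_eq, Bool.not_eq_true'] at h1
  obtain ⟨h3, h4⟩ := h1
  have eQ : fQ 0 0 = 1 := by norm_num [fQ]
  have eQ' : fQ d c' = 17 ^ d * 25 ^ c' := rfl
  rw [eQ, eQ'] at hle
  rw [eQ, eQ', mul_one]
  have h5 := h4 c' (by omega)
  rcases h5 with ⟨h5, h6⟩ | h5
  · exfalso
    have hc : c' ≠ 0 := by
      rintro rfl
      exact absurd h5 (by decide)
    have d1 : 5 ∣ m' := Nat.dvd_of_mod_eq_zero h6
    have d2 : 5 ∣ fQ d c' := by
      unfold fQ
      exact Dvd.dvd.mul_left (dvd_trans (by norm_num : 5 ∣ 25) (dvd_pow_self _ hc)) _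
    have := Nat.Coprime.eq_one_of_dvd (Nat.Coprime.coprime_dvd_left d1 hmQ') d2
    omega
  by_cases hd : d < D
  · rcases h5 d hd with ⟨h6, h7⟩ | h6
    · exfalso
      have hc : d ≠ 0 := by
        rintro rfl
        exact absurd h6 (by decide)
      have d1 : 17 ∣ m' := Nat.dvd_of_mod_eq_zero h7
      have d2 : 17 ∣ fQ d c' := by
        unfold fQ
        exact Dvd.dvd.mul_right (dvd_pow_self _ hc) _
      have := Nat.Coprime.eq_one_of_dvd (Nat.Coprime.coprime_dvd_left d1 hmQ') d2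
      omega
    · unfold gapP at h6
      simp only [Bool.or_eq_true, Bool.not_eq_true', Nat.ble_eq] at h6
      rcases h6 with h6 | h6
      · rw [← Bool.not_eq_true, Nat.ble_eq] at h6
        exact absurd hle h6
      · rw [mul_one] at h6
        exact h6
  · have e3 : 17 ^ D ≤ 17 ^ d := Nat.pow_le_pow_right (by norm_num) (by omega)
    calc g * m ≤ m' * 17 ^ D := h3
      _ = m' * (17 ^ D * 1) := by ring
      _ ≤ m' * (17 ^ d * 25 ^ c') :=
          Nat.mul_le_mul_left _ (Nat.mul_le_mul e3 (Nat.one_le_pow _ _ (by norm_num)))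

end SqIns
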