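import Pool.Agent.Lib.SqIns.ChiT
import Pool.Agent.Lib.SqIns.StepG

/-!
# The checks of the table entries
-/

namespace SqIns

namespace TE

/-- all checks of an entry, words around a ring index -/
def chkE (b : BX) (e : ℕ) (x : TE) : Bool :=
  x.t.chk b.toBD b.exN && (b.mSN x.t x.jT x.dT && (Chi.mchkD b.toRD x.t x.i0 &&
    (BX.avD b x.i0 && (Nat.beq (x.i0 % (4 * b.k) % 4) (b.L b.id b.f % 4) && sz b.k e x.t))))

/-- all checks of an entry, words in the columns of `D` -/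
def chkEA (b : BX) (e : ℕ) (x : TE) : Bool :=
  x.t.chk b.toBD b.exN && (b.mSN x.t x.jT x.dT && (b.mDN x.t && sz b.k e x.t))

variable {b : BX} {e : ℕ} {x : TE}

theorem ok_of (hb : b.Chk) (h : chkE b e x = true) : x.Ok b e := by
  unfold chkE at h
  simp only [Bool.and_eq_true] at h
  obtain ⟨h1, h2, h3, h4, h6, h5⟩ := h
  refine ⟨?_, BX.mS_of h2, h3, h4, Nat.eq_of_beq_eq_true h6, h5⟩
  rw [BX.exf_eq hb]
  exact Chi.ok_of_chk h1

theorem okA_of (hb : b.Chk) (h : chkEA b e x = true) : x.OkA b e := by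
  unfold chkEA at h
  simp only [Bool.and_eq_true] at h
  obtain ⟨h1, h2, h3, h4⟩ := h
  refine ⟨?_, ?_, h4⟩
  · rw [BX.exf_eq hb]
    exact Chi.ok_of_chk h1
  · have h5 := BX.mS_of h2
    have e1 : b.t.rqu.val = b.qu := by
      show ((b.qu : ℕ) : ZMod b.k).val = b.qu
      rw [ZMod.val_natCast, Nat.mod_eq_of_lt hb.quk]
    unfold Chi.mchk
    rw [Bool.and_eq_true]
    refine ⟨h5, ?_⟩
    rw [e1]
    exact h3

end TE

end SqIns
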