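import Pool.Agent.Lib.SqIns.MWAll

/-!
# The step for single sizes

For a base with tables of arbitrary sizes the step without fine digits gives the word statement for a
single size if a finite check of the sizes for all pairs of the next level succeeds.
-/

namespace SqIns

open Fine

/-- the checks of a table without the sizes, words in the columns of `D` -/
structure TE.OkF (b : BX) (e : ℕ) (x : TE) : Prop where
  ok : x.t.Ok b.toBD b.t.exf
  M : Chi.mchk b.toRD b.t x.t x.jT x.dT true = true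
  f : x.t.f + 1 = e
  nC : x.t.nC ≤ 6

/-- the check of one pair of the next level -/
def finP (K M T : ℕ) (tab : ℕ → TE) (e0 m' a' c' : ℕ) : Bool :=
  let t := TFn m' (fQ a' c')
  let M' := m' * fQ a' c'
  let x := t - T
  let f := min (x / M) (K - 1)
  let l := x - f * M
  let y := (tab (f + 1)).t
  Nat.blt (K * M + T) t || (Nat.blt (t + M') (K * M + T) ||
    (Nat.ble T t && (Nat.ble e0 (f + 1) && (Nat.ble l M &&
    (Nat.ble (y.nI * M + (nCI K y + (y.nO * M + y.o1 * (M - l)))) M' && Nat.ble (y.nA * M) M')))))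

/-- the check of a size -/
def finChk (ms : List ℕ) (B A K M T : ℕ) (tab : ℕ → TE) (e0 : ℕ) : Bool :=
  Nat.blt (K * M + T) (17 ^ A) && (ms.all fun m' => (List.range A).all fun a' =>
    (List.range (B + 1)).all fun c' => (!(Nat.beq c' 0) && Nat.beq (m' % 5) 0) ||
      finP K M T tab e0 m' a' c')

/-- **The step for a single size**, words in the columns of `D`. -/
theorem stepF_A {b : BX} (h : b.Chk) (hf : b.fn.Ok b.id) {tab : ℕ → TE} {e0 : ℕ}
    (ht : ∀ e, e0 ≤ e → e ≤ b.k → (tab e).OkF b e) {ms : List ℕ} {B A : ℕ}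
    (hms : ∀ m ∈ ms, 5 ≤ m) {m : ℕ} (hm : m ∈ msW) {a c : ℕ} (hmQ : Nat.Coprime m (fQ a c))
    {T s : ℕ} (h1 : TFn m (fQ a c) ≤ T) (h2 : T ≤ TFn m (fQ a c) + m * fQ a c)
    (hPW : PW T (TFn m (fQ a c)) (m * fQ a c) (m * fQ a c) s)
    (hGs : nG m (twF a c) + s ≤ b.k ∨ TFn m (fQ a c) + 1 ≤ b.k)
    (hc : finChk ms B A b.k (m * fQ a c) T tab e0 = true) :
    NL ms B (5 + nG m (twF a c)) (b.k * (m * fQ a c) + T) := by
  have hw := wOf_ok m hm (b.upw b.id b.f) (b.L b.id b.f)
  intro m' hm' a' c' hcB' hc' h3 h4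
  unfold finChk at hc
  simp only [Bool.and_eq_true, Bool.or_eq_true, List.all_eq_true, List.mem_range, Nat.blt_eq,
    Nat.beq_eq, Bool.not_eq_true'] at hc
  obtain ⟨hA, hc⟩ := hc
  have hm5 := hms m' hm'
  have p25 : 1 ≤ 25 ^ c' := Nat.one_le_pow _ _ (by norm_num)
  have hTM : m' * fQ a' c' ≤ TFn m' (fQ a' c') := Nat.le_add_right _ _
  have ha' : a' < A := by
    by_contra hcon
    have e3 : 17 ^ A ≤ 17 ^ a' := Nat.pow_le_pow_right (by norm_num) (by omega)
    have e4 : 1 * (17 ^ a' * 1) ≤ m' * (17 ^ a' * 25 ^ c') :=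
      Nat.mul_le_mul (by omega) (Nat.mul_le_mul_left _ p25)
    have e5 : m' * (17 ^ a' * 25 ^ c') = m' * fQ a' c' := rfl
    omega
  have h5 := hc m' hm' a' ha' c' (by omega)
  rcases h5 with ⟨h5, h6⟩ | h5
  · exfalso
    have hne : c' ≠ 0 := by
      rintro rfl
      exact absurd h5 (by decide)
    have d1 : 5 ∣ m' := Nat.dvd_of_mod_eq_zero h6
    have d2 : 5 ∣ fQ a' c' := by
      unfold fQ
      exact Dvd.dvd.mul_left (dvd_trans (by norm_num : 5 ∣ 25) (dvd_pow_self _ hne)) _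
    have := Nat.Coprime.eq_one_of_dvd (Nat.Coprime.coprime_dvd_left d1 hc') d2
    omega
  unfold finP at h5
  simp only [Bool.and_eq_true, Bool.or_eq_true, Nat.blt_eq, Nat.ble_eq] at h5
  rcases h5 with h5 | h5 | ⟨h5, h6, h7, h8, h9⟩
  · omega
  · omega
  have hk : 3 ≤ b.k := b.one_lt_k h.ok
  have : NeZero (fQ a c) := ⟨(fQ_pos a c).ne'⟩
  have hT0 := four_TFn m a c
  have e1 : fQ a c * (4 * m + 1) = 4 * (m * fQ a c) + fQ a c := by ring
  rw [e1] at hT0
  have e2 : ∀ tw, (if tw = true then nG m true else nG m false) = nG m tw := by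
    intro tw
    cases tw <;> rfl
  generalize hfd : min ((TFn m' (fQ a' c') - T) / (m * fQ a c)) (b.k - 1) = f at h6 h7 h8 h9
  have hx := ht (f + 1) h6 (by omega)
  have hfl : TFn m' (fQ a' c') =
      f * (m * fQ a c) + (TFn m' (fQ a' c') - T - f * (m * fQ a c)) + T := by
    have e6 : f * (m * fQ a c) ≤ TFn m' (fQ a' c') - T := by
      calc f * (m * fQ a c) ≤ (TFn m' (fQ a' c') - T) / (m * fQ a c) * (m * fQ a c) :=
            Nat.mul_le_mul_right _ (by omega)
        _ ≤ TFn m' (fQ a' c') - T := Nat.div_mul_le_self _ _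
    omega
  have key := BX.comb (s := s) (nF := TFn m (fQ a c)) (T := T) hw.chk
    (by rw [hw.wm]; exact hw.m6) (by rw [hw.wm]; have := hw.m5; omega) h hf hw.sup (twF a c)
    (Q := fQ a c) (fQ_coprime a c) (by rw [hw.wm]; exact hmQ) (fQ_tower a c)
    (by rw [hw.wm]; exact hT0) h1 (by rw [hw.wm]; exact h2) (by rw [hw.wm]; exact hPW)
    (by rw [e2]; exact hGs)
    (tab (f + 1)).t hx.ok (tab (f + 1)).jT (tab (f + 1)).dT hx.M
    (l := TFn m' (fQ a' c') - T - f * (m * fQ a c))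
    (nI := m' * fQ a' c') (nA := m' * fQ a' c') (nc := 5 + nG m (twF a c))
    (by rw [hw.wm]; exact h7) (by rw [hw.wm]; exact h8) (by rw [hw.wm]; exact h9)
    (by
      have := hx.nC
      rw [e2]
      omega)
  have e7 : (tab (f + 1)).t.f = f := by
    have := hx.f
    omega
  rw [e7, hw.wm, ← hfl] at key
  exact key

/-- **The decomposition from one table**, all fine exponents. -/
theorem decF_A {b : BX} (h : b.Chk) (hf : b.fn.Ok b.id) {x : TE} {e : ℕ} (hx : x.OkF b e)
    {m : ℕ} (hm : m ∈ msW) {a c : ℕ} (hmQ : Nat.Coprime m (fQ a c)) {T s : ℕ}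
    (h1 : TFn m (fQ a c) ≤ T) (h2 : T ≤ TFn m (fQ a c) + m * fQ a c)
    (hPW : PW T (TFn m (fQ a c)) (m * fQ a c) (m * fQ a c) s)
    (hGs : nG m (twF a c) + s ≤ b.k ∨ TFn m (fQ a c) + 1 ≤ b.k) :
    SqCyc.Decomposes (4 * (b.k * (m * fQ a c) + T) + 1) := by
  have hw := wOf_ok m hm (b.upw b.id b.f) (b.L b.id b.f)
  have : NeZero (fQ a c) := ⟨(fQ_pos a c).ne'⟩
  have hT0 := four_TFn m a c
  have e1 : fQ a c * (4 * m + 1) = 4 * (m * fQ a c) + fQ a c := by ring
  rw [e1] at hT0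
  have e2 : ∀ tw, (if tw = true then nG m true else nG m false) = nG m tw := by
    intro tw
    cases tw <;> rfl
  have key := BX.comb (s := s) (nF := TFn m (fQ a c)) (T := T) hw.chk
    (by rw [hw.wm]; exact hw.m6) (by rw [hw.wm]; have := hw.m5; omega) h hf hw.sup (twF a c)
    (Q := fQ a c) (fQ_coprime a c) (by rw [hw.wm]; exact hmQ) (fQ_tower a c)
    (by rw [hw.wm]; exact hT0) h1 (by rw [hw.wm]; exact h2) (by rw [hw.wm]; exact hPW)
    (by rw [e2]; exact hGs) x.t hx.ok x.jT x.dT hx.M (l := 0) (nc := 5 + nG m (twF a c))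
    (Nat.zero_le _) le_rfl le_rfl
    (by
      have := hx.nC
      rw [e2]
      omega)
  rw [hw.wm] at key
  exact key.decomposes

end SqIns
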