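import Pool.Agent.Lib.SqIns.ChiE
import Pool.Agent.Lib.SqIns.StepF

/-!
# The checks of the table entries without sizes
-/

namespace SqIns

namespace TE

/-- all checks of an entry without the sizes, words in the columns of `D` -/
def chkEF (b : BX) (e : ℕ) (x : TE) : Bool :=
  x.t.chk b.toBD b.exN && (b.mSN x.t x.jT x.dT && (b.mDN x.t &&
    (Nat.beq (x.t.f + 1) e && Nat.ble x.t.nC 6)))

variable {b : BX} {e : ℕ} {x : TE}

theorem okF_of (hb : b.Chk) (h : chkEF b e x = true) : x.OkF b e := by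
  unfold chkEF at h
  simp only [Bool.and_eq_true] at h
  obtain ⟨h1, h2, h3, h4, h5⟩ := h
  refine ⟨?_, ?_, Nat.eq_of_beq_eq_true h4, Nat.le_of_ble_eq_true h5⟩
  · rw [BX.exf_eq hb]
    exact Chi.ok_of_chk h1
  · have h6 := BX.mS_of h2
    have e1 : b.t.rqu.val = b.qu := by
      show ((b.qu : ℕ) : ZMod b.k).val = b.qu
      rw [ZMod.val_natCast, Nat.mod_eq_of_lt hb.quk]
    unfold Chi.mchk
    rw [Bool.and_eq_true]
    refine ⟨h6, ?_⟩
    rw [e1]
    exact h3

end TE

end SqIns
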