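import Pool.Agent.Lib.SqIns.Comb2

/-!
# Tables of words for a checked base

The conditions of the tables with natural numbers only, and the form in which the tables are used.
-/

open Finset Equiv

namespace SqIns

namespace BX

open RD

variable (b : BX)

/-- the excluded points of a row, natural numbers -/
def exN (r : ℕ) : ℕ :=
  2 ^ (b.st (false, b.id) + (wi !b.f).val) |||
  ((bif Nat.beq r b.qu then 2 ^ (b.st (true, b.id) + (wi b.f).val) else 0) |||
  ((bif Nat.beq r b.pu then 2 ^ (b.st (true, b.ib) + (wi b.e).val) else 0) |||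
   (bif Nat.beq r b.qv then 2 ^ (b.st (true, b.ib) + (wi !b.e).val) else 0)))

variable {b}

theorem exf_eq (h : b.Chk) : b.t.exf = b.exN := by
  have e1 : b.t.rqu.val = b.qu := by
    show ((b.qu : ℕ) : ZMod b.k).val = b.qu
    rw [ZMod.val_natCast, Nat.mod_eq_of_lt h.quk]
  have e2 : b.t.rpu.val = b.pu := by
    show ((b.pu : ℕ) : ZMod b.k).val = b.pu
    rw [ZMod.val_natCast, Nat.mod_eq_of_lt h.puk]
  have e3 : b.t.rqv.val = b.qv := by
    show ((b.qv : ℕ) : ZMod b.k).val = b.qv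
    rw [ZMod.val_natCast, Nat.mod_eq_of_lt h.qvk]
  have e4 : ∀ m n x : ℕ, (if m = n then x else 0) = bif Nat.beq m n then x else 0 := by
    intro m n x
    by_cases hmn : m = n
    · rw [if_pos hmn, hmn, Nat.beq_refl, cond_true]
    · have : Nat.beq m n = false := by
        cases hb : Nat.beq m n
        · rfl
        · exact absurd (Nat.eq_of_beq_eq_true hb) hmn
      rw [if_neg hmn, this, cond_false]
  funext r
  unfold C1.exf exN
  rw [e1, e2, e3, e4, e4, e4]
  rfl

variable (b)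

/-- the straight words, natural numbers -/
def mSN (t : Chi) (jT : ℕ) (dT : Bool) : Bool :=
  (t.mI.testBit (b.rcT (rpos jT dT 0)) && (t.mC.testBit (b.rcT (rpos jT dT 1)) &&
    (t.mA.testBit (b.rcT (rpos jT dT 2)) && t.mA.testBit (b.rcT (rpos jT dT 3))))) &&
  ((List.range 4).all fun i => !Nat.beq ((jT + i) % (4 * b.k)) ((b.Jn + 1) % (4 * b.k)))

/-- the words at the columns of `D`, natural numbers -/
def mDN (t : Chi) : Bool :=
  (t.mI.testBit (Chi.cpt b.toHT b.qu (b.st (false, b.id) + (wo !b.f).val)) &&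
  (t.mC.testBit (Chi.cpt b.toHT b.qu (b.st (false, b.id) + (wo !b.f).val)) &&
  t.mA.testBit (Chi.cpt b.toHT b.qu (b.st (false, b.id) + (wi !b.f).val))))

/-- no centre outside of `I` -/
def inN (t : Chi) : Bool := (List.range (4 * b.k)).all fun i => !t.mC.testBit i || t.mI.testBit i

/-- all checks, words at the columns of `D` -/
def chkA (t : Chi) (jT : ℕ) (dT : Bool) : Bool :=
  t.chk b.toBD b.exN && (b.mSN t jT dT && (b.mDN t && b.inN t))

/-- all checks, words around the ring index `i0` -/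
def chkB (t : Chi) (jT : ℕ) (dT : Bool) (i0 : ℕ) : Bool :=
  t.chk b.toBD b.exN && (b.mSN t jT dT && (Chi.mchkD b.toRD t i0 && (avD b i0 && b.inN t)))

/-- **A table, words at the columns of `D`** -/
structure TabA (f n nO o1 nC : ℕ) : Prop where
  ex : ∃ (t : Chi) (jT : ℕ) (dT : Bool), t.Ok b.toBD b.t.exf ∧
    Chi.mchk b.toRD b.t t jT dT true = true ∧
    ((List.range (4 * b.k)).filter fun i => t.mC.testBit i && !t.mI.testBit i).length = 0 ∧
    t.f = f ∧ t.nI = n ∧ t.nA = n ∧ t.nO = nO ∧ t.o1 = o1 ∧ t.nC = nC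

/-- **A table, words around a ring index** -/
structure TabB (f n nO o1 nC : ℕ) : Prop where
  ex : ∃ (t : Chi) (jT : ℕ) (dT : Bool) (i0 : ℕ), t.Ok b.toBD b.t.exf ∧
    Chi.mchkS b.toRD b.t t jT dT = true ∧ Chi.mchkD b.toRD t i0 = true ∧ avD b i0 = true ∧
    ((List.range (4 * b.k)).filter fun i => t.mC.testBit i && !t.mI.testBit i).length = 0 ∧
    t.f = f ∧ t.nI = n ∧ t.nA = n ∧ t.nO = nO ∧ t.o1 = o1 ∧ t.nC = nC

variable {b}

theorem J_val : (b.t.J + 1).val = (b.Jn + 1) % (4 * b.k) := by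
  have : b.t.J + 1 = ((b.Jn + 1 : ℕ) : ZMod (4 * b.k)) := by
    push_cast
    rfl
  rw [this, ZMod.val_natCast]

theorem inN_spec {t : Chi} (h : b.inN t = true) :
    ((List.range (4 * b.k)).filter fun i => t.mC.testBit i && !t.mI.testBit i).length = 0 := by
  unfold inN at h
  rw [List.all_eq_true] at h
  rw [List.length_eq_zero_iff, List.filter_eq_nil_iff]
  intro i hi h1
  have h2 := h i hi
  rw [Bool.and_eq_true, Bool.not_eq_true'] at h1
  rw [h1.1, h1.2] at h2
  exact absurd h2 (by decide)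

theorem mS_of {t : Chi} {jT : ℕ} {dT : Bool} (h : b.mSN t jT dT = true) :
    Chi.mchkS b.toRD b.t t jT dT = true := by
  unfold Chi.mchkS
  rw [J_val]
  exact h

theorem tabA_of (hb : b.Chk) {t : Chi} {jT : ℕ} {dT : Bool} (h : b.chkA t jT dT = true)
    {f n nO o1 nC : ℕ} (e : t.f = f ∧ t.nI = n ∧ t.nA = n ∧ t.nO = nO ∧ t.o1 = o1 ∧ t.nC = nC) :
    b.TabA f n nO o1 nC := by
  unfold chkA at h
  simp only [Bool.and_eq_true] at h
  obtain ⟨h1, h2, h3, h4⟩ := h
  refine ⟨t, jT, dT, ?_, ?_, inN_spec h4, e⟩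
  · rw [exf_eq hb]
    exact Chi.ok_of_chk h1
  · unfold Chi.mchk
    have h5 := mS_of h2
    unfold Chi.mchkS at h5
    have e1 : b.t.rqu.val = b.qu := by
      show ((b.qu : ℕ) : ZMod b.k).val = b.qu
      rw [ZMod.val_natCast, Nat.mod_eq_of_lt hb.quk]
    rw [Bool.and_eq_true]
    refine ⟨h5, ?_⟩
    rw [e1]
    exact h3

theorem tabB_of (hb : b.Chk) {t : Chi} {jT : ℕ} {dT : Bool} {i0 : ℕ}
    (h : b.chkB t jT dT i0 = true)
    {f n nO o1 nC : ℕ} (e : t.f = f ∧ t.nI = n ∧ t.nA = n ∧ t.nO = nO ∧ t.o1 = o1 ∧ t.nC = nC) :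
    b.TabB f n nO o1 nC := by
  unfold chkB at h
  simp only [Bool.and_eq_true] at h
  obtain ⟨h1, h2, h3, h4, h5⟩ := h
  refine ⟨t, jT, dT, i0, ?_, mS_of h2, h3, h4, inN_spec h5, e⟩
  rw [exf_eq hb]
  exact Chi.ok_of_chk h1

/-- a row from its code -/
def rowOf (x : ℕ) : CRow where
  s := x % 4
  jF := x / 4 % 256
  dF := Nat.beq (x / 1024 % 2) 1
  jG := x / 2048 % 256
  dG := Nat.beq (x / 524288 % 2) 1
  o := Nat.beq (x / 1048576 % 2) 1
  g := x / 2097152 % 64

/-- a table from its codes -/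
def mkChi (mI mA mC gm r1 n nC f nO D : ℕ) : Chi where
  mI := mI
  mA := mA
  mC := mC
  gm := gm
  r1 := r1
  nI := n
  nA := n
  nC := nC
  f := f
  nO := nO
  row r := rowOf (D / 134217728 ^ r % 134217728)

end BX

end SqIns
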