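import Pool.Agent.Lib.SqIns.StraightG

/-!
# Splices of straight squares with hybrid letters (class 1 bases)

The family `F'` (`fam = true`) is straight.  Place `p q u v` at the ring indices `J, …, J + 3` with
the sheets `1, 1, 1, 0` (twist `-1` between `u` and `v`).  Moves: `q u` at the window `d` next to
infinity, layer `1`; `p u` at the window `b` with the neighbour `a`, layer `1`; `q v` at the window
`b` with the neighbour `C` of the family `F`, layer `0`.  The letter `q'` has the system `d`, in the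
layer `0` it is exchanged with a letter of `C` with the same label.
-/

open Finset Equiv

namespace SqIns

theorem ab_tf {P : Prop} (h : true = false) : P := Bool.noConfusion h

theorem ab_ft {P : Prop} (h : false = true) : P := Bool.noConfusion h

/-! ### Exchange of letters -/

theorem exists_swap_perm {A W : Type*} (f g : A → W) (hf : Function.Injective f)
    (hg : Function.Injective g) (hfg : ∀ s t, f s ≠ g t) :
    ∃ π : Perm W, (∀ s, π (f s) = g s) ∧ (∀ s, π (g s) = f s) ∧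
      ∀ w, (∀ s, w ≠ f s) → (∀ s, w ≠ g s) → π w = w := by
  classical
  let F : W → W := fun w => if h : ∃ s, f s = w then g h.choose
    else if h : ∃ s, g s = w then f h.choose else w
  have h1 : ∀ s, F (f s) = g s := by
    intro s
    have h : ∃ t, f t = f s := ⟨s, rfl⟩
    show (if h : ∃ t, f t = f s then g h.choose else _) = _
    rw [dif_pos h, hf h.choose_spec]
  have h2 : ∀ s, F (g s) = f s := by
    intro s
    have h0 : ¬ ∃ t, f t = g s := fun ⟨t, ht⟩ => hfg t s ht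
    have h : ∃ t, g t = g s := ⟨s, rfl⟩
    show (if h : ∃ t, f t = g s then g h.choose else
      if h : ∃ t, g t = g s then f h.choose else g s) = _
    rw [dif_neg h0, dif_pos h, hg h.choose_spec]
  have h3 : ∀ w, (∀ s, w ≠ f s) → (∀ s, w ≠ g s) → F w = w := by
    intro w hw hw'
    have e1 : ¬ ∃ t, f t = w := fun ⟨t, ht⟩ => hw t ht.symm
    have e2 : ¬ ∃ t, g t = w := fun ⟨t, ht⟩ => hw' t ht.symm
    show (if h : ∃ t, f t = w then g h.choose else
      if h : ∃ t, g t = w then f h.choose else w) = _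
    rw [dif_neg e1, dif_neg e2]
  have hF : Function.Involutive F := by
    intro w
    by_cases hw : ∃ s, f s = w
    · obtain ⟨s, rfl⟩ := hw
      rw [h1, h2]
    · by_cases hw' : ∃ s, g s = w
      · obtain ⟨s, rfl⟩ := hw'
        rw [h2, h1]
      · have e := h3 w (fun s hs => hw ⟨s, hs.symm⟩) (fun s hs => hw' ⟨s, hs.symm⟩)
        rw [e, e]
  exact ⟨hF.toPerm, h1, h2, h3⟩

namespace RD

variable {b : RD} {R : Type*} [CommRing R]

/-- outer column of a move in the window -/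
def wo (dir : Bool) : Fin 4 := if dir then 0 else 3

/-- inner column of a move in the window -/
def wi (dir : Bool) : Fin 4 := if dir then 2 else 1

section Pts

variable [Fintype R] [DecidableEq R] (hok : b.Ok) (h2 : IsUnit (2 : R)) (h3 : IsUnit (3 : R))
  (hg : ∀ y : R, ∃ j : ℕ, j • (1 : R) = y)

theorem row_gout (r : ZMod b.k) (dir : Bool) (i : WSys) :
    (b.row hok h2 h3 hg r).gout dir i = some (b.win r i (wo dir)) := by
  cases dir
  · exact row_wn hok h2 h3 hg r i 3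
  · exact row_wn hok h2 h3 hg r i 0

theorem row_ginn (r : ZMod b.k) (dir : Bool) (i : WSys) :
    (b.row hok h2 h3 hg r).ginn dir i = some (b.win r i (wi dir)) := by
  cases dir
  · exact row_wn hok h2 h3 hg r i 1
  · exact row_wn hok h2 h3 hg r i 2

/-- the window points with the label `s` are points of the straight square `s` -/
theorem fib_at (h : b.ROk) (fam : Bool) (μ : ℕ → R) (Φ : Option b.V → Perm R)
    (δ : Fin 4 → Fin 4 → R) (r : ZMod b.k)
    (hnat : ∀ i n : Fin 4, (b.c (b.st (fam, i) + n.val) : R) - (b.cs (fam, i) : R) =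
      μ (b.Jf (fam, i) n % 4))
    (hΦ : ∀ (i n : Fin 4) (y : R), Φ (some (b.win r (fam, i) n)) y =
      y + μ (b.Jf (fam, i) n % 4) * δ i n) (i n : Fin 4) (s l : R)
    (j : ZMod (4 * b.k)) (hj : (b.Jf (fam, i) n : ZMod (4 * b.k)) + b.e4 (b.gi * r) = j) (m : R)
    (hm : l + δ i n = m) :
    fib Φ ((b.row hok h2 h3 hg r).at' (fam, i) s l (some (b.win r (fam, i) n))) =
      emV b.V R (sp' b fam μ s j m) := by
  subst hj hm
  have h5 : sp' b fam μ s ((b.Jf (fam, i) n : ZMod (4 * b.k)) + b.e4 (b.gi * r)) (l + δ i n) =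
      (b.win r (fam, i) n, s + μ (b.Jf (fam, i) n % 4) * (l + δ i n)) := by
    unfold sp'
    rw [b.trk_e4]
    exact Prod.ext (h.win_eq hok r (fam, i) n).symm rfl
  rw [h5]
  show (some (b.win r (fam, i) n), Φ (some (b.win r (fam, i) n)) (s +
    ((b.row hok h2 h3 hg r).col (some (b.win r (fam, i) n)) - (b.cs (fam, i) : R)) * l)) =
    (some (b.win r (fam, i) n), _)
  rw [row_col, hΦ, hnat]
  congr 1
  ring

end Pts

/-! ### Class 1 data -/

/-- data of a class 1 scheme: windows `a`, `b`, `d` of `F'`, window `C` of `F`, directions, place,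
rows -/
structure C1 (b : RD) where
  ia : Fin 4
  ib : Fin 4
  id : Fin 4
  iC : Fin 4
  e : Bool
  f : Bool
  J : ZMod (4 * b.k)
  rqu : ZMod b.k
  rpu : ZMod b.k
  rqv : ZMod b.k

namespace C1

variable (t : C1 b)

/-- conditions for the windows -/
structure Ok : Prop where
  pu_o : (b.Jf (true, t.ib) (wo t.e) : ZMod (4 * b.k)) + b.e4 (b.gi * t.rpu) = t.J
  pu_i : (b.Jf (true, t.ib) (wi t.e) : ZMod (4 * b.k)) + b.e4 (b.gi * t.rpu) = t.J + 2
  qv_o : (b.Jf (true, t.ib) (wo !t.e) : ZMod (4 * b.k)) + b.e4 (b.gi * t.rqv) = t.J + 1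
  qv_i : (b.Jf (true, t.ib) (wi !t.e) : ZMod (4 * b.k)) + b.e4 (b.gi * t.rqv) = t.J + 3
  qu_o : (b.Jf (true, t.id) (wo t.f) : ZMod (4 * b.k)) + b.e4 (b.gi * t.rqu) = t.J + 2
  qu_i : (b.Jf (true, t.id) (wi t.f) : ZMod (4 * b.k)) + b.e4 (b.gi * t.rqu) = t.J + 1
  adjL : if t.e then b.st (true, t.ia) = b.st (true, t.ib) + 2 else
    b.st (true, t.ia) + 2 = b.st (true, t.ib)
  adjC : if t.e then b.st (false, t.iC) + 2 = b.st (true, t.ib) else
    b.st (false, t.iC) = b.st (true, t.ib) + 2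
  inf : if t.f then b.st (true, t.id) + 3 = 4 * b.k else b.st (true, t.id) = 1
  spd : b.st (true, t.id) + 3 ≠ b.sp
  sp0 : b.sp ≠ 0
  csab : b.cs (true, t.ia) = b.cs (true, t.ib)

/-- twist: `-1` between `u` and `v` -/
def w (j : ZMod (4 * b.k)) : R := if j = t.J + 2 then -1 else 0

theorem sum_w : ∑ j, t.w j = (-1 : R) := by
  unfold w
  rw [Finset.sum_ite_eq' univ (t.J + 2), if_pos (mem_univ _)]

theorem gen_w (hg : ∀ y : R, ∃ j : ℕ, j • (1 : R) = y) (y : R) :
    ∃ j : ℕ, j • (∑ i, t.w i) = y := by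
  obtain ⟨j, hj⟩ := hg (-y)
  refine ⟨j, ?_⟩
  rw [t.sum_w, smul_neg, hj, neg_neg]

/-- rows of the moves -/
def row (n : Fin 3) : ZMod b.k := match n with
  | 0 => t.rqu
  | 1 => t.rpu
  | 2 => t.rqv

variable {W : Type*} (lp lq lu le : R → W)

/-- the moves -/
def mv (s : R) (n : Fin 3) : GMv R W := match n with
  | 0 => ⟨t.f, true, 1, lq s, lq s⟩
  | 1 => ⟨t.e, false, 1, lu s, lp s⟩
  | 2 => ⟨!t.e, false, 0, lu s, le s⟩

/-- labels of the letters of the word number `s` -/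
structure LOk (σ : W → WSys) (κ : ZMod b.k → W → R) (s : R) : Prop where
  σp : σ (lp s) = (true, t.ia)
  σq : σ (lq s) = (true, t.id)
  σu : σ (lu s) = (true, t.ib)
  σe : σ (le s) = (false, t.iC)
  κp : κ t.rpu (lp s) = s
  κq : ∀ r, κ r (lq s) = s
  κu : κ t.rpu (lu s) = s
  κu' : κ t.rqv (lu s) = s
  κe : ∀ r, κ r (le s) = s

variable {t lp lq lu le}

section Moves

variable (hok : b.Ok) (h2 : IsUnit (2 : R)) (h3 : IsUnit (3 : R))
  (hg : ∀ y : R, ∃ j : ℕ, j • (1 : R) = y)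

theorem row_s2B (r : ZMod b.k) (i : WSys) : (b.row hok h2 h3 hg r).s
    ((b.row hok h2 h3 hg r).s ((b.row hok h2 h3 hg r).B i)) = b.pn r (b.st i + 3) := by
  show b.sq r (b.sq r (b.pn r (b.st i + 1))) = _
  rw [b.sq_pn, b.sq_pn]

theorem gok (ht : t.Ok) {σ : W → WSys} {κ : ZMod b.k → W → R} {s : R}
    (hl : t.LOk lp lq lu le σ κ s) (n : Fin 3) :
    (b.row hok h2 h3 hg (t.row n)).GOK σ (κ (t.row n)) (t.mv lp lq lu le s n) := by
  have hadjL := ht.adjL
  have hadjC := ht.adjC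
  have hinf := ht.inf
  have hk := b.k_pos
  fin_cases n
  · refine ⟨fun h => ab_tf h, fun _ h => ab_tf h, fun _ h => ab_tf h, ?_, ?_, ?_, ?_⟩
    · intro hf _ j
      have hf' : t.f = true := hf
      rw [hf', if_pos rfl] at hinf
      show b.pn t.rqu (b.st j + 1) ≠ (b.row hok h2 h3 hg t.rqu).s
        ((b.row hok h2 h3 hg t.rqu).s ((b.row hok h2 h3 hg t.rqu).B (σ (lq s))))
      rw [hl.σq, row_s2B]
      intro h
      have h1 := hok.st_lt j
      have := b.pn_inj _ (by omega) (by omega) h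
      omega
    · intro _ _
      show (if b.ix t.rqu ((b.row hok h2 h3 hg t.rqu).s ((b.row hok h2 h3 hg t.rqu).s
        ((b.row hok h2 h3 hg t.rqu).B (σ (lq s))))) = b.sp then (1 : R) else 0) = 0
      have h1 := hok.st_lt (true, t.id)
      rw [hl.σq, row_s2B, b.ix_pn _ (by omega), if_neg ht.spd]
    · intro hf _ j
      have hf' : t.f = false := hf
      rw [hf'] at hinf
      simp only [Bool.false_eq_true, if_false] at hinf
      show b.pn t.rqu (b.st j + 1) ≠ (b.row hok h2 h3 hg t.rqu).tL (σ (lq s))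
      rw [hl.σq]
      have h0 : (b.row hok h2 h3 hg t.rqu).tL (true, t.id) = b.pn t.rqu 0 := by
        show (b.sq t.rqu)⁻¹ ((b.sq t.rqu)⁻¹ (b.pn t.rqu (b.st (true, t.id) + 1))) = _
        rw [b.sq_inv_pn, hinf, b.sq_inv_pn]
      rw [h0]
      intro h
      have h1 := hok.st_lt j
      have := b.pn_inj _ (by omega) (by omega) h
      omega
    · intro hf _
      have hf' : t.f = false := hf
      rw [hf'] at hinf
      simp only [Bool.false_eq_true, if_false] at hinf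
      show (if b.ix t.rqu ((b.row hok h2 h3 hg t.rqu).tL (σ (lq s))) = b.sp then (1 : R)
        else 0) = 0
      rw [hl.σq]
      have h0 : (b.row hok h2 h3 hg t.rqu).tL (true, t.id) = b.pn t.rqu 0 := by
        show (b.sq t.rqu)⁻¹ ((b.sq t.rqu)⁻¹ (b.pn t.rqu (b.st (true, t.id) + 1))) = _
        rw [b.sq_inv_pn, hinf, b.sq_inv_pn]
      rw [h0, b.ix_pn _ (by omega), if_neg (Ne.symm ht.sp0)]
  · refine ⟨?_, ?_, ?_, fun _ h => ab_ft h, fun _ h => ab_ft h, fun _ h => ab_ft h,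
      fun _ h => ab_ft h⟩
    · intro _
      show κ t.rpu (lp s) - (b.cs (σ (lp s)) : R) * 1 = κ t.rpu (lu s) - (b.cs (σ (lu s)) : R) * 1
      rw [hl.σp, hl.σu, hl.κp, hl.κu, ht.csab]
    · intro he _
      have he' : t.e = true := he
      rw [he', if_pos rfl] at hadjL
      show (b.row hok h2 h3 hg t.rpu).s ((b.row hok h2 h3 hg t.rpu).s
        ((b.row hok h2 h3 hg t.rpu).B (σ (lu s)))) = b.pn t.rpu (b.st (σ (lp s)) + 1)
      rw [hl.σu, hl.σp, row_s2B, hadjL]
    · intro he _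
      have he' : t.e = false := he
      rw [he'] at hadjL
      simp only [Bool.false_eq_true, if_false] at hadjL
      show (b.row hok h2 h3 hg t.rpu).s ((b.row hok h2 h3 hg t.rpu).s
        ((b.row hok h2 h3 hg t.rpu).B (σ (lp s)))) = b.pn t.rpu (b.st (σ (lu s)) + 1)
      rw [hl.σu, hl.σp, row_s2B, ← hadjL]
  · refine ⟨?_, ?_, ?_, fun _ h => ab_ft h, fun _ h => ab_ft h, fun _ h => ab_ft h,
      fun _ h => ab_ft h⟩
    · intro _
      show κ t.rqv (le s) - (b.cs (σ (le s)) : R) * 0 = κ t.rqv (lu s) - (b.cs (σ (lu s)) : R) * 0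
      rw [hl.κe, hl.κu', mul_zero, mul_zero]
    · intro he _
      have he' : (!t.e) = true := he
      have he'' : t.e = false := by
        cases h : t.e
        · rfl
        · rw [h] at he'
          exact absurd he' (by decide)
      rw [he''] at hadjC
      simp only [Bool.false_eq_true, if_false] at hadjC
      show (b.row hok h2 h3 hg t.rqv).s ((b.row hok h2 h3 hg t.rqv).s
        ((b.row hok h2 h3 hg t.rqv).B (σ (lu s)))) = b.pn t.rqv (b.st (σ (le s)) + 1)
      rw [hl.σu, hl.σe, row_s2B, hadjC]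
    · intro he _
      have he' : (!t.e) = false := he
      have he'' : t.e = true := by
        cases h : t.e
        · rw [h] at he'
          exact absurd he' (by decide)
        · rfl
      rw [he'', if_pos rfl] at hadjC
      show (b.row hok h2 h3 hg t.rqv).s ((b.row hok h2 h3 hg t.rqv).s
        ((b.row hok h2 h3 hg t.rqv).B (σ (le s)))) = b.pn t.rqv (b.st (σ (lu s)) + 1)
      rw [hl.σu, hl.σe, row_s2B, ← hadjC]

end Moves

/-! ### The place and the words -/

section Place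

variable [Fintype R] [DecidableEq R] [Fintype W] [DecidableEq W]

/-- translations of the straight family with twist: the conditions for the rows of the moves -/
structure DOk (t : C1 b) (δ : ZMod b.k → Fin 4 → Fin 4 → R) : Prop where
  hδ : ∀ (r : ZMod b.k) (i : Fin 4) (e : Bool), δ r i (hi e) - δ r i (lo e) =
      b.dv t.w ((b.Jf (true, i) (lo e) : ZMod (4 * b.k)) + b.e4 (b.gi * r))
        ((b.Jf (true, i) (hi e) : ZMod (4 * b.k)) + b.e4 (b.gi * r))
  pu_o : δ t.rpu t.ib (wo t.e) = 0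
  pu_i : δ t.rpu t.ib (wi t.e) = 0
  qv_o : δ t.rqv t.ib (wo !t.e) = 1
  qv_i : δ t.rqv t.ib (wi !t.e) = 0
  d0 : ∀ r n, δ r t.id n = 0

variable (t)

/-- the place of the splice number `s` -/
def place (μ : ℕ → R) (lp lq lu : R → W) (yv : R → R) (s : R) : Place ((Option b.V × R) ⊕ W) :=
  ⟨.inl (emV b.V R (sp' b true μ s t.J 1)), .inl (emV b.V R (sp' b true μ s (t.J + 1) 1)),
    .inl (emV b.V R (sp' b true μ s (t.J + 2) 1)), .inl (emV b.V R (sp' b true μ s (t.J + 3) 0)),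
    .inr (lp s), .inr (lq s), .inr (lu s), .inl (none, yv s)⟩

variable {t}

theorem two_inl {V R W : Type*} (O : Perm (V × R)) (S : Perm (R ⊕ W)) (p : V × R) :
    two O S (.inl (emV V R p)) = .inl (emV V R (O p)) := by
  unfold two
  rw [Equiv.permCongr_apply]
  show join V R W (Sum.map O S (.inl p)) = _
  rfl

theorem two_inr {V R W : Type*} (O : Perm (V × R)) (S : Perm (R ⊕ W)) (w : W) :
    two O S (.inr w) = join V R W (.inr (S (.inr w))) := by
  unfold two
  rw [Equiv.permCongr_apply]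
  rfl

theorem sp_succ (h : b.ROk) (μ : ℕ → R) (hμ : ∀ c < 4, IsUnit (μ c)) (s : R)
    (j : ZMod (4 * b.k)) (l m : R) (hm : l + t.w j = m) :
    stO h true μ hμ t.w s (sp' b true μ s j l) = sp' b true μ s (j + 1) m := by
  rw [stO_apply, hm]

/-- the place is in the pair of cycles -/
theorem place_in (h : b.ROk) (hk : 3 ≤ b.k) (μ : ℕ → R) (hμ : ∀ c < 4, IsUnit (μ c))
    (yv : R → R) (s : R) (S : Perm (R ⊕ W)) (hpq : S (.inr (lp s)) = .inr (lq s))
    (hqu : S (.inr (lq s)) = .inr (lu s)) (huv : S (.inr (lu s)) = .inl (yv s)) :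
    (t.place μ lp lq lu yv s).In (two (stO h true μ hμ t.w s) S) := by
  have h1 := b.small_ne hk (n := 1) (by norm_num) (by norm_num)
  have h2 := b.small_ne hk (n := 2) (by norm_num) (by norm_num)
  push_cast at h1 h2
  have w0 : (1 : R) + t.w t.J = 1 := by
    unfold w
    rw [if_neg, add_zero]
    intro h
    exact h2 (by linear_combination -h)
  have w1 : (1 : R) + t.w (t.J + 1) = 1 := by
    unfold w
    rw [if_neg, add_zero]
    intro h
    exact h1 (by linear_combination -h)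
  have w2 : (1 : R) + t.w (t.J + 2) = 0 := by
    unfold w
    rw [if_pos rfl]
    ring
  refine ⟨?_, ?_, ?_, ?_, ?_, ?_⟩
  · show two _ S (.inl (emV b.V R _)) = .inl (emV b.V R _)
    rw [two_inl, sp_succ h μ hμ s _ _ 1 w0]
  · show two _ S (.inl (emV b.V R _)) = .inl (emV b.V R _)
    rw [two_inl, sp_succ h μ hμ s _ _ 1 w1, add_assoc, one_add_one_eq_two]
  · show two _ S (.inl (emV b.V R _)) = .inl (emV b.V R _)
    rw [two_inl, sp_succ h μ hμ s _ _ 0 w2, add_assoc, two_add_one_eq_three]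
  · show two _ S (.inr _) = .inr _
    rw [two_inr, hpq]
    rfl
  · show two _ S (.inr _) = .inr _
    rw [two_inr, hqu]
    rfl
  · show two _ S (.inr _) = .inl _
    rw [two_inr, huv]
    rfl

variable (hok : b.Ok) (h2 : IsUnit (2 : R)) (h3 : IsUnit (3 : R))
  (hg : ∀ y : R, ∃ j : ℕ, j • (1 : R) = y)

/-- **The three moves give the splice.** -/
theorem sum_Δ (h : b.ROk) (ht : t.Ok) (μ : ℕ → R) (Φ : ZMod b.k → Option b.V → Perm R)
    (δ : ZMod b.k → Fin 4 → Fin 4 → R) (hD : DOk t δ)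
    (hnat : ∀ i n : Fin 4, (b.c (b.st (true, i) + n.val) : R) - (b.cs (true, i) : R) =
      μ (b.Jf (true, i) n % 4))
    (hΦ : ∀ (r : ZMod b.k) (i n : Fin 4) (y : R), Φ r (some (b.win r (true, i) n)) y =
      y + μ (b.Jf (true, i) n % 4) * δ r i n)
    {σ : W → WSys} {κ : ZMod b.k → W → R} {s : R} (hl : t.LOk lp lq lu le σ κ s)
    (π : R → Perm W) (hπ0u : π 0 (lu s) = lu s) (hπ0e : π 0 (le s) = lq s) (hπ1 : π 1 = 1)
    (yv : R → R) (hyv : Φ t.rqu none (s + ((b.c 0 : R) - (b.cs (true, t.id) : R))) = yv s) :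
    (((b.row hok h2 h3 hg (t.row 0)).gmove σ (κ (t.row 0)) (t.mv lp lq lu le s 0)).map
        (Row.mvp (Φ (t.row 0)) (π (t.mv lp lq lu le s 0).l))).Δ +
      (((b.row hok h2 h3 hg (t.row 1)).gmove σ (κ (t.row 1)) (t.mv lp lq lu le s 1)).map
        (Row.mvp (Φ (t.row 1)) (π (t.mv lp lq lu le s 1).l))).Δ +
      (((b.row hok h2 h3 hg (t.row 2)).gmove σ (κ (t.row 2)) (t.mv lp lq lu le s 2)).map
        (Row.mvp (Φ (t.row 2)) (π (t.mv lp lq lu le s 2).l))).Δ = (t.place μ lp lq lu yv s).Γ := by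
  rw [Row.gmove_map_Δ, Row.gmove_map_Δ, Row.gmove_map_Δ, Place.Γ_eq3]
  have hinf := ht.inf
  have hk := b.k_pos
  -- `q u`
  have hcd : b.cs (true, t.id) = b.cs (true, t.id) := rfl
  have q1 : (b.row hok h2 h3 hg t.rqu).gO σ (κ t.rqu) (Φ t.rqu) ⟨t.f, true, 1, lq s, lq s⟩ =
      .inl (emV b.V R (sp' b true μ s (t.J + 2) 1)) := by
    unfold Row.gO
    simp only
    rw [hl.σq, hl.κq, row_gout]
    exact congrArg _ (fib_at hok h2 h3 hg h true μ (Φ t.rqu) (δ t.rqu) t.rqu hnat (hΦ t.rqu)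
      t.id _ s 1 _ ht.qu_o 1 (by rw [hD.d0, add_zero]))
  have q2 : (b.row hok h2 h3 hg t.rqu).gN σ (κ t.rqu) (Φ t.rqu) ⟨t.f, true, 1, lq s, lq s⟩ =
      .inl (emV b.V R (sp' b true μ s (t.J + 1) 1)) := by
    unfold Row.gN
    simp only
    rw [hl.σq, hl.κq, row_ginn]
    exact congrArg _ (fib_at hok h2 h3 hg h true μ (Φ t.rqu) (δ t.rqu) t.rqu hnat (hΦ t.rqu)
      t.id _ s 1 _ ht.qu_i 1 (by rw [hD.d0, add_zero]))
  have q3 : Row.mvp (Φ t.rqu) (π 1) ((b.row hok h2 h3 hg t.rqu).gy σ (κ t.rqu)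
      ⟨t.f, true, 1, lq s, lq s⟩) = .inl (none, yv s) := by
    have hgt : (b.row hok h2 h3 hg t.rqu).gt t.f (true, t.id) = none := by
      unfold Row.gt
      cases hf : t.f
      · rw [hf] at hinf
        simp only [Bool.false_eq_true, if_false] at hinf ⊢
        show (b.sq t.rqu)⁻¹ ((b.sq t.rqu)⁻¹ (b.pn t.rqu (b.st (true, t.id) + 1))) = _
        rw [b.sq_inv_pn, hinf, b.sq_inv_pn, b.pn_zero]
      · rw [hf, if_pos rfl] at hinf
        simp only [if_true]
        show b.sq t.rqu (b.sq t.rqu (b.sq t.rqu (b.pn t.rqu (b.st (true, t.id) + 1)))) = _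
        rw [b.sq_pn, b.sq_pn, b.sq_pn]
        have e1 : b.st (true, t.id) + 1 + 1 + 1 + 1 = 4 * b.k + 1 + 0 := by omega
        rw [e1, b.pn_top, b.pn_zero]
    unfold Row.gy
    simp only [if_true]
    rw [hl.σq, hl.κq, hgt]
    show Sum.inl (none, Φ t.rqu none (s + (b.slope R t.rqu none - (b.cs (true, t.id) : R)) * 1)) =
      _
    have e2 : b.slope R t.rqu none = (b.c 0 : R) := by
      rw [← b.pn_zero t.rqu, b.slope_pn _ (by omega)]
    rw [e2, mul_one, hyv]
  -- `p u`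
  have p1 : (b.row hok h2 h3 hg t.rpu).gO σ (κ t.rpu) (Φ t.rpu) ⟨t.e, false, 1, lu s, lp s⟩ =
      .inl (emV b.V R (sp' b true μ s t.J 1)) := by
    unfold Row.gO
    simp only
    rw [hl.σu, hl.κu, row_gout]
    exact congrArg _ (fib_at hok h2 h3 hg h true μ (Φ t.rpu) (δ t.rpu) t.rpu hnat (hΦ t.rpu)
      t.ib _ s 1 _ ht.pu_o 1 (by rw [hD.pu_o, add_zero]))
  have p2 : (b.row hok h2 h3 hg t.rpu).gN σ (κ t.rpu) (Φ t.rpu) ⟨t.e, false, 1, lu s, lp s⟩ =
      .inl (emV b.V R (sp' b true μ s (t.J + 2) 1)) := by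
    unfold Row.gN
    simp only
    rw [hl.σu, hl.κu, row_ginn]
    exact congrArg _ (fib_at hok h2 h3 hg h true μ (Φ t.rpu) (δ t.rpu) t.rpu hnat (hΦ t.rpu)
      t.ib _ s 1 _ ht.pu_i 1 (by rw [hD.pu_i, add_zero]))
  -- `q v`
  have v1 : (b.row hok h2 h3 hg t.rqv).gO σ (κ t.rqv) (Φ t.rqv) ⟨!t.e, false, 0, lu s, le s⟩ =
      .inl (emV b.V R (sp' b true μ s (t.J + 1) 1)) := by
    unfold Row.gO
    simp only
    rw [hl.σu, hl.κu', row_gout]
    exact congrArg _ (fib_at hok h2 h3 hg h true μ (Φ t.rqv) (δ t.rqv) t.rqv hnat (hΦ t.rqv)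
      t.ib _ s 0 _ ht.qv_o 1 (by rw [hD.qv_o, zero_add]))
  have v2 : (b.row hok h2 h3 hg t.rqv).gN σ (κ t.rqv) (Φ t.rqv) ⟨!t.e, false, 0, lu s, le s⟩ =
      .inl (emV b.V R (sp' b true μ s (t.J + 3) 0)) := by
    unfold Row.gN
    simp only
    rw [hl.σu, hl.κu', row_ginn]
    exact congrArg _ (fib_at hok h2 h3 hg h true μ (Φ t.rqv) (δ t.rqv) t.rqv hnat (hΦ t.rqv)
      t.ib _ s 0 _ ht.qv_i 0 (by rw [hD.qv_i, add_zero]))
  show T4 ((b.row hok h2 h3 hg t.rqu).gO σ (κ t.rqu) (Φ t.rqu) ⟨t.f, true, 1, lq s, lq s⟩)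
      ((b.row hok h2 h3 hg t.rqu).gN σ (κ t.rqu) (Φ t.rqu) ⟨t.f, true, 1, lq s, lq s⟩)
      (.inr (π 1 (lq s))) (Row.mvp (Φ t.rqu) (π 1) ((b.row hok h2 h3 hg t.rqu).gy σ (κ t.rqu)
        ⟨t.f, true, 1, lq s, lq s⟩)) +
    T4 ((b.row hok h2 h3 hg t.rpu).gO σ (κ t.rpu) (Φ t.rpu) ⟨t.e, false, 1, lu s, lp s⟩)
      ((b.row hok h2 h3 hg t.rpu).gN σ (κ t.rpu) (Φ t.rpu) ⟨t.e, false, 1, lu s, lp s⟩)
      (.inr (π 1 (lu s))) (.inr (π 1 (lp s))) +
    T4 ((b.row hok h2 h3 hg t.rqv).gO σ (κ t.rqv) (Φ t.rqv) ⟨!t.e, false, 0, lu s, le s⟩)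
      ((b.row hok h2 h3 hg t.rqv).gN σ (κ t.rqv) (Φ t.rqv) ⟨!t.e, false, 0, lu s, le s⟩)
      (.inr (π 0 (lu s))) (.inr (π 0 (le s))) = _
  rw [q1, q2, q3, p1, p2, v1, v2, hπ0u, hπ0e, hπ1]
  exact congrArg₂ _ (congrArg₂ _ (T4_comm _ _ _ _) rfl) rfl

end Place

end C1

end RD

end SqIns
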