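import Pool.Agent.Lib.SqIns.FWord
import Pool.Agent.Lib.SqIns.BaseK2

/-!
# The records of the words of the dense family
-/

open Finset Equiv

namespace SqIns

open Tw Fine

/-- places or words, digit levels of the groups, groups which serve the square `0` -/
structure PD where
  P : List (ℕ × Bool)
  G : List ℕ
  hd : List ℕ

/-- a word of the dense family: digits `m`, period `p`, sign, letters, classes at distance two,
potentials, letter of the seam; the supported positions of the outer column (direction of the pair,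
class of the lower column) with the directions of the places of the square `0`, without and with
fine digits; the places; the supported classes of the centres of the words; the words (for every
direction of the square `0`) -/
structure MW where
  m : ℕ
  p : ℕ
  ε : ℤ
  W : TWord
  C2 : List (List ℕ)
  F : List ℕ
  ns : ℕ
  sup : Bool → ℕ → Bool
  d0 : Bool → Bool → ℕ → Bool
  pd : Bool → Bool → ℕ → PD
  supw : Bool → ℕ → Bool
  pw : Bool → Bool → ℕ → PD

/-- the classes are `± C` at the even and odd columns -/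
def chkE (m p : ℕ) (ε : ℤ) (C2 : List (List ℕ)) : Bool :=
  (List.range 4).all fun c =>
    decide ((C2.getD 0 []).length ≤ (C2.getD (c % p) []).length) &&
    (C2.getD (c % p) []).all fun k =>
      (C2.getD 0 []).contains (((-1) ^ c * (ε ^ c * (k : ℤ))) % (m : ℤ)).toNat

namespace MW

variable (w : MW)

/-- the checks of the places -/
def chkPD (tw : Bool) (n : ℕ) : Bool :=
  [true, false].all fun up => (List.range 4).all fun L => !w.sup up L ||
    chkP w.m w.p w.ε w.W up L w.ns (w.pd tw up L).P (w.pd tw up L).G &&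
    RD.chkHd w.m w.p w.ε w.W up (w.d0 tw up L) L (w.pd tw up L).P (w.pd tw up L).G
      (w.pd tw up L).hd &&
    decide ((w.pd tw up L).hd.length = if tw then 3 else 1) &&
    decide ((w.pd tw up L).G.length ≤ n)

/-- the checks of the words -/
def chkPW (tw : Bool) (n : ℕ) : Bool :=
  [true, false].all fun d => (List.range 4).all fun L => !w.supw d L ||
    chkQ w.m w.p w.ε w.W L w.ns (w.pw tw d L).P (w.pw tw d L).G &&
    chkHq w.m w.p w.ε w.W d L (w.pw tw d L).P (w.pw tw d L).G (w.pw tw d L).hd &&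
    decide ((w.pw tw d L).hd.length = if tw then 3 else 1) &&
    decide ((w.pw tw d L).G.length ≤ n)

/-- the checks of a word: `n1`, `n3` numbers of groups without and with fine digits, `q1`, `q3`
numbers of centres of the words -/
structure Chk (n1 n3 q1 q3 : ℕ) : Prop where
  m0 : w.m ≠ 0
  p0 : w.p ≠ 0
  m2 : w.m % 2 = 1
  p4 : 4 % w.p = 0
  ε2 : w.ε * w.ε = 1
  T : chkT w.m w.p w.ε w.W w.C2 = true
  E : chkE w.m w.p w.ε w.C2 = true
  F : chkF (w.p * w.m) w.F = true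
  len : (w.C2.getD 0 []).length = (w.m + 1) / 2
  P1 : w.chkPD false n1 = true
  P3 : w.chkPD true n3 = true
  Q1 : w.chkPW false q1 = true
  Q3 : w.chkPW true q3 = true

/-- the classes of the even columns -/
def C (Q : ℕ) [NeZero Q] : Finset (ZMod w.m × ZMod Q) :=
  ((w.C2.getD 0 []).toFinset.image fun k : ℕ => (k : ZMod w.m)) ×ˢ univ

end MW

section Cls

variable {m p : ℕ} [NeZero m] [NeZero p] {ε : ℤ}

theorem clC_zero (C2 : List (List ℕ)) :
    clC m p ε C2 0 = (C2.getD 0 []).toFinset.image fun k : ℕ => (k : ZMod m) := by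
  unfold clC
  rw [Nat.zero_mod]
  refine image_congr fun k _ => ?_
  rw [pow_zero, one_mul]

theorem clC_pm (hε : ε * ε = 1) {W : TWord} {C2 : List (List ℕ)}
    (h : chkT m p ε W C2 = true) (hE : chkE m p ε C2 = true) {c : ℕ} (hc : c < 4) :
    clC m p ε C2 c = (clC m p ε C2 0).image fun y => (-1) ^ c * y := by
  simp only [chkE, Bool.and_eq_true, decide_eq_true_eq, List.all_eq_true, List.mem_range] at hE
  have h1 := hE c hc
  have e1 : ∀ y : ZMod m, (-1) ^ c * ((-1) ^ c * y) = y := by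
    intro y
    rw [← mul_assoc, ← mul_pow]
    norm_num
  refine eq_of_subset_of_card_le ?_ ?_
  · intro z hz
    unfold clC at hz
    obtain ⟨k, hk, rfl⟩ := mem_image.1 hz
    have h2 := h1.2 k (List.mem_toFinset.1 hk)
    rw [List.contains_iff_mem] at h2
    rw [clC_zero]
    refine mem_image.2 ⟨_, mem_image.2 ⟨_, List.mem_toFinset.2 h2, rfl⟩, ?_⟩
    have hm : 0 < (m : ℤ) := by
      have := Nat.pos_of_ne_zero (NeZero.ne m)
      exact_mod_cast this
    have e2 : ((((((-1) ^ c * (ε ^ c * (k : ℤ))) % (m : ℤ)).toNat : ℕ)) : ZMod m) =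
        (-1) ^ c * ((ε : ZMod m) ^ c * (k : ZMod m)) := by
      have e3 : ((((((-1) ^ c * (ε ^ c * (k : ℤ))) % (m : ℤ)).toNat : ℕ)) : ZMod m) =
          (((((-1) ^ c * (ε ^ c * (k : ℤ))) % (m : ℤ)).toNat : ℤ) : ZMod m) := by
        push_cast
        rfl
      rw [e3, Int.toNat_of_nonneg (Int.emod_nonneg _ hm.ne')]
      have e4 := ZMod.intCast_mod ((-1) ^ c * (ε ^ c * (k : ℤ))) m
      rw [e4]
      push_cast
      rfl
    rw [e2, e1]
  · rw [card_image_of_injective _ (fun x y hxy => by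
      have := congrArg ((-1) ^ c * ·) hxy
      simp only [e1] at this
      exact this), card_clC hε h, card_clC hε h, Nat.zero_mod]
    exact h1.1

end Cls

namespace MW

variable {w : MW} {n1 n3 q1 q3 : ℕ}

theorem card_C (hw : w.Chk n1 n3 q1 q3) (Q : ℕ) [NeZero Q] :
    (w.C Q).card = (w.m + 1) / 2 * Q := by
  have : NeZero w.m := ⟨hw.m0⟩
  have : NeZero w.p := ⟨hw.p0⟩
  unfold C
  rw [card_product, card_univ, ZMod.card, ← clC_zero (p := w.p) (ε := w.ε), card_clC hw.ε2 hw.T,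
    Nat.zero_mod, hw.len]

/-- **The squares of the dense family over a base with colours**: places for the splices and words
with centres over the column number `i0`. -/
theorem side (hw : w.Chk n1 n3 q1 q3) {b : BX} (h : b.Chk)
    (hs : w.sup (b.upw b.id b.f) (b.L b.id b.f % 4) = true) (i0 : ZMod (4 * b.k))
    (tw : Bool) (hi0 : w.supw (w.d0 tw (b.upw b.id b.f) (b.L b.id b.f % 4)) (b.trk i0) = true)
    {Q : ℕ} [NeZero Q]
    (h2 : IsUnit (2 : ZMod Q)) (h3 : IsUnit (3 : ZMod Q))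
    (hT : TowerOk (if tw then 3 else 1) Q) :
    ∃ (TF : Type) (_ : Fintype TF) (_ : DecidableEq TF)
      (OF : TF → Perm (b.V × (ZMod w.m × ZMod Q))) (g : TF → ℕ)
      (yq : ZMod b.k → ℕ → ZMod w.m × ZMod Q)
      (cen : Finset (b.V × (ZMod w.m × ZMod Q))),
      4 * Fintype.card TF + 1 = 4 * (w.m * Q) + Q ∧ (∀ j, Closed (OF j)) ∧
      (haveI : NeZero w.m := ⟨hw.m0⟩
        ∑ j, E (OF j) = vertAll b.V (ZMod w.m × ZMod Q) +
        push (fib (BX.θ h (ZMod w.m × ZMod Q))) (RD.stripE false (b.clC (w.C Q)))) ∧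
      (∀ j, g j < if tw then n3 else n1) ∧
      (∀ j r, ∃ p u v : ZMod w.m × ZMod Q,
        OF j (RD.C1.oF b.t r, p) = (RD.C1.oF b.t r, yq r (g j)) ∧
        OF j (RD.C1.oF b.t r, yq r (g j)) = (RD.C1.iF b.t r, u) ∧
        OF j (RD.C1.iF b.t r, u) = (RD.C1.iF b.t r, v)) ∧
      (cen.card ≤ if tw then q3 else q1) ∧ (∀ q ∈ cen, q.1 = b.rgF false i0) ∧
      ∀ j, ∃ v : Fin 4 → b.V × (ZMod w.m × ZMod Q), (v 0).1 = b.rgF false i0 ∧ v 1 ∈ cen ∧
        b.nbr i0 (v 2).1 ∧ b.nbr i0 (v 3).1 ∧ (Fwd (OF j) v ∨ Fwd (OF j)⁻¹ v) := by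
  classical
  have : NeZero w.m := ⟨hw.m0⟩
  have : NeZero w.p := ⟨hw.p0⟩
  have hk : 3 ≤ b.k := b.one_lt_k h.ok
  obtain ⟨p', hp'⟩ : w.p ∣ 4 := Nat.dvd_of_mod_eq_zero hw.p4
  have hpB : w.p * (p' * b.k) = 4 * b.k := by rw [hp']; ring
  have : NeZero (p' * b.k) := ⟨by
    intro h0
    rw [h0, mul_zero] at hpB
    omega⟩
  have hN : w.ε ^ (w.p * (p' * b.k)) = 1 := by
    rw [hpB, pow_mul]
    have h4 : w.ε ^ 4 = 1 := by
      have : w.ε ^ 4 = (w.ε * w.ε) * (w.ε * w.ε) := by ring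
      rw [this, hw.ε2, one_mul]
    rw [h4, one_pow]
  have hpd : ∀ tw n, w.chkPD tw n = true → ∀ up L, w.sup up (L % 4) = true →
      chkP w.m w.p w.ε w.W up L w.ns (w.pd tw up (L % 4)).P (w.pd tw up (L % 4)).G = true ∧
      RD.chkHd w.m w.p w.ε w.W up (w.d0 tw up (L % 4)) L (w.pd tw up (L % 4)).P
        (w.pd tw up (L % 4)).G (w.pd tw up (L % 4)).hd = true ∧
      (w.pd tw up (L % 4)).hd.length = (if tw then 3 else 1) ∧
      (w.pd tw up (L % 4)).G.length ≤ n := by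
    intro tw n hn up L hsup
    simp only [chkPD, List.all_eq_true, List.mem_range] at hn
    have h1 := hn up (by cases up <;> simp) (L % 4) (Nat.mod_lt _ (by norm_num))
    rw [hsup, Bool.not_true, Bool.false_or] at h1
    simp only [Bool.and_eq_true, decide_eq_true_eq] at h1
    obtain ⟨⟨⟨a1, a2⟩, a3⟩, a4⟩ := h1
    rw [RD.chkP_mod ⟨p', hp'⟩ hw.ε2] at a1
    rw [RD.chkHd_mod hw.ε2] at a2
    exact ⟨a1, a2, a3, a4⟩
  have hpw : ∀ tw n, w.chkPW tw n = true → ∀ d L, L < 4 → w.supw d L = true →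
      chkQ w.m w.p w.ε w.W L w.ns (w.pw tw d L).P (w.pw tw d L).G = true ∧
      chkHq w.m w.p w.ε w.W d L (w.pw tw d L).P (w.pw tw d L).G (w.pw tw d L).hd = true ∧
      (w.pw tw d L).hd.length = (if tw then 3 else 1) ∧ (w.pw tw d L).G.length ≤ n := by
    intro tw n hn d L hL hsup
    simp only [chkPW, List.all_eq_true, List.mem_range] at hn
    have h1 := hn d (by cases d <;> simp) L hL
    rw [hsup, Bool.not_true, Bool.false_or] at h1
    simp only [Bool.and_eq_true, decide_eq_true_eq] at h1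
    obtain ⟨⟨⟨a1, a2⟩, a3⟩, a4⟩ := h1
    exact ⟨a1, a2, a3, a4⟩
  obtain ⟨a1, a2, a3, a4⟩ := hpd tw (if tw then n3 else n1) (by
    cases tw
    · exact hw.P1
    · exact hw.P3) (b.upw b.id b.f) (b.L b.id b.f) hs
  obtain ⟨e1, e2, e3, e4⟩ := hpw tw (if tw then q3 else q1) (by
    cases tw
    · exact hw.Q1
    · exact hw.Q3) (w.d0 tw (b.upw b.id b.f) (b.L b.id b.f % 4)) (b.trk i0)
      (Nat.mod_lt _ (by norm_num)) hi0
  obtain ⟨TF, i1, i2, OF, Dg, g, cen, c1, c2, c3, c4, c5, c6, c7⟩ := RD.exists_side2 h.rok hk hpB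
    ⟨p', hp'⟩ hw.m2 hw.ε2 hN hw.T hw.F (b.upw b.id b.f) _ (b.L b.id b.f) _ _ _ _ a1 a2
    (b.trk i0) _ _ _ e1 e2 a3 e3 h2 h3 hT (BX.θ h (ZMod w.m × ZMod Q)) i0 rfl
  have hd1 : b.d b.id b.f = 1 := (h.ty _ _).trans h.tD
  have hwin := fun r => RD.win_oc h.rok h.ok (by omega) b.id b.f hd1 r
  have eo : ∀ r, RD.C1.oF b.t r = b.oc (b.upw b.id b.f) (b.L b.id b.f) r := by
    intro r
    rw [← (hwin r).1]
    show b.win r (false, b.id) (RD.wo !b.f) = _
    cases b.f <;> rfl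
  have ei : ∀ r, RD.C1.iF b.t r = b.icn (b.upw b.id b.f) (b.L b.id b.f) r := by
    intro r
    rw [← (hwin r).2]
    show b.win r (false, b.id) (RD.wi !b.f) = _
    cases b.f <;> rfl
  refine ⟨TF, i1, i2, OF, fun j => (g j).val, fun r n => BX.θ h _ (RD.C1.oF b.t r)
    (if hn : n < (w.pd tw (b.upw b.id b.f) (b.L b.id b.f % 4)).G.length then
      ((((w.pd tw (b.upw b.id b.f) (b.L b.id b.f % 4)).G.get ⟨n, hn⟩ : ℕ) : ZMod w.m),
        Dg ⟨n, hn⟩) else 0), cen, c1, c2, ?_, fun j => lt_of_lt_of_le (g j).isLt a4, ?_,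
    c5.trans e4, c6, c7⟩
  · rw [c3]
    congr 3
    funext j
    rw [clF_eq ⟨p', hp'⟩ hw.ε2,
      clC_pm hw.ε2 hw.T hw.E (c := b.trk j) (Nat.mod_lt _ (by norm_num))]
    unfold BX.clC C
    rw [clC_zero]
    have e1 : ((-1 : ZMod w.m)) ^ b.trk j = if j.val % 2 = 0 then 1 else -1 := by
      unfold RD.trk
      have e2 : j.val % 4 % 2 = j.val % 2 := by omega
      by_cases hj : j.val % 2 = 0
      · rw [if_pos hj]
        exact Even.neg_one_pow (Nat.even_iff.2 (by omega))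
      · rw [if_neg hj]
        exact Odd.neg_one_pow (Nat.odd_iff.2 (by omega))
    rw [e1]
    ext ⟨x, y⟩
    rw [mem_product, mem_image, mem_image]
    constructor
    · rintro ⟨⟨z, hz, hzx⟩, -⟩
      refine ⟨(z, (if j.val % 2 = 0 then 1 else -1) * y), mem_product.2 ⟨hz, mem_univ _⟩, ?_⟩
      split_ifs with hj
      · rw [if_pos hj] at hzx
        refine Prod.ext hzx ?_
        show (1 : ZMod Q) * (1 * y) = y
        ring
      · rw [if_neg hj] at hzx
        refine Prod.ext hzx ?_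
        show (-1 : ZMod Q) * (-1 * y) = y
        ring
    · rintro ⟨⟨z, w'⟩, hz, hzw⟩
      refine ⟨⟨z, (mem_product.1 hz).1, ?_⟩, mem_univ _⟩
      have h1 := (Prod.ext_iff.1 hzw).1
      split_ifs at h1 ⊢ with hj
      · exact h1
      · exact h1
  · intro j r
    obtain ⟨y0, y2, y3, b0, b1, b2⟩ := c4 j r
    rw [← eo] at b0 b1
    rw [← ei] at b1 b2
    have e5 : (if hn : (g j).val < (w.pd tw (b.upw b.id b.f) (b.L b.id b.f % 4)).G.length then
        ((((w.pd tw (b.upw b.id b.f) (b.L b.id b.f % 4)).G.get ⟨(g j).val, hn⟩ : ℕ) : ZMod w.m),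
          Dg ⟨(g j).val, hn⟩) else (0 : ZMod w.m × ZMod Q)) =
        ((((w.pd tw (b.upw b.id b.f) (b.L b.id b.f % 4)).G.get (g j) : ℕ) : ZMod w.m),
          Dg (g j)) := dif_pos (g j).isLt
    refine ⟨y0, y2, y3, ?_, ?_, ?_⟩
    · show OF j _ = (RD.C1.oF b.t r, BX.θ h _ (RD.C1.oF b.t r) (dite _ _ _))
      rw [e5]
      exact b0
    · show OF j (RD.C1.oF b.t r, BX.θ h _ (RD.C1.oF b.t r) (dite _ _ _)) = _
      rw [e5]
      exact b1
    · exact b2

/-- the places only (no condition for the words) -/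
theorem sideA (hw : w.Chk n1 n3 q1 q3) {b : BX} (h : b.Chk)
    (hs : w.sup (b.upw b.id b.f) (b.L b.id b.f % 4) = true) (tw : Bool) {Q : ℕ} [NeZero Q]
    (h2 : IsUnit (2 : ZMod Q)) (h3 : IsUnit (3 : ZMod Q))
    (hT : TowerOk (if tw then 3 else 1) Q) :
    ∃ (TF : Type) (_ : Fintype TF) (_ : DecidableEq TF)
      (OF : TF → Perm (b.V × (ZMod w.m × ZMod Q))) (g : TF → ℕ)
      (yq : ZMod b.k → ℕ → ZMod w.m × ZMod Q),
      4 * Fintype.card TF + 1 = 4 * (w.m * Q) + Q ∧ (∀ j, Closed (OF j)) ∧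
      (haveI : NeZero w.m := ⟨hw.m0⟩
        ∑ j, E (OF j) = vertAll b.V (ZMod w.m × ZMod Q) +
        push (fib (BX.θ h (ZMod w.m × ZMod Q))) (RD.stripE false (b.clC (w.C Q)))) ∧
      (∀ j, g j < if tw then n3 else n1) ∧
      ∀ j r, ∃ p u v : ZMod w.m × ZMod Q,
        OF j (RD.C1.oF b.t r, p) = (RD.C1.oF b.t r, yq r (g j)) ∧
        OF j (RD.C1.oF b.t r, yq r (g j)) = (RD.C1.iF b.t r, u) ∧
        OF j (RD.C1.iF b.t r, u) = (RD.C1.iF b.t r, v) := by
  classical
  have : NeZero w.m := ⟨hw.m0⟩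
  have : NeZero w.p := ⟨hw.p0⟩
  have hk : 3 ≤ b.k := b.one_lt_k h.ok
  obtain ⟨p', hp'⟩ : w.p ∣ 4 := Nat.dvd_of_mod_eq_zero hw.p4
  have hpB : w.p * (p' * b.k) = 4 * b.k := by rw [hp']; ring
  have : NeZero (p' * b.k) := ⟨by
    intro h0
    rw [h0, mul_zero] at hpB
    omega⟩
  have hN : w.ε ^ (w.p * (p' * b.k)) = 1 := by
    rw [hpB, pow_mul]
    have h4 : w.ε ^ 4 = 1 := by
      have : w.ε ^ 4 = (w.ε * w.ε) * (w.ε * w.ε) := by ring
      rw [this, hw.ε2, one_mul]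
    rw [h4, one_pow]
  have hpd : ∀ tw n, w.chkPD tw n = true → ∀ up L, w.sup up (L % 4) = true →
      chkP w.m w.p w.ε w.W up L w.ns (w.pd tw up (L % 4)).P (w.pd tw up (L % 4)).G = true ∧
      RD.chkHd w.m w.p w.ε w.W up (w.d0 tw up (L % 4)) L (w.pd tw up (L % 4)).P
        (w.pd tw up (L % 4)).G (w.pd tw up (L % 4)).hd = true ∧
      (w.pd tw up (L % 4)).hd.length = (if tw then 3 else 1) ∧
      (w.pd tw up (L % 4)).G.length ≤ n := by
    intro tw n hn up L hsup
    simp only [chkPD, List.all_eq_true, List.mem_range] at hn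
    have h1 := hn up (by cases up <;> simp) (L % 4) (Nat.mod_lt _ (by norm_num))
    rw [hsup, Bool.not_true, Bool.false_or] at h1
    simp only [Bool.and_eq_true, decide_eq_true_eq] at h1
    obtain ⟨⟨⟨a1, a2⟩, a3⟩, a4⟩ := h1
    rw [RD.chkP_mod ⟨p', hp'⟩ hw.ε2] at a1
    rw [RD.chkHd_mod hw.ε2] at a2
    exact ⟨a1, a2, a3, a4⟩
  obtain ⟨a1, a2, a3, a4⟩ := hpd tw (if tw then n3 else n1) (by
    cases tw
    · exact hw.P1
    · exact hw.P3) (b.upw b.id b.f) (b.L b.id b.f) hs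
  rw [← a3] at hT
  obtain ⟨TF, i1, i2, OF, Dg, g, c1, c2, c3, c4⟩ := RD.exists_side h.rok hk hpB ⟨p', hp'⟩ hw.m2
    hw.ε2 hN hw.T hw.F (b.upw b.id b.f) _ (b.L b.id b.f) _ _ _ _ a1 a2 h2 h3 hT
    (BX.θ h (ZMod w.m × ZMod Q))
  have hd1 : b.d b.id b.f = 1 := (h.ty _ _).trans h.tD
  have hwin := fun r => RD.win_oc h.rok h.ok (by omega) b.id b.f hd1 r
  have eo : ∀ r, RD.C1.oF b.t r = b.oc (b.upw b.id b.f) (b.L b.id b.f) r := by
    intro r
    rw [← (hwin r).1]
    show b.win r (false, b.id) (RD.wo !b.f) = _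
    cases b.f <;> rfl
  have ei : ∀ r, RD.C1.iF b.t r = b.icn (b.upw b.id b.f) (b.L b.id b.f) r := by
    intro r
    rw [← (hwin r).2]
    show b.win r (false, b.id) (RD.wi !b.f) = _
    cases b.f <;> rfl
  refine ⟨TF, i1, i2, OF, fun j => (g j).val, fun r n => BX.θ h _ (RD.C1.oF b.t r)
    (if hn : n < (w.pd tw (b.upw b.id b.f) (b.L b.id b.f % 4)).G.length then
      ((((w.pd tw (b.upw b.id b.f) (b.L b.id b.f % 4)).G.get ⟨n, hn⟩ : ℕ) : ZMod w.m),
        Dg ⟨n, hn⟩) else 0), c1, c2, ?_, fun j => lt_of_lt_of_le (g j).isLt a4, ?_⟩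
  · rw [c3]
    congr 3
    funext j
    rw [clF_eq ⟨p', hp'⟩ hw.ε2,
      clC_pm hw.ε2 hw.T hw.E (c := b.trk j) (Nat.mod_lt _ (by norm_num))]
    unfold BX.clC C
    rw [clC_zero]
    have e1 : ((-1 : ZMod w.m)) ^ b.trk j = if j.val % 2 = 0 then 1 else -1 := by
      unfold RD.trk
      have e2 : j.val % 4 % 2 = j.val % 2 := by omega
      by_cases hj : j.val % 2 = 0
      · rw [if_pos hj]
        exact Even.neg_one_pow (Nat.even_iff.2 (by omega))
      · rw [if_neg hj]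
        exact Odd.neg_one_pow (Nat.odd_iff.2 (by omega))
    rw [e1]
    ext ⟨x, y⟩
    rw [mem_product, mem_image, mem_image]
    constructor
    · rintro ⟨⟨z, hz, hzx⟩, -⟩
      refine ⟨(z, (if j.val % 2 = 0 then 1 else -1) * y), mem_product.2 ⟨hz, mem_univ _⟩, ?_⟩
      split_ifs with hj
      · rw [if_pos hj] at hzx
        refine Prod.ext hzx ?_
        show (1 : ZMod Q) * (1 * y) = y
        ring
      · rw [if_neg hj] at hzx
        refine Prod.ext hzx ?_
        show (-1 : ZMod Q) * (-1 * y) = y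
        ring
    · rintro ⟨⟨z, w'⟩, hz, hzw⟩
      refine ⟨⟨z, (mem_product.1 hz).1, ?_⟩, mem_univ _⟩
      have h1 := (Prod.ext_iff.1 hzw).1
      split_ifs at h1 ⊢ with hj
      · exact h1
      · exact h1
  · intro j r
    obtain ⟨y0, y2, y3, b0, b1, b2⟩ := c4 j r
    rw [← eo] at b0 b1
    rw [← ei] at b1 b2
    have e5 : (if hn : (g j).val < (w.pd tw (b.upw b.id b.f) (b.L b.id b.f % 4)).G.length then
        ((((w.pd tw (b.upw b.id b.f) (b.L b.id b.f % 4)).G.get ⟨(g j).val, hn⟩ : ℕ) : ZMod w.m),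
          Dg ⟨(g j).val, hn⟩) else (0 : ZMod w.m × ZMod Q)) =
        ((((w.pd tw (b.upw b.id b.f) (b.L b.id b.f % 4)).G.get (g j) : ℕ) : ZMod w.m),
          Dg (g j)) := dif_pos (g j).isLt
    refine ⟨y0, y2, y3, ?_, ?_, ?_⟩
    · show OF j _ = (RD.C1.oF b.t r, BX.θ h _ (RD.C1.oF b.t r) (dite _ _ _))
      rw [e5]
      exact b0
    · show OF j (RD.C1.oF b.t r, BX.θ h _ (RD.C1.oF b.t r) (dite _ _ _)) = _
      rw [e5]
      exact b1
    · exact b2

end MW

end SqIns
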