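import Pool.Agent.Lib.SqIns.BaseF
import Pool.Agent.Lib.SqIns.MWord
import Pool.Agent.Lib.SqIns.Letters
import Pool.Agent.Lib.SqIns.Chi3
import Pool.Agent.Lib.SqIns.NWCorner

/-!
# The general step
-/

open Finset Equiv

namespace SqIns

/-! ### The ring `ZMod m × ZMod Q` -/

section Ring

variable {m Q : ℕ}

theorem prod_gen [NeZero m] [NeZero Q] (h : Nat.Coprime m Q) (y : ZMod m × ZMod Q) :
    ∃ j : ℕ, j • (1 : ZMod m × ZMod Q) = y := by
  have : NeZero (m * Q) := ⟨mul_ne_zero (NeZero.ne m) (NeZero.ne Q)⟩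
  refine ⟨((ZMod.chineseRemainder h).symm y).val, ?_⟩
  rw [nsmul_one]
  have h1 : (((((ZMod.chineseRemainder h).symm y).val : ℕ)) : ZMod (m * Q)) =
      (ZMod.chineseRemainder h).symm y := ZMod.natCast_zmod_val _
  have h2 := congrArg (ZMod.chineseRemainder h) h1
  rw [RingEquiv.apply_symm_apply, map_natCast] at h2
  exact h2

theorem prod_unit (a : ℕ) (h1 : Nat.Coprime a m) (h2 : Nat.Coprime a Q) :
    IsUnit ((a : ℕ) : ZMod m × ZMod Q) := by
  rw [Prod.isUnit_iff]
  exact ⟨(ZMod.isUnit_iff_coprime a m).2 h1, (ZMod.isUnit_iff_coprime a Q).2 h2⟩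

end Ring

/-! ### Rows of the gadgets -/

/-- the rows are determined by the groups and the centres -/
theorem exists_rows {TF R : Type*} [Fintype TF] [DecidableEq R] {k nF G s : ℕ} [NeZero k]
    (hcard : Fintype.card TF = nF) (g : TF → ℕ) (hg : ∀ j, g j < G) (C : Finset R)
    (hC : C.card ≤ s) (c : Fin nF → R) (hc : ∀ j, c j ∈ C) (hk : G + s ≤ k ∨ nF + 1 ≤ k)
    (r0 : ZMod k) :
    ∃ (e : TF ≃ Fin nF) (rF : TF → ZMod k), (∀ j, rF j ≠ r0) ∧
      ∀ j j', rF j = rF j' → g j = g j' ∧ c (e j) = c (e j') := by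
  classical
  have hne : ∀ n : ℕ, 1 + n < k → r0 + ((1 + n : ℕ) : ZMod k) ≠ r0 := by
    intro n hn h
    have h1 : ((1 + n : ℕ) : ZMod k) = ((0 : ℕ) : ZMod k) := by
      rw [Nat.cast_zero]
      exact add_eq_left.1 h
    rw [ZMod.natCast_eq_natCast_iff', Nat.zero_mod, Nat.mod_eq_of_lt hn] at h1
    omega
  have hin : ∀ n n' : ℕ, 1 + n < k → 1 + n' < k →
      r0 + ((1 + n : ℕ) : ZMod k) = r0 + ((1 + n' : ℕ) : ZMod k) → n = n' := by
    intro n n' hn hn' h
    have h1 := add_left_cancel h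
    rw [ZMod.natCast_eq_natCast_iff', Nat.mod_eq_of_lt hn, Nat.mod_eq_of_lt hn'] at h1
    omega
  rcases hk with hk | hk
  · let x : Fin nF → ℕ := fun j => (C.equivFin ⟨c j, hc j⟩).val
    have hx : ∀ j, x j < s := fun j => lt_of_lt_of_le (C.equivFin ⟨c j, hc j⟩).isLt hC
    have hxc : ∀ j j', x j = x j' → c j = c j' := by
      intro j j' h
      have h1 := C.equivFin.injective (Fin.ext h)
      exact congrArg Subtype.val h1
    obtain ⟨e, he⟩ := exists_staircase (by rw [hcard, Fintype.card_fin]) g x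
    have hlt : ∀ j, 1 + (g j + x (e j)) < k := by
      intro j
      have h2 := hg j
      have h3 := hx (e j)
      omega
    refine ⟨e, fun j => r0 + ((1 + (g j + x (e j)) : ℕ) : ZMod k), fun j => hne _ (hlt j), ?_⟩
    intro j j' h
    have h6 := he j j' (hin _ _ (hlt j) (hlt j') h)
    exact ⟨h6.1, hxc _ _ h6.2⟩
  · let e : TF ≃ Fin nF := Fintype.equivFinOfCardEq hcard
    have hlt : ∀ j, 1 + (e j).val < k := by
      intro j
      have := (e j).isLt
      omega
    refine ⟨e, fun j => r0 + ((1 + (e j).val : ℕ) : ZMod k), fun j => hne _ (hlt j), ?_⟩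
    intro j j' h
    have h6 := e.injective (Fin.ext (hin _ _ (hlt j) (hlt j') h))
    rw [h6]
    exact ⟨rfl, rfl⟩

/-! ### Sizes of the systems -/

namespace BX

open RD

variable {b : BX}

/-- sizes of the systems -/
def szs (b : BX) (M c a : ℕ) (i : WSys) : ℕ := if i.1 then a else if b.d i.2 false = 1 then M else c

theorem four_ne {x1 x2 x3 x4 : Fin 4} (h1 : x1 ≠ x2) (h2 : x1 ≠ x3) (h3 : x1 ≠ x4) (h4 : x2 ≠ x3)
    (h5 : x2 ≠ x4) (h6 : x3 ≠ x4) (f : Fin 4 → ℕ) : ∑ i, f i = f x1 + f x2 + f x3 + f x4 := by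
  have e : ({x1, x2, x3, x4} : Finset (Fin 4)) = univ := by
    revert h1 h2 h3 h4 h5 h6
    revert x1 x2 x3 x4
    decide
  rw [← e, sum_insert (by simp [h1, h2, h3]), sum_insert (by simp [h4, h5]),
    sum_insert (by simp [h6]), sum_singleton]
  ring

theorem sum_szs (h : b.Chk) (hf : b.fn.Ok b.id) (M c a : ℕ) :
    ∑ i, b.szs M c a i = 2 * M + 2 * c + 4 * a := by
  have hid := id_ne h hf
  have hiC := iC_ne h hf
  have hab : b.ia ≠ b.ib := hf.AB
  have hA : b.d b.ia false ≠ 1 := by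
    have := hf.wA.d2 false
    intro h1
    rw [show b.fn.iA = b.ia from rfl, h1] at this
    omega
  have hB : b.d b.ib false ≠ 1 := by
    have := hf.wB.d2 false
    intro h1
    rw [show b.fn.iB = b.ib from rfl, h1] at this
    omega
  have e1 : ∑ i, b.szs M c a i = ∑ n : Fin 4, b.szs M c a (true, n) +
      ∑ n : Fin 4, b.szs M c a (false, n) := by
    rw [Fintype.sum_prod_type, Fintype.sum_bool]
  have e2 : ∑ n : Fin 4, b.szs M c a (true, n) = 4 * a := by
    show ∑ n : Fin 4, a = 4 * a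
    rw [sum_const, card_univ, Fintype.card_fin, smul_eq_mul]
  have s1 : b.szs M c a (false, b.id) = M := by
    show (if b.d b.id false = 1 then M else c) = M
    rw [if_pos h.tD]
  have s2 : b.szs M c a (false, b.iC) = M := by
    show (if b.d b.iC false = 1 then M else c) = M
    rw [if_pos h.tC]
  have s3 : b.szs M c a (false, b.ia) = c := by
    show (if b.d b.ia false = 1 then M else c) = c
    rw [if_neg hA]
  have s4 : b.szs M c a (false, b.ib) = c := by
    show (if b.d b.ib false = 1 then M else c) = c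
    rw [if_neg hB]
  rw [e1, e2, four_ne (Ne.symm h.CD) hid.1 hid.2 hiC.1 hiC.2 hab, s1, s2, s3, s4]
  ring

/-! ### The general step -/

section Gen

variable {b : BX} {R TF : Type} [CommRing R] [Fintype R] [DecidableEq R] [Nontrivial R]
  [Fintype TF] [DecidableEq TF]

/-- **The general step** for arbitrary squares of the dense family with places. -/
theorem comb0 (h : b.Chk) (hf : b.fn.Ok b.id) (h2 : IsUnit (2 : R)) (h3 : IsUnit (3 : R))
    (hg : ∀ y : R, ∃ j : ℕ, j • (1 : R) = y) (C : Finset R)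
    (OF : TF → Perm (b.V × R)) (g : TF → ℕ) (yq : ZMod b.k → ℕ → R) {G s T M : ℕ}
    (hM : Fintype.card R = M) (hOFc : ∀ j, Closed (OF j))
    (hOF : ∑ j, E (OF j) = vertAll b.V R + push (fib (θ h R)) (stripE false (b.clC C)))
    (hgG : ∀ j, g j < G)
    (hpl : ∀ j r, ∃ p u v : R, OF j (C1.oF b.t r, p) = (C1.oF b.t r, yq r (g j)) ∧
      OF j (C1.oF b.t r, yq r (g j)) = (C1.iF b.t r, u) ∧
      OF j (C1.iF b.t r, u) = (C1.iF b.t r, v))
    (hne : Nonempty TF) (hT1 : Fintype.card TF ≤ T) (hT2 : T ≤ Fintype.card TF + M)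
    (hsz : 3 * M + 2 * C.card + 4 * (T - Fintype.card TF) = 4 * T + 1)
    (hPW : PW T (Fintype.card TF) M M s) (hGs : G + s ≤ b.k ∨ Fintype.card TF + 1 ≤ b.k)
    (t : Chi) (ht : t.Ok b.toBD b.t.exf) (jT : ℕ) (dT : Bool)
    (hm : Chi.mchk b.toRD b.t t jT dT true = true) {l nI nA nc : ℕ} (hl : l ≤ M)
    (hnI : t.nI * M + (((List.range (4 * b.k)).filter fun i => t.mC.testBit i &&
      !t.mI.testBit i).length + (t.nO * M + t.o1 * (M - l))) ≤ nI)
    (hnA : t.nA * M ≤ nA) (hnc : t.nC + G ≤ nc + 1) :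
    PW (b.k * M + T) (t.f * M + l + T) nI nA nc := by
  classical
  have hk0 := b.k_pos
  have hM1 : 1 < M := by rw [← hM]; exact Fintype.one_lt_card
  -- labels of the straight squares
  obtain ⟨A2, -, hA2⟩ := exists_subset_card_eq (s := (univ : Finset R))
    (n := T - Fintype.card TF) (by rw [card_univ, hM]; omega)
  -- the letters
  have hCD : b.iC ≠ b.id := h.CD
  have hdb := C1.id_ne_ib h.ok h.ok4.toOk
  have hab := C1.ia_ne_ib h.ok4.toOk
  have hda : b.id ≠ b.ia := h.dA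
  have ne2 : ∀ {x y : Fin 4}, x ≠ y → ((true, x) : WSys) ≠ (true, y) := fun hxy he =>
    hxy (Prod.ext_iff.1 he).2
  have nft : ∀ x y : Fin 4, ((false, x) : WSys) ≠ (true, y) := fun x y he =>
    Bool.noConfusion (Prod.ext_iff.1 he).1
  obtain ⟨D⟩ := exists_letters hPW hM A2 (by rw [hA2]; omega) (fun x => x)
    (fun _ _ h => h)
    (b.szs M C.card A2.card) (iD := (false, b.id)) (iC := (false, b.iC)) (ia := (true, b.ia))
    (ib := (true, b.ib)) (id := (true, b.id)) (fun he => hCD (Prod.ext_iff.1 he).2.symm)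
    ⟨nft _ _, nft _ _, nft _ _⟩ ⟨nft _ _, nft _ _, nft _ _⟩
    ⟨ne2 hab, ne2 (Ne.symm hda), ne2 (Ne.symm hdb)⟩
    (by
      show (if b.d b.id false = 1 then M else C.card) = M
      rw [if_pos h.tD])
    (by
      show (if b.d b.iC false = 1 then M else C.card) = M
      rw [if_pos h.tC]) rfl rfl rfl
    (by
      rw [sum_szs h hf, hA2]
      omega)
  -- rows of the gadgets
  have : NeZero b.k := ⟨hk0.ne'⟩
  obtain ⟨e, rF, hr0, hrr⟩ := exists_rows rfl g hgG D.C D.cC D.c D.hc hGs b.t.rqu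
  choose pp uu vv hp1 hp2 hp3 using hpl
  let S : TF ⊕ {s // s ∈ A2} → Perm (R ⊕ Fin (4 * T + 1 - M)) := fun j => match j with
    | .inl j => D.S (.inl (e j))
    | .inr j => D.S (.inr j)
  have hSc : ∀ j, Closed (S j) := by
    rintro (j | j)
    · exact D.dec.closed _
    · exact D.dec.closed _
  have hS : ∑ j, E (S j) = allPairs (R ⊕ Fin (4 * T + 1 - M)) := by
    rw [← D.dec.cover, Fintype.sum_sum_type, Fintype.sum_sum_type]
    congr 1
    exact Equiv.sum_comp e fun j => E (D.S (.inl j))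
  let F : C1.FS b.toRD R (Fin (4 * T + 1 - M)) TF := ⟨rF, fun j => pp j (rF j),
    fun j => yq (rF j) (g j), fun j => uu j (rF j), fun j => vv j (rF j),
    fun j => D.a (e j), fun j => D.c (e j), fun j => D.u (e j), fun j => D.v (e j)⟩
  have hF : C1.FOk0 b.t F D.σ OF (fun j => S (.inl j)) := by
    refine ⟨hr0, fun j => hp1 j _, fun j => hp2 j _, fun j => hp3 j _, fun j => D.ac _,
      fun j => D.cu _, fun j => D.uv _, fun j => D.σu _, fun j => D.σv _, ?_⟩
    intro j j' hjj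
    obtain ⟨q1, q2⟩ := hrr j j' hjj
    refine ⟨?_, q2⟩
    show yq (rF j) (g j) = yq (rF j') (g j')
    rw [show rF j = rF j' from hjj, q1]
  have hcard : Fintype.card ((Option b.V × R) ⊕ Fin (4 * T + 1 - M)) =
      4 * (b.k * M + T) + 1 := by
    have hV : Fintype.card b.V = 4 * b.k := by
      show Fintype.card (Bool × ZMod (2 * b.k)) = _
      rw [Fintype.card_prod, Fintype.card_bool, ZMod.card]
      ring
    rw [Fintype.card_sum, Fintype.card_prod, Fintype.card_option, hV, hM, Fintype.card_fin]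
    have : (4 * b.k + 1) * M = 4 * (b.k * M) + M := by ring
    omega
  let lt : Fin 4 → R → Fin (4 * T + 1 - M) := fun n => match n with
    | 0 => D.lp
    | 1 => D.lq
    | 2 => D.lu
    | 3 => D.le
  obtain ⟨Φ, κ, hσ, π, s', hs', hk1, hk2, hk3⟩ := step4 h h2 h3 hg C
    (by
      rw [hcard]
      have : 1 * 1 < b.k * M := Nat.mul_lt_mul_of_le_of_lt (by omega) hM1 (by omega)
      omega) A2 D.σ
    (by
      intro i hi
      rw [D.cσ, hM]
      exact if_pos hi)
    (by
      intro i hi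
      rw [D.cσ]
      show (if b.d i false = 1 then M else C.card) = C.card
      rw [if_neg (by rw [hi]; norm_num)])
    (by
      intro i
      rw [D.cσ]
      rfl) lt
    (by
      intro n x hx
      fin_cases n
      · exact D.σp x hx
      · exact D.σq x hx
      · exact D.σl x hx
      · exact D.σe x hx)
    (by
      intro n
      fin_cases n
      · exact D.ip
      · exact D.iq
      · exact D.iu
      · exact D.ie) OF hOFc hOF S hSc hS (fun x => x)
    (fun _ _ _ _ h => h)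
    (by
      intro x
      exact ⟨D.pq x, D.qu x, D.uy x⟩) F hF
  have hwi : wi (!b.t.f) ≠ wo (!b.t.f) := by
    cases b.t.f <;> decide
  -- centres
  let cenW : Finset (b.V × R) := (range G).image fun n => (C1.oF b.t b.t.rqu, yq b.t.rqu n)
  have hcenW : cenW.card ≤ G := by
    refine card_image_le.trans ?_
    rw [card_range]
  obtain ⟨L, -, hL⟩ := exists_subset_card_eq (s := (univ : Finset R)) (n := l)
    (by rw [card_univ, hM]; exact hl)
  have key := Chi.pwg_step1 h.ok h.rok h2 h3 hg b.t t ht jT dT true hm A2 D.σ κ hσ Φ (b.μ R)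
    (h.hμ h2 h3) (lt 0) (lt 1) (lt 2) (fun x => x) OF S (C1.fplace b.t F) (fun _ => rfl) cenW
    (by
      intro p hp
      obtain ⟨n, -, rfl⟩ := mem_image.1 hp
      rfl)
    (by
      intro j
      refine ⟨![(C1.oF b.t b.t.rqu, pp j b.t.rqu), (C1.oF b.t b.t.rqu, yq b.t.rqu (g j)),
        (C1.iF b.t b.t.rqu, uu j b.t.rqu), (C1.iF b.t b.t.rqu, vv j b.t.rqu)], rfl,
        mem_image.2 ⟨g j, mem_range.2 (hgG j), rfl⟩, rfl, rfl,
        Or.inl ⟨hp1 j _, hp2 j _, hp3 j _⟩, ?_⟩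
      have e1 : ∀ n y y', ((b.win b.t.rqu (false, b.t.id) n, y) : b.V × R) =
          (C1.oF b.t (rF j), y') → b.t.rqu = rF j ∧ n = wo (!b.t.f) := by
        intro n y y' he
        have e2 := (h.rok.win_bij h.ok (false, b.t.id)).1
          (a₁ := (b.t.rqu, n)) (a₂ := (rF j, wo (!b.t.f))) (Prod.ext_iff.1 he).1
        exact Prod.ext_iff.1 e2
      intro i hi
      have hi' := emU_injective (R := R) (W := Fin (4 * T + 1 - M)) (a₂ :=
        (C1.oF b.t (rF j), yq (rF j) (g j))) hi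
      fin_cases i
      · exact hr0 j (e1 _ _ _ hi').1.symm
      · exact hr0 j (e1 _ _ _ hi').1.symm
      · exact hwi (e1 _ _ _ hi').2
      · exact hwi (e1 _ _ _ hi').2)
    (by
      obtain ⟨j⟩ := hne
      exact ⟨_, mem_image.2 ⟨g j, mem_range.2 (hgG j), rfl⟩⟩)
    π hs' hk1 hk2 hk3 L (nI := nI) (nA := nA) (nc := nc)
    (by rw [hM, hL]; exact hnI) (by rw [hM]; exact hnA) (by omega)
  rw [hM, hL, hA2] at key
  have e4 : Fintype.card TF + (T - Fintype.card TF) = T := by omega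
  rw [e4] at key
  refine key.toPW ?_ hcard
  rw [Fintype.card_sum, Fintype.card_sum, Fintype.card_prod, ZMod.card, hM, Fintype.card_coe,
    hA2, e4]

open Fine in
/-- **The general step**: word `w`, base `b`, fine modulus `Q`, table `t`. -/
theorem comb {w : MW} {n1 n3 q1 q3 : ℕ} (hw : w.Chk n1 n3 q1 q3) (hm6 : Nat.Coprime 6 w.m) (hm1 : 1 < w.m)
    (h : b.Chk) (hf : b.fn.Ok b.id) (hs : w.sup (b.upw b.id b.f) (b.L b.id b.f % 4) = true)
    (tw : Bool) {Q : ℕ} [NeZero Q] (hQ : Nat.Coprime 6 Q) (hmQ : Nat.Coprime w.m Q)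
    (hT : TowerOk (if tw then 3 else 1) Q) {nF T s : ℕ} (hnF : 4 * nF + 1 = 4 * (w.m * Q) + Q)
    (hT1 : nF ≤ T) (hT2 : T ≤ nF + w.m * Q) (hPW : PW T nF (w.m * Q) (w.m * Q) s)
    (hGs : (if tw then n3 else n1) + s ≤ b.k ∨ nF + 1 ≤ b.k)
    (t : Chi) (ht : t.Ok b.toBD b.t.exf) (jT : ℕ) (dT : Bool)
    (hm : Chi.mchk b.toRD b.t t jT dT true = true) {l nI nA nc : ℕ} (hl : l ≤ w.m * Q)
    (hnI : t.nI * (w.m * Q) + (((List.range (4 * b.k)).filter fun i => t.mC.testBit i &&
      !t.mI.testBit i).length + (t.nO * (w.m * Q) + t.o1 * (w.m * Q - l))) ≤ nI)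
    (hnA : t.nA * (w.m * Q) ≤ nA) (hnc : t.nC + (if tw then n3 else n1) ≤ nc + 1) :
    PW (b.k * (w.m * Q) + T) (t.f * (w.m * Q) + l + T) nI nA nc := by
  classical
  have : NeZero w.m := ⟨hw.m0⟩
  have hm2 : Nat.Coprime 2 w.m := Nat.Coprime.coprime_dvd_left (by norm_num) hm6
  have hm3 : Nat.Coprime 3 w.m := Nat.Coprime.coprime_dvd_left (by norm_num) hm6
  have hQ2 : Nat.Coprime 2 Q := Nat.Coprime.coprime_dvd_left (by norm_num) hQ
  have hQ3 : Nat.Coprime 3 Q := Nat.Coprime.coprime_dvd_left (by norm_num) hQ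
  have u2 : IsUnit (2 : ZMod w.m × ZMod Q) := by
    have := prod_unit (m := w.m) (Q := Q) 2 hm2 hQ2
    exact_mod_cast this
  have u3 : IsUnit (3 : ZMod w.m × ZMod Q) := by
    have := prod_unit (m := w.m) (Q := Q) 3 hm3 hQ3
    exact_mod_cast this
  have v2 : IsUnit (2 : ZMod Q) := (Prod.isUnit_iff.1 u2).2
  have v3 : IsUnit (3 : ZMod Q) := (Prod.isUnit_iff.1 u3).2
  have hcard : Fintype.card (ZMod w.m × ZMod Q) = w.m * Q := by
    rw [Fintype.card_prod, ZMod.card, ZMod.card]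
  have hQ0 : 0 < Q := Nat.pos_of_ne_zero (NeZero.ne Q)
  have hM0 : 1 ≤ w.m * Q := Nat.mul_pos (by omega) hQ0
  have : Nontrivial (ZMod w.m × ZMod Q) := by
    have : Fact (1 < w.m) := ⟨hm1⟩
    infer_instance
  obtain ⟨TF, i1, i2, OF, g, yq, c1, c2, c3, c4, c5⟩ := MW.sideA hw h hs tw v2 v3 hT
  have hTFc : Fintype.card TF = nF := by omega
  have hC := MW.card_C hw Q
  have hm_odd := hw.m2
  have hCM : 2 * (w.C Q).card = w.m * Q + Q := by
    rw [hC, ← mul_assoc, show 2 * ((w.m + 1) / 2) = w.m + 1 by omega]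
    ring
  have key := comb0 h hf u2 u3 (prod_gen hmQ) (w.C Q) OF g yq (G := if tw then n3 else n1)
    (s := s) (T := T) (M := w.m * Q) hcard c2 c3 c4 c5
    (by
      rw [← Fintype.card_pos_iff]
      omega)
    (by rw [hTFc]; exact hT1) (by rw [hTFc]; exact hT2)
    (by
      rw [hTFc]
      omega)
    (by rw [hTFc]; exact hPW) (by rw [hTFc]; exact hGs) t ht jT dT hm hl hnI hnA hnc
  exact key

end Gen

end BX

end SqIns
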