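import Pool.Agent.Lib.SqIns.Comb
import Pool.Agent.Lib.SqIns.Chi4

/-!
# The general step, general words
-/

open Finset Equiv

namespace SqIns

namespace BX

open RD

section Gen

variable {b : BX} {R TF : Type} [CommRing R] [Fintype R] [DecidableEq R] [Nontrivial R]
  [Fintype TF] [DecidableEq TF]

/-- **The general step** for arbitrary squares of the dense family with places and words. -/
theorem comb2 (h : b.Chk) (hf : b.fn.Ok b.id) (h2 : IsUnit (2 : R)) (h3 : IsUnit (3 : R))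
    (hg : ∀ y : R, ∃ j : ℕ, j • (1 : R) = y) (C : Finset R)
    (OF : TF → Perm (b.V × R)) (g : TF → ℕ) (yq : ZMod b.k → ℕ → R) {G s T M : ℕ}
    (hM : Fintype.card R = M) (hOFc : ∀ j, Closed (OF j))
    (hOF : ∑ j, E (OF j) = vertAll b.V R + push (fib (θ h R)) (stripE false (b.clC C)))
    (hgG : ∀ j, g j < G)
    (hpl : ∀ j r, ∃ p u v : R, OF j (C1.oF b.t r, p) = (C1.oF b.t r, yq r (g j)) ∧
      OF j (C1.oF b.t r, yq r (g j)) = (C1.iF b.t r, u) ∧
      OF j (C1.iF b.t r, u) = (C1.iF b.t r, v))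
    (hne : Nonempty TF) (hT1 : Fintype.card TF ≤ T) (hT2 : T ≤ Fintype.card TF + M)
    (hsz : 3 * M + 2 * C.card + 4 * (T - Fintype.card TF) = 4 * T + 1)
    (hPW : PW T (Fintype.card TF) M M s) (hGs : G + s ≤ b.k ∨ Fintype.card TF + 1 ≤ b.k)
    (t : Chi) (ht : t.Ok b.toBD b.t.exf) (jT : ℕ) (dT : Bool)
    (hm : Chi.mchkS b.toRD b.t t jT dT = true)
    (ca : b.V) (n0 : t.mI.testBit (cd b.k ca) = true) (n1 : t.mC.testBit (cd b.k ca) = true)
    (cenW : Finset (b.V × R)) (hcW : ∀ p ∈ cenW, p.1 = ca) {Gw : ℕ} (hcG : cenW.card ≤ Gw)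
    (hwF : ∀ j, ∃ w : Fin 4 → b.V × R, t.mI.testBit (cd b.k (w 0).1) = true ∧ w 1 ∈ cenW ∧
      t.mA.testBit (cd b.k (w 2).1) = true ∧ t.mA.testBit (cd b.k (w 3).1) = true ∧
      (Fwd (OF j) w ∨ Fwd (OF j)⁻¹ w) ∧ ∀ i r, (w i).1 = C1.oF b.t r → r = b.t.rqu)
    {l nI nA nc : ℕ} (hl : l ≤ M)
    (hnI : t.nI * M + (((List.range (4 * b.k)).filter fun i => t.mC.testBit i &&
      !t.mI.testBit i).length + (t.nO * M + t.o1 * (M - l))) ≤ nI)
    (hnA : t.nA * M ≤ nA) (hnc : t.nC + Gw ≤ nc + 1) :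
    PW (b.k * M + T) (t.f * M + l + T) nI nA nc := by
  classical
  have hk0 := b.k_pos
  have hM1 : 1 < M := by rw [← hM]; exact Fintype.one_lt_card
  -- labels of the straight squares
  obtain ⟨A2, -, hA2⟩ := exists_subset_card_eq (s := (univ : Finset R))
    (n := T - Fintype.card TF) (by rw [card_univ, hM]; omega)
  -- the letters
  have hCD : b.iC ≠ b.id := h.CD
  have hdb := C1.id_ne_ib h.ok h.ok4.toOk
  have hab := C1.ia_ne_ib h.ok4.toOk
  have hda : b.id ≠ b.ia := h.dA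
  have ne2 : ∀ {x y : Fin 4}, x ≠ y → ((true, x) : WSys) ≠ (true, y) := fun hxy he =>
    hxy (Prod.ext_iff.1 he).2
  have nft : ∀ x y : Fin 4, ((false, x) : WSys) ≠ (true, y) := fun x y he =>
    Bool.noConfusion (Prod.ext_iff.1 he).1
  obtain ⟨D⟩ := exists_letters hPW hM A2 (by rw [hA2]; omega) (fun x => x)
    (fun _ _ h => h)
    (b.szs M C.card A2.card) (iD := (false, b.id)) (iC := (false, b.iC)) (ia := (true, b.ia))
    (ib := (true, b.ib)) (id := (true, b.id)) (fun he => hCD (Prod.ext_iff.1 he).2.symm)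
    ⟨nft _ _, nft _ _, nft _ _⟩ ⟨nft _ _, nft _ _, nft _ _⟩
    ⟨ne2 hab, ne2 (Ne.symm hda), ne2 (Ne.symm hdb)⟩
    (by
      show (if b.d b.id false = 1 then M else C.card) = M
      rw [if_pos h.tD])
    (by
      show (if b.d b.iC false = 1 then M else C.card) = M
      rw [if_pos h.tC]) rfl rfl rfl
    (by
      rw [sum_szs h hf, hA2]
      omega)
  -- rows of the gadgets
  have : NeZero b.k := ⟨hk0.ne'⟩
  obtain ⟨e, rF, hr0, hrr⟩ := exists_rows rfl g hgG D.C D.cC D.c D.hc hGs b.t.rqu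
  choose pp uu vv hp1 hp2 hp3 using hpl
  let S : TF ⊕ {s // s ∈ A2} → Perm (R ⊕ Fin (4 * T + 1 - M)) := fun j => match j with
    | .inl j => D.S (.inl (e j))
    | .inr j => D.S (.inr j)
  have hSc : ∀ j, Closed (S j) := by
    rintro (j | j)
    · exact D.dec.closed _
    · exact D.dec.closed _
  have hS : ∑ j, E (S j) = allPairs (R ⊕ Fin (4 * T + 1 - M)) := by
    rw [← D.dec.cover, Fintype.sum_sum_type, Fintype.sum_sum_type]
    congr 1
    exact Equiv.sum_comp e fun j => E (D.S (.inl j))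
  let F : C1.FS b.toRD R (Fin (4 * T + 1 - M)) TF := ⟨rF, fun j => pp j (rF j),
    fun j => yq (rF j) (g j), fun j => uu j (rF j), fun j => vv j (rF j),
    fun j => D.a (e j), fun j => D.c (e j), fun j => D.u (e j), fun j => D.v (e j)⟩
  have hF : C1.FOk0 b.t F D.σ OF (fun j => S (.inl j)) := by
    refine ⟨hr0, fun j => hp1 j _, fun j => hp2 j _, fun j => hp3 j _, fun j => D.ac _,
      fun j => D.cu _, fun j => D.uv _, fun j => D.σu _, fun j => D.σv _, ?_⟩
    intro j j' hjj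
    obtain ⟨q1, q2⟩ := hrr j j' hjj
    refine ⟨?_, q2⟩
    show yq (rF j) (g j) = yq (rF j') (g j')
    rw [show rF j = rF j' from hjj, q1]
  have hcard : Fintype.card ((Option b.V × R) ⊕ Fin (4 * T + 1 - M)) =
      4 * (b.k * M + T) + 1 := by
    have hV : Fintype.card b.V = 4 * b.k := by
      show Fintype.card (Bool × ZMod (2 * b.k)) = _
      rw [Fintype.card_prod, Fintype.card_bool, ZMod.card]
      ring
    rw [Fintype.card_sum, Fintype.card_prod, Fintype.card_option, hV, hM, Fintype.card_fin]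
    have : (4 * b.k + 1) * M = 4 * (b.k * M) + M := by ring
    omega
  let lt : Fin 4 → R → Fin (4 * T + 1 - M) := fun n => match n with
    | 0 => D.lp
    | 1 => D.lq
    | 2 => D.lu
    | 3 => D.le
  obtain ⟨Φ, κ, hσ, π, s', hs', hk1, hk2, hk3⟩ := step4 h h2 h3 hg C
    (by
      rw [hcard]
      have : 1 * 1 < b.k * M := Nat.mul_lt_mul_of_le_of_lt (by omega) hM1 (by omega)
      omega) A2 D.σ
    (by
      intro i hi
      rw [D.cσ, hM]
      exact if_pos hi)
    (by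
      intro i hi
      rw [D.cσ]
      show (if b.d i false = 1 then M else C.card) = C.card
      rw [if_neg (by rw [hi]; norm_num)])
    (by
      intro i
      rw [D.cσ]
      rfl) lt
    (by
      intro n x hx
      fin_cases n
      · exact D.σp x hx
      · exact D.σq x hx
      · exact D.σl x hx
      · exact D.σe x hx)
    (by
      intro n
      fin_cases n
      · exact D.ip
      · exact D.iq
      · exact D.iu
      · exact D.ie) OF hOFc hOF S hSc hS (fun x => x)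
    (fun _ _ _ _ h => h)
    (by
      intro x
      exact ⟨D.pq x, D.qu x, D.uy x⟩) F hF
  obtain ⟨L, -, hL⟩ := exists_subset_card_eq (s := (univ : Finset R)) (n := l)
    (by rw [card_univ, hM]; exact hl)
  have key := Chi.pwg_step2 h.ok h.rok h2 h3 hg b.t t ht jT dT hm A2 D.σ κ hσ Φ (b.μ R)
    (h.hμ h2 h3) (lt 0) (lt 1) (lt 2) (fun x => x) OF S (C1.fplace b.t F) (fun _ => rfl)
    ca n0 n1 cenW hcW
    (by
      intro j
      obtain ⟨w, w0, w1, w2, w3, w4, w5⟩ := hwF j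
      refine ⟨w, w0, w1, w2, w3, w4, ?_⟩
      intro i hi
      have hi' := emU_injective (R := R) (W := Fin (4 * T + 1 - M)) (a₂ :=
        (C1.oF b.t (rF j), yq (rF j) (g j))) hi
      exact hr0 j (w5 i _ (congrArg Prod.fst hi')))
    (by
      obtain ⟨j⟩ := hne
      obtain ⟨w, -, w1, -⟩ := hwF j
      exact ⟨_, w1⟩)
    π hs' hk1 hk2 hk3 L (nI := nI) (nA := nA) (nc := nc)
    (by rw [hM, hL]; exact hnI) (by rw [hM]; exact hnA) (by omega)
  rw [hM, hL, hA2] at key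
  have e4 : Fintype.card TF + (T - Fintype.card TF) = T := by omega
  rw [e4] at key
  refine key.toPW ?_ hcard
  rw [Fintype.card_sum, Fintype.card_sum, Fintype.card_prod, ZMod.card, hM, Fintype.card_coe,
    hA2, e4]


end Gen

/-! ### Words around a ring index of `F` -/

section Words

theorem cd_rgF_false {b : RD} (h : b.ROk) (n : ℕ) :
    cd b.k (b.rgF false (n : ZMod (4 * b.k))) = b.rcode n := by
  unfold rgF
  rw [if_neg (by decide), h.rgf_nat]
  exact cd_dcd (h.rcode_lt _)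

/-- the columns of a word around the ring index `i0`: the column itself or one of the neighbours -/
def Nb (b : RD) (i0 : ℕ) (v : b.V) : Prop :=
  v = b.rgF false ((i0 + 1 : ℕ) : ZMod (4 * b.k)) ∨ v = b.rgF false ((i0 + 2 : ℕ) : ZMod (4 * b.k)) ∨
  v = b.rgF false ((i0 + 4 * b.k - 1 : ℕ) : ZMod (4 * b.k)) ∨
  v = b.rgF false ((i0 + 4 * b.k - 2 : ℕ) : ZMod (4 * b.k))

/-- only the row `qu` has its outer column near the ring index `i0` -/
def avD (b : BX) (i0 : ℕ) : Bool :=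
  (List.range b.k).all fun r => Nat.beq r b.qu || (List.range 5).all fun d =>
    !Nat.beq ((i0 + 4 * b.k - 2 + d) % (4 * b.k))
      ((b.J b.id (wo !b.f) + 4 * (b.gi * r)) % (4 * b.k))

theorem rgF_mod {b : RD} (n : ℕ) : b.rgF false ((n % (4 * b.k) : ℕ) : ZMod (4 * b.k)) =
    b.rgF false (n : ZMod (4 * b.k)) := by
  rw [ZMod.natCast_mod]

theorem mchkD_spec {b : RD} (h : b.ROk) {t : Chi} {i0 : ℕ} (hm : Chi.mchkD b t i0 = true) :
    (t.mI.testBit (cd b.k (b.rgF false (i0 : ZMod (4 * b.k)))) = true ∧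
      t.mC.testBit (cd b.k (b.rgF false (i0 : ZMod (4 * b.k)))) = true) ∧
    ∀ v, Nb b i0 v → t.mA.testBit (cd b.k v) = true := by
  unfold Chi.mchkD at hm
  simp only [Bool.and_eq_true] at hm
  obtain ⟨⟨a1, a2⟩, a3, a4, a5, a6⟩ := hm
  rw [← cd_rgF_false h, rgF_mod] at a1 a2 a3 a4 a5 a6
  refine ⟨⟨a1, a2⟩, ?_⟩
  rintro v (rfl | rfl | rfl | rfl)
  · exact a3
  · exact a4
  · exact a5
  · exact a6

theorem avD_spec {b : BX} (h : b.Chk) {i0 : ℕ} (ha : avD b i0 = true) {v : b.V}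
    (hv : v = b.rgF false (i0 : ZMod (4 * b.k)) ∨ Nb b.toRD i0 v) {r : ZMod b.k}
    (hr : v = C1.oF b.t r) : r = b.t.rqu := by
  have hk := b.k_pos
  obtain ⟨d, hd, e1⟩ : ∃ d < 5, v = b.rgF false ((i0 + 4 * b.k - 2 + d : ℕ) : ZMod (4 * b.k)) := by
    have key : ∀ n : ℕ, b.rgF false ((n + 4 * b.k : ℕ) : ZMod (4 * b.k)) =
        b.rgF false (n : ZMod (4 * b.k)) := by
      intro n
      rw [Nat.cast_add, ZMod.natCast_self, add_zero]
    rcases hv with hv | hv | hv | hv | hv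
    · refine ⟨2, by norm_num, ?_⟩
      rw [hv, ← key, show i0 + 4 * b.k - 2 + 2 = i0 + 4 * b.k by omega]
    · refine ⟨3, by norm_num, ?_⟩
      rw [hv, ← key, show i0 + 4 * b.k - 2 + 3 = i0 + 1 + 4 * b.k by omega]
    · refine ⟨4, by norm_num, ?_⟩
      rw [hv, ← key, show i0 + 4 * b.k - 2 + 4 = i0 + 2 + 4 * b.k by omega]
    · refine ⟨1, by norm_num, ?_⟩
      rw [hv, show i0 + 4 * b.k - 2 + 1 = i0 + 4 * b.k - 1 by omega]
    · refine ⟨0, by norm_num, ?_⟩
      rw [hv, add_zero]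
  have e2 : C1.oF b.t r = b.rgF false (((b.J b.id (wo !b.f) + 4 * (b.gi * r.val) : ℕ)) :
      ZMod (4 * b.k)) := by
    show b.win r (false, b.id) (wo !b.f) = _
    rw [h.rok.win_eq h.ok, Nat.cast_add, ← gi_cast']
    rfl
  rw [e1, e2] at hr
  have e3 := h.rok.rgF_inj _ hr
  rw [ZMod.natCast_eq_natCast_iff'] at e3
  unfold avD at ha
  simp only [List.all_eq_true, List.mem_range, Bool.or_eq_true, Bool.not_eq_true'] at ha
  rcases ha r.val (ZMod.val_lt r) with h1 | h1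
  · have h2 := Nat.eq_of_beq_eq_true h1
    show r = (b.qu : ZMod b.k)
    rw [← h2, ZMod.natCast_zmod_val]
  · have h2 := h1 d hd
    rw [e3, Nat.beq_refl] at h2
    exact absurd h2 (by decide)

theorem nb_of_nbr {b : RD} {i0 : ℕ} {v : b.V} (h : b.nbr (i0 : ZMod (4 * b.k)) v) : Nb b i0 v := by
  have hk := b.k_pos
  have e1 : ((i0 + 4 * b.k - 1 : ℕ) : ZMod (4 * b.k)) = (i0 : ZMod (4 * b.k)) - 1 := by
    rw [Nat.cast_sub (by omega), Nat.cast_add, ZMod.natCast_self, add_zero, Nat.cast_one]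
  have e2 : ((i0 + 4 * b.k - 2 : ℕ) : ZMod (4 * b.k)) = (i0 : ZMod (4 * b.k)) - 2 := by
    rw [Nat.cast_sub (by omega), Nat.cast_add, ZMod.natCast_self, add_zero, Nat.cast_ofNat]
  unfold Nb
  rw [e1, e2, Nat.cast_add, Nat.cast_one, Nat.cast_add, Nat.cast_ofNat]
  rcases h with h | h | h | h
  · exact Or.inl h
  · exact Or.inr (Or.inr (Or.inl h))
  · exact Or.inr (Or.inl h)
  · exact Or.inr (Or.inr (Or.inr h))

end Words

/-! ### The general step, words around a ring index -/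

open Fine in
/-- **The general step**: word `w`, base `b`, fine modulus `Q`, table `t`, centres of the words over
the ring index `i0`. -/
theorem combB {b : BX} {w : MW} {n1 n3 q1 q3 : ℕ} (hw : w.Chk n1 n3 q1 q3)
    (hm6 : Nat.Coprime 6 w.m) (hm1 : 1 < w.m)
    (h : b.Chk) (hf : b.fn.Ok b.id) (hs : w.sup (b.upw b.id b.f) (b.L b.id b.f % 4) = true)
    (i0 : ℕ) (tw : Bool)
    (hi0 : w.supw (w.d0 tw (b.upw b.id b.f) (b.L b.id b.f % 4)) (i0 % (4 * b.k) % 4) = true)
    {Q : ℕ} [NeZero Q] (hQ : Nat.Coprime 6 Q) (hmQ : Nat.Coprime w.m Q)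
    (hT : TowerOk (if tw then 3 else 1) Q) {nF T s : ℕ} (hnF : 4 * nF + 1 = 4 * (w.m * Q) + Q)
    (hT1 : nF ≤ T) (hT2 : T ≤ nF + w.m * Q) (hPW : PW T nF (w.m * Q) (w.m * Q) s)
    (hGs : (if tw then n3 else n1) + s ≤ b.k ∨ nF + 1 ≤ b.k)
    (t : Chi) (ht : t.Ok b.toBD b.t.exf) (jT : ℕ) (dT : Bool)
    (hm : Chi.mchkS b.toRD b.t t jT dT = true) (hD : Chi.mchkD b.toRD t i0 = true)
    (hav : avD b i0 = true) {l nI nA nc : ℕ} (hl : l ≤ w.m * Q)
    (hnI : t.nI * (w.m * Q) + (((List.range (4 * b.k)).filter fun i => t.mC.testBit i &&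
      !t.mI.testBit i).length + (t.nO * (w.m * Q) + t.o1 * (w.m * Q - l))) ≤ nI)
    (hnA : t.nA * (w.m * Q) ≤ nA) (hnc : t.nC + (if tw then q3 else q1) ≤ nc + 1) :
    PW (b.k * (w.m * Q) + T) (t.f * (w.m * Q) + l + T) nI nA nc := by
  classical
  have : NeZero w.m := ⟨hw.m0⟩
  have hm2 : Nat.Coprime 2 w.m := Nat.Coprime.coprime_dvd_left (by norm_num) hm6
  have hm3 : Nat.Coprime 3 w.m := Nat.Coprime.coprime_dvd_left (by norm_num) hm6
  have hQ2 : Nat.Coprime 2 Q := Nat.Coprime.coprime_dvd_left (by norm_num) hQ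
  have hQ3 : Nat.Coprime 3 Q := Nat.Coprime.coprime_dvd_left (by norm_num) hQ
  have u2 : IsUnit (2 : ZMod w.m × ZMod Q) := by
    have := prod_unit (m := w.m) (Q := Q) 2 hm2 hQ2
    exact_mod_cast this
  have u3 : IsUnit (3 : ZMod w.m × ZMod Q) := by
    have := prod_unit (m := w.m) (Q := Q) 3 hm3 hQ3
    exact_mod_cast this
  have v2 : IsUnit (2 : ZMod Q) := (Prod.isUnit_iff.1 u2).2
  have v3 : IsUnit (3 : ZMod Q) := (Prod.isUnit_iff.1 u3).2
  have hcard : Fintype.card (ZMod w.m × ZMod Q) = w.m * Q := by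
    rw [Fintype.card_prod, ZMod.card, ZMod.card]
  have hQ0 : 0 < Q := Nat.pos_of_ne_zero (NeZero.ne Q)
  have hM0 : 1 ≤ w.m * Q := Nat.mul_pos (by omega) hQ0
  have : Nontrivial (ZMod w.m × ZMod Q) := by
    have : Fact (1 < w.m) := ⟨hm1⟩
    infer_instance
  obtain ⟨TF, i1, i2, OF, g, yq, cen, c1, c2, c3, c4, c5, c6, c7, c8⟩ := MW.side hw h hs
    (i0 : ZMod (4 * b.k)) tw (by
      unfold RD.trk
      rw [ZMod.val_natCast]
      exact hi0) v2 v3 hT
  have hTFc : Fintype.card TF = nF := by omega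
  have hC := MW.card_C hw Q
  have hm_odd := hw.m2
  have hCM : 2 * (w.C Q).card = w.m * Q + Q := by
    rw [hC, ← mul_assoc, show 2 * ((w.m + 1) / 2) = w.m + 1 by omega]
    ring
  obtain ⟨⟨d1, d2⟩, d3⟩ := mchkD_spec h.rok hD
  have key := comb2 h hf u2 u3 (prod_gen hmQ) (w.C Q) OF g yq (G := if tw then n3 else n1)
    (s := s) (T := T) (M := w.m * Q) hcard c2 c3 c4 c5
    (by
      rw [← Fintype.card_pos_iff]
      omega)
    (by rw [hTFc]; exact hT1) (by rw [hTFc]; exact hT2)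
    (by
      rw [hTFc]
      omega)
    (by rw [hTFc]; exact hPW) (by rw [hTFc]; exact hGs) t ht jT dT hm
    (b.rgF false (i0 : ZMod (4 * b.k))) d1 d2 cen c7 (Gw := if tw then q3 else q1) c6
    (by
      intro j
      obtain ⟨v, v0, v1, v2, v3, v4⟩ := c8 j
      refine ⟨v, ?_, v1, d3 _ (nb_of_nbr v2), d3 _ (nb_of_nbr v3), v4, ?_⟩
      · rw [v0]
        exact d1
      · intro i r hr
        refine avD_spec h hav ?_ hr
        fin_cases i
        · exact Or.inl v0
        · exact Or.inl (c7 _ v1)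
        · exact Or.inr (nb_of_nbr v2)
        · exact Or.inr (nb_of_nbr v3))
    hl hnI hnA hnc
  exact key

end BX

end SqIns
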