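import Mathlib

/-!
# Which numbers k are reached by the tower of lifts

`Tow first inner M T` : the numbers `(M, T)` reached by digits: first digit `m` with `t`
squares (`first m t`), then inner digits (`inner m t`), `M = m_1 ... m_b`,
`T = sum t_i m_(i+1) ... m_b`.  A base `K0` and a tower give `k = M * K0 + T`.
-/

namespace SqIns

inductive Tow (first inner : ℕ → ℕ → Prop) : ℕ → ℕ → Prop
  | first {m t : ℕ} (h : first m t) : Tow first inner m t
  | step {M T m t : ℕ} (h : Tow first inner M T) (h' : inner m t) :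
      Tow first inner (M * m) (T * m + t)

/-- a table of digits `(m, lo, hi)`: digit `m` with `lo ≤ t ≤ hi` -/
def InTab (l : List (ℕ × ℕ × ℕ)) (m t : ℕ) : Prop := ∃ p ∈ l, p.1 = m ∧ p.2.1 ≤ t ∧ t ≤ p.2.2

/-- `k` is reached by a base of the list and a tower -/
def Reach (bases : List ℕ) (first inner : List (ℕ × ℕ × ℕ)) (k : ℕ) : Prop :=
  ∃ K ∈ bases, ∃ M T, Tow (InTab first) (InTab inner) M T ∧ k = M * K + T

theorem Reach.step {bases : List ℕ} {first inner : List (ℕ × ℕ × ℕ)} {k m t : ℕ}
    (h : Reach bases first inner k) (h' : InTab inner m t) :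
    Reach bases first inner (k * m + t) := by
  obtain ⟨K, hK, M, T, hT, rfl⟩ := h
  exact ⟨K, hK, M * m, T * m + t, hT.step h', by ring⟩

/-- first level, computable -/
def lev1 (bases : List ℕ) (first : List (ℕ × ℕ × ℕ)) (k : ℕ) : Bool :=
  bases.any fun K => first.any fun p => decide (p.1 * K + p.2.1 ≤ k) && decide (k ≤ p.1 * K + p.2.2)

/-- all levels, with fuel -/
def levF (bases : List ℕ) (first inner : List (ℕ × ℕ × ℕ)) : ℕ → ℕ → Bool
  | 0, _ => false
  | f + 1, k => lev1 bases first k || inner.any fun p =>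
      decide (p.2.1 ≤ k) && (levF bases first inner f ((k - p.2.1) / p.1) &&
        decide ((k - p.2.1) % p.1 + p.2.1 ≤ p.2.2))

theorem reach_of_lev1 {bases : List ℕ} {first inner : List (ℕ × ℕ × ℕ)} {k : ℕ}
    (h : lev1 bases first k = true) : Reach bases first inner k := by
  unfold lev1 at h
  rw [List.any_eq_true] at h
  obtain ⟨K, hK, h⟩ := h
  rw [List.any_eq_true] at h
  obtain ⟨p, hp, h⟩ := h
  rw [Bool.and_eq_true, decide_eq_true_iff, decide_eq_true_iff] at h
  exact ⟨K, hK, p.1, k - p.1 * K, Tow.first ⟨p, hp, rfl, by omega, by omega⟩, by omega⟩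

theorem reach_of_levF {bases : List ℕ} {first inner : List (ℕ × ℕ × ℕ)} (f : ℕ) :
    ∀ k : ℕ, levF bases first inner f k = true → Reach bases first inner k := by
  induction f with
  | zero => intro k h; simp [levF] at h
  | succ f ih =>
    intro k h
    rw [levF, Bool.or_eq_true, List.any_eq_true] at h
    rcases h with h | ⟨p, hp, h⟩
    · exact reach_of_lev1 h
    · rw [Bool.and_eq_true, Bool.and_eq_true, decide_eq_true_iff, decide_eq_true_iff] at h
      obtain ⟨h1, h2, h3⟩ := h
      have := (ih _ h2).step (m := p.1) (t := (k - p.2.1) % p.1 + p.2.1)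
        ⟨p, hp, rfl, by omega, h3⟩
      have hk : (k - p.2.1) / p.1 * p.1 + ((k - p.2.1) % p.1 + p.2.1) = k := by
        have := Nat.div_add_mod' (k - p.2.1) p.1
        omega
      rwa [hk] at this

/-- the recursion: inner digits 5 (6..10) and 7 (8..14) carry everything from an interval -/
theorem reach_all {bases : List ℕ} {first inner : List (ℕ × ℕ × ℕ)} (exc : List ℕ) (B N : ℕ)
    (h5 : (5, 6, 10) ∈ inner) (h7 : (7, 8, 14) ∈ inner)
    (hfin : ∀ k < N, B < k → k ∉ exc → Reach bases first inner k)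
    (hexc : ∀ e ∈ exc, B < e → ∀ d ∈ List.range' 6 5, N ≤ e * 5 + d →
      B < (e * 5 + d - 8) / 7 ∧ (e * 5 + d - 8) / 7 ∉ exc)
    (hN : 7 * (B + 2) + 8 ≤ N) :
    ∀ k, B < k → k ∉ exc → Reach bases first inner k := by
  intro k
  induction k using Nat.strong_induction_on with
  | _ k ih =>
    intro hk hkexc
    rcases Nat.lt_or_ge k N with h | h
    · exact hfin k h hk hkexc
    · by_cases hq : (k - 6) / 5 ∈ exc
      · have hm : (k - 6) % 5 < 5 := Nat.mod_lt _ (by norm_num)
        have hd := Nat.div_add_mod (k - 6) 5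
        have hkk : (k - 6) / 5 * 5 + ((k - 6) % 5 + 6) = k := by omega
        have hx := hexc _ hq (by omega) ((k - 6) % 5 + 6)
          (by rw [List.mem_range'_1]; omega) (by omega)
        rw [hkk] at hx
        have hr := (ih ((k - 8) / 7) (by omega) hx.1 hx.2).step (m := 7)
          (t := (k - 8) % 7 + 8) ⟨_, h7, rfl, by dsimp only; omega, by dsimp only; omega⟩
        have hk2 : (k - 8) / 7 * 7 + ((k - 8) % 7 + 8) = k := by omega
        rwa [hk2] at hr
      · have hr := (ih ((k - 6) / 5) (by omega) (by omega) hq).step (m := 5)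
          (t := (k - 6) % 5 + 6) ⟨_, h5, rfl, by dsimp only; omega, by dsimp only; omega⟩
        have hk2 : (k - 6) / 5 * 5 + ((k - 6) % 5 + 6) = k := by omega
        rwa [hk2] at hr

section Example

def exBases : List ℕ := [9, 11, 13, 15, 17, 19, 21, 23, 25, 29, 43]
def exFirst : List (ℕ × ℕ × ℕ) := [(5, 4, 10), (7, 6, 15), (11, 7, 24), (13, 8, 29)]
def exInner : List (ℕ × ℕ × ℕ) := [(5, 6, 10), (7, 8, 14)]
def exExc : List ℕ := [47, 48, 56, 57, 58, 66, 67, 68, 96]

theorem exCover : ∀ k, 46 < k → k ∉ exExc → Reach exBases exFirst exInner k := by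
  refine reach_all exExc 46 500 (by decide) (by decide) ?_ ?_ (by norm_num)
  · have h : ∀ k < 500, 46 < k → k ∉ exExc →
        levF exBases exFirst exInner 5 k = true := by decide +kernel
    exact fun k h1 h2 h3 => reach_of_levF 5 k (h k h1 h2 h3)
  · decide +kernel

end Example

end SqIns
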