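import Mathlib

/-!
# The covering of all large `k` by one digit and a power of five

With a base of size `K`, a digit `m` and the strips `lo ≤ t ≤ hi`, the moduli `M = m * 5 ^ a` reach all
`k` with `5 ^ a * (4 * m * K + 4 * lo + 1) ≤ 4 * k + 1 ≤ 5 ^ a * (4 * m * K + 4 * hi + 1)`.
-/

namespace SqIns

/-- `k` is reached with the bases `bases`, the digits `tab0` (for `a = 0`) and `tab1` (for all `a`) -/
def Hit (bases : List ℕ) (tab0 tab1 : List (ℕ × ℕ × ℕ)) (k : ℕ) : Prop :=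
  ∃ a m lo hi K, K ∈ bases ∧ (a = 0 ∧ (m, lo, hi) ∈ tab0 ∨ (m, lo, hi) ∈ tab1) ∧
    5 ^ a * (4 * m * K + 4 * lo + 1) ≤ 4 * k + 1 ∧ 4 * k + 1 ≤ 5 ^ a * (4 * m * K + 4 * hi + 1)

/-- left end of the interval of `(e, m, lo, hi, K)` -/
def leftE (x : ℕ × ℕ × ℕ × ℕ × ℕ) : ℕ :=
  5 ^ x.1 * (4 * x.2.1 * x.2.2.2.2 + 4 * x.2.2.1 + 1)

/-- right end of the interval of `(e, m, lo, hi, K)` -/
def rightE (x : ℕ × ℕ × ℕ × ℕ × ℕ) : ℕ :=
  5 ^ x.1 * (4 * x.2.1 * x.2.2.2.2 + 4 * x.2.2.2.1 + 1)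

/-- the intervals of the list cover the stretch from `cur` to `goal` -/
def chainB : ℕ → List (ℕ × ℕ × ℕ × ℕ × ℕ) → ℕ → Bool
  | cur, [], goal => decide (goal ≤ cur)
  | cur, x :: l, goal => decide (leftE x ≤ cur) && chainB (rightE x) l goal

theorem exists_of_chainB : ∀ (l : List (ℕ × ℕ × ℕ × ℕ × ℕ)) (cur goal c y : ℕ),
    chainB cur l goal = true → c * cur ≤ y → y < c * goal →
    ∃ x ∈ l, c * leftE x ≤ y ∧ y ≤ c * rightE x := by
  intro l
  induction l with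
  | nil =>
    intro cur goal c y h h1 h2
    have h3 : goal ≤ cur := by simpa [chainB] using h
    exact absurd (Nat.mul_le_mul_left c h3) (by omega)
  | cons x l ih =>
    intro cur goal c y h h1 h2
    have h3 : leftE x ≤ cur ∧ chainB (rightE x) l goal = true := by simpa [chainB] using h
    by_cases h4 : y ≤ c * rightE x
    · exact ⟨x, List.mem_cons_self .., (Nat.mul_le_mul_left c h3.1).trans h1, h4⟩
    · obtain ⟨z, hz, hz1, hz2⟩ := ih (rightE x) goal c y h3.2 (by omega) h2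
      exact ⟨z, List.mem_cons_of_mem _ hz, hz1, hz2⟩

/-- the entries of the list use the given bases and digits -/
def usesB (bases : List ℕ) (tab : List (ℕ × ℕ × ℕ)) (l : List (ℕ × ℕ × ℕ × ℕ × ℕ)) : Bool :=
  l.all fun x => decide (x.2.2.2.2 ∈ bases) && decide ((x.2.1, x.2.2.1, x.2.2.2.1) ∈ tab)

theorem exists_scale (L y : ℕ) (hL : 0 < L) (h : L ≤ y) : ∃ n, 5 ^ n * L ≤ y ∧ y < 5 ^ n * (5 * L) := by
  refine ⟨Nat.log 5 (y / L), ?_, ?_⟩
  · have h1 : 5 ^ Nat.log 5 (y / L) ≤ y / L :=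
      Nat.pow_log_le_self 5 (Nat.div_pos h hL).ne'
    calc 5 ^ Nat.log 5 (y / L) * L ≤ y / L * L := Nat.mul_le_mul_right L h1
      _ ≤ y := Nat.div_mul_le_self y L
  · have h1 : y / L < 5 ^ (Nat.log 5 (y / L) + 1) := Nat.lt_pow_succ_log_self (by norm_num) _
    have h2 : y < 5 ^ (Nat.log 5 (y / L) + 1) * L := by
      rwa [Nat.div_lt_iff_lt_mul hL] at h1
    calc y < 5 ^ (Nat.log 5 (y / L) + 1) * L := h2
      _ = 5 ^ Nat.log 5 (y / L) * (5 * L) := by ring

/-- everything from the beginning of a chain on is reached -/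
theorem hit_of_chain {bases : List ℕ} {tab0 tab1 : List (ℕ × ℕ × ℕ)}
    {l : List (ℕ × ℕ × ℕ × ℕ × ℕ)} {L : ℕ} (hL : 0 < L) (hc : chainB L l (5 * L) = true)
    (hu : usesB bases tab1 l = true) {k : ℕ} (hk : L ≤ 4 * k + 1) : Hit bases tab0 tab1 k := by
  obtain ⟨n, h1, h2⟩ := exists_scale L (4 * k + 1) hL hk
  obtain ⟨x, hx, h3, h4⟩ := exists_of_chainB l L (5 * L) (5 ^ n) (4 * k + 1) hc h1 h2
  have h5 := List.all_eq_true.1 hu x hx
  rw [Bool.and_eq_true, decide_eq_true_eq, decide_eq_true_eq] at h5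
  refine ⟨n + x.1, x.2.1, x.2.2.1, x.2.2.2.1, x.2.2.2.2, h5.1, Or.inr h5.2, ?_, ?_⟩
  · rw [pow_add, mul_assoc]
    exact h3
  · rw [pow_add, mul_assoc]
    exact h4

/-- finite check -/
def hitB (bases : List ℕ) (tab0 tab1 : List (ℕ × ℕ × ℕ)) (amax k : ℕ) : Bool :=
  (List.range (amax + 1)).any fun a => bases.any fun K =>
    (if a = 0 then tab0 ++ tab1 else tab1).any fun x =>
      decide (5 ^ a * (4 * x.1 * K + 4 * x.2.1 + 1) ≤ 4 * k + 1) &&
        decide (4 * k + 1 ≤ 5 ^ a * (4 * x.1 * K + 4 * x.2.2 + 1))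

theorem hit_of_hitB {bases : List ℕ} {tab0 tab1 : List (ℕ × ℕ × ℕ)} {amax k : ℕ}
    (h : hitB bases tab0 tab1 amax k = true) : Hit bases tab0 tab1 k := by
  obtain ⟨a, -, h1⟩ := List.any_eq_true.1 h
  obtain ⟨K, hK, h2⟩ := List.any_eq_true.1 h1
  obtain ⟨x, hx, h3⟩ := List.any_eq_true.1 h2
  rw [Bool.and_eq_true, decide_eq_true_eq, decide_eq_true_eq] at h3
  refine ⟨a, x.1, x.2.1, x.2.2, K, hK, ?_, h3.1, h3.2⟩
  by_cases ha : a = 0
  · rw [if_pos ha, List.mem_append] at hx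
    rcases hx with hx | hx
    · exact Or.inl ⟨ha, hx⟩
    · exact Or.inr hx
  · rw [if_neg ha] at hx
    exact Or.inr hx

/-- The chain and a finite check reach everything above `N` outside of `exc`. -/
theorem hit_all {bases : List ℕ} {tab0 tab1 : List (ℕ × ℕ × ℕ)}
    {l : List (ℕ × ℕ × ℕ × ℕ × ℕ)} {L N amax : ℕ} {exc : List ℕ} (hL : 0 < L)
    (hc : chainB L l (5 * L) = true) (hu : usesB bases tab1 l = true)
    (hf : (List.range L).all (fun k => decide (L ≤ 4 * k + 1) || decide (k ≤ N) ||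
      decide (k ∈ exc) || hitB bases tab0 tab1 amax k) = true) {k : ℕ} (hk : N < k)
    (he : k ∉ exc) : Hit bases tab0 tab1 k := by
  by_cases h : L ≤ 4 * k + 1
  · exact hit_of_chain hL hc hu h
  · have h1 := List.all_eq_true.1 hf k (List.mem_range.2 (by omega))
    rw [Bool.or_eq_true, Bool.or_eq_true, Bool.or_eq_true, decide_eq_true_eq, decide_eq_true_eq,
      decide_eq_true_eq] at h1
    rcases h1 with ((h1 | h1) | h1) | h1
    · exact absurd h1 h
    · omega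
    · exact absurd h1 he
    · exact hit_of_hitB h1

/-- the sizes of the bases -/
def bases11 : List ℕ := [9, 11, 13, 15, 17, 19, 23, 25, 29, 35, 43]

/-- the digits which are used alone -/
def digits0 : List (ℕ × ℕ × ℕ) := [(5, 4, 10)]

/-- the digits which are used with all powers of five -/
def digits1 : List (ℕ × ℕ × ℕ) := [(7, 6, 15), (11, 7, 24), (13, 8, 29), (17, 10, 38)]

/-- **Everything above `68` except `96` is reached.** -/
theorem cover11 {k : ℕ} (hk : 68 < k) (h96 : k ≠ 96) : Hit bases11 digits0 digits1 k :=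
  hit_all (L := 601) (N := 68) (amax := 2) (exc := [96])
    (l := [(0, 11, 7, 24, 13), (0, 17, 10, 38, 9), (0, 13, 8, 29, 13), (0, 17, 10, 38, 11), (0, 11,
      7, 24, 19), (0, 17, 10, 38, 13), (0, 13, 8, 29, 19), (0, 17, 10, 38, 15), (0, 11, 7, 24,
      25), (0, 17, 10, 38, 17), (0, 11, 7, 24, 29), (0, 17, 10, 38, 19), (1, 7, 6, 15, 9), (0,
      13, 8, 29, 29), (0, 17, 10, 38, 23), (1, 7, 6, 15, 11), (0, 17, 10, 38, 25), (0, 13, 8,
      29, 35), (0, 11, 7, 24, 43), (1, 7, 6, 15, 13), (1, 11, 7, 24, 9), (0, 17, 10, 38, 35),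
      (1, 13, 8, 29, 9), (1, 7, 6, 15, 19), (0, 17, 10, 38, 43)])
    (by norm_num) (by decide +kernel) (by decide +kernel) (by decide +kernel) hk
    (by simpa using h96)

/-- the sizes of the bases, without `9` -/
def bases15 : List ℕ := [11, 13, 15, 17, 19, 21, 23, 25, 27, 29, 31, 35, 43, 45, 47]

/-- **Everything above `68` except `76`, `77`, `78`, `96`, `107`, `108` is reached without the base
of size `9`.** -/
theorem cover15 {k : ℕ} (hk : 68 < k) (he : k ∉ [76, 77, 78, 96, 107, 108]) :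
    Hit bases15 digits0 digits1 k :=
  hit_all (L := 601) (N := 68) (amax := 2) (exc := [76, 77, 78, 96, 107, 108])
    (l := [(0, 11, 7, 24, 13), (0, 7, 6, 15, 23), (0, 11, 7, 24, 15), (0, 13, 8, 29, 13), (0, 17,
      10, 38, 11), (0, 11, 7, 24, 19), (0, 17, 10, 38, 13), (0, 13, 8, 29, 19), (0, 17, 10, 38,
      15), (0, 13, 8, 29, 21), (0, 17, 10, 38, 17), (0, 11, 7, 24, 29), (0, 17, 10, 38, 19), (0,
      13, 8, 29, 27), (0, 17, 10, 38, 21), (0, 11, 7, 24, 35), (0, 17, 10, 38, 23), (1, 7, 6,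
      15, 11), (0, 17, 10, 38, 25), (0, 13, 8, 29, 35), (0, 17, 10, 38, 27), (1, 7, 6, 15, 13),
      (0, 11, 7, 24, 47), (0, 17, 10, 38, 31), (1, 7, 6, 15, 15), (0, 13, 8, 29, 45), (0, 17,
      10, 38, 35), (1, 7, 6, 15, 17), (1, 11, 7, 24, 11), (1, 7, 6, 15, 19), (0, 17, 10, 38,
      43)])
    (by norm_num) (by decide +kernel) (by decide +kernel) (by decide +kernel) hk he

end SqIns
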