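import Pool.Agent.Lib.SqIns.Starter

/-!
# Cyclic decompositions

Squares on `ZMod n` which are periodic: `v (j + g) = v j + g U`.  The translates by `0, …, g-1`
form one orbit; `g = 1` gives the translation invariant squares.  It is enough that every
difference occurs.
-/

open Finset Equiv

namespace SqIns

/-- orbit data: period `g`, shift `g U`, word (digits of `W` in base `n`) -/
structure Wd where
  /-- period -/
  g : ℕ
  /-- shift -/
  U : ℕ
  /-- word -/
  W : ℕ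

/-- points of the word -/
def Wd.pt (w : Wd) (n j : ℕ) : ℕ := w.W / n ^ (j % w.g) % n + j / w.g * (w.g * w.U)

/-- difference of two points -/
def Wd.df (w : Wd) (n i j : ℕ) : ℕ := (w.pt n j % n + n - w.pt n i % n) % n

/-- the word is a closed square -/
def Wd.ok (w : Wd) (n : ℕ) : Bool :=
  (Nat.blt 0 w.g).and ((Nat.beq (n % w.g) 0).and ((Nat.beq (Nat.gcd w.U (n / w.g)) 1).and
    (Nat.beq (SqIns.mk (fun i => w.pt n i % w.g) w.g) (2 ^ w.g - 1))))

/-- the differences of the word -/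
def Wd.dm (w : Wd) (n : ℕ) : ℕ :=
  SqIns.mk (fun i => w.df n i (i + 1)) w.g ||| (SqIns.mk (fun i => w.df n (i + 1) i) w.g |||
  (SqIns.mk (fun i => w.df n i (i + 2)) w.g ||| SqIns.mk (fun i => w.df n (i + 2) i) w.g))

/-- all words are closed squares -/
def allok (n : ℕ) : List Wd → Bool
  | [] => true
  | w :: L => (w.ok n).and (allok n L)

/-- all differences -/
def alldm (n : ℕ) : List Wd → ℕ
  | [] => 1
  | w :: L => w.dm n ||| alldm n L

/-- number of squares -/
def sumg : List Wd → ℕ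
  | [] => 0
  | w :: L => w.g + sumg L

/-- the check -/
def chkC (n : ℕ) (L : List Wd) : Bool :=
  (allok n L).and ((Nat.ble (4 * sumg L + 1) n).and (Nat.beq (alldm n L) (2 ^ n - 1)))

section

variable {n : ℕ} [NeZero n] (w : Wd)

theorem Wd.pt_add (n : ℕ) (hg : 0 < w.g) (j a : ℕ) :
    w.pt n (j + w.g * a) = w.pt n j + a * (w.g * w.U) := by
  unfold Wd.pt
  rw [Nat.add_mul_mod_self_left, Nat.add_mul_div_left _ _ hg]
  ring

theorem Wd.ok_iff (h : w.ok n = true) : 0 < w.g ∧ w.g ∣ n ∧ Nat.Coprime w.U (n / w.g) ∧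
    SqIns.mk (fun i => w.pt n i % w.g) w.g = 2 ^ w.g - 1 := by
  unfold Wd.ok at h
  simp only [Bool.and_eq_true] at h
  obtain ⟨h1, h2, h3, h4⟩ := h
  refine ⟨?_, Nat.dvd_of_mod_eq_zero (Nat.eq_of_beq_eq_true h2), Nat.eq_of_beq_eq_true h3,
    Nat.eq_of_beq_eq_true h4⟩
  simpa [Nat.blt_eq] using h1

/-- positions shifted by a multiple of `g` -/
theorem Wd.exists_shift (h : w.ok n = true) (j q : ℕ) :
    ∃ a : ℕ, ∀ i : ℕ, ((w.pt n (j + w.g * a + i) : ℕ) : ZMod n) =
      (w.pt n (j + i) : ZMod n) + (w.g * q : ℕ) := by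
  obtain ⟨hg, hd, hc, -⟩ := w.ok_iff h
  obtain ⟨m, hm⟩ := hd
  have hm' : n / w.g = m := by rw [hm, Nat.mul_div_cancel_left _ hg]
  rw [hm'] at hc
  have hm0 : 0 < m := by
    rcases Nat.eq_zero_or_pos m with h0 | h0
    · rw [h0, mul_zero] at hm
      exact absurd hm (NeZero.ne n)
    · exact h0
  -- inverse of U mod m
  obtain ⟨b, hb⟩ : ∃ b : ℕ, (w.U * b) ≡ 1 [MOD m] := by
    rcases Nat.eq_or_lt_of_le (Nat.succ_le_of_lt hm0) with h1 | h1
    · refine ⟨0, ?_⟩
      have : m = 1 := by omega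
      rw [this]
      exact Nat.modEq_one
    · obtain ⟨b, -, hb⟩ := Nat.exists_mul_mod_eq_one_of_coprime hc h1
      exact ⟨b, by unfold Nat.ModEq; rw [hb, Nat.mod_eq_of_lt h1]⟩
  refine ⟨b * q, fun i => ?_⟩
  rw [show j + w.g * (b * q) + i = j + i + w.g * (b * q) by ring, w.pt_add n hg]
  push_cast
  congr 1
  have h1 : (w.U * b) * q ≡ 1 * q [MOD m] := Nat.ModEq.mul_right q hb
  have h2 : w.g * ((w.U * b) * q) ≡ w.g * (1 * q) [MOD w.g * m] := Nat.ModEq.mul_left' w.g h1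
  rw [← hm] at h2
  have h3 := (ZMod.natCast_eq_natCast_iff _ _ n).2 h2
  push_cast at h3
  rw [one_mul] at h3
  rw [← h3]
  ring

theorem Wd.pt_mod (h : w.ok n = true) (j : ℕ) :
    ((w.pt n (j % n) : ℕ) : ZMod n) = (w.pt n j : ZMod n) := by
  obtain ⟨hg, hd, hc, hm⟩ := w.ok_iff h
  obtain ⟨m, hm⟩ := hd
  have h1 : w.pt n j = w.pt n (j % n) + (m * (j / n)) * (w.g * w.U) := by
    rw [← w.pt_add n hg]
    congr 1
    conv_lhs => rw [← Nat.mod_add_div j n]
    conv_lhs => rw [hm]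
    conv_rhs => rw [hm]
    ring
  rw [h1]
  push_cast
  have h2 : (n : ZMod n) = 0 := ZMod.natCast_self n
  have h3 : ((w.g * m : ℕ) : ZMod n) = 0 := by rw [← hm]; exact h2
  push_cast at h3
  linear_combination -((j / n : ℕ) : ZMod n) * (w.U : ZMod n) * h3

theorem Wd.bij (h : w.ok n = true) :
    Function.Bijective (fun i : ZMod n => ((w.pt n i.val : ℕ) : ZMod n)) := by
  obtain ⟨hg, hd, hc, hm⟩ := w.ok_iff h
  rw [Fintype.bijective_iff_surjective_and_card]
  refine ⟨fun z => ?_, rfl⟩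
  have h1 : (SqIns.mk (fun i => w.pt n i % w.g) w.g).testBit (z.val % w.g) = true := by
    rw [hm, Nat.testBit_two_pow_sub_one, decide_eq_true_eq]
    exact Nat.mod_lt _ hg
  obtain ⟨i, hi, hiz⟩ := exists_of_testBit_mk _ _ _ h1
  -- z - pt i is a multiple of g
  have h2 : w.pt n i ≡ z.val [MOD w.g] := hiz
  obtain ⟨q, hq⟩ : ∃ q : ℕ, ((w.pt n i + w.g * q : ℕ) : ZMod n) = z := by
    have h3 : (w.g : ℤ) ∣ (z.val : ℤ) - (w.pt n i : ℤ) := (Nat.modEq_iff_dvd).1 h2
    obtain ⟨t, ht⟩ := h3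
    refine ⟨(t % (n : ℤ)).toNat, ?_⟩
    have h4 : ((t % (n : ℤ)).toNat : ℤ) = t % (n : ℤ) :=
      Int.toNat_of_nonneg (Int.emod_nonneg _ (by exact_mod_cast NeZero.ne n))
    have h5 : (((t % (n : ℤ)).toNat : ℕ) : ZMod n) = ((t : ℤ) : ZMod n) := by
      have : (((t % (n : ℤ)).toNat : ℤ) : ZMod n) = ((t : ℤ) : ZMod n) := by
        rw [h4]
        exact (ZMod.intCast_mod t n)
      exact_mod_cast this
    push_cast
    rw [h5]
    have h6 : ((w.g : ℤ) : ZMod n) * ((t : ℤ) : ZMod n) =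
        ((z.val : ℤ) : ZMod n) - ((w.pt n i : ℤ) : ZMod n) := by
      rw [← Int.cast_mul, ← ht]
      push_cast
      rfl
    push_cast at h6
    rw [h6, ZMod.natCast_zmod_val]
    ring
  obtain ⟨a, ha⟩ := w.exists_shift h i q
  have h7 := ha 0
  rw [add_zero, add_zero] at h7
  refine ⟨((i + w.g * a : ℕ) : ZMod n), ?_⟩
  show ((w.pt n ((i + w.g * a : ℕ) : ZMod n).val : ℕ) : ZMod n) = z
  rw [ZMod.val_natCast, w.pt_mod h, h7, ← hq]
  push_cast
  ring

/-- the cyclic order of the word -/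
noncomputable def Wd.eq (h : w.ok n = true) : ZMod n ≃ ZMod n := Equiv.ofBijective _ (w.bij h)

theorem Wd.eq_apply (h : w.ok n = true) (j : ℕ) : w.eq h (j : ZMod n) = (w.pt n j : ZMod n) := by
  show ((w.pt n (j : ZMod n).val : ℕ) : ZMod n) = (w.pt n j : ZMod n)
  rw [ZMod.val_natCast, w.pt_mod h]

theorem Wd.adj (h : w.ok n = true) (i t : ℕ) (ht : t = 1 ∨ t = 2) (u v : ZMod n)
    (hd : v - u = (w.pt n (i + t) : ZMod n) - (w.pt n i : ZMod n)) :
    ∃ c : Fin w.g, Adj (rot ((w.eq h).trans (Equiv.addRight ((c : ℕ) : ZMod n)))) u v := by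
  obtain ⟨hg, -⟩ := w.ok_iff h
  set z : ZMod n := u - (w.pt n i : ZMod n) with hz
  refine ⟨⟨z.val % w.g, Nat.mod_lt _ hg⟩, ?_⟩
  obtain ⟨a, ha⟩ := w.exists_shift h i (z.val / w.g)
  have hzv : ((w.g * (z.val / w.g) : ℕ) : ZMod n) + ((z.val % w.g : ℕ) : ZMod n) = z := by
    rw [← Nat.cast_add, add_comm, Nat.mod_add_div, ZMod.natCast_zmod_val]
  have h0 := ha 0
  have h1 := ha t
  rw [add_zero, add_zero] at h0
  set e := (w.eq h).trans (Equiv.addRight (((⟨z.val % w.g, Nat.mod_lt _ hg⟩ : Fin w.g) : ℕ) :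
    ZMod n)) with he
  have eu : e ((i + w.g * a : ℕ) : ZMod n) = u := by
    show w.eq h ((i + w.g * a : ℕ) : ZMod n) + ((z.val % w.g : ℕ) : ZMod n) = u
    rw [w.eq_apply, h0]
    linear_combination hzv
  have ev : e ((i + w.g * a + t : ℕ) : ZMod n) = v := by
    show w.eq h ((i + w.g * a + t : ℕ) : ZMod n) + ((z.val % w.g : ℕ) : ZMod n) = v
    rw [w.eq_apply, h1]
    linear_combination hzv - hd
  rw [← eu, ← ev, adj_iff_of_equiv e (rot_apply _)]
  left
  rcases ht with rfl | rfl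
  · left; push_cast; ring
  · right; push_cast; ring

theorem Wd.df_cast (i j : ℕ) : ((w.df n i j : ℕ) : ZMod n) =
    (w.pt n j : ZMod n) - (w.pt n i : ZMod n) := by
  unfold Wd.df
  rw [ZMod.natCast_mod, Nat.cast_sub]
  · push_cast
    rw [ZMod.natCast_mod, ZMod.natCast_mod, ZMod.natCast_self]
    ring
  · have := Nat.mod_lt (w.pt n i) (Nat.pos_of_ne_zero (NeZero.ne n))
    omega

theorem adj_symm {V : Type*} {s : Perm V} {u v : V} (h : Adj s u v) : Adj s v u := by
  unfold Adj at h ⊢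
  tauto

theorem Wd.adj_of_dm (h : w.ok n = true) (u v : ZMod n)
    (hd : (w.dm n).testBit (v - u).val = true) :
    ∃ c : Fin w.g, Adj (rot ((w.eq h).trans (Equiv.addRight ((c : ℕ) : ZMod n)))) u v := by
  unfold Wd.dm at hd
  simp only [Nat.testBit_or, Bool.or_eq_true] at hd
  have key : ∀ i j : ℕ, w.df n i j = (v - u).val →
      v - u = (w.pt n j : ZMod n) - (w.pt n i : ZMod n) := by
    intro i j hij
    rw [← w.df_cast, hij, ZMod.natCast_zmod_val]
  rcases hd with hd | hd | hd | hd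
  · obtain ⟨i, -, hi⟩ := exists_of_testBit_mk _ _ _ hd
    exact w.adj h i 1 (Or.inl rfl) u v (key _ _ hi)
  · obtain ⟨i, -, hi⟩ := exists_of_testBit_mk _ _ _ hd
    obtain ⟨c, hc⟩ := w.adj h i 1 (Or.inl rfl) v u (by
      have := key _ _ hi
      linear_combination -this)
    exact ⟨c, adj_symm hc⟩
  · obtain ⟨i, -, hi⟩ := exists_of_testBit_mk _ _ _ hd
    exact w.adj h i 2 (Or.inr rfl) u v (key _ _ hi)
  · obtain ⟨i, -, hi⟩ := exists_of_testBit_mk _ _ _ hd
    obtain ⟨c, hc⟩ := w.adj h i 2 (Or.inr rfl) v u (by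
      have := key _ _ hi
      linear_combination -this)
    exact ⟨c, adj_symm hc⟩

end

theorem exists_family {n : ℕ} [NeZero n] (L : List Wd) (h : allok n L = true) :
    ∃ (ι : Type) (_ : Fintype ι) (s : ι → Perm (ZMod n)), Fintype.card ι = sumg L ∧
      (∀ i, Closed (s i)) ∧ ∀ u v : ZMod n, u ≠ v → (alldm n L).testBit (v - u).val = true →
        ∃ i, Adj (s i) u v := by
  induction L with
  | nil =>
    refine ⟨Fin 0, inferInstance, fun i => i.elim0, by simp [sumg], fun i => i.elim0, ?_⟩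
    intro u v huv hb
    exfalso
    have h1 : (v - u).val ≠ 0 := by
      rw [Ne, ZMod.val_eq_zero, sub_eq_zero]
      exact fun h => huv h.symm
    unfold alldm at hb
    rw [show (1 : ℕ) = 2 ^ 1 - 1 by norm_num, Nat.testBit_two_pow_sub_one, decide_eq_true_eq] at hb
    omega
  | cons w L ih =>
    unfold allok at h
    rw [Bool.and_eq_true] at h
    obtain ⟨ι, hι, s, hc, hs, hadj⟩ := ih h.2
    refine ⟨Fin w.g ⊕ ι, inferInstance, Sum.elim
      (fun c => rot ((w.eq h.1).trans (Equiv.addRight ((c : ℕ) : ZMod n)))) s, ?_, ?_, ?_⟩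
    · rw [Fintype.card_sum, Fintype.card_fin, hc, sumg]
    · rintro (c | i)
      · exact closed_rot _
      · exact hs i
    · intro u v huv hb
      unfold alldm at hb
      rw [Nat.testBit_or, Bool.or_eq_true] at hb
      rcases hb with hb | hb
      · obtain ⟨c, hc⟩ := w.adj_of_dm h.1 u v hb
        exact ⟨Sum.inl c, hc⟩
      · obtain ⟨i, hi⟩ := hadj u v huv hb
        exact ⟨Sum.inr i, hi⟩

/-- **Cyclic decompositions.** -/
theorem decomposes_of_chkC (k : ℕ) (hk : 0 < k) (L : List Wd) (h : chkC (4 * k + 1) L = true) :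
    SqCyc.Decomposes (4 * k + 1) := by
  have : NeZero (4 * k + 1) := ⟨by omega⟩
  unfold chkC at h
  simp only [Bool.and_eq_true] at h
  obtain ⟨h1, h2, h3⟩ := h
  replace h2 := Nat.le_of_ble_eq_true h2
  replace h3 := Nat.eq_of_beq_eq_true h3
  obtain ⟨ι, hι, s, hc, hs, hadj⟩ := exists_family (n := 4 * k + 1) L h1
  have hD : Dec s := by
    refine dec_of_cover hs (by rw [ZMod.card]; omega) (by rw [ZMod.card, hc]; exact h2) ?_
    intro u v huv
    refine hadj u v huv ?_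
    rw [h3, Nat.testBit_two_pow_sub_one, decide_eq_true_eq]
    exact ZMod.val_lt _
  have hcard := hD.card (by rw [ZMod.card]; omega)
  rw [ZMod.card] at hcard
  exact hD.decomposes (by omega) (ZMod.card _)

end SqIns
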