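import Pool.Agent.Lib.SqIns.Cyc

/-!
# Explicit decompositions on `Fin (4k+1)`

`IsExpl k f`: the squares `f m 0, f m 1, …, f m (4k)` (`m < k`) decompose the complete graph on
`0, …, 4k`.  Obtained from half-turn starters (`fS`) and from cyclic words (`fC`).
-/

open Finset Equiv

namespace SqIns

/-- `f m i` is the `i`-th point of the `m`-th square -/
structure IsExpl (k : ℕ) (f : ℕ → ℕ → ℕ) (s : Fin k → Perm (Fin (4 * k + 1))) : Prop where
  dec : Dec s
  lt : ∀ m i, m < k → i < 4 * k + 1 → f m i < 4 * k + 1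
  next : ∀ (m : Fin k) (i : ℕ), i + 1 < 4 * k + 1 → ∀ x y : Fin (4 * k + 1),
    (x : ℕ) = f m i → (y : ℕ) = f m (i + 1) → s m x = y

/-- the squares of a half-turn starter, infinity is `4k` -/
def fS (k N m i : ℕ) : ℕ :=
  match Nat.beq i 0 with
  | true => 4 * k
  | false =>
    match Nat.ble i (2 * k) with
    | true => (yw k N (i - 1) % (2 * k) + m) % (2 * k) + yw k N (i - 1) / (2 * k) * (2 * k)
    | false => (ht k (yw k N (4 * k - i)) % (2 * k) + m) % (2 * k) +
        ht k (yw k N (4 * k - i)) / (2 * k) * (2 * k)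

/-- the squares of a list of cyclic words -/
def fC (n : ℕ) : List Wd → ℕ → ℕ → ℕ
  | [], _, _ => 0
  | w :: L, m, i =>
    match Nat.blt m w.g with
    | true => (w.pt n i + m) % n
    | false => fC n L (m - w.g) i

section Starter

variable {k : ℕ} [NeZero (2 * k)]

/-- code of a point -/
def encN (P : SPt k) : ℕ :=
  match P with
  | none => 4 * k
  | some (t, x) => x.val + 2 * k * t.toNat

theorem encN_lt (P : SPt k) : encN P < 4 * k + 1 := by
  have hk : 0 < k := by
    have := NeZero.ne (2 * k)
    omega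
  rcases P with _ | ⟨t, x⟩
  · show 4 * k < 4 * k + 1
    omega
  · have := ZMod.val_lt x
    rcases t with _ | _
    · show x.val + 2 * k * 0 < 4 * k + 1
      omega
    · show x.val + 2 * k * 1 < 4 * k + 1
      omega

theorem encN_inj {P Q : SPt k} (h : encN P = encN Q) : P = Q := by
  have hk : 0 < k := by
    have := NeZero.ne (2 * k)
    omega
  rcases P with _ | ⟨t, x⟩ <;> rcases Q with _ | ⟨t', x'⟩
  · rfl
  · exfalso
    have := ZMod.val_lt x'
    rcases t' with _ | _
    · change 4 * k = x'.val + 2 * k * 0 at h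
      omega
    · change 4 * k = x'.val + 2 * k * 1 at h
      omega
  · exfalso
    have := ZMod.val_lt x
    rcases t with _ | _
    · change x.val + 2 * k * 0 = 4 * k at h
      omega
    · change x.val + 2 * k * 1 = 4 * k at h
      omega
  · have h1 := ZMod.val_lt x
    have h2 := ZMod.val_lt x'
    change x.val + 2 * k * t.toNat = x'.val + 2 * k * t'.toNat at h
    have h3 : t = t' ∧ x.val = x'.val := by
      rcases t with _ | _ <;> rcases t' with _ | _ <;>
        simp only [Bool.toNat_false, Bool.toNat_true] at h <;>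
        first
          | exact ⟨rfl, by omega⟩
          | (exfalso; omega)
    rw [h3.1, ZMod.val_injective (2 * k) h3.2]

theorem card_SPt : Fintype.card (SPt k) = 4 * k + 1 := by
  rw [Fintype.card_option, Fintype.card_prod, Fintype.card_bool, ZMod.card]
  ring

/-- points as naturals -/
noncomputable def enc : SPt k ≃ Fin (4 * k + 1) :=
  Equiv.ofBijective (fun P => ⟨encN P, encN_lt P⟩) (by
    rw [Fintype.bijective_iff_injective_and_card]
    refine ⟨fun P Q h => encN_inj (Fin.mk.inj_iff.1 h), ?_⟩
    rw [card_SPt, Fintype.card_fin])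

theorem enc_val (P : SPt k) : ((enc P : Fin (4 * k + 1)) : ℕ) = encN P := rfl

omit [NeZero (2 * k)] in
theorem val_dcd (hk : 0 < k) (a : ℕ) (m : ℕ) (ha : a < 4 * k) :
    encN (trP ((m : ℕ) : ZMod (2 * k)) (some (dcd k a))) =
      (a % (2 * k) + m) % (2 * k) + a / (2 * k) * (2 * k) := by
  rw [trP_some]
  show ((a : ZMod (2 * k)) + (m : ZMod (2 * k))).val + 2 * k * (decide (2 * k ≤ a)).toNat = _
  rw [div_two hk ha, ← Nat.cast_add, ZMod.val_natCast, Nat.mod_add_mod]
  ring

omit [NeZero (2 * k)] in
theorem encN_blk (hk : 0 < k) (N m i : ℕ) (hi : i < 4 * k + 1) :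
    encN (trP ((m : ℕ) : ZMod (2 * k)) (blk k N i)) = fS k N m i := by
  unfold fS blk
  rcases Nat.eq_zero_or_pos i with h0 | h0
  · subst h0
    rfl
  · have e0 : Nat.beq i 0 = false := by
      rw [Bool.eq_false_iff]
      intro h
      have := Nat.eq_of_beq_eq_true h
      omega
    rw [if_neg (by omega), e0]
    by_cases h1 : i ≤ 2 * k
    · have e1 : Nat.ble i (2 * k) = true := by rw [Nat.ble_eq]; exact h1
      rw [if_pos h1, e1]
      exact val_dcd hk _ m (yw_lt hk N _)
    · have e1 : Nat.ble i (2 * k) = false := by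
        rw [Bool.eq_false_iff]
        intro h
        exact h1 (Nat.le_of_ble_eq_true h)
      rw [if_neg h1, e1]
      exact val_dcd hk _ m (ht_lt hk (yw_lt hk N _))

end Starter

/-- explicit form of `dec_of_chk` -/
theorem isExpl_of_chk {k : ℕ} (hk : 0 < k) {N : ℕ} (h : chk k N = true) :
    ∃ s : Fin k → Perm (Fin (4 * k + 1)), IsExpl k (fS k N) s := by
  have : NeZero (2 * k) := ⟨by omega⟩
  obtain ⟨e, he, hD⟩ := dec_of_chk_equiv h
  refine ⟨fun m => enc.permCongr (rot (e.trans (trP ((m : ℕ) : ZMod (2 * k))))), ?_, ?_, ?_⟩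
  · exact hD.transport enc (Equiv.refl _)
  · intro m i _ hi
    rw [← encN_blk hk N m i hi]
    exact encN_lt _
  · intro m i hi x y hx hy
    have ex : x = enc (trP ((m : ℕ) : ZMod (2 * k)) (blk k N i)) := by
      apply Fin.ext
      rw [enc_val, encN_blk hk N m i (by omega), hx]
    have ey : y = enc (trP ((m : ℕ) : ZMod (2 * k)) (blk k N (i + 1))) := by
      apply Fin.ext
      rw [enc_val, encN_blk hk N m (i + 1) (by omega), hy]
    rw [ex, ey, Equiv.permCongr_apply, Equiv.symm_apply_apply, ← he i (by omega),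
      ← he (i + 1) (by omega)]
    have h1 := rot_apply (e.trans (trP ((m : ℕ) : ZMod (2 * k)))) ((i : ℕ) : ZMod (4 * k + 1))
    rw [Equiv.trans_apply, Equiv.trans_apply] at h1
    rw [h1]
    push_cast
    rfl

section Cyclic

theorem exists_family' {n : ℕ} [NeZero n] (L : List Wd) (h : allok n L = true) :
    ∃ s : ℕ → Perm (ZMod n), (∀ m < sumg L, Closed (s m)) ∧
      (∀ u v : ZMod n, u ≠ v → (alldm n L).testBit (v - u).val = true →
        ∃ m < sumg L, Adj (s m) u v) ∧
      ∀ m < sumg L, ∀ i : ℕ, s m (fC n L m i : ZMod n) = (fC n L m (i + 1) : ZMod n) := by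
  induction L with
  | nil =>
    refine ⟨fun _ => 1, fun m hm => absurd hm (by simp [sumg]), ?_,
      fun m hm => absurd hm (by simp [sumg])⟩
    intro u v huv hb
    exfalso
    have h1 : (v - u).val ≠ 0 := by
      rw [Ne, ZMod.val_eq_zero, sub_eq_zero]
      exact fun h => huv h.symm
    unfold alldm at hb
    rw [show (1 : ℕ) = 2 ^ 1 - 1 by norm_num, Nat.testBit_two_pow_sub_one, decide_eq_true_eq] at hb
    omega
  | cons w L ih =>
    unfold allok at h
    rw [Bool.and_eq_true] at h
    obtain ⟨s, hs, hadj, hnext⟩ := ih h.2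
    refine ⟨fun m => if m < w.g then rot ((w.eq h.1).trans (Equiv.addRight ((m : ℕ) : ZMod n)))
      else s (m - w.g), ?_, ?_, ?_⟩
    · intro m hm
      by_cases hmg : m < w.g
      · simp only [hmg, if_true]
        exact closed_rot _
      · simp only [hmg, if_false]
        rw [sumg] at hm
        exact hs _ (by omega)
    · intro u v huv hb
      unfold alldm at hb
      rw [Nat.testBit_or, Bool.or_eq_true] at hb
      rcases hb with hb | hb
      · obtain ⟨c, hc⟩ := w.adj_of_dm h.1 u v hb
        refine ⟨c, by rw [sumg]; have := c.isLt; omega, ?_⟩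
        simp only [c.isLt, if_true]
        exact hc
      · obtain ⟨m, hm, hc⟩ := hadj u v huv hb
        refine ⟨m + w.g, by rw [sumg]; omega, ?_⟩
        have : ¬ m + w.g < w.g := by omega
        simp only [this, if_false, Nat.add_sub_cancel]
        exact hc
    · intro m hm i
      by_cases hmg : m < w.g
      · have e1 : Nat.blt m w.g = true := by rw [Nat.blt_eq]; exact hmg
        simp only [hmg, if_true, fC, e1]
        have h1 := rot_apply ((w.eq h.1).trans (Equiv.addRight ((m : ℕ) : ZMod n)))
          ((i : ℕ) : ZMod n)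
        rw [Equiv.trans_apply, Equiv.trans_apply, w.eq_apply h.1] at h1
        have h2 : ((i : ℕ) : ZMod n) + 1 = ((i + 1 : ℕ) : ZMod n) := by push_cast; ring
        rw [h2, w.eq_apply h.1] at h1
        rw [ZMod.natCast_mod, ZMod.natCast_mod]
        push_cast
        exact h1
      · have e1 : Nat.blt m w.g = false := by
          rw [Bool.eq_false_iff, Ne, Nat.blt_eq]
          exact hmg
        simp only [hmg, if_false, fC, e1]
        rw [sumg] at hm
        exact hnext _ (by omega) i

theorem fC_lt {n : ℕ} (hn : 0 < n) (L : List Wd) (m i : ℕ) : fC n L m i < n := by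
  induction L generalizing m with
  | nil => exact hn
  | cons w L ih =>
    unfold fC
    rcases Nat.blt m w.g with _ | _
    · exact ih _
    · exact Nat.mod_lt _ hn

/-- explicit form of `decomposes_of_chkC` -/
theorem isExpl_of_chkC {k : ℕ} (hk : 0 < k) (L : List Wd) (h : chkC (4 * k + 1) L = true) :
    ∃ s : Fin k → Perm (Fin (4 * k + 1)), IsExpl k (fC (4 * k + 1) L) s := by
  have : NeZero (4 * k + 1) := ⟨by omega⟩
  unfold chkC at h
  simp only [Bool.and_eq_true] at h
  obtain ⟨h1, h2, h3⟩ := h
  replace h2 := Nat.le_of_ble_eq_true h2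
  replace h3 := Nat.eq_of_beq_eq_true h3
  obtain ⟨s, hs, hadj, hnext⟩ := exists_family' (n := 4 * k + 1) L h1
  have hD : Dec (fun m : Fin (sumg L) => s m) := by
    refine dec_of_cover (fun m => hs m m.isLt) (by rw [ZMod.card]; omega)
      (by rw [ZMod.card, Fintype.card_fin]; exact h2) ?_
    intro u v huv
    obtain ⟨m, hm, hc⟩ := hadj u v huv (by
      rw [h3, Nat.testBit_two_pow_sub_one, decide_eq_true_eq]
      exact ZMod.val_lt _)
    exact ⟨⟨m, hm⟩, hc⟩
  have hcard := hD.card (by rw [ZMod.card]; omega)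
  rw [ZMod.card, Fintype.card_fin] at hcard
  have hk' : sumg L = k := by omega
  let c : ZMod (4 * k + 1) ≃ Fin (4 * k + 1) :=
    Equiv.ofBijective (fun x => ⟨x.val, ZMod.val_lt x⟩) (by
      rw [Fintype.bijective_iff_injective_and_card]
      refine ⟨fun x y hxy => ZMod.val_injective _ (Fin.mk.inj_iff.1 hxy), ?_⟩
      rw [ZMod.card, Fintype.card_fin])
  have hcv : ∀ x, ((c x : Fin (4 * k + 1)) : ℕ) = x.val := fun x => rfl
  refine ⟨fun m => c.permCongr (s m), ?_, ?_, ?_⟩
  · exact hD.transport c (finCongr hk'.symm)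
  · intro m i _ _
    exact fC_lt (by omega) L m i
  · intro m i hi x y hx hy
    have ex : x = c (fC (4 * k + 1) L m i : ZMod (4 * k + 1)) := by
      apply Fin.ext
      rw [hcv, ZMod.val_natCast, Nat.mod_eq_of_lt (fC_lt (by omega) L m i), hx]
    have ey : y = c (fC (4 * k + 1) L m (i + 1) : ZMod (4 * k + 1)) := by
      apply Fin.ext
      rw [hcv, ZMod.val_natCast, Nat.mod_eq_of_lt (fC_lt (by omega) L m (i + 1)), hy]
    rw [ex, ey, Equiv.permCongr_apply, Equiv.symm_apply_apply,
      hnext m (by rw [hk']; exact m.isLt) i]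

end Cyclic

end SqIns
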