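import Pool.Agent.Lib.SqIns.FSheets

/-!
# Natural labels of the dense family over a base

The two windows of type 2 of the dense family form a chain with a window of the other family.  The
slopes are integers; the constants are solved along the chain.  Output: the column bijections and
the labels, with the edges freed by the windows.
-/

open Finset Equiv

namespace SqIns

/-! ### Smooth integers -/

/-- smooth integers -/
def smz (d : ℤ) : Bool := decide (5184 % d = 0 ∧ d ≠ 0)

theorem smz_unit {R : Type*} [CommRing R] (h2 : IsUnit (2 : R)) (h3 : IsUnit (3 : R)) {d : ℤ}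
    (h : smz d = true) : IsUnit (d : R) := by
  unfold smz at h
  have h1 := (of_decide_eq_true h).1
  obtain ⟨c, hc⟩ := Int.dvd_of_emod_eq_zero h1
  have h4 : IsUnit ((5184 : ℤ) : R) := by
    have e : ((5184 : ℤ) : R) = 2 ^ 6 * 3 ^ 4 := by norm_num
    rw [e]
    exact (h2.pow 6).mul (h3.pow 4)
  rw [hc] at h4
  push_cast at h4
  exact isUnit_of_mul_isUnit_left h4

/-- an affine permutation -/
def affP {R : Type*} [CommRing R] (u : Rˣ) (t : R) : Perm R where
  toFun y := u * y + t
  invFun z := (u⁻¹ : Rˣ) * (z - t)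
  left_inv y := by simp
  right_inv z := by simp

theorem affP_apply {R : Type*} [CommRing R] (u : Rˣ) (t y : R) : affP u t y = u * y + t := rfl

namespace RD

variable {b : RD}

/-! ### The data -/

/-- data of the natural labels of the family `false`: windows `iA`, `iB` of type 2, the window `ic`
of the other family, the direction of the chain, the slopes of the tracks and of the columns -/
structure FN (b : RD) where
  iA : Fin 4
  iB : Fin 4
  ic : Fin 4
  dir : Bool
  η : ℕ → ℤ
  bA : Fin 4 → ℤ
  bB : Fin 4 → ℤ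

/-- column of the window near the other family -/
def near (dir e : Bool) : Fin 4 := if dir then lo e else hi e

/-- column of the window far from the other family -/
def far (dir e : Bool) : Fin 4 := if dir then hi e else lo e

/-- sign of a freed edge of a window -/
def sgw (b : RD) (i : Fin 4) (e : Bool) : ℤ := if b.J i (lo e) = b.L i e then 1 else -1

/-- slope of the classes of a window -/
def slp (b : RD) (i : Fin 4) (bI : Fin 4 → ℤ) (e : Bool) : ℤ :=
  b.sgw i e * (bI (hi e) - bI (lo e))

theorem sgw_sq (i : Fin 4) (e : Bool) : b.sgw i e * b.sgw i e = 1 := by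
  unfold sgw
  split_ifs <;> norm_num

/-- conditions for a window of type 2 -/
structure W2 (b : RD) (i : Fin 4) (bI : Fin 4 → ℤ) : Prop where
  d2 : ∀ e, b.d i e = 2
  sm : ∀ n, smz (bI n) = true
  al : ∀ e, bI (lo e) * ((b.c (b.st (false, i) + (lo e).val) : ℤ) - (b.cs (false, i) : ℤ)) =
    bI (hi e) * ((b.c (b.st (false, i) + (hi e).val) : ℤ) - (b.cs (false, i) : ℤ))
  sl : smz (b.slp i bI false) = true
  sn : b.slp i bI true = - b.slp i bI false

/-- conditions for the data -/
structure FN.Ok (f : FN b) (iD : Fin 4) : Prop where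
  AB : f.iA ≠ f.iB
  chG : ∀ e, b.st (false, f.iB) + (near f.dir e).val = b.st (true, f.ic) + (far f.dir e).val
  chB : ∀ e, b.st (false, f.iA) + (near f.dir e).val = b.st (false, f.iB) + (far f.dir e).val
  bAB : ∀ e, f.bA (near f.dir e) = f.bB (far f.dir e)
  bη : ∀ e, f.bB (near f.dir e) = f.η (b.J f.iB (near f.dir e) % 4)
  ηu : ∀ c < 4, smz (f.η c) = true
  wA : W2 b f.iA f.bA
  wB : W2 b f.iB f.bB
  d1 : ∀ i, i ≠ f.iA → i ≠ f.iB → ∀ e, b.d i e = 1
  sepA : ∀ m n : Fin 4, b.st (false, f.iA) + m.val ≠ b.st (false, iD) + n.val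
  sepB : ∀ m n : Fin 4, b.st (false, f.iB) + m.val ≠ b.st (false, iD) + n.val
  sepG : ∀ i m n : Fin 4, b.st (false, f.iA) + m.val ≠ b.st (true, i) + n.val

variable {R : Type*} [CommRing R]

/-! ### Labels and column bijections -/

section Labels

variable (h2 : IsUnit (2 : R)) (h3 : IsUnit (3 : R))

/-- track of a column -/
noncomputable def tkF (h : b.ROk) (v : b.V) : ℕ := b.trk ((re h false).symm v)

theorem tkF_lt (h : b.ROk) (v : b.V) : tkF h v < 4 := Nat.mod_lt _ (by norm_num)

theorem tkF_win (h : b.ROk) (hok : b.Ok) (r : ZMod b.k) (i n : Fin 4) :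
    tkF h (b.win r (false, i) n) = b.J i n % 4 := by
  unfold tkF
  rw [h.win_eq hok, re_symm, trk_e4]
  rfl

/-- the column bijections: strip label to real level -/
noncomputable def thF (h : b.ROk) (η : ℕ → ℤ) (hη : ∀ c < 4, smz (η c) = true) (v : b.V) :
    Perm R := affP ((smz_unit h2 h3 (hη _ (tkF_lt h v))).unit⁻¹) 0

theorem thF_apply (h : b.ROk) (η : ℕ → ℤ) (hη : ∀ c < 4, smz (η c) = true) (v : b.V) (z : R) :
    (η (tkF h v) : R) * thF h2 h3 h η hη v z = z := by
  unfold thF
  rw [affP_apply, add_zero, ← mul_assoc]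
  have h1 : (η (tkF h v) : R) * ↑((smz_unit h2 h3 (hη _ (tkF_lt h v))).unit⁻¹ : Rˣ) = 1 :=
    (smz_unit h2 h3 (hη _ (tkF_lt h v))).mul_val_inv
  rw [h1, one_mul]

theorem thF_iff (h : b.ROk) (η : ℕ → ℤ) (hη : ∀ c < 4, smz (η c) = true) (v : b.V) (y z : R) :
    y = thF h2 h3 h η hη v z ↔ (η (tkF h v) : R) * y = z := by
  constructor
  · rintro rfl
    exact thF_apply h2 h3 h η hη v z
  · intro h1
    have h4 := thF_apply h2 h3 h η hη v z
    rw [← h4] at h1
    exact (smz_unit h2 h3 (hη _ (tkF_lt h v))).mul_left_cancel h1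

end Labels

variable [Fintype R] [DecidableEq R]

/-- the labels of a window of type 2 -/
def Kw (b : RD) (i : Fin 4) (bI : Fin 4 → ℤ) (clc : ℕ → Finset R) : Finset R :=
  univ.filter fun κ => (b.slp i bI false : R) * κ ∈ clc (b.L i false % 4)

variable (hok : b.Ok) (h2 : IsUnit (2 : R)) (h3 : IsUnit (3 : R))
  (hg : ∀ y : R, ∃ j : ℕ, j • (1 : R) = y)

omit [Fintype R] [DecidableEq R] in
theorem image_unit_mul [DecidableEq R] [Fintype R] {s : R} (hs : IsUnit s) (A : Finset R) :
    (univ.filter fun κ => s * κ ∈ A).image (fun κ => s * κ) = A := by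
  obtain ⟨u, rfl⟩ := hs
  ext z
  simp only [mem_image, mem_filter, mem_univ, true_and]
  constructor
  · rintro ⟨κ, hκ, rfl⟩
    exact hκ
  · intro hz
    refine ⟨(u⁻¹ : Rˣ) * z, ?_, ?_⟩ <;> simp [hz]

theorem card_Kw (i : Fin 4) (bI : Fin 4 → ℤ) (clc : ℕ → Finset R) (hs : smz (b.slp i bI false) = true)
    (h2 : IsUnit (2 : R)) (h3 : IsUnit (3 : R)) :
    (Kw b i bI clc).card = (clc (b.L i false % 4)).card := by
  have hu := smz_unit h2 h3 hs
  conv_rhs => rw [← image_unit_mul hu (clc (b.L i false % 4))]
  rw [card_image_of_injective _ fun x y hxy => hu.mul_left_cancel hxy]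
  rfl

/-- the labels of a window of type 2 free the classes -/
theorem hK_win2 (h : b.ROk) (cl : ZMod (4 * b.k) → Finset R) (clc : ℕ → Finset R)
    (hcl : ∀ j, cl j = clc (b.trk j)) (Φ : ZMod b.k → Option b.V → Perm R) (θ : b.V → Perm R)
    (r : ZMod b.k) (i : Fin 4) (bI : Fin 4 → ℤ) (hw : W2 b i bI) (ν : Fin 4 → R) (τ : R)
    (hx : ∀ n y, Φ r (some (b.win r (false, i) n)) y =
      θ (b.win r (false, i) n) ((bI n : R) * y + ν n))
    (hν : ∀ e, (b.sgw i e : R) * (ν (hi e) - ν (lo e)) = if e then τ else 0)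
    (hneg : clc (b.L i true % 4) = (clc (b.L i false % 4)).image fun z => τ - z) (e : Bool) :
    push (fib (Φ r)) (∑ κ ∈ Kw b i bI clc, mt hok h2 h3 hg r (false, i) e κ) =
      push (emV b.V R) (push (fib θ) (gE h false cl (b.win r (false, i) (lo e))
        (b.win r (false, i) (hi e)))) := by
  have hs1 : IsUnit (b.slp i bI false : R) := smz_unit h2 h3 hw.sl
  have hse : IsUnit (b.slp i bI e : R) := by
    cases e
    · exact hs1
    · rw [hw.sn]
      push_cast
      exact hs1.neg
  have hse' : (b.slp i bI e : R) = (b.sgw i e : R) * ((bI (hi e) : R) - (bI (lo e) : R)) := by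
    unfold slp
    push_cast
    ring
  have hu : IsUnit ((bI (hi e) : R) - (bI (lo e) : R)) := by
    rw [hse'] at hse
    exact isUnit_of_mul_isUnit_right hse
  refine hK_two hok h2 h3 hg h cl Φ θ r i e (Kw b i bI clc) (β := (bI (lo e) : R))
    (β' := (bI (hi e) : R)) (μ := ν (lo e)) (μ' := ν (hi e)) (smz_unit h2 h3 (hw.sm _))
    (hx _) (hx _) ?_ (hw.d2 e) hu ?_
  · have h5 := congrArg (Int.cast : ℤ → R) (hw.al e)
    push_cast at h5
    exact h5
  · rw [hcl, trk_e4]
    have e1 : ∀ κ : R, (if b.J i (lo e) = b.L i e then (1 : R) else -1) *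
        (((bI (hi e) : R) - (bI (lo e) : R)) * κ + (ν (hi e) - ν (lo e))) =
        (b.slp i bI e : R) * κ + if e then τ else 0 := by
      intro κ
      have e2 : (if b.J i (lo e) = b.L i e then (1 : R) else -1) = (b.sgw i e : R) := by
        unfold sgw
        split_ifs <;> simp
      rw [e2, ← hν e, hse']
      ring
    rw [image_congr fun κ _ => e1 κ]
    cases e
    · simp only [Bool.false_eq_true, if_false, add_zero]
      exact image_unit_mul hs1 _
    · simp only [if_true]
      rw [hneg, ← image_unit_mul hs1 (clc (b.L i false % 4)), image_image]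
      refine image_congr fun κ _ => ?_
      rw [hw.sn]
      show _ = τ - _ * κ
      push_cast
      ring

/-! ### The choice of the constants -/

omit [Fintype R] [DecidableEq R] in
/-- the two edges and the two ends give the four columns -/
theorem exists_ends (dir : Bool) (n : Fin 4) : ∃ e, n = near dir e ∨ n = far dir e := by
  revert dir n
  decide

/-- edge of a column -/
def eo (n : Fin 4) : Bool := n = 1 || n = 3

/-- is the column near -/
def nb (dir : Bool) (n : Fin 4) : Bool := (n.val < 2) == dir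

theorem eo_near (dir e : Bool) : eo (near dir e) = e := by revert dir e; decide
theorem eo_far (dir e : Bool) : eo (far dir e) = e := by revert dir e; decide
theorem nb_near (dir e : Bool) : nb dir (near dir e) = true := by revert dir e; decide
theorem nb_far (dir e : Bool) : nb dir (far dir e) = false := by revert dir e; decide

omit [Fintype R] [DecidableEq R] in
theorem hi_lo (dir e : Bool) (σ : ℤ) (hσ : σ * σ = 1) (ν : Fin 4 → R) (t : R)
    (h : ν (far dir e) = ν (near dir e) + ((if dir then 1 else -1 : ℤ) : R) * (σ : R) * t) :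
    (σ : R) * (ν (hi e) - ν (lo e)) = t := by
  have hσ' : (σ : R) * (σ : R) = 1 := by exact_mod_cast congrArg (Int.cast : ℤ → R) hσ
  cases dir
  · have h1 : ν (lo e) = ν (hi e) + ((if false then 1 else -1 : ℤ) : R) * (σ : R) * t := h
    rw [h1]
    simp only [Bool.false_eq_true, if_false]
    push_cast
    linear_combination t * hσ'
  · have h1 : ν (hi e) = ν (lo e) + ((if true then 1 else -1 : ℤ) : R) * (σ : R) * t := h
    rw [h1]
    simp only [if_true]
    push_cast
    linear_combination t * hσ'

/-- **The edges freed by the dense family over a concrete base.** -/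
theorem free_nat (h : b.ROk) (f : FN b) (iD : Fin 4) (hf : f.Ok iD)
    (cl : ZMod (4 * b.k) → Finset R) (clc : ℕ → Finset R) (hcl : ∀ j, cl j = clc (b.trk j))
    (τA τB : R)
    (hnA : clc (b.L f.iA true % 4) = (clc (b.L f.iA false % 4)).image fun z => τA - z)
    (hnB : clc (b.L f.iB true % 4) = (clc (b.L f.iB false % 4)).image fun z => τB - z)
    (Φ₁ : ZMod b.k → b.V → Perm R) (ζ : ZMod b.k → Fin 4 → R)
    (hΦ₁ : ∀ r n y, Φ₁ r (b.win r (true, f.ic) n) y = y + ζ r n) :
    ∃ Φ₀ : ZMod b.k → b.V → Perm R,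
      (∀ r v, (∀ n, v ≠ b.win r (false, f.iA) n) → Φ₀ r v = Φ₁ r v) ∧
      ∀ Φ : ZMod b.k → Option b.V → Perm R,
        (∀ r v, (∀ n, v ≠ b.win r (false, iD) n) → Φ r (some v) = Φ₀ r v) →
        push (emV b.V R) (push (fib (thF h2 h3 h f.η hf.ηu)) (stripE false cl)) =
          ∑ r, push (fib (Φ r)) (∑ i : Fin 4, ∑ κ ∈ (if i = f.iA then Kw b f.iA f.bA clc else
            if i = f.iB then Kw b f.iB f.bB clc else univ),
              ((b.row hok h2 h3 hg r).mac (false, i) κ +
                (b.row hok h2 h3 hg r).mbd (false, i) κ)) := by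
  classical
  have wne : ∀ (r : ZMod b.k) {i j : WSys} {m n : Fin 4}, b.st i + m.val ≠ b.st j + n.val →
      b.win r i m ≠ b.win r j n := by
    intro r i j m n h0 h1
    have h2' : (some (b.win r i m) : Option b.V) = some (b.win r j n) := congrArg some h1
    rw [← pn_win hok, ← pn_win hok] at h2'
    have g1 := hok.st_lt i
    have g2 := hok.st_lt j
    have g3 := m.isLt
    have g4 := n.isLt
    exact h0 (b.pn_inj r (by omega) (by omega) h2')
  have weq : ∀ (r : ZMod b.k) {i j : WSys} {m n : Fin 4}, b.st i + m.val = b.st j + n.val →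
      b.win r i m = b.win r j n := by
    intro r i j m n h0
    have h1 := pn_win hok r i m
    rw [h0, pn_win hok] at h1
    exact (Option.some_injective _ h1).symm
  -- constants
  let sd : R := ((if f.dir then 1 else -1 : ℤ) : R)
  let tB : Bool → R := fun e => if e then τB else 0
  let tA : Bool → R := fun e => if e then τA else 0
  let νG : ZMod b.k → Bool → R := fun r e =>
    (f.η (b.J f.iB (near f.dir e) % 4) : R) * ζ r (far f.dir e)
  let νB : ZMod b.k → Fin 4 → R := fun r n =>
    if nb f.dir n then νG r (eo n) else νG r (eo n) + sd * (b.sgw f.iB (eo n) : R) * tB (eo n)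
  let νA : ZMod b.k → Fin 4 → R := fun r n =>
    if nb f.dir n then νB r (far f.dir (eo n)) else
      νB r (far f.dir (eo n)) + sd * (b.sgw f.iA (eo n) : R) * tA (eo n)
  have uη : ∀ n, IsUnit (f.η (b.J f.iA n % 4) : R) := fun n =>
    smz_unit h2 h3 (hf.ηu _ (Nat.mod_lt _ (by norm_num)))
  have ub : ∀ n, IsUnit (f.bA n : R) := fun n => smz_unit h2 h3 (hf.wA.sm n)
  let Ψ : ZMod b.k → Fin 4 → Perm R := fun r n =>
    affP ((uη n).unit⁻¹ * (ub n).unit) (((uη n).unit⁻¹ : Rˣ) * νA r n)
  have hΨ : ∀ r n y, (f.η (b.J f.iA n % 4) : R) * Ψ r n y = (f.bA n : R) * y + νA r n := by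
    intro r n y
    have h4 : (f.η (b.J f.iA n % 4) : R) * ((uη n).unit⁻¹ : Rˣ) = 1 := (uη n).mul_val_inv
    show _ * (((((uη n).unit⁻¹ * (ub n).unit : Rˣ) : R)) * y + _ * νA r n) = _
    rw [Units.val_mul, IsUnit.unit_spec (ub n)]
    linear_combination ((f.bA n : R) * y + νA r n) * h4
  -- the bijections
  let Φ₀ : ZMod b.k → b.V → Perm R := fun r v =>
    if v = b.win r (false, f.iA) 0 then Ψ r 0 else if v = b.win r (false, f.iA) 1 then Ψ r 1 else
      if v = b.win r (false, f.iA) 2 then Ψ r 2 else
        if v = b.win r (false, f.iA) 3 then Ψ r 3 else Φ₁ r v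
  have hw4 : ∀ (r : ZMod b.k) (m n : Fin 4), m ≠ n →
      b.win r (false, f.iA) m ≠ b.win r (false, f.iA) n := by
    intro r m n hmn
    exact wne r (by
      intro h0
      apply hmn
      exact Fin.ext (by omega))
  have hΦA : ∀ r n, Φ₀ r (b.win r (false, f.iA) n) = Ψ r n := by
    intro r n
    show (if _ then _ else _) = _
    fin_cases n
    · exact if_pos rfl
    · have h10 := hw4 r 1 0 (by decide)
      show (if b.win r (false, f.iA) 1 = _ then _ else if b.win r (false, f.iA) 1 = _ then _
        else _) = _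
      rw [if_neg h10, if_pos rfl]
      rfl
    · have h20 := hw4 r 2 0 (by decide)
      have h21 := hw4 r 2 1 (by decide)
      show (if b.win r (false, f.iA) 2 = _ then _ else if b.win r (false, f.iA) 2 = _ then _
        else if b.win r (false, f.iA) 2 = _ then _ else _) = _
      rw [if_neg h20, if_neg h21, if_pos rfl]
      rfl
    · have h30 := hw4 r 3 0 (by decide)
      have h31 := hw4 r 3 1 (by decide)
      have h32 := hw4 r 3 2 (by decide)
      show (if b.win r (false, f.iA) 3 = _ then _ else if b.win r (false, f.iA) 3 = _ then _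
        else if b.win r (false, f.iA) 3 = _ then _ else if b.win r (false, f.iA) 3 = _ then _
          else _) = _
      rw [if_neg h30, if_neg h31, if_neg h32, if_pos rfl]
      rfl
  have hΦo : ∀ r v, (∀ n, v ≠ b.win r (false, f.iA) n) → Φ₀ r v = Φ₁ r v := by
    intro r v hv
    show (if v = _ then _ else if v = _ then _ else if v = _ then _ else if v = _ then _
      else _) = _
    rw [if_neg (hv 0), if_neg (hv 1), if_neg (hv 2), if_neg (hv 3)]
  refine ⟨Φ₀, hΦo, fun Φ hΦ => ?_⟩
  -- columns of `A`
  have hxA : ∀ r n y, Φ r (some (b.win r (false, f.iA) n)) y =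
      thF h2 h3 h f.η hf.ηu (b.win r (false, f.iA) n) ((f.bA n : R) * y + νA r n) := by
    intro r n y
    rw [hΦ r _ fun m => wne r (hf.sepA n m), hΦA, thF_iff, tkF_win h hok, hΨ]
  -- columns of `B`
  have hxB : ∀ r n y, Φ r (some (b.win r (false, f.iB) n)) y =
      thF h2 h3 h f.η hf.ηu (b.win r (false, f.iB) n) ((f.bB n : R) * y + νB r n) := by
    intro r n y
    obtain ⟨e, he | he⟩ := exists_ends f.dir n
    · -- shared with the other family
      subst he
      have hne : ∀ m, b.win r (false, f.iB) (near f.dir e) ≠ b.win r (false, f.iA) m := by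
        intro m
        rw [weq r (hf.chG e)]
        exact (wne r (hf.sepG f.ic m (far f.dir e))).symm
      rw [hΦ r _ fun m => wne r (hf.sepB _ m), hΦo r _ hne, thF_iff, tkF_win h hok]
      rw [weq r (hf.chG e), hΦ₁]
      show _ = _ + (if nb f.dir (near f.dir e) then _ else _)
      rw [if_pos (nb_near _ _), eo_near, hf.bη]
      show _ = _ + (f.η (b.J f.iB (near f.dir e) % 4) : R) * ζ r (far f.dir e)
      ring
    · subst he
      have e1 : b.win r (false, f.iB) (far f.dir e) = b.win r (false, f.iA) (near f.dir e) :=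
        (weq r (hf.chB e)).symm
      rw [e1, hxA, hf.bAB]
      congr 2
      show (if nb f.dir (near f.dir e) then _ else _) = _
      rw [if_pos (nb_near _ _), eo_near]
  have hnuB : ∀ r e, (b.sgw f.iB e : R) * (νB r (hi e) - νB r (lo e)) = if e then τB else 0 := by
    intro r e
    refine hi_lo f.dir e _ (sgw_sq _ _) (νB r) _ ?_
    show (if nb f.dir (far f.dir e) then _ else _) = (if nb f.dir (near f.dir e) then _ else _) + _
    rw [nb_far, nb_near, eo_far, eo_near]
    rfl
  have hnuA : ∀ r e, (b.sgw f.iA e : R) * (νA r (hi e) - νA r (lo e)) = if e then τA else 0 := by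
    intro r e
    refine hi_lo f.dir e _ (sgw_sq _ _) (νA r) _ ?_
    show (if nb f.dir (far f.dir e) then _ else _) = (if nb f.dir (near f.dir e) then _ else _) + _
    rw [nb_far, nb_near, eo_far, eo_near]
    rfl
  refine free_family hok h2 h3 hg h false cl Φ _ (fun _ i => if i = f.iA then
    Kw b f.iA f.bA clc else if i = f.iB then Kw b f.iB f.bB clc else univ) ?_
  intro r i e
  show push (fib (Φ r)) (∑ κ ∈ (if i = f.iA then _ else if i = f.iB then _ else univ), _) = _
  by_cases hiA : i = f.iA
  · rw [if_pos hiA, hiA]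
    exact hK_win2 hok h2 h3 hg h cl clc hcl Φ _ r f.iA f.bA hf.wA (νA r) τA (hxA r) (hnuA r) hnA e
  · rw [if_neg hiA]
    by_cases hiB : i = f.iB
    · rw [if_pos hiB, hiB]
      exact hK_win2 hok h2 h3 hg h cl clc hcl Φ _ r f.iB f.bB hf.wB (νB r) τB (hxB r) (hnuB r)
        hnB e
    · rw [if_neg hiB]
      exact hK_one hok h2 h3 hg h false cl Φ _ r i e (by
        simp only [Bool.false_eq_true, if_false]
        exact hf.d1 i hiA hiB e)

end RD

end SqIns
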