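import Pool.Agent.Lib.SqIns.FCls

/-!
# The places of the squares of the dense family

At a place the letters `n, n + 1` lie over one column and `n + 2, n + 3` over the next column.  The
place is repeated in every block, so every square has the place over the pair of columns of every
row.
-/

open Finset Equiv

namespace SqIns

open Tw

/-- a square or its inverse -/
def ori {X : Type*} (d : Bool) (s : Perm X) : Perm X := if d then s else s⁻¹

theorem ori_false {X : Type*} {s : Perm X} {a c : X} (h : s a = c) : ori false s c = a := by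
  show s⁻¹ c = a
  rw [Perm.inv_eq_iff_eq, h]

theorem closed_ori {X : Type*} {s : Perm X} (h : Closed s) (d : Bool) : Closed (ori d s) := by
  cases d
  · exact fun x y => (h x y).inv
  · exact h

theorem E_ori {X : Type*} [Fintype X] [DecidableEq X] (s : Perm X) (d : Bool) :
    E (ori d s) = E s := by
  cases d
  · exact E_inv s
  · rfl

/-- class of the outer column -/
def Lo (up : Bool) (L : ℕ) : ℕ := if up then L else L + 1

/-- class of the inner column -/
def Li (up : Bool) (L : ℕ) : ℕ := if up then L + 1 else L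

/-- the letter `q` of the place, as a label in real digits; a place is `(n, fw)`: `fw` says that the
letters `n`, `n + 1` lie over the outer column -/
def zN (m p : ℕ) (ε : ℤ) (W : TWord) (up : Bool) (L : ℕ) (n : ℕ × Bool) : ℤ :=
  ε ^ Lo up L * (labN (p * m) W (if n.2 then n.1 + 1 else n.1 + 2) : ℤ)

/-- the letter `n` starts a place in the class `L`, the seam at the letter `ns` is not in it -/
def plc (m p : ℕ) (W : TWord) (up : Bool) (L ns : ℕ) (n : ℕ × Bool) : Bool :=
  decide (colN (p * m) p W (n.1 + 1) = colN (p * m) p W n.1) &&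
  decide (colN (p * m) p W (n.1 + 2) = colN (p * m) p W n.1 + (if n.2 == up then 1 else -1)) &&
  decide (colN (p * m) p W (n.1 + 3) = colN (p * m) p W n.1 + (if n.2 == up then 1 else -1)) &&
  decide ((colN (p * m) p W n.1 - ((if n.2 then Lo up L else Li up L : ℕ) : ℤ)) % (p : ℤ) = 0) &&
  decide (n.1 % (p * m) ≠ ns) && decide ((n.1 + 1) % (p * m) ≠ ns) &&
  decide ((n.1 + 2) % (p * m) ≠ ns)

/-- the places `P` with the digit levels `G` serve all squares `x ≠ 0` -/
def chkP (m p : ℕ) (ε : ℤ) (W : TWord) (up : Bool) (L ns : ℕ) (P : List (ℕ × Bool))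
    (G : List ℕ) : Bool :=
  (P.all fun n => plc m p W up L ns n) && decide (ns < p * m) &&
  (List.range m).all fun x => x == 0 || P.any fun n => G.any fun D =>
    decide ((zN m p ε W up L n + (x : ℤ) - (D : ℤ)) % (m : ℤ) = 0)

section Sgn

variable {m : ℕ} {ε : ℤ} {b : RD}

theorem sg_trk [NeZero m] (hε : ε * ε = 1) (j : ZMod (4 * b.k)) :
    (sg m ε j : ZMod m) = (ε : ZMod m) ^ b.trk j := by
  unfold sg RD.trk
  have h4 : (ε : ZMod m) ^ 4 = 1 := by
    have := eps_unit (m := m) hε 2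
    rw [← pow_add] at this
    exact this
  conv_lhs => rw [← Nat.div_add_mod j.val 4, pow_add, pow_mul, h4, one_pow, one_mul]

theorem pow_mod4 [NeZero m] (hε : ε * ε = 1) (n : ℕ) : (ε : ZMod m) ^ (n % 4) = (ε : ZMod m) ^ n := by
  have h4 : (ε : ZMod m) ^ 4 = 1 := by
    have := eps_unit (m := m) hε 2
    rw [← pow_add] at this
    exact this
  conv_rhs => rw [← Nat.div_add_mod n 4, pow_add, pow_mul, h4, one_pow, one_mul]

end Sgn

namespace RD

variable {b : RD} {m p B : ℕ} [NeZero m] [NeZero p] [NeZero B] {ε : ℤ}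

/-- ring index of the lower column of the pair in the row `r` -/
def li (b : RD) (L : ℕ) (r : ZMod b.k) : ZMod (4 * b.k) := (L : ZMod (4 * b.k)) + b.e4 (b.gi * r)

/-- outer column of the pair -/
def oc (b : RD) (up : Bool) (L : ℕ) (r : ZMod b.k) : b.V :=
  b.rgF false (if up then b.li L r else b.li L r + 1)

/-- inner column of the pair -/
def icn (b : RD) (up : Bool) (L : ℕ) (r : ZMod b.k) : b.V :=
  b.rgF false (if up then b.li L r + 1 else b.li L r)

omit [NeZero m] [NeZero p] in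
theorem exists_block (hpB : p * B = 4 * b.k) (hp4 : p ∣ 4) (W : TWord) (n L : ℕ)
    (hcol : (colN (p * m) p W n - (L : ℤ)) % (p : ℤ) = 0) (r : ZMod b.k) :
    ∃ c < B, b.ri m p W n c = b.li L r := by
  obtain ⟨t, ht⟩ := Int.dvd_of_emod_eq_zero hcol
  obtain ⟨p', hp'⟩ := hp4
  have hB : 0 < (B : ℤ) := by
    have := Nat.pos_of_ne_zero (NeZero.ne B)
    exact_mod_cast this
  have h0 := Int.emod_nonneg ((p' : ℤ) * ((b.gi * r : ZMod b.k).val : ℤ) - t) hB.ne'
  have h1 := Int.emod_lt_of_pos ((p' : ℤ) * ((b.gi * r : ZMod b.k).val : ℤ) - t) hB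
  obtain ⟨c, hc⟩ := Int.eq_ofNat_of_zero_le h0
  refine ⟨c, by omega, ?_⟩
  have h2 := Int.emod_add_mul_ediv ((p' : ℤ) * ((b.gi * r : ZMod b.k).val : ℤ) - t) (B : ℤ)
  rw [hc] at h2
  have h3 : colN (p * m) p W n + ((p * c : ℕ) : ℤ) = (L : ℤ) +
      ((4 * (b.gi * r : ZMod b.k).val : ℕ) : ℤ) -
      ((4 * b.k : ℕ) : ℤ) * (((p' : ℤ) * ((b.gi * r : ZMod b.k).val : ℤ) - t) / (B : ℤ)) := by
    rw [← hpB]
    have h4 : ((4 * (b.gi * r : ZMod b.k).val : ℕ) : ℤ) =
        (p : ℤ) * ((p' : ℤ) * ((b.gi * r : ZMod b.k).val : ℤ)) := by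
      rw [hp']
      push_cast
      ring
    rw [h4]
    push_cast
    linear_combination ht + (p : ℤ) * h2
  unfold ri li e4
  have h5 := congrArg (Int.cast : ℤ → ZMod (4 * b.k)) h3
  rw [Int.cast_add, Int.cast_sub, Int.cast_mul, Int.cast_natCast (4 * b.k), ZMod.natCast_self,
    zero_mul, sub_zero, Int.cast_add, Int.cast_natCast, Int.cast_natCast, Int.cast_natCast] at h5
  exact h5

omit [NeZero m] [NeZero p] [NeZero B] in
theorem ri_add (W : TWord) (n n' c : ℕ) (e : ℤ)
    (h : colN (p * m) p W n' = colN (p * m) p W n + e) :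
    b.ri m p W n' c = b.ri m p W n c + (e : ZMod (4 * b.k)) := by
  unfold ri
  rw [h]
  push_cast
  ring

theorem sg_li (hε : ε * ε = 1) (L : ℕ) (r : ZMod b.k) :
    (sg m ε (b.li L r) : ZMod m) = (ε : ZMod m) ^ L := by
  unfold li
  rw [sg_trk hε, trk_e4, pow_mod4 hε]

theorem sg_li1 (hε : ε * ε = 1) (L : ℕ) (r : ZMod b.k) :
    (sg m ε (b.li L r + 1) : ZMod m) = (ε : ZMod m) ^ (L + 1) := by
  have e : b.li L r + 1 = b.li (L + 1) r := by
    unfold li
    push_cast
    ring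
  rw [e, sg_li hε]

omit [NeZero m] [NeZero p] [NeZero B] in
theorem li_succ (L : ℕ) (r : ZMod b.k) : b.li (L + 1) r = b.li L r + 1 := by
  unfold li
  push_cast
  ring

omit [NeZero m] [NeZero p] [NeZero B] in
theorem oc_eq (up : Bool) (L : ℕ) (r : ZMod b.k) :
    b.oc up L r = b.rgF false (b.li (Lo up L) r) := by
  unfold oc Lo
  cases up
  · simp only [Bool.false_eq_true, if_false]
    rw [li_succ]
  · rfl

omit [NeZero m] [NeZero p] [NeZero B] in
theorem icn_eq (up : Bool) (L : ℕ) (r : ZMod b.k) :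
    b.icn up L r = b.rgF false (b.li (Li up L) r) := by
  unfold icn Li
  cases up
  · rfl
  · simp only [if_true]
    rw [li_succ]

omit [NeZero m] [NeZero p] [NeZero B] in
/-- the ring index of the letters `n + 2`, `n + 3` -/
theorem li_step (up fw : Bool) (L : ℕ) (r : ZMod b.k) :
    b.li (if fw then Lo up L else Li up L) r + (((if fw == up then 1 else -1 : ℤ)) :
      ZMod (4 * b.k)) = b.li (if fw then Li up L else Lo up L) r := by
  cases up <;> cases fw <;>
  simp only [Lo, Li, Bool.false_eq_true, if_false, if_true, beq_self_eq_true,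
    show (true == false) = false from rfl, show (false == true) = false from rfl, li_succ] <;>
  push_cast <;> ring

variable {S : Type*} [CommRing S]

/-- the four letters of a place and their columns -/
theorem exists_letters (hpB : p * B = 4 * b.k) (hp4 : p ∣ 4) {W : TWord} (up : Bool)
    (L ns : ℕ) (n : ℕ × Bool) (hn : plc m p W up L ns n = true) (r : ZMod b.k) :
    ∃ c < B, b.ri m p W n.1 c = b.li (if n.2 then Lo up L else Li up L) r ∧
      b.ri m p W (n.1 + 1) c = b.li (if n.2 then Lo up L else Li up L) r ∧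
      b.ri m p W (n.1 + 2) c = b.li (if n.2 then Li up L else Lo up L) r ∧
      b.ri m p W (n.1 + 3) c = b.li (if n.2 then Li up L else Lo up L) r := by
  simp only [plc, Bool.and_eq_true, decide_eq_true_eq] at hn
  obtain ⟨⟨⟨⟨⟨⟨c1, c2⟩, c3⟩, c4⟩, s0⟩, s1⟩, s2⟩ := hn
  obtain ⟨c, hc, hri⟩ := exists_block (m := m) hpB hp4 W n.1 _ c4 r
  refine ⟨c, hc, hri, ?_, ?_, ?_⟩
  · rw [ri_add W n.1 (n.1 + 1) c 0 (by rw [c1, add_zero]), hri]
    push_cast
    rw [add_zero]
  · rw [ri_add W n.1 (n.1 + 2) c _ c2, hri, li_step]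
  · rw [ri_add W n.1 (n.1 + 3) c _ c3, hri, li_step]

theorem OFS_place (h : b.ROk) (hpB : p * B = 4 * b.k) (hp4 : p ∣ 4) (hε : ε * ε = 1) {W : TWord}
    (hok : okT m p W = true) (F : List ℕ) (z0 : ZMod (p * m) × ZMod B) {J : Type*}
    (FJ : J → Perm ((b.V × ZMod m) × S)) (θ : b.V → Perm (ZMod m × S)) (up : Bool) (L ns : ℕ)
    (n : ℕ × Bool) (hns : ns < p * m) (hz : z0.1 = (ns : ZMod (p * m)))
    (hn : plc m p W up L ns n = true) (z : {x : ZMod m // x ≠ 0} × S) (r : ZMod b.k) (f : S) :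
    ∃ y0 y2 y3 : ZMod m × S,
      ori n.2 (OFS h hpB hε hok F z0 FJ θ (.inl z)) (b.oc up L r, y0) =
        (b.oc up L r, θ (b.oc up L r) ((zN m p ε W up L n : ZMod m) + z.1.val, f)) ∧
      ori n.2 (OFS h hpB hε hok F z0 FJ θ (.inl z))
        (b.oc up L r, θ (b.oc up L r) ((zN m p ε W up L n : ZMod m) + z.1.val, f)) =
        (b.icn up L r, y2) ∧
      ori n.2 (OFS h hpB hε hok F z0 FJ θ (.inl z)) (b.icn up L r, y2) = (b.icn up L r, y3) := by
  have hq : 0 < p * m := Nat.pos_of_ne_zero (NeZero.ne _)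
  obtain ⟨c, hc, hri, hri1, hri2, hri3⟩ := exists_letters (b := b) hpB hp4 up L ns n hn r
  simp only [plc, Bool.and_eq_true, decide_eq_true_eq] at hn
  obtain ⟨⟨⟨⟨⟨⟨c1, c2⟩, c3⟩, c4⟩, s0⟩, s1⟩, s2⟩ := hn
  have hseam : ∀ i : ℕ, i % (p * m) ≠ ns →
      ((i : ZMod (p * m)), ((c + i / (p * m) : ℕ) : ZMod B)) ≠ z0 := by
    intro i hi h1
    have h2 := (Prod.ext_iff.1 h1).1
    simp only at h2
    rw [hz, ZMod.natCast_eq_natCast_iff] at h2
    apply hi
    have h3 : i % (p * m) = ns % (p * m) := h2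
    rwa [Nat.mod_eq_of_lt hns] at h3
  have st0 := fun g => OFS_inl h hpB hε hok F z0 FJ θ z n.1 c hc (hseam _ s0) g
  have st1 := fun g => OFS_inl h hpB hε hok F z0 FJ θ z (n.1 + 1) c hc (hseam _ s1) g
  have st2 := fun g => OFS_inl h hpB hε hok F z0 FJ θ z (n.1 + 2) c hc (hseam _ s2) g
  have eLT : ∀ (i : ℕ) (j : ZMod (4 * b.k)) (g : S), b.ri m p W i c = j →
      LTS b m p ε θ W z.1.val i c g = (b.rgF false j, θ (b.rgF false j)
        (sg m ε j * (labN (p * m) W i : ZMod m) + z.1.val, g)) := by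
    intro i j g hij
    unfold LTS
    rw [hij]
  rw [oc_eq, icn_eq]
  obtain ⟨n, fw⟩ := n
  cases fw
  · -- backwards
    simp only [Bool.false_eq_true, if_false] at hri hri1 hri2 hri3
    have a1 := st1 (f - ((fcN (p * m) F (n + 2) : S) - (fcN (p * m) F (n + 1) : S)) * z.2)
    rw [sub_add_cancel] at a1
    have a2 := st2 f
    have a0 := st0 (f - ((fcN (p * m) F (n + 2) : S) - (fcN (p * m) F (n + 1) : S)) * z.2 -
      ((fcN (p * m) F (n + 1) : S) - (fcN (p * m) F n : S)) * z.2)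
    rw [sub_add_cancel] at a0
    rw [eLT _ _ _ hri1] at a1 a0
    rw [eLT _ _ _ hri2] at a1 a2
    rw [eLT _ _ _ hri3] at a2
    rw [eLT _ _ _ hri] at a0
    rw [sg_li hε (Lo up L)] at a1 a2
    have ez : (ε : ZMod m) ^ Lo up L * (labN (p * m) W (n + 2) : ZMod m) =
        (zN m p ε W up L (n, false) : ZMod m) := by
      unfold zN
      push_cast
      rfl
    rw [ez] at a1 a2
    exact ⟨_, _, _, ori_false a2, ori_false a1, ori_false a0⟩
  · simp only [if_true] at hri hri1 hri2 hri3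
    have a0 := st0 (f - ((fcN (p * m) F (n + 1) : S) - (fcN (p * m) F n : S)) * z.2)
    rw [sub_add_cancel] at a0
    have a1 := st1 f
    have a2 := st2 (f + ((fcN (p * m) F (n + 2) : S) - (fcN (p * m) F (n + 1) : S)) * z.2)
    rw [eLT _ _ _ hri] at a0
    rw [eLT _ _ _ hri1] at a0 a1
    rw [eLT _ _ _ hri2] at a1 a2
    rw [eLT _ _ _ hri3] at a2
    rw [sg_li hε (Lo up L)] at a0 a1
    have ez : (ε : ZMod m) ^ Lo up L * (labN (p * m) W (n + 1) : ZMod m) =
        (zN m p ε W up L (n, true) : ZMod m) := by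
      unfold zN
      push_cast
      rfl
    rw [ez] at a0 a1
    exact ⟨_, _, _, a0, a1, a2⟩

/-- the place of the square `0` of the digit strip -/
theorem OF1_host (h : b.ROk) (hpB : p * B = 4 * b.k) (hp4 : p ∣ 4) (hε : ε * ε = 1) {W : TWord}
    (hok : okT m p W = true) (up : Bool) (L ns : ℕ) (n : ℕ × Bool)
    (hn : plc m p W up L ns n = true) (r : ZMod b.k) :
    ∃ y0 y2 y3 : ZMod m,
      ori n.2 (OF1 h hpB hε hok 0) (b.oc up L r, y0) =
        (b.oc up L r, (zN m p ε W up L n : ZMod m)) ∧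
      ori n.2 (OF1 h hpB hε hok 0) (b.oc up L r, (zN m p ε W up L n : ZMod m)) =
        (b.icn up L r, y2) ∧
      ori n.2 (OF1 h hpB hε hok 0) (b.icn up L r, y2) = (b.icn up L r, y3) := by
  obtain ⟨c, hc, hri, hri1, hri2, hri3⟩ := exists_letters (b := b) hpB hp4 up L ns n hn r
  have a0 := OF_LT h hpB (fun _ => 1) hε hok 0 n.1 c hc
  have a1 := OF_LT h hpB (fun _ => 1) hε hok 0 (n.1 + 1) c hc
  have a2 := OF_LT h hpB (fun _ => 1) hε hok 0 (n.1 + 2) c hc
  have eLT : ∀ (i : ℕ) (j : ZMod (4 * b.k)), b.ri m p W i c = j →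
      LT b m p ε (fun _ => 1) W 0 i c =
        (b.rgF false j, sg m ε j * (labN (p * m) W i : ZMod m)) := by
    intro i j hij
    unfold LT
    rw [hij, add_zero]
    rfl
  rw [oc_eq, icn_eq]
  rw [eLT _ _ hri] at a0
  rw [eLT _ _ hri1] at a0 a1
  rw [eLT _ _ hri2] at a1 a2
  rw [eLT _ _ hri3] at a2
  obtain ⟨n, fw⟩ := n
  cases fw
  · simp only [Bool.false_eq_true, if_false] at a0 a1 a2
    rw [sg_li hε (Lo up L)] at a1 a2
    have ez : (ε : ZMod m) ^ Lo up L * (labN (p * m) W (n + 2) : ZMod m) =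
        (zN m p ε W up L (n, false) : ZMod m) := by
      unfold zN
      push_cast
      rfl
    rw [ez] at a1 a2
    exact ⟨_, _, _, ori_false a2, ori_false a1, ori_false a0⟩
  · simp only [if_true] at a0 a1 a2
    rw [sg_li hε (Lo up L)] at a0 a1
    have ez : (ε : ZMod m) ^ Lo up L * (labN (p * m) W (n + 1) : ZMod m) =
        (zN m p ε W up L (n, true) : ZMod m) := by
      unfold zN
      push_cast
      rfl
    rw [ez] at a0 a1
    exact ⟨_, _, _, a0, a1, a2⟩

omit [NeZero m] [NeZero p] [NeZero B] [CommRing S] in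
theorem ori_permCongr {X Y : Type*} (e : X ≃ Y) (s : Perm X) (d : Bool) :
    ori d (e.permCongr s) = e.permCongr (ori d s) := by
  cases d
  · refine Equiv.ext fun y => ?_
    show (e.permCongr s)⁻¹ y = e (s⁻¹ (e.symm y))
    rw [Perm.inv_eq_iff_eq, Equiv.permCongr_apply, Equiv.symm_apply_apply]
    simp
  · rfl

/-- **The places of all squares**: `G` digit levels of the groups, `Dg` their fine digits. -/
theorem places (h : b.ROk) (hpB : p * B = 4 * b.k) (hp4 : p ∣ 4) (hε : ε * ε = 1) {W : TWord}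
    (hok : okT m p W = true) (F : List ℕ) (z0 : ZMod (p * m) × ZMod B) {J : Type*}
    (FJ : J → Perm ((b.V × ZMod m) × S)) (θ : b.V → Perm (ZMod m × S)) (up : Bool) (L ns : ℕ)
    (hz : z0.1 = (ns : ZMod (p * m))) (P : List (ℕ × Bool)) (G : List ℕ)
    (hch : chkP m p ε W up L ns P G = true) (Dg : Fin G.length → S)
    (hJ : ∀ j : J, ∃ (γ : Fin G.length) (dir : Bool), ∀ r : ZMod b.k,
      ∃ w0 w2 w3 : (b.V × ZMod m) × S, w0.1.1 = b.oc up L r ∧ w2.1.1 = b.icn up L r ∧
        w3.1.1 = b.icn up L r ∧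
        ori dir (FJ j) w0 = ((b.oc up L r, ((G.get γ : ℕ) : ZMod m)), Dg γ) ∧
        ori dir (FJ j) ((b.oc up L r, ((G.get γ : ℕ) : ZMod m)), Dg γ) = w2 ∧
        ori dir (FJ j) w2 = w3) :
    ∃ (g : JS m S J → Fin G.length) (o : JS m S J → Bool), ∀ j (r : ZMod b.k),
      ∃ y0 y2 y3 : ZMod m × S,
        ori (o j) (OFS h hpB hε hok F z0 FJ θ j) (b.oc up L r, y0) =
          (b.oc up L r, θ (b.oc up L r) (((G.get (g j) : ℕ) : ZMod m), Dg (g j))) ∧
        ori (o j) (OFS h hpB hε hok F z0 FJ θ j)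
          (b.oc up L r, θ (b.oc up L r) (((G.get (g j) : ℕ) : ZMod m), Dg (g j))) =
          (b.icn up L r, y2) ∧
        ori (o j) (OFS h hpB hε hok F z0 FJ θ j) (b.icn up L r, y2) = (b.icn up L r, y3) := by
  simp only [chkP, Bool.and_eq_true, List.all_eq_true, decide_eq_true_eq] at hch
  obtain ⟨⟨c1, c2⟩, c3⟩ := hch
  have key : ∀ j : JS m S J, ∃ (γ : Fin G.length) (d : Bool), ∀ r : ZMod b.k,
      ∃ y0 y2 y3 : ZMod m × S,
        ori d (OFS h hpB hε hok F z0 FJ θ j) (b.oc up L r, y0) =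
          (b.oc up L r, θ (b.oc up L r) (((G.get γ : ℕ) : ZMod m), Dg γ)) ∧
        ori d (OFS h hpB hε hok F z0 FJ θ j)
          (b.oc up L r, θ (b.oc up L r) (((G.get γ : ℕ) : ZMod m), Dg γ)) =
          (b.icn up L r, y2) ∧
        ori d (OFS h hpB hε hok F z0 FJ θ j) (b.icn up L r, y2) = (b.icn up L r, y3) := by
    rintro (z | j)
    · -- a sheet
      have hzv := ZMod.val_lt z.1.val
      have e1 := c3 z.1.val.val (List.mem_range.2 hzv)
      have e2 : (z.1.val.val == 0) = false := by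
        rw [beq_eq_false_iff_ne]
        intro h0
        exact z.1.2 ((ZMod.val_eq_zero _).1 h0)
      rw [e2, Bool.false_or, List.any_eq_true] at e1
      obtain ⟨n, hn, e3⟩ := e1
      rw [List.any_eq_true] at e3
      obtain ⟨D, hD, e4⟩ := e3
      have e5 := of_decide_eq_true e4
      obtain ⟨γ, hγ⟩ := List.get_of_mem hD
      have e6 : (zN m p ε W up L n : ZMod m) + z.1.val = ((G.get γ : ℕ) : ZMod m) := by
        rw [hγ]
        have e7 := (ZMod.intCast_zmod_eq_zero_iff_dvd _ m).2 (Int.dvd_of_emod_eq_zero e5)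
        push_cast at e7
        rw [ZMod.natCast_zmod_val] at e7
        linear_combination e7
      refine ⟨γ, n.2, fun r => ?_⟩
      have e8 := OFS_place h hpB hp4 hε hok F z0 FJ θ up L ns n c2 hz (c1 n hn) z r (Dg γ)
      rw [e6] at e8
      exact e8
    · obtain ⟨γ, dir, hγ⟩ := hJ j
      refine ⟨γ, dir, fun r => ?_⟩
      obtain ⟨w0, w2, w3, a0, a2, a3, b0, b1, b2⟩ := hγ r
      have e1 : ∀ w w' : (b.V × ZMod m) × S, ori dir (FJ j) w = w' →
          ori dir (OFS h hpB hε hok F z0 FJ θ (.inr j)) (w.1.1, θ w.1.1 (w.1.2, w.2)) =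
            (w'.1.1, θ w'.1.1 (w'.1.2, w'.2)) := by
        intro w w' hw
        have e2 : ∀ w : (b.V × ZMod m) × S, ((w.1.1, θ w.1.1 (w.1.2, w.2)) : b.V × (ZMod m × S)) =
          ((asc b.V (ZMod m) S).trans (fib θ)) w := fun w => rfl
        rw [e2, e2, OFS, ori_permCongr, Equiv.permCongr_apply, Equiv.symm_apply_apply]
        exact congrArg _ hw
      have f0 := e1 _ _ b0
      have f1 := e1 _ _ b1
      have f2 := e1 _ _ b2
      rw [a0] at f0
      rw [a2] at f1 f2
      rw [a3] at f2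
      exact ⟨_, _, _, f0, f1, f2⟩
  choose g o hgo using key
  exact ⟨g, o, hgo⟩

/-! ### The classes modulo four -/

theorem eps_pow4 (hε : ε * ε = 1) (n : ℕ) : ε ^ (n % 4) = ε ^ n := by
  have h4 : ε ^ 4 = 1 := by
    have : ε ^ 4 = (ε * ε) * (ε * ε) := by ring
    rw [this, hε, one_mul]
  conv_rhs => rw [← Nat.div_add_mod n 4, pow_add, pow_mul, h4, one_pow, one_mul]

omit [NeZero m] [NeZero p] [NeZero B] in
theorem zN_mod (hε : ε * ε = 1) (W : TWord) (up : Bool) (L : ℕ) (n : ℕ × Bool) :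
    zN m p ε W up (L % 4) n = zN m p ε W up L n := by
  unfold zN
  have e : ε ^ Lo up (L % 4) = ε ^ Lo up L := by
    cases up
    · show ε ^ (L % 4 + 1) = ε ^ (L + 1)
      rw [pow_succ, pow_succ, eps_pow4 hε]
    · exact eps_pow4 hε L
  rw [e]

omit [NeZero m] [NeZero p] [NeZero B] in
theorem plc_mod (hp4 : p ∣ 4) (W : TWord) (up : Bool) (L ns : ℕ) (n : ℕ × Bool) :
    plc m p W up (L % 4) ns n = plc m p W up L ns n := by
  unfold plc
  congr 3
  obtain ⟨p', hp'⟩ := hp4
  have h1 : (4 : ℤ) = (p : ℤ) * p' := by exact_mod_cast hp'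
  have h2 : ((L % 4 : ℕ) : ℤ) = (L : ℤ) - 4 * ((L / 4 : ℕ) : ℤ) := by
    have := Nat.mod_add_div L 4
    omega
  have h3 : ∀ (x : ℤ) (e : ℕ), (x - ((L % 4 + e : ℕ) : ℤ)) % (p : ℤ) =
      (x - ((L + e : ℕ) : ℤ)) % (p : ℤ) := by
    intro x e
    push_cast
    have h5 : x - (((L : ℤ) % 4) + e) = x - ((L : ℤ) + e) + (p : ℤ) * (p' * ((L / 4 : ℕ) : ℤ)) := by
      have h6 : ((L : ℤ) % 4) = (L : ℤ) - 4 * ((L / 4 : ℕ) : ℤ) := by
        rw [← h2]
        push_cast
        rfl
      rw [h6]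
      linear_combination ((L / 4 : ℕ) : ℤ) * h1
    rw [h5, Int.add_mul_emod_self_left]
  have h7 : ∀ x : ℤ, (x - ((L % 4 : ℕ) : ℤ)) % (p : ℤ) = (x - ((L : ℕ) : ℤ)) % (p : ℤ) :=
    fun x => h3 x 0
  obtain ⟨n, fw⟩ := n
  cases up <;> cases fw <;> simp only [Lo, Li, Bool.false_eq_true, if_false, if_true]
  · rw [h7]
  · rw [h3]
  · rw [h3]
  · rw [h7]

omit [NeZero m] [NeZero p] [NeZero B] in
theorem chkP_mod (hp4 : p ∣ 4) (hε : ε * ε = 1) (W : TWord) (up : Bool) (L ns : ℕ)
    (P : List (ℕ × Bool)) (G : List ℕ) :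
    chkP m p ε W up (L % 4) ns P G = chkP m p ε W up L ns P G := by
  unfold chkP
  simp only [plc_mod hp4, zN_mod hε]

end RD

end SqIns
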