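import Pool.Agent.Lib.SqIns.Sheets

/-!
# The squares of the dense family with fine digits

Levels `ZMod m × S`.  The squares `x /= 0` of the digit strip are blown up into sheets; the blow up
of the square `0` and the fine verticals are given squares `FJ`.
-/

open Finset Equiv

namespace SqIns

open Tw

/-! ### The index of a point of a square -/

section Potential

/-- the potential of the letter `n` -/
def fcN (q : ℕ) (F : List ℕ) (n : ℕ) : ℕ := F.getD (n % q) 0

/-- the differences of the potentials at distance one and two are units -/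
def chkF (q : ℕ) (F : List ℕ) : Bool :=
  (List.range q).all fun n => smo (adf (fcN q F (n + 1)) (fcN q F n)) &&
    smo (adf (fcN q F (n + 2)) (fcN q F n))

theorem fcN_mod (q : ℕ) (F : List ℕ) (n : ℕ) : fcN q F (n % q) = fcN q F n := by
  unfold fcN
  rw [Nat.mod_mod]

theorem fcN_add_mod (q : ℕ) (F : List ℕ) (n k : ℕ) : fcN q F (n % q + k) = fcN q F (n + k) := by
  unfold fcN
  rw [Nat.mod_add_mod]

theorem chkF_one {q : ℕ} (hq : 0 < q) {F : List ℕ} (h : chkF q F = true) (n : ℕ) :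
    smo (adf (fcN q F (n + 1)) (fcN q F n)) = true := by
  simp only [chkF, List.all_eq_true, List.mem_range, Bool.and_eq_true] at h
  have h1 := (h (n % q) (Nat.mod_lt _ hq)).1
  rwa [fcN_add_mod, fcN_mod] at h1

theorem chkF_two {q : ℕ} (hq : 0 < q) {F : List ℕ} (h : chkF q F = true) (n : ℕ) :
    smo (adf (fcN q F (n + 2)) (fcN q F n)) = true := by
  simp only [chkF, List.all_eq_true, List.mem_range, Bool.and_eq_true] at h
  have h1 := (h (n % q) (Nat.mod_lt _ hq)).2
  rwa [fcN_add_mod, fcN_mod] at h1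

end Potential

namespace Tw

variable {m p B : ℕ} [NeZero m] [NeZero p] [NeZero B]

omit [NeZero m] in
theorem PT_shift (W : TWord) (n k : ℕ) (c : ZMod B) (hq : 0 < p * m) :
    PT m p B W (n + p * m * k) c = PT m p B W n (c + k) := by
  induction k generalizing n c with
  | zero => simp
  | succ k ih =>
    rw [mul_add, mul_one, ← add_assoc, PT_add W _ _ hq, ih]
    congr 1
    push_cast
    ring

omit [NeZero m] in
theorem PT_mod (W : TWord) (n : ℕ) (c : ZMod B) (hq : 0 < p * m) :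
    PT m p B W n c = PT m p B W (n % (p * m)) (c + ((n / (p * m) : ℕ) : ZMod B)) := by
  rw [← PT_shift W _ _ _ hq, Nat.mod_add_div]

end Tw

namespace RD

variable {b : RD} {m p B : ℕ} [NeZero m] [NeZero p] [NeZero B] {ε : ℤ}

/-- the points of the square `x` in order -/
noncomputable def ixE (h : b.ROk) (hpB : p * B = 4 * b.k) (hε : ε * ε = 1) {W : TWord}
    (hok : okT m p W = true) (x : ZMod m) : ZMod (p * m) × ZMod B ≃ b.V × ZMod m :=
  (ptE hok).trans ((fib (Tw.psi hε x)).trans ((cE h m hpB).trans (fib fun _ => 1)))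

/-- the square `x`, without column bijections -/
noncomputable abbrev OF1 (h : b.ROk) (hpB : p * B = 4 * b.k) (hε : ε * ε = 1) {W : TWord}
    (hok : okT m p W = true) (x : ZMod m) : Perm (b.V × ZMod m) :=
  OF h hpB (fun _ => 1) hε hok x

theorem OF1_ix (h : b.ROk) (hpB : p * B = 4 * b.k) (hε : ε * ε = 1) {W : TWord}
    (hok : okT m p W = true) (x : ZMod m) (z : ZMod (p * m) × ZMod B) :
    OF1 h hpB hε hok x (ixE h hpB hε hok x z) = ixE h hpB hε hok x (raw (p * m) B z) := by
  show ((cE h m hpB).trans (fib fun _ => 1)) (fib (Tw.psi hε x) (ptE hok (raw (p * m) B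
    ((ptE hok).symm ((fib (Tw.psi hε x)).symm (((cE h m hpB).trans (fib fun _ => 1)).symm
      (((cE h m hpB).trans (fib fun _ => 1)) (fib (Tw.psi hε x) (ptE hok z))))))))) = _
  rw [Equiv.symm_apply_apply, Equiv.symm_apply_apply, Equiv.symm_apply_apply]
  rfl

theorem ix_OF1 (h : b.ROk) (hpB : p * B = 4 * b.k) (hε : ε * ε = 1) {W : TWord}
    (hok : okT m p W = true) (x : ZMod m) (v : b.V × ZMod m) :
    (ixE h hpB hε hok x).symm (OF1 h hpB hε hok x v) =
      raw (p * m) B ((ixE h hpB hε hok x).symm v) := by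
  obtain ⟨z, rfl⟩ := (ixE h hpB hε hok x).surjective v
  rw [OF1_ix, Equiv.symm_apply_apply, Equiv.symm_apply_apply]

theorem LT_ix (h : b.ROk) (hpB : p * B = 4 * b.k) (hε : ε * ε = 1) {W : TWord}
    (hok : okT m p W = true) (x : ZMod m) (n c : ℕ) (hc : c < B) :
    LT b m p ε (fun _ => 1) W x n c = ixE h hpB hε hok x
      ((n : ZMod (p * m)), ((c + n / (p * m) : ℕ) : ZMod B)) := by
  have hq : 0 < p * m := Nat.pos_of_ne_zero (NeZero.ne _)
  have hv : ((c : ZMod B)).val = c := by rw [ZMod.val_natCast, Nat.mod_eq_of_lt hc]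
  have h1 := cE_QT h hpB (fun _ => 1) hε W x n (c : ZMod B)
  rw [hv] at h1
  rw [← h1]
  show ((cE h m hpB).trans (fib fun _ => 1)) (fib (Tw.psi hε x) (PT m p B W n (c : ZMod B))) =
    ((cE h m hpB).trans (fib fun _ => 1)) (fib (Tw.psi hε x) (PT m p B W
      ((n : ZMod (p * m))).val ((c + n / (p * m) : ℕ) : ZMod B)))
  rw [PT_mod W n _ hq, ZMod.val_natCast]
  push_cast
  rfl

variable {S : Type*} [CommRing S]

/-- the potential of the points of the square `x` -/
noncomputable def pot (h : b.ROk) (hpB : p * B = 4 * b.k) (hε : ε * ε = 1) {W : TWord}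
    (hok : okT m p W = true) (S : Type*) [CommRing S] (F : List ℕ) (x : ZMod m)
    (v : b.V × ZMod m) : S :=
  (fcN (p * m) F ((ixE h hpB hε hok x).symm v).1.val : S)

/-- the seam of the square `x` -/
noncomputable def sm (h : b.ROk) (hpB : p * B = 4 * b.k) (hε : ε * ε = 1) {W : TWord}
    (hok : okT m p W = true) (S : Type*) [CommRing S] (z0 : ZMod (p * m) × ZMod B) (x : ZMod m)
    (v : b.V × ZMod m) : S :=
  if (ixE h hpB hε hok x).symm v = z0 then 1 else 0

theorem pot_ix (h : b.ROk) (hpB : p * B = 4 * b.k) (hε : ε * ε = 1) {W : TWord}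
    (hok : okT m p W = true) (F : List ℕ) (x : ZMod m) (z : ZMod (p * m) × ZMod B) :
    pot h hpB hε hok S F x (ixE h hpB hε hok x z) = (fcN (p * m) F z.1.val : S) := by
  unfold pot
  rw [Equiv.symm_apply_apply]

theorem pot_LT (h : b.ROk) (hpB : p * B = 4 * b.k) (hε : ε * ε = 1) {W : TWord}
    (hok : okT m p W = true) (F : List ℕ) (x : ZMod m) (n c : ℕ) (hc : c < B) :
    pot h hpB hε hok S F x (LT b m p ε (fun _ => 1) W x n c) = (fcN (p * m) F n : S) := by
  rw [LT_ix h hpB hε hok x n c hc, pot_ix, ZMod.val_natCast, fcN_mod]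

theorem sm_LT (h : b.ROk) (hpB : p * B = 4 * b.k) (hε : ε * ε = 1) {W : TWord}
    (hok : okT m p W = true) (z0 : ZMod (p * m) × ZMod B) (x : ZMod m) (n c : ℕ) (hc : c < B)
    (hz : ((n : ZMod (p * m)), ((c + n / (p * m) : ℕ) : ZMod B)) ≠ z0) :
    sm h hpB hε hok S z0 x (LT b m p ε (fun _ => 1) W x n c) = 0 := by
  unfold sm
  rw [LT_ix h hpB hε hok x n c hc, Equiv.symm_apply_apply, if_neg hz]

theorem sum_sm (h : b.ROk) (hpB : p * B = 4 * b.k) (hε : ε * ε = 1) {W : TWord}
    (hok : okT m p W = true) (z0 : ZMod (p * m) × ZMod B) (x : ZMod m) :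
    ∑ v, sm h hpB hε hok S z0 x v = 1 := by
  rw [sum_eq_single (ixE h hpB hε hok x z0)]
  · unfold sm
    rw [Equiv.symm_apply_apply, if_pos rfl]
  · intro v _ hv
    unfold sm
    rw [if_neg]
    intro h'
    apply hv
    rw [← h', Equiv.apply_symm_apply]
  · intro h'
    exact absurd (mem_univ _) h'

theorem raw_val (q B : ℕ) [NeZero q] (z : ZMod q × ZMod B) :
    (raw q B z).1.val = (z.1.val + 1) % q := by
  have h1 := val_add_nat z.1 1
  push_cast at h1
  exact h1

theorem pot_step (h : b.ROk) (hpB : p * B = 4 * b.k) (hε : ε * ε = 1) {W : TWord}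
    (hok : okT m p W = true) {F : List ℕ} (hF : chkF (p * m) F = true) (h2 : IsUnit (2 : S))
    (h3 : IsUnit (3 : S)) (x : ZMod m) (v : b.V × ZMod m) :
    IsUnit (pot h hpB hε hok S F x (OF1 h hpB hε hok x v) - pot h hpB hε hok S F x v) := by
  have hq : 0 < p * m := Nat.pos_of_ne_zero (NeZero.ne _)
  unfold pot
  rw [ix_OF1, raw_val, fcN_mod]
  exact adf_unit h2 h3 (chkF_one hq hF _)

theorem pot_step2 (h : b.ROk) (hpB : p * B = 4 * b.k) (hε : ε * ε = 1) {W : TWord}
    (hok : okT m p W = true) {F : List ℕ} (hF : chkF (p * m) F = true) (h2 : IsUnit (2 : S))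
    (h3 : IsUnit (3 : S)) (x : ZMod m) (v : b.V × ZMod m) :
    IsUnit (pot h hpB hε hok S F x (OF1 h hpB hε hok x (OF1 h hpB hε hok x v)) -
      pot h hpB hε hok S F x v) := by
  have hq : 0 < p * m := Nat.pos_of_ne_zero (NeZero.ne _)
  unfold pot
  rw [ix_OF1, ix_OF1, raw_val, raw_val, fcN_mod, fcN_add_mod]
  exact adf_unit h2 h3 (chkF_two hq hF _)

/-- the sheet `y` of the square `x` -/
noncomputable def OSh (h : b.ROk) (hpB : p * B = 4 * b.k) (hε : ε * ε = 1) {W : TWord}
    (hok : okT m p W = true) (F : List ℕ) (z0 : ZMod (p * m) × ZMod B) (x : ZMod m) (y : S) :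
    Perm ((b.V × ZMod m) × S) :=
  sheet (OF1 h hpB hε hok x) (pot h hpB hε hok S F x) (sm h hpB hε hok S z0 x) y

theorem closed_OSh (h : b.ROk) (hpB : p * B = 4 * b.k) (hε : ε * ε = 1) {W : TWord}
    (hok : okT m p W = true) (F : List ℕ) (z0 : ZMod (p * m) × ZMod B)
    (hg : ∀ r : S, ∃ j : ℕ, j • (1 : S) = r) (x : ZMod m) (y : S) :
    Closed (OSh h hpB hε hok F z0 x y) := by
  refine closed_sheet (closed_OF h hpB _ hε hok x) _ _ ?_ y
  rw [sum_sm]
  exact hg

/-- the letters of a sheet in order -/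
theorem OSh_LT (h : b.ROk) (hpB : p * B = 4 * b.k) (hε : ε * ε = 1) {W : TWord}
    (hok : okT m p W = true) (F : List ℕ) (z0 : ZMod (p * m) × ZMod B) (x : ZMod m) (y : S)
    (n c : ℕ) (hc : c < B) (hz : ((n : ZMod (p * m)), ((c + n / (p * m) : ℕ) : ZMod B)) ≠ z0)
    (f : S) :
    OSh h hpB hε hok F z0 x y (LT b m p ε (fun _ => 1) W x n c, f) =
      (LT b m p ε (fun _ => 1) W x (n + 1) c,
        f + ((fcN (p * m) F (n + 1) : S) - (fcN (p * m) F n : S)) * y) := by
  show sheet _ _ _ _ _ = _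
  rw [sheet_apply, OF_LT h hpB _ hε hok x n c hc, pot_LT h hpB hε hok F x n c hc,
    pot_LT h hpB hε hok F x (n + 1) c hc, sm_LT h hpB hε hok z0 x n c hc hz, add_zero]

variable [Fintype S] [DecidableEq S]

theorem sum_E_OSh (h : b.ROk) (hpB : p * B = 4 * b.k) (hε : ε * ε = 1) {W : TWord}
    (hok : okT m p W = true) {F : List ℕ} (hF : chkF (p * m) F = true)
    (z0 : ZMod (p * m) × ZMod B) (h2 : IsUnit (2 : S)) (h3 : IsUnit (3 : S))
    (hcard : 2 < Fintype.card (b.V × ZMod m)) (x : ZMod m) :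
    ∑ y : S, E (OSh h hpB hε hok F z0 x y) = blow S (E (OF1 h hpB hε hok x)) := by
  have hc := closed_OF h hpB (fun _ => 1) hε hok x
  exact sum_E_sheet (hc.ne1 (by omega)) (hc.ne2 hcard) _ _
    (pot_step h hpB hε hok hF h2 h3 x) (pot_step2 h hpB hε hok hF h2 h3 x)

/-! ### All squares -/

/-- the index type of the squares -/
abbrev JS (m : ℕ) (S J : Type*) := ({x : ZMod m // x ≠ 0} × S) ⊕ J

/-- the squares of the dense family with fine digits -/
noncomputable def OFS (h : b.ROk) (hpB : p * B = 4 * b.k) (hε : ε * ε = 1) {W : TWord}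
    (hok : okT m p W = true) (F : List ℕ) (z0 : ZMod (p * m) × ZMod B) {J : Type*}
    (FJ : J → Perm ((b.V × ZMod m) × S)) (θ : b.V → Perm (ZMod m × S)) (j : JS m S J) :
    Perm (b.V × (ZMod m × S)) :=
  ((asc b.V (ZMod m) S).trans (fib θ)).permCongr
    (Sum.elim (fun z => OSh h hpB hε hok F z0 z.1.val z.2) FJ j)

theorem closed_OFS (h : b.ROk) (hpB : p * B = 4 * b.k) (hε : ε * ε = 1) {W : TWord}
    (hok : okT m p W = true) (F : List ℕ) (z0 : ZMod (p * m) × ZMod B) {J : Type*}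
    (FJ : J → Perm ((b.V × ZMod m) × S)) (θ : b.V → Perm (ZMod m × S))
    (hg : ∀ r : S, ∃ j : ℕ, j • (1 : S) = r) (hFJ : ∀ j, Closed (FJ j)) (j : JS m S J) :
    Closed (OFS h hpB hε hok F z0 FJ θ j) := by
  refine Closed.permCongr' ?_ _
  rcases j with z | j
  · exact closed_OSh h hpB hε hok F z0 hg _ _
  · exact hFJ j

/-- **The edges of the squares of the dense family with fine digits.** -/
theorem sum_E_OFS (h : b.ROk) (hk : 3 ≤ b.k) (hpB : p * B = 4 * b.k) (hm : m % 2 = 1)
    (hε : ε * ε = 1) (hN : ε ^ (p * B) = 1) {W : TWord} {C2 : List (List ℕ)}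
    (hc : chkT m p ε W C2 = true) (hok : okT m p W = true) {F : List ℕ}
    (hF : chkF (p * m) F = true) (z0 : ZMod (p * m) × ZMod B) (h2 : IsUnit (2 : S))
    (h3 : IsUnit (3 : S)) {J : Type*} [Fintype J] (FJ : J → Perm ((b.V × ZMod m) × S))
    (hFJ : ∑ j, E (FJ j) = blow S (E (OF1 h hpB hε hok 0)) + vertAll (b.V × ZMod m) S)
    (θ : b.V → Perm (ZMod m × S)) (hcard : 2 < Fintype.card (b.V × ZMod m)) :
    ∑ j, E (OFS h hpB hε hok F z0 FJ θ j) = vertAll b.V (ZMod m × S) +
      push (fib θ) (stripE false fun j => (clF b m p ε C2 j) ×ˢ (univ : Finset S)) := by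
  have e0 : ∀ j, E (OFS h hpB hε hok F z0 FJ θ j) = push (fib θ) (push (asc b.V (ZMod m) S)
      (E (Sum.elim (fun z : {x : ZMod m // x ≠ 0} × S => OSh h hpB hε hok F z0 z.1.val z.2) FJ
        j))) := by
    intro j
    rw [OFS, E_permCongr, push_push]
    rfl
  have e1 : ∑ j : JS m S J, E (Sum.elim (fun z : {x : ZMod m // x ≠ 0} × S =>
      OSh h hpB hε hok F z0 z.1.val z.2) FJ j) =
      blow S (vertAll b.V (ZMod m)) + vertAll (b.V × ZMod m) S +
        blow S (stripE false (clF b m p ε C2)) := by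
    rw [Fintype.sum_sum_type]
    show ∑ z : {x : ZMod m // x ≠ 0} × S, E (OSh h hpB hε hok F z0 z.1.val z.2) +
      ∑ j, E (FJ j) = _
    have e2 : ∑ x : ZMod m, E (OF1 h hpB hε hok x) = vertAll b.V (ZMod m) +
        stripE false (clF b m p ε C2) := by
      have e3 := sum_E_OF h hpB (fun _ => (1 : Perm (ZMod m))) hm hε hN hc hok
      have e4 : (fib fun _ : b.V => (1 : Perm (ZMod m))) = 1 := Equiv.ext fun v => rfl
      rw [e3, e4]
      congr 1
      funext e
      have e7 := push_apply (f := ((1 : Perm (b.V × ZMod m)) : b.V × ZMod m → b.V × ZMod m))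
        (Equiv.injective _) (stripE false (clF b m p ε C2)) e
      have e8 : Sym2.map ((1 : Perm (b.V × ZMod m)) : b.V × ZMod m → b.V × ZMod m) e = e := by
        have e9 : ((1 : Perm (b.V × ZMod m)) : b.V × ZMod m → b.V × ZMod m) = id := rfl
        rw [e9, Sym2.map_id]
        rfl
      rwa [e8] at e7
    rw [hFJ, Fintype.sum_prod_type]
    have e5 : ∀ x : {x : ZMod m // x ≠ 0}, ∑ y : S, E (OSh h hpB hε hok F z0 x.val y) =
        blow S (E (OF1 h hpB hε hok x.val)) :=
      fun x => sum_E_OSh h hpB hε hok hF z0 h2 h3 hcard x.val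
    rw [sum_congr rfl fun x _ => e5 x, ← add_assoc]
    have e6 : ∑ x : {x : ZMod m // x ≠ 0}, blow S (E (OF1 h hpB hε hok x.val)) +
        blow S (E (OF1 h hpB hε hok 0)) = blow S (∑ x : ZMod m, E (OF1 h hpB hε hok x)) := by
      rw [blow_sum, Fintype.sum_eq_add_sum_subtype_ne _ (0 : ZMod m), add_comm]
    rw [e6, e2, blow_add]
    abel
  rw [sum_congr rfl fun j _ => e0 j, ← push_sum, ← push_sum, e1, push_add, push_add, push_add,
    push_asc_vert, push_asc_stripE h hk, push_fib_vertAll]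

/-- the point of a letter with a fine digit -/
def LTS (b : RD) (m p : ℕ) (ε : ℤ) {S : Type*} (θ : b.V → Perm (ZMod m × S)) (W : TWord)
    (x : ZMod m) (n c : ℕ) (f : S) : b.V × (ZMod m × S) :=
  (b.rgF false (b.ri m p W n c), θ (b.rgF false (b.ri m p W n c))
    (sg m ε (b.ri m p W n c) * (labN (p * m) W n : ZMod m) + x, f))

omit [NeZero m] [NeZero p] [NeZero B] [CommRing S] [Fintype S] [DecidableEq S] in
theorem LTS_eq (θ : b.V → Perm (ZMod m × S)) (W : TWord) (x : ZMod m) (n c : ℕ) (f : S) :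
    LTS b m p ε θ W x n c f = ((asc b.V (ZMod m) S).trans (fib θ))
      (LT b m p ε (fun _ => 1) W x n c, f) := rfl

omit [Fintype S] [DecidableEq S] in
/-- the letters of a sheet in order -/
theorem OFS_inl (h : b.ROk) (hpB : p * B = 4 * b.k) (hε : ε * ε = 1) {W : TWord}
    (hok : okT m p W = true) (F : List ℕ) (z0 : ZMod (p * m) × ZMod B) {J : Type*}
    (FJ : J → Perm ((b.V × ZMod m) × S)) (θ : b.V → Perm (ZMod m × S))
    (z : {x : ZMod m // x ≠ 0} × S) (n c : ℕ) (hc : c < B)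
    (hz : ((n : ZMod (p * m)), ((c + n / (p * m) : ℕ) : ZMod B)) ≠ z0) (f : S) :
    OFS h hpB hε hok F z0 FJ θ (.inl z) (LTS b m p ε θ W z.1.val n c f) =
      LTS b m p ε θ W z.1.val (n + 1) c
        (f + ((fcN (p * m) F (n + 1) : S) - (fcN (p * m) F n : S)) * z.2) := by
  rw [LTS_eq, LTS_eq, OFS, Equiv.permCongr_apply, Equiv.symm_apply_apply]
  exact congrArg _ (OSh_LT h hpB hε hok F z0 z.1.val z.2 n c hc hz f)

omit [Fintype S] [DecidableEq S] in
/-- the points of the squares over the square `0` -/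
theorem OFS_inr (h : b.ROk) (hpB : p * B = 4 * b.k) (hε : ε * ε = 1) {W : TWord}
    (hok : okT m p W = true) (F : List ℕ) (z0 : ZMod (p * m) × ZMod B) {J : Type*}
    (FJ : J → Perm ((b.V × ZMod m) × S)) (θ : b.V → Perm (ZMod m × S)) (j : J)
    (v v' : b.V × ZMod m) (f f' : S) (hv : FJ j (v, f) = (v', f')) :
    OFS h hpB hε hok F z0 FJ θ (.inr j) (v.1, θ v.1 (v.2, f)) = (v'.1, θ v'.1 (v'.2, f')) := by
  have e1 : ∀ (v : b.V × ZMod m) (f : S), ((v.1, θ v.1 (v.2, f)) : b.V × (ZMod m × S)) =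
      ((asc b.V (ZMod m) S).trans (fib θ)) (v, f) := fun v f => rfl
  rw [e1, e1, OFS, Equiv.permCongr_apply, Equiv.symm_apply_apply]
  exact congrArg _ hv

/-! ### No fine digits -/

/-- the square over the square `0` when there are no fine digits -/
noncomputable def F1 (h : b.ROk) (hpB : p * B = 4 * b.k) (hε : ε * ε = 1) {W : TWord}
    (hok : okT m p W = true) (S : Type*) [CommRing S] (_ : Unit) : Perm ((b.V × ZMod m) × S) :=
  lift (OF1 h hpB hε hok 0) fun _ => 0

omit [Fintype S] [DecidableEq S] in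
theorem closed_F1 [Subsingleton S] (h : b.ROk) (hpB : p * B = 4 * b.k) (hε : ε * ε = 1)
    {W : TWord} (hok : okT m p W = true) (j : Unit) : Closed (F1 h hpB hε hok S j) :=
  closed_lift (closed_OF h hpB _ hε hok 0) _ fun r => ⟨0, Subsingleton.elim _ _⟩

theorem sum_E_F1 [Subsingleton S] (h : b.ROk) (hpB : p * B = 4 * b.k) (hε : ε * ε = 1)
    {W : TWord} (hok : okT m p W = true) (hcard : 2 < Fintype.card (b.V × ZMod m)) :
    ∑ j, E (F1 h hpB hε hok S j) = blow S (E (OF1 h hpB hε hok 0)) +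
      vertAll (b.V × ZMod m) S := by
  have hc := closed_OF h hpB (fun _ => 1) hε hok 0
  have hbij : ∀ v : S, Function.Bijective fun _ : Unit => v := fun v =>
    ⟨fun _ _ _ => Subsingleton.elim _ _, fun r => ⟨(), Subsingleton.elim _ _⟩⟩
  have e1 := E_lift_sum (OF1 h hpB hε hok 0) (hc.ne1 (by omega)) (hc.ne2 hcard)
    (fun (_ : Unit) _ => (0 : S)) (fun _ => hbij _) (fun _ => hbij _)
  have e2 : vertAll (b.V × ZMod m) S = 0 := by
    funext e
    induction e with
    | _ u v =>
      obtain ⟨u, f⟩ := u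
      obtain ⟨v, g⟩ := v
      have : f = g := Subsingleton.elim _ _
      simp [vertAll, this]
  rw [e2, add_zero]
  exact e1

end RD

end SqIns
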