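import Pool.Agent.Lib.SqIns.Fine1

/-!
# Fine digits 17 and 25
-/

namespace SqIns

namespace Fine1

open Tw

/-! ### 17 -/

/-- the word of the fine digit 17 (helper94, seven places) -/
def W17 : TWord := [(0,0),(0,1),(1,9),(1,14),(3,7),(3,5),(2,12),(2,3),(1,6),(1,13),(-1,10),(-1,16),(1,11),(1,8),(3,15),(3,2),(2,4)]

/-- the missing classes at distance one, in cyclic order -/
def cy17 : List ℕ := [0,5,1,16]

/-- the classes of the word at distance one -/
def C17 : List ℕ := [2,3,4,6,7,8,9,10,11,12,13,14,15]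

/-- the classes of the word at distance two -/
def D17 : List ℕ := [1,2,3,4,7,8,9,10,11,12,13,14,15]

theorem chk17 : chk1 17 4 W17 C17 D17 cy17 [0,1,2,3] [0,1,2,1] = true := by decide +kernel

/-- a second word of the fine digit 17 (helper94, seven places) -/
def W17b : TWord := [(0,0),(0,2),(2,5),(2,9),(0,3),(0,14),(2,1),(2,11),(0,10),(0,15),(-1,13),(-1,12),(-2,7),(-2,4),(-1,16),(-1,8),(0,6)]

/-- the missing classes at distance one, in cyclic order -/
def cy17b : List ℕ := [0,10,1,16]

/-- the classes of the word at distance one -/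
def C17b : List ℕ := [2,3,4,5,6,7,8,9,11,12,13,14,15]

/-- the classes of the word at distance two -/
def D17b : List ℕ := [1,2,3,4,5,6,7,8,9,12,13,14,15]

theorem chk17b : chk1 17 4 W17b C17b D17b cy17b [0,1,2,3] [0,1,2,1] = true := by decide +kernel

/-! ### 25 -/

/-- the word of the fine digit 25 (helper77) -/
def W25 : TWord := [(0,11),(0,15),(1,16),(1,19),(3,13),(2,21),(3,4),(4,23),(3,3),(4,17),(2,6),(2,14),
  (4,18),(3,5),(3,20),(1,22),(2,8),(0,1),(0,12),(2,7),(2,0),(2,2),(0,9),(1,24),(-1,10)]

/-- the missing classes at distance one, in cyclic order -/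
def cy25 : List ℕ := [0,9,6,18,7,10]

/-- the classes of the word at distance one -/
def C25 : List ℕ := [1,2,3,4,5,8,11,12,13,14,15,16,17,19,20,21,22,23,24]

/-- the classes of the word at distance two -/
def D25 : List ℕ := [1,2,3,4,5,6,7,8,11,12,13,14,16,18,19,20,21,22,23]

theorem chk25 : chk1 25 6 W25 C25 D25 cy25 [0,1,0,5] [0,1,0,1] = true := by decide +kernel

end Fine1

end SqIns
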