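import Pool.Agent.Lib.SqIns.Sheets
import Pool.Agent.Lib.SqIns.Bridge
import Pool.Agent.Lib.SqIns.FineW

/-!
# The fine tower

Over every closed square whose number of points is divisible by 4, the blow up by `17 ^ a` points
together with all the vertical pairs is a sum of `(5 * 17 ^ a - 1) / 4` closed squares.
-/

open Finset Equiv

namespace SqIns

namespace Fine

/-! ### Lifts -/

section Places

variable {Z : Type*}

variable {R : Type*} [AddCommGroup R]

theorem fst_lift (s : Perm Z) (f : Z → R) (p : Z × R) : (lift s f p).1 = s p.1 := rfl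

theorem fst_lift_inv (s : Perm Z) (f : Z → R) (p : Z × R) : ((lift s f)⁻¹ p).1 = s⁻¹ p.1 := rfl

theorem fst_lift_zpow (s : Perm Z) (f : Z → R) (n : ℤ) (p : Z × R) :
    (((lift s f) ^ n) p).1 = (s ^ n) p.1 := by
  induction n using Int.induction_on generalizing p with
  | zero => simp
  | succ n ih =>
    rw [zpow_add_one, zpow_add_one, Perm.mul_apply, Perm.mul_apply, ih, fst_lift]
  | pred n ih =>
    rw [zpow_sub_one, zpow_sub_one, Perm.mul_apply, Perm.mul_apply, ih, fst_lift_inv]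

end Places

/-! ### Sheets over a closed square with `4 n` points -/

section Sheets

variable {X : Type*} [Fintype X] [DecidableEq X]

theorem exists_sheets {s : Perm X} (hs : Closed s) (h4 : 4 ∣ Fintype.card X)
    (h8 : 8 ≤ Fintype.card X) {Q : ℕ} [NeZero Q] (h2 : Nat.Coprime 2 Q) (h3 : Nat.Coprime 3 Q) :
    ∃ g : ZMod Q → X → ZMod Q, (∀ y, Closed (lift s (g y))) ∧
      ∑ y, E (lift s (g y)) = blow (ZMod Q) (E s) := by
  classical
  have : NeZero (Fintype.card X) := ⟨by omega⟩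
  obtain ⟨e, he⟩ := hs.exists_equiv (n := Fintype.card X) rfl
  have hpos : 0 < Fintype.card X := by omega
  obtain ⟨x₀⟩ := Fintype.card_pos_iff.1 hpos
  have u2 : IsUnit (2 : ZMod Q) := by
    have := (ZMod.isUnit_iff_coprime 2 Q).2 h2
    simpa using this
  have u3 : IsUnit (3 : ZMod Q) := by
    have := (ZMod.isUnit_iff_coprime 3 Q).2 h3
    simpa using this
  let r : X → ℕ := fun x => (e.symm x).val % 4
  have hr : ∀ x, r (s x) = (r x + 1) % 4 := by
    intro x
    obtain ⟨i, rfl⟩ := e.surjective x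
    show (e.symm (s (e i))).val % 4 = ((e.symm (e i)).val % 4 + 1) % 4
    rw [he, Equiv.symm_apply_apply, Equiv.symm_apply_apply, ZMod.val_add,
      ZMod.val_one_eq_one_mod, Nat.add_mod_mod, Nat.mod_mod_of_dvd _ h4, Nat.mod_add_mod]
  have hlt : ∀ x, r x < 4 := fun x => Nat.mod_lt _ (by norm_num)
  let c : X → ZMod Q := fun x => (r x : ZMod Q)
  have c1 : ∀ x, IsUnit (c (s x) - c x) := by
    intro x
    show IsUnit ((r (s x) : ZMod Q) - (r x : ZMod Q))
    rw [hr]
    have := hlt x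
    interval_cases r x
    · norm_num
    · norm_num
    · norm_num
    · norm_num
      exact u3
  have c2 : ∀ x, IsUnit (c (s (s x)) - c x) := by
    intro x
    show IsUnit ((r (s (s x)) : ZMod Q) - (r x : ZMod Q))
    rw [hr, hr]
    have := hlt x
    interval_cases r x
    · norm_num
      exact u2
    · norm_num
      exact u2
    · norm_num
      exact u2
    · norm_num
      exact u2
  let τ : X → ZMod Q := fun x => if x = x₀ then 1 else 0
  have hτ : ∑ x, τ x = 1 := by
    show ∑ x, (if x = x₀ then (1 : ZMod Q) else 0) = 1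
    rw [sum_ite_eq']
    simp
  refine ⟨fun y x => (c (s x) - c x) * y + τ x, fun y => ?_, ?_⟩
  · refine closed_sheet hs c τ (fun z => ⟨z.val, ?_⟩) y
    rw [hτ, nsmul_one, ZMod.natCast_zmod_val]
  · exact sum_E_sheet (fun x => hs.ne1 (by omega) x) (fun x => hs.ne2 (by omega) x) c τ c1 c2

end Sheets

/-! ### The tower -/

theorem push_blow_blow {X A B : Type} [Fintype X] [DecidableEq X] [Fintype A] [DecidableEq A]
    [Fintype B] [DecidableEq B] (φ : Sym2 X → ℤ) :
    push (Equiv.prodAssoc X A B) (blow B (blow A φ)) = blow (A × B) φ := by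
  funext e
  obtain ⟨e', rfl⟩ : ∃ e', Sym2.map (Equiv.prodAssoc X A B) e' = e :=
    ⟨Sym2.map (Equiv.prodAssoc X A B).symm e, by
      rw [Sym2.map_map, Equiv.self_comp_symm, Sym2.map_id]; rfl⟩
  rw [push_apply (Equiv.injective _)]
  induction e' with
  | _ u v =>
    obtain ⟨⟨x, y⟩, z⟩ := u
    obtain ⟨⟨x', y'⟩, z'⟩ := v
    simp only [blow, Sym2.map_mk, Sym2.mk_isDiag_iff, Prod.mk.injEq, Equiv.prodAssoc_apply]
    by_cases hx : x = x'
    · simp [hx]
    · simp [hx]

theorem push_blow_vert {X A B : Type} [Fintype X] [DecidableEq X] [Fintype A] [DecidableEq A]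
    [Fintype B] [DecidableEq B] :
    push (Equiv.prodAssoc X A B) (blow B (vertAll X A)) +
      push (Equiv.prodAssoc X A B) (vertAll (X × A) B) = vertAll X (A × B) := by
  funext e
  obtain ⟨e', rfl⟩ : ∃ e', Sym2.map (Equiv.prodAssoc X A B) e' = e :=
    ⟨Sym2.map (Equiv.prodAssoc X A B).symm e, by
      rw [Sym2.map_map, Equiv.self_comp_symm, Sym2.map_id]; rfl⟩
  rw [Pi.add_apply, push_apply (Equiv.injective _), push_apply (Equiv.injective _)]
  induction e' with
  | _ u v =>
    obtain ⟨⟨x, y⟩, z⟩ := u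
    obtain ⟨⟨x', y'⟩, z'⟩ := v
    simp only [blow, vertAll, Sym2.map_mk, Sym2.mk_isDiag_iff, Prod.mk.injEq,
      Equiv.prodAssoc_apply]
    by_cases hx : x = x'
    · by_cases hy : y = y'
      · simp [hx, hy]
      · simp [hx, hy]
    · simp [hx]

theorem push_blow_fib {X A B : Type} [Fintype X] [DecidableEq X] [Fintype A] [DecidableEq A]
    [Fintype B] [DecidableEq B] (ε : A ≃ B) (φ : Sym2 X → ℤ) :
    push ((Equiv.refl X).prodCongr ε) (blow A φ) = blow B φ := by
  funext e
  obtain ⟨e', rfl⟩ : ∃ e', Sym2.map ((Equiv.refl X).prodCongr ε) e' = e :=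
    ⟨Sym2.map ((Equiv.refl X).prodCongr ε).symm e, by
      rw [Sym2.map_map, Equiv.self_comp_symm, Sym2.map_id]; rfl⟩
  rw [push_apply (Equiv.injective _)]
  induction e' with
  | _ u v => simp [blow]

theorem push_vert_fib {X A B : Type} [Fintype X] [DecidableEq X] [Fintype A] [DecidableEq A]
    [Fintype B] [DecidableEq B] (ε : A ≃ B) :
    push ((Equiv.refl X).prodCongr ε) (vertAll X A) = vertAll X B := by
  funext e
  obtain ⟨e', rfl⟩ : ∃ e', Sym2.map ((Equiv.refl X).prodCongr ε) e' = e :=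
    ⟨Sym2.map ((Equiv.refl X).prodCongr ε).symm e, by
      rw [Sym2.map_map, Equiv.self_comp_symm, Sym2.map_id]; rfl⟩
  rw [push_apply (Equiv.injective _)]
  induction e' with
  | _ u v =>
    obtain ⟨x, y⟩ := u
    obtain ⟨x', y'⟩ := v
    simp [vertAll]

/-- every square `F j` has places at all the points `(x, fy d)` for one `d` -/
def FinePl {X R J : Type*} (s : Perm X) {nd : ℕ} (F : J → Perm (X × R)) (fy : Fin nd → R) :
    Prop :=
  ∀ j, ∃ (d : Fin nd) (dir : Bool), ∀ x : X, ∃ w0 w2 w3 : X × R,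
    (w0.1 = x ∨ w0.1 = s⁻¹ x) ∧ (w2.1 = s x ∨ w2.1 = s (s x)) ∧
    (w3.1 = s x ∨ w3.1 = s (s x)) ∧
    (if dir then F j else (F j)⁻¹) w0 = (x, fy d) ∧
    (if dir then F j else (F j)⁻¹) (x, fy d) = w2 ∧ (if dir then F j else (F j)⁻¹) w2 = w3

/-- the short form -/
def FP {X R : Type*} (s : Perm X) (F : Perm (X × R)) (y : R) : Prop :=
  ∃ dir : Bool, ∀ x : X,
    (((if dir then F else F⁻¹)⁻¹ (x, y)).1 = x ∨ ((if dir then F else F⁻¹)⁻¹ (x, y)).1 = s⁻¹ x) ∧
    (((if dir then F else F⁻¹) (x, y)).1 = s x ∨ ((if dir then F else F⁻¹) (x, y)).1 = s (s x)) ∧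
    (((if dir then F else F⁻¹) ((if dir then F else F⁻¹) (x, y))).1 = s x ∨
      ((if dir then F else F⁻¹) ((if dir then F else F⁻¹) (x, y))).1 = s (s x))

theorem finePl_of_FP {X R J : Type*} {s : Perm X} {nd : ℕ} {F : J → Perm (X × R)}
    {fy : Fin nd → R} (h : ∀ j, ∃ d, FP s (F j) (fy d)) : FinePl s F fy := by
  intro j
  obtain ⟨d, dir, h⟩ := h j
  refine ⟨d, dir, fun x => ⟨(if dir then F j else (F j)⁻¹)⁻¹ (x, fy d), _, _, (h x).1, (h x).2.1,
    (h x).2.2, by simp, rfl, rfl⟩⟩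

theorem FP.lift {X R R' : Type*} [AddCommGroup R'] {s : Perm X} {F : Perm (X × R)} {y : R}
    (h : FP s F y) (g : X × R → R') (z : R') :
    FP s ((Equiv.prodAssoc X R R').permCongr (SqIns.lift F g)) (y, z) := by
  obtain ⟨dir, h⟩ := h
  refine ⟨dir, fun x => ?_⟩
  cases dir
  · have h' := h x
    simp only [Bool.false_eq_true, if_false] at h' ⊢
    exact h'
  · have h' := h x
    simp only [if_true] at h' ⊢
    exact h'

theorem FP.fib {X R R' : Type*} {s : Perm X} {F : Perm (X × R)} {y : R} (h : FP s F y)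
    (ε : R ≃ R') : FP s (((Equiv.refl X).prodCongr ε).permCongr F) (ε y) := by
  obtain ⟨dir, h⟩ := h
  have e1 : ∀ (G : Perm (X × R)) (x : X),
      (((Equiv.refl X).prodCongr ε).permCongr G) (x, ε y) =
        ((Equiv.refl X).prodCongr ε) (G (x, y)) := by
    intro G x
    rw [Equiv.permCongr_apply]
    congr 2
    show ((Equiv.refl X).symm x, ε.symm (ε y)) = _
    rw [Equiv.symm_apply_apply]
    rfl
  have e2 : ∀ (G : Perm (X × R)) (p : X × R),
      (((Equiv.refl X).prodCongr ε).permCongr G) (((Equiv.refl X).prodCongr ε) p) =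
        ((Equiv.refl X).prodCongr ε) (G p) := by
    intro G p
    rw [Equiv.permCongr_apply, Equiv.symm_apply_apply]
  have e3 : ∀ G : Perm (X × R), (((Equiv.refl X).prodCongr ε).permCongr G)⁻¹ =
      ((Equiv.refl X).prodCongr ε).permCongr G⁻¹ := fun G => rfl
  refine ⟨dir, fun x => ?_⟩
  have h' := h x
  cases dir
  · simp only [Bool.false_eq_true, if_false] at h' ⊢
    rw [e3, e3, e1, e1, e2]
    exact h'
  · simp only [if_true] at h' ⊢
    rw [e3, e1, e1, e2]
    exact h'

/-- one fine digit `q`: over every closed square `s` with `4 n` points there are `q` closed squares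
`tr b` and `r + 1` closed lifts of `s`, `4 * (r + 1) + 1 = q`; `PL` lists the places of the squares
`tr b` -/
def OneLv (q r : ℕ) [NeZero q] (PL : List (ℤ × ℕ)) : Prop :=
  ∀ (X : Type) [Fintype X] [DecidableEq X] (s : Perm X), Closed s → 4 ∣ Fintype.card X →
    8 ≤ Fintype.card X →
    ∃ (tr : ZMod q → Perm (X × ZMod q)) (f : Fin (r + 1) → X → ZMod q),
      (∀ b, Closed (tr b)) ∧ (∀ i, Closed (lift s (f i))) ∧
      ∑ b, E (tr b) + ∑ i, E (lift s (f i)) = blow (ZMod q) (E s) + vertAll X (ZMod q) ∧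
      ∀ b, ∀ w ∈ PL, w.1 = 1 ∨ w.1 = 2 → FP s (tr b) ((w.2 : ZMod q) + b)

/-- the digits of the groups meet all the translates of the word -/
def DigOk (q nd : ℕ) (PL : List (ℤ × ℕ)) (dg : Fin nd → ℕ) : Prop :=
  ∀ y : ZMod q, ∃ i : Fin nd, ∃ w ∈ PL, (w.1 = 1 ∨ w.1 = 2) ∧ (w.2 : ZMod q) + y = (dg i : ZMod q)

/-- **The tower over a closed square**: the blow up by `Q` points and all the verticals, with
places at the same `nd` digits for all the points -/
def TowerOk (nd : ℕ) (Q : ℕ) [NeZero Q] : Prop :=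
  ∀ (X : Type) [Fintype X] [DecidableEq X] (s : Perm X), Closed s → 4 ∣ Fintype.card X →
    8 ≤ Fintype.card X →
    ∃ (J : Type) (_ : Fintype J) (F : J → Perm (X × ZMod Q)) (fy : Fin nd → ZMod Q),
      4 * Fintype.card J + 1 = 5 * Q ∧ (∀ j, Closed (F j)) ∧
      ∑ j, E (F j) = blow (ZMod Q) (E s) + vertAll X (ZMod Q) ∧ ∀ j, ∃ d, FP s (F j) (fy d)

theorem FP_lift_self {X R : Type*} [AddCommGroup R] (s : Perm X) (g : X → R) (y : R) :
    FP s (SqIns.lift s g) y :=
  ⟨true, fun _ => ⟨Or.inr rfl, Or.inl rfl, Or.inr rfl⟩⟩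

/-- places over a lift of `s` are places over `s` -/
theorem FP.of_lift {X R R' : Type*} [AddCommGroup R] {s : Perm X} {g : X → R}
    {F : Perm ((X × R) × R')} {z : R'} (h : FP (SqIns.lift s g) F z) (y : R) :
    FP s ((Equiv.prodAssoc X R R').permCongr F) (y, z) := by
  obtain ⟨dir, h⟩ := h
  refine ⟨dir, fun x => ?_⟩
  have key : ∀ w : (X × R) × R', (w.1 = (x, y) ∨ w.1 = (SqIns.lift s g)⁻¹ (x, y)) →
      (((Equiv.prodAssoc X R R') w).1 = x ∨ ((Equiv.prodAssoc X R R') w).1 = s⁻¹ x) := by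
    intro w hw
    show w.1.1 = x ∨ w.1.1 = s⁻¹ x
    rcases hw with hw | hw
    · exact Or.inl (by rw [hw])
    · exact Or.inr (by rw [hw, fst_lift_inv])
  have key2 : ∀ w : (X × R) × R', (w.1 = SqIns.lift s g (x, y) ∨
      w.1 = SqIns.lift s g (SqIns.lift s g (x, y))) →
      (((Equiv.prodAssoc X R R') w).1 = s x ∨ ((Equiv.prodAssoc X R R') w).1 = s (s x)) := by
    intro w hw
    show w.1.1 = s x ∨ w.1.1 = s (s x)
    rcases hw with hw | hw
    · exact Or.inl (by rw [hw, fst_lift])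
    · exact Or.inr (by rw [hw, fst_lift, fst_lift])
  have h' := h (x, y)
  cases dir
  · simp only [Bool.false_eq_true, if_false] at h' ⊢
    exact ⟨key _ h'.1, key2 _ h'.2.1, key2 _ h'.2.2⟩
  · simp only [if_true] at h' ⊢
    exact ⟨key _ h'.1, key2 _ h'.2.1, key2 _ h'.2.2⟩

theorem towerOk_one {nd : ℕ} (hnd : 0 < nd) : TowerOk nd 1 := by
  intro X _ _ s hs h4 h8
  have hsub : ∀ u v : ZMod 1, u = v := fun u v => Subsingleton.elim u v
  have hE : E (lift s fun _ => (0 : ZMod 1)) = blow (ZMod 1) (E s) + vertAll X (ZMod 1) := by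
    have hv : vertAll X (ZMod 1) = 0 := by
      funext e
      induction e with
      | _ u v =>
        obtain ⟨x, y⟩ := u
        obtain ⟨x', y'⟩ := v
        have := hsub y y'
        simp [vertAll, this]
    have hb := E_lift_sum (R := ZMod 1) (Y := Unit) s (fun x => hs.ne1 (by omega) x)
      (fun x => hs.ne2 (by omega) x) (fun _ _ => 0)
      (fun x => ⟨fun _ _ _ => rfl, fun u => ⟨(), hsub _ _⟩⟩)
      (fun x => ⟨fun _ _ _ => rfl, fun u => ⟨(), hsub _ _⟩⟩)
    rw [hv, add_zero, ← hb]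
    simp
  refine ⟨Unit, inferInstance, fun _ => lift s fun _ => 0, fun _ => 0, by simp, fun _ => ?_, ?_,
    fun _ => ⟨⟨0, hnd⟩, FP_lift_self _ _ _⟩⟩
  · exact closed_lift hs _ fun r => ⟨0, hsub _ _⟩
  · simpa using hE

theorem towerOk_mul {nd : ℕ} {PL : List (ℤ × ℕ)} {q r : ℕ} [NeZero q] (hnd : 0 < nd)
    (hr : 4 * (r + 1) + 1 = q) (h1 : OneLv q r PL) {dg : Fin nd → ℕ} (hdg : DigOk q nd PL dg)
    {Q : ℕ} [NeZero Q] [NeZero (q * Q)] (h2 : Nat.Coprime 2 Q) (h3 : Nat.Coprime 3 Q)
    (ih : TowerOk nd Q) : TowerOk nd (q * Q) := by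
  intro X _ _ s hs h4 h8
  obtain ⟨tr, f, ht, hf, hE, hp⟩ := h1 X s hs h4 h8
  have hqp : 0 < q := by omega
  have hcard : Fintype.card (X × ZMod q) = Fintype.card X * q := by
    rw [Fintype.card_prod, ZMod.card]
  have h4' : 4 ∣ Fintype.card (X × ZMod q) := by
    rw [hcard]
    exact Dvd.dvd.mul_right h4 q
  have h8' : 8 ≤ Fintype.card (X × ZMod q) := by
    rw [hcard]
    exact le_trans h8 (Nat.le_mul_of_pos_right _ hqp)
  -- the level one squares which are not the host
  let T : ZMod q ⊕ Fin r → Perm (X × ZMod q) := fun j => match j with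
    | .inl b => tr b
    | .inr i => lift s (f i.succ)
  have hT : ∀ j, Closed (T j) := by
    rintro (b | i)
    · exact ht b
    · exact hf _
  choose g hg hgE using fun j => exists_sheets (hT j) h4' h8' (Q := Q) h2 h3
  obtain ⟨J, hJ, F, fy, hcJ, hF, hFE, hpl⟩ := ih (X × ZMod q) (lift s (f 0)) (hf 0) h4' h8'
  let eA : ZMod q × ZMod Q ≃ ZMod (q * Q) :=
    Fintype.equivOfCardEq (by rw [Fintype.card_prod, ZMod.card, ZMod.card, ZMod.card])
  let e : (X × ZMod q) × ZMod Q ≃ X × ZMod (q * Q) :=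
    (Equiv.prodAssoc X _ _).trans ((Equiv.refl X).prodCongr eA)
  refine ⟨((ZMod q ⊕ Fin r) × ZMod Q) ⊕ J, inferInstance, fun j => match j with
    | .inl p => e.permCongr (lift (T p.1) (g p.1 p.2))
    | .inr j => e.permCongr (F j), fun i => eA ((dg i : ZMod q), fy i), ?_, ?_, ?_, ?_⟩
  · rw [Fintype.card_sum, Fintype.card_prod, Fintype.card_sum, ZMod.card, ZMod.card,
      Fintype.card_fin]
    have : 4 * ((q + r) * Q + Fintype.card J) + 1 = 4 * (q + r) * Q + 5 * Q := by
      rw [← hcJ]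
      ring
    rw [this]
    have h5 : 4 * (q + r) + 5 = 5 * q := by omega
    calc 4 * (q + r) * Q + 5 * Q = (4 * (q + r) + 5) * Q := by ring
      _ = 5 * (q * Q) := by rw [h5]; ring
  · rintro (⟨j, y⟩ | j)
    · exact (hg j y).permCongr' e
    · exact (hF j).permCongr' e
  · rw [Fintype.sum_sum_type]
    have e1 : ∀ p : (ZMod q ⊕ Fin r) × ZMod Q,
        E (e.permCongr (lift (T p.1) (g p.1 p.2))) = push e (E (lift (T p.1) (g p.1 p.2))) :=
      fun p => E_permCongr _ _
    have e2 : ∀ j, E (e.permCongr (F j)) = push e (E (F j)) := fun j => E_permCongr _ _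
    have e3 : ∑ p : (ZMod q ⊕ Fin r) × ZMod Q, E (lift (T p.1) (g p.1 p.2)) =
        blow (ZMod Q) (∑ j, E (T j)) := by
      rw [Fintype.sum_prod_type, blow_sum]
      exact sum_congr rfl fun j _ => hgE j
    have e4 : ∑ j, E (T j) + E (lift s (f 0)) = blow (ZMod q) (E s) + vertAll X (ZMod q) := by
      rw [← hE, Fintype.sum_sum_type, Fin.sum_univ_succ]
      show _ + ∑ i : Fin r, E (lift s (f i.succ)) + _ = _
      rw [add_assoc, add_comm (∑ i : Fin r, E (lift s (f i.succ)))]
    have e6 : ∀ φ : Sym2 ((X × ZMod q) × ZMod Q) → ℤ,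
        push e φ = push ((Equiv.refl X).prodCongr eA)
          (push (Equiv.prodAssoc X (ZMod q) (ZMod Q)) φ) := by
      intro φ
      rw [push_push]
      rfl
    have e5 : push e (blow (ZMod Q) (blow (ZMod q) (E s) + vertAll X (ZMod q))) +
        push e (vertAll (X × ZMod q) (ZMod Q)) =
        blow (ZMod (q * Q)) (E s) + vertAll X (ZMod (q * Q)) := by
      have e7 : push (Equiv.prodAssoc X (ZMod q) (ZMod Q))
          (blow (ZMod Q) (blow (ZMod q) (E s) + vertAll X (ZMod q))) +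
          push (Equiv.prodAssoc X (ZMod q) (ZMod Q)) (vertAll (X × ZMod q) (ZMod Q)) =
          blow (ZMod q × ZMod Q) (E s) + vertAll X (ZMod q × ZMod Q) := by
        rw [blow_add, push_add, add_assoc, push_blow_vert, push_blow_blow]
      rw [e6, e6, ← push_add, e7, push_add, push_blow_fib, push_vert_fib]
    rw [← e5, ← e4, blow_add]
    show ∑ p : (ZMod q ⊕ Fin r) × ZMod Q, E (e.permCongr (lift (T p.1) (g p.1 p.2))) +
      ∑ j, E (e.permCongr (F j)) = _
    rw [sum_congr rfl fun p _ => e1 p, sum_congr rfl fun j _ => e2 j, ← push_sum, ← push_sum, e3,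
      hFE, ← push_add, ← push_add, add_assoc]
  · have hT' : ∀ j, ∃ i, FP s (T j) (dg i : ZMod q) := by
      rintro (b | i)
      · obtain ⟨i, w, hw, h5, h6⟩ := hdg b
        have h7 := hp b w hw h5
        rw [h6] at h7
        exact ⟨i, h7⟩
      · exact ⟨⟨0, hnd⟩, FP_lift_self _ _ _⟩
    rintro (⟨j, y⟩ | j)
    · obtain ⟨i, h⟩ := hT' j
      exact ⟨i, (h.lift (g j y) (fy i)).fib eA⟩
    · obtain ⟨i, h⟩ := hpl j
      exact ⟨i, (h.of_lift (dg i : ZMod q)).fib eA⟩

/-! ### The places of a word -/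

open Tw

/-- the places of the word, read in both directions: step to the other column and label -/
def PLw (q : ℕ) (W : TWord) : List (ℤ × ℕ) :=
  ((List.range q).filter fun n => decide (colN q 1 W n = colN q 1 W (n + 1)) &&
      decide (colN q 1 W (n + 2) = colN q 1 W (n + 3))).flatMap fun n =>
    [(colN q 1 W (n + 2) - colN q 1 W (n + 1), labN q W (n + 1)),
      (colN q 1 W (n + 1) - colN q 1 W (n + 2), labN q W (n + 2))]

theorem zpow_step {X : Type*} (s : Perm X) {a b : ℤ} (x : X) (h : b - a = 1 ∨ b - a = 2) :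
    (s ^ b) ((s ^ (-a)) x) = s x ∨ (s ^ b) ((s ^ (-a)) x) = s (s x) := by
  have e : (s ^ b) ((s ^ (-a)) x) = (s ^ (b - a)) x := by
    rw [← Perm.mul_apply, ← zpow_add, sub_eq_add_neg]
  rw [e]
  rcases h with h | h
  · left
    rw [h, zpow_one]
  · right
    rw [h]
    rfl

theorem oneLv_of_chk {q r : ℕ} [NeZero q] {W : TWord} {C1 C2 cy b0 b1 : List ℕ}
    (hc : Fine1.chk1 q (r + 1) W C1 C2 cy b0 b1 = true) : OneLv q r (PLw q W) := by
  intro X _ _ s hs h4 h8
  have hne : Nonempty X := Fintype.card_pos_iff.1 (by omega)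
  obtain ⟨tr, h, h1, h2, _, _, h5, h6⟩ := Fine1.fine hc hs h4
  let e : Fin (r + 1) ≃ ZMod (r + 1) := Fintype.equivOfCardEq (by rw [ZMod.card, Fintype.card_fin])
  refine ⟨tr, fun i x => Fine1.cyf q (r + 1) cy (e i + h x), h1, fun i => h2 (e i), ?_, ?_⟩
  · rw [← h5]
    congr 1
    exact Equiv.sum_comp e fun i => E (lift s fun x => Fine1.cyf q (r + 1) cy (i + h x))
  · intro b w hw hw12
    simp only [PLw, List.mem_flatMap, List.mem_filter, List.mem_range, Bool.and_eq_true,
      decide_eq_true_eq, List.mem_cons, List.not_mem_nil, or_false] at hw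
    obtain ⟨n, ⟨_, c1, c2⟩, hw | hw⟩ := hw
    · subst hw
      refine ⟨true, fun x => ?_⟩
      simp only [if_true]
      let x' := (s ^ (-(colN q 1 W (n + 1)))) x
      have hx' : (s ^ colN q 1 W (n + 1)) x' = x := by
        rw [← Perm.mul_apply, ← zpow_add, add_neg_cancel, zpow_zero, Perm.one_apply]
      have g0 := h6 b x' n
      have g1 := h6 b x' (n + 1)
      have g2 := h6 b x' (n + 2)
      rw [hx'] at g0 g1
      refine ⟨Or.inl ?_, ?_, ?_⟩
      · have : (tr b)⁻¹ (x, (labN q W (n + 1) : ZMod q) + b) =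
            ((s ^ colN q 1 W n) x', (labN q W n : ZMod q) + b) := by
          rw [Perm.inv_eq_iff_eq, g0]
        rw [this, c1]
        exact hx'
      · show (tr b (x, (labN q W (n + 1) : ZMod q) + b)).1 = s x ∨
          (tr b (x, (labN q W (n + 1) : ZMod q) + b)).1 = s (s x)
        rw [g1]
        exact zpow_step s x hw12
      · show (tr b (tr b (x, (labN q W (n + 1) : ZMod q) + b))).1 = s x ∨
          (tr b (tr b (x, (labN q W (n + 1) : ZMod q) + b))).1 = s (s x)
        rw [g1, g2]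
        rw [← c2] at *
        exact zpow_step s x hw12
    · subst hw
      refine ⟨false, fun x => ?_⟩
      simp only [Bool.false_eq_true, if_false, inv_inv]
      let x' := (s ^ (-(colN q 1 W (n + 2)))) x
      have hx' : (s ^ colN q 1 W (n + 2)) x' = x := by
        rw [← Perm.mul_apply, ← zpow_add, add_neg_cancel, zpow_zero, Perm.one_apply]
      have g0 := h6 b x' n
      have g1 := h6 b x' (n + 1)
      have g2 := h6 b x' (n + 2)
      rw [hx'] at g1 g2
      have i1 : (tr b)⁻¹ (x, (labN q W (n + 2) : ZMod q) + b) =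
          ((s ^ colN q 1 W (n + 1)) x', (labN q W (n + 1) : ZMod q) + b) := by
        rw [Perm.inv_eq_iff_eq, g1]
      have i2 : (tr b)⁻¹ ((s ^ colN q 1 W (n + 1)) x', (labN q W (n + 1) : ZMod q) + b) =
          ((s ^ colN q 1 W n) x', (labN q W n : ZMod q) + b) := by
        rw [Perm.inv_eq_iff_eq, g0]
      refine ⟨Or.inl ?_, ?_, ?_⟩
      · show (tr b (x, (labN q W (n + 2) : ZMod q) + b)).1 = x
        rw [g2]
        show (s ^ colN q 1 W (n + 3)) x' = x
        rw [← c2]
        exact hx'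
      · show ((tr b)⁻¹ (x, (labN q W (n + 2) : ZMod q) + b)).1 = s x ∨
          ((tr b)⁻¹ (x, (labN q W (n + 2) : ZMod q) + b)).1 = s (s x)
        rw [i1]
        exact zpow_step s x hw12
      · show ((tr b)⁻¹ ((tr b)⁻¹ (x, (labN q W (n + 2) : ZMod q) + b))).1 = s x ∨
          ((tr b)⁻¹ ((tr b)⁻¹ (x, (labN q W (n + 2) : ZMod q) + b))).1 = s (s x)
        rw [i1, i2]
        show (s ^ colN q 1 W n) x' = s x ∨ (s ^ colN q 1 W n) x' = s (s x)
        rw [c1]
        exact zpow_step s x hw12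

end Fine

end SqIns
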