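import Pool.Agent.Lib.SqIns.FPlace
import Pool.Agent.Lib.SqIns.Fine

/-!
# The dense family: everything about the squares in one statement
-/

open Finset Equiv

namespace SqIns

open Tw Fine

namespace RD

variable {b : RD} {m p B : ℕ} [NeZero m] [NeZero p] [NeZero B] {ε : ℤ}

/-! ### The columns of a window of type 1 -/

/-- the outer column is the lower one -/
def upw (b : RD) (i : Fin 4) (f : Bool) : Bool :=
  decide (b.J i (if f then hi true else lo false) = b.L i f)

theorem win_oc (h : b.ROk) (hok : b.Ok) (hk : 1 < 4 * b.k) (i : Fin 4) (f : Bool)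
    (hd : b.d i f = 1) (r : ZMod b.k) :
    b.win r (false, i) (if f then hi true else lo false) = b.oc (b.upw i f) (b.L i f) r ∧
    b.win r (false, i) (if f then lo true else hi false) = b.icn (b.upw i f) (b.L i f) r := by
  have hJ : ∀ n, b.win r (false, i) n =
      b.rgF false ((b.J i n : ZMod (4 * b.k)) + b.e4 (b.gi * r)) := fun n =>
    h.win_eq hok r (false, i) n
  have hm : (((b.L i f + b.d i f) % (4 * b.k) : ℕ) : ZMod (4 * b.k)) =
      (b.L i f : ZMod (4 * b.k)) + 1 := by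
    rw [ZMod.natCast_mod, Nat.cast_add, hd]
    push_cast
    rfl
  have hne : ∀ n n' : Fin 4, b.J i n = b.L i f → b.J i n' = (b.L i f + b.d i f) % (4 * b.k) →
      b.J i n' ≠ b.L i f := by
    intro n n' h1 h2 h3
    have h4 := h.Jlt i n
    rw [h1] at h4
    rw [h3, hd] at h2
    by_cases h5 : b.L i f + 1 < 4 * b.k
    · rw [Nat.mod_eq_of_lt h5] at h2
      omega
    · have h6 : b.L i f + 1 = 4 * b.k := by omega
      rw [h6, Nat.mod_self] at h2
      omega
  have e0 : ∀ n, b.J i n = b.L i f → b.win r (false, i) n = b.rgF false (b.li (b.L i f) r) := by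
    intro n hn
    rw [hJ, hn]
    rfl
  have e1 : ∀ n, b.J i n = (b.L i f + b.d i f) % (4 * b.k) →
      b.win r (false, i) n = b.rgF false (b.li (b.L i f) r + 1) := by
    intro n hn
    rw [hJ, hn, hm]
    unfold li
    rw [add_right_comm]
  cases f
  · simp only [Bool.false_eq_true, if_false]
    rcases h.edge i false with ⟨a1, a2⟩ | ⟨a1, a2⟩
    · have hu : b.upw i false = true := by
        unfold upw
        simp only [Bool.false_eq_true, if_false]
        exact decide_eq_true a1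
      rw [hu]
      exact ⟨e0 _ a1, e1 _ a2⟩
    · have hu : b.upw i false = false := by
        unfold upw
        simp only [Bool.false_eq_true, if_false]
        exact decide_eq_false (hne _ _ a1 a2)
      rw [hu]
      exact ⟨e1 _ a2, e0 _ a1⟩
  · simp only [if_true]
    rcases h.edge i true with ⟨a1, a2⟩ | ⟨a1, a2⟩
    · have hu : b.upw i true = false := by
        unfold upw
        simp only [if_true]
        exact decide_eq_false (hne _ _ a1 a2)
      rw [hu]
      exact ⟨e1 _ a2, e0 _ a1⟩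
    · have hu : b.upw i true = true := by
        unfold upw
        simp only [if_true]
        exact decide_eq_true a1
      rw [hu]
      exact ⟨e0 _ a1, e1 _ a2⟩

/-! ### The squares -/

/-- the groups `hd` serve the square `0` -/
def chkHd (m p : ℕ) (ε : ℤ) (W : TWord) (up d0 : Bool) (L : ℕ) (P : List (ℕ × Bool))
    (G hd : List ℕ) : Bool :=
  decide hd.Nodup && hd.all fun γ => decide (γ < G.length) && P.any fun n =>
    n.2 == d0 && decide ((zN m p ε W up L n - (G.getD γ 0 : ℤ)) % (m : ℤ) = 0)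

omit [NeZero m] [NeZero p] [NeZero B] in
theorem chkHd_mod (hε : ε * ε = 1) (W : TWord) (up d0 : Bool) (L : ℕ) (P : List (ℕ × Bool))
    (G hd : List ℕ) :
    chkHd m p ε W up d0 (L % 4) P G hd = chkHd m p ε W up d0 L P G hd := by
  unfold chkHd
  simp only [zN_mod hε]

/-- **The squares of the dense family**: number, edges, places over the pair of columns of every
row. -/
theorem exists_side (h : b.ROk) (hk : 3 ≤ b.k) (hpB : p * B = 4 * b.k) (hp4 : p ∣ 4)
    (hm : m % 2 = 1) (hε : ε * ε = 1) (hN : ε ^ (p * B) = 1) {W : TWord} {C2 : List (List ℕ)}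
    (hc : chkT m p ε W C2 = true) {F : List ℕ} (hF : chkF (p * m) F = true) (up d0 : Bool)
    (L ns : ℕ) (P : List (ℕ × Bool)) (G hd : List ℕ) (hch : chkP m p ε W up L ns P G = true)
    (hhd : chkHd m p ε W up d0 L P G hd = true) {Q : ℕ} [NeZero Q] (h2 : IsUnit (2 : ZMod Q))
    (h3 : IsUnit (3 : ZMod Q)) (hT : TowerOk hd.length Q) (θ : b.V → Perm (ZMod m × ZMod Q)) :
    ∃ (TF : Type) (_ : Fintype TF) (_ : DecidableEq TF)
      (OF : TF → Perm (b.V × (ZMod m × ZMod Q))) (Dg : Fin G.length → ZMod Q)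
      (g : TF → Fin G.length),
      4 * Fintype.card TF + 1 = 4 * (m * Q) + Q ∧ (∀ j, Closed (OF j)) ∧
      ∑ j, E (OF j) = vertAll b.V (ZMod m × ZMod Q) +
        push (fib θ) (stripE false fun j => (clF b m p ε C2 j) ×ˢ (univ : Finset (ZMod Q))) ∧
      ∀ j (r : ZMod b.k), ∃ y0 y2 y3 : ZMod m × ZMod Q,
        OF j (b.oc up L r, y0) =
          (b.oc up L r, θ (b.oc up L r) (((G.get (g j) : ℕ) : ZMod m), Dg (g j))) ∧
        OF j (b.oc up L r, θ (b.oc up L r) (((G.get (g j) : ℕ) : ZMod m), Dg (g j))) =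
          (b.icn up L r, y2) ∧
        OF j (b.icn up L r, y2) = (b.icn up L r, y3) := by
  classical
  have hmpos : 0 < m := Nat.pos_of_ne_zero (NeZero.ne m)
  have hok := chkT_ok hc
  have hcV : Fintype.card b.V = 4 * b.k := by
    rw [← ZMod.card (4 * b.k)]
    exact (Fintype.card_congr (re h false)).symm
  have hcX : Fintype.card (b.V × ZMod m) = 4 * b.k * m := by
    rw [Fintype.card_prod, ZMod.card, hcV]
  have h8 : 8 ≤ Fintype.card (b.V × ZMod m) := by
    rw [hcX]
    have : 12 * 1 ≤ 4 * b.k * m := Nat.mul_le_mul (by omega) hmpos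
    omega
  obtain ⟨J, iJ, FJ, fy, j1, j2, j3, j4⟩ := hT (b.V × ZMod m) (ori d0 (OF1 h hpB hε hok 0))
    (closed_ori (closed_OF h hpB _ hε hok 0) d0) (by rw [hcX]; exact ⟨b.k * m, by ring⟩) h8
  have hFP := finePl_of_FP j4
  rw [E_ori] at j3
  simp only [chkHd, Bool.and_eq_true, List.all_eq_true, decide_eq_true_eq] at hhd
  obtain ⟨hnd, hhd⟩ := hhd
  -- the fine digits of the groups
  let Dg : Fin G.length → ZMod Q := fun γ =>
    if hγ : γ.val ∈ hd then fy ⟨hd.idxOf γ.val, List.idxOf_lt_length_of_mem hγ⟩ else 0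
  have hJ : ∀ j : J, ∃ (γ : Fin G.length) (dir : Bool), ∀ r : ZMod b.k,
      ∃ w0 w2 w3 : (b.V × ZMod m) × ZMod Q, w0.1.1 = b.oc up L r ∧ w2.1.1 = b.icn up L r ∧
        w3.1.1 = b.icn up L r ∧
        ori dir (FJ j) w0 = ((b.oc up L r, ((G.get γ : ℕ) : ZMod m)), Dg γ) ∧
        ori dir (FJ j) ((b.oc up L r, ((G.get γ : ℕ) : ZMod m)), Dg γ) = w2 ∧
        ori dir (FJ j) w2 = w3 := by
    intro j
    obtain ⟨d, dir, hd'⟩ := hFP j
    have hmem : hd.get d ∈ hd := List.get_mem hd d
    obtain ⟨hlt, hany⟩ := hhd _ hmem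
    rw [List.any_eq_true] at hany
    obtain ⟨n, hn, hz⟩ := hany
    rw [Bool.and_eq_true] at hz
    have hz0 : n.2 = d0 := by
      have := hz.1
      rwa [beq_iff_eq] at this
    have hz := of_decide_eq_true hz.2
    simp only [chkP, Bool.and_eq_true, List.all_eq_true, decide_eq_true_eq] at hch
    have hGg : G.getD (hd.get d) 0 = G.get ⟨hd.get d, hlt⟩ := by
      rw [List.getD_eq_getElem _ _ hlt]
      rfl
    have e6 : (zN m p ε W up L n : ZMod m) = ((G.get ⟨hd.get d, hlt⟩ : ℕ) : ZMod m) := by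
      rw [← hGg]
      have e7 := (ZMod.intCast_zmod_eq_zero_iff_dvd _ m).2 (Int.dvd_of_emod_eq_zero hz)
      push_cast at e7
      linear_combination e7
    have hDg : Dg ⟨hd.get d, hlt⟩ = fy d := by
      show (if hγ : hd.get d ∈ hd then fy ⟨hd.idxOf (hd.get d), _⟩ else 0) = _
      rw [dif_pos hmem]
      congr 1
      refine Fin.ext ?_
      show hd.idxOf (hd.get d) = d.val
      exact hnd.idxOf_getElem _ _
    refine ⟨⟨hd.get d, hlt⟩, dir, fun r => ?_⟩
    obtain ⟨y0, y2, y3, a0, a1, a2⟩ := OF1_host h hpB hp4 hε hok up L ns n (hch.1.1 n hn) r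
    rw [e6, hz0] at a0 a1
    rw [hz0] at a2
    obtain ⟨w0, w2, w3, b0, b2, b3, c0, c1, c2⟩ := hd' (b.oc up L r,
      ((G.get ⟨hd.get d, hlt⟩ : ℕ) : ZMod m))
    rw [hDg]
    have a0' : (ori d0 (OF1 h hpB hε hok 0))⁻¹ (b.oc up L r,
        ((G.get ⟨hd.get d, hlt⟩ : ℕ) : ZMod m)) = (b.oc up L r, y0) := by
      rw [Perm.inv_eq_iff_eq, a0]
    rw [a0'] at b0
    rw [a1, a2] at b2 b3
    refine ⟨w0, w2, w3, ?_, ?_, ?_, c0, c1, c2⟩
    · rcases b0 with b0 | b0 <;> rw [b0]
    · rcases b2 with b2 | b2 <;> rw [b2]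
    · rcases b3 with b3 | b3 <;> rw [b3]
  have hz0 : (((ns : ZMod (p * m)), (0 : ZMod B)) : ZMod (p * m) × ZMod B).1 =
      (ns : ZMod (p * m)) := rfl
  obtain ⟨g, o, hgo⟩ := places h hpB hp4 hε hok F ((ns : ZMod (p * m)), (0 : ZMod B)) FJ θ up L ns
    hz0 P G hch Dg hJ
  refine ⟨JS m (ZMod Q) J, inferInstance, inferInstance, fun j => ori (o j)
    (OFS h hpB hε hok F ((ns : ZMod (p * m)), (0 : ZMod B)) FJ θ j), Dg, g, ?_, ?_, ?_, hgo⟩
  · have e1 : Fintype.card (JS m (ZMod Q) J) = (m - 1) * Q + Fintype.card J := by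
      rw [Fintype.card_sum, Fintype.card_prod, ZMod.card]
      congr 2
      have e2 := Fintype.card_subtype_compl (α := ZMod m) (fun x => x = 0)
      rw [Fintype.card_subtype_eq, ZMod.card] at e2
      exact e2
    rw [e1]
    have e3 : m * Q = (m - 1) * Q + Q := by
      obtain ⟨n, rfl⟩ : ∃ n, m = n + 1 := ⟨m - 1, by omega⟩
      simp only [Nat.add_sub_cancel]
      ring
    rw [e3]
    omega
  · intro j
    exact closed_ori (closed_OFS h hpB hε hok F _ FJ θ (fun r => ⟨r.val, by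
      rw [nsmul_one, ZMod.natCast_zmod_val]⟩) j2 j) _
  · rw [sum_congr rfl fun j _ => E_ori _ _]
    exact sum_E_OFS h hk hpB hm hε hN hc hok hF _ h2 h3 FJ j3 θ (by omega)

end RD

end SqIns
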