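import Pool.Agent.Lib.SqIns.Step1

/-!
# The step for class 1 bases with the splices of the family `F`

The splices of the squares of `F` are at the window `D = (false, t.id)` next to infinity.  All splices
of the same row have the same point `q` and the same point over infinity.  The fibrewise permutation
over infinity and the labels are chosen here.
-/

open Finset Equiv

namespace SqIns

theorem sum_false {R W : Type*} [Fintype W] [DecidableEq W] [DecidableEq R] (σ : W → WSys)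
    (κ : W → R) (hσ : Function.Injective fun w => (σ w, κ w)) (K : Fin 4 → Finset R)
    (hin : ∀ w, (σ w).1 = false → κ w ∈ K (σ w).2)
    (hsur : ∀ i, ∀ k ∈ K i, ∃ w, σ w = (false, i) ∧ κ w = k)
    {A : Type*} [AddCommMonoid A] (g : WSys → R → A) :
    ∑ w ∈ univ.filter (fun w => (σ w).1 = false), g (σ w) (κ w) =
      ∑ i : Fin 4, ∑ s ∈ K i, g (false, i) s := by
  rw [Finset.sum_sigma']
  refine sum_nbij (fun w => (⟨(σ w).2, κ w⟩ : (_ : Fin 4) × R)) ?_ ?_ ?_ ?_
  · intro w hw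
    rw [mem_filter] at hw
    rw [mem_sigma]
    exact ⟨mem_univ _, hin w hw.2⟩
  · intro w hw w' hw' h
    rw [mem_coe, mem_filter] at hw hw'
    have e1 : (σ w).2 = (σ w').2 := congrArg Sigma.fst h
    have e2 : κ w = κ w' := by
      have h' : (⟨(σ w).2, κ w⟩ : (_ : Fin 4) × R) = ⟨(σ w').2, κ w'⟩ := h
      exact congrArg (fun z : (_ : Fin 4) × R => z.2) h'
    exact hσ (Prod.ext (Prod.ext (hw.2.trans hw'.2.symm) e1) e2)
  · rintro ⟨i, s⟩ his
    rw [mem_coe, mem_sigma] at his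
    obtain ⟨w, hw1, hw2⟩ := hsur i s his.2
    refine ⟨w, ?_, ?_⟩
    · rw [mem_coe, mem_filter]
      exact ⟨mem_univ _, by rw [hw1]⟩
    · show (⟨(σ w).2, κ w⟩ : (_ : Fin 4) × R) = ⟨i, s⟩
      rw [hw1, hw2]
  · intro w hw
    rw [mem_filter] at hw
    show g (σ w) (κ w) = g (false, (σ w).2) (κ w)
    rw [← hw.2]

theorem two_none {V R W : Type*} (O : Perm (V × R)) (S : Perm (R ⊕ W)) (y : R) :
    two O S (.inl (none, y)) = join V R W (.inr (S (.inl y))) := by
  unfold two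
  rw [Equiv.permCongr_apply]
  rfl

namespace RD

variable {b : RD} {R : Type*} [CommRing R] [Fintype R] [DecidableEq R] {W : Type*} [Fintype W]
  [DecidableEq W]

namespace C1

/-- further conditions for the splices of `F` -/
structure Ok3 (t : C1 b) : Prop extends t.Ok2 where
  spD : b.st (false, t.id) + 3 ≠ b.sp
  dA : t.id ≠ t.ia
  hcol : b.c 0 = b.c (b.st (false, t.id) + (wo !t.f).val)

/-- the outer column of the splices of `F` -/
noncomputable def oF (t : C1 b) (r : ZMod b.k) : b.V := b.win r (false, t.id) (wo !t.f)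

/-- the inner column of the splices of `F` -/
noncomputable def iF (t : C1 b) (r : ZMod b.k) : b.V := b.win r (false, t.id) (wi !t.f)

/-- data of the splices of `F`: rows, levels of the places (after `Φ`), levels over infinity,
letters -/
structure FS (b : RD) (R W TF : Type*) where
  rF : TF → ZMod b.k
  Pp : TF → R
  Pq : TF → R
  Pu : TF → R
  Pv : TF → R
  yp : TF → R
  yq : TF → R
  wu : TF → W
  wv : TF → W

/-- the place -/
noncomputable def fplace {TF : Type*} (t : C1 b) (F : FS b R W TF) (j : TF) :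
    Place ((Option b.V × R) ⊕ W) :=
  ⟨.inl (some (t.oF (F.rF j)), F.Pp j), .inl (some (t.oF (F.rF j)), F.Pq j),
    .inl (some (t.iF (F.rF j)), F.Pu j), .inl (some (t.iF (F.rF j)), F.Pv j),
    .inl (none, F.yp j), .inl (none, F.yq j), .inr (F.wu j), .inr (F.wv j)⟩

variable (hok : b.Ok) (h2 : IsUnit (2 : R)) (h3 : IsUnit (3 : R))
  (hg : ∀ y : R, ∃ j : ℕ, j • (1 : R) = y)

/-- label of the edge between a level over the outer and a level over the inner column -/
noncomputable def lbD (t : C1 b) (r : ZMod b.k) (y z : R) : R :=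
  if !t.f then (b.row hok h2 h3 hg r).lb (false, t.id) y z
    else (b.row hok h2 h3 hg r).lb' (false, t.id) y z

theorem lbD_inj (t : C1 b) (r : ZMod b.k) (y : R) :
    Function.Injective (t.lbD hok h2 h3 hg r y) := by
  intro z z' h
  unfold lbD at h
  split_ifs at h
  · exact (b.row hok h2 h3 hg r).lb_injective _ _ h
  · exact (b.row hok h2 h3 hg r).lb'_injective _ _ h

/-- the level over the outer column before `Φ` -/
noncomputable def pO (t : C1 b) (Φ₀ : ZMod b.k → b.V → Perm R) (r : ZMod b.k) (y : R) : R :=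
  (Φ₀ r (t.oF r))⁻¹ y

/-- the level over the inner column before `Φ` -/
noncomputable def pI (t : C1 b) (Φ₀ : ZMod b.k → b.V → Perm R) (r : ZMod b.k) (y : R) : R :=
  (Φ₀ r (t.iF r))⁻¹ y

/-- the splice -/
noncomputable def fspl {TF : Type*} (t : C1 b) (Φ₀ : ZMod b.k → b.V → Perm R) (F : FS b R W TF)
    (j : TF) : Spl (ZMod b.k) TF R W :=
  ⟨j, F.rF j, !t.f, true, t.pO Φ₀ (F.rF j) (F.Pq j), t.pO Φ₀ (F.rF j) (F.Pp j),
    t.pI Φ₀ (F.rF j) (F.Pu j), t.pI Φ₀ (F.rF j) (F.Pv j), F.wu j, F.wu j, F.wu j, F.wv j⟩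

/-- conditions for the splices of `F`, without the condition for the labels -/
structure FOk0 {b : RD} {R W TF : Type*} (t : C1 b) (F : FS b R W TF)
    (σ : W → WSys) (OF : TF → Perm (b.V × R)) (SF : TF → Perm (R ⊕ W)) : Prop where
  nq : ∀ j, F.rF j ≠ t.rqu
  o1 : ∀ j, OF j (t.oF (F.rF j), F.Pp j) = (t.oF (F.rF j), F.Pq j)
  o2 : ∀ j, OF j (t.oF (F.rF j), F.Pq j) = (t.iF (F.rF j), F.Pu j)
  o3 : ∀ j, OF j (t.iF (F.rF j), F.Pu j) = (t.iF (F.rF j), F.Pv j)
  s1 : ∀ j, SF j (.inl (F.yp j)) = .inl (F.yq j)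
  s2 : ∀ j, SF j (.inl (F.yq j)) = .inr (F.wu j)
  s3 : ∀ j, SF j (.inr (F.wu j)) = .inr (F.wv j)
  σu : ∀ j, σ (F.wu j) = (false, t.id)
  σv : ∀ j, σ (F.wv j) = (false, t.id)
  grp : ∀ j j', F.rF j = F.rF j' → F.Pq j = F.Pq j' ∧ F.yq j = F.yq j'

/-- conditions for the splices of `F` -/
structure FOk {TF : Type*} (t : C1 b) (Φ₀ : ZMod b.k → b.V → Perm R) (F : FS b R W TF)
    (σ : W → WSys) (OF : TF → Perm (b.V × R)) (SF : TF → Perm (R ⊕ W)) : Prop
    extends FOk0 t F σ OF SF where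
  par : ∀ j, t.lbD hok h2 h3 hg (F.rF j) (t.pO Φ₀ (F.rF j) (F.Pp j))
      (t.pI Φ₀ (F.rF j) (F.Pu j)) =
    t.lbD hok h2 h3 hg (F.rF j) (t.pO Φ₀ (F.rF j) (F.Pq j)) (t.pI Φ₀ (F.rF j) (F.Pv j))

variable {t : C1 b}

/-- the total sum -/
theorem tot (hr : b.ROk)
    {TF : Type*} [Fintype TF] [DecidableEq TF] (A2 : Finset R)
    (σ : W → WSys) (κ : ZMod b.k → W → R) (hσ : ∀ r, Function.Injective fun w => (σ w, κ r w))
    (Φ : ZMod b.k → Option b.V → Perm R) (μ : ℕ → R) (hμ : ∀ c < 4, IsUnit (μ c))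
    (δ : ZMod b.k → Fin 4 → Fin 4 → R) (hD : DOk t δ)
    (hnat : ∀ i n : Fin 4, (b.c (b.st (true, i) + n.val) : R) - (b.cs (true, i) : R) =
      μ (b.Jf (true, i) n % 4))
    (hΦ : ∀ (r : ZMod b.k) (i n : Fin 4) (y : R), Φ r (some (b.win r (true, i) n)) y =
      y + μ (b.Jf (true, i) n % 4) * δ r i n)
    (hlab : ∀ r i s, s ∈ A2 ↔ ∃ w, σ w = (true, i) ∧ κ r w = s)
    (OF : TF → Perm (b.V × R)) (freeF : Sym2 (b.V × R) → ℤ)
    (hOF : ∑ j, E (OF j) = vertAll b.V R + freeF)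
    (hfreeF : push (emV b.V R) freeF = ∑ r, push (fib (Φ r))
      (∑ w ∈ univ.filter (fun w => (σ w).1 = false),
        ((b.row hok h2 h3 hg r).mac (σ w) (κ r w) + (b.row hok h2 h3 hg r).mbd (σ w) (κ r w))))
    (S : TF ⊕ {s // s ∈ A2} → Perm (R ⊕ W)) (hS : ∑ j, E (S j) = allPairs (R ⊕ W)) :
    ∑ p : ZMod b.k × R, E ((b.row hok h2 h3 hg p.1).fullΦ (hσ p.1) (Φ p.1) p.2) +
      ∑ j, E (two ((Sum.elim OF fun s => stO hr true μ hμ t.w s.val :
        TF ⊕ {s // s ∈ A2} → Perm (b.V × R)) j) (S j)) = allPairs ((Option b.V × R) ⊕ W) := by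
  classical
  let O : TF ⊕ {s // s ∈ A2} → Perm (b.V × R) :=
    Sum.elim OF fun s => stO hr true μ hμ t.w s.val
  let free : Sym2 (b.V × R) → ℤ := freeF + ∑ s : {s // s ∈ A2}, E (stO hr true μ hμ t.w s.val)
  have hO : ∑ j, E (O j) = vertAll b.V R + free := by
    rw [Fintype.sum_sum_type]
    show ∑ j, E (OF j) + ∑ s : {s // s ∈ A2}, E (stO hr true μ hμ t.w s.val) = _
    rw [hOF, add_assoc]
  have hfree : push (emV b.V R) free = ∑ r, push (fib (Φ r))
      (∑ w, ((b.row hok h2 h3 hg r).mac (σ w) (κ r w) +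
        (b.row hok h2 h3 hg r).mbd (σ w) (κ r w))) := by
    have e1 : ∑ s : {s // s ∈ A2}, push (emV b.V R) (E (stO hr true μ hμ t.w s.val)) =
        ∑ s ∈ A2, push (emV b.V R) (E (stO hr true μ hμ t.w s)) :=
      Finset.sum_coe_sort A2 (fun s => push (emV b.V R) (E (stO hr true μ hμ t.w s)))
    show push (emV b.V R) (freeF + ∑ s : {s // s ∈ A2}, E (stO hr true μ hμ t.w s.val)) = _
    rw [push_add, push_sum, e1, hfreeF,
      sum_congr rfl fun s _ => straight_sum hok h2 h3 hg hr true μ hμ t.w Φ δ hnat hΦ hD.hδ s,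
      sum_comm, ← sum_add_distrib]
    refine sum_congr rfl fun r _ => ?_
    rw [← push_sum, ← push_add]
    congr 1
    rw [sum_letters σ (κ r) (hσ r) A2 (hlab r) (fun i s => (b.row hok h2 h3 hg r).mac i s +
      (b.row hok h2 h3 hg r).mbd i s)]
    congr 1
    rw [sum_comm]
  exact Row.total (fun r => b.row hok h2 h3 hg r) σ κ hσ Φ b.sum_sq (fun r i n => b.win r i n)
    (fun r i n => row_wn hok h2 h3 hg r i n) (fun i => hr.win_bij hok i) O S free hfree hO hS

omit [Fintype R] [DecidableEq R] [Fintype W] [DecidableEq W] in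
theorem fspl_slabel {TF : Type*} (Φ₀ : ZMod b.k → b.V → Perm R) (F : FS b R W TF) (j : TF)
    (n : Fin 3) (D : WSys) (hD : D = (false, t.id)) :
    (b.row hok h2 h3 hg (F.rF j)).slabel D D (t.fspl Φ₀ F j) n =
      t.lbD hok h2 h3 hg (F.rF j) ((t.fspl Φ₀ F j).lev n) ((t.fspl Φ₀ F j).levI n) := by
  subst hD
  rfl

/-- the place of the splice -/
theorem fspl_place {TF : Type*} (Φ₀ : ZMod b.k → b.V → Perm R) (Φ : Option b.V → Perm R)
    (F : FS b R W TF) (j : TF) (hΦ : ∀ v, Φ (some v) = Φ₀ (F.rF j) v)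
    (hq : Φ none (t.pO Φ₀ (F.rF j) (F.Pq j)) = F.yq j)
    (hp : Φ none (t.pO Φ₀ (F.rF j) (F.Pp j)) = F.yp j) :
    ((b.row hok h2 h3 hg (F.rF j)).splace (false, t.id) (false, t.id) (t.fspl Φ₀ F j)).map
      (Row.mvp Φ 1) = t.fplace F j := by
  have ho : (b.row hok h2 h3 hg (F.rF j)).outc (false, t.id) (false, t.id) (t.fspl Φ₀ F j) =
      some (t.oF (F.rF j)) := row_gout hok h2 h3 hg (F.rF j) (!t.f) (false, t.id)
  have hi : (b.row hok h2 h3 hg (F.rF j)).innc (false, t.id) (false, t.id) (t.fspl Φ₀ F j) =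
      some (t.iF (F.rF j)) := row_ginn hok h2 h3 hg (F.rF j) (!t.f) (false, t.id)
  unfold Row.splace Place.map
  rw [ho, hi]
  have e1 : ∀ y, Row.mvp Φ (1 : Perm W) (Sum.inl (some (t.oF (F.rF j)), t.pO Φ₀ (F.rF j) y)) =
      .inl (some (t.oF (F.rF j)), y) := by
    intro y
    show Sum.inl (some (t.oF (F.rF j)), Φ (some (t.oF (F.rF j))) (t.pO Φ₀ (F.rF j) y)) = _
    rw [hΦ]
    unfold pO
    simp
  have e2 : ∀ y, Row.mvp Φ (1 : Perm W) (Sum.inl (some (t.iF (F.rF j)), t.pI Φ₀ (F.rF j) y)) =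
      .inl (some (t.iF (F.rF j)), y) := by
    intro y
    show Sum.inl (some (t.iF (F.rF j)), Φ (some (t.iF (F.rF j))) (t.pI Φ₀ (F.rF j) y)) = _
    rw [hΦ]
    unfold pI
    simp
  have e3 : Row.mvp Φ (1 : Perm W) ((t.fspl Φ₀ F j).ypt b.V (t.fspl Φ₀ F j).p'
      (t.fspl Φ₀ F j).yp) = .inl (none, F.yp j) := by
    show Sum.inl (none, Φ none (t.pO Φ₀ (F.rF j) (F.Pp j))) = _
    rw [hp]
  have e4 : Row.mvp Φ (1 : Perm W) ((t.fspl Φ₀ F j).ypt b.V (t.fspl Φ₀ F j).x
      (t.fspl Φ₀ F j).yq) = .inl (none, F.yq j) := by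
    show Sum.inl (none, Φ none (t.pO Φ₀ (F.rF j) (F.Pq j))) = _
    rw [hq]
  rw [e3, e4]
  show Place.mk (Row.mvp Φ (1 : Perm W) (Sum.inl (some (t.oF (F.rF j)),
      t.pO Φ₀ (F.rF j) (F.Pp j))))
    (Row.mvp Φ (1 : Perm W) (Sum.inl (some (t.oF (F.rF j)), t.pO Φ₀ (F.rF j) (F.Pq j))))
    (Row.mvp Φ (1 : Perm W) (Sum.inl (some (t.iF (F.rF j)), t.pI Φ₀ (F.rF j) (F.Pu j))))
    (Row.mvp Φ (1 : Perm W) (Sum.inl (some (t.iF (F.rF j)), t.pI Φ₀ (F.rF j) (F.Pv j))))
    _ _ _ _ = _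
  rw [e1, e1, e2, e2]
  rfl

/-! ### The splice can be made -/

omit [Fintype R] [DecidableEq R] [Fintype W] [DecidableEq W] [CommRing R] in
theorem stD_top (hok : b.Ok) (ht : t.Ok) (hf : t.f = false) :
    b.st (false, t.id) + 3 = 4 * b.k := by
  have hinf := ht.inf
  have hp := hok.posle t.id
  unfold BD.st at hinf ⊢
  rw [hf] at hinf
  simp only [Bool.false_eq_true, if_false, if_true] at hinf ⊢
  omega

omit [Fintype R] [DecidableEq R] [Fintype W] [DecidableEq W] [CommRing R] in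
theorem stD_bot (hok : b.Ok) (ht : t.Ok) (hf : t.f = true) : b.st (false, t.id) = 1 := by
  have hinf := ht.inf
  have hp := hok.posle t.id
  unfold BD.st at hinf ⊢
  rw [hf] at hinf
  simp only [Bool.false_eq_true, if_false, if_true] at hinf ⊢
  omega

omit [Fintype W] [DecidableEq W] in
theorem fspl_fits {TF : Type*} (ht : t.Ok3) (Φ₀ : ZMod b.k → b.V → Perm R) (F : FS b R W TF)
    (σ : W → WSys) (κ : W → R) {OF : TF → Perm (b.V × R)} {SF : TF → Perm (R ⊕ W)}
    (hF : t.FOk hok h2 h3 hg Φ₀ F σ OF SF) (j : TF)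
    (hv : κ (F.wv j) = t.lbD hok h2 h3 hg (F.rF j) (t.pO Φ₀ (F.rF j) (F.Pq j))
      (t.pI Φ₀ (F.rF j) (F.Pu j)))
    (hu : κ (F.wu j) = t.lbD hok h2 h3 hg (F.rF j) (t.pO Φ₀ (F.rF j) (F.Pq j))
      (t.pI Φ₀ (F.rF j) (F.Pv j))) :
    (b.row hok h2 h3 hg (F.rF j)).SFits σ κ (false, t.id) (false, t.id) (false, t.id)
      (false, t.id) (t.fspl Φ₀ F j) := by
  have hk := b.k_pos
  have hgt := gt_D hok h2 h3 hg ht.toOk2 (F.rF j)
  have htop := stD_top hok ht.toOk
  have hbot := stD_bot hok ht.toOk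
  have hcol := ht.hcol
  have hlt := hok.st_lt (false, t.id)
  refine ⟨?_, ?_, fun h => ab_tf h, fun h => ab_tf h, fun _ h => ab_tf h, fun _ h => ab_tf h,
    fun _ h => ab_tf h, fun _ h => ab_tf h, ?_, ?_, ?_, ?_, ?_, ?_, ?_, ?_⟩
  · intro n
    rw [ite_self]
    fin_cases n
    · exact hF.σv j
    · exact hF.σu j
    · exact hF.σu j
  · intro n
    rw [fspl_slabel hok h2 h3 hg Φ₀ F j n _ rfl]
    fin_cases n
    · exact hv
    · exact hu.trans (hF.par j).symm
    · exact hu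
  · intro hf _
    have hf' : (!t.f) = true := hf
    rw [hf'] at hgt
    exact hgt
  · intro hf _ i
    have hf' : (!t.f) = true := hf
    have hf'' : t.f = false := by
      cases h : t.f
      · rfl
      · rw [h] at hf'
        exact absurd hf' (by decide)
    show b.pn (F.rF j) (b.st i + 1) ≠ (b.row hok h2 h3 hg (F.rF j)).s
      ((b.row hok h2 h3 hg (F.rF j)).s ((b.row hok h2 h3 hg (F.rF j)).B (false, t.id)))
    rw [row_s2B]
    intro h
    have h1 := hok.st_lt i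
    have := b.pn_inj _ (by omega) (by omega) h
    have := htop hf''
    omega
  · intro _ _
    show (if b.ix (F.rF j) ((b.row hok h2 h3 hg (F.rF j)).s ((b.row hok h2 h3 hg (F.rF j)).s
      ((b.row hok h2 h3 hg (F.rF j)).B (false, t.id)))) = b.sp then (1 : R) else 0) = 0
    rw [row_s2B, b.ix_pn _ (by omega), if_neg ht.spD]
  · intro hf _
    have hf' : (!t.f) = true := hf
    have e1 := row_wn hok h2 h3 hg (F.rF j) (false, t.id) 0
    have e2 : (b.row hok h2 h3 hg (F.rF j)).s⁻¹ ((b.row hok h2 h3 hg (F.rF j)).B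
      (false, t.id)) = some (b.win (F.rF j) (false, t.id) 0) := e1
    show (b.row hok h2 h3 hg (F.rF j)).col none = _
    rw [e2, row_col]
    show b.slope R (F.rF j) none = _
    rw [← b.pn_zero (F.rF j), b.slope_pn _ (by omega), hcol, hf']
    rfl
  · intro hf _
    have hf' : (!t.f) = false := hf
    rw [hf'] at hgt
    exact hgt
  · intro hf _ i
    have hf' : (!t.f) = false := hf
    have h0 : (b.row hok h2 h3 hg (F.rF j)).tL (false, t.id) = b.pn (F.rF j) 0 := by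
      rw [hf'] at hgt
      rw [b.pn_zero]
      exact hgt
    rw [h0]
    intro h
    have h1 := hok.st_lt i
    have h3 : b.pn (F.rF j) (b.st i + 1) = b.pn (F.rF j) 0 := h
    have := b.pn_inj _ (by omega) (by omega) h3
    omega
  · intro hf _
    have hf' : (!t.f) = false := hf
    have h0 : (b.row hok h2 h3 hg (F.rF j)).tL (false, t.id) = b.pn (F.rF j) 0 := by
      rw [hf'] at hgt
      rw [b.pn_zero]
      exact hgt
    rw [h0]
    show (if b.ix (F.rF j) (b.pn (F.rF j) 0) = b.sp then (1 : R) else 0) = 0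
    rw [b.ix_pn _ (by omega), if_neg (Ne.symm ht.sp0)]
  · intro hf _
    have hf' : (!t.f) = false := hf
    have e1 := row_wn hok h2 h3 hg (F.rF j) (false, t.id) 3
    have e2 : (b.row hok h2 h3 hg (F.rF j)).s ((b.row hok h2 h3 hg (F.rF j)).s
      ((b.row hok h2 h3 hg (F.rF j)).B (false, t.id))) =
        some (b.win (F.rF j) (false, t.id) 3) := e1
    show (b.row hok h2 h3 hg (F.rF j)).col none = _
    rw [e2, row_col]
    show b.slope R (F.rF j) none = _
    rw [← b.pn_zero (F.rF j), b.slope_pn _ (by omega), hcol, hf']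
    rfl

/-! ### Disjointness -/

/-- the levels and letters of different splices of the same row are different -/
structure FDis {TF : Type*} (F : FS b R W TF) : Prop where
  pq : ∀ j, F.Pp j ≠ F.Pq j
  uv : ∀ j, F.Pu j ≠ F.Pv j
  ypq : ∀ j, F.yp j ≠ F.yq j
  wuv : ∀ j, F.wu j ≠ F.wv j
  pp : ∀ j j', j ≠ j' → F.rF j = F.rF j' → F.Pp j ≠ F.Pp j'
  uu : ∀ j j', j ≠ j' → F.rF j = F.rF j' → F.Pu j ≠ F.Pu j'
  vv : ∀ j j', j ≠ j' → F.rF j = F.rF j' → F.Pv j ≠ F.Pv j'
  uv' : ∀ j j', j ≠ j' → F.rF j = F.rF j' → F.Pu j ≠ F.Pv j'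
  yy : ∀ j j', j ≠ j' → F.rF j = F.rF j' → F.yp j ≠ F.yp j'
  wu : ∀ j j', j ≠ j' → F.rF j = F.rF j' → F.wu j ≠ F.wu j'
  wv : ∀ j j', j ≠ j' → F.rF j = F.rF j' → F.wv j ≠ F.wv j'
  wuv' : ∀ j j', j ≠ j' → F.rF j = F.rF j' → F.wu j ≠ F.wv j'

omit [Fintype R] [DecidableEq R] [Fintype W] [DecidableEq W] [CommRing R] in
theorem oF_ne_iF (hok : b.Ok) (r : ZMod b.k) : t.oF r ≠ t.iF r := by
  intro h
  have h1 : (some (t.oF r) : Option b.V) = some (t.iF r) := congrArg some h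
  unfold oF iF at h1
  rw [← pn_win hok, ← pn_win hok] at h1
  have h2 := hok.st_lt (false, t.id)
  have h3 := (wo !t.f).isLt
  have h4 := (wi !t.f).isLt
  have h5 := b.pn_inj r (by omega) (by omega) h1
  cases hf : t.f
  · rw [hf] at h5
    simp [wo, wi] at h5
  · rw [hf] at h5
    simp [wo, wi] at h5

omit [Fintype R] [DecidableEq R] [Fintype W] [DecidableEq W] [CommRing R] in
theorem fOk_in {TF : Type*} {F : FS b R W TF} {σ : W → WSys}
    {OF : TF → Perm (b.V × R)} {SF : TF → Perm (R ⊕ W)}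
    (hF : t.FOk0 F σ OF SF) (j : TF) :
    (t.fplace F j).In (two (OF j) (SF j)) := by
  have key : ∀ {x y : b.V × R}, OF j x = y →
      two (OF j) (SF j) (.inl (some x.1, x.2)) = .inl (some y.1, y.2) := by
    rintro x y rfl
    exact two_inl (OF j) (SF j) x
  refine ⟨key (hF.o1 j), key (hF.o2 j), key (hF.o3 j), ?_, ?_, ?_⟩
  · show two (OF j) (SF j) (.inl (none, F.yp j)) = .inl (none, F.yq j)
    rw [two_none, hF.s1]
    rfl
  · show two (OF j) (SF j) (.inl (none, F.yq j)) = .inr (F.wu j)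
    rw [two_none, hF.s2]
    rfl
  · show two (OF j) (SF j) (.inr (F.wu j)) = .inr (F.wv j)
    rw [two_inr, hF.s3]
    rfl

omit [Fintype R] [DecidableEq R] [Fintype W] [DecidableEq W] [CommRing R] in
theorem fOk_dis (hok : b.Ok) {TF : Type*} {F : FS b R W TF} {σ : W → WSys}
    {OF : TF → Perm (b.V × R)} {SF : TF → Perm (R ⊕ W)}
    (hF : t.FOk0 F σ OF SF)
    (hnc : ∀ j j' : TF, j ≠ j' → ∀ a c, a ≠ c → Adj (two (OF j) (SF j)) a c →
      Adj (two (OF j') (SF j')) a c → False) : FDis F := by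
  have hne := fun r => oF_ne_iF (t := t) hok r
  have e1 : ∀ j, Adj (two (OF j) (SF j)) (.inl (some (t.oF (F.rF j)), F.Pp j))
      (.inl (some (t.oF (F.rF j)), F.Pq j)) := fun j =>
    adj_of_step1 (fOk_in hF j).1
  have e2 : ∀ j, Adj (two (OF j) (SF j)) (.inl (some (t.oF (F.rF j)), F.Pq j))
      (.inl (some (t.iF (F.rF j)), F.Pu j)) := fun j =>
    adj_of_step1 (fOk_in hF j).2.1
  have e3 : ∀ j, Adj (two (OF j) (SF j)) (.inl (some (t.oF (F.rF j)), F.Pq j))
      (.inl (some (t.iF (F.rF j)), F.Pv j)) := fun j =>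
    adj_of_step2 (fOk_in hF j).2.1 (fOk_in hF j).2.2.1
  have e4 : ∀ j, Adj (two (OF j) (SF j)) (.inl (none, F.yp j)) (.inl (none, F.yq j)) :=
    fun j => adj_of_step1 (fOk_in hF j).2.2.2.1
  have e5 : ∀ j, Adj (two (OF j) (SF j)) (.inl (none, F.yq j)) (.inr (F.wu j)) :=
    fun j => adj_of_step1 (fOk_in hF j).2.2.2.2.1
  have e6 : ∀ j, Adj (two (OF j) (SF j)) (.inl (none, F.yq j)) (.inr (F.wv j)) :=
    fun j => adj_of_step2 (fOk_in hF j).2.2.2.2.1
      (fOk_in hF j).2.2.2.2.2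
  have pq : ∀ j, F.Pp j ≠ F.Pq j := by
    intro j h
    have h1 := hF.o1 j
    rw [h, hF.o2 j] at h1
    exact hne _ (Prod.ext_iff.1 h1).1.symm
  have ypq : ∀ j, F.yp j ≠ F.yq j := by
    intro j h
    have h1 := hF.s1 j
    rw [h, hF.s2 j] at h1
    exact Sum.inr_ne_inl h1
  have hpt : ∀ (r : ZMod b.k) (y z : R), (Sum.inl (some (t.oF r), y) : (Option b.V × R) ⊕ W) ≠
      .inl (some (t.iF r), z) := by
    intro r y z h
    exact hne r (Option.some_injective _ (Prod.ext_iff.1 (Sum.inl_injective h)).1)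
  have hpp : ∀ (x : Option b.V) {y z : R}, y ≠ z →
      (Sum.inl (x, y) : (Option b.V × R) ⊕ W) ≠ .inl (x, z) := by
    intro x y z hyz h
    exact hyz (Prod.ext_iff.1 (Sum.inl_injective h)).2
  refine ⟨pq, ?_, ypq, ?_, ?_, ?_, ?_, ?_, ?_, ?_, ?_, ?_⟩
  · intro j h
    have h1 := hF.o3 j
    rw [← h] at h1
    have h2' := (OF j).injective (h1.trans (hF.o2 j).symm)
    exact hne _ (Prod.ext_iff.1 h2').1.symm
  · intro j h
    have h1 := hF.s3 j
    rw [← h] at h1
    exact Sum.inr_ne_inl ((SF j).injective (h1.trans (hF.s2 j).symm))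
  · intro j j' hj hr h
    have g1 := e1 j
    have g2 := e1 j'
    rw [← hr, ← h, ← (hF.grp j j' hr).1] at g2
    exact hnc j j' hj _ _ (hpp _ (pq j)) g1 g2
  · intro j j' hj hr h
    have g1 := e2 j
    have g2 := e2 j'
    rw [← hr, ← h, ← (hF.grp j j' hr).1] at g2
    exact hnc j j' hj _ _ (hpt _ _ _) g1 g2
  · intro j j' hj hr h
    have g1 := e3 j
    have g2 := e3 j'
    rw [← hr, ← h, ← (hF.grp j j' hr).1] at g2
    exact hnc j j' hj _ _ (hpt _ _ _) g1 g2
  · intro j j' hj hr h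
    have g1 := e2 j
    have g2 := e3 j'
    rw [← hr, ← h, ← (hF.grp j j' hr).1] at g2
    exact hnc j j' hj _ _ (hpt _ _ _) g1 g2
  · intro j j' hj hr h
    have g1 := e4 j
    have g2 := e4 j'
    rw [← h, ← (hF.grp j j' hr).2] at g2
    exact hnc j j' hj _ _ (hpp _ (ypq j)) g1 g2
  · intro j j' hj hr h
    have g1 := e5 j
    have g2 := e5 j'
    rw [← h, ← (hF.grp j j' hr).2] at g2
    exact hnc j j' hj _ _ Sum.inl_ne_inr g1 g2
  · intro j j' hj hr h
    have g1 := e6 j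
    have g2 := e6 j'
    rw [← h, ← (hF.grp j j' hr).2] at g2
    exact hnc j j' hj _ _ Sum.inl_ne_inr g1 g2
  · intro j j' hj hr h
    have g1 := e5 j
    have g2 := e6 j'
    rw [← h, ← (hF.grp j j' hr).2] at g2
    exact hnc j j' hj _ _ Sum.inl_ne_inr g1 g2

omit [Fintype R] [DecidableEq R] [Fintype W] [DecidableEq W] in
/-- the edges of the moves are different -/
theorem fspl_edges {TF : Type*} {Φ₀ : ZMod b.k → b.V → Perm R} {F : FS b R W TF}
    (hd : FDis F) (hgrp : ∀ j j', F.rF j = F.rF j' → F.Pq j = F.Pq j' ∧ F.yq j = F.yq j')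
    (j j' : TF) (n n' : Fin 3) (hne : (j, n) ≠ (j', n')) (hr : F.rF j = F.rF j') :
    ¬ ((t.fspl Φ₀ F j).lev n = (t.fspl Φ₀ F j').lev n' ∧
      (t.fspl Φ₀ F j).levI n = (t.fspl Φ₀ F j').levI n') := by
  have hO : ∀ {r : ZMod b.k} {y z : R}, t.pO Φ₀ r y = t.pO Φ₀ r z → y = z :=
    fun h => (Φ₀ _ _)⁻¹.injective h
  have hI : ∀ {r : ZMod b.k} {y z : R}, t.pI Φ₀ r y = t.pI Φ₀ r z → y = z :=
    fun h => (Φ₀ _ _)⁻¹.injective h
  rintro ⟨h1, h2⟩
  have hq := (hgrp j j' hr).1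
  by_cases hj : j = j'
  · subst hj
    fin_cases n <;> fin_cases n'
    · exact hne rfl
    · exact hd.pq j (hO h1).symm
    · exact hd.uv j (hI h2)
    · exact hd.pq j (hO h1)
    · exact hne rfl
    · exact hd.pq j (hO h1)
    · exact hd.uv j (hI h2).symm
    · exact hd.pq j (hO h1).symm
    · exact hne rfl
  · have hj' : j' ≠ j := Ne.symm hj
    have hr' := hr.symm
    fin_cases n <;> fin_cases n'
    · have h2' : t.pI Φ₀ (F.rF j) (F.Pu j) = t.pI Φ₀ (F.rF j') (F.Pu j') := h2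
      rw [hr] at h2'
      exact hd.uu j j' hj hr (hI h2')
    · have h1' : t.pO Φ₀ (F.rF j) (F.Pq j) = t.pO Φ₀ (F.rF j') (F.Pp j') := h1
      rw [hr, hq] at h1'
      exact hd.pq j' (hO h1').symm
    · have h2' : t.pI Φ₀ (F.rF j) (F.Pu j) = t.pI Φ₀ (F.rF j') (F.Pv j') := h2
      rw [hr] at h2'
      exact hd.uv' j j' hj hr (hI h2')
    · have h1' : t.pO Φ₀ (F.rF j) (F.Pp j) = t.pO Φ₀ (F.rF j') (F.Pq j') := h1
      rw [hr, ← hq] at h1'
      exact hd.pq j (hO h1')
    · have h1' : t.pO Φ₀ (F.rF j) (F.Pp j) = t.pO Φ₀ (F.rF j') (F.Pp j') := h1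
      rw [hr] at h1'
      exact hd.pp j j' hj hr (hO h1')
    · have h1' : t.pO Φ₀ (F.rF j) (F.Pp j) = t.pO Φ₀ (F.rF j') (F.Pq j') := h1
      rw [hr, ← hq] at h1'
      exact hd.pq j (hO h1')
    · have h2' : t.pI Φ₀ (F.rF j) (F.Pv j) = t.pI Φ₀ (F.rF j') (F.Pu j') := h2
      rw [hr] at h2'
      exact hd.uv' j' j hj' hr' (hI h2').symm
    · have h1' : t.pO Φ₀ (F.rF j) (F.Pq j) = t.pO Φ₀ (F.rF j') (F.Pp j') := h1
      rw [hr, hq] at h1'
      exact hd.pq j' (hO h1').symm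
    · have h2' : t.pI Φ₀ (F.rF j) (F.Pv j) = t.pI Φ₀ (F.rF j') (F.Pv j') := h2
      rw [hr] at h2'
      exact hd.vv j j' hj hr (hI h2')

/-! ### The permutation over infinity and the labels -/

/-- the permutation over infinity in the row `r` -/
theorem exists_inf {TF : Type*} {Φ₀ : ZMod b.k → b.V → Perm R} {F : FS b R W TF}
    (hd : FDis F) (hgrp : ∀ j j', F.rF j = F.rF j' → F.Pq j = F.Pq j' ∧ F.yq j = F.yq j')
    (hnq : ∀ j, F.rF j ≠ t.rqu) (A2 : Finset R) (c : R) (yv : R → R)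
    (hyv : ∀ s ∈ A2, ∀ s' ∈ A2, yv s = yv s' → s = s') (r : ZMod b.k) :
    ∃ e : Perm R, (r = t.rqu → ∀ s ∈ A2, e (s + c) = yv s) ∧
      ∀ j, F.rF j = r → e (t.pO Φ₀ (F.rF j) (F.Pq j)) = F.yq j ∧
        e (t.pO Φ₀ (F.rF j) (F.Pp j)) = F.yp j := by
  classical
  by_cases hr : r = t.rqu
  · obtain ⟨e, he⟩ := exists_perm_of_partial (α := R) (β := R) rfl (γ := {s // s ∈ A2})
      (fun s => s.val + c) (fun s => yv s.val) (fun s s' => by
        constructor
        · intro h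
          rw [add_right_cancel h]
        · intro h
          rw [hyv _ s.2 _ s'.2 h])
    refine ⟨e, fun _ s hs => he ⟨s, hs⟩, fun j hj => ?_⟩
    exact absurd (hj.trans hr) (hnq j)
  · have hO : ∀ {y z : R}, t.pO Φ₀ r y = t.pO Φ₀ r z ↔ y = z :=
      ⟨fun h => (Φ₀ _ _)⁻¹.injective h, fun h => by rw [h]⟩
    obtain ⟨e, he⟩ := exists_perm_of_partial (α := R) (β := R) rfl
      (γ := {j : TF // F.rF j = r} × Bool)
      (fun z => t.pO Φ₀ r (if z.2 then F.Pp z.1.val else F.Pq z.1.val))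
      (fun z => if z.2 then F.yp z.1.val else F.yq z.1.val) (by
        rintro ⟨⟨j, hj⟩, a⟩ ⟨⟨j', hj'⟩, a'⟩
        have hjj : F.rF j = F.rF j' := hj.trans hj'.symm
        have hg' := hgrp j j' hjj
        rw [hO]
        cases a <;> cases a'
        · simp only [Bool.false_eq_true, if_false]
          exact ⟨fun _ => hg'.2, fun _ => hg'.1⟩
        · simp only [Bool.false_eq_true, if_false, if_true]
          constructor
          · intro h
            rw [hg'.1] at h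
            exact absurd h.symm (hd.pq j')
          · intro h
            rw [hg'.2] at h
            exact absurd h.symm (hd.ypq j')
        · simp only [Bool.false_eq_true, if_false, if_true]
          constructor
          · intro h
            rw [← hg'.1] at h
            exact absurd h (hd.pq j)
          · intro h
            rw [← hg'.2] at h
            exact absurd h (hd.ypq j)
        · simp only [if_true]
          by_cases h0 : j = j'
          · subst h0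
            simp
          · exact ⟨fun h => absurd h (hd.pp j j' h0 hjj), fun h => absurd h (hd.yy j j' h0 hjj)⟩)
    refine ⟨e, fun h => absurd h hr, fun j hj => ?_⟩
    have e1 := he (⟨j, hj⟩, false)
    have e2 := he (⟨j, hj⟩, true)
    simp only [Bool.false_eq_true, if_false, if_true] at e1 e2
    rw [hj]
    exact ⟨e1, e2⟩

/-- the sets of labels -/
def Kf (A2 : Finset R) (K : Fin 4 → Finset R) (i : WSys) : Finset R := if i.1 then A2 else K i.2

/-- the systems of the letters of the words -/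
def sy (t : C1 b) (n : Fin 4) : WSys :=
  ![(true, t.ia), (true, t.id), (true, t.ib), (false, t.iC)] n

omit [Fintype R] [DecidableEq R] [Fintype W] [DecidableEq W] [CommRing R] in
theorem id_ne_ib (hok : b.Ok) (ht : t.Ok) : t.id ≠ t.ib := by
  intro e2
  have hadj := ht.inf
  have hadjL := ht.adjL
  have hadjC := ht.adjC
  have s1 := hok.st_lt (true, t.ia)
  have s2 := hok.st_lt (false, t.iC)
  have s3 := hok.one_le (true, t.ia)
  have s4 := hok.one_le (false, t.iC)
  rw [e2] at hadj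
  split_ifs at hadj hadjL hadjC <;> omega

omit [Fintype R] [DecidableEq R] [Fintype W] [DecidableEq W] [CommRing R] in
theorem ia_ne_ib (ht : t.Ok) : t.ia ≠ t.ib := by
  intro e2
  have hadjL := ht.adjL
  rw [e2] at hadjL
  split_ifs at hadjL <;> omega

omit [Fintype R] [DecidableEq R] [Fintype W] [DecidableEq W] [CommRing R] in
theorem sy_inj (hok : b.Ok) (ht : t.Ok3) : Function.Injective t.sy := by
  have h1 := id_ne_ib hok ht.toOk
  have h2 := ia_ne_ib ht.toOk
  have h3 := ht.dA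
  intro m n h
  fin_cases m <;> fin_cases n <;> first
    | rfl
    | (exfalso
       simp [sy] at h <;> first
         | exact h1 h
         | exact h1 h.symm
         | exact h2 h
         | exact h2 h.symm
         | exact h3 h
         | exact h3 h.symm)

/-- the labels in the row `r` -/
theorem exists_lab (ht : t.Ok3) {TF : Type*} {Φ₀ : ZMod b.k → b.V → Perm R} {F : FS b R W TF}
    (hd : FDis F) (hgrp : ∀ j j', F.rF j = F.rF j' → F.Pq j = F.Pq j' ∧ F.yq j = F.yq j')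
    (A2 : Finset R) (K : Fin 4 → Finset R) (hKD : K t.id = univ) (hKC : K t.iC = univ)
    (σ : W → WSys) (hcF : ∀ i, #(univ.filter fun w => σ w = (false, i)) = #(K i))
    (hcG : ∀ i, #(univ.filter fun w => σ w = (true, i)) = #A2)
    (lt : Fin 4 → R → W) (hσl : ∀ n, ∀ s ∈ A2, σ (lt n s) = t.sy n)
    (hil : ∀ n, ∀ s ∈ A2, ∀ s' ∈ A2, lt n s = lt n s' → s = s')
    (hσu : ∀ j, σ (F.wu j) = (false, t.id)) (hσv : ∀ j, σ (F.wv j) = (false, t.id))
    (r : ZMod b.k) :
    ∃ κ : W → R, (Function.Injective fun w => (σ w, κ w)) ∧ (∀ w, κ w ∈ Kf A2 K (σ w)) ∧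
      (∀ i, ∀ k ∈ Kf A2 K i, ∃ w, σ w = i ∧ κ w = k) ∧
      (∀ n, ∀ s ∈ A2, κ (lt n s) = s) ∧
      ∀ j, F.rF j = r → κ (F.wv j) = t.lbD hok h2 h3 hg (F.rF j) (t.pO Φ₀ (F.rF j) (F.Pq j))
          (t.pI Φ₀ (F.rF j) (F.Pu j)) ∧
        κ (F.wu j) = t.lbD hok h2 h3 hg (F.rF j) (t.pO Φ₀ (F.rF j) (F.Pq j))
          (t.pI Φ₀ (F.rF j) (F.Pv j)) := by
  classical
  have hI : ∀ {y z : R}, t.pI Φ₀ r y = t.pI Φ₀ r z → y = z := fun h => (Φ₀ _ _)⁻¹.injective h
  have hsy := sy_inj hok ht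
  have hsyD : ∀ n, t.sy n ≠ (false, t.id) := by
    intro n h
    fin_cases n
    · exact Bool.noConfusion (Prod.ext_iff.1 h).1
    · exact Bool.noConfusion (Prod.ext_iff.1 h).1
    · exact Bool.noConfusion (Prod.ext_iff.1 h).1
    · exact ht.CD (Prod.ext_iff.1 h).2
  let γ : Type _ := ({s // s ∈ A2} × Fin 4) ⊕ ({j : TF // F.rF j = r} × Bool)
  let x : γ → W := Sum.elim (fun z => lt z.2 z.1.val)
    (fun z => if z.2 then F.wu z.1.val else F.wv z.1.val)
  let y : γ → R := Sum.elim (fun z => z.1.val)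
    (fun z => t.lbD hok h2 h3 hg r (t.pO Φ₀ r (F.Pq z.1.val))
      (t.pI Φ₀ r (if z.2 then F.Pv z.1.val else F.Pu z.1.val)))
  have hσx : ∀ z : {s // s ∈ A2} × Fin 4, σ (x (.inl z)) = t.sy z.2 := fun z =>
    hσl z.2 z.1.val z.1.2
  have hσx' : ∀ z : {j : TF // F.rF j = r} × Bool, σ (x (.inr z)) = (false, t.id) := by
    rintro ⟨⟨j, hj⟩, a⟩
    cases a
    · exact hσv j
    · exact hσu j
  obtain ⟨κ, k1, k2, k3, k4⟩ := exists_labels σ (Kf A2 K) (by
      rintro ⟨a, i⟩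
      cases a
      · exact hcF i
      · exact hcG i) x y (by
      rintro (⟨s, n⟩ | ⟨⟨j, hj⟩, a⟩) (⟨s', n'⟩ | ⟨⟨j', hj'⟩, a'⟩) h
      · have h0 : t.sy n = t.sy n' := by
          rw [← hσx (s, n), ← hσx (s', n'), h]
        have h1 := hsy h0
        subst h1
        have h2' : lt n s.val = lt n s'.val := h
        rw [Subtype.ext (hil n _ s.2 _ s'.2 h2')]
      · exfalso
        have h0 : t.sy n = (false, t.id) := by
          rw [← hσx (s, n), ← hσx' (⟨j', hj'⟩, a'), h]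
        exact hsyD n h0
      · exfalso
        have h0 : t.sy n' = (false, t.id) := by
          rw [← hσx (s', n'), ← hσx' (⟨j, hj⟩, a), h]
        exact hsyD n' h0
      · have hjj : F.rF j = F.rF j' := hj.trans hj'.symm
        cases a <;> cases a'
        · have h' : F.wv j = F.wv j' := h
          by_cases h0 : j = j'
          · subst h0
            rfl
          · exact absurd h' (hd.wv j j' h0 hjj)
        · have h' : F.wv j = F.wu j' := h
          by_cases h0 : j = j'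
          · subst h0
            exact absurd h'.symm (hd.wuv j)
          · exact absurd h'.symm (hd.wuv' j' j (Ne.symm h0) hjj.symm)
        · have h' : F.wu j = F.wv j' := h
          by_cases h0 : j = j'
          · subst h0
            exact absurd h' (hd.wuv j)
          · exact absurd h' (hd.wuv' j j' h0 hjj)
        · have h' : F.wu j = F.wu j' := h
          by_cases h0 : j = j'
          · subst h0
            rfl
          · exact absurd h' (hd.wu j j' h0 hjj)) (by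
      rintro (⟨s, n⟩ | ⟨⟨j, hj⟩, a⟩) (⟨s', n'⟩ | ⟨⟨j', hj'⟩, a'⟩) h
      · obtain ⟨h0, h1⟩ := Prod.ext_iff.1 h
        have h0' : t.sy n = t.sy n' := by
          rw [← hσx (s, n), ← hσx (s', n')]
          exact h0
        have h1' := hsy h0'
        subst h1'
        have h2' : s.val = s'.val := h1
        rw [Subtype.ext h2']
      · exfalso
        have h0 : t.sy n = (false, t.id) := by
          rw [← hσx (s, n), ← hσx' (⟨j', hj'⟩, a')]
          exact (Prod.ext_iff.1 h).1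
        exact hsyD n h0
      · exfalso
        have h0 : t.sy n' = (false, t.id) := by
          rw [← hσx (s', n'), ← hσx' (⟨j, hj⟩, a)]
          exact (Prod.ext_iff.1 h).1.symm
        exact hsyD n' h0
      · have hjj : F.rF j = F.rF j' := hj.trans hj'.symm
        have h1 : t.lbD hok h2 h3 hg r (t.pO Φ₀ r (F.Pq j))
            (t.pI Φ₀ r (if a then F.Pv j else F.Pu j)) = t.lbD hok h2 h3 hg r
            (t.pO Φ₀ r (F.Pq j')) (t.pI Φ₀ r (if a' then F.Pv j' else F.Pu j')) :=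
          (Prod.ext_iff.1 h).2
        rw [(hgrp j j' hjj).1] at h1
        have h2' := hI (t.lbD_inj hok h2 h3 hg r _ h1)
        cases a <;> cases a'
        · have h' : F.Pu j = F.Pu j' := h2'
          by_cases h0 : j = j'
          · subst h0
            rfl
          · exact absurd h' (hd.uu j j' h0 hjj)
        · have h' : F.Pu j = F.Pv j' := h2'
          by_cases h0 : j = j'
          · subst h0
            exact absurd h' (hd.uv j)
          · exact absurd h' (hd.uv' j j' h0 hjj)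
        · have h' : F.Pv j = F.Pu j' := h2'
          by_cases h0 : j = j'
          · subst h0
            exact absurd h'.symm (hd.uv j)
          · exact absurd h'.symm (hd.uv' j' j (Ne.symm h0) hjj.symm)
        · have h' : F.Pv j = F.Pv j' := h2'
          by_cases h0 : j = j'
          · subst h0
            rfl
          · exact absurd h' (hd.vv j j' h0 hjj)) (by
      rintro (⟨s, n⟩ | z)
      · have h0 := hσx (s, n)
        rw [h0]
        fin_cases n
        · exact s.2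
        · exact s.2
        · exact s.2
        · show s.val ∈ K t.iC
          rw [hKC]
          exact mem_univ _
      · rw [hσx' z]
        show _ ∈ K t.id
        rw [hKD]
        exact mem_univ _)
  refine ⟨κ, k1, k2, k3, fun n s hs => k4 (.inl (⟨s, hs⟩, n)), fun j hj => ?_⟩
  have e1 := k4 (.inr (⟨j, hj⟩, false))
  have e2 := k4 (.inr (⟨j, hj⟩, true))
  rw [hj]
  exact ⟨e1, e2⟩

/-! ### The step -/

/-- **The step for class 1 bases, with the splices of `F`.** -/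
theorem step2 [Nontrivial R] (hr : b.ROk) (ht : t.Ok3)
    (hc : 5 < Fintype.card ((Option b.V × R) ⊕ W))
    {TF : Type*} [Fintype TF] [DecidableEq TF] (A2 : Finset R)
    (σ : W → WSys) (K : ZMod b.k → Fin 4 → Finset R) (hKD : ∀ r, K r t.id = univ)
    (hKC : ∀ r, K r t.iC = univ)
    (hcF : ∀ r i, #(univ.filter fun w => σ w = (false, i)) = #(K r i))
    (hcG : ∀ i, #(univ.filter fun w => σ w = (true, i)) = #A2)
    (Φ₀ : ZMod b.k → b.V → Perm R) (μ : ℕ → R) (hμ : ∀ c < 4, IsUnit (μ c))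
    (δ : ZMod b.k → Fin 4 → Fin 4 → R) (hD : DOk t δ)
    (hnat : ∀ i n : Fin 4, (b.c (b.st (true, i) + n.val) : R) - (b.cs (true, i) : R) =
      μ (b.Jf (true, i) n % 4))
    (hΦ : ∀ (r : ZMod b.k) (i n : Fin 4) (y : R), Φ₀ r (b.win r (true, i) n) y =
      y + μ (b.Jf (true, i) n % 4) * δ r i n)
    (hΦC : ∀ r n y, Φ₀ r (b.win r (false, t.iC) n) y = y)
    (lt : Fin 4 → R → W) (hσl : ∀ n, ∀ s ∈ A2, σ (lt n s) = t.sy n)
    (hil : ∀ n, ∀ s ∈ A2, ∀ s' ∈ A2, lt n s = lt n s' → s = s')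
    (OF : TF → Perm (b.V × R)) (hOFc : ∀ j, Closed (OF j)) (freeF : Sym2 (b.V × R) → ℤ)
    (hOF : ∑ j, E (OF j) = vertAll b.V R + freeF)
    (hfreeF : ∀ Φ : ZMod b.k → Option b.V → Perm R, (∀ r v, Φ r (some v) = Φ₀ r v) →
      push (emV b.V R) freeF = ∑ r, push (fib (Φ r)) (∑ i : Fin 4, ∑ s ∈ K r i,
        ((b.row hok h2 h3 hg r).mac (false, i) s + (b.row hok h2 h3 hg r).mbd (false, i) s)))
    (S : TF ⊕ {s // s ∈ A2} → Perm (R ⊕ W)) (hSc : ∀ j, Closed (S j))
    (hS : ∑ j, E (S j) = allPairs (R ⊕ W)) (yv : R → R)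
    (hyv : ∀ s ∈ A2, ∀ s' ∈ A2, yv s = yv s' → s = s')
    (hword : ∀ s : {s // s ∈ A2}, S (.inr s) (.inr (lt 0 s)) = .inr (lt 1 s) ∧
      S (.inr s) (.inr (lt 1 s)) = .inr (lt 2 s) ∧ S (.inr s) (.inr (lt 2 s)) = .inl (yv s))
    (F : FS b R W TF) (hF : t.FOk hok h2 h3 hg Φ₀ F σ OF (fun j => S (.inl j))) :
    ∃ (Φ : ZMod b.k → Option b.V → Perm R) (κ : ZMod b.k → W → R)
      (hσ : ∀ r, Function.Injective fun w => (σ w, κ r w)) (π : R → Perm W)
      (s : (ZMod b.k × R) ⊕ (TF ⊕ {s // s ∈ A2}) → Perm ((Option b.V × R) ⊕ W)),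
      (∀ r v, Φ r (some v) = Φ₀ r v) ∧ Dec s ∧
      (∀ r l x y x' y', Quiet1 t r x → Quiet1 t r x' →
        (b.row hok h2 h3 hg r).fullπ (hσ r) (Φ r) (π l) l (.inl (x, y)) = .inl (x', y') →
        s (.inl (r, l)) (.inl (x, y)) = .inl (x', y')) ∧
      (∀ j x, x ≠ (t.fplace F j).q → x ≠ (t.fplace F j).x₀ →
        s (.inr (.inl j)) x = two (OF j) (S (.inl j)) x) ∧
      (∀ (j : {s // s ∈ A2}) x, x ≠ (t.place μ (lt 0) (lt 1) (lt 2) yv j.val).q →
        x ≠ (t.place μ (lt 0) (lt 1) (lt 2) yv j.val).x₀ →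
        s (.inr (.inr j)) x = two (stO hr true μ hμ t.w j.val) (S (.inr j)) x) := by
  classical
  -- labels without conditions, the total sum
  have hlabels : ∀ (κ : ZMod b.k → W → R), (∀ r w, κ r w ∈ Kf A2 (K r) (σ w)) →
      (∀ r i, ∀ k ∈ Kf A2 (K r) i, ∃ w, σ w = i ∧ κ r w = k) →
      ∀ r i s, s ∈ A2 ↔ ∃ w, σ w = (true, i) ∧ κ r w = s := by
    intro κ h1 h2 r i s
    constructor
    · intro hs
      exact h2 r (true, i) s hs
    · rintro ⟨w, hw, rfl⟩
      have h3 := h1 r w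
      rw [hw] at h3
      exact h3
  have hfree : ∀ (Φ : ZMod b.k → Option b.V → Perm R) (_ : ∀ r v, Φ r (some v) = Φ₀ r v)
      (κ : ZMod b.k → W → R) (_ : ∀ r, Function.Injective fun w => (σ w, κ r w))
      (_ : ∀ r w, κ r w ∈ Kf A2 (K r) (σ w))
      (_ : ∀ r i, ∀ k ∈ Kf A2 (K r) i, ∃ w, σ w = i ∧ κ r w = k),
      push (emV b.V R) freeF = ∑ r, push (fib (Φ r))
      (∑ w ∈ univ.filter (fun w => (σ w).1 = false),
        ((b.row hok h2 h3 hg r).mac (σ w) (κ r w) +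
          (b.row hok h2 h3 hg r).mbd (σ w) (κ r w))) := by
    intro Φ hΦ' κ k1 k2 k3
    rw [hfreeF Φ hΦ']
    refine sum_congr rfl fun r _ => ?_
    congr 1
    rw [sum_false σ (κ r) (k1 r) (K r) (fun w hw => by
        have h := k2 r w
        unfold Kf at h
        rw [hw] at h
        exact h) (fun i k hk => k3 r (false, i) k hk)
      (fun i s => (b.row hok h2 h3 hg r).mac i s + (b.row hok h2 h3 hg r).mbd i s)]
  have hκ0 : ∀ r, ∃ κ : W → R, (Function.Injective fun w => (σ w, κ w)) ∧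
      (∀ w, κ w ∈ Kf A2 (K r) (σ w)) ∧ (∀ i, ∀ k ∈ Kf A2 (K r) i, ∃ w, σ w = i ∧ κ w = k) := by
    intro r
    obtain ⟨κ, k1, k2, k3, -⟩ := exists_labels σ (Kf A2 (K r)) (by
      rintro ⟨a, i⟩
      cases a
      · exact hcF r i
      · exact hcG i) (γ := Empty) (fun z => z.elim) (fun z => z.elim) (fun z => z.elim)
      (fun z => z.elim) (fun z => z.elim)
    exact ⟨κ, k1, k2, k3⟩
  choose κ0 a1 a2 a3 using hκ0
  let Φ1 : ZMod b.k → Option b.V → Perm R := fun r x => x.elim 1 (Φ₀ r)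
  have hΦ1 : ∀ r v, Φ1 r (some v) = Φ₀ r v := fun _ _ => rfl
  have htot := tot hok h2 h3 hg hr A2 σ κ0 a1 Φ1 μ hμ δ hD hnat
    (fun r i n y => hΦ r i n y) (hlabels κ0 a2 a3) OF freeF hOF (hfree Φ1 hΦ1 κ0 a1 a2 a3) S hS
  have hnc : ∀ j j' : TF, j ≠ j' → ∀ a c, a ≠ c → Adj (two (OF j) (S (.inl j))) a c →
      Adj (two (OF j') (S (.inl j'))) a c → False := by
    intro j j' hj a c hac g1 g2
    refine no_common (fun z => two ((Sum.elim OF fun s => stO hr true μ hμ t.w s.val :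
        TF ⊕ {s // s ∈ A2} → Perm (b.V × R)) z) (S z)) _ (fun e => ?_) htot
      (j := Sum.inl j) (j' := Sum.inl j') (fun h => hj (Sum.inl_injective h)) hac g1 g2
    rw [Finset.sum_apply]
    exact sum_nonneg fun p _ => E_nonneg _ _
  have hd := fOk_dis hok hF.toFOk0 hnc
  -- the choices
  have hinf := exists_inf (t := t) (Φ₀ := Φ₀) hd hF.grp hF.nq A2
    ((b.c 0 : R) - (b.cs (true, t.id) : R)) yv hyv
  choose Φi i1 i2 using hinf
  have hκ := fun r => exists_lab hok h2 h3 hg (Φ₀ := Φ₀) ht hd hF.grp A2 (K r) (hKD r) (hKC r)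
    σ (hcF r) hcG lt hσl hil hF.σu hF.σv r
  choose κ k1 k2 k3 k4 k5 using hκ
  let Φ : ZMod b.k → Option b.V → Perm R := fun r x => x.elim (Φi r) (Φ₀ r)
  have hΦs : ∀ r v, Φ r (some v) = Φ₀ r v := fun _ _ => rfl
  have hfit := fun j => fspl_fits hok h2 h3 hg ht Φ₀ F σ (κ (F.rF j)) hF j (k5 _ j rfl).1
    (k5 _ j rfl).2
  have hl : ∀ s ∈ A2, t.LOk (lt 0) (lt 1) (lt 2) (lt 3) σ κ s := fun s hs =>
    ⟨hσl 0 s hs, hσl 1 s hs, hσl 2 s hs, hσl 3 s hs, k4 _ 0 s hs, fun r => k4 r 1 s hs,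
      k4 _ 2 s hs, k4 _ 2 s hs, fun r => k4 r 3 s hs⟩
  obtain ⟨π, s, hs, hs1, hs2, hs3⟩ := step1 hok h2 h3 hg hr ht.toOk2 hc A2 σ κ k1 Φ μ hμ δ hD
    hnat (fun r i n y => hΦ r i n y) (fun r n y => by
      show Φ₀ r (b.win r (false, t.iC) n) y = y
      exact hΦC r n y) hl (hlabels κ k2 k3) OF hOFc freeF hOF (hfree Φ hΦs κ k1 k2 k3) S hSc hS yv
    (fun s hs => i1 _ rfl s hs) hword (fun z => F.rF z.1)
    (fun z => (b.row hok h2 h3 hg (F.rF z.1)).sgm (false, t.id) (false, t.id)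
      (t.fspl Φ₀ F z.1) z.2)
    (fun z => hF.nq z.1) (fun z => (hfit z.1).gok z.2)
    (fun z => ⟨rfl, rfl, by
      have h := (hfit z.1).σX z.2
      rw [ite_self] at h
      exact h⟩)
    (by
      rintro ⟨j, n⟩ ⟨j', n'⟩ hne hrr hll
      have hrr' : F.rF j = F.rF j' := hrr
      have hfit' : (b.row hok h2 h3 hg (F.rF j)).SFits σ (κ (F.rF j)) (false, t.id)
          (false, t.id) (false, t.id) (false, t.id) (t.fspl Φ₀ F j') := by
        rw [hrr']
        exact hfit j'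
      have hll' : (b.row hok h2 h3 hg (F.rF j)).slift (false, t.id) (false, t.id)
          (t.fspl Φ₀ F j) n = (b.row hok h2 h3 hg (F.rF j)).slift (false, t.id) (false, t.id)
          (t.fspl Φ₀ F j') n' := by
        have h : (b.row hok h2 h3 hg (F.rF j)).slift (false, t.id) (false, t.id)
          (t.fspl Φ₀ F j) n = (b.row hok h2 h3 hg (F.rF j')).slift (false, t.id) (false, t.id)
          (t.fspl Φ₀ F j') n' := hll
        rw [h, hrr']
      have h := (hfit j).apart_same hfit' rfl n n'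
        (fspl_edges hd hF.grp j j' n n' hne hrr') hll'
      rw [Row.smove_eq_gmove, Row.smove_eq_gmove] at h
      show ((b.row hok h2 h3 hg (F.rF j)).gmove σ (κ (F.rF j))
        ((b.row hok h2 h3 hg (F.rF j)).sgm (false, t.id) (false, t.id) (t.fspl Φ₀ F j) n)).Apart
        ((b.row hok h2 h3 hg (F.rF j)).gmove σ (κ (F.rF j))
        ((b.row hok h2 h3 hg (F.rF j')).sgm (false, t.id) (false, t.id) (t.fspl Φ₀ F j') n'))
      rw [← hrr']
      exact h)
    (t.fplace F)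
    (by
      intro j
      have h := (hfit j).Γ
      show (((b.row hok h2 h3 hg (F.rF j)).gmove σ (κ (F.rF j))
          ((b.row hok h2 h3 hg (F.rF j)).sgm (false, t.id) (false, t.id) (t.fspl Φ₀ F j)
            0)).map (Row.mvp (Φ (F.rF j)) 1)).Δ +
        (((b.row hok h2 h3 hg (F.rF j)).gmove σ (κ (F.rF j))
          ((b.row hok h2 h3 hg (F.rF j)).sgm (false, t.id) (false, t.id) (t.fspl Φ₀ F j)
            1)).map (Row.mvp (Φ (F.rF j)) 1)).Δ +
        (((b.row hok h2 h3 hg (F.rF j)).gmove σ (κ (F.rF j))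
          ((b.row hok h2 h3 hg (F.rF j)).sgm (false, t.id) (false, t.id) (t.fspl Φ₀ F j)
            2)).map (Row.mvp (Φ (F.rF j)) 1)).Δ = _
      rw [← Row.smove_eq_gmove, ← Row.smove_eq_gmove, ← Row.smove_eq_gmove, Move.Δ_map,
        Move.Δ_map, Move.Δ_map, ← push_add, ← push_add, h, ← Place.Γ_map,
        fspl_place hok h2 h3 hg Φ₀ (Φ (F.rF j)) F j (fun v => rfl) (i2 _ j rfl).1
          (i2 _ j rfl).2])
    (fun j => rfl) (fun j => rfl) (fun j => fOk_in hF.toFOk0 j)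
    (fun j h => oF_ne_iF (t := t) hok (F.rF j)
      (Option.some_injective _ (Prod.ext_iff.1 (Sum.inl_injective h)).1))
    (fun j h => Sum.inl_ne_inr h)
  exact ⟨Φ, κ, k1, π, s, hΦs, hs, hs1, hs2, hs3⟩

end C1

end RD

end SqIns
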