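import Pool.Agent.Lib.SqIns.FSpl

/-!
# The step for class 1 bases, free permutations at the window `D`

All labels are used at the window `D`, so the fibrewise permutations of its columns are arbitrary.
They are chosen such that the labels of the splices fit.
-/

open Finset Equiv

namespace SqIns

theorem charP_card {R : Type*} [CommRing R] [Fintype R]
    (hg : ∀ y : R, ∃ j : ℕ, j • (1 : R) = y) : CharP R (Fintype.card R) := by
  have h1 : addOrderOf (1 : R) = Fintype.card R := by
    rw [← Nat.card_zmultiples]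
    have h2 : AddSubgroup.zmultiples (1 : R) = ⊤ := by
      rw [AddSubgroup.eq_top_iff']
      intro y
      obtain ⟨j, hj⟩ := hg y
      exact AddSubgroup.mem_zmultiples_iff.2 ⟨j, by rw [← hj, natCast_zsmul]⟩
    rw [h2, AddSubgroup.card_top, Nat.card_eq_fintype_card]
  rw [← h1]
  exact CharP.addOrderOf_one R

theorem odd_card {R : Type*} [CommRing R] [Fintype R] [Nontrivial R]
    (hg : ∀ y : R, ∃ j : ℕ, j • (1 : R) = y) (h2 : IsUnit (2 : R)) :
    Fintype.card R % 2 = 1 := by
  by_contra hc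
  have := charP_card hg
  have h0 : ((Fintype.card R : ℕ) : R) = 0 := CharP.cast_eq_zero R _
  have h1 : Fintype.card R = 2 * (Fintype.card R / 2) := by omega
  rw [h1] at h0
  push_cast at h0
  have h3 : ((Fintype.card R / 2 : ℕ) : R) = 0 := h2.mul_left_cancel (by rw [h0, mul_zero])
  have h4 := (CharP.cast_eq_zero_iff R (Fintype.card R) _).1 h3
  have h5 := Fintype.one_lt_card (α := R)
  have h6 := Nat.le_of_dvd (by omega) h4
  omega

/-- distinct elements `± a j` -/
theorem exists_pm {R : Type*} [CommRing R] [Fintype R] (hg : ∀ y : R, ∃ j : ℕ, j • (1 : R) = y)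
    {J : Type*} [Fintype J] (hJ : 2 * Fintype.card J < Fintype.card R) :
    ∃ a : J → R, Function.Injective a ∧ (∀ j, a j ≠ 0) ∧ ∀ j j', a j ≠ - a j' := by
  classical
  have hcp := charP_card hg
  have hinj : ∀ m n : ℕ, m < Fintype.card R → n < Fintype.card R → (m : R) = n → m = n :=
    fun m n hm hn h => CharP.natCast_injOn_Iio R (Fintype.card R) hm hn h
  let e := Fintype.equivFin J
  have hc : ((Fintype.card R : ℕ) : R) = 0 := CharP.cast_eq_zero R _
  refine ⟨fun j => (((e j).val + 1 : ℕ) : R), ?_, ?_, ?_⟩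
  · intro j j' h
    have h1 := (e j).isLt
    have h2 := (e j').isLt
    have h3 := hinj _ _ (by omega) (by omega) h
    exact e.injective (Fin.ext (by omega))
  · intro j h
    have h1 := (e j).isLt
    have h0 : (((e j).val + 1 : ℕ) : R) = ((0 : ℕ) : R) := by
      rw [Nat.cast_zero]
      exact h
    have h3 := hinj _ _ (by omega) (by omega) h0
    omega
  · intro j j' h
    have h1 := (e j).isLt
    have h2 := (e j').isLt
    have h0 : (((e j).val + 1 : ℕ) : R) =
        ((Fintype.card R - ((e j').val + 1) : ℕ) : R) := by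
      rw [Nat.cast_sub (by omega), hc, zero_sub]
      exact h
    have h3 := hinj _ _ (by omega) (by omega) h0
    omega

namespace RD

variable {b : RD} {R : Type*} [CommRing R] [Fintype R] [DecidableEq R] {W : Type*} [Fintype W]
  [DecidableEq W]

namespace C1

variable (hok : b.Ok) (h2 : IsUnit (2 : R)) (h3 : IsUnit (3 : R))
  (hg : ∀ y : R, ∃ j : ℕ, j • (1 : R) = y)

/-- the labels -/
theorem lbD_lin (t : C1 b) (r : ZMod b.k) (y z : R) :
    ((b.row hok h2 h3 hg r).col (some (t.iF r)) - (b.row hok h2 h3 hg r).col (some (t.oF r))) *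
      t.lbD hok h2 h3 hg r y z =
    ((b.row hok h2 h3 hg r).col (some (t.iF r)) - (b.cs (false, t.id) : R)) * y -
      ((b.row hok h2 h3 hg r).col (some (t.oF r)) - (b.cs (false, t.id) : R)) * z := by
  have ho : some (t.oF r) = (b.row hok h2 h3 hg r).gout (!t.f) (false, t.id) :=
    (row_gout hok h2 h3 hg r (!t.f) (false, t.id)).symm
  have hi : some (t.iF r) = (b.row hok h2 h3 hg r).ginn (!t.f) (false, t.id) :=
    (row_ginn hok h2 h3 hg r (!t.f) (false, t.id)).symm
  rw [ho, hi]
  unfold lbD Row.gout Row.ginn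
  cases hf : t.f
  · simp only [Bool.not_false, if_true]
    have h := (b.row hok h2 h3 hg r).lf_mul (false, t.id) y z
    unfold Row.lb
    have hcs : (b.row hok h2 h3 hg r).cs (false, t.id) = (b.cs (false, t.id) : R) := rfl
    rw [hcs]
    linear_combination (-((b.row hok h2 h3 hg r).col ((b.row hok h2 h3 hg r).s⁻¹
      ((b.row hok h2 h3 hg r).B (false, t.id))) - (b.cs (false, t.id) : R))) * h
  · simp only [Bool.not_true, Bool.false_eq_true, if_false]
    have h := (b.row hok h2 h3 hg r).lf'_mul (false, t.id) y z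
    unfold Row.lb'
    have hcs : (b.row hok h2 h3 hg r).cs (false, t.id) = (b.cs (false, t.id) : R) := rfl
    rw [hcs]
    linear_combination (-((b.row hok h2 h3 hg r).col ((b.row hok h2 h3 hg r).s
      ((b.row hok h2 h3 hg r).s ((b.row hok h2 h3 hg r).B (false, t.id)))) -
        (b.cs (false, t.id) : R))) * h

theorem unit_io (t : C1 b) (r : ZMod b.k) :
    IsUnit ((b.row hok h2 h3 hg r).col (some (t.iF r)) -
      (b.row hok h2 h3 hg r).col (some (t.oF r))) := by
  have ho : some (t.oF r) = (b.row hok h2 h3 hg r).gout (!t.f) (false, t.id) :=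
    (row_gout hok h2 h3 hg r (!t.f) (false, t.id)).symm
  have hi : some (t.iF r) = (b.row hok h2 h3 hg r).ginn (!t.f) (false, t.id) :=
    (row_ginn hok h2 h3 hg r (!t.f) (false, t.id)).symm
  rw [ho, hi]
  unfold Row.gout Row.ginn
  cases hf : t.f
  · simp only [Bool.not_false, if_true]
    have := (b.row hok h2 h3 hg r).unit2 ((b.row hok h2 h3 hg r).s⁻¹
      ((b.row hok h2 h3 hg r).B (false, t.id)))
    have h0 : (b.row hok h2 h3 hg r).s ((b.row hok h2 h3 hg r).s⁻¹
      ((b.row hok h2 h3 hg r).B (false, t.id))) = (b.row hok h2 h3 hg r).B (false, t.id) := by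
      simp
    rwa [h0] at this
  · simp only [Bool.not_true, Bool.false_eq_true, if_false]
    have := ((b.row hok h2 h3 hg r).unit2 ((b.row hok h2 h3 hg r).B (false, t.id))).neg
    rwa [neg_sub] at this

theorem unit_i (t : C1 b) (r : ZMod b.k) :
    IsUnit ((b.row hok h2 h3 hg r).col (some (t.iF r)) - (b.cs (false, t.id) : R)) := by
  have hi : some (t.iF r) = (b.row hok h2 h3 hg r).ginn (!t.f) (false, t.id) :=
    (row_ginn hok h2 h3 hg r (!t.f) (false, t.id)).symm
  rw [hi]
  unfold Row.ginn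
  cases hf : t.f
  · simp only [Bool.not_false, if_true]
    exact (b.row hok h2 h3 hg r).uc (false, t.id)
  · simp only [Bool.not_true, Bool.false_eq_true, if_false]
    exact (b.row hok h2 h3 hg r).ub (false, t.id)

theorem unit_o (t : C1 b) (r : ZMod b.k) :
    IsUnit ((b.row hok h2 h3 hg r).col (some (t.oF r)) - (b.cs (false, t.id) : R)) := by
  have hi : some (t.oF r) = (b.row hok h2 h3 hg r).gout (!t.f) (false, t.id) :=
    (row_gout hok h2 h3 hg r (!t.f) (false, t.id)).symm
  rw [hi]
  unfold Row.gout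
  cases hf : t.f
  · simp only [Bool.not_false, if_true]
    exact (b.row hok h2 h3 hg r).ua (false, t.id)
  · simp only [Bool.not_true, Bool.false_eq_true, if_false]
    exact (b.row hok h2 h3 hg r).ud (false, t.id)

/-- the permutations of the columns of `D` in the row `r` -/
theorem exists_D (t : C1 b) {TF : Type*} [Fintype TF] {F : FS b R W TF} (hd : FDis F)
    (hgrp : ∀ j j', F.rF j = F.rF j' → F.Pq j = F.Pq j' ∧ F.yq j = F.yq j') (r : ZMod b.k)
    (hcard : 2 * Fintype.card {j // F.rF j = r} < Fintype.card R) :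
    ∃ eo ei : Perm R, ∀ j, F.rF j = r →
      t.lbD hok h2 h3 hg r (eo⁻¹ (F.Pp j)) (ei⁻¹ (F.Pu j)) =
        t.lbD hok h2 h3 hg r (eo⁻¹ (F.Pq j)) (ei⁻¹ (F.Pv j)) := by
  classical
  obtain ⟨a, ha, ha0, han⟩ := exists_pm hg (J := {j // F.rF j = r}) hcard
  obtain ⟨ui, hui⟩ := unit_i hok h2 h3 hg t r
  obtain ⟨uo, huo⟩ := unit_o hok h2 h3 hg t r
  -- the factor
  let w : R := ((ui⁻¹ : Rˣ) : R) * uo * 2
  have hw : IsUnit w := ((Units.isUnit _).mul uo.isUnit).mul h2
  have hwi : ∀ {x y : R}, w * x = w * y → x = y := fun h => hw.mul_left_cancel h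
  have hmain : (ui : R) * w = uo * 2 := by
    show (ui : R) * (((ui⁻¹ : Rˣ) : R) * uo * 2) = _
    rw [← mul_assoc, ← mul_assoc, Units.mul_inv, one_mul]
  obtain ⟨eo, heo⟩ := exists_perm_of_partial (α := R) (β := R) rfl
    (γ := {j // F.rF j = r} ⊕ {j // F.rF j = r})
    (Sum.elim (fun _ => 0) fun j => w * a j) (Sum.elim (fun j => F.Pq j.val) fun j => F.Pp j.val)
    (by
      have hq : ∀ j j' : {j // F.rF j = r}, F.Pq j.val = F.Pq j'.val := fun j j' =>
        (hgrp _ _ (j.2.trans j'.2.symm)).1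
      rintro (j | j) (j' | j')
      · exact ⟨fun _ => hq j j', fun _ => rfl⟩
      · constructor
        · intro h
          have h' : w * 0 = w * a j' := by rw [mul_zero]; exact h
          exact absurd (hwi h').symm (ha0 j')
        · intro h
          have h' : F.Pq j.val = F.Pp j'.val := h
          rw [hq j j'] at h'
          exact absurd h'.symm (hd.pq _)
      · constructor
        · intro h
          have h' : w * a j = w * 0 := by rw [mul_zero]; exact h
          exact absurd (hwi h') (ha0 j)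
        · intro h
          have h' : F.Pp j.val = F.Pq j'.val := h
          rw [← hq j j'] at h'
          exact absurd h' (hd.pq _)
      · constructor
        · intro h
          have h' : w * a j = w * a j' := h
          rw [ha (hwi h')]
        · intro h
          have h' : F.Pp j.val = F.Pp j'.val := h
          by_cases h0 : j = j'
          · rw [h0]
          · exact absurd h' (hd.pp _ _ (fun h1 => h0 (Subtype.ext h1)) (j.2.trans j'.2.symm)))
  obtain ⟨ei, hei⟩ := exists_perm_of_partial (α := R) (β := R) rfl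
    (γ := {j // F.rF j = r} ⊕ {j // F.rF j = r})
    (Sum.elim a fun j => - a j) (Sum.elim (fun j => F.Pu j.val) fun j => F.Pv j.val)
    (by
      rintro (j | j) (j' | j')
      · constructor
        · intro h
          rw [ha h]
        · intro h
          have h' : F.Pu j.val = F.Pu j'.val := h
          by_cases h0 : j = j'
          · rw [h0]
          · exact absurd h' (hd.uu _ _ (fun h1 => h0 (Subtype.ext h1)) (j.2.trans j'.2.symm))
      · constructor
        · intro h
          exact absurd h (han j j')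
        · intro h
          have h' : F.Pu j.val = F.Pv j'.val := h
          by_cases h0 : j = j'
          · rw [h0] at h'
            exact absurd h' (hd.uv _)
          · exact absurd h' (hd.uv' _ _ (fun h1 => h0 (Subtype.ext h1)) (j.2.trans j'.2.symm))
      · constructor
        · intro h
          exact absurd h.symm (han j' j)
        · intro h
          have h' : F.Pv j.val = F.Pu j'.val := h
          by_cases h0 : j = j'
          · rw [h0] at h'
            exact absurd h'.symm (hd.uv _)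
          · exact absurd h'.symm (hd.uv' _ _ (fun h1 => h0 (Subtype.ext h1.symm))
              (j'.2.trans j.2.symm))
      · constructor
        · intro h
          have h' : - a j = - a j' := h
          rw [ha (neg_injective h')]
        · intro h
          have h' : F.Pv j.val = F.Pv j'.val := h
          by_cases h0 : j = j'
          · rw [h0]
          · exact absurd h' (hd.vv _ _ (fun h1 => h0 (Subtype.ext h1)) (j.2.trans j'.2.symm)))
  refine ⟨eo, ei, fun j hj => ?_⟩
  have e1 : eo⁻¹ (F.Pq j) = 0 := by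
    rw [Perm.inv_eq_iff_eq]
    exact (heo (.inl ⟨j, hj⟩)).symm
  have e2 : eo⁻¹ (F.Pp j) = w * a ⟨j, hj⟩ := by
    rw [Perm.inv_eq_iff_eq]
    exact (heo (.inr ⟨j, hj⟩)).symm
  have e3 : ei⁻¹ (F.Pu j) = a ⟨j, hj⟩ := by
    rw [Perm.inv_eq_iff_eq]
    exact (hei (.inl ⟨j, hj⟩)).symm
  have e4 : ei⁻¹ (F.Pv j) = - a ⟨j, hj⟩ := by
    rw [Perm.inv_eq_iff_eq]
    exact (hei (.inr ⟨j, hj⟩)).symm
  rw [e1, e2, e3, e4]
  refine (unit_io hok h2 h3 hg t r).mul_left_cancel ?_
  rw [lbD_lin, lbD_lin, ← hui, ← huo]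
  linear_combination (a ⟨j, hj⟩) * hmain

omit [DecidableEq R] [Fintype W] [DecidableEq W] in
include h2 hg in
/-- the number of splices of a row is bounded -/
theorem two_card_lt [Nontrivial R] {TF : Type*} [Fintype TF] {F : FS b R W TF} (hd : FDis F)
    (r : ZMod b.k) [Fintype {j // F.rF j = r}] :
    2 * Fintype.card {j // F.rF j = r} < Fintype.card R := by
  classical
  have h1 : Fintype.card ({j // F.rF j = r} ⊕ {j // F.rF j = r}) ≤ Fintype.card R := by
    refine Fintype.card_le_of_injective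
      (Sum.elim (fun j => F.Pu j.val) fun j => F.Pv j.val) ?_
    rintro (j | j) (j' | j') h
    · by_contra h0
      exact hd.uu _ _ (fun h1 => h0 (by rw [Subtype.ext h1])) (j.2.trans j'.2.symm) h
    · exfalso
      have h' : F.Pu j.val = F.Pv j'.val := h
      by_cases h0 : j.val = j'.val
      · rw [h0] at h'
        exact hd.uv _ h'
      · exact hd.uv' _ _ h0 (j.2.trans j'.2.symm) h'
    · exfalso
      have h' : F.Pv j.val = F.Pu j'.val := h
      by_cases h0 : j.val = j'.val
      · rw [h0] at h'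
        exact hd.uv _ h'.symm
      · exact hd.uv' _ _ (Ne.symm h0) (j'.2.trans j.2.symm) h'.symm
    · by_contra h0
      exact hd.vv _ _ (fun h1 => h0 (by rw [Subtype.ext h1])) (j.2.trans j'.2.symm) h
  rw [Fintype.card_sum] at h1
  have h3 := odd_card hg h2
  omega

/-- the columns of `D` are in no window of `F'` and not in `C` -/
structure Ok4 (t : C1 b) : Prop extends t.Ok3 where
  sepG : ∀ i m n : Fin 4, b.st (false, t.id) + m.val ≠ b.st (true, i) + n.val
  sepC : ∀ m n : Fin 4, b.st (false, t.id) + m.val ≠ b.st (false, t.iC) + n.val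

variable {t : C1 b}

omit [Fintype R] [DecidableEq R] [Fintype W] [DecidableEq W] [CommRing R] in
theorem win_ne_of (hok : b.Ok) (r : ZMod b.k) {i j : WSys} {m n : Fin 4}
    (h : b.st i + m.val ≠ b.st j + n.val) : b.win r i m ≠ b.win r j n := by
  intro h0
  have h1 : (some (b.win r i m) : Option b.V) = some (b.win r j n) := congrArg some h0
  rw [← pn_win hok, ← pn_win hok] at h1
  have g1 := hok.st_lt i
  have g2 := hok.st_lt j
  have g3 := m.isLt
  have g4 := n.isLt
  exact h (b.pn_inj r (by omega) (by omega) h1)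

/-- **The step for class 1 bases, all choices at `D` made.** -/
theorem step3 [Nontrivial R] (hr : b.ROk) (ht : t.Ok4)
    (hc : 5 < Fintype.card ((Option b.V × R) ⊕ W))
    {TF : Type*} [Fintype TF] [DecidableEq TF] (A2 : Finset R)
    (σ : W → WSys) (K : ZMod b.k → Fin 4 → Finset R) (hKD : ∀ r, K r t.id = univ)
    (hKC : ∀ r, K r t.iC = univ)
    (hcF : ∀ r i, #(univ.filter fun w => σ w = (false, i)) = #(K r i))
    (hcG : ∀ i, #(univ.filter fun w => σ w = (true, i)) = #A2)
    (Φ₀ : ZMod b.k → b.V → Perm R) (μ : ℕ → R) (hμ : ∀ c < 4, IsUnit (μ c))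
    (δ : ZMod b.k → Fin 4 → Fin 4 → R) (hD : DOk t δ)
    (hnat : ∀ i n : Fin 4, (b.c (b.st (true, i) + n.val) : R) - (b.cs (true, i) : R) =
      μ (b.Jf (true, i) n % 4))
    (hΦ : ∀ (r : ZMod b.k) (i n : Fin 4) (y : R), Φ₀ r (b.win r (true, i) n) y =
      y + μ (b.Jf (true, i) n % 4) * δ r i n)
    (hΦC : ∀ r n y, Φ₀ r (b.win r (false, t.iC) n) y = y)
    (lt : Fin 4 → R → W) (hσl : ∀ n, ∀ s ∈ A2, σ (lt n s) = t.sy n)
    (hil : ∀ n, ∀ s ∈ A2, ∀ s' ∈ A2, lt n s = lt n s' → s = s')
    (OF : TF → Perm (b.V × R)) (hOFc : ∀ j, Closed (OF j)) (freeF : Sym2 (b.V × R) → ℤ)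
    (hOF : ∑ j, E (OF j) = vertAll b.V R + freeF)
    (hfreeF : ∀ Φ : ZMod b.k → Option b.V → Perm R,
      (∀ r v, (∀ n, v ≠ b.win r (false, t.id) n) → Φ r (some v) = Φ₀ r v) →
      push (emV b.V R) freeF = ∑ r, push (fib (Φ r)) (∑ i : Fin 4, ∑ s ∈ K r i,
        ((b.row hok h2 h3 hg r).mac (false, i) s + (b.row hok h2 h3 hg r).mbd (false, i) s)))
    (S : TF ⊕ {s // s ∈ A2} → Perm (R ⊕ W)) (hSc : ∀ j, Closed (S j))
    (hS : ∑ j, E (S j) = allPairs (R ⊕ W)) (yv : R → R)
    (hyv : ∀ s ∈ A2, ∀ s' ∈ A2, yv s = yv s' → s = s')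
    (hword : ∀ s : {s // s ∈ A2}, S (.inr s) (.inr (lt 0 s)) = .inr (lt 1 s) ∧
      S (.inr s) (.inr (lt 1 s)) = .inr (lt 2 s) ∧ S (.inr s) (.inr (lt 2 s)) = .inl (yv s))
    (F : FS b R W TF) (hF : t.FOk0 F σ OF (fun j => S (.inl j))) :
    ∃ (Φ : ZMod b.k → Option b.V → Perm R) (κ : ZMod b.k → W → R)
      (hσ : ∀ r, Function.Injective fun w => (σ w, κ r w)) (π : R → Perm W)
      (s : (ZMod b.k × R) ⊕ (TF ⊕ {s // s ∈ A2}) → Perm ((Option b.V × R) ⊕ W)), Dec s ∧
      (∀ r l x y x' y', Quiet1 t r x → Quiet1 t r x' →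
        (b.row hok h2 h3 hg r).fullπ (hσ r) (Φ r) (π l) l (.inl (x, y)) = .inl (x', y') →
        s (.inl (r, l)) (.inl (x, y)) = .inl (x', y')) ∧
      (∀ j x, x ≠ (t.fplace F j).q → x ≠ (t.fplace F j).x₀ →
        s (.inr (.inl j)) x = two (OF j) (S (.inl j)) x) ∧
      (∀ (j : {s // s ∈ A2}) x, x ≠ (t.place μ (lt 0) (lt 1) (lt 2) yv j.val).q →
        x ≠ (t.place μ (lt 0) (lt 1) (lt 2) yv j.val).x₀ →
        s (.inr (.inr j)) x = two (stO hr true μ hμ t.w j.val) (S (.inr j)) x) := by
  classical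
  -- no edge is used twice
  have hlabels : ∀ (κ : ZMod b.k → W → R), (∀ r w, κ r w ∈ Kf A2 (K r) (σ w)) →
      (∀ r i, ∀ k ∈ Kf A2 (K r) i, ∃ w, σ w = i ∧ κ r w = k) →
      ∀ r i s, s ∈ A2 ↔ ∃ w, σ w = (true, i) ∧ κ r w = s := by
    intro κ h1 h2 r i s
    constructor
    · intro hs
      exact h2 r (true, i) s hs
    · rintro ⟨w, hw, rfl⟩
      have h3 := h1 r w
      rw [hw] at h3
      exact h3
  have hκ0 : ∀ r, ∃ κ : W → R, (Function.Injective fun w => (σ w, κ w)) ∧
      (∀ w, κ w ∈ Kf A2 (K r) (σ w)) ∧ (∀ i, ∀ k ∈ Kf A2 (K r) i, ∃ w, σ w = i ∧ κ w = k) := by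
    intro r
    obtain ⟨κ, k1, k2, k3, -⟩ := exists_labels σ (Kf A2 (K r)) (by
      rintro ⟨a, i⟩
      cases a
      · exact hcF r i
      · exact hcG i) (γ := Empty) (fun z => z.elim) (fun z => z.elim) (fun z => z.elim)
      (fun z => z.elim) (fun z => z.elim)
    exact ⟨κ, k1, k2, k3⟩
  choose κ0 a1 a2 a3 using hκ0
  let Φ1 : ZMod b.k → Option b.V → Perm R := fun r x => x.elim 1 (Φ₀ r)
  have hfree1 : push (emV b.V R) freeF = ∑ r, push (fib (Φ1 r))
      (∑ w ∈ univ.filter (fun w => (σ w).1 = false),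
        ((b.row hok h2 h3 hg r).mac (σ w) (κ0 r w) +
          (b.row hok h2 h3 hg r).mbd (σ w) (κ0 r w))) := by
    rw [hfreeF Φ1 fun _ _ _ => rfl]
    refine sum_congr rfl fun r _ => ?_
    congr 1
    rw [sum_false σ (κ0 r) (a1 r) (K r) (fun w hw => by
        have h := a2 r w
        unfold Kf at h
        rw [hw] at h
        exact h) (fun i k hk => a3 r (false, i) k hk)
      (fun i s => (b.row hok h2 h3 hg r).mac i s + (b.row hok h2 h3 hg r).mbd i s)]
  have htot := tot hok h2 h3 hg hr A2 σ κ0 a1 Φ1 μ hμ δ hD hnat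
    (fun r i n y => hΦ r i n y) (hlabels κ0 a2 a3) OF freeF hOF hfree1 S hS
  have hnc : ∀ j j' : TF, j ≠ j' → ∀ a c, a ≠ c → Adj (two (OF j) (S (.inl j))) a c →
      Adj (two (OF j') (S (.inl j'))) a c → False := by
    intro j j' hj a c hac g1 g2
    refine no_common (fun z => two ((Sum.elim OF fun s => stO hr true μ hμ t.w s.val :
        TF ⊕ {s // s ∈ A2} → Perm (b.V × R)) z) (S z)) _ (fun e => ?_) htot
      (j := Sum.inl j) (j' := Sum.inl j') (fun h => hj (Sum.inl_injective h)) hac g1 g2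
    rw [Finset.sum_apply]
    exact sum_nonneg fun p _ => E_nonneg _ _
  have hd := fOk_dis hok hF hnc
  have hDD := fun r => exists_D hok h2 h3 hg t hd hF.grp r (two_card_lt h2 hg hd r)
  choose eo ei hpar using hDD
  let Φ₂ : ZMod b.k → b.V → Perm R := fun r v =>
    if v = t.oF r then eo r else if v = t.iF r then ei r else Φ₀ r v
  have hΦ2 : ∀ r v, (∀ n, v ≠ b.win r (false, t.id) n) → Φ₂ r v = Φ₀ r v := by
    intro r v hv
    show (if v = t.oF r then eo r else if v = t.iF r then ei r else Φ₀ r v) = _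
    have h1 : v ≠ t.oF r := hv _
    have h2 : v ≠ t.iF r := hv _
    rw [if_neg h1, if_neg h2]
  have hΦo : ∀ r, Φ₂ r (t.oF r) = eo r := fun r => if_pos rfl
  have hΦi : ∀ r, Φ₂ r (t.iF r) = ei r := fun r => by
    show (if t.iF r = t.oF r then eo r else if t.iF r = t.iF r then ei r else _) = _
    rw [if_neg (oF_ne_iF hok r).symm, if_pos rfl]
  obtain ⟨Φ, κ, hσ, π, s, -, hs, hs1, hs2, hs3⟩ := step2 hok h2 h3 hg hr ht.toOk3 hc A2 σ K hKD
    hKC hcF hcG Φ₂ μ hμ δ hD hnat
    (fun r i n y => by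
      rw [hΦ2 r _ fun m => win_ne_of hok r (Ne.symm (ht.sepG i m n))]
      exact hΦ r i n y)
    (fun r n y => by
      rw [hΦ2 r _ fun m => win_ne_of hok r (Ne.symm (ht.sepC m n))]
      exact hΦC r n y) lt hσl hil OF hOFc freeF hOF
    (fun Φ hΦ' => hfreeF Φ fun r v hv => by rw [hΦ', hΦ2 r v hv]) S hSc hS yv hyv hword F
    ⟨hF, fun j => by
      unfold pO pI
      rw [hΦo, hΦi]
      exact hpar (F.rF j) j rfl⟩
  exact ⟨Φ, κ, hσ, π, s, hs, hs1, hs2, hs3⟩

end C1

end RD

end SqIns
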