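import Pool.Agent.Lib.SqIns.FreeF

/-!
# The squares of the dense family over a base

The strip of a table, transported to the columns of a base in the ring order of the family
`false`, followed by the column bijections `θ` (strip label to real level).
-/

open Finset Equiv

namespace SqIns

namespace Tw

theorem chkT_nodup {m p : ℕ} {ε : ℤ} {W : TWord} {C2 : List (List ℕ)}
    (h : chkT m p ε W C2 = true) {t : ℕ} (ht : t < p) : (C2.getD t []).Nodup := by
  simp only [chkT, Bool.and_eq_true] at h
  have h1 := h.2.1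
  unfold samePerm at h1
  split at h1
  · rename_i M M' e1 e2
    have h2 := (maskFrom_spec _ _ _ e2).1
    unfold tgtT at h2
    have h3 := (List.nodup_append.1 (List.nodup_append.1 h2).2.1).2.1
    have h4 := (List.nodup_flatMap.1 h3).1 t (List.mem_range.2 ht)
    exact List.Nodup.of_map _ h4
  · exact absurd h1 (by simp)

theorem chkT_lt {m p : ℕ} {ε : ℤ} {W : TWord} {C2 : List (List ℕ)}
    (h : chkT m p ε W C2 = true) {t : ℕ} (ht : t < p) {k : ℕ} (hk : k ∈ C2.getD t []) : k < m := by
  simp only [chkT, Bool.and_eq_true, List.all_eq_true, decide_eq_true_eq, List.mem_range] at h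
  exact h.2.2 t ht k hk

theorem chkT_ok {m p : ℕ} {ε : ℤ} {W : TWord} {C2 : List (List ℕ)}
    (h : chkT m p ε W C2 = true) : okT m p W = true := by
  simp only [chkT, Bool.and_eq_true] at h
  exact h.1

end Tw

open Tw

namespace RD

variable {b : RD}

section Strip

variable {m p B : ℕ} [NeZero m] [NeZero p] [NeZero B] {ε : ℤ}

/-- the classes of the strip at distance two -/
def clF (b : RD) (m p : ℕ) (ε : ℤ) (C2 : List (List ℕ)) (j : ZMod (4 * b.k)) : Finset (ZMod m) :=
  (C2.getD (j.val % p) []).toFinset.image fun k : ℕ => sg m ε j * (k : ZMod m)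

/-- from strip coordinates to the columns -/
noncomputable def cE (h : b.ROk) (m : ℕ) {p B : ℕ} (hpB : p * B = 4 * b.k) :
    ZMod (p * B) × ZMod m ≃ b.V × ZMod m :=
  ((ZMod.ringEquivCongr hpB).toEquiv.trans (re h false)).prodCongr (Equiv.refl _)

/-- the squares of the dense family -/
noncomputable def OF (h : b.ROk) (hpB : p * B = 4 * b.k) (θ : b.V → Perm (ZMod m))
    (hε : ε * ε = 1) {W : TWord} (hok : okT m p W = true) (x : ZMod m) : Perm (b.V × ZMod m) :=
  ((cE h m hpB).trans (fib θ)).permCongr (tsq hε hok x)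

theorem closed_OF (h : b.ROk) (hpB : p * B = 4 * b.k) (θ : b.V → Perm (ZMod m))
    (hε : ε * ε = 1) {W : TWord} (hok : okT m p W = true) (x : ZMod m) :
    Closed (OF h hpB θ hε hok x) := Closed.permCongr' (closed_tsq hε hok x) _

/-- the ring index of the letter `n` after the block `c` -/
def ri (b : RD) (m p : ℕ) (W : TWord) (n c : ℕ) : ZMod (4 * b.k) :=
  ((colN (p * m) p W n : ℤ) : ZMod (4 * b.k)) + ((p * c : ℕ) : ZMod (4 * b.k))

/-- the point of the letter `n` after the block `c` in the square `x` -/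
def LT (b : RD) (m p : ℕ) (ε : ℤ) (θ : b.V → Perm (ZMod m)) (W : TWord) (x : ZMod m) (n c : ℕ) :
    b.V × ZMod m :=
  (b.rgF false (b.ri m p W n c), θ (b.rgF false (b.ri m p W n c))
    (sg m ε (b.ri m p W n c) * (labN (p * m) W n : ZMod m) + x))

theorem cE_QT (h : b.ROk) (hpB : p * B = 4 * b.k) (θ : b.V → Perm (ZMod m))
    (hε : ε * ε = 1) (W : TWord) (x : ZMod m) (n : ℕ) (c : ZMod B) :
    (cE h m hpB).trans (fib θ) (QT (p := p) hε W x n c) = LT b m p ε θ W x n c.val := by
  have e1 : ZMod.ringEquivCongr hpB (QT (p := p) hε W x n c).1 = b.ri m p W n c.val := by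
    rw [QT_fst]
    unfold ri
    rw [map_add, map_intCast, map_natCast]
  have e2 : sg m ε (QT (p := p) hε W x n c).1 = sg m ε (b.ri m p W n c.val) := by
    unfold sg
    rw [← e1, ZMod.ringEquivCongr_val]
  show (b.rgF false (ZMod.ringEquivCongr hpB (QT (p := p) hε W x n c).1),
    θ (b.rgF false (ZMod.ringEquivCongr hpB (QT (p := p) hε W x n c).1))
      (QT (p := p) hε W x n c).2) = _
  rw [QT_snd, e2, e1]
  rfl

/-- the letters of the square `x` in order -/
theorem OF_LT (h : b.ROk) (hpB : p * B = 4 * b.k) (θ : b.V → Perm (ZMod m))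
    (hε : ε * ε = 1) {W : TWord} (hok : okT m p W = true) (x : ZMod m) (n c : ℕ) (hc : c < B) :
    OF h hpB θ hε hok x (LT b m p ε θ W x n c) = LT b m p ε θ W x (n + 1) c := by
  have hv : ((c : ZMod B)).val = c := by rw [ZMod.val_natCast, Nat.mod_eq_of_lt hc]
  have h1 := cE_QT h hpB θ hε W x n (c : ZMod B)
  have h2 := cE_QT h hpB θ hε W x (n + 1) (c : ZMod B)
  rw [hv] at h1 h2
  rw [← h1, ← h2, OF, Equiv.permCongr_apply, Equiv.symm_apply_apply, tsq_QT]

theorem push_clsE_cE (h : b.ROk) (hpB : p * B = 4 * b.k) (c c' : ZMod (p * B)) (δ : ZMod m) :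
    push (cE h m hpB) (Row.clsE c c' δ) =
      Row.clsE (b.rgF false (ZMod.ringEquivCongr hpB c))
        (b.rgF false (ZMod.ringEquivCongr hpB c')) δ := by
  unfold Row.clsE
  rw [push_sum]
  refine sum_congr rfl fun y _ => ?_
  rw [push_pr (cE h m hpB).injective]
  rfl

theorem push_vertAll_prod {X X' R : Type*} [DecidableEq X] [DecidableEq X'] [DecidableEq R]
    [Fintype X] [Fintype R] (e : X ≃ X') :
    push (e.prodCongr (Equiv.refl R)) (vertAll X R) = vertAll X' R := by
  funext a
  obtain ⟨a', rfl⟩ : ∃ a', Sym2.map (e.prodCongr (Equiv.refl R)) a' = a :=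
    ⟨Sym2.map (e.prodCongr (Equiv.refl R)).symm a, by
      have h1 : (e.prodCongr (Equiv.refl R)) ∘ (e.prodCongr (Equiv.refl R)).symm = id := by
        funext u
        exact Equiv.apply_symm_apply _ u
      rw [Sym2.map_map, h1, Sym2.map_id]
      rfl⟩
  rw [push_apply (Equiv.injective _)]
  induction a' with
  | _ u v =>
    obtain ⟨x, y⟩ := u
    obtain ⟨x', y'⟩ := v
    simp [vertAll]

/-- **The edges of the squares of the dense family.** -/
theorem sum_E_OF (h : b.ROk) (hpB : p * B = 4 * b.k) (θ : b.V → Perm (ZMod m)) (hm : m % 2 = 1)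
    (hε : ε * ε = 1) (hN : ε ^ (p * B) = 1) {W : TWord} {C2 : List (List ℕ)}
    (hc : chkT m p ε W C2 = true) (hok : okT m p W = true) :
    ∑ x : ZMod m, E (OF h hpB θ hε hok x) =
      vertAll b.V (ZMod m) + push (fib θ) (stripE false (clF b m p ε C2)) := by
  have hp : 0 < p := Nat.pos_of_ne_zero (NeZero.ne p)
  have e0 : ∀ x : ZMod m, E (OF h hpB θ hε hok x) =
      push (fib θ) (push (cE h m hpB) (E (tsq (B := B) hε hok x))) := by
    intro x
    rw [OF, E_permCongr, push_push]
    rfl
  rw [sum_congr rfl fun x _ => e0 x, ← push_sum, ← push_sum, sum_E_dense hm hε hN hc hok,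
    push_add, push_add]
  have e1 : push (cE h m hpB) (vertAll (ZMod (p * B)) (ZMod m)) = vertAll b.V (ZMod m) :=
    push_vertAll_prod _
  rw [e1, push_fib_vertAll]
  congr 2
  rw [push_sum]
  unfold stripE
  rw [← Equiv.sum_comp (ZMod.ringEquivCongr hpB).toEquiv]
  refine sum_congr rfl fun c _ => ?_
  rw [push_add, push_sum]
  congr 1
  · rw [allE_eq_clsE]
    refine sum_congr rfl fun δ _ => ?_
    rw [push_clsE_cE, map_add, map_one]
    rfl
  · have hcv : (ZMod.ringEquivCongr hpB c).val = c.val := ZMod.ringEquivCongr_val hpB c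
    show push (cE h m hpB) _ = ∑ δ ∈ clF b m p ε C2 (ZMod.ringEquivCongr hpB c), _
    unfold clF
    rw [hcv]
    have hnd := chkT_nodup hc (Nat.mod_lt c.val hp)
    have hlt := fun k => chkT_lt hc (Nat.mod_lt c.val hp) (k := k)
    have hu : IsUnit (sg m ε (ZMod.ringEquivCongr hpB c) : ZMod m) := by
      have h1 : (ε : ZMod m) * (ε : ZMod m) = 1 := by
        exact_mod_cast congrArg (Int.cast : ℤ → ZMod m) hε
      exact (IsUnit.of_mul_eq_one _ h1).pow _
    rw [sum_image]
    · rw [← List.sum_toFinset _ hnd, push_sum]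
      refine sum_congr rfl fun k _ => ?_
      unfold Gc
      rw [push_clsE_cE, map_add, map_intCast]
      have hsg : (sg m ε c : ZMod m) = sg m ε (ZMod.ringEquivCongr hpB c) := by
        unfold sg
        rw [hcv]
      rw [hsg]
      norm_num
    · intro k hk k' hk' hkk
      have h3 := hu.mul_left_cancel hkk
      rw [ZMod.natCast_eq_natCast_iff] at h3
      have h4 := hlt k (List.mem_toFinset.1 hk)
      have h5 := hlt k' (List.mem_toFinset.1 hk')
      unfold Nat.ModEq at h3
      rwa [Nat.mod_eq_of_lt h4, Nat.mod_eq_of_lt h5] at h3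

end Strip

end RD

end SqIns
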