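import Pool.Agent.Lib.SqIns.FSide
import Pool.Agent.Lib.SqIns.PWords

/-!
# The words of the dense family

The centre of a word lies over an arbitrary column, the letter before it over the same column, the
two letters after it over the neighbouring columns (ring distance one or two).
-/

open Finset Equiv

namespace SqIns

open Tw Fine

/-- ring distance one or two -/
def near12 (d : ℤ) : Bool := d == 1 || d == -1 || d == 2 || d == -2

/-- the letter of the centre -/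
def cN (n : ℕ × Bool) : ℕ := if n.2 then n.1 + 1 else n.1 + 2

/-- the columns of a word -/
def wcl (m p : ℕ) (W : TWord) (n : ℕ × Bool) : Bool :=
  if n.2 then
    decide (colN (p * m) p W n.1 = colN (p * m) p W (cN n)) &&
    near12 (colN (p * m) p W (n.1 + 2) - colN (p * m) p W (cN n)) &&
    near12 (colN (p * m) p W (n.1 + 3) - colN (p * m) p W (cN n))
  else
    decide (colN (p * m) p W (n.1 + 3) = colN (p * m) p W (cN n)) &&
    near12 (colN (p * m) p W (n.1 + 1) - colN (p * m) p W (cN n)) &&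
    near12 (colN (p * m) p W n.1 - colN (p * m) p W (cN n))

/-- the letter `n` starts a word with the centre in the class `L` -/
def wpl (m p : ℕ) (W : TWord) (L ns : ℕ) (n : ℕ × Bool) : Bool :=
  wcl m p W n && decide ((colN (p * m) p W (cN n) - (L : ℤ)) % (p : ℤ) = 0) &&
  decide (n.1 % (p * m) ≠ ns) && decide ((n.1 + 1) % (p * m) ≠ ns) &&
  decide ((n.1 + 2) % (p * m) ≠ ns)

/-- the label of the centre -/
def zW (m p : ℕ) (ε : ℤ) (W : TWord) (L : ℕ) (n : ℕ × Bool) : ℤ :=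
  ε ^ L * (labN (p * m) W (cN n) : ℤ)

/-- the words `P` with the digit levels `G` serve all squares `x ≠ 0` -/
def chkQ (m p : ℕ) (ε : ℤ) (W : TWord) (L ns : ℕ) (P : List (ℕ × Bool)) (G : List ℕ) : Bool :=
  (P.all fun n => wpl m p W L ns n) &&
  (List.range m).all fun x => x == 0 || P.any fun n => G.any fun D =>
    decide ((zW m p ε W L n + (x : ℤ) - (D : ℤ)) % (m : ℤ) = 0)

/-- the groups `hd` serve the square `0` -/
def chkHq (m p : ℕ) (ε : ℤ) (W : TWord) (d0 : Bool) (L : ℕ) (P : List (ℕ × Bool))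
    (G hd : List ℕ) : Bool :=
  decide hd.Nodup && hd.all fun γ => decide (γ < G.length) && P.any fun n =>
    n.2 == d0 && decide ((zW m p ε W L n - (G.getD γ 0 : ℤ)) % (m : ℤ) = 0)

namespace RD

variable {b : RD} {m p B : ℕ} [NeZero m] [NeZero p] [NeZero B] {ε : ℤ}

/-- the ring neighbours of a column -/
def nbr (b : RD) (i : ZMod (4 * b.k)) (v : b.V) : Prop :=
  v = b.rgF false (i + 1) ∨ v = b.rgF false (i - 1) ∨ v = b.rgF false (i + 2) ∨
    v = b.rgF false (i - 2)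

omit [NeZero m] [NeZero p] [NeZero B] in
theorem nbr_of_near (i : ZMod (4 * b.k)) {d : ℤ} (h : near12 d = true) :
    b.nbr i (b.rgF false (i + (d : ZMod (4 * b.k)))) := by
  unfold near12 at h
  simp only [Bool.or_eq_true, beq_iff_eq] at h
  unfold nbr
  rcases h with ((rfl | rfl) | rfl) | rfl
  · left
    push_cast
    rfl
  · right; left
    push_cast
    rw [← sub_eq_add_neg]
  · right; right; left
    push_cast
    rfl
  · right; right; right
    push_cast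
    rw [← sub_eq_add_neg]

omit [NeZero m] in
theorem exists_block2 (hpB : p * B = 4 * b.k) (hp4 : p ∣ 4) (W : TWord) (n L : ℕ)
    (i : ZMod (4 * b.k)) (hi : b.trk i = L)
    (hcol : (colN (p * m) p W n - (L : ℤ)) % (p : ℤ) = 0) :
    ∃ c < B, b.ri m p W n c = i := by
  obtain ⟨t, ht⟩ := Int.dvd_of_emod_eq_zero hcol
  obtain ⟨p', hp'⟩ := hp4
  have hB : 0 < (B : ℤ) := by
    have := Nat.pos_of_ne_zero (NeZero.ne B)
    exact_mod_cast this
  have hiv : (i.val : ℤ) = (L : ℤ) + (p : ℤ) * ((p' : ℤ) * ((i.val / 4 : ℕ) : ℤ)) := by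
    have h1 := Nat.mod_add_div i.val 4
    have h2 : i.val % 4 = L := hi
    rw [h2] at h1
    have h3 : ((L + 4 * (i.val / 4) : ℕ) : ℤ) = (i.val : ℤ) := by rw [h1]
    rw [← h3]
    have h4 : (4 : ℤ) = (p : ℤ) * (p' : ℤ) := by exact_mod_cast hp'
    push_cast
    linear_combination ((i.val : ℤ) / 4) * h4
  obtain ⟨a, ha⟩ : ∃ a : ℤ, a = ((i.val / 4 : ℕ) : ℤ) := ⟨_, rfl⟩
  rw [← ha] at hiv
  have h0 := Int.emod_nonneg ((p' : ℤ) * a - t) hB.ne'
  have h1 := Int.emod_lt_of_pos ((p' : ℤ) * a - t) hB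
  obtain ⟨c, hc⟩ := Int.eq_ofNat_of_zero_le h0
  refine ⟨c, by omega, ?_⟩
  have h2 := Int.emod_add_mul_ediv ((p' : ℤ) * a - t) (B : ℤ)
  rw [hc] at h2
  have h3 : colN (p * m) p W n + ((p * c : ℕ) : ℤ) = (i.val : ℤ) -
      ((4 * b.k : ℕ) : ℤ) * (((p' : ℤ) * a - t) / (B : ℤ)) := by
    have hk4 : ((4 * b.k : ℕ) : ℤ) = (p : ℤ) * (B : ℤ) := by exact_mod_cast hpB.symm
    rw [hk4, hiv]
    push_cast
    linear_combination ht + (p : ℤ) * h2
  unfold ri
  have h5 := congrArg (Int.cast : ℤ → ZMod (4 * b.k)) h3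
  rw [Int.cast_add, Int.cast_sub, Int.cast_mul, Int.cast_natCast (4 * b.k), ZMod.natCast_self,
    zero_mul, sub_zero, Int.cast_natCast, Int.cast_natCast, ZMod.natCast_zmod_val] at h5
  exact h5

omit [NeZero m] in
/-- the four letters of a word and their columns -/
theorem exists_letters2 (hpB : p * B = 4 * b.k) (hp4 : p ∣ 4) {W : TWord} (L ns : ℕ)
    (n : ℕ × Bool) (hn : wpl m p W L ns n = true) (i : ZMod (4 * b.k)) (hi : b.trk i = L) :
    ∃ c < B, b.ri m p W (cN n) c = i ∧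
      (n.2 = true → b.ri m p W n.1 c = i ∧
        b.nbr i (b.rgF false (b.ri m p W (n.1 + 2) c)) ∧
        b.nbr i (b.rgF false (b.ri m p W (n.1 + 3) c))) ∧
      (n.2 = false → b.ri m p W (n.1 + 3) c = i ∧
        b.nbr i (b.rgF false (b.ri m p W (n.1 + 1) c)) ∧
        b.nbr i (b.rgF false (b.ri m p W n.1 c))) := by
  simp only [wpl, Bool.and_eq_true, decide_eq_true_eq] at hn
  obtain ⟨⟨⟨⟨c1, c2⟩, -⟩, -⟩, -⟩ := hn
  obtain ⟨c, hc, hri⟩ := exists_block2 (m := m) hpB hp4 W (cN n) L i hi c2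
  have key : ∀ n' : ℕ, b.ri m p W n' c =
      i + ((colN (p * m) p W n' - colN (p * m) p W (cN n) : ℤ) : ZMod (4 * b.k)) := by
    intro n'
    rw [ri_add W (cN n) n' c (colN (p * m) p W n' - colN (p * m) p W (cN n)) (by ring), hri]
  refine ⟨c, hc, hri, fun h => ?_, fun h => ?_⟩
  · unfold wcl at c1
    rw [h, if_pos rfl] at c1
    simp only [Bool.and_eq_true, decide_eq_true_eq] at c1
    obtain ⟨⟨a1, a2⟩, a3⟩ := c1
    refine ⟨?_, ?_, ?_⟩
    · rw [key, a1, sub_self, Int.cast_zero, add_zero]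
    · rw [key]
      exact nbr_of_near i a2
    · rw [key]
      exact nbr_of_near i a3
  · unfold wcl at c1
    rw [h, if_neg (by decide)] at c1
    simp only [Bool.and_eq_true, decide_eq_true_eq] at c1
    obtain ⟨⟨a1, a2⟩, a3⟩ := c1
    refine ⟨?_, ?_, ?_⟩
    · rw [key, a1, sub_self, Int.cast_zero, add_zero]
    · rw [key]
      exact nbr_of_near i a2
    · rw [key]
      exact nbr_of_near i a3

variable {S : Type*} [CommRing S]

/-- a word of a sheet -/
theorem OFS_word (h : b.ROk) (hpB : p * B = 4 * b.k) (hp4 : p ∣ 4) (hε : ε * ε = 1) {W : TWord}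
    (hok : okT m p W = true) (F : List ℕ) (z0 : ZMod (p * m) × ZMod B) {J : Type*}
    (FJ : J → Perm ((b.V × ZMod m) × S)) (θ : b.V → Perm (ZMod m × S)) (L ns : ℕ)
    (n : ℕ × Bool) (hns : ns < p * m) (hz : z0.1 = (ns : ZMod (p * m)))
    (hn : wpl m p W L ns n = true) (i : ZMod (4 * b.k)) (hi : b.trk i = L)
    (z : {x : ZMod m // x ≠ 0} × S) (f : S) :
    ∃ w : Fin 4 → b.V × (ZMod m × S), (w 0).1 = b.rgF false i ∧
      w 1 = (b.rgF false i, θ (b.rgF false i) ((zW m p ε W L n : ZMod m) + z.1.val, f)) ∧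
      b.nbr i (w 2).1 ∧ b.nbr i (w 3).1 ∧
      Fwd (ori n.2 (OFS h hpB hε hok F z0 FJ θ (.inl z))) w := by
  obtain ⟨c, hc, hri, hT, hFf⟩ := exists_letters2 (b := b) hpB hp4 L ns n hn i hi
  simp only [wpl, Bool.and_eq_true, decide_eq_true_eq] at hn
  obtain ⟨⟨⟨⟨c1, c2⟩, s0⟩, s1⟩, s2⟩ := hn
  have hseam : ∀ i : ℕ, i % (p * m) ≠ ns →
      ((i : ZMod (p * m)), ((c + i / (p * m) : ℕ) : ZMod B)) ≠ z0 := by
    intro i hi h1
    have h2 := (Prod.ext_iff.1 h1).1
    simp only at h2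
    rw [hz, ZMod.natCast_eq_natCast_iff] at h2
    apply hi
    have h3 : i % (p * m) = ns % (p * m) := h2
    rwa [Nat.mod_eq_of_lt hns] at h3
  have st0 := fun g => OFS_inl h hpB hε hok F z0 FJ θ z n.1 c hc (hseam _ s0) g
  have st1 := fun g => OFS_inl h hpB hε hok F z0 FJ θ z (n.1 + 1) c hc (hseam _ s1) g
  have st2 := fun g => OFS_inl h hpB hε hok F z0 FJ θ z (n.1 + 2) c hc (hseam _ s2) g
  have hsg : (sg m ε i : ZMod m) = (ε : ZMod m) ^ L := by rw [sg_trk hε, hi]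
  have ecN : ∀ g : S, LTS b m p ε θ W z.1.val (cN n) c g = (b.rgF false i, θ (b.rgF false i)
      ((zW m p ε W L n : ZMod m) + z.1.val, g)) := by
    intro g
    unfold LTS
    rw [hri, hsg]
    unfold zW
    push_cast
    rfl
  obtain ⟨n, fw⟩ := n
  cases fw
  · -- backwards
    obtain ⟨r3, n1, n0⟩ := hFf rfl
    have a1 := st1 (f - ((fcN (p * m) F (n + 2) : S) - (fcN (p * m) F (n + 1) : S)) * z.2)
    rw [sub_add_cancel] at a1
    have a2 := st2 f
    have a0 := st0 (f - ((fcN (p * m) F (n + 2) : S) - (fcN (p * m) F (n + 1) : S)) * z.2 -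
      ((fcN (p * m) F (n + 1) : S) - (fcN (p * m) F n : S)) * z.2)
    rw [sub_add_cancel] at a0
    refine ⟨![_, _, _, _], ?_, ecN f, ?_, ?_, ori_false a2, ori_false a1, ori_false a0⟩
    · exact congrArg (b.rgF false) r3
    · exact n1
    · exact n0
  · obtain ⟨r0, n2, n3⟩ := hT rfl
    have a0 := st0 (f - ((fcN (p * m) F (n + 1) : S) - (fcN (p * m) F n : S)) * z.2)
    rw [sub_add_cancel] at a0
    have a1 := st1 f
    have a2 := st2 (f + ((fcN (p * m) F (n + 2) : S) - (fcN (p * m) F (n + 1) : S)) * z.2)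
    refine ⟨![_, _, _, _], ?_, ecN f, ?_, ?_, a0, a1, a2⟩
    · exact congrArg (b.rgF false) r0
    · exact n2
    · exact n3

/-- a word of the square `0` of the digit strip -/
theorem OF1_word (h : b.ROk) (hpB : p * B = 4 * b.k) (hp4 : p ∣ 4) (hε : ε * ε = 1) {W : TWord}
    (hok : okT m p W = true) (L ns : ℕ) (n : ℕ × Bool) (hn : wpl m p W L ns n = true)
    (i : ZMod (4 * b.k)) (hi : b.trk i = L) :
    ∃ (y0 : ZMod m) (v2 v3 : b.V × ZMod m), b.nbr i v2.1 ∧ b.nbr i v3.1 ∧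
      ori n.2 (OF1 h hpB hε hok 0) (b.rgF false i, y0) =
        (b.rgF false i, (zW m p ε W L n : ZMod m)) ∧
      ori n.2 (OF1 h hpB hε hok 0) (b.rgF false i, (zW m p ε W L n : ZMod m)) = v2 ∧
      ori n.2 (OF1 h hpB hε hok 0) v2 = v3 := by
  obtain ⟨c, hc, hri, hT, hFf⟩ := exists_letters2 (b := b) hpB hp4 L ns n hn i hi
  have a0 := OF_LT h hpB (fun _ => 1) hε hok 0 n.1 c hc
  have a1 := OF_LT h hpB (fun _ => 1) hε hok 0 (n.1 + 1) c hc
  have a2 := OF_LT h hpB (fun _ => 1) hε hok 0 (n.1 + 2) c hc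
  have hsg : (sg m ε i : ZMod m) = (ε : ZMod m) ^ L := by rw [sg_trk hε, hi]
  have ecN : LT b m p ε (fun _ => 1) W 0 (cN n) c = (b.rgF false i,
      (zW m p ε W L n : ZMod m)) := by
    unfold LT
    rw [hri, hsg, add_zero]
    unfold zW
    push_cast
    rfl
  obtain ⟨n, fw⟩ := n
  cases fw
  · obtain ⟨r3, n1, n0⟩ := hFf rfl
    have e3 : LT b m p ε (fun _ => 1) W 0 (n + 3) c =
        (b.rgF false i, (LT b m p ε (fun _ => 1) W 0 (n + 3) c).2) :=
      Prod.ext (congrArg (b.rgF false) r3) rfl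
    rw [← ecN]
    refine ⟨(LT b m p ε (fun _ => 1) W 0 (n + 3) c).2, LT b m p ε (fun _ => 1) W 0 (n + 1) c,
      LT b m p ε (fun _ => 1) W 0 n c, n1, n0, ?_, ori_false a1, ori_false a0⟩
    · exact (congrArg _ e3.symm).trans (ori_false a2)
  · obtain ⟨r0, n2, n3⟩ := hT rfl
    have e0 : LT b m p ε (fun _ => 1) W 0 n c =
        (b.rgF false i, (LT b m p ε (fun _ => 1) W 0 n c).2) :=
      Prod.ext (congrArg (b.rgF false) r0) rfl
    rw [← ecN]
    refine ⟨(LT b m p ε (fun _ => 1) W 0 n c).2, LT b m p ε (fun _ => 1) W 0 (n + 2) c,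
      LT b m p ε (fun _ => 1) W 0 (n + 3) c, n2, n3, ?_, a1, a2⟩
    · exact (congrArg _ e0.symm).trans a0

/-! ### All squares with places and words -/

/-- **The squares of the dense family**: number, edges, places over the pair of columns of every
row, words with centres over the column number `i0`. -/
theorem exists_side2 (h : b.ROk) (hk : 3 ≤ b.k) (hpB : p * B = 4 * b.k) (hp4 : p ∣ 4)
    (hm : m % 2 = 1) (hε : ε * ε = 1) (hN : ε ^ (p * B) = 1) {W : TWord} {C2 : List (List ℕ)}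
    (hc : chkT m p ε W C2 = true) {F : List ℕ} (hF : chkF (p * m) F = true) (up d0 : Bool)
    (L ns : ℕ) (P : List (ℕ × Bool)) (G hd : List ℕ) (hch : chkP m p ε W up L ns P G = true)
    (hhd : chkHd m p ε W up d0 L P G hd = true) (L' : ℕ) (P' : List (ℕ × Bool))
    (G' hd' : List ℕ) (hch' : chkQ m p ε W L' ns P' G' = true)
    (hhd' : chkHq m p ε W d0 L' P' G' hd' = true) {nd : ℕ} (hnd1 : hd.length = nd)
    (hnd2 : hd'.length = nd) {Q : ℕ} [NeZero Q] (h2 : IsUnit (2 : ZMod Q))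
    (h3 : IsUnit (3 : ZMod Q)) (hT : TowerOk nd Q) (θ : b.V → Perm (ZMod m × ZMod Q))
    (i0 : ZMod (4 * b.k)) (hi0 : b.trk i0 = L') :
    ∃ (TF : Type) (_ : Fintype TF) (_ : DecidableEq TF)
      (OF : TF → Perm (b.V × (ZMod m × ZMod Q))) (Dg : Fin G.length → ZMod Q)
      (g : TF → Fin G.length) (cen : Finset (b.V × (ZMod m × ZMod Q))),
      4 * Fintype.card TF + 1 = 4 * (m * Q) + Q ∧ (∀ j, Closed (OF j)) ∧
      ∑ j, E (OF j) = vertAll b.V (ZMod m × ZMod Q) +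
        push (fib θ) (stripE false fun j => (clF b m p ε C2 j) ×ˢ (univ : Finset (ZMod Q))) ∧
      (∀ j (r : ZMod b.k), ∃ y0 y2 y3 : ZMod m × ZMod Q,
        OF j (b.oc up L r, y0) =
          (b.oc up L r, θ (b.oc up L r) (((G.get (g j) : ℕ) : ZMod m), Dg (g j))) ∧
        OF j (b.oc up L r, θ (b.oc up L r) (((G.get (g j) : ℕ) : ZMod m), Dg (g j))) =
          (b.icn up L r, y2) ∧
        OF j (b.icn up L r, y2) = (b.icn up L r, y3)) ∧
      cen.card ≤ G'.length ∧ (∀ q ∈ cen, q.1 = b.rgF false i0) ∧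
      ∀ j, ∃ w : Fin 4 → b.V × (ZMod m × ZMod Q), (w 0).1 = b.rgF false i0 ∧ w 1 ∈ cen ∧
        b.nbr i0 (w 2).1 ∧ b.nbr i0 (w 3).1 ∧ (Fwd (OF j) w ∨ Fwd (OF j)⁻¹ w) := by
  classical
  have hmpos : 0 < m := Nat.pos_of_ne_zero (NeZero.ne m)
  have hok := chkT_ok hc
  have hcV : Fintype.card b.V = 4 * b.k := by
    rw [← ZMod.card (4 * b.k)]
    exact (Fintype.card_congr (re h false)).symm
  have hcX : Fintype.card (b.V × ZMod m) = 4 * b.k * m := by
    rw [Fintype.card_prod, ZMod.card, hcV]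
  have h8 : 8 ≤ Fintype.card (b.V × ZMod m) := by
    rw [hcX]
    have : 12 * 1 ≤ 4 * b.k * m := Nat.mul_le_mul (by omega) hmpos
    omega
  obtain ⟨J, iJ, FJ, fy, j1, j2, j3, j4⟩ := hT (b.V × ZMod m) (ori d0 (OF1 h hpB hε hok 0))
    (closed_ori (closed_OF h hpB _ hε hok 0) d0) (by rw [hcX]; exact ⟨b.k * m, by ring⟩) h8
  have hFP := finePl_of_FP j4
  rw [E_ori] at j3
  simp only [chkHd, Bool.and_eq_true, List.all_eq_true, decide_eq_true_eq] at hhd
  obtain ⟨hnd, hhd⟩ := hhd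
  simp only [chkHq, Bool.and_eq_true, List.all_eq_true, decide_eq_true_eq] at hhd'
  obtain ⟨hnd', hhd'⟩ := hhd'
  -- the fine digits of the groups
  let Dh : List ℕ → ℕ → ZMod Q := fun l γ =>
    if hγ : l.idxOf γ < nd then fy ⟨l.idxOf γ, hγ⟩ else 0
  have hDh : ∀ (l : List ℕ) (hl : l.length = nd), l.Nodup → ∀ d : Fin nd,
      Dh l (l.get ⟨d.val, by rw [hl]; exact d.isLt⟩) = fy d := by
    intro l hl hn d
    have e1 : l.idxOf (l.get ⟨d.val, by rw [hl]; exact d.isLt⟩) = d.val := by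
      exact hn.idxOf_getElem _ _
    show (if hγ : l.idxOf (l.get ⟨d.val, _⟩) < nd then fy ⟨l.idxOf (l.get ⟨d.val, _⟩), hγ⟩
      else 0) = _
    rw [dif_pos (by rw [e1]; exact d.isLt)]
    congr 1
    exact Fin.ext e1
  let Dg : Fin G.length → ZMod Q := fun γ => Dh hd γ.val
  let Dq : Fin G'.length → ZMod Q := fun γ => Dh hd' γ.val
  have hJ : ∀ j : J, ∃ (γ : Fin G.length) (dir : Bool), ∀ r : ZMod b.k,
      ∃ w0 w2 w3 : (b.V × ZMod m) × ZMod Q, w0.1.1 = b.oc up L r ∧ w2.1.1 = b.icn up L r ∧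
        w3.1.1 = b.icn up L r ∧
        ori dir (FJ j) w0 = ((b.oc up L r, ((G.get γ : ℕ) : ZMod m)), Dg γ) ∧
        ori dir (FJ j) ((b.oc up L r, ((G.get γ : ℕ) : ZMod m)), Dg γ) = w2 ∧
        ori dir (FJ j) w2 = w3 := by
    intro j
    obtain ⟨d, dir, hd''⟩ := hFP j
    have hmem : hd.get ⟨d.val, by rw [hnd1]; exact d.isLt⟩ ∈ hd := List.get_mem hd _
    obtain ⟨γ0, hγ0⟩ : ∃ γ0, γ0 = hd.get ⟨d.val, by rw [hnd1]; exact d.isLt⟩ := ⟨_, rfl⟩
    have hDγ := hDh hd hnd1 hnd d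
    rw [← hγ0] at hmem hDγ
    obtain ⟨hlt, hany⟩ := hhd _ hmem
    rw [List.any_eq_true] at hany
    obtain ⟨n, hn, hz⟩ := hany
    rw [Bool.and_eq_true] at hz
    have hz0 : n.2 = d0 := by
      have := hz.1
      rwa [beq_iff_eq] at this
    have hz := of_decide_eq_true hz.2
    simp only [chkP, Bool.and_eq_true, List.all_eq_true, decide_eq_true_eq] at hch
    have hGg : G.getD γ0 0 = G.get ⟨γ0, hlt⟩ := by
      rw [List.getD_eq_getElem _ _ hlt]
      rfl
    have e6 : (zN m p ε W up L n : ZMod m) = ((G.get ⟨γ0, hlt⟩ : ℕ) : ZMod m) := by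
      rw [← hGg]
      have e7 := (ZMod.intCast_zmod_eq_zero_iff_dvd _ m).2 (Int.dvd_of_emod_eq_zero hz)
      push_cast at e7
      linear_combination e7
    have hDg : Dg ⟨γ0, hlt⟩ = fy d := hDγ
    refine ⟨⟨γ0, hlt⟩, dir, fun r => ?_⟩
    obtain ⟨y0, y2, y3, a0, a1, a2⟩ := OF1_host h hpB hp4 hε hok up L ns n (hch.1.1 n hn) r
    rw [e6, hz0] at a0 a1
    rw [hz0] at a2
    obtain ⟨w0, w2, w3, b0, b2, b3, c0, c1, c2⟩ := hd'' (b.oc up L r,
      ((G.get ⟨γ0, hlt⟩ : ℕ) : ZMod m))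
    rw [hDg]
    have a0' : (ori d0 (OF1 h hpB hε hok 0))⁻¹ (b.oc up L r,
        ((G.get ⟨γ0, hlt⟩ : ℕ) : ZMod m)) = (b.oc up L r, y0) := by
      rw [Perm.inv_eq_iff_eq, a0]
    rw [a0'] at b0
    rw [a1, a2] at b2 b3
    refine ⟨w0, w2, w3, ?_, ?_, ?_, c0, c1, c2⟩
    · rcases b0 with b0 | b0 <;> rw [b0]
    · rcases b2 with b2 | b2 <;> rw [b2]
    · rcases b3 with b3 | b3 <;> rw [b3]
  have hz0 : (((ns : ZMod (p * m)), (0 : ZMod B)) : ZMod (p * m) × ZMod B).1 =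
      (ns : ZMod (p * m)) := rfl
  have hns : ns < p * m := by
    simp only [chkP, Bool.and_eq_true, decide_eq_true_eq] at hch
    exact hch.1.2
  obtain ⟨g, o, hgo⟩ := places h hpB hp4 hε hok F ((ns : ZMod (p * m)), (0 : ZMod B)) FJ θ up L ns
    hz0 P G hch Dg hJ
  -- the words
  let cen : Finset (b.V × (ZMod m × ZMod Q)) := univ.image fun γ : Fin G'.length =>
    (b.rgF false i0, θ (b.rgF false i0) (((G'.get γ : ℕ) : ZMod m), Dq γ))
  have hfwd : ∀ (s : Perm (b.V × (ZMod m × ZMod Q))) (d d' : Bool)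
      (w : Fin 4 → b.V × (ZMod m × ZMod Q)), Fwd (ori d s) w →
      Fwd (ori d' s) w ∨ Fwd (ori d' s)⁻¹ w := by
    intro s d d' w hw
    have e1 : (s⁻¹)⁻¹ = s := inv_inv s
    cases d <;> cases d'
    · exact Or.inl hw
    · exact Or.inr hw
    · right
      show Fwd (s⁻¹)⁻¹ w
      rw [e1]
      exact hw
    · exact Or.inl hw
  have hwords : ∀ j : JS m (ZMod Q) J, ∃ (d : Bool) (w : Fin 4 → b.V × (ZMod m × ZMod Q)),
      (w 0).1 = b.rgF false i0 ∧ w 1 ∈ cen ∧ b.nbr i0 (w 2).1 ∧ b.nbr i0 (w 3).1 ∧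
      Fwd (ori d (OFS h hpB hε hok F ((ns : ZMod (p * m)), (0 : ZMod B)) FJ θ j)) w := by
    simp only [chkQ, Bool.and_eq_true, List.all_eq_true] at hch'
    obtain ⟨q1, q3⟩ := hch'
    rintro (z | j)
    · have hzv := ZMod.val_lt z.1.val
      have e1 := q3 z.1.val.val (List.mem_range.2 hzv)
      have e2 : (z.1.val.val == 0) = false := by
        rw [beq_eq_false_iff_ne]
        intro h0
        exact z.1.2 ((ZMod.val_eq_zero _).1 h0)
      rw [e2, Bool.false_or, List.any_eq_true] at e1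
      obtain ⟨n, hn, e3⟩ := e1
      rw [List.any_eq_true] at e3
      obtain ⟨D, hD, e4⟩ := e3
      have e5 := of_decide_eq_true e4
      obtain ⟨γ, hγ⟩ := List.get_of_mem hD
      have e6 : (zW m p ε W L' n : ZMod m) + z.1.val = ((G'.get γ : ℕ) : ZMod m) := by
        rw [hγ]
        have e7 := (ZMod.intCast_zmod_eq_zero_iff_dvd _ m).2 (Int.dvd_of_emod_eq_zero e5)
        push_cast at e7
        rw [ZMod.natCast_zmod_val] at e7
        linear_combination e7
      obtain ⟨w, w0, w1, w2, w3, w4⟩ := OFS_word h hpB hp4 hε hok F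
        ((ns : ZMod (p * m)), (0 : ZMod B)) FJ θ L' ns n hns hz0 (q1 n hn) i0 hi0 z (Dq γ)
      rw [e6] at w1
      exact ⟨n.2, w, w0, mem_image.2 ⟨γ, mem_univ _, w1.symm⟩, w2, w3, w4⟩
    · obtain ⟨d, dir, hd''⟩ := hFP j
      have hmem : hd'.get ⟨d.val, by rw [hnd2]; exact d.isLt⟩ ∈ hd' := List.get_mem hd' _
      obtain ⟨γ0, hγ0⟩ : ∃ γ0, γ0 = hd'.get ⟨d.val, by rw [hnd2]; exact d.isLt⟩ := ⟨_, rfl⟩
      have hDγ := hDh hd' hnd2 hnd' d
      rw [← hγ0] at hmem hDγ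
      obtain ⟨hlt, hany⟩ := hhd' _ hmem
      rw [List.any_eq_true] at hany
      obtain ⟨n, hn, hz⟩ := hany
      rw [Bool.and_eq_true] at hz
      have hz0' : n.2 = d0 := by
        have := hz.1
        rwa [beq_iff_eq] at this
      have hz := of_decide_eq_true hz.2
      have hGg : G'.getD γ0 0 = G'.get ⟨γ0, hlt⟩ := by
        rw [List.getD_eq_getElem _ _ hlt]
        rfl
      have e6 : (zW m p ε W L' n : ZMod m) = ((G'.get ⟨γ0, hlt⟩ : ℕ) : ZMod m) := by
        rw [← hGg]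
        have e7 := (ZMod.intCast_zmod_eq_zero_iff_dvd _ m).2 (Int.dvd_of_emod_eq_zero hz)
        push_cast at e7
        linear_combination e7
      have hDg : Dq ⟨γ0, hlt⟩ = fy d := hDγ
      obtain ⟨y0, v2, v3, b2, b3, a0, a1, a2⟩ := OF1_word h hpB hp4 hε hok L' ns n (q1 n hn)
        i0 hi0
      rw [e6, hz0'] at a0 a1
      rw [hz0'] at a2
      obtain ⟨w0, w2, w3, f0, f2, f3, c0, c1, c2⟩ := hd'' (b.rgF false i0,
        ((G'.get ⟨γ0, hlt⟩ : ℕ) : ZMod m))
      have a0' : (ori d0 (OF1 h hpB hε hok 0))⁻¹ (b.rgF false i0,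
          ((G'.get ⟨γ0, hlt⟩ : ℕ) : ZMod m)) = (b.rgF false i0, y0) := by
        rw [Perm.inv_eq_iff_eq, a0]
      rw [a0'] at f0
      rw [a1, a2] at f2 f3
      rw [← hDg] at c0 c1
      have e1 : ∀ w w' : (b.V × ZMod m) × ZMod Q, ori dir (FJ j) w = w' →
          ori dir (OFS h hpB hε hok F ((ns : ZMod (p * m)), (0 : ZMod B)) FJ θ (.inr j))
            (w.1.1, θ w.1.1 (w.1.2, w.2)) = (w'.1.1, θ w'.1.1 (w'.1.2, w'.2)) := by
        intro w w' hw
        have e2 : ∀ w : (b.V × ZMod m) × ZMod Q,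
          ((w.1.1, θ w.1.1 (w.1.2, w.2)) : b.V × (ZMod m × ZMod Q)) =
          ((asc b.V (ZMod m) (ZMod Q)).trans (fib θ)) w := fun w => rfl
        rw [e2, e2, OFS, ori_permCongr, Equiv.permCongr_apply, Equiv.symm_apply_apply]
        exact congrArg _ hw
      refine ⟨dir, ![_, _, _, _], ?_, mem_image.2 ⟨⟨γ0, hlt⟩, mem_univ _, rfl⟩, ?_, ?_,
        e1 _ _ c0, e1 _ _ c1, e1 _ _ c2⟩
      · rcases f0 with f0 | f0 <;> exact congrArg Prod.fst f0
      · rcases f2 with f2 | f2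
        · exact (congrArg (fun v : b.V × ZMod m => b.nbr i0 v.1) f2).mpr b2
        · exact (congrArg (fun v : b.V × ZMod m => b.nbr i0 v.1) f2).mpr b3
      · rcases f3 with f3 | f3
        · exact (congrArg (fun v : b.V × ZMod m => b.nbr i0 v.1) f3).mpr b2
        · exact (congrArg (fun v : b.V × ZMod m => b.nbr i0 v.1) f3).mpr b3
  refine ⟨JS m (ZMod Q) J, inferInstance, inferInstance, fun j => ori (o j)
    (OFS h hpB hε hok F ((ns : ZMod (p * m)), (0 : ZMod B)) FJ θ j), Dg, g, cen, ?_, ?_, ?_, hgo,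
    ?_, ?_, ?_⟩
  · have e1 : Fintype.card (JS m (ZMod Q) J) = (m - 1) * Q + Fintype.card J := by
      rw [Fintype.card_sum, Fintype.card_prod, ZMod.card]
      congr 2
      have e2 := Fintype.card_subtype_compl (α := ZMod m) (fun x => x = 0)
      rw [Fintype.card_subtype_eq, ZMod.card] at e2
      exact e2
    rw [e1]
    have e3 : m * Q = (m - 1) * Q + Q := by
      obtain ⟨n, rfl⟩ : ∃ n, m = n + 1 := ⟨m - 1, by omega⟩
      simp only [Nat.add_sub_cancel]
      ring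
    rw [e3]
    omega
  · intro j
    exact closed_ori (closed_OFS h hpB hε hok F _ FJ θ (fun r => ⟨r.val, by
      rw [nsmul_one, ZMod.natCast_zmod_val]⟩) j2 j) _
  · rw [sum_congr rfl fun j _ => E_ori _ _]
    exact sum_E_OFS h hk hpB hm hε hN hc hok hF _ h2 h3 FJ j3 θ (by omega)
  · refine card_image_le.trans ?_
    rw [card_univ, Fintype.card_fin]
  · intro q hq
    obtain ⟨γ, -, rfl⟩ := mem_image.1 hq
    rfl
  · intro j
    obtain ⟨d, w, w0, w1, w2, w3, w4⟩ := hwords j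
    exact ⟨w, w0, w1, w2, w3, hfwd _ _ _ _ w4⟩

end RD

end SqIns
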