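import Pool.Agent.Lib.SqIns.Bridge

/-!
# The final statement from the statement for all `k`
-/

namespace SqIns

/-- one point -/
theorem decomposes_one : SqCyc.Decomposes 1 := by
  refine ⟨fun b => b.elim0, fun b => b.elim0, fun u v huv => ?_⟩
  exact absurd (Subsingleton.elim u v) huv

/-- all `n ≡ 1 (mod 4)` except `9` -/
theorem all_n (h : ∀ k : ℕ, 0 < k → k ≠ 2 → SqCyc.Decomposes (4 * k + 1)) (n : ℕ)
    (hn : n % 4 = 1) (h9 : n ≠ 9) : SqCyc.Decomposes n := by
  rcases Nat.eq_zero_or_pos (n / 4) with h0 | h0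
  · have : n = 1 := by omega
    rw [this]
    exact decomposes_one
  · have h1 := h (n / 4) h0 (by omega)
    have h2 : 4 * (n / 4) + 1 = n := by omega
    rwa [h2] at h1

end SqIns
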