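import Pool.Agent.Lib.SqIns.RawD136
import Pool.Agent.Lib.SqIns.RawD137
import Pool.Agent.Lib.SqIns.RawD138
import Pool.Agent.Lib.SqIns.RawD167
import Pool.Agent.Lib.SqIns.RawD302

/-!
# The small exceptional cases checked by brute force
-/

namespace SqIns

/-- explicit decompositions of `K_{4k+1}` for the four sizes which have no symmetric one -/
theorem raw_all : ∀ k ∈ [136, 137, 138, 167], SqCyc.Decomposes (4 * k + 1) := by
  intro k hk
  simp only [List.mem_cons, List.not_mem_nil, or_false] at hk
  rcases hk with rfl | rfl | rfl | rfl
  · exact Raw.decomposes_k136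
  · exact Raw.decomposes_k137
  · exact Raw.decomposes_k138
  · exact Raw.decomposes_k167

/-- explicit decomposition of `K_1209` -/
theorem raw_302 : SqCyc.Decomposes (4 * 302 + 1) := Raw11.decomposes_k302

end SqIns
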