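import Pool.Agent.Lib.SqIns.WT00
import Pool.Agent.Lib.SqIns.WT01
import Pool.Agent.Lib.SqIns.WT02
import Pool.Agent.Lib.SqIns.WT03
import Pool.Agent.Lib.SqIns.WT04
import Pool.Agent.Lib.SqIns.WT05
import Pool.Agent.Lib.SqIns.WT06
import Pool.Agent.Lib.SqIns.WT07
import Pool.Agent.Lib.SqIns.WT08
import Pool.Agent.Lib.SqIns.WT09
import Pool.Agent.Lib.SqIns.WT10
import Pool.Agent.Lib.SqIns.WT11
import Pool.Agent.Lib.SqIns.WT12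
import Pool.Agent.Lib.SqIns.WT13
import Pool.Agent.Lib.SqIns.WT14
import Pool.Agent.Lib.SqIns.WT15
import Pool.Agent.Lib.SqIns.WT16
import Pool.Agent.Lib.SqIns.WT17

/-!
# All direct words
-/

namespace SqIns

theorem pt_dir : ∀ T ∈ dirL, PT T 4 := by
  have h : ∀ T ∈ [5, 6, 7, 8, 9, 10, 11, 12, 13, 14, 15, 16, 17, 18, 19, 20, 21, 22, 23, 24, 25, 26, 27, 28, 29, 30, 31, 32, 33, 34, 35, 36, 37, 38, 39, 40, 41, 42, 43, 44, 45, 46, 47, 48, 49, 50, 51, 52, 53, 54, 55, 56, 57, 58, 59, 60, 61, 62, 63, 64, 65, 66, 67, 68, 69, 78, 79, 96, 97, 106, 107, 108, 109], PT T 4 :=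
    List.forall_mem_cons.2 ⟨pt_5, List.forall_mem_cons.2 ⟨pt_6, List.forall_mem_cons.2 ⟨pt_7, List.forall_mem_cons.2 ⟨pt_8, List.forall_mem_cons.2 ⟨pt_9, List.forall_mem_cons.2 ⟨pt_10, List.forall_mem_cons.2 ⟨pt_11, List.forall_mem_cons.2 ⟨pt_12, List.forall_mem_cons.2 ⟨pt_13, List.forall_mem_cons.2 ⟨pt_14, List.forall_mem_cons.2 ⟨pt_15, List.forall_mem_cons.2 ⟨pt_16, List.forall_mem_cons.2 ⟨pt_17, List.forall_mem_cons.2 ⟨pt_18, List.forall_mem_cons.2 ⟨pt_19, List.forall_mem_cons.2 ⟨pt_20, List.forall_mem_cons.2 ⟨pt_21, List.forall_mem_cons.2 ⟨pt_22, List.forall_mem_cons.2 ⟨pt_23, List.forall_mem_cons.2 ⟨pt_24, List.forall_mem_cons.2 ⟨pt_25, List.forall_mem_cons.2 ⟨pt_26, List.forall_mem_cons.2 ⟨pt_27, List.forall_mem_cons.2 ⟨pt_28, List.forall_mem_cons.2 ⟨pt_29, List.forall_mem_cons.2 ⟨pt_30, List.forall_mem_cons.2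 ⟨pt_31, List.forall_mem_cons.2 ⟨pt_32, List.forall_mem_cons.2 ⟨pt_33, List.forall_mem_cons.2 ⟨pt_34, List.forall_mem_cons.2 ⟨pt_35, List.forall_mem_cons.2 ⟨pt_36, List.forall_mem_cons.2 ⟨pt_37, List.forall_mem_cons.2 ⟨pt_38, List.forall_mem_cons.2 ⟨pt_39, List.forall_mem_cons.2 ⟨pt_40, List.forall_mem_cons.2 ⟨pt_41, List.forall_mem_cons.2 ⟨pt_42, List.forall_mem_cons.2 ⟨pt_43, List.forall_mem_cons.2 ⟨pt_44, List.forall_mem_cons.2 ⟨pt_45, List.forall_mem_cons.2 ⟨pt_46, List.forall_mem_cons.2 ⟨pt_47, List.forall_mem_cons.2 ⟨pt_48, List.forall_mem_cons.2 ⟨pt_49, List.forall_mem_cons.2 ⟨pt_50, List.forall_mem_cons.2 ⟨pt_51, List.forall_mem_cons.2 ⟨pt_52, List.forall_mem_cons.2 ⟨pt_53, List.forall_mem_cons.2 ⟨pt_54, List.forall_mem_cons.2 ⟨pt_55, List.forall_mem_cons.2 ⟨pt_56, List.forall_mem_cons.2 ⟨pt_57,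 List.forall_mem_cons.2 ⟨pt_58, List.forall_mem_cons.2 ⟨pt_59, List.forall_mem_cons.2 ⟨pt_60, List.forall_mem_cons.2 ⟨pt_61, List.forall_mem_cons.2 ⟨pt_62, List.forall_mem_cons.2 ⟨pt_63, List.forall_mem_cons.2 ⟨pt_64, List.forall_mem_cons.2 ⟨pt_65, List.forall_mem_cons.2 ⟨pt_66, List.forall_mem_cons.2 ⟨pt_67, List.forall_mem_cons.2 ⟨pt_68, List.forall_mem_cons.2 ⟨pt_69, List.forall_mem_cons.2 ⟨pt_78, List.forall_mem_cons.2 ⟨pt_79, List.forall_mem_cons.2 ⟨pt_96, List.forall_mem_cons.2 ⟨pt_97, List.forall_mem_cons.2 ⟨pt_106, List.forall_mem_cons.2 ⟨pt_107, List.forall_mem_cons.2 ⟨pt_108, List.forall_mem_cons.2 ⟨pt_109, fun _ h => absurd h List.not_mem_nil⟩⟩⟩⟩⟩⟩⟩⟩⟩⟩⟩⟩⟩⟩⟩⟩⟩⟩⟩⟩⟩⟩⟩⟩⟩⟩⟩⟩⟩⟩⟩⟩⟩⟩⟩⟩⟩⟩⟩⟩⟩⟩⟩⟩⟩⟩⟩⟩⟩⟩⟩⟩⟩⟩⟩⟩⟩⟩⟩⟩⟩⟩⟩⟩⟩⟩⟩⟩⟩⟩⟩⟩⟩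
  intro T hT
  exact h T (by
    have e : dirL = [5, 6, 7, 8, 9, 10, 11, 12, 13, 14, 15, 16, 17, 18, 19, 20, 21, 22, 23, 24, 25, 26, 27, 28, 29, 30, 31, 32, 33, 34, 35, 36, 37, 38, 39, 40, 41, 42, 43, 44, 45, 46, 47, 48, 49, 50, 51, 52, 53, 54, 55, 56, 57, 58, 59, 60, 61, 62, 63, 64, 65, 66, 67, 68, 69, 78, 79, 96, 97, 106, 107, 108, 109] := by decide
    rw [← e]
    exact hT)

end SqIns
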