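import Pool.Agent.Lib.SqIns.Recur1
import Pool.Agent.Lib.SqIns.WTall
import Pool.Agent.Lib.SqIns.Small
import Pool.Agent.Lib.SqIns.Small3

/-!
# All sizes, from the steps of the bases
-/

namespace SqIns

theorem PW.decomposes {T nF nI nA c : ℕ} (h : PW T nF nI nA c) :
    SqCyc.Decomposes (4 * T + 1) := by
  obtain ⟨sq, h1, -⟩ := h
  exact h1.decomposes (Fintype.card_fin _) (Fintype.card_fin _)

/-- some words are always asked for -/
theorem exists_target {k : ℕ} (hk : 5 ≤ k) : ∃ m ∈ msL, ∃ a : ℕ, Nat.Coprime m (fQ a 0) ∧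
    TFn m (fQ a 0) ≤ k ∧ k ≤ TFn m (fQ a 0) + m * fQ a 0 := by
  obtain ⟨n, h1, h2⟩ := exists_scale17 21 (4 * k + 1) (by norm_num) (by omega)
  have hQ : fQ n 0 = 17 ^ n := by
    unfold fQ
    rw [pow_zero, mul_one]
  have key : ∀ m ∈ msL, m % 17 ≠ 0 → 17 ^ n * (4 * m + 1) ≤ 4 * k + 1 →
      4 * k + 1 ≤ 17 ^ n * (8 * m + 1) → ∃ m ∈ msL, ∃ a : ℕ, Nat.Coprime m (fQ a 0) ∧
      TFn m (fQ a 0) ≤ k ∧ k ≤ TFn m (fQ a 0) + m * fQ a 0 := by
    intro m hm h17 h3 h4
    refine ⟨m, hm, n, coprime_of_cop ?_, ?_, ?_⟩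
    · unfold cop
      rw [Bool.and_eq_true, Bool.or_eq_true, Bool.or_eq_true, decide_eq_true_eq,
        decide_eq_true_eq, decide_eq_true_eq]
      exact ⟨Or.inr h17, Or.inl rfl⟩
    · have h5 := four_TFn m n 0
      rw [hQ] at h5 ⊢
      omega
    · have h5 := four_TFn m n 0
      rw [hQ] at h5 ⊢
      have h6 : 17 ^ n * (8 * m + 1) = 17 ^ n * (4 * m + 1) + 4 * (m * 17 ^ n) := by ring
      omega
  have hl : ∀ u v : ℕ, u ≤ v → 17 ^ n * u ≤ 17 ^ n * v := fun u v h => Nat.mul_le_mul_left _ h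
  by_cases g1 : 4 * k + 1 ≤ 17 ^ n * 41
  · exact key 5 (by decide) (by decide) h1 g1
  by_cases g2 : 4 * k + 1 ≤ 17 ^ n * 57
  · exact key 7 (by decide) (by decide) (by have := hl 29 41 (by norm_num); omega) g2
  by_cases g3 : 4 * k + 1 ≤ 17 ^ n * 89
  · exact key 11 (by decide) (by decide) (by have := hl 45 57 (by norm_num); omega) g3
  by_cases g4 : 4 * k + 1 ≤ 17 ^ n * 105
  · exact key 13 (by decide) (by decide) (by have := hl 53 89 (by norm_num); omega) g4
  by_cases g5 : 4 * k + 1 ≤ 17 ^ n * 185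
  · exact key 23 (by decide) (by decide) (by have := hl 93 105 (by norm_num); omega) g5
  by_cases g6 : 4 * k + 1 ≤ 17 ^ n * 329
  · exact key 41 (by decide) (by decide) (by have := hl 165 185 (by norm_num); omega) g6
  · refine key 73 (by decide) (by decide) (by have := hl 293 329 (by norm_num); omega) ?_
    have h3 : 17 ^ n * (17 * 21) ≤ 17 ^ n * (8 * 73 + 1) := hl _ _ (by norm_num)
    omega

/-- **All sizes**, from the steps of the bases and five sizes -/
theorem all_k_of (H : Bases) (hr : ∀ k ∈ [136, 137, 138, 167], SqCyc.Decomposes (4 * k + 1))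
    (hr2 : SqCyc.Decomposes (4 * 302 + 1))
    (k : ℕ) (h0 : 0 < k) (h2 : k ≠ 2) : SqCyc.Decomposes (4 * k + 1) := by
  by_cases h69 : k ≤ 69
  · exact decomposes_small k h0 h69 h2
  by_cases hk : k ∈ rawL
  · simp only [rawL, List.mem_cons, List.not_mem_nil, or_false] at hk
    rcases hk with rfl | rfl | rfl | rfl | rfl | rfl | rfl | rfl | rfl | rfl | rfl | rfl | rfl |
      rfl | rfl | rfl
    · exact decomposes_305
    · exact decomposes_309
    · exact decomposes_345
    · exact decomposes_349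
    · exact decomposes_353
    · exact decomposes_357
    · exact hr 136 (by simp)
    · exact hr 137 (by simp)
    · exact hr 138 (by simp)
    · exact decomposes_557
    · exact decomposes_593
    · exact decomposes_597
    · exact decomposes_665
    · exact hr 167 (by simp)
    · exact hr2
    · exact decomposes_1213
  · obtain ⟨m, hm, a, hc, t1, t2⟩ := exists_target (k := k) (by omega)
    exact (pt_all H pt_dir k (by omega) hk m hm a 0 (by norm_num) hc t1 t2).decomposes

end SqIns
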