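import Pool.Agent.Lib.SqIns.RecurD

/-!
# The recursion

From the steps of the bases and the direct words: all words at all sizes except the sizes of
`rawL`.
-/

namespace SqIns

/-- the bases with words around a ring index, with the excluded digits -/
def exB : List (ℕ × List ℕ) :=
  [(19, [29, 67]), (23, []), (25, []), (27, []), (29, []), (31, []), (33, []), (35, []),
   (37, []), (39, []), (41, []), (43, []), (45, []), (47, [])]

/-- the bases with words at the columns of `D`, with the excluded digits -/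
def exA : List (ℕ × List ℕ) := [(15, [41, 97]), (17, [29]), (21, [])]

/-- sizes without words -/
def rawL : List ℕ :=
  [76, 77, 86, 87, 88, 89, 136, 137, 138, 139, 148, 149, 166, 167, 302, 303]

/-- the steps of all bases -/
structure Bases : Prop where
  h13 : Steps13
  h13b : Steps13b
  hA : ∀ p ∈ exA, StepsA p.1 p.2
  hB : ∀ p ∈ exB, StepsB p.1 p.2

/-- all `i < n` -/
def allN (g : ℕ → Bool) : ℕ → Bool
  | 0 => true
  | n + 1 => g n && allN g n

theorem allN_spec {g : ℕ → Bool} : ∀ {n : ℕ}, allN g n = true → ∀ i < n, g i = true := by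
  intro n
  induction n with
  | zero => intro _ i hi; exact absurd hi (Nat.not_lt_zero _)
  | succ n ih =>
    intro h i hi
    unfold allN at h
    rw [Bool.and_eq_true] at h
    rcases Nat.lt_succ_iff_lt_or_eq.1 hi with h1 | h1
    · exact ih h.2 i h1
    · rw [h1]
      exact h.1

/-- membership, natural numbers -/
def memN (l : List ℕ) (x : ℕ) : Bool := l.any fun y => Nat.beq y x

theorem memN_iff {l : List ℕ} {x : ℕ} : memN l x = true ↔ x ∈ l := by
  unfold memN
  rw [List.any_eq_true]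
  constructor
  · rintro ⟨y, hy, h⟩
    rw [← Nat.eq_of_beq_eq_true h]
    exact hy
  · intro h
    exact ⟨x, h, Nat.beq_refl x⟩

/-- membership in a list of pairs -/
def memP (l : List (ℕ × ℕ)) (m T : ℕ) : Bool := l.any fun p => Nat.beq p.1 m && Nat.beq p.2 T

theorem memP_spec {l : List (ℕ × ℕ)} {m T : ℕ} (h : memP l m T = true) : (m, T) ∈ l := by
  unfold memP at h
  rw [List.any_eq_true] at h
  obtain ⟨p, hp, h1⟩ := h
  rw [Bool.and_eq_true] at h1
  rw [← Nat.eq_of_beq_eq_true h1.1, ← Nat.eq_of_beq_eq_true h1.2]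
  exact hp

theorem nbeq_false {a b : ℕ} (h : (!Nat.beq a b) = true) : a ≠ b := by
  rintro rfl
  rw [Nat.beq_refl] at h
  exact absurd h (by decide)

/-- `exB`, fast -/
def isB (K m : ℕ) : Bool :=
  Nat.beq (K % 2) 1 && (Nat.ble 19 K && (Nat.ble K 47 && (!(Nat.beq K 21) &&
    !(Nat.beq K 19 && (Nat.beq m 29 || Nat.beq m 67)))))

theorem isB_spec {K m : ℕ} (h : isB K m = true) : ∃ p ∈ exB, p.1 = K ∧ m ∉ p.2 := by
  unfold isB at h
  rw [Bool.and_eq_true, Bool.and_eq_true, Bool.and_eq_true, Bool.and_eq_true] at h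
  obtain ⟨h1, h2, h3, h5, h4⟩ := h
  have h1' := Nat.eq_of_beq_eq_true h1
  have h2' := Nat.le_of_ble_eq_true h2
  have h3' := Nat.le_of_ble_eq_true h3
  have h5' := nbeq_false h5
  have key : allN (fun K => Nat.beq K 19 || (memN (exB.tail.map fun p => p.1) K ||
      !(Nat.beq (K % 2) 1 && (Nat.ble 19 K && !Nat.beq K 21)))) 48 = true := by decide
  have key' := allN_spec key K (by omega)
  rw [Bool.or_eq_true, Bool.or_eq_true, memN_iff, h1, h2, h5] at key'
  rcases key' with h | h | h
  · have h0 := Nat.eq_of_beq_eq_true h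
    subst h0
    refine ⟨(19, [29, 67]), by decide, rfl, ?_⟩
    intro h5
    simp only [List.mem_cons, List.not_mem_nil, or_false] at h5
    rcases h5 with rfl | rfl
    · exact absurd h4 (by decide)
    · exact absurd h4 (by decide)
  · rw [List.mem_map] at h
    obtain ⟨p, hp, rfl⟩ := h
    have key2 : ∀ p ∈ exB.tail, p.2.length = 0 := by decide
    refine ⟨p, List.mem_of_mem_tail hp, rfl, ?_⟩
    rw [List.length_eq_zero_iff.1 (key2 p hp)]
    exact List.not_mem_nil
  · exact absurd h (by decide)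

/-- `exA`, fast -/
def isA (K m : ℕ) : Bool :=
  (Nat.beq K 15 && !(Nat.beq m 41 || Nat.beq m 97)) || ((Nat.beq K 17 && !(Nat.beq m 29)) ||
    Nat.beq K 21)

theorem isA_spec {K m : ℕ} (h : isA K m = true) : ∃ p ∈ exA, p.1 = K ∧ m ∉ p.2 := by
  unfold isA at h
  rw [Bool.or_eq_true, Bool.or_eq_true, Bool.and_eq_true, Bool.and_eq_true] at h
  rcases h with ⟨h, h'⟩ | ⟨h, h'⟩ | h
  · have h0 := Nat.eq_of_beq_eq_true h
    subst h0
    refine ⟨(15, [41, 97]), by decide, rfl, ?_⟩
    intro h5
    simp only [List.mem_cons, List.not_mem_nil, or_false] at h5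
    rcases h5 with rfl | rfl
    · exact absurd h' (by decide)
    · exact absurd h' (by decide)
  · have h0 := Nat.eq_of_beq_eq_true h
    subst h0
    refine ⟨(17, [29]), by decide, rfl, ?_⟩
    intro h5
    rw [List.mem_singleton] at h5
    subst h5
    exact absurd h' (by decide)
  · have h0 := Nat.eq_of_beq_eq_true h
    subst h0
    exact ⟨(21, []), by decide, rfl, List.not_mem_nil⟩

/-- `msL`, fast -/
def isM (m : ℕ) : Bool :=
  (Nat.beq 5 m || (Nat.beq 7 m || (Nat.beq 11 m || (Nat.beq 13 m || (Nat.beq 17 m ||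
  (Nat.beq 19 m || (Nat.beq 23 m || (Nat.beq 25 m || (Nat.beq 29 m || (Nat.beq 31 m ||
  (Nat.beq 35 m || (Nat.beq 37 m || (Nat.beq 41 m || (Nat.beq 61 m || (Nat.beq 67 m ||
  (Nat.beq 71 m || (Nat.beq 73 m || (Nat.beq 79 m || (Nat.beq 97 m || false)))))))))))))))))))

theorem isM_spec {m : ℕ} (h : isM m = true) : m ∈ msL := memN_iff.1 h

/-- `rawL`, fast -/
def isR (m : ℕ) : Bool :=
  (Nat.beq 76 m || (Nat.beq 77 m || (Nat.beq 86 m || (Nat.beq 87 m || (Nat.beq 88 m ||
  (Nat.beq 89 m || (Nat.beq 136 m || (Nat.beq 137 m || (Nat.beq 138 m || (Nat.beq 139 m ||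
  (Nat.beq 148 m || (Nat.beq 149 m || (Nat.beq 166 m || (Nat.beq 167 m || (Nat.beq 302 m ||
  (Nat.beq 303 m || false))))))))))))))))

theorem isR_spec {m : ℕ} (h : m ∈ rawL) : isR m = true := memN_iff.2 h

/-- the available steps -/
def av (K m a b T : ℕ) : Bool :=
  isB K m || (isA K m || (Nat.beq K 13 && (Nat.beq b 0 &&
    ((Nat.beq a 0 && memP L13 m T) || (Nat.beq a 1 && memP L13b m T)))))

/-- number of centres of the result minus five -/
def qv (K m : ℕ) (tw : Bool) : ℕ :=
  bif Nat.ble K 17 || Nat.beq K 21 then gG m tw else gC m tw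

/-- with fine digits or without -/
def twN (a b : ℕ) : Bool := !(Nat.beq a 0 && Nat.beq b 0)

theorem tw_spec {a b : ℕ} (h : twN a b = false) : a = 0 ∧ b = 0 := by
  unfold twN at h
  rw [Bool.not_eq_false', Bool.and_eq_true] at h
  exact ⟨Nat.eq_of_beq_eq_true h.1, Nat.eq_of_beq_eq_true h.2⟩

theorem av_step (H : Bases) {K m a b T s : ℕ} (h : av K m a b T = true) (hm : m ∈ msL)
    (hb : b ≤ 2) (hc : Nat.Coprime m (fQ a b)) (h1 : TFn m (fQ a b) ≤ T)
    (h2 : T ≤ TFn m (fQ a b) + m * fQ a b)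
    (hP : PW T (TFn m (fQ a b)) (m * fQ a b) (m * fQ a b) s)
    (hG : gG m (twN a b) + s ≤ K ∨ TFn m (fQ a b) + 1 ≤ K) :
    PT (K * (m * fQ a b) + T) (5 + qv K m (twN a b)) := by
  unfold av at h
  rw [Bool.or_eq_true, Bool.or_eq_true, Bool.and_eq_true, Bool.and_eq_true, Bool.or_eq_true,
    Bool.and_eq_true, Bool.and_eq_true] at h
  rcases h with h | h | ⟨h, h', h''⟩
  · obtain ⟨p, hp, rfl, hm'⟩ := isB_spec h
    have h3 : qv p.1 m (twN a b) = gC m (twN a b) := by
      unfold qv
      have : ∀ p ∈ exB, (Nat.ble p.1 17 || Nat.beq p.1 21) = false := by decide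
      rw [this p hp, cond_false]
    rw [h3]
    exact H.hB p hp m hm hm' (twN a b) a b T s hb tw_spec hc h1 h2 trivial hP hG
  · obtain ⟨p, hp, rfl, hm'⟩ := isA_spec h
    have h3 : qv p.1 m (twN a b) = gG m (twN a b) := by
      unfold qv
      have : ∀ p ∈ exA, (Nat.ble p.1 17 || Nat.beq p.1 21) = true := by decide
      rw [this p hp, cond_true]
    rw [h3]
    exact H.hA p hp m hm hm' (twN a b) a b T s hb tw_spec hc h1 h2 trivial hP hG
  · have h0 := Nat.eq_of_beq_eq_true h
    subst h0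
    have h0 := Nat.eq_of_beq_eq_true h'
    subst h0
    rcases h'' with ⟨ha, hp⟩ | ⟨ha, hp⟩
    · have h0 := Nat.eq_of_beq_eq_true ha
      subst h0
      have e3 : fQ 0 0 = 1 := by norm_num [fQ]
      have e4 : TFn m 1 = m := by
        unfold TFn
        norm_num
      rw [e3, mul_one, e4] at hP
      rw [e3, e4] at hG
      rw [e3, mul_one]
      have e5 : twN 0 0 = false := rfl
      have e6 : qv 13 m false = gG m false := by
        unfold qv
        rw [show (Nat.ble 13 17 || Nat.beq 13 21) = true from rfl, cond_true]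
      rw [e5] at hG ⊢
      rw [e6]
      exact H.h13 (m, T) (memP_spec hp) s hP hG
    · have h0 := Nat.eq_of_beq_eq_true ha
      subst h0
      have hp' := memP_spec hp
      have e5 : twN 1 0 = true := rfl
      have e6 : qv 13 m true = gG m true := by
        unfold qv
        rw [show (Nat.ble 13 17 || Nat.beq 13 21) = true from rfl, cond_true]
      rw [e5] at hG ⊢
      rw [e6]
      rcases hG with hG | hG
      · have h7 := H.h13b (m, T) hp' s
        dsimp only at h7
        exact h7 hP hG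
      · exfalso
        have h5 : ∀ p ∈ L13b, 13 ≤ TFn p.1 (fQ 1 0) := by decide
        have h6 := h5 _ hp'
        dsimp only at h6
        omega

/-- number of centres from the table -/
def sfc (k : ℕ) : ℕ :=
  bif Nat.ble (Nat.shiftRight sfS (4 * k) % 16) 14 then Nat.shiftRight sfS (4 * k) % 16 else 14

/-- number of centres for large `k` -/
def sfl (k : ℕ) : ℕ := bif Nat.ble 104980 k && Nat.ble k 105156 then 12 else 10

/-- number of centres -/
def sf (k : ℕ) : ℕ := bif Nat.blt k 8232 then sfc k else sfl k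

theorem sfc_le (k : ℕ) : sfc k ≤ 14 := by
  unfold sfc
  cases h : Nat.ble (Nat.shiftRight sfS (4 * k) % 16) 14
  · exact le_rfl
  · exact Nat.le_of_ble_eq_true h

theorem sfl_le (k : ℕ) : sfl k ≤ 12 := by
  unfold sfl
  cases Nat.ble 104980 k && Nat.ble k 105156
  · exact (by norm_num : (10 : ℕ) ≤ 12)
  · exact le_rfl

theorem sf_le (k : ℕ) : sf k ≤ 14 := by
  unfold sf
  cases Nat.blt k 8232
  · exact (sfl_le k).trans (by norm_num)
  · exact sfc_le k

/-- checks of a step, second part -/
def ckT (k K m a b T : ℕ) : Bool :=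
  Nat.ble (TFn m (fQ a b)) T && (Nat.ble T (TFn m (fQ a b) + m * fQ a b) &&
    ((!isR T) && (av K m a b T && (Nat.ble 5 T && (Nat.blt T k &&
      ((Nat.ble (gG m (twN a b) + sfc T) K ||
        Nat.ble (TFn m (fQ a b) + 1) K) &&
          Nat.ble (5 + qv K m (twN a b)) (sfc k)))))))

/-- checks of a step -/
def ckS (k K m a b : ℕ) : Bool :=
  isM m && (cop m a b && (Nat.ble b 2 && (Nat.ble (K * (m * fQ a b)) k &&
    ckT k K m a b (k - K * (m * fQ a b)))))

/-- decoding of a step -/
def ckD (k c : ℕ) : Bool := ckS k (c / 4096) (c / 32 % 128) (c / 4 % 8) (c % 4)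

/-- the step of `k` in the table -/
def ckW (k : ℕ) : Bool := ckD k (Nat.shiftRight witW (18 * k) % 262144)

theorem chk_low : allN (fun k => Nat.blt k 5 || (memN dirL k || (memN rawL k || ckW k))) 304 =
    true := by decide +kernel

theorem chk_high : allN (fun i => allN (fun j => Nat.ble 8232 (304 + 89 * i + j) ||
    ckW (304 + 89 * i + j)) 89) 90 = true := by
  decide +kernel

theorem ckW_of {k : ℕ} (h5 : 5 ≤ k) (hd : k ∉ dirL) (hr : k ∉ rawL) (hk : k < 8232) :
    ckW k = true := by
  by_cases h : k < 304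
  · have h1 := allN_spec chk_low k h
    rw [Bool.or_eq_true, Bool.or_eq_true, Bool.or_eq_true, memN_iff, memN_iff] at h1
    rcases h1 with h1 | h1 | h1 | h1
    · have : Nat.blt k 5 = false := by
        cases h2 : Nat.blt k 5
        · rfl
        · have h3 : k + 1 ≤ 5 := Nat.le_of_ble_eq_true h2
          omega
      rw [this] at h1
      exact absurd h1 (by decide)
    · exact absurd h1 hd
    · exact absurd h1 hr
    · exact h1
  · have h1 := allN_spec chk_high ((k - 304) / 89) (by omega)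
    have h2 := allN_spec h1 ((k - 304) % 89) (Nat.mod_lt _ (by norm_num))
    have h3 : 304 + 89 * ((k - 304) / 89) + (k - 304) % 89 = k := by omega
    rw [h3, Bool.or_eq_true] at h2
    rcases h2 with h2 | h2
    · have := Nat.le_of_ble_eq_true h2
      omega
    · exact h2

theorem fin_step (H : Bases) {k : ℕ} (h : ckW k = true) (hk : k < 8232)
    (ih : ∀ T < k, 5 ≤ T → T ∉ rawL → PT T (sf T)) : PT k (sf k) := by
  unfold ckW ckD at h
  generalize Nat.shiftRight witW (18 * k) % 262144 = c at h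
  generalize c / 4096 = K at h
  generalize c / 32 % 128 = m at h
  generalize c / 4 % 8 = a at h
  generalize c % 4 = b at h
  unfold ckS ckT at h
  simp only [Bool.and_eq_true] at h
  obtain ⟨h1, h2, h3, h4, h5, h6, h7, h8, h9, h10, h11, h12⟩ := h
  replace h1 := isM_spec h1
  have h3' := Nat.le_of_ble_eq_true h3
  have h4' := Nat.le_of_ble_eq_true h4
  have h5' := Nat.le_of_ble_eq_true h5
  have h6' := Nat.le_of_ble_eq_true h6
  have h9' := Nat.le_of_ble_eq_true h9
  have h10' : k - K * (m * fQ a b) + 1 ≤ k := Nat.le_of_ble_eq_true h10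
  have h12' := Nat.le_of_ble_eq_true h12
  have h7' : k - K * (m * fQ a b) ∉ rawL := by
    intro hc
    rw [isR_spec hc] at h7
    exact absurd h7 (by decide)
  set T := k - K * (m * fQ a b) with hT
  have hkT : K * (m * fQ a b) + T = k := by omega
  have hT1 : T < 8232 := by omega
  have e1 : sf T = sfc T := by
    unfold sf
    have : Nat.blt T 8232 = true := Nat.ble_eq_true_of_le hT1
    rw [this, cond_true]
  have e2 : sf k = sfc k := by
    unfold sf
    have : Nat.blt k 8232 = true := Nat.ble_eq_true_of_le hk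
    rw [this, cond_true]
  have hcop := coprime_of_cop h2
  have p1 := ih T (by omega) h9' h7' m h1 a b h3' hcop h5' h6'
  rw [e1] at p1
  have p2 := av_step H h8 h1 h3' hcop h5' h6' p1 (by
      rw [Bool.or_eq_true] at h11
      rcases h11 with h11 | h11
      · exact Or.inl (Nat.le_of_ble_eq_true h11)
      · exact Or.inr (Nat.le_of_ble_eq_true h11))
  rw [hkT] at p2
  rw [e2]
  exact p2.mono h12'

/-! ### Large `k` -/

/-- conditions on an interval -/
def okc (a b m K : ℕ) : Bool :=
  isM m && ((!Nat.beq (m % 17) 0) && (cop m a b && (Nat.ble b 2 &&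
    ((isB K m || isA K m) && (Nat.ble 10 K && Nat.ble 168 (m * fQ a b))))))

theorem chk_s12 : allN (fun i => allN (fun j => Nat.ble (sfc (98 * i + j)) 12 ||
    (Nat.ble 2631 (98 * i + j) && Nat.ble (98 * i + j) 2644) || Nat.blt (98 * i + j) 5 ||
    memN rawL (98 * i + j)) 98) 84 = true := by
  decide +kernel

theorem chk_s10 : allN (fun i => Nat.ble (sfc (7479 + i)) 10) 753 = true := by decide +kernel

theorem blt_false {a b : ℕ} (h : b ≤ a) : Nat.blt a b = false := by
  cases h' : Nat.blt a b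
  · rfl
  · have h3 : a + 1 ≤ b := Nat.le_of_ble_eq_true h'
    omega

theorem ble_false {a b : ℕ} (h : b < a) : Nat.ble a b = false := by
  cases h' : Nat.ble a b
  · rfl
  · have h3 := Nat.le_of_ble_eq_true h'
    omega

theorem sf_large {k : ℕ} (h : 8232 ≤ k) : sf k = sfl k := by
  unfold sf
  rw [blt_false h, cond_false]

theorem sfl_10 {k : ℕ} (h : k < 104980 ∨ 105156 < k) : sfl k = 10 := by
  unfold sfl
  rcases h with h | h
  · rw [ble_false h, Bool.false_and, cond_false]
  · rw [ble_false h, Bool.and_false, cond_false]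

theorem sf_le12 {k : ℕ} (h5 : 5 ≤ k) (hr : k ∉ rawL) (h : k < 2631 ∨ 2644 < k) : sf k ≤ 12 := by
  by_cases hk : k < 8232
  · unfold sf
    have : Nat.blt k 8232 = true := Nat.ble_eq_true_of_le hk
    rw [this, cond_true]
    have h1 := allN_spec chk_s12 (k / 98) (by omega)
    have h2 := allN_spec h1 (k % 98) (Nat.mod_lt _ (by norm_num))
    have h3 : 98 * (k / 98) + k % 98 = k := by omega
    rw [h3, Bool.or_eq_true, Bool.or_eq_true, Bool.or_eq_true, Bool.and_eq_true, memN_iff] at h2
    rcases h2 with ((h2 | h2) | h2) | h2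
    · exact Nat.le_of_ble_eq_true h2
    · have := Nat.le_of_ble_eq_true h2.1
      have := Nat.le_of_ble_eq_true h2.2
      omega
    · have : k + 1 ≤ 5 := Nat.le_of_ble_eq_true h2
      omega
    · exact absurd h2 hr
  · rw [sf_large (by omega)]
    exact sfl_le k

theorem sf_le10 {k : ℕ} (h : 7479 ≤ k) (h' : k < 104980 ∨ 105156 < k) : sf k ≤ 10 := by
  by_cases hk : k < 8232
  · unfold sf
    have : Nat.blt k 8232 = true := Nat.ble_eq_true_of_le hk
    rw [this, cond_true]
    have h2 := allN_spec chk_s10 (k - 7479) (by omega)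
    have h3 : 7479 + (k - 7479) = k := by omega
    rw [h3] at h2
    exact Nat.le_of_ble_eq_true h2
  · rw [sf_large (by omega), sfl_10 h']

theorem raw_lt : ∀ T ∈ rawL, T < 304 := by decide

theorem raw_168 : ∀ T ∈ rawL, 168 ≤ T → T = 302 ∨ T = 303 := by decide

theorem fQ_scale (n a b : ℕ) : fQ (n + a) b = 17 ^ n * fQ a b := by
  unfold fQ
  rw [pow_add]
  ring

theorem M_scale (n a b m : ℕ) : m * fQ (n + a) b = 17 ^ n * (m * fQ a b) := by
  rw [fQ_scale]
  ring

/-- one step for large `k` -/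
theorem okc_step (H : Bases) {k n a b m K : ℕ} (hk : 8232 ≤ k)
    (ih : ∀ T < k, 5 ≤ T → T ∉ rawL → PT T (sf T)) (g : okc a b m K = true)
    (g6 : lE (n + a) b m K ≤ 4 * k + 1) (g7 : 4 * k + 1 ≤ rE (n + a) b m K)
    (hr : ∀ T, k = K * (m * fQ (n + a) b) + T → m * fQ (n + a) b ≤ T → T ≠ 302 ∧ T ≠ 303)
    (hs : ∀ T, k = K * (m * fQ (n + a) b) + T → m * fQ (n + a) b ≤ T → T ∉ rawL →
      gG m true + sf T ≤ K) (hres : 5 + qv K m true ≤ sf k) :
    PT k (sf k) := by
  unfold okc at g
  simp only [Bool.and_eq_true] at g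
  obtain ⟨c1, c2, c3, c4, c5, c6, c8⟩ := g
  replace c1 := isM_spec c1
  have hm17 : m % 17 ≠ 0 := nbeq_false c2
  have hcop : cop m (n + a) b = true := by
    unfold cop at c3 ⊢
    rw [Bool.and_eq_true, Bool.or_eq_true, Bool.or_eq_true, decide_eq_true_eq, decide_eq_true_eq,
      decide_eq_true_eq, decide_eq_true_eq] at c3 ⊢
    exact ⟨Or.inr hm17, c3.2⟩
  obtain ⟨T, t1, t2, t3⟩ := reach_of_interval g6 g7
  have hMM : m * fQ a b ≤ m * fQ (n + a) b := by
    rw [M_scale]
    have h4 : 1 ≤ 17 ^ n := Nat.one_le_pow _ _ (by norm_num)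
    calc m * fQ a b = 1 * (m * fQ a b) := (one_mul _).symm
      _ ≤ 17 ^ n * (m * fQ a b) := Nat.mul_le_mul_right _ h4
  have hMT : m * fQ (n + a) b ≤ T := le_trans (Nat.le_add_right _ _) t2
  have hM : 168 ≤ m * fQ (n + a) b := (Nat.le_of_ble_eq_true c8).trans hMM
  have hgt : ∀ m ∈ msL, ∀ tw : Bool, gG m tw ≤ gG m true := by decide
  have hqt : ∀ m ∈ msL, ∀ K, ∀ tw : Bool, qv K m tw ≤ qv K m true := by
    intro m hm K tw
    unfold qv
    have e5 : ∀ m ∈ msL, ∀ tw : Bool, gC m tw ≤ gC m true := by decide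
    cases (Nat.ble K 17 || Nat.beq K 21)
    · exact e5 m hm tw
    · exact hgt m hm tw
  have hraw : T ∉ rawL := by
    intro h
    have h1 := raw_168 T h (by omega)
    have h2 := hr T t1 hMT
    rcases h1 with h1 | h1
    · exact h2.1 h1
    · exact h2.2 h1
  have hTk : T < k := by
    have hK := Nat.le_of_ble_eq_true c6
    have h5 : 1 * 1 ≤ K * (m * fQ (n + a) b) := Nat.mul_le_mul (by omega) (by omega)
    omega
  have p1 := ih T hTk (by omega) hraw m c1 (n + a) b (Nat.le_of_ble_eq_true c4)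
    (coprime_of_cop hcop) t2 t3
  have hav : av K m (n + a) b T = true := by
    unfold av
    rw [Bool.or_eq_true, Bool.or_eq_true]
    rw [Bool.or_eq_true] at c5
    rcases c5 with h | h
    · exact Or.inl h
    · exact Or.inr (Or.inl h)
  have p2 := av_step H hav c1 (Nat.le_of_ble_eq_true c4) (coprime_of_cop hcop) t2 t3 p1
    (Or.inl (by
      have := hgt m c1 (twN (n + a) b)
      have := hs T t1 hMT hraw
      omega))
  rw [← t1] at p2
  exact p2.mono (by
    have := hqt m c1 K (twN (n + a) b)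
    omega)

/-- the row condition for `lo ≤ T ≤ hi` -/
def cG (m K lo hi : ℕ) : Bool :=
  Nat.ble (gG m true + 14) K || ((Nat.ble (gG m true + 12) K &&
    (Nat.blt hi 2631 || Nat.blt 2644 lo)) ||
    (Nat.ble (gG m true + 10) K && (Nat.ble 7479 lo && Nat.blt hi 104980)))

theorem cG_spec {m K lo hi T : ℕ} (h : cG m K lo hi = true) (h1 : lo ≤ T) (h2 : T ≤ hi)
    (h5 : 5 ≤ T) (hr : T ∉ rawL) : gG m true + sf T ≤ K := by
  unfold cG at h
  rw [Bool.or_eq_true, Bool.or_eq_true, Bool.and_eq_true, Bool.and_eq_true, Bool.and_eq_true,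
    Bool.or_eq_true] at h
  rcases h with h | ⟨h, h'⟩ | ⟨h, h', h''⟩
  · have := Nat.le_of_ble_eq_true h
    have := sf_le T
    omega
  · have := Nat.le_of_ble_eq_true h
    have := sf_le12 h5 hr (by
      rcases h' with h' | h'
      · have : hi + 1 ≤ 2631 := Nat.le_of_ble_eq_true h'
        omega
      · have : 2644 + 1 ≤ lo := Nat.le_of_ble_eq_true h'
        omega)
    omega
  · have := Nat.le_of_ble_eq_true h
    have := Nat.le_of_ble_eq_true h'
    have : hi + 1 ≤ 104980 := Nat.le_of_ble_eq_true h''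
    have := sf_le10 (k := T) (by omega) (Or.inl (by omega))
    omega

/-- the result condition for `lo ≤ k ≤ hi` -/
def cR (m K lo hi : ℕ) : Bool :=
  Nat.ble (5 + qv K m true) 10 ||
    (Nat.ble (5 + qv K m true) 12 && (Nat.ble 104980 lo && Nat.ble hi 105156))

theorem cR_spec {m K lo hi k : ℕ} (h : cR m K lo hi = true) (h1 : lo ≤ k) (h2 : k ≤ hi)
    (h8 : 8232 ≤ k) : 5 + qv K m true ≤ sf k := by
  rw [sf_large h8]
  unfold cR at h
  rw [Bool.or_eq_true, Bool.and_eq_true, Bool.and_eq_true] at h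
  rcases h with h | ⟨h, h', h''⟩
  · refine (Nat.le_of_ble_eq_true h).trans ?_
    unfold sfl
    cases Nat.ble 104980 k && Nat.ble k 105156
    · exact le_rfl
    · exact (by norm_num : (10 : ℕ) ≤ 12)
  · have e1 := Nat.le_of_ble_eq_true h'
    have e2 := Nat.le_of_ble_eq_true h''
    refine (Nat.le_of_ble_eq_true h).trans ?_
    unfold sfl
    rw [Nat.ble_eq_true_of_le (e1.trans h1), Nat.ble_eq_true_of_le (h2.trans e2), Bool.true_and,
      cond_true]

/-- the segments -/
def sg5 : ℕ → List (ℕ × ℕ × ℕ × ℕ × ℕ) → ℕ → Bool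
  | cur, [], goal => Nat.ble goal cur
  | cur, (a, b, m, K, hi) :: l, goal => okc a b m K && (Nat.ble (lE a b m K) (4 * cur + 1) &&
      (Nat.ble (4 * hi + 1) (rE a b m K) && (Nat.ble cur hi &&
      ((Nat.blt (hi - K * (m * fQ a b)) 302 || Nat.blt 303 (cur - K * (m * fQ a b))) &&
      (cG m K (cur - K * (m * fQ a b)) (hi - K * (m * fQ a b)) && (cR m K cur hi &&
        sg5 (hi + 1) l goal))))))

theorem chk_seg : sg5 8232 sgL 119107 = true := by decide +kernel

theorem seg_step (H : Bases) {k : ℕ} (h8 : 8232 ≤ k)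
    (ih : ∀ T < k, 5 ≤ T → T ∉ rawL → PT T (sf T)) :
    ∀ (l : List (ℕ × ℕ × ℕ × ℕ × ℕ)) (cur goal : ℕ), sg5 cur l goal = true → cur ≤ k →
      k < goal → PT k (sf k) := by
  intro l
  induction l with
  | nil =>
    intro cur goal h h1 h2
    have h3 : goal ≤ cur := Nat.le_of_ble_eq_true h
    omega
  | cons x l ihl =>
    obtain ⟨a, b, m, K, hi⟩ := x
    intro cur goal h h1 h2
    unfold sg5 at h
    rw [Bool.and_eq_true, Bool.and_eq_true, Bool.and_eq_true, Bool.and_eq_true, Bool.and_eq_true,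
      Bool.and_eq_true, Bool.and_eq_true, Bool.or_eq_true] at h
    obtain ⟨g1, g2, g3, g4, g5, g7, g8, g6⟩ := h
    by_cases h4 : k ≤ hi
    · have e2 := Nat.le_of_ble_eq_true g2
      have e3 := Nat.le_of_ble_eq_true g3
      have hM : 168 ≤ m * fQ a b := by
        unfold okc at g1
        simp only [Bool.and_eq_true] at g1
        exact Nat.le_of_ble_eq_true g1.2.2.2.2.2.2
      refine okc_step H (n := 0) h8 ih g1 (by rw [Nat.zero_add]; omega)
        (by rw [Nat.zero_add]; omega) ?_ ?_ (cR_spec g8 h1 h4 h8)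
      · intro T hT _
        rw [Nat.zero_add] at hT
        rcases g5 with g5 | g5
        · have : hi - K * (m * fQ a b) + 1 ≤ 302 := Nat.le_of_ble_eq_true g5
          omega
        · have : 303 + 1 ≤ cur - K * (m * fQ a b) := Nat.le_of_ble_eq_true g5
          omega
      · intro T hT hMT hr
        rw [Nat.zero_add] at hT hMT
        exact cG_spec g7 (by omega) (by omega) (by omega) hr
    · exact ihl (hi + 1) goal g6 (by omega) h2

/-- the row condition for `T ≥ M` -/
def cH (m K M : ℕ) : Bool :=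
  Nat.ble (gG m true + 14) K || ((Nat.ble (gG m true + 12) K && Nat.ble 2645 M) ||
    (Nat.ble (gG m true + 10) K && Nat.ble 105157 M))

theorem cH_spec {m K M T : ℕ} (h : cH m K M = true) (h1 : M ≤ T) (h5 : 5 ≤ T)
    (hr : T ∉ rawL) : gG m true + sf T ≤ K := by
  unfold cH at h
  rw [Bool.or_eq_true, Bool.or_eq_true, Bool.and_eq_true, Bool.and_eq_true] at h
  rcases h with h | ⟨h, h'⟩ | ⟨h, h'⟩
  · have := Nat.le_of_ble_eq_true h
    have := sf_le T
    omega
  · have := Nat.le_of_ble_eq_true h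
    have := Nat.le_of_ble_eq_true h'
    have := sf_le12 h5 hr (Or.inr (by omega))
    omega
  · have := Nat.le_of_ble_eq_true h
    have := Nat.le_of_ble_eq_true h'
    have := sf_le10 (k := T) (by omega) (Or.inr (by omega))
    omega

/-- the chain -/
def ch4 : ℕ → List (ℕ × ℕ × ℕ × ℕ) → ℕ → Bool
  | cur, [], goal => Nat.ble goal cur
  | cur, (a, b, m, K) :: l, goal => Nat.ble (lE a b m K) cur && ((okc a b m K &&
      (Nat.ble 304 (m * fQ a b) && (cH m K (m * fQ a b) && Nat.ble (5 + qv K m true) 10))) &&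
        ch4 (rE a b m K) l goal)

theorem exists_of_ch4 : ∀ (l : List (ℕ × ℕ × ℕ × ℕ)) (cur goal c y : ℕ),
    ch4 cur l goal = true → c * cur ≤ y → y < c * goal →
    ∃ a b m K, (okc a b m K && (Nat.ble 304 (m * fQ a b) && (cH m K (m * fQ a b) &&
      Nat.ble (5 + qv K m true) 10))) = true ∧ c * lE a b m K ≤ y ∧
      y ≤ c * rE a b m K := by
  intro l
  induction l with
  | nil =>
    intro cur goal c y h h1 h2
    have h3 : goal ≤ cur := Nat.le_of_ble_eq_true h
    exact absurd (Nat.mul_le_mul_left c h3) (by omega)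
  | cons x l ih =>
    obtain ⟨a, b, m, K⟩ := x
    intro cur goal c y h h1 h2
    unfold ch4 at h
    rw [Bool.and_eq_true, Bool.and_eq_true] at h
    obtain ⟨g1, g2, g3⟩ := h
    by_cases h4 : y ≤ c * rE a b m K
    · exact ⟨a, b, m, K, g2, (Nat.mul_le_mul_left c (Nat.le_of_ble_eq_true g1)).trans h1, h4⟩
    · exact ih _ goal c y g3 (by omega) h2

theorem chk_chain : ch4 476429 chL (17 * 476429) = true := by decide +kernel

theorem inf_step (H : Bases) {k : ℕ} (hk : 119107 ≤ k)
    (ih : ∀ T < k, 5 ≤ T → T ∉ rawL → PT T (sf T)) : PT k (sf k) := by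
  obtain ⟨n, h1, h2⟩ := exists_scale17 476429 (4 * k + 1) (by norm_num) (by omega)
  obtain ⟨a, b, m, K, g, g6, g7⟩ :=
    exists_of_ch4 chL 476429 (17 * 476429) (17 ^ n) (4 * k + 1) chk_chain h1 h2
  rw [Bool.and_eq_true, Bool.and_eq_true, Bool.and_eq_true] at g
  obtain ⟨g, g', g'', g3⟩ := g
  have e1 : 17 ^ n * lE a b m K = lE (n + a) b m K := by
    unfold lE
    rw [fQ_scale]
    ring
  have e2 : 17 ^ n * rE a b m K = rE (n + a) b m K := by
    unfold rE
    rw [fQ_scale]
    ring
  rw [e1] at g6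
  rw [e2] at g7
  have h4 : 1 ≤ 17 ^ n := Nat.one_le_pow _ _ (by norm_num)
  have h5 : m * fQ a b ≤ m * fQ (n + a) b := by
    rw [M_scale]
    calc m * fQ a b = 1 * (m * fQ a b) := (one_mul _).symm
      _ ≤ 17 ^ n * (m * fQ a b) := Nat.mul_le_mul_right _ h4
  have h6 := Nat.le_of_ble_eq_true g'
  refine okc_step H (by omega) ih g g6 g7 ?_ ?_ ?_
  · intro T _ hT
    omega
  · intro T _ hT hr
    exact cH_spec g'' (by omega) (by omega) hr
  · rw [sf_large (by omega), sfl_10 (Or.inr (by omega))]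
    exact Nat.le_of_ble_eq_true g3

theorem dir_ge : ∀ k ∈ dirL, 4 ≤ sf k := by decide +kernel

/-- **All words at all sizes.** -/
theorem pt_all (H : Bases) (Hd : ∀ T ∈ dirL, PT T 4) (k : ℕ) :
    5 ≤ k → k ∉ rawL → PT k (sf k) := by
  induction k using Nat.strong_induction_on with
  | _ k ih =>
    intro h5 hr
    by_cases hk : k < 8232
    · by_cases hd : k ∈ dirL
      · exact (Hd k hd).mono (dir_ge k hd)
      · exact fin_step H (ckW_of h5 hd hr hk) hk ih
    · by_cases hk2 : k < 119107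
      · exact seg_step H (by omega) ih sgL 8232 119107 chk_seg (by omega) hk2
      · exact inf_step H (by omega) ih

end SqIns
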