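import Pool.Agent.Lib.SqIns.ChiF
import Pool.Agent.Lib.SqIns.B13

/-!
# Tables of words for the base with 13 rows
-/

namespace SqIns

open BX

/-- words in 5 rows -/
def ta13_6 : TE where
  t := mkChi 351861840281604
    1126449668948672
    351861571846148
    1172079395211908 0 7 6 5 0
    163711410600442471725728840696170565716006066147688701967884312610968046180089687428543390921879868458065
  jT := 30
  dT := true
  i0 := 0

theorem ta13_6_ok : ta13_6.OkF b13 6 :=
  TE.okF_of b13_chk (by decide +kernel)

/-- words in 6 rows -/
def ta13_7 : TE where
  t := mkChi 2550888455471616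
    9895672414352
    2269413478760960
    1172079395211908 11 7 6 6 0
    2599649289927712758704591224175814163306832273701947569618251160820273530458545761677860069250725890
  jT := 46
  dT := true
  i0 := 0

theorem ta13_7_ok : ta13_7.OkF b13 7 :=
  TE.okF_of b13_chk (by decide +kernel)

/-- words in 7 rows -/
def ta13_8 : TE where
  t := mkChi 190320738563
    853223174834336
    188978561283
    1172079395211908 5 8 6 7 0
    41288638270073905397264727996235124021961459373835809772719948994313342244833279480717498343497924760
  jT := 15
  dT := false
  i0 := 0

theorem ta13_8_ok : ta13_8.OkF b13 8 :=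
  TE.okF_of b13_chk (by decide +kernel)

/-- words in 8 rows -/
def ta13_9 : TE where
  t := mkChi 74513396137984
    1970393558876320
    71214852866048
    1172079395211908 10 9 6 8 0
    39507216236795403600406252973374298377150590004599467859616293967681880977048241736630775064754652176
  jT := 38
  dT := true
  i0 := 0

theorem ta13_9_ok : ta13_9.OkF b13 9 :=
  TE.okF_of b13_chk (by decide +kernel)

/-- words in 9 rows -/
def ta13_10 : TE where
  t := mkChi 2692175699644928
    9896209285528
    2269413474570752
    1172079395211908 4 10 6 9 0
    2597360508642649454448026618111892680833764404353355873026204632850478048269764769048777209042466818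
  jT := 46
  dT := true
  i0 := 0

theorem ta13_10_ok : ta13_10.OkF b13 10 :=
  TE.okF_of b13_chk (by decide +kernel)

/-- words in 10 rows -/
def ta13_11 : TE where
  t := mkChi 2357380981655560
    2115495000023744
    2357378699757568
    1172079395211908 7 11 6 10 0
    36636449660485811674498242165386357067507821728070121528378750779910105741611577215797016877804343298
  jT := 30
  dT := true
  i0 := 0

theorem ta13_11_ok : ta13_11.OkF b13 11 :=
  TE.okF_of b13_chk (by decide +kernel)

/-- words in 11 rows -/
def ta13_12 : TE where
  t := mkChi 3949465715097856
    247433066193552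
    1697665347747840
    1172079395211908 2 11 6 11 0
    2462812347730838337251260643144818591872960611152488401952180505510210298253079839936232795567816848
  jT := 48
  dT := false
  i0 := 0

theorem ta13_12_ok : ta13_12.OkF b13 12 :=
  TE.okF_of b13_chk (by decide +kernel)

/-- words in 12 rows -/
def ta13_13 : TE where
  t := mkChi 352412838271000
    1130311926710914
    282041946603520
    1172079395211908 6 12 6 12 0
    38140184796551771316275747693532637405511104769140876615254315747069111686420713450014678166741712988
  jT := 37
  dT := true
  i0 := 0

theorem ta13_13_ok : ta13_13.OkF b13 13 :=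
  TE.okF_of b13_chk (by decide +kernel)

/-- all tables -/
def ta13 (e : ℕ) : TE :=
  match e with
  | 7 => ta13_7
  | 8 => ta13_8
  | 9 => ta13_9
  | 10 => ta13_10
  | 11 => ta13_11
  | 12 => ta13_12
  | 13 => ta13_13
  | _ => ta13_6

theorem ta13_ok : ∀ e, (b13.k - 1) / 2 ≤ e → e ≤ b13.k → (ta13 e).OkF b13 e := by
  intro e h1 h2
  have h3 : 6 ≤ e := h1
  have h4 : e ≤ 13 := h2
  interval_cases e
  · exact ta13_6_ok
  · exact ta13_7_ok
  · exact ta13_8_ok
  · exact ta13_9_ok
  · exact ta13_10_ok
  · exact ta13_11_ok
  · exact ta13_12_ok
  · exact ta13_13_ok

end SqIns
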