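import Pool.Agent.Lib.SqIns.Wrap
import Pool.Agent.Lib.SqIns.Recur1
import Pool.Agent.Lib.SqIns.TA13
import Pool.Agent.Lib.SqIns.TA15
import Pool.Agent.Lib.SqIns.TA17
import Pool.Agent.Lib.SqIns.TA21
import Pool.Agent.Lib.SqIns.TB19
import Pool.Agent.Lib.SqIns.TB23
import Pool.Agent.Lib.SqIns.TB25
import Pool.Agent.Lib.SqIns.TB27
import Pool.Agent.Lib.SqIns.TB29
import Pool.Agent.Lib.SqIns.TB31
import Pool.Agent.Lib.SqIns.TB33
import Pool.Agent.Lib.SqIns.TB35
import Pool.Agent.Lib.SqIns.TB37
import Pool.Agent.Lib.SqIns.TB39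
import Pool.Agent.Lib.SqIns.TB41
import Pool.Agent.Lib.SqIns.TB43
import Pool.Agent.Lib.SqIns.TB45
import Pool.Agent.Lib.SqIns.TB47

/-!
# The steps of all bases
-/

namespace SqIns

theorem steps13 : Steps13 :=
  steps13_of rfl b13_chk b13_fn ta13_ok (by decide +kernel)

theorem steps13b : Steps13b :=
  steps13b_of rfl b13_chk b13_fn ta13_ok (by decide +kernel)

theorem stepsA15 : StepsA 15 [41, 97] :=
  stepsA_of b15_chk b15_fn ta15_ok (gap_small (by decide +kernel))

theorem stepsA17 : StepsA 17 [29] :=
  stepsA_of b17_chk b17_fn ta17_ok (gap_small (by decide +kernel))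

theorem stepsA21 : StepsA 21 [] :=
  stepsA_of b21_chk b21_fn ta21_ok fun _ _ _ => gap_large (by decide) _

theorem stepsB19 : StepsB 19 [29, 67] :=
  stepsB_of b19_chk b19_fn te19_ok (gap_small (by decide +kernel))

theorem stepsB23 : StepsB 23 [] :=
  stepsB_of b23_chk b23_fn te23_ok fun _ _ _ => gap_large (by decide) _

theorem stepsB25 : StepsB 25 [] :=
  stepsB_of b25_chk b25_fn te25_ok fun _ _ _ => gap_large (by decide) _

theorem stepsB27 : StepsB 27 [] :=
  stepsB_of b27_chk b27_fn te27_ok fun _ _ _ => gap_large (by decide) _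

theorem stepsB29 : StepsB 29 [] :=
  stepsB_of b29_chk b29_fn te29_ok fun _ _ _ => gap_large (by decide) _

theorem stepsB31 : StepsB 31 [] :=
  stepsB_of b31_chk b31_fn te31_ok fun _ _ _ => gap_large (by decide) _

theorem stepsB33 : StepsB 33 [] :=
  stepsB_of b33_chk b33_fn te33_ok fun _ _ _ => gap_large (by decide) _

theorem stepsB35 : StepsB 35 [] :=
  stepsB_of b35_chk b35_fn te35_ok fun _ _ _ => gap_large (by decide) _

theorem stepsB37 : StepsB 37 [] :=
  stepsB_of b37_chk b37_fn te37_ok fun _ _ _ => gap_large (by decide) _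

theorem stepsB39 : StepsB 39 [] :=
  stepsB_of b39_chk b39_fn te39_ok fun _ _ _ => gap_large (by decide) _

theorem stepsB41 : StepsB 41 [] :=
  stepsB_of b41_chk b41_fn te41_ok fun _ _ _ => gap_large (by decide) _

theorem stepsB43 : StepsB 43 [] :=
  stepsB_of b43_chk b43_fn te43_ok fun _ _ _ => gap_large (by decide) _

theorem stepsB45 : StepsB 45 [] :=
  stepsB_of b45_chk b45_fn te45_ok fun _ _ _ => gap_large (by decide) _

theorem stepsB47 : StepsB 47 [] :=
  stepsB_of b47_chk b47_fn te47_ok fun _ _ _ => gap_large (by decide) _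

/-- **The steps of all bases.** -/
theorem bases : Bases where
  h13 := steps13
  h13b := steps13b
  hA := by
    intro p hp
    simp only [exA, List.mem_cons, List.not_mem_nil, or_false] at hp
    rcases hp with rfl | rfl | rfl
    · exact stepsA15
    · exact stepsA17
    · exact stepsA21
  hB := by
    intro p hp
    simp only [exB, List.mem_cons, List.not_mem_nil, or_false] at hp
    rcases hp with rfl | rfl | rfl | rfl | rfl | rfl | rfl | rfl | rfl | rfl | rfl | rfl | rfl | rfl
    · exact stepsB19
    · exact stepsB23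
    · exact stepsB25
    · exact stepsB27
    · exact stepsB29
    · exact stepsB31
    · exact stepsB33
    · exact stepsB35
    · exact stepsB37
    · exact stepsB39
    · exact stepsB41
    · exact stepsB43
    · exact stepsB45
    · exact stepsB47

end SqIns
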