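import Pool.Agent.Lib.SqIns.FinalA
import Pool.Agent.Lib.SqIns.Recur2
import Pool.Agent.Lib.SqIns.StepsK
import Pool.Agent.Lib.SqIns.RawAll

/-!
# The full statement
-/

namespace SqIns

/-- every size `4k+1` except `9` -/
theorem all_k (k : ℕ) (h0 : 0 < k) (h2 : k ≠ 2) : SqCyc.Decomposes (4 * k + 1) :=
  all_k_of bases raw_all raw_302 k h0 h2

/-- every `n ≡ 1 (mod 4)` except `9` -/
theorem full (n : ℕ) (hn : n % 4 = 1) (h9 : n ≠ 9) : SqCyc.Decomposes n :=
  all_n all_k n hn h9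

end SqIns
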