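import Pool.Agent.Lib.SqIns.StripTw3

/-!
# The blow up of a closed square by `ZMod q`: one fine digit

For a closed square `s` on `X` with `4 ∣ card X` the blow up `s[K_q]` is a sum of closed squares:
the `q` translates of one word of period one and `r` lifts of `s`, whose steps run through the `r`
classes `cy` which are not used by the word: `f i x = cy (i + h x)` with `h (s x) = h x ± 1`.
-/

open Finset Equiv

namespace SqIns

namespace Fine1

open Tw

/-! ### Ring coordinates of a closed square -/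

section RingX

variable {X : Type*} [Fintype X] [DecidableEq X] {s : Perm X} {N : ℕ} [NeZero N]

/-- ring coordinates -/
noncomputable def rg (hs : Closed s) (hc : Fintype.card X = N) (x0 : X) : ZMod N ≃ X :=
  Equiv.ofBijective (fun c : ZMod N => (s ^ c.val) x0) <| by
    rw [Fintype.bijective_iff_injective_and_card]
    refine ⟨fun a b hab => ?_, by rw [ZMod.card, hc]⟩
    have key : ∀ a b : ZMod N, a.val < b.val → (s ^ a.val) x0 ≠ (s ^ b.val) x0 := by
      intro a b hlt h
      have h1 : (s ^ (b.val - a.val)) ((s ^ a.val) x0) = (s ^ a.val) x0 := by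
        rw [← Perm.mul_apply, ← pow_add, Nat.sub_add_cancel hlt.le, ← h]
      have hb := ZMod.val_lt b
      exact hs.pow_ne _ (by omega) (by omega) h1
    rcases lt_trichotomy a.val b.val with h | h | h
    · exact absurd hab (key a b h)
    · exact ZMod.val_injective N h
    · exact absurd hab.symm (key b a h)

omit [DecidableEq X] in
theorem rg_apply (hs : Closed s) (hc : Fintype.card X = N) (x0 : X) (c : ZMod N) :
    rg hs hc x0 c = (s ^ c.val) x0 := rfl

omit [DecidableEq X] in
theorem rg_add_one (hs : Closed s) (hc : Fintype.card X = N) (x0 : X) (c : ZMod N) :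
    rg hs hc x0 (c + 1) = s (rg hs hc x0 c) := by
  rw [rg_apply, rg_apply, ← Perm.mul_apply, ← pow_succ']
  have h1 := val_add_nat c 1
  push_cast at h1
  rw [h1]
  have hlt := ZMod.val_lt c
  by_cases h : c.val + 1 < N
  · rw [Nat.mod_eq_of_lt h]
  · have h2 : c.val + 1 = N := by omega
    rw [h2, Nat.mod_self, pow_zero, ← hc, hs.pow_card]
    rfl

omit [DecidableEq X] in
theorem rg_add_nat (hs : Closed s) (hc : Fintype.card X = N) (x0 : X) (c : ZMod N) (n : ℕ) :
    rg hs hc x0 (c + n) = (s ^ n) (rg hs hc x0 c) := by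
  induction n with
  | zero => simp
  | succ n ih =>
    rw [Nat.cast_succ, ← add_assoc, rg_add_one, ih, ← Perm.mul_apply, ← pow_succ']

omit [DecidableEq X] in
theorem rg_add_int (hs : Closed s) (hc : Fintype.card X = N) (x0 : X) (c : ZMod N) (n : ℤ) :
    rg hs hc x0 (c + (n : ZMod N)) = (s ^ n) (rg hs hc x0 c) := by
  obtain ⟨k, rfl | rfl⟩ := n.eq_nat_or_neg
  · rw [zpow_natCast]
    push_cast
    exact rg_add_nat hs hc x0 c k
  · rw [zpow_neg, zpow_natCast, eq_comm, Perm.inv_eq_iff_eq, ← rg_add_nat]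
    congr 1
    push_cast
    ring

end RingX

/-! ### Sums of classes -/

section Classes

variable {X : Type*} [DecidableEq X] {q : ℕ} [NeZero q]

theorem sum_clsE (x y : X) : ∑ δ : ZMod q, Row.clsE x y δ = ∑ u : ZMod q, ∑ v : ZMod q,
    pr (x, u) (y, v) := by
  unfold Row.clsE
  rw [sum_comm]
  refine sum_congr rfl fun u _ => ?_
  exact Equiv.sum_comp (Equiv.addLeft u) fun v => pr (x, u) (y, v)

variable [Fintype X]

theorem blow_E (s : Perm X) (h1 : ∀ x, s x ≠ x) (h2 : ∀ x, s (s x) ≠ x) :
    blow (ZMod q) (E s) = ∑ x, (∑ δ : ZMod q, Row.clsE x (s x) δ +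
      ∑ δ : ZMod q, Row.clsE x (s (s x)) δ) := by
  unfold E
  rw [blow_sum]
  refine sum_congr rfl fun x _ => ?_
  rw [blow_add, blow_pr (h1 x).symm, blow_pr (h2 x).symm, sum_clsE, sum_clsE]

theorem E_lift_clsE (s : Perm X) (f : X → ZMod q) : E (lift s f) =
    ∑ x, (Row.clsE x (s x) (f x) + Row.clsE x (s (s x)) (f x + f (s x))) := by
  rw [E_lift]
  refine sum_congr rfl fun x _ => ?_
  rw [sum_add_distrib]
  rfl

theorem push_vertAll_prod {X' : Type*} [DecidableEq X'] (e : X ≃ X') :
    push (e.prodCongr (Equiv.refl (ZMod q))) (vertAll X (ZMod q)) = vertAll X' (ZMod q) := by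
  funext a
  obtain ⟨a', rfl⟩ : ∃ a', Sym2.map (e.prodCongr (Equiv.refl (ZMod q))) a' = a :=
    ⟨Sym2.map (e.prodCongr (Equiv.refl (ZMod q))).symm a, by
      have h1 : (e.prodCongr (Equiv.refl (ZMod q))) ∘ (e.prodCongr (Equiv.refl (ZMod q))).symm = id := by
        funext u
        exact Equiv.apply_symm_apply _ u
      rw [Sym2.map_map, h1, Sym2.map_id]
      rfl⟩
  rw [push_apply (Equiv.injective _)]
  induction a' with
  | _ u v =>
    obtain ⟨x, y⟩ := u
    obtain ⟨x', y'⟩ := v
    simp [vertAll]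

theorem push_clsE_prod {X' : Type*} [DecidableEq X'] (e : X ≃ X') (x y : X) (δ : ZMod q) :
    push (e.prodCongr (Equiv.refl (ZMod q))) (Row.clsE x y δ) = Row.clsE (e x) (e y) δ := by
  unfold Row.clsE
  rw [push_sum]
  refine sum_congr rfl fun u _ => ?_
  rw [push_pr (Equiv.injective _)]
  rfl

end Classes

/-! ### The translates -/

/-- the wanted edge types -/
def tgF (q : ℕ) (C1 C2 : List ℕ) : List ℕ :=
  ((List.range ((q - 1) / 2)).map fun d => (0 * 1 + 0) * q + (d + 1)) ++
    ((C1.map fun k => (1 * 1 + 0) * q + k) ++ C2.map fun k => (2 * 1 + 0) * q + k)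

/-- the check of the word -/
def chkF (q : ℕ) (W : TWord) (C1 C2 : List ℕ) : Bool :=
  okT q 1 W && (samePerm (codesT q 1 1 W) (tgF q C1 C2) &&
    ((C1.all fun k => decide (k < q)) && C2.all fun k => decide (k < q)))

theorem hε1 : (1 : ℤ) * 1 = 1 := by norm_num

theorem chkF_ok {q : ℕ} {W : TWord} {C1 C2 : List ℕ} (h : chkF q W C1 C2 = true) :
    okT q 1 W = true := by
  simp only [chkF, Bool.and_eq_true] at h
  exact h.1

section Tr

variable {q B : ℕ} [NeZero q] [NeZero B]

omit [NeZero B] in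
theorem Gc_one (Δ : ℤ) (D : ZMod q) (c : ZMod (1 * B)) :
    Gc 1 Δ D c = Row.clsE c (c + (Δ : ZMod (1 * B))) D := by
  unfold Gc sg
  rw [Int.cast_one, one_pow, one_mul D]

theorem colset_zero : colset B (p := 1) 0 = univ := by
  unfold colset
  ext x
  simp [Nat.mod_one]

/-- the edges of the translates -/
theorem sum_E_tr (hq : q % 2 = 1) {W : TWord} {C1 C2 : List ℕ} (h : chkF q W C1 C2 = true) :
    ∑ x : ZMod q, E (tsq (B := B) hε1 (chkF_ok h) x) =
    vertAll (ZMod (1 * B)) (ZMod q) +
      ∑ c : ZMod (1 * B), ((C1.map fun k : ℕ => Row.clsE c (c + 1) (k : ZMod q)).sum +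
        (C2.map fun k : ℕ => Row.clsE c (c + 2) (k : ZMod q)).sum) := by
  have hN : (1 : ℤ) ^ (1 * B) = 1 := one_pow _
  have h' := h
  simp only [chkF, Bool.and_eq_true, List.all_eq_true, decide_eq_true_eq] at h'
  have hperm : (codesT q 1 1 W).Perm (tgF q C1 C2) := perm_of_samePerm h'.2.1
  have hC1 := h'.2.2.1
  have hC2 := h'.2.2.2
  have e1 : ∑ x : ZMod q, E (tsq (B := B) hε1 (chkF_ok h) x) =
      ((codesT q 1 1 W).map (GN q 1 B 1)).sum := by
    rw [sum_E_tsq hε1 hN (chkF_ok h)]
    unfold codesT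
    rw [sum_map_flatMap, sum_range_list]
    refine sum_congr rfl fun n _ => ?_
    rw [sum_add_distrib]
    simp only [List.map_cons, List.map_nil, List.sum_cons, List.sum_nil, add_zero]
    rw [GN_ecode hε1 hN, GN_ecode hε1 hN]
    rfl
  have key : ∀ (l : List ℕ) (Δ : ℕ), (∀ k ∈ l, k < q) →
      ((l.map fun k => (Δ * 1 + 0) * q + k).map (GN q 1 B 1)).sum =
      ∑ c : ZMod (1 * B), (l.map fun k : ℕ => Gc 1 (Δ : ℤ) (k : ZMod q) c).sum := by
    intro l Δ
    induction l with
    | nil => intro _; simp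
    | cons k l ih =>
      intro hl
      rw [List.map_cons, List.map_cons, List.sum_cons,
        ih fun k' hk' => hl k' (List.mem_cons_of_mem _ hk')]
      simp only [List.map_cons, List.sum_cons]
      rw [sum_add_distrib]
      congr 1
      rw [GN_mk (by norm_num) (hl k List.mem_cons_self), colset_zero]
  have e2 : ((List.range ((q - 1) / 2)).map fun d => (0 * 1 + 0) * q + (d + 1)) =
      (((List.range ((q - 1) / 2)).map fun d => d + 1).map fun k => (0 * 1 + 0) * q + k) := by
    rw [List.map_map]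
    rfl
  have e3 : ∑ c : ZMod (1 * B), (((List.range ((q - 1) / 2)).map fun d => d + 1).map
      fun k : ℕ => Gc 1 ((0 : ℕ) : ℤ) (k : ZMod q) c).sum = vertAll (ZMod (1 * B)) (ZMod q) := by
    rw [← vert_sum (p := 1) (B := B) (m := q) (ε := 1) hq hε1]
    refine sum_congr rfl fun c _ => ?_
    rw [List.map_map, ← sum_range_list]
    rfl
  rw [e1, (hperm.map _).sum_eq]
  unfold tgF
  rw [List.map_append, List.map_append, List.sum_append, List.sum_append,
    key C1 1 hC1, key C2 2 hC2, e2, key ((List.range ((q - 1) / 2)).map fun d => d + 1) 0, e3,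
    ← sum_add_distrib]
  · congr 1
    refine sum_congr rfl fun c _ => ?_
    simp only [Gc_one]
    push_cast
    rfl
  · intro k hk
    obtain ⟨d, hd, rfl⟩ := List.mem_map.1 hk
    have := List.mem_range.1 hd
    omega

end Tr

/-! ### The steering -/

/-- the missing class number `k` -/
def cyf (q r : ℕ) (cy : List ℕ) (k : ZMod r) : ZMod q := (cy.getD k.val 0 : ZMod q)

/-- two offsets are neighbours modulo `r` -/
def nbr (r a b : ℕ) : Bool := ((a + 1) % r == b % r) || ((b + 1) % r == a % r)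

/-- a block of four offsets: starts with zero, neighbours, closes up -/
def chkB (r : ℕ) (b : List ℕ) : Bool :=
  (b.getD 0 0 == 0) && (nbr r (b.getD 0 0) (b.getD 1 0) && (nbr r (b.getD 1 0) (b.getD 2 0) &&
    (nbr r (b.getD 2 0) (b.getD 3 0) && nbr r (b.getD 3 0) 0)))

/-- the sum over a block -/
def totB (r : ℕ) (cy b : List ℕ) (i : ℕ) : ℕ :=
  ∑ j ∈ range 4, cy.getD ((i + b.getD j 0) % r) 0

/-- for every number of blocks there is a choice of the first block with all totals units -/
def chkU (q r : ℕ) (cy b0 b1 : List ℕ) : Bool :=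
  (List.range q).all fun n => [b0, b1].any fun b => (List.range r).all fun i =>
    decide (Nat.gcd (n * totB r cy b0 i + totB r cy b i) q = 1)

/-- the offsets: the first block is `b`, the others are `b0` -/
def stN (b0 b : List ℕ) (n : ℕ) : ℕ := if n < 4 then b.getD n 0 else b0.getD (n % 4) 0

section Steer

variable {r : ℕ} [NeZero r]

omit [NeZero r] in
theorem nbr_cast {a b : ℕ} (h : nbr r a b = true) :
    (b : ZMod r) = (a : ZMod r) + 1 ∨ (b : ZMod r) = (a : ZMod r) - 1 := by
  simp only [nbr, Bool.or_eq_true, beq_iff_eq] at h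
  rcases h with h | h
  · left
    have h1 := (ZMod.natCast_eq_natCast_iff (a + 1) b r).2 h
    rw [← h1]
    push_cast
    rfl
  · right
    have h1 := (ZMod.natCast_eq_natCast_iff (b + 1) a r).2 h
    rw [← h1]
    push_cast
    ring

omit [NeZero r] in
theorem stN_step {b0 b : List ℕ} (h0 : chkB r b0 = true) (h : chkB r b = true) {N n : ℕ}
    (h4 : 4 ∣ N) (hn : n < N) :
    ((stN b0 b ((n + 1) % N) : ℕ) : ZMod r) = (stN b0 b n : ZMod r) + 1 ∨
    ((stN b0 b ((n + 1) % N) : ℕ) : ZMod r) = (stN b0 b n : ZMod r) - 1 := by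
  apply nbr_cast
  simp only [chkB, Bool.and_eq_true, beq_iff_eq] at h0 h
  obtain ⟨a0, a1, a2, a3, a4⟩ := h0
  obtain ⟨c0, c1, c2, c3, c4⟩ := h
  have hmod : ∀ b' : List ℕ, b'.getD 0 0 = 0 → nbr r (b'.getD 0 0) (b'.getD 1 0) = true →
      nbr r (b'.getD 1 0) (b'.getD 2 0) = true → nbr r (b'.getD 2 0) (b'.getD 3 0) = true →
      nbr r (b'.getD 3 0) 0 = true → ∀ m : ℕ, m % 4 < 3 →
      nbr r (b'.getD (m % 4) 0) (b'.getD (m % 4 + 1) 0) = true := by
    intro b' e0 e1 e2 e3 e4 m hm
    generalize m % 4 = t at hm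
    interval_cases t
    · exact e1
    · exact e2
    · exact e3
  obtain ⟨N', rfl⟩ := h4
  have hz : stN b0 b 0 = 0 := by
    unfold stN
    rw [if_pos (by norm_num)]
    exact c0
  by_cases hlast : n % 4 = 3
  · -- the end of a block
    have e1 : nbr r (stN b0 b n) 0 = true := by
      unfold stN
      split_ifs with h5
      · have : n = 3 := by omega
        subst this
        exact c4
      · rw [hlast]
        exact a4
    have e2 : stN b0 b ((n + 1) % (4 * N')) = 0 := by
      by_cases h5 : n + 1 = 4 * N'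
      · rw [h5, Nat.mod_self, hz]
      · rw [Nat.mod_eq_of_lt (by omega)]
        unfold stN
        rw [if_neg (by omega)]
        have : (n + 1) % 4 = 0 := by omega
        rw [this]
        exact a0
    rw [e2]
    exact e1
  · have h5 : n + 1 < 4 * N' := by omega
    rw [Nat.mod_eq_of_lt h5]
    unfold stN
    by_cases h6 : n < 4
    · have h7 : n + 1 < 4 := by omega
      rw [if_pos h7, if_pos h6]
      have := hmod b c0 c1 c2 c3 c4 n (by omega)
      rwa [Nat.mod_eq_of_lt h6] at this
    · rw [if_neg h6, if_neg (show ¬ n + 1 < 4 by omega)]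
      have h8 : (n + 1) % 4 = n % 4 + 1 := by omega
      rw [h8]
      exact hmod b0 a0 a1 a2 a3 a4 n (by omega)

theorem sum_stN (g : ℕ → ℕ) (b0 b : List ℕ) (N' : ℕ) (hN : 0 < N') :
    ∑ n ∈ range (4 * N'), g (stN b0 b n) =
      (N' - 1) * ∑ j ∈ range 4, g (b0.getD j 0) + ∑ j ∈ range 4, g (b.getD j 0) := by
  obtain ⟨M, rfl⟩ : ∃ M, N' = M + 1 := ⟨N' - 1, by omega⟩
  rw [Nat.add_sub_cancel]
  induction M with
  | zero =>
    rw [zero_mul, zero_add, zero_add, mul_one]
    refine sum_congr rfl fun j hj => ?_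
    unfold stN
    rw [if_pos (mem_range.1 hj)]
  | succ M ih =>
    have e1 : 4 * (M + 1 + 1) = 4 * (M + 1) + 4 := by ring
    rw [e1, sum_range_add, ih (by omega)]
    have e2 : ∑ x ∈ range 4, g (stN b0 b (4 * (M + 1) + x)) = ∑ j ∈ range 4, g (b0.getD j 0) := by
      refine sum_congr rfl fun j hj => ?_
      have hj' := mem_range.1 hj
      unfold stN
      rw [if_neg (by omega)]
      congr 2
      omega
    rw [e2]
    ring

end Steer

/-! ### The theorem -/

/-- the missing classes at distance one -/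
def dd1 (r : ℕ) (cy : List ℕ) : List ℕ := (List.range r).map fun k => cy.getD k 0

/-- the missing classes at distance two -/
def dd2 (q r : ℕ) (cy : List ℕ) : List ℕ :=
  (List.range r).map fun k => (cy.getD k 0 + cy.getD ((k + 1) % r) 0) % q

/-- the check of a fine digit -/
def chk1 (q r : ℕ) (W : TWord) (C1 C2 cy b0 b1 : List ℕ) : Bool :=
  chkF q W C1 C2 && ((q % 2 == 1) && (samePerm (C1 ++ dd1 r cy) (List.range q) &&
    (samePerm (C2 ++ dd2 q r cy) (List.range q) && (chkB r b0 && (chkB r b1 &&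
      chkU q r cy b0 b1)))))

section Thm

variable {q r : ℕ} [NeZero q] [NeZero r]

theorem sum_perm_range {A : Type*} [AddCommMonoid A] {C : List ℕ} {D : List ℕ}
    (h : (C ++ D).Perm (List.range q)) (g : ZMod q → A) :
    (C.map fun k : ℕ => g k).sum + (D.map fun k : ℕ => g k).sum = ∑ δ : ZMod q, g δ := by
  rw [← List.sum_append, ← List.map_append, (h.map _).sum_eq, sum_range_list,
    sum_range_zmod fun δ => g δ]

omit [NeZero q] in
theorem sum_cyf1 {A : Type*} [AddCommMonoid A] (cy : List ℕ) (g : ZMod q → A) (t : ZMod r) :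
    ∑ i : ZMod r, g (cyf q r cy (i + t)) = ((dd1 r cy).map fun k : ℕ => g k).sum := by
  have e := Equiv.sum_comp (Equiv.addRight t) fun k => g (cyf q r cy k)
  simp only [Equiv.coe_addRight] at e
  rw [e]
  unfold dd1 cyf
  rw [List.map_map, sum_range_list, ← sum_val]
  rfl

omit [NeZero q] in
theorem cyf_add {cy : List ℕ} (k : ZMod r) :
    cyf q r cy (k + 1) = (cy.getD ((k.val + 1) % r) 0 : ZMod q) := by
  unfold cyf
  have h1 := val_add_nat k 1
  push_cast at h1
  rw [h1]

omit [NeZero q] in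
theorem sum_cyf2 {A : Type*} [AddCommMonoid A] (cy : List ℕ) (g : ZMod q → A) {t t' : ZMod r}
    (h : t' = t + 1 ∨ t' = t - 1) :
    ∑ i : ZMod r, g (cyf q r cy (i + t) + cyf q r cy (i + t')) =
      ((dd2 q r cy).map fun k : ℕ => g k).sum := by
  have key : ∑ k : ZMod r, g (cyf q r cy k + cyf q r cy (k + 1)) =
      ((dd2 q r cy).map fun k : ℕ => g k).sum := by
    unfold dd2
    rw [List.map_map, sum_range_list, ← sum_val]
    refine sum_congr rfl fun k _ => ?_
    rw [cyf_add]
    unfold cyf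
    simp only [Function.comp, ZMod.natCast_mod]
    push_cast
    rfl
  rcases h with h | h
  · have e := Equiv.sum_comp (Equiv.addRight t) fun k => g (cyf q r cy k + cyf q r cy (k + 1))
    simp only [Equiv.coe_addRight] at e
    rw [← key, ← e]
    refine sum_congr rfl fun i _ => ?_
    rw [h, add_assoc]
  · have e := Equiv.sum_comp (Equiv.addRight t') fun k => g (cyf q r cy k + cyf q r cy (k + 1))
    simp only [Equiv.coe_addRight] at e
    rw [← key, ← e]
    refine sum_congr rfl fun i _ => ?_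
    have h2 : t = t' + 1 := by rw [h]; ring
    rw [h2, add_comm (cyf q r cy _), ← add_assoc]

/-- **One fine digit.**  The blow up of a closed square with `4 ∣ card X`, verticals included, is the
sum of the translates `tr b` of the word and of the lifts of `s` by `x ↦ cy (i + h x)`. -/
theorem fine {W : TWord} {C1 C2 cy b0 b1 : List ℕ} (hc : chk1 q r W C1 C2 cy b0 b1 = true)
    {X : Type*} [Fintype X] [DecidableEq X] [Nonempty X] {s : Perm X} (hs : Closed s)
    (h4 : 4 ∣ Fintype.card X) :
    ∃ (tr : ZMod q → Perm (X × ZMod q)) (h : X → ZMod r),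
      (∀ b, Closed (tr b)) ∧
      (∀ i, Closed (lift s fun x => cyf q r cy (i + h x))) ∧
      (∀ i, IsUnit (∑ x, cyf q r cy (i + h x))) ∧
      (∀ x, h (s x) = h x + 1 ∨ h (s x) = h x - 1) ∧
      ∑ b, E (tr b) + ∑ i, E (lift s fun x => cyf q r cy (i + h x)) =
        blow (ZMod q) (E s) + vertAll X (ZMod q) ∧
      ∀ (b : ZMod q) (x : X) (n : ℕ),
        tr b ((s ^ colN q 1 W n) x, (labN q W n : ZMod q) + b) =
          ((s ^ colN q 1 W (n + 1)) x, (labN q W (n + 1) : ZMod q) + b) := by
  simp only [chk1, Bool.and_eq_true, beq_iff_eq] at hc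
  obtain ⟨hF, hq, p1, p2, hb0, hb1, hU⟩ := hc
  obtain ⟨B, hB⟩ : ∃ B, Fintype.card X = B := ⟨_, rfl⟩
  have hBpos : 0 < B := hB ▸ Fintype.card_pos
  have : NeZero B := ⟨hBpos.ne'⟩
  have hcard : Fintype.card X = 1 * B := by rw [one_mul, hB]
  obtain ⟨x0⟩ := ‹Nonempty X›
  obtain ⟨N', hN'⟩ := h4
  have hN'pos : 0 < N' := by
    have := hBpos
    rw [← hB, hN'] at this
    omega
  -- the choice of the first block
  obtain ⟨b, hb, hbb⟩ : ∃ b, chkB r b = true ∧ ∀ i < r,
      Nat.gcd ((N' - 1) * totB r cy b0 i + totB r cy b i) q = 1 := by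
    simp only [chkU, List.all_eq_true, List.mem_range, List.any_cons, List.any_nil, Bool.or_false,
      Bool.or_eq_true, decide_eq_true_eq] at hU
    have hqpos : 0 < q := Nat.pos_of_ne_zero (NeZero.ne q)
    have hgcd : ∀ n T0 T : ℕ, Nat.gcd (n % q * T0 + T) q = 1 → Nat.gcd (n * T0 + T) q = 1 := by
      intro n T0 T h
      have h1 : n % q * T0 + T ≡ n * T0 + T [MOD q] :=
        ((Nat.mod_modEq n q).mul_right T0).add_right T
      rw [← h1.gcd_eq]
      exact h
    rcases hU ((N' - 1) % q) (Nat.mod_lt _ hqpos) with h | h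
    · exact ⟨b0, hb0, fun i hi => hgcd _ _ _ (h i hi)⟩
    · exact ⟨b1, hb1, fun i hi => hgcd _ _ _ (h i hi)⟩
  let e : ZMod (1 * B) ≃ X := rg hs hcard x0
  let h : X → ZMod r := fun x => (stN b0 b (e.symm x).val : ZMod r)
  have hstep : ∀ x, h (s x) = h x + 1 ∨ h (s x) = h x - 1 := by
    intro x
    obtain ⟨c, rfl⟩ := e.surjective x
    have h1 : s (e c) = e (c + 1) := (rg_add_one hs hcard x0 c).symm
    have h2 := val_add_nat c 1
    push_cast at h2
    show ((stN b0 b (e.symm (s (e c))).val : ℕ) : ZMod r) =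
      (stN b0 b (e.symm (e c)).val : ZMod r) + 1 ∨
      ((stN b0 b (e.symm (s (e c))).val : ℕ) : ZMod r) =
      (stN b0 b (e.symm (e c)).val : ZMod r) - 1
    rw [h1, Equiv.symm_apply_apply, Equiv.symm_apply_apply, h2]
    exact stN_step hb0 hb ⟨N', by rw [← hN', hcard]⟩ (ZMod.val_lt c)
  have hsum : ∀ i, ∑ x, cyf q r cy (i + h x) =
      (((N' - 1) * totB r cy b0 i.val + totB r cy b i.val : ℕ) : ZMod q) := by
    intro i
    rw [← Equiv.sum_comp e]
    have e1 : ∀ c : ZMod (1 * B), cyf q r cy (i + h (e c)) =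
        ((cy.getD ((i.val + stN b0 b c.val) % r) 0 : ℕ) : ZMod q) := by
      intro c
      show cyf q r cy (i + ((stN b0 b (e.symm (e c)).val : ℕ) : ZMod r)) = _
      rw [Equiv.symm_apply_apply]
      unfold cyf
      rw [val_add_nat]
    rw [sum_congr rfl fun c _ => e1 c, ← Nat.cast_sum,
      sum_val fun n => cy.getD ((i.val + stN b0 b n) % r) 0]
    have e2 : 1 * B = 4 * N' := by rw [← hN', hcard]
    rw [e2, sum_stN (fun t => cy.getD ((i.val + t) % r) 0) b0 b N' hN'pos]
    rfl
  have hunit : ∀ i, IsUnit (∑ x, cyf q r cy (i + h x)) := by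
    intro i
    rw [hsum i]
    exact (ZMod.unitOfCoprime _ (hbb i.val (ZMod.val_lt i))).isUnit
  have hs1 : ∀ x, s x ≠ x := fun x => hs.ne1 (by omega) x
  have hs2 : ∀ x, s (s x) ≠ x := fun x => hs.ne2 (by omega) x
  refine ⟨fun b' => (e.prodCongr (Equiv.refl (ZMod q))).permCongr (tsq (B := B) hε1 (chkF_ok hF) b'),
    h, fun b' => Closed.permCongr' (closed_tsq _ _ _) _, fun i => ?_, hunit, hstep, ?_, ?_⟩
  · refine closed_lift hs _ fun ρ => ?_
    obtain ⟨u, hu⟩ := hunit i
    refine ⟨(ρ * (u⁻¹ : (ZMod q)ˣ)).val, ?_⟩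
    rw [← hu, nsmul_eq_mul, ZMod.natCast_zmod_val, mul_assoc, Units.inv_mul, mul_one]
  · -- the edges
    have e1 : ∑ b' : ZMod q, E ((e.prodCongr (Equiv.refl (ZMod q))).permCongr
        (tsq (B := B) hε1 (chkF_ok hF) b')) = vertAll X (ZMod q) +
        ∑ x, ((C1.map fun k : ℕ => Row.clsE x (s x) (k : ZMod q)).sum +
          (C2.map fun k : ℕ => Row.clsE x (s (s x)) (k : ZMod q)).sum) := by
      rw [sum_congr rfl fun b' _ => E_permCongr _ _, ← push_sum, sum_E_tr hq hF, push_add,
        push_vertAll_prod, push_sum, ← Equiv.sum_comp e]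
      congr 1
      refine sum_congr rfl fun c _ => ?_
      have g1 : s (e c) = e (c + 1) := (rg_add_one hs hcard x0 c).symm
      have g2 : s (s (e c)) = e (c + 2) := by
        have : c + 2 = c + 1 + 1 := by ring
        rw [this, g1]
        exact (rg_add_one hs hcard x0 (c + 1)).symm
      have key : ∀ (l : List ℕ) (d : ZMod (1 * B)),
          push (e.prodCongr (Equiv.refl (ZMod q)))
            (l.map fun k : ℕ => Row.clsE c d (k : ZMod q)).sum =
          (l.map fun k : ℕ => Row.clsE (e c) (e d) (k : ZMod q)).sum := by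
        intro l d
        induction l with
        | nil => simp [push_zero]
        | cons k l ih =>
          rw [List.map_cons, List.sum_cons, push_add, ih, push_clsE_prod, List.map_cons,
            List.sum_cons]
      rw [push_add, key, key, g2, g1]
    have e2 : ∑ i : ZMod r, E (lift s fun x => cyf q r cy (i + h x)) =
        ∑ x, (((dd1 r cy).map fun k : ℕ => Row.clsE x (s x) (k : ZMod q)).sum +
          ((dd2 q r cy).map fun k : ℕ => Row.clsE x (s (s x)) (k : ZMod q)).sum) := by
      rw [sum_congr rfl fun i _ => E_lift_clsE s _, sum_comm]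
      refine sum_congr rfl fun x _ => ?_
      rw [sum_add_distrib, sum_cyf1 cy fun δ => Row.clsE x (s x) δ,
        sum_cyf2 cy (fun δ => Row.clsE x (s (s x)) δ) (hstep x)]
    rw [e1, e2, blow_E s hs1 hs2, add_assoc, ← sum_add_distrib, add_comm]
    congr 1
    refine sum_congr rfl fun x _ => ?_
    rw [← sum_perm_range (perm_of_samePerm p1), ← sum_perm_range (perm_of_samePerm p2)]
    abel
  · intro b' x n
    obtain ⟨c, rfl⟩ := e.surjective x
    have hz : ∀ z : ℤ, (s ^ z) (e c) = e (c + (z : ZMod (1 * B))) := fun z =>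
      (rg_add_int hs hcard x0 c z).symm
    have hq1 : (1 * q) = q := one_mul q
    have h1 := tsq_QT (B := B) hε1 (chkF_ok hF) b' n (c.val : ZMod B)
    have hcv : ((c.val : ℕ) : ZMod B).val = c.val := by
      rw [ZMod.val_natCast, Nat.mod_eq_of_lt]
      have := ZMod.val_lt c
      omega
    have h2 : ∀ k : ℕ, QT (p := 1) (B := B) hε1 W b' k (c.val : ZMod B) =
        (c + (colN q 1 W k : ZMod (1 * B)), (labN q W k : ZMod q) + b') := by
      intro k
      refine Prod.ext ?_ ?_
      · rw [QT_fst, hcv, hq1, Nat.one_mul (ZMod.val c), ZMod.natCast_zmod_val]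
        exact add_comm _ _
      · rw [QT_snd, hq1]
        unfold sg
        rw [Int.cast_one, one_pow, one_mul]
    rw [hz, hz]
    have h3 : ∀ (d : ZMod (1 * B)) (y : ZMod q), ((e d, y) : X × ZMod q) =
        (e.prodCongr (Equiv.refl (ZMod q))) (d, y) := fun _ _ => rfl
    rw [h3, h3, Equiv.permCongr_apply, Equiv.symm_apply_apply, ← h2 n, ← h2 (n + 1), h1]

end Thm

end Fine1

end SqIns
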