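import Pool.Agent.Lib.SqIns.FineG

/-!
# The fine tower with two kinds of places

The first kind serves the rows of the splices, the second kind (the points after `q` may also lie
over `s⁻¹ (s⁻¹ x)`) serves the centres of the words of the next level.
-/

open Finset Equiv

namespace SqIns

namespace Fine

open Tw

/-- places of the second kind, at all the points `x` -/
def FQ {X R : Type*} (s : Perm X) (F : Perm (X × R)) (y : R) : Prop :=
  ∃ dir : Bool, ∀ x : X,
    (((if dir then F else F⁻¹)⁻¹ (x, y)).1 = x ∨ ((if dir then F else F⁻¹)⁻¹ (x, y)).1 = s⁻¹ x) ∧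
    (((if dir then F else F⁻¹) (x, y)).1 = s x ∨ ((if dir then F else F⁻¹) (x, y)).1 = s (s x) ∨
      ((if dir then F else F⁻¹) (x, y)).1 = s⁻¹ (s⁻¹ x)) ∧
    (((if dir then F else F⁻¹) ((if dir then F else F⁻¹) (x, y))).1 = s x ∨
      ((if dir then F else F⁻¹) ((if dir then F else F⁻¹) (x, y))).1 = s (s x) ∨
      ((if dir then F else F⁻¹) ((if dir then F else F⁻¹) (x, y))).1 = s⁻¹ (s⁻¹ x))

theorem FP.toFQ {X R : Type*} {s : Perm X} {F : Perm (X × R)} {y : R} (h : FP s F y) :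
    FQ s F y := by
  obtain ⟨dir, h⟩ := h
  exact ⟨dir, fun x => ⟨(h x).1, (h x).2.1.imp_right Or.inl, (h x).2.2.imp_right Or.inl⟩⟩

theorem FQ.lift {X R R' : Type*} [AddCommGroup R'] {s : Perm X} {F : Perm (X × R)} {y : R}
    (h : FQ s F y) (g : X × R → R') (z : R') :
    FQ s ((Equiv.prodAssoc X R R').permCongr (SqIns.lift F g)) (y, z) := by
  obtain ⟨dir, h⟩ := h
  refine ⟨dir, fun x => ?_⟩
  cases dir
  · have h' := h x
    simp only [Bool.false_eq_true, if_false] at h' ⊢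
    exact h'
  · have h' := h x
    simp only [if_true] at h' ⊢
    exact h'

theorem FQ.fib {X R R' : Type*} {s : Perm X} {F : Perm (X × R)} {y : R} (h : FQ s F y)
    (ε : R ≃ R') : FQ s (((Equiv.refl X).prodCongr ε).permCongr F) (ε y) := by
  obtain ⟨dir, h⟩ := h
  have e1 : ∀ (G : Perm (X × R)) (x : X),
      (((Equiv.refl X).prodCongr ε).permCongr G) (x, ε y) =
        ((Equiv.refl X).prodCongr ε) (G (x, y)) := by
    intro G x
    rw [Equiv.permCongr_apply]
    congr 2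
    show ((Equiv.refl X).symm x, ε.symm (ε y)) = _
    rw [Equiv.symm_apply_apply]
    rfl
  have e2 : ∀ (G : Perm (X × R)) (p : X × R),
      (((Equiv.refl X).prodCongr ε).permCongr G) (((Equiv.refl X).prodCongr ε) p) =
        ((Equiv.refl X).prodCongr ε) (G p) := by
    intro G p
    rw [Equiv.permCongr_apply, Equiv.symm_apply_apply]
  have e3 : ∀ G : Perm (X × R), (((Equiv.refl X).prodCongr ε).permCongr G)⁻¹ =
      ((Equiv.refl X).prodCongr ε).permCongr G⁻¹ := fun G => rfl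
  refine ⟨dir, fun x => ?_⟩
  have h' := h x
  cases dir
  · simp only [Bool.false_eq_true, if_false] at h' ⊢
    rw [e3, e3, e1, e1, e2]
    exact h'
  · simp only [if_true] at h' ⊢
    rw [e3, e1, e1, e2]
    exact h'

theorem FQ_lift_self {X R : Type*} [AddCommGroup R] (s : Perm X) (g : X → R) (y : R) :
    FQ s (SqIns.lift s g) y := (FP_lift_self s g y).toFQ

theorem FQ.of_lift {X R R' : Type*} [AddCommGroup R] {s : Perm X} {g : X → R}
    {F : Perm ((X × R) × R')} {z : R'} (h : FQ (SqIns.lift s g) F z) (y : R) :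
    FQ s ((Equiv.prodAssoc X R R').permCongr F) (y, z) := by
  obtain ⟨dir, h⟩ := h
  refine ⟨dir, fun x => ?_⟩
  have key : ∀ w : (X × R) × R', (w.1 = (x, y) ∨ w.1 = (SqIns.lift s g)⁻¹ (x, y)) →
      (((Equiv.prodAssoc X R R') w).1 = x ∨ ((Equiv.prodAssoc X R R') w).1 = s⁻¹ x) := by
    intro w hw
    show w.1.1 = x ∨ w.1.1 = s⁻¹ x
    rcases hw with hw | hw
    · exact Or.inl (by rw [hw])
    · exact Or.inr (by rw [hw, fst_lift_inv])
  have key2 : ∀ w : (X × R) × R', (w.1 = SqIns.lift s g (x, y) ∨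
      w.1 = SqIns.lift s g (SqIns.lift s g (x, y)) ∨
      w.1 = (SqIns.lift s g)⁻¹ ((SqIns.lift s g)⁻¹ (x, y))) →
      (((Equiv.prodAssoc X R R') w).1 = s x ∨ ((Equiv.prodAssoc X R R') w).1 = s (s x) ∨
        ((Equiv.prodAssoc X R R') w).1 = s⁻¹ (s⁻¹ x)) := by
    intro w hw
    show w.1.1 = s x ∨ w.1.1 = s (s x) ∨ w.1.1 = s⁻¹ (s⁻¹ x)
    rcases hw with hw | hw | hw
    · exact Or.inl (by rw [hw, fst_lift])
    · exact Or.inr (Or.inl (by rw [hw, fst_lift, fst_lift]))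
    · exact Or.inr (Or.inr (by rw [hw, fst_lift_inv, fst_lift_inv]))
  have h' := h (x, y)
  cases dir
  · simp only [Bool.false_eq_true, if_false] at h' ⊢
    exact ⟨key _ h'.1, key2 _ h'.2.1, key2 _ h'.2.2⟩
  · simp only [if_true] at h' ⊢
    exact ⟨key _ h'.1, key2 _ h'.2.1, key2 _ h'.2.2⟩

/-- one fine digit with both kinds of places -/
def OneLv2 (q r : ℕ) [NeZero q] (PL PC : List ℕ) : Prop :=
  ∀ (X : Type) [Fintype X] [DecidableEq X] (s : Perm X), Closed s → 4 ∣ Fintype.card X →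
    8 ≤ Fintype.card X →
    ∃ (tr : ZMod q → Perm (X × ZMod q)) (f : Fin (r + 1) → X → ZMod q),
      (∀ b, Closed (tr b)) ∧ (∀ i, Closed (lift s (f i))) ∧
      ∑ b, E (tr b) + ∑ i, E (lift s (f i)) = blow (ZMod q) (E s) + vertAll X (ZMod q) ∧
      (∀ b, ∀ w ∈ PL, FP s (tr b) ((w : ZMod q) + b)) ∧
      ∀ b, ∀ w ∈ PC, FQ s (tr b) ((w : ZMod q) + b)

/-- the digits of the groups meet all the translates -/
def DigOk2 (q nd : ℕ) (PL : List ℕ) (dg : Fin nd → ℕ) : Prop :=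
  ∀ y : ZMod q, ∃ i : Fin nd, ∃ w ∈ PL, (w : ZMod q) + y = (dg i : ZMod q)

/-- **The tower over a closed square** with both kinds of places -/
def TowerOk2 (nd nc : ℕ) (Q : ℕ) [NeZero Q] : Prop :=
  ∀ (X : Type) [Fintype X] [DecidableEq X] (s : Perm X), Closed s → 4 ∣ Fintype.card X →
    8 ≤ Fintype.card X →
    ∃ (J : Type) (_ : Fintype J) (F : J → Perm (X × ZMod Q)) (fy : Fin nd → ZMod Q)
      (fc : Fin nc → ZMod Q),
      4 * Fintype.card J + 1 = 5 * Q ∧ (∀ j, Closed (F j)) ∧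
      ∑ j, E (F j) = blow (ZMod Q) (E s) + vertAll X (ZMod Q) ∧
      (∀ j, ∃ d, FP s (F j) (fy d)) ∧ ∀ j, ∃ d, FQ s (F j) (fc d)

theorem TowerOk2.toTowerOk {nd nc Q : ℕ} [NeZero Q] (h : TowerOk2 nd nc Q) : TowerOk nd Q := by
  intro X _ _ s hs h4 h8
  obtain ⟨J, hJ, F, fy, _, h1, h2, h3, h5, _⟩ := h X s hs h4 h8
  exact ⟨J, hJ, F, fy, h1, h2, h3, h5⟩

theorem towerOk2_one {nd nc : ℕ} (hnd : 0 < nd) (hnc : 0 < nc) : TowerOk2 nd nc 1 := by
  intro X _ _ s hs h4 h8
  obtain ⟨J, hJ, F, fy, h1, h2, h3, h5⟩ := towerOk_one hnd X s hs h4 h8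
  refine ⟨J, hJ, F, fy, fun _ => 0, h1, h2, h3, h5, fun j => ?_⟩
  obtain ⟨d, h⟩ := h5 j
  refine ⟨⟨0, hnc⟩, ?_⟩
  have e : (0 : ZMod 1) = fy d := Subsingleton.elim _ _
  rw [e]
  exact h.toFQ

theorem towerOk2_congr {nd nc Q Q' : ℕ} (h : Q = Q') [NeZero Q] [NeZero Q']
    (ht : TowerOk2 nd nc Q) : TowerOk2 nd nc Q' := by
  subst h
  exact ht

theorem towerOk2_mul {nd nc : ℕ} {PL PC : List ℕ} {q r : ℕ} [NeZero q] (hnd : 0 < nd)
    (hnc : 0 < nc) (hr : 4 * (r + 1) + 1 = q) (h1 : OneLv2 q r PL PC) {dg : Fin nd → ℕ}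
    (hdg : DigOk2 q nd PL dg) {dc : Fin nc → ℕ} (hdc : DigOk2 q nc PC dc)
    {Q : ℕ} [NeZero Q] [NeZero (q * Q)] (h2 : Nat.Coprime 2 Q) (h3 : Nat.Coprime 3 Q)
    (ih : TowerOk2 nd nc Q) : TowerOk2 nd nc (q * Q) := by
  intro X _ _ s hs h4 h8
  obtain ⟨tr, f, ht, hf, hE, hp, hpc⟩ := h1 X s hs h4 h8
  have hqp : 0 < q := by omega
  have hcard : Fintype.card (X × ZMod q) = Fintype.card X * q := by
    rw [Fintype.card_prod, ZMod.card]
  have h4' : 4 ∣ Fintype.card (X × ZMod q) := by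
    rw [hcard]
    exact Dvd.dvd.mul_right h4 q
  have h8' : 8 ≤ Fintype.card (X × ZMod q) := by
    rw [hcard]
    exact le_trans h8 (Nat.le_mul_of_pos_right _ hqp)
  -- the level one squares which are not the host
  let T : ZMod q ⊕ Fin r → Perm (X × ZMod q) := fun j => match j with
    | .inl b => tr b
    | .inr i => lift s (f i.succ)
  have hT : ∀ j, Closed (T j) := by
    rintro (b | i)
    · exact ht b
    · exact hf _
  choose g hg hgE using fun j => exists_sheets (hT j) h4' h8' (Q := Q) h2 h3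
  obtain ⟨J, hJ, F, fy, fc, hcJ, hF, hFE, hpl, hpq⟩ :=
    ih (X × ZMod q) (lift s (f 0)) (hf 0) h4' h8'
  let eA : ZMod q × ZMod Q ≃ ZMod (q * Q) :=
    Fintype.equivOfCardEq (by rw [Fintype.card_prod, ZMod.card, ZMod.card, ZMod.card])
  let e : (X × ZMod q) × ZMod Q ≃ X × ZMod (q * Q) :=
    (Equiv.prodAssoc X _ _).trans ((Equiv.refl X).prodCongr eA)
  refine ⟨((ZMod q ⊕ Fin r) × ZMod Q) ⊕ J, inferInstance, fun j => match j with
    | .inl p => e.permCongr (lift (T p.1) (g p.1 p.2))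
    | .inr j => e.permCongr (F j), fun i => eA ((dg i : ZMod q), fy i),
      fun i => eA ((dc i : ZMod q), fc i), ?_, ?_, ?_, ?_, ?_⟩
  · rw [Fintype.card_sum, Fintype.card_prod, Fintype.card_sum, ZMod.card, ZMod.card,
      Fintype.card_fin]
    have : 4 * ((q + r) * Q + Fintype.card J) + 1 = 4 * (q + r) * Q + 5 * Q := by
      rw [← hcJ]
      ring
    rw [this]
    have h5 : 4 * (q + r) + 5 = 5 * q := by omega
    calc 4 * (q + r) * Q + 5 * Q = (4 * (q + r) + 5) * Q := by ring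
      _ = 5 * (q * Q) := by rw [h5]; ring
  · rintro (⟨j, y⟩ | j)
    · exact (hg j y).permCongr' e
    · exact (hF j).permCongr' e
  · rw [Fintype.sum_sum_type]
    have e1 : ∀ p : (ZMod q ⊕ Fin r) × ZMod Q,
        E (e.permCongr (lift (T p.1) (g p.1 p.2))) = push e (E (lift (T p.1) (g p.1 p.2))) :=
      fun p => E_permCongr _ _
    have e2 : ∀ j, E (e.permCongr (F j)) = push e (E (F j)) := fun j => E_permCongr _ _
    have e3 : ∑ p : (ZMod q ⊕ Fin r) × ZMod Q, E (lift (T p.1) (g p.1 p.2)) =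
        blow (ZMod Q) (∑ j, E (T j)) := by
      rw [Fintype.sum_prod_type, blow_sum]
      exact sum_congr rfl fun j _ => hgE j
    have e4 : ∑ j, E (T j) + E (lift s (f 0)) = blow (ZMod q) (E s) + vertAll X (ZMod q) := by
      rw [← hE, Fintype.sum_sum_type, Fin.sum_univ_succ]
      show _ + ∑ i : Fin r, E (lift s (f i.succ)) + _ = _
      rw [add_assoc, add_comm (∑ i : Fin r, E (lift s (f i.succ)))]
    have e6 : ∀ φ : Sym2 ((X × ZMod q) × ZMod Q) → ℤ,
        push e φ = push ((Equiv.refl X).prodCongr eA)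
          (push (Equiv.prodAssoc X (ZMod q) (ZMod Q)) φ) := by
      intro φ
      rw [push_push]
      rfl
    have e5 : push e (blow (ZMod Q) (blow (ZMod q) (E s) + vertAll X (ZMod q))) +
        push e (vertAll (X × ZMod q) (ZMod Q)) =
        blow (ZMod (q * Q)) (E s) + vertAll X (ZMod (q * Q)) := by
      have e7 : push (Equiv.prodAssoc X (ZMod q) (ZMod Q))
          (blow (ZMod Q) (blow (ZMod q) (E s) + vertAll X (ZMod q))) +
          push (Equiv.prodAssoc X (ZMod q) (ZMod Q)) (vertAll (X × ZMod q) (ZMod Q)) =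
          blow (ZMod q × ZMod Q) (E s) + vertAll X (ZMod q × ZMod Q) := by
        rw [blow_add, push_add, add_assoc, push_blow_vert, push_blow_blow]
      rw [e6, e6, ← push_add, e7, push_add, push_blow_fib, push_vert_fib]
    rw [← e5, ← e4, blow_add]
    show ∑ p : (ZMod q ⊕ Fin r) × ZMod Q, E (e.permCongr (lift (T p.1) (g p.1 p.2))) +
      ∑ j, E (e.permCongr (F j)) = _
    rw [sum_congr rfl fun p _ => e1 p, sum_congr rfl fun j _ => e2 j, ← push_sum, ← push_sum, e3,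
      hFE, ← push_add, ← push_add, add_assoc]
  · have hT' : ∀ j, ∃ i, FP s (T j) (dg i : ZMod q) := by
      rintro (b | i)
      · obtain ⟨i, w, hw, h6⟩ := hdg b
        have h7 := hp b w hw
        rw [h6] at h7
        exact ⟨i, h7⟩
      · exact ⟨⟨0, hnd⟩, FP_lift_self _ _ _⟩
    rintro (⟨j, y⟩ | j)
    · obtain ⟨i, h⟩ := hT' j
      exact ⟨i, (h.lift (g j y) (fy i)).fib eA⟩
    · obtain ⟨i, h⟩ := hpl j
      exact ⟨i, (h.of_lift (dg i : ZMod q)).fib eA⟩
  · have hT' : ∀ j, ∃ i, FQ s (T j) (dc i : ZMod q) := by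
      rintro (b | i)
      · obtain ⟨i, w, hw, h6⟩ := hdc b
        have h7 := hpc b w hw
        rw [h6] at h7
        exact ⟨i, h7⟩
      · exact ⟨⟨0, hnc⟩, FQ_lift_self _ _ _⟩
    rintro (⟨j, y⟩ | j)
    · obtain ⟨i, h⟩ := hT' j
      exact ⟨i, (h.lift (g j y) (fc i)).fib eA⟩
    · obtain ⟨i, h⟩ := hpq j
      exact ⟨i, (h.of_lift (dc i : ZMod q)).fib eA⟩

theorem towerOk2_pow {nd nc : ℕ} {PL PC : List ℕ} {q r : ℕ} [NeZero q] (hnd : 0 < nd)
    (hnc : 0 < nc) (hr : 4 * (r + 1) + 1 = q) (h1 : OneLv2 q r PL PC) {dg : Fin nd → ℕ}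
    (hdg : DigOk2 q nd PL dg) {dc : Fin nc → ℕ} (hdc : DigOk2 q nc PC dc)
    (c2 : Nat.Coprime 2 q) (c3 : Nat.Coprime 3 q) {Q : ℕ} [NeZero Q] (h2 : Nat.Coprime 2 Q)
    (h3 : Nat.Coprime 3 Q) (ih : TowerOk2 nd nc Q) (a : ℕ) [NeZero (q ^ a * Q)] :
    TowerOk2 nd nc (q ^ a * Q) := by
  have hq : 0 < q := by omega
  have hQ : 0 < Q := Nat.pos_of_ne_zero (NeZero.ne Q)
  have key : ∀ (a : ℕ) (_ : NeZero (q ^ a * Q)), TowerOk2 nd nc (q ^ a * Q) := by
    intro a
    induction a with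
    | zero =>
      intro h
      exact towerOk2_congr (by rw [pow_zero, one_mul]) ih
    | succ a iha =>
      intro h
      have hpos : 0 < q ^ a * Q := Nat.mul_pos (pow_pos hq a) hQ
      have n1 : NeZero (q ^ a * Q) := ⟨hpos.ne'⟩
      have n2 : NeZero (q * (q ^ a * Q)) := ⟨(Nat.mul_pos hq hpos).ne'⟩
      have h4 := towerOk2_mul hnd hnc hr h1 hdg hdc (Q := q ^ a * Q)
        ((c2.pow_right a).mul_right h2) ((c3.pow_right a).mul_right h3) (iha n1)
      exact towerOk2_congr (by rw [pow_succ']; ring) h4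
  exact key a inferInstance

/-! ### The places of a word -/

/-- the condition on the columns for the second kind -/
def okC (c0 c1 c2 c3 : ℤ) : Bool :=
  (decide (c0 - c1 = 0) || decide (c0 - c1 = -1)) &&
    ((decide (c2 - c1 = 1) || (decide (c2 - c1 = 2) || decide (c2 - c1 = -2))) &&
      (decide (c3 - c1 = 1) || (decide (c3 - c1 = 2) || decide (c3 - c1 = -2))))

/-- the labels of the places of the first kind -/
def PLn (q : ℕ) (W : TWord) : List ℕ := (PLg q W).map Prod.snd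

/-- the labels of the places of the second kind -/
def PCn (q : ℕ) (W : TWord) : List ℕ :=
  ((List.range q).filter fun n => okC (colN q 1 W n) (colN q 1 W (n + 1)) (colN q 1 W (n + 2))
      (colN q 1 W (n + 3))).map (fun n => labN q W (n + 1)) ++
    ((List.range q).filter fun n => okC (colN q 1 W (n + 3)) (colN q 1 W (n + 2))
      (colN q 1 W (n + 1)) (colN q 1 W n)).map fun n => labN q W (n + 2)

theorem zpow_step3 {X : Type*} (s : Perm X) {a b : ℤ} (x : X)
    (h : b - a = 1 ∨ b - a = 2 ∨ b - a = -2) :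
    (s ^ b) ((s ^ (-a)) x) = s x ∨ (s ^ b) ((s ^ (-a)) x) = s (s x) ∨
      (s ^ b) ((s ^ (-a)) x) = s⁻¹ (s⁻¹ x) := by
  rcases h with h | h | h
  · exact (zpow_step s x (Or.inl h)).imp_right Or.inl
  · exact (zpow_step s x (Or.inr h)).imp_right Or.inl
  · right
    right
    have e : (s ^ b) ((s ^ (-a)) x) = (s ^ (b - a)) x := by
      rw [← Perm.mul_apply, ← zpow_add, sub_eq_add_neg]
    rw [e, h]
    rfl

theorem okC_spec {X : Type*} (s : Perm X) {c0 c1 c2 c3 : ℤ} (h : okC c0 c1 c2 c3 = true) (x : X) :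
    ((s ^ c0) ((s ^ (-c1)) x) = x ∨ (s ^ c0) ((s ^ (-c1)) x) = s⁻¹ x) ∧
    ((s ^ c2) ((s ^ (-c1)) x) = s x ∨ (s ^ c2) ((s ^ (-c1)) x) = s (s x) ∨
      (s ^ c2) ((s ^ (-c1)) x) = s⁻¹ (s⁻¹ x)) ∧
    ((s ^ c3) ((s ^ (-c1)) x) = s x ∨ (s ^ c3) ((s ^ (-c1)) x) = s (s x) ∨
      (s ^ c3) ((s ^ (-c1)) x) = s⁻¹ (s⁻¹ x)) := by
  simp only [okC, Bool.and_eq_true, Bool.or_eq_true, decide_eq_true_eq] at h
  refine ⟨?_, zpow_step3 s x h.2.1, zpow_step3 s x h.2.2⟩
  have e : (s ^ c0) ((s ^ (-c1)) x) = (s ^ (c0 - c1)) x := by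
    rw [← Perm.mul_apply, ← zpow_add, sub_eq_add_neg]
  rw [e]
  rcases h.1 with h | h
  · left
    rw [h, zpow_zero, Perm.one_apply]
  · right
    rw [h, zpow_neg_one]

theorem oneLv2_of_chk {q r : ℕ} [NeZero q] {W : TWord} {C1 C2 cy b0 b1 : List ℕ}
    (hc : Fine1.chk1 q (r + 1) W C1 C2 cy b0 b1 = true) :
    OneLv2 q r (PLn q W) (PCn q W) := by
  intro X _ _ s hs h4 h8
  have hne : Nonempty X := Fintype.card_pos_iff.1 (by omega)
  obtain ⟨tr, h, h1, h2, _, _, h5, h6⟩ := Fine1.fine hc hs h4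
  let e : Fin (r + 1) ≃ ZMod (r + 1) := Fintype.equivOfCardEq (by rw [ZMod.card, Fintype.card_fin])
  have hstart : ∀ (k : ℤ) (x : X), (s ^ k) ((s ^ (-k)) x) = x := by
    intro k x
    rw [← Perm.mul_apply, ← zpow_add, add_neg_cancel, zpow_zero, Perm.one_apply]
  refine ⟨tr, fun i x => Fine1.cyf q (r + 1) cy (e i + h x), h1, fun i => h2 (e i), ?_, ?_, ?_⟩
  · rw [← h5]
    congr 1
    exact Equiv.sum_comp e fun i => E (lift s fun x => Fine1.cyf q (r + 1) cy (i + h x))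
  · intro b w hw
    simp only [PLn, PLg, List.mem_map, List.mem_append, List.mem_filter, List.mem_range] at hw
    obtain ⟨p, hp, rfl⟩ := hw
    obtain ⟨n, ⟨_, c1⟩, rfl⟩ | ⟨n, ⟨_, c1⟩, rfl⟩ := hp
    · refine ⟨true, fun x => ?_⟩
      simp only [if_true]
      let x' := (s ^ (-(colN q 1 W (n + 1)))) x
      have hx' : (s ^ colN q 1 W (n + 1)) x' = x := hstart _ x
      have g0 := h6 b x' n
      have g1 := h6 b x' (n + 1)
      have g2 := h6 b x' (n + 2)
      rw [hx'] at g0 g1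
      obtain ⟨p0, p2, p3⟩ := okP_spec s c1 x
      refine ⟨?_, ?_, ?_⟩
      · have : (tr b)⁻¹ (x, (labN q W (n + 1) : ZMod q) + b) =
            ((s ^ colN q 1 W n) x', (labN q W n : ZMod q) + b) := by
          rw [Perm.inv_eq_iff_eq, g0]
        show ((tr b)⁻¹ (x, (labN q W (n + 1) : ZMod q) + b)).1 = x ∨
          ((tr b)⁻¹ (x, (labN q W (n + 1) : ZMod q) + b)).1 = s⁻¹ x
        rw [this]
        exact p0
      · show (tr b (x, (labN q W (n + 1) : ZMod q) + b)).1 = s x ∨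
          (tr b (x, (labN q W (n + 1) : ZMod q) + b)).1 = s (s x)
        rw [g1]
        exact p2
      · show (tr b (tr b (x, (labN q W (n + 1) : ZMod q) + b))).1 = s x ∨
          (tr b (tr b (x, (labN q W (n + 1) : ZMod q) + b))).1 = s (s x)
        rw [g1, g2]
        exact p3
    · refine ⟨false, fun x => ?_⟩
      simp only [Bool.false_eq_true, if_false, inv_inv]
      let x' := (s ^ (-(colN q 1 W (n + 2)))) x
      have hx' : (s ^ colN q 1 W (n + 2)) x' = x := hstart _ x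
      have g0 := h6 b x' n
      have g1 := h6 b x' (n + 1)
      have g2 := h6 b x' (n + 2)
      rw [hx'] at g1 g2
      obtain ⟨p0, p2, p3⟩ := okP_spec s c1 x
      have i1 : (tr b)⁻¹ (x, (labN q W (n + 2) : ZMod q) + b) =
          ((s ^ colN q 1 W (n + 1)) x', (labN q W (n + 1) : ZMod q) + b) := by
        rw [Perm.inv_eq_iff_eq, g1]
      have i2 : (tr b)⁻¹ ((s ^ colN q 1 W (n + 1)) x', (labN q W (n + 1) : ZMod q) + b) =
          ((s ^ colN q 1 W n) x', (labN q W n : ZMod q) + b) := by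
        rw [Perm.inv_eq_iff_eq, g0]
      refine ⟨?_, ?_, ?_⟩
      · show (tr b (x, (labN q W (n + 2) : ZMod q) + b)).1 = x ∨
          (tr b (x, (labN q W (n + 2) : ZMod q) + b)).1 = s⁻¹ x
        rw [g2]
        exact p0
      · show ((tr b)⁻¹ (x, (labN q W (n + 2) : ZMod q) + b)).1 = s x ∨
          ((tr b)⁻¹ (x, (labN q W (n + 2) : ZMod q) + b)).1 = s (s x)
        rw [i1]
        exact p2
      · show ((tr b)⁻¹ ((tr b)⁻¹ (x, (labN q W (n + 2) : ZMod q) + b))).1 = s x ∨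
          ((tr b)⁻¹ ((tr b)⁻¹ (x, (labN q W (n + 2) : ZMod q) + b))).1 = s (s x)
        rw [i1, i2]
        exact p3
  · intro b w hw
    simp only [PCn, List.mem_map, List.mem_append, List.mem_filter, List.mem_range] at hw
    obtain ⟨n, ⟨_, c1⟩, rfl⟩ | ⟨n, ⟨_, c1⟩, rfl⟩ := hw
    · refine ⟨true, fun x => ?_⟩
      simp only [if_true]
      let x' := (s ^ (-(colN q 1 W (n + 1)))) x
      have hx' : (s ^ colN q 1 W (n + 1)) x' = x := hstart _ x
      have g0 := h6 b x' n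
      have g1 := h6 b x' (n + 1)
      have g2 := h6 b x' (n + 2)
      rw [hx'] at g0 g1
      obtain ⟨p0, p2, p3⟩ := okC_spec s c1 x
      refine ⟨?_, ?_, ?_⟩
      · have : (tr b)⁻¹ (x, (labN q W (n + 1) : ZMod q) + b) =
            ((s ^ colN q 1 W n) x', (labN q W n : ZMod q) + b) := by
          rw [Perm.inv_eq_iff_eq, g0]
        rw [this]
        exact p0
      · rw [g1]
        exact p2
      · rw [g1, g2]
        exact p3
    · refine ⟨false, fun x => ?_⟩
      simp only [Bool.false_eq_true, if_false, inv_inv]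
      let x' := (s ^ (-(colN q 1 W (n + 2)))) x
      have hx' : (s ^ colN q 1 W (n + 2)) x' = x := hstart _ x
      have g0 := h6 b x' n
      have g1 := h6 b x' (n + 1)
      have g2 := h6 b x' (n + 2)
      rw [hx'] at g1 g2
      obtain ⟨p0, p2, p3⟩ := okC_spec s c1 x
      have i1 : (tr b)⁻¹ (x, (labN q W (n + 2) : ZMod q) + b) =
          ((s ^ colN q 1 W (n + 1)) x', (labN q W (n + 1) : ZMod q) + b) := by
        rw [Perm.inv_eq_iff_eq, g1]
      have i2 : (tr b)⁻¹ ((s ^ colN q 1 W (n + 1)) x', (labN q W (n + 1) : ZMod q) + b) =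
          ((s ^ colN q 1 W n) x', (labN q W n : ZMod q) + b) := by
        rw [Perm.inv_eq_iff_eq, g0]
      refine ⟨?_, ?_, ?_⟩
      · rw [g2]
        exact p0
      · rw [i1]
        exact p2
      · rw [i1, i2]
        exact p3

/-- the centres of the digit 17 -/
def dc17 : Fin 2 → ℕ := ![0, 6]

/-- the centres of the digit 25 -/
def dc25 : Fin 2 → ℕ := ![0, 2]

theorem digOk2_17 : DigOk2 17 3 (PLn 17 Fine1.W17b) dg17 := by
  unfold DigOk2
  decide +kernel

theorem digOk2_17c : DigOk2 17 2 (PCn 17 Fine1.W17b) dc17 := by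
  unfold DigOk2
  decide +kernel

theorem digOk2_25 : DigOk2 25 3 (PLn 25 W25c) dg25 := by
  unfold DigOk2
  decide +kernel

theorem digOk2_25c : DigOk2 25 2 (PCn 25 W25c) dc25 := by
  unfold DigOk2
  decide +kernel

/-- **The tower for `17 ^ a * 25 ^ b` with three groups of rows and two centres.** -/
theorem tower2 (a b : ℕ) [NeZero (17 ^ a * 25 ^ b)] : TowerOk2 3 2 (17 ^ a * 25 ^ b) := by
  have n1 : NeZero (25 ^ b * 1) := ⟨by positivity⟩
  have n2 : NeZero (25 ^ b) := ⟨by positivity⟩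
  have h1 : TowerOk2 3 2 (25 ^ b) := towerOk2_congr (mul_one _) (towerOk2_pow (by norm_num)
    (by norm_num) (by norm_num) (oneLv2_of_chk chk25c) digOk2_25 digOk2_25c (by norm_num)
    (by norm_num) (Q := 1) (by norm_num) (by norm_num) (towerOk2_one (by norm_num)
    (by norm_num)) b)
  exact towerOk2_pow (by norm_num) (by norm_num) (by norm_num) (oneLv2_of_chk Fine1.chk17b)
    digOk2_17 digOk2_17c (by norm_num) (by norm_num) (Nat.Coprime.pow_right b (by norm_num))
    (Nat.Coprime.pow_right b (by norm_num)) h1 a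

end Fine

end SqIns
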