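import Pool.Agent.Lib.SqIns.Fine

/-!
# The fine tower for the digits 17 and 25
-/

open Finset Equiv

namespace SqIns

namespace Fine

theorem towerOk_congr {nd Q Q' : ℕ} (h : Q = Q') [NeZero Q] [NeZero Q'] (ht : TowerOk nd Q) :
    TowerOk nd Q' := by
  subst h
  exact ht

/-- all the powers of one digit on top of `Q` -/
theorem towerOk_pow {nd : ℕ} {PL : List (ℤ × ℕ)} {q r : ℕ} [NeZero q] (hnd : 0 < nd)
    (hr : 4 * (r + 1) + 1 = q) (h1 : OneLv q r PL) {dg : Fin nd → ℕ} (hdg : DigOk q nd PL dg)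
    (c2 : Nat.Coprime 2 q) (c3 : Nat.Coprime 3 q) {Q : ℕ} [NeZero Q] (h2 : Nat.Coprime 2 Q)
    (h3 : Nat.Coprime 3 Q) (ih : TowerOk nd Q) (a : ℕ) [NeZero (q ^ a * Q)] :
    TowerOk nd (q ^ a * Q) := by
  have hq : 0 < q := by omega
  have hQ : 0 < Q := Nat.pos_of_ne_zero (NeZero.ne Q)
  have key : ∀ (a : ℕ) (_ : NeZero (q ^ a * Q)), TowerOk nd (q ^ a * Q) := by
    intro a
    induction a with
    | zero =>
      intro h
      exact towerOk_congr (by rw [pow_zero, one_mul]) ih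
    | succ a iha =>
      intro h
      have hpos : 0 < q ^ a * Q := Nat.mul_pos (pow_pos hq a) hQ
      have n1 : NeZero (q ^ a * Q) := ⟨hpos.ne'⟩
      have n2 : NeZero (q * (q ^ a * Q)) := ⟨(Nat.mul_pos hq hpos).ne'⟩
      have h4 := towerOk_mul hnd hr h1 hdg (Q := q ^ a * Q) ((c2.pow_right a).mul_right h2)
        ((c3.pow_right a).mul_right h3) (iha n1)
      exact towerOk_congr (by rw [pow_succ']; ring) h4
  exact key a inferInstance

/-! ### 17 -/

/-- the three groups of the digit 17 -/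
def dg17 : Fin 3 → ℕ := ![0, 2, 4]

theorem digOk17 : DigOk 17 3 (PLw 17 Fine1.W17b) dg17 := by
  unfold DigOk
  decide +kernel

theorem tower17 (a : ℕ) [NeZero (17 ^ a)] : TowerOk 3 (17 ^ a) := by
  have n1 : NeZero (17 ^ a * 1) := ⟨by positivity⟩
  exact towerOk_congr (mul_one _) (towerOk_pow (by norm_num) (by norm_num)
    (oneLv_of_chk Fine1.chk17b) digOk17 (by norm_num) (by norm_num) (Q := 1) (by norm_num)
    (by norm_num) (towerOk_one (by norm_num)) a)

end Fine

end SqIns
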