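import Mathlib

/-!
# Greedy choice

Every item `i` has a finite set `opt i` of options; an option of `j` forbids at most `bound i j`
options of `i`.  If every item has more options than can be forbidden, then options can be chosen
which are pairwise compatible.
-/

open Finset

namespace SqIns

theorem greedy_choice {ι Ω : Type*} [Fintype ι] [DecidableEq ι]
    (opt : ι → Finset Ω) (C : ι → Ω → ι → Ω → Prop)
    (hsymm : ∀ i o j o', C i o j o' → C j o' i o) (bound : ι → ι → ℕ)
    (hb : ∀ i j o', i ≠ j → o' ∈ opt j →
      ∃ B : Finset Ω, (∀ o ∈ opt i, C i o j o' → o ∈ B) ∧ #B ≤ bound i j)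
    (h : ∀ i, ∑ j ∈ univ.erase i, bound i j < #(opt i)) :
    ∃ f : ι → Ω, (∀ i, f i ∈ opt i) ∧ ∀ i j, i ≠ j → ¬ C i (f i) j (f j) := by
  classical
  have hne : ∀ i, (opt i).Nonempty := fun i => by
    rw [← card_pos]; exact lt_of_le_of_lt (Nat.zero_le _) (h i)
  have key : ∀ S : Finset ι, ∃ f : ι → Ω, (∀ i, f i ∈ opt i) ∧
      ∀ i ∈ S, ∀ j ∈ S, i ≠ j → ¬ C i (f i) j (f j) := by
    intro S
    induction S using Finset.induction_on with
    | empty => exact ⟨fun i => (hne i).choose, fun i => (hne i).choose_spec, by simp⟩
    | insert a S ha ih =>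
      obtain ⟨f, hf1, hf2⟩ := ih
      have hB : ∀ j, ∃ B : Finset Ω, a ≠ j → (∀ o ∈ opt a, C a o j (f j) → o ∈ B) ∧
          #B ≤ bound a j := by
        intro j
        by_cases haj : a = j
        · exact ⟨∅, fun h => absurd haj h⟩
        · obtain ⟨B, h1⟩ := hb a j (f j) haj (hf1 j)
          exact ⟨B, fun _ => h1⟩
      choose B hB using hB
      have hcard : #((univ.erase a).biUnion B) < #(opt a) := by
        refine lt_of_le_of_lt (card_biUnion_le.trans (sum_le_sum fun j hj => ?_)) (h a)
        exact (hB j (ne_of_mem_erase hj).symm).2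
      obtain ⟨o, ho, ho'⟩ : ∃ o ∈ opt a, o ∉ (univ.erase a).biUnion B := by
        by_contra hn
        push Not at hn
        exact absurd (card_le_card fun o ho => hn o ho) (not_le.2 hcard)
      have hno : ∀ j, a ≠ j → ¬ C a o j (f j) := by
        intro j haj hC
        refine ho' (mem_biUnion.2 ⟨j, mem_erase.2 ⟨haj.symm, mem_univ _⟩, ?_⟩)
        exact (hB j haj).1 o ho hC
      refine ⟨Function.update f a o, ?_, ?_⟩
      · intro i
        by_cases hi : i = a
        · subst hi; rw [Function.update_self]; exact ho
        · rw [Function.update_of_ne hi]; exact hf1 i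
      · intro i hi j hj hij
        rw [mem_insert] at hi hj
        rcases hi with rfl | hi
        · rcases hj with rfl | hj
          · exact absurd rfl hij
          · rw [Function.update_self, Function.update_of_ne (Ne.symm hij)]
            exact hno j hij
        · rcases hj with rfl | hj
          · rw [Function.update_self, Function.update_of_ne hij]
            exact fun hC => hno i (Ne.symm hij) (hsymm _ _ _ _ hC)
          · have hia : i ≠ a := fun h => ha (h ▸ hi)
            have hja : j ≠ a := fun h => ha (h ▸ hj)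
            rw [Function.update_of_ne hia, Function.update_of_ne hja]
            exact hf2 i hi j hj hij
  obtain ⟨f, h1, h2⟩ := key univ
  exact ⟨f, h1, fun i j hij => h2 i (mem_univ _) j (mem_univ _) hij⟩

/-- extension of an injective partial assignment to an equivalence (used for the bijections
letters to classes) -/
theorem exists_perm_of_partial {α β : Type*} [Fintype α] [Fintype β] [DecidableEq α]
    [DecidableEq β] (hcard : Fintype.card α = Fintype.card β) {γ : Type*} (x : γ → α) (y : γ → β)
    (h1 : ∀ c c', x c = x c' ↔ y c = y c') : ∃ e : α ≃ β, ∀ c, e (x c) = y c := by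
  classical
  let A : Set α := Set.range x
  let g : A → β := fun a => y a.2.choose
  have hg : ∀ c, g ⟨x c, c, rfl⟩ = y c := by
    intro c
    have hs : x (⟨c, rfl⟩ : ∃ c', x c' = x c).choose = x c :=
      (⟨c, rfl⟩ : ∃ c', x c' = x c).choose_spec
    exact (h1 _ _).1 hs
  have hinj : Function.Injective g := by
    rintro ⟨a, c, rfl⟩ ⟨b, d, rfl⟩ hab
    rw [hg, hg] at hab
    exact Subtype.ext ((h1 _ _).2 hab)
  let g' : A ≃ Set.range g := Equiv.ofInjective g hinj
  obtain ⟨e⟩ : Nonempty (↥(A)ᶜ ≃ ↥(Set.range g)ᶜ) := by
    apply Fintype.card_eq.1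
    have h1 := Fintype.card_compl_set A
    have h2 := Fintype.card_compl_set (Set.range g)
    have h3 := Fintype.card_congr g'
    omega
  refine ⟨(Equiv.Set.sumCompl A).symm.trans ((Equiv.sumCongr g' e).trans
    (Equiv.Set.sumCompl (Set.range g))), ?_⟩
  intro c
  have hx : x c ∈ A := ⟨c, rfl⟩
  rw [Equiv.trans_apply, Equiv.trans_apply, Equiv.Set.sumCompl_symm_apply_of_mem hx]
  simp only [Equiv.sumCongr_apply, Sum.map_inl, Equiv.Set.sumCompl_apply_inl]
  exact hg c

end SqIns
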