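import Pool.Agent.Lib.SqIns.Lift

/-!
# Strips: families of closed squares over `ZMod q × G` given by a finite table

A *word* is a list of `q` triples `(vertex, step, weight)`, the vertices are the numbers `< q` in some
cyclic order.  For `t` in the fine ring `S` it gives the closed square
`(v_j, x) ↦ (v_{j+1}, x + δ_j + ι (w_j t))` on `ZMod q × G`.
The edges of a type `(a, b, d)` in all the sheets `t ∈ V`, where `V` is invariant under units, are
`et ι V a b d`.
-/

open Finset Equiv

namespace SqIns

/-! ### The rotation -/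

section Rot

variable (q : ℕ) [NeZero q]

/-- the rotation of `ZMod q` -/
def rotZ : Perm (ZMod q) := Equiv.addRight 1

theorem rotZ_apply (j : ZMod q) : rotZ q j = j + 1 := rfl

theorem rotZ_pow_apply (n : ℕ) (j : ZMod q) : ((rotZ q) ^ n) j = j + n := by
  induction n with
  | zero => simp
  | succ n ih => rw [pow_succ', Perm.mul_apply, ih, rotZ_apply]; push_cast; ring

theorem closed_rotZ : Closed (rotZ q) := by
  intro x y
  refine ⟨((y - x).val : ℕ), ?_⟩
  rw [zpow_natCast, rotZ_pow_apply, ZMod.natCast_zmod_val]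
  ring

end Rot

theorem Closed.permCongr' {V W : Type*} {s : Perm V} (h : Closed s) (e : V ≃ W) :
    Closed (e.permCongr s) := by
  intro x y
  obtain ⟨i, hi⟩ := h (e.symm x) (e.symm y)
  refine ⟨i, ?_⟩
  have : (e.permCongr s) ^ i = e.permCongr (s ^ i) := by
    have := map_zpow (Equiv.permCongrHom e) s i
    exact this.symm
  rw [this, Equiv.permCongr_apply, hi, Equiv.apply_symm_apply]

/-! ### Sums over unit invariant sets -/

/-- a finite set of the ring which is invariant under the units -/
def UInv {S : Type*} [CommRing S] (V : Finset S) : Prop := ∀ u : S, IsUnit u → ∀ x ∈ V, u * x ∈ V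

section Shell

variable {S : Type*} [CommRing S] {V : Finset S}

theorem UInv.sum_mul (hV : UInv V) {u : S} (hu : IsUnit u) {A : Type*} [AddCommMonoid A]
    (f : S → A) : ∑ x ∈ V, f (u * x) = ∑ x ∈ V, f x := by
  obtain ⟨u, rfl⟩ := hu
  refine sum_nbij' (fun x => u * x) (fun x => (u⁻¹ : Sˣ) * x) (fun x hx => hV _ u.isUnit x hx)
    (fun x hx => hV _ u⁻¹.isUnit x hx) (fun x _ => ?_) (fun x _ => ?_) (fun x _ => rfl)
  · simp
  · simp

end Shell

section Et

variable {Y G S : Type*} [DecidableEq Y] [DecidableEq G] [AddCommGroup G] [Fintype G] [CommRing S]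
  (ι : S →+ G) (V : Finset S)

/-- all pairs `(a, x)`, `(b, x + d + ι σ)` with `σ ∈ V` -/
def et (a b : Y) (d : G) : Sym2 (Y × G) → ℤ := ∑ x : G, ∑ σ ∈ V, pr (a, x) (b, x + d + ι σ)

variable {V}

theorem et_symm (hV : UInv V) (a b : Y) (d : G) : et ι V a b d = et ι V b a (-d) := by
  unfold et
  rw [sum_comm, sum_comm (s := univ) (t := V)]
  rw [← hV.sum_mul (u := -1) isUnit_one.neg]
  refine sum_congr rfl fun σ _ => ?_
  rw [← Equiv.sum_comp (Equiv.addRight (-d + ι σ))]
  refine sum_congr rfl fun x _ => ?_
  rw [pr_comm]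
  simp only [Equiv.coe_addRight]
  have e1 : x + (-d + ι σ) + d + ι (-1 * σ) = x := by
    rw [neg_one_mul, map_neg]
    abel
  have e2 : x + (-d + ι σ) = x + -d + ι σ := by abel
  rw [e1, e2]

theorem sum_et (hV : UInv V) (a b : Y) (d : G) {w : S} (hw : IsUnit w) :
    ∑ t ∈ V, ∑ x : G, pr (a, x) (b, x + (d + ι (w * t))) = et ι V a b d := by
  rw [hV.sum_mul hw fun t => ∑ x : G, pr (a, x) (b, x + (d + ι t))]
  unfold et
  rw [sum_comm]
  refine sum_congr rfl fun σ _ => sum_congr rfl fun x _ => ?_
  rw [add_assoc]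

end Et

/-! ### Words -/

/-- a word: a cyclic list of (vertex, step, weight) -/
abbrev Word := List (ℕ × ℤ × ℕ)

namespace Word

/-- the vertex at the position `j` -/
def vx (W : Word) (j : ℕ) : ℕ := (W.getD j (0, 0, 0)).1

/-- the step from the position `j` -/
def st (W : Word) (j : ℕ) : ℤ := (W.getD j (0, 0, 0)).2.1

/-- the weight of the position `j` -/
def wt (W : Word) (j : ℕ) : ℕ := (W.getD j (0, 0, 0)).2.2

/-- the vertices are the numbers `< q`, each once -/
def ok (q : ℕ) (W : Word) : Bool :=
  (W.length == q) && ((List.range q).all fun j => decide (W.vx j < q)) &&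
    decide ((List.range q).map W.vx).Nodup

variable {q : ℕ} [NeZero q] {W : Word}

theorem vx_lt (h : W.ok q = true) {j : ℕ} (hj : j < q) : W.vx j < q := by
  simp only [ok, Bool.and_eq_true, List.all_eq_true, decide_eq_true_eq, List.mem_range] at h
  exact h.1.2 j hj

theorem vx_inj (h : W.ok q = true) {i j : ℕ} (hi : i < q) (hj : j < q) (hij : W.vx i = W.vx j) :
    i = j := by
  simp only [ok, Bool.and_eq_true, decide_eq_true_eq] at h
  have h1 := h.2
  exact List.inj_on_of_nodup_map h1 (List.mem_range.2 hi) (List.mem_range.2 hj) hij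

/-- the vertex at the position `j` -/
def v (q : ℕ) (W : Word) (j : ZMod q) : ZMod q := (W.vx j.val : ZMod q)

theorem v_injective (h : W.ok q = true) : Function.Injective (W.v q) := by
  intro i j hij
  have h1 := congrArg ZMod.val hij
  simp only [v, ZMod.val_natCast] at h1
  rw [Nat.mod_eq_of_lt (vx_lt h (ZMod.val_lt i)), Nat.mod_eq_of_lt (vx_lt h (ZMod.val_lt j))] at h1
  exact ZMod.val_injective q (vx_inj h (ZMod.val_lt i) (ZMod.val_lt j) h1)

/-- the cyclic order as a permutation -/
noncomputable def vE (h : W.ok q = true) : ZMod q ≃ ZMod q :=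
  Equiv.ofBijective (W.v q) (Finite.injective_iff_bijective.1 (v_injective h))

theorem vE_apply (h : W.ok q = true) (j : ZMod q) : vE h j = W.v q j := rfl

section Sq

variable {G S : Type*} [AddCommGroup G] [CommRing S] (ι : S →+ G)
  (γ : ℤ →+ G) (W)

/-- the steps of the sheet `t` -/
def stp (t : S) (j : ZMod q) : G := γ (W.st j.val) + ι ((W.wt j.val : S) * t)

/-- the square number `t` of the word -/
noncomputable def sq (h : W.ok q = true) (t : S) : Perm (ZMod q × G) :=
  ((vE h).prodCongr (Equiv.refl G)).permCongr (lift (rotZ q) (W.stp ι γ t))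

variable {W}

theorem sq_apply (h : W.ok q = true) (t : S) (j : ZMod q) (x : G) :
    W.sq ι γ h t (W.v q j, x) = (W.v q (j + 1), x + W.stp ι γ t j) := by
  have e : ((W.v q j, x) : ZMod q × G) = (vE h).prodCongr (Equiv.refl G) (j, x) := rfl
  rw [e, sq, Equiv.permCongr_apply, Equiv.symm_apply_apply, lift_apply]
  rfl

theorem closed_sq (h : W.ok q = true) (t : S)
    (hg : ∀ r : G, ∃ n : ℕ, n • (∑ j, W.stp ι γ t (q := q) j) = r) :
    Closed (W.sq ι γ h t) := by
  exact Closed.permCongr' (closed_lift (closed_rotZ q) _ hg) _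

variable [DecidableEq G] [Fintype G]

theorem E_sq (h : W.ok q = true) (t : S) : E (W.sq ι γ h t) =
    ∑ j : ZMod q, ∑ x, (pr (W.v q j, x) (W.v q (j + 1), x + W.stp ι γ t j) +
      pr (W.v q j, x) (W.v q (j + 2), x + (W.stp ι γ t j + W.stp ι γ t (j + 1)))) := by
  rw [sq, E_permCongr, E_lift, push_sum]
  refine sum_congr rfl fun j _ => ?_
  rw [push_sum]
  refine sum_congr rfl fun x _ => ?_
  rw [push_add, push_pr (Equiv.injective _), push_pr (Equiv.injective _), rotZ_apply, rotZ_apply]
  have e2 : j + 1 + 1 = j + 2 := by ring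
  rw [e2]
  rfl

variable (q) in
/-- the weights and the sums of two consecutive weights are units -/
def Units (S : Type*) [CommRing S] (W : Word) : Prop :=
  ∀ j : ZMod q, IsUnit (W.wt j.val : S) ∧ IsUnit ((W.wt j.val : S) + (W.wt (j + 1).val : S))

variable {V : Finset S}

theorem sum_E_sq (h : W.ok q = true) (hV : UInv V) (hu : W.Units q S) :
    ∑ t ∈ V, E (W.sq ι γ h t) =
    ∑ j : ZMod q, (et ι V (W.v q j) (W.v q (j + 1)) (γ (W.st j.val)) +
      et ι V (W.v q j) (W.v q (j + 2)) (γ (W.st j.val) + γ (W.st (j + 1).val))) := by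
  rw [sum_congr rfl fun t _ => E_sq ι γ h t, sum_comm]
  refine sum_congr rfl fun j _ => ?_
  rw [sum_congr rfl fun t _ => sum_add_distrib, sum_add_distrib]
  congr 1
  · exact sum_et ι hV _ _ _ (hu j).1
  · rw [← sum_et ι hV _ _ _ (hu j).2]
    refine sum_congr rfl fun t _ => sum_congr rfl fun x _ => ?_
    congr 3
    unfold stp
    rw [add_mul, map_add]
    abel

end Sq


end Word

/-! ### Sets of numbers as bit masks -/

/-- the bit mask of a list of distinct numbers, `none` if there is a repetition -/
def maskFrom (l : List ℕ) (M0 : ℕ) : Option ℕ :=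
  l.foldl (fun o c => match o with
    | none => none
    | some M => if M.testBit c then none else some (M ||| (1 <<< c))) (some M0)

theorem maskFrom_nil (M0 : ℕ) : maskFrom [] M0 = some M0 := rfl

theorem foldl_none (l : List ℕ) : l.foldl (fun o c => match o with
    | none => none
    | some M => if M.testBit c then none else some (M ||| (1 <<< c))) (none : Option ℕ) = none := by
  induction l with
  | nil => rfl
  | cons a l ih => rw [List.foldl_cons]; exact ih

theorem maskFrom_cons (a : ℕ) (l : List ℕ) (M0 : ℕ) :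
    maskFrom (a :: l) M0 = if M0.testBit a then none else maskFrom l (M0 ||| (1 <<< a)) := by
  unfold maskFrom
  rw [List.foldl_cons]
  by_cases h : M0.testBit a
  · simp only [h, if_true]
    exact foldl_none l
  · simp only [h]
    rfl

theorem maskFrom_spec (l : List ℕ) : ∀ (M0 M : ℕ), maskFrom l M0 = some M →
    l.Nodup ∧ (∀ c ∈ l, M0.testBit c = false) ∧ ∀ c, M.testBit c = true ↔
      (M0.testBit c = true ∨ c ∈ l) := by
  induction l with
  | nil =>
    intro M0 M h
    rw [maskFrom_nil] at h
    obtain rfl : M0 = M := Option.some.inj h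
    simp
  | cons a l ih =>
    intro M0 M h
    rw [maskFrom_cons] at h
    by_cases ha : M0.testBit a = true
    · rw [if_pos ha] at h
      exact absurd h (by simp)
    · rw [if_neg ha] at h
      obtain ⟨h1, h2, h3⟩ := ih _ _ h
      have hb : ∀ c, (M0 ||| (1 <<< a)).testBit c = (M0.testBit c || decide (a = c)) := by
        intro c
        rw [Nat.testBit_or, Nat.one_shiftLeft, Nat.testBit_two_pow]
      refine ⟨List.nodup_cons.2 ⟨fun hm => ?_, h1⟩, ?_, ?_⟩
      · have := h2 a hm
        rw [hb] at this
        simp at this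
      · intro c hc
        rcases List.mem_cons.1 hc with rfl | hc
        · simpa using ha
        · have := h2 c hc
          rw [hb] at this
          simp only [Bool.or_eq_false_iff] at this
          exact this.1
      · intro c
        rw [h3, hb]
        simp only [Bool.or_eq_true, decide_eq_true_eq, List.mem_cons]
        constructor
        · rintro ((h | h) | h)
          · exact Or.inl h
          · exact Or.inr (Or.inl h.symm)
          · exact Or.inr (Or.inr h)
        · rintro (h | h | h)
          · exact Or.inl (Or.inl h)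
          · exact Or.inl (Or.inr h.symm)
          · exact Or.inr h

/-- two lists without repetitions with the same elements -/
def samePerm (l l' : List ℕ) : Bool := match maskFrom l 0, maskFrom l' 0 with
  | some M, some M' => M == M'
  | _, _ => false

theorem perm_of_samePerm {l l' : List ℕ} (h : samePerm l l' = true) : l.Perm l' := by
  unfold samePerm at h
  split at h
  · rename_i M M' h1 h2
    obtain ⟨a1, -, a3⟩ := maskFrom_spec _ _ _ h1
    obtain ⟨b1, -, b3⟩ := maskFrom_spec _ _ _ h2
    obtain rfl : M = M' := by simpa using h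
    refine (List.perm_ext_iff_of_nodup a1 b1).2 fun c => ?_
    have e1 := a3 c
    have e2 := b3 c
    simp only [Nat.zero_testBit, Bool.false_eq_true, false_or] at e1 e2
    rw [← e1, ← e2]
  · exact absurd h (by simp)

/-! ### Codes of edge types -/

/-- the number of the type of an edge between the vertices `a` and `b` with the step `d` -/
def code (q a b : ℕ) (d : ℤ) : ℕ :=
  if 0 < d ∨ (d = 0 ∧ a < b) then (d.toNat * q + a) * q + b else ((-d).toNat * q + b) * q + a

section Codes

variable {q : ℕ} [NeZero q] {G S : Type*} [AddCommGroup G] [CommRing S] (ι : S →+ G) (γ : ℤ →+ G)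
  [DecidableEq G] [Fintype G] (V : Finset S)

variable (q) in
/-- the edges with the type number `c` -/
def etN (c : ℕ) : Sym2 (ZMod q × G) → ℤ :=
  et ι V ((c / q % q : ℕ) : ZMod q) ((c % q : ℕ) : ZMod q) (γ ((c / q / q : ℕ) : ℤ))

omit [NeZero q] in
theorem etN_mk {a b n : ℕ} (ha : a < q) (hb : b < q) :
    etN q ι γ V ((n * q + a) * q + b) = et ι V (a : ZMod q) (b : ZMod q) (γ (n : ℤ)) := by
  have hq : 0 < q := by omega
  have e1 : ((n * q + a) * q + b) % q = b := by
    rw [Nat.mul_comm, Nat.mul_add_mod, Nat.mod_eq_of_lt hb]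
  have e2 : ((n * q + a) * q + b) / q = n * q + a := by
    rw [Nat.mul_comm, Nat.mul_add_div hq, Nat.div_eq_of_lt hb, Nat.add_zero]
  have e3 : (n * q + a) % q = a := by
    rw [Nat.mul_comm, Nat.mul_add_mod, Nat.mod_eq_of_lt ha]
  have e4 : (n * q + a) / q = n := by
    rw [Nat.mul_comm, Nat.mul_add_div hq, Nat.div_eq_of_lt ha, Nat.add_zero]
  unfold etN
  rw [e1, e2, e3, e4]

variable {V}

omit [NeZero q] in
theorem etN_code (hV : UInv V) {a b : ℕ} (ha : a < q) (hb : b < q) (d : ℤ) :
    etN q ι γ V (code q a b d) = et ι V (a : ZMod q) (b : ZMod q) (γ d) := by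
  unfold code
  split_ifs with h
  · rw [etN_mk ι γ V ha hb]
    have : 0 ≤ d := by omega
    rw [Int.toNat_of_nonneg this]
  · rw [etN_mk ι γ V hb ha]
    have : 0 ≤ -d := by omega
    rw [Int.toNat_of_nonneg this, et_symm ι hV, map_neg, neg_neg]

theorem sum_val {A : Type*} [AddCommMonoid A] (f : ℕ → A) :
    ∑ j : ZMod q, f j.val = ∑ j ∈ range q, f j := by
  refine sum_nbij' (fun j => j.val) (fun n => (n : ZMod q)) (fun j _ => ?_) (fun _ _ => mem_univ _)
    (fun j _ => ?_) (fun n hn => ?_) (fun _ _ => rfl)
  · exact mem_range.2 (ZMod.val_lt j)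
  · exact ZMod.natCast_zmod_val j
  · exact ZMod.val_natCast_of_lt (mem_range.1 hn)

theorem val_add_nat (j : ZMod q) (n : ℕ) : (j + n).val = (j.val + n) % q := by
  have := ZMod.val_natCast q (j.val + n)
  rw [← this]
  push_cast
  rw [ZMod.natCast_zmod_val]

namespace Word

/-- the edge types of a word -/
def codes (q : ℕ) (W : Word) : List ℕ := (List.range q).flatMap fun j =>
  [code q (W.vx j) (W.vx ((j + 1) % q)) (W.st j),
    code q (W.vx j) (W.vx ((j + 2) % q)) (W.st j + W.st ((j + 1) % q))]

theorem sum_codes {W : Word} (h : W.ok q = true) (hV : UInv V) :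
    ((W.codes q).map (etN q ι γ V)).sum =
    ∑ j : ZMod q, (et ι V (W.v q j) (W.v q (j + 1)) (γ (W.st j.val)) +
      et ι V (W.v q j) (W.v q (j + 2)) (γ (W.st j.val) + γ (W.st (j + 1).val))) := by
  have hq : 0 < q := Nat.pos_of_ne_zero (NeZero.ne q)
  let F : ℕ → Sym2 (ZMod q × G) → ℤ := fun n =>
    et ι V (W.vx n : ZMod q) (W.vx ((n + 1) % q) : ZMod q) (γ (W.st n)) +
        et ι V (W.vx n : ZMod q) (W.vx ((n + 2) % q) : ZMod q)
          (γ (W.st n) + γ (W.st ((n + 1) % q)))
  have e : ∀ j : ZMod q, (et ι V (W.v q j) (W.v q (j + 1)) (γ (W.st j.val)) +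
      et ι V (W.v q j) (W.v q (j + 2)) (γ (W.st j.val) + γ (W.st (j + 1).val))) = F j.val := by
    intro j
    have h1 := val_add_nat j 1
    have h2 := val_add_nat j 2
    push_cast at h1 h2
    simp only [v, h1, h2, F]
  rw [sum_congr rfl fun j _ => e j, sum_val F]
  unfold codes
  rw [List.map_flatMap, List.flatMap_def, List.sum_flatten, List.map_map]
  rw [← List.sum_toFinset _ List.nodup_range, List.toFinset_range]
  refine sum_congr rfl fun n hn => ?_
  have hn' := mem_range.1 hn
  simp only [Function.comp, List.map_cons, List.map_nil, List.sum_cons, List.sum_nil, add_zero]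
  rw [etN_code ι γ hV (vx_lt h hn') (vx_lt h (Nat.mod_lt _ hq)),
    etN_code ι γ hV (vx_lt h hn') (vx_lt h (Nat.mod_lt _ hq)), map_add]

end Word

/-- all words are fine and the edge types are exactly the given ones -/
def chkTab (q : ℕ) (T : List Word) (tg : List ℕ) : Bool :=
  (T.all fun W => W.ok q) && samePerm (T.flatMap fun W => W.codes q) tg

variable {T : List Word} {tg : List ℕ}

omit [NeZero q] in
theorem chkTab_ok (h : chkTab q T tg = true) (i : Fin T.length) : T[i].ok q = true := by
  simp only [chkTab, Bool.and_eq_true, List.all_eq_true] at h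
  exact h.1 _ (List.getElem_mem _)

/-- **The edges of a strip.** -/
theorem sum_E_tab (h : chkTab q T tg = true) (hV : UInv V)
    (hu : ∀ i : Fin T.length, T[i].Units q S) :
    ∑ i : Fin T.length, ∑ t ∈ V, E (T[i].sq ι γ (chkTab_ok h i) t) =
      (tg.map (etN q ι γ V)).sum := by
  have hp : (T.flatMap fun W => W.codes q).Perm tg := by
    simp only [chkTab, Bool.and_eq_true] at h
    exact perm_of_samePerm h.2
  rw [← (hp.map (etN q ι γ V)).sum_eq, List.map_flatMap, List.flatMap_def, List.sum_flatten,
    List.map_map]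
  rw [← Fin.sum_univ_fun_getElem]
  refine sum_congr rfl fun i _ => ?_
  rw [Word.sum_E_sq ι γ (chkTab_ok h i) hV (hu i)]
  exact (Word.sum_codes ι γ (chkTab_ok h i) hV).symm

/-! ### Targets of period one -/

/-- vertical differences `Dv`, classes `C1` at distance one and `C2` at distance two -/
def tgt (m : ℕ) (Dv C1 C2 : List ℕ) : List ℕ :=
  (Dv.flatMap fun c => (List.range m).map fun y => code m y ((y + c) % m) 0) ++
    ((C1.flatMap fun c => (List.range m).map fun y => code m y ((y + c) % m) 1) ++
      C2.flatMap fun c => (List.range m).map fun y => code m y ((y + c) % m) 2)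

theorem sum_tgt_aux (hV : UInv V) (D : List ℕ) (d : ℤ) :
    ((D.flatMap fun c => (List.range q).map fun y => code q y ((y + c) % q) d).map
      (etN q ι γ V)).sum = (D.map fun c : ℕ => ∑ y : ZMod q, et ι V y (y + (c : ZMod q)) (γ d)).sum := by
  have hq : 0 < q := Nat.pos_of_ne_zero (NeZero.ne q)
  rw [List.map_flatMap, List.flatMap_def, List.sum_flatten, List.map_map]
  congr 1
  refine List.map_congr_left fun c _ => ?_
  simp only [Function.comp, List.map_map]
  rw [← List.sum_toFinset _ List.nodup_range, List.toFinset_range]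
  let F : ℕ → Sym2 (ZMod q × G) → ℤ := fun n =>
    et ι V (n : ZMod q) ((n : ZMod q) + (c : ZMod q)) (γ d)
  have e : ∀ y : ZMod q, et ι V y (y + (c : ZMod q)) (γ d) = F y.val := fun y => by
    simp only [ZMod.natCast_zmod_val, F]
  rw [sum_congr rfl fun y _ => e y, sum_val F]
  refine sum_congr rfl fun n hn => ?_
  simp only [Function.comp]
  rw [etN_code ι γ hV (mem_range.1 hn) (Nat.mod_lt _ hq), ZMod.natCast_mod, Nat.cast_add]

theorem sum_tgt (hV : UInv V) (Dv C1 C2 : List ℕ) :
    ((tgt q Dv C1 C2).map (etN q ι γ V)).sum =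
      (Dv.map fun c : ℕ => ∑ y : ZMod q, et ι V y (y + (c : ZMod q)) 0).sum +
      (C1.map fun c : ℕ => ∑ y : ZMod q, et ι V y (y + (c : ZMod q)) (γ 1)).sum +
      (C2.map fun c : ℕ => ∑ y : ZMod q, et ι V y (y + (c : ZMod q)) (γ 2)).sum := by
  unfold tgt
  rw [List.map_append, List.map_append, List.sum_append, List.sum_append, sum_tgt_aux ι γ hV,
    sum_tgt_aux ι γ hV, sum_tgt_aux ι γ hV, map_zero, add_assoc]

end Codes

end SqIns
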