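import Pool.Agent.Lib.SqIns.Row
import Pool.Agent.Lib.SqIns.Strip

/-!
# Freed matchings as classes

`cls a c d` is the class of all pairs `(a, z), (c, z + d)`.  For affine bijections of the columns the
freed matchings of a row are classes.
-/

open Finset Equiv

namespace SqIns

section Cls

variable {X R : Type*} [DecidableEq X] [DecidableEq R] [AddCommGroup R] [Fintype R]

/-- the class of all pairs `(a, z), (c, z + d)` -/
def cls (a c : X) (d : R) : Sym2 (X × R) → ℤ := ∑ z : R, pr (a, z) (c, z + d)

theorem cls_symm (a c : X) (d : R) : cls a c d = cls c a (-d) := by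
  unfold cls
  rw [← Equiv.sum_comp (Equiv.addRight (-d))]
  refine sum_congr rfl fun z _ => ?_
  rw [pr_comm]
  simp

/-- the translates of a class -/
theorem push_cls {X' : Type*} [DecidableEq X'] [Fintype X] {f : X → X'} (hf : Function.Injective f)
    (a c : X) (d : R) : push (Prod.map f id) (cls a c d) = cls (f a) (f c) d := by
  unfold cls
  rw [push_sum]
  refine sum_congr rfl fun z _ => ?_
  rw [push_pr (hf.prodMap Function.injective_id)]
  rfl

end Cls

section Aff

variable {R : Type*} [CommRing R]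

/-- the affine permutation `y ↦ u y + v` -/
def affP (u : Rˣ) (v : R) : Perm R where
  toFun y := u * y + v
  invFun y := (u⁻¹ : Rˣ) * (y - v)
  left_inv y := by simp
  right_inv y := by simp

@[simp] theorem affP_apply (u : Rˣ) (v y : R) : affP u v y = u * y + v := rfl

end Aff

namespace Row

variable {X R I : Type*} [Fintype X] [CommRing R] (ρ : Row X R I) [DecidableEq X] [DecidableEq R]
  [Fintype R]

/-- the first point of the window -/
def pa (i : I) : X := ρ.s⁻¹ (ρ.B i)

/-- the second point of the window -/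
def pb (i : I) : X := ρ.B i

/-- the third point of the window -/
def pc (i : I) : X := ρ.s (ρ.B i)

/-- the fourth point of the window -/
def pd (i : I) : X := ρ.s (ρ.s (ρ.B i))

theorem push_aff_aux (β : X → Rˣ) (μ : X → R) (i : I) (κ : R) (x y : X)
    (hu : IsUnit (ρ.col x - ρ.cs i))
    (h : (β x : R) * (ρ.col x - ρ.cs i) = β y * (ρ.col y - ρ.cs i)) :
    push (fib fun x => affP (β x) (μ x)) (∑ l, pr (ρ.at' i κ l x) (ρ.at' i κ l y)) =
      cls x y ((β y - β x) * κ + (μ y - μ x)) := by
  rw [push_sum]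
  have hb : Function.Bijective fun l : R => (β x : R) * (ρ.col x - ρ.cs i) * l +
      (β x * κ + μ x) := by
    refine Finite.injective_iff_bijective.1 fun l l' hl => ?_
    exact ((β x).isUnit.mul hu).mul_left_cancel (add_right_cancel hl)
  unfold cls
  rw [← hb.sum_comp fun z => pr (x, z) (y, z + ((β y - β x) * κ + (μ y - μ x)))]
  refine sum_congr rfl fun l _ => ?_
  rw [push_pr (fib _).injective]
  unfold at'
  rw [fib_apply, fib_apply, affP_apply, affP_apply]
  congr 2
  · ring
  · linear_combination (-l) * h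

/-- the freed edges between the first and the third points are a class -/
theorem push_mac (β : X → Rˣ) (μ : X → R) (i : I) (κ : R)
    (h : (β (ρ.pa i) : R) * (ρ.col (ρ.pa i) - ρ.cs i) =
      β (ρ.pc i) * (ρ.col (ρ.pc i) - ρ.cs i)) :
    push (fib fun x => affP (β x) (μ x)) (ρ.mac i κ) =
      cls (ρ.pa i) (ρ.pc i) ((β (ρ.pc i) - β (ρ.pa i)) * κ + (μ (ρ.pc i) - μ (ρ.pa i))) :=
  ρ.push_aff_aux β μ i κ _ _ (ρ.ua i) h

/-- the freed edges between the second and the fourth points are a class -/
theorem push_mbd (β : X → Rˣ) (μ : X → R) (i : I) (κ : R)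
    (h : (β (ρ.pb i) : R) * (ρ.col (ρ.pb i) - ρ.cs i) =
      β (ρ.pd i) * (ρ.col (ρ.pd i) - ρ.cs i)) :
    push (fib fun x => affP (β x) (μ x)) (ρ.mbd i κ) =
      cls (ρ.pb i) (ρ.pd i) ((β (ρ.pd i) - β (ρ.pb i)) * κ + (μ (ρ.pd i) - μ (ρ.pb i))) :=
  ρ.push_aff_aux β μ i κ _ _ (ρ.ub i) h

end Row

end SqIns
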