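import Pool.Agent.Lib.SqIns.Ops2

/-!
# Lifts of closed squares
-/

open Finset Equiv

namespace SqIns

section Orbit

variable {X : Type*} [Fintype X]

theorem Closed.sum_minimalPeriod {s : Perm X} (h : Closed s) {A : Type*} [AddCommMonoid A]
    (x : X) (f : X → A) :
    ∑ i ∈ range (Function.minimalPeriod s x), f ((s ^ i) x) = ∑ y, f y := by
  classical
  have hper : x ∈ Function.periodicPts s := by
    refine ⟨orderOf s, orderOf_pos s, ?_⟩
    show s^[orderOf s] x = x
    rw [Perm.iterate_eq_pow, pow_orderOf_eq_one, Perm.one_apply]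
  have hpos : 0 < Function.minimalPeriod s x := Function.minimalPeriod_pos_of_mem_periodicPts hper
  have himg : (range (Function.minimalPeriod s x)).image (fun i => (s ^ i) x) = univ := by
    rw [eq_univ_iff_forall]
    intro y
    obtain ⟨n, hn⟩ := (h x y).exists_nat_pow_eq
    rw [mem_image]
    refine ⟨n % Function.minimalPeriod s x, mem_range.2 (Nat.mod_lt _ hpos), ?_⟩
    have := Function.iterate_mod_minimalPeriod_eq (f := s) (x := x) (n := n)
    rw [Perm.iterate_eq_pow, Perm.iterate_eq_pow] at this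
    rw [this, hn]
  rw [← himg, sum_image]
  intro i hi j hj hij
  have hinj := Function.iterate_injOn_Iio_minimalPeriod (f := s) (x := x)
  refine hinj (Set.mem_Iio.2 (mem_range.1 hi)) (Set.mem_Iio.2 (mem_range.1 hj)) ?_
  show s^[i] x = s^[j] x
  rw [Perm.iterate_eq_pow, Perm.iterate_eq_pow]
  exact hij

theorem Closed.minimalPeriod_eq {s : Perm X} (h : Closed s) (x : X) :
    Function.minimalPeriod s x = Fintype.card X := by
  have := h.sum_minimalPeriod x (fun _ => 1)
  simpa using this

theorem Closed.sum_orbit {s : Perm X} (h : Closed s) {A : Type*} [AddCommMonoid A]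
    (x : X) (f : X → A) : ∑ i ∈ range (Fintype.card X), f ((s ^ i) x) = ∑ y, f y := by
  rw [← h.minimalPeriod_eq x, h.sum_minimalPeriod]

theorem Closed.pow_card {s : Perm X} (h : Closed s) (x : X) : (s ^ Fintype.card X) x = x := by
  rw [← h.minimalPeriod_eq x, ← Perm.iterate_eq_pow]
  exact Function.iterate_minimalPeriod

/-- no short periods -/
theorem Closed.pow_ne {s : Perm X} (h : Closed s) (x : X) {n : ℕ} (h0 : 0 < n)
    (hn : n < Fintype.card X) : (s ^ n) x ≠ x := by
  intro hx
  have : Function.minimalPeriod s x ∣ n := by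
    rw [← Function.isPeriodicPt_iff_minimalPeriod_dvd]
    show s^[n] x = x
    rw [Perm.iterate_eq_pow, hx]
  rw [h.minimalPeriod_eq] at this
  exact absurd (Nat.le_of_dvd h0 this) (by omega)

theorem Closed.ne1 {s : Perm X} (h : Closed s) (hc : 1 < Fintype.card X) (x : X) : s x ≠ x := by
  have := h.pow_ne x (n := 1) (by norm_num) hc
  rwa [pow_one] at this

theorem Closed.ne2 {s : Perm X} (h : Closed s) (hc : 2 < Fintype.card X) (x : X) :
    s (s x) ≠ x := by
  have := h.pow_ne x (n := 2) (by norm_num) hc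
  rwa [pow_two, Perm.mul_apply] at this

theorem Closed.ne3 {s : Perm X} (h : Closed s) (hc : 3 < Fintype.card X) (x : X) :
    s (s (s x)) ≠ x := by
  have := h.pow_ne x (n := 3) (by norm_num) hc
  rwa [pow_succ, pow_two, Perm.mul_apply, Perm.mul_apply] at this

end Orbit

section LiftDef

variable {X R : Type*} [AddCommGroup R]

/-- the lift of `s` with translations `f` -/
def lift (s : Perm X) (f : X → R) : Perm (X × R) where
  toFun p := (s p.1, p.2 + f p.1)
  invFun p := (s⁻¹ p.1, p.2 - f (s⁻¹ p.1))
  left_inv p := by simp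
  right_inv p := by simp

theorem lift_apply (s : Perm X) (f : X → R) (x : X) (u : R) :
    lift s f (x, u) = (s x, u + f x) := rfl

theorem lift_pow (s : Perm X) (f : X → R) (n : ℕ) (x : X) (u : R) :
    ((lift s f) ^ n) (x, u) = ((s ^ n) x, u + ∑ i ∈ range n, f ((s ^ i) x)) := by
  induction n with
  | zero => simp
  | succ n ih =>
    rw [pow_succ', Perm.mul_apply, ih, lift_apply, pow_succ', Perm.mul_apply, sum_range_succ,
      add_assoc]

theorem closed_lift [Fintype X] {s : Perm X} (hs : Closed s) (f : X → R)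
    (hf : ∀ r : R, ∃ j : ℕ, j • (∑ x, f x) = r) : Closed (lift s f) := by
  have h1 : ∀ x u, (lift s f).SameCycle (x, u) (x, u + ∑ x, f x) := by
    intro x u
    refine ⟨(Fintype.card X : ℤ), ?_⟩
    rw [zpow_natCast, lift_pow, hs.pow_card, hs.sum_orbit]
  have h2 : ∀ (j : ℕ) x u, (lift s f).SameCycle (x, u) (x, u + j • ∑ x, f x) := by
    intro j
    induction j with
    | zero => intro x u; rw [zero_smul, add_zero]
    | succ j ih =>
      intro x u
      rw [succ_nsmul, ← add_assoc]
      exact (ih x u).trans (h1 _ _)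
  have h3 : ∀ x u u', (lift s f).SameCycle (x, u) (x, u') := by
    intro x u u'
    obtain ⟨j, hj⟩ := hf (u' - u)
    have := h2 j x u
    rw [hj, add_sub_cancel] at this
    exact this
  have h4 : ∀ (u : R) x, (lift s f).SameCycle (x, u) (s x, u) := by
    intro u x
    have : (lift s f).SameCycle (x, u) (s x, u + f x) := ⟨1, by rw [zpow_one, lift_apply]⟩
    exact this.trans (h3 _ _ _)
  rintro ⟨x, u⟩ ⟨y, v⟩
  have h5 : (lift s f).SameCycle (x, u) (y, u) :=
    sameCycle_map (t := lift s f) (fun x => (x, u)) (h4 u) (hs x y)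
  exact h5.trans (h3 _ _ _)

end LiftDef

section Blow

variable {X R : Type*} [DecidableEq X] [DecidableEq R]

/-- blow up of a function on pairs -/
def blow (R : Type*) (φ : Sym2 X → ℤ) : Sym2 (X × R) → ℤ :=
  fun e => if (e.map Prod.fst).IsDiag then 0 else φ (e.map Prod.fst)

theorem blow_add (φ ψ : Sym2 X → ℤ) : blow R (φ + ψ) = blow R φ + blow R ψ := by
  funext e
  simp only [blow, Pi.add_apply]
  split_ifs <;> simp

theorem blow_zero : blow R (0 : Sym2 X → ℤ) = 0 := by
  funext e
  simp [blow]

/-- the blow up as a homomorphism -/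
def blowHom (X R : Type*) [DecidableEq X] [DecidableEq R] : (Sym2 X → ℤ) →+ (Sym2 (X × R) → ℤ) where
  toFun := blow R
  map_zero' := blow_zero
  map_add' := blow_add

theorem blow_sum {ι : Type*} (s : Finset ι) (φ : ι → Sym2 X → ℤ) :
    blow R (∑ i ∈ s, φ i) = ∑ i ∈ s, blow R (φ i) := map_sum (blowHom X R) φ s

variable [Fintype R]

theorem blow_pr {x y : X} (hxy : x ≠ y) :
    blow R (pr x y) = ∑ u : R, ∑ v : R, pr (x, u) (y, v) := by
  funext e
  rw [Finset.sum_apply]
  simp only [Finset.sum_apply]
  induction e with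
  | _ a b =>
    obtain ⟨a, u⟩ := a
    obtain ⟨b, v⟩ := b
    have hne : ∀ u v : R, ((x, u) : X × R) ≠ (y, v) := fun u v h => hxy (Prod.ext_iff.1 h).1
    simp only [blow, Sym2.map_mk, Sym2.mk_isDiag_iff, pr_apply, hxy, hne, ne_eq, not_false_eq_true,
      true_and, Sym2.eq_iff, Prod.mk.injEq]
    by_cases h1 : a = x ∧ b = y
    · obtain ⟨rfl, rfl⟩ := h1
      rw [if_neg hxy, if_pos (Or.inl ⟨rfl, rfl⟩)]
      rw [sum_eq_single u, sum_eq_single v]
      · simp
      · intro v' _ hv'
        rw [if_neg]
        simp [hv'.symm, hxy]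
      · simp
      · intro u' _ hu'
        refine sum_eq_zero fun v' _ => ?_
        rw [if_neg]
        simp [hu'.symm, hxy]
      · simp
    · by_cases h2 : a = y ∧ b = x
      · obtain ⟨rfl, rfl⟩ := h2
        rw [if_neg (Ne.symm hxy), if_pos (Or.inr ⟨rfl, rfl⟩)]
        rw [sum_eq_single v, sum_eq_single u]
        · simp
        · intro v' _ hv'
          rw [if_neg]
          simp [hv'.symm, hxy.symm]
        · simp
        · intro u' _ hu'
          refine sum_eq_zero fun v' _ => ?_
          rw [if_neg]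
          simp [hu'.symm, hxy.symm]
        · simp
      · have e1 : (if a = b then (0 : ℤ) else if a = x ∧ b = y ∨ a = y ∧ b = x then 1 else 0) = 0 := by
          rw [if_neg (not_or.2 ⟨h1, h2⟩)]
          simp
        rw [e1]
        symm
        refine sum_eq_zero fun u' _ => sum_eq_zero fun v' _ => ?_
        rw [if_neg]
        rintro (⟨⟨h3, _⟩, h4, _⟩ | ⟨⟨h3, _⟩, h4, _⟩)
        · exact h1 ⟨h3, h4⟩
        · exact h2 ⟨h3, h4⟩

/-- all vertical pairs -/
def vertAll (X R : Type*) [DecidableEq X] [DecidableEq R] : Sym2 (X × R) → ℤ :=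
  fun e => if (e.map Prod.fst).IsDiag ∧ ¬ e.IsDiag then 1 else 0

omit [Fintype R] in
theorem blow_allPairs : blow R (allPairs X) + vertAll X R = allPairs (X × R) := by
  funext e
  simp only [Pi.add_apply, blow, allPairs, vertAll]
  by_cases h : (e.map Prod.fst).IsDiag
  · simp only [h, if_true, true_and]
    by_cases h' : e.IsDiag <;> simp [h']
  · have h' : ¬ e.IsDiag := by
      intro h'
      apply h
      induction e with
      | _ a b =>
        rw [Sym2.mk_isDiag_iff] at h'
        subst h'
        simp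
    simp [h, h']

variable [Fintype X] [AddCommGroup R]

theorem E_lift (s : Perm X) (f : X → R) : E (lift s f) =
    ∑ x, ∑ u, (pr (x, u) (s x, u + f x) + pr (x, u) (s (s x), u + (f x + f (s x)))) := by
  unfold E
  rw [Fintype.sum_prod_type]
  refine sum_congr rfl fun x _ => sum_congr rfl fun u _ => ?_
  rw [lift_apply, lift_apply, add_assoc]

theorem E_lift_sum {Y : Type*} [Fintype Y] (s : Perm X) (hs1 : ∀ x, s x ≠ x)
    (hs2 : ∀ x, s (s x) ≠ x) (f : Y → X → R) (h1 : ∀ x, Function.Bijective fun y => f y x)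
    (h2 : ∀ x, Function.Bijective fun y => f y x + f y (s x)) :
    ∑ y, E (lift s (f y)) = blow R (E s) := by
  unfold E
  rw [blow_sum]
  have e0 : ∀ y, ∑ v, (pr v (lift s (f y) v) + pr v (lift s (f y) (lift s (f y) v))) =
      ∑ x, ∑ u, (pr (x, u) (s x, u + f y x) + pr (x, u) (s (s x), u + (f y x + f y (s x)))) :=
    fun y => E_lift s (f y)
  rw [sum_congr rfl fun y _ => e0 y, sum_comm]
  refine sum_congr rfl fun x _ => ?_
  rw [blow_add, blow_pr (hs1 x).symm, blow_pr (hs2 x).symm, sum_comm]
  rw [← sum_add_distrib]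
  refine sum_congr rfl fun u _ => ?_
  rw [sum_add_distrib]
  congr 1
  · exact Function.Bijective.sum_comp ((Equiv.addLeft u).bijective.comp (h1 x))
      (fun v => pr (x, u) (s x, v))
  · exact Function.Bijective.sum_comp ((Equiv.addLeft u).bijective.comp (h2 x))
      (fun v => pr (x, u) (s (s x), v))

end Blow

end SqIns
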