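import Pool.Agent.Lib.SqIns.MWord

/-!
# The word `m = 11`
-/

namespace SqIns

/-- the word `m = 11` -/
def w11 : MW where
  m := 11
  p := 1
  ε := -1
  W := [(0, 7), (-1, 8), (1, 0), (1, 4), (0, 5), (0, 2), (-1, 6), (-1, 1), (1, 10), (1, 9), (2, 3)]
  C2 := [[3, 4, 6, 7, 8, 9]]
  F := [0, 1, 2, 0, 1, 2, 3, 0, 1, 2, 3]
  ns := 0
  sup := fun _ _ => true
  d0 := fun tw up _ =>
    match tw, up with
    | false, true => false
    | false, false => true
    | true, true => false
    | true, false => true
  pd := fun tw up L =>
    match tw, up with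
    | false, true => ⟨[(2, false), (4, false)],
      [5, 7, 9, 0, 2, 3].map fun x => (if L % 2 = 0 then x else (11 - x) % 11), [0]⟩
    | false, false => ⟨[(2, true), (4, true)],
      [7, 8, 0, 1, 4, 3].map fun x => (if L % 2 = 0 then x else (11 - x) % 11), [0]⟩
    | true, true => ⟨[(2, false), (4, false)],
      [8, 10, 1, 3, 5, 6, 5].map fun x => (if L % 2 = 0 then x else (11 - x) % 11), [4, 5, 6]⟩
    | true, false => ⟨[(2, true), (4, true)],
      [2, 3, 6, 7, 10, 9, 7].map fun x => (if L % 2 = 0 then x else (11 - x) % 11), [3, 5, 6]⟩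
  supw := fun _ _ => true
  pw := fun tw d L =>
    match tw, d with
    | false, true => ⟨[(2, true), (2, false), (4, true), (4, false), (6, true), (6, false)],
      [1, 0, 5].map fun x => (if L % 2 = 0 then x else (11 - x) % 11), [0]⟩
    | false, false => ⟨[(2, true), (2, false), (4, true), (4, false), (6, true), (6, false)],
      [1, 0, 5].map fun x => (if L % 2 = 0 then x else (11 - x) % 11), [2]⟩
    | true, true => ⟨[(2, true), (2, false), (4, true), (4, false), (6, true), (6, false)],
      [2, 1, 6, 1].map fun x => (if L % 2 = 0 then x else (11 - x) % 11), [0, 1, 3]⟩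
    | true, false => ⟨[(2, true), (2, false), (4, true), (4, false), (6, true), (6, false)],
      [6, 5, 10].map fun x => (if L % 2 = 0 then x else (11 - x) % 11), [0, 1, 2]⟩

theorem w11_chk : (w11).Chk 6 7 3 4 := {
    m0 := by decide, p0 := by decide, m2 := by decide, p4 := by decide, ε2 := by decide
    T := by decide +kernel, E := by decide +kernel, F := by decide +kernel
    len := by decide +kernel, P1 := by decide +kernel, P3 := by decide +kernel
    Q1 := by decide +kernel, Q3 := by decide +kernel }

end SqIns
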