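import Pool.Agent.Lib.SqIns.MWord

/-!
# The word `m = 13`
-/

namespace SqIns

/-- the word `m = 13` -/
def w13 : MW where
  m := 13
  p := 1
  ε := -1
  W := [(0, 8), (1, 1), (1, 6), (0, 9), (0, 7), (2, 0), (1, 4), (2, 12), (0, 3), (0, 10), (-1, 2), (-1, 11), (1, 5)]
  C2 := [[2, 3, 4, 6, 7, 9, 10]]
  F := [0, 1, 2, 0, 1, 2, 0, 1, 2, 0, 1, 2, 3]
  ns := 4
  sup := fun _ _ => true
  d0 := fun tw up _ =>
    match tw, up with
    | false, true => false
    | false, false => false
    | true, true => false
    | true, false => true
  pd := fun tw up L =>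
    match tw, up with
    | false, true => ⟨[(1, false), (8, false), (12, true)],
      [2, 10, 5, 0, 1].map fun x => (if L % 2 = 0 then x else (13 - x) % 13), [0]⟩
    | false, false => ⟨[(1, true), (8, true), (12, false)],
      [2, 12, 0, 1, 3].map fun x => (if L % 2 = 0 then x else (13 - x) % 13), [1]⟩
    | true, true => ⟨[(1, false), (8, false), (12, true)],
      [4, 12, 7, 2, 9, 2].map fun x => (if L % 2 = 0 then x else (13 - x) % 13), [3, 4, 5]⟩
    | true, false => ⟨[(1, true), (8, true), (12, false)],
      [6, 3, 4, 5, 7, 3].map fun x => (if L % 2 = 0 then x else (13 - x) % 13), [1, 4, 5]⟩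
  supw := fun _ _ => true
  pw := fun tw d L =>
    match tw, d with
    | false, true => ⟨[(1, true), (1, false), (6, false), (8, true), (8, false), (10, true), (10, false), (12, true), (12, false)],
      [11, 0].map fun x => (if L % 2 = 0 then x else (13 - x) % 13), [0]⟩
    | false, false => ⟨[(1, true), (1, false), (6, false), (8, true), (8, false), (10, true), (10, false), (12, true), (12, false)],
      [1, 3].map fun x => (if L % 2 = 0 then x else (13 - x) % 13), [0]⟩
    | true, true => ⟨[(1, true), (1, false), (6, false), (8, true), (8, false), (10, true), (10, false), (12, true), (12, false)],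
      [8, 10, 6].map fun x => (if L % 2 = 0 then x else (13 - x) % 13), [0, 1, 2]⟩
    | true, false => ⟨[(1, true), (1, false), (6, false), (8, true), (8, false), (10, true), (10, false), (12, true), (12, false)],
      [1, 3, 1].map fun x => (if L % 2 = 0 then x else (13 - x) % 13), [0, 1, 2]⟩

theorem w13_chk : (w13).Chk 5 6 2 3 := {
    m0 := by decide, p0 := by decide, m2 := by decide, p4 := by decide, ε2 := by decide
    T := by decide +kernel, E := by decide +kernel, F := by decide +kernel
    len := by decide +kernel, P1 := by decide +kernel, P3 := by decide +kernel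
    Q1 := by decide +kernel, Q3 := by decide +kernel }

end SqIns
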