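import Pool.Agent.Lib.SqIns.MWord

/-!
# The word `m = 17`
-/

namespace SqIns

/-- the word `m = 17` -/
def w17 : MW where
  m := 17
  p := 1
  ε := -1
  W := [(0, 6), (-2, 15), (-1, 9), (0, 3), (1, 11), (1, 2), (2, 8), (2, 1), (4, 12), (4, 0), (3, 13), (3, 16), (2, 5), (2, 7), (1, 4), (1, 10), (-1, 14)]
  C2 := [[2, 4, 5, 7, 8, 9, 11, 13, 16]]
  F := [0, 1, 2, 0, 1, 2, 0, 1, 2, 0, 1, 2, 3, 0, 1, 2, 3]
  ns := 0
  sup := fun _ _ => true
  d0 := fun tw up _ =>
    match tw, up with
    | false, true => false
    | false, false => false
    | true, true => false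
    | true, false => true
  pd := fun tw up L =>
    match tw, up with
    | false, true => ⟨[(4, true), (8, false), (10, false), (12, false)],
      [2, 14, 7, 9, 4].map fun x => (if L % 2 = 0 then x else (17 - x) % 17), [4]⟩
    | false, false => ⟨[(4, false), (8, true), (10, true), (12, true)],
      [9, 11, 13, 15, 16].map fun x => (if L % 2 = 0 then x else (17 - x) % 17), [0]⟩
    | true, true => ⟨[(4, true), (8, false), (10, false), (12, false)],
      [0, 4, 5, 10, 12, 13].map fun x => (if L % 2 = 0 then x else (17 - x) % 17), [1, 2, 5]⟩
    | true, false => ⟨[(4, false), (8, true), (10, true), (12, true)],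
      [11, 13, 15, 0, 1, 0].map fun x => (if L % 2 = 0 then x else (17 - x) % 17), [3, 4, 5]⟩
  supw := fun _ _ => true
  pw := fun tw d L =>
    match tw, d with
    | false, true => ⟨[(2, false), (4, true), (4, false), (6, true), (6, false), (8, true), (8, false), (10, true), (10, false), (12, true), (12, false)],
      [0, 2].map fun x => (if L % 2 = 0 then x else (17 - x) % 17), [0]⟩
    | false, false => ⟨[(2, false), (4, true), (4, false), (6, true), (6, false), (8, true), (8, false), (10, true), (10, false), (12, true), (12, false)],
      [13, 15].map fun x => (if L % 2 = 0 then x else (17 - x) % 17), [0]⟩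
    | true, true => ⟨[(2, false), (4, true), (4, false), (6, true), (6, false), (8, true), (8, false), (10, true), (10, false), (12, true), (12, false)],
      [0, 2, 0].map fun x => (if L % 2 = 0 then x else (17 - x) % 17), [0, 1, 2]⟩
    | true, false => ⟨[(2, false), (4, true), (4, false), (6, true), (6, false), (8, true), (8, false), (10, true), (10, false), (12, true), (12, false)],
      [11, 13, 4].map fun x => (if L % 2 = 0 then x else (17 - x) % 17), [0, 1, 2]⟩

theorem w17_chk : (w17).Chk 5 6 2 3 := {
    m0 := by decide, p0 := by decide, m2 := by decide, p4 := by decide, ε2 := by decide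
    T := by decide +kernel, E := by decide +kernel, F := by decide +kernel
    len := by decide +kernel, P1 := by decide +kernel, P3 := by decide +kernel
    Q1 := by decide +kernel, Q3 := by decide +kernel }

end SqIns
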