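import Pool.Agent.Lib.SqIns.MWord

/-!
# The word `m = 19`
-/

namespace SqIns

/-- the word `m = 19` -/
def w19 : MW where
  m := 19
  p := 1
  ε := -1
  W := [(0, 2), (0, 16), (1, 9), (1, 10), (2, 18), (2, 7), (4, 13), (4, 15), (3, 0), (3, 6), (1, 1), (3, 3), (2, 17), (1, 5), (1, 14), (-1, 4), (-1, 11), (0, 12), (0, 8)]
  C2 := [[1, 2, 3, 5, 6, 8, 10, 14, 17, 18]]
  F := [0, 1, 2, 0, 1, 2, 0, 1, 2, 0, 1, 2, 0, 1, 2, 0, 1, 2, 3]
  ns := 9
  sup := fun _ _ => true
  d0 := fun tw up _ =>
    match tw, up with
    | false, true => false
    | false, false => false
    | true, true => true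
    | true, false => false
  pd := fun tw up L =>
    match tw, up with
    | false, true => ⟨[(0, true), (2, true), (6, false), (15, true), (17, true)],
      [0, 12, 5, 17, 7].map fun x => (if L % 2 = 0 then x else (19 - x) % 19), [0]⟩
    | false, false => ⟨[(0, false), (2, false), (6, true), (15, false), (17, false)],
      [1, 5, 9, 13].map fun x => (if L % 2 = 0 then x else (19 - x) % 19), [0]⟩
    | true, true => ⟨[(0, true), (2, true), (6, false), (15, true), (17, true)],
      [11, 4, 16, 9, 10].map fun x => (if L % 2 = 0 then x else (19 - x) % 19), [0, 2, 4]⟩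
    | true, false => ⟨[(0, false), (2, false), (6, true), (15, false), (17, false)],
      [17, 2, 6, 10, 1].map fun x => (if L % 2 = 0 then x else (19 - x) % 19), [0, 3, 4]⟩
  supw := fun _ _ => true
  pw := fun tw d L =>
    match tw, d with
    | false, true => ⟨[(0, true), (0, false), (2, true), (2, false), (4, true), (4, false), (6, true), (6, false), (11, false), (13, true), (13, false), (15, true), (15, false), (17, true), (17, false)],
      [16, 17].map fun x => (if L % 2 = 0 then x else (19 - x) % 19), [0]⟩
    | false, false => ⟨[(0, true), (0, false), (2, true), (2, false), (4, true), (4, false), (6, true), (6, false), (11, false), (13, true), (13, false), (15, true), (15, false), (17, true), (17, false)],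
      [0, 1].map fun x => (if L % 2 = 0 then x else (19 - x) % 19), [0]⟩
    | true, true => ⟨[(0, true), (0, false), (2, true), (2, false), (4, true), (4, false), (6, true), (6, false), (11, false), (13, true), (13, false), (15, true), (15, false), (17, true), (17, false)],
      [15, 16, 7].map fun x => (if L % 2 = 0 then x else (19 - x) % 19), [0, 1, 2]⟩
    | true, false => ⟨[(0, true), (0, false), (2, true), (2, false), (4, true), (4, false), (6, true), (6, false), (11, false), (13, true), (13, false), (15, true), (15, false), (17, true), (17, false)],
      [18, 0, 0].map fun x => (if L % 2 = 0 then x else (19 - x) % 19), [0, 1, 2]⟩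

theorem w19_chk : (w19).Chk 5 5 2 3 := {
    m0 := by decide, p0 := by decide, m2 := by decide, p4 := by decide, ε2 := by decide
    T := by decide +kernel, E := by decide +kernel, F := by decide +kernel
    len := by decide +kernel, P1 := by decide +kernel, P3 := by decide +kernel
    Q1 := by decide +kernel, Q3 := by decide +kernel }

end SqIns
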