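import Pool.Agent.Lib.SqIns.MWord

/-!
# The word `m = 23`
-/

namespace SqIns

/-- the word `m = 23` -/
def w23 : MW where
  m := 23
  p := 1
  ε := -1
  W := [(0, 15), (0, 18), (1, 4), (1, 12), (0, 19), (0, 1), (-1, 8), (-1, 17), (-2, 20), (-2, 7), (-3, 5), (-3, 22), (-2, 21), (-1, 13), (0, 3), (0, 2), (2, 6), (2, 10), (3, 11), (3, 0), (5, 9), (3, 16), (3, 14)]
  C2 := [[1, 3, 4, 5, 8, 9, 14, 16, 18, 19, 21, 22]]
  F := [0, 1, 2, 0, 1, 2, 0, 1, 2, 0, 1, 2, 0, 1, 2, 0, 1, 2, 3, 0, 1, 2, 3]
  ns := 13
  sup := fun _ _ => true
  d0 := fun tw up _ =>
    match tw, up with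
    | false, true => false
    | false, false => false
    | true, true => false
    | true, false => true
  pd := fun tw up L =>
    match tw, up with
    | false, true => ⟨[(0, true), (2, false), (4, false), (6, false), (8, false), (16, true)],
      [5, 9, 12, 8, 1].map fun x => (if L % 2 = 0 then x else (23 - x) % 23), [0]⟩
    | false, false => ⟨[(0, false), (2, true), (4, true), (6, true), (8, true), (16, false)],
      [5, 19, 7, 21, 10].map fun x => (if L % 2 = 0 then x else (23 - x) % 23), [1]⟩
    | true, true => ⟨[(0, true), (2, false), (4, false), (6, false), (8, false), (16, true)],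
      [1, 5, 8, 4, 20].map fun x => (if L % 2 = 0 then x else (23 - x) % 23), [1, 2, 4]⟩
    | true, false => ⟨[(0, false), (2, true), (4, true), (6, true), (8, true), (16, false)],
      [6, 20, 8, 22, 11].map fun x => (if L % 2 = 0 then x else (23 - x) % 23), [0, 3, 4]⟩
  supw := fun _ _ => true
  pw := fun tw d L =>
    match tw, d with
    | false, true => ⟨[(0, true), (0, false), (2, true), (2, false), (4, true), (4, false), (6, true), (6, false), (8, true), (8, false), (10, true), (14, true), (14, false), (16, true), (16, false), (21, true), (21, false)],
      [1, 0].map fun x => (if L % 2 = 0 then x else (23 - x) % 23), [0]⟩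
    | false, false => ⟨[(0, true), (0, false), (2, true), (2, false), (4, true), (4, false), (6, true), (6, false), (8, true), (8, false), (10, true), (14, true), (14, false), (16, true), (16, false), (21, true), (21, false)],
      [21, 20].map fun x => (if L % 2 = 0 then x else (23 - x) % 23), [1]⟩
    | true, true => ⟨[(0, true), (0, false), (2, true), (2, false), (4, true), (4, false), (6, true), (6, false), (8, true), (8, false), (10, true), (14, true), (14, false), (16, true), (16, false), (21, true), (21, false)],
      [18, 17, 1].map fun x => (if L % 2 = 0 then x else (23 - x) % 23), [0, 1, 2]⟩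
    | true, false => ⟨[(0, true), (0, false), (2, true), (2, false), (4, true), (4, false), (6, true), (6, false), (8, true), (8, false), (10, true), (14, true), (14, false), (16, true), (16, false), (21, true), (21, false)],
      [20, 19, 4].map fun x => (if L % 2 = 0 then x else (23 - x) % 23), [0, 1, 2]⟩

theorem w23_chk : (w23).Chk 5 5 2 3 := {
    m0 := by decide, p0 := by decide, m2 := by decide, p4 := by decide, ε2 := by decide
    T := by decide +kernel, E := by decide +kernel, F := by decide +kernel
    len := by decide +kernel, P1 := by decide +kernel, P3 := by decide +kernel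
    Q1 := by decide +kernel, Q3 := by decide +kernel }

end SqIns
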