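import Pool.Agent.Lib.SqIns.MWord

/-!
# The word `m = 25`
-/

namespace SqIns

/-- the word `m = 25` -/
def w25 : MW where
  m := 25
  p := 1
  ε := -1
  W := [(0, 23), (-2, 8), (-2, 20), (-1, 3), (-1, 9), (-2, 16), (-2, 5), (-3, 22), (-3, 2), (-2, 13), (-2, 10), (-1, 7), (-1, 6), (1, 17), (1, 24), (0, 4), (0, 0), (-1, 18), (-1, 1), (1, 15), (-1, 11), (0, 19), (1, 12), (-1, 14), (1, 21)]
  C2 := [[1, 3, 4, 7, 9, 10, 11, 13, 14, 15, 18, 22, 23]]
  F := [0, 1, 2, 0, 1, 2, 0, 1, 2, 0, 1, 2, 0, 1, 2, 0, 1, 2, 0, 1, 2, 0, 1, 2, 3]
  ns := 0
  sup := fun _ _ => true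
  d0 := fun tw up _ =>
    match tw, up with
    | false, true => false
    | false, false => false
    | true, true => false
    | true, false => true
  pd := fun tw up L =>
    match tw, up with
    | false, true => ⟨[(1, true), (3, false), (5, false), (7, true), (9, true), (13, false), (15, false)],
      [2, 3, 6, 13, 16].map fun x => (if L % 2 = 0 then x else (25 - x) % 25), [4]⟩
    | false, false => ⟨[(1, false), (3, true), (5, true), (7, false), (9, false), (13, true), (15, true)],
      [0, 1, 14, 12, 13].map fun x => (if L % 2 = 0 then x else (25 - x) % 25), [3]⟩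
    | true, true => ⟨[(1, true), (3, false), (5, false), (7, true), (9, true), (13, false), (15, false)],
      [18, 19, 22, 4, 7].map fun x => (if L % 2 = 0 then x else (25 - x) % 25), [0, 2, 3]⟩
    | true, false => ⟨[(1, false), (3, true), (5, true), (7, false), (9, false), (13, true), (15, true)],
      [12, 13, 1, 20, 0].map fun x => (if L % 2 = 0 then x else (25 - x) % 25), [2, 3, 4]⟩
  supw := fun _ _ => true
  pw := fun tw d L =>
    match tw, d with
    | false, true => ⟨[(1, true), (1, false), (3, true), (3, false), (5, true), (5, false), (7, true), (7, false), (9, true), (9, false), (11, true), (11, false), (13, true), (13, false), (15, true), (15, false)],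
      [0, 1, 2].map fun x => (if L % 2 = 0 then x else (25 - x) % 25), [0]⟩
    | false, false => ⟨[(1, true), (1, false), (3, true), (3, false), (5, true), (5, false), (7, true), (7, false), (9, true), (9, false), (11, true), (11, false), (13, true), (13, false), (15, true), (15, false)],
      [22, 23, 24].map fun x => (if L % 2 = 0 then x else (25 - x) % 25), [0]⟩
    | true, true => ⟨[(1, true), (1, false), (3, true), (3, false), (5, true), (5, false), (7, true), (7, false), (9, true), (9, false), (11, true), (11, false), (13, true), (13, false), (15, true), (15, false)],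
      [24, 0, 5].map fun x => (if L % 2 = 0 then x else (25 - x) % 25), [0, 1, 2]⟩
    | true, false => ⟨[(1, true), (1, false), (3, true), (3, false), (5, true), (5, false), (7, true), (7, false), (9, true), (9, false), (11, true), (11, false), (13, true), (13, false), (15, true), (15, false)],
      [16, 17, 18].map fun x => (if L % 2 = 0 then x else (25 - x) % 25), [0, 1, 2]⟩

theorem w25_chk : (w25).Chk 5 5 3 3 := {
    m0 := by decide, p0 := by decide, m2 := by decide, p4 := by decide, ε2 := by decide
    T := by decide +kernel, E := by decide +kernel, F := by decide +kernel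
    len := by decide +kernel, P1 := by decide +kernel, P3 := by decide +kernel
    Q1 := by decide +kernel, Q3 := by decide +kernel }

end SqIns
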