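import Pool.Agent.Lib.SqIns.MWord

/-!
# The word `m = 29`
-/

namespace SqIns

/-- the word `m = 29` -/
def w29 : MW where
  m := 29
  p := 1
  ε := -1
  W := [(0, 10), (-1, 9), (-1, 2), (-2, 14), (-2, 6), (-3, 15), (-3, 3), (-1, 8), (-1, 17), (-2, 16), (-2, 27), (-1, 1), (-1, 20), (0, 19), (0, 22), (-2, 13), (-2, 28), (0, 24), (0, 0), (1, 7), (1, 11), (0, 23), (0, 21), (1, 4), (1, 5), (3, 12), (3, 18), (1, 26), (2, 25)]
  C2 := [[1, 5, 6, 7, 8, 9, 11, 13, 14, 15, 16, 21, 22, 23, 25]]
  F := [0, 1, 2, 0, 1, 2, 0, 1, 2, 0, 1, 2, 0, 1, 2, 0, 1, 2, 0, 1, 2, 0, 1, 2, 3, 0, 1, 2, 3]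
  ns := 0
  sup := fun _ _ => true
  d0 := fun tw up _ =>
    match tw, up with
    | false, true => false
    | false, false => false
    | true, true => false
    | true, false => false
  pd := fun tw up L =>
    match tw, up with
    | false, true => ⟨[(1, false), (3, false), (7, false), (9, true), (11, true), (17, true), (19, false), (21, true)],
      [28, 16, 17, 25, 6].map fun x => (if L % 2 = 0 then x else (29 - x) % 29), [1]⟩
    | false, false => ⟨[(1, true), (3, true), (7, true), (9, false), (11, false), (17, false), (19, true), (21, false)],
      [10, 19, 1, 2, 9, 5].map fun x => (if L % 2 = 0 then x else (29 - x) % 29), [0]⟩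
    | true, true => ⟨[(1, false), (3, false), (7, false), (9, true), (11, true), (17, true), (19, false), (21, true)],
      [26, 14, 15, 23, 4].map fun x => (if L % 2 = 0 then x else (29 - x) % 29), [1, 2, 3]⟩
    | true, false => ⟨[(1, true), (3, true), (7, true), (9, false), (11, false), (17, false), (19, true), (21, false)],
      [1, 10, 21, 22, 0, 25].map fun x => (if L % 2 = 0 then x else (29 - x) % 29), [1, 3, 5]⟩
  supw := fun _ _ => true
  pw := fun tw d L =>
    match tw, d with
    | false, true => ⟨[(1, true), (1, false), (3, true), (3, false), (5, true), (5, false), (7, true), (7, false), (9, true), (9, false), (11, true), (11, false), (13, true), (13, false), (15, true), (15, false), (17, true), (17, false), (19, true), (19, false), (21, true), (21, false), (23, true), (23, false), (25, true)],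
      [0, 2].map fun x => (if L % 2 = 0 then x else (29 - x) % 29), [0]⟩
    | false, false => ⟨[(1, true), (1, false), (3, true), (3, false), (5, true), (5, false), (7, true), (7, false), (9, true), (9, false), (11, true), (11, false), (13, true), (13, false), (15, true), (15, false), (17, true), (17, false), (19, true), (19, false), (21, true), (21, false), (23, true), (23, false), (25, true)],
      [28, 1].map fun x => (if L % 2 = 0 then x else (29 - x) % 29), [1]⟩
    | true, true => ⟨[(1, true), (1, false), (3, true), (3, false), (5, true), (5, false), (7, true), (7, false), (9, true), (9, false), (11, true), (11, false), (13, true), (13, false), (15, true), (15, false), (17, true), (17, false), (19, true), (19, false), (21, true), (21, false), (23, true), (23, false), (25, true)],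
      [0, 2, 0].map fun x => (if L % 2 = 0 then x else (29 - x) % 29), [0, 1, 2]⟩
    | true, false => ⟨[(1, true), (1, false), (3, true), (3, false), (5, true), (5, false), (7, true), (7, false), (9, true), (9, false), (11, true), (11, false), (13, true), (13, false), (15, true), (15, false), (17, true), (17, false), (19, true), (19, false), (21, true), (21, false), (23, true), (23, false), (25, true)],
      [14, 16, 1].map fun x => (if L % 2 = 0 then x else (29 - x) % 29), [0, 1, 2]⟩

theorem w29_chk : (w29).Chk 6 6 2 3 := {
    m0 := by decide, p0 := by decide, m2 := by decide, p4 := by decide, ε2 := by decide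
    T := by decide +kernel, E := by decide +kernel, F := by decide +kernel
    len := by decide +kernel, P1 := by decide +kernel, P3 := by decide +kernel
    Q1 := by decide +kernel, Q3 := by decide +kernel }

end SqIns
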