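import Pool.Agent.Lib.SqIns.MWord

/-!
# The word `m = 31`
-/

namespace SqIns

/-- the word `m = 31` -/
def w31 : MW where
  m := 31
  p := 1
  ε := -1
  W := [(0, 23), (1, 15), (1, 19), (2, 28), (2, 8), (3, 24), (3, 1), (5, 13), (5, 10), (3, 30), (3, 25), (2, 0), (1, 6), (3, 2), (3, 14), (4, 27), (4, 9), (3, 4), (3, 26), (2, 22), (2, 29), (1, 17), (1, 16), (2, 3), (2, 20), (0, 5), (2, 18), (2, 12), (0, 21), (0, 11), (1, 7)]
  C2 := [[1, 7, 8, 9, 11, 12, 13, 14, 15, 16, 19, 20, 22, 27, 28, 29]]
  F := [0, 1, 2, 0, 1, 2, 0, 1, 2, 0, 1, 2, 0, 1, 2, 0, 1, 2, 0, 1, 2, 0, 1, 2, 0, 1, 2, 0, 1, 2, 3]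
  ns := 6
  sup := fun _ _ => true
  d0 := fun tw up _ =>
    match tw, up with
    | false, true => false
    | false, false => false
    | true, true => true
    | true, false => false
  pd := fun tw up L =>
    match tw, up with
    | false, true => ⟨[(1, true), (3, true), (13, true), (15, false), (17, false), (19, false), (21, true), (28, true), (30, true)],
      [4, 18, 19, 17, 8].map fun x => (if L % 2 = 0 then x else (31 - x) % 31), [0]⟩
    | false, false => ⟨[(1, false), (3, false), (13, false), (15, true), (17, true), (19, true), (21, false), (28, false), (30, false)],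
      [1, 16, 8, 26, 11].map fun x => (if L % 2 = 0 then x else (31 - x) % 31), [1]⟩
    | true, true => ⟨[(1, true), (3, true), (13, true), (15, false), (17, false), (19, false), (21, true), (28, true), (30, true)],
      [2, 16, 23, 11, 4].map fun x => (if L % 2 = 0 then x else (31 - x) % 31), [1, 2, 3]⟩
    | true, false => ⟨[(1, false), (3, false), (13, false), (15, true), (17, true), (19, true), (21, false), (28, false), (30, false)],
      [28, 12, 4, 22, 7].map fun x => (if L % 2 = 0 then x else (31 - x) % 31), [0, 2, 4]⟩
  supw := fun _ _ => true
  pw := fun tw d L =>
    match tw, d with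
    | false, true => ⟨[(1, true), (1, false), (3, true), (3, false), (7, true), (7, false), (9, true), (11, false), (13, true), (13, false), (15, true), (15, false), (17, true), (17, false), (19, true), (19, false), (21, true), (21, false), (26, true), (26, false), (28, true), (28, false), (30, true), (30, false)],
      [29, 1].map fun x => (if L % 2 = 0 then x else (31 - x) % 31), [0]⟩
    | false, false => ⟨[(1, true), (1, false), (3, true), (3, false), (7, true), (7, false), (9, true), (11, false), (13, true), (13, false), (15, true), (15, false), (17, true), (17, false), (19, true), (19, false), (21, true), (21, false), (26, true), (26, false), (28, true), (28, false), (30, true), (30, false)],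
      [2, 5].map fun x => (if L % 2 = 0 then x else (31 - x) % 31), [0]⟩
    | true, true => ⟨[(1, true), (1, false), (3, true), (3, false), (7, true), (7, false), (9, true), (11, false), (13, true), (13, false), (15, true), (15, false), (17, true), (17, false), (19, true), (19, false), (21, true), (21, false), (26, true), (26, false), (28, true), (28, false), (30, true), (30, false)],
      [26, 29, 8].map fun x => (if L % 2 = 0 then x else (31 - x) % 31), [0, 1, 2]⟩
    | true, false => ⟨[(1, true), (1, false), (3, true), (3, false), (7, true), (7, false), (9, true), (11, false), (13, true), (13, false), (15, true), (15, false), (17, true), (17, false), (19, true), (19, false), (21, true), (21, false), (26, true), (26, false), (28, true), (28, false), (30, true), (30, false)],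
      [30, 2, 2].map fun x => (if L % 2 = 0 then x else (31 - x) % 31), [0, 1, 2]⟩

theorem w31_chk : (w31).Chk 5 5 2 3 := {
    m0 := by decide, p0 := by decide, m2 := by decide, p4 := by decide, ε2 := by decide
    T := by decide +kernel, E := by decide +kernel, F := by decide +kernel
    len := by decide +kernel, P1 := by decide +kernel, P3 := by decide +kernel
    Q1 := by decide +kernel, Q3 := by decide +kernel }

end SqIns
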