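import Pool.Agent.Lib.SqIns.MWord

/-!
# The word `m = 35`
-/

namespace SqIns

/-- the word `m = 35` -/
def w35 : MW where
  m := 35
  p := 1
  ε := -1
  W := [(0, 14), (-1, 2), (1, 27), (1, 26), (0, 3), (0, 11), (-1, 20), (-1, 13), (-2, 12), (-2, 6), (-1, 21), (-1, 16), (1, 33), (1, 10), (1, 1), (-1, 5), (-1, 15), (1, 25), (1, 7), (0, 19), (0, 32), (1, 23), (1, 4), (2, 24), (2, 9), (1, 29), (1, 31), (3, 30), (1, 17), (1, 28), (2, 18), (2, 22), (1, 34), (0, 0), (-1, 8)]
  C2 := [[1, 2, 5, 6, 10, 12, 13, 17, 20, 21, 22, 24, 25, 26, 27, 29, 31, 34]]
  F := [0, 1, 2, 0, 1, 2, 0, 1, 2, 0, 1, 2, 0, 1, 2, 0, 1, 2, 0, 1, 2, 0, 1, 2, 0, 1, 2, 0, 1, 2, 3, 0, 1, 2, 3]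
  ns := 0
  sup := fun _ _ => true
  d0 := fun tw up _ =>
    match tw, up with
    | false, true => false
    | false, false => false
    | true, true => false
    | true, false => true
  pd := fun tw up L =>
    match tw, up with
    | false, true => ⟨[(2, false), (4, false), (6, false), (8, true), (17, false), (19, true), (21, true), (23, false), (28, true)],
      [3, 33, 5, 0, 1, 19].map fun x => (if L % 2 = 0 then x else (35 - x) % 35), [0]⟩
    | false, false => ⟨[(2, true), (4, true), (6, true), (8, false), (17, true), (19, false), (21, false), (23, true), (28, false)],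
      [9, 10, 16, 17, 2, 1].map fun x => (if L % 2 = 0 then x else (35 - x) % 35), [3]⟩
    | true, true => ⟨[(2, false), (4, false), (6, false), (8, true), (17, false), (19, true), (21, true), (23, false), (28, true)],
      [22, 17, 24, 19, 20, 3].map fun x => (if L % 2 = 0 then x else (35 - x) % 35), [3, 4, 5]⟩
    | true, false => ⟨[(2, true), (4, true), (6, true), (8, false), (17, true), (19, false), (21, false), (23, true), (28, false)],
      [8, 9, 15, 16, 22, 26].map fun x => (if L % 2 = 0 then x else (35 - x) % 35), [1, 4, 5]⟩
  supw := fun _ _ => true
  pw := fun tw d L =>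
    match tw, d with
    | false, true => ⟨[(2, true), (2, false), (4, true), (4, false), (6, true), (6, false), (8, true), (8, false), (10, true), (10, false), (13, true), (13, false), (15, true), (15, false), (17, true), (17, false), (19, true), (19, false), (21, true), (21, false), (23, true), (23, false), (28, true), (28, false), (30, true)],
      [1, 6, 0].map fun x => (if L % 2 = 0 then x else (35 - x) % 35), [0]⟩
    | false, false => ⟨[(2, true), (2, false), (4, true), (4, false), (6, true), (6, false), (8, true), (8, false), (10, true), (10, false), (13, true), (13, false), (15, true), (15, false), (17, true), (17, false), (19, true), (19, false), (21, true), (21, false), (23, true), (23, false), (28, true), (28, false), (30, true)],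
      [0, 5, 34].map fun x => (if L % 2 = 0 then x else (35 - x) % 35), [1]⟩
    | true, true => ⟨[(2, true), (2, false), (4, true), (4, false), (6, true), (6, false), (8, true), (8, false), (10, true), (10, false), (13, true), (13, false), (15, true), (15, false), (17, true), (17, false), (19, true), (19, false), (21, true), (21, false), (23, true), (23, false), (28, true), (28, false), (30, true)],
      [11, 16, 13].map fun x => (if L % 2 = 0 then x else (35 - x) % 35), [0, 1, 2]⟩
    | true, false => ⟨[(2, true), (2, false), (4, true), (4, false), (6, true), (6, false), (8, true), (8, false), (10, true), (10, false), (13, true), (13, false), (15, true), (15, false), (17, true), (17, false), (19, true), (19, false), (21, true), (21, false), (23, true), (23, false), (28, true), (28, false), (30, true)],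
      [24, 29, 23].map fun x => (if L % 2 = 0 then x else (35 - x) % 35), [0, 1, 2]⟩

theorem w35_chk : (w35).Chk 6 6 3 3 := {
    m0 := by decide, p0 := by decide, m2 := by decide, p4 := by decide, ε2 := by decide
    T := by decide +kernel, E := by decide +kernel, F := by decide +kernel
    len := by decide +kernel, P1 := by decide +kernel, P3 := by decide +kernel
    Q1 := by decide +kernel, Q3 := by decide +kernel }

end SqIns
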