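import Pool.Agent.Lib.SqIns.MWord

/-!
# The word `m = 37`
-/

namespace SqIns

/-- the word `m = 37` -/
def w37 : MW where
  m := 37
  p := 1
  ε := -1
  W := [(0, 30), (0, 21), (1, 36), (1, 19), (2, 28), (3, 33), (3, 3), (4, 25), (4, 20), (5, 5), (5, 13), (4, 0), (4, 35), (5, 34), (5, 8), (7, 14), (7, 26), (5, 18), (5, 22), (4, 17), (4, 31), (3, 32), (3, 10), (2, 12), (2, 9), (3, 6), (3, 27), (2, 11), (2, 24), (4, 2), (4, 29), (6, 23), (6, 4), (4, 7), (4, 1), (2, 15), (2, 16)]
  C2 := [[3, 4, 5, 6, 8, 12, 14, 15, 16, 17, 18, 21, 22, 23, 28, 29, 31, 33, 34]]
  F := [0, 1, 2, 0, 1, 2, 0, 1, 2, 0, 1, 2, 0, 1, 2, 0, 1, 2, 0, 1, 2, 0, 1, 2, 0, 1, 2, 0, 1, 2, 0, 1, 2, 0, 1, 2, 3]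
  ns := 3
  sup := fun _ _ => true
  d0 := fun tw up _ =>
    match tw, up with
    | false, true => false
    | false, false => false
    | true, true => false
    | true, false => false
  pd := fun tw up L =>
    match tw, up with
    | false, true => ⟨[(0, true), (5, true), (7, true), (9, false), (11, true), (17, false), (19, false), (21, false), (23, true), (25, false), (35, false)],
      [0, 1, 7, 31, 13].map fun x => (if L % 2 = 0 then x else (37 - x) % 37), [0]⟩
    | false, false => ⟨[(0, false), (5, false), (7, false), (9, true), (11, false), (17, true), (19, true), (21, true), (23, false), (25, true), (35, true)],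
      [1, 2, 3, 15, 16].map fun x => (if L % 2 = 0 then x else (37 - x) % 37), [0]⟩
    | true, true => ⟨[(0, true), (5, true), (7, true), (9, false), (11, true), (17, false), (19, false), (21, false), (23, true), (25, false), (35, false)],
      [36, 0, 6, 30, 12].map fun x => (if L % 2 = 0 then x else (37 - x) % 37), [1, 3, 4]⟩
    | true, false => ⟨[(0, false), (5, false), (7, false), (9, true), (11, false), (17, true), (19, true), (21, true), (23, false), (25, true), (35, true)],
      [32, 5, 27, 3, 1].map fun x => (if L % 2 = 0 then x else (37 - x) % 37), [0, 3, 4]⟩
  supw := fun _ _ => true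
  pw := fun tw d L =>
    match tw, d with
    | false, true => ⟨[(0, true), (0, false), (5, true), (5, false), (7, true), (7, false), (9, true), (9, false), (11, true), (11, false), (13, true), (13, false), (15, true), (15, false), (17, true), (17, false), (19, true), (19, false), (21, true), (21, false), (23, true), (23, false), (25, true), (25, false), (27, true), (27, false), (29, true), (29, false), (31, true), (31, false), (33, true), (33, false), (35, true), (35, false)],
      [0, 1].map fun x => (if L % 2 = 0 then x else (37 - x) % 37), [1]⟩
    | false, false => ⟨[(0, true), (0, false), (5, true), (5, false), (7, true), (7, false), (9, true), (9, false), (11, true), (11, false), (13, true), (13, false), (15, true), (15, false), (17, true), (17, false), (19, true), (19, false), (21, true), (21, false), (23, true), (23, false), (25, true), (25, false), (27, true), (27, false), (29, true), (29, false), (31, true), (31, false), (33, true), (33, false), (35, true), (35, false)],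
      [0, 1].map fun x => (if L % 2 = 0 then x else (37 - x) % 37), [0]⟩
    | true, true => ⟨[(0, true), (0, false), (5, true), (5, false), (7, true), (7, false), (9, true), (9, false), (11, true), (11, false), (13, true), (13, false), (15, true), (15, false), (17, true), (17, false), (19, true), (19, false), (21, true), (21, false), (23, true), (23, false), (25, true), (25, false), (27, true), (27, false), (29, true), (29, false), (31, true), (31, false), (33, true), (33, false), (35, true), (35, false)],
      [26, 27, 1].map fun x => (if L % 2 = 0 then x else (37 - x) % 37), [0, 1, 2]⟩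
    | true, false => ⟨[(0, true), (0, false), (5, true), (5, false), (7, true), (7, false), (9, true), (9, false), (11, true), (11, false), (13, true), (13, false), (15, true), (15, false), (17, true), (17, false), (19, true), (19, false), (21, true), (21, false), (23, true), (23, false), (25, true), (25, false), (27, true), (27, false), (29, true), (29, false), (31, true), (31, false), (33, true), (33, false), (35, true), (35, false)],
      [36, 0, 0].map fun x => (if L % 2 = 0 then x else (37 - x) % 37), [0, 1, 2]⟩

theorem w37_chk : (w37).Chk 5 5 2 3 := {
    m0 := by decide, p0 := by decide, m2 := by decide, p4 := by decide, ε2 := by decide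
    T := by decide +kernel, E := by decide +kernel, F := by decide +kernel
    len := by decide +kernel, P1 := by decide +kernel, P3 := by decide +kernel
    Q1 := by decide +kernel, Q3 := by decide +kernel }

end SqIns
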