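import Pool.Agent.Lib.SqIns.MWord

/-!
# The word `m = 41`
-/

namespace SqIns

/-- the word `m = 41` -/
def w41 : MW where
  m := 41
  p := 1
  ε := -1
  W := [(0, 12), (0, 19), (1, 13), (1, 36), (2, 8), (2, 40), (0, 38), (0, 26), (1, 7), (1, 32), (2, 39), (2, 31), (0, 11), (0, 14), (1, 29), (1, 33), (2, 21), (2, 23), (0, 28), (0, 17), (1, 3), (1, 2), (2, 5), (2, 25), (0, 34), (0, 6), (1, 30), (1, 20), (2, 9), (2, 4), (0, 15), (0, 37), (2, 1), (2, 27), (1, 10), (1, 24), (2, 18), (1, 0), (1, 35), (3, 16), (2, 22)]
  C2 := [[2, 4, 5, 6, 8, 11, 12, 14, 16, 17, 19, 20, 22, 27, 28, 30, 31, 32, 34, 35, 36]]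
  F := [0, 1, 2, 0, 1, 2, 0, 1, 2, 0, 1, 2, 0, 1, 2, 0, 1, 2, 0, 1, 2, 0, 1, 2, 0, 1, 2, 0, 1, 2, 0, 1, 2, 0, 1, 2, 3, 0, 1, 2, 3]
  ns := 5
  sup := fun _ _ => true
  d0 := fun tw up _ =>
    match tw, up with
    | false, true => false
    | false, false => false
    | true, true => true
    | true, false => false
  pd := fun tw up L =>
    match tw, up with
    | false, true => ⟨[(0, true), (2, true), (6, true), (8, true), (12, true), (14, true), (18, true), (20, true), (24, true), (26, true), (32, false)],
      [33, 38, 35, 36, 30, 10].map fun x => (if L % 2 = 0 then x else (41 - x) % 41), [5]⟩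
    | false, false => ⟨[(0, false), (2, false), (6, false), (8, false), (12, false), (14, false), (18, false), (20, false), (24, false), (26, false), (32, true)],
      [2, 13, 39, 6, 3, 9].map fun x => (if L % 2 = 0 then x else (41 - x) % 41), [0]⟩
    | true, true => ⟨[(0, true), (2, true), (6, true), (8, true), (12, true), (14, true), (18, true), (20, true), (24, true), (26, true), (32, false)],
      [29, 34, 31, 32, 26, 6].map fun x => (if L % 2 = 0 then x else (41 - x) % 41), [3, 4, 5]⟩
    | true, false => ⟨[(0, false), (2, false), (6, false), (8, false), (12, false), (14, false), (18, false), (20, false), (24, false), (26, false), (32, true)],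
      [1, 12, 38, 5, 2, 8].map fun x => (if L % 2 = 0 then x else (41 - x) % 41), [1, 2, 4]⟩
  supw := fun _ _ => true
  pw := fun tw d L =>
    match tw, d with
    | false, true => ⟨[(0, true), (0, false), (2, true), (2, false), (6, true), (6, false), (8, true), (8, false), (10, true), (10, false), (12, true), (12, false), (14, true), (14, false), (16, true), (16, false), (18, true), (18, false), (20, true), (20, false), (22, true), (22, false), (24, true), (24, false), (26, true), (26, false), (28, true), (28, false), (30, true), (30, false), (32, true), (32, false), (37, true), (39, false)],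
      [1, 6].map fun x => (if L % 2 = 0 then x else (41 - x) % 41), [1]⟩
    | false, false => ⟨[(0, true), (0, false), (2, true), (2, false), (6, true), (6, false), (8, true), (8, false), (10, true), (10, false), (12, true), (12, false), (14, true), (14, false), (16, true), (16, false), (18, true), (18, false), (20, true), (20, false), (22, true), (22, false), (24, true), (24, false), (26, true), (26, false), (28, true), (28, false), (30, true), (30, false), (32, true), (32, false), (37, true), (39, false)],
      [1, 6].map fun x => (if L % 2 = 0 then x else (41 - x) % 41), [0]⟩
    | true, true => ⟨[(0, true), (0, false), (2, true), (2, false), (6, true), (6, false), (8, true), (8, false), (10, true), (10, false), (12, true), (12, false), (14, true), (14, false), (16, true), (16, false), (18, true), (18, false), (20, true), (20, false), (22, true), (22, false), (24, true), (24, false), (26, true), (26, false), (28, true), (28, false), (30, true), (30, false), (32, true), (32, false), (37, true), (39, false)],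
      [32, 37, 2].map fun x => (if L % 2 = 0 then x else (41 - x) % 41), [0, 1, 2]⟩
    | true, false => ⟨[(0, true), (0, false), (2, true), (2, false), (6, true), (6, false), (8, true), (8, false), (10, true), (10, false), (12, true), (12, false), (14, true), (14, false), (16, true), (16, false), (18, true), (18, false), (20, true), (20, false), (22, true), (22, false), (24, true), (24, false), (26, true), (26, false), (28, true), (28, false), (30, true), (30, false), (32, true), (32, false), (37, true), (39, false)],
      [39, 3, 1].map fun x => (if L % 2 = 0 then x else (41 - x) % 41), [0, 1, 2]⟩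

theorem w41_chk : (w41).Chk 6 6 2 3 := {
    m0 := by decide, p0 := by decide, m2 := by decide, p4 := by decide, ε2 := by decide
    T := by decide +kernel, E := by decide +kernel, F := by decide +kernel
    len := by decide +kernel, P1 := by decide +kernel, P3 := by decide +kernel
    Q1 := by decide +kernel, Q3 := by decide +kernel }

end SqIns
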