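import Pool.Agent.Lib.SqIns.MWord

/-!
# The word `m = 43`
-/

namespace SqIns

/-- the word `m = 43` -/
def w43 : MW where
  m := 43
  p := 1
  ε := -1
  W := [(0, 9), (0, 6), (1, 28), (1, 32), (2, 19), (2, 4), (0, 36), (0, 24), (1, 26), (1, 42), (2, 33), (2, 16), (0, 15), (0, 10), (1, 18), (1, 39), (2, 3), (2, 21), (0, 17), (0, 40), (1, 29), (1, 27), (2, 12), (2, 41), (0, 25), (0, 31), (1, 30), (1, 22), (2, 5), (2, 35), (0, 14), (0, 38), (1, 34), (1, 2), (2, 20), (1, 11), (3, 23), (3, 13), (4, 7), (2, 0), (4, 8), (3, 1), (3, 37)]
  C2 := [[1, 2, 4, 6, 7, 8, 10, 11, 12, 16, 18, 21, 23, 24, 26, 28, 29, 30, 31, 34, 35, 40]]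
  F := [0, 1, 2, 0, 1, 2, 0, 1, 2, 0, 1, 2, 0, 1, 2, 0, 1, 2, 0, 1, 2, 0, 1, 2, 0, 1, 2, 0, 1, 2, 0, 1, 2, 0, 1, 2, 0, 1, 2, 0, 1, 2, 3]
  ns := 5
  sup := fun _ _ => true
  d0 := fun tw up _ =>
    match tw, up with
    | false, true => true
    | false, false => false
    | true, true => true
    | true, false => false
  pd := fun tw up L =>
    match tw, up with
    | false, true => ⟨[(0, true), (2, true), (6, true), (8, true), (12, true), (14, true), (18, true), (20, true), (24, true), (26, true), (30, true)],
      [6, 25, 1, 5, 2, 28].map fun x => (if L % 2 = 0 then x else (43 - x) % 43), [0]⟩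
    | false, false => ⟨[(0, false), (2, false), (6, false), (8, false), (12, false), (14, false), (18, false), (20, false), (24, false), (26, false), (30, false)],
      [9, 14, 17, 23, 6, 40].map fun x => (if L % 2 = 0 then x else (43 - x) % 43), [0]⟩
    | true, true => ⟨[(0, true), (2, true), (6, true), (8, true), (12, true), (14, true), (18, true), (20, true), (24, true), (26, true), (30, true)],
      [0, 19, 38, 42, 39, 22].map fun x => (if L % 2 = 0 then x else (43 - x) % 43), [2, 3, 4]⟩
    | true, false => ⟨[(0, false), (2, false), (6, false), (8, false), (12, false), (14, false), (18, false), (20, false), (24, false), (26, false), (30, false)],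
      [9, 14, 17, 23, 6, 40].map fun x => (if L % 2 = 0 then x else (43 - x) % 43), [0, 1, 2]⟩
  supw := fun _ _ => true
  pw := fun tw d L =>
    match tw, d with
    | false, true => ⟨[(0, true), (0, false), (2, true), (2, false), (6, true), (6, false), (8, true), (8, false), (10, true), (10, false), (12, true), (12, false), (14, true), (14, false), (16, true), (16, false), (18, true), (18, false), (20, true), (20, false), (22, true), (22, false), (24, true), (24, false), (26, true), (26, false), (28, true), (28, false), (30, true), (30, false), (34, false), (36, true), (39, false), (41, true), (41, false)],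
      [0, 10].map fun x => (if L % 2 = 0 then x else (43 - x) % 43), [1]⟩
    | false, false => ⟨[(0, true), (0, false), (2, true), (2, false), (6, true), (6, false), (8, true), (8, false), (10, true), (10, false), (12, true), (12, false), (14, true), (14, false), (16, true), (16, false), (18, true), (18, false), (20, true), (20, false), (22, true), (22, false), (24, true), (24, false), (26, true), (26, false), (28, true), (28, false), (30, true), (30, false), (34, false), (36, true), (39, false), (41, true), (41, false)],
      [1, 11].map fun x => (if L % 2 = 0 then x else (43 - x) % 43), [0]⟩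
    | true, true => ⟨[(0, true), (0, false), (2, true), (2, false), (6, true), (6, false), (8, true), (8, false), (10, true), (10, false), (12, true), (12, false), (14, true), (14, false), (16, true), (16, false), (18, true), (18, false), (20, true), (20, false), (22, true), (22, false), (24, true), (24, false), (26, true), (26, false), (28, true), (28, false), (30, true), (30, false), (34, false), (36, true), (39, false), (41, true), (41, false)],
      [39, 6, 6].map fun x => (if L % 2 = 0 then x else (43 - x) % 43), [0, 1, 2]⟩
    | true, false => ⟨[(0, true), (0, false), (2, true), (2, false), (6, true), (6, false), (8, true), (8, false), (10, true), (10, false), (12, true), (12, false), (14, true), (14, false), (16, true), (16, false), (18, true), (18, false), (20, true), (20, false), (22, true), (22, false), (24, true), (24, false), (26, true), (26, false), (28, true), (28, false), (30, true), (30, false), (34, false), (36, true), (39, false), (41, true), (41, false)],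
      [34, 1, 1].map fun x => (if L % 2 = 0 then x else (43 - x) % 43), [0, 1, 2]⟩

theorem w43_chk : (w43).Chk 6 6 2 3 := {
    m0 := by decide, p0 := by decide, m2 := by decide, p4 := by decide, ε2 := by decide
    T := by decide +kernel, E := by decide +kernel, F := by decide +kernel
    len := by decide +kernel, P1 := by decide +kernel, P3 := by decide +kernel
    Q1 := by decide +kernel, Q3 := by decide +kernel }

end SqIns
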