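import Pool.Agent.Lib.SqIns.MWord

/-!
# The word `m = 5`
-/

namespace SqIns

/-- the word `m = 5`, places at the class `l` -/
def w5 (l : ℕ) : MW where
  m := 5
  p := 4
  ε := 1
  W := [(4 + l, 3), (4 + l, 2), (5 + l, 4), (5 + l, 0), (6 + l, 0), (4 + l, 0), (6 + l, 3), (6 + l, 4), (5 + l, 1), (7 + l, 3), (5 + l, 3), (6 + l, 2), (7 + l, 4), (8 + l, 1), (6 + l, 1), (8 + l, 4), (7 + l, 1), (7 + l, 0), (9 + l, 2), (7 + l, 2)]
  C2 := (List.range 4).map fun c => ([[0, 1, 2], [0, 3, 4], [0, 1, 2], [0, 3, 4]] : List (List ℕ)).getD ((c + 32 - l - 1) % 4) []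
  F := [0, 1, 2, 0, 1, 2, 0, 1, 2, 0, 1, 2, 0, 1, 2, 3, 0, 1, 2, 3]
  ns := 3
  sup := fun _ L => L % 4 == l
  d0 := fun _ up _ => up
  pd := fun tw up _ =>
    match tw, up with
    | false, true => ⟨[(0, true)], [2, 3, 4, 0, 1], [0]⟩
    | false, false => ⟨[(0, false)], [4, 0, 1, 2, 3], [0]⟩
    | true, true => ⟨[(0, true)], [2, 3, 4, 0, 1, 2, 2], [0, 5, 6]⟩
    | true, false => ⟨[(0, false)], [4, 0, 1, 2, 3, 4, 4], [0, 5, 6]⟩
  supw := fun d L => d == true && L % 4 == (l + 0) % 4 || d == false && L % 4 == (l + 0) % 4
  pw := fun tw d L =>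
    match tw, d, (L + 8 - l) % 4 with
    | false, true, 0 => ⟨[(0, true), (18, false)], [2, 4, 0], [0]⟩
    | false, false, 0 => ⟨[(0, true), (18, false)], [1, 3, 4], [1]⟩
    | true, true, 0 => ⟨[(0, true), (18, false)], [2, 4, 0, 2, 2], [0, 3, 4]⟩
    | true, false, 0 => ⟨[(0, true), (18, false)], [1, 3, 4, 3, 3], [1, 3, 4]⟩
    | _, _, _ => ⟨[], [], []⟩

theorem w5_chk {l : ℕ} (hl : l < 4) : (w5 l).Chk 5 7 3 5 := by
  interval_cases l
  · exact {
      m0 := by decide, p0 := by decide, m2 := by decide, p4 := by decide, ε2 := by decide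
      T := by decide +kernel, E := by decide +kernel, F := by decide +kernel
      len := by decide +kernel, P1 := by decide +kernel, P3 := by decide +kernel
      Q1 := by decide +kernel, Q3 := by decide +kernel }
  · exact {
      m0 := by decide, p0 := by decide, m2 := by decide, p4 := by decide, ε2 := by decide
      T := by decide +kernel, E := by decide +kernel, F := by decide +kernel
      len := by decide +kernel, P1 := by decide +kernel, P3 := by decide +kernel
      Q1 := by decide +kernel, Q3 := by decide +kernel }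
  · exact {
      m0 := by decide, p0 := by decide, m2 := by decide, p4 := by decide, ε2 := by decide
      T := by decide +kernel, E := by decide +kernel, F := by decide +kernel
      len := by decide +kernel, P1 := by decide +kernel, P3 := by decide +kernel
      Q1 := by decide +kernel, Q3 := by decide +kernel }
  · exact {
      m0 := by decide, p0 := by decide, m2 := by decide, p4 := by decide, ε2 := by decide
      T := by decide +kernel, E := by decide +kernel, F := by decide +kernel
      len := by decide +kernel, P1 := by decide +kernel, P3 := by decide +kernel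
      Q1 := by decide +kernel, Q3 := by decide +kernel }

end SqIns
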