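import Pool.Agent.Lib.SqIns.MWord

/-!
# The word `m = 61`
-/

namespace SqIns

/-- the word `m = 61` -/
def w61 : MW where
  m := 61
  p := 1
  ε := -1
  W := [(0, 42), (0, 55), (-2, 35), (-2, 1), (-1, 38), (-1, 3), (0, 6), (0, 4), (-2, 23), (-2, 48), (-1, 44), (-1, 16), (0, 12), (0, 7), (-2, 10), (-2, 9), (-1, 37), (-1, 27), (0, 54), (0, 36), (-2, 24), (-2, 5), (-1, 30), (-1, 22), (0, 47), (0, 2), (-2, 29), (-2, 20), (-1, 28), (-1, 60), (0, 59), (0, 19), (-2, 33), (-2, 45), (-1, 26), (-1, 15), (0, 57), (0, 18), (-2, 17), (-2, 58), (-1, 8), (-1, 52), (0, 43), (0, 49), (-2, 53), (-2, 39), (-1, 51), (-1, 13), (0, 25), (0, 40), (-2, 41), (-1, 21), (-2, 34), (0, 11), (0, 14), (-1, 31), (-1, 0), (1, 50), (1, 46), (2, 32), (2, 56)]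
  C2 := [[1, 2, 7, 10, 12, 17, 18, 19, 20, 21, 26, 30, 31, 34, 35, 38, 40, 41, 42, 43, 44, 45, 46, 47, 50, 51, 54, 57, 58, 59, 60]]
  F := [0, 1, 2, 0, 1, 2, 0, 1, 2, 0, 1, 2, 0, 1, 2, 0, 1, 2, 0, 1, 2, 0, 1, 2, 0, 1, 2, 0, 1, 2, 0, 1, 2, 0, 1, 2, 0, 1, 2, 0, 1, 2, 0, 1, 2, 0, 1, 2, 0, 1, 2, 0, 1, 2, 0, 1, 2, 0, 1, 2, 3]
  ns := 1
  sup := fun _ _ => true
  d0 := fun tw up _ =>
    match tw, up with
    | false, true => false
    | false, false => false
    | true, true => true
    | true, false => false
  pd := fun tw up L =>
    match tw, up with
    | false, true => ⟨[(2, true), (4, true), (8, true), (10, true), (14, true), (16, true), (20, true), (22, true), (26, true), (28, true), (32, true), (34, true), (38, true), (40, true), (44, true), (46, true), (53, false), (57, true), (59, false)],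
      [1, 6, 15, 35, 42].map fun x => (if L % 2 = 0 then x else (61 - x) % 61), [4]⟩
    | false, false => ⟨[(2, false), (4, false), (8, false), (10, false), (14, false), (16, false), (20, false), (22, false), (26, false), (28, false), (32, false), (34, false), (38, false), (40, false), (44, false), (46, false), (53, true), (57, false), (59, true)],
      [2, 11, 38, 3, 36, 0].map fun x => (if L % 2 = 0 then x else (61 - x) % 61), [0]⟩
    | true, true => ⟨[(2, true), (4, true), (8, true), (10, true), (14, true), (16, true), (20, true), (22, true), (26, true), (28, true), (32, true), (34, true), (38, true), (40, true), (44, true), (46, true), (53, false), (57, true), (59, false)],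
      [47, 52, 0, 20, 27].map fun x => (if L % 2 = 0 then x else (61 - x) % 61), [1, 3, 4]⟩
    | true, false => ⟨[(2, false), (4, false), (8, false), (10, false), (14, false), (16, false), (20, false), (22, false), (26, false), (28, false), (32, false), (34, false), (38, false), (40, false), (44, false), (46, false), (53, true), (57, false), (59, true)],
      [1, 10, 37, 2, 35, 60].map fun x => (if L % 2 = 0 then x else (61 - x) % 61), [1, 3, 4]⟩
  supw := fun _ _ => true
  pw := fun tw d L =>
    match tw, d with
    | false, true => ⟨[(2, true), (2, false), (4, true), (4, false), (6, true), (6, false), (8, true), (8, false), (10, true), (10, false), (12, true), (12, false), (14, true), (14, false), (16, true), (16, false), (18, true), (18, false), (20, true), (20, false), (22, true), (22, false), (24, true), (24, false), (26, true), (26, false), (28, true), (28, false), (30, true), (30, false), (32, true), (32, false), (34, true), (34, false), (36, true), (36, false), (38, true), (38, false), (40, true), (40, false), (42, true), (42, false), (44, true), (44, false), (46, true), (46, false), (48, true), (51, false), (53, true), (53, false), (55, true), (55, false), (57, true), (57, false), (59,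 true), (59, false)],
      [0, 2].map fun x => (if L % 2 = 0 then x else (61 - x) % 61), [0]⟩
    | false, false => ⟨[(2, true), (2, false), (4, true), (4, false), (6, true), (6, false), (8, true), (8, false), (10, true), (10, false), (12, true), (12, false), (14, true), (14, false), (16, true), (16, false), (18, true), (18, false), (20, true), (20, false), (22, true), (22, false), (24, true), (24, false), (26, true), (26, false), (28, true), (28, false), (30, true), (30, false), (32, true), (32, false), (34, true), (34, false), (36, true), (36, false), (38, true), (38, false), (40, true), (40, false), (42, true), (42, false), (44, true), (44, false), (46, true), (46, false), (48, true), (51, false), (53, true), (53, false), (55, true), (55, false), (57, true), (57, false), (59, true), (59, false)],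
      [59, 0].map fun x => (if L % 2 = 0 then x else (61 - x) % 61), [0]⟩
    | true, true => ⟨[(2, true), (2, false), (4, true), (4, false), (6, true), (6, false), (8, true), (8, false), (10, true), (10, false), (12, true), (12, false), (14, true), (14, false), (16, true), (16, false), (18, true), (18, false), (20, true), (20, false), (22, true), (22, false), (24, true), (24, false), (26, true), (26, false), (28, true), (28, false), (30, true), (30, false), (32, true), (32, false), (34, true), (34, false), (36, true), (36, false), (38, true), (38, false), (40, true), (40, false), (42, true), (42, false), (44, true), (44, false), (46, true), (46, false), (48, true), (51, false), (53, true), (53, false), (55, true), (55, false), (57, true), (57, false), (59, true), (59, false)],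
      [0, 2, 0].map fun x => (if L % 2 = 0 then x else (61 - x) % 61), [0, 1, 2]⟩
    | true, false => ⟨[(2, true), (2, false), (4, true), (4, false), (6, true), (6, false), (8, true), (8, false), (10, true), (10, false), (12, true), (12, false), (14, true), (14, false), (16, true), (16, false), (18, true), (18, false), (20, true), (20, false), (22, true), (22, false), (24, true), (24, false), (26, true), (26, false), (28, true), (28, false), (30, true), (30, false), (32, true), (32, false), (34, true), (34, false), (36, true), (36, false), (38, true), (38, false), (40, true), (40, false), (42, true), (42, false), (44, true), (44, false), (46, true), (46, false), (48, true), (51, false), (53, true), (53, false), (55, true), (55, false), (57, true), (57, false), (59, true), (59, false)],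
      [57, 59, 6].map fun x => (if L % 2 = 0 then x else (61 - x) % 61), [0, 1, 2]⟩

theorem w61_chk : (w61).Chk 6 6 2 3 := {
    m0 := by decide, p0 := by decide, m2 := by decide, p4 := by decide, ε2 := by decide
    T := by decide +kernel, E := by decide +kernel, F := by decide +kernel
    len := by decide +kernel, P1 := by decide +kernel, P3 := by decide +kernel
    Q1 := by decide +kernel, Q3 := by decide +kernel }

end SqIns
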