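import Pool.Agent.Lib.SqIns.MWord

/-!
# The word `m = 67`
-/

namespace SqIns

/-- the word `m = 67` -/
def w67 : MW where
  m := 67
  p := 1
  ε := -1
  W := [(0, 64), (0, 23), (1, 29), (1, 34), (2, 5), (2, 28), (0, 25), (0, 54), (1, 4), (1, 7), (2, 3), (2, 57), (0, 15), (0, 19), (1, 56), (1, 31), (2, 42), (2, 61), (0, 9), (0, 65), (1, 47), (1, 32), (2, 52), (2, 50), (0, 59), (0, 39), (1, 55), (1, 46), (2, 58), (2, 30), (0, 22), (0, 10), (1, 33), (1, 41), (2, 8), (2, 18), (0, 40), (0, 6), (1, 60), (1, 38), (2, 45), (2, 51), (0, 24), (0, 17), (1, 36), (1, 63), (2, 27), (2, 44), (0, 1), (0, 37), (1, 35), (1, 11), (2, 43), (2, 13), (4, 0), (2, 66), (3, 20), (2, 48), (1, 21), (2, 49), (2, 14), (0, 12), (1, 53), (1, 2), (2, 26), (3, 16), (3, 62)]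
  C2 := [[1, 2, 3, 7, 8, 11, 12, 14, 19, 20, 21, 24, 26, 27, 33, 34, 35, 36, 37, 38, 39, 41, 42, 43, 45, 47, 52, 54, 55, 58, 60, 63, 65, 66]]
  F := [0, 1, 2, 0, 1, 2, 0, 1, 2, 0, 1, 2, 0, 1, 2, 0, 1, 2, 0, 1, 2, 0, 1, 2, 0, 1, 2, 0, 1, 2, 0, 1, 2, 0, 1, 2, 0, 1, 2, 0, 1, 2, 0, 1, 2, 0, 1, 2, 0, 1, 2, 0, 1, 2, 0, 1, 2, 0, 1, 2, 0, 1, 2, 0, 1, 2, 3]
  ns := 5
  sup := fun _ _ => true
  d0 := fun tw up _ =>
    match tw, up with
    | false, true => true
    | false, false => false
    | true, true => true
    | true, false => false
  pd := fun tw up L =>
    match tw, up with
    | false, true => ⟨[(0, true), (2, true), (6, true), (8, true), (12, true), (14, true), (18, true), (20, true), (24, true), (26, true), (30, true), (32, true), (36, true), (38, true), (42, true), (44, true), (48, true), (50, true)],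
      [6, 24, 40, 36, 22, 18].map fun x => (if L % 2 = 0 then x else (67 - x) % 67), [0]⟩
    | false, false => ⟨[(0, false), (2, false), (6, false), (8, false), (12, false), (14, false), (18, false), (20, false), (24, false), (26, false), (30, false), (32, false), (36, false), (38, false), (42, false), (44, false), (48, false), (50, false)],
      [7, 33, 28, 1, 47, 54].map fun x => (if L % 2 = 0 then x else (67 - x) % 67), [0]⟩
    | true, true => ⟨[(0, true), (2, true), (6, true), (8, true), (12, true), (14, true), (18, true), (20, true), (24, true), (26, true), (30, true), (32, true), (36, true), (38, true), (42, true), (44, true), (48, true), (50, true)],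
      [5, 23, 39, 35, 21, 17].map fun x => (if L % 2 = 0 then x else (67 - x) % 67), [1, 2, 5]⟩
    | true, false => ⟨[(0, false), (2, false), (6, false), (8, false), (12, false), (14, false), (18, false), (20, false), (24, false), (26, false), (30, false), (32, false), (36, false), (38, false), (42, false), (44, false), (48, false), (50, false)],
      [65, 24, 19, 59, 38, 45].map fun x => (if L % 2 = 0 then x else (67 - x) % 67), [1, 3, 4]⟩
  supw := fun _ _ => true
  pw := fun tw d L =>
    match tw, d with
    | false, true => ⟨[(0, true), (0, false), (2, true), (2, false), (6, true), (6, false), (8, true), (8, false), (10, true), (10, false), (12, true), (12, false), (14, true), (14, false), (16, true), (16, false), (18, true), (18, false), (20, true), (20, false), (22, true), (22, false), (24, true), (24, false), (26, true), (26, false), (28, true), (28, false), (30, true), (30, false), (32, true), (32, false), (34, true), (34, false), (36, true), (36, false), (38, true), (38, false), (40, true), (40, false), (42, true), (42, false), (44, true), (44, false), (46, true), (46, false), (48, true), (48, false), (50, true), (50, false), (59, true), (60, false), (62, true), (63, false), (65,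 true), (65, false)],
      [1, 11].map fun x => (if L % 2 = 0 then x else (67 - x) % 67), [1]⟩
    | false, false => ⟨[(0, true), (0, false), (2, true), (2, false), (6, true), (6, false), (8, true), (8, false), (10, true), (10, false), (12, true), (12, false), (14, true), (14, false), (16, true), (16, false), (18, true), (18, false), (20, true), (20, false), (22, true), (22, false), (24, true), (24, false), (26, true), (26, false), (28, true), (28, false), (30, true), (30, false), (32, true), (32, false), (34, true), (34, false), (36, true), (36, false), (38, true), (38, false), (40, true), (40, false), (42, true), (42, false), (44, true), (44, false), (46, true), (46, false), (48, true), (48, false), (50, true), (50, false), (59, true), (60, false), (62, true), (63, false), (65, true), (65, false)],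
      [1, 11].map fun x => (if L % 2 = 0 then x else (67 - x) % 67), [0]⟩
    | true, true => ⟨[(0, true), (0, false), (2, true), (2, false), (6, true), (6, false), (8, true), (8, false), (10, true), (10, false), (12, true), (12, false), (14, true), (14, false), (16, true), (16, false), (18, true), (18, false), (20, true), (20, false), (22, true), (22, false), (24, true), (24, false), (26, true), (26, false), (28, true), (28, false), (30, true), (30, false), (32, true), (32, false), (34, true), (34, false), (36, true), (36, false), (38, true), (38, false), (40, true), (40, false), (42, true), (42, false), (44, true), (44, false), (46, true), (46, false), (48, true), (48, false), (50, true), (50, false), (59, true), (60, false), (62, true), (63, false), (65, true), (65, false)],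
      [63, 6, 2].map fun x => (if L % 2 = 0 then x else (67 - x) % 67), [0, 1, 2]⟩
    | true, false => ⟨[(0, true), (0, false), (2, true), (2, false), (6, true), (6, false), (8, true), (8, false), (10, true), (10, false), (12, true), (12, false), (14, true), (14, false), (16, true), (16, false), (18, true), (18, false), (20, true), (20, false), (22, true), (22, false), (24, true), (24, false), (26, true), (26, false), (28, true), (28, false), (30, true), (30, false), (32, true), (32, false), (34, true), (34, false), (36, true), (36, false), (38, true), (38, false), (40, true), (40, false), (42, true), (42, false), (44, true), (44, false), (46, true), (46, false), (48, true), (48, false), (50, true), (50, false), (59, true), (60, false), (62, true), (63, false), (65, true), (65, false)],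
      [60, 3, 1].map fun x => (if L % 2 = 0 then x else (67 - x) % 67), [0, 1, 2]⟩

theorem w67_chk : (w67).Chk 6 6 2 3 := {
    m0 := by decide, p0 := by decide, m2 := by decide, p4 := by decide, ε2 := by decide
    T := by decide +kernel, E := by decide +kernel, F := by decide +kernel
    len := by decide +kernel, P1 := by decide +kernel, P3 := by decide +kernel
    Q1 := by decide +kernel, Q3 := by decide +kernel }

end SqIns
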