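import Pool.Agent.Lib.SqIns.MWord

/-!
# The word `m = 7`
-/

namespace SqIns

/-- the word `m = 7`, places at the class `l` -/
def w7 (l : ℕ) : MW where
  m := 7
  p := 2
  ε := 1
  W := [(0 + l, 5), (-1 + l, 4), (0 + l, 0), (1 + l, 2), (-1 + l, 5), (1 + l, 6), (1 + l, 0), (2 + l, 6), (0 + l, 4), (1 + l, 1), (1 + l, 3), (0 + l, 3), (0 + l, 2), (2 + l, 1)]
  C2 := (List.range 2).map fun c => ([[2, 3, 5, 6], [1, 2, 4, 5]] : List (List ℕ)).getD ((c + 8 - l - 0) % 2) []
  F := [0, 1, 2, 0, 1, 2, 0, 1, 2, 3, 0, 1, 2, 3]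
  ns := 0
  sup := fun _ L => L % 2 == l
  d0 := fun _ up _ => !up
  pd := fun tw up _ =>
    match tw, up with
    | false, true => ⟨[(9, false)], [3, 4, 5, 6, 0, 1, 2], [0]⟩
    | false, false => ⟨[(9, true)], [3, 4, 5, 6, 0, 1, 2], [0]⟩
    | true, true => ⟨[(9, false)], [3, 4, 5, 6, 0, 1, 2, 3, 3], [0, 7, 8]⟩
    | true, false => ⟨[(9, true)], [3, 4, 5, 6, 0, 1, 2, 3, 3], [0, 7, 8]⟩
  supw := fun _ _ => true
  pw := fun tw d L =>
    match tw, d, (L + 4 - l) % 2 with
    | false, true, 0 => ⟨[(9, false), (11, true), (11, false)], [6, 2, 5], [1]⟩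
    | false, true, 1 => ⟨[(5, true), (7, false), (9, true)], [0, 1, 3], [0]⟩
    | false, false, 0 => ⟨[(9, false), (11, true), (11, false)], [1, 4, 0], [0]⟩
    | false, false, 1 => ⟨[(5, true), (7, false), (9, true)], [0, 1, 3], [1]⟩
    | true, true, 0 => ⟨[(9, false), (11, true), (11, false)], [6, 2, 5, 2, 2], [1, 3, 4]⟩
    | true, true, 1 => ⟨[(5, true), (7, false), (9, true)], [0, 1, 3, 0], [0, 2, 3]⟩
    | true, false, 0 => ⟨[(9, false), (11, true), (11, false)], [5, 1, 3, 1], [1, 2, 3]⟩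
    | true, false, 1 => ⟨[(5, true), (7, false), (9, true)], [0, 1, 3, 1, 1], [1, 3, 4]⟩
    | _, _, _ => ⟨[], [], []⟩

theorem w7_chk {l : ℕ} (hl : l < 2) : (w7 l).Chk 7 9 3 5 := by
  interval_cases l
  · exact {
      m0 := by decide, p0 := by decide, m2 := by decide, p4 := by decide, ε2 := by decide
      T := by decide +kernel, E := by decide +kernel, F := by decide +kernel
      len := by decide +kernel, P1 := by decide +kernel, P3 := by decide +kernel
      Q1 := by decide +kernel, Q3 := by decide +kernel }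
  · exact {
      m0 := by decide, p0 := by decide, m2 := by decide, p4 := by decide, ε2 := by decide
      T := by decide +kernel, E := by decide +kernel, F := by decide +kernel
      len := by decide +kernel, P1 := by decide +kernel, P3 := by decide +kernel
      Q1 := by decide +kernel, Q3 := by decide +kernel }

end SqIns
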