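import Pool.Agent.Lib.SqIns.MWord

/-!
# The word `m = 71`
-/

namespace SqIns

/-- the word `m = 71` -/
def w71 : MW where
  m := 71
  p := 1
  ε := -1
  W := [(0, 41), (0, 40), (-1, 14), (-1, 18), (1, 20), (1, 67), (2, 53), (2, 45), (3, 11), (3, 48), (1, 43), (1, 54), (0, 31), (0, 6), (-1, 66), (-1, 24), (1, 3), (1, 42), (2, 47), (2, 60), (3, 62), (3, 64), (1, 10), (1, 1), (0, 65), (0, 8), (-1, 17), (-1, 32), (1, 4), (1, 56), (2, 39), (2, 9), (3, 59), (3, 38), (1, 37), (1, 25), (0, 63), (0, 58), (-1, 70), (-1, 19), (1, 29), (1, 51), (2, 52), (2, 12), (3, 55), (3, 27), (1, 2), (1, 57), (0, 13), (0, 30), (-1, 46), (-1, 49), (1, 15), (1, 68), (2, 22), (2, 16), (3, 26), (3, 36), (1, 69), (2, 35), (1, 34), (0, 44), (1, 61), (2, 33), (1, 28), (0, 7), (1, 21), (2, 23), (2, 0), (0, 50), (0, 5)]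
  C2 := [[1, 2, 5, 6, 8, 10, 13, 16, 18, 19, 21, 22, 24, 25, 26, 28, 30, 32, 37, 38, 39, 40, 41, 43, 44, 49, 50, 52, 53, 54, 58, 60, 62, 63, 65, 66]]
  F := [0, 1, 2, 0, 1, 2, 0, 1, 2, 0, 1, 2, 0, 1, 2, 0, 1, 2, 0, 1, 2, 0, 1, 2, 0, 1, 2, 0, 1, 2, 0, 1, 2, 0, 1, 2, 0, 1, 2, 0, 1, 2, 0, 1, 2, 0, 1, 2, 0, 1, 2, 0, 1, 2, 0, 1, 2, 0, 1, 2, 0, 1, 2, 0, 1, 2, 3, 0, 1, 2, 3]
  ns := 3
  sup := fun _ _ => true
  d0 := fun tw up _ =>
    match tw, up with
    | false, true => false
    | false, false => false
    | true, true => true
    | true, false => false
  pd := fun tw up L =>
    match tw, up with
    | false, true => ⟨[(0, false), (4, true), (6, true), (10, false), (12, false), (16, true), (18, true), (22, false), (24, false), (28, true), (30, true), (34, false), (36, false), (40, true), (42, true), (46, false), (48, false), (52, true), (54, true), (69, true)],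
      [5, 32, 70, 63, 38, 44].map fun x => (if L % 2 = 0 then x else (71 - x) % 71), [2]⟩
    | false, false => ⟨[(0, true), (4, false), (6, false), (10, true), (12, true), (16, false), (18, false), (22, true), (24, true), (28, false), (30, false), (34, true), (36, true), (40, false), (42, false), (46, true), (48, true), (52, false), (54, false), (69, false)],
      [9, 15, 3, 54, 1, 64].map fun x => (if L % 2 = 0 then x else (71 - x) % 71), [0]⟩
    | true, true => ⟨[(0, false), (4, true), (6, true), (10, false), (12, false), (16, true), (18, true), (22, false), (24, false), (28, true), (30, true), (34, false), (36, false), (40, true), (42, true), (46, false), (48, false), (52, true), (54, true), (69, true)],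
      [29, 56, 23, 16, 62, 68].map fun x => (if L % 2 = 0 then x else (71 - x) % 71), [1, 3, 5]⟩
    | true, false => ⟨[(0, true), (4, false), (6, false), (10, true), (12, true), (16, false), (18, false), (22, true), (24, true), (28, false), (30, false), (34, true), (36, true), (40, false), (42, false), (46, true), (48, true), (52, false), (54, false), (69, false)],
      [38, 44, 32, 12, 30, 22].map fun x => (if L % 2 = 0 then x else (71 - x) % 71), [2, 3, 4]⟩
  supw := fun _ _ => true
  pw := fun tw d L =>
    match tw, d with
    | false, true => ⟨[(0, true), (0, false), (4, true), (4, false), (6, true), (6, false), (8, true), (8, false), (10, true), (10, false), (12, true), (12, false), (14, true), (14, false), (16, true), (16, false), (18, true), (18, false), (20, true), (20, false), (22, true), (22, false), (24, true), (24, false), (26, true), (26, false), (28, true), (28, false), (30, true), (30, false), (32, true), (32, false), (34, true), (34, false), (36, true), (36, false), (38, true), (38, false), (40, true), (40, false), (42, true), (42, false), (44, true), (44, false), (46, true), (46, false), (48, true), (48, false), (50, true), (50, false), (52, true), (52, false), (54, true), (54,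 false), (56, true), (65, false), (67, true), (67, false), (69, true), (69, false)],
      [0, 4].map fun x => (if L % 2 = 0 then x else (71 - x) % 71), [0]⟩
    | false, false => ⟨[(0, true), (0, false), (4, true), (4, false), (6, true), (6, false), (8, true), (8, false), (10, true), (10, false), (12, true), (12, false), (14, true), (14, false), (16, true), (16, false), (18, true), (18, false), (20, true), (20, false), (22, true), (22, false), (24, true), (24, false), (26, true), (26, false), (28, true), (28, false), (30, true), (30, false), (32, true), (32, false), (34, true), (34, false), (36, true), (36, false), (38, true), (38, false), (40, true), (40, false), (42, true), (42, false), (44, true), (44, false), (46, true), (46, false), (48, true), (48, false), (50, true), (50, false), (52, true), (52, false), (54, true), (54, false), (56, true), (65, false), (67, true), (67, false), (69, true), (69, false)],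
      [0, 4].map fun x => (if L % 2 = 0 then x else (71 - x) % 71), [1]⟩
    | true, true => ⟨[(0, true), (0, false), (4, true), (4, false), (6, true), (6, false), (8, true), (8, false), (10, true), (10, false), (12, true), (12, false), (14, true), (14, false), (16, true), (16, false), (18, true), (18, false), (20, true), (20, false), (22, true), (22, false), (24, true), (24, false), (26, true), (26, false), (28, true), (28, false), (30, true), (30, false), (32, true), (32, false), (34, true), (34, false), (36, true), (36, false), (38, true), (38, false), (40, true), (40, false), (42, true), (42, false), (44, true), (44, false), (46, true), (46, false), (48, true), (48, false), (50, true), (50, false), (52, true), (52, false), (54, true), (54, false), (56, true), (65, false), (67, true), (67, false), (69, true), (69, false)],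
      [68, 1, 0].map fun x => (if L % 2 = 0 then x else (71 - x) % 71), [0, 1, 2]⟩
    | true, false => ⟨[(0, true), (0, false), (4, true), (4, false), (6, true), (6, false), (8, true), (8, false), (10, true), (10, false), (12, true), (12, false), (14, true), (14, false), (16, true), (16, false), (18, true), (18, false), (20, true), (20, false), (22, true), (22, false), (24, true), (24, false), (26, true), (26, false), (28, true), (28, false), (30, true), (30, false), (32, true), (32, false), (34, true), (34, false), (36, true), (36, false), (38, true), (38, false), (40, true), (40, false), (42, true), (42, false), (44, true), (44, false), (46, true), (46, false), (48, true), (48, false), (50, true), (50, false), (52, true), (52, false), (54, true), (54, false), (56, true), (65, false), (67, true), (67, false), (69, true), (69, false)],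
      [70, 3, 2].map fun x => (if L % 2 = 0 then x else (71 - x) % 71), [0, 1, 2]⟩

theorem w71_chk : (w71).Chk 6 6 2 3 := {
    m0 := by decide, p0 := by decide, m2 := by decide, p4 := by decide, ε2 := by decide
    T := by decide +kernel, E := by decide +kernel, F := by decide +kernel
    len := by decide +kernel, P1 := by decide +kernel, P3 := by decide +kernel
    Q1 := by decide +kernel, Q3 := by decide +kernel }

end SqIns
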