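import Pool.Agent.Lib.SqIns.MWord

/-!
# The word `m = 73`
-/

namespace SqIns

/-- the word `m = 73` -/
def w73 : MW where
  m := 73
  p := 1
  ε := -1
  W := [(0, 60), (0, 2), (1, 65), (1, 34), (2, 61), (2, 31), (0, 70), (0, 68), (1, 10), (1, 71), (2, 5), (2, 39), (0, 58), (0, 63), (1, 41), (1, 24), (2, 67), (2, 21), (0, 6), (0, 15), (1, 64), (1, 23), (2, 51), (2, 32), (0, 42), (0, 16), (1, 9), (1, 53), (2, 50), (2, 29), (0, 49), (0, 33), (1, 7), (1, 57), (2, 40), (2, 20), (0, 26), (0, 66), (1, 36), (1, 46), (2, 25), (2, 22), (0, 48), (0, 47), (1, 1), (1, 38), (2, 43), (2, 37), (0, 44), (0, 55), (1, 72), (1, 59), (2, 35), (2, 13), (0, 27), (0, 45), (1, 56), (1, 18), (2, 28), (2, 14), (0, 30), (2, 62), (2, 17), (3, 69), (3, 3), (2, 54), (3, 52), (1, 19), (2, 8), (2, 0), (4, 11), (2, 4), (3, 12)]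
  C2 := [[1, 3, 6, 7, 8, 9, 10, 11, 14, 15, 16, 20, 25, 27, 32, 33, 34, 36, 41, 47, 48, 49, 50, 53, 54, 55, 57, 59, 60, 61, 63, 64, 66, 67, 69, 71, 72]]
  F := [0, 1, 2, 0, 1, 2, 0, 1, 2, 0, 1, 2, 0, 1, 2, 0, 1, 2, 0, 1, 2, 0, 1, 2, 0, 1, 2, 0, 1, 2, 0, 1, 2, 0, 1, 2, 0, 1, 2, 0, 1, 2, 0, 1, 2, 0, 1, 2, 0, 1, 2, 0, 1, 2, 0, 1, 2, 0, 1, 2, 0, 1, 2, 0, 1, 2, 0, 1, 2, 0, 1, 2, 3]
  ns := 5
  sup := fun _ _ => true
  d0 := fun tw up _ =>
    match tw, up with
    | false, true => true
    | false, false => false
    | true, true => true
    | true, false => false
  pd := fun tw up L =>
    match tw, up with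
    | false, true => ⟨[(0, true), (2, true), (6, true), (8, true), (12, true), (14, true), (18, true), (20, true), (24, true), (26, true), (30, true), (32, true), (36, true), (38, true), (42, true), (44, true), (48, true), (50, true), (54, true), (56, true), (61, true)],
      [2, 48, 51, 42, 56, 38].map fun x => (if L % 2 = 0 then x else (73 - x) % 73), [0]⟩
    | false, false => ⟨[(0, false), (2, false), (6, false), (8, false), (12, false), (14, false), (18, false), (20, false), (24, false), (26, false), (30, false), (32, false), (36, false), (38, false), (42, false), (44, false), (48, false), (50, false), (54, false), (56, false), (61, false)],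
      [1, 13, 36, 24, 12, 51].map fun x => (if L % 2 = 0 then x else (73 - x) % 73), [0]⟩
    | true, true => ⟨[(0, true), (2, true), (6, true), (8, true), (12, true), (14, true), (18, true), (20, true), (24, true), (26, true), (30, true), (32, true), (36, true), (38, true), (42, true), (44, true), (48, true), (50, true), (54, true), (56, true), (61, true)],
      [71, 44, 47, 38, 52, 34].map fun x => (if L % 2 = 0 then x else (73 - x) % 73), [0, 2, 3]⟩
    | true, false => ⟨[(0, false), (2, false), (6, false), (8, false), (12, false), (14, false), (18, false), (20, false), (24, false), (26, false), (30, false), (32, false), (36, false), (38, false), (42, false), (44, false), (48, false), (50, false), (54, false), (56, false), (61, false)],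
      [71, 10, 33, 21, 9, 48].map fun x => (if L % 2 = 0 then x else (73 - x) % 73), [2, 4, 5]⟩
  supw := fun _ _ => true
  pw := fun tw d L =>
    match tw, d with
    | false, true => ⟨[(0, true), (0, false), (2, true), (2, false), (6, true), (6, false), (8, true), (8, false), (10, true), (10, false), (12, true), (12, false), (14, true), (14, false), (16, true), (16, false), (18, true), (18, false), (20, true), (20, false), (22, true), (22, false), (24, true), (24, false), (26, true), (26, false), (28, true), (28, false), (30, true), (30, false), (32, true), (32, false), (34, true), (34, false), (36, true), (36, false), (38, true), (38, false), (40, true), (40, false), (42, true), (42, false), (44, true), (44, false), (46, true), (46, false), (48, true), (48, false), (50, true), (50, false), (52, true), (52, false), (54, true), (54, false), (56, true), (56, false), (61, true), (61, false), (66, false), (71, false)],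
      [0, 13].map fun x => (if L % 2 = 0 then x else (73 - x) % 73), [1]⟩
    | false, false => ⟨[(0, true), (0, false), (2, true), (2, false), (6, true), (6, false), (8, true), (8, false), (10, true), (10, false), (12, true), (12, false), (14, true), (14, false), (16, true), (16, false), (18, true), (18, false), (20, true), (20, false), (22, true), (22, false), (24, true), (24, false), (26, true), (26, false), (28, true), (28, false), (30, true), (30, false), (32, true), (32, false), (34, true), (34, false), (36, true), (36, false), (38, true), (38, false), (40, true), (40, false), (42, true), (42, false), (44, true), (44, false), (46, true), (46, false), (48, true), (48, false), (50, true), (50, false), (52, true), (52, false), (54, true), (54, false), (56, true), (56, false), (61, true), (61, false), (66, false), (71, false)],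
      [1, 14].map fun x => (if L % 2 = 0 then x else (73 - x) % 73), [0]⟩
    | true, true => ⟨[(0, true), (0, false), (2, true), (2, false), (6, true), (6, false), (8, true), (8, false), (10, true), (10, false), (12, true), (12, false), (14, true), (14, false), (16, true), (16, false), (18, true), (18, false), (20, true), (20, false), (22, true), (22, false), (24, true), (24, false), (26, true), (26, false), (28, true), (28, false), (30, true), (30, false), (32, true), (32, false), (34, true), (34, false), (36, true), (36, false), (38, true), (38, false), (40, true), (40, false), (42, true), (42, false), (44, true), (44, false), (46, true), (46, false), (48, true), (48, false), (50, true), (50, false), (52, true), (52, false), (54, true), (54, false), (56, true), (56, false), (61, true), (61, false), (66, false), (71, false)],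
      [55, 68, 2].map fun x => (if L % 2 = 0 then x else (73 - x) % 73), [0, 1, 2]⟩
    | true, false => ⟨[(0, true), (0, false), (2, true), (2, false), (6, true), (6, false), (8, true), (8, false), (10, true), (10, false), (12, true), (12, false), (14, true), (14, false), (16, true), (16, false), (18, true), (18, false), (20, true), (20, false), (22, true), (22, false), (24, true), (24, false), (26, true), (26, false), (28, true), (28, false), (30, true), (30, false), (32, true), (32, false), (34, true), (34, false), (36, true), (36, false), (38, true), (38, false), (40, true), (40, false), (42, true), (42, false), (44, true), (44, false), (46, true), (46, false), (48, true), (48, false), (50, true), (50, false), (52, true), (52, false), (54, true), (54, false), (56, true), (56, false), (61, true), (61, false), (66, false), (71, false)],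
      [69, 9, 1].map fun x => (if L % 2 = 0 then x else (73 - x) % 73), [0, 1, 2]⟩

theorem w73_chk : (w73).Chk 6 6 2 3 := {
    m0 := by decide, p0 := by decide, m2 := by decide, p4 := by decide, ε2 := by decide
    T := by decide +kernel, E := by decide +kernel, F := by decide +kernel
    len := by decide +kernel, P1 := by decide +kernel, P3 := by decide +kernel
    Q1 := by decide +kernel, Q3 := by decide +kernel }

end SqIns
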