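import Pool.Agent.Lib.SqIns.MWord

/-!
# The word `m = 79`
-/

namespace SqIns

/-- the word `m = 79` -/
def w79 : MW where
  m := 79
  p := 1
  ε := -1
  W := [(0, 69), (1, 4), (1, 65), (2, 48), (2, 55), (0, 24), (0, 78), (1, 32), (1, 46), (2, 68), (2, 45), (0, 34), (0, 71), (1, 19), (1, 52), (2, 70), (2, 44), (0, 35), (0, 15), (1, 73), (1, 21), (2, 7), (2, 36), (0, 43), (0, 41), (1, 31), (1, 10), (2, 56), (2, 51), (0, 28), (0, 12), (1, 11), (1, 1), (2, 53), (2, 13), (0, 66), (0, 17), (1, 9), (1, 8), (2, 29), (2, 25), (0, 54), (0, 57), (1, 72), (1, 64), (2, 74), (2, 42), (0, 37), (0, 61), (1, 23), (1, 38), (2, 39), (2, 20), (0, 59), (0, 14), (1, 26), (1, 67), (2, 75), (2, 2), (0, 77), (0, 33), (1, 50), (1, 62), (2, 47), (2, 16), (0, 63), (0, 27), (1, 5), (1, 22), (2, 60), (2, 49), (0, 30), (0, 58), (1, 40), (2, 6), (1, 18), (2, 76), (3, 0), (1, 3)]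
  C2 := [[4, 5, 6, 9, 10, 11, 19, 23, 24, 26, 27, 28, 29, 30, 31, 32, 34, 35, 37, 39, 40, 43, 47, 48, 50, 53, 54, 56, 59, 60, 61, 63, 66, 68, 70, 72, 74, 75, 76, 77]]
  F := [0, 1, 2, 0, 1, 2, 0, 1, 2, 0, 1, 2, 0, 1, 2, 0, 1, 2, 0, 1, 2, 0, 1, 2, 0, 1, 2, 0, 1, 2, 0, 1, 2, 0, 1, 2, 0, 1, 2, 0, 1, 2, 0, 1, 2, 0, 1, 2, 0, 1, 2, 0, 1, 2, 0, 1, 2, 0, 1, 2, 0, 1, 2, 0, 1, 2, 0, 1, 2, 0, 1, 2, 0, 1, 2, 0, 1, 2, 3]
  ns := 4
  sup := fun _ _ => true
  d0 := fun tw up _ =>
    match tw, up with
    | false, true => true
    | false, false => false
    | true, true => true
    | true, false => false
  pd := fun tw up L =>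
    match tw, up with
    | false, true => ⟨[(1, true), (5, true), (7, true), (11, true), (13, true), (17, true), (19, true), (23, true), (25, true), (29, true), (31, true), (35, true), (37, true), (41, true), (43, true), (47, true), (49, true), (53, true), (55, true), (59, true), (61, true), (65, true), (67, true), (78, true)],
      [1, 0, 18, 62, 22, 58].map fun x => (if L % 2 = 0 then x else (79 - x) % 79), [0]⟩
    | false, false => ⟨[(1, false), (5, false), (7, false), (11, false), (13, false), (17, false), (19, false), (23, false), (25, false), (29, false), (31, false), (35, false), (37, false), (41, false), (43, false), (47, false), (49, false), (53, false), (55, false), (59, false), (61, false), (65, false), (67, false), (78, false)],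
      [4, 33, 10, 1, 27, 36].map fun x => (if L % 2 = 0 then x else (79 - x) % 79), [0]⟩
    | true, true => ⟨[(1, true), (5, true), (7, true), (11, true), (13, true), (17, true), (19, true), (23, true), (25, true), (29, true), (31, true), (35, true), (37, true), (41, true), (43, true), (47, true), (49, true), (53, true), (55, true), (59, true), (61, true), (65, true), (67, true), (78, true)],
      [1, 0, 18, 62, 22, 58].map fun x => (if L % 2 = 0 then x else (79 - x) % 79), [0, 3, 4]⟩
    | true, false => ⟨[(1, false), (5, false), (7, false), (11, false), (13, false), (17, false), (19, false), (23, false), (25, false), (29, false), (31, false), (35, false), (37, false), (41, false), (43, false), (47, false), (49, false), (53, false), (55, false), (59, false), (61, false), (65, false), (67, false), (78, false)],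
      [3, 32, 9, 0, 26, 35].map fun x => (if L % 2 = 0 then x else (79 - x) % 79), [1, 2, 4]⟩
  supw := fun _ _ => true
  pw := fun tw d L =>
    match tw, d with
    | false, true => ⟨[(1, true), (1, false), (5, true), (5, false), (7, true), (7, false), (9, true), (9, false), (11, true), (11, false), (13, true), (13, false), (15, true), (15, false), (17, true), (17, false), (19, true), (19, false), (21, true), (21, false), (23, true), (23, false), (25, true), (25, false), (27, true), (27, false), (29, true), (29, false), (31, true), (31, false), (33, true), (33, false), (35, true), (35, false), (37, true), (37, false), (39, true), (39, false), (41, true), (41, false), (43, true), (43, false), (45, true), (45, false), (47, true), (47, false), (49, true), (49, false), (51, true), (51, false), (53, true), (53, false), (55, true), (55, false), (57, true), (57, false), (59, true), (59, false), (61, true), (61, false), (63, true), (63, false), (65, true), (65, false), (67, true), (67, false), (69, true), (69, false), (71, true), (76, false), (78, true), (78, false)],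
      [1, 0].map fun x => (if L % 2 = 0 then x else (79 - x) % 79), [0]⟩
    | false, false => ⟨[(1, true), (1, false), (5, true), (5, false), (7, true), (7, false), (9, true), (9, false), (11, true), (11, false), (13, true), (13, false), (15, true), (15, false), (17, true), (17, false), (19, true), (19, false), (21, true), (21, false), (23, true), (23, false), (25, true), (25, false), (27, true), (27, false), (29, true), (29, false), (31, true), (31, false), (33, true), (33, false), (35, true), (35, false), (37, true), (37, false), (39, true), (39, false), (41, true), (41, false), (43, true), (43, false), (45, true), (45, false), (47, true), (47, false), (49, true), (49, false), (51, true), (51, false), (53, true), (53, false), (55, true), (55, false), (57, true), (57, false), (59, true), (59, false), (61, true), (61, false), (63, true), (63, false), (65, true), (65, false), (67, true), (67, false), (69, true), (69, false), (71, true), (76, false), (78, true), (78, false)],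
      [78, 77].map fun x => (if L % 2 = 0 then x else (79 - x) % 79), [1]⟩
    | true, true => ⟨[(1, true), (1, false), (5, true), (5, false), (7, true), (7, false), (9, true), (9, false), (11, true), (11, false), (13, true), (13, false), (15, true), (15, false), (17, true), (17, false), (19, true), (19, false), (21, true), (21, false), (23, true), (23, false), (25, true), (25, false), (27, true), (27, false), (29, true), (29, false), (31, true), (31, false), (33, true), (33, false), (35, true), (35, false), (37, true), (37, false), (39, true), (39, false), (41, true), (41, false), (43, true), (43, false), (45, true), (45, false), (47, true), (47, false), (49, true), (49, false), (51, true), (51, false), (53, true), (53, false), (55, true), (55, false), (57, true), (57, false), (59, true), (59, false), (61, true), (61, false), (63, true), (63, false), (65, true), (65, false), (67, true), (67, false), (69, true), (69, false), (71, true), (76, false), (78, true), (78, false)],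
      [65, 64, 1].map fun x => (if L % 2 = 0 then x else (79 - x) % 79), [0, 1, 2]⟩
    | true, false => ⟨[(1, true), (1, false), (5, true), (5, false), (7, true), (7, false), (9, true), (9, false), (11, true), (11, false), (13, true), (13, false), (15, true), (15, false), (17, true), (17, false), (19, true), (19, false), (21, true), (21, false), (23, true), (23, false), (25, true), (25, false), (27, true), (27, false), (29, true), (29, false), (31, true), (31, false), (33, true), (33, false), (35, true), (35, false), (37, true), (37, false), (39, true), (39, false), (41, true), (41, false), (43, true), (43, false), (45, true), (45, false), (47, true), (47, false), (49, true), (49, false), (51, true), (51, false), (53, true), (53, false), (55, true), (55, false), (57, true), (57, false), (59, true), (59, false), (61, true), (61, false), (63, true), (63, false), (65, true), (65, false), (67, true), (67, false), (69, true), (69, false), (71, true), (76, false), (78, true), (78, false)],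
      [75, 74, 3].map fun x => (if L % 2 = 0 then x else (79 - x) % 79), [0, 1, 2]⟩

theorem w79_chk : (w79).Chk 6 6 2 3 := {
    m0 := by decide, p0 := by decide, m2 := by decide, p4 := by decide, ε2 := by decide
    T := by decide +kernel, E := by decide +kernel, F := by decide +kernel
    len := by decide +kernel, P1 := by decide +kernel, P3 := by decide +kernel
    Q1 := by decide +kernel, Q3 := by decide +kernel }

end SqIns
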