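import Pool.Agent.Lib.SqIns.MWord

/-!
# The word `m = 97`
-/

namespace SqIns

/-- the word `m = 97` -/
def w97 : MW where
  m := 97
  p := 1
  ε := -1
  W := [(-2, 5), (-1, 10), (0, 38), (1, 17), (1, 39), (0, 93), (0, 60), (0, 25), (2, 12), (2, 4), (1, 48), (1, 52), (0, 6), (0, 20), (1, 81), (1, 88), (0, 89), (0, 45), (2, 62), (2, 80), (0, 15), (0, 82), (-1, 1), (-1, 41), (-2, 85), (-2, 95), (-1, 24), (-1, 26), (1, 86), (1, 66), (0, 90), (0, 19), (-2, 78), (-1, 59), (0, 69), (1, 13), (1, 7), (0, 54), (0, 63), (0, 2), (2, 32), (2, 43), (1, 31), (1, 74), (0, 16), (0, 21), (1, 22), (1, 73), (0, 11), (0, 23), (2, 36), (2, 84), (0, 40), (0, 57), (-1, 35), (-1, 77), (-2, 65), (-2, 27), (-1, 64), (-1, 37), (1, 3), (1, 79), (0, 46), (0, 83), (-2, 14), (-1, 28), (0, 87), (1, 67), (1, 51), (0, 47), (0, 71), (0, 70), (2, 53), (2, 50), (1, 18), (1, 68), (0, 75), (0, 56), (1, 91), (1, 33), (0, 94), (0, 29), (2, 96), (2, 30), (0, 42), (0, 55), (-1, 61), (-1, 76), (-2, 44), (-2, 72), (-1, 9), (-1, 34), (1, 8), (1, 49), (0, 58), (0, 92), (-2, 0)]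
  C2 := [[1, 2, 7, 10, 12, 13, 15, 17, 25, 27, 30, 32, 33, 35, 36, 38, 39, 40, 41, 42, 44, 47, 49, 51, 54, 58, 60, 61, 62, 63, 65, 66, 67, 69, 70, 71, 72, 73, 76, 77, 79, 80, 84, 85, 88, 92, 93, 95, 96]]
  F := [0, 1, 2, 0, 1, 2, 0, 1, 2, 0, 1, 2, 0, 1, 2, 0, 1, 2, 0, 1, 2, 0, 1, 2, 0, 1, 2, 0, 1, 2, 0, 1, 2, 0, 1, 2, 0, 1, 2, 0, 1, 2, 0, 1, 2, 0, 1, 2, 0, 1, 2, 0, 1, 2, 0, 1, 2, 0, 1, 2, 0, 1, 2, 0, 1, 2, 0, 1, 2, 0, 1, 2, 0, 1, 2, 0, 1, 2, 0, 1, 2, 0, 1, 2, 0, 1, 2, 0, 1, 2, 0, 1, 2, 0, 1, 2, 3]
  ns := 0
  sup := fun _ _ => true
  d0 := fun tw up _ =>
    match tw, up with
    | false, true => false
    | false, false => false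
    | true, true => false
    | true, false => false
  pd := fun tw up L =>
    match tw, up with
    | false, true => ⟨[(3, false), (8, false), (10, false), (12, true), (14, false), (20, false), (22, false), (24, true), (28, false), (35, false), (40, false), (42, false), (44, true), (46, false), (52, false), (54, false), (56, true), (60, false), (67, false), (72, false), (74, false), (76, true), (78, false), (84, false), (86, false), (88, true), (92, false)],
      [1, 7, 23, 17, 39, 92].map fun x => (if L % 2 = 0 then x else (97 - x) % 97), [0]⟩
    | false, false => ⟨[(3, true), (8, true), (10, true), (12, false), (14, true), (20, true), (22, true), (24, false), (28, true), (35, true), (40, true), (42, true), (44, false), (46, true), (52, true), (54, true), (56, false), (60, true), (67, true), (72, true), (74, true), (76, false), (78, true), (84, true), (86, true), (88, false), (92, true)],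
      [6, 47, 26, 27, 67, 82].map fun x => (if L % 2 = 0 then x else (97 - x) % 97), [0]⟩
    | true, true => ⟨[(3, false), (8, false), (10, false), (12, true), (14, false), (20, false), (22, false), (24, true), (28, false), (35, false), (40, false), (42, false), (44, true), (46, false), (52, false), (54, false), (56, true), (60, false), (67, false), (72, false), (74, false), (76, true), (78, false), (84, false), (86, false), (88, true), (92, false)],
      [52, 58, 74, 68, 90, 46].map fun x => (if L % 2 = 0 then x else (97 - x) % 97), [1, 4, 5]⟩
    | true, false => ⟨[(3, true), (8, true), (10, true), (12, false), (14, true), (20, true), (22, true), (24, false), (28, true), (35, true), (40, true), (42, true), (44, false), (46, true), (52, true), (54, true), (56, false), (60, true), (67, true), (72, true), (74, true), (76, false), (78, true), (84, true), (86, true), (88, false), (92, true)],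
      [12, 53, 32, 33, 73, 88].map fun x => (if L % 2 = 0 then x else (97 - x) % 97), [3, 4, 5]⟩
  supw := fun _ _ => true
  pw := fun tw d L =>
    match tw, d with
    | false, true => ⟨[(1, false), (3, true), (3, false), (6, true), (6, false), (8, true), (8, false), (10, true), (10, false), (12, true), (12, false), (14, true), (14, false), (16, true), (16, false), (18, true), (18, false), (20, true), (20, false), (22, true), (22, false), (24, true), (24, false), (26, true), (26, false), (28, true), (28, false), (30, true), (33, false), (35, true), (35, false), (38, true), (38, false), (40, true), (40, false), (42, true), (42, false), (44, true), (44, false), (46, true), (46, false), (48, true), (48, false), (50, true), (50, false), (52, true), (52, false), (54, true), (54, false), (56, true), (56, false), (58, true), (58, false), (60, true), (60, false), (62, true), (65, false), (67, true), (67, false), (70, true), (70, false), (72, true), (72, false), (74, true), (74, false), (76, true), (76, false), (78, true), (78, false), (80, true), (80, false), (82, true), (82, false), (84, true), (84, false), (86, true), (86, false), (88, true), (88, false), (90, true), (90, false), (92, true), (92, false), (94, true)],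
      [95, 11].map fun x => (if L % 2 = 0 then x else (97 - x) % 97), [0]⟩
    | false, false => ⟨[(1, false), (3, true), (3, false), (6, true), (6, false), (8, true), (8, false), (10, true), (10, false), (12, true), (12, false), (14, true), (14, false), (16, true), (16, false), (18, true), (18, false), (20, true), (20, false), (22, true), (22, false), (24, true), (24, false), (26, true), (26, false), (28, true), (28, false), (30, true), (33, false), (35, true), (35, false), (38, true), (38, false), (40, true), (40, false), (42, true), (42, false), (44, true), (44, false), (46, true), (46, false), (48, true), (48, false), (50, true), (50, false), (52, true), (52, false), (54, true), (54, false), (56, true), (56, false), (58, true), (58, false), (60, true), (60, false), (62, true), (65, false), (67, true), (67, false), (70, true), (70, false), (72, true), (72, false), (74, true), (74, false), (76, true), (76, false), (78, true), (78, false), (80, true), (80, false), (82, true), (82, false), (84, true), (84, false), (86, true), (86, false), (88, true), (88, false), (90, true), (90, false), (92, true), (92, false), (94, true)],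
      [1, 14].map fun x => (if L % 2 = 0 then x else (97 - x) % 97), [0]⟩
    | true, true => ⟨[(1, false), (3, true), (3, false), (6, true), (6, false), (8, true), (8, false), (10, true), (10, false), (12, true), (12, false), (14, true), (14, false), (16, true), (16, false), (18, true), (18, false), (20, true), (20, false), (22, true), (22, false), (24, true), (24, false), (26, true), (26, false), (28, true), (28, false), (30, true), (33, false), (35, true), (35, false), (38, true), (38, false), (40, true), (40, false), (42, true), (42, false), (44, true), (44, false), (46, true), (46, false), (48, true), (48, false), (50, true), (50, false), (52, true), (52, false), (54, true), (54, false), (56, true), (56, false), (58, true), (58, false), (60, true), (60, false), (62, true), (65, false), (67, true), (67, false), (70, true), (70, false), (72, true), (72, false), (74, true), (74, false), (76, true), (76, false), (78, true), (78, false), (80, true), (80, false), (82, true), (82, false), (84, true), (84, false), (86, true), (86, false), (88, true), (88, false), (90, true), (90, false), (92, true), (92, false), (94, true)],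
      [88, 4, 2].map fun x => (if L % 2 = 0 then x else (97 - x) % 97), [0, 1, 2]⟩
    | true, false => ⟨[(1, false), (3, true), (3, false), (6, true), (6, false), (8, true), (8, false), (10, true), (10, false), (12, true), (12, false), (14, true), (14, false), (16, true), (16, false), (18, true), (18, false), (20, true), (20, false), (22, true), (22, false), (24, true), (24, false), (26, true), (26, false), (28, true), (28, false), (30, true), (33, false), (35, true), (35, false), (38, true), (38, false), (40, true), (40, false), (42, true), (42, false), (44, true), (44, false), (46, true), (46, false), (48, true), (48, false), (50, true), (50, false), (52, true), (52, false), (54, true), (54, false), (56, true), (56, false), (58, true), (58, false), (60, true), (60, false), (62, true), (65, false), (67, true), (67, false), (70, true), (70, false), (72, true), (72, false), (74, true), (74, false), (76, true), (76, false), (78, true), (78, false), (80, true), (80, false), (82, true), (82, false), (84, true), (84, false), (86, true), (86, false), (88, true), (88, false), (90, true), (90, false), (92, true), (92, false), (94, true)],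
      [96, 12, 1].map fun x => (if L % 2 = 0 then x else (97 - x) % 97), [0, 1, 2]⟩

theorem w97_chk : (w97).Chk 6 6 2 3 := {
    m0 := by decide, p0 := by decide, m2 := by decide, p4 := by decide, ε2 := by decide
    T := by decide +kernel, E := by decide +kernel, F := by decide +kernel
    len := by decide +kernel, P1 := by decide +kernel, P3 := by decide +kernel
    Q1 := by decide +kernel, Q3 := by decide +kernel }

end SqIns
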