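import Pool.Agent.Lib.SqIns.MW5
import Pool.Agent.Lib.SqIns.MW7
import Pool.Agent.Lib.SqIns.MW11
import Pool.Agent.Lib.SqIns.MW13
import Pool.Agent.Lib.SqIns.MW17
import Pool.Agent.Lib.SqIns.MW19
import Pool.Agent.Lib.SqIns.MW23
import Pool.Agent.Lib.SqIns.MW25
import Pool.Agent.Lib.SqIns.MW29
import Pool.Agent.Lib.SqIns.MW31
import Pool.Agent.Lib.SqIns.MW35
import Pool.Agent.Lib.SqIns.MW37
import Pool.Agent.Lib.SqIns.MW41
import Pool.Agent.Lib.SqIns.MW43
import Pool.Agent.Lib.SqIns.MW61
import Pool.Agent.Lib.SqIns.MW67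
import Pool.Agent.Lib.SqIns.MW71
import Pool.Agent.Lib.SqIns.MW73
import Pool.Agent.Lib.SqIns.MW79
import Pool.Agent.Lib.SqIns.MW97
import Pool.Agent.Lib.SqIns.StepG

/-!
# All words of the dense family
-/

namespace SqIns

/-- the digits with a word -/
def msW : List ℕ := [5, 7, 11, 13, 17, 19, 23, 25, 29, 31, 35, 37, 41, 43, 61, 67, 71, 73, 79, 97]

/-- the word with the digits `m` for the class `L` -/
def wOf (m L : ℕ) : MW :=
  match m with
  | 5 => w5 (L % 4)
  | 7 => w7 (L % 2)
  | 11 => w11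
  | 13 => w13
  | 17 => w17
  | 19 => w19
  | 23 => w23
  | 25 => w25
  | 29 => w29
  | 31 => w31
  | 35 => w35
  | 37 => w37
  | 41 => w41
  | 43 => w43
  | 61 => w61
  | 67 => w67
  | 71 => w71
  | 73 => w73
  | 79 => w79
  | 97 => w97
  | _ => w11

/-- numbers of groups of rows of the digits `m`, without and with fine digits -/
def nG (m : ℕ) (tw : Bool) : ℕ :=
  match m with
  | 5 => if tw then 7 else 5
  | 7 => if tw then 9 else 7
  | 11 => if tw then 7 else 6
  | 13 => if tw then 6 else 5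
  | 17 => if tw then 6 else 5
  | 19 => if tw then 5 else 5
  | 23 => if tw then 5 else 5
  | 25 => if tw then 5 else 5
  | 29 => if tw then 6 else 6
  | 31 => if tw then 5 else 5
  | 35 => if tw then 6 else 6
  | 37 => if tw then 5 else 5
  | 41 => if tw then 6 else 6
  | 43 => if tw then 6 else 6
  | 61 => if tw then 6 else 6
  | 67 => if tw then 6 else 6
  | 71 => if tw then 6 else 6
  | 73 => if tw then 6 else 6
  | 79 => if tw then 6 else 6
  | 97 => if tw then 6 else 6
  | _ => 0

/-- numbers of centres of the words of the digits `m`, without and with fine digits -/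
def nQ (m : ℕ) (tw : Bool) : ℕ :=
  match m with
  | 5 => if tw then 5 else 3
  | 7 => if tw then 5 else 3
  | 11 => if tw then 4 else 3
  | 13 => if tw then 3 else 2
  | 17 => if tw then 3 else 2
  | 19 => if tw then 3 else 2
  | 23 => if tw then 3 else 2
  | 25 => if tw then 3 else 3
  | 29 => if tw then 3 else 2
  | 31 => if tw then 3 else 2
  | 35 => if tw then 3 else 3
  | 37 => if tw then 3 else 2
  | 41 => if tw then 3 else 2
  | 43 => if tw then 3 else 2
  | 61 => if tw then 3 else 2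
  | 67 => if tw then 3 else 2
  | 71 => if tw then 3 else 2
  | 73 => if tw then 3 else 2
  | 79 => if tw then 3 else 2
  | 97 => if tw then 3 else 2
  | _ => 0

/-- the properties of the words -/
structure WOk (m : ℕ) (up : Bool) (L : ℕ) (w : MW) : Prop where
  wm : w.m = m
  chk : w.Chk (nG m false) (nG m true) (nQ m false) (nQ m true)
  sup : w.sup up (L % 4) = true
  supw : ∀ tw, w.supw (w.d0 tw up (L % 4)) (L % 4) = true
  m6 : Nat.Coprime 6 m
  m5 : 5 ≤ m

theorem wOf_ok (m : ℕ) (hm : m ∈ msW) (up : Bool) (L : ℕ) : WOk m up L (wOf m L) := by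
  have h4 : L % 4 % 4 = L % 4 := Nat.mod_mod _ _
  have h2 : L % 4 % 2 = L % 2 := by omega
  simp only [msW, List.mem_cons, List.not_mem_nil, or_false] at hm
  rcases hm with rfl | rfl | rfl | rfl | rfl | rfl | rfl | rfl | rfl | rfl | rfl | rfl | rfl | rfl | rfl | rfl | rfl | rfl | rfl | rfl
  · refine ⟨rfl, w5_chk (Nat.mod_lt _ (by norm_num)), ?_, ?_, by decide, by decide⟩
    · show (L % 4 % 4 == L % 4) = true
      rw [h4, beq_self_eq_true]
    · intro tw
      show (up == true && L % 4 % 4 == (L % 4 + 0) % 4 || up == false && L % 4 % 4 == (L % 4 + 0) % 4) =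
        true
      rw [add_zero, beq_self_eq_true, Bool.and_true, Bool.and_true]
      cases up <;> rfl
  · refine ⟨rfl, w7_chk (Nat.mod_lt _ (by norm_num)), ?_, fun _ => rfl, by decide, by decide⟩
    show (L % 4 % 2 == L % 2) = true
    rw [h2, beq_self_eq_true]
  · exact ⟨rfl, w11_chk, rfl, fun _ => rfl, by decide, by decide⟩
  · exact ⟨rfl, w13_chk, rfl, fun _ => rfl, by decide, by decide⟩
  · exact ⟨rfl, w17_chk, rfl, fun _ => rfl, by decide, by decide⟩
  · exact ⟨rfl, w19_chk, rfl, fun _ => rfl, by decide, by decide⟩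
  · exact ⟨rfl, w23_chk, rfl, fun _ => rfl, by decide, by decide⟩
  · exact ⟨rfl, w25_chk, rfl, fun _ => rfl, by decide, by decide⟩
  · exact ⟨rfl, w29_chk, rfl, fun _ => rfl, by decide, by decide⟩
  · exact ⟨rfl, w31_chk, rfl, fun _ => rfl, by decide, by decide⟩
  · exact ⟨rfl, w35_chk, rfl, fun _ => rfl, by decide, by decide⟩
  · exact ⟨rfl, w37_chk, rfl, fun _ => rfl, by decide, by decide⟩
  · exact ⟨rfl, w41_chk, rfl, fun _ => rfl, by decide, by decide⟩
  · exact ⟨rfl, w43_chk, rfl, fun _ => rfl, by decide, by decide⟩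
  · exact ⟨rfl, w61_chk, rfl, fun _ => rfl, by decide, by decide⟩
  · exact ⟨rfl, w67_chk, rfl, fun _ => rfl, by decide, by decide⟩
  · exact ⟨rfl, w71_chk, rfl, fun _ => rfl, by decide, by decide⟩
  · exact ⟨rfl, w73_chk, rfl, fun _ => rfl, by decide, by decide⟩
  · exact ⟨rfl, w79_chk, rfl, fun _ => rfl, by decide, by decide⟩
  · exact ⟨rfl, w97_chk, rfl, fun _ => rfl, by decide, by decide⟩

/-- **The step of a base with tables**, words around a ring index. -/
theorem stepP_B {b : BX} (h : b.Chk) (hf : b.fn.Ok b.id) {tab : ℕ → TE}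
    (ht : ∀ e, (b.k - 1) / 2 ≤ e → e ≤ b.k → (tab e).Ok b e) {ms : List ℕ} {B : ℕ}
    {P : ℕ → ℕ → Prop} (hms : ∀ m ∈ ms, 5 ≤ m) {m : ℕ} (hm : m ∈ msW)
    (hg : GapOk ms B b.k m (TE.gK b.k) P) :
    StepP ms B b.k m P (nG m) (fun tw => 5 + nQ m tw) := by
  have hw := wOf_ok m hm (b.upw b.id b.f) (b.L b.id b.f)
  have key := stepB h hf ht hw.chk (by rw [hw.wm]; exact hw.m6) (by rw [hw.wm]; exact hw.m5)
    hw.sup hw.supw hms (ms := ms) (B := B) (by rw [hw.wm]; exact hg)
  rw [hw.wm] at key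
  have e1 : (fun tw => if tw then nG m true else nG m false) = nG m := by
    funext tw
    cases tw <;> rfl
  have e2 : (fun tw => 5 + if tw then nQ m true else nQ m false) = fun tw => 5 + nQ m tw := by
    funext tw
    cases tw <;> rfl
  rw [e1, e2] at key
  exact key

/-- **The step of a base with tables**, words in the columns of `D`. -/
theorem stepP_A {b : BX} (h : b.Chk) (hf : b.fn.Ok b.id) {tab : ℕ → TE}
    (ht : ∀ e, (b.k - 1) / 2 ≤ e → e ≤ b.k → (tab e).OkA b e) {ms : List ℕ} {B : ℕ}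
    {P : ℕ → ℕ → Prop} (hms : ∀ m ∈ ms, 5 ≤ m) {m : ℕ} (hm : m ∈ msW)
    (hg : GapOk ms B b.k m (TE.gK b.k) P) :
    StepP ms B b.k m P (nG m) (fun tw => 5 + nG m tw) := by
  have hw := wOf_ok m hm (b.upw b.id b.f) (b.L b.id b.f)
  have key := stepA h hf ht hw.chk (by rw [hw.wm]; exact hw.m6) (by rw [hw.wm]; exact hw.m5)
    hw.sup hms (ms := ms) (B := B) (by rw [hw.wm]; exact hg)
  rw [hw.wm] at key
  have e1 : (fun tw => if tw then nG m true else nG m false) = nG m := by
    funext tw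
    cases tw <;> rfl
  have e2 : (fun tw => 5 + if tw then nG m true else nG m false) = fun tw => 5 + nG m tw := by
    funext tw
    cases tw <;> rfl
  rw [e1, e2] at key
  exact key

end SqIns
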