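import Pool.Agent.Lib.SqIns.Splice3

/-!
# The splice theorem with control of the untouched points
-/

open Finset Equiv

namespace SqIns

variable {U : Type*} [DecidableEq U] [Fintype U]

/-- several moves in one closed square, points which are not exchanged keep their neighbours -/
theorem multi_exch' {J : Type*} (S : Finset J) (m : J → Move U) (hc : 5 < Fintype.card U) :
    ∀ l : Perm U, Closed l → (∀ j ∈ S, (m j).In l) →
      (∀ i ∈ S, ∀ j ∈ S, i ≠ j → (m i).Apart (m j)) →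
      ∃ l' : Perm U, Closed l' ∧ E l' = E l + ∑ j ∈ S, (m j).Δ ∧
        ∀ x, (∀ j ∈ S, x ≠ (m j).b ∧ x ≠ (m j).w) → (∀ j ∈ S, l x ≠ (m j).b ∧ l x ≠ (m j).w) →
          l' x = l x := by
  classical
  induction S using Finset.induction_on with
  | empty =>
    intro l hl _ _
    exact ⟨l, hl, by simp, fun _ _ _ => rfl⟩
  | insert j S hj ih =>
    intro l hl hin hap
    obtain ⟨h1, h2⟩ := (hin j (mem_insert_self j S)).exch hl hc
    obtain ⟨l', h3, h4, h5⟩ := ih _ h1 (fun i hi => (hin i (mem_insert_of_mem hi)).conj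
      (hap j (mem_insert_self j S) i (mem_insert_of_mem hi) (fun h => hj (h ▸ hi))))
      (fun i hi i' hi' hne => hap i (mem_insert_of_mem hi) i' (mem_insert_of_mem hi') hne)
    refine ⟨l', h3, ?_, ?_⟩
    · rw [h4, h2, sum_insert hj, add_assoc]
    · intro x hx hlx
      obtain ⟨a1, a2⟩ := hx j (mem_insert_self j S)
      obtain ⟨b1, b2⟩ := hlx j (mem_insert_self j S)
      have e : (swap (m j).b (m j).w * l * swap (m j).b (m j).w) x = l x := by
        rw [Perm.mul_apply, Perm.mul_apply, swap_apply_of_ne_of_ne a1 a2,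
          swap_apply_of_ne_of_ne b1 b2]
      rw [h5 x (fun i hi => hx i (mem_insert_of_mem hi))
        (fun i hi => by rw [e]; exact hlx i (mem_insert_of_mem hi)), e]

/-- several moves in a family of closed squares -/
theorem multi_exch_family' {Λ J : Type*} [Fintype Λ] [Fintype J] [DecidableEq Λ]
    (l : Λ → Perm U) (hl : ∀ a, Closed (l a)) (hc : 5 < Fintype.card U)
    (m : J → Move U) (g : J → Λ) (hin : ∀ j, (m j).In (l (g j)))
    (hap : ∀ i j, i ≠ j → g i = g j → (m i).Apart (m j)) :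
    ∃ L : Λ → Perm U, (∀ a, Closed (L a)) ∧ ∑ a, E (L a) = ∑ a, E (l a) + ∑ j, (m j).Δ ∧
      ∀ a x, (∀ j, g j = a → x ≠ (m j).b ∧ x ≠ (m j).w) →
        (∀ j, g j = a → l a x ≠ (m j).b ∧ l a x ≠ (m j).w) → L a x = l a x := by
  classical
  have h : ∀ a, ∃ l' : Perm U, Closed l' ∧
      E l' = E (l a) + ∑ j ∈ univ.filter (fun j => g j = a), (m j).Δ ∧
      ∀ x, (∀ j, g j = a → x ≠ (m j).b ∧ x ≠ (m j).w) →
        (∀ j, g j = a → l a x ≠ (m j).b ∧ l a x ≠ (m j).w) → l' x = l a x := by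
    intro a
    obtain ⟨l', h1, h2, h3⟩ := multi_exch' (univ.filter (fun j => g j = a)) m hc (l a) (hl a)
      (fun j hj => by
        rw [mem_filter] at hj
        rw [← hj.2]
        exact hin j)
      (fun i hi j hj hne => by
        rw [mem_filter] at hi hj
        exact hap i j hne (by rw [hi.2, hj.2]))
    refine ⟨l', h1, h2, fun x hx hlx => h3 x (fun j hj => hx j ?_) (fun j hj => hlx j ?_)⟩
    · rw [mem_filter] at hj; exact hj.2
    · rw [mem_filter] at hj; exact hj.2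
  choose L hL1 hL2 hL3 using h
  refine ⟨L, hL1, ?_, hL3⟩
  rw [sum_congr rfl fun a _ => hL2 a, sum_add_distrib]
  congr 1
  exact Finset.sum_fiberwise_of_maps_to (fun _ _ => mem_univ _) _

/-- **The splice theorem**, with several cycles in the squares of `r`, several exchanges in the
squares of `l`, and control of the untouched points. -/
theorem splice_theorem4 {Λ T Z : Type*} [Fintype Λ] [Fintype T] [Fintype Z] [DecidableEq Λ]
    [DecidableEq T] [DecidableEq Z] (hc : 5 < Fintype.card U)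
    (l : Λ → Perm U) (hl : ∀ a, Closed (l a)) (r : T → Perm U)
    (hsum : ∑ a, E (l a) + ∑ i, E (r i) = allPairs U)
    (sq : Z → T) (P : Z → Place U) (κ : T → U → Option Z) (hκ : ∀ i, Comps (r i) (κ i))
    (hsq : ∀ i x z, κ i x = some z → sq z = i)
    (hq : ∀ z, κ (sq z) (P z).q = some z) (hx : ∀ z, κ (sq z) (P z).x₀ = none)
    (hinP : ∀ z, (P z).In (r (sq z)))
    (hqu : ∀ z, (P z).q ≠ (P z).u) (hxx : ∀ z, (P z).x₀ ≠ (P z).x₁)
    (hapP : ∀ z z', sq z = sq z' → z ≠ z' →
      (P z').x₀ ≠ (P z).x₃ ∧ (P z').x₀ ≠ (P z).x₀ ∧ (P z').x₀ ≠ (P z).x₁)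
    (g : Z × Fin 3 → Λ) (m : Z × Fin 3 → Move U)
    (hin : ∀ z, (m z).In (l (g z)))
    (hap : ∀ z z', z ≠ z' → g z = g z' → (m z).Apart (m z'))
    (hΔ : ∀ z, (m (z, 0)).Δ + (m (z, 1)).Δ + (m (z, 2)).Δ = (P z).Γ) :
    ∃ s : Λ ⊕ T → Perm U, Dec s ∧
      (∀ a x, (∀ z, g z = a → x ≠ (m z).b ∧ x ≠ (m z).w) →
        (∀ z, g z = a → l a x ≠ (m z).b ∧ l a x ≠ (m z).w) → s (.inl a) x = l a x) ∧
      (∀ i x, (∀ z, sq z = i → x ≠ (P z).q ∧ x ≠ (P z).x₀) → s (.inr i) x = r i x) := by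
  classical
  obtain ⟨L, hLc, hLE, hLP⟩ := multi_exch_family' l hl hc m g hin hap
  have h : ∀ i, ∃ r' : Perm U, Closed r' ∧
      E r' = E (r i) - ∑ z ∈ univ.filter (fun z => sq z = i), (P z).Γ ∧
      ∀ x, (∀ z, sq z = i → x ≠ (P z).q ∧ x ≠ (P z).x₀) → r' x = r i x := by
    intro i
    obtain ⟨r', κ', h1, h5, h6, h7, h3⟩ := multi_splice (univ.filter (fun z => sq z = i)) P (r i)
      (κ i) (hκ i)
      (fun z hz => by rw [mem_filter] at hz; rw [← hz.2]; exact hq z)
      (fun z hz => by rw [mem_filter] at hz; rw [← hz.2]; exact hx z)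
      (fun z hz => by rw [mem_filter] at hz; rw [← hz.2]; exact hinP z)
      (fun z _ => hqu z) (fun z _ => hxx z)
      (fun z hz z' hz' hne => by
        rw [mem_filter] at hz hz'; exact hapP z z' (by rw [hz.2, hz'.2]) hne)
    have hall : ∀ x, κ' x = none := by
      intro x
      by_cases hcx : ∃ z ∈ univ.filter (fun z => sq z = i), κ i x = some z
      · exact h5 x hcx
      · rw [h6 x hcx]
        by_contra hne
        obtain ⟨z, hz⟩ := Option.ne_none_iff_exists'.1 hne
        exact hcx ⟨z, by simp [hsq i x z hz], hz⟩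
    refine ⟨r', fun x y => (h1 x y).2 (by rw [hall x, hall y]), h3, fun x hx' => h7 x ?_⟩
    intro z hz
    rw [mem_filter] at hz
    exact hx' z hz.2
  choose R hRc hRE hRP using h
  refine ⟨Sum.elim L R, ⟨?_, ?_⟩, hLP, hRP⟩
  · rintro (a | i)
    · exact hLc a
    · exact hRc i
  · rw [Fintype.sum_sum_type]
    simp only [Sum.elim_inl, Sum.elim_inr]
    have e1 : ∑ i, ∑ z ∈ univ.filter (fun z => sq z = i), (P z).Γ = ∑ z, (P z).Γ :=
      Finset.sum_fiberwise_of_maps_to (fun _ _ => mem_univ _) _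
    have e2 : ∑ z : Z × Fin 3, (m z).Δ = ∑ z, (P z).Γ := by
      rw [Fintype.sum_prod_type]
      refine sum_congr rfl fun z _ => ?_
      rw [← hΔ z, Fin.sum_univ_three]
    rw [hLE, sum_congr rfl fun i _ => hRE i, sum_sub_distrib, e1, e2, ← hsum]
    abel

end SqIns
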