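import Pool.Agent.Lib.SqIns.Match
import Pool.Agent.Lib.SqIns.Splice4
import Pool.Agent.Lib.SqIns.Labels

/-!
# The abstract induction step, with given labels

`Spl` is one splice: the number `sq` of the square, the row, the family (`true`: left version with the
system `iA`, `false`: mirror version with the system `ia`), `zt = true` if the neighbour is the column
of infinity, the levels of `q`, `p`, `u`, `v` (before `Φ`) and the letters.
-/

open Finset Equiv

namespace SqIns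

/-- a place read backwards -/
def Place.rev {U : Type*} (P : Place U) : Place U :=
  ⟨P.v, P.u, P.q, P.p, P.x₂, P.x₁, P.x₀, P.x₃⟩

theorem Place.Γ_rev {U : Type*} [DecidableEq U] (P : Place U) : P.rev.Γ = P.Γ := by
  unfold Place.rev Place.Γ
  simp only
  rw [pr_comm P.x₁ P.q, pr_comm P.x₀ P.u, pr_comm P.x₁ P.x₀, pr_comm P.q P.u, pr_comm P.x₂ P.q,
    pr_comm P.x₀ P.v, pr_comm P.x₂ P.x₀, pr_comm P.q P.v, pr_comm P.x₁ P.p, pr_comm P.x₃ P.u,
    pr_comm P.x₁ P.x₃, pr_comm P.p P.u]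
  rw [pr_comm P.q P.x₁, pr_comm P.u P.x₀, pr_comm P.q P.x₂, pr_comm P.v P.x₀, pr_comm P.p P.x₁,
    pr_comm P.u P.x₃]
  abel

/-- one splice -/
structure Spl (ι T R W : Type*) where
  sq : T
  row : ι
  fam : Bool
  zt : Bool
  yq : R
  yp : R
  zu : R
  zv : R
  x : W
  p' : W
  u' : W
  v' : W

namespace Spl

variable {ι T R W : Type*} (S : Spl ι T R W)

/-- level over the outer column in the move `n` -/
def lev (n : Fin 3) : R := match n with
  | 0 => S.yq
  | 1 => S.yp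
  | 2 => S.yq

/-- level over the inner column in the move `n` -/
def levI (n : Fin 3) : R := match n with
  | 0 => S.zu
  | 1 => S.zu
  | 2 => S.zv

/-- letter of `iA`, `ia` in the move `n` -/
def ltX (n : Fin 3) : W := match n with
  | 0 => S.v'
  | 1 => S.u'
  | 2 => S.u'

/-- neighbouring letter in the move `n` -/
def ltY (n : Fin 3) : W := match n with
  | 0 => S.x
  | 1 => S.p'
  | 2 => S.x

/-- neighbouring letter or point over infinity -/
def ypt (V : Type*) (w : W) (y : R) : (Option V × R) ⊕ W :=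
  if S.zt then .inl (none, y) else .inr w

end Spl

namespace Row

section Sets

variable {X R I W : Type*} (σ : W → I)

/-- the column of a point is in `C`, the system of a letter is in `D` -/
def InSet (C : Set X) (D : Set I) : (X × R) ⊕ W → Prop
  | .inl p => p.1 ∈ C
  | .inr w => σ w ∈ D

theorem InSet.ne {σ : W → I} {C C' : Set X} {D D' : Set I} (hC : ∀ x ∈ C, x ∉ C')
    (hD : ∀ i ∈ D, i ∉ D') {u u' : (X × R) ⊕ W} (h : InSet σ C D u) (h' : InSet σ C' D' u') :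
    u ≠ u' := by
  rintro rfl
  rcases u with p | w
  · exact hC _ h h'
  · exact hD _ h h'

theorem apart_of_sets {σ : W → I} {C C' : Set X} {D D' : Set I} (hC : ∀ x ∈ C, x ∉ C')
    (hD : ∀ i ∈ D, i ∉ D') {m m' : Move ((X × R) ⊕ W)} (hb : InSet σ C D m.b)
    (hw : InSet σ C D m.w) (h1 : InSet σ C' D' m'.y) (h2 : InSet σ C' D' m'.a)
    (h3 : InSet σ C' D' m'.b) (h4 : InSet σ C' D' m'.w) (h5 : InSet σ C' D' m'.c)
    (h6 : InSet σ C' D' m'.d) : m.Apart m' :=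
  ⟨⟨hb.ne hC hD h1, hb.ne hC hD h2, hb.ne hC hD h3, hb.ne hC hD h4, hb.ne hC hD h5,
    hb.ne hC hD h6⟩, ⟨hw.ne hC hD h1, hw.ne hC hD h2, hw.ne hC hD h3, hw.ne hC hD h4,
    hw.ne hC hD h5, hw.ne hC hD h6⟩⟩

end Sets

variable {V R I W ι T : Type*} [Fintype V] [CommRing R] (ρ : Row (Option V) R I) (σ : W → I)
  (κ : W → R) (iA ib ia iB : I) (S : Spl ι T R W)

/-- the lift of the move `n` of the splice `S` -/
noncomputable def slift (n : Fin 3) : R :=
  if S.fam then ρ.lf iA (S.lev n) (S.levI n) else ρ.lf' ia (S.lev n) (S.levI n)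

/-- the move `n` of the splice `S` -/
noncomputable def smove (n : Fin 3) : Move ((Option V × R) ⊕ W) :=
  if S.fam then
    (if S.zt then ρ.mZL σ κ (ρ.slift iA ia S n) (S.ltX n)
      else ρ.mL σ κ (ρ.slift iA ia S n) (S.ltX n) (S.ltY n))
  else
    (if S.zt then ρ.mZR σ κ (ρ.slift iA ia S n) (S.ltX n)
      else ρ.mR σ κ (ρ.slift iA ia S n) (S.ltY n) (S.ltX n))

/-- the outer column -/
def outc : Option V := if S.fam then ρ.s⁻¹ (ρ.B iA) else ρ.s (ρ.s (ρ.B ia))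

/-- the inner column -/
def innc : Option V := if S.fam then ρ.s (ρ.B iA) else ρ.B ia

/-- the place of the splice `S` -/
def splace : Place ((Option V × R) ⊕ W) :=
  ⟨.inl (ρ.outc iA ia S, S.yp), .inl (ρ.outc iA ia S, S.yq), .inl (ρ.innc iA ia S, S.zu),
    .inl (ρ.innc iA ia S, S.zv), S.ypt V S.p' S.yp, S.ypt V S.x S.yq, .inr S.u', .inr S.v'⟩

/-- the label of the edge number `n` -/
noncomputable def slabel (n : Fin 3) : R :=
  if S.fam then ρ.lb iA (S.lev n) (S.levI n) else ρ.lb' ia (S.lev n) (S.levI n)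

/-- the row is suitable for the splice `S`, the labels fit -/
structure SFits : Prop where
  σX : ∀ n, σ (S.ltX n) = if S.fam then iA else ia
  κX : ∀ n, κ (S.ltX n) = ρ.slabel iA ia S n
  σY : S.zt = false → ∀ n, σ (S.ltY n) = if S.fam then ib else iB
  κY : S.zt = false → ∀ n, κ (S.ltY n) = S.lev n
  adjL : S.fam = true → S.zt = false → ρ.s (ρ.s (ρ.B iA)) = ρ.B ib
  dirL : S.fam = true → S.zt = false → ρ.cs ib = ρ.col (ρ.s⁻¹ (ρ.B iA))
  adjR : S.fam = false → S.zt = false → ρ.s (ρ.s (ρ.B iB)) = ρ.B ia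
  dirR : S.fam = false → S.zt = false → ρ.cs iB = ρ.col (ρ.s (ρ.s (ρ.B ia)))
  tL : S.fam = true → S.zt = true → ρ.tR iA = none
  gapL : S.fam = true → S.zt = true → ∀ j, ρ.B j ≠ ρ.s (ρ.s (ρ.B iA))
  seamL : S.fam = true → S.zt = true → ρ.τ (ρ.s (ρ.s (ρ.B iA))) = 0
  zdirL : S.fam = true → S.zt = true → ρ.col none = ρ.col (ρ.s⁻¹ (ρ.B iA))
  tR : S.fam = false → S.zt = true → ρ.tL ia = none
  gapR : S.fam = false → S.zt = true → ∀ j, ρ.B j ≠ ρ.tL ia
  seamR : S.fam = false → S.zt = true → ρ.τ (ρ.tL ia) = 0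
  zdirR : S.fam = false → S.zt = true → ρ.col none = ρ.col (ρ.s (ρ.s (ρ.B ia)))

variable {ρ σ κ iA ib ia iB S}

theorem SFits.pass (h : ρ.SFits σ κ iA ib ia iB S) (hz : S.zt = false) (n : Fin 3) :
    if S.fam then ρ.Pass σ κ (ρ.slift iA ia S n) (S.ltX n) (S.ltY n)
      else ρ.Pass σ κ (ρ.slift iA ia S n) (S.ltY n) (S.ltX n) := by
  have h1 := h.σX n
  have h2 := h.κX n
  have h3 := h.σY hz n
  have h4 := h.κY hz n
  have h5 := h.dirL
  have h6 := h.dirR
  unfold slabel at h2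
  unfold Pass slift
  rw [h1, h2, h3, h4]
  cases hf : S.fam
  · simp only [hf, Bool.false_eq_true, if_false]
    rw [h6 hf hz]
    unfold lb'
    ring
  · simp only [if_true]
    rw [h5 hf hz]
    unfold lb
    ring

theorem SFits.smove_in [DecidableEq V] [DecidableEq R] [DecidableEq W]
    (h : ρ.SFits σ κ iA ib ia iB S) (hσ : Function.Injective fun w => (σ w, κ w)) (n : Fin 3) :
    (ρ.smove σ κ iA ia S n).In (ρ.full hσ (ρ.slift iA ia S n)) := by
  have h1 := h.σX n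
  have h3 := fun hz => h.σY hz n
  have h5 := fun hz => h.pass hz n
  unfold smove
  cases hf : S.fam <;> cases hz : S.zt
  · simp only [hf, Bool.false_eq_true, if_false] at h1 h3 h5 ⊢
    exact ρ.move_right hσ _ (by rw [h3 hz, h1]; exact h.adjR hf hz) (h5 hz)
  · simp only [hf, Bool.false_eq_true, if_false, if_true] at h1 ⊢
    exact ρ.mZR_in hσ _ _ (by rw [h1]; exact h.gapR hf hz) (by rw [h1]; exact h.seamR hf hz)
  · simp only [hf, Bool.false_eq_true, if_false, if_true] at h1 h3 h5 ⊢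
    exact ρ.move_left hσ _ (by rw [h3 hz, h1]; exact h.adjL hf hz) (h5 hz)
  · simp only [hf, if_true] at h1 ⊢
    exact ρ.mZL_in hσ _ _ (by rw [h1]; exact h.gapL hf hz) (by rw [h1]; exact h.seamL hf hz)

section Edges

variable [DecidableEq V] [DecidableEq R] [DecidableEq W]

theorem SFits.Δ (h : ρ.SFits σ κ iA ib ia iB S) (n : Fin 3) : (ρ.smove σ κ iA ia S n).Δ =
    - pr (.inl (ρ.outc iA ia S, S.lev n)) (.inr (S.ltX n)) -
      pr (.inl (ρ.innc iA ia S, S.levI n)) (S.ypt V (S.ltY n) (S.lev n)) +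
      pr (.inl (ρ.outc iA ia S, S.lev n)) (.inl (ρ.innc iA ia S, S.levI n)) +
      pr (.inr (S.ltX n)) (S.ypt V (S.ltY n) (S.lev n)) := by
  have h1 := h.σX n
  have h2 := h.κX n
  unfold smove outc innc Spl.ypt slift
  unfold slabel at h2
  cases hf : S.fam <;> cases hz : S.zt
  · simp only [hf, Bool.false_eq_true, if_false] at h1 h2 ⊢
    simp only [mR, Move.Δ, h1, h2, at_lb'_d, at_lb'_b]
    simp only [pr_comm (Sum.inr _) (Sum.inl _),
      pr_comm (Sum.inl (ρ.B ia, _)) (Sum.inl (ρ.s (ρ.s (ρ.B ia)), _)),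
      pr_comm (Sum.inr (S.ltY n)) (Sum.inr (S.ltX n))]
    abel
  · simp only [hf, Bool.false_eq_true, if_false, if_true] at h1 h2 ⊢
    have ht : ρ.at' ia (ρ.lb' ia (S.lev n) (S.levI n)) (ρ.lf' ia (S.lev n) (S.levI n))
        (ρ.tL ia) = (none, S.lev n) := by
      unfold at' lb'
      rw [h.tR hf hz, h.zdirR hf hz, sub_add_cancel]
    simp only [mZR, Move.Δ, h1, h2, at_lb'_d, at_lb'_b, ht]
    simp only [pr_comm (Sum.inr _) (Sum.inl _),
      pr_comm (Sum.inl (ρ.B ia, _)) (Sum.inl (ρ.s (ρ.s (ρ.B ia)), _)),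
      pr_comm (Sum.inl (ρ.B ia, _)) (Sum.inl (none, _))]
    abel
  · simp only [hf, Bool.false_eq_true, if_false, if_true] at h1 h2 ⊢
    simp only [mL, Move.Δ, h1, h2, at_lb_a, at_lb_c]
  · simp only [hf, if_true] at h1 h2 ⊢
    have ht : ρ.at' iA (ρ.lb iA (S.lev n) (S.levI n)) (ρ.lf iA (S.lev n) (S.levI n))
        (ρ.tR iA) = (none, S.lev n) := by
      unfold at' lb
      rw [h.tL hf hz, h.zdirL hf hz, sub_add_cancel]
    simp only [mZL, Move.Δ, h1, h2, at_lb_a, at_lb_c, ht]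

theorem SFits.Γ (h : ρ.SFits σ κ iA ib ia iB S) :
    (ρ.smove σ κ iA ia S 0).Δ + (ρ.smove σ κ iA ia S 1).Δ + (ρ.smove σ κ iA ia S 2).Δ =
      (ρ.splace iA ia S).Γ := by
  rw [h.Δ, h.Δ, h.Δ]
  simp only [Spl.lev, Spl.levI, Spl.ltX, Spl.ltY, splace, Place.Γ]
  rw [pr_comm (S.ypt V S.x S.yq) (Sum.inl (ρ.innc iA ia S, S.zu)),
    pr_comm (Sum.inr S.u') (Sum.inl (ρ.outc iA ia S, S.yq)),
    pr_comm (S.ypt V S.x S.yq) (Sum.inr S.u'),
    pr_comm (Sum.inl (ρ.innc iA ia S, S.zu)) (Sum.inl (ρ.outc iA ia S, S.yq)),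
    pr_comm (S.ypt V S.p' S.yp) (Sum.inl (ρ.innc iA ia S, S.zu)),
    pr_comm (Sum.inr S.u') (Sum.inl (ρ.outc iA ia S, S.yp)),
    pr_comm (S.ypt V S.p' S.yp) (Sum.inr S.u'),
    pr_comm (Sum.inl (ρ.innc iA ia S, S.zu)) (Sum.inl (ρ.outc iA ia S, S.yp)),
    pr_comm (S.ypt V S.x S.yq) (Sum.inl (ρ.innc iA ia S, S.zv)),
    pr_comm (Sum.inr S.v') (Sum.inl (ρ.outc iA ia S, S.yq)),
    pr_comm (S.ypt V S.x S.yq) (Sum.inr S.v'),
    pr_comm (Sum.inl (ρ.innc iA ia S, S.zv)) (Sum.inl (ρ.outc iA ia S, S.yq))]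
  abel

end Edges

/-! ### Apartness -/

/-- two splices of the same family in the same row -/
theorem SFits.apart_same {S' : Spl ι T R W} (h : ρ.SFits σ κ iA ib ia iB S)
    (h' : ρ.SFits σ κ iA ib ia iB S') (hf : S.fam = S'.fam) (n n' : Fin 3)
    (hne : ¬ (S.lev n = S'.lev n' ∧ S.levI n = S'.levI n'))
    (hl : ρ.slift iA ia S n = ρ.slift iA ia S' n') :
    (ρ.smove σ κ iA ia S n).Apart (ρ.smove σ κ iA ia S' n') := by
  have hz : S.zt = S'.zt := by
    cases hf' : S'.fam <;> cases hz : S.zt <;> cases hz' : S'.zt <;> try rfl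
    · exact absurd (h.adjR (hf.trans hf') hz) fun h1 => h'.gapR hf' hz' iB (by
        unfold Row.tL; rw [← h1]; simp)
    · exact absurd (h'.adjR hf' hz') fun h1 => h.gapR (hf.trans hf') hz iB (by
        unfold Row.tL; rw [← h1]; simp)
    · exact absurd (h.adjL (hf.trans hf') hz) fun h1 => h'.gapL hf' hz' ib h1.symm
    · exact absurd (h'.adjL hf' hz') fun h1 => h.gapL (hf.trans hf') hz ib h1.symm
  have hlev : S.lev n ≠ S'.lev n' := by
    intro he
    refine hne ⟨he, ?_⟩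
    unfold slift at hl
    rw [← hf, ← he] at hl
    cases hf' : S.fam
    · simp only [hf', Bool.false_eq_true, if_false] at hl
      exact ρ.lf'_injective _ _ hl
    · simp only [hf', if_true] at hl
      exact ρ.lf_injective _ _ hl
  have hκX : κ (S.ltX n) ≠ κ (S'.ltX n') := by
    rw [h.κX, h'.κX]
    unfold slabel slift at *
    rw [← hf] at hl ⊢
    cases hf' : S.fam
    · simp only [hf', Bool.false_eq_true, if_false] at hl ⊢
      intro he
      unfold lb' at he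
      rw [hl] at he
      exact hlev (sub_left_injective he)
    · simp only [hf', if_true] at hl ⊢
      intro he
      unfold lb at he
      rw [hl] at he
      exact hlev (sub_left_injective he)
  have h1 := h.σX n
  have h1' := h'.σX n'
  unfold smove
  rw [← hl, ← hf, ← hz]
  have hp := fun hz => h.pass hz n
  have hp' := fun hz => h'.pass hz n'
  rw [← hl, ← hf] at hp'
  cases hf' : S.fam <;> cases hz' : S.zt
  · simp only [hf', Bool.false_eq_true, if_false] at hp hp' ⊢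
    have e1 : σ (S.ltX n) = ia := by rw [h1, hf']; rfl
    have e2 : σ (S'.ltX n') = ia := by rw [h1', ← hf, hf']; rfl
    have e3 : σ (S.ltY n) = iB := by rw [h.σY hz', hf']; rfl
    have e4 : σ (S'.ltY n') = iB := by rw [h'.σY (hz ▸ hz'), ← hf, hf']; rfl
    refine ρ.apart_RR _ (by rw [e3, e4]) (by rw [e1, e2]) (by rw [e1, e3]; exact h.adjR hf' hz')
      (hp hz') (hp' (hz ▸ hz')) ?_
    rw [h.κY hz', h'.κY (hz ▸ hz')]
    exact hlev
  · simp only [Bool.false_eq_true, if_false, if_true]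
    exact ρ.apart_ZR _ (by rw [h1, h1', hf]) hκX
  · simp only [hf', Bool.false_eq_true, if_false, if_true] at hp hp' ⊢
    have e1 : σ (S.ltX n) = iA := by rw [h1, hf']; rfl
    have e2 : σ (S'.ltX n') = iA := by rw [h1', ← hf, hf']; rfl
    have e3 : σ (S.ltY n) = ib := by rw [h.σY hz', hf']; rfl
    have e4 : σ (S'.ltY n') = ib := by rw [h'.σY (hz ▸ hz'), ← hf, hf']; rfl
    refine ρ.apart_LL _ (by rw [e1, e2]) (by rw [e3, e4]) (by rw [e1, e3]; exact h.adjL hf' hz')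
      (hp hz') (hp' (hz ▸ hz')) ?_
    rw [h.κY hz', h'.κY (hz ▸ hz')]
    exact hlev
  · simp only [if_true]
    exact ρ.apart_ZL _ (by rw [h1, h1', hf]) hκX

/-- the columns and systems do not interfere -/
structure Cross (ρ : Row (Option V) R I) (iA ib ia iB : I) : Prop where
  hAa : iA ≠ ia
  hAB : iA ≠ iB
  hba : ib ≠ ia
  inf : ∀ i n, ρ.wn i n ≠ none
  cA : ∀ n, ρ.wn iA 2 ≠ ρ.wn ia n
  ca : ∀ n, ρ.wn ia 1 ≠ ρ.wn iA n

theorem SFits.sets_left (h : ρ.SFits σ κ iA ib ia iB S) (hf : S.fam = true) (n : Fin 3) :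
    let C : Set (Option V) := {x | x = none ∨ ∃ k, x = ρ.wn iA k}
    let D : Set I := {iA, ib}
    (InSet σ {ρ.wn iA 2} {iA} (ρ.smove σ κ iA ia S n).b ∧
      InSet σ {ρ.wn iA 2} {iA} (ρ.smove σ κ iA ia S n).w) ∧
    InSet σ C D (ρ.smove σ κ iA ia S n).y ∧ InSet σ C D (ρ.smove σ κ iA ia S n).a ∧
      InSet σ C D (ρ.smove σ κ iA ia S n).b ∧ InSet σ C D (ρ.smove σ κ iA ia S n).w ∧
      InSet σ C D (ρ.smove σ κ iA ia S n).c ∧ InSet σ C D (ρ.smove σ κ iA ia S n).d := by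
  intro C D
  have e1 : σ (S.ltX n) = iA := by rw [h.σX, hf]; rfl
  cases hz : S.zt
  · have e3 : σ (S.ltY n) = ib := by rw [h.σY hz, hf]; rfl
    simp only [smove, hf, hz, Bool.false_eq_true, if_false, if_true, mL, InSet, at', e1, e3]
    exact ⟨⟨rfl, rfl⟩, Or.inr ⟨0, rfl⟩, Or.inr ⟨1, rfl⟩, Or.inl rfl, Or.inr ⟨2, rfl⟩,
      Or.inr ⟨3, rfl⟩, Or.inr rfl⟩
  · simp only [smove, hf, hz, if_true, mZL, InSet, at', e1]
    exact ⟨⟨rfl, rfl⟩, Or.inr ⟨0, rfl⟩, Or.inr ⟨1, rfl⟩, Or.inl rfl, Or.inr ⟨2, rfl⟩,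
      Or.inr ⟨3, rfl⟩, Or.inl (h.tL hf hz)⟩

theorem SFits.sets_right (h : ρ.SFits σ κ iA ib ia iB S) (hf : S.fam = false) (n : Fin 3) :
    let C : Set (Option V) := {x | x = none ∨ ∃ k, x = ρ.wn ia k}
    let D : Set I := {ia, iB}
    (InSet σ {ρ.wn ia 1} {ia} (ρ.smove σ κ iA ia S n).b ∧
      InSet σ {ρ.wn ia 1} {ia} (ρ.smove σ κ iA ia S n).w) ∧
    InSet σ C D (ρ.smove σ κ iA ia S n).y ∧ InSet σ C D (ρ.smove σ κ iA ia S n).a ∧
      InSet σ C D (ρ.smove σ κ iA ia S n).b ∧ InSet σ C D (ρ.smove σ κ iA ia S n).w ∧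
      InSet σ C D (ρ.smove σ κ iA ia S n).c ∧ InSet σ C D (ρ.smove σ κ iA ia S n).d := by
  intro C D
  have e1 : σ (S.ltX n) = ia := by rw [h.σX, hf]; rfl
  cases hz : S.zt
  · have e3 : σ (S.ltY n) = iB := by rw [h.σY hz, hf]; rfl
    simp only [smove, hf, hz, Bool.false_eq_true, if_false, mR, InSet, at', e1, e3]
    exact ⟨⟨rfl, rfl⟩, Or.inr rfl, Or.inr ⟨0, rfl⟩, Or.inr ⟨1, rfl⟩, Or.inl rfl,
      Or.inr ⟨2, rfl⟩, Or.inr ⟨3, rfl⟩⟩
  · simp only [smove, hf, hz, Bool.false_eq_true, if_false, if_true, mZR, InSet, at', e1]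
    exact ⟨⟨rfl, rfl⟩, Or.inl (h.tR hf hz), Or.inr ⟨0, rfl⟩, Or.inr ⟨1, rfl⟩, Or.inl rfl,
      Or.inr ⟨2, rfl⟩, Or.inr ⟨3, rfl⟩⟩

/-- two splices of different families in the same row -/
theorem SFits.apart_cross {S' : Spl ι T R W} (h : ρ.SFits σ κ iA ib ia iB S)
    (h' : ρ.SFits σ κ iA ib ia iB S') (hc : ρ.Cross iA ib ia iB) (hf : S.fam ≠ S'.fam)
    (n n' : Fin 3) : (ρ.smove σ κ iA ia S n).Apart (ρ.smove σ κ iA ia S' n') := by
  cases hS : S.fam
  · have hS' : S'.fam = true := by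
      cases h1 : S'.fam
      · exact absurd (hS.trans h1.symm) hf
      · rfl
    obtain ⟨⟨a1, a2⟩, -⟩ := h.sets_right hS n
    obtain ⟨-, b1, b2, b3, b4, b5, b6⟩ := h'.sets_left hS' n'
    refine apart_of_sets ?_ ?_ a1 a2 b1 b2 b3 b4 b5 b6
    · rintro x rfl (h0 | ⟨k, hk⟩)
      · exact hc.inf _ _ h0
      · exact hc.ca k hk
    · rintro i rfl (h0 | h0)
      · exact hc.hAa h0.symm
      · exact hc.hba h0.symm
  · have hS' : S'.fam = false := by
      cases h1 : S'.fam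
      · rfl
      · exact absurd (hS.trans h1.symm) hf
    obtain ⟨⟨a1, a2⟩, -⟩ := h.sets_left hS n
    obtain ⟨-, b1, b2, b3, b4, b5, b6⟩ := h'.sets_right hS' n'
    refine apart_of_sets ?_ ?_ a1 a2 b1 b2 b3 b4 b5 b6
    · rintro x rfl (h0 | ⟨k, hk⟩)
      · exact hc.inf _ _ h0
      · exact hc.cA k hk
    · rintro i rfl (h0 | h0)
      · exact hc.hAa h0
      · exact hc.hAB h0

end Row

end SqIns
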