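import Pool.Agent.Lib.SqIns.Main1

/-!
# The abstract induction step, with given labels: assembly
-/

open Finset Equiv

namespace SqIns

theorem adj_of_step1 {V : Type*} {s : Perm V} {a b : V} (h : s a = b) : Adj s a b := Or.inl h

theorem adj_of_step2 {V : Type*} {s : Perm V} {a b c : V} (h : s a = b) (h' : s b = c) :
    Adj s a c := Or.inr (Or.inr (Or.inl (by rw [h, h'])))

theorem Adj.symm' {V : Type*} {s : Perm V} {a b : V} (h : Adj s a b) : Adj s b a := by
  rcases h with h | h | h | h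
  · exact Or.inr (Or.inl h)
  · exact Or.inl h
  · exact Or.inr (Or.inr (Or.inr h))
  · exact Or.inr (Or.inr (Or.inl h))

/-- if the total is at most one on every edge, no edge is in two squares -/
theorem no_common {U T : Type*} [DecidableEq U] [Fintype U] [Fintype T] [DecidableEq T]
    (r : T → Perm U) (F : Sym2 U → ℤ) (hF : ∀ e, 0 ≤ F e)
    (h : F + ∑ j, E (r j) = allPairs U) {j j' : T} (hj : j ≠ j') {a b : U} (hab : a ≠ b)
    (h1 : Adj (r j) a b) (h2 : Adj (r j') a b) : False := by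
  have e1 : 0 < E (r j) s(a, b) := (E_pos_iff _ hab).2 h1
  have e2 : 0 < E (r j') s(a, b) := (E_pos_iff _ hab).2 h2
  have e3 := congrFun h s(a, b)
  rw [Pi.add_apply, Finset.sum_apply] at e3
  have e4 : E (r j) s(a, b) + E (r j') s(a, b) ≤ ∑ j, E (r j) s(a, b) := by
    have e6 := sum_pair (f := fun i => E (r i) s(a, b)) hj
    rw [← e6]
    exact sum_le_sum_of_subset_of_nonneg (subset_univ _) fun i _ _ => E_nonneg _ _
  have e5 : allPairs U s(a, b) ≤ 1 := by
    unfold allPairs
    split_ifs <;> omega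
  have := hF s(a, b)
  omega

/-- the place or the place read backwards -/
def Place.Is {U : Type*} (P Q : Place U) : Prop := P = Q ∨ P = Q.rev

/-- the three edges of a place and its points are different -/
theorem Place.In.facts {U : Type*} {P Q : Place U} {r : Perm U} (h : P.In r) (hP : P.Is Q)
    (hqu : Q.q ≠ Q.u) :
    (Adj r Q.q Q.u ∧ Adj r Q.p Q.u ∧ Adj r Q.q Q.v) ∧ Q.p ≠ Q.q ∧ Q.u ≠ Q.v := by
  obtain ⟨h1, h2, h3, -, -, -⟩ := h
  rcases hP with rfl | rfl
  · refine ⟨⟨adj_of_step1 h2, adj_of_step2 h1 h2, adj_of_step2 h2 h3⟩, ?_, ?_⟩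
    · intro h0
      rw [h0, h2] at h1
      exact hqu h1.symm
    · intro h0
      rw [← h0] at h3
      exact hqu (r.injective (h2.trans h3.symm))
  · simp only [Place.rev] at h1 h2 h3
    refine ⟨⟨(adj_of_step1 h2).symm', (adj_of_step2 h2 h3).symm', (adj_of_step2 h1 h2).symm'⟩,
      ?_, ?_⟩
    · intro h0
      rw [h0] at h3
      exact hqu (r.injective (h3.trans h2.symm))
    · intro h0
      rw [← h0, h2] at h1
      exact hqu h1

namespace Row

variable {V R I W ι T Z : Type*} [Fintype V] [DecidableEq V] [CommRing R] [Fintype R]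
  [DecidableEq R] [Fintype W] [DecidableEq W] [Fintype ι] [DecidableEq ι] [Fintype T]
  [DecidableEq T] [Fintype Z] [DecidableEq Z]

/-- the point is over a column which is not touched by the moves -/
def Quiet (ρ : Row (Option V) R I) (iA ia : I) : (Option V × R) ⊕ W → Prop
  | .inl p => p.1 ≠ ρ.wn iA 2 ∧ p.1 ≠ ρ.wn ia 1
  | .inr _ => False

omit [Fintype R] [DecidableEq R] [Fintype W] [DecidableEq W] [DecidableEq V] in
theorem outc_ne_innc (ρ : Row (Option V) R I) (iA ia : I) (S : Spl ι T R W) :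
    ρ.outc iA ia S ≠ ρ.innc iA ia S := by
  unfold outc innc
  cases S.fam
  · exact ρ.ne2 _
  · intro h
    simp only [if_true] at h
    apply ρ.ne2 (ρ.s⁻¹ (ρ.B iA))
    have h1 : ρ.s (ρ.s⁻¹ (ρ.B iA)) = ρ.B iA := by simp
    rw [h1]
    exact h.symm

omit [Fintype R] [DecidableEq R] [Fintype W] [DecidableEq W] [DecidableEq V] in
theorem SFits.ne_sys {ρ : Row (Option V) R I} {σ : W → I} {κ : W → R} {iA ib ia iB : I}
    {S : Spl ι T R W} (h : ρ.SFits σ κ iA ib ia iB S) :
    S.ypt V S.x S.yq ≠ .inr S.u' := by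
  unfold Spl.ypt
  cases hz : S.zt
  · simp only [Bool.false_eq_true, if_false]
    intro h0
    have h1 : S.x = S.u' := Sum.inr_injective h0
    have h2 := h.σY hz 0
    have h3 := h.σX 1
    change σ S.x = _ at h2
    change σ S.u' = _ at h3
    rw [h1, h3] at h2
    cases hf : S.fam
    · rw [hf] at h2
      change ia = iB at h2
      have h4 := h.adjR hf hz
      rw [← h2] at h4
      exact ρ.ne2 _ h4
    · rw [hf] at h2
      change iA = ib at h2
      have h4 := h.adjL hf hz
      rw [← h2] at h4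
      exact ρ.ne2 _ h4
  · simp

omit [Fintype R] [DecidableEq R] [Fintype W] [DecidableEq W] [DecidableEq V] in
/-- the exchanged points are not over quiet columns -/
theorem SFits.quiet {ρ : Row (Option V) R I} {σ : W → I} {κ : W → R} {iA ib ia iB : I}
    {S : Spl ι T R W} (h : ρ.SFits σ κ iA ib ia iB S) (Φ : Option V → Perm R) (n : Fin 3)
    {u : (Option V × R) ⊕ W} (hu : ρ.Quiet iA ia u) :
    u ≠ ((ρ.smove σ κ iA ia S n).map (mv W Φ)).b ∧
      u ≠ ((ρ.smove σ κ iA ia S n).map (mv W Φ)).w := by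
  have key : ∀ (m : (Option V × R) ⊕ W),
      (InSet σ {ρ.wn iA 2} {iA} m ∨ InSet σ {ρ.wn ia 1} {ia} m) → u ≠ mv W Φ m := by
    rintro m hm rfl
    rcases m with p | w
    · rcases hm with hm | hm
      · exact hu.1 hm
      · exact hu.2 hm
    · exact hu
  cases hf : S.fam
  · obtain ⟨⟨h1, h2⟩, -⟩ := h.sets_right hf n
    exact ⟨key _ (Or.inr h1), key _ (Or.inr h2)⟩
  · obtain ⟨⟨h1, h2⟩, -⟩ := h.sets_left hf n
    exact ⟨key _ (Or.inl h1), key _ (Or.inl h2)⟩

/-- **The abstract induction step with given labels.** -/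
theorem main_given (hc : 5 < Fintype.card ((Option V × R) ⊕ W))
    (ρ : ι → Row (Option V) R I) (σ : W → I) (κ : ι → W → R)
    (hσ : ∀ r, Function.Injective fun w => (σ w, κ r w)) (Φ : ι → Option V → Perm R)
    (hbase : ∑ r, E (ρ r).s = allPairs (Option V)) (win : ι → I → Fin 4 → V)
    (hwin : ∀ r i n, (ρ r).wn i n = some (win r i n))
    (hbij : ∀ i, Function.Bijective fun p : ι × Fin 4 => win p.1 i p.2)
    (O : T → Perm (V × R)) (S : T → Perm (R ⊕ W)) (free : Sym2 (V × R) → ℤ)
    (hfree : push (emV V R) free = ∑ r, push (fib (Φ r))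
      (∑ w, ((ρ r).mac (σ w) (κ r w) + (ρ r).mbd (σ w) (κ r w))))
    (hO : ∑ j, E (O j) = vertAll V R + free) (hS : ∑ j, E (S j) = allPairs (R ⊕ W))
    (iA ib ia iB : I) (spl : Z → Spl ι T R W)
    (hfit : ∀ z, (ρ (spl z).row).SFits σ (κ (spl z).row) iA ib ia iB (spl z))
    (hcross : ∀ z z', (spl z).row = (spl z').row → (spl z).fam ≠ (spl z').fam →
      (ρ (spl z).row).Cross iA ib ia iB)
    (hdist : ∀ z z', z ≠ z' → (spl z).row = (spl z').row → (spl z).fam = (spl z').fam →
      (spl z).sq ≠ (spl z').sq)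
    (P : Z → Place ((Option V × R) ⊕ W))
    (hP : ∀ z, (P z).Is (((ρ (spl z).row).splace iA ia (spl z)).map (mv W (Φ (spl z).row))))
    (comp : T → (Option V × R) ⊕ W → Option Z)
    (hcomp : ∀ j, Comps (two (O j) (S j)) (comp j))
    (hsq : ∀ j x z, comp j x = some z → (spl z).sq = j)
    (hq : ∀ z, comp (spl z).sq (P z).q = some z) (hx : ∀ z, comp (spl z).sq (P z).x₀ = none)
    (hin : ∀ z, (P z).In (two (O (spl z).sq) (S (spl z).sq)))
    (hap : ∀ z z', (spl z).sq = (spl z').sq → z ≠ z' →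
      (P z').x₀ ≠ (P z).x₃ ∧ (P z').x₀ ≠ (P z).x₀ ∧ (P z').x₀ ≠ (P z).x₁) :
    ∃ s : (ι × R) ⊕ T → Perm ((Option V × R) ⊕ W), Dec s ∧
      (∀ r l x, (ρ r).Quiet iA ia x → (ρ r).Quiet iA ia ((ρ r).fullΦ (hσ r) (Φ r) l x) →
        s (.inl (r, l)) x = (ρ r).fullΦ (hσ r) (Φ r) l x) ∧
      (∀ j x, (∀ z, (spl z).sq = j → x ≠ (P z).q ∧ x ≠ (P z).x₀) →
        s (.inr j) x = two (O j) (S j) x) := by
  classical
  have hsum := total ρ σ κ hσ Φ hbase win hwin hbij O S free hfree hO hS
  -- the places before reading them backwards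
  let Q : Z → Place ((Option V × R) ⊕ W) := fun z =>
    ((ρ (spl z).row).splace iA ia (spl z)).map (mv W (Φ (spl z).row))
  have hQqu : ∀ z, (Q z).q ≠ (Q z).u := by
    intro z h
    have h1 := (mv W (Φ (spl z).row)).injective h
    exact (ρ (spl z).row).outc_ne_innc iA ia (spl z) (Prod.ext_iff.1 (Sum.inl_injective h1)).1
  have hQxx : ∀ z, (Q z).x₀ ≠ (Q z).x₁ := by
    intro z h
    exact (hfit z).ne_sys ((mv W (Φ (spl z).row)).injective h)
  have hfacts := fun z => (hin z).facts (hP z) (hQqu z)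
  -- the three edges of the place number z
  have hadj : ∀ z (n : Fin 3), Adj (two (O (spl z).sq) (S (spl z).sq))
      (mv W (Φ (spl z).row) (.inl ((ρ (spl z).row).outc iA ia (spl z), (spl z).lev n)))
      (mv W (Φ (spl z).row) (.inl ((ρ (spl z).row).innc iA ia (spl z), (spl z).levI n))) := by
    intro z n
    obtain ⟨⟨h1, h2, h3⟩, -⟩ := hfacts z
    fin_cases n
    · exact h1
    · exact h2
    · exact h3
  have hne : ∀ z z' (n n' : Fin 3), (z, n) ≠ (z', n') → (spl z).row = (spl z').row →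
      (spl z).fam = (spl z').fam →
      ¬ ((spl z).lev n = (spl z').lev n' ∧ (spl z).levI n = (spl z').levI n') := by
    rintro z z' n n' hne hr hf ⟨h1, h2⟩
    by_cases hz : z = z'
    · subst hz
      obtain ⟨-, h3, h4⟩ := hfacts z
      have h5 : (spl z).yp ≠ (spl z).yq := by
        intro h
        apply h3
        show mv W _ (.inl (_, (spl z).yp)) = mv W _ (.inl (_, (spl z).yq))
        rw [h]
      have h6 : (spl z).zu ≠ (spl z).zv := by
        intro h
        apply h4
        show mv W _ (.inl (_, (spl z).zu)) = mv W _ (.inl (_, (spl z).zv))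
        rw [h]
      fin_cases n <;> fin_cases n'
      · exact hne rfl
      · exact h5 h1.symm
      · exact h6 h2
      · exact h5 h1
      · exact hne rfl
      · exact h5 h1
      · exact h6 h2.symm
      · exact h5 h1.symm
      · exact hne rfl
    · have h3 := hadj z n
      have h4 := hadj z' n'
      have h5 : (ρ (spl z').row).outc iA ia (spl z') = (ρ (spl z).row).outc iA ia (spl z) := by
        unfold outc
        rw [← hr, ← hf]
      have h6 : (ρ (spl z').row).innc iA ia (spl z') = (ρ (spl z).row).innc iA ia (spl z) := by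
        unfold innc
        rw [← hr, ← hf]
      rw [h5, h6, ← h1, ← h2, ← hr] at h4
      refine no_common _ _ (fun e => ?_) hsum (hdist z z' hz hr hf) ?_ h3 h4
      · rw [Finset.sum_apply]
        exact sum_nonneg fun p _ => E_nonneg _ _
      · intro h
        have h7 := (mv W (Φ (spl z).row)).injective h
        exact (ρ (spl z).row).outc_ne_innc iA ia (spl z)
          (Prod.ext_iff.1 (Sum.inl_injective h7)).1
  have hqu' : ∀ z, (P z).q ≠ (P z).u := by
    intro z
    rcases hP z with h | h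
    · rw [h]
      exact hQqu z
    · rw [h]
      exact (hQqu z).symm
  have hxx' : ∀ z, (P z).x₀ ≠ (P z).x₁ := by
    intro z
    rcases hP z with h | h
    · rw [h]
      exact hQxx z
    · rw [h]
      exact (hQxx z).symm
  let g : Z × Fin 3 → ι × R := fun z =>
    ((spl z.1).row, (ρ (spl z.1).row).slift iA ia (spl z.1) z.2)
  let m : Z × Fin 3 → Move ((Option V × R) ⊕ W) := fun z =>
    ((ρ (spl z.1).row).smove σ (κ (spl z.1).row) iA ia (spl z.1) z.2).map
      (mv W (Φ (spl z.1).row))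
  have hin' : ∀ z, (m z).In ((ρ (g z).1).fullΦ (hσ (g z).1) (Φ (g z).1) (g z).2) := fun z =>
    ((hfit z.1).smove_in (hσ _) z.2).permCongr _
  have hap' : ∀ z z', z ≠ z' → g z = g z' → (m z).Apart (m z') := by
    rintro ⟨z, n⟩ ⟨z', n'⟩ hzz hg
    have hr : (spl z).row = (spl z').row := (Prod.ext_iff.1 hg).1
    have hl : (ρ (spl z).row).slift iA ia (spl z) n = (ρ (spl z').row).slift iA ia (spl z') n' :=
      (Prod.ext_iff.1 hg).2
    have hfit' : (ρ (spl z).row).SFits σ (κ (spl z).row) iA ib ia iB (spl z') := by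
      rw [hr]
      exact hfit z'
    show Move.Apart (((ρ (spl z).row).smove σ (κ (spl z).row) iA ia (spl z) n).map
      (mv W (Φ (spl z).row))) (((ρ (spl z').row).smove σ (κ (spl z').row) iA ia (spl z') n').map
      (mv W (Φ (spl z').row)))
    rw [← hr]
    rw [← hr] at hl
    refine Move.Apart.map ?_ _
    by_cases hf : (spl z).fam = (spl z').fam
    · exact (hfit z).apart_same hfit' hf n n' (hne z z' n n' hzz hr hf) hl
    · exact (hfit z).apart_cross hfit' (hcross z z' hr hf) hf n n'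
  have hΔ' : ∀ z, (m (z, 0)).Δ + (m (z, 1)).Δ + (m (z, 2)).Δ = (P z).Γ := by
    intro z
    show ((Row.smove _ _ _ _ _ _ 0).map _).Δ + ((Row.smove _ _ _ _ _ _ 1).map _).Δ +
      ((Row.smove _ _ _ _ _ _ 2).map _).Δ = _
    rw [Move.Δ_map, Move.Δ_map, Move.Δ_map, ← push_add, ← push_add, (hfit z).Γ, ← Place.Γ_map]
    rcases hP z with h | h
    · rw [h]
    · rw [h, Place.Γ_rev]
  obtain ⟨s, hs, hs1, hs2⟩ := splice_theorem4 hc
    (fun p : ι × R => (ρ p.1).fullΦ (hσ p.1) (Φ p.1) p.2)
    (fun p => (ρ p.1).closed_fullΦ (hσ p.1) (Φ p.1) p.2) (fun j => two (O j) (S j)) hsum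
    (fun z => (spl z).sq) P comp hcomp hsq hq hx hin hqu' hxx' hap g m hin' hap' hΔ'
  refine ⟨s, hs, ?_, hs2⟩
  intro r l x h1 h2
  refine hs1 (r, l) x ?_ ?_
  · intro z hz
    have hr : (spl z.1).row = r := (Prod.ext_iff.1 hz).1
    rw [← hr] at h1
    exact (hfit z.1).quiet _ _ h1
  · intro z hz
    have hr : (spl z.1).row = r := (Prod.ext_iff.1 hz).1
    have h3 : (ρ (spl z.1).row).Quiet iA ia ((ρ r).fullΦ (hσ r) (Φ r) l x) := by
      rw [hr]
      exact h2
    exact (hfit z.1).quiet _ _ h3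

end Row

end SqIns
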