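import Pool.Agent.Lib.SqIns.Total

/-!
# Labels and classes

With affine bijections `y ↦ β x * y + μ x` on the fibres of a row, the freed edges with the label `κ`
between the columns `a` and `c` of a window of the system `i` are the class
`(β c - β a) * κ + (μ c - μ a)`: all pairs `(a, y)`, `(c, y + δ)`, as soon as
`β a * (col a - cs i) = β c * (col c - cs i)`.
-/

open Finset Equiv

namespace SqIns

namespace Row

variable {X R I : Type*} [Fintype X] [CommRing R] (ρ : Row X R I)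

/-- the class `δ` between two columns -/
def clsE {X R : Type*} [CommRing R] [Fintype R] [DecidableEq X] [DecidableEq R] (x x' : X)
    (δ : R) : Sym2 (X × R) → ℤ := ∑ y, pr (x, y) (x', y + δ)

private theorem apply_inv4 {X : Type*} (s : Perm X) (x : X) : s (s⁻¹ x) = x := by simp

theorem cls_aux {x x' : X} {α α' κ β β' μ μ' : R} [Fintype R] [DecidableEq X] [DecidableEq R]
    (Φ : X → Perm R) (h1 : ∀ y, Φ x y = β * y + μ) (h2 : ∀ y, Φ x' y = β' * y + μ')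
    (hβ : IsUnit β) (hα : IsUnit α) (h : β * α = β' * α') :
    push (fib Φ) (∑ l : R, pr (x, κ + α * l) (x', κ + α' * l)) =
      clsE x x' ((β' - β) * κ + (μ' - μ)) := by
  rw [push_sum]
  have hb : Function.Bijective fun l : R => β * (κ + α * l) + μ := by
    refine Finite.injective_iff_bijective.1 fun y y' hy => ?_
    exact hα.mul_left_cancel (add_left_cancel (hβ.mul_left_cancel (add_right_cancel hy)))
  have h3 : ∀ l : R, push (fib Φ) (pr (x, κ + α * l) (x', κ + α' * l)) =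
      pr (x, β * (κ + α * l) + μ) (x', β * (κ + α * l) + μ + ((β' - β) * κ + (μ' - μ))) := by
    intro l
    rw [push_pr (fib Φ).injective, fib_apply, fib_apply, h1, h2]
    congr 2
    linear_combination -l * h
  rw [sum_congr rfl fun l _ => h3 l]
  exact hb.sum_comp fun y => pr (x, y) (x', y + ((β' - β) * κ + (μ' - μ)))

variable [DecidableEq X] [DecidableEq R] [Fintype R] (Φ : X → Perm R) (β μ : X → R)

theorem push_mac (hΦ : ∀ x y, Φ x y = β x * y + μ x) (hβ : ∀ x, IsUnit (β x)) (i : I) (κ : R)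
    (h : β (ρ.s⁻¹ (ρ.B i)) * (ρ.col (ρ.s⁻¹ (ρ.B i)) - ρ.cs i) =
      β (ρ.s (ρ.B i)) * (ρ.col (ρ.s (ρ.B i)) - ρ.cs i)) :
    push (fib Φ) (ρ.mac i κ) = clsE (ρ.s⁻¹ (ρ.B i)) (ρ.s (ρ.B i))
      ((β (ρ.s (ρ.B i)) - β (ρ.s⁻¹ (ρ.B i))) * κ + (μ (ρ.s (ρ.B i)) - μ (ρ.s⁻¹ (ρ.B i)))) :=
  cls_aux Φ (hΦ _) (hΦ _) (hβ _) (ρ.ua i) h

theorem push_mbd (hΦ : ∀ x y, Φ x y = β x * y + μ x) (hβ : ∀ x, IsUnit (β x)) (i : I) (κ : R)
    (h : β (ρ.B i) * (ρ.col (ρ.B i) - ρ.cs i) =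
      β (ρ.s (ρ.s (ρ.B i))) * (ρ.col (ρ.s (ρ.s (ρ.B i))) - ρ.cs i)) :
    push (fib Φ) (ρ.mbd i κ) = clsE (ρ.B i) (ρ.s (ρ.s (ρ.B i)))
      ((β (ρ.s (ρ.s (ρ.B i))) - β (ρ.B i)) * κ + (μ (ρ.s (ρ.s (ρ.B i))) - μ (ρ.B i))) :=
  cls_aux Φ (hΦ _) (hΦ _) (hβ _) (ρ.ub i) h

omit [DecidableEq X] [DecidableEq R] [Fintype R] in
/-- the class of the edge with the label `lb i y z` is the difference of the levels after `Φ` -/
theorem cls_lb (i : I) (y z : R)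
    (h : β (ρ.s⁻¹ (ρ.B i)) * (ρ.col (ρ.s⁻¹ (ρ.B i)) - ρ.cs i) =
      β (ρ.s (ρ.B i)) * (ρ.col (ρ.s (ρ.B i)) - ρ.cs i)) :
    (β (ρ.s (ρ.B i)) - β (ρ.s⁻¹ (ρ.B i))) * ρ.lb i y z +
        (μ (ρ.s (ρ.B i)) - μ (ρ.s⁻¹ (ρ.B i))) =
      (β (ρ.s (ρ.B i)) * z + μ (ρ.s (ρ.B i))) - (β (ρ.s⁻¹ (ρ.B i)) * y + μ (ρ.s⁻¹ (ρ.B i))) := by
  have h1 := ρ.lf_mul i y z
  unfold lb
  linear_combination (β (ρ.s (ρ.B i))) * h1 + ρ.lf i y z * h

omit [DecidableEq X] [DecidableEq R] [Fintype R] in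
/-- the same for the mirror version -/
theorem cls_lb' (i : I) (y z : R)
    (h : β (ρ.B i) * (ρ.col (ρ.B i) - ρ.cs i) =
      β (ρ.s (ρ.s (ρ.B i))) * (ρ.col (ρ.s (ρ.s (ρ.B i))) - ρ.cs i)) :
    (β (ρ.s (ρ.s (ρ.B i))) - β (ρ.B i)) * ρ.lb' i y z +
        (μ (ρ.s (ρ.s (ρ.B i))) - μ (ρ.B i)) =
      (β (ρ.s (ρ.s (ρ.B i))) * y + μ (ρ.s (ρ.s (ρ.B i)))) - (β (ρ.B i) * z + μ (ρ.B i)) := by
  have h1 := ρ.lf'_mul i y z
  unfold lb'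
  linear_combination (-β (ρ.B i)) * h1 + ρ.lf' i y z * h

omit [DecidableEq X] [DecidableEq R] [Fintype R] in
/-- different labels give different classes -/
theorem unit_ac (hβ : ∀ x, IsUnit (β x)) (i : I)
    (h : β (ρ.s⁻¹ (ρ.B i)) * (ρ.col (ρ.s⁻¹ (ρ.B i)) - ρ.cs i) =
      β (ρ.s (ρ.B i)) * (ρ.col (ρ.s (ρ.B i)) - ρ.cs i)) :
    IsUnit (β (ρ.s (ρ.B i)) - β (ρ.s⁻¹ (ρ.B i))) := by
  have h0 : IsUnit (ρ.col (ρ.s (ρ.B i)) - ρ.col (ρ.s⁻¹ (ρ.B i))) := by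
    have := ρ.unit2 (ρ.s⁻¹ (ρ.B i))
    rwa [apply_inv4] at this
  have h1 : (β (ρ.s (ρ.B i)) - β (ρ.s⁻¹ (ρ.B i))) * (ρ.col (ρ.s (ρ.B i)) - ρ.cs i) =
      - (β (ρ.s⁻¹ (ρ.B i)) * (ρ.col (ρ.s (ρ.B i)) - ρ.col (ρ.s⁻¹ (ρ.B i)))) := by
    linear_combination -h
  exact isUnit_of_mul_isUnit_left (h1 ▸ ((hβ _).mul h0).neg)

omit [DecidableEq X] [DecidableEq R] [Fintype R] in
/-- different labels give different classes, second pair of columns -/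
theorem unit_bd (hβ : ∀ x, IsUnit (β x)) (i : I)
    (h : β (ρ.B i) * (ρ.col (ρ.B i) - ρ.cs i) =
      β (ρ.s (ρ.s (ρ.B i))) * (ρ.col (ρ.s (ρ.s (ρ.B i))) - ρ.cs i)) :
    IsUnit (β (ρ.s (ρ.s (ρ.B i))) - β (ρ.B i)) := by
  have h1 : (β (ρ.s (ρ.s (ρ.B i))) - β (ρ.B i)) * (ρ.col (ρ.s (ρ.s (ρ.B i))) - ρ.cs i) =
      - (β (ρ.B i) * (ρ.col (ρ.s (ρ.s (ρ.B i))) - ρ.col (ρ.B i))) := by
    linear_combination -h
  exact isUnit_of_mul_isUnit_left (h1 ▸ ((hβ _).mul (ρ.unit2 _)).neg)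

end Row

end SqIns
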