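import Pool.Agent.Lib.SqIns.Main2

/-!
# General moves of a row

A general move in the lift `l`: the letter `w` of the system `i = σ w` is exchanged with the third
column (`dir = true`) or with the second column (`dir = false`) of its window; the neighbour on this
side is a letter `w'` (`zt = false`) or the point over the next column (`zt = true`).
-/

open Finset Equiv

namespace SqIns

/-- data of a general move -/
structure GMv (R W : Type*) where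
  dir : Bool
  zt : Bool
  l : R
  w : W
  w' : W

namespace Row

variable {X R I W : Type*} [Fintype X] [CommRing R] (ρ : Row X R I) (σ : W → I) (κ : W → R)

/-- the move -/
def gmove (m : GMv R W) : Move ((X × R) ⊕ W) :=
  match m.dir, m.zt with
  | true, false => ρ.mL σ κ m.l m.w m.w'
  | true, true => ρ.mZL σ κ m.l m.w
  | false, false => ρ.mR σ κ m.l m.w' m.w
  | false, true => ρ.mZR σ κ m.l m.w

/-- the column of the neighbour -/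
def gt (dir : Bool) (i : I) : X := if dir then ρ.tR i else ρ.tL i

/-- the outer column -/
def gout (dir : Bool) (i : I) : X := if dir then ρ.s⁻¹ (ρ.B i) else ρ.s (ρ.s (ρ.B i))

/-- the inner column, it is exchanged with the letter -/
def ginn (dir : Bool) (i : I) : X := if dir then ρ.s (ρ.B i) else ρ.B i

/-- the neighbour -/
def gy (m : GMv R W) : (X × R) ⊕ W :=
  if m.zt then .inl (ρ.at' (σ m.w) (κ m.w) m.l (ρ.gt m.dir (σ m.w))) else .inr m.w'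

/-- the move can be made -/
structure GOK (m : GMv R W) : Prop where
  pass : m.zt = false → κ m.w' - ρ.cs (σ m.w') * m.l = κ m.w - ρ.cs (σ m.w) * m.l
  adjL : m.dir = true → m.zt = false → ρ.s (ρ.s (ρ.B (σ m.w))) = ρ.B (σ m.w')
  adjR : m.dir = false → m.zt = false → ρ.s (ρ.s (ρ.B (σ m.w'))) = ρ.B (σ m.w)
  gapL : m.dir = true → m.zt = true → ∀ j, ρ.B j ≠ ρ.s (ρ.s (ρ.B (σ m.w)))
  seamL : m.dir = true → m.zt = true → ρ.τ (ρ.s (ρ.s (ρ.B (σ m.w)))) = 0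
  gapR : m.dir = false → m.zt = true → ∀ j, ρ.B j ≠ ρ.tL (σ m.w)
  seamR : m.dir = false → m.zt = true → ρ.τ (ρ.tL (σ m.w)) = 0

variable {ρ σ κ}

theorem GOK.In [DecidableEq X] [DecidableEq R] [DecidableEq W] {m : GMv R W}
    (h : ρ.GOK σ κ m) (hσ : Function.Injective fun w => (σ w, κ w)) :
    (ρ.gmove σ κ m).In (ρ.full hσ m.l) := by
  obtain ⟨dir, zt, l, w, w'⟩ := m
  cases dir <;> cases zt
  · exact ρ.move_right hσ _ (h.adjR rfl rfl) (h.pass rfl).symm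
  · exact ρ.mZR_in hσ _ _ (h.gapR rfl rfl) (h.seamR rfl rfl)
  · exact ρ.move_left hσ _ (h.adjL rfl rfl) (h.pass rfl)
  · exact ρ.mZL_in hσ _ _ (h.gapL rfl rfl) (h.seamL rfl rfl)

variable (ρ σ κ)

theorem gmove_Δ [DecidableEq X] [DecidableEq R] [DecidableEq W] (m : GMv R W) :
    (ρ.gmove σ κ m).Δ =
      - pr (.inl (ρ.at' (σ m.w) (κ m.w) m.l (ρ.gout m.dir (σ m.w)))) (.inr m.w) -
      pr (.inl (ρ.at' (σ m.w) (κ m.w) m.l (ρ.ginn m.dir (σ m.w)))) (ρ.gy σ κ m) +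
      pr (.inl (ρ.at' (σ m.w) (κ m.w) m.l (ρ.gout m.dir (σ m.w))))
        (.inl (ρ.at' (σ m.w) (κ m.w) m.l (ρ.ginn m.dir (σ m.w)))) +
      pr (.inr m.w) (ρ.gy σ κ m) := by
  obtain ⟨dir, zt, l, w, w'⟩ := m
  cases dir <;> cases zt
  · simp only [gmove, gy, gout, ginn, mR, Move.Δ, Bool.false_eq_true, if_false]
    rw [pr_comm (Sum.inr w') (Sum.inl (ρ.at' (σ w) (κ w) l (ρ.B (σ w)))),
      pr_comm (Sum.inr w) (Sum.inl (ρ.at' (σ w) (κ w) l (ρ.s (ρ.s (ρ.B (σ w)))))),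
      pr_comm (Sum.inr w') (Sum.inr w),
      pr_comm (Sum.inl (ρ.at' (σ w) (κ w) l (ρ.B (σ w))))
        (Sum.inl (ρ.at' (σ w) (κ w) l (ρ.s (ρ.s (ρ.B (σ w))))))]
    abel
  · simp only [gmove, gy, gt, gout, ginn, mZR, Move.Δ, Bool.false_eq_true, if_false, if_true]
    rw [pr_comm (Sum.inl (ρ.at' (σ w) (κ w) l (ρ.tL (σ w))))
        (Sum.inl (ρ.at' (σ w) (κ w) l (ρ.B (σ w)))),
      pr_comm (Sum.inr w) (Sum.inl (ρ.at' (σ w) (κ w) l (ρ.s (ρ.s (ρ.B (σ w)))))),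
      pr_comm (Sum.inr w) (Sum.inl (ρ.at' (σ w) (κ w) l (ρ.tL (σ w)))),
      pr_comm (Sum.inl (ρ.at' (σ w) (κ w) l (ρ.B (σ w))))
        (Sum.inl (ρ.at' (σ w) (κ w) l (ρ.s (ρ.s (ρ.B (σ w))))))]
    abel
  · simp only [gmove, gy, gout, ginn, mL, Move.Δ, Bool.false_eq_true, if_false, if_true]
  · simp only [gmove, gy, gt, gout, ginn, mZL, Move.Δ, if_true]

/-! ### Passes -/

/-- the point is in the pass `π` of the lift `l` -/
def InPass (l π : R) : (X × R) ⊕ W → Prop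
  | .inl p => p.2 = π + ρ.col p.1 * l
  | .inr w => κ w - ρ.cs (σ w) * l = π

theorem InPass.unique {l π π' : R} {u : (X × R) ⊕ W} (h : ρ.InPass σ κ l π u)
    (h' : ρ.InPass σ κ l π' u) : π = π' := by
  rcases u with p | w
  · have h1 : p.2 = π + ρ.col p.1 * l := h
    have h2 : p.2 = π' + ρ.col p.1 * l := h'
    exact add_right_cancel (h1.symm.trans h2)
  · exact h.symm.trans h'

theorem inPass_at (i : I) (κ₀ l : R) (x : X) :
    ρ.InPass σ κ l (κ₀ - ρ.cs i * l) (.inl (ρ.at' i κ₀ l x)) := by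
  show κ₀ + (ρ.col x - ρ.cs i) * l = κ₀ - ρ.cs i * l + ρ.col x * l
  ring

/-- the pass of a letter -/
def pc (l : R) (w : W) : R := κ w - ρ.cs (σ w) * l

variable {ρ σ κ}

theorem GOK.inPass {m : GMv R W} (h : ρ.GOK σ κ m) :
    ρ.InPass σ κ m.l (ρ.pc σ κ m.l m.w) (ρ.gmove σ κ m).y ∧
    ρ.InPass σ κ m.l (ρ.pc σ κ m.l m.w) (ρ.gmove σ κ m).a ∧
    ρ.InPass σ κ m.l (ρ.pc σ κ m.l m.w) (ρ.gmove σ κ m).b ∧
    ρ.InPass σ κ m.l (ρ.pc σ κ m.l m.w) (ρ.gmove σ κ m).w ∧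
    ρ.InPass σ κ m.l (ρ.pc σ κ m.l m.w) (ρ.gmove σ κ m).c ∧
    ρ.InPass σ κ m.l (ρ.pc σ κ m.l m.w) (ρ.gmove σ κ m).d := by
  obtain ⟨dir, zt, l, w, w'⟩ := m
  cases dir <;> cases zt
  · exact ⟨h.pass rfl, ρ.inPass_at σ κ _ _ _ _, ρ.inPass_at σ κ _ _ _ _, rfl,
      ρ.inPass_at σ κ _ _ _ _, ρ.inPass_at σ κ _ _ _ _⟩
  · exact ⟨ρ.inPass_at σ κ _ _ _ _, ρ.inPass_at σ κ _ _ _ _, ρ.inPass_at σ κ _ _ _ _, rfl,
      ρ.inPass_at σ κ _ _ _ _, ρ.inPass_at σ κ _ _ _ _⟩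
  · exact ⟨ρ.inPass_at σ κ _ _ _ _, ρ.inPass_at σ κ _ _ _ _, rfl, ρ.inPass_at σ κ _ _ _ _,
      ρ.inPass_at σ κ _ _ _ _, h.pass rfl⟩
  · exact ⟨ρ.inPass_at σ κ _ _ _ _, ρ.inPass_at σ κ _ _ _ _, rfl, ρ.inPass_at σ κ _ _ _ _,
      ρ.inPass_at σ κ _ _ _ _, ρ.inPass_at σ κ _ _ _ _⟩

/-- moves in different passes of the same lift -/
theorem GOK.apart_pass {m m' : GMv R W} (h : ρ.GOK σ κ m) (h' : ρ.GOK σ κ m') (hl : m.l = m'.l)
    (hp : ρ.pc σ κ m.l m.w ≠ ρ.pc σ κ m'.l m'.w) :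
    (ρ.gmove σ κ m).Apart (ρ.gmove σ κ m') := by
  obtain ⟨-, -, a3, a4, -, -⟩ := h.inPass
  obtain ⟨b1, b2, b3, b4, b5, b6⟩ := h'.inPass
  rw [← hl] at b1 b2 b3 b4 b5 b6 hp
  have key : ∀ {u u'}, ρ.InPass σ κ m.l (ρ.pc σ κ m.l m.w) u →
      ρ.InPass σ κ m.l (ρ.pc σ κ m.l m'.w) u' → u ≠ u' := by
    rintro u u' hu hu' rfl
    exact hp (InPass.unique ρ σ κ hu hu')
  exact ⟨⟨key a3 b1, key a3 b2, key a3 b3, key a3 b4, key a3 b5, key a3 b6⟩,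
    ⟨key a4 b1, key a4 b2, key a4 b3, key a4 b4, key a4 b5, key a4 b6⟩⟩

/-- two letters of the same system in the same lift are in different passes -/
theorem pc_ne {l : R} {w w' : W} (hs : σ w = σ w') (hσ : Function.Injective fun w => (σ w, κ w))
    (hw : w ≠ w') : ρ.pc σ κ l w ≠ ρ.pc σ κ l w' := by
  intro h
  unfold pc at h
  rw [hs] at h
  exact hw (hσ (Prod.ext hs (sub_left_injective h)))

/-! ### Columns -/

/-- the exchanged points -/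
theorem gmove_sets (m : GMv R W) :
    InSet σ {ρ.ginn m.dir (σ m.w)} {σ m.w} (ρ.gmove σ κ m).b ∧
      InSet σ {ρ.ginn m.dir (σ m.w)} {σ m.w} (ρ.gmove σ κ m).w := by
  obtain ⟨dir, zt, l, w, w'⟩ := m
  cases dir <;> cases zt <;> exact ⟨rfl, rfl⟩

/-- all six points -/
theorem gmove_sets' (m : GMv R W) :
    let C : Set X := {x | (m.zt = true ∧ x = ρ.gt m.dir (σ m.w)) ∨ ∃ k, x = ρ.wn (σ m.w) k}
    let D : Set I := {i | i = σ m.w ∨ (m.zt = false ∧ i = σ m.w')}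
    InSet σ C D (ρ.gmove σ κ m).y ∧ InSet σ C D (ρ.gmove σ κ m).a ∧
      InSet σ C D (ρ.gmove σ κ m).b ∧ InSet σ C D (ρ.gmove σ κ m).w ∧
      InSet σ C D (ρ.gmove σ κ m).c ∧ InSet σ C D (ρ.gmove σ κ m).d := by
  intro C D
  obtain ⟨dir, zt, l, w, w'⟩ := m
  cases dir <;> cases zt
  · exact ⟨Or.inr ⟨rfl, rfl⟩, Or.inr ⟨0, rfl⟩, Or.inr ⟨1, rfl⟩, Or.inl rfl, Or.inr ⟨2, rfl⟩,
      Or.inr ⟨3, rfl⟩⟩
  · exact ⟨Or.inl ⟨rfl, rfl⟩, Or.inr ⟨0, rfl⟩, Or.inr ⟨1, rfl⟩, Or.inl rfl, Or.inr ⟨2, rfl⟩,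
      Or.inr ⟨3, rfl⟩⟩
  · exact ⟨Or.inr ⟨0, rfl⟩, Or.inr ⟨1, rfl⟩, Or.inl rfl, Or.inr ⟨2, rfl⟩, Or.inr ⟨3, rfl⟩,
      Or.inr ⟨rfl, rfl⟩⟩
  · exact ⟨Or.inr ⟨0, rfl⟩, Or.inr ⟨1, rfl⟩, Or.inl rfl, Or.inr ⟨2, rfl⟩, Or.inr ⟨3, rfl⟩,
      Or.inl ⟨rfl, rfl⟩⟩

/-- the exchanged column of `m` and its system are not used by `m'` -/
structure GFar (ρ : Row X R I) (σ : W → I) (m m' : GMv R W) : Prop where
  col : ∀ k, ρ.ginn m.dir (σ m.w) ≠ ρ.wn (σ m'.w) k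
  tcol : m'.zt = true → ρ.ginn m.dir (σ m.w) ≠ ρ.gt m'.dir (σ m'.w)
  sys : σ m.w ≠ σ m'.w
  tsys : m'.zt = false → σ m.w ≠ σ m'.w'

theorem GFar.apart {m m' : GMv R W} (h : ρ.GFar σ m m') :
    (ρ.gmove σ κ m).Apart (ρ.gmove σ κ m') := by
  obtain ⟨a1, a2⟩ := gmove_sets (ρ := ρ) (σ := σ) (κ := κ) m
  obtain ⟨b1, b2, b3, b4, b5, b6⟩ := gmove_sets' (ρ := ρ) (σ := σ) (κ := κ) m'
  refine apart_of_sets ?_ ?_ a1 a2 b1 b2 b3 b4 b5 b6
  · rintro x rfl (⟨h0, h1⟩ | ⟨k, hk⟩)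
    · exact h.tcol h0 h1
    · exact h.col k hk
  · rintro i rfl (h0 | ⟨h0, h1⟩)
    · exact h.sys h0
    · exact h.tsys h0 h1

/-! ### Permutations of the letters -/

/-- fibrewise permutation of the points and permutation of the letters -/
def mvp (Φ : X → Perm R) (π : Perm W) : Perm ((X × R) ⊕ W) := Equiv.sumCongr (fib Φ) π

/-- the lift number `l` after a fibrewise permutation and a permutation of the letters -/
noncomputable def fullπ [DecidableEq X] [DecidableEq R] [DecidableEq W] (ρ : Row X R I)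
    (hσ : Function.Injective fun w => (σ w, κ w)) (Φ : X → Perm R) (π : Perm W) (l : R) :
    Perm ((X × R) ⊕ W) := (mvp Φ π).permCongr (ρ.full hσ l)

section Perm

variable [DecidableEq X] [DecidableEq R] [DecidableEq W] [Fintype R] [Fintype W]

/-- the edges between the window points of `w` and the letter `u` -/
def tie (ρ : Row X R I) (σ : W → I) (κ : W → R) (Φ : X → Perm R) (l : R) (w u : W) :
    Sym2 ((X × R) ⊕ W) → ℤ :=
  ∑ k, pr (.inl (fib Φ (ρ.at' (σ w) (κ w) l (ρ.wn (σ w) k)))) (.inr u)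

theorem E_fullπ (hσ : Function.Injective fun w => (σ w, κ w)) (Φ : X → Perm R) (π : Perm W)
    (l : R) : E (ρ.fullπ hσ Φ π l) = push Sum.inl (push (fib Φ) (E (ρ.sq l))) +
      ∑ w, (ρ.tie σ κ Φ l w (π w) - push Sum.inl (push (fib Φ)
        (pr (ρ.at' (σ w) (κ w) l (ρ.wn (σ w) 0)) (ρ.at' (σ w) (κ w) l (ρ.wn (σ w) 2)) +
          pr (ρ.at' (σ w) (κ w) l (ρ.wn (σ w) 1)) (ρ.at' (σ w) (κ w) l (ρ.wn (σ w) 3))))) := by
  have e1 : ∀ φ : Sym2 (X × R) → ℤ, push (mvp Φ π) (push Sum.inl φ) =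
      push Sum.inl (push (fib Φ) φ) := by
    intro φ
    rw [push_push, push_push]
    rfl
  unfold fullπ
  rw [E_permCongr, full, E_ins _ _ (ρ.far_pos l), push_add, e1, push_sum]
  congr 1
  refine sum_congr rfl fun w _ => ?_
  simp only [pos]
  rw [sq_inv_b, sq_b, sq_c]
  simp only [push_add, push_sub', push_pr (mvp Φ π).injective]
  unfold tie
  rw [Fin.sum_univ_four, push_pr (fib Φ).injective, push_pr (fib Φ).injective,
    push_pr Sum.inl_injective, push_pr Sum.inl_injective]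
  rw [pr_comm (mvp Φ π (Sum.inr w)) (mvp Φ π (Sum.inl (ρ.at' (σ w) (κ w) l (ρ.s (ρ.B (σ w)))))),
    pr_comm (mvp Φ π (Sum.inr w))
      (mvp Φ π (Sum.inl (ρ.at' (σ w) (κ w) l (ρ.s (ρ.s (ρ.B (σ w)))))))]
  change pr (Sum.inl (fib Φ (ρ.at' (σ w) (κ w) l (ρ.wn (σ w) 0)))) (Sum.inr (π w)) +
    pr (Sum.inl (fib Φ (ρ.at' (σ w) (κ w) l (ρ.wn (σ w) 1)))) (Sum.inr (π w)) +
    pr (Sum.inl (fib Φ (ρ.at' (σ w) (κ w) l (ρ.wn (σ w) 2)))) (Sum.inr (π w)) +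
    pr (Sum.inl (fib Φ (ρ.at' (σ w) (κ w) l (ρ.wn (σ w) 3)))) (Sum.inr (π w)) -
    pr (Sum.inl (fib Φ (ρ.at' (σ w) (κ w) l (ρ.wn (σ w) 0))))
      (Sum.inl (fib Φ (ρ.at' (σ w) (κ w) l (ρ.wn (σ w) 2)))) -
    pr (Sum.inl (fib Φ (ρ.at' (σ w) (κ w) l (ρ.wn (σ w) 1))))
      (Sum.inl (fib Φ (ρ.at' (σ w) (κ w) l (ρ.wn (σ w) 3)))) = _
  abel

theorem fullπ_one (hσ : Function.Injective fun w => (σ w, κ w)) (Φ : X → Perm R) (l : R) :
    ρ.fullπ hσ Φ 1 l = ρ.fullΦ hσ Φ l := rfl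

theorem closed_fullπ (hσ : Function.Injective fun w => (σ w, κ w)) (Φ : X → Perm R)
    (π : Perm W) (l : R) : Closed (ρ.fullπ hσ Φ π l) := (ρ.closed_full hσ l).permCongr _

end Perm

end Row

/-- A permutation of the letters in one layer does not change the sum over the rows if `w` and `π w`
have the same window points. -/
theorem Row.sum_fullπ {X R I W ι : Type*} [Fintype X] [CommRing R] [DecidableEq X]
    [DecidableEq R] [DecidableEq W] [Fintype R] [Fintype W] [Fintype ι] (ρ : ι → Row X R I)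
    (σ : W → I) (κ : ι → W → R) (hσ : ∀ r, Function.Injective fun w => (σ w, κ r w))
    (Φ : ι → X → Perm R) (π : Perm W) (l : R)
    (hcov : ∀ w u, ∑ r, (ρ r).tie σ (κ r) (Φ r) l w u = ∑ r, (ρ r).tie σ (κ r) (Φ r) l (π w) u) :
    ∑ r, E ((ρ r).fullπ (hσ r) (Φ r) π l) = ∑ r, E ((ρ r).fullΦ (hσ r) (Φ r) l) := by
  simp only [← Row.fullπ_one, Row.E_fullπ, sum_add_distrib, sum_sub_distrib]
  congr 2
  rw [sum_comm, sum_comm (s := univ (α := ι))]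
  rw [sum_congr rfl fun w _ => hcov w (π w)]
  exact Equiv.sum_comp π fun w => ∑ r, (ρ r).tie σ (κ r) (Φ r) l w w

end SqIns
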