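import Pool.Agent.Lib.SqIns.Basic

/-!
# Operations on closed squares: transport, transposition, splice, insertion
-/

open Finset Equiv

namespace SqIns

section Push

variable {V W : Type*} [DecidableEq V] [DecidableEq W] [Fintype V]

/-- push forward of a function on pairs -/
def push (f : V → W) (φ : Sym2 V → ℤ) : Sym2 W → ℤ :=
  ∑ e : Sym2 V, Pi.single (Sym2.map f e) (φ e)

theorem push_add (f : V → W) (φ ψ : Sym2 V → ℤ) : push f (φ + ψ) = push f φ + push f ψ := by
  unfold push
  rw [← sum_add_distrib]
  exact sum_congr rfl fun e _ => by rw [Pi.add_apply, Pi.single_add]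

theorem push_zero (f : V → W) : push f (0 : Sym2 V → ℤ) = 0 := by
  unfold push
  simp

/-- push forward as a homomorphism -/
def pushHom (f : V → W) : (Sym2 V → ℤ) →+ (Sym2 W → ℤ) where
  toFun := push f
  map_zero' := push_zero f
  map_add' := push_add f

theorem push_sum {ι : Type*} (f : V → W) (s : Finset ι) (φ : ι → Sym2 V → ℤ) :
    push f (∑ i ∈ s, φ i) = ∑ i ∈ s, push f (φ i) := map_sum (pushHom f) φ s

theorem push_single (f : V → W) (e : Sym2 V) (c : ℤ) :
    push f (Pi.single e c) = Pi.single (Sym2.map f e) c := by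
  unfold push
  rw [sum_eq_single e]
  · simp
  · intro b _ hb
    rw [Pi.single_eq_of_ne hb, Pi.single_zero]
  · simp

theorem push_pr {f : V → W} (hf : Function.Injective f) (u v : V) :
    push f (pr u v) = pr (f u) (f v) := by
  unfold pr
  by_cases h : u = v
  · simp [h, push_zero]
  · rw [if_neg h, if_neg (fun h' => h (hf h')), push_single]
    rfl

theorem push_apply {f : V → W} (hf : Function.Injective f) (φ : Sym2 V → ℤ) (e : Sym2 V) :
    push f φ (Sym2.map f e) = φ e := by
  unfold push
  rw [Finset.sum_apply, sum_eq_single e]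
  · simp
  · intro b _ hb
    rw [Pi.single_eq_of_ne]
    exact fun h => hb (Sym2.map.injective hf h).symm
  · simp

theorem push_apply_of_notMem (f : V → W) (φ : Sym2 V → ℤ) (e : Sym2 W)
    (h : ∀ a, Sym2.map f a ≠ e) : push f φ e = 0 := by
  unfold push
  rw [Finset.sum_apply]
  exact sum_eq_zero fun b _ => by rw [Pi.single_eq_of_ne (h b).symm]

theorem push_push {X : Type*} [DecidableEq X] [Fintype W] (f : V → W) (g : W → X)
    (φ : Sym2 V → ℤ) : push g (push f φ) = push (g ∘ f) φ := by
  have : push f φ = ∑ e : Sym2 V, Pi.single (Sym2.map f e) (φ e) := rfl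
  rw [this, push_sum]
  show _ = ∑ e : Sym2 V, (Pi.single (Sym2.map (g ∘ f) e) (φ e) : Sym2 X → ℤ)
  refine sum_congr rfl fun e _ => ?_
  rw [push_single, Sym2.map_map]

end Push

section Transport

variable {V W : Type*} [DecidableEq V] [DecidableEq W] [Fintype V] [Fintype W]

theorem E_permCongr (e : V ≃ W) (s : Perm V) : E (e.permCongr s) = push e (E s) := by
  unfold E
  rw [push_sum, ← Equiv.sum_comp e]
  refine sum_congr rfl fun v _ => ?_
  rw [push_add, push_pr e.injective, push_pr e.injective]
  simp [Equiv.permCongr_apply]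

theorem Closed.permCongr {s : Perm V} (h : Closed s) (e : V ≃ W) : Closed (e.permCongr s) := by
  intro x y
  obtain ⟨i, hi⟩ := h (e.symm x) (e.symm y)
  refine ⟨i, ?_⟩
  have : (e.permCongr s) ^ i = e.permCongr (s ^ i) := by
    have := map_zpow (Equiv.permCongrHom e) s i
    exact this.symm
  rw [this, Equiv.permCongr_apply, hi, Equiv.apply_symm_apply]

theorem push_allPairs (e : V ≃ W) : push e (allPairs V) = allPairs W := by
  funext a
  obtain ⟨b, rfl⟩ : ∃ b, Sym2.map e b = a := ⟨Sym2.map e.symm a, by
    rw [Sym2.map_map]; simp⟩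
  rw [push_apply e.injective]
  unfold allPairs
  have : (Sym2.map e b).IsDiag ↔ b.IsDiag := by
    induction b with
    | _ x y => simp
  simp only [this]

theorem Dec.transport {ι κ : Type*} [Fintype ι] [Fintype κ] {s : ι → Perm V} (h : Dec s)
    (e : V ≃ W) (g : κ ≃ ι) : Dec (fun j => e.permCongr (s (g j))) where
  closed j := (h.closed (g j)).permCongr e
  cover := by
    simp only [E_permCongr]
    rw [Equiv.sum_comp g (fun i => push e (E (s i))), ← push_sum, h.cover, push_allPairs]

end Transport

section Transposition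

variable {V : Type*} [DecidableEq V] [Fintype V]

/-- a sum over all points which only changes at finitely many points -/
theorem sum_change {A : Type*} [AddCommGroup A] (f g : V → A) (S : Finset V)
    (h : ∀ v, v ∉ S → f v = g v) : ∑ v, f v = ∑ v, g v + ∑ v ∈ S, (f v - g v) := by
  have h1 : ∑ v, (f v - g v) = ∑ v ∈ S, (f v - g v) := by
    symm
    refine sum_subset (subset_univ S) fun v _ hv => ?_
    rw [h v hv, sub_self]
  rw [← h1, sum_sub_distrib]
  abel

/-- Insertion of the fixed point `w` after `b`. -/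
theorem E_insert (s : Perm V) {a b c d w : V} (hab : s a = b) (hbc : s b = c) (hcd : s c = d)
    (hw : s w = w) (hbw : b ≠ w) (hne : b ≠ c) :
    E (swap c w * s) = E s - pr a c - pr b d + pr a w + pr b w + pr w c + pr w d := by
  have hcw : c ≠ w := fun h => hbw (s.injective (by rw [hbc, h, hw]))
  have haw : a ≠ w := fun h => hbw (by rw [← hab, h, hw])
  have hab' : a ≠ b := fun h => hne (by rw [← hbc, ← h, hab]; exact h)
  have e1 : (swap c w * s) b = w := by rw [Perm.mul_apply, hbc, swap_apply_left]
  have e2 : (swap c w * s) w = c := by rw [Perm.mul_apply, hw, swap_apply_right]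
  have e3 : ∀ x, x ≠ b → x ≠ w → (swap c w * s) x = s x := by
    intro x hx hx'
    rw [Perm.mul_apply, swap_apply_of_ne_of_ne]
    · exact fun h => hx (s.injective (by rw [h, hbc]))
    · exact fun h => hx' (s.injective (by rw [h, hw]))
  unfold E
  rw [sum_change (fun v => pr v ((swap c w * s) v) + pr v ((swap c w * s) ((swap c w * s) v)))
    (fun v => pr v (s v) + pr v (s (s v))) {a, b, w}]
  · rw [sum_insert, sum_insert, sum_singleton]
    · rw [e3 a hab' haw, hab, e1, e2, e3 c hne.symm hcw, hcd, hbc, hcd, hw, hw, pr_self]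
      abel
    · simp [hbw]
    · simp [hab', haw]
  · intro v hv
    simp only [mem_insert, mem_singleton, not_or] at hv
    have hsv : s v ≠ b := fun h => hv.1 (s.injective (by rw [h, hab]))
    have hsv' : s v ≠ w := fun h => hv.2.2 (s.injective (by rw [h, hw]))
    rw [e3 v hv.2.1 hv.2.2, e3 _ hsv hsv']

/-- Conjugation by a transposition. -/
theorem E_conj_swap (s : Perm V) {y a b w c d : V} (hya : s y = a) (hab : s a = b) (hbw : s b = w)
    (hwc : s w = c) (hcd : s c = d) (h1 : y ≠ b) (h2 : y ≠ w) (h3 : a ≠ b) (h4 : a ≠ w)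
    (h5 : b ≠ w) (h6 : b ≠ c) (h7 : w ≠ c) (h8 : y ≠ a) (h9 : a ≠ c) (h10 : b ≠ d) (h11 : w ≠ d) :
    E (swap b w * s * swap b w) = E s - pr y b - pr w d + pr y w + pr b d := by
  set s' := swap b w * s * swap b w with hs'
  have e : ∀ x, s' x = swap b w (s (swap b w x)) := fun x => rfl
  have ey : s' y = a := by
    rw [e, swap_apply_of_ne_of_ne h1 h2, hya, swap_apply_of_ne_of_ne h3 h4]
  have ea : s' a = w := by
    rw [e, swap_apply_of_ne_of_ne h3 h4, hab, swap_apply_left]
  have ew : s' w = b := by
    rw [e, swap_apply_right, hbw, swap_apply_right]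
  have eb : s' b = c := by
    rw [e, swap_apply_left, hwc, swap_apply_of_ne_of_ne h6.symm h7.symm]
  have ec : s' c = d := by
    rw [e, swap_apply_of_ne_of_ne h6.symm h7.symm, hcd, swap_apply_of_ne_of_ne h10.symm h11.symm]
  have eo : ∀ x, x ≠ a → x ≠ b → x ≠ w → s' x = s x := by
    intro x hxa hxb hxw
    rw [e, swap_apply_of_ne_of_ne hxb hxw, swap_apply_of_ne_of_ne]
    · exact fun h => hxa (s.injective (by rw [h, hab]))
    · exact fun h => hxb (s.injective (by rw [h, hbw]))
  have hyc : (y : V) ≠ a := h8
  unfold E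
  rw [sum_change (fun v => pr v (s' v) + pr v (s' (s' v)))
    (fun v => pr v (s v) + pr v (s (s v))) {y, a, b, w}]
  · rw [sum_insert, sum_insert, sum_insert, sum_singleton]
    · rw [ey, ea, ew, eb, ec, hya, hab, hbw, hwc, hcd]
      rw [pr_comm w b]
      abel
    · simp [h5]
    · simp [h3, h4]
    · simp [h1, h2, h8]
  · intro v hv
    simp only [mem_insert, mem_singleton, not_or] at hv
    have hsa : s v ≠ a := fun h => hv.1 (s.injective (by rw [h, hya]))
    have hsb : s v ≠ b := fun h => hv.2.1 (s.injective (by rw [h, hab]))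
    have hsw : s v ≠ w := fun h => hv.2.2.1 (s.injective (by rw [h, hbw]))
    rw [eo v hv.2.1 hv.2.2.1 hv.2.2.2, eo _ hsa hsb hsw]

omit [Fintype V] in
theorem Closed.conj {s : Perm V} (h : Closed s) (t : Perm V) : Closed (t * s * t⁻¹) := by
  intro x y
  rw [Perm.sameCycle_conj]
  exact h _ _

end Transposition

end SqIns
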