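import Pool.Agent.Lib.SqIns.Ops

/-!
# Operations on closed squares: splice, simultaneous insertion, lifts
-/

open Finset Equiv

namespace SqIns

section Splice

variable {V : Type*} [DecidableEq V] [Fintype V]

/-- Splice of two cycles of `r`: `… p q u v …` and `… p' q' u' v' …` become
`… p q u' v' … p' q' u v …`. -/
theorem E_splice (r : Perm V) {p q u v p' q' u' v' : V} (hp : r p = q) (hq : r q = u)
    (hu : r u = v) (hp' : r p' = q') (hq' : r q' = u') (hu' : r u' = v') (h1 : q ≠ q')
    (h2 : q ≠ u) (h3 : q' ≠ u') (h4 : u ≠ q') (h5 : u' ≠ q) :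
    E (swap u u' * r) = E r - pr q u - pr p u - pr q v - pr q' u' - pr p' u' - pr q' v' +
      pr q u' + pr p u' + pr q v' + pr q' u + pr p' u + pr q' v := by
  set s' := swap u u' * r with hs'
  have e : ∀ x, s' x = swap u u' (r x) := fun x => rfl
  have hpq : p ≠ q := fun h => h2 (by subst h; exact hp.symm.trans hq)
  have hpq' : p ≠ q' := fun h => h5 (by rw [← hq', ← h, hp])
  have hp'q : p' ≠ q := fun h => h4 (by rw [← hq, ← h, hp'])
  have hp'q' : p' ≠ q' := fun h => h3 (by subst h; exact hp'.symm.trans hq')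
  have hpp' : p ≠ p' := fun h => h1 (by rw [← hp, ← hp', h])
  have eq : s' q = u' := by rw [e, hq, swap_apply_left]
  have eq' : s' q' = u := by rw [e, hq', swap_apply_right]
  have eo : ∀ x, x ≠ q → x ≠ q' → s' x = r x := by
    intro x hx hx'
    rw [e, swap_apply_of_ne_of_ne]
    · exact fun h => hx (r.injective (by rw [h, hq]))
    · exact fun h => hx' (r.injective (by rw [h, hq']))
  unfold E
  rw [sum_change (fun v => pr v (s' v) + pr v (s' (s' v)))
    (fun v => pr v (r v) + pr v (r (r v))) {p, q, p', q'}]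
  · rw [sum_insert, sum_insert, sum_insert, sum_singleton]
    · rw [eo p hpq hpq', hp, eq, eo u' h5 h3.symm, hu', eo p' hp'q hp'q', hp', eq',
        eo u h2.symm h4, hu, hq, hq', hu, hu']
      abel
    · simp [hp'q']
    · simp [hp'q.symm, h1]
    · simp [hpq, hpp', hpq']
  · intro x hx
    simp only [mem_insert, mem_singleton, not_or] at hx
    have h6 : r x ≠ q := fun h => hx.1 (r.injective (by rw [h, hp]))
    have h7 : r x ≠ q' := fun h => hx.2.2.1 (r.injective (by rw [h, hp']))
    rw [eo x hx.2.1 hx.2.2.2, eo _ h6 h7]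

omit [DecidableEq V] in
private theorem splice_aux [DecidableEq V] (r : Perm V) {q q' : V} (hne : ¬ r.SameCycle q q') {x : V}
    (hx : r.SameCycle q x) : (swap (r q) (r q') * r).SameCycle (r q) x := by
  classical
  set s' := swap (r q) (r q') * r with hs'
  have eo : ∀ x, x ≠ q → x ≠ q' → s' x = r x := by
    intro x hx hx'
    show swap (r q) (r q') (r x) = r x
    rw [swap_apply_of_ne_of_ne]
    · exact fun h => hx (r.injective h)
    · exact fun h => hx' (r.injective h)
  have hx' : r.SameCycle (r q) x := by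
    rw [Perm.sameCycle_apply_left]; exact hx
  have hex : ∃ n : ℕ, (r ^ n) (r q) = x := by
    obtain ⟨n, hn⟩ := hx'.exists_nat_pow_eq
    exact ⟨n, hn⟩
  obtain ⟨n, hn, hlt⟩ : ∃ n : ℕ, (r ^ n) (r q) = x ∧ ∀ m < n, (r ^ m) (r q) ≠ x :=
    ⟨Nat.find hex, Nat.find_spec hex, fun m hm => Nat.find_min hex hm⟩
  have hmin : ∀ i, i < n → (r ^ i) (r q) ≠ q := by
    intro i hi h
    have h1 : (r ^ (i + 1)) (r q) = r q := by rw [pow_succ', Perm.mul_apply, h]
    have h2 : (r ^ (n - (i + 1))) (r q) = x := by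
      rw [← hn]
      conv_rhs => rw [show n = (n - (i + 1)) + (i + 1) by omega, pow_add,
        Perm.mul_apply, h1]
    exact hlt _ (by omega) h2
  have hall : ∀ i, i ≤ n → (s' ^ i) (r q) = (r ^ i) (r q) := by
    intro i
    induction i with
    | zero => intro _; rfl
    | succ i ih =>
      intro hi
      rw [pow_succ', Perm.mul_apply, ih (by omega), pow_succ', Perm.mul_apply]
      refine eo _ (hmin i (by omega)) fun h => hne ?_
      refine ⟨((i + 1 : ℕ) : ℤ), ?_⟩
      rw [zpow_natCast, pow_succ, Perm.mul_apply]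
      exact h
  refine ⟨(n : ℤ), ?_⟩
  rw [zpow_natCast, hall _ le_rfl, hn]

/-- Splicing two cycles gives one cycle. -/
theorem closed_splice (r : Perm V) {q q' : V} (hne : ¬ r.SameCycle q q')
    (hall : ∀ x, r.SameCycle q x ∨ r.SameCycle q' x) : Closed (swap (r q) (r q') * r) := by
  have h1 : ∀ x, (swap (r q) (r q') * r).SameCycle (r q) x := by
    have hq : (swap (r q) (r q') * r).SameCycle (r q) q := splice_aux r hne (Perm.SameCycle.refl _ _)
    have hqq : (swap (r q) (r q') * r).SameCycle q (r q') := by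
      refine ⟨1, ?_⟩
      rw [zpow_one, Perm.mul_apply, swap_apply_left]
    intro x
    rcases hall x with h | h
    · exact splice_aux r hne h
    · have := splice_aux r (q := q') (q' := q) (fun h' => hne h'.symm) h
      rw [swap_comm] at this
      exact (hq.trans hqq).trans this
  intro x y
  exact (h1 x).symm.trans (h1 y)

/-- transport of same-cycle relations -/
theorem sameCycle_map {X Y : Type*} {s : Perm X} {t : Perm Y} (f : X → Y)
    (h : ∀ x, t.SameCycle (f x) (f (s x))) {x y : X} (hxy : s.SameCycle x y) :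
    t.SameCycle (f x) (f y) := by
  obtain ⟨i, hi⟩ := hxy
  have hnat : ∀ (n : ℕ) (x : X), t.SameCycle (f x) (f ((s ^ n) x)) := by
    intro n
    induction n with
    | zero => intro x; exact Perm.SameCycle.refl _ _
    | succ n ih =>
      intro x
      rw [pow_succ', Perm.mul_apply]
      exact (ih x).trans (h _)
  rcases i with n | n
  · rw [← hi]
    simpa using hnat n x
  · have h2 := hnat (n + 1) y
    have : (s ^ (n + 1)) y = x := by
      rw [← hi, ← Perm.mul_apply, zpow_negSucc]
      simp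
    rw [this] at h2
    exact h2.symm

end Splice

section Insert

variable {X W : Type*} [DecidableEq X] [DecidableEq W]

open Classical in
/-- the involution exchanging `C w` and `w` -/
noncomputable def insInv (C : W → X) : X ⊕ W → X ⊕ W
  | .inl x => if h : ∃ w, C w = x then .inr h.choose else .inl x
  | .inr w => .inl (C w)

theorem insInv_inr (C : W → X) (w : W) : insInv C (.inr w) = .inl (C w) := rfl

theorem insInv_inl {C : W → X} (hC : Function.Injective C) (w : W) :
    insInv C (.inl (C w)) = .inr w := by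
  classical
  have h : ∃ w', C w' = C w := ⟨w, rfl⟩
  show (if h : ∃ w', C w' = C w then Sum.inr h.choose else Sum.inl (C w)) = _
  rw [dif_pos h, hC h.choose_spec]

theorem insInv_inl_of {C : W → X} {x : X} (hx : ∀ w, C w ≠ x) :
    insInv C (.inl x) = .inl x := by
  classical
  have h : ¬ ∃ w', C w' = x := fun ⟨w, hw⟩ => hx w hw
  show (if h : ∃ w', C w' = x then Sum.inr h.choose else Sum.inl x) = _
  rw [dif_neg h]

theorem insInv_involutive {C : W → X} (hC : Function.Injective C) :
    Function.Involutive (insInv C) := by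
  intro z
  rcases z with x | w
  · by_cases h : ∃ w, C w = x
    · obtain ⟨w, rfl⟩ := h
      rw [insInv_inl hC, insInv_inr]
    · rw [insInv_inl_of fun w hw => h ⟨w, hw⟩, insInv_inl_of fun w hw => h ⟨w, hw⟩]
  · rw [insInv_inr, insInv_inl hC]

/-- Simultaneous insertion: every `w` is inserted after `B w`. -/
noncomputable def ins (s : Perm X) {B : W → X} (hB : Function.Injective B) : Perm (X ⊕ W) :=
  (insInv_involutive (s.injective.comp hB)).toPerm * Equiv.sumCongr s (Equiv.refl W)

variable (s : Perm X) {B : W → X} (hB : Function.Injective B)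

theorem ins_inr (w : W) : ins s hB (.inr w) = .inl (s (B w)) := rfl

theorem ins_inl (w : W) : ins s hB (.inl (B w)) = .inr w :=
  insInv_inl (s.injective.comp hB) w

theorem ins_inl_of {x : X} (hx : ∀ w, B w ≠ x) : ins s hB (.inl x) = .inl (s x) :=
  insInv_inl_of fun w h => hx w (s.injective h)

theorem closed_ins (hs : Closed s) : Closed (ins s hB) := by
  have h1 : ∀ x, (ins s hB).SameCycle (.inl x) (.inl (s x)) := by
    intro x
    by_cases h : ∃ w, B w = x
    · obtain ⟨w, rfl⟩ := h
      refine ⟨2, ?_⟩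
      show ((ins s hB) ^ (2 : ℤ)) _ = _
      rw [zpow_ofNat, pow_two, Perm.mul_apply, ins_inl, ins_inr]
    · refine ⟨1, ?_⟩
      rw [zpow_one, ins_inl_of]
      exact fun w hw => h ⟨w, hw⟩
  have h2 : ∀ x y : X, (ins s hB).SameCycle (.inl x) (.inl y) := fun x y =>
    sameCycle_map (t := ins s hB) Sum.inl h1 (hs x y)
  have h3 : ∀ w, (ins s hB).SameCycle (.inl (B w)) (.inr w) := fun w =>
    ⟨1, by rw [zpow_one, ins_inl]⟩
  have h4 : ∀ z : X ⊕ W, ∃ x, (ins s hB).SameCycle (.inl x) z := by
    rintro (x | w)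
    · exact ⟨x, Perm.SameCycle.refl _ _⟩
    · exact ⟨B w, h3 w⟩
  intro z z'
  obtain ⟨x, hx⟩ := h4 z
  obtain ⟨y, hy⟩ := h4 z'
  exact hx.symm.trans ((h2 x y).trans hy)

variable [Fintype X] [Fintype W]

theorem E_ins (hd : ∀ w w', s (B w) ≠ B w') :
    E (ins s hB) = push Sum.inl (E s) + ∑ w, (pr (.inl (s⁻¹ (B w))) (.inr w) +
      pr (.inl (B w)) (.inr w) + pr (.inr w) (.inl (s (B w))) +
      pr (.inr w) (.inl (s (s (B w)))) - pr (.inl (s⁻¹ (B w))) (.inl (s (B w))) -
      pr (.inl (B w)) (.inl (s (s (B w))))) := by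
  classical
  have key : ∀ x : X, pr (.inl x) (ins s hB (.inl x)) +
      pr (.inl x) (ins s hB (ins s hB (.inl x))) =
      pr (.inl x) (.inl (s x)) + pr (.inl x) (.inl (s (s x))) +
      (∑ w, if B w = x then (pr (.inl (B w)) (.inr w) - pr (.inl (B w)) (.inl (s (s (B w)))) :
        Sym2 (X ⊕ W) → ℤ) else 0) +
      ∑ w, if s⁻¹ (B w) = x then (pr (.inl (s⁻¹ (B w))) (.inr w) -
        pr (.inl (s⁻¹ (B w))) (.inl (s (B w))) : Sym2 (X ⊕ W) → ℤ) else 0 := by
    intro x
    by_cases h1 : ∃ w, B w = x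
    · obtain ⟨w, rfl⟩ := h1
      have e1 : (∑ w', if B w' = B w then (pr (.inl (B w')) (.inr w') -
          pr (.inl (B w')) (.inl (s (s (B w')))) : Sym2 (X ⊕ W) → ℤ) else 0) =
          pr (.inl (B w)) (.inr w) - pr (.inl (B w)) (.inl (s (s (B w)))) := by
        rw [sum_eq_single w]
        · rw [if_pos rfl]
        · intro w' _ hw'
          rw [if_neg fun h => hw' (hB h)]
        · simp
      have e2 : (∑ w', if s⁻¹ (B w') = B w then (pr (.inl (s⁻¹ (B w'))) (.inr w') -
          pr (.inl (s⁻¹ (B w'))) (.inl (s (B w'))) : Sym2 (X ⊕ W) → ℤ) else 0) = 0 := by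
        refine sum_eq_zero fun w' _ => ?_
        rw [if_neg]
        intro h
        exact hd w w' (by rw [← h]; simp)
      rw [e1, e2, ins_inl, ins_inr]
      abel
    · have h1' : ∀ w, B w ≠ x := fun w hw => h1 ⟨w, hw⟩
      have e1 : (∑ w', if B w' = x then (pr (.inl (B w')) (.inr w') -
          pr (.inl (B w')) (.inl (s (s (B w')))) : Sym2 (X ⊕ W) → ℤ) else 0) = 0 :=
        sum_eq_zero fun w' _ => by rw [if_neg (h1' w')]
      rw [e1, ins_inl_of s hB h1']
      by_cases h2 : ∃ w, s⁻¹ (B w) = x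
      · obtain ⟨w, rfl⟩ := h2
        have e2 : (∑ w', if s⁻¹ (B w') = s⁻¹ (B w) then (pr (.inl (s⁻¹ (B w'))) (.inr w') -
            pr (.inl (s⁻¹ (B w'))) (.inl (s (B w'))) : Sym2 (X ⊕ W) → ℤ) else 0) =
            pr (.inl (s⁻¹ (B w))) (.inr w) - pr (.inl (s⁻¹ (B w))) (.inl (s (B w))) := by
          rw [sum_eq_single w]
          · rw [if_pos rfl]
          · intro w' _ hw'
            rw [if_neg fun h => hw' (hB (s⁻¹.injective h))]
          · simp
        have e3 : s (s⁻¹ (B w)) = B w := by simp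
        rw [e2, e3, ins_inl]
        abel
      · have h2' : ∀ w, B w ≠ s x := fun w hw => h2 ⟨w, by rw [hw]; simp⟩
        have e2 : (∑ w', if s⁻¹ (B w') = x then (pr (.inl (s⁻¹ (B w'))) (.inr w') -
            pr (.inl (s⁻¹ (B w'))) (.inl (s (B w'))) : Sym2 (X ⊕ W) → ℤ) else 0) = 0 :=
          sum_eq_zero fun w' _ => by rw [if_neg fun h => h2 ⟨w', h⟩]
        rw [e2, ins_inl_of s hB h2']
        abel
  have hW : ∀ w : W, pr (.inr w) (ins s hB (.inr w)) +
      pr (.inr w) (ins s hB (ins s hB (.inr w))) =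
      (pr (.inr w) (.inl (s (B w))) + pr (.inr w) (.inl (s (s (B w)))) : Sym2 (X ⊕ W) → ℤ) := by
    intro w
    rw [ins_inr, ins_inl_of s hB fun w' h => hd w w' h.symm]
  unfold E
  rw [Fintype.sum_sum_type]
  simp only [key, hW]
  rw [sum_add_distrib, sum_add_distrib, sum_comm, push_sum]
  have e4 : ∀ w : W, (∑ x : X, if B w = x then (pr (.inl (B w)) (.inr w) -
      pr (.inl (B w)) (.inl (s (s (B w)))) : Sym2 (X ⊕ W) → ℤ) else 0) =
      pr (.inl (B w)) (.inr w) - pr (.inl (B w)) (.inl (s (s (B w)))) := fun w => by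
    rw [sum_ite_eq, if_pos (mem_univ _)]
  have e5 : ∀ w : W, (∑ x : X, if s⁻¹ (B w) = x then (pr (.inl (s⁻¹ (B w))) (.inr w) -
      pr (.inl (s⁻¹ (B w))) (.inl (s (B w))) : Sym2 (X ⊕ W) → ℤ) else 0) =
      pr (.inl (s⁻¹ (B w))) (.inr w) - pr (.inl (s⁻¹ (B w))) (.inl (s (B w))) := fun w => by
    rw [sum_ite_eq, if_pos (mem_univ _)]
  rw [sum_congr rfl fun w _ => e4 w, sum_comm (s := univ) (t := univ), sum_congr rfl fun w _ => e5 w]
  have e6 : ∑ x, (pr (Sum.inl x) (.inl (s x)) + pr (.inl x) (.inl (s (s x))) :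
      Sym2 (X ⊕ W) → ℤ) = ∑ i, push Sum.inl (pr i (s i) + pr i (s (s i))) := by
    refine sum_congr rfl fun x _ => ?_
    rw [push_add, push_pr Sum.inl_injective, push_pr Sum.inl_injective]
  rw [e6, add_assoc, add_assoc, ← sum_add_distrib, ← sum_add_distrib]
  congr 1
  refine sum_congr rfl fun w _ => ?_
  abel

end Insert

end SqIns
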