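import Pool.Agent.Lib.SqIns.Bridge

/-!
# Explicit decompositions checked by brute force, digits in base 2048

The file `Raw.lean` and `Raw2.lean` for sizes up to 2047.

A square on `0, …, n-1` (`n = 4k+1 < 2048`) is a pair `(F, I)` of natural numbers: the digits of `F`
in base `2048` are `f (n-2), f (n-1), f 0, …, f (n-1), f 0, f 1` (cyclic order of the points), the
digits of `I` are the positions of the points `0, …, n-1`.
-/

open Finset Equiv

namespace SqIns.Raw11

/-- digit in base 2048 -/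
def dg (X i : ℕ) : ℕ := Nat.land (Nat.shiftRight X (Nat.mul 11 i)) 2047

/-- five digits -/
def wd (X i : ℕ) : ℕ := Nat.land (Nat.shiftRight X (Nat.mul 11 i)) 36028797018963967

/-- digit `2` of the window -/
def cn (w : ℕ) : ℕ := Nat.land (Nat.shiftRight w 22) 2047

/-- the neighbours -/
def mk (w : ℕ) : ℕ :=
  Nat.lor (Nat.lor (Nat.shiftLeft 1 (Nat.land w 2047))
      (Nat.shiftLeft 1 (Nat.land (Nat.shiftRight w 11) 2047)))
    (Nat.lor (Nat.shiftLeft 1 (Nat.land (Nat.shiftRight w 33) 2047))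
      (Nat.shiftLeft 1 (Nat.land (Nat.shiftRight w 44) 2047)))

/-- evaluates the argument first -/
def frc (n : ℕ) (f : ℕ → ℕ) : ℕ := Nat.rec (f 0) (fun m _ => f (Nat.succ m)) n

theorem frc_eq (n : ℕ) (f : ℕ → ℕ) : frc n f = f n := by
  cases n <;> rfl

/-- evaluates the argument first -/
def frb (n : ℕ) (f : ℕ → Bool) : Bool := Nat.rec (f 0) (fun m _ => f (Nat.succ m)) n

theorem frb_eq (n : ℕ) (f : ℕ → Bool) : frb n f = f n := by
  cases n <;> rfl

/-- neighbours of `u` in all squares -/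
def orM (u : ℕ) : List (ℕ × ℕ) → ℕ
  | [] => 0
  | (F, I) :: L => Nat.lor (frc (wd F (dg I u)) fun w => bif Nat.beq (cn w) u then mk w else 0)
      (orM u L)

/-- position check for `u < m` -/
def okP (n F I : ℕ) : ℕ → Bool
  | 0 => true
  | u + 1 => (frb (dg I u) fun p => (Nat.blt p n).and (Nat.beq (dg F (Nat.add p 2)) u)).and
      (okP n F I u)

/-- check of one square -/
def okS (n : ℕ) : List (ℕ × ℕ) → Bool
  | [] => true
  | (F, I) :: L => ((okP n F I n).and (((Nat.beq (dg F 0) (dg F n)).and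
      (Nat.beq (dg F 1) (dg F (n + 1)))).and ((Nat.beq (dg F (n + 2)) (dg F 2)).and
      (Nat.beq (dg F (n + 3)) (dg F 3))))).and (okS n L)

/-! ### Soundness -/

theorem dg_eq (X i : ℕ) : dg X i = X / 2 ^ (11 * i) % 2048 := by
  have h : dg X i = (X >>> (11 * i)) &&& (2 ^ 11 - 1) := rfl
  rw [h, Nat.and_two_pow_sub_one_eq_mod, Nat.shiftRight_eq_div_pow]

theorem wd_eq (X i : ℕ) : wd X i = X / 2 ^ (11 * i) % 2 ^ 55 := by
  have h : wd X i = (X >>> (11 * i)) &&& (2 ^ 55 - 1) := rfl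
  rw [h, Nat.and_two_pow_sub_one_eq_mod, Nat.shiftRight_eq_div_pow]

theorem dg_add (X p j : ℕ) (hj : j ≤ 4) : dg X (p + j) = wd X p / 2 ^ (11 * j) % 2048 := by
  rw [dg_eq, wd_eq, mul_add, pow_add, ← Nat.div_div_eq_div_mul]
  generalize X / 2 ^ (11 * p) = a
  interval_cases j <;> norm_num <;> omega

theorem cn_wd (X p : ℕ) : cn (wd X p) = dg X (p + 2) := by
  rw [dg_add X p 2 (by norm_num)]
  have h : cn (wd X p) = ((wd X p) >>> 22) &&& (2 ^ 11 - 1) := rfl
  rw [h, Nat.and_two_pow_sub_one_eq_mod, Nat.shiftRight_eq_div_pow]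

theorem testBit_one_shift (a v : ℕ) : (Nat.shiftLeft 1 a).testBit v = decide (a = v) := by
  have h : Nat.shiftLeft 1 a = 1 <<< a := rfl
  rw [h, Nat.one_shiftLeft, Nat.testBit_two_pow]

theorem mk_wd (X p v : ℕ) : (mk (wd X p)).testBit v = true ↔
    dg X p = v ∨ dg X (p + 1) = v ∨ dg X (p + 3) = v ∨ dg X (p + 4) = v := by
  have h0 : Nat.land (wd X p) 2047 = dg X (p + 0) := by
    rw [dg_add X p 0 (by norm_num)]
    have h : Nat.land (wd X p) 2047 = (wd X p) &&& (2 ^ 11 - 1) := rfl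
    rw [h, Nat.and_two_pow_sub_one_eq_mod, mul_zero, pow_zero, Nat.div_one]
  have h1 : Nat.land (Nat.shiftRight (wd X p) 11) 2047 = dg X (p + 1) := by
    rw [dg_add X p 1 (by norm_num)]
    have h : Nat.land (Nat.shiftRight (wd X p) 11) 2047 = ((wd X p) >>> 11) &&& (2 ^ 11 - 1) := rfl
    rw [h, Nat.and_two_pow_sub_one_eq_mod, Nat.shiftRight_eq_div_pow]
  have h3 : Nat.land (Nat.shiftRight (wd X p) 33) 2047 = dg X (p + 3) := by
    rw [dg_add X p 3 (by norm_num)]
    have h : Nat.land (Nat.shiftRight (wd X p) 33) 2047 = ((wd X p) >>> 33) &&& (2 ^ 11 - 1) := rfl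
    rw [h, Nat.and_two_pow_sub_one_eq_mod, Nat.shiftRight_eq_div_pow]
  have h4 : Nat.land (Nat.shiftRight (wd X p) 44) 2047 = dg X (p + 4) := by
    rw [dg_add X p 4 (by norm_num)]
    have h : Nat.land (Nat.shiftRight (wd X p) 44) 2047 = ((wd X p) >>> 44) &&& (2 ^ 11 - 1) := rfl
    rw [h, Nat.and_two_pow_sub_one_eq_mod, Nat.shiftRight_eq_div_pow]
  unfold mk
  rw [h0, h1, h3, h4]
  have e : ∀ a b : ℕ, Nat.lor a b = a ||| b := fun _ _ => rfl
  rw [e, e, e, Nat.testBit_or, Nat.testBit_or, Nat.testBit_or, testBit_one_shift,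
    testBit_one_shift, testBit_one_shift, testBit_one_shift]
  simp only [Bool.or_eq_true, decide_eq_true_eq, add_zero]
  tauto

theorem orM_testBit (u v : ℕ) (L : List (ℕ × ℕ)) (h : (orM u L).testBit v = true) :
    ∃ q ∈ L, dg q.1 (dg q.2 u + 2) = u ∧ (dg q.1 (dg q.2 u) = v ∨ dg q.1 (dg q.2 u + 1) = v ∨
      dg q.1 (dg q.2 u + 3) = v ∨ dg q.1 (dg q.2 u + 4) = v) := by
  induction L with
  | nil => simp [orM] at h
  | cons q L ih =>
    obtain ⟨F, I⟩ := q
    have e : ∀ a b : ℕ, Nat.lor a b = a ||| b := fun _ _ => rfl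
    rw [orM, frc_eq, e, Nat.testBit_or, Bool.or_eq_true] at h
    rcases h with h | h
    · by_cases hc : Nat.beq (cn (wd F (dg I u))) u = true
      · rw [hc, cond_true] at h
        rw [Nat.beq_eq, cn_wd] at hc
        exact ⟨(F, I), List.mem_cons_self, hc, (mk_wd _ _ _).1 h⟩
      · rw [Bool.not_eq_true] at hc
        rw [hc, cond_false] at h
        simp at h
    · obtain ⟨q, hq, h'⟩ := ih h
      exact ⟨q, List.mem_cons_of_mem _ hq, h'⟩

theorem okP_iff (n F I m : ℕ) (h : okP n F I m = true) :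
    ∀ u < m, dg I u < n ∧ dg F (dg I u + 2) = u := by
  induction m with
  | zero => intro u hu; omega
  | succ m ih =>
    rw [okP, Bool.and_eq_true, frb_eq, Bool.and_eq_true, Nat.beq_eq, Nat.blt_eq] at h
    intro u hu
    rcases Nat.lt_succ_iff_lt_or_eq.1 hu with h' | h'
    · exact ih h.2 u h'
    · subst h'
      exact h.1

/-- a good square -/
structure Good (n : ℕ) (q : ℕ × ℕ) : Prop where
  pos : ∀ u < n, dg q.2 u < n ∧ dg q.1 (dg q.2 u + 2) = u
  w0 : dg q.1 0 = dg q.1 n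
  w1 : dg q.1 1 = dg q.1 (n + 1)
  w2 : dg q.1 (n + 2) = dg q.1 2
  w3 : dg q.1 (n + 3) = dg q.1 3

theorem okS_iff (n : ℕ) (L : List (ℕ × ℕ)) (h : okS n L = true) : ∀ q ∈ L, Good n q := by
  induction L with
  | nil => intro q hq; simp at hq
  | cons q L ih =>
    obtain ⟨F, I⟩ := q
    rw [okS, Bool.and_eq_true, Bool.and_eq_true, Bool.and_eq_true, Bool.and_eq_true,
      Bool.and_eq_true, Nat.beq_eq, Nat.beq_eq, Nat.beq_eq, Nat.beq_eq] at h
    intro q hq
    rcases List.mem_cons.1 hq with rfl | hq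
    · exact ⟨okP_iff n F I n h.1.1, h.1.2.1.1, h.1.2.1.2, h.1.2.2.1, h.1.2.2.2⟩
    · exact ih h.2 q hq

section Equiv

variable {n : ℕ} [NeZero n] {q : ℕ × ℕ} (h : Good n q)
include h

/-- digits as points -/
theorem Good.lt (i : ℕ) (hi : i < n) : dg q.1 (i + 2) < n ∧ dg q.2 (dg q.1 (i + 2)) = i := by
  -- `u ↦ dg q.2 u` is a bijection of `0, …, n-1`
  let g : Fin n → Fin n := fun u => ⟨dg q.2 u, (h.pos u u.isLt).1⟩
  have hinj : Function.Injective g := by
    intro a b hab
    have h1 : dg q.2 a = dg q.2 b := by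
      have := congrArg Fin.val hab
      exact this
    have h2 := (h.pos a a.isLt).2
    have h3 := (h.pos b b.isLt).2
    rw [h1, h3] at h2
    exact Fin.ext h2.symm
  obtain ⟨u, hu⟩ := (Finite.injective_iff_surjective.1 hinj) ⟨i, hi⟩
  have h1 : dg q.2 u = i := congrArg Fin.val hu
  have h2 := (h.pos u u.isLt).2
  rw [h1] at h2
  rw [h2]
  exact ⟨u.isLt, h1⟩

/-- the cyclic order -/
def Good.eq : ZMod n ≃ Fin n where
  toFun i := ⟨dg q.1 (i.val + 2), (h.lt i.val (ZMod.val_lt i)).1⟩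
  invFun u := (dg q.2 u : ZMod n)
  left_inv i := by
    show ((dg q.2 (dg q.1 (i.val + 2)) : ℕ) : ZMod n) = i
    rw [(h.lt i.val (ZMod.val_lt i)).2, ZMod.natCast_zmod_val]
  right_inv u := by
    have h1 := h.pos u u.isLt
    apply Fin.ext
    show dg q.1 (((dg q.2 u : ℕ) : ZMod n).val + 2) = u
    rw [ZMod.val_natCast, Nat.mod_eq_of_lt h1.1, h1.2]

theorem Good.eq_nat (i : ℕ) (hi : i < n) : (h.eq (i : ZMod n) : ℕ) = dg q.1 (i + 2) := by
  show dg q.1 (((i : ℕ) : ZMod n).val + 2) = _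
  rw [ZMod.val_natCast, Nat.mod_eq_of_lt hi]

/-- all digits -/
theorem Good.eq_all (hn : 3 ≤ n) (i : ℕ) (hi : i < n + 4) :
    dg q.1 i = (h.eq ((i : ZMod n) - 2) : ℕ) := by
  have hc : ((n : ℕ) : ZMod n) = 0 := ZMod.natCast_self n
  rcases Nat.lt_or_ge i 2 with h1 | h1
  · interval_cases i
    · rw [h.w0]
      have e : ((0 : ℕ) : ZMod n) - 2 = ((n - 2 : ℕ) : ZMod n) := by
        rw [Nat.cast_sub (by omega), hc]
        push_cast
        ring
      rw [e, h.eq_nat _ (by omega)]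
      congr 1
      omega
    · rw [h.w1]
      have e : ((1 : ℕ) : ZMod n) - 2 = ((n - 1 : ℕ) : ZMod n) := by
        rw [Nat.cast_sub (by omega), hc]
        push_cast
        ring
      rw [e, h.eq_nat _ (by omega)]
      congr 1
      omega
  · rcases Nat.lt_or_ge i (n + 2) with h2 | h2
    · have e : ((i : ℕ) : ZMod n) - 2 = ((i - 2 : ℕ) : ZMod n) := by
        rw [Nat.cast_sub h1]
        push_cast
        ring
      rw [e, h.eq_nat _ (by omega)]
      congr 1
      omega
    · obtain rfl | rfl : i = n + 2 ∨ i = n + 3 := by omega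
      · rw [h.w2]
        have e : ((n + 2 : ℕ) : ZMod n) - 2 = ((0 : ℕ) : ZMod n) := by
          push_cast
          rw [hc]
          ring
        rw [e, h.eq_nat _ (by omega)]
      · rw [h.w3]
        have e : ((n + 3 : ℕ) : ZMod n) - 2 = ((1 : ℕ) : ZMod n) := by
          push_cast
          rw [hc]
          ring
        rw [e, h.eq_nat _ (by omega)]

theorem Good.adj (hn : 3 ≤ n) (u v : Fin n) (hv : dg q.1 (dg q.2 u) = v ∨
    dg q.1 (dg q.2 u + 1) = v ∨ dg q.1 (dg q.2 u + 3) = v ∨ dg q.1 (dg q.2 u + 4) = v) :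
    Adj (rot h.eq) u v := by
  have h1 := h.pos u u.isLt
  set p := dg q.2 u with hp
  have hu : h.eq (p : ZMod n) = u := Fin.ext ((h.eq_nat p h1.1).trans h1.2)
  have key : ∀ i, i < n + 4 → dg q.1 i = v → h.eq ((i : ZMod n) - 2) = v := fun i hi hd =>
    Fin.ext ((h.eq_all hn i hi).symm.trans hd)
  unfold Adj
  rcases hv with hv | hv | hv | hv
  · right; right; right
    have h2 := key _ (by omega) hv
    rw [← h2, ← hu, rot_apply, rot_apply]
    congr 1
    ring
  · right; left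
    have h2 := key _ (by omega) hv
    rw [← h2, ← hu, rot_apply]
    congr 1
    push_cast
    ring
  · left
    have h2 := key _ (by omega) hv
    rw [← h2, ← hu, rot_apply]
    congr 1
    push_cast
    ring
  · right; right; left
    have h2 := key _ (by omega) hv
    rw [← h2, ← hu, rot_apply, rot_apply]
    congr 1
    push_cast
    ring

end Equiv

/-- the points `lo, …, lo + c - 1` have all neighbours -/
def okR (L : List (ℕ × ℕ)) (full lo : ℕ) : ℕ → Bool
  | 0 => true
  | c + 1 => (Nat.beq (Nat.lor (orM (Nat.add lo c) L) (Nat.shiftLeft 1 (Nat.add lo c))) full).and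
      (okR L full lo c)

theorem okR_iff {L : List (ℕ × ℕ)} {full lo c : ℕ} (h : okR L full lo c = true) :
    ∀ u, lo ≤ u → u < lo + c → (orM u L) ||| (1 <<< u) = full := by
  induction c with
  | zero => intro u h1 h2; omega
  | succ c ih =>
    rw [okR, Bool.and_eq_true, Nat.beq_eq] at h
    intro u h1 h2
    by_cases h3 : u < lo + c
    · exact ih h.2 u h1 h3
    · have h4 : u = lo + c := by omega
      subst h4
      exact h.1

/-- the points in a list of intervals -/
def Full (L : List (ℕ × ℕ)) (full a b : ℕ) : Prop :=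
  ∀ u, a ≤ u → u < b → (orM u L) ||| (1 <<< u) = full

theorem Full.append {L : List (ℕ × ℕ)} {full a b c : ℕ} (h1 : Full L full a b)
    (h2 : okR L full b c = true) : Full L full a (b + c) := fun u h3 h4 => by
  by_cases h5 : u < b
  · exact h1 u h3 h5
  · exact okR_iff h2 u (by omega) h4

theorem Full.nil {L : List (ℕ × ℕ)} {full : ℕ} : Full L full 0 0 := fun u _ h => by omega

theorem okS_append {n : ℕ} {L L' : List (ℕ × ℕ)} (h1 : ∀ q ∈ L, Good n q)
    (h2 : okS n L' = true) : ∀ q ∈ L ++ L', Good n q := by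
  intro q hq
  rcases List.mem_append.1 hq with hq | hq
  · exact h1 q hq
  · exact okS_iff n L' h2 q hq

/-- **Soundness of the check in parts.** -/
theorem decomposes_of_parts {k : ℕ} (hk : 0 < k) {L : List (ℕ × ℕ)} (h1 : L.length = k)
    (hg : ∀ q ∈ L, Good (4 * k + 1) q) (hn : Full L (2 ^ (4 * k + 1) - 1) 0 (4 * k + 1)) :
    SqCyc.Decomposes (4 * k + 1) := by
  subst h1
  have h0 : ∃ s : Fin L.length → Perm (Fin (4 * L.length + 1)), Dec s := by
    refine ⟨fun m => rot (hg L[m] (List.getElem_mem m.isLt)).eq, dec_of_cover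
      (fun m => closed_rot _) (by rw [Fintype.card_fin]; omega)
      (by rw [Fintype.card_fin, Fintype.card_fin]) ?_⟩
    intro u v huv
    have h4 := hn u (Nat.zero_le _) u.isLt
    have h5 : (orM u L ||| 1 <<< (u : ℕ)).testBit v = true := by
      rw [h4, Nat.testBit_two_pow_sub_one]
      exact decide_eq_true v.isLt
    rw [Nat.testBit_or, Bool.or_eq_true] at h5
    rcases h5 with h5 | h5
    · obtain ⟨q, hq, h6, h7⟩ := orM_testBit _ _ _ h5
      obtain ⟨m, hm, rfl⟩ := List.mem_iff_getElem.1 hq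
      exact ⟨⟨m, hm⟩, (hg L[m] hq).adj (by omega) u v h7⟩
    · exfalso
      rw [Nat.one_shiftLeft, Nat.testBit_two_pow] at h5
      exact huv (Fin.ext (of_decide_eq_true h5))
  obtain ⟨s, hs⟩ := h0
  exact hs.decomposes (Fintype.card_fin _) (Fintype.card_fin _)

end SqIns.Raw11
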