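import Pool.Agent.Lib.SqIns.Raw

/-!
# Explicit decompositions checked by brute force, in parts

The check of `Raw.lean` cut into pieces, so that every piece needs little memory.
-/

open Finset Equiv

namespace SqIns.Raw

/-- the points `lo, …, lo + c - 1` have all neighbours -/
def okR (L : List (ℕ × ℕ)) (full lo : ℕ) : ℕ → Bool
  | 0 => true
  | c + 1 => (Nat.beq (Nat.lor (orM (Nat.add lo c) L) (Nat.shiftLeft 1 (Nat.add lo c))) full).and
      (okR L full lo c)

theorem okR_iff {L : List (ℕ × ℕ)} {full lo c : ℕ} (h : okR L full lo c = true) :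
    ∀ u, lo ≤ u → u < lo + c → (orM u L) ||| (1 <<< u) = full := by
  induction c with
  | zero => intro u h1 h2; omega
  | succ c ih =>
    rw [okR, Bool.and_eq_true, Nat.beq_eq] at h
    intro u h1 h2
    by_cases h3 : u < lo + c
    · exact ih h.2 u h1 h3
    · have h4 : u = lo + c := by omega
      subst h4
      exact h.1

/-- the points in a list of intervals -/
def Full (L : List (ℕ × ℕ)) (full a b : ℕ) : Prop :=
  ∀ u, a ≤ u → u < b → (orM u L) ||| (1 <<< u) = full

theorem Full.append {L : List (ℕ × ℕ)} {full a b c : ℕ} (h1 : Full L full a b)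
    (h2 : okR L full b c = true) : Full L full a (b + c) := fun u h3 h4 => by
  by_cases h5 : u < b
  · exact h1 u h3 h5
  · exact okR_iff h2 u (by omega) h4

theorem Full.nil {L : List (ℕ × ℕ)} {full : ℕ} : Full L full 0 0 := fun u _ h => by omega

theorem okS_append {n : ℕ} {L L' : List (ℕ × ℕ)} (h1 : ∀ q ∈ L, Good n q)
    (h2 : okS n L' = true) : ∀ q ∈ L ++ L', Good n q := by
  intro q hq
  rcases List.mem_append.1 hq with hq | hq
  · exact h1 q hq
  · exact okS_iff n L' h2 q hq

/-- **Soundness of the check in parts.** -/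
theorem decomposes_of_parts {k : ℕ} (hk : 0 < k) {L : List (ℕ × ℕ)} (h1 : L.length = k)
    (hg : ∀ q ∈ L, Good (4 * k + 1) q) (hn : Full L (2 ^ (4 * k + 1) - 1) 0 (4 * k + 1)) :
    SqCyc.Decomposes (4 * k + 1) := by
  subst h1
  have h0 : ∃ s : Fin L.length → Perm (Fin (4 * L.length + 1)), Dec s := by
    refine ⟨fun m => rot (hg L[m] (List.getElem_mem m.isLt)).eq, dec_of_cover
      (fun m => closed_rot _) (by rw [Fintype.card_fin]; omega)
      (by rw [Fintype.card_fin, Fintype.card_fin]) ?_⟩
    intro u v huv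
    have h4 := hn u (Nat.zero_le _) u.isLt
    have h5 : (orM u L ||| 1 <<< (u : ℕ)).testBit v = true := by
      rw [h4, Nat.testBit_two_pow_sub_one]
      exact decide_eq_true v.isLt
    rw [Nat.testBit_or, Bool.or_eq_true] at h5
    rcases h5 with h5 | h5
    · obtain ⟨q, hq, h6, h7⟩ := orM_testBit _ _ _ h5
      obtain ⟨m, hm, rfl⟩ := List.mem_iff_getElem.1 hq
      exact ⟨⟨m, hm⟩, (hg L[m] hq).adj (by omega) u v h7⟩
    · exfalso
      rw [Nat.one_shiftLeft, Nat.testBit_two_pow] at h5
      exact huv (Fin.ext (of_decide_eq_true h5))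
  obtain ⟨s, hs⟩ := h0
  exact hs.decomposes (Fintype.card_fin _) (Fintype.card_fin _)

end SqIns.Raw
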