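import Pool.Agent.Lib.SqIns.Cover3
import Pool.Agent.Lib.SqIns.PWords

/-!
# The statements of the recursion

`PT k s`: all words which a later step can ask for exist at size `k`, with `s` centres.
`BStep K m G q tw`: the step with the base of size `K` and the digit `m`; `tw = false` means no
fine digits.
-/

namespace SqIns

/-- the digits -/
def msL : List ℕ := [5, 7, 11, 13, 17, 19, 23, 25, 29, 31, 35, 37, 41, 61, 67, 71, 73, 79, 97]

/-- all words at size `k` -/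
def PT (k s : ℕ) : Prop :=
  ∀ m ∈ msL, ∀ a b : ℕ, b ≤ 2 → Nat.Coprime m (fQ a b) → TFn m (fQ a b) ≤ k →
    k ≤ TFn m (fQ a b) + m * fQ a b → PW k (TFn m (fQ a b)) (m * fQ a b) (m * fQ a b) s

/-- the step with base size `K` and digit `m` for the sizes `T` with property `D` -/
def BStepD (K m G q : ℕ) (tw : Bool) (D : ℕ → Prop) : Prop :=
  ∀ a b T s : ℕ, b ≤ 2 → (tw = false → a = 0 ∧ b = 0) → Nat.Coprime m (fQ a b) →
    TFn m (fQ a b) ≤ T → T ≤ TFn m (fQ a b) + m * fQ a b → D T →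
    PW T (TFn m (fQ a b)) (m * fQ a b) (m * fQ a b) s →
    (G + s ≤ K ∨ TFn m (fQ a b) + 1 ≤ K) → PT (K * (m * fQ a b) + T) (5 + q)

/-- the step with base size `K` and digit `m` -/
def BStep (K m G q : ℕ) (tw : Bool) : Prop := BStepD K m G q tw fun _ => True

/-- digits with their numbers of groups: `(m, n1, n3, q1, q3)` -/
def gqL : List (ℕ × ℕ × ℕ × ℕ × ℕ) :=
  [(5, 5, 7, 3, 5), (7, 7, 9, 3, 5), (11, 6, 7, 3, 4), (13, 5, 6, 2, 3), (17, 5, 6, 2, 3),
   (19, 5, 5, 2, 3), (23, 5, 5, 2, 3), (25, 5, 5, 3, 3), (29, 6, 6, 2, 3), (31, 5, 5, 2, 3),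
   (35, 6, 6, 3, 3), (37, 5, 5, 2, 3), (41, 6, 6, 2, 3), (43, 6, 6, 2, 3), (61, 6, 6, 2, 3),
   (67, 6, 6, 2, 3), (71, 6, 6, 2, 3), (73, 6, 6, 2, 3), (79, 6, 6, 2, 3), (97, 6, 6, 3, 3)]

/-- numbers of groups of the digit `m` -/
def gq (m : ℕ) : ℕ × ℕ × ℕ × ℕ := (gqL.lookup m).getD (99, 99, 99, 99)

/-- number of groups of the places -/
def gG (m : ℕ) (tw : Bool) : ℕ := if tw then (gq m).2.1 else (gq m).1

/-- number of centres, words around a ring index -/
def gC (m : ℕ) (tw : Bool) : ℕ := if tw then (gq m).2.2.2 else (gq m).2.2.1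

/-- the steps with words around a ring index -/
def StepsB (K : ℕ) (ex : List ℕ) : Prop :=
  ∀ m ∈ msL, m ∉ ex → ∀ tw, BStep K m (gG m tw) (gC m tw) tw

/-- the steps with words at the columns of `D` -/
def StepsA (K : ℕ) (ex : List ℕ) : Prop :=
  ∀ m ∈ msL, m ∉ ex → ∀ tw, BStep K m (gG m tw) (gG m tw) tw

/-- the sizes with direct words -/
def dirL : List ℕ := (List.range 65).map (fun i => i + 5) ++ [78, 79, 96, 97, 106, 107, 108, 109]

/-- the steps with words at the columns of `D` from the direct sizes -/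
def StepsAD (K : ℕ) (ex : List ℕ) : Prop :=
  ∀ m ∈ msL, m ∉ ex → ∀ tw, BStepD K m (gG m tw) (gG m tw) tw fun T => T ∈ dirL

/-- the pairs `(m, T)` for the base of size 13 -/
def L13 : List (ℕ × ℕ) :=
  [(5, 5), (5, 6), (5, 7), (5, 8), (5, 9), (5, 10), (7, 7), (7, 8), (31, 35), (31, 36), (37, 59),
   (37, 60), (37, 61), (37, 62)]

/-- the steps with the base of size 13 -/
def Steps13 : Prop :=
  ∀ p ∈ L13, ∀ s, PW p.2 p.1 p.1 p.1 s → (gG p.1 false + s ≤ 13 ∨ p.1 + 1 ≤ 13) →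
    PT (13 * p.1 + p.2) (5 + gG p.1 false)

/-- the pairs `(m, T)` with `Q = 17` for the base of size 13 -/
def L13b : List (ℕ × ℕ) :=
  [(19, 555), (19, 556), (19, 557), (19, 558), (19, 559), (19, 560), (19, 561), (19, 562),
   (19, 563), (19, 564), (19, 578), (19, 579), (19, 580), (19, 581), (19, 590), (19, 591),
   (19, 608), (19, 609), (31, 744), (31, 745)]

/-- the steps with the base of size 13 and `Q = 17` -/
def Steps13b : Prop :=
  ∀ p ∈ L13b, ∀ s, PW p.2 (TFn p.1 (fQ 1 0)) (p.1 * fQ 1 0) (p.1 * fQ 1 0) s →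
    gG p.1 true + s ≤ 13 → PT (13 * (p.1 * fQ 1 0) + p.2) (5 + gG p.1 true)

theorem PW.le {T nF nI nA c c' : ℕ} (h : PW T nF nI nA c) (hc : c ≤ c') : PW T nF nI nA c' :=
  h.mono le_rfl le_rfl hc

theorem PT.mono {k s s' : ℕ} (h : PT k s) (hs : s ≤ s') : PT k s' := by
  intro m hm a b hb hc h1 h2
  exact (h m hm a b hb hc h1 h2).le hs

end SqIns
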