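import Pool.Agent.Lib.SqIns.Splice2

/-!
# All lifts of one base square with all letters

A *row* is a base square `s` on `X` with slopes `col`, a seam `τ` and systems `i : I`: the letters of
the system `i` with the label `κ` are inserted in the lift number `l` after the point
`(B i, κ + (col (B i) - cs i) * l)`.
-/

open Finset Equiv

namespace SqIns

private theorem apply_inv' {X : Type*} (s : Perm X) (x : X) : s (s⁻¹ x) = x := by simp

private theorem inv_apply' {X : Type*} (s : Perm X) (x : X) : s⁻¹ (s x) = x := by simp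

/-- a base square with slopes, seam and systems of windows -/
structure Row (X R I : Type*) [Fintype X] [CommRing R] where
  /-- the base square -/
  s : Perm X
  closed : Closed s
  card : 5 < Fintype.card X
  /-- the slopes of the columns -/
  col : X → R
  unit1 : ∀ x, IsUnit (col (s x) - col x)
  unit2 : ∀ x, IsUnit (col (s (s x)) - col x)
  /-- the seam -/
  τ : X → R
  gen : ∀ r : R, ∃ j : ℕ, j • (∑ x, τ x) = r
  /-- the letters of the system `i` are inserted after `B i` -/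
  B : I → X
  /-- the label directions -/
  cs : I → R
  binj : Function.Injective B
  far : ∀ i j, s (B i) ≠ B j
  ua : ∀ i, IsUnit (col (s⁻¹ (B i)) - cs i)
  ub : ∀ i, IsUnit (col (B i) - cs i)
  uc : ∀ i, IsUnit (col (s (B i)) - cs i)
  ud : ∀ i, IsUnit (col (s (s (B i))) - cs i)
  τa : ∀ i, τ (s⁻¹ (B i)) = 0
  τb : ∀ i, τ (B i) = 0
  τc : ∀ i, τ (s (B i)) = 0

namespace Row

variable {X R I W : Type*} [Fintype X] [CommRing R] (ρ : Row X R I)

/-- the lift number `l` of the base square -/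
def sq (l : R) : Perm (X × R) := lift ρ.s fun x => (ρ.col (ρ.s x) - ρ.col x) * l + ρ.τ x

theorem sq_apply (l : R) (x : X) (y : R) :
    ρ.sq l (x, y) = (ρ.s x, y + ((ρ.col (ρ.s x) - ρ.col x) * l + ρ.τ x)) := rfl

theorem closed_sq (l : R) : Closed (ρ.sq l) := by
  refine closed_lift ρ.closed _ ?_
  have h : ∑ x, ((ρ.col (ρ.s x) - ρ.col x) * l + ρ.τ x) = ∑ x, ρ.τ x := by
    rw [sum_add_distrib, ← sum_mul, sum_sub_distrib, Equiv.sum_comp ρ.s ρ.col, sub_self, zero_mul,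
      zero_add]
  rw [h]
  exact ρ.gen

/-- the point of the window of the system `i` in the pass with label `κ` over the column `x` -/
def at' (i : I) (κ l : R) (x : X) : X × R := (x, κ + (ρ.col x - ρ.cs i) * l)

theorem sq_a (i : I) (κ l : R) :
    ρ.sq l (ρ.at' i κ l (ρ.s⁻¹ (ρ.B i))) = ρ.at' i κ l (ρ.B i) := by
  unfold at'
  rw [sq_apply, ρ.τa, apply_inv']
  congr 1
  ring

theorem sq_b (i : I) (κ l : R) :
    ρ.sq l (ρ.at' i κ l (ρ.B i)) = ρ.at' i κ l (ρ.s (ρ.B i)) := by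
  unfold at'
  rw [sq_apply, ρ.τb]
  congr 1
  ring

theorem sq_c (i : I) (κ l : R) :
    ρ.sq l (ρ.at' i κ l (ρ.s (ρ.B i))) = ρ.at' i κ l (ρ.s (ρ.s (ρ.B i))) := by
  unfold at'
  rw [sq_apply, ρ.τc]
  congr 1
  ring

theorem sq_inv_b (i : I) (κ l : R) :
    (ρ.sq l)⁻¹ (ρ.at' i κ l (ρ.B i)) = ρ.at' i κ l (ρ.s⁻¹ (ρ.B i)) := by
  rw [Perm.inv_eq_iff_eq, sq_a]

variable {σ : W → I} {κ : W → R} [DecidableEq X] [DecidableEq R] [DecidableEq W]

/-- the letter `w` is inserted after this point -/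
def pos (σ : W → I) (κ : W → R) (l : R) (w : W) : X × R := ρ.at' (σ w) (κ w) l (ρ.B (σ w))

theorem pos_injective (hσ : Function.Injective fun w => (σ w, κ w)) (l : R) :
    Function.Injective (ρ.pos σ κ l) := by
  intro w w' h
  have h1 := (Prod.ext_iff.1 h).1
  have h2 := (Prod.ext_iff.1 h).2
  have h3 : σ w = σ w' := ρ.binj h1
  refine hσ (Prod.ext h3 ?_)
  simp only [pos, at', h3] at h2
  exact add_right_cancel h2

variable (hσ : Function.Injective fun w => (σ w, κ w))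

/-- the lift number `l` with all letters -/
noncomputable def full (l : R) : Perm ((X × R) ⊕ W) := ins (ρ.sq l) (ρ.pos_injective hσ l)

theorem closed_full (l : R) : Closed (ρ.full hσ l) := closed_ins _ _ (ρ.closed_sq l)

theorem far_pos (l : R) (w w' : W) : ρ.sq l (ρ.pos σ κ l w) ≠ ρ.pos σ κ l w' := by
  intro h
  have := (Prod.ext_iff.1 h).1
  exact ρ.far _ _ this

/-! ### The points around a letter -/

theorem full_a (l : R) (w : W) : ρ.full hσ l (.inl (ρ.at' (σ w) (κ w) l (ρ.s⁻¹ (ρ.B (σ w))))) =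
    .inl (ρ.at' (σ w) (κ w) l (ρ.B (σ w))) := by
  rw [full, ins_inl_of, sq_a]
  intro w' h
  apply ρ.far (σ w') (σ w)
  have := (Prod.ext_iff.1 h).1
  show ρ.s (ρ.B (σ w')) = _
  rw [show ρ.B (σ w') = ρ.s⁻¹ (ρ.B (σ w)) from this, apply_inv']

theorem full_b (l : R) (w : W) : ρ.full hσ l (.inl (ρ.at' (σ w) (κ w) l (ρ.B (σ w)))) = .inr w :=
  ins_inl _ _ w

theorem full_w (l : R) (w : W) : ρ.full hσ l (.inr w) =
    .inl (ρ.at' (σ w) (κ w) l (ρ.s (ρ.B (σ w)))) := by
  rw [full, ins_inr]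
  exact congrArg Sum.inl (ρ.sq_b _ _ _)

theorem full_c (l : R) (w : W) : ρ.full hσ l (.inl (ρ.at' (σ w) (κ w) l (ρ.s (ρ.B (σ w))))) =
    .inl (ρ.at' (σ w) (κ w) l (ρ.s (ρ.s (ρ.B (σ w))))) := by
  rw [full, ins_inl_of, sq_c]
  intro w' h
  exact ρ.far (σ w) (σ w') (Prod.ext_iff.1 h).1.symm

/-- the first move of a pair of letters at gap distance two, in the same pass -/
theorem move_left (l : R) {w w' : W} (hB : ρ.s (ρ.s (ρ.B (σ w))) = ρ.B (σ w'))
    (hp : κ w' - ρ.cs (σ w') * l = κ w - ρ.cs (σ w) * l) :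
    Move.In ⟨.inl (ρ.at' (σ w) (κ w) l (ρ.s⁻¹ (ρ.B (σ w)))), .inl (ρ.at' (σ w) (κ w) l (ρ.B (σ w))),
      .inr w, .inl (ρ.at' (σ w) (κ w) l (ρ.s (ρ.B (σ w)))),
      .inl (ρ.at' (σ w) (κ w) l (ρ.s (ρ.s (ρ.B (σ w))))), .inr w'⟩ (ρ.full hσ l) := by
  refine ⟨ρ.full_a hσ l w, ρ.full_b hσ l w, ρ.full_w hσ l w, ρ.full_c hσ l w, ?_⟩
  have h : ρ.at' (σ w) (κ w) l (ρ.s (ρ.s (ρ.B (σ w)))) = ρ.at' (σ w') (κ w') l (ρ.B (σ w')) := by
    unfold at'
    rw [hB]
    congr 1
    linear_combination -hp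
  show ρ.full hσ l (.inl _) = _
  rw [h]
  exact ρ.full_b hσ l w'

/-- the second move of a pair of letters at gap distance two, in the same pass -/
theorem move_right (l : R) {w w' : W} (hB : ρ.s (ρ.s (ρ.B (σ w))) = ρ.B (σ w'))
    (hp : κ w' - ρ.cs (σ w') * l = κ w - ρ.cs (σ w) * l) :
    Move.In ⟨.inr w, .inl (ρ.at' (σ w') (κ w') l (ρ.s⁻¹ (ρ.B (σ w')))),
      .inl (ρ.at' (σ w') (κ w') l (ρ.B (σ w'))), .inr w',
      .inl (ρ.at' (σ w') (κ w') l (ρ.s (ρ.B (σ w')))),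
      .inl (ρ.at' (σ w') (κ w') l (ρ.s (ρ.s (ρ.B (σ w')))))⟩ (ρ.full hσ l) := by
  refine ⟨?_, ρ.full_a hσ l w', ρ.full_b hσ l w', ρ.full_w hσ l w', ρ.full_c hσ l w'⟩
  show ρ.full hσ l (.inr w) = _
  rw [ρ.full_w]
  congr 1
  unfold at'
  have h1 : ρ.s⁻¹ (ρ.B (σ w')) = ρ.s (ρ.B (σ w)) := by rw [← hB, inv_apply']
  rw [h1]
  congr 1
  linear_combination -hp

/-! ### The edges -/

variable [Fintype R] [Fintype W]

/-- the freed edges between the first and the third point of the windows with label `κ` -/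
def mac (i : I) (κ : R) : Sym2 (X × R) → ℤ :=
  ∑ l, pr (ρ.at' i κ l (ρ.s⁻¹ (ρ.B i))) (ρ.at' i κ l (ρ.s (ρ.B i)))

/-- the freed edges between the second and the fourth point of the windows with label `κ` -/
def mbd (i : I) (κ : R) : Sym2 (X × R) → ℤ :=
  ∑ l, pr (ρ.at' i κ l (ρ.B i)) (ρ.at' i κ l (ρ.s (ρ.s (ρ.B i))))

/-- all edges between a letter and a column -/
def star (w : W) (x : X) : Sym2 ((X × R) ⊕ W) → ℤ := ∑ y : R, pr (.inl (x, y)) (.inr w)

theorem sum_E_sq : ∑ l, E (ρ.sq l) = blow R (E ρ.s) := by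
  have hb : ∀ u v : R, IsUnit u → Function.Bijective fun y : R => u * y + v := by
    intro u v hu
    refine Finite.injective_iff_bijective.1 fun y y' h => ?_
    exact hu.mul_left_cancel (add_right_cancel h)
  have hc := ρ.card
  refine E_lift_sum ρ.s (ρ.closed.ne1 (by omega)) (ρ.closed.ne2 (by omega)) _
    (fun x => hb _ _ (ρ.unit1 x)) (fun x => ?_)
  · have := hb (ρ.col (ρ.s (ρ.s x)) - ρ.col x) (ρ.τ x + ρ.τ (ρ.s x)) (ρ.unit2 x)
    convert this using 2 with y
    ring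

theorem sum_star (w : W) (x : X) {u : R} (hu : IsUnit u) (v : R) :
    ∑ l : R, pr (.inl (x, v + u * l) : (X × R) ⊕ W) (.inr w) = star w x := by
  have hb : Function.Bijective fun y : R => v + u * y := by
    refine Finite.injective_iff_bijective.1 fun y y' h => ?_
    exact hu.mul_left_cancel (add_left_cancel h)
  exact hb.sum_comp fun y => pr (.inl (x, y) : (X × R) ⊕ W) (.inr w)

/-- **All lifts of a base square with all letters.** -/
theorem sum_E_full : ∑ l, E (ρ.full hσ l) = push Sum.inl (blow R (E ρ.s)) +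
    ∑ w, (star w (ρ.s⁻¹ (ρ.B (σ w))) + star w (ρ.B (σ w)) + star w (ρ.s (ρ.B (σ w))) +
      star w (ρ.s (ρ.s (ρ.B (σ w))))) -
    push Sum.inl (∑ w, (ρ.mac (σ w) (κ w) + ρ.mbd (σ w) (κ w))) := by
  have key : ∀ l, E (ρ.full hσ l) = push Sum.inl (E (ρ.sq l)) +
      ∑ w, (pr (.inl (ρ.at' (σ w) (κ w) l (ρ.s⁻¹ (ρ.B (σ w))))) (.inr w) +
        pr (.inl (ρ.at' (σ w) (κ w) l (ρ.B (σ w)))) (.inr w) +
        pr (.inl (ρ.at' (σ w) (κ w) l (ρ.s (ρ.B (σ w))))) (.inr w) +
        pr (.inl (ρ.at' (σ w) (κ w) l (ρ.s (ρ.s (ρ.B (σ w)))))) (.inr w) -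
        push Sum.inl (pr (ρ.at' (σ w) (κ w) l (ρ.s⁻¹ (ρ.B (σ w))))
          (ρ.at' (σ w) (κ w) l (ρ.s (ρ.B (σ w))))) -
        push Sum.inl (pr (ρ.at' (σ w) (κ w) l (ρ.B (σ w)))
          (ρ.at' (σ w) (κ w) l (ρ.s (ρ.s (ρ.B (σ w))))))) := by
    intro l
    rw [full, E_ins _ _ (ρ.far_pos l)]
    congr 1
    refine sum_congr rfl fun w _ => ?_
    simp only [pos]
    rw [sq_inv_b, sq_b, sq_c, push_pr Sum.inl_injective, push_pr Sum.inl_injective,
      pr_comm (Sum.inr w) (Sum.inl (ρ.at' (σ w) (κ w) l (ρ.s (ρ.B (σ w))))),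
      pr_comm (Sum.inr w) (Sum.inl (ρ.at' (σ w) (κ w) l (ρ.s (ρ.s (ρ.B (σ w))))))]
  rw [sum_congr rfl fun l _ => key l, sum_add_distrib, ← push_sum, sum_E_sq, sum_comm]
  rw [add_sub_assoc]
  congr 1
  rw [push_sum, ← sum_sub_distrib]
  refine sum_congr rfl fun w _ => ?_
  rw [sum_sub_distrib, sum_sub_distrib, sum_add_distrib, sum_add_distrib, sum_add_distrib]
  unfold at'
  rw [sum_star w _ (ρ.ua (σ w)) (κ w), sum_star w _ (ρ.ub (σ w)) (κ w),
    sum_star w _ (ρ.uc (σ w)) (κ w), sum_star w _ (ρ.ud (σ w)) (κ w), push_add]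
  unfold mac mbd at'
  rw [push_sum, push_sum]
  abel

/-! ### Fibrewise permutations -/

end Row

section Fib

variable {X R : Type*}

/-- the permutation of `X × R` which permutes every fibre -/
def fib (Φ : X → Perm R) : Perm (X × R) where
  toFun p := (p.1, Φ p.1 p.2)
  invFun p := (p.1, (Φ p.1)⁻¹ p.2)
  left_inv p := by simp
  right_inv p := by simp

@[simp] theorem fib_apply (Φ : X → Perm R) (x : X) (y : R) : fib Φ (x, y) = (x, Φ x y) := rfl

variable [Fintype X] [Fintype R] [DecidableEq X] [DecidableEq R]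

theorem push_fib_blow (Φ : X → Perm R) (φ : Sym2 X → ℤ) :
    push (fib Φ) (blow R φ) = blow R φ := by
  funext e
  obtain ⟨e', rfl⟩ : ∃ e', Sym2.map (fib Φ) e' = e := ⟨Sym2.map (fib Φ).symm e, by
    rw [Sym2.map_map]; simp⟩
  rw [push_apply (fib Φ).injective]
  simp only [blow, Sym2.map_map]
  have h : Prod.fst ∘ (fib Φ) = Prod.fst := rfl
  rw [h]

theorem push_fib_vertAll (Φ : X → Perm R) :
    push (fib Φ) (vertAll X R) = vertAll X R := by
  funext e
  obtain ⟨e', rfl⟩ : ∃ e', Sym2.map (fib Φ) e' = e := ⟨Sym2.map (fib Φ).symm e, by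
    rw [Sym2.map_map]; simp⟩
  rw [push_apply (fib Φ).injective]
  simp only [vertAll, Sym2.map_map]
  have h : Prod.fst ∘ (fib Φ) = Prod.fst := rfl
  have h2 : (Sym2.map (fib Φ) e').IsDiag ↔ e'.IsDiag := by
    induction e' with
    | _ x y => simp
  rw [h]
  simp only [h2]

end Fib

/-- the move seen through a bijection -/
def Move.map {U U' : Type*} (e : U ≃ U') (m : Move U) : Move U' :=
  ⟨e m.y, e m.a, e m.b, e m.w, e m.c, e m.d⟩

theorem Move.In.permCongr {U U' : Type*} [DecidableEq U] [DecidableEq U'] {m : Move U}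
    {l : Perm U} (h : m.In l) (e : U ≃ U') : (m.map e).In (e.permCongr l) := by
  obtain ⟨h1, h2, h3, h4, h5⟩ := h
  refine ⟨?_, ?_, ?_, ?_, ?_⟩ <;>
    simp only [Move.map, Equiv.permCongr_apply, Equiv.symm_apply_apply, h1, h2, h3, h4, h5]

namespace Row

variable {X R I W : Type*} [Fintype X] [CommRing R] (ρ : Row X R I)
  {σ : W → I} {κ : W → R} [DecidableEq X] [DecidableEq R] [DecidableEq W]
  (hσ : Function.Injective fun w => (σ w, κ w))

/-- fibrewise permutation of the points, the letters are fixed -/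
def mv (W : Type*) {X R : Type*} (Φ : X → Perm R) : Perm ((X × R) ⊕ W) :=
  Equiv.sumCongr (fib Φ) (Equiv.refl W)

/-- the lift number `l` with all letters, after a fibrewise permutation -/
noncomputable def fullΦ (Φ : X → Perm R) (l : R) : Perm ((X × R) ⊕ W) :=
  (mv W Φ).permCongr (ρ.full hσ l)

variable [Fintype R] [Fintype W]

theorem closed_fullΦ (Φ : X → Perm R) (l : R) : Closed (ρ.fullΦ hσ Φ l) :=
  (ρ.closed_full hσ l).permCongr _

omit [CommRing R] in
theorem push_mv_star (Φ : X → Perm R) (w : W) (x : X) :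
    push (mv W Φ) (star w x) = star w x := by
  unfold star
  rw [push_sum]
  have h : ∀ y : R, push (mv W Φ) (pr (Sum.inl (x, y)) (Sum.inr w)) =
      pr (Sum.inl (x, Φ x y) : (X × R) ⊕ W) (Sum.inr w) := fun y => by
    rw [push_pr (mv W Φ).injective]
    rfl
  rw [sum_congr rfl fun y _ => h y]
  exact (Φ x).bijective.sum_comp fun y => pr (Sum.inl (x, y) : (X × R) ⊕ W) (Sum.inr w)

/-- **All lifts of a base square with all letters, after a fibrewise permutation.** -/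
theorem sum_E_fullΦ (Φ : X → Perm R) : ∑ l, E (ρ.fullΦ hσ Φ l) =
    push Sum.inl (blow R (E ρ.s)) +
    ∑ w, (star w (ρ.s⁻¹ (ρ.B (σ w))) + star w (ρ.B (σ w)) + star w (ρ.s (ρ.B (σ w))) +
      star w (ρ.s (ρ.s (ρ.B (σ w))))) -
    push Sum.inl (push (fib Φ) (∑ w, (ρ.mac (σ w) (κ w) + ρ.mbd (σ w) (κ w)))) := by
  have h1 : ∀ φ : Sym2 (X × R) → ℤ, push (mv W Φ) (push Sum.inl φ) =
      push Sum.inl (push (fib Φ) φ) := by
    intro φ
    rw [push_push, push_push]
    rfl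
  have h2 : ∀ l, E (ρ.fullΦ hσ Φ l) = push (mv W Φ) (E (ρ.full hσ l)) := fun l =>
    E_permCongr _ _
  rw [sum_congr rfl fun l _ => h2 l, ← push_sum, sum_E_full]
  have h3 : ∀ a b c : Sym2 ((X × R) ⊕ W) → ℤ, push (mv W Φ) (a + b - c) =
      push (mv W Φ) a + push (mv W Φ) b - push (mv W Φ) c := fun a b c => by
    have := map_sub (pushHom (mv W Φ : (X × R) ⊕ W → (X × R) ⊕ W)) (a + b) c
    have h4 := map_add (pushHom (mv W Φ : (X × R) ⊕ W → (X × R) ⊕ W)) a b
    rw [h4] at this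
    exact this
  rw [h3, h1, h1, push_fib_blow, push_sum]
  congr 2
  refine sum_congr rfl fun w _ => ?_
  rw [push_add, push_add, push_add, push_mv_star, push_mv_star, push_mv_star, push_mv_star]

end Row

end SqIns
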