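import Pool.Agent.Lib.SqIns.Row

/-!
# The moves of a row

Gadgets in the row of a base square: the systems `i`, `j` have windows `(a b | c d)`, `(c d | e f)`,
the label direction of `j` is the slope of `a`.  All gadgets of the group have their place at the same
point `q = (a, yq)` and use the same letter `x` of the system `j`: the edges `q u`, `q v`, `p u` with
`p = (a, yp)`, `u = (c, zu)`, `v = (c, zv)` are used by the lifts in which the letters `v'`, `u'`, `u'`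
of the system `i` are exchanged with `c`, next to the letters `x`, `x`, `p'`.  Everything also in the
mirror version.
-/

open Finset Equiv

namespace SqIns

namespace Row

variable {X R I W : Type*} [Fintype X] [CommRing R] (ρ : Row X R I) (σ : W → I) (κ : W → R)

/-- the move on the left letter of a pair -/
def mL (l : R) (w w' : W) : Move ((X × R) ⊕ W) :=
  ⟨.inl (ρ.at' (σ w) (κ w) l (ρ.s⁻¹ (ρ.B (σ w)))), .inl (ρ.at' (σ w) (κ w) l (ρ.B (σ w))),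
    .inr w, .inl (ρ.at' (σ w) (κ w) l (ρ.s (ρ.B (σ w)))),
    .inl (ρ.at' (σ w) (κ w) l (ρ.s (ρ.s (ρ.B (σ w))))), .inr w'⟩

/-- the move on the right letter of a pair -/
def mR (l : R) (w w' : W) : Move ((X × R) ⊕ W) :=
  ⟨.inr w, .inl (ρ.at' (σ w') (κ w') l (ρ.s⁻¹ (ρ.B (σ w')))),
    .inl (ρ.at' (σ w') (κ w') l (ρ.B (σ w'))), .inr w',
    .inl (ρ.at' (σ w') (κ w') l (ρ.s (ρ.B (σ w')))),
    .inl (ρ.at' (σ w') (κ w') l (ρ.s (ρ.s (ρ.B (σ w')))))⟩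

/-- the letters `w`, `w'` of neighbouring systems are in the same pass of the lift `l` -/
def Pass (l : R) (w w' : W) : Prop := κ w' - ρ.cs (σ w') * l = κ w - ρ.cs (σ w) * l

theorem ne1 (x : X) : ρ.s x ≠ x := ρ.closed.ne1 (by have := ρ.card; omega) x

theorem ne2 (x : X) : ρ.s (ρ.s x) ≠ x := ρ.closed.ne2 (by have := ρ.card; omega) x

theorem ne3 (x : X) : ρ.s (ρ.s (ρ.s x)) ≠ x := ρ.closed.ne3 (by have := ρ.card; omega) x

theorem at'_ne {i j : I} {κ₁ κ₂ l : R} {x y : X} (h : x ≠ y) :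
    ρ.at' i κ₁ l x ≠ ρ.at' j κ₂ l y := fun h' => h (Prod.ext_iff.1 h').1

theorem at'_ne_label {i : I} {κ₁ κ₂ l : R} {x : X} (h : κ₁ ≠ κ₂) :
    ρ.at' i κ₁ l x ≠ ρ.at' i κ₂ l x := fun h' => h (add_right_cancel (Prod.ext_iff.1 h').2)

private theorem apply_inv'' {X : Type*} (s : Perm X) (x : X) : s (s⁻¹ x) = x := by simp

variable {σ κ}

/-- two left moves in the same lift but in different passes -/
theorem apart_LL (l : R) {w w' w₂ w₂' : W} (h1 : σ w₂ = σ w) (h2 : σ w₂' = σ w')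
    (hB : ρ.s (ρ.s (ρ.B (σ w))) = ρ.B (σ w')) (hp : ρ.Pass σ κ l w w')
    (hp₂ : ρ.Pass σ κ l w₂ w₂') (hne : κ w' ≠ κ w₂') :
    (ρ.mL σ κ l w w').Apart (ρ.mL σ κ l w₂ w₂') := by
  have hκ : κ w ≠ κ w₂ := by
    intro h
    apply hne
    unfold Pass at hp hp₂
    rw [h1, h2] at hp₂
    linear_combination hp - hp₂ + h
  have hσ : σ w ≠ σ w₂' := by
    intro h
    rw [h2] at h
    exact ρ.ne2 (ρ.B (σ w)) (by rw [hB, ← h])
  have hca : ρ.s (ρ.B (σ w)) ≠ ρ.s⁻¹ (ρ.B (σ w)) := by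
    intro h
    apply ρ.ne2 (ρ.s⁻¹ (ρ.B (σ w)))
    rw [apply_inv'', h]
  constructor
  · refine ⟨Sum.inr_ne_inl, Sum.inr_ne_inl, ?_, Sum.inr_ne_inl, Sum.inr_ne_inl, ?_⟩
    · intro h
      exact hκ (congrArg κ (Sum.inr_injective h))
    · intro h
      exact hσ (congrArg σ (Sum.inr_injective h))
  · refine ⟨?_, ?_, Sum.inl_ne_inr, ?_, ?_, Sum.inl_ne_inr⟩
    · intro h
      have h' := Sum.inl_injective h
      rw [h1] at h'
      exact ρ.at'_ne hca h'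
    · intro h
      have h' := Sum.inl_injective h
      rw [h1] at h'
      exact ρ.at'_ne (ρ.ne1 _) h'
    · intro h
      have h' := Sum.inl_injective h
      rw [h1] at h'
      exact ρ.at'_ne_label hκ h'
    · intro h
      have h' := Sum.inl_injective h
      rw [h1] at h'
      exact ρ.at'_ne (ρ.ne1 _).symm h'

/-- two right moves in the same lift but in different passes -/
theorem apart_RR (l : R) {w w' w₂ w₂' : W} (h1 : σ w₂ = σ w) (h2 : σ w₂' = σ w')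
    (hB : ρ.s (ρ.s (ρ.B (σ w))) = ρ.B (σ w')) (hp : ρ.Pass σ κ l w w')
    (hp₂ : ρ.Pass σ κ l w₂ w₂') (hne : κ w ≠ κ w₂) :
    (ρ.mR σ κ l w w').Apart (ρ.mR σ κ l w₂ w₂') := by
  have hκ : κ w' ≠ κ w₂' := by
    intro h
    apply hne
    unfold Pass at hp hp₂
    rw [h1, h2] at hp₂
    linear_combination hp₂ - hp + h
  have hσ : σ w' ≠ σ w₂ := by
    intro h
    rw [h1] at h
    exact ρ.ne2 (ρ.B (σ w)) (by rw [hB, h])
  constructor
  · refine ⟨Sum.inl_ne_inr, ?_, ?_, Sum.inl_ne_inr, ?_, ?_⟩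
    · intro h
      have h' := Sum.inl_injective h
      rw [h2] at h'
      refine ρ.at'_ne ?_ h'
      intro h''
      exact ρ.ne1 (ρ.B (σ w')) (by conv_lhs => rw [h'', apply_inv''])
    · intro h
      have h' := Sum.inl_injective h
      rw [h2] at h'
      exact ρ.at'_ne_label hκ h'
    · intro h
      have h' := Sum.inl_injective h
      rw [h2] at h'
      exact ρ.at'_ne (ρ.ne1 _).symm h'
    · intro h
      have h' := Sum.inl_injective h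
      rw [h2] at h'
      exact ρ.at'_ne (ρ.ne2 _).symm h'
  · refine ⟨?_, Sum.inr_ne_inl, Sum.inr_ne_inl, ?_, Sum.inr_ne_inl, Sum.inr_ne_inl⟩
    · intro h
      exact hσ (congrArg σ (Sum.inr_injective h))
    · intro h
      exact hκ (congrArg κ (Sum.inr_injective h))

/-- a left move and a right move at other columns -/
theorem apart_LR (l : R) {w w' w₂ w₂' : W} (h1 : σ w ≠ σ w₂) (h2 : σ w ≠ σ w₂')
    (ha : ρ.s (ρ.B (σ w)) ≠ ρ.s⁻¹ (ρ.B (σ w₂'))) (hb : ρ.s (ρ.B (σ w)) ≠ ρ.B (σ w₂'))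
    (hc : ρ.s (ρ.B (σ w)) ≠ ρ.s (ρ.B (σ w₂'))) (hd : ρ.s (ρ.B (σ w)) ≠ ρ.s (ρ.s (ρ.B (σ w₂')))) :
    (ρ.mL σ κ l w w').Apart (ρ.mR σ κ l w₂ w₂') := by
  constructor
  · exact ⟨fun h => h1 (congrArg σ (Sum.inr_injective h)), Sum.inr_ne_inl, Sum.inr_ne_inl,
      fun h => h2 (congrArg σ (Sum.inr_injective h)), Sum.inr_ne_inl, Sum.inr_ne_inl⟩
  · exact ⟨Sum.inl_ne_inr, fun h => ρ.at'_ne ha (Sum.inl_injective h),
      fun h => ρ.at'_ne hb (Sum.inl_injective h), Sum.inl_ne_inr,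
      fun h => ρ.at'_ne hc (Sum.inl_injective h), fun h => ρ.at'_ne hd (Sum.inl_injective h)⟩

/-- a right move and a left move at other columns -/
theorem apart_RL (l : R) {w w' w₂ w₂' : W} (h1 : σ w' ≠ σ w₂) (h2 : σ w' ≠ σ w₂')
    (ha : ρ.B (σ w') ≠ ρ.s⁻¹ (ρ.B (σ w₂))) (hb : ρ.B (σ w') ≠ ρ.B (σ w₂))
    (hc : ρ.B (σ w') ≠ ρ.s (ρ.B (σ w₂))) (hd : ρ.B (σ w') ≠ ρ.s (ρ.s (ρ.B (σ w₂)))) :
    (ρ.mR σ κ l w w').Apart (ρ.mL σ κ l w₂ w₂') := by
  constructor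
  · exact ⟨fun h => ρ.at'_ne ha (Sum.inl_injective h), fun h => ρ.at'_ne hb (Sum.inl_injective h),
      Sum.inl_ne_inr, fun h => ρ.at'_ne hc (Sum.inl_injective h),
      fun h => ρ.at'_ne hd (Sum.inl_injective h), Sum.inl_ne_inr⟩
  · exact ⟨Sum.inr_ne_inl, Sum.inr_ne_inl, fun h => h1 (congrArg σ (Sum.inr_injective h)),
      Sum.inr_ne_inl, Sum.inr_ne_inl, fun h => h2 (congrArg σ (Sum.inr_injective h))⟩

/-! ### The lift and the label of an edge -/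

/-- the lift in which the points over the first and the third column of the window have the levels
`y` and `z` -/
noncomputable def lf (i : I) (y z : R) : R :=
  (z - y) * Ring.inverse (ρ.col (ρ.s (ρ.B i)) - ρ.col (ρ.s⁻¹ (ρ.B i)))

/-- the label of this pass -/
noncomputable def lb (i : I) (y z : R) : R := y - (ρ.col (ρ.s⁻¹ (ρ.B i)) - ρ.cs i) * ρ.lf i y z

theorem lf_mul (i : I) (y z : R) :
    (ρ.col (ρ.s (ρ.B i)) - ρ.col (ρ.s⁻¹ (ρ.B i))) * ρ.lf i y z = z - y := by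
  have h : IsUnit (ρ.col (ρ.s (ρ.B i)) - ρ.col (ρ.s⁻¹ (ρ.B i))) := by
    have := ρ.unit2 (ρ.s⁻¹ (ρ.B i))
    rwa [apply_inv''] at this
  unfold lf
  rw [mul_comm (z - y), ← mul_assoc, Ring.mul_inverse_cancel _ h, one_mul]

theorem at_lb_a (i : I) (y z : R) :
    ρ.at' i (ρ.lb i y z) (ρ.lf i y z) (ρ.s⁻¹ (ρ.B i)) = (ρ.s⁻¹ (ρ.B i), y) := by
  unfold at' lb
  rw [sub_add_cancel]

theorem at_lb_c (i : I) (y z : R) :
    ρ.at' i (ρ.lb i y z) (ρ.lf i y z) (ρ.s (ρ.B i)) = (ρ.s (ρ.B i), z) := by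
  unfold at' lb
  congr 1
  linear_combination ρ.lf_mul i y z

theorem lf_injective (i : I) (y : R) : Function.Injective (ρ.lf i y) := by
  intro z z' h
  have h1 := ρ.lf_mul i y z
  rw [h, ρ.lf_mul i y z'] at h1
  exact (sub_left_injective h1).symm

theorem lb_injective (i : I) (y : R) : Function.Injective (ρ.lb i y) := by
  intro z z' h
  unfold lb at h
  have h1 : (ρ.col (ρ.s⁻¹ (ρ.B i)) - ρ.cs i) * ρ.lf i y z =
      (ρ.col (ρ.s⁻¹ (ρ.B i)) - ρ.cs i) * ρ.lf i y z' := sub_right_injective h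
  exact ρ.lf_injective i y ((ρ.ua i).mul_left_cancel h1)

/-- mirror version: the lift in which the points over the fourth and the second column of the window
have the levels `y` and `z` -/
noncomputable def lf' (i : I) (y z : R) : R :=
  (z - y) * Ring.inverse (ρ.col (ρ.B i) - ρ.col (ρ.s (ρ.s (ρ.B i))))

/-- the label of this pass -/
noncomputable def lb' (i : I) (y z : R) : R := y - (ρ.col (ρ.s (ρ.s (ρ.B i))) - ρ.cs i) * ρ.lf' i y z

theorem lf'_mul (i : I) (y z : R) :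
    (ρ.col (ρ.B i) - ρ.col (ρ.s (ρ.s (ρ.B i)))) * ρ.lf' i y z = z - y := by
  have h : IsUnit (ρ.col (ρ.B i) - ρ.col (ρ.s (ρ.s (ρ.B i)))) := by
    have := (ρ.unit2 (ρ.B i)).neg
    rwa [neg_sub] at this
  unfold lf'
  rw [mul_comm (z - y), ← mul_assoc, Ring.mul_inverse_cancel _ h, one_mul]

theorem at_lb'_d (i : I) (y z : R) :
    ρ.at' i (ρ.lb' i y z) (ρ.lf' i y z) (ρ.s (ρ.s (ρ.B i))) = (ρ.s (ρ.s (ρ.B i)), y) := by
  unfold at' lb'
  rw [sub_add_cancel]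

theorem at_lb'_b (i : I) (y z : R) :
    ρ.at' i (ρ.lb' i y z) (ρ.lf' i y z) (ρ.B i) = (ρ.B i, z) := by
  unfold at' lb'
  congr 1
  linear_combination ρ.lf'_mul i y z

theorem lf'_injective (i : I) (y : R) : Function.Injective (ρ.lf' i y) := by
  intro z z' h
  have h1 := ρ.lf'_mul i y z
  rw [h, ρ.lf'_mul i y z'] at h1
  exact (sub_left_injective h1).symm

theorem lb'_injective (i : I) (y : R) : Function.Injective (ρ.lb' i y) := by
  intro z z' h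
  unfold lb' at h
  have h1 : (ρ.col (ρ.s (ρ.s (ρ.B i))) - ρ.cs i) * ρ.lf' i y z =
      (ρ.col (ρ.s (ρ.s (ρ.B i))) - ρ.cs i) * ρ.lf' i y z' := sub_right_injective h
  exact ρ.lf'_injective i y ((ρ.ud i).mul_left_cancel h1)

/-! ### The group of gadgets with a common point and a common letter -/

/-- The data of a group: the levels `yq` (common) and `yp g` over the outer column, `zu g`, `zv g` over
the inner column, the letters `x` (common), `p' g` of the system `j` and `u' g`, `v' g` of the system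
`i`. -/
structure Gad (R W G : Type*) where
  yq : R
  x : W
  yp : G → R
  zu : G → R
  zv : G → R
  p' : G → W
  u' : G → W
  v' : G → W

variable {G : Type*} (D : Gad R W G)

/-- the labels fit, left version -/
structure FitsL (σ : W → I) (κ : W → R) (i j : I) : Prop where
  adj : ρ.s (ρ.s (ρ.B i)) = ρ.B j
  dir : ρ.cs j = ρ.col (ρ.s⁻¹ (ρ.B i))
  σx : σ D.x = j
  κx : κ D.x = D.yq
  σp : ∀ g, σ (D.p' g) = j
  κp : ∀ g, κ (D.p' g) = D.yp g
  σu : ∀ g, σ (D.u' g) = i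
  σv : ∀ g, σ (D.v' g) = i
  κv : ∀ g, κ (D.v' g) = ρ.lb i D.yq (D.zu g)
  κu : ∀ g, κ (D.u' g) = ρ.lb i D.yq (D.zv g)
  κu' : ∀ g, κ (D.u' g) = ρ.lb i (D.yp g) (D.zu g)
  inj_p : Function.Injective D.yp
  ne_p : ∀ g, D.yp g ≠ D.yq
  inj_u : Function.Injective D.zu
  inj_v : Function.Injective D.zv
  ne_uv : ∀ g g', D.zu g ≠ D.zv g'

/-- the lift of the move number `n` of the gadget `g` -/
noncomputable def lift3L (i : I) (z : G × Fin 3) : R := match z.2 with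
  | 0 => ρ.lf i D.yq (D.zu z.1)
  | 1 => ρ.lf i (D.yp z.1) (D.zu z.1)
  | 2 => ρ.lf i D.yq (D.zv z.1)

/-- the `i`-letter of the move number `n` of the gadget `g` -/
def ltX (z : G × Fin 3) : W := match z.2 with
  | 0 => D.v' z.1
  | 1 => D.u' z.1
  | 2 => D.u' z.1

/-- the `j`-letter of the move number `n` of the gadget `g` -/
def ltY (z : G × Fin 3) : W := match z.2 with
  | 0 => D.x
  | 1 => D.p' z.1
  | 2 => D.x

/-- the moves, left version -/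
noncomputable def move3L (σ : W → I) (κ : W → R) (i : I) (z : G × Fin 3) : Move ((X × R) ⊕ W) :=
  ρ.mL σ κ (ρ.lift3L D i z) (ltX D z) (ltY D z)

variable {D} {i j : I}

theorem FitsL.σI (h : ρ.FitsL D σ κ i j) (z : G × Fin 3) : σ (ltX D z) = i := by
  obtain ⟨g, n⟩ := z
  fin_cases n
  · exact h.σv g
  · exact h.σu g
  · exact h.σu g

theorem FitsL.σJ (h : ρ.FitsL D σ κ i j) (z : G × Fin 3) : σ (ltY D z) = j := by
  obtain ⟨g, n⟩ := z
  fin_cases n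
  · exact h.σx
  · exact h.σp g
  · exact h.σx

theorem FitsL.pass (h : ρ.FitsL D σ κ i j) (z : G × Fin 3) :
    ρ.Pass σ κ (ρ.lift3L D i z) (ltX D z) (ltY D z) := by
  unfold Pass
  rw [h.σI, h.σJ, h.dir]
  obtain ⟨g, n⟩ := z
  fin_cases n
  · show κ D.x - _ * ρ.lf i D.yq (D.zu g) = κ (D.v' g) - _ * ρ.lf i D.yq (D.zu g)
    rw [h.κx, h.κv]
    unfold lb
    ring
  · show κ (D.p' g) - _ * ρ.lf i (D.yp g) (D.zu g) = κ (D.u' g) - _ * ρ.lf i (D.yp g) (D.zu g)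
    rw [h.κp, h.κu']
    unfold lb
    ring
  · show κ D.x - _ * ρ.lf i D.yq (D.zv g) = κ (D.u' g) - _ * ρ.lf i D.yq (D.zv g)
    rw [h.κx, h.κu]
    unfold lb
    ring

theorem FitsL.move_in [DecidableEq X] [DecidableEq R] [DecidableEq W]
    (h : ρ.FitsL D σ κ i j) (hσ : Function.Injective fun w => (σ w, κ w)) (z : G × Fin 3) :
    (ρ.move3L D σ κ i z).In (ρ.full hσ (ρ.lift3L D i z)) :=
  ρ.move_left hσ _ (by rw [h.σI, h.σJ, h.adj]) (h.pass ρ z)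

theorem FitsL.apart (h : ρ.FitsL D σ κ i j) (z z' : G × Fin 3) (hne : z ≠ z')
    (hl : ρ.lift3L D i z = ρ.lift3L D i z') :
    (ρ.move3L D σ κ i z).Apart (ρ.move3L D σ κ i z') := by
  unfold move3L
  rw [← hl]
  refine ρ.apart_LL _ (by rw [h.σI, h.σI]) (by rw [h.σJ, h.σJ]) (by rw [h.σI, h.σJ, h.adj])
    (h.pass ρ z) (by rw [hl]; exact h.pass ρ z') ?_
  obtain ⟨g, n⟩ := z
  obtain ⟨g', n'⟩ := z'
  fin_cases n <;> fin_cases n'
  · exact absurd (Prod.ext (h.inj_u (ρ.lf_injective i _ hl)) rfl) hne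
  · show κ D.x ≠ κ (D.p' g')
    rw [h.κx, h.κp]
    exact (h.ne_p g').symm
  · exact absurd (ρ.lf_injective i _ hl) (h.ne_uv g g')
  · show κ (D.p' g) ≠ κ D.x
    rw [h.κx, h.κp]
    exact h.ne_p g
  · show κ (D.p' g) ≠ κ (D.p' g')
    rw [h.κp, h.κp]
    intro h'
    exact hne (Prod.ext (h.inj_p h') rfl)
  · show κ (D.p' g) ≠ κ D.x
    rw [h.κx, h.κp]
    exact h.ne_p g
  · exact absurd (ρ.lf_injective i _ hl) (h.ne_uv g' g).symm
  · show κ D.x ≠ κ (D.p' g')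
    rw [h.κx, h.κp]
    exact (h.ne_p g').symm
  · exact absurd (Prod.ext (h.inj_v (ρ.lf_injective i _ hl)) rfl) hne

variable [DecidableEq X] [DecidableEq R] [DecidableEq W]

/-- the change of the edges by the three moves of a gadget -/
theorem FitsL.sum_Δ (h : ρ.FitsL D σ κ i j) (g : G) :
    (ρ.move3L D σ κ i (g, 0)).Δ + (ρ.move3L D σ κ i (g, 1)).Δ + (ρ.move3L D σ κ i (g, 2)).Δ =
      (- pr (Sum.inl (ρ.s⁻¹ (ρ.B i), D.yq)) (Sum.inr (D.v' g)) -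
        pr (Sum.inl (ρ.s (ρ.B i), D.zu g)) (Sum.inr D.x) +
        pr (Sum.inl (ρ.s⁻¹ (ρ.B i), D.yq)) (Sum.inl (ρ.s (ρ.B i), D.zu g)) +
        pr (Sum.inr (D.v' g)) (Sum.inr D.x)) +
      (- pr (Sum.inl (ρ.s⁻¹ (ρ.B i), D.yp g)) (Sum.inr (D.u' g)) -
        pr (Sum.inl (ρ.s (ρ.B i), D.zu g)) (Sum.inr (D.p' g)) +
        pr (Sum.inl (ρ.s⁻¹ (ρ.B i), D.yp g)) (Sum.inl (ρ.s (ρ.B i), D.zu g)) +
        pr (Sum.inr (D.u' g)) (Sum.inr (D.p' g))) +
      (- pr (Sum.inl (ρ.s⁻¹ (ρ.B i), D.yq)) (Sum.inr (D.u' g)) -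
        pr (Sum.inl (ρ.s (ρ.B i), D.zv g)) (Sum.inr D.x) +
        pr (Sum.inl (ρ.s⁻¹ (ρ.B i), D.yq)) (Sum.inl (ρ.s (ρ.B i), D.zv g)) +
        pr (Sum.inr (D.u' g)) (Sum.inr D.x)) := by
  have e0 : (ρ.move3L D σ κ i (g, 0)).Δ =
      (- pr (Sum.inl (ρ.s⁻¹ (ρ.B i), D.yq)) (Sum.inr (D.v' g)) -
        pr (Sum.inl (ρ.s (ρ.B i), D.zu g)) (Sum.inr D.x) +
        pr (Sum.inl (ρ.s⁻¹ (ρ.B i), D.yq)) (Sum.inl (ρ.s (ρ.B i), D.zu g)) +
        pr (Sum.inr (D.v' g)) (Sum.inr D.x)) := by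
    simp only [move3L, mL, Move.Δ, ltX, ltY, lift3L, h.σv, h.κv, at_lb_a, at_lb_c]
  have e1 : (ρ.move3L D σ κ i (g, 1)).Δ =
      (- pr (Sum.inl (ρ.s⁻¹ (ρ.B i), D.yp g)) (Sum.inr (D.u' g)) -
        pr (Sum.inl (ρ.s (ρ.B i), D.zu g)) (Sum.inr (D.p' g)) +
        pr (Sum.inl (ρ.s⁻¹ (ρ.B i), D.yp g)) (Sum.inl (ρ.s (ρ.B i), D.zu g)) +
        pr (Sum.inr (D.u' g)) (Sum.inr (D.p' g))) := by
    simp only [move3L, mL, Move.Δ, ltX, ltY, lift3L, h.σu, h.κu', at_lb_a, at_lb_c]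
  have e2 : (ρ.move3L D σ κ i (g, 2)).Δ =
      (- pr (Sum.inl (ρ.s⁻¹ (ρ.B i), D.yq)) (Sum.inr (D.u' g)) -
        pr (Sum.inl (ρ.s (ρ.B i), D.zv g)) (Sum.inr D.x) +
        pr (Sum.inl (ρ.s⁻¹ (ρ.B i), D.yq)) (Sum.inl (ρ.s (ρ.B i), D.zv g)) +
        pr (Sum.inr (D.u' g)) (Sum.inr D.x)) := by
    simp only [move3L, mL, Move.Δ, ltX, ltY, lift3L, h.σu, h.κu, at_lb_a, at_lb_c]
  rw [e0, e1, e2]

end Row

end SqIns
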