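import Pool.Agent.Lib.SqIns.Splice2

/-!
# The splice theorem with several splices in one square

Every square `r i` may consist of several cycles; each splice joins one more cycle to the hub.
-/

open Finset Equiv

namespace SqIns

section Join

variable {V : Type*} [DecidableEq V] [Fintype V]

theorem splice_aux' (r : Perm V) {q q' : V} (hne : ¬ r.SameCycle q q') {x : V}
    (hx : r.SameCycle q x) : (swap (r q) (r q') * r).SameCycle (r q) x := by
  classical
  set s' := swap (r q) (r q') * r with hs'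
  have eo : ∀ x, x ≠ q → x ≠ q' → s' x = r x := by
    intro x hx hx'
    show swap (r q) (r q') (r x) = r x
    rw [swap_apply_of_ne_of_ne]
    · exact fun h => hx (r.injective h)
    · exact fun h => hx' (r.injective h)
  have hx' : r.SameCycle (r q) x := by
    rw [Perm.sameCycle_apply_left]; exact hx
  have hex : ∃ n : ℕ, (r ^ n) (r q) = x := by
    obtain ⟨n, hn⟩ := hx'.exists_nat_pow_eq
    exact ⟨n, hn⟩
  obtain ⟨n, hn, hlt⟩ : ∃ n : ℕ, (r ^ n) (r q) = x ∧ ∀ m < n, (r ^ m) (r q) ≠ x :=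
    ⟨Nat.find hex, Nat.find_spec hex, fun m hm => Nat.find_min hex hm⟩
  have hmin : ∀ i, i < n → (r ^ i) (r q) ≠ q := by
    intro i hi h
    have h1 : (r ^ (i + 1)) (r q) = r q := by rw [pow_succ', Perm.mul_apply, h]
    have h2 : (r ^ (n - (i + 1))) (r q) = x := by
      rw [← hn]
      conv_rhs => rw [show n = (n - (i + 1)) + (i + 1) by omega, pow_add,
        Perm.mul_apply, h1]
    exact hlt _ (by omega) h2
  have hall : ∀ i, i ≤ n → (s' ^ i) (r q) = (r ^ i) (r q) := by
    intro i
    induction i with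
    | zero => intro _; rfl
    | succ i ih =>
      intro hi
      rw [pow_succ', Perm.mul_apply, ih (by omega), pow_succ', Perm.mul_apply]
      refine eo _ (hmin i (by omega)) fun h => hne ?_
      refine ⟨((i + 1 : ℕ) : ℤ), ?_⟩
      rw [zpow_natCast, pow_succ, Perm.mul_apply]
      exact h
  refine ⟨(n : ℤ), ?_⟩
  rw [zpow_natCast, hall _ le_rfl, hn]

/-- the cycles of `r` are the fibres of `κ` -/
def Comps {C : Type*} (r : Perm V) (κ : V → C) : Prop := ∀ x y, r.SameCycle x y ↔ κ x = κ y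

/-- a splice joins two cycles and leaves the others alone -/
theorem Comps.join {C : Type*} [DecidableEq C] {r : Perm V} {κ : V → C} (h : Comps r κ) {q q' : V}
    (hqq : κ q ≠ κ q') :
    Comps (swap (r q) (r q') * r) (fun x => if κ x = κ q then κ q' else κ x) := by
  classical
  have hne : ¬ r.SameCycle q q' := fun h' => hqq ((h _ _).1 h')
  set r' := swap (r q) (r q') * r with hr'
  have hrκ : ∀ x, κ (r x) = κ x := fun x => ((h _ _).1 (Perm.sameCycle_apply_left.2
    (Perm.SameCycle.refl r x)))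
  have eq1 : r' q = r q' := by
    show swap (r q) (r q') (r q) = _
    rw [swap_apply_left]
  have eq2 : r' q' = r q := by
    show swap (r q) (r q') (r q') = _
    rw [swap_apply_right]
  have eo : ∀ x, x ≠ q → x ≠ q' → r' x = r x := by
    intro x hx hx'
    show swap (r q) (r q') (r x) = r x
    rw [swap_apply_of_ne_of_ne]
    · exact fun h => hx (r.injective h)
    · exact fun h => hx' (r.injective h)
  set κ' : V → C := fun x => if κ x = κ q then κ q' else κ x with hκ'
  have hκq : κ' q = κ q' := by simp [hκ']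
  have hκq' : κ' q' = κ q' := by simp [hκ', Ne.symm hqq]
  have hκr : ∀ x, κ' (r x) = κ' x := fun x => by simp only [hκ', hrκ]
  have hinv : ∀ x, κ' (r' x) = κ' x := by
    intro x
    by_cases h1 : x = q
    · subst h1; rw [eq1, hκr, hκq, hκq']
    · by_cases h2 : x = q'
      · subst h2; rw [eq2, hκr, hκq, hκq']
      · rw [eo x h1 h2, hκr]
  have hpow : ∀ (n : ℕ) x, κ' ((r' ^ n) x) = κ' x := by
    intro n
    induction n with
    | zero => intro x; rfl
    | succ n ih => intro x; rw [pow_succ', Perm.mul_apply, hinv, ih]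
  intro x y
  constructor
  · intro hxy
    obtain ⟨n, hn⟩ := hxy.exists_nat_pow_eq
    rw [← hn, hpow]
  · intro hxy
    have key : ∀ x, κ x = κ q ∨ κ x = κ q' → r'.SameCycle (r q) x := by
      have a1 : r'.SameCycle (r q) q := splice_aux' r hne (Perm.SameCycle.refl _ _)
      have a2 : r'.SameCycle q (r q') := ⟨1, by rw [zpow_one, eq1]⟩
      intro x hx
      rcases hx with hx | hx
      · exact splice_aux' r hne ((h _ _).2 hx.symm)
      · have := splice_aux' r (q := q') (q' := q) (fun h' => hne h'.symm) ((h _ _).2 hx.symm)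
        rw [swap_comm] at this
        exact (a1.trans a2).trans this
    have hor : ∀ x, κ' x = κ q' → κ x = κ q ∨ κ x = κ q' := by
      intro x hx
      by_cases h1 : κ x = κ q
      · exact Or.inl h1
      · right
        simpa [hκ', h1] using hx
    by_cases hx : κ' x = κ q'
    · exact (key x (hor x hx)).symm.trans (key y (hor y (hxy ▸ hx)))
    · have hx1 : κ x ≠ κ q ∧ κ x ≠ κ q' := by
        constructor
        · intro h1; exact hx (by simp [hκ', h1])
        · intro h1
          by_cases h2 : κ x = κ q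
          · exact hx (by simp [hκ', h2])
          · exact hx (by simp [hκ', h2, h1])
      have hy1 : κ x = κ y := by
        have hx2 : κ' x = κ x := by simp [hκ', hx1.1]
        by_cases h2 : κ y = κ q
        · exfalso; apply hx; rw [hxy]; simp [hκ', h2]
        · have : κ' y = κ y := by simp [hκ', h2]
          rw [← hx2, ← this, hxy]
      obtain ⟨n, hn⟩ := ((h _ _).2 hy1).exists_nat_pow_eq
      have hκn : ∀ i : ℕ, κ ((r ^ i) x) = κ x := by
        intro i
        induction i with
        | zero => rfl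
        | succ i ih => rw [pow_succ', Perm.mul_apply, hrκ, ih]
      have : ∀ i : ℕ, (r' ^ i) x = (r ^ i) x := by
        intro i
        induction i with
        | zero => rfl
        | succ i ih =>
          rw [pow_succ', Perm.mul_apply, ih, pow_succ', Perm.mul_apply]
          refine eo _ (fun h' => ?_) (fun h' => ?_)
          · exact hx1.1 (by rw [← hκn i, h'])
          · exact hx1.2 (by rw [← hκn i, h'])
      exact ⟨(n : ℤ), by rw [zpow_natCast, this, hn]⟩

end Join

/-- Places of a splice: `p q u v` in one cycle, `x₃ x₀ x₁ x₂` in the other. -/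
structure Place (U : Type*) where
  p : U
  q : U
  u : U
  v : U
  x₃ : U
  x₀ : U
  x₁ : U
  x₂ : U

variable {U : Type*} [DecidableEq U]

def Place.In (P : Place U) (r : Perm U) : Prop :=
  r P.p = P.q ∧ r P.q = P.u ∧ r P.u = P.v ∧ r P.x₃ = P.x₀ ∧ r P.x₀ = P.x₁ ∧ r P.x₁ = P.x₂

/-- the sum of the changes of the three moves of the splice -/
def Place.Γ (P : Place U) : Sym2 U → ℤ :=
  (- pr P.x₀ P.u - pr P.x₁ P.q + pr P.x₀ P.x₁ + pr P.u P.q) +
  (- pr P.x₃ P.u - pr P.x₁ P.p + pr P.x₃ P.x₁ + pr P.u P.p) +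
  (- pr P.x₀ P.v - pr P.x₂ P.q + pr P.x₀ P.x₂ + pr P.v P.q)

variable [Fintype U]

/-- several splices in one square -/
theorem multi_splice {Z : Type*} [DecidableEq Z] (S : Finset Z) (P : Z → Place U)
    (r : Perm U) (κ : U → Option Z) (hκ : Comps r κ)
    (hq : ∀ z ∈ S, κ (P z).q = some z) (hx : ∀ z ∈ S, κ (P z).x₀ = none)
    (hin : ∀ z ∈ S, (P z).In r)
    (hqu : ∀ z ∈ S, (P z).q ≠ (P z).u) (hxx : ∀ z ∈ S, (P z).x₀ ≠ (P z).x₁)
    (hap : ∀ z ∈ S, ∀ z' ∈ S, z ≠ z' →
      (P z').x₀ ≠ (P z).x₃ ∧ (P z').x₀ ≠ (P z).x₀ ∧ (P z').x₀ ≠ (P z).x₁) :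
    ∃ (r' : Perm U) (κ' : U → Option Z), Comps r' κ' ∧
      (∀ x, (∃ z ∈ S, κ x = some z) → κ' x = none) ∧
      (∀ x, (¬ ∃ z ∈ S, κ x = some z) → κ' x = κ x) ∧
      (∀ x, (∀ z ∈ S, x ≠ (P z).q ∧ x ≠ (P z).x₀) → r' x = r x) ∧
      E r' = E r - ∑ z ∈ S, (P z).Γ := by
  classical
  induction S using Finset.induction_on with
  | empty => exact ⟨r, κ, hκ, by simp, fun _ _ => rfl, fun _ _ => rfl, by simp⟩
  | insert z S hz ih =>
    obtain ⟨r', κ₁, h1, h5, h6, h2, h3⟩ := ih (fun z' h => hq z' (mem_insert_of_mem h))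
      (fun z' h => hx z' (mem_insert_of_mem h)) (fun z' h => hin z' (mem_insert_of_mem h))
      (fun z' h => hqu z' (mem_insert_of_mem h)) (fun z' h => hxx z' (mem_insert_of_mem h))
      (fun z' h z'' h' => hap z' (mem_insert_of_mem h) z'' (mem_insert_of_mem h'))
    have hzz := mem_insert_self z S
    have hrκ : ∀ x, κ (r x) = κ x := fun x => ((hκ _ _).1 (Perm.sameCycle_apply_left.2
      (Perm.SameCycle.refl r x)))
    obtain ⟨i1, i2, i3, i4, i5, i6⟩ := hin z hzz
    have kq := hq z hzz
    have kx := hx z hzz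
    have kp : κ (P z).p = some z := by rw [← hrκ, i1]; exact kq
    have ku : κ (P z).u = some z := by rw [← i2, hrκ]; exact kq
    have kx3 : κ (P z).x₃ = none := by rw [← hrκ, i4]; exact kx
    have kx1 : κ (P z).x₁ = none := by rw [← i5, hrκ]; exact kx
    -- the places are unchanged
    have hold : ∀ x, (κ x = some z ∨ (x = (P z).x₃ ∨ x = (P z).x₀ ∨ x = (P z).x₁)) →
        r' x = r x := by
      intro x hx'
      refine h2 x fun z' hz' => ?_
      have hne : z ≠ z' := fun h => hz (h ▸ hz')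
      have kq' := hq z' (mem_insert_of_mem hz')
      have kx' := hx z' (mem_insert_of_mem hz')
      obtain ⟨b1, b2, b3⟩ := hap z hzz z' (mem_insert_of_mem hz') hne
      rcases hx' with hx' | hx' | hx' | hx'
      · constructor
        · intro h; rw [h, kq'] at hx'; exact hne (Option.some.inj hx').symm
        · intro h; rw [h, kx'] at hx'; cases hx'
      · subst hx'
        exact ⟨fun h => (by rw [h, kq'] at kx3; cases kx3), fun h => b1 h.symm⟩
      · subst hx'
        exact ⟨fun h => (by rw [h, kq'] at kx; cases kx), fun h => b2 h.symm⟩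
      · subst hx'
        exact ⟨fun h => (by rw [h, kq'] at kx1; cases kx1), fun h => b3 h.symm⟩
    have j1 : r' (P z).p = (P z).q := by rw [hold _ (Or.inl kp), i1]
    have j2 : r' (P z).q = (P z).u := by rw [hold _ (Or.inl kq), i2]
    have j3 : r' (P z).u = (P z).v := by rw [hold _ (Or.inl ku), i3]
    have j4 : r' (P z).x₃ = (P z).x₀ := by rw [hold _ (Or.inr (Or.inl rfl)), i4]
    have j5 : r' (P z).x₀ = (P z).x₁ := by rw [hold _ (Or.inr (Or.inr (Or.inl rfl))), i5]
    have j6 : r' (P z).x₁ = (P z).x₂ := by rw [hold _ (Or.inr (Or.inr (Or.inr rfl))), i6]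
    have kq1 : κ₁ (P z).q = some z := by
      rw [h6 _ ?_, kq]
      rw [kq]
      rintro ⟨z', hz', h⟩
      exact hz (Option.some.inj h ▸ hz')
    have kx1' : κ₁ (P z).x₀ = none := by
      rw [h6 _ ?_, kx]
      rw [kx]
      rintro ⟨z', _, h⟩
      cases h
    have hne : κ₁ (P z).q ≠ κ₁ (P z).x₀ := by rw [kq1, kx1']; simp
    have h4 := h1.join hne
    rw [kq1, kx1'] at h4
    have hnq : (P z).q ≠ (P z).x₀ := fun h => hne (by rw [h])
    have hux : (P z).u ≠ (P z).x₀ := fun h => by rw [h, kx] at ku; cases ku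
    have hxq : (P z).x₁ ≠ (P z).q := fun h => by rw [h, kq] at kx1; cases kx1
    refine ⟨swap (P z).u (P z).x₁ * r', fun x => if κ₁ x = some z then none else κ₁ x,
      ?_, ?_, ?_, ?_, ?_⟩
    · rw [← j2, ← j5]
      exact h4
    · rintro x ⟨z', hz', hc⟩
      show (if κ₁ x = some z then none else κ₁ x) = none
      rw [mem_insert] at hz'
      rcases hz' with rfl | hz'
      · rw [if_pos]
        rw [h6 _ ?_, hc]
        rw [hc]
        rintro ⟨z'', hz'', h⟩
        exact hz (Option.some.inj h ▸ hz'')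
      · rw [h5 x ⟨z', hz', hc⟩]
        split_ifs <;> rfl
    · intro x hc
      show (if κ₁ x = some z then none else κ₁ x) = κ x
      have hc' : ¬ ∃ z ∈ S, κ x = some z := fun ⟨z', hz', h⟩ => hc ⟨z', mem_insert_of_mem hz', h⟩
      rw [h6 x hc', if_neg]
      exact fun h => hc ⟨z, hzz, h⟩
    · intro x hx'
      obtain ⟨c1, c2⟩ := hx' z hzz
      rw [Perm.mul_apply, swap_apply_of_ne_of_ne, h2 x fun z' hz' => hx' z' (mem_insert_of_mem hz')]
      · rw [← j2]; exact fun h => c1 (r'.injective h)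
      · rw [← j5]; exact fun h => c2 (r'.injective h)
    · rw [E_splice r' j1 j2 j3 j4 j5 j6 hnq (hqu z hzz) (hxx z hzz) hux hxq, h3,
        sum_insert hz]
      unfold Place.Γ
      rw [pr_comm (P z).u (P z).q, pr_comm (P z).u (P z).p, pr_comm (P z).v (P z).q,
        pr_comm (P z).x₁ (P z).q, pr_comm (P z).x₁ (P z).p, pr_comm (P z).x₂ (P z).q]
      abel

/-- **The splice theorem**, with several cycles in the squares of `r` and several exchanges in the
squares of `l`. -/
theorem splice_theorem3 {Λ T Z : Type*} [Fintype Λ] [Fintype T] [Fintype Z] [DecidableEq Λ]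
    [DecidableEq T] [DecidableEq Z] (hc : 5 < Fintype.card U)
    (l : Λ → Perm U) (hl : ∀ a, Closed (l a)) (r : T → Perm U)
    (hsum : ∑ a, E (l a) + ∑ i, E (r i) = allPairs U)
    (sq : Z → T) (P : Z → Place U) (κ : T → U → Option Z) (hκ : ∀ i, Comps (r i) (κ i))
    (hsq : ∀ i x z, κ i x = some z → sq z = i)
    (hq : ∀ z, κ (sq z) (P z).q = some z) (hx : ∀ z, κ (sq z) (P z).x₀ = none)
    (hinP : ∀ z, (P z).In (r (sq z)))
    (hqu : ∀ z, (P z).q ≠ (P z).u) (hxx : ∀ z, (P z).x₀ ≠ (P z).x₁)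
    (hapP : ∀ z z', sq z = sq z' → z ≠ z' →
      (P z').x₀ ≠ (P z).x₃ ∧ (P z').x₀ ≠ (P z).x₀ ∧ (P z').x₀ ≠ (P z).x₁)
    (g : Z × Fin 3 → Λ) (m : Z × Fin 3 → Move U)
    (hin : ∀ z, (m z).In (l (g z)))
    (hap : ∀ z z', z ≠ z' → g z = g z' → (m z).Apart (m z'))
    (hΔ : ∀ z, (m (z, 0)).Δ + (m (z, 1)).Δ + (m (z, 2)).Δ = (P z).Γ) :
    ∃ s : Λ ⊕ T → Perm U, Dec s := by
  classical
  obtain ⟨L, hLc, hLE⟩ := multi_exch_family l hl hc m g hin hap
  have h : ∀ i, ∃ r' : Perm U, Closed r' ∧
      E r' = E (r i) - ∑ z ∈ univ.filter (fun z => sq z = i), (P z).Γ := by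
    intro i
    obtain ⟨r', κ', h1, h5, h6, _, h3⟩ := multi_splice (univ.filter (fun z => sq z = i)) P (r i)
      (κ i) (hκ i)
      (fun z hz => by rw [mem_filter] at hz; rw [← hz.2]; exact hq z)
      (fun z hz => by rw [mem_filter] at hz; rw [← hz.2]; exact hx z)
      (fun z hz => by rw [mem_filter] at hz; rw [← hz.2]; exact hinP z)
      (fun z _ => hqu z) (fun z _ => hxx z)
      (fun z hz z' hz' hne => by
        rw [mem_filter] at hz hz'; exact hapP z z' (by rw [hz.2, hz'.2]) hne)
    have hall : ∀ x, κ' x = none := by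
      intro x
      by_cases hcx : ∃ z ∈ univ.filter (fun z => sq z = i), κ i x = some z
      · exact h5 x hcx
      · rw [h6 x hcx]
        by_contra hne
        obtain ⟨z, hz⟩ := Option.ne_none_iff_exists'.1 hne
        exact hcx ⟨z, by simp [hsq i x z hz], hz⟩
    exact ⟨r', fun x y => (h1 x y).2 (by rw [hall x, hall y]), h3⟩
  choose R hRc hRE using h
  refine ⟨Sum.elim L R, ⟨?_, ?_⟩⟩
  · rintro (a | i)
    · exact hLc a
    · exact hRc i
  · rw [Fintype.sum_sum_type]
    simp only [Sum.elim_inl, Sum.elim_inr]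
    have e1 : ∑ i, ∑ z ∈ univ.filter (fun z => sq z = i), (P z).Γ = ∑ z, (P z).Γ :=
      Finset.sum_fiberwise_of_maps_to (fun _ _ => mem_univ _) _
    have e2 : ∑ z : Z × Fin 3, (m z).Δ = ∑ z, (P z).Γ := by
      rw [Fintype.sum_prod_type]
      refine sum_congr rfl fun z _ => ?_
      rw [← hΔ z, Fin.sum_univ_three]
    rw [hLE, sum_congr rfl fun i _ => hRE i, sum_sub_distrib, e1, e2, ← hsum]
    abel

end SqIns
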