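import Pool.Agent.Lib.SqIns.Row2
import Pool.Agent.Lib.SqIns.Splice3

/-!
# The moves of a row: places, mirror version, version at infinity, bijections
-/

open Finset Equiv

namespace SqIns

/-! ### Moves and places seen through a bijection -/

section Map

variable {U U' : Type*}

/-- the place seen through a bijection -/
def Place.map (e : U ≃ U') (P : Place U) : Place U' :=
  ⟨e P.p, e P.q, e P.u, e P.v, e P.x₃, e P.x₀, e P.x₁, e P.x₂⟩

variable [DecidableEq U] [DecidableEq U']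

theorem Move.Apart.map {m m' : Move U} (h : m.Apart m') (e : U ≃ U') :
    (m.map e).Apart (m'.map e) := by
  obtain ⟨⟨a1, a2, a3, a4, a5, a6⟩, ⟨b1, b2, b3, b4, b5, b6⟩⟩ := h
  exact ⟨⟨e.injective.ne a1, e.injective.ne a2, e.injective.ne a3, e.injective.ne a4,
    e.injective.ne a5, e.injective.ne a6⟩, ⟨e.injective.ne b1, e.injective.ne b2,
    e.injective.ne b3, e.injective.ne b4, e.injective.ne b5, e.injective.ne b6⟩⟩

variable [Fintype U]

theorem push_neg' (e : U ≃ U') (φ : Sym2 U → ℤ) : push e (-φ) = - push e φ :=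
  map_neg (pushHom (e : U → U')) φ

theorem push_sub' (e : U ≃ U') (φ ψ : Sym2 U → ℤ) : push e (φ - ψ) = push e φ - push e ψ :=
  map_sub (pushHom (e : U → U')) φ ψ

theorem Move.Δ_map (m : Move U) (e : U ≃ U') : (m.map e).Δ = push e m.Δ := by
  unfold Move.Δ Move.map
  simp only [push_add, push_sub', push_neg', push_pr e.injective]

theorem Place.Γ_map (P : Place U) (e : U ≃ U') : (P.map e).Γ = push e P.Γ := by
  unfold Place.Γ Place.map
  simp only [push_add, push_sub', push_neg', push_pr e.injective]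

end Map

namespace Row

variable {X R I W : Type*} [Fintype X] [CommRing R] (ρ : Row X R I) {σ : W → I} {κ : W → R}
  {G : Type*} (D : Gad R W G) {i j : I}

/-- the place of the gadget `g`: `q`, `p` over the column `o`, `u`, `v` over the column `n` -/
def place (D : Gad R W G) (o n : X) (g : G) : Place ((X × R) ⊕ W) :=
  ⟨.inl (o, D.yp g), .inl (o, D.yq), .inl (n, D.zu g), .inl (n, D.zv g), .inr (D.p' g), .inr D.x,
    .inr (D.u' g), .inr (D.v' g)⟩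

theorem FitsL.sum_Γ [DecidableEq X] [DecidableEq R] [DecidableEq W]
    (h : ρ.FitsL D σ κ i j) (g : G) :
    (ρ.move3L D σ κ i (g, 0)).Δ + (ρ.move3L D σ κ i (g, 1)).Δ + (ρ.move3L D σ κ i (g, 2)).Δ =
      (place D (ρ.s⁻¹ (ρ.B i)) (ρ.s (ρ.B i)) g).Γ := by
  rw [h.sum_Δ]
  unfold Place.Γ place
  simp only [pr_comm (Sum.inr _) (Sum.inl _), pr_comm (Sum.inr (D.v' g)) (Sum.inr D.x),
    pr_comm (Sum.inr (D.u' g)) (Sum.inr D.x), pr_comm (Sum.inr (D.u' g)) (Sum.inr (D.p' g)),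
    pr_comm (Sum.inl (ρ.s (ρ.B i), D.zu g)) (Sum.inl (ρ.s⁻¹ (ρ.B i), _)),
    pr_comm (Sum.inl (ρ.s (ρ.B i), D.zv g)) (Sum.inl (ρ.s⁻¹ (ρ.B i), _))]
  abel

/-! ### The mirror version -/

/-- the labels fit, mirror version: `q`, `p` over the fourth column of the window of `i`, the system
`j` is on the left -/
structure FitsR (σ : W → I) (κ : W → R) (i j : I) : Prop where
  adj : ρ.s (ρ.s (ρ.B j)) = ρ.B i
  dir : ρ.cs j = ρ.col (ρ.s (ρ.s (ρ.B i)))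
  σx : σ D.x = j
  κx : κ D.x = D.yq
  σp : ∀ g, σ (D.p' g) = j
  κp : ∀ g, κ (D.p' g) = D.yp g
  σu : ∀ g, σ (D.u' g) = i
  σv : ∀ g, σ (D.v' g) = i
  κv : ∀ g, κ (D.v' g) = ρ.lb' i D.yq (D.zu g)
  κu : ∀ g, κ (D.u' g) = ρ.lb' i D.yq (D.zv g)
  κu' : ∀ g, κ (D.u' g) = ρ.lb' i (D.yp g) (D.zu g)
  inj_p : Function.Injective D.yp
  ne_p : ∀ g, D.yp g ≠ D.yq
  inj_u : Function.Injective D.zu
  inj_v : Function.Injective D.zv
  ne_uv : ∀ g g', D.zu g ≠ D.zv g'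

/-- the lift of the move number `n` of the gadget `g`, mirror version -/
noncomputable def lift3R (i : I) (z : G × Fin 3) : R := match z.2 with
  | 0 => ρ.lf' i D.yq (D.zu z.1)
  | 1 => ρ.lf' i (D.yp z.1) (D.zu z.1)
  | 2 => ρ.lf' i D.yq (D.zv z.1)

/-- the moves, mirror version -/
noncomputable def move3R (σ : W → I) (κ : W → R) (i : I) (z : G × Fin 3) : Move ((X × R) ⊕ W) :=
  ρ.mR σ κ (ρ.lift3R D i z) (ltY D z) (ltX D z)

variable {D}

theorem FitsR.σI (h : ρ.FitsR D σ κ i j) (z : G × Fin 3) : σ (ltX D z) = i := by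
  obtain ⟨g, n⟩ := z
  fin_cases n
  · exact h.σv g
  · exact h.σu g
  · exact h.σu g

theorem FitsR.σJ (h : ρ.FitsR D σ κ i j) (z : G × Fin 3) : σ (ltY D z) = j := by
  obtain ⟨g, n⟩ := z
  fin_cases n
  · exact h.σx
  · exact h.σp g
  · exact h.σx

theorem FitsR.pass (h : ρ.FitsR D σ κ i j) (z : G × Fin 3) :
    ρ.Pass σ κ (ρ.lift3R D i z) (ltY D z) (ltX D z) := by
  unfold Pass
  rw [h.σI, h.σJ, h.dir]
  obtain ⟨g, n⟩ := z
  fin_cases n
  · show κ (D.v' g) - _ * ρ.lf' i D.yq (D.zu g) = κ D.x - _ * ρ.lf' i D.yq (D.zu g)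
    rw [h.κx, h.κv]
    unfold lb'
    ring
  · show κ (D.u' g) - _ * ρ.lf' i (D.yp g) (D.zu g) = κ (D.p' g) - _ * ρ.lf' i (D.yp g) (D.zu g)
    rw [h.κp, h.κu']
    unfold lb'
    ring
  · show κ (D.u' g) - _ * ρ.lf' i D.yq (D.zv g) = κ D.x - _ * ρ.lf' i D.yq (D.zv g)
    rw [h.κx, h.κu]
    unfold lb'
    ring

theorem FitsR.move_in [DecidableEq X] [DecidableEq R] [DecidableEq W]
    (h : ρ.FitsR D σ κ i j) (hσ : Function.Injective fun w => (σ w, κ w)) (z : G × Fin 3) :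
    (ρ.move3R D σ κ i z).In (ρ.full hσ (ρ.lift3R D i z)) :=
  ρ.move_right hσ _ (by rw [h.σI, h.σJ, h.adj]) (h.pass ρ z)

theorem FitsR.apart (h : ρ.FitsR D σ κ i j) (z z' : G × Fin 3) (hne : z ≠ z')
    (hl : ρ.lift3R D i z = ρ.lift3R D i z') :
    (ρ.move3R D σ κ i z).Apart (ρ.move3R D σ κ i z') := by
  unfold move3R
  rw [← hl]
  refine ρ.apart_RR _ (by rw [h.σJ, h.σJ]) (by rw [h.σI, h.σI]) (by rw [h.σI, h.σJ, h.adj])
    (h.pass ρ z) (by rw [hl]; exact h.pass ρ z') ?_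
  obtain ⟨g, n⟩ := z
  obtain ⟨g', n'⟩ := z'
  fin_cases n <;> fin_cases n'
  · exact absurd (Prod.ext (h.inj_u (ρ.lf'_injective i _ hl)) rfl) hne
  · show κ D.x ≠ κ (D.p' g')
    rw [h.κx, h.κp]
    exact (h.ne_p g').symm
  · exact absurd (ρ.lf'_injective i _ hl) (h.ne_uv g g')
  · show κ (D.p' g) ≠ κ D.x
    rw [h.κx, h.κp]
    exact h.ne_p g
  · show κ (D.p' g) ≠ κ (D.p' g')
    rw [h.κp, h.κp]
    intro h'
    exact hne (Prod.ext (h.inj_p h') rfl)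
  · show κ (D.p' g) ≠ κ D.x
    rw [h.κx, h.κp]
    exact h.ne_p g
  · exact absurd (ρ.lf'_injective i _ hl) (h.ne_uv g' g).symm
  · show κ D.x ≠ κ (D.p' g')
    rw [h.κx, h.κp]
    exact (h.ne_p g').symm
  · exact absurd (Prod.ext (h.inj_v (ρ.lf'_injective i _ hl)) rfl) hne

theorem FitsR.sum_Γ [DecidableEq X] [DecidableEq R] [DecidableEq W]
    (h : ρ.FitsR D σ κ i j) (g : G) :
    (ρ.move3R D σ κ i (g, 0)).Δ + (ρ.move3R D σ κ i (g, 1)).Δ + (ρ.move3R D σ κ i (g, 2)).Δ =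
      (place D (ρ.s (ρ.s (ρ.B i))) (ρ.B i) g).Γ := by
  have e0 : (ρ.move3R D σ κ i (g, 0)).Δ =
      - pr (Sum.inr D.x) (Sum.inl (ρ.B i, D.zu g)) -
        pr (Sum.inr (D.v' g)) (Sum.inl (ρ.s (ρ.s (ρ.B i)), D.yq)) +
        pr (Sum.inr D.x) (Sum.inr (D.v' g)) +
        pr (Sum.inl (ρ.B i, D.zu g)) (Sum.inl (ρ.s (ρ.s (ρ.B i)), D.yq)) := by
    simp only [move3R, mR, Move.Δ, ltX, ltY, lift3R, h.σv, h.κv, at_lb'_d, at_lb'_b]
  have e1 : (ρ.move3R D σ κ i (g, 1)).Δ =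
      - pr (Sum.inr (D.p' g)) (Sum.inl (ρ.B i, D.zu g)) -
        pr (Sum.inr (D.u' g)) (Sum.inl (ρ.s (ρ.s (ρ.B i)), D.yp g)) +
        pr (Sum.inr (D.p' g)) (Sum.inr (D.u' g)) +
        pr (Sum.inl (ρ.B i, D.zu g)) (Sum.inl (ρ.s (ρ.s (ρ.B i)), D.yp g)) := by
    simp only [move3R, mR, Move.Δ, ltX, ltY, lift3R, h.σu, h.κu', at_lb'_d, at_lb'_b]
  have e2 : (ρ.move3R D σ κ i (g, 2)).Δ =
      - pr (Sum.inr D.x) (Sum.inl (ρ.B i, D.zv g)) -
        pr (Sum.inr (D.u' g)) (Sum.inl (ρ.s (ρ.s (ρ.B i)), D.yq)) +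
        pr (Sum.inr D.x) (Sum.inr (D.u' g)) +
        pr (Sum.inl (ρ.B i, D.zv g)) (Sum.inl (ρ.s (ρ.s (ρ.B i)), D.yq)) := by
    simp only [move3R, mR, Move.Δ, ltX, ltY, lift3R, h.σu, h.κu, at_lb'_d, at_lb'_b]
  rw [e0, e1, e2]
  unfold Place.Γ place
  simp only [pr_comm (Sum.inr _) (Sum.inl _)]
  abel

/-! ### The version with a column (infinity) instead of the neighbouring system -/

/-- the column after the fourth column of the window -/
def tR (i : I) : X := ρ.s (ρ.s (ρ.s (ρ.B i)))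

/-- the move of `w` next to the point over the column `tR` -/
def mZL (σ : W → I) (κ : W → R) (l : R) (w : W) : Move ((X × R) ⊕ W) :=
  ⟨.inl (ρ.at' (σ w) (κ w) l (ρ.s⁻¹ (ρ.B (σ w)))), .inl (ρ.at' (σ w) (κ w) l (ρ.B (σ w))),
    .inr w, .inl (ρ.at' (σ w) (κ w) l (ρ.s (ρ.B (σ w)))),
    .inl (ρ.at' (σ w) (κ w) l (ρ.s (ρ.s (ρ.B (σ w))))), .inl (ρ.at' (σ w) (κ w) l (ρ.tR (σ w)))⟩

/-- the column before the first column of the window -/
def tL (i : I) : X := ρ.s⁻¹ (ρ.s⁻¹ (ρ.B i))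

/-- the move of `w` next to the point over the column `tL` -/
def mZR (σ : W → I) (κ : W → R) (l : R) (w : W) : Move ((X × R) ⊕ W) :=
  ⟨.inl (ρ.at' (σ w) (κ w) l (ρ.tL (σ w))), .inl (ρ.at' (σ w) (κ w) l (ρ.s⁻¹ (ρ.B (σ w)))),
    .inl (ρ.at' (σ w) (κ w) l (ρ.B (σ w))), .inr w,
    .inl (ρ.at' (σ w) (κ w) l (ρ.s (ρ.B (σ w)))),
    .inl (ρ.at' (σ w) (κ w) l (ρ.s (ρ.s (ρ.B (σ w)))))⟩

private theorem inv_apply3 {X : Type*} (s : Perm X) (x : X) : s (s⁻¹ x) = x := by simp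

theorem mZL_in [DecidableEq X] [DecidableEq R] [DecidableEq W]
    (hσ : Function.Injective fun w => (σ w, κ w)) (l : R) (w : W)
    (h1 : ∀ j, ρ.B j ≠ ρ.s (ρ.s (ρ.B (σ w)))) (h2 : ρ.τ (ρ.s (ρ.s (ρ.B (σ w)))) = 0) :
    (ρ.mZL σ κ l w).In (ρ.full hσ l) := by
  refine ⟨ρ.full_a hσ l w, ρ.full_b hσ l w, ρ.full_w hσ l w, ρ.full_c hσ l w, ?_⟩
  show ρ.full hσ l (.inl _) = .inl _
  rw [full, ins_inl_of]
  · congr 1
    unfold at' tR
    rw [sq_apply, h2]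
    congr 1
    ring
  · intro w' h
    exact h1 (σ w') (Prod.ext_iff.1 h).1

theorem mZR_in [DecidableEq X] [DecidableEq R] [DecidableEq W]
    (hσ : Function.Injective fun w => (σ w, κ w)) (l : R) (w : W)
    (h1 : ∀ j, ρ.B j ≠ ρ.tL (σ w)) (h2 : ρ.τ (ρ.tL (σ w)) = 0) :
    (ρ.mZR σ κ l w).In (ρ.full hσ l) := by
  refine ⟨?_, ρ.full_a hσ l w, ρ.full_b hσ l w, ρ.full_w hσ l w, ρ.full_c hσ l w⟩
  show ρ.full hσ l (.inl _) = .inl _
  rw [full, ins_inl_of]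
  · congr 1
    unfold at'
    rw [sq_apply, h2]
    unfold tL
    rw [inv_apply3]
    congr 1
    ring
  · intro w' h
    exact h1 (σ w') (Prod.ext_iff.1 h).1

theorem apart_ZL (l : R) {w w₂ : W} (h1 : σ w₂ = σ w) (hκ : κ w ≠ κ w₂) :
    (ρ.mZL σ κ l w).Apart (ρ.mZL σ κ l w₂) := by
  have hca : ρ.s (ρ.B (σ w)) ≠ ρ.s⁻¹ (ρ.B (σ w)) := by
    intro h
    apply ρ.ne2 (ρ.s⁻¹ (ρ.B (σ w)))
    rw [inv_apply3, h]
  constructor
  · exact ⟨Sum.inr_ne_inl, Sum.inr_ne_inl, fun h => hκ (congrArg κ (Sum.inr_injective h)),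
      Sum.inr_ne_inl, Sum.inr_ne_inl, Sum.inr_ne_inl⟩
  · refine ⟨?_, ?_, Sum.inl_ne_inr, ?_, ?_, ?_⟩
    · intro h
      have h' := Sum.inl_injective h
      rw [h1] at h'
      exact ρ.at'_ne hca h'
    · intro h
      have h' := Sum.inl_injective h
      rw [h1] at h'
      exact ρ.at'_ne (ρ.ne1 _) h'
    · intro h
      have h' := Sum.inl_injective h
      rw [h1] at h'
      exact ρ.at'_ne_label hκ h'
    · intro h
      have h' := Sum.inl_injective h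
      rw [h1] at h'
      exact ρ.at'_ne (ρ.ne1 _).symm h'
    · intro h
      have h' := Sum.inl_injective h
      rw [h1] at h'
      exact ρ.at'_ne (ρ.ne2 _).symm h'

theorem apart_ZR (l : R) {w w₂ : W} (h1 : σ w₂ = σ w) (hκ : κ w ≠ κ w₂) :
    (ρ.mZR σ κ l w).Apart (ρ.mZR σ κ l w₂) := by
  have hba : ρ.B (σ w) ≠ ρ.s⁻¹ (ρ.B (σ w)) := by
    intro h
    apply ρ.ne1 (ρ.s⁻¹ (ρ.B (σ w)))
    rw [inv_apply3, ← h]
  have hbt : ρ.B (σ w) ≠ ρ.tL (σ w) := by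
    intro h
    apply ρ.ne2 (ρ.tL (σ w))
    unfold tL at h ⊢
    rw [inv_apply3, inv_apply3]
    exact h
  constructor
  · refine ⟨?_, ?_, ?_, Sum.inl_ne_inr, ?_, ?_⟩
    · intro h
      have h' := Sum.inl_injective h
      rw [h1] at h'
      exact ρ.at'_ne hbt h'
    · intro h
      have h' := Sum.inl_injective h
      rw [h1] at h'
      exact ρ.at'_ne hba h'
    · intro h
      have h' := Sum.inl_injective h
      rw [h1] at h'
      exact ρ.at'_ne_label hκ h'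
    · intro h
      have h' := Sum.inl_injective h
      rw [h1] at h'
      exact ρ.at'_ne (ρ.ne1 _).symm h'
    · intro h
      have h' := Sum.inl_injective h
      rw [h1] at h'
      exact ρ.at'_ne (ρ.ne2 _).symm h'
  · exact ⟨Sum.inr_ne_inl, Sum.inr_ne_inl, Sum.inr_ne_inl,
      fun h => hκ (congrArg κ (Sum.inr_injective h)), Sum.inr_ne_inl, Sum.inr_ne_inl⟩

/-- the data of a group of gadgets with the common point `(t, yq)` instead of a letter `x` and the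
points `(t, yp g)` instead of the letters `p' g` -/
structure GadZ (R W G : Type*) where
  yq : R
  yp : G → R
  zu : G → R
  zv : G → R
  u' : G → W
  v' : G → W

variable (C : GadZ R W G)

/-- the place of the gadget `g` -/
def placeZ (C : GadZ R W G) (o n t : X) (g : G) : Place ((X × R) ⊕ W) :=
  ⟨.inl (o, C.yp g), .inl (o, C.yq), .inl (n, C.zu g), .inl (n, C.zv g), .inl (t, C.yp g),
    .inl (t, C.yq), .inr (C.u' g), .inr (C.v' g)⟩

/-- the labels fit, left version, next to the column `tR i` -/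
structure FitsZL (σ : W → I) (κ : W → R) (i : I) : Prop where
  gap : ∀ j, ρ.B j ≠ ρ.s (ρ.s (ρ.B i))
  seam : ρ.τ (ρ.s (ρ.s (ρ.B i))) = 0
  dir : ρ.col (ρ.tR i) = ρ.col (ρ.s⁻¹ (ρ.B i))
  σu : ∀ g, σ (C.u' g) = i
  σv : ∀ g, σ (C.v' g) = i
  κv : ∀ g, κ (C.v' g) = ρ.lb i C.yq (C.zu g)
  κu : ∀ g, κ (C.u' g) = ρ.lb i C.yq (C.zv g)
  κu' : ∀ g, κ (C.u' g) = ρ.lb i (C.yp g) (C.zu g)
  inj_p : Function.Injective C.yp
  ne_p : ∀ g, C.yp g ≠ C.yq
  inj_u : Function.Injective C.zu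
  inj_v : Function.Injective C.zv
  ne_uv : ∀ g g', C.zu g ≠ C.zv g'

/-- the level over the outer column in the move number `n` of the gadget `g` -/
def lev (C : GadZ R W G) (z : G × Fin 3) : R := match z.2 with
  | 0 => C.yq
  | 1 => C.yp z.1
  | 2 => C.yq

/-- the level over the inner column in the move number `n` of the gadget `g` -/
def levI (C : GadZ R W G) (z : G × Fin 3) : R := match z.2 with
  | 0 => C.zu z.1
  | 1 => C.zu z.1
  | 2 => C.zv z.1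

/-- the letter of the move number `n` of the gadget `g` -/
def ltZ (C : GadZ R W G) (z : G × Fin 3) : W := match z.2 with
  | 0 => C.v' z.1
  | 1 => C.u' z.1
  | 2 => C.u' z.1

/-- the lift of the move number `n` of the gadget `g` -/
noncomputable def lift3Z (i : I) (z : G × Fin 3) : R := ρ.lf i (lev C z) (levI C z)

/-- the moves -/
noncomputable def move3Z (σ : W → I) (κ : W → R) (i : I) (z : G × Fin 3) : Move ((X × R) ⊕ W) :=
  ρ.mZL σ κ (ρ.lift3Z C i z) (ltZ C z)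

variable {C}

theorem FitsZL.σI (h : ρ.FitsZL C σ κ i) (z : G × Fin 3) : σ (ltZ C z) = i := by
  obtain ⟨g, n⟩ := z
  fin_cases n
  · exact h.σv g
  · exact h.σu g
  · exact h.σu g

theorem FitsZL.κI (h : ρ.FitsZL C σ κ i) (z : G × Fin 3) :
    κ (ltZ C z) = ρ.lb i (lev C z) (levI C z) := by
  obtain ⟨g, n⟩ := z
  fin_cases n
  · exact h.κv g
  · exact h.κu' g
  · exact h.κu g

theorem FitsZL.move_in [DecidableEq X] [DecidableEq R] [DecidableEq W]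
    (h : ρ.FitsZL C σ κ i) (hσ : Function.Injective fun w => (σ w, κ w)) (z : G × Fin 3) :
    (ρ.move3Z C σ κ i z).In (ρ.full hσ (ρ.lift3Z C i z)) :=
  ρ.mZL_in hσ _ _ (by rw [h.σI]; exact h.gap) (by rw [h.σI]; exact h.seam)

/-- in the same lift the levels over the outer column are different -/
theorem FitsZL.lev_ne (h : ρ.FitsZL C σ κ i) (z z' : G × Fin 3) (hne : z ≠ z')
    (hl : ρ.lift3Z C i z = ρ.lift3Z C i z') : lev C z ≠ lev C z' := by
  obtain ⟨g, n⟩ := z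
  obtain ⟨g', n'⟩ := z'
  fin_cases n <;> fin_cases n'
  · exact absurd (Prod.ext (h.inj_u (ρ.lf_injective i _ hl)) rfl) hne
  · exact (h.ne_p g').symm
  · exact absurd (ρ.lf_injective i _ hl) (h.ne_uv g g')
  · exact h.ne_p g
  · intro h'
    exact hne (Prod.ext (h.inj_p h') rfl)
  · exact h.ne_p g
  · exact absurd (ρ.lf_injective i _ hl) (h.ne_uv g' g).symm
  · exact (h.ne_p g').symm
  · exact absurd (Prod.ext (h.inj_v (ρ.lf_injective i _ hl)) rfl) hne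

theorem FitsZL.apart (h : ρ.FitsZL C σ κ i) (z z' : G × Fin 3) (hne : z ≠ z')
    (hl : ρ.lift3Z C i z = ρ.lift3Z C i z') :
    (ρ.move3Z C σ κ i z).Apart (ρ.move3Z C σ κ i z') := by
  unfold move3Z
  rw [← hl]
  refine ρ.apart_ZL _ (by rw [h.σI, h.σI]) ?_
  rw [h.κI, h.κI]
  intro h'
  have h1 := h.lev_ne ρ z z' hne hl
  unfold lift3Z at hl
  unfold lb at h'
  rw [hl] at h'
  exact h1 (sub_left_injective h')

theorem FitsZL.sum_Γ [DecidableEq X] [DecidableEq R] [DecidableEq W]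
    (h : ρ.FitsZL C σ κ i) (g : G) :
    (ρ.move3Z C σ κ i (g, 0)).Δ + (ρ.move3Z C σ κ i (g, 1)).Δ + (ρ.move3Z C σ κ i (g, 2)).Δ =
      (placeZ C (ρ.s⁻¹ (ρ.B i)) (ρ.s (ρ.B i)) (ρ.tR i) g).Γ := by
  have ht : ∀ y z, ρ.at' i (ρ.lb i y z) (ρ.lf i y z) (ρ.tR i) = (ρ.tR i, y) := by
    intro y z
    unfold at' lb
    rw [h.dir, sub_add_cancel]
  have e : ∀ z : G × Fin 3, (ρ.move3Z C σ κ i z).Δ =
      - pr (Sum.inl (ρ.s⁻¹ (ρ.B i), lev C z)) (Sum.inr (ltZ C z)) -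
        pr (Sum.inl (ρ.s (ρ.B i), levI C z)) (Sum.inl (ρ.tR i, lev C z)) +
        pr (Sum.inl (ρ.s⁻¹ (ρ.B i), lev C z)) (Sum.inl (ρ.s (ρ.B i), levI C z)) +
        pr (Sum.inr (ltZ C z)) (Sum.inl (ρ.tR i, lev C z)) := by
    intro z
    simp only [move3Z, mZL, Move.Δ, lift3Z, h.σI, h.κI, at_lb_a, at_lb_c, ht]
  rw [e, e, e]
  simp only [lev, levI, ltZ, Place.Γ, placeZ]
  simp only [pr_comm (Sum.inr _) (Sum.inl _),
    pr_comm (Sum.inl (ρ.s (ρ.B i), _)) (Sum.inl (ρ.s⁻¹ (ρ.B i), _)),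
    pr_comm (Sum.inl (ρ.s (ρ.B i), _)) (Sum.inl (ρ.tR i, _))]
  abel

/-- the labels fit, mirror version, next to the column `tL i` -/
structure FitsZR (C : GadZ R W G) (σ : W → I) (κ : W → R) (i : I) : Prop where
  gap : ∀ j, ρ.B j ≠ ρ.tL i
  seam : ρ.τ (ρ.tL i) = 0
  dir : ρ.col (ρ.tL i) = ρ.col (ρ.s (ρ.s (ρ.B i)))
  σu : ∀ g, σ (C.u' g) = i
  σv : ∀ g, σ (C.v' g) = i
  κv : ∀ g, κ (C.v' g) = ρ.lb' i C.yq (C.zu g)
  κu : ∀ g, κ (C.u' g) = ρ.lb' i C.yq (C.zv g)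
  κu' : ∀ g, κ (C.u' g) = ρ.lb' i (C.yp g) (C.zu g)
  inj_p : Function.Injective C.yp
  ne_p : ∀ g, C.yp g ≠ C.yq
  inj_u : Function.Injective C.zu
  inj_v : Function.Injective C.zv
  ne_uv : ∀ g g', C.zu g ≠ C.zv g'

/-- the lift of the move number `n` of the gadget `g`, mirror version -/
noncomputable def lift3Z' (C : GadZ R W G) (i : I) (z : G × Fin 3) : R :=
  ρ.lf' i (lev C z) (levI C z)

/-- the moves, mirror version -/
noncomputable def move3Z' (C : GadZ R W G) (σ : W → I) (κ : W → R) (i : I) (z : G × Fin 3) :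
    Move ((X × R) ⊕ W) :=
  ρ.mZR σ κ (ρ.lift3Z' C i z) (ltZ C z)

theorem FitsZR.σI (h : ρ.FitsZR C σ κ i) (z : G × Fin 3) : σ (ltZ C z) = i := by
  obtain ⟨g, n⟩ := z
  fin_cases n
  · exact h.σv g
  · exact h.σu g
  · exact h.σu g

theorem FitsZR.κI (h : ρ.FitsZR C σ κ i) (z : G × Fin 3) :
    κ (ltZ C z) = ρ.lb' i (lev C z) (levI C z) := by
  obtain ⟨g, n⟩ := z
  fin_cases n
  · exact h.κv g
  · exact h.κu' g
  · exact h.κu g

theorem FitsZR.move_in [DecidableEq X] [DecidableEq R] [DecidableEq W]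
    (h : ρ.FitsZR C σ κ i) (hσ : Function.Injective fun w => (σ w, κ w)) (z : G × Fin 3) :
    (ρ.move3Z' C σ κ i z).In (ρ.full hσ (ρ.lift3Z' C i z)) :=
  ρ.mZR_in hσ _ _ (by rw [h.σI]; exact h.gap) (by rw [h.σI]; exact h.seam)

theorem FitsZR.lev_ne (h : ρ.FitsZR C σ κ i) (z z' : G × Fin 3) (hne : z ≠ z')
    (hl : ρ.lift3Z' C i z = ρ.lift3Z' C i z') : lev C z ≠ lev C z' := by
  obtain ⟨g, n⟩ := z
  obtain ⟨g', n'⟩ := z'
  fin_cases n <;> fin_cases n'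
  · exact absurd (Prod.ext (h.inj_u (ρ.lf'_injective i _ hl)) rfl) hne
  · exact (h.ne_p g').symm
  · exact absurd (ρ.lf'_injective i _ hl) (h.ne_uv g g')
  · exact h.ne_p g
  · intro h'
    exact hne (Prod.ext (h.inj_p h') rfl)
  · exact h.ne_p g
  · exact absurd (ρ.lf'_injective i _ hl) (h.ne_uv g' g).symm
  · exact (h.ne_p g').symm
  · exact absurd (Prod.ext (h.inj_v (ρ.lf'_injective i _ hl)) rfl) hne

theorem FitsZR.apart (h : ρ.FitsZR C σ κ i) (z z' : G × Fin 3) (hne : z ≠ z')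
    (hl : ρ.lift3Z' C i z = ρ.lift3Z' C i z') :
    (ρ.move3Z' C σ κ i z).Apart (ρ.move3Z' C σ κ i z') := by
  unfold move3Z'
  rw [← hl]
  refine ρ.apart_ZR _ (by rw [h.σI, h.σI]) ?_
  rw [h.κI, h.κI]
  intro h'
  have h1 := h.lev_ne ρ z z' hne hl
  unfold lift3Z' at hl
  unfold lb' at h'
  rw [hl] at h'
  exact h1 (sub_left_injective h')

theorem FitsZR.sum_Γ [DecidableEq X] [DecidableEq R] [DecidableEq W]
    (h : ρ.FitsZR C σ κ i) (g : G) :
    (ρ.move3Z' C σ κ i (g, 0)).Δ + (ρ.move3Z' C σ κ i (g, 1)).Δ + (ρ.move3Z' C σ κ i (g, 2)).Δ =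
      (placeZ C (ρ.s (ρ.s (ρ.B i))) (ρ.B i) (ρ.tL i) g).Γ := by
  have ht : ∀ y z, ρ.at' i (ρ.lb' i y z) (ρ.lf' i y z) (ρ.tL i) = (ρ.tL i, y) := by
    intro y z
    unfold at' lb'
    rw [h.dir, sub_add_cancel]
  have e : ∀ z : G × Fin 3, (ρ.move3Z' C σ κ i z).Δ =
      - pr (Sum.inl (ρ.tL i, lev C z)) (Sum.inl (ρ.B i, levI C z)) -
        pr (Sum.inr (ltZ C z)) (Sum.inl (ρ.s (ρ.s (ρ.B i)), lev C z)) +
        pr (Sum.inl (ρ.tL i, lev C z)) (Sum.inr (ltZ C z)) +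
        pr (Sum.inl (ρ.B i, levI C z)) (Sum.inl (ρ.s (ρ.s (ρ.B i)), lev C z)) := by
    intro z
    simp only [move3Z', mZR, Move.Δ, lift3Z', h.σI, h.κI, at_lb'_d, at_lb'_b, ht]
  rw [e, e, e]
  simp only [lev, levI, ltZ, Place.Γ, placeZ]
  simp only [pr_comm (Sum.inr _) (Sum.inl _)]
  abel

end Row

end SqIns
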