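import Pool.Agent.Lib.SqIns.FStrip

/-!
# Sheets: blowing up the fibres of a strip

A closed square `s` on `X` with a potential `c : X → S` whose differences along the edges of `s` are
units has `|S|` closed lifts to `X × S` which use all edges over the edges of `s`.
-/

open Finset Equiv

namespace SqIns

section Sheet

variable {X S : Type*} [Fintype X] [CommRing S]

/-- the sheet number `y` -/
def sheet (s : Perm X) (c τ : X → S) (y : S) : Perm (X × S) :=
  lift s fun x => (c (s x) - c x) * y + τ x

theorem sheet_apply (s : Perm X) (c τ : X → S) (y : S) (x : X) (f : S) :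
    sheet s c τ y (x, f) = (s x, f + ((c (s x) - c x) * y + τ x)) := rfl

theorem closed_sheet {s : Perm X} (hs : Closed s) (c τ : X → S)
    (hg : ∀ r : S, ∃ j : ℕ, j • (∑ x, τ x) = r) (y : S) : Closed (sheet s c τ y) := by
  refine closed_lift hs _ ?_
  have h : ∑ x, ((c (s x) - c x) * y + τ x) = ∑ x, τ x := by
    rw [sum_add_distrib, ← sum_mul, sum_sub_distrib, Equiv.sum_comp s c, sub_self, zero_mul,
      zero_add]
  rw [h]
  exact hg

variable [Fintype S] [DecidableEq X] [DecidableEq S]

theorem sum_E_sheet {s : Perm X} (hs1 : ∀ x, s x ≠ x) (hs2 : ∀ x, s (s x) ≠ x) (c τ : X → S)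
    (h1 : ∀ x, IsUnit (c (s x) - c x)) (h2 : ∀ x, IsUnit (c (s (s x)) - c x)) :
    ∑ y, E (sheet s c τ y) = blow S (E s) := by
  have hb : ∀ u v : S, IsUnit u → Function.Bijective fun y : S => u * y + v := by
    intro u v hu
    refine Finite.injective_iff_bijective.1 fun y y' h => ?_
    exact hu.mul_left_cancel (add_right_cancel h)
  refine E_lift_sum s hs1 hs2 _ (fun x => hb _ _ (h1 x)) (fun x => ?_)
  have h3 := hb (c (s (s x)) - c x) (τ x + τ (s x)) (h2 x)
  have e : (fun y : S => (c (s x) - c x) * y + τ x + ((c (s (s x)) - c (s x)) * y + τ (s x))) =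
      fun y : S => (c (s (s x)) - c x) * y + (τ x + τ (s x)) := by
    funext y
    ring
  rw [e]
  exact h3

end Sheet

/-! ### Blow up of the classes -/

section Assoc

variable {V A S : Type*} [Fintype V] [DecidableEq V] [CommRing A] [Fintype A] [DecidableEq A]
  [CommRing S] [Fintype S] [DecidableEq S]

/-- `(V × A) × S ≃ V × (A × S)` -/
abbrev asc (V A S : Type*) : (V × A) × S ≃ V × (A × S) := Equiv.prodAssoc V A S

theorem push_asc_mk (φ : Sym2 ((V × A) × S) → ℤ) (a c : V × (A × S)) :
    push (asc V A S) φ s(a, c) = φ s((asc V A S).symm a, (asc V A S).symm c) := by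
  have h := push_apply (asc V A S).injective φ s((asc V A S).symm a, (asc V A S).symm c)
  rw [Sym2.map_mk, Equiv.apply_symm_apply, Equiv.apply_symm_apply] at h
  exact h

omit [CommRing A] [CommRing S] in
theorem push_asc_vert : push (asc V A S) (blow S (vertAll V A)) +
    push (asc V A S) (vertAll (V × A) S) = vertAll V (A × S) := by
  funext e
  induction e with
  | _ a c =>
    obtain ⟨x, y, f⟩ := a
    obtain ⟨x', y', f'⟩ := c
    have h1 : ∀ φ : Sym2 ((V × A) × S) → ℤ, push (asc V A S) φ s((x, y, f), (x', y', f')) =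
        φ s(((x, y), f), ((x', y'), f')) := by
      intro φ
      have h := push_apply (asc V A S).injective φ s(((x, y), f), ((x', y'), f'))
      rw [Sym2.map_mk] at h
      exact h
    rw [Pi.add_apply, h1, h1]
    simp only [blow, vertAll, Sym2.map_mk, Sym2.mk_isDiag_iff, Prod.mk.injEq]
    by_cases hx : x = x'
    · by_cases hy : y = y'
      · simp [hx, hy]
      · simp [hx, hy]
    · simp [hx]

omit [CommRing A] [CommRing S] in
theorem push_asc_allE {x x' : V} (hx : x ≠ x') :
    push (asc V A S) (blow S (allE A x x')) = allE (A × S) x x' := by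
  unfold allE
  rw [blow_sum, push_sum]
  have e1 : ∀ y : A, push (asc V A S) (blow S (∑ z : A, pr (x, y) (x', z))) =
      ∑ f : S, ∑ z : A, ∑ g : S, pr (x, (y, f)) (x', (z, g)) := by
    intro y
    rw [blow_sum, push_sum, sum_comm]
    refine sum_congr rfl fun z _ => ?_
    have hne : ((x, y) : V × A) ≠ (x', z) := fun h => hx (Prod.ext_iff.1 h).1
    rw [blow_pr hne, push_sum]
    refine sum_congr rfl fun f _ => ?_
    rw [push_sum]
    refine sum_congr rfl fun g _ => ?_
    rw [push_pr (asc V A S).injective]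
    rfl
  rw [sum_congr rfl fun y _ => e1 y, Fintype.sum_prod_type]
  refine sum_congr rfl fun y _ => sum_congr rfl fun f _ => ?_
  rw [Fintype.sum_prod_type]

theorem push_asc_clsE {x x' : V} (hx : x ≠ x') (δ : A) :
    push (asc V A S) (blow S (Row.clsE x x' δ)) = ∑ σ : S, Row.clsE x x' ((δ, σ) : A × S) := by
  unfold Row.clsE
  rw [blow_sum, push_sum]
  have e1 : ∀ y : A, push (asc V A S) (blow S (pr (x, y) (x', y + δ))) =
      ∑ f : S, ∑ σ : S, pr (x, (y, f)) (x', (y, f) + ((δ, σ) : A × S)) := by
    intro y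
    have hne : ((x, y) : V × A) ≠ (x', y + δ) := fun h => hx (Prod.ext_iff.1 h).1
    rw [blow_pr hne, push_sum]
    refine sum_congr rfl fun f _ => ?_
    rw [push_sum, ← Equiv.sum_comp (Equiv.addLeft f)]
    refine sum_congr rfl fun g _ => ?_
    rw [push_pr (asc V A S).injective]
    rfl
  rw [sum_congr rfl fun y _ => e1 y, sum_comm (s := (univ : Finset S)), Fintype.sum_prod_type]

end Assoc

namespace RD

variable {b : RD} {A S : Type*} [CommRing A] [Fintype A] [DecidableEq A] [CommRing S] [Fintype S]
  [DecidableEq S]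

theorem rgF_ne_one (h : b.ROk) (hk : 3 ≤ b.k) (fam : Bool) (j : ZMod (4 * b.k)) :
    b.rgF fam j ≠ b.rgF fam (j + 1) := by
  intro h1
  have h2 := h.rgF_inj fam h1
  have h3 := b.small_ne hk (n := 1) (by norm_num) (by norm_num)
  apply h3
  push_cast
  linear_combination -h2

theorem rgF_ne_two (h : b.ROk) (hk : 3 ≤ b.k) (fam : Bool) (j : ZMod (4 * b.k)) :
    b.rgF fam j ≠ b.rgF fam (j + 2) := by
  intro h1
  have h2 := h.rgF_inj fam h1
  have h3 := b.small_ne hk (n := 2) (by norm_num) (by norm_num)
  apply h3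
  push_cast
  linear_combination -h2

theorem push_asc_stripE (h : b.ROk) (hk : 3 ≤ b.k) (fam : Bool) (cl : ZMod (4 * b.k) → Finset A) :
    push (asc b.V A S) (blow S (stripE fam cl)) =
      stripE fam (fun j => (cl j) ×ˢ (univ : Finset S)) := by
  unfold stripE
  rw [blow_sum, push_sum]
  refine sum_congr rfl fun j _ => ?_
  rw [blow_add, push_add, push_asc_allE (rgF_ne_one h hk fam j), blow_sum, push_sum]
  congr 1
  rw [sum_product]
  refine sum_congr rfl fun δ _ => ?_
  exact push_asc_clsE (rgF_ne_two h hk fam j) δ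

end RD

end SqIns
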