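import Pool.Agent.Lib.SqIns.Lift

/-!
# The splice theorem

`l` are closed squares on `U`, `r i` are pairs of two cycles (a square `… p q u v …` and a square
`… x₃ x₀ x₁ x₂ …`).  If for every `i` three different squares of the family `l` admit the exchanges
`(x₀ x₁ | u q)`, `(x₃ x₁ | u p)`, `(x₀ x₂ | v q)`, then everything becomes a decomposition.
-/

open Finset Equiv

namespace SqIns

variable {U : Type*} [DecidableEq U] [Fintype U]

/-- `l` can be changed into a closed square which uses `yw` and `bd` instead of `yb` and `wd`. -/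
def Exch (l : Perm U) (y w b d : U) : Prop :=
  ∃ l' : Perm U, Closed l' ∧ E l' = E l - pr y b - pr w d + pr y w + pr b d

theorem Exch.symm {l : Perm U} {y w b d : U} (h : Exch l y w b d) : Exch l w y d b := by
  obtain ⟨l', h1, h2⟩ := h
  refine ⟨l', h1, ?_⟩
  rw [h2, pr_comm w y, pr_comm d b]
  abel

theorem Exch.of_inv {l : Perm U} {y w b d : U} (h : Exch l⁻¹ y w b d) : Exch l y w b d := by
  obtain ⟨l', h1, h2⟩ := h
  exact ⟨l', h1, by rw [h2, E_inv]⟩

omit [DecidableEq U] in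
private theorem pow_apply_aux (l : Perm U) (x : U) : (l ^ 2) x = l (l x) ∧ (l ^ 3) x = l (l (l x)) ∧
    (l ^ 4) x = l (l (l (l x))) := by
  refine ⟨?_, ?_, ?_⟩
  · rw [pow_two, Perm.mul_apply]
  · rw [pow_succ, pow_two]; rfl
  · rw [pow_succ, pow_succ, pow_two]; rfl

/-- the transposition of `b` and `w` in `… y a b w c d …` -/
theorem exch_of_seq {l : Perm U} (hl : Closed l) (hc : 5 < Fintype.card U) {y a b w c d : U}
    (hya : l y = a) (hab : l a = b) (hbw : l b = w) (hwc : l w = c) (hcd : l c = d) :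
    Exch l y w b d := by
  have n1 : ∀ x, l x ≠ x := hl.ne1 (by omega)
  have n2 : ∀ x, l (l x) ≠ x := hl.ne2 (by omega)
  have n3 : ∀ x, l (l (l x)) ≠ x := hl.ne3 (by omega)
  have n4 : ∀ x, l (l (l (l x))) ≠ x := fun x => by
    have := hl.pow_ne x (n := 4) (by norm_num) (by omega)
    rwa [(pow_apply_aux l x).2.2] at this
  subst hya hab hbw hwc hcd
  refine ⟨swap (l (l y)) (l (l (l y))) * l * swap (l (l y)) (l (l (l y))), ?_, ?_⟩
  · have := hl.conj (swap (l (l y)) (l (l (l y))))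
    rwa [swap_inv] at this
  · exact E_conj_swap l rfl rfl rfl rfl rfl (n2 y).symm (n3 y).symm (n1 _).symm (n2 _).symm
      (n1 _).symm (n2 _).symm (n1 _).symm (n1 _).symm (n3 _).symm (n3 _).symm (n2 _).symm

/-- **The splice theorem.** -/
theorem splice_theorem {Λ T : Type*} [Fintype Λ] [Fintype T] [DecidableEq Λ] [DecidableEq T]
    (l : Λ → Perm U) (hl : ∀ a, Closed (l a)) (r : T → Perm U)
    (hsum : ∑ a, E (l a) + ∑ i, E (r i) = allPairs U)
    (p q u v x₃ x₀ x₁ x₂ : T → U)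
    (hp : ∀ i, r i (p i) = q i) (hq : ∀ i, r i (q i) = u i) (hu : ∀ i, r i (u i) = v i)
    (hx₃ : ∀ i, r i (x₃ i) = x₀ i) (hx₀ : ∀ i, r i (x₀ i) = x₁ i) (hx₁ : ∀ i, r i (x₁ i) = x₂ i)
    (hqu : ∀ i, q i ≠ u i) (hxx : ∀ i, x₀ i ≠ x₁ i)
    (hne : ∀ i, ¬ (r i).SameCycle (q i) (x₀ i))
    (hall : ∀ i x, (r i).SameCycle (q i) x ∨ (r i).SameCycle (x₀ i) x)
    (g : T × Fin 3 → Λ) (hg : Function.Injective g)
    (hA : ∀ i, Exch (l (g (i, 0))) (x₀ i) (x₁ i) (u i) (q i))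
    (hB : ∀ i, Exch (l (g (i, 1))) (x₃ i) (x₁ i) (u i) (p i))
    (hC : ∀ i, Exch (l (g (i, 2))) (x₀ i) (x₂ i) (v i) (q i)) :
    ∃ s : Λ ⊕ T → Perm U, Dec s := by
  classical
  -- the exchanges
  let Δ : T × Fin 3 → Sym2 U → ℤ := fun z => match z.2 with
    | 0 => - pr (x₀ z.1) (u z.1) - pr (x₁ z.1) (q z.1) + pr (x₀ z.1) (x₁ z.1) + pr (u z.1) (q z.1)
    | 1 => - pr (x₃ z.1) (u z.1) - pr (x₁ z.1) (p z.1) + pr (x₃ z.1) (x₁ z.1) + pr (u z.1) (p z.1)
    | 2 => - pr (x₀ z.1) (v z.1) - pr (x₂ z.1) (q z.1) + pr (x₀ z.1) (x₂ z.1) + pr (v z.1) (q z.1)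
  have hex : ∀ z : T × Fin 3, ∃ l' : Perm U, Closed l' ∧ E l' = E (l (g z)) + Δ z := by
    rintro ⟨i, j⟩
    fin_cases j
    · obtain ⟨l', h1, h2⟩ := hA i
      refine ⟨l', h1, ?_⟩
      rw [show E l' = _ from h2]
      show _ = E (l (g (i, 0))) + (- pr (x₀ i) (u i) - pr (x₁ i) (q i) + pr (x₀ i) (x₁ i) +
        pr (u i) (q i))
      abel
    · obtain ⟨l', h1, h2⟩ := hB i
      refine ⟨l', h1, ?_⟩
      rw [show E l' = _ from h2]
      show _ = E (l (g (i, 1))) + (- pr (x₃ i) (u i) - pr (x₁ i) (p i) + pr (x₃ i) (x₁ i) +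
        pr (u i) (p i))
      abel
    · obtain ⟨l', h1, h2⟩ := hC i
      refine ⟨l', h1, ?_⟩
      rw [show E l' = _ from h2]
      show _ = E (l (g (i, 2))) + (- pr (x₀ i) (v i) - pr (x₂ i) (q i) + pr (x₀ i) (x₂ i) +
        pr (v i) (q i))
      abel
  choose l' hl'c hl'E using hex
  let L : Λ → Perm U := fun a => if h : ∃ z, g z = a then l' h.choose else l a
  have hLg : ∀ z, L (g z) = l' z := by
    intro z
    have h : ∃ z', g z' = g z := ⟨z, rfl⟩
    show (if h : ∃ z', g z' = g z then l' h.choose else l (g z)) = _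
    rw [dif_pos h, hg h.choose_spec]
  have hLo : ∀ a, (∀ z, g z ≠ a) → L a = l a := by
    intro a ha
    have h : ¬ ∃ z, g z = a := fun ⟨z, hz⟩ => ha z hz
    show (if h : ∃ z, g z = a then l' h.choose else l a) = _
    rw [dif_neg h]
  have hLc : ∀ a, Closed (L a) := by
    intro a
    by_cases h : ∃ z, g z = a
    · obtain ⟨z, rfl⟩ := h
      rw [hLg]; exact hl'c z
    · rw [hLo a fun z hz => h ⟨z, hz⟩]; exact hl a
  have hLE : ∑ a, E (L a) = ∑ a, E (l a) + ∑ z, Δ z := by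
    have h1 : ∑ a, (E (L a) - E (l a)) = ∑ z, Δ z := by
      rw [← sum_subset (subset_univ (univ.image g))]
      · rw [sum_image fun a _ b _ h => hg h]
        refine sum_congr rfl fun z _ => ?_
        rw [hLg, hl'E]
        abel
      · intro a _ ha
        rw [hLo a, sub_self]
        intro z hz
        exact ha (mem_image.2 ⟨z, mem_univ _, hz⟩)
    rw [← h1, sum_sub_distrib]
    abel
  let R : T → Perm U := fun i => swap (u i) (x₁ i) * r i
  have hRc : ∀ i, Closed (R i) := by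
    intro i
    have := closed_splice (r i) (hne i) (hall i)
    rwa [hq, hx₀] at this
  have hRE : ∀ i, E (R i) = E (r i) - (Δ (i, 0) + Δ (i, 1) + Δ (i, 2)) := by
    intro i
    have h1 : q i ≠ x₀ i := fun h => hne i (h ▸ Perm.SameCycle.refl _ _)
    have h4 : u i ≠ x₀ i := fun h => hne i (h ▸ (hq i ▸ (Perm.sameCycle_apply_right.2
      (Perm.SameCycle.refl _ _))))
    have h5 : x₁ i ≠ q i := fun h => hne i (Perm.SameCycle.symm (h ▸ (hx₀ i ▸
      (Perm.sameCycle_apply_right.2 (Perm.SameCycle.refl _ _)))))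
    show E (swap (u i) (x₁ i) * r i) = _
    rw [E_splice (r i) (hp i) (hq i) (hu i) (hx₃ i) (hx₀ i) (hx₁ i) h1 (hqu i) (hxx i) h4 h5]
    show _ = E (r i) - ((- pr (x₀ i) (u i) - pr (x₁ i) (q i) + pr (x₀ i) (x₁ i) +
        pr (u i) (q i)) + (- pr (x₃ i) (u i) - pr (x₁ i) (p i) + pr (x₃ i) (x₁ i) +
        pr (u i) (p i)) + (- pr (x₀ i) (v i) - pr (x₂ i) (q i) + pr (x₀ i) (x₂ i) +
        pr (v i) (q i)))
    rw [pr_comm (u i) (q i), pr_comm (u i) (p i), pr_comm (v i) (q i), pr_comm (x₁ i) (q i),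
      pr_comm (x₁ i) (p i), pr_comm (x₂ i) (q i)]
    abel
  refine ⟨Sum.elim L R, ⟨?_, ?_⟩⟩
  · rintro (a | i)
    · exact hLc a
    · exact hRc i
  · rw [Fintype.sum_sum_type]
    simp only [Sum.elim_inl, Sum.elim_inr]
    rw [hLE, sum_congr rfl fun i _ => hRE i, sum_sub_distrib, Fintype.sum_prod_type, ← hsum]
    simp only [Fin.sum_univ_three]
    abel

end SqIns
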