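import Pool.Agent.Lib.SqIns.Splice

/-!
# The splice theorem with several exchanges in one closed square

A move in a closed square is a stretch `y a b w c d`; the transposition of `b` and `w` uses `yw`,
`bd` instead of `yb`, `wd`.  Moves which are apart can be made in the same square.
-/

open Finset Equiv

namespace SqIns

/-- six consecutive points `y a b w c d` (the middle two are exchanged) -/
structure Move (U : Type*) where
  y : U
  a : U
  b : U
  w : U
  c : U
  d : U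

variable {U : Type*} [DecidableEq U]

/-- the move can be made in `l` -/
def Move.In (m : Move U) (l : Perm U) : Prop :=
  l m.y = m.a ∧ l m.a = m.b ∧ l m.b = m.w ∧ l m.w = m.c ∧ l m.c = m.d

/-- the move read backwards -/
def Move.rev (m : Move U) : Move U := ⟨m.d, m.c, m.w, m.b, m.a, m.y⟩

/-- change of the edges -/
def Move.Δ (m : Move U) : Sym2 U → ℤ := - pr m.y m.b - pr m.w m.d + pr m.y m.w + pr m.b m.d

theorem Move.Δ_rev (m : Move U) : m.rev.Δ = m.Δ := by
  show - pr m.d m.w - pr m.b m.y + pr m.d m.b + pr m.w m.y = _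
  rw [pr_comm m.d m.w, pr_comm m.b m.y, pr_comm m.d m.b, pr_comm m.w m.y]
  show _ = - pr m.y m.b - pr m.w m.d + pr m.y m.w + pr m.b m.d
  abel

theorem Move.In.rev {m : Move U} {l : Perm U} (h : m.In l⁻¹) : m.rev.In l := by
  obtain ⟨h1, h2, h3, h4, h5⟩ := h
  refine ⟨?_, ?_, ?_, ?_, ?_⟩
  · show l m.d = m.c
    rw [← h5]; simp
  · show l m.c = m.w
    rw [← h4]; simp
  · show l m.w = m.b
    rw [← h3]; simp
  · show l m.b = m.a
    rw [← h2]; simp
  · show l m.a = m.y
    rw [← h1]; simp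

/-- `x` is none of the six points of the move -/
def Move.Off (m : Move U) (x : U) : Prop :=
  x ≠ m.y ∧ x ≠ m.a ∧ x ≠ m.b ∧ x ≠ m.w ∧ x ≠ m.c ∧ x ≠ m.d

/-- the exchanged points of `m` are not among the points of `m'` -/
def Move.Apart (m m' : Move U) : Prop := m'.Off m.b ∧ m'.Off m.w

theorem Move.In.conj {m m' : Move U} {l : Perm U} (h : m'.In l) (hap : m.Apart m') :
    m'.In (swap m.b m.w * l * swap m.b m.w) := by
  obtain ⟨⟨a1, a2, a3, a4, a5, a6⟩, ⟨b1, b2, b3, b4, b5, b6⟩⟩ := hap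
  obtain ⟨h1, h2, h3, h4, h5⟩ := h
  refine ⟨?_, ?_, ?_, ?_, ?_⟩
  · rw [Perm.mul_apply, Perm.mul_apply, swap_apply_of_ne_of_ne a1.symm b1.symm, h1,
      swap_apply_of_ne_of_ne a2.symm b2.symm]
  · rw [Perm.mul_apply, Perm.mul_apply, swap_apply_of_ne_of_ne a2.symm b2.symm, h2,
      swap_apply_of_ne_of_ne a3.symm b3.symm]
  · rw [Perm.mul_apply, Perm.mul_apply, swap_apply_of_ne_of_ne a3.symm b3.symm, h3,
      swap_apply_of_ne_of_ne a4.symm b4.symm]
  · rw [Perm.mul_apply, Perm.mul_apply, swap_apply_of_ne_of_ne a4.symm b4.symm, h4,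
      swap_apply_of_ne_of_ne a5.symm b5.symm]
  · rw [Perm.mul_apply, Perm.mul_apply, swap_apply_of_ne_of_ne a5.symm b5.symm, h5,
      swap_apply_of_ne_of_ne a6.symm b6.symm]

variable [Fintype U]

/-- one move -/
theorem Move.In.exch {m : Move U} {l : Perm U} (h : m.In l) (hl : Closed l)
    (hc : 5 < Fintype.card U) :
    Closed (swap m.b m.w * l * swap m.b m.w) ∧
      E (swap m.b m.w * l * swap m.b m.w) = E l + m.Δ := by
  obtain ⟨hya, hab, hbw, hwc, hcd⟩ := h
  have n1 : ∀ x, l x ≠ x := hl.ne1 (by omega)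
  have n2 : ∀ x, l (l x) ≠ x := hl.ne2 (by omega)
  have n3 : ∀ x, l (l (l x)) ≠ x := hl.ne3 (by omega)
  constructor
  · have := hl.conj (swap m.b m.w)
    rwa [swap_inv] at this
  · have e : E (swap m.b m.w * l * swap m.b m.w) =
        E l - pr m.y m.b - pr m.w m.d + pr m.y m.w + pr m.b m.d := by
      refine E_conj_swap l hya hab hbw hwc hcd ?_ ?_ ?_ ?_ ?_ ?_ ?_ ?_ ?_ ?_ ?_
      · rw [← hab, ← hya]; exact (n2 _).symm
      · rw [← hbw, ← hab, ← hya]; exact (n3 _).symm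
      · rw [← hab]; exact (n1 _).symm
      · rw [← hbw, ← hab]; exact (n2 _).symm
      · rw [← hbw]; exact (n1 _).symm
      · rw [← hwc, ← hbw]; exact (n2 _).symm
      · rw [← hwc]; exact (n1 _).symm
      · rw [← hya]; exact (n1 _).symm
      · rw [← hwc, ← hbw, ← hab]; exact (n3 _).symm
      · rw [← hcd, ← hwc, ← hbw]; exact (n3 _).symm
      · rw [← hcd, ← hwc]; exact (n2 _).symm
    rw [e]
    show _ = E l + (- pr m.y m.b - pr m.w m.d + pr m.y m.w + pr m.b m.d)
    abel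

/-- several moves in one closed square -/
theorem multi_exch {J : Type*} (S : Finset J) (m : J → Move U) (hc : 5 < Fintype.card U) :
    ∀ l : Perm U, Closed l → (∀ j ∈ S, (m j).In l) →
      (∀ i ∈ S, ∀ j ∈ S, i ≠ j → (m i).Apart (m j)) →
      ∃ l' : Perm U, Closed l' ∧ E l' = E l + ∑ j ∈ S, (m j).Δ := by
  classical
  induction S using Finset.induction_on with
  | empty =>
    intro l hl _ _
    exact ⟨l, hl, by simp⟩
  | insert j S hj ih =>
    intro l hl hin hap
    obtain ⟨h1, h2⟩ := (hin j (mem_insert_self j S)).exch hl hc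
    obtain ⟨l', h3, h4⟩ := ih _ h1 (fun i hi => (hin i (mem_insert_of_mem hi)).conj
      (hap j (mem_insert_self j S) i (mem_insert_of_mem hi) (fun h => hj (h ▸ hi))))
      (fun i hi i' hi' hne => hap i (mem_insert_of_mem hi) i' (mem_insert_of_mem hi') hne)
    refine ⟨l', h3, ?_⟩
    rw [h4, h2, sum_insert hj, add_assoc]

/-- several moves in a family of closed squares -/
theorem multi_exch_family {Λ J : Type*} [Fintype Λ] [Fintype J] [DecidableEq Λ]
    (l : Λ → Perm U) (hl : ∀ a, Closed (l a)) (hc : 5 < Fintype.card U)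
    (m : J → Move U) (g : J → Λ) (hin : ∀ j, (m j).In (l (g j)))
    (hap : ∀ i j, i ≠ j → g i = g j → (m i).Apart (m j)) :
    ∃ L : Λ → Perm U, (∀ a, Closed (L a)) ∧ ∑ a, E (L a) = ∑ a, E (l a) + ∑ j, (m j).Δ := by
  classical
  have h : ∀ a, ∃ l' : Perm U, Closed l' ∧
      E l' = E (l a) + ∑ j ∈ univ.filter (fun j => g j = a), (m j).Δ := by
    intro a
    refine multi_exch _ m hc (l a) (hl a) ?_ ?_
    · intro j hj
      rw [mem_filter] at hj
      rw [← hj.2]
      exact hin j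
    · intro i hi j hj hne
      rw [mem_filter] at hi hj
      exact hap i j hne (by rw [hi.2, hj.2])
  choose L hL1 hL2 using h
  refine ⟨L, hL1, ?_⟩
  rw [sum_congr rfl fun a _ => hL2 a, sum_add_distrib]
  congr 1
  exact Finset.sum_fiberwise_of_maps_to (fun _ _ => mem_univ _) _

/-- **The splice theorem**, several exchanges in one square of the family `l` are allowed. -/
theorem splice_theorem2 {Λ T : Type*} [Fintype Λ] [Fintype T] [DecidableEq Λ] [DecidableEq T]
    (hc : 5 < Fintype.card U)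
    (l : Λ → Perm U) (hl : ∀ a, Closed (l a)) (r : T → Perm U)
    (hsum : ∑ a, E (l a) + ∑ i, E (r i) = allPairs U)
    (p q u v x₃ x₀ x₁ x₂ : T → U)
    (hp : ∀ i, r i (p i) = q i) (hq : ∀ i, r i (q i) = u i) (hu : ∀ i, r i (u i) = v i)
    (hx₃ : ∀ i, r i (x₃ i) = x₀ i) (hx₀ : ∀ i, r i (x₀ i) = x₁ i) (hx₁ : ∀ i, r i (x₁ i) = x₂ i)
    (hqu : ∀ i, q i ≠ u i) (hxx : ∀ i, x₀ i ≠ x₁ i)
    (hne : ∀ i, ¬ (r i).SameCycle (q i) (x₀ i))
    (hall : ∀ i x, (r i).SameCycle (q i) x ∨ (r i).SameCycle (x₀ i) x)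
    (g : T × Fin 3 → Λ) (m : T × Fin 3 → Move U)
    (hin : ∀ z, (m z).In (l (g z)))
    (hap : ∀ z z', z ≠ z' → g z = g z' → (m z).Apart (m z'))
    (hΔ : ∀ i, (m (i, 0)).Δ + (m (i, 1)).Δ + (m (i, 2)).Δ =
      (- pr (x₀ i) (u i) - pr (x₁ i) (q i) + pr (x₀ i) (x₁ i) + pr (u i) (q i)) +
      (- pr (x₃ i) (u i) - pr (x₁ i) (p i) + pr (x₃ i) (x₁ i) + pr (u i) (p i)) +
      (- pr (x₀ i) (v i) - pr (x₂ i) (q i) + pr (x₀ i) (x₂ i) + pr (v i) (q i))) :
    ∃ s : Λ ⊕ T → Perm U, Dec s := by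
  classical
  obtain ⟨L, hLc, hLE⟩ := multi_exch_family l hl hc m g hin hap
  let R : T → Perm U := fun i => swap (u i) (x₁ i) * r i
  have hRc : ∀ i, Closed (R i) := by
    intro i
    have := closed_splice (r i) (hne i) (hall i)
    rwa [hq, hx₀] at this
  have hRE : ∀ i, E (R i) = E (r i) - ((m (i, 0)).Δ + (m (i, 1)).Δ + (m (i, 2)).Δ) := by
    intro i
    have h1 : q i ≠ x₀ i := fun h => hne i (h ▸ Perm.SameCycle.refl _ _)
    have h4 : u i ≠ x₀ i := fun h => hne i (h ▸ (hq i ▸ (Perm.sameCycle_apply_right.2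
      (Perm.SameCycle.refl _ _))))
    have h5 : x₁ i ≠ q i := fun h => hne i (Perm.SameCycle.symm (h ▸ (hx₀ i ▸
      (Perm.sameCycle_apply_right.2 (Perm.SameCycle.refl _ _)))))
    rw [hΔ]
    show E (swap (u i) (x₁ i) * r i) = _
    rw [E_splice (r i) (hp i) (hq i) (hu i) (hx₃ i) (hx₀ i) (hx₁ i) h1 (hqu i) (hxx i) h4 h5]
    rw [pr_comm (u i) (q i), pr_comm (u i) (p i), pr_comm (v i) (q i), pr_comm (x₁ i) (q i),
      pr_comm (x₁ i) (p i), pr_comm (x₂ i) (q i)]
    abel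
  refine ⟨Sum.elim L R, ⟨?_, ?_⟩⟩
  · rintro (a | i)
    · exact hLc a
    · exact hRc i
  · rw [Fintype.sum_sum_type]
    simp only [Sum.elim_inl, Sum.elim_inr]
    rw [hLE, sum_congr rfl fun i _ => hRE i, sum_sub_distrib, Fintype.sum_prod_type, ← hsum]
    simp only [Fin.sum_univ_three]
    abel

end SqIns
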