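import Pool.Agent.Lib.SqIns.Bridge

/-!
# Half-turn 1-rotational starters

Points: infinity and two copies of `ZMod (2k)`; the half word `y 0, …, y (2k-1)` gives the closed
square `∞, y 0, …, y (2k-1), y (2k-1) + k, …, y 0 + k`, and its translates by `0, …, k-1` decompose
the complete graph.  The conditions are checked with bit masks.
-/

open Finset Equiv

namespace SqIns

/-- set of the values `f 0, …, f (n-1)` as a bit mask -/
def mk (f : ℕ → ℕ) : ℕ → ℕ
  | 0 => 0
  | n + 1 => mk f n ||| 2 ^ f n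

theorem exists_of_testBit_mk (f : ℕ → ℕ) (n c : ℕ) (h : (mk f n).testBit c = true) :
    ∃ i < n, f i = c := by
  induction n with
  | zero => simp [mk] at h
  | succ n ih =>
    rw [mk, Nat.testBit_or, Bool.or_eq_true, Nat.testBit_two_pow, decide_eq_true_eq] at h
    rcases h with h | h
    · obtain ⟨i, hi, hc⟩ := ih h
      exact ⟨i, by omega, hc⟩
    · exact ⟨n, by omega, h⟩

/-- digit `i` of `N` in base `4k`: the code of the point `y i` -/
def yw (k N i : ℕ) : ℕ := N / (4 * k) ^ i % (4 * k)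

/-- half turn -/
def ht (k a : ℕ) : ℕ := a / (2 * k) * (2 * k) + (a + k) % (2 * k)

/-- code of an ordered pair -/
def pc (k a b : ℕ) : ℕ := (b + 4 * k - a) % (2 * k) + 2 * k * (a / (2 * k) + 2 * (b / (2 * k)))

/-- the vertices -/
def vmask (k N : ℕ) : ℕ := mk (fun i => yw k N i / (2 * k) * k + yw k N i % k) (2 * k)

/-- the colours -/
def cmask (k N : ℕ) : ℕ :=
  mk (fun i => pc k (yw k N i) (yw k N (i + 1))) (2 * k - 1) |||
  (mk (fun i => pc k (yw k N (i + 1)) (yw k N i)) (2 * k - 1) |||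
  (mk (fun i => pc k (yw k N i) (yw k N (i + 2))) (2 * k - 2) |||
  (mk (fun i => pc k (yw k N (i + 2)) (yw k N i)) (2 * k - 2) |||
  (2 ^ pc k (yw k N (2 * k - 1)) (ht k (yw k N (2 * k - 1))) |||
  (2 ^ pc k (yw k N (2 * k - 2)) (ht k (yw k N (2 * k - 1))) |||
  (2 ^ pc k (ht k (yw k N (2 * k - 1))) (yw k N (2 * k - 2)) |||
  (2 ^ pc k (yw k N 0) (ht k (yw k N 0)) |||
  (2 ^ 0 ||| 2 ^ (6 * k)))))))))

/-- the check -/
def chk (k N : ℕ) : Bool :=
  (Nat.beq (vmask k N) (2 ^ (2 * k) - 1)).and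
    ((Nat.beq (cmask k N) (2 ^ (8 * k) - 1)).and
      (Nat.beq (yw k N 0 / (2 * k) + yw k N 1 / (2 * k)) 1))

section

variable {k : ℕ}

/-- points -/
abbrev SPt (k : ℕ) := Option (Bool × ZMod (2 * k))

/-- the point with code `m` -/
def dcd (k m : ℕ) : Bool × ZMod (2 * k) := (decide (2 * k ≤ m), (m : ZMod (2 * k)))

theorem yw_lt (hk : 0 < k) (N i : ℕ) : yw k N i < 4 * k := Nat.mod_lt _ (by omega)

theorem div_two (_ : 0 < k) {a : ℕ} (ha : a < 4 * k) :
    a / (2 * k) = (decide (2 * k ≤ a)).toNat := by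
  by_cases h : 2 * k ≤ a
  · have h1 : a / (2 * k) = 1 := Nat.div_eq_of_lt_le (by omega) (by omega)
    rw [decide_eq_true h, h1]
    rfl
  · rw [decide_eq_false h, Nat.div_eq_of_lt (by omega)]
    rfl

/-- translation of finite points -/
def tr (P : Bool × ZMod (2 * k)) (c : ZMod (2 * k)) : Bool × ZMod (2 * k) := (P.1, P.2 + c)

theorem ht_lt (hk : 0 < k) {a : ℕ} (ha : a < 4 * k) : ht k a < 4 * k := by
  unfold ht
  rw [div_two hk ha]
  have := Nat.mod_lt (a + k) (by omega : 0 < 2 * k)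
  rcases (decide (2 * k ≤ a)) with _ | _
  · simp only [Bool.toNat_false]; omega
  · simp only [Bool.toNat_true]; omega

theorem dcd_ht (hk : 0 < k) {a : ℕ} (ha : a < 4 * k) :
    dcd k (ht k a) = tr (dcd k a) (k : ZMod (2 * k)) := by
  have h1 := Nat.mod_lt (a + k) (by omega : 0 < 2 * k)
  unfold tr dcd
  refine Prod.ext ?_ ?_
  · show decide (2 * k ≤ ht k a) = decide (2 * k ≤ a)
    unfold ht
    rw [div_two hk ha]
    by_cases h : 2 * k ≤ a
    · simp [h]
    · simp [h]
      omega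
  · show ((ht k a : ℕ) : ZMod (2 * k)) = (a : ZMod (2 * k)) + k
    unfold ht
    push_cast
    have h2 : ((2 * k : ℕ) : ZMod (2 * k)) = 0 := ZMod.natCast_self _
    push_cast at h2
    rw [h2, mul_zero, zero_add]
    have h3 : (((a + k) % (2 * k) : ℕ) : ZMod (2 * k)) = ((a + k : ℕ) : ZMod (2 * k)) :=
      ZMod.natCast_mod _ _
    rw [h3]
    push_cast
    ring

/-- code of an ordered pair of points -/
def cdp (u v : Bool × ZMod (2 * k)) : ℕ := (v.2 - u.2).val + 2 * k * (u.1.toNat + 2 * v.1.toNat)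

theorem pc_eq (hk : 0 < k) {a b : ℕ} (ha : a < 4 * k) (hb : b < 4 * k) :
    pc k a b = cdp (dcd k a) (dcd k b) := by
  have : NeZero (2 * k) := ⟨by omega⟩
  unfold pc cdp
  rw [div_two hk ha, div_two hk hb]
  congr 1
  show _ = ((b : ZMod (2 * k)) - (a : ZMod (2 * k))).val
  have h1 : ((b : ZMod (2 * k)) - (a : ZMod (2 * k))) = ((b + 4 * k - a : ℕ) : ZMod (2 * k)) := by
    rw [Nat.cast_sub (by omega)]
    have h2 : ((2 * k : ℕ) : ZMod (2 * k)) = 0 := ZMod.natCast_self _
    have h3 : ((4 * k : ℕ) : ZMod (2 * k)) = 0 := by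
      rw [show 4 * k = 2 * (2 * k) by ring, Nat.cast_mul, h2, mul_zero]
    rw [Nat.cast_add, h3, add_zero]
  rw [h1, ZMod.val_natCast]

theorem cdp_inj (hk : 0 < k) {u v a b : Bool × ZMod (2 * k)} (h : cdp u v = cdp a b) :
    u = tr a (u.2 - a.2) ∧ v = tr b (u.2 - a.2) := by
  have : NeZero (2 * k) := ⟨by omega⟩
  unfold cdp at h
  have h1 := ZMod.val_lt (v.2 - u.2)
  have h2 := ZMod.val_lt (b.2 - a.2)
  have h3 : (v.2 - u.2).val = (b.2 - a.2).val ∧
      u.1.toNat + 2 * v.1.toNat = a.1.toNat + 2 * b.1.toNat := by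
    have e1 : (u.1.toNat + 2 * v.1.toNat) = (a.1.toNat + 2 * b.1.toNat) := by
      have g1 : ((v.2 - u.2).val + 2 * k * (u.1.toNat + 2 * v.1.toNat)) / (2 * k) =
          u.1.toNat + 2 * v.1.toNat := by
        rw [Nat.add_mul_div_left _ _ (by omega), Nat.div_eq_of_lt h1, zero_add]
      have g2 : ((b.2 - a.2).val + 2 * k * (a.1.toNat + 2 * b.1.toNat)) / (2 * k) =
          a.1.toNat + 2 * b.1.toNat := by
        rw [Nat.add_mul_div_left _ _ (by omega), Nat.div_eq_of_lt h2, zero_add]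
      rw [← g1, h, g2]
    refine ⟨?_, e1⟩
    rw [e1] at h
    omega
  obtain ⟨h3, h4⟩ := h3
  have h5 := ZMod.val_injective (2 * k) h3
  have h6 : u.1 = a.1 ∧ v.1 = b.1 := by
    revert h4
    rcases u.1 with _ | _ <;> rcases v.1 with _ | _ <;> rcases a.1 with _ | _ <;>
      rcases b.1 with _ | _ <;> simp
  refine ⟨Prod.ext h6.1 ?_, Prod.ext h6.2 ?_⟩
  · show u.2 = a.2 + (u.2 - a.2)
    ring
  · show v.2 = b.2 + (u.2 - a.2)
    linear_combination h5

theorem cdp_lt (hk : 0 < k) (u v : Bool × ZMod (2 * k)) : cdp u v < 8 * k := by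
  have : NeZero (2 * k) := ⟨by omega⟩
  unfold cdp
  have h1 := ZMod.val_lt (v.2 - u.2)
  rcases u.1 with _ | _ <;> rcases v.1 with _ | _ <;>
    simp only [Bool.toNat_false, Bool.toNat_true] <;> omega

theorem cdp_ne (hk : 0 < k) {u v : Bool × ZMod (2 * k)} (huv : u ≠ v) :
    cdp u v ≠ 0 ∧ cdp u v ≠ 6 * k := by
  have : NeZero (2 * k) := ⟨by omega⟩
  constructor
  · intro h
    have h0 : cdp u v = cdp (k := k) (false, 0) (false, 0) := by
      rw [h]; simp [cdp]
    obtain ⟨h1, h2⟩ := cdp_inj hk h0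
    exact huv (h1.trans h2.symm)
  · intro h
    have h0 : cdp u v = cdp (k := k) (true, 0) (true, 0) := by
      rw [h]; simp [cdp]; ring
    obtain ⟨h1, h2⟩ := cdp_inj hk h0
    exact huv (h1.trans h2.symm)

/-- translation of all points -/
def trP (c : ZMod (2 * k)) : Perm (SPt k) :=
  Equiv.optionCongr ((Equiv.refl Bool).prodCongr (Equiv.addRight c))

theorem trP_some (c : ZMod (2 * k)) (P : Bool × ZMod (2 * k)) : trP c (some P) = some (tr P c) :=
  rfl

theorem trP_none (c : ZMod (2 * k)) : trP c (none : SPt k) = none := rfl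

/-- the points of the block in cyclic order -/
def blk (k N : ℕ) (i : ℕ) : SPt k :=
  if i = 0 then none else if i ≤ 2 * k then some (dcd k (yw k N (i - 1)))
  else some (dcd k (ht k (yw k N (4 * k - i))))

theorem blk_zero (k N : ℕ) : blk k N 0 = none := rfl

theorem blk_lo {N i : ℕ} (hi : i < 2 * k) : blk k N (i + 1) = some (dcd k (yw k N i)) := by
  unfold blk
  rw [if_neg (by omega), if_pos (by omega), Nat.add_sub_cancel]

theorem blk_hi {N i : ℕ} (hi : i < 2 * k) :
    blk k N (4 * k - i) = some (dcd k (ht k (yw k N i))) := by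
  unfold blk
  rw [if_neg (by omega), if_neg (by omega), show 4 * k - (4 * k - i) = i by omega]

theorem blk_surj (hk : 0 < k) {N : ℕ} (hv : vmask k N = 2 ^ (2 * k) - 1) (P : SPt k) :
    ∃ i < 4 * k + 1, blk k N i = P := by
  have : NeZero (2 * k) := ⟨by omega⟩
  rcases P with _ | ⟨t, x⟩
  · exact ⟨0, by omega, rfl⟩
  · have hx := ZMod.val_lt x
    have hxk := Nat.mod_lt x.val hk
    have h1 : (vmask k N).testBit (t.toNat * k + x.val % k) = true := by
      rw [hv, Nat.testBit_two_pow_sub_one, decide_eq_true_eq]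
      rcases t with _ | _
      · simp only [Bool.toNat_false]; omega
      · simp only [Bool.toNat_true]; omega
    obtain ⟨j, hj, h2⟩ := exists_of_testBit_mk _ _ _ h1
    have hy := yw_lt hk N j
    simp only [div_two hk hy] at h2
    set a := yw k N j with ha
    have hak := Nat.mod_lt a hk
    have h3 : (decide (2 * k ≤ a)) = t ∧ a % k = x.val % k := by
      rcases hd : decide (2 * k ≤ a) with _ | _ <;> rcases t with _ | _ <;>
        rw [hd] at h2 <;> simp only [Bool.toNat_false, Bool.toNat_true] at h2 <;>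
        first
          | exact ⟨rfl, by omega⟩
          | (exfalso; omega)
    obtain ⟨h3, h4⟩ := h3
    have h5 : x = (a : ZMod (2 * k)) ∨ x = (a : ZMod (2 * k)) + k := by
      have e1 : x = ((x.val : ℕ) : ZMod (2 * k)) := (ZMod.natCast_zmod_val x).symm
      have e2 : ((a % (2 * k) : ℕ) : ZMod (2 * k)) = (a : ZMod (2 * k)) := ZMod.natCast_mod _ _
      have e3 := Nat.mod_lt a (by omega : 0 < 2 * k)
      have e4 : a % (2 * k) % k = a % k := Nat.mod_mul_left_mod a 2 k
      rw [← e2]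
      generalize a % (2 * k) = b at e3 e4
      rw [← e4] at h4
      have e5 : x.val = b ∨ x.val = b + k ∨ b = x.val + k := by
        have f1 := Nat.div_add_mod x.val k
        have f2 := Nat.div_add_mod b k
        have f3 : x.val / k < 2 := (Nat.div_lt_iff_lt_mul hk).2 (by omega)
        have f4 : b / k < 2 := (Nat.div_lt_iff_lt_mul hk).2 (by omega)
        interval_cases x.val / k <;> interval_cases b / k <;> omega
      rcases e5 with e5 | e5 | e5
      · left; rw [e1, e5]
      · right; rw [e1, e5]; push_cast; ring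
      · right
        rw [e5]
        push_cast
        have h2 : ((2 * k : ℕ) : ZMod (2 * k)) = 0 := ZMod.natCast_self _
        push_cast at h2
        rw [ZMod.natCast_zmod_val]
        linear_combination -h2
    rcases h5 with h5 | h5
    · refine ⟨j + 1, by omega, ?_⟩
      rw [blk_lo hj]
      unfold dcd
      rw [← ha, h3, h5]
    · refine ⟨4 * k - j, by omega, ?_⟩
      rw [blk_hi hj, dcd_ht hk (yw_lt hk N j)]
      unfold dcd tr
      rw [← ha, h3, h5]

/-- adjacency of the codes in the block -/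
def BAdj (k N : ℕ) (a b : Bool × ZMod (2 * k)) : Prop :=
  ∃ i j, i < 4 * k + 1 ∧ j < 4 * k + 1 ∧ blk k N i = some a ∧ blk k N j = some b ∧
    (j = i + 1 ∨ j = i + 2 ∨ i = j + 1 ∨ i = j + 2 ∨ (i = 1 ∧ j = 4 * k) ∨ (i = 4 * k ∧ j = 1))

theorem BAdj.symm {N : ℕ} {a b : Bool × ZMod (2 * k)} (h : BAdj k N a b) : BAdj k N b a := by
  obtain ⟨i, j, hi, hj, h1, h2, h3⟩ := h
  exact ⟨j, i, hj, hi, h2, h1, by tauto⟩

/-- both half turns are adjacent -/
def BAdj2 (k N : ℕ) (a b : Bool × ZMod (2 * k)) : Prop :=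
  BAdj k N a b ∧ BAdj k N (tr a (k : ZMod (2 * k))) (tr b (k : ZMod (2 * k)))

theorem BAdj2.symm {N : ℕ} {a b : Bool × ZMod (2 * k)} (h : BAdj2 k N a b) : BAdj2 k N b a :=
  ⟨h.1.symm, h.2.symm⟩

theorem tr_k_k (a : Bool × ZMod (2 * k)) : tr (tr a (k : ZMod (2 * k))) (k : ZMod (2 * k)) = a := by
  have h2 : ((2 * k : ℕ) : ZMod (2 * k)) = 0 := ZMod.natCast_self _
  push_cast at h2
  refine Prod.ext rfl ?_
  show a.2 + k + k = a.2
  linear_combination h2

theorem badj2_of_cmask (hk : 0 < k) {N : ℕ} (hc : cmask k N = 2 ^ (8 * k) - 1)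
    {u v : Bool × ZMod (2 * k)} (huv : u ≠ v) :
    ∃ a b, BAdj2 k N a b ∧ cdp a b = cdp u v := by
  have hy := fun i => yw_lt hk N i
  have hne := cdp_ne hk huv
  have hlt := cdp_lt hk u v
  have h1 : (cmask k N).testBit (cdp u v) = true := by
    rw [hc, Nat.testBit_two_pow_sub_one, decide_eq_true_eq]
    exact hlt
  have A1 : ∀ i, i < 2 * k - 1 → BAdj2 k N (dcd k (yw k N i)) (dcd k (yw k N (i + 1))) := by
    intro i hi
    constructor
    · exact ⟨i + 1, i + 1 + 1, by omega, by omega, blk_lo (by omega), blk_lo (by omega), by omega⟩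
    · refine ⟨4 * k - i, 4 * k - (i + 1), by omega, by omega, ?_, ?_, by omega⟩
      · rw [blk_hi (by omega), dcd_ht hk (hy _)]
      · rw [blk_hi (by omega), dcd_ht hk (hy _)]
  have A2 : ∀ i, i < 2 * k - 2 → BAdj2 k N (dcd k (yw k N i)) (dcd k (yw k N (i + 2))) := by
    intro i hi
    constructor
    · exact ⟨i + 1, i + 2 + 1, by omega, by omega, blk_lo (by omega), blk_lo (by omega), by omega⟩
    · refine ⟨4 * k - i, 4 * k - (i + 2), by omega, by omega, ?_, ?_, by omega⟩
      · rw [blk_hi (by omega), dcd_ht hk (hy _)]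
      · rw [blk_hi (by omega), dcd_ht hk (hy _)]
  have A3 : BAdj2 k N (dcd k (yw k N (2 * k - 1))) (dcd k (ht k (yw k N (2 * k - 1)))) := by
    have h0 : BAdj k N (dcd k (yw k N (2 * k - 1))) (dcd k (ht k (yw k N (2 * k - 1)))) :=
      ⟨2 * k - 1 + 1, 4 * k - (2 * k - 1), by omega, by omega, blk_lo (by omega),
        blk_hi (by omega), by omega⟩
    refine ⟨h0, ?_⟩
    rw [dcd_ht hk (hy _)] at h0 ⊢
    rw [tr_k_k]
    exact h0.symm
  have A4 : BAdj2 k N (dcd k (yw k N (2 * k - 2))) (dcd k (ht k (yw k N (2 * k - 1)))) := by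
    constructor
    · exact ⟨2 * k - 2 + 1, 4 * k - (2 * k - 1), by omega, by omega, blk_lo (by omega),
        blk_hi (by omega), by omega⟩
    · rw [dcd_ht hk (hy _), tr_k_k]
      refine ⟨4 * k - (2 * k - 2), 2 * k - 1 + 1, by omega, by omega, ?_, blk_lo (by omega),
        by omega⟩
      rw [blk_hi (by omega), dcd_ht hk (hy _)]
  have A5 : BAdj2 k N (dcd k (yw k N 0)) (dcd k (ht k (yw k N 0))) := by
    have h0 : BAdj k N (dcd k (yw k N 0)) (dcd k (ht k (yw k N 0))) :=
      ⟨0 + 1, 4 * k - 0, by omega, by omega, blk_lo (by omega), blk_hi (by omega), by omega⟩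
    refine ⟨h0, ?_⟩
    rw [dcd_ht hk (hy _)] at h0 ⊢
    rw [tr_k_k]
    exact h0.symm
  unfold cmask at h1
  simp only [Nat.testBit_or, Bool.or_eq_true, Nat.testBit_two_pow, decide_eq_true_eq] at h1
  rcases h1 with h1 | h1 | h1 | h1 | h1 | h1 | h1 | h1 | h1 | h1
  · obtain ⟨i, hi, h2⟩ := exists_of_testBit_mk _ _ _ h1
    refine ⟨_, _, A1 i hi, ?_⟩
    rw [← h2, pc_eq hk (hy _) (hy _)]
  · obtain ⟨i, hi, h2⟩ := exists_of_testBit_mk _ _ _ h1
    refine ⟨_, _, (A1 i hi).symm, ?_⟩
    rw [← h2, pc_eq hk (hy _) (hy _)]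
  · obtain ⟨i, hi, h2⟩ := exists_of_testBit_mk _ _ _ h1
    refine ⟨_, _, A2 i hi, ?_⟩
    rw [← h2, pc_eq hk (hy _) (hy _)]
  · obtain ⟨i, hi, h2⟩ := exists_of_testBit_mk _ _ _ h1
    refine ⟨_, _, (A2 i hi).symm, ?_⟩
    rw [← h2, pc_eq hk (hy _) (hy _)]
  · exact ⟨_, _, A3, by rw [← h1, pc_eq hk (hy _) (ht_lt hk (hy _))]⟩
  · exact ⟨_, _, A4, by rw [← h1, pc_eq hk (hy _) (ht_lt hk (hy _))]⟩
  · exact ⟨_, _, A4.symm, by rw [← h1, pc_eq hk (ht_lt hk (hy _)) (hy _)]⟩
  · exact ⟨_, _, A5, by rw [← h1, pc_eq hk (hy _) (ht_lt hk (hy _))]⟩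
  · exact absurd h1.symm hne.1
  · exact absurd h1.symm hne.2

/-- The check gives a decomposition, explicit form. -/
theorem dec_of_chk_equiv [NeZero (2 * k)] {N : ℕ} (h : chk k N = true) :
    ∃ e : ZMod (4 * k + 1) ≃ SPt k,
      (∀ i, i < 4 * k + 1 → e (i : ZMod (4 * k + 1)) = blk k N i) ∧
      Dec (fun m : Fin k => rot (e.trans (trP (m.val : ZMod (2 * k))))) := by
  have hk : 0 < k := by
    have := NeZero.ne (2 * k)
    omega
  have hn0 : NeZero (4 * k + 1) := ⟨by omega⟩
  unfold chk at h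
  simp only [Bool.and_eq_true] at h
  obtain ⟨hv, hc, ht0⟩ := h
  replace hv := Nat.eq_of_beq_eq_true hv
  replace hc := Nat.eq_of_beq_eq_true hc
  replace ht0 := Nat.eq_of_beq_eq_true ht0
  have hcard : Fintype.card (SPt k) = 4 * k + 1 := by
    rw [Fintype.card_option, Fintype.card_prod, Fintype.card_bool, ZMod.card]
    ring
  have hbij : Function.Bijective (fun i : ZMod (4 * k + 1) => blk k N i.val) := by
    rw [Fintype.bijective_iff_surjective_and_card]
    refine ⟨fun P => ?_, by rw [ZMod.card, hcard]⟩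
    obtain ⟨i, hi, hP⟩ := blk_surj hk hv P
    refine ⟨(i : ZMod (4 * k + 1)), ?_⟩
    show blk k N (i : ZMod (4 * k + 1)).val = P
    rw [ZMod.val_natCast, Nat.mod_eq_of_lt hi, hP]
  set e : ZMod (4 * k + 1) ≃ SPt k := Equiv.ofBijective _ hbij with he
  have e_nat : ∀ i, i < 4 * k + 1 → e (i : ZMod (4 * k + 1)) = blk k N i := by
    intro i hi
    show blk k N (i : ZMod (4 * k + 1)).val = blk k N i
    rw [ZMod.val_natCast, Nat.mod_eq_of_lt hi]
  have hself : ((4 * k + 1 : ℕ) : ZMod (4 * k + 1)) = 0 := ZMod.natCast_self _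
  -- adjacency in a translate
  have key : ∀ (c : ZMod (2 * k)) (i j : ℕ), i < 4 * k + 1 → j < 4 * k + 1 →
      ((j : ZMod (4 * k + 1)) - i = 1 ∨ (j : ZMod (4 * k + 1)) - i = 2) ∨
        ((i : ZMod (4 * k + 1)) - j = 1 ∨ (i : ZMod (4 * k + 1)) - j = 2) →
      Adj (rot (e.trans (trP c))) (trP c (blk k N i)) (trP c (blk k N j)) := by
    intro c i j hi hj hij
    have := (adj_iff_of_equiv (e.trans (trP c)) (rot_apply _) (i : ZMod (4 * k + 1)) j).2 hij
    rw [Equiv.trans_apply, Equiv.trans_apply, e_nat i hi, e_nat j hj] at this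
    exact this
  have key1 : ∀ (c : ZMod (2 * k)) (a b : Bool × ZMod (2 * k)), BAdj k N a b →
      Adj (rot (e.trans (trP c))) (some (tr a c)) (some (tr b c)) := by
    rintro c a b ⟨i, j, hi, hj, h1, h2, h3⟩
    have h4 := key c i j hi hj (by
      push_cast at hself
      rcases h3 with rfl | rfl | rfl | rfl | ⟨rfl, rfl⟩ | ⟨rfl, rfl⟩
      · left; left; push_cast; ring
      · left; right; push_cast; ring
      · right; left; push_cast; ring
      · right; right; push_cast; ring
      · right; right; push_cast; linear_combination -hself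
      · left; right; push_cast; linear_combination -hself)
    rw [h1, h2, trP_some, trP_some] at h4
    exact h4
  have key2 : ∀ (c : ZMod (2 * k)) (a b : Bool × ZMod (2 * k)), BAdj2 k N a b →
      ∃ m : Fin k, Adj (rot (e.trans (trP (m.val : ZMod (2 * k))))) (some (tr a c))
        (some (tr b c)) := by
    intro c a b hab
    have hcv := ZMod.val_lt c
    by_cases hck : c.val < k
    · refine ⟨⟨c.val, hck⟩, ?_⟩
      have := key1 c a b hab.1
      rw [show ((⟨c.val, hck⟩ : Fin k).val : ZMod (2 * k)) = c from ZMod.natCast_zmod_val c]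
      exact this
    · refine ⟨⟨c.val - k, by omega⟩, ?_⟩
      have h1 : (((⟨c.val - k, by omega⟩ : Fin k).val : ℕ) : ZMod (2 * k)) = c - k := by
        show ((c.val - k : ℕ) : ZMod (2 * k)) = c - k
        rw [Nat.cast_sub (by omega), ZMod.natCast_zmod_val]
      rw [h1]
      have h2 := key1 (c - k) _ _ hab.2
      have h3 : ∀ P : Bool × ZMod (2 * k), tr (tr P (k : ZMod (2 * k))) (c - k) = tr P c := by
        intro P
        refine Prod.ext rfl ?_
        show P.2 + k + (c - k) = P.2 + c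
        ring
      rw [h3, h3] at h2
      exact h2
  -- the point at infinity
  have key3 : ∀ v : Bool × ZMod (2 * k),
      ∃ m : Fin k, Adj (rot (e.trans (trP (m.val : ZMod (2 * k))))) none (some v) := by
    intro v
    have hy := fun i => yw_lt hk N i
    have hex : ∃ j < 2, (dcd k (yw k N j)).1 = v.1 := by
      rw [div_two hk (hy 0), div_two hk (hy 1)] at ht0
      rcases h0 : decide (2 * k ≤ yw k N 0) with _ | _ <;>
        rcases h1 : decide (2 * k ≤ yw k N 1) with _ | _ <;>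
        rw [h0, h1] at ht0 <;> simp at ht0
      · rcases hv1 : v.1 with _ | _
        · exact ⟨0, by omega, h0⟩
        · exact ⟨1, by omega, h1⟩
      · rcases hv1 : v.1 with _ | _
        · exact ⟨1, by omega, h1⟩
        · exact ⟨0, by omega, h0⟩
    obtain ⟨j, hj, hjv⟩ := hex
    set a := dcd k (yw k N j) with ha
    have hav : v = tr a (v.2 - a.2) := by
      refine Prod.ext hjv.symm ?_
      show v.2 = a.2 + (v.2 - a.2)
      ring
    have hcv := ZMod.val_lt (v.2 - a.2)
    by_cases hck : (v.2 - a.2).val < k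
    · refine ⟨⟨(v.2 - a.2).val, hck⟩, ?_⟩
      rw [show ((⟨(v.2 - a.2).val, hck⟩ : Fin k).val : ZMod (2 * k)) = v.2 - a.2 from
        ZMod.natCast_zmod_val _]
      have h4 := key (v.2 - a.2) 0 (j + 1) (by omega) (by omega) (by
        left
        rcases (by omega : j = 0 ∨ j = 1) with hj0 | hj0 <;> rw [hj0]
        · left; push_cast; ring
        · right; push_cast; ring)
      rw [blk_zero, blk_lo (by omega), trP_none, trP_some, ← ha, ← hav] at h4
      exact h4
    · refine ⟨⟨(v.2 - a.2).val - k, by omega⟩, ?_⟩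
      have h1 : (((⟨(v.2 - a.2).val - k, by omega⟩ : Fin k).val : ℕ) : ZMod (2 * k)) =
          v.2 - a.2 - k := by
        show (((v.2 - a.2).val - k : ℕ) : ZMod (2 * k)) = v.2 - a.2 - k
        rw [Nat.cast_sub (by omega), ZMod.natCast_zmod_val]
      rw [h1]
      have h4 := key (v.2 - a.2 - k) 0 (4 * k - j) (by omega) (by omega) (by
        right
        push_cast at hself
        rw [Nat.cast_sub (by omega)]
        rcases (by omega : j = 0 ∨ j = 1) with hj0 | hj0 <;> rw [hj0]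
        · left; push_cast; linear_combination -hself
        · right; push_cast; linear_combination -hself)
      rw [blk_zero, blk_hi (by omega), trP_none, trP_some, dcd_ht hk (hy _), ← ha] at h4
      have h5 : tr (tr a (k : ZMod (2 * k))) (v.2 - a.2 - k) = v := by
        rw [hav]
        refine Prod.ext rfl ?_
        show a.2 + k + ((tr a (v.2 - a.2)).2 - a.2 - k) = (tr a (v.2 - a.2)).2
        ring
      rw [h5] at h4
      exact h4
  refine ⟨e, e_nat, dec_of_cover (fun m => closed_rot _) (by rw [hcard]; omega) ?_ ?_⟩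
  · rw [Fintype.card_fin, hcard]
  have hsymm : ∀ (s : Perm (SPt k)) (u v : SPt k), Adj s u v → Adj s v u := by
    intro s u v h
    unfold Adj at h ⊢
    tauto
  intro u v huv
  rcases u with _ | u <;> rcases v with _ | v
  · exact absurd rfl huv
  · exact key3 v
  · obtain ⟨m, hm⟩ := key3 u
    exact ⟨m, hsymm _ _ _ hm⟩
  · have huv' : u ≠ v := fun h => huv (by rw [h])
    obtain ⟨a, b, hab, hcd⟩ := badj2_of_cmask hk hc huv'
    obtain ⟨h1, h2⟩ := cdp_inj hk hcd.symm
    obtain ⟨m, hm⟩ := key2 (u.2 - a.2) a b hab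
    rw [← h1, ← h2] at hm
    exact ⟨m, hm⟩

/-- **Starters.**  The check gives a decomposition. -/
theorem dec_of_chk [NeZero (2 * k)] {N : ℕ} (h : chk k N = true) :
    ∃ s : Fin k → Perm (SPt k), Dec s := by
  obtain ⟨e, -, he⟩ := dec_of_chk_equiv h
  exact ⟨_, he⟩

theorem decomposes_of_chk (hk : 0 < k) {N : ℕ} (h : chk k N = true) :
    SqCyc.Decomposes (4 * k + 1) := by
  have : NeZero (2 * k) := ⟨by omega⟩
  obtain ⟨s, hs⟩ := dec_of_chk h
  refine hs.decomposes (Fintype.card_fin k) ?_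
  rw [Fintype.card_option, Fintype.card_prod, Fintype.card_bool, ZMod.card]
  ring

end

end SqIns
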