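import Pool.Agent.Lib.SqIns.Base2

/-!
# Straight squares over a family

`O s` runs through the columns `v 0, v 1, …` of the ring order of the family with the levels
`s + μ_j * λ_j`, `λ_{j+1} = λ_j + w_j`.  Its edges are the freed edges with the label `s` of the
windows of the family, with translations `Φ` which realise the twists `w`.
-/

open Finset Equiv

namespace SqIns

theorem push_comp_emV {V R : Type*} [DecidableEq V] [DecidableEq R] [Fintype V] [Fintype R]
    (a c : V × R) : push (emV V R) (pr a c) = pr (emV V R a) (emV V R c) :=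
  push_pr emV_injective a c

namespace RD

variable (b : RD)

theorem one_lt_k (hok : b.Ok) : 3 ≤ b.k := by
  have h := b.k_pos
  have ho := b.odd
  have hb := hok.binj (false, 0) (true, 0)
  have h' := hok.posle 0
  by_contra hc
  have hk1 : b.k = 1 := by omega
  have h0 : b.st (false, 0) = b.st (true, 0) := by
    unfold BD.st
    simp only [Bool.false_eq_true, if_false, if_true]
    omega
  exact absurd (hb h0) (by decide)

variable {b}

theorem ROk.rgF_bij (h : b.ROk) (fam : Bool) : Function.Bijective (b.rgF fam) := by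
  rw [Fintype.bijective_iff_injective_and_card]
  refine ⟨h.rgF_inj fam, ?_⟩
  rw [ZMod.card, Fintype.card_prod, Fintype.card_bool, ZMod.card]
  ring

/-- the ring order as an equivalence -/
noncomputable def re (h : b.ROk) (fam : Bool) : ZMod (4 * b.k) ≃ b.V :=
  Equiv.ofBijective _ (h.rgF_bij fam)

theorem re_apply (h : b.ROk) (fam : Bool) (j : ZMod (4 * b.k)) : re h fam j = b.rgF fam j := rfl

theorem re_symm (h : b.ROk) (fam : Bool) (j : ZMod (4 * b.k)) :
    (re h fam).symm (b.rgF fam j) = j := by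
  rw [← re_apply h, Equiv.symm_apply_apply]

variable (b) {R : Type*} [CommRing R]

/-- class of a ring index -/
def trk (j : ZMod (4 * b.k)) : ℕ := j.val % 4

theorem trk_nat (n : ℕ) : b.trk (n : ZMod (4 * b.k)) = n % 4 := by
  unfold trk
  rw [ZMod.val_natCast]
  exact Nat.mod_mul_right_mod n 4 b.k

theorem trk_e4 (n : ℕ) (c : ZMod b.k) : b.trk ((n : ZMod (4 * b.k)) + b.e4 c) = n % 4 := by
  unfold e4
  rw [← Nat.cast_add, b.trk_nat, Nat.add_mul_mod_self_left]

/-- the twist between two ring indices -/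
def dv (w : ZMod (4 * b.k) → R) (i j : ZMod (4 * b.k)) : R :=
  if j = i + 1 then w i else if j = i + 2 then w i + w (i + 1) else
    if i = j + 1 then - w j else if i = j + 2 then -(w j + w (j + 1)) else 0

theorem small_ne (hk : 3 ≤ b.k) {n : ℕ} (h1 : 1 ≤ n) (h2 : n ≤ 4) :
    ((n : ℕ) : ZMod (4 * b.k)) ≠ 0 := by
  intro h
  rw [ZMod.natCast_eq_zero_iff] at h
  have := Nat.le_of_dvd (by omega) h
  omega

theorem dv_symm (hk : 3 ≤ b.k) (w : ZMod (4 * b.k) → R) (i j : ZMod (4 * b.k)) :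
    b.dv w j i = - b.dv w i j := by
  have h2 := b.small_ne hk (n := 2) (by norm_num) (by norm_num)
  have h3 := b.small_ne hk (n := 3) (by norm_num) (by norm_num)
  have h4 := b.small_ne hk (n := 4) (by norm_num) (by norm_num)
  push_cast at h2 h3 h4
  unfold dv
  by_cases c1 : j = i + 1
  · have d1 : i ≠ j + 1 := fun h => h2 (by rw [c1] at h; linear_combination -h)
    have d2 : i ≠ j + 2 := fun h => h3 (by rw [c1] at h; linear_combination -h)
    rw [if_neg d1, if_neg d2, if_pos c1, if_pos c1]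
  · by_cases c2 : j = i + 2
    · have d1 : i ≠ j + 1 := fun h => h3 (by rw [c2] at h; linear_combination -h)
      have d2 : i ≠ j + 2 := fun h => h4 (by rw [c2] at h; linear_combination -h)
      rw [if_neg d1, if_neg d2, if_neg c1, if_pos c2, if_neg c1, if_pos c2]
    · simp only [if_neg c1, if_neg c2]
      by_cases c3 : i = j + 1
      · simp only [if_pos c3, neg_neg]
      · by_cases c4 : i = j + 2
        · simp only [if_neg c3, if_pos c4, neg_neg]
        · simp only [if_neg c3, if_neg c4, neg_zero]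

theorem dv_one (w : ZMod (4 * b.k) → R) (i : ZMod (4 * b.k)) : b.dv w i (i + 1) = w i := by
  unfold dv
  rw [if_pos rfl]

theorem dv_two (hk : 3 ≤ b.k) (w : ZMod (4 * b.k) → R) (i : ZMod (4 * b.k)) :
    b.dv w i (i + 2) = w i + w (i + 1) := by
  unfold dv
  rw [if_neg, if_pos rfl]
  intro h
  have h1 := b.small_ne hk (n := 1) (by norm_num) (by norm_num)
  apply h1
  push_cast
  linear_combination h

/-! ### The straight squares -/

section Straight

variable [Fintype R] [DecidableEq R] {b}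

/-- the point of the straight square `s` with ring index `j` and sheet `l` -/
def sp' (b : RD) (fam : Bool) (μ : ℕ → R) (s : R) (j : ZMod (4 * b.k)) (l : R) : b.V × R :=
  (b.rgF fam j, s + μ (b.trk j) * l)

/-- ring coordinates of the points -/
noncomputable def psi (h : b.ROk) (fam : Bool) (μ : ℕ → R) (hμ : ∀ t < 4, IsUnit (μ t)) (s : R) :
    ZMod (4 * b.k) × R ≃ b.V × R :=
  Equiv.ofBijective (fun p => sp' b fam μ s p.1 p.2) (by
    rw [Fintype.bijective_iff_injective_and_card]
    refine ⟨?_, ?_⟩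
    · rintro ⟨j, l⟩ ⟨j', l'⟩ hjl
      have h1 := h.rgF_inj _ (congrArg Prod.fst hjl)
      simp only at h1
      subst h1
      have h2 := congrArg Prod.snd hjl
      simp only [sp'] at h2
      rw [(hμ _ (Nat.mod_lt _ (by norm_num))).mul_left_cancel (add_left_cancel h2)]
    · rw [Fintype.card_prod, Fintype.card_prod, ← Fintype.card_congr (re h fam)])

theorem psi_apply (h : b.ROk) (fam : Bool) (μ : ℕ → R) (hμ : ∀ t < 4, IsUnit (μ t)) (s : R)
    (p : ZMod (4 * b.k) × R) : psi h fam μ hμ s p = sp' b fam μ s p.1 p.2 := rfl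

/-- the straight square number `s` -/
noncomputable def stO (h : b.ROk) (fam : Bool) (μ : ℕ → R) (hμ : ∀ t < 4, IsUnit (μ t))
    (w : ZMod (4 * b.k) → R) (s : R) : Perm (b.V × R) :=
  (psi h fam μ hμ s).permCongr (lift (Equiv.addRight 1) w)

theorem stO_apply (h : b.ROk) (fam : Bool) (μ : ℕ → R) (hμ : ∀ t < 4, IsUnit (μ t))
    (w : ZMod (4 * b.k) → R) (s : R) (j : ZMod (4 * b.k)) (l : R) :
    stO h fam μ hμ w s (sp' b fam μ s j l) = sp' b fam μ s (j + 1) (l + w j) := by
  unfold stO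
  rw [Equiv.permCongr_apply, ← psi_apply h fam μ hμ s (j, l), Equiv.symm_apply_apply, lift_apply]
  rfl

theorem closed_stO (h : b.ROk) (fam : Bool) (μ : ℕ → R) (hμ : ∀ t < 4, IsUnit (μ t))
    (w : ZMod (4 * b.k) → R) (s : R) (hw : ∀ y : R, ∃ j : ℕ, j • (∑ i, w i) = y) :
    Closed (stO h fam μ hμ w s) := by
  refine Closed.permCongr ?_ _
  refine closed_lift ?_ w hw
  exact closed_rot (Equiv.refl (ZMod (4 * b.k)))

/-- the edges of the straight square over a pair of columns -/
noncomputable def fE (h : b.ROk) (fam : Bool) (μ : ℕ → R) (w : ZMod (4 * b.k) → R) (s : R)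
    (x y : b.V) : Sym2 (b.V × R) → ℤ :=
  ∑ l : R, pr (sp' b fam μ s ((re h fam).symm x) l)
    (sp' b fam μ s ((re h fam).symm y) (l + b.dv w ((re h fam).symm x) ((re h fam).symm y)))

theorem fE_symm (h : b.ROk) (hk : 3 ≤ b.k) (fam : Bool) (μ : ℕ → R) (w : ZMod (4 * b.k) → R)
    (s : R) (x y : b.V) : fE h fam μ w s x y = fE h fam μ w s y x := by
  unfold fE
  rw [← Equiv.sum_comp (Equiv.addRight (b.dv w ((re h fam).symm y) ((re h fam).symm x)))]
  refine sum_congr rfl fun l _ => ?_
  rw [pr_comm, Equiv.coe_addRight]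
  have h1 : l + b.dv w ((re h fam).symm y) ((re h fam).symm x) +
      b.dv w ((re h fam).symm x) ((re h fam).symm y) = l := by
    rw [b.dv_symm hk w ((re h fam).symm x) ((re h fam).symm y)]
    ring
  rw [h1]

theorem E_stO (h : b.ROk) (hk : 3 ≤ b.k) (fam : Bool) (μ : ℕ → R) (hμ : ∀ t < 4, IsUnit (μ t))
    (w : ZMod (4 * b.k) → R) (s : R) : E (stO h fam μ hμ w s) =
    ∑ j : ZMod (4 * b.k), (fE h fam μ w s (b.rgF fam j) (b.rgF fam (j + 1)) +
      fE h fam μ w s (b.rgF fam j) (b.rgF fam (j + 2))) := by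
  unfold E
  rw [← Equiv.sum_comp (psi h fam μ hμ s), Fintype.sum_prod_type]
  refine sum_congr rfl fun j _ => ?_
  unfold fE
  rw [← sum_add_distrib]
  refine sum_congr rfl fun l _ => ?_
  rw [psi_apply]
  simp only [re_symm]
  rw [stO_apply, stO_apply, b.dv_one, b.dv_two hk, add_assoc j 1 1, one_add_one_eq_two,
    add_assoc l]

/-! ### Freed edges of the rows -/

variable (hok : b.Ok) (h2 : IsUnit (2 : R)) (h3 : IsUnit (3 : R))
  (hg : ∀ y : R, ∃ j : ℕ, j • (1 : R) = y)

theorem row_wn (r : ZMod b.k) (i : WSys) (n : Fin 4) :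
    (b.row hok h2 h3 hg r).wn i n = some (b.win r i n) := by
  rw [← pn_win hok]
  fin_cases n
  · exact b.sq_inv_pn r _
  · rfl
  · exact b.sq_pn r _
  · show b.sq r (b.sq r (b.pn r (b.st i + 1))) = _
    rw [b.sq_pn, b.sq_pn]
    rfl

theorem row_col (r : ZMod b.k) (i : WSys) (n : Fin 4) :
    (b.row hok h2 h3 hg r).col (some (b.win r i n)) = (b.c (b.st i + n.val) : R) := by
  rw [← pn_win hok]
  have := hok.st_lt i
  exact b.slope_pn r (by have := n.isLt; omega)

theorem push_edge (hok : b.Ok) (h : b.ROk) (fam : Bool) (μ : ℕ → R) (w : ZMod (4 * b.k) → R)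
    (Φ : Option b.V → Perm R) (δ : Fin 4 → Fin 4 → R) (r : ZMod b.k)
    (hnat : ∀ i n : Fin 4, (b.c (b.st (fam, i) + n.val) : R) - (b.cs (fam, i) : R) =
      μ (b.Jf (fam, i) n % 4))
    (hΦ : ∀ (i n : Fin 4) (y : R), Φ (some (b.win r (fam, i) n)) y =
      y + μ (b.Jf (fam, i) n % 4) * δ i n) (i m n : Fin 4) (s : R)
    (hδ : δ i n - δ i m = b.dv w ((b.Jf (fam, i) m : ZMod (4 * b.k)) + b.e4 (b.gi * r))
      ((b.Jf (fam, i) n : ZMod (4 * b.k)) + b.e4 (b.gi * r))) :
    push (fib Φ) (∑ l : R, pr (some (b.win r (fam, i) m),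
        s + ((b.c (b.st (fam, i) + m.val) : R) - (b.cs (fam, i) : R)) * l)
      (some (b.win r (fam, i) n),
        s + ((b.c (b.st (fam, i) + n.val) : R) - (b.cs (fam, i) : R)) * l)) =
      push (emV b.V R) (fE h fam μ w s (b.win r (fam, i) m) (b.win r (fam, i) n)) := by
  have hidx : ∀ n : Fin 4, (re h fam).symm (b.win r (fam, i) n) =
      (b.Jf (fam, i) n : ZMod (4 * b.k)) + b.e4 (b.gi * r) := by
    intro n
    rw [h.win_eq hok]
    exact re_symm h _ _
  unfold fE
  rw [push_sum, push_sum, hidx, hidx, ← hδ, ← Equiv.sum_comp (Equiv.addRight (δ i m)) (fun l => push (emV b.V R)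
    (pr (sp' b fam μ s ((b.Jf (fam, i) m : ZMod (4 * b.k)) + b.e4 (b.gi * r)) l)
      (sp' b fam μ s ((b.Jf (fam, i) n : ZMod (4 * b.k)) + b.e4 (b.gi * r))
        (l + (δ i n - δ i m)))))]
  refine sum_congr rfl fun l _ => ?_
  rw [push_pr (fib Φ).injective, push_comp_emV]
  have h1 : ∀ n : Fin 4, b.rgF fam ((b.Jf (fam, i) n : ZMod (4 * b.k)) + b.e4 (b.gi * r)) =
      b.win r (fam, i) n := fun n => (h.win_eq hok r (fam, i) n).symm
  have h4 : ∀ (n : Fin 4) (t : R), fib Φ (some (b.win r (fam, i) n),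
      s + ((b.c (b.st (fam, i) + n.val) : R) - (b.cs (fam, i) : R)) * l) =
      emV b.V R (sp' b fam μ s ((b.Jf (fam, i) n : ZMod (4 * b.k)) + b.e4 (b.gi * r))
        (l + δ i n)) := by
    intro n t
    have h5 : sp' b fam μ s ((b.Jf (fam, i) n : ZMod (4 * b.k)) + b.e4 (b.gi * r)) (l + δ i n) =
        (b.win r (fam, i) n, s + μ (b.Jf (fam, i) n % 4) * (l + δ i n)) := by
      unfold sp'
      rw [h1, b.trk_e4]
    rw [h5]
    show (some (b.win r (fam, i) n), Φ (some (b.win r (fam, i) n)) _) =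
      (some (b.win r (fam, i) n), _)
    rw [hΦ, hnat]
    congr 1
    ring
  rw [h4 m 0, h4 n 0, Equiv.coe_addRight]
  congr 3
  ring

/-- **The freed edges with the label `s` are the edges of the straight square `s`.** -/
theorem straight_sum (h : b.ROk) (fam : Bool) (μ : ℕ → R) (hμ : ∀ t < 4, IsUnit (μ t))
    (w : ZMod (4 * b.k) → R) (Φ : ZMod b.k → Option b.V → Perm R)
    (δ : ZMod b.k → Fin 4 → Fin 4 → R)
    (hnat : ∀ i n : Fin 4, (b.c (b.st (fam, i) + n.val) : R) - (b.cs (fam, i) : R) =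
      μ (b.Jf (fam, i) n % 4))
    (hΦ : ∀ (r : ZMod b.k) (i n : Fin 4) (y : R), Φ r (some (b.win r (fam, i) n)) y =
      y + μ (b.Jf (fam, i) n % 4) * δ r i n)
    (hδ : ∀ (r : ZMod b.k) (i : Fin 4) (e : Bool), δ r i (hi e) - δ r i (lo e) =
      b.dv w ((b.Jf (fam, i) (lo e) : ZMod (4 * b.k)) + b.e4 (b.gi * r))
        ((b.Jf (fam, i) (hi e) : ZMod (4 * b.k)) + b.e4 (b.gi * r))) (s : R) :
    push (emV b.V R) (E (stO h fam μ hμ w s)) = ∑ r, push (fib (Φ r)) (∑ i : Fin 4,
      ((b.row hok h2 h3 hg r).mac (fam, i) s + (b.row hok h2 h3 hg r).mbd (fam, i) s)) := by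
  have hk := b.one_lt_k hok
  rw [E_stO h hk, ← h.edges_sum hok _ (fE_symm h hk fam μ w s) fam, push_sum]
  refine sum_congr rfl fun r _ => ?_
  rw [push_sum, push_sum]
  refine sum_congr rfl fun i _ => ?_
  rw [push_add, push_add]
  congr 1
  · rw [← push_edge hok h fam μ w (Φ r) (δ r) r hnat (hΦ r) i 0 2 s (hδ r i false)]
    congr 1
    unfold Row.mac
    refine sum_congr rfl fun l _ => ?_
    have e0 : (b.row hok h2 h3 hg r).s⁻¹ ((b.row hok h2 h3 hg r).B (fam, i)) =
        some (b.win r (fam, i) 0) := row_wn hok h2 h3 hg r (fam, i) 0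
    have e2 : (b.row hok h2 h3 hg r).s ((b.row hok h2 h3 hg r).B (fam, i)) =
        some (b.win r (fam, i) 2) := row_wn hok h2 h3 hg r (fam, i) 2
    unfold Row.at'
    rw [e0, e2, row_col, row_col]
    rfl
  · rw [← push_edge hok h fam μ w (Φ r) (δ r) r hnat (hΦ r) i 1 3 s (hδ r i true)]
    congr 1
    unfold Row.mbd
    refine sum_congr rfl fun l _ => ?_
    have e0 : (b.row hok h2 h3 hg r).B (fam, i) =
        some (b.win r (fam, i) 1) := row_wn hok h2 h3 hg r (fam, i) 1
    have e2 : (b.row hok h2 h3 hg r).s ((b.row hok h2 h3 hg r).s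
        ((b.row hok h2 h3 hg r).B (fam, i))) =
        some (b.win r (fam, i) 3) := row_wn hok h2 h3 hg r (fam, i) 3
    unfold Row.at'
    rw [e2, e0, row_col, row_col]
    rfl

end Straight

end RD

end SqIns
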