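import Pool.Agent.Lib.SqIns.Strip
import Pool.Agent.Lib.SqIns.Match

/-!
# Dense strips: the translates of one (twisted) periodic word

The columns are `ZMod N`, `N = p * B`, the labels `ZMod m`.  A word is a list of `q = p * m` letters
`(column, twisted label)`; the real label of the letter `(c, z)` is `ε ^ c * z`, `ε = ±1`.  The strand
repeats the word with the columns moved by `p`.  The `m` squares are the translates of the strand.
-/

open Finset Equiv

namespace SqIns

namespace Tw

/-! ### The sign -/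

section Sign

variable {N m : ℕ} [NeZero N] (ε : ℤ)

/-- the sign of a column -/
def sg (m : ℕ) {N : ℕ} (ε : ℤ) (c : ZMod N) : ZMod m := (ε : ZMod m) ^ c.val

variable {ε}

theorem sg_unit (hε : ε * ε = 1) (c : ZMod N) : IsUnit (sg m ε c) := by
  have h : (ε : ZMod m) * (ε : ZMod m) = 1 := by exact_mod_cast congrArg (Int.cast : ℤ → ZMod m) hε
  exact (IsUnit.of_mul_eq_one _ h).pow _

theorem sg_add_one (hN : ε ^ N = 1) (c : ZMod N) : sg m ε (c + 1) = (ε : ZMod m) * sg m ε c := by
  have hN' : (ε : ZMod m) ^ N = 1 := by exact_mod_cast congrArg (Int.cast : ℤ → ZMod m) hN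
  unfold sg
  have h1 := val_add_nat c 1
  push_cast at h1
  rw [h1]
  have hc := ZMod.val_lt c
  by_cases h : c.val + 1 < N
  · rw [Nat.mod_eq_of_lt h, pow_succ']
  · have : c.val + 1 = N := by omega
    rw [this, Nat.mod_self, pow_zero, ← pow_succ', this, hN']

theorem sg_add_nat (hN : ε ^ N = 1) (c : ZMod N) (n : ℕ) :
    sg m ε (c + (n : ZMod N)) = (ε : ZMod m) ^ n * sg m ε c := by
  induction n with
  | zero => simp
  | succ n ih =>
    push_cast
    rw [← add_assoc, sg_add_one hN, ih, pow_succ']
    ring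

theorem sg_add_int (hε : ε * ε = 1) (hN : ε ^ N = 1) (c : ZMod N) (n : ℤ) :
    sg m ε (c + (n : ZMod N)) = (ε : ZMod m) ^ n.natAbs * sg m ε c := by
  have h : (ε : ZMod m) * (ε : ZMod m) = 1 := by exact_mod_cast congrArg (Int.cast : ℤ → ZMod m) hε
  obtain ⟨k, rfl | rfl⟩ := n.eq_nat_or_neg
  · rw [Int.natAbs_natCast]
    exact_mod_cast sg_add_nat hN c k
  · rw [Int.natAbs_neg, Int.natAbs_natCast]
    have h1 := sg_add_nat (m := m) hN (c + ((-(k : ℤ) : ℤ) : ZMod N)) k
    push_cast at h1 ⊢
    rw [neg_add_cancel_right] at h1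
    rw [h1, ← mul_assoc, ← mul_pow, h, one_pow, one_mul]

end Sign

/-! ### The strand -/

/-- a word: the letters (column, twisted label) -/
abbrev TWord := List (ℤ × ℕ)

/-- the column of the letter `n`, the word is repeated with period `p` -/
def colN (q : ℕ) (p : ℕ) (W : TWord) (n : ℕ) : ℤ := (W.getD (n % q) (0, 0)).1 + p * (n / q : ℕ)

/-- the twisted label of the letter `n` -/
def labN (q : ℕ) (W : TWord) (n : ℕ) : ℕ := (W.getD (n % q) (0, 0)).2

/-- number of the vertex (column mod `p`, label) of the letter `n` -/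
def vxN (q p m : ℕ) (W : TWord) (n : ℕ) : ℕ := (colN q p W n % (p : ℤ)).toNat * m + labN q W n

/-- the letters of the word are all the pairs (column mod `p`, label) -/
def okT (m p : ℕ) (W : TWord) : Bool :=
  ((List.range (p * m)).all fun n => decide (labN (p * m) W n < m)) &&
    (maskFrom ((List.range (p * m)).map (vxN (p * m) p m W)) 0).isSome

section Strand

variable {m p B : ℕ} [NeZero m] [NeZero p] [NeZero B]

/-- the raw strand: positions and blocks -/
def raw (q B : ℕ) [NeZero q] : Perm (ZMod q × ZMod B) :=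
  lift (rotZ q) fun n => if n.val + 1 = q then 1 else 0

theorem closed_raw (q B : ℕ) [NeZero q] [NeZero B] : Closed (raw q B) := by
  refine closed_lift (closed_rotZ q) _ fun r => ⟨r.val, ?_⟩
  have hq : 0 < q := Nat.pos_of_ne_zero (NeZero.ne q)
  have h1 : ∑ n : ZMod q, (if n.val + 1 = q then (1 : ZMod B) else 0) =
      ∑ n ∈ range q, if n + 1 = q then (1 : ZMod B) else 0 :=
    sum_val fun n => if n + 1 = q then (1 : ZMod B) else 0
  rw [h1, sum_eq_single (q - 1)]
  · rw [if_pos (by omega), nsmul_one, ZMod.natCast_zmod_val]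
  · intro b _ hb
    rw [if_neg (by omega)]
  · intro h
    exact absurd (mem_range.2 (by omega)) h

instance (p m : ℕ) [NeZero p] [NeZero m] : NeZero (p * m) :=
  ⟨Nat.mul_ne_zero (NeZero.ne p) (NeZero.ne m)⟩

variable (m p B) in
/-- the point of the letter `n` in the block `b`, with the twisted label -/
def pt (W : TWord) (x : ZMod (p * m) × ZMod B) : ZMod (p * B) × ZMod m :=
  ((colN (p * m) p W x.1.val : ZMod (p * B)) + ((p * x.2.val : ℕ) : ZMod (p * B)),
    (labN (p * m) W x.1.val : ZMod m))

theorem okT_lab {W : TWord} (h : okT m p W = true) {n : ℕ} (hn : n < p * m) :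
    labN (p * m) W n < m := by
  simp only [okT, Bool.and_eq_true, List.all_eq_true, decide_eq_true_eq, List.mem_range] at h
  exact h.1 n hn

theorem okT_inj {W : TWord} (h : okT m p W = true) {i j : ℕ} (hi : i < p * m) (hj : j < p * m)
    (hij : vxN (p * m) p m W i = vxN (p * m) p m W j) : i = j := by
  simp only [okT, Bool.and_eq_true] at h
  obtain ⟨M, hM⟩ := Option.isSome_iff_exists.1 h.2
  have h1 := (maskFrom_spec _ _ _ hM).1
  exact List.inj_on_of_nodup_map h1 (List.mem_range.2 hi) (List.mem_range.2 hj) hij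

theorem pt_injective {W : TWord} (h : okT m p W = true) : Function.Injective (pt m p B W) := by
  rintro ⟨n, b⟩ ⟨n', b'⟩ hnb
  have hp : 0 < p := Nat.pos_of_ne_zero (NeZero.ne p)
  have hm : 0 < m := Nat.pos_of_ne_zero (NeZero.ne m)
  have h1 := (Prod.ext_iff.1 hnb).1
  have h2 := (Prod.ext_iff.1 hnb).2
  simp only [pt] at h1 h2
  have hn := ZMod.val_lt n
  have hn' := ZMod.val_lt n'
  have e2 : labN (p * m) W n.val = labN (p * m) W n'.val := by
    have := congrArg ZMod.val h2
    rwa [ZMod.val_natCast, ZMod.val_natCast, Nat.mod_eq_of_lt (okT_lab h hn),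
      Nat.mod_eq_of_lt (okT_lab h hn')] at this
  have h3 : (((colN (p * m) p W n.val + p * b.val : ℤ)) : ZMod (p * B)) =
      ((colN (p * m) p W n'.val + p * b'.val : ℤ) : ZMod (p * B)) := by
    push_cast at h1 ⊢
    exact h1
  rw [ZMod.intCast_eq_intCast_iff] at h3
  have h4 : (colN (p * m) p W n.val + p * b.val : ℤ) ≡
      colN (p * m) p W n'.val + p * b'.val [ZMOD p] := by
    have : ((p : ℕ) : ℤ) ∣ ((p * B : ℕ) : ℤ) := ⟨B, by push_cast; ring⟩
    exact h3.of_dvd this
  have e1 : colN (p * m) p W n.val % (p : ℤ) = colN (p * m) p W n'.val % (p : ℤ) := by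
    have h5 : (colN (p * m) p W n.val + p * b.val : ℤ) % p = colN (p * m) p W n.val % p := by
      rw [Int.add_mul_emod_self_left]
    have h6 : (colN (p * m) p W n'.val + p * b'.val : ℤ) % p = colN (p * m) p W n'.val % p := by
      rw [Int.add_mul_emod_self_left]
    rw [← h5, ← h6]
    exact h4
  have e3 : n = n' := by
    refine ZMod.val_injective _ (okT_inj h hn hn' ?_)
    unfold vxN
    rw [e1, e2]
  subst e3
  have h7 : ((p * b.val : ℕ) : ℤ) ≡ ((p * b'.val : ℕ) : ℤ) [ZMOD (p * B : ℕ)] := by
    have := Int.ModEq.add_left_cancel' _ h3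
    push_cast at this ⊢
    exact this
  have h8 : p * b.val ≡ p * b'.val [MOD p * B] := (Int.natCast_modEq_iff).1 h7
  have h9 : b.val ≡ b'.val [MOD B] := Nat.ModEq.mul_left_cancel' hp.ne' h8
  have e4 : b = b' := by
    refine ZMod.val_injective _ ?_
    have h10 : b.val % B = b'.val % B := h9
    rwa [Nat.mod_eq_of_lt (ZMod.val_lt b), Nat.mod_eq_of_lt (ZMod.val_lt b')] at h10
  rw [e4]

/-- the strand as a bijection -/
noncomputable def ptE {W : TWord} (h : okT m p W = true) :
    ZMod (p * m) × ZMod B ≃ ZMod (p * B) × ZMod m :=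
  Equiv.ofBijective (pt m p B W) ((Fintype.bijective_iff_injective_and_card _).2
    ⟨pt_injective h, by simp only [Fintype.card_prod, ZMod.card]; ring⟩)


/-! ### The points of the strand -/

variable (m p B) in
/-- the letter number `n` after the block `b` -/
def PT (W : TWord) (n : ℕ) (b : ZMod B) : ZMod (p * B) × ZMod m :=
  ((colN (p * m) p W n : ZMod (p * B)) + ((p * b.val : ℕ) : ZMod (p * B)),
    (labN (p * m) W n : ZMod m))

theorem pt_eq_PT (W : TWord) (x : ZMod (p * m) × ZMod B) : pt m p B W x = PT m p B W x.1.val x.2 :=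
  rfl

theorem mul_val_add_one (b : ZMod B) : ((p * (b + 1).val : ℕ) : ZMod (p * B)) =
    ((p * b.val : ℕ) : ZMod (p * B)) + (p : ZMod (p * B)) := by
  have h1 := val_add_nat b 1
  push_cast at h1
  rw [h1]
  have e : p * (b.val + 1) = p * ((b.val + 1) % B) + p * B * ((b.val + 1) / B) := by
    have := Nat.mod_add_div (b.val + 1) B
    calc p * (b.val + 1) = p * ((b.val + 1) % B + B * ((b.val + 1) / B)) := by rw [this]
      _ = _ := by ring
  have h2 : ((p * (b.val + 1) : ℕ) : ZMod (p * B)) =
      ((p * ((b.val + 1) % B) : ℕ) : ZMod (p * B)) := by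
    rw [e, Nat.cast_add, Nat.cast_mul (p * B), ZMod.natCast_self, zero_mul, add_zero]
  rw [← h2]
  push_cast
  ring

omit [NeZero m] in
theorem PT_add (W : TWord) (n : ℕ) (b : ZMod B) (hq : 0 < p * m) :
    PT m p B W (n + p * m) b = PT m p B W n (b + 1) := by
  unfold PT colN labN
  rw [Nat.add_mod_right, Nat.add_div_right _ hq, mul_val_add_one]
  push_cast
  refine Prod.ext ?_ rfl
  show _ = _
  ring

theorem pt_raw (W : TWord) (x : ZMod (p * m) × ZMod B) :
    pt m p B W (raw (p * m) B x) = PT m p B W (x.1.val + 1) x.2 := by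
  obtain ⟨n, b⟩ := x
  have hq : 0 < p * m := Nat.pos_of_ne_zero (NeZero.ne _)
  have hn := ZMod.val_lt n
  have h1 := val_add_nat n 1
  push_cast at h1
  show pt m p B W (n + 1, b + if n.val + 1 = p * m then 1 else 0) = _
  rw [pt_eq_PT]
  by_cases h : n.val + 1 = p * m
  · rw [if_pos h]
    show PT m p B W (n + 1).val (b + 1) = PT m p B W (n.val + 1) b
    rw [h1, h, Nat.mod_self, ← PT_add W 0 b hq, Nat.zero_add]
  · rw [if_neg h, add_zero]
    show PT m p B W (n + 1).val b = PT m p B W (n.val + 1) b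
    rw [h1, Nat.mod_eq_of_lt (by omega)]

theorem pt_raw_raw (W : TWord) (x : ZMod (p * m) × ZMod B) :
    pt m p B W (raw (p * m) B (raw (p * m) B x)) = PT m p B W (x.1.val + 2) x.2 := by
  rw [pt_raw]
  obtain ⟨n, b⟩ := x
  have hq : 0 < p * m := Nat.pos_of_ne_zero (NeZero.ne _)
  have hn := ZMod.val_lt n
  have h1 := val_add_nat n 1
  push_cast at h1
  show PT m p B W ((n + 1).val + 1) (b + if n.val + 1 = p * m then 1 else 0) = _
  by_cases h : n.val + 1 = p * m
  · rw [if_pos h, h1, h, Nat.mod_self, ← PT_add W (0 + 1) b hq]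
    show _ = PT m p B W (n.val + 2) b
    congr 1
    omega
  · rw [if_neg h, add_zero, h1, Nat.mod_eq_of_lt (by omega)]

/-- the strand, in columns and twisted labels -/
noncomputable def strand {W : TWord} (h : okT m p W = true) : Perm (ZMod (p * B) × ZMod m) :=
  (ptE (B := B) h).permCongr (raw (p * m) B)

theorem closed_strand {W : TWord} (h : okT m p W = true) : Closed (strand (B := B) h) :=
  Closed.permCongr' (closed_raw _ _) _

theorem strand_PT {W : TWord} (h : okT m p W = true) (n : ℕ) (b : ZMod B) :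
    strand h (PT m p B W n b) = PT m p B W (n + 1) b := by
  have hq : 0 < p * m := Nat.pos_of_ne_zero (NeZero.ne _)
  have key : ∀ (n : ℕ) (hn : n < p * m) (b : ZMod B),
      strand h (PT m p B W n b) = PT m p B W (n + 1) b := by
    intro n hn b
    have e : PT m p B W n b = ptE (B := B) h ((n : ZMod (p * m)), b) := by
      show _ = pt m p B W _
      rw [pt_eq_PT]
      show _ = PT m p B W ((n : ZMod (p * m))).val b
      rw [ZMod.val_natCast, Nat.mod_eq_of_lt hn]
    rw [e, strand, Equiv.permCongr_apply, Equiv.symm_apply_apply]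
    show pt m p B W _ = _
    rw [pt_raw]
    show PT m p B W (((n : ZMod (p * m))).val + 1) b = _
    rw [ZMod.val_natCast, Nat.mod_eq_of_lt hn]
  have hshift : ∀ (k n : ℕ) (b : ZMod B),
      PT m p B W (n + p * m * k) b = PT m p B W n (b + k) := by
    intro k
    induction k with
    | zero => intro n b; simp
    | succ k ih =>
      intro n b
      rw [mul_add, mul_one, ← add_assoc, PT_add W _ _ hq, ih]
      congr 1
      push_cast
      ring
  have e1 : n = n % (p * m) + p * m * (n / (p * m)) := (Nat.mod_add_div n (p * m)).symm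
  rw [e1, hshift, key _ (Nat.mod_lt _ hq)]
  have e2 : n % (p * m) + p * m * (n / (p * m)) + 1 =
      n % (p * m) + 1 + p * m * (n / (p * m)) := by ring
  rw [e2, hshift]

theorem E_strand {W : TWord} (h : okT m p W = true) : E (strand (B := B) h) =
    ∑ n ∈ range (p * m), ∑ b : ZMod B,
      (pr (PT m p B W n b) (PT m p B W (n + 1) b) + pr (PT m p B W n b) (PT m p B W (n + 2) b)) := by
  rw [strand, E_permCongr]
  unfold E
  rw [push_sum, Fintype.sum_prod_type]
  rw [← sum_val fun n => ∑ b : ZMod B,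
      (pr (PT m p B W n b) (PT m p B W (n + 1) b) + pr (PT m p B W n b) (PT m p B W (n + 2) b))]
  refine sum_congr rfl fun n _ => sum_congr rfl fun b _ => ?_
  rw [push_add, push_pr (Equiv.injective _), push_pr (Equiv.injective _)]
  show pr (pt m p B W _) (pt m p B W _) + pr (pt m p B W _) (pt m p B W _) = _
  rw [pt_raw_raw, pt_raw]
  rfl

end Strand

/-! ### The translates -/

section Translates

variable {m p B : ℕ} [NeZero m] [NeZero p] [NeZero B] {ε : ℤ}

/-- real labels: the twisted label `z` becomes `sg c * z + x` -/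
noncomputable def psi (hε : ε * ε = 1) (x : ZMod m) (c : ZMod (p * B)) : Perm (ZMod m) where
  toFun z := sg m ε c * z + x
  invFun y := sg m ε c * (y - x)
  left_inv z := by
    have h : (ε : ZMod m) * (ε : ZMod m) = 1 := by
      exact_mod_cast congrArg (Int.cast : ℤ → ZMod m) hε
    have h2 : sg m ε c * sg m ε c = 1 := by
      unfold sg
      rw [← mul_pow, h, one_pow]
    simp only [add_sub_cancel_right]
    rw [← mul_assoc, h2, one_mul]
  right_inv y := by
    have h : (ε : ZMod m) * (ε : ZMod m) = 1 := by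
      exact_mod_cast congrArg (Int.cast : ℤ → ZMod m) hε
    have h2 : sg m ε c * sg m ε c = 1 := by
      unfold sg
      rw [← mul_pow, h, one_pow]
    simp only
    rw [← mul_assoc, h2, one_mul, sub_add_cancel]

theorem psi_apply (hε : ε * ε = 1) (x z : ZMod m) (c : ZMod (p * B)) :
    psi hε x c z = sg m ε c * z + x := rfl

/-- the square number `x` of the strip, on columns and real labels -/
noncomputable def tsq (hε : ε * ε = 1) {W : TWord} (h : okT m p W = true) (x : ZMod m) :
    Perm (ZMod (p * B) × ZMod m) := (fib (psi hε x)).permCongr (strand h)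

theorem closed_tsq (hε : ε * ε = 1) {W : TWord} (h : okT m p W = true) (x : ZMod m) :
    Closed (tsq (B := B) hε h x) := Closed.permCongr' (closed_strand h) _

/-- the letter number `n` after the block `b` of the square number `x` -/
noncomputable def QT (hε : ε * ε = 1) (W : TWord) (x : ZMod m) (n : ℕ) (b : ZMod B) :
    ZMod (p * B) × ZMod m := fib (psi hε x) (PT m p B W n b)

theorem tsq_QT (hε : ε * ε = 1) {W : TWord} (h : okT m p W = true) (x : ZMod m) (n : ℕ)
    (b : ZMod B) : tsq hε h x (QT hε W x n b) = QT hε W x (n + 1) b := by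
  unfold tsq QT
  rw [Equiv.permCongr_apply, Equiv.symm_apply_apply, strand_PT]

theorem QT_snd (hε : ε * ε = 1) (W : TWord) (x : ZMod m) (n : ℕ) (b : ZMod B) :
    (QT (p := p) hε W x n b).2 =
      sg m ε (QT (p := p) hε W x n b).1 * (labN (p * m) W n : ZMod m) + x := rfl

theorem QT_fst (hε : ε * ε = 1) (W : TWord) (x : ZMod m) (n : ℕ) (b : ZMod B) :
    (QT (p := p) hε W x n b).1 =
      (colN (p * m) p W n : ZMod (p * B)) + ((p * b.val : ℕ) : ZMod (p * B)) := rfl

theorem sum_push_psi (hε : ε * ε = 1) (c c' : ZMod (p * B)) (z z' : ZMod m) :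
    ∑ x : ZMod m, push (fib (psi hε x)) (pr (c, z) (c', z')) =
      Row.clsE c c' (sg m ε c' * z' - sg m ε c * z) := by
  unfold Row.clsE
  rw [← Equiv.sum_comp (Equiv.addLeft (sg m ε c * z)) fun y =>
    pr (c, y) (c', y + (sg m ε c' * z' - sg m ε c * z))]
  refine sum_congr rfl fun x _ => ?_
  rw [push_pr (fib _).injective, fib_apply, fib_apply, psi_apply, psi_apply]
  congr 2
  simp only [Equiv.coe_addLeft]
  ring

theorem clsE_symm {X R : Type*} [CommRing R] [Fintype R] [DecidableEq X] [DecidableEq R] (c c' : X)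
    (δ : R) : Row.clsE c c' δ = Row.clsE c' c (-δ) := by
  unfold Row.clsE
  rw [← Equiv.sum_comp (Equiv.addRight (-δ))]
  refine sum_congr rfl fun z _ => ?_
  rw [pr_comm]
  simp

/-- the class between the columns `c` and `c + Δ`, with the sign of the column -/
def Gc (ε : ℤ) (Δ : ℤ) (D : ZMod m) (c : ZMod (p * B)) : Sym2 (ZMod (p * B) × ZMod m) → ℤ :=
  Row.clsE c (c + (Δ : ZMod (p * B))) (sg m ε c * D)

theorem Gc_symm (hε : ε * ε = 1) (hN : ε ^ (p * B) = 1) (Δ : ℤ) (D : ZMod m)
    (c : ZMod (p * B)) :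
    Gc ε Δ D c = Gc ε (-Δ) (-((ε : ZMod m) ^ Δ.natAbs * D)) (c + (Δ : ZMod (p * B))) := by
  have h : (ε : ZMod m) * (ε : ZMod m) = 1 := by
    exact_mod_cast congrArg (Int.cast : ℤ → ZMod m) hε
  unfold Gc
  rw [clsE_symm, sg_add_int hε hN]
  push_cast
  rw [add_neg_cancel_right]
  congr 1
  have h2 : (ε : ZMod m) ^ Δ.natAbs * (ε : ZMod m) ^ Δ.natAbs = 1 := by
    rw [← mul_pow, h, one_pow]
  linear_combination (sg m ε c * D) * h2

/-- **The edges of the strip**, letter by letter. -/
theorem sum_E_tsq (hε : ε * ε = 1) (hN : ε ^ (p * B) = 1) {W : TWord} (h : okT m p W = true) :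
    ∑ x : ZMod m, E (tsq (B := B) hε h x) = ∑ n ∈ range (p * m), ∑ b : ZMod B,
      (Gc ε (colN (p * m) p W (n + 1) - colN (p * m) p W n)
        ((ε : ZMod m) ^ (colN (p * m) p W (n + 1) - colN (p * m) p W n).natAbs *
          (labN (p * m) W (n + 1) : ZMod m) - (labN (p * m) W n : ZMod m))
        (PT m p B W n b).1 +
      Gc ε (colN (p * m) p W (n + 2) - colN (p * m) p W n)
        ((ε : ZMod m) ^ (colN (p * m) p W (n + 2) - colN (p * m) p W n).natAbs *
          (labN (p * m) W (n + 2) : ZMod m) - (labN (p * m) W n : ZMod m))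
        (PT m p B W n b).1) := by
  have e0 : ∀ x : ZMod m, E (tsq (B := B) hε h x) = push (fib (psi hε x)) (E (strand h)) :=
    fun x => E_permCongr _ _
  rw [sum_congr rfl fun x _ => e0 x, E_strand]
  have e1 : ∀ x : ZMod m, push (fib (psi hε x)) (∑ n ∈ range (p * m), ∑ b : ZMod B,
      (pr (PT m p B W n b) (PT m p B W (n + 1) b) + pr (PT m p B W n b) (PT m p B W (n + 2) b))) =
      ∑ n ∈ range (p * m), ∑ b : ZMod B,
        (push (fib (psi hε x)) (pr (PT m p B W n b) (PT m p B W (n + 1) b)) +
          push (fib (psi hε x)) (pr (PT m p B W n b) (PT m p B W (n + 2) b))) := by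
    intro x
    rw [push_sum]
    refine sum_congr rfl fun n _ => ?_
    rw [push_sum]
    refine sum_congr rfl fun b _ => ?_
    rw [push_add]
  rw [sum_congr rfl fun x _ => e1 x, sum_comm]
  refine sum_congr rfl fun n _ => ?_
  rw [sum_comm]
  refine sum_congr rfl fun b _ => ?_
  rw [sum_add_distrib]
  have key : ∀ k : ℕ, ∑ x : ZMod m, push (fib (psi hε x))
      (pr (PT m p B W n b) (PT m p B W (n + k) b)) =
      Gc ε (colN (p * m) p W (n + k) - colN (p * m) p W n)
        ((ε : ZMod m) ^ (colN (p * m) p W (n + k) - colN (p * m) p W n).natAbs *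
          (labN (p * m) W (n + k) : ZMod m) - (labN (p * m) W n : ZMod m))
        (PT m p B W n b).1 := by
    intro k
    have hc : (PT m p B W (n + k) b).1 = (PT m p B W n b).1 +
        ((colN (p * m) p W (n + k) - colN (p * m) p W n : ℤ) : ZMod (p * B)) := by
      unfold PT
      push_cast
      ring
    have e2 : pr (PT m p B W n b) (PT m p B W (n + k) b) =
        pr ((PT m p B W n b).1, (labN (p * m) W n : ZMod m))
          ((PT m p B W (n + k) b).1, (labN (p * m) W (n + k) : ZMod m)) := rfl
    rw [e2]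
    rw [sum_congr rfl fun x _ => rfl, sum_push_psi hε]
    unfold Gc
    rw [hc, sg_add_int hε hN]
    congr 1
    ring
  rw [key 1, key 2]

end Translates

end Tw

end SqIns
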