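import Pool.Agent.Lib.SqIns.StripTw

/-!
# Dense strips: the table check and the total sum
-/

open Finset Equiv

namespace SqIns

namespace Tw

section Blocks

variable {p B : ℕ} [NeZero p] [NeZero B]

theorem val_col (c0 : ℤ) (b : ZMod B) :
    ((((c0 : ZMod (p * B)) + ((p * b.val : ℕ) : ZMod (p * B))).val : ℕ) : ℤ) =
      (c0 + p * b.val) % ((p * B : ℕ) : ℤ) := by
  have h : (c0 : ZMod (p * B)) + ((p * b.val : ℕ) : ZMod (p * B)) =
      ((c0 + p * b.val : ℤ) : ZMod (p * B)) := by push_cast; ring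
  rw [h, ZMod.val_intCast]

/-- the columns of a type -/
def colset (B : ℕ) {p : ℕ} [NeZero p] [NeZero B] (t : ℕ) : Finset (ZMod (p * B)) :=
  univ.filter fun x : ZMod (p * B) => x.val % p = t

theorem sum_blocks {A : Type*} [AddCommMonoid A] (f : ZMod (p * B) → A) (c0 : ℤ) :
    ∑ b : ZMod B, f ((c0 : ZMod (p * B)) + ((p * b.val : ℕ) : ZMod (p * B))) =
      ∑ x ∈ colset B (p := p) (c0 % (p : ℤ)).toNat, f x := by
  have hp : 0 < p := Nat.pos_of_ne_zero (NeZero.ne p)
  have hB : 0 < B := Nat.pos_of_ne_zero (NeZero.ne B)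
  have hp' : (0 : ℤ) < p := by exact_mod_cast hp
  have hdvd : (p : ℤ) ∣ ((p * B : ℕ) : ℤ) := ⟨B, by push_cast; ring⟩
  refine sum_nbij' (fun b => (c0 : ZMod (p * B)) + ((p * b.val : ℕ) : ZMod (p * B)))
    (fun x => (((x.val : ℤ) - c0) / p : ℤ)) (fun b _ => ?_) (fun _ _ => mem_univ _)
    (fun b _ => ?_) (fun x hx => ?_) (fun _ _ => rfl)
  · rw [colset, mem_filter]
    refine ⟨mem_univ _, ?_⟩
    have h1 := val_col (p := p) c0 b
    have h2 : ((((c0 : ZMod (p * B)) + ((p * b.val : ℕ) : ZMod (p * B))).val % p : ℕ) : ℤ) =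
        c0 % p := by
      rw [Int.natCast_mod, h1, Int.emod_emod_of_dvd _ hdvd, Int.add_mul_emod_self_left]
    omega
  · have h1 := val_col (p := p) c0 b
    have h2 : ((((c0 : ZMod (p * B)) + ((p * b.val : ℕ) : ZMod (p * B))).val : ℕ) : ℤ) - c0 =
        p * (b.val - B * ((c0 + p * b.val) / ((p * B : ℕ) : ℤ))) := by
      rw [h1]
      have := Int.emod_add_mul_ediv (c0 + p * b.val) ((p * B : ℕ) : ℤ)
      push_cast at this ⊢
      linear_combination this
    rw [h2, Int.mul_ediv_cancel_left _ hp'.ne']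
    push_cast
    rw [ZMod.natCast_zmod_val, ZMod.natCast_self]
    ring
  · rw [colset, mem_filter] at hx
    have hx2 := hx.2
    have h1 : (x.val : ℤ) % p = c0 % p := by
      have := congrArg (Nat.cast : ℕ → ℤ) hx2
      rw [Int.natCast_mod, Int.toNat_of_nonneg (Int.emod_nonneg _ hp'.ne')] at this
      exact this
    obtain ⟨w, hw⟩ : (p : ℤ) ∣ (x.val : ℤ) - c0 := Int.ModEq.dvd (h1.symm)
    rw [hw, Int.mul_ediv_cancel_left _ hp'.ne']
    have h3 : (((w : ZMod B)).val : ℤ) = w % (B : ℤ) := ZMod.val_intCast w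
    have h4 : (((p * ((w : ZMod B)).val : ℕ)) : ZMod (p * B)) = ((p * w : ℤ) : ZMod (p * B)) := by
      have h5 : ((p * ((w : ZMod B)).val : ℕ) : ℤ) = p * w - ((p * B : ℕ) : ℤ) * (w / B) := by
        push_cast
        rw [h3]
        have := Int.emod_add_mul_ediv w (B : ℤ)
        linear_combination (p : ℤ) * this
      have h6 := congrArg (Int.cast : ℤ → ZMod (p * B)) h5
      have e0 : (((p * B : ℕ) : ℤ) : ZMod (p * B)) = 0 := by
        rw [Int.cast_natCast, ZMod.natCast_self]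
      rw [Int.cast_sub, Int.cast_mul (((p * B : ℕ) : ℤ)), e0, zero_mul, sub_zero,
        Int.cast_natCast] at h6
      exact h6
    rw [h4, ← hw]
    push_cast
    rw [ZMod.natCast_zmod_val]
    ring

end Blocks

/-! ### Codes -/

/-- number of the type of an edge from the letter `(c, z)` to the letter `(c + Δ, z')` -/
def ecode (m p : ℕ) (ε : ℤ) (c Δ : ℤ) (z z' : ℕ) : ℕ :=
  if 0 < Δ then (Δ.toNat * p + (c % (p : ℤ)).toNat) * m +
    ((ε ^ Δ.natAbs * z' - z) % (m : ℤ)).toNat
  else if Δ = 0 then (c % (p : ℤ)).toNat * m +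
    min (((z' : ℤ) - z) % (m : ℤ)).toNat (((z : ℤ) - z') % (m : ℤ)).toNat
  else ((-Δ).toNat * p + ((c + Δ) % (p : ℤ)).toNat) * m +
    ((-(ε ^ Δ.natAbs * (ε ^ Δ.natAbs * z' - z))) % (m : ℤ)).toNat

section Codes

variable {m p B : ℕ} [NeZero m] [NeZero p] [NeZero B] {ε : ℤ}

/-- the edges with the type number `c` -/
def GN (m p B : ℕ) [NeZero m] [NeZero p] [NeZero B] (ε : ℤ) (c : ℕ) :
    Sym2 (ZMod (p * B) × ZMod m) → ℤ :=
  ∑ x ∈ colset B (p := p) (c / m % p), Gc ε ((c / m / p : ℕ) : ℤ) ((c % m : ℕ) : ZMod m) x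

theorem GN_mk {Δ t D : ℕ} (ht : t < p) (hD : D < m) : GN m p B ε ((Δ * p + t) * m + D) =
    ∑ x ∈ colset B (p := p) t, Gc ε (Δ : ℤ) (D : ZMod m) x := by
  have hm : 0 < m := by omega
  have hp : 0 < p := by omega
  have e1 : ((Δ * p + t) * m + D) % m = D := by
    rw [Nat.mul_comm, Nat.mul_add_mod, Nat.mod_eq_of_lt hD]
  have e2 : ((Δ * p + t) * m + D) / m = Δ * p + t := by
    rw [Nat.mul_comm, Nat.mul_add_div hm, Nat.div_eq_of_lt hD, Nat.add_zero]
  have e3 : (Δ * p + t) % p = t := by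
    rw [Nat.mul_comm, Nat.mul_add_mod, Nat.mod_eq_of_lt ht]
  have e4 : (Δ * p + t) / p = Δ := by
    rw [Nat.mul_comm, Nat.mul_add_div hp, Nat.div_eq_of_lt ht, Nat.add_zero]
  unfold GN
  rw [e1, e2, e3, e4]

theorem emod_toNat_lt (a : ℤ) {n : ℕ} (hn : 0 < n) : (a % (n : ℤ)).toNat < n := by
  have h1 := Int.emod_nonneg a (b := (n : ℤ)) (by omega)
  have h2 := Int.emod_lt_of_pos a (b := (n : ℤ)) (by omega)
  omega

theorem cast_emod_toNat (a : ℤ) : (((a % (m : ℤ)).toNat : ℕ) : ZMod m) = (a : ZMod m) := by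
  have hm : 0 < m := Nat.pos_of_ne_zero (NeZero.ne m)
  have h1 := Int.emod_nonneg a (b := (m : ℤ)) (by omega)
  have h2 : (((a % (m : ℤ)).toNat : ℕ) : ℤ) = a % m := Int.toNat_of_nonneg h1
  have h3 : (((a % (m : ℤ)).toNat : ℕ) : ZMod m) = ((((a % (m : ℤ)).toNat : ℕ) : ℤ) : ZMod m) := by
    rw [Int.cast_natCast]
  rw [h3, h2, ZMod.intCast_mod]

theorem GN_ecode (hε : ε * ε = 1) (hN : ε ^ (p * B) = 1) (c Δ : ℤ) (z z' : ℕ) :
    GN m p B ε (ecode m p ε c Δ z z') = ∑ b : ZMod B,
      Gc ε Δ ((ε : ZMod m) ^ Δ.natAbs * (z' : ZMod m) - (z : ZMod m))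
        ((c : ZMod (p * B)) + ((p * b.val : ℕ) : ZMod (p * B))) := by
  have hm : 0 < m := Nat.pos_of_ne_zero (NeZero.ne m)
  have hp : 0 < p := Nat.pos_of_ne_zero (NeZero.ne p)
  unfold ecode
  split_ifs with h1 h2
  · rw [GN_mk (emod_toNat_lt _ hp) (emod_toNat_lt _ hm), cast_emod_toNat, sum_blocks,
      Int.toNat_of_nonneg h1.le]
    push_cast
    rfl
  · subst h2
    have e0 : (c % (p : ℤ)).toNat * m + min (((z' : ℤ) - z) % (m : ℤ)).toNat
        (((z : ℤ) - z') % (m : ℤ)).toNat = (0 * p + (c % (p : ℤ)).toNat) * m +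
        min (((z' : ℤ) - z) % (m : ℤ)).toNat (((z : ℤ) - z') % (m : ℤ)).toNat := by ring
    rw [e0, GN_mk (emod_toNat_lt _ hp) (lt_of_le_of_lt (min_le_left _ _) (emod_toNat_lt _ hm)),
      sum_blocks (fun x => Gc ε 0 ((ε : ZMod m) ^ (0 : ℤ).natAbs * (z' : ZMod m) - (z : ZMod m)) x)]
    rw [Int.natAbs_zero, pow_zero, one_mul]
    rcases min_choice (((z' : ℤ) - z) % (m : ℤ)).toNat (((z : ℤ) - z') % (m : ℤ)).toNat with h | h
    · rw [h, cast_emod_toNat]
      push_cast
      rfl
    · rw [h, cast_emod_toNat]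
      refine sum_congr rfl fun x _ => ?_
      rw [Gc_symm hε hN (((0 : ℕ) : ℤ))]
      push_cast
      rw [pow_zero, one_mul, add_zero, neg_zero, neg_sub]
  · have h3 : 0 ≤ -Δ := by omega
    rw [GN_mk (emod_toNat_lt _ hp) (emod_toNat_lt _ hm), cast_emod_toNat, ← sum_blocks,
      Int.toNat_of_nonneg h3]
    refine sum_congr rfl fun b _ => ?_
    rw [Gc_symm hε hN Δ]
    push_cast
    congr 1
    ring

/-- the edge types of a word -/
def codesT (m p : ℕ) (ε : ℤ) (W : TWord) : List ℕ := (List.range (p * m)).flatMap fun n =>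
  [ecode m p ε (colN (p * m) p W n) (colN (p * m) p W (n + 1) - colN (p * m) p W n)
      (labN (p * m) W n) (labN (p * m) W (n + 1)),
    ecode m p ε (colN (p * m) p W n) (colN (p * m) p W (n + 2) - colN (p * m) p W n)
      (labN (p * m) W n) (labN (p * m) W (n + 2))]

/-- the wanted edge types: all verticals, all classes at distance one, `C2` at distance two -/
def tgtT (m p : ℕ) (C2 : List (List ℕ)) : List ℕ :=
  ((List.range p).flatMap fun t => (List.range ((m - 1) / 2)).map fun d => (0 * p + t) * m + (d + 1)) ++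
    (((List.range p).flatMap fun t => (List.range m).map fun k => (1 * p + t) * m + k) ++
      (List.range p).flatMap fun t => (C2.getD t []).map fun k => (2 * p + t) * m + k)

/-- the check of a table -/
def chkT (m p : ℕ) (ε : ℤ) (W : TWord) (C2 : List (List ℕ)) : Bool :=
  okT m p W && (samePerm (codesT m p ε W) (tgtT m p C2) &&
    ((List.range p).all fun t => (C2.getD t []).all fun k => decide (k < m)))

theorem sum_map_flatMap {A : Type*} [AddCommMonoid A] {α : Type*} (l : List α) (f : α → List ℕ)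
    (g : ℕ → A) : ((l.flatMap f).map g).sum = (l.map fun a => ((f a).map g).sum).sum := by
  rw [List.map_flatMap, List.flatMap_def, List.sum_flatten, List.map_map]
  rfl

theorem sum_range_list {A : Type*} [AddCommMonoid A] (n : ℕ) (f : ℕ → A) :
    ((List.range n).map f).sum = ∑ i ∈ range n, f i := by
  rw [← List.sum_toFinset _ List.nodup_range, List.toFinset_range]

theorem sum_colset {A : Type*} [AddCommMonoid A] (f : ZMod (p * B) → ℕ → A) :
    ∑ t ∈ range p, ∑ x ∈ colset B (p := p) t, f x t = ∑ x : ZMod (p * B), f x (x.val % p) := by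
  have hp : 0 < p := Nat.pos_of_ne_zero (NeZero.ne p)
  rw [← sum_fiberwise_of_maps_to (s := univ) (t := range p) (g := fun x : ZMod (p * B) =>
    x.val % p) (fun x _ => mem_range.2 (Nat.mod_lt _ hp))]
  refine sum_congr rfl fun t _ => ?_
  unfold colset
  refine sum_congr rfl fun x hx => ?_
  rw [(mem_filter.1 hx).2]

/-- **The edges of the strip.** -/
theorem sum_E_strip (hε : ε * ε = 1) (hN : ε ^ (p * B) = 1) {W : TWord} {C2 : List (List ℕ)}
    (h : chkT m p ε W C2 = true) (hok : okT m p W = true) :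
    ∑ x : ZMod m, E (tsq (B := B) hε hok x) =
      ∑ c : ZMod (p * B), ((∑ d ∈ range ((m - 1) / 2), Gc ε 0 ((d + 1 : ℕ) : ZMod m) c) +
        ((∑ k ∈ range m, Gc ε 1 (k : ZMod m) c) +
          ((C2.getD (c.val % p) []).map fun k : ℕ => Gc ε 2 (k : ZMod m) c).sum)) := by
  have hm : 0 < m := Nat.pos_of_ne_zero (NeZero.ne m)
  have hp : 0 < p := Nat.pos_of_ne_zero (NeZero.ne p)
  have hperm : (codesT m p ε W).Perm (tgtT m p C2) := by
    simp only [chkT, Bool.and_eq_true] at h
    exact perm_of_samePerm h.2.1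
  have hC2 : ∀ t < p, ∀ k ∈ C2.getD t [], k < m := by
    simp only [chkT, Bool.and_eq_true, List.all_eq_true, decide_eq_true_eq, List.mem_range] at h
    exact h.2.2
  have e1 : ∑ x : ZMod m, E (tsq (B := B) hε hok x) =
      ((codesT m p ε W).map (GN m p B ε)).sum := by
    rw [sum_E_tsq hε hN hok]
    unfold codesT
    rw [sum_map_flatMap, sum_range_list]
    refine sum_congr rfl fun n _ => ?_
    rw [sum_add_distrib]
    simp only [List.map_cons, List.map_nil, List.sum_cons, List.sum_nil, add_zero]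
    rw [GN_ecode hε hN, GN_ecode hε hN]
    rfl
  rw [e1, (hperm.map _).sum_eq]
  unfold tgtT
  rw [List.map_append, List.map_append, List.sum_append, List.sum_append, sum_map_flatMap,
    sum_map_flatMap, sum_map_flatMap, sum_range_list, sum_range_list, sum_range_list]
  have a1 : ∀ t ∈ range p, (((List.range ((m - 1) / 2)).map fun d => (0 * p + t) * m +
      (d + 1)).map (GN m p B ε)).sum = ∑ x ∈ colset B (p := p) t,
      ∑ d ∈ range ((m - 1) / 2), Gc ε 0 ((d + 1 : ℕ) : ZMod m) x := by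
    intro t ht
    rw [List.map_map, sum_range_list, sum_comm]
    refine sum_congr rfl fun d hd => ?_
    have hd' := mem_range.1 hd
    show GN m p B ε ((0 * p + t) * m + (d + 1)) = _
    rw [GN_mk (mem_range.1 ht) (by omega)]
    rfl
  have a2 : ∀ t ∈ range p, (((List.range m).map fun k => (1 * p + t) * m + k).map
      (GN m p B ε)).sum = ∑ x ∈ colset B (p := p) t,
      ∑ k ∈ range m, Gc ε 1 (k : ZMod m) x := by
    intro t ht
    rw [List.map_map, sum_range_list, sum_comm]
    refine sum_congr rfl fun k hk => ?_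
    show GN m p B ε ((1 * p + t) * m + k) = _
    rw [GN_mk (mem_range.1 ht) (mem_range.1 hk)]
    rfl
  have a3 : ∀ t ∈ range p, (((C2.getD t []).map fun k => (2 * p + t) * m + k).map
      (GN m p B ε)).sum = ∑ x ∈ colset B (p := p) t,
      ((C2.getD t []).map fun k : ℕ => Gc ε 2 (k : ZMod m) x).sum := by
    intro t ht
    have hlt := hC2 t (mem_range.1 ht)
    rw [List.map_map]
    generalize C2.getD t [] = l at hlt
    induction l with
    | nil => simp
    | cons k l ih =>
      rw [List.map_cons, List.sum_cons, ih fun k' hk' => hlt k' (List.mem_cons_of_mem _ hk')]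
      simp only [List.map_cons, List.sum_cons]
      rw [sum_add_distrib]
      congr 1
      show GN m p B ε ((2 * p + t) * m + k) = _
      rw [GN_mk (mem_range.1 ht) (hlt k List.mem_cons_self)]
      rfl
  rw [sum_congr rfl a1, sum_congr rfl a2, sum_congr rfl a3,
    sum_colset fun x _ => ∑ d ∈ range ((m - 1) / 2), Gc ε 0 ((d + 1 : ℕ) : ZMod m) x,
    sum_colset fun x _ => ∑ k ∈ range m, Gc ε 1 (k : ZMod m) x,
    sum_colset fun x t => ((C2.getD t []).map fun k : ℕ => Gc ε 2 (k : ZMod m) x).sum,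
    ← sum_add_distrib, ← sum_add_distrib]

end Codes

end Tw

end SqIns
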