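import Pool.Agent.Lib.SqIns.Row3

/-!
# The total sum

The lifts of all base squares with all letters, together with squares `O j` on `V × R` made of the
vertical and of the freed edges and squares `S j` on the fibre of infinity and the letters, use every
edge exactly once.
-/

open Finset Equiv

namespace SqIns

/-! ### Pairs of a disjoint union -/

section Union

variable {A B : Type*} [DecidableEq A] [DecidableEq B] [Fintype A] [Fintype B]

theorem push_mk {V W : Type*} [Fintype V] [DecidableEq V] [DecidableEq W] {f : V → W}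
    (hf : Function.Injective f) (φ : Sym2 V → ℤ) (a b : V) : push f φ s(f a, f b) = φ s(a, b) :=
  push_apply hf φ s(a, b)

theorem push_mk_of {V W : Type*} [Fintype V] [DecidableEq V] [DecidableEq W] (f : V → W)
    (φ : Sym2 V → ℤ) {x : W} (y : W) (hx : ∀ a, f a ≠ x) : push f φ s(x, y) = 0 := by
  refine push_apply_of_notMem f φ _ fun e he => ?_
  induction e with
  | _ a b =>
    rw [Sym2.map_mk] at he
    rcases Sym2.eq_iff.1 he with h | h
    · exact hx a h.1
    · exact hx b h.2

theorem push_mk_of' {V W : Type*} [Fintype V] [DecidableEq V] [DecidableEq W] (f : V → W)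
    (φ : Sym2 V → ℤ) {x : W} (y : W) (hx : ∀ a, f a ≠ x) : push f φ s(y, x) = 0 := by
  rw [Sym2.eq_swap]
  exact push_mk_of f φ y hx

/-- all edges between the two parts -/
def cross (A B : Type*) [DecidableEq A] [DecidableEq B] [Fintype A] [Fintype B] :
    Sym2 (A ⊕ B) → ℤ := ∑ a : A, ∑ b : B, pr (Sum.inl a) (Sum.inr b)

theorem cross_inl_inl (a a' : A) : cross A B s(Sum.inl a, Sum.inl a') = 0 := by
  unfold cross
  rw [Finset.sum_apply]
  refine sum_eq_zero fun x _ => ?_
  rw [Finset.sum_apply]
  refine sum_eq_zero fun y _ => ?_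
  rw [pr_apply, if_neg]
  rintro ⟨-, h⟩
  rcases Sym2.eq_iff.1 h with h | h
  · exact Sum.inl_ne_inr h.2
  · exact Sum.inl_ne_inr h.1

theorem cross_inr_inr (b b' : B) : cross A B s(Sum.inr b, Sum.inr b') = 0 := by
  unfold cross
  rw [Finset.sum_apply]
  refine sum_eq_zero fun x _ => ?_
  rw [Finset.sum_apply]
  refine sum_eq_zero fun y _ => ?_
  rw [pr_apply, if_neg]
  rintro ⟨-, h⟩
  rcases Sym2.eq_iff.1 h with h | h
  · exact Sum.inr_ne_inl h.1
  · exact Sum.inr_ne_inl h.2

theorem cross_inl_inr (a : A) (b : B) : cross A B s(Sum.inl a, Sum.inr b) = 1 := by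
  unfold cross
  rw [Finset.sum_apply, sum_eq_single a]
  · rw [Finset.sum_apply, sum_eq_single b]
    · rw [pr_apply, if_pos ⟨Sum.inl_ne_inr, rfl⟩]
    · intro b' _ hb'
      rw [pr_apply, if_neg]
      rintro ⟨-, h⟩
      rcases Sym2.eq_iff.1 h with h | h
      · exact hb' (Sum.inr_injective h.2).symm
      · exact Sum.inl_ne_inr h.1
    · intro h
      exact absurd (mem_univ _) h
  · intro a' _ ha'
    rw [Finset.sum_apply]
    refine sum_eq_zero fun y _ => ?_
    rw [pr_apply, if_neg]
    rintro ⟨-, h⟩
    rcases Sym2.eq_iff.1 h with h | h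
    · exact ha' (Sum.inl_injective h.1).symm
    · exact Sum.inl_ne_inr h.1
  · intro h
    exact absurd (mem_univ _) h

theorem allPairs_sum : allPairs (A ⊕ B) =
    push Sum.inl (allPairs A) + push Sum.inr (allPairs B) + cross A B := by
  funext e
  induction e with
  | _ x y =>
    simp only [Pi.add_apply]
    rcases x with a | b <;> rcases y with a' | b'
    · rw [push_mk Sum.inl_injective, push_mk_of Sum.inr _ _ (fun _ => Sum.inr_ne_inl),
        cross_inl_inl]
      simp [allPairs]
    · rw [push_mk_of' Sum.inl _ _ (fun _ => Sum.inl_ne_inr),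
        push_mk_of Sum.inr _ _ (fun _ => Sum.inr_ne_inl), cross_inl_inr]
      simp [allPairs]
    · rw [push_mk_of Sum.inl _ _ (fun _ => Sum.inl_ne_inr),
        push_mk_of' Sum.inr _ _ (fun _ => Sum.inr_ne_inl), Sym2.eq_swap, cross_inl_inr]
      simp [allPairs]
    · rw [push_mk_of Sum.inl _ _ (fun _ => Sum.inl_ne_inr), push_mk Sum.inr_injective,
        cross_inr_inr]
      simp [allPairs]

theorem E_sumCongr (a : Perm A) (b : Perm B) :
    E (Equiv.sumCongr a b : Perm (A ⊕ B)) = push Sum.inl (E a) + push Sum.inr (E b) := by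
  unfold E
  rw [Fintype.sum_sum_type, push_sum, push_sum]
  congr 1
  · refine sum_congr rfl fun x _ => ?_
    rw [push_add, push_pr Sum.inl_injective, push_pr Sum.inl_injective]
    rfl
  · refine sum_congr rfl fun x _ => ?_
    rw [push_add, push_pr Sum.inr_injective, push_pr Sum.inr_injective]
    rfl

end Union

/-! ### The fibre of infinity -/

section Inf

variable {V R : Type*} [DecidableEq V] [DecidableEq R] [Fintype V] [Fintype R]

/-- the points over the finite columns -/
def emV (V R : Type*) : V × R → Option V × R := fun p => (some p.1, p.2)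

/-- the points over infinity -/
def emI (V R : Type*) : R → Option V × R := fun y => (none, y)

omit [DecidableEq V] [DecidableEq R] [Fintype V] [Fintype R] in
theorem emV_injective : Function.Injective (emV V R) := by
  rintro ⟨a, b⟩ ⟨c, d⟩ h
  simp only [emV, Prod.mk.injEq, Option.some.injEq] at h
  exact Prod.ext h.1 h.2

omit [DecidableEq V] [DecidableEq R] [Fintype V] [Fintype R] in
theorem emI_injective : Function.Injective (emI V R) := fun _ _ h => (Prod.ext_iff.1 h).2

theorem vertAll_option : vertAll (Option V) R =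
    push (emV V R) (vertAll V R) + push (emI V R) (allPairs R) := by
  funext e
  induction e with
  | _ x y =>
    obtain ⟨x, a⟩ := x
    obtain ⟨y, b⟩ := y
    simp only [Pi.add_apply]
    have hV : ∀ (c : R) (p : V × R), emV V R p ≠ (none, c) := fun c p h =>
      Option.some_ne_none _ (Prod.ext_iff.1 h).1
    have hI : ∀ (v : V) (c : R) (z : R), emI V R z ≠ (some v, c) := fun v c z h =>
      Option.some_ne_none _ (Prod.ext_iff.1 h).1.symm
    rcases x with _ | x <;> rcases y with _ | y
    · rw [push_mk_of (emV V R) _ _ (hV a)]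
      rw [show s((none, a), (none, b)) = s(emI V R a, emI V R b) from rfl,
        push_mk emI_injective]
      simp [vertAll, allPairs, emI]
    · rw [push_mk_of (emV V R) _ _ (hV a), push_mk_of' (emI V R) _ _ (hI y b)]
      simp [vertAll]
    · rw [push_mk_of' (emV V R) _ _ (hV b), push_mk_of (emI V R) _ _ (hI x a)]
      simp [vertAll]
    · rw [push_mk_of (emI V R) _ _ (hI x a)]
      rw [show s((some x, a), (some y, b)) = s(emV V R (x, a), emV V R (y, b)) from rfl,
        push_mk emV_injective]
      simp [vertAll, emV]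

/-- finite columns, infinity, letters -/
def join (V R W : Type*) : (V × R) ⊕ (R ⊕ W) ≃ (Option V × R) ⊕ W where
  toFun
    | .inl p => .inl (some p.1, p.2)
    | .inr (.inl y) => .inl (none, y)
    | .inr (.inr w) => .inr w
  invFun
    | .inl (some v, y) => .inl (v, y)
    | .inl (none, y) => .inr (.inl y)
    | .inr w => .inr (.inr w)
  left_inv := by rintro (⟨v, y⟩ | y | w) <;> rfl
  right_inv := by rintro (⟨_ | v, y⟩ | w) <;> rfl

/-- the two cycles `O` and `S` -/
def two {V R W : Type*} (O : Perm (V × R)) (S : Perm (R ⊕ W)) : Perm ((Option V × R) ⊕ W) :=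
  (join V R W).permCongr (Equiv.sumCongr O S)

variable {W : Type*} [DecidableEq W] [Fintype W]

theorem E_two (O : Perm (V × R)) (S : Perm (R ⊕ W)) : E (two O S) =
    push Sum.inl (push (emV V R) (E O)) + push (join V R W) (push Sum.inr (E S)) := by
  unfold two
  rw [E_permCongr, E_sumCongr, push_add, push_push, push_push, push_push]
  rfl

theorem push_join_allPairs : push (join V R W) (push Sum.inr (allPairs (R ⊕ W))) =
    push Sum.inl (push (emI V R) (allPairs R)) + push Sum.inr (allPairs W) +
      ∑ w : W, Row.star w none := by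
  rw [allPairs_sum, push_add, push_add, push_add, push_add, push_push, push_push, push_push,
    push_push]
  congr 1
  · rw [push_push]
    rfl
  · rw [push_push]
    unfold cross
    rw [push_sum]
    simp only [push_sum]
    rw [sum_comm]
    refine sum_congr rfl fun w _ => ?_
    unfold Row.star
    refine sum_congr rfl fun y _ => ?_
    rw [push_pr ((join V R W).injective.comp Sum.inr_injective)]
    rfl

end Inf

namespace Row

/-- the four columns of the window of the system `i` -/
def wn {X R I : Type*} [Fintype X] [CommRing R] (ρ : Row X R I) (i : I) : Fin 4 → X :=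
  ![ρ.s⁻¹ (ρ.B i), ρ.B i, ρ.s (ρ.B i), ρ.s (ρ.s (ρ.B i))]

variable {V R I W ι T : Type*} [Fintype V] [DecidableEq V] [CommRing R] [Fintype R]
  [DecidableEq R] [Fintype W] [DecidableEq W] [Fintype ι] [Fintype T]

/-- **The total sum.** -/
theorem total (ρ : ι → Row (Option V) R I) (σ : W → I) (κ : ι → W → R)
    (hσ : ∀ r, Function.Injective fun w => (σ w, κ r w)) (Φ : ι → Option V → Perm R)
    (hbase : ∑ r, E (ρ r).s = allPairs (Option V)) (win : ι → I → Fin 4 → V)
    (hwin : ∀ r i n, (ρ r).wn i n = some (win r i n))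
    (hbij : ∀ i, Function.Bijective fun p : ι × Fin 4 => win p.1 i p.2)
    (O : T → Perm (V × R)) (S : T → Perm (R ⊕ W)) (free : Sym2 (V × R) → ℤ)
    (hfree : push (emV V R) free = ∑ r, push (fib (Φ r))
      (∑ w, ((ρ r).mac (σ w) (κ r w) + (ρ r).mbd (σ w) (κ r w))))
    (hO : ∑ j, E (O j) = vertAll V R + free) (hS : ∑ j, E (S j) = allPairs (R ⊕ W)) :
    ∑ p : ι × R, E ((ρ p.1).fullΦ (hσ p.1) (Φ p.1) p.2) + ∑ j, E (two (O j) (S j)) =
      allPairs ((Option V × R) ⊕ W) := by
  have h1 : ∑ p : ι × R, E ((ρ p.1).fullΦ (hσ p.1) (Φ p.1) p.2) =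
      push Sum.inl (blow R (allPairs (Option V))) + ∑ w : W, ∑ v : V, star w (some v) -
        push Sum.inl (push (emV V R) free) := by
    rw [Fintype.sum_prod_type, sum_congr rfl fun r _ => (ρ r).sum_E_fullΦ (hσ r) (Φ r),
      sum_sub_distrib, sum_add_distrib, ← push_sum, ← blow_sum, hbase, ← push_sum, ← hfree]
    congr 2
    rw [sum_comm]
    refine sum_congr rfl fun w _ => ?_
    have h2 : ∀ r, star w ((ρ r).s⁻¹ ((ρ r).B (σ w))) + star w ((ρ r).B (σ w)) +
        star w ((ρ r).s ((ρ r).B (σ w))) + star w ((ρ r).s ((ρ r).s ((ρ r).B (σ w)))) =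
        ∑ n : Fin 4, (star w (some (win r (σ w) n)) : Sym2 ((Option V × R) ⊕ W) → ℤ) := by
      intro r
      rw [Fin.sum_univ_four, ← hwin, ← hwin, ← hwin, ← hwin]
      rfl
    rw [sum_congr rfl fun r _ => h2 r, ← Fintype.sum_prod_type']
    exact (hbij (σ w)).sum_comp fun v => (star w (some v) : Sym2 ((Option V × R) ⊕ W) → ℤ)
  have h3 : ∑ j, E (two (O j) (S j)) = push Sum.inl (push (emV V R) (vertAll V R + free)) +
      push (join V R W) (push Sum.inr (allPairs (R ⊕ W))) := by
    rw [sum_congr rfl fun j _ => E_two (O j) (S j), sum_add_distrib, ← push_sum, ← push_sum,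
      ← push_sum, ← push_sum, hO, hS]
  have h4 : ∑ w : W, ∑ v : V, star w (some v) + ∑ w : W, star w none =
      cross (Option V × R) W := by
    rw [← sum_add_distrib]
    unfold cross
    rw [sum_comm (s := (univ : Finset (Option V × R)))]
    refine sum_congr rfl fun w _ => ?_
    rw [Fintype.sum_prod_type, Fintype.sum_option, add_comm]
    rfl
  rw [h1, h3, push_join_allPairs, allPairs_sum, ← blow_allPairs, vertAll_option, ← h4,
    push_add, push_add, push_add, push_add]
  abel

end Row

end SqIns
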