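import Pool.Agent.Lib.SqIns.Expl

/-!
# Words in explicit decompositions

Every square of an explicit decomposition contains four consecutive points (in one of the two
directions) with a given property, checked on natural numbers.
-/

open Finset Equiv

namespace SqIns

/-- `g 0, …, g (n-1)` are all true -/
def allB (g : ℕ → Bool) : ℕ → Bool
  | 0 => true
  | n + 1 => (g n).and (allB g n)

theorem allB_iff (g : ℕ → Bool) (n : ℕ) : allB g n = true ↔ ∀ i < n, g i = true := by
  induction n with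
  | zero => simp [allB]
  | succ n ih =>
    rw [allB, Bool.and_eq_true, ih]
    constructor
    · rintro ⟨h1, h2⟩ i hi
      rcases Nat.lt_succ_iff_lt_or_eq.1 hi with h | h
      · exact h2 i h
      · rw [h]; exact h1
    · exact fun h => ⟨h n (Nat.lt_succ_self n), fun i hi => h i (Nat.lt_succ_of_lt hi)⟩

/-- digit `i` of `N` in base `b` -/
def dig (b N i : ℕ) : ℕ := N / b ^ i % b

/-- a permutation or its inverse -/
def orient {V : Type*} (b : Bool) (s : Perm V) : Perm V :=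
  match b with
  | true => s
  | false => s⁻¹

/-- the word at position `pos m` of square `m`, read forwards or backwards -/
def wordOK (k : ℕ) (f : ℕ → ℕ → ℕ) (R : ℕ → ℕ → ℕ → ℕ → ℕ → Bool) (pos : ℕ → ℕ)
    (dir : ℕ → Bool) (m : ℕ) : Bool :=
  (Nat.blt (pos m + 3) (4 * k + 1)).and
    (match dir m with
    | true => R m (f m (pos m)) (f m (pos m + 1)) (f m (pos m + 2)) (f m (pos m + 3))
    | false => R m (f m (pos m + 3)) (f m (pos m + 2)) (f m (pos m + 1)) (f m (pos m)))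

/-- four consecutive points, in one of the two directions -/
def Win {V : Type*} (s : Perm V) (p q u v : V) : Prop :=
  (s p = q ∧ s q = u ∧ s u = v) ∨ (s v = u ∧ s u = q ∧ s q = p)

/-- one word -/
theorem exists_word {k : ℕ} {f : ℕ → ℕ → ℕ} {s : Fin k → Perm (Fin (4 * k + 1))}
    (h : IsExpl k f s) (R : ℕ → ℕ → ℕ → ℕ → ℕ → Bool) (pos : ℕ → ℕ) (dir : ℕ → Bool)
    (m : Fin k) (hc : wordOK k f R pos dir m = true) :
    ∃ p q u v : Fin (4 * k + 1), Win (s m) p q u v ∧ R m p q u v = true := by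
  unfold wordOK at hc
  rw [Bool.and_eq_true] at hc
  obtain ⟨h2, h3⟩ := hc
  have h2' : pos m + 3 < 4 * k + 1 := by rwa [Nat.blt_eq] at h2
  have hP : ∀ i, i ≤ 3 → f m (pos m + i) < 4 * k + 1 := fun i hi => h.lt m _ m.isLt (by omega)
  have hs : ∀ i (hi : i + 1 ≤ 3), s m ⟨f m (pos m + i), hP i (by omega)⟩ =
      ⟨f m (pos m + (i + 1)), hP (i + 1) hi⟩ :=
    fun i hi => h.next m (pos m + i) (by omega) _ _ rfl rfl
  rcases hd : dir m with _ | _
  · rw [hd] at h3
    exact ⟨⟨f m (pos m + 3), hP 3 le_rfl⟩, ⟨f m (pos m + 2), hP 2 (by omega)⟩,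
      ⟨f m (pos m + 1), hP 1 (by omega)⟩, ⟨f m (pos m + 0), hP 0 (by omega)⟩,
      Or.inr ⟨hs 0 (by omega), hs 1 (by omega), hs 2 le_rfl⟩, h3⟩
  · rw [hd] at h3
    exact ⟨⟨f m (pos m + 0), hP 0 (by omega)⟩, ⟨f m (pos m + 1), hP 1 (by omega)⟩,
      ⟨f m (pos m + 2), hP 2 (by omega)⟩, ⟨f m (pos m + 3), hP 3 le_rfl⟩,
      Or.inl ⟨hs 0 (by omega), hs 1 (by omega), hs 2 le_rfl⟩, h3⟩

/-- **Words.**  The squares can be directed such that each one contains a word. -/
theorem exists_words {k : ℕ} {f : ℕ → ℕ → ℕ} {s : Fin k → Perm (Fin (4 * k + 1))}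
    (h : IsExpl k f s) (R : ℕ → ℕ → ℕ → ℕ → ℕ → Bool) (pos : ℕ → ℕ) (dir : ℕ → Bool)
    (hc : allB (wordOK k f R pos dir) k = true) :
    Dec (fun m : Fin k => orient (dir m) (s m)) ∧
      ∀ m : Fin k, ∃ p : Fin (4 * k + 1),
        R m p (orient (dir m) (s m) p) (orient (dir m) (s m) (orient (dir m) (s m) p))
          (orient (dir m) (s m) (orient (dir m) (s m) (orient (dir m) (s m) p))) = true := by
  rw [allB_iff] at hc
  refine ⟨?_, ?_⟩
  · refine ⟨fun m => ?_, ?_⟩
    · rcases hd : dir m with _ | _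
      · exact (h.dec.closed m).inv
      · exact h.dec.closed m
    · rw [← h.dec.cover]
      refine sum_congr rfl fun m _ => ?_
      rcases hd : dir m with _ | _
      · exact E_inv _
      · rfl
  · intro m
    have h1 := hc m m.isLt
    unfold wordOK at h1
    rw [Bool.and_eq_true] at h1
    obtain ⟨h2, h3⟩ := h1
    have h2' : pos m + 3 < 4 * k + 1 := by rwa [Nat.blt_eq] at h2
    -- the four points
    let P : ℕ → ℕ := fun i => f m (pos m + i)
    have hP : ∀ i, i ≤ 3 → P i < 4 * k + 1 := fun i hi => h.lt m _ m.isLt (by omega)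
    have hs : ∀ i (hi : i + 1 ≤ 3), s m ⟨P i, hP i (by omega)⟩ = ⟨P (i + 1), hP (i + 1) hi⟩ :=
      fun i hi => h.next m (pos m + i) (by omega) _ _ rfl rfl
    have hs' : ∀ i (hi : i + 1 ≤ 3),
        (s m)⁻¹ ⟨P (i + 1), hP (i + 1) hi⟩ = ⟨P i, hP i (by omega)⟩ := by
      intro i hi
      rw [Perm.inv_eq_iff_eq]
      exact (hs i hi).symm
    rcases hd : dir m with _ | _
    · rw [hd] at h3
      refine ⟨⟨P 3, hP 3 le_rfl⟩, ?_⟩
      show R m _ ((s m)⁻¹ _) ((s m)⁻¹ ((s m)⁻¹ _)) ((s m)⁻¹ ((s m)⁻¹ ((s m)⁻¹ _))) = true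
      rw [hs' 2 le_rfl, hs' 1 (by omega), hs' 0 (by omega)]
      exact h3
    · rw [hd] at h3
      refine ⟨⟨P 0, hP 0 (by omega)⟩, ?_⟩
      show R m _ (s m _) (s m (s m _)) (s m (s m (s m _))) = true
      rw [hs 0 (by omega), hs 1 (by omega), hs 2 le_rfl]
      exact h3

end SqIns
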