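import Pool.Agent.Lib.SqIns.Words
import Pool.Agent.Lib.SqIns.PWords

/-!
# The check of the word statement on explicit decompositions

`chkW k f CH PD nF nI nA s` is a check on natural numbers which implies `PW k nF nI nA s` for an
explicit decomposition `f` (see `IsExpl`).

Colours of points: `0` none, `2` in `A`, `1` in `I`, `3` a centre (in `I`), `8 j + 4 + i` (`i < 3`) the
private letter `i` of square `j`, `8 j + 7` the last letter of square `j` (in `I`), `8 j + 8` the last
letter of square `j` and a centre.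
-/

open Finset Equiv

namespace SqIns

/-- the number of `i < n` with `g i` -/
def cntB (g : ℕ → Bool) : ℕ → ℕ
  | 0 => 0
  | n + 1 => (match g n with | true => 1 | false => 0) + cntB g n

theorem cntB_eq (g : ℕ → Bool) (n : ℕ) :
    cntB g n = (univ.filter fun x : Fin n => g x = true).card := by
  induction n with
  | zero => simp [cntB]
  | succ n ih =>
    rw [cntB, ih, Fin.univ_castSuccEmb, Finset.filter_cons]
    rcases h : g n with _ | _
    · simp only [Fin.val_last, h, Bool.false_eq_true, if_false]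
      rw [zero_add, Finset.filter_map, Finset.card_map]
      rfl
    · simp only [Fin.val_last, h, if_true]
      rw [Finset.card_cons, Finset.filter_map, Finset.card_map, add_comm]
      rfl

/-- the colours of centres -/
def isC (c : ℕ) : Bool := (Nat.beq c 3).or ((Nat.ble 4 c).and (Nat.beq (c % 8) 0))

/-- the colours of points in `I` -/
def isI (c : ℕ) : Bool :=
  (Nat.beq c 1).or ((isC c).or ((Nat.ble 4 c).and (Nat.beq (c % 8) 7)))

theorem isC_iff (c : ℕ) : isC c = true ↔ c = 3 ∨ (4 ≤ c ∧ c % 8 = 0) := by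
  unfold isC
  rw [Bool.or_eq_true, Bool.and_eq_true, Nat.beq_eq, Nat.ble_eq, Nat.beq_eq]

theorem isI_iff (c : ℕ) :
    isI c = true ↔ c = 1 ∨ c = 3 ∨ (4 ≤ c ∧ (c % 8 = 0 ∨ c % 8 = 7)) := by
  unfold isI
  rw [Bool.or_eq_true, Bool.or_eq_true, Bool.and_eq_true, Nat.beq_eq, Nat.ble_eq, Nat.beq_eq,
    isC_iff]
  omega

/-- the four colours of a word of square `m`; `F`: an `I C A A` word, otherwise a private word with
last letter in `I` -/
def colOK (m : ℕ) (F : Bool) (a b c d : ℕ) : Bool :=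
  match F with
  | true => (isI a).and ((isC b).and ((Nat.beq c 2).and (Nat.beq d 2)))
  | false => (Nat.beq a (8 * m + 4)).and ((Nat.beq b (8 * m + 5)).and
      ((Nat.beq c (8 * m + 6)).and ((Nat.beq d (8 * m + 7)).or (Nat.beq d (8 * m + 8)))))

/-- base of the colour table -/
def bC (k : ℕ) : ℕ := 8 * k + 8

/-- base of the word table -/
def bP (k : ℕ) : ℕ := 16 * k + 16

/-- The check: `CH` is the colour table, `PD` the table of `4 pos + 2 dir + F`. -/
def chkW (k : ℕ) (f : ℕ → ℕ → ℕ) (CH PD nF nI nA s : ℕ) : Bool :=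
  (allB (wordOK k f (fun m a b c d => colOK m (Nat.beq (dig (bP k) PD m % 2) 1)
      (dig (bC k) CH a) (dig (bC k) CH b) (dig (bC k) CH c) (dig (bC k) CH d))
      (fun m => dig (bP k) PD m / 4) (fun m => Nat.beq (dig (bP k) PD m / 2 % 2) 1)) k).and
  ((Nat.beq (cntB (fun m => Nat.beq (dig (bP k) PD m % 2) 1) k) nF).and
  ((Nat.ble (cntB (fun x => isI (dig (bC k) CH x)) (4 * k + 1)) nI).and
  ((Nat.ble (cntB (fun x => Nat.beq (dig (bC k) CH x) 2) (4 * k + 1)) nA).and
  (Nat.ble (cntB (fun x => isC (dig (bC k) CH x)) (4 * k + 1)) s))))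

/-- **Soundness.** -/
theorem pw_of_chkW {k : ℕ} {f : ℕ → ℕ → ℕ}
    (h : ∃ s0 : Fin k → Perm (Fin (4 * k + 1)), IsExpl k f s0) {CH PD nF nI nA s : ℕ}
    (hc : chkW k f CH PD nF nI nA s = true) : PW k nF nI nA s := by
  obtain ⟨s0, h⟩ := h
  unfold chkW at hc
  rw [Bool.and_eq_true, Bool.and_eq_true, Bool.and_eq_true, Bool.and_eq_true, Nat.beq_eq,
    Nat.ble_eq, Nat.ble_eq, Nat.ble_eq] at hc
  obtain ⟨h1, h2, h3, h4, h5⟩ := hc
  obtain ⟨hD, hw⟩ := exists_words h _ _ _ h1
  choose p hp using hw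
  set sq : Fin k → Perm (Fin (4 * k + 1)) :=
    fun m => orient (Nat.beq (dig (bP k) PD m / 2 % 2) 1) (s0 m) with hsq
  let ch : Fin (4 * k + 1) → ℕ := fun x => dig (bC k) CH x
  have hp' : ∀ m : Fin k, colOK m (Nat.beq (dig (bP k) PD m % 2) 1) (ch (p m))
      (ch (sq m (p m))) (ch (sq m (sq m (p m)))) (ch (sq m (sq m (sq m (p m))))) = true := hp
  -- the squares outside `J`
  have hG : ∀ j : Fin k,
      j ∉ (univ.filter fun m : Fin k => Nat.beq (dig (bP k) PD m % 2) 1 = true) →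
      ch (p j) = 8 * (j : ℕ) + 4 ∧ ch (sq j (p j)) = 8 * (j : ℕ) + 5 ∧
        ch (sq j (sq j (p j))) = 8 * (j : ℕ) + 6 ∧
        (ch (sq j (sq j (sq j (p j)))) = 8 * (j : ℕ) + 7 ∨
          ch (sq j (sq j (sq j (p j)))) = 8 * (j : ℕ) + 8) := by
    intro j hj
    have hF : Nat.beq (dig (bP k) PD j % 2) 1 = false := by
      rw [← Bool.not_eq_true]
      exact fun h => hj (mem_filter.2 ⟨mem_univ _, h⟩)
    have h6 := hp' j
    rw [hF] at h6
    unfold colOK at h6
    rw [Bool.and_eq_true, Bool.and_eq_true, Bool.and_eq_true, Bool.or_eq_true, Nat.beq_eq,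
      Nat.beq_eq, Nat.beq_eq, Nat.beq_eq, Nat.beq_eq] at h6
    exact h6
  refine ⟨sq, hD, univ.filter fun m : Fin k => Nat.beq (dig (bP k) PD m % 2) 1 = true, ?_,
    univ.filter fun x => isI (ch x) = true, univ.filter fun x => Nat.beq (ch x) 2 = true,
    univ.filter fun x => isC (ch x) = true, ?_, ?_, ?_, ?_, ?_,
    fun m => ![p m, sq m (p m), sq m (sq m (p m)), sq m (sq m (sq m (p m)))],
    ?_, ?_, ?_, ?_⟩
  · rw [← h2, cntB_eq]
  · rw [Finset.disjoint_left]
    intro x hx hx'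
    rw [mem_filter, isI_iff] at hx
    rw [mem_filter, Nat.beq_eq] at hx'
    omega
  · intro x hx
    rw [mem_filter, isC_iff] at hx
    rw [mem_filter, isI_iff]
    refine ⟨mem_univ _, ?_⟩
    omega
  · rw [cntB_eq] at h3; exact h3
  · rw [cntB_eq] at h4; exact h4
  · rw [cntB_eq] at h5; exact h5
  · intro j
    exact ⟨rfl, rfl, rfl⟩
  · intro j hj
    have hF := (mem_filter.1 hj).2
    have h6 := hp' j
    rw [hF] at h6
    unfold colOK at h6
    rw [Bool.and_eq_true, Bool.and_eq_true, Bool.and_eq_true] at h6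
    obtain ⟨h7, h8, h9, h10⟩ := h6
    exact ⟨mem_filter.2 ⟨mem_univ _, h7⟩, mem_filter.2 ⟨mem_univ _, h8⟩,
      mem_filter.2 ⟨mem_univ _, h9⟩, mem_filter.2 ⟨mem_univ _, h10⟩⟩
  · intro j hj
    obtain ⟨h7, h8, h9, h10⟩ := hG j hj
    constructor
    · refine mem_filter.2 ⟨mem_univ _, ?_⟩
      rw [isI_iff]
      show ch (sq j (sq j (sq j (p j)))) = 1 ∨ ch (sq j (sq j (sq j (p j)))) = 3 ∨
        (4 ≤ ch (sq j (sq j (sq j (p j)))) ∧ (ch (sq j (sq j (sq j (p j)))) % 8 = 0 ∨
          ch (sq j (sq j (sq j (p j)))) % 8 = 7))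
      omega
    · have key : ∀ x : Fin (4 * k + 1), (4 ≤ ch x ∧ ch x % 8 ≠ 0 ∧ ch x % 8 ≠ 7) →
          x ∉ (univ.filter fun x => isI (ch x) = true) ∧
          x ∉ (univ.filter fun x => Nat.beq (ch x) 2 = true) := by
        intro x hx
        rw [mem_filter, mem_filter, isI_iff, Nat.beq_eq]
        omega
      intro i hi
      fin_cases i
      · exact key _ (by show 4 ≤ ch (p j) ∧ ch (p j) % 8 ≠ 0 ∧ ch (p j) % 8 ≠ 7; omega)
      · exact key _ (by
          show 4 ≤ ch (sq j (p j)) ∧ ch (sq j (p j)) % 8 ≠ 0 ∧ ch (sq j (p j)) % 8 ≠ 7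
          omega)
      · exact key _ (by
          show 4 ≤ ch (sq j (sq j (p j))) ∧ ch (sq j (sq j (p j))) % 8 ≠ 0 ∧
            ch (sq j (sq j (p j))) % 8 ≠ 7
          omega)
      · exact absurd rfl hi
  · have key : ∀ j, j ∉ (univ.filter fun m : Fin k => Nat.beq (dig (bP k) PD m % 2) 1 = true) →
        ∀ i : Fin 4, ch ((![p j, sq j (p j), sq j (sq j (p j)), sq j (sq j (sq j (p j)))] :
          Fin 4 → Fin (4 * k + 1)) i) = 8 * (j : ℕ) + 4 + (i : ℕ) ∨
          ((i : ℕ) = 3 ∧ ch ((![p j, sq j (p j), sq j (sq j (p j)),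
            sq j (sq j (sq j (p j)))] : Fin 4 → Fin (4 * k + 1)) i) = 8 * (j : ℕ) + 8) := by
      intro j hj
      obtain ⟨h7, h8, h9, h10⟩ := hG j hj
      intro i
      fin_cases i
      · exact Or.inl h7
      · exact Or.inl h8
      · exact Or.inl h9
      · rcases h10 with h10 | h10
        · exact Or.inl h10
        · exact Or.inr ⟨rfl, h10⟩
    intro j hj j' hj' i i' hii
    have e1 := key j hj i
    have e2 := key j' hj' i'
    have e3 := congrArg ch hii
    have hi := i.isLt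
    have hi' := i'.isLt
    simp only at e3
    rw [e3] at e1
    constructor
    · apply Fin.ext
      omega
    · apply Fin.ext
      omega

end SqIns
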