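import Pool.Agent.Lib.SqIns.WordsP
import Pool.Agent.Lib.SqIns.Recur0

/-!
# All words at a small size from a list
-/

namespace SqIns

/-- the pairs `(m, a)` in `W` are all which are relevant at size `T` -/
def covW (T : ℕ) (W : List (ℕ × ℕ)) : Bool :=
  msL.all fun m => [0, 1].all fun a =>
    (!(Nat.ble (TFn m (fQ a 0)) T && Nat.ble T (TFn m (fQ a 0) + m * fQ a 0))) ||
      W.contains (m, a)

theorem ms_ge : ∀ m ∈ msL, 5 ≤ m := by decide

theorem pt_of {T s : ℕ} (hT : T < 125) (W : List (ℕ × ℕ)) (hc : covW T W = true)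
    (hW : ∀ x ∈ W, PW T (TFn x.1 (fQ x.2 0)) (x.1 * fQ x.2 0) (x.1 * fQ x.2 0) s) :
    PT T s := by
  intro m hm a b _ _ h1 h2
  have hm5 := ms_ge m hm
  have hlt : m * fQ a b ≤ T := le_trans (Nat.le_add_right _ _) h1
  have hQ : fQ a b < 25 := by
    by_contra h
    push Not at h
    have := Nat.mul_le_mul hm5 h
    omega
  have hb : b = 0 := by
    rcases Nat.eq_zero_or_pos b with h | h
    · exact h
    · exfalso
      have h3 : 25 ^ 1 ≤ 25 ^ b := Nat.pow_le_pow_right (by norm_num) h
      have h4 : 1 ≤ 17 ^ a := Nat.one_le_pow _ _ (by norm_num)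
      have h5 := Nat.mul_le_mul h4 h3
      unfold fQ at hQ
      omega
  have ha : a = 0 ∨ a = 1 := by
    rcases Nat.lt_or_ge a 2 with h | h
    · omega
    · exfalso
      have h3 : 17 ^ 2 ≤ 17 ^ a := Nat.pow_le_pow_right (by norm_num) h
      have h4 : 1 ≤ 25 ^ b := Nat.one_le_pow _ _ (by norm_num)
      have h5 := Nat.mul_le_mul h3 h4
      unfold fQ at hQ
      omega
  subst hb
  unfold covW at hc
  rw [List.all_eq_true] at hc
  have h3 := hc m hm
  rw [List.all_eq_true] at h3
  have h4 := h3 a (by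
    rcases ha with h | h
    · rw [h]
      exact List.mem_cons_self
    · rw [h]
      exact List.mem_cons_of_mem _ List.mem_cons_self)
  rw [Bool.or_eq_true, Bool.not_eq_true', Bool.and_eq_false_iff] at h4
  rcases h4 with (h4 | h4) | h4
  · rw [Nat.ble_eq_true_of_le h1] at h4
    exact absurd h4 (by decide)
  · rw [Nat.ble_eq_true_of_le h2] at h4
    exact absurd h4 (by decide)
  · have h5 : (m, a) ∈ W := by
      rw [List.contains_iff_mem] at h4
      exact h4
    exact hW _ h5

end SqIns
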