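import Pool.Agent.Lib.SqIns.StepF
import Pool.Agent.Lib.SqIns.Recur0

/-!
# The steps of the bases in the form of the recursion
-/

namespace SqIns

theorem pt_of_nl {k s : ℕ} (h : NL msL 2 s k) : PT k s := h

theorem twF_false {a c : ℕ} (h : twF a c = true) : ¬ (a = 0 ∧ c = 0) := by
  rintro ⟨rfl, rfl⟩
  exact absurd h (by decide)

/-- the form of the recursion -/
theorem bstepD_of_stepP {K m : ℕ} {P : ℕ → ℕ → Prop} {n s' : Bool → ℕ}
    (h : StepP msL 2 K m P n s') {G q : Bool → ℕ}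
    (hn : ∀ tw, n tw ≤ G tw) (hq : ∀ tw, s' tw ≤ 5 + q tw) (hG : G false ≤ G true)
    (hQ : q false ≤ q true) (tw : Bool) {D : ℕ → Prop}
    (hD : ∀ a b T, TFn m (fQ a b) ≤ T → D T → P a b) : BStepD K m (G tw) (q tw) tw D := by
  intro a b T s hb htw hc h1 h2 hT hPW hGs
  have e1 : G (twF a b) ≤ G tw ∧ q (twF a b) ≤ q tw := by
    cases tw
    · obtain ⟨rfl, rfl⟩ := htw rfl
      exact ⟨le_rfl, le_rfl⟩
    · cases twF a b
      · exact ⟨hG, hQ⟩
      · exact ⟨le_rfl, le_rfl⟩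
  have key := (h a b (hD a b T h1 hT) hb hc T s h1 h2 hPW (by
    have := hn (twF a b)
    rcases hGs with hGs | hGs
    · left
      omega
    · exact Or.inr hGs)).1
  refine pt_of_nl (key.mono ?_)
  have := hq (twF a b)
  omega

theorem msL_five : ∀ m ∈ msL, 5 ≤ m := by decide

/-- the digits of the recursion have words -/
theorem msL_sub : ∀ m ∈ msL, m ∈ msW := by decide

theorem nG_le : ∀ m ∈ msL, ∀ tw, nG m tw ≤ gG m tw := by decide

theorem nQ_le : ∀ m ∈ msL, ∀ tw, nQ m tw ≤ gC m tw := by decide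

theorem gG_le : ∀ m ∈ msL, gG m false ≤ gG m true := by decide

theorem gC_le : ∀ m ∈ msL, gC m false ≤ gC m true := by decide

/-- no lower bound is needed -/
theorem gap_large {K m : ℕ} (hK : 19 < K) (P : ℕ → ℕ → Prop) : GapOk msL 2 K m (TE.gK K) P := by
  have : TE.gK K = 0 := by
    unfold TE.gK
    have h : Nat.ble K 19 = false := by
      rw [← Bool.not_eq_true, Nat.ble_eq]
      omega
    rw [h, cond_false]
  rw [this]
  exact gapOk_zero _ _ _ _ _

/-- the lower bound by a check -/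
theorem gap_small {K : ℕ} {ex : List ℕ}
    (h : (msL.all fun m => ex.contains m || gapChk msL 2 K m (TE.gK K) 6) = true) :
    ∀ m ∈ msL, m ∉ ex → GapOk msL 2 K m (TE.gK K) fun _ _ => True := by
  intro m hm hex
  rw [List.all_eq_true] at h
  have h1 := h m hm
  rw [Bool.or_eq_true, List.contains_iff_mem] at h1
  exact gapOk_of_chk (h1.resolve_left hex) _

/-- **The steps of a base with tables**, words around a ring index. -/
theorem stepsB_of {b : BX} (h : b.Chk) (hf : b.fn.Ok b.id) {tab : ℕ → TE}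
    (ht : ∀ e, (b.k - 1) / 2 ≤ e → e ≤ b.k → (tab e).Ok b e) {ex : List ℕ}
    (hg : ∀ m ∈ msL, m ∉ ex → GapOk msL 2 b.k m (TE.gK b.k) fun _ _ => True) : StepsB b.k ex := by
  intro m hm hex tw
  exact bstepD_of_stepP (stepP_B h hf ht msL_five (msL_sub m hm) (hg m hm hex))
    (fun tw => nG_le m hm tw) (fun tw => Nat.add_le_add_left (nQ_le m hm tw) 5) (gG_le m hm) (gC_le m hm)
    tw fun _ _ _ _ _ => trivial

/-- **The steps of a base with tables**, words in the columns of `D`. -/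
theorem stepsA_of {b : BX} (h : b.Chk) (hf : b.fn.Ok b.id) {tab : ℕ → TE}
    (ht : ∀ e, (b.k - 1) / 2 ≤ e → e ≤ b.k → (tab e).OkA b e) {ex : List ℕ}
    (hg : ∀ m ∈ msL, m ∉ ex → GapOk msL 2 b.k m (TE.gK b.k) fun _ _ => True) : StepsA b.k ex := by
  intro m hm hex tw
  exact bstepD_of_stepP (stepP_A h hf ht msL_five (msL_sub m hm) (hg m hm hex))
    (fun tw => nG_le m hm tw) (fun tw => Nat.add_le_add_left (nG_le m hm tw) 5) (gG_le m hm) (gG_le m hm)
    tw fun _ _ _ _ _ => trivial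

/-- no fine digits for small sizes -/
theorem fine_small {m a b T : ℕ} (h1 : TFn m (fQ a b) ≤ T) (hT : T < 17 * m) : a = 0 ∧ b = 0 := by
  have h2 : m * fQ a b ≤ T := le_trans (Nat.le_add_right _ _) h1
  have h3 : fQ a b < 17 := by
    by_contra h
    have : m * 17 ≤ m * fQ a b := Nat.mul_le_mul_left _ (by omega)
    omega
  have p17 : 1 ≤ 17 ^ a := Nat.one_le_pow _ _ (by norm_num)
  have p25 : 1 ≤ 25 ^ b := Nat.one_le_pow _ _ (by norm_num)
  unfold fQ at h3
  constructor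
  · by_contra h
    have e1 : 17 ^ 1 ≤ 17 ^ a := Nat.pow_le_pow_right (by norm_num) (by omega)
    have e2 : 17 ^ a * 1 ≤ 17 ^ a * 25 ^ b := Nat.mul_le_mul_left _ p25
    omega
  · by_contra h
    have e1 : 25 ^ 1 ≤ 25 ^ b := Nat.pow_le_pow_right (by norm_num) (by omega)
    have e2 : 1 * 25 ^ b ≤ 17 ^ a * 25 ^ b := Nat.mul_le_mul_right _ p17
    omega

theorem dirL_lt : ∀ T ∈ dirL, T < 110 := by decide

/-- **The steps of a base with tables**, words in the columns of `D`, direct sizes. -/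
theorem stepsAD_of {b : BX} (h : b.Chk) (hf : b.fn.Ok b.id) {tab : ℕ → TE}
    (ht : ∀ e, (b.k - 1) / 2 ≤ e → e ≤ b.k → (tab e).OkA b e) {ex : List ℕ}
    (hg : (msL.all fun m => ex.contains m || (gapChk msL 2 b.k m (TE.gK b.k) 6 ||
      (Nat.ble 7 m && gapChk1 msL 2 b.k m (TE.gK b.k) 6))) = true) : StepsAD b.k ex := by
  intro m hm hex tw
  rw [List.all_eq_true] at hg
  have h1 := hg m hm
  rw [Bool.or_eq_true, List.contains_iff_mem, Bool.or_eq_true, Bool.and_eq_true,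
    Nat.ble_eq] at h1
  rcases h1.resolve_left hex with h2 | ⟨h2, h3⟩
  · exact bstepD_of_stepP (stepP_A h hf ht msL_five (msL_sub m hm)
      (gapOk_of_chk h2 fun _ _ => True))
      (fun tw => nG_le m hm tw) (fun tw => Nat.add_le_add_left (nG_le m hm tw) 5) (gG_le m hm) (gG_le m hm)
      tw fun _ _ _ _ _ => trivial
  · refine bstepD_of_stepP (stepP_A h hf ht msL_five (msL_sub m hm)
      (gapOk_of_chk1 h3 (P := fun a c => a = 0 ∧ c = 0) fun _ _ h => h))
      (fun tw => nG_le m hm tw) (fun tw => Nat.add_le_add_left (nG_le m hm tw) 5) (gG_le m hm) (gG_le m hm)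
      tw ?_
    intro a c T h4 h5
    have := dirL_lt T h5
    exact fine_small h4 (by omega)

/-- the word statement for a single size -/
theorem pt_single {b : BX} (h : b.Chk) (hf : b.fn.Ok b.id) {tab : ℕ → TE}
    (ht : ∀ e, (b.k - 1) / 2 ≤ e → e ≤ b.k → (tab e).OkF b e) {m : ℕ} (hm : m ∈ msL) {a c : ℕ}
    (hmQ : Nat.Coprime m (fQ a c)) {T s : ℕ} (h1 : TFn m (fQ a c) ≤ T)
    (h2 : T ≤ TFn m (fQ a c) + m * fQ a c)
    (hPW : PW T (TFn m (fQ a c)) (m * fQ a c) (m * fQ a c) s)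
    (hGs : gG m (twF a c) + s ≤ b.k ∨ TFn m (fQ a c) + 1 ≤ b.k) {A : ℕ}
    (hc : finChk msL 2 A b.k (m * fQ a c) T tab ((b.k - 1) / 2) = true) :
    PT (b.k * (m * fQ a c) + T) (5 + gG m (twF a c)) := by
  have hn := nG_le m hm (twF a c)
  refine pt_of_nl ((stepF_A h hf ht msL_five (msL_sub m hm) hmQ h1 h2 hPW ?_ hc).mono
    (Nat.add_le_add_left hn 5))
  rcases hGs with hGs | hGs
  · left
    omega
  · exact Or.inr hGs

theorem L13_sub : ∀ p ∈ L13, p.1 ∈ msL ∧ p.1 ≤ p.2 ∧ p.2 ≤ 2 * p.1 := by decide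

/-- **The steps with the base of size 13.** -/
theorem steps13_of {b : BX} (hk : b.k = 13) (h : b.Chk) (hf : b.fn.Ok b.id) {tab : ℕ → TE}
    (ht : ∀ e, (b.k - 1) / 2 ≤ e → e ≤ b.k → (tab e).OkF b e)
    (hc : (L13.all fun p => finChk msL 2 3 13 p.1 p.2 tab 6) = true) : Steps13 := by
  intro p hp s hPW hGs
  obtain ⟨p1, p2, p3⟩ := L13_sub p hp
  have e00 : fQ 0 0 = 1 := by norm_num [fQ]
  have eM : p.1 * fQ 0 0 = p.1 := by rw [e00, mul_one]
  have eT : TFn p.1 (fQ 0 0) = p.1 := by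
    unfold TFn
    rw [eM, e00]
    norm_num
  have et : twF 0 0 = false := by decide
  rw [List.all_eq_true] at hc
  have key := pt_single h hf ht p1 (a := 0) (c := 0) (by rw [e00]; exact Nat.coprime_one_right _)
    (T := p.2) (s := s) (by rw [eT]; exact p2) (by rw [eT, eM]; omega)
    (by rw [eT, eM]; exact hPW) (by rw [et, eT, hk]; exact hGs) (A := 3)
    (by rw [eM, hk]; exact hc p hp)
  rw [eM, et, hk] at key
  exact key

theorem L13b_sub : ∀ p ∈ L13b, p.1 ∈ msL ∧ Nat.Coprime p.1 (fQ 1 0) ∧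
    TFn p.1 (fQ 1 0) ≤ p.2 ∧ p.2 ≤ TFn p.1 (fQ 1 0) + p.1 * fQ 1 0 := by decide

/-- **The steps with the base of size 13 and `Q = 17`.** -/
theorem steps13b_of {b : BX} (hk : b.k = 13) (h : b.Chk) (hf : b.fn.Ok b.id) {tab : ℕ → TE}
    (ht : ∀ e, (b.k - 1) / 2 ≤ e → e ≤ b.k → (tab e).OkF b e)
    (hc : (L13b.all fun p => finChk msL 2 4 13 (p.1 * fQ 1 0) p.2 tab 6) = true) :
    Steps13b := by
  intro p hp s hPW hGs
  obtain ⟨p1, p2, p3, p4⟩ := L13b_sub p hp
  have et : twF 1 0 = true := by decide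
  rw [List.all_eq_true] at hc
  have key := pt_single h hf ht p1 (a := 1) (c := 0) p2 (T := p.2) (s := s) p3 p4 hPW
    (by rw [et, hk]; exact Or.inl hGs) (A := 4) (by rw [hk]; exact hc p hp)
  rw [et, hk] at key
  exact key

end SqIns
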